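import Pool.Agent.P.MP_7b7370_an.Basic

/-! Calculus of the iterated integrals `PI` and `T`. -/

set_option autoImplicit false

namespace Pool.Agent.PSz

open Real Set MeasureTheory intervalIntegral

abbrev Cont (Γ : ℝ → ℝ → ℝ) : Prop := Continuous fun p : ℝ × ℝ => Γ p.1 p.2

lemma Cont.ray {Γ : ℝ → ℝ → ℝ} (h : Cont Γ) (θ : ℝ) : Continuous fun r => Γ r θ :=
  Continuous.comp (g := fun p : ℝ × ℝ => Γ p.1 p.2) (f := fun r => (r, θ)) h (by fun_prop)

lemma Cont.arc {Γ : ℝ → ℝ → ℝ} (h : Cont Γ) (r : ℝ) : Continuous fun θ => Γ r θ :=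
  Continuous.comp (g := fun p : ℝ × ℝ => Γ p.1 p.2) (f := fun θ => (r, θ)) h (by fun_prop)

lemma Cont.ii {Γ : ℝ → ℝ → ℝ} (h : Cont Γ) (θ a b : ℝ) :
    IntervalIntegrable (fun r => Γ r θ * r) volume a b :=
  ((h.ray θ).mul continuous_id).intervalIntegrable a b

lemma Cont.inner {Γ : ℝ → ℝ → ℝ} (h : Cont Γ) {r0 r1 : ℝ → ℝ} (h0 : Continuous r0)
    (h1 : Continuous r1) : Continuous fun θ => ∫ r in (r0 θ)..(r1 θ), Γ r θ * r := by
  have hc : Continuous (Function.uncurry fun θ r => Γ r θ * r) :=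
    (Continuous.comp (g := fun p : ℝ × ℝ => Γ p.1 p.2) (f := fun p : ℝ × ℝ => (p.2, p.1)) h
      (by fun_prop)).mul continuous_snd
  have e : (fun θ => ∫ r in (r0 θ)..(r1 θ), Γ r θ * r) = fun θ =>
      (∫ r in (0 : ℝ)..(r1 θ), Γ r θ * r) - ∫ r in (0 : ℝ)..(r0 θ), Γ r θ * r := by
    funext θ; rw [integral_interval_sub_left (h.ii θ _ _) (h.ii θ _ _)]
  rw [e]
  exact (continuous_parametric_intervalIntegral_of_continuous hc h1).sub
    (continuous_parametric_intervalIntegral_of_continuous hc h0)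

section PI
variable {θa θb : ℝ} {r0 r1 r2 : ℝ → ℝ} {Γ Γ' : ℝ → ℝ → ℝ}

lemma PI_add (h : Cont Γ) (h' : Cont Γ') (h0 : Continuous r0) (h1 : Continuous r1) :
    PI θa θb r0 r1 (fun r θ => Γ r θ + Γ' r θ) = PI θa θb r0 r1 Γ + PI θa θb r0 r1 Γ' := by
  unfold PI
  rw [← integral_add ((h.inner h0 h1).intervalIntegrable _ _)
    ((h'.inner h0 h1).intervalIntegrable _ _)]
  congr 1; funext θ
  rw [← integral_add (h.ii _ _ _) (h'.ii _ _ _)]
  congr 1; funext r; ring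

lemma PI_const_mul (c : ℝ) :
    PI θa θb r0 r1 (fun r θ => c * Γ r θ) = c * PI θa θb r0 r1 Γ := by
  unfold PI
  rw [← intervalIntegral.integral_const_mul]
  congr 1; funext θ
  rw [← intervalIntegral.integral_const_mul]
  congr 1; funext r; ring

lemma PI_sub (h : Cont Γ) (h' : Cont Γ') (h0 : Continuous r0) (h1 : Continuous r1) :
    PI θa θb r0 r1 (fun r θ => Γ r θ - Γ' r θ) = PI θa θb r0 r1 Γ - PI θa θb r0 r1 Γ' := by
  have := PI_add (θa := θa) (θb := θb) h (Γ' := fun r θ => (-1) * Γ' r θ)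
    (continuous_const.mul h') h0 h1
  rw [PI_const_mul] at this
  simpa [sub_eq_add_neg] using this

lemma PI_split (h : Cont Γ) (h0 : Continuous r0) (h1 : Continuous r1) (h2 : Continuous r2) :
    PI θa θb r0 r1 Γ + PI θa θb r1 r2 Γ = PI θa θb r0 r2 Γ := by
  unfold PI
  rw [← integral_add ((h.inner h0 h1).intervalIntegrable _ _)
    ((h.inner h1 h2).intervalIntegrable _ _)]
  congr 1; funext θ
  exact integral_add_adjacent_intervals (h.ii _ _ _) (h.ii _ _ _)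

lemma PI_mono (h : Cont Γ) (h' : Cont Γ') (h0 : Continuous r0) (h1 : Continuous r1)
    (hab : θa ≤ θb) (hr : ∀ θ ∈ Ioo θa θb, 0 ≤ r0 θ ∧ r0 θ ≤ r1 θ)
    (hle : ∀ θ ∈ Ioo θa θb, ∀ r ∈ Ioo (r0 θ) (r1 θ), Γ r θ ≤ Γ' r θ) :
    PI θa θb r0 r1 Γ ≤ PI θa θb r0 r1 Γ' := by
  unfold PI
  refine integral_mono_on_of_le_Ioo hab ((h.inner h0 h1).intervalIntegrable _ _)
    ((h'.inner h0 h1).intervalIntegrable _ _) fun θ hθ => ?_
  refine integral_mono_on_of_le_Ioo (hr θ hθ).2 (h.ii _ _ _) (h'.ii _ _ _) fun r hr' => ?_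
  exact mul_le_mul_of_nonneg_right (hle θ hθ r hr') ((hr θ hθ).1.trans hr'.1.le)

lemma PI_zero : PI θa θb r0 r1 (fun _ _ => 0) = 0 := by simp [PI]

lemma PI_nonneg (h : Cont Γ) (h0 : Continuous r0) (h1 : Continuous r1)
    (hab : θa ≤ θb) (hr : ∀ θ ∈ Ioo θa θb, 0 ≤ r0 θ ∧ r0 θ ≤ r1 θ)
    (hle : ∀ θ ∈ Ioo θa θb, ∀ r ∈ Ioo (r0 θ) (r1 θ), 0 ≤ Γ r θ) :
    0 ≤ PI θa θb r0 r1 Γ := by
  rw [← PI_zero (θa := θa) (θb := θb) (r0 := r0) (r1 := r1)]
  exact PI_mono continuous_const h h0 h1 hab hr hle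

lemma PI_congr (h : Cont Γ) (h' : Cont Γ') (h0 : Continuous r0) (h1 : Continuous r1)
    (hab : θa ≤ θb) (hr : ∀ θ ∈ Ioo θa θb, 0 ≤ r0 θ ∧ r0 θ ≤ r1 θ)
    (hle : ∀ θ ∈ Ioo θa θb, ∀ r ∈ Ioo (r0 θ) (r1 θ), Γ r θ = Γ' r θ) :
    PI θa θb r0 r1 Γ = PI θa θb r0 r1 Γ' :=
  le_antisymm (PI_mono h h' h0 h1 hab hr fun θ a r b => (hle θ a r b).le)
    (PI_mono h' h h0 h1 hab hr fun θ a r b => (hle θ a r b).ge)

/-- change of the limits where they agree on the sector -/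
lemma PI_congr_lim {r0' r1' : ℝ → ℝ} (hab : θa ≤ θb)
    (e0 : ∀ θ ∈ Icc θa θb, r0 θ = r0' θ) (e1 : ∀ θ ∈ Icc θa θb, r1 θ = r1' θ) :
    PI θa θb r0 r1 Γ = PI θa θb r0' r1' Γ := by
  unfold PI
  refine integral_congr fun θ hθ => ?_
  rw [uIcc_of_le hab] at hθ
  simp only [e0 θ hθ, e1 θ hθ]

lemma PI_empty (θa : ℝ) : PI θa θa r0 r1 Γ = 0 := by simp [PI]

lemma PI_cs (h : Cont Γ) (h' : Cont Γ') (h0 : Continuous r0) (h1 : Continuous r1)
    (hab : θa ≤ θb) (hr : ∀ θ ∈ Ioo θa θb, 0 ≤ r0 θ ∧ r0 θ ≤ r1 θ) :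
    PI θa θb r0 r1 (fun r θ => Γ r θ * Γ' r θ) ^ 2 ≤
      PI θa θb r0 r1 (fun r θ => Γ r θ ^ 2) * PI θa θb r0 r1 (fun r θ => Γ' r θ ^ 2) := by
  have key : ∀ x : ℝ, 0 ≤ PI θa θb r0 r1 (fun r θ => Γ r θ ^ 2) * (x * x) +
      2 * PI θa θb r0 r1 (fun r θ => Γ r θ * Γ' r θ) * x +
      PI θa θb r0 r1 (fun r θ => Γ' r θ ^ 2) := by
    intro x
    have := PI_nonneg (θa := θa) (θb := θb) (Γ := fun r θ =>
      ((x * x) * Γ r θ ^ 2 + (2 * x) * (Γ r θ * Γ' r θ)) + Γ' r θ ^ 2)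
      (((continuous_const.mul (h.pow 2)).add (continuous_const.mul (h.mul h'))).add (h'.pow 2))
      h0 h1 hab hr fun θ _ r _ => by nlinarith [sq_nonneg (x * Γ r θ + Γ' r θ)]
    rw [PI_add ((continuous_const.mul (h.pow 2)).add (continuous_const.mul (h.mul h')))
      (h'.pow 2) h0 h1, PI_add (continuous_const.mul (h.pow 2))
      (continuous_const.mul (h.mul h')) h0 h1, PI_const_mul, PI_const_mul] at this
    linarith
  have := discrim_le_zero key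
  unfold discrim at this
  nlinarith

end PI

section T
variable {x0 x1 x2 : ℝ} {Γ Γ' : ℝ → ℝ → ℝ}

lemma T_eq : T x0 x1 Γ = PI (-1) 1 (fun _ => x0) (fun _ => x1) Γ := rfl

lemma T_add (h : Cont Γ) (h' : Cont Γ') :
    T x0 x1 (fun x η => Γ x η + Γ' x η) = T x0 x1 Γ + T x0 x1 Γ' :=
  PI_add h h' continuous_const continuous_const

lemma T_sub (h : Cont Γ) (h' : Cont Γ') :
    T x0 x1 (fun x η => Γ x η - Γ' x η) = T x0 x1 Γ - T x0 x1 Γ' :=
  PI_sub h h' continuous_const continuous_const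

lemma T_const_mul (c : ℝ) : T x0 x1 (fun x η => c * Γ x η) = c * T x0 x1 Γ := PI_const_mul c

lemma T_div_const (c : ℝ) : T x0 x1 (fun x η => Γ x η / c) = T x0 x1 Γ / c := by
  rw [div_eq_inv_mul, ← T_const_mul]; congr 1; funext x η; rw [div_eq_inv_mul]

lemma T_split (h : Cont Γ) : T x0 x1 Γ + T x1 x2 Γ = T x0 x2 Γ :=
  PI_split h continuous_const continuous_const continuous_const

lemma T_mono (h : Cont Γ) (h' : Cont Γ') (h0 : 0 ≤ x0) (h1 : x0 ≤ x1)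
    (hle : ∀ x ∈ Ioo x0 x1, ∀ η ∈ Ioo (-1 : ℝ) 1, Γ x η ≤ Γ' x η) : T x0 x1 Γ ≤ T x0 x1 Γ' :=
  PI_mono h h' continuous_const continuous_const (by norm_num) (fun _ _ => ⟨h0, h1⟩)
    fun η hη x hx => hle x hx η hη

lemma T_nonneg (h : Cont Γ) (h0 : 0 ≤ x0) (h1 : x0 ≤ x1)
    (hle : ∀ x ∈ Ioo x0 x1, ∀ η ∈ Ioo (-1 : ℝ) 1, 0 ≤ Γ x η) : 0 ≤ T x0 x1 Γ :=
  PI_nonneg h continuous_const continuous_const (by norm_num) (fun _ _ => ⟨h0, h1⟩)
    fun η hη x hx => hle x hx η hη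

lemma T_congr (h : Cont Γ) (h' : Cont Γ') (h0 : 0 ≤ x0) (h1 : x0 ≤ x1)
    (hle : ∀ x ∈ Ioo x0 x1, ∀ η ∈ Ioo (-1 : ℝ) 1, Γ x η = Γ' x η) : T x0 x1 Γ = T x0 x1 Γ' :=
  le_antisymm (T_mono h h' h0 h1 fun x a η b => (hle x a η b).le)
    (T_mono h' h h0 h1 fun x a η b => (hle x a η b).ge)

lemma T_le_range (h : Cont Γ) (h0 : 0 ≤ x1) (h1 : x1 ≤ x2)
    (hle : ∀ x ∈ Ioo x1 x2, ∀ η ∈ Ioo (-1 : ℝ) 1, 0 ≤ Γ x η) : T x0 x1 Γ ≤ T x0 x2 Γ := by
  rw [← T_split (x0 := x0) (x1 := x1) (x2 := x2) h]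
  linarith [T_nonneg h h0 h1 hle]

lemma T_cs (h : Cont Γ) (h' : Cont Γ') (h0 : 0 ≤ x0) (h1 : x0 ≤ x1) :
    T x0 x1 (fun x η => Γ x η * Γ' x η) ^ 2 ≤
      T x0 x1 (fun x η => Γ x η ^ 2) * T x0 x1 (fun x η => Γ' x η ^ 2) :=
  PI_cs h h' continuous_const continuous_const (by norm_num) fun _ _ => ⟨h0, h1⟩

lemma T_const (c : ℝ) : T x0 x1 (fun _ _ => c) = c * (x1 ^ 2 - x0 ^ 2) := by
  have : ∫ x in x0..x1, c * x = c * ((x1 ^ 2 - x0 ^ 2) / 2) := by
    rw [intervalIntegral.integral_const_mul, integral_id]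
  simp only [T, this, intervalIntegral.integral_const, smul_eq_mul]
  ring

lemma T_neg_arg : T x0 x1 (fun x η => Γ x (-η)) = T x0 x1 Γ := by
  unfold T
  have := integral_comp_neg (a := (-1 : ℝ)) (b := 1) (fun η => ∫ x in x0..x1, Γ x η * x)
  simpa using this

lemma T_odd (h : ∀ x η, Γ x (-η) = -Γ x η) : T x0 x1 Γ = 0 := by
  have h1 := T_neg_arg (x0 := x0) (x1 := x1) (Γ := Γ)
  have h2 := T_const_mul (x0 := x0) (x1 := x1) (Γ := Γ) (-1)
  simp only [h] at h1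
  simp only [neg_mul, one_mul] at h2
  linarith

/-- Fubini -/
lemma T_swap (h : Cont Γ) : T x0 x1 Γ = ∫ x in x0..x1, (∫ η in (-1 : ℝ)..1, Γ x η) * x := by
  unfold T
  simp only [← intervalIntegral.integral_mul_const]
  have hc : Continuous (Function.uncurry fun η x => Γ x η * x) :=
    (Continuous.comp (g := fun p : ℝ × ℝ => Γ p.1 p.2) (f := fun p : ℝ × ℝ => (p.2, p.1)) h
      (by fun_prop)).mul continuous_snd
  wlog hx : x0 ≤ x1 generalizing x0 x1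
  · have := this (not_le.1 hx).le
    rw [integral_symm x1 x0, ← this, ← intervalIntegral.integral_neg]
    congr 1; funext η; exact integral_symm _ _
  simp only [integral_of_le hx, integral_of_le (by norm_num : (-1 : ℝ) ≤ 1)]
  apply integral_integral_swap
  rw [Measure.prod_restrict]
  exact (hc.continuousOn.integrableOn_compact (isCompact_Icc.prod isCompact_Icc)).mono_set
    (prod_mono Ioc_subset_Icc_self Ioc_subset_Icc_self)

/-- functions of `x` only -/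
lemma T_radial (f : ℝ → ℝ) : T x0 x1 (fun x _ => f x) = 2 * ∫ x in x0..x1, f x * x := by
  simp only [T, intervalIntegral.integral_const, smul_eq_mul]
  norm_num

/-- dilation -/
lemma T_scale {l : ℝ} (hl : l ≠ 0) :
    T x0 x1 (fun x η => Γ (l * x) η) = T (l * x0) (l * x1) Γ / l ^ 2 := by
  unfold T
  rw [← intervalIntegral.integral_div]
  congr 1; funext η
  have := intervalIntegral.integral_comp_mul_left (a := x0) (b := x1) (fun x => Γ x η * x) hl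
  simp only [smul_eq_mul] at this
  have e : (fun x => Γ (l * x) η * x) = fun x => l⁻¹ * (Γ (l * x) η * (l * x)) := by
    funext x; field_simp
  rw [e, intervalIntegral.integral_const_mul, this]; field_simp

end T

/-! ### elementary bounds for the reference constants -/

section consts
variable {a : ℝ}

lemma sg_ge (h0 : 0 < a) (h1 : a ≤ 1 / 1000) : a ≤ sg a :=
  le_tan h0.le (by linarith [pi_gt_three])

lemma cos_ge (a : ℝ) : 1 - a ^ 2 / 2 ≤ cos a := one_sub_sq_div_two_le_cos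

lemma sg_le (h0 : 0 < a) (h1 : a ≤ 1 / 1000) : sg a ≤ 1.001 * a := by
  have hc := cos_ge a
  have hc' : 0 < cos a := by nlinarith
  unfold sg
  rw [tan_eq_sin_div_cos, div_le_iff₀ hc']
  have := sin_le h0.le
  nlinarith

lemma sg_pos (h0 : 0 < a) (h1 : a ≤ 1 / 1000) : 0 < sg a := h0.trans_le (sg_ge h0 h1)

lemma X2_le (h0 : 0 < a) (h1 : a ≤ 1 / 1000) : X2 a ≤ 1 :=
  (div_le_one (sg_pos h0 h1)).2 (sg_ge h0 h1)

lemma X2_ge (h0 : 0 < a) (h1 : a ≤ 1 / 1000) : 1 - a ^ 2 / 2 ≤ X2 a := by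
  have hc := cos_ge a
  have hc' : 0 < cos a := by nlinarith
  have hs : 0 < sin a := sin_pos_of_pos_of_lt_pi h0 (by linarith [pi_gt_three])
  unfold X2
  rw [tan_eq_sin_div_cos, div_div_eq_mul_div, le_div_iff₀ hs]
  have := sin_le h0.le
  nlinarith

lemma X2_mul_sg (h0 : 0 < a) (h1 : a ≤ 1 / 1000) : X2 a * sg a = a := by
  have := (sg_pos h0 h1).ne'
  unfold X2; unfold sg at this ⊢; field_simp

lemma om_eq : om a = a * sg a := rfl

lemma om_ge (h0 : 0 < a) (h1 : a ≤ 1 / 1000) : a ^ 2 ≤ om a := by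
  rw [om_eq]; nlinarith [sg_ge h0 h1]

lemma om_le (h0 : 0 < a) (h1 : a ≤ 1 / 1000) : om a ≤ 1.001 * a ^ 2 := by
  rw [om_eq]; nlinarith [sg_le h0 h1]

lemma abs_q0_sub_one (h0 : 0 < a) (h1 : a ≤ 1 / 1000) {y : ℝ} (hy : |y| ≤ 1) :
    |q0 a y - 1| ≤ 1.001 * a ^ 2 := by
  have hy2 : y ^ 2 ≤ 1 := by nlinarith [abs_nonneg y, sq_abs y]
  have := om_ge h0 h1
  have := om_le h0 h1
  have := X2_ge h0 h1
  have := X2_le h0 h1
  unfold q0
  rw [abs_le]; constructor <;> nlinarith [sq_nonneg y, sq_nonneg a]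

@[fun_prop] lemma contDiff_q0 (a : ℝ) : ContDiff ℝ 1 (q0 a) := by unfold q0; fun_prop
@[fun_prop] lemma continuous_q0 (a : ℝ) : Continuous (q0 a) := by unfold q0; fun_prop

lemma hasDerivAt_q0 (a y : ℝ) : HasDerivAt (q0 a) (2 * om a * y) y := by
  have := ((hasDerivAt_pow 2 y).const_mul (om a)).const_add (X2 a)
  refine this.congr_deriv ?_; simp; ring

lemma q0_pos (h0 : 0 < a) (h1 : a ≤ 1 / 1000) (y : ℝ) : 0 < q0 a y := by
  have := om_ge h0 h1
  have := X2_ge h0 h1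
  unfold q0; nlinarith [sq_nonneg y, mul_nonneg (sq_nonneg y) (sq_nonneg a)]

lemma integral_inv_q0 (h0 : 0 < a) (h1 : a ≤ 1 / 1000) :
    ∫ η in (-1 : ℝ)..1, 1 / q0 a η = 2 := by
  have hs := sg_pos h0 h1
  have hd : ∀ η : ℝ, HasDerivAt (fun η => arctan (sg a * η) / a) (1 / q0 a η) η := by
    intro η
    have := (((hasDerivAt_id η).const_mul (sg a)).arctan).div_const a
    refine this.congr_deriv ?_
    have hq := (q0_pos h0 h1 η).ne'
    have e : q0 a η = a / sg a * (1 + (sg a * η) ^ 2) := by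
      unfold q0 X2; rw [om_eq]; change a / sg a + _ = _; field_simp
    rw [e]; simp only [id]; field_simp
  rw [integral_eq_sub_of_hasDerivAt (fun η _ => hd η)
    ((continuous_const.div (continuous_q0 a) fun η => (q0_pos h0 h1 η).ne').intervalIntegrable _ _)]
  have : arctan (sg a) = a := arctan_tan (by linarith [pi_gt_three]) (by linarith [pi_gt_three])
  simp only [mul_one, mul_neg, arctan_neg, this]
  field_simp; ring

end consts

end Pool.Agent.PSz
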