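import Pool.Agent.P.MP_7b7370_an.AsmB

/-! The summation for a fixed almost minimiser. -/

set_option autoImplicit false

namespace Pool.Agent.PSz.Asm

open Real Set MeasureTheory intervalIntegral

lemma exists_c {N : ℕ} {θ : ℕ → ℝ} (hθ : Monotone θ) (h0 : θ 0 = -π) (hN : θ N = π) {t s : ℝ}
    (ht : 5.7 ≤ t) (ht' : t ≤ 5.8) (hs : 0.99 ≤ s) (hs1 : s ≤ 1) {H : ℕ → ℝ → ℝ → ℝ}
    (cH : ∀ k < N, Cont (H k))
    (hH : ∑ k ∈ Finset.range N, PI (θ k) (θ (k + 1)) (fun _ => 0) (fun _ => s)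
      (fun r φ => H k r φ ^ 2) ≤ 1 / 100) {u : ℂ → ℝ} (hu : ContDiff ℝ 1 u) :
    ∃ c : ℝ, c ^ 2 ≤ 4 * PI (-π) π (fun _ => 0) (fun _ => s) (fun r φ => u (pol r φ)) ^ 2 ∧
      ∑ k ∈ Finset.range N, PI (θ k) (θ (k + 1)) (fun _ => 0) (fun _ => s)
        (fun r φ => c * phi t (pol r φ) - u (pol r φ) - c * H k r φ) = 0 := by
  set P := PI (-π) π (fun _ => 0) (fun _ => s) (fun r φ => u (pol r φ)) with hP
  set Q := PI (-π) π (fun _ => 0) (fun _ => s) (fun r φ => phi t (pol r φ)) with hQ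
  set S := ∑ k ∈ Finset.range N, PI (θ k) (θ (k + 1)) (fun _ => 0) (fun _ => s) (H k) with hS
  have hQ' : 0.78 ≤ Q := by
    have := int_phi ht ht' hs hs1
    simp only [hQ, PI, phi_pol, intervalIntegral.integral_const, smul_eq_mul]
    nlinarith [pi_gt_three]
  have h40 : PI (-π) π (fun _ => 0) (fun _ => s) (fun _ _ => (1 / 40 : ℝ)) ≤ 0.1 := by
    have : ∫ r in (0 : ℝ)..s, 1 / 40 * r = 1 / 40 * ((s ^ 2 - 0 ^ 2) / 2) := by
      rw [intervalIntegral.integral_const_mul, integral_id]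
    simp only [PI, this, intervalIntegral.integral_const, smul_eq_mul]
    have : s ^ 2 ≤ 1 := by nlinarith
    nlinarith [pi_le_four, sq_nonneg s]
  have hS' : S ≤ 0.2 := by
    have h1 : S ≤ ∑ k ∈ Finset.range N, (10 * PI (θ k) (θ (k + 1)) (fun _ => 0) (fun _ => s)
        (fun r φ => H k r φ ^ 2) +
        PI (θ k) (θ (k + 1)) (fun _ => 0) (fun _ => s) (fun _ _ => (1 / 40 : ℝ))) := by
      refine Finset.sum_le_sum fun k hk => ?_
      have ck := cH k (Finset.mem_range.1 hk)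
      have c1 : Cont fun r φ => 10 * H k r φ ^ 2 := continuous_const.mul (ck.pow 2)
      rw [← PI_const_mul, ← PI_add c1 continuous_const continuous_const continuous_const]
      refine PI_mono ck (c1.add continuous_const) continuous_const continuous_const
        (hθ (Nat.le_succ k)) (fun _ _ => ⟨le_rfl, by linarith⟩) fun φ _ r _ => ?_
      nlinarith [sq_nonneg (H k r φ - 1 / 20)]
    rw [Finset.sum_add_distrib, ← Finset.mul_sum, sum_PI N θ continuous_const, h0, hN] at h1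
    linarith
  have hd : 0.5 ≤ Q - S := by linarith
  refine ⟨P / (Q - S), ?_, ?_⟩
  · rw [div_pow, div_le_iff₀ (by positivity)]
    have : 1 ≤ 4 * (Q - S) ^ 2 := by nlinarith
    nlinarith [sq_nonneg P]
  · generalize hc : P / (Q - S) = c
    have e : ∀ k ∈ Finset.range N, PI (θ k) (θ (k + 1)) (fun _ => 0) (fun _ => s)
        (fun r φ => c * phi t (pol r φ) - u (pol r φ) - c * H k r φ) =
        c * PI (θ k) (θ (k + 1)) (fun _ => 0) (fun _ => s) (fun r φ => phi t (pol r φ)) -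
        PI (θ k) (θ (k + 1)) (fun _ => 0) (fun _ => s) (fun r φ => u (pol r φ)) -
        c * PI (θ k) (θ (k + 1)) (fun _ => 0) (fun _ => s) (H k) := fun k hk => by
      have ck := cH k (Finset.mem_range.1 hk)
      have c1 : Cont fun r φ => c * phi t (pol r φ) :=
        continuous_const.mul (c_val (contDiff_phi t))
      rw [PI_sub (c1.sub (c_val hu)) (continuous_const.mul ck) continuous_const continuous_const,
        PI_sub c1 (c_val hu) continuous_const continuous_const, PI_const_mul, PI_const_mul]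
    rw [Finset.sum_congr rfl e, Finset.sum_sub_distrib, Finset.sum_sub_distrib, ← Finset.mul_sum,
      ← Finset.mul_sum, sum_PI N θ (c_val (contDiff_phi t)), sum_PI N θ (c_val hu), h0, hN,
      ← hP, ← hQ, ← hS, ← hc]
    have : Q - S ≠ 0 := by linarith
    field_simp
    ring

lemma mom_le {N : ℕ} {θ : ℕ → ℝ} (hθ : Monotone θ) (h0 : θ 0 = -π) (hN : θ N = π)
    {ε a t c κ C0 Hd : ℝ} (hε : 0 < ε) (hε1 : ε ≤ 1 / 10 ^ 5) (ha : 0 < a) (hNa : N * a = π)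
    (ht0 : 0 ≤ t) (ht : t ≤ 6) (hC0 : 0 ≤ C0) (hHd : 0 ≤ Hd) (hHd1 : Hd ≤ 6.5 * ε)
    {R : ℕ → ℝ → ℝ} (cR : ∀ k, Continuous (R k))
    (hR : ∀ k < N, ∀ φ ∈ Ioo (θ k) (θ (k + 1)), 1 - ε ≤ R k φ ∧ R k φ ≤ 1 + ε)
    {u : ℂ → ℝ} (hu : ContDiff ℝ 1 u)
    (hz : ∀ k < N, ∀ φ ∈ Ioo (θ k) (θ (k + 1)), u (pol (R k φ) φ) = 0 ∨ R k φ = 1 + ε)
    {Hb : ℕ → ℂ → ℝ} (hb : ∀ k < N, ContDiff ℝ 1 (Hb k)) {g : ℕ → ℝ} (hg : ∀ k < N, 0 ≤ g k)
    {nd : ℕ → ℝ → ℝ} {w0 : ℝ} {H Hr Ht : ℕ → ℝ → ℝ → ℝ}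
    (hP : ∀ k < N, Piece (θ k) (θ (k + 1)) (nd k) (nd (k + 1)) w0 (H k) (Hr k) (Ht k))
    {τ : ℝ → ℝ} (hτ : Continuous τ) (hτ1 : ∀ x, τ x ^ 2 ≤ 1) (hτ0 : ∫ x in (-π)..π, τ x = 0)
    (hZ : ∀ k < N, (∫ φ in (θ k)..(θ (k + 1)), (F0 t (R k φ ^ 2) - Hb k (pol (R k φ) φ)
      - gam t * R k φ ^ 3 - κ) * τ φ) ^ 2 ≤ C0 * (a ^ 2 + (a + ε ^ 2) * (θ (k + 1) - θ k)) * g k)
    (hm : |∑ k ∈ Finset.range N, ∫ φ in (θ k)..(θ (k + 1)), R k φ ^ 3 * τ φ| ≤ 3 * (1 + ε) * Hd) :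
    (∑ k ∈ Finset.range N, ∫ φ in (θ k)..(θ (k + 1)),
      (c * phi t (pol ((1 - ε) ^ 2) φ) - u (pol ((1 - ε) ^ 2) φ) - c * H k ((1 - ε) ^ 2) φ) * τ φ) ^ 2
    ≤ 5 * (c ^ 2 * (C0 * (10 * a + 7 * ε ^ 2) * ∑ k ∈ Finset.range N, g k)
      + c ^ 2 * (19000 * ε * Hd) + 7 * (∫ φ in (-π)..π, u (pol (1 + ε) φ) ^ 2)
      + 28 * ε * (∑ k ∈ Finset.range N, PD (θ k) (θ (k + 1)) (fun _ => (1 - ε) ^ 2) (R k)
        (fun z => c * phi t z - u z - c * Hb k z))
      + 28 * c ^ 2 * ∑ k ∈ Finset.range N,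
        Err (θ k) (θ (k + 1)) ((1 - ε) ^ 2) (Hb k) (H k) (Hr k) (Ht k)) := by
  have hab : ∀ k, θ k ≤ θ (k + 1) := fun k => hθ (Nat.le_succ k)
  have hs : 0.99 ≤ (1 - ε) ^ 2 := by nlinarith
  have hs1 : (1 - ε) ^ 2 ≤ 1 := by nlinarith
  have len : ∑ k ∈ Finset.range N, (θ (k + 1) - θ k) = 2 * π := by
    rw [sum_len, h0, hN]; ring
  have p7 : 2 * π ≤ 6.3 := by linarith [pi_lt_d2]
  have gen : ∀ (r q : ℕ → ℝ), (∀ k < N, 0 ≤ q k) →
      (∀ k < N, r k ^ 2 ≤ (θ (k + 1) - θ k) * q k) →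
      (∑ k ∈ Finset.range N, r k) ^ 2 ≤ 7 * ∑ k ∈ Finset.range N, q k := fun r q hq h => by
    have := Finset.sum_sq_le_sum_mul_sum_of_sq_le_mul (Finset.range N)
      (fun k _ => sub_nonneg.2 (hab k)) (fun k hk => hq k (Finset.mem_range.1 hk))
      (fun k hk => h k (Finset.mem_range.1 hk))
    rw [len] at this
    exact this.trans (mul_le_mul_of_nonneg_right (by linarith)
      (Finset.sum_nonneg fun k hk => hq k (Finset.mem_range.1 hk)))
  rw [Finset.sum_congr rfl fun k hk => mom_id (cR k) hu (hb k (Finset.mem_range.1 hk))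
    (hP k (Finset.mem_range.1 hk)).cH hτ (gam t) κ]
  simp only [Finset.sum_sub_distrib, Finset.sum_add_distrib, ← Finset.mul_sum]
  rw [sum_int N θ hτ, h0, hN, hτ0, mul_zero, add_zero]
  refine (five _ _ _ _ _).trans (mul_le_mul_of_nonneg_left ?_ (by norm_num))
  have G0 : 0 ≤ ∑ k ∈ Finset.range N, g k :=
    Finset.sum_nonneg fun k hk => hg k (Finset.mem_range.1 hk)
  refine add_le_add (add_le_add (add_le_add (add_le_add ?_ ?_) ?_) ?_) ?_
  · rw [mul_pow]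
    refine mul_le_mul_of_nonneg_left ?_ (sq_nonneg c)
    refine (Finset.sum_sq_le_sum_mul_sum_of_sq_le_mul (Finset.range N)
      (fun k _ => by have := sub_nonneg.2 (hab k); positivity)
      (fun k hk => hg k (Finset.mem_range.1 hk))
      (fun k hk => hZ k (Finset.mem_range.1 hk))).trans (mul_le_mul_of_nonneg_right ?_ G0)
    rw [← Finset.mul_sum, Finset.sum_add_distrib, ← Finset.mul_sum, len, Finset.sum_const,
      Finset.card_range, nsmul_eq_mul]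
    refine mul_le_mul_of_nonneg_left ?_ hC0
    have : (N : ℝ) * a ^ 2 = π * a := by rw [← hNa]; ring
    rw [this]
    nlinarith [sq_nonneg ε]
  · rw [mul_assoc, mul_pow]
    refine mul_le_mul_of_nonneg_left ?_ (sq_nonneg c)
    have h1 := abs_le.1 (abs_F1_le ht0 ht (q := 1) (by norm_num))
    have h2 : gam t ^ 2 ≤ 280 := by unfold gam; nlinarith
    have h3 := sq_le_sq' (abs_le.1 hm).1 (abs_le.1 hm).2
    have h4 : (3 * (1 + ε) * Hd) ^ 2 ≤ 9.1 * (6.5 * ε * Hd) := by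
      have : (3 * (1 + ε)) ^ 2 ≤ 9.1 := by nlinarith
      rw [mul_pow]
      exact mul_le_mul this (by nlinarith) (sq_nonneg _) (by norm_num)
    rw [mul_pow]
    refine (mul_le_mul h2 (h3.trans h4) (sq_nonneg _) (by norm_num)).trans ?_
    nlinarith [mul_nonneg hε.le hHd]
  · have := sum_int N θ ((c_sq hu).arc (1 + ε))
    rw [h0, hN] at this
    rw [← this]
    refine gen _ _ (fun k _ => integral_nonneg (hab k) fun _ _ => sq_nonneg _) fun k hk => ?_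
    exact (trig_cs (hab k) (c_on (c_val hu) (cR k)) hτ hτ1).trans (mul_le_mul_of_nonneg_left
      (u_le (hz k hk) (hab k) (cR k) hu) (sub_nonneg.2 (hab k)))
  · have hy : ∀ k < N, ContDiff ℝ 1 fun z => c * phi t z - u z - c * Hb k z := fun k hk => by
      have := hb k hk
      fun_prop
    refine (gen _ (fun k => 4 * ε * PD (θ k) (θ (k + 1)) (fun _ => (1 - ε) ^ 2) (R k)
      (fun z => c * phi t z - u z - c * Hb k z)) (fun k hk => ?_) fun k hk => ?_).trans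
      (le_of_eq ?_)
    · exact (integral_nonneg (hab k) fun _ _ => sq_nonneg _).trans
        (diff_le (hab k) hε hε1 (cR k) (hR k hk) (hy k hk))
    · exact (trig_cs (hab k) ((c_on (c_val (hy k hk)) (cR k)).sub ((c_val (hy k hk)).arc _))
        hτ hτ1).trans (mul_le_mul_of_nonneg_left
        (diff_le (hab k) hε hε1 (cR k) (hR k hk) (hy k hk)) (sub_nonneg.2 (hab k)))
    · rw [← Finset.mul_sum]; ring
  · rw [mul_pow]
    refine (mul_le_mul_of_nonneg_left (gen _ (fun k => 4 *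
      Err (θ k) (θ (k + 1)) ((1 - ε) ^ 2) (Hb k) (H k) (Hr k) (Ht k)) (fun k hk => ?_)
      fun k hk => ?_) (sq_nonneg c)).trans (le_of_eq ?_)
    · exact mul_nonneg (by norm_num) (err_nonneg (hab k) (sq_nonneg _) (hP k hk) (hb k hk))
    · exact (trig_cs (hab k) (((hP k hk).cH.arc _).sub ((c_val (hb k hk)).arc _)) hτ hτ1).trans
        (mul_le_mul_of_nonneg_left (trace_err (hab k) hs hs1 (hP k hk) (hb k hk))
          (sub_nonneg.2 (hab k)))
    · rw [← Finset.mul_sum]; ring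

end Pool.Agent.PSz.Asm
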