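import Mathlib

/-! Parseval, Bessel and Wirtinger for piecewise continuous functions on the circle. -/

set_option autoImplicit false

namespace Pool.Agent.PSz.LF

open Real Set MeasureTheory intervalIntegral

/-- integral over the circle of a function given by pieces -/
noncomputable def SI (N : ℕ) (θ : ℕ → ℝ) (F : ℕ → ℝ → ℝ) : ℝ :=
  ∑ k ∈ Finset.range N, ∫ φ in (θ k)..(θ (k + 1)), F k φ

noncomputable def glue (N : ℕ) (θ : ℕ → ℝ) (F : ℕ → ℝ → ℝ) (φ : ℝ) : ℝ :=
  ∑ k ∈ Finset.range N, (Ioc (θ k) (θ (k + 1))).indicator (F k) φ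

variable {N : ℕ} {θ : ℕ → ℝ} {F G : ℕ → ℝ → ℝ}

lemma glue_eq (hθ : Monotone θ) {j : ℕ} (hj : j < N) {φ : ℝ} (hφ : φ ∈ Ioc (θ j) (θ (j + 1))) :
    glue N θ F φ = F j φ := by
  unfold glue
  rw [Finset.sum_eq_single j, indicator_of_mem hφ]
  · intro k _ hk
    apply indicator_of_notMem
    intro h
    rcases lt_or_gt_of_ne hk with h1 | h1
    · exact absurd (hφ.1.trans_le (h.2.trans (hθ h1))) (lt_irrefl _)
    · exact absurd (h.1.trans_le (hφ.2.trans (hθ h1))) (lt_irrefl _)
  · intro h; exact absurd (Finset.mem_range.2 hj) h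

lemma integral_glue {E : Type*} [NormedAddCommGroup E] [NormedSpace ℝ E] (hθ : Monotone θ)
    (hF : ∀ k < N, Continuous (F k)) {H : ℝ → ℝ → E}
    (hH : Continuous fun p : ℝ × ℝ => H p.1 p.2) :
    ∫ φ in (θ 0)..(θ N), H φ (glue N θ F φ)
      = ∑ k ∈ Finset.range N, ∫ φ in (θ k)..(θ (k + 1)), H φ (F k φ) := by
  have hle : ∀ k, θ k ≤ θ (k + 1) := fun k => hθ (Nat.le_succ k)
  have hc : ∀ k < N, Continuous fun φ => H φ (F k φ) := fun k hk =>
    hH.comp (continuous_id.prodMk (hF k hk))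
  have he : ∀ k < N, EqOn (fun φ => H φ (F k φ)) (fun φ => H φ (glue N θ F φ))
      (uIoc (θ k) (θ (k + 1))) := by
    intro k hk φ hφ
    rw [uIoc_of_le (hle k)] at hφ
    simp only [glue_eq hθ hk hφ]
  rw [← sum_integral_adjacent_intervals fun k hk =>
    ((hc k hk).intervalIntegrable _ _).congr (he k hk)]
  refine Finset.sum_congr rfl fun k hk => ?_
  exact (integral_congr_ae (Filter.Eventually.of_forall (he k (Finset.mem_range.1 hk)))).symm

lemma memLp_glue (hF : ∀ k < N, Continuous (F k)) (a b : ℝ) :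
    MemLp (fun φ => (glue N θ F φ : ℂ)) 2 (volume.restrict (Ioc a b)) := by
  refine MemLp.ofReal (f := glue N θ F) ?_
  unfold glue
  refine memLp_finsetSum _ fun k hk => MemLp.indicator measurableSet_Ioc ?_
  have hc := hF k (Finset.mem_range.1 hk)
  obtain ⟨C, hC⟩ := isCompact_Icc.exists_bound_of_continuousOn (hc.continuousOn (s := Icc a b))
  refine MemLp.of_bound hc.aestronglyMeasurable C ?_
  exact (ae_restrict_iff' measurableSet_Ioc).2
    (Filter.Eventually.of_forall fun x hx => hC x (Ioc_subset_Icc_self hx))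

lemma parseval (hθ : Monotone θ) (h0 : θ 0 = -π) (hN : θ N = π)
    (hF : ∀ k < N, Continuous (F k)) :
    HasSum (fun n : ℤ => SI N θ (fun k φ => F k φ * cos (n * φ)) ^ 2
      + SI N θ (fun k φ => F k φ * sin (n * φ)) ^ 2) (2 * π * SI N θ fun k φ => F k φ ^ 2) := by
  have hab : -π < π := by linarith [pi_pos]
  have h := (hasSum_sq_fourierCoeffOn hab (memLp_glue (θ := θ) hF _ _)).mul_left ((2 * π) ^ 2)
  have e1 : ∫ x in (-π)..π, ‖(glue N θ F x : ℂ)‖ ^ 2 = SI N θ fun k φ => F k φ ^ 2 := by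
    have := integral_glue hθ hF (H := fun _ y => y ^ 2) (by fun_prop)
    rw [h0, hN] at this
    simp only [Complex.norm_real, norm_eq_abs, sq_abs]
    exact this
  have hpi : π ≠ 0 := pi_pos.ne'
  have e2 : ∀ n : ℤ, fourierCoeffOn hab (fun φ => (glue N θ F φ : ℂ)) n
      = (1 / (2 * π) : ℝ) • ((SI N θ (fun k φ => F k φ * cos (n * φ)) : ℂ)
        - (SI N θ (fun k φ => F k φ * sin (n * φ)) : ℂ) * Complex.I) := by
    intro n
    rw [fourierCoeffOn_eq_integral]
    have e : π - -π = 2 * π := by ring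
    congr 1
    · rw [e]
    have e3 : ∀ x : ℝ, fourier (-n) (x : AddCircle (π - -π)) • (glue N θ F x : ℂ)
        = ((glue N θ F x * cos (n * x) : ℝ) : ℂ)
          - ((glue N θ F x * sin (n * x) : ℝ) : ℂ) * Complex.I := by
      intro x
      rw [fourier_coe_apply]
      have : (2 * π * Complex.I * (-n : ℤ) * x / ((π - -π : ℝ) : ℂ))
          = ((-(n * x) : ℝ) : ℂ) * Complex.I := by
        have : (π : ℂ) ≠ 0 := by exact_mod_cast hpi
        rw [e]; push_cast; field_simp
      rw [this, Complex.exp_mul_I, ← Complex.ofReal_cos, ← Complex.ofReal_sin, cos_neg, sin_neg]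
      push_cast; simp only [smul_eq_mul]; ring
    simp only [e3]
    have := integral_glue hθ hF (E := ℂ) (H := fun x y => ((y * cos (n * x) : ℝ) : ℂ)
      - ((y * sin (n * x) : ℝ) : ℂ) * Complex.I) (by fun_prop)
    rw [h0, hN] at this
    rw [this]
    unfold SI
    rw [Complex.ofReal_sum, Complex.ofReal_sum, Finset.sum_mul, ← Finset.sum_sub_distrib]
    refine Finset.sum_congr rfl fun k hk => ?_
    have hc := hF k (Finset.mem_range.1 hk)
    rw [integral_sub (Continuous.intervalIntegrable (by fun_prop) _ _)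
      (Continuous.intervalIntegrable (by fun_prop) _ _), intervalIntegral.integral_mul_const,
      intervalIntegral.integral_ofReal, intervalIntegral.integral_ofReal]
  have e4 : (fun n : ℤ => SI N θ (fun k φ => F k φ * cos (n * φ)) ^ 2
      + SI N θ (fun k φ => F k φ * sin (n * φ)) ^ 2) = fun n =>
      (2 * π) ^ 2 * ‖fourierCoeffOn hab (fun φ => (glue N θ F φ : ℂ)) n‖ ^ 2 := by
    funext n
    rw [e2, norm_smul, mul_pow, mul_pow, Complex.sq_norm, Complex.normSq_apply]
    simp only [norm_eq_abs, sq_abs]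
    simp
    field_simp
  have e5 : (2 * π * SI N θ fun k φ => F k φ ^ 2)
      = (2 * π) ^ 2 * (π - -π)⁻¹ • ∫ x in (-π)..π, ‖(glue N θ F x : ℂ)‖ ^ 2 := by
    rw [e1, smul_eq_mul]; field_simp; ring
  rw [e4, e5]
  exact h

/-- Bessel for the modes `0, 1` -/
lemma bessel (hθ : Monotone θ) (h0 : θ 0 = -π) (hN : θ N = π)
    (hF : ∀ k < N, Continuous (F k)) :
    SI N θ F ^ 2 + 2 * (SI N θ (fun k φ => F k φ * cos φ) ^ 2
      + SI N θ (fun k φ => F k φ * sin φ) ^ 2) ≤ 2 * π * SI N θ fun k φ => F k φ ^ 2 := by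
  have h := sum_le_hasSum ({0, 1, -1} : Finset ℤ) (fun n _ => by positivity)
    (parseval hθ h0 hN hF)
  rw [Finset.sum_insert (by decide), Finset.sum_insert (by decide), Finset.sum_singleton] at h
  have e : SI N θ (fun k φ => -(F k φ * sin φ)) = -SI N θ (fun k φ => F k φ * sin φ) := by
    simp [SI]
  have e0 : SI N θ (fun _ _ => 0) = 0 := by simp [SI]
  simp only [Int.cast_zero, zero_mul, cos_zero, mul_one, sin_zero, mul_zero, Int.cast_one, one_mul,
    Int.cast_neg, neg_mul, cos_neg, sin_neg, mul_neg, e, e0] at h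
  have : SI N θ (fun k φ => F k φ) = SI N θ F := rfl
  nlinarith

lemma SI_ftc (hθ : Monotone θ) {nd : ℕ → ℝ} (hF : ∀ k < N, Continuous (F k))
    (hG : ∀ k < N, Continuous (G k))
    (hd : ∀ k < N, ∀ φ ∈ Ioo (θ k) (θ (k + 1)), HasDerivAt (F k) (G k φ) φ)
    (hl : ∀ k < N, F k (θ k) = nd k) (hr : ∀ k < N, F k (θ (k + 1)) = nd (k + 1)) :
    SI N θ G = nd N - nd 0 := by
  rw [← Finset.sum_range_sub]
  refine Finset.sum_congr rfl fun k hk => ?_
  have hk := Finset.mem_range.1 hk
  rw [integral_eq_sub_of_hasDerivAt_of_le (hθ (Nat.le_succ k)) (hF k hk).continuousOn (hd k hk)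
    ((hG k hk).intervalIntegrable _ _), hl k hk, hr k hk]

lemma SI_lin (hF : ∀ k < N, Continuous (F k)) (hG : ∀ k < N, Continuous (G k)) (a b : ℝ) :
    SI N θ (fun k φ => a * F k φ + b * G k φ) = a * SI N θ F + b * SI N θ G := by
  unfold SI
  rw [Finset.mul_sum, Finset.mul_sum, ← Finset.sum_add_distrib]
  refine Finset.sum_congr rfl fun k hk => ?_
  have h1 := hF k (Finset.mem_range.1 hk)
  have h2 := hG k (Finset.mem_range.1 hk)
  rw [integral_add (Continuous.intervalIntegrable (by fun_prop) _ _)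
    (Continuous.intervalIntegrable (by fun_prop) _ _), intervalIntegral.integral_const_mul,
    intervalIntegral.integral_const_mul]

/-- Wirtinger above the first mode -/
lemma wirtinger (hθ : Monotone θ) (h0 : θ 0 = -π) (hN : θ N = π) {nd : ℕ → ℝ}
    (hper : nd N = nd 0) (hF : ∀ k < N, Continuous (F k)) (hG : ∀ k < N, Continuous (G k))
    (hd : ∀ k < N, ∀ φ ∈ Ioo (θ k) (θ (k + 1)), HasDerivAt (F k) (G k φ) φ)
    (hl : ∀ k < N, F k (θ k) = nd k) (hr : ∀ k < N, F k (θ (k + 1)) = nd (k + 1)) :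
    4 * (2 * π * SI N θ fun k φ => F k φ ^ 2) - 4 * SI N θ F ^ 2
      - 6 * (SI N θ (fun k φ => F k φ * cos φ) ^ 2 + SI N θ (fun k φ => F k φ * sin φ) ^ 2)
      ≤ 2 * π * SI N θ fun k φ => G k φ ^ 2 := by
  set A : ℤ → ℝ := fun n => SI N θ (fun k φ => F k φ * cos (n * φ)) with hA
  set B : ℤ → ℝ := fun n => SI N θ (fun k φ => F k φ * sin (n * φ)) with hB
  have hc : ∀ n : ℤ, SI N θ (fun k φ => G k φ * cos (n * φ)) = n * B n := by
    intro n
    have h1 := SI_ftc (N := N) hθ (nd := fun k => nd k * cos (n * θ k))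
      (F := fun k φ => F k φ * cos (n * φ))
      (G := fun k φ => 1 * (G k φ * cos (n * φ)) + (-n) * (F k φ * sin (n * φ)))
      (fun k hk => by have := hF k hk; fun_prop)
      (fun k hk => by have := hF k hk; have := hG k hk; fun_prop)
      (fun k hk φ hφ => by
        refine ((hd k hk φ hφ).mul (((hasDerivAt_id φ).const_mul (n : ℝ)).cos)).congr_deriv ?_
        simp only [id]; ring)
      (fun k hk => by simp only [hl k hk]) (fun k hk => by simp only [hr k hk])
    rw [SI_lin (fun k hk => by have := hG k hk; fun_prop)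
      (fun k hk => by have := hF k hk; fun_prop)] at h1
    simp only [h0, hN, hper, mul_neg, cos_neg, sub_self] at h1
    simp only [hB]; linarith
  have hs : ∀ n : ℤ, SI N θ (fun k φ => G k φ * sin (n * φ)) = -(n * A n) := by
    intro n
    have h1 := SI_ftc (N := N) hθ (nd := fun k => nd k * sin (n * θ k))
      (F := fun k φ => F k φ * sin (n * φ))
      (G := fun k φ => 1 * (G k φ * sin (n * φ)) + n * (F k φ * cos (n * φ)))
      (fun k hk => by have := hF k hk; fun_prop)
      (fun k hk => by have := hF k hk; have := hG k hk; fun_prop)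
      (fun k hk φ hφ => by
        refine ((hd k hk φ hφ).mul (((hasDerivAt_id φ).const_mul (n : ℝ)).sin)).congr_deriv ?_
        simp only [id]; ring)
      (fun k hk => by simp only [hl k hk]) (fun k hk => by simp only [hr k hk])
    rw [SI_lin (fun k hk => by have := hG k hk; fun_prop)
      (fun k hk => by have := hF k hk; fun_prop)] at h1
    simp only [h0, hN, hper, mul_neg, sin_neg, sin_int_mul_pi, mul_zero, neg_zero, sub_self] at h1
    simp only [hA]; linarith
  have p1 := parseval hθ h0 hN hF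
  have p2 := parseval hθ h0 hN hG
  simp only [hc, hs] at p2
  change HasSum (fun n : ℤ => A n ^ 2 + B n ^ 2) _ at p1
  have p3 : HasSum (fun n : ℤ => if n ∈ ({0, 1, -1} : Finset ℤ) then
      (4 - (n : ℝ) ^ 2) * (A n ^ 2 + B n ^ 2) else 0)
      (∑ n ∈ ({0, 1, -1} : Finset ℤ), (4 - (n : ℝ) ^ 2) * (A n ^ 2 + B n ^ 2)) := by
    have := hasSum_sum_of_ne_finset_zero (f := fun n : ℤ => if n ∈ ({0, 1, -1} : Finset ℤ) then
      (4 - (n : ℝ) ^ 2) * (A n ^ 2 + B n ^ 2) else 0) (s := {0, 1, -1})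
      (L := SummationFilter.unconditional ℤ) fun n hn => if_neg hn
    rwa [Finset.sum_congr rfl fun n hn => if_pos hn] at this
  have p4 := hasSum_le (fun n => ?_) (p1.mul_left 4) (p2.add p3)
  · rw [Finset.sum_insert (by decide), Finset.sum_insert (by decide), Finset.sum_singleton] at p4
    have e : SI N θ (fun k φ => -(F k φ * sin φ)) = -SI N θ (fun k φ => F k φ * sin φ) := by
      simp [SI]
    have e0 : SI N θ (fun _ _ => 0) = 0 := by simp [SI]
    simp only [hA, hB, Int.cast_zero, zero_mul, cos_zero, mul_one, sin_zero, mul_zero,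
      Int.cast_one, one_mul, Int.cast_neg, neg_mul, cos_neg, sin_neg, mul_neg, e, e0] at p4
    have : SI N θ (fun k φ => F k φ) = SI N θ F := rfl
    nlinarith
  · split_ifs with hn
    · exact le_of_eq (by ring)
    · simp only [Finset.mem_insert, Finset.mem_singleton, not_or] at hn
      have h4 : (4 : ℤ) ≤ n ^ 2 := by
        rcases le_or_gt 2 n with h | h
        · nlinarith
        · have : n ≤ -2 := by omega
          nlinarith
      have h4' : (4 : ℝ) ≤ (n : ℝ) ^ 2 := by exact_mod_cast h4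
      nlinarith [mul_nonneg (sub_nonneg.2 h4') (add_nonneg (sq_nonneg (A n)) (sq_nonneg (B n)))]

end Pool.Agent.PSz.LF
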