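import Pool.Agent.P.MP_7b7370_an.Api

set_option autoImplicit false

namespace Pool.Agent.PSz

open Real Set MeasureTheory intervalIntegral

/-- Cauchy-Schwarz on an interval -/
theorem cs_interval {a b : ℝ} (hab : a ≤ b) {f g : ℝ → ℝ} (hf : Continuous f) (hg : Continuous g) :
    (∫ r in a..b, f r * g r) ^ 2 ≤ (∫ r in a..b, f r ^ 2) * ∫ r in a..b, g r ^ 2 := by
  have key : ∀ x : ℝ, 0 ≤ (∫ r in a..b, f r ^ 2) * (x * x) +
      2 * (∫ r in a..b, f r * g r) * x + ∫ r in a..b, g r ^ 2 := by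
    intro x
    have e : (∫ r in a..b, f r ^ 2) * (x * x) + 2 * (∫ r in a..b, f r * g r) * x +
        ∫ r in a..b, g r ^ 2 = ∫ r in a..b, (f r * x + g r) ^ 2 := by
      rw [← intervalIntegral.integral_mul_const, ← intervalIntegral.integral_const_mul,
        ← intervalIntegral.integral_mul_const,
        ← intervalIntegral.integral_add (by apply Continuous.intervalIntegrable; fun_prop)
          (by apply Continuous.intervalIntegrable; fun_prop),
        ← intervalIntegral.integral_add (by apply Continuous.intervalIntegrable; fun_prop)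
          (by apply Continuous.intervalIntegrable; fun_prop)]
      congr 1; funext r; ring
    rw [e]
    exact integral_nonneg hab fun r _ => sq_nonneg _
  have := discrim_le_zero key
  unfold discrim at this
  nlinarith

namespace OneD

lemma cont {f f' : ℝ → ℝ} (hf : ∀ r, HasDerivAt f (f' r) r) : Continuous f :=
  continuous_iff_continuousAt.2 fun r => (hf r).continuousAt

lemma mono_range {a b x y : ℝ} {g : ℝ → ℝ} (hg : Continuous g) (hax : a ≤ x) (hxy : x ≤ y)
    (hyb : y ≤ b) (h0 : ∀ r ∈ Icc a b, 0 ≤ g r) : ∫ r in x..y, g r ≤ ∫ r in a..b, g r := by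
  rw [← integral_add_adjacent_intervals (b := x) (hg.intervalIntegrable a x)
      (hg.intervalIntegrable x b),
    ← integral_add_adjacent_intervals (b := y) (hg.intervalIntegrable x y)
      (hg.intervalIntegrable y b)]
  have h1 : 0 ≤ ∫ r in a..x, g r :=
    integral_nonneg hax fun r hr => h0 r ⟨hr.1, by linarith [hr.2]⟩
  have h2 : 0 ≤ ∫ r in y..b, g r :=
    integral_nonneg hyb fun r hr => h0 r ⟨by linarith [hr.1], hr.2⟩
  linarith

end OneD

/-- paper 2.1 -/
theorem poincare0 {s : ℝ} (hs : 0 < s) (hs1 : s ≤ 1) {f f' : ℝ → ℝ}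
    (hf : ∀ r, HasDerivAt f (f' r) r) (hc : Continuous f') (hm : ∫ r in (0 : ℝ)..s, f r * r = 0) :
    6 * ∫ r in (0 : ℝ)..s, f r ^ 2 * r ≤ ∫ r in (0 : ℝ)..s, f' r ^ 2 * r := by
  have hfc := OneD.cont hf
  set F : ℝ → ℝ := fun r => ∫ ρ in (0 : ℝ)..r, f ρ * ρ with hF
  have dF : ∀ r, HasDerivAt F (f r * r) r := fun r =>
    ((hfc.mul continuous_id).integral_hasStrictDerivAt 0 r).hasDerivAt
  set k : ℝ → ℝ := fun r => ∫ μ in (0 : ℝ)..1, f (r * μ) * μ with hk
  have kc : Continuous k :=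
    continuous_parametric_intervalIntegral_of_continuous' (f := fun r μ => f (r * μ) * μ)
      (by unfold Function.uncurry; fun_prop) 0 1
  have eF : ∀ r, F r = r ^ 2 * k r := by
    intro r
    have := intervalIntegral.smul_integral_comp_mul_left (a := 0) (b := 1) (fun ρ => f ρ * ρ) r
    simp only [mul_zero, mul_one, smul_eq_mul] at this
    simp only [hF, hk]
    rw [← this, ← intervalIntegral.integral_const_mul, ← intervalIntegral.integral_const_mul]
    congr 1; funext μ; ring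
  set Λ : ℝ → ℝ := fun r =>
    -12 * (F r * f r) + 6 * ((2 - 1.5 * r ^ 2 - 1.5 * r ^ 4) * (F r ^ 2 / r ^ 2)) with hΛ
  have eΛ : Λ = fun r => -12 * (r ^ 2 * k r * f r) +
      6 * ((2 - 1.5 * r ^ 2 - 1.5 * r ^ 4) * (r ^ 2 * k r ^ 2)) := by
    funext r
    simp only [hΛ, eF]
    rcases eq_or_ne r 0 with h | h
    · simp [h]
    · field_simp
  have cΛ : Continuous Λ := by rw [eΛ]; fun_prop
  have dΛ : ∀ r, 0 < r → HasDerivAt Λ (-12 * (f r * r * f r + r ^ 2 * k r * f' r) +
      6 * ((-3 * r - 6 * r ^ 3) * (r ^ 2 * k r ^ 2) + (2 - 1.5 * r ^ 2 - 1.5 * r ^ 4) *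
        (2 * r * k r * f r - 2 * r * k r ^ 2))) r := by
    intro r hr
    have h1 : HasDerivAt (fun r : ℝ => 2 - 1.5 * r ^ 2 - 1.5 * r ^ 4) (-3 * r - 6 * r ^ 3) r := by
      have := (((hasDerivAt_pow 2 r).const_mul 1.5).const_sub 2).sub
        ((hasDerivAt_pow 4 r).const_mul 1.5)
      refine this.congr_deriv ?_
      norm_num; ring
    have h2 := ((dF r).pow 2).div (hasDerivAt_pow 2 r) (pow_ne_zero 2 hr.ne')
    have := (((dF r).mul (hf r)).const_mul (-12)).add ((h1.mul h2).const_mul 6)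
    refine this.congr_deriv ?_
    simp only [Pi.pow_apply, Pi.div_apply, eF]
    norm_num
    field_simp
  have key := sub_le_integral_of_hasDeriv_right_of_le hs.le cΛ.continuousOn
    (fun r hr => (dΛ r hr.1).hasDerivWithinAt) (φ := fun r => f' r ^ 2 * r - 6 * (f r ^ 2 * r))
    (Continuous.integrableOn_Icc (by fun_prop)) (fun r hr => by
      have r0 := hr.1
      have r1 : r ≤ 1 := hr.2.le.trans hs1
      have r2 : r ^ 2 ≤ 1 := by nlinarith
      have r4 : r ^ 4 ≤ 1 := by nlinarith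
      have a1 : 0 ≤ r * (f' r + 6 * r * k r) ^ 2 := by positivity
      have a2 : 0 ≤ r * (f r - (2 - 1.5 * r ^ 2 - 1.5 * r ^ 4) * k r) ^ 2 := by positivity
      have a3 : 0 ≤ r ^ 5 * k r ^ 2 * (6.75 - 4.5 * r ^ 2 - 2.25 * r ^ 4) :=
        mul_nonneg (by positivity) (by linarith)
      nlinarith)
  have e0 : Λ 0 = 0 := by rw [eΛ]; simp
  have es : Λ s = 0 := by
    have : F s = 0 := hm
    simp [hΛ, this]
  rw [e0, es, intervalIntegral.integral_sub (by apply Continuous.intervalIntegrable; fun_prop)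
    (by apply Continuous.intervalIntegrable; fun_prop), intervalIntegral.integral_const_mul] at key
  linarith

/-- paper 2.2 -/
theorem poincare_j {f f' : ℝ → ℝ} (hf : ∀ r, HasDerivAt f (f' r) r) (hc : Continuous f')
    (h1 : f 1 = 0) :
    j2 * ∫ r in (0 : ℝ)..1, f r ^ 2 * r ≤ ∫ r in (0 : ℝ)..1, f' r ^ 2 * r := by
  have hfc := OneD.cont hf
  have main : ∀ t, 0 ≤ t → t < j2 →
      t * ∫ r in (0 : ℝ)..1, f r ^ 2 * r ≤ ∫ r in (0 : ℝ)..1, f' r ^ 2 * r := by
    intro t t0 tj
    have hpos : ∀ x ∈ Icc (0 : ℝ) 1, 0 < F0 t (x ^ 2) := fun x hx =>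
      F0_pos (by positivity) (by
        have : x ^ 2 ≤ 1 := by nlinarith [hx.1, hx.2]
        nlinarith)
    have dΛ : ∀ x ∈ Icc (0 : ℝ) 1, HasDerivAt
        (fun x => 2 * x ^ 2 * F1 t (x ^ 2) / F0 t (x ^ 2) * f x ^ 2)
        (f' x ^ 2 * x - t * (f x ^ 2 * x) -
          x * (f' x - 2 * x * F1 t (x ^ 2) / F0 t (x ^ 2) * f x) ^ 2) x := by
      intro x hx
      have d0 := (hasDerivAt_F0 t (x ^ 2)).comp x (hasDerivAt_pow 2 x)
      have d1 := (hasDerivAt_F1 t (x ^ 2)).comp x (hasDerivAt_pow 2 x)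
      have := (((((hasDerivAt_pow 2 x).const_mul 2).mul d1).div d0 (hpos x hx).ne').mul
        ((hf x).pow 2))
      refine this.congr_deriv ?_
      have ho := ode t (x ^ 2)
      have hne := (hpos x hx).ne'
      simp only [Pi.pow_apply, Pi.div_apply, Pi.mul_apply, Function.comp]
      norm_num
      field_simp
      linear_combination (x * f x ^ 2 * F0 t (x ^ 2)) * ho
    have key := sub_le_integral_of_hasDeriv_right_of_le zero_le_one
      (fun x hx => (dΛ x hx).continuousAt.continuousWithinAt)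
      (fun x hx => (dΛ x (Ioo_subset_Icc_self hx)).hasDerivWithinAt)
      (φ := fun r => f' r ^ 2 * r - t * (f r ^ 2 * r))
      (Continuous.integrableOn_Icc (by fun_prop)) (fun x hx => by
        have := mul_nonneg hx.1.le
          (sq_nonneg (f' x - 2 * x * F1 t (x ^ 2) / F0 t (x ^ 2) * f x))
        linarith)
    rw [intervalIntegral.integral_sub (by apply Continuous.intervalIntegrable; fun_prop)
      (by apply Continuous.intervalIntegrable; fun_prop), intervalIntegral.integral_const_mul,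
      h1] at key
    norm_num at key
    linarith
  have hM : 0 ≤ ∫ r in (0 : ℝ)..1, f r ^ 2 * r :=
    integral_nonneg zero_le_one fun r hr => mul_nonneg (sq_nonneg _) hr.1
  rcases hM.eq_or_lt with h | h
  · have := main 0 le_rfl (by linarith [j2_gt])
    rw [← h] at this ⊢
    simpa using this
  · rw [← le_div_iff₀ h]
    refine le_of_forall_lt_imp_le_of_dense fun t ht => ?_
    rw [le_div_iff₀ h]
    rcases le_total 0 t with t0 | t0
    · exact main t t0 ht
    · have := main 0 le_rfl (by linarith [j2_gt])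
      nlinarith

/-- paper 2.3 -/
theorem sq_sub_le {a b x y : ℝ} {f f' : ℝ → ℝ} (hf : ∀ r, HasDerivAt f (f' r) r)
    (hc : Continuous f') (hx : x ∈ Icc a b) (hy : y ∈ Icc a b) :
    (f y - f x) ^ 2 ≤ (b - a) * ∫ r in a..b, f' r ^ 2 := by
  wlog hxy : x ≤ y generalizing x y
  · have := this hy hx (le_of_not_ge hxy)
    rwa [← neg_sub, neg_sq] at this
  have h1 := cs_interval hxy (f := fun _ => 1) continuous_const hc
  simp only [one_mul, one_pow, intervalIntegral.integral_const, smul_eq_mul, mul_one] at h1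
  rw [integral_eq_sub_of_hasDerivAt (fun r _ => hf r) (hc.intervalIntegrable _ _)] at h1
  have h2 := OneD.mono_range (g := fun r => f' r ^ 2) (by fun_prop) hx.1 hxy hy.2
    fun r _ => sq_nonneg _
  have h3 : 0 ≤ ∫ r in x..y, f' r ^ 2 := integral_nonneg hxy fun r _ => sq_nonneg _
  exact h1.trans (mul_le_mul (by linarith [hx.1, hy.2]) h2 h3 (by linarith [hx.1, hy.2]))

/-- paper 2.3 -/
theorem sq_sub_avg_le {x : ℝ} {f f' : ℝ → ℝ} (hf : ∀ r, HasDerivAt f (f' r) r)
    (hc : Continuous f') (hx : x ∈ Icc (-1 : ℝ) 1) :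
    (f x - (1 / 2) * ∫ r in (-1 : ℝ)..1, f r) ^ 2 ≤ 2 * ∫ r in (-1 : ℝ)..1, f' r ^ 2 := by
  have hfc := OneD.cont hf
  have h1 := cs_interval (a := -1) (b := 1) (by norm_num) (f := fun _ => 1)
    (g := fun r => f x - f r) continuous_const (by fun_prop)
  simp only [one_mul, one_pow, intervalIntegral.integral_const, smul_eq_mul, mul_one] at h1
  rw [intervalIntegral.integral_sub (by simp) (hfc.intervalIntegrable _ _), intervalIntegral.integral_const,
    smul_eq_mul] at h1
  have h2 : ∫ r in (-1 : ℝ)..1, (f x - f r) ^ 2 ≤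
      ∫ _ in (-1 : ℝ)..1, (1 - -1) * ∫ r in (-1 : ℝ)..1, f' r ^ 2 :=
    integral_mono_on (by norm_num) (by apply Continuous.intervalIntegrable; fun_prop) (by simp)
      fun r hr => sq_sub_le hf hc hr hx
  rw [intervalIntegral.integral_const, smul_eq_mul] at h2
  nlinarith

/-- paper 2.4 -/
theorem trace_le {s : ℝ} (hs : 0 ≤ s) (hs1 : s ≤ 1) {f f' : ℝ → ℝ}
    (hf : ∀ r, HasDerivAt f (f' r) r) (hc : Continuous f') :
    s ^ 2 * f s ^ 2 ≤ 3 * ∫ r in (0 : ℝ)..s, (f r ^ 2 + f' r ^ 2) * r := by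
  have hfc := OneD.cont hf
  have d : ∀ r, HasDerivAt (fun r => r ^ 2 * f r ^ 2) (2 * r * f r ^ 2 + 2 * r ^ 2 * f r * f' r) r := by
    intro r
    have := (hasDerivAt_pow 2 r).mul ((hf r).pow 2)
    refine this.congr_deriv ?_
    simp only [Pi.pow_apply]
    norm_num; ring
  have key := sub_le_integral_of_hasDeriv_right_of_le hs
    (fun x _ => (d x).continuousAt.continuousWithinAt) (fun x _ => (d x).hasDerivWithinAt)
    (φ := fun r => 3 * ((f r ^ 2 + f' r ^ 2) * r))
    (Continuous.integrableOn_Icc (by fun_prop)) (fun r hr => by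
      have r0 := hr.1.le
      have r1 : r ≤ 1 := hr.2.le.trans hs1
      have a1 : 0 ≤ r ^ 2 * (f r - f' r) ^ 2 := by positivity
      have a2 : 0 ≤ r * (1 - r) * (f r ^ 2 + f' r ^ 2) :=
        mul_nonneg (mul_nonneg r0 (by linarith)) (by positivity)
      have a3 : 0 ≤ r * f' r ^ 2 := by positivity
      nlinarith)
  rw [intervalIntegral.integral_const_mul] at key
  simpa using key

lemma OneD.ring_gen {s R x y : ℝ} (hs : 0 < s) (hR : s ≤ R) {f f' : ℝ → ℝ}
    (hf : ∀ r, HasDerivAt f (f' r) r) (hc : Continuous f') (hx : x ∈ Icc s R) (hy : y ∈ Icc s R) :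
    (f y - f x) ^ 2 ≤ (R - s) / s * ∫ r in s..R, f' r ^ 2 * r := by
  have h1 := sq_sub_le hf hc hx hy
  have h2 : ∫ r in s..R, f' r ^ 2 ≤ ∫ r in s..R, (1 / s) * (f' r ^ 2 * r) :=
    integral_mono_on hR (by apply Continuous.intervalIntegrable; fun_prop)
      (by apply Continuous.intervalIntegrable; fun_prop) fun r hr => by
        rw [one_div, ← div_eq_inv_mul, le_div_iff₀ hs]
        exact mul_le_mul_of_nonneg_left hr.1 (sq_nonneg _)
  rw [intervalIntegral.integral_const_mul] at h2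
  refine h1.trans ((mul_le_mul_of_nonneg_left h2 (by linarith)).trans (le_of_eq ?_))
  ring

/-- paper 2.5 -/
theorem ring_diff {s R : ℝ} (hs : 0 < s) (hR : s ≤ R) {f f' : ℝ → ℝ}
    (hf : ∀ r, HasDerivAt f (f' r) r) (hc : Continuous f') :
    (f R - f s) ^ 2 ≤ (R - s) / s * ∫ r in s..R, f' r ^ 2 * r :=
  OneD.ring_gen hs hR hf hc ⟨le_rfl, hR⟩ ⟨hR, le_rfl⟩

/-- paper 2.5 (mass controlled from the outer end) -/
theorem ring_mass {s R : ℝ} (hs : 0 < s) (hR : s ≤ R) {f f' : ℝ → ℝ}
    (hf : ∀ r, HasDerivAt f (f' r) r) (hc : Continuous f') :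
    ∫ r in s..R, f r ^ 2 * r ≤
      (R - s) * R * (2 * f R ^ 2 + 2 * ((R - s) / s) * ∫ r in s..R, f' r ^ 2 * r) := by
  have hfc := OneD.cont hf
  have h : ∫ r in s..R, f r ^ 2 * r ≤
      ∫ _ in s..R, R * (2 * f R ^ 2 + 2 * ((R - s) / s) * ∫ r in s..R, f' r ^ 2 * r) :=
    integral_mono_on hR (by apply Continuous.intervalIntegrable; fun_prop) (by simp)
      fun r hr => by
        have h1 := OneD.ring_gen hs hR hf hc hr ⟨hR, le_rfl⟩
        have h2 : f r ^ 2 ≤ 2 * f R ^ 2 + 2 * ((R - s) / s) * ∫ r in s..R, f' r ^ 2 * r := by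
          nlinarith [sq_nonneg (2 * f R - f r)]
        rw [mul_comm]
        exact mul_le_mul hr.2 h2 (sq_nonneg _) (by linarith)
  rw [intervalIntegral.integral_const, smul_eq_mul] at h
  linarith

/-- paper 2.5 (mass controlled from a zero at the inner end) -/
theorem ring_mass0 {s R : ℝ} (hs : 0 < s) (hR : s ≤ R) {f f' : ℝ → ℝ}
    (hf : ∀ r, HasDerivAt f (f' r) r) (hc : Continuous f') (h0 : f s = 0) :
    ∫ r in s..R, f r ^ 2 * r ≤ (R - s) ^ 2 * (R / s) * ∫ r in s..R, f' r ^ 2 * r := by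
  have hfc := OneD.cont hf
  have h : ∫ r in s..R, f r ^ 2 * r ≤
      ∫ _ in s..R, R * ((R - s) / s * ∫ r in s..R, f' r ^ 2 * r) :=
    integral_mono_on hR (by apply Continuous.intervalIntegrable; fun_prop) (by simp)
      fun r hr => by
        have h1 := OneD.ring_gen hs hR hf hc ⟨le_rfl, hR⟩ hr
        rw [h0, sub_zero] at h1
        rw [mul_comm]
        exact mul_le_mul hr.2 h1 (sq_nonneg _) (by linarith)
  rw [intervalIntegral.integral_const, smul_eq_mul] at h
  refine h.trans (le_of_eq ?_)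
  ring

end Pool.Agent.PSz
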