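import Pool.Agent.P.MP_7b7370_an.SDefs
import Pool.Agent.P.MP_7b7370_an.OneD
import Pool.Agent.P.MP_7b7370_an.LowFreqA

set_option autoImplicit false

namespace Pool.Agent.PSz

open Real Set MeasureTheory intervalIntegral

namespace LF

lemma continuous_int {F : ℝ → ℝ → ℝ} (h : Cont F) (a b : ℝ) :
    Continuous fun r => ∫ φ in a..b, F r φ :=
  continuous_parametric_intervalIntegral_of_continuous' (f := F) h a b

lemma hasDerivAt_int {F Fr : ℝ → ℝ → ℝ} (h : Cont F) (h' : Cont Fr) {a b : ℝ} (hab : a ≤ b)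
    (hd : ∀ r, ∀ φ ∈ Icc a b, HasDerivAt (fun r => F r φ) (Fr r φ) r) (r : ℝ) :
    HasDerivAt (fun r => ∫ φ in a..b, F r φ) (∫ φ in a..b, Fr r φ) r := by
  obtain ⟨C, hC⟩ := ((isCompact_closedBall r 1).prod
    (isCompact_Icc (a := a) (b := b))).exists_bound_of_continuousOn h'.continuousOn
  refine (hasDerivAt_integral_of_dominated_loc_of_deriv_le (F := F) (F' := Fr)
    (bound := fun _ => C) (Metric.closedBall_mem_nhds r one_pos)
    (Filter.Eventually.of_forall fun x => (h.arc x).aestronglyMeasurable)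
    ((h.arc r).intervalIntegrable _ _) (h'.arc r).aestronglyMeasurable
    (Filter.Eventually.of_forall fun t ht x hx => ?_) intervalIntegrable_const
    (Filter.Eventually.of_forall fun t ht x _ => ?_)).2
  · rw [uIoc_of_le hab] at ht
    exact hC (x, t) ⟨hx, Ioc_subset_Icc_self ht⟩
  · rw [uIoc_of_le hab] at ht
    exact hd x t (Ioc_subset_Icc_self ht)

lemma PI_swap {Γ : ℝ → ℝ → ℝ} (h : Cont Γ) (a b x0 x1 : ℝ) :
    PI a b (fun _ => x0) (fun _ => x1) Γ = ∫ r in x0..x1, (∫ φ in a..b, Γ r φ) * r := by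
  unfold PI
  simp only [← intervalIntegral.integral_mul_const]
  have hc : Continuous (Function.uncurry fun η x => Γ x η * x) :=
    (Continuous.comp (g := fun p : ℝ × ℝ => Γ p.1 p.2) (f := fun p : ℝ × ℝ => (p.2, p.1)) h
      (by fun_prop)).mul continuous_snd
  exact intervalIntegral_intervalIntegral_swap
    ((hc.continuousOn.integrableOn_compact (isCompact_uIcc.prod isCompact_uIcc)).mono_set
      (prod_mono uIoc_subset_uIcc uIoc_subset_uIcc))

variable {N : ℕ} {θ : ℕ → ℝ} {F Fr : ℕ → ℝ → ℝ → ℝ}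

lemma continuous_SI (h : ∀ k < N, Cont (F k)) : Continuous fun r => SI N θ fun k => F k r :=
  continuous_finsetSum _ fun k hk => continuous_int (h k (Finset.mem_range.1 hk)) _ _

lemma hasDerivAt_SI (hθ : Monotone θ) (h : ∀ k < N, Cont (F k)) (h' : ∀ k < N, Cont (Fr k))
    (hd : ∀ k < N, ∀ r, ∀ φ ∈ Icc (θ k) (θ (k + 1)), HasDerivAt (fun r => F k r φ) (Fr k r φ) r)
    (r : ℝ) : HasDerivAt (fun r => SI N θ fun k => F k r) (SI N θ fun k => Fr k r) r :=
  HasDerivAt.fun_sum fun k hk => hasDerivAt_int (h k (Finset.mem_range.1 hk))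
    (h' k (Finset.mem_range.1 hk)) (hθ (Nat.le_succ k)) (hd k (Finset.mem_range.1 hk)) r

lemma sum_PI (h : ∀ k < N, Cont (F k)) (s : ℝ) :
    ∑ k ∈ Finset.range N, PI (θ k) (θ (k + 1)) (fun _ => 0) (fun _ => s) (F k)
      = ∫ r in (0 : ℝ)..s, (SI N θ fun k => F k r) * r := by
  unfold SI
  simp only [Finset.sum_mul]
  rw [intervalIntegral.integral_finsetSum
    (f := fun k r => (∫ φ in (θ k)..(θ (k + 1)), F k r φ) * r) fun k hk =>
    ((continuous_int (h k (Finset.mem_range.1 hk)) _ _).mul continuous_id).intervalIntegrable _ _]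
  exact Finset.sum_congr rfl fun k hk => PI_swap (h k (Finset.mem_range.1 hk)) _ _ _ _

lemma SI_of_eq (hθ : Monotone θ) {G : ℕ → ℝ → ℝ} {f : ℝ → ℝ} (hf : Continuous f)
    (he : ∀ k < N, ∀ φ ∈ Icc (θ k) (θ (k + 1)), G k φ = f φ) :
    SI N θ G = ∫ φ in (θ 0)..(θ N), f φ := by
  rw [← sum_integral_adjacent_intervals fun k _ => hf.intervalIntegrable _ _]
  refine Finset.sum_congr rfl fun k hk => integral_congr fun φ hφ => ?_
  rw [uIcc_of_le (hθ (Nat.le_succ k))] at hφ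
  exact he k (Finset.mem_range.1 hk) φ hφ

/-- the pointwise Barta inequality, multiplied by `2 π r` -/
lemma barta {r S X Sr St c0 c1 c2 d0 d1 d2 p : ℝ} (hr : 0 < r) (hr1 : r ≤ 1)
    (hU : c0 ^ 2 + 2 * (c1 ^ 2 + c2 ^ 2) ≤ p * S)
    (hW : 4 * (p * S) - 4 * c0 ^ 2 - 6 * (c1 ^ 2 + c2 ^ 2) ≤ p * (r ^ 2 * St))
    (hB : (r * d0 - (2 - 2 * r ^ 2) * c0) ^ 2 + 2 * ((r * d1 - (2 - 2 * r ^ 2) * c1) ^ 2
      + (r * d2 - (2 - 2 * r ^ 2) * c2) ^ 2)
      ≤ p * (r ^ 2 * Sr - 2 * r * (2 - 2 * r ^ 2) * X + (2 - 2 * r ^ 2) ^ 2 * S)) :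
    (-4 * r) * (p * S - c0 ^ 2 - 2 * (c1 ^ 2 + c2 ^ 2))
      + (2 - 2 * r ^ 2) * (p * (2 * X) - 2 * c0 * d0 - 2 * (2 * c1 * d1 + 2 * c2 * d2))
      + ((-3 * r - 6 * r ^ 3) * (2 * (c1 ^ 2 + c2 ^ 2))
        + (1 - 1.5 * r ^ 2 - 1.5 * r ^ 4) * (2 * (2 * c1 * d1 + 2 * c2 * d2)))
      ≤ p * ((Sr + St) * r) - d0 ^ 2 * r - 6 * (p * (S * r) - c0 ^ 2 * r) := by
  refine le_of_mul_le_mul_left ?_ hr
  have hx : r ^ 2 ≤ 1 := by nlinarith
  have h1 : 0 ≤ (6 * r ^ 2 - 4 * r ^ 4) * (p * S - c0 ^ 2 - 2 * (c1 ^ 2 + c2 ^ 2)) :=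
    mul_nonneg (by nlinarith [sq_nonneg r]) (by linarith)
  have h2 : 0 ≤ r ^ 4 * (9 - 2.25 * (1 + r ^ 2) ^ 2) * (2 * (c1 ^ 2 + c2 ^ 2)) :=
    mul_nonneg (mul_nonneg (by positivity) (by nlinarith [sq_nonneg r])) (by positivity)
  have h3 := sq_nonneg (r * d1 - (1 - 1.5 * r ^ 2 - 1.5 * r ^ 4) * c1)
  have h4 := sq_nonneg (r * d2 - (1 - 1.5 * r ^ 2 - 1.5 * r ^ 4) * c2)
  nlinarith

end LF

open LF in
/-- paper 3: low frequency lemma on a disc of radius `s ≤ 1` -/
theorem low_freq (N : ℕ) (θ : ℕ → ℝ) (hθ : Monotone θ) (h0 : θ 0 = -π) (hN : θ N = π)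
    {s : ℝ} (hs : 0 < s) (hs1 : s ≤ 1) (nd : ℕ → ℝ → ℝ) (hper : nd N = nd 0) (w0 : ℝ)
    (W Wr Wt : ℕ → ℝ → ℝ → ℝ)
    (hW : ∀ k < N, Piece (θ k) (θ (k + 1)) (nd k) (nd (k + 1)) w0 (W k) (Wr k) (Wt k))
    (hm : ∑ k ∈ Finset.range N, PI (θ k) (θ (k + 1)) (fun _ => 0) (fun _ => s) (W k) = 0) :
    6 * ∑ k ∈ Finset.range N,
        PI (θ k) (θ (k + 1)) (fun _ => 0) (fun _ => s) (fun r φ => W k r φ ^ 2)
      ≤ ∑ k ∈ Finset.range N,
        PI (θ k) (θ (k + 1)) (fun _ => 0) (fun _ => s) (fun r φ => Wr k r φ ^ 2 + Wt k r φ ^ 2)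
      + (∑ k ∈ Finset.range N, ∫ φ in (θ k)..(θ (k + 1)), W k s φ * cos φ) ^ 2
      + (∑ k ∈ Finset.range N, ∫ φ in (θ k)..(θ (k + 1)), W k s φ * sin φ) ^ 2 := by
  have cW : ∀ k < N, Cont (W k) := fun k hk => (hW k hk).cH
  have cR : ∀ k < N, Cont (Wr k) := fun k hk => (hW k hk).cHr
  have cT : ∀ k < N, Cont (Wt k) := fun k hk => (hW k hk).cHt
  have cc : Continuous fun p : ℝ × ℝ => cos p.2 := by fun_prop
  have cs : Continuous fun p : ℝ × ℝ => sin p.2 := by fun_prop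
  set S : ℝ → ℝ := fun r => SI N θ fun k φ => W k r φ ^ 2 with hS
  set X : ℝ → ℝ := fun r => SI N θ fun k φ => W k r φ * Wr k r φ with hX
  set Sr : ℝ → ℝ := fun r => SI N θ fun k φ => Wr k r φ ^ 2 with hSr
  set St : ℝ → ℝ := fun r => SI N θ fun k φ => Wt k r φ ^ 2 with hSt
  set c0 : ℝ → ℝ := fun r => SI N θ fun k => W k r with hc0
  set c1 : ℝ → ℝ := fun r => SI N θ fun k φ => W k r φ * cos φ with hc1
  set c2 : ℝ → ℝ := fun r => SI N θ fun k φ => W k r φ * sin φ with hc2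
  set d0 : ℝ → ℝ := fun r => SI N θ fun k => Wr k r with hd0
  set d1 : ℝ → ℝ := fun r => SI N θ fun k φ => Wr k r φ * cos φ with hd1
  set d2 : ℝ → ℝ := fun r => SI N θ fun k φ => Wr k r φ * sin φ with hd2
  have kS : Continuous S :=
    continuous_SI (F := fun k r φ => W k r φ ^ 2) fun k hk => (cW k hk).pow 2
  have kX : Continuous X :=
    continuous_SI (F := fun k r φ => W k r φ * Wr k r φ) fun k hk => (cW k hk).mul (cR k hk)
  have kSr : Continuous Sr :=
    continuous_SI (F := fun k r φ => Wr k r φ ^ 2) fun k hk => (cR k hk).pow 2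
  have kSt : Continuous St :=
    continuous_SI (F := fun k r φ => Wt k r φ ^ 2) fun k hk => (cT k hk).pow 2
  have k0 : Continuous c0 := continuous_SI cW
  have k1 : Continuous c1 :=
    continuous_SI (F := fun k r φ => W k r φ * cos φ) fun k hk => (cW k hk).mul cc
  have k2 : Continuous c2 :=
    continuous_SI (F := fun k r φ => W k r φ * sin φ) fun k hk => (cW k hk).mul cs
  have l0 : Continuous d0 := continuous_SI cR
  have l1 : Continuous d1 :=
    continuous_SI (F := fun k r φ => Wr k r φ * cos φ) fun k hk => (cR k hk).mul cc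
  have l2 : Continuous d2 :=
    continuous_SI (F := fun k r φ => Wr k r φ * sin φ) fun k hk => (cR k hk).mul cs
  have D0 : ∀ r, HasDerivAt c0 (d0 r) r :=
    hasDerivAt_SI hθ cW cR fun k hk r φ hφ => (hW k hk).dr r φ hφ
  have D1 : ∀ r, HasDerivAt c1 (d1 r) r :=
    hasDerivAt_SI (F := fun k r φ => W k r φ * cos φ) (Fr := fun k r φ => Wr k r φ * cos φ) hθ
      (fun k hk => (cW k hk).mul cc) (fun k hk => (cR k hk).mul cc)
      fun k hk r φ hφ => ((hW k hk).dr r φ hφ).mul_const _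
  have D2 : ∀ r, HasDerivAt c2 (d2 r) r :=
    hasDerivAt_SI (F := fun k r φ => W k r φ * sin φ) (Fr := fun k r φ => Wr k r φ * sin φ) hθ
      (fun k hk => (cW k hk).mul cs) (fun k hk => (cR k hk).mul cs)
      fun k hk r φ hφ => ((hW k hk).dr r φ hφ).mul_const _
  have DS : ∀ r, HasDerivAt S (2 * X r) r := by
    intro r
    have := hasDerivAt_SI (F := fun k r φ => W k r φ ^ 2)
      (Fr := fun k r φ => 1 * (W k r φ * Wr k r φ) + 1 * (W k r φ * Wr k r φ)) hθ
      (fun k hk => (cW k hk).pow 2)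
      (fun k hk => (continuous_const.mul ((cW k hk).mul (cR k hk))).add
        (continuous_const.mul ((cW k hk).mul (cR k hk))))
      (fun k hk r φ hφ => (((hW k hk).dr r φ hφ).fun_pow 2).congr_deriv (by simp; ring)) r
    rw [SI_lin (F := fun k φ => W k r φ * Wr k r φ) (G := fun k φ => W k r φ * Wr k r φ)
      (fun k hk => ((cW k hk).arc r).mul ((cR k hk).arc r))
      (fun k hk => ((cW k hk).arc r).mul ((cR k hk).arc r))] at this
    exact this.congr_deriv (by simp only [hX]; ring)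
  have hU : ∀ r, c0 r ^ 2 + 2 * (c1 r ^ 2 + c2 r ^ 2) ≤ 2 * π * S r := fun r =>
    bessel hθ h0 hN fun k hk => (cW k hk).arc r
  have hWi : ∀ r, 4 * (2 * π * S r) - 4 * c0 r ^ 2 - 6 * (c1 r ^ 2 + c2 r ^ 2)
      ≤ 2 * π * (r ^ 2 * St r) := by
    intro r
    have := wirtinger (F := fun k => W k r) (G := fun k φ => r * Wt k r φ) hθ h0 hN
      (nd := fun k => nd k r) (by simp only [hper]) (fun k hk => (cW k hk).arc r)
      (fun k hk => continuous_const.mul ((cT k hk).arc r)) (fun k hk => (hW k hk).dt r)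
      (fun k hk => (hW k hk).left r) (fun k hk => (hW k hk).right r)
    have e : (SI N θ fun k φ => (r * Wt k r φ) ^ 2) = r ^ 2 * St r := by
      simp only [hSt, SI, mul_pow, intervalIntegral.integral_const_mul, Finset.mul_sum]
    rwa [e] at this
  have hB : ∀ r G : ℝ, (r * d0 r - G * c0 r) ^ 2 + 2 * ((r * d1 r - G * c1 r) ^ 2
      + (r * d2 r - G * c2 r) ^ 2)
      ≤ 2 * π * (r ^ 2 * Sr r - 2 * r * G * X r + G ^ 2 * S r) := by
    intro r G
    have a1 := fun k hk => (cW k hk).arc r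
    have a2 := fun k hk => (cR k hk).arc r
    have := bessel (F := fun k φ => r * Wr k r φ + (-G) * W k r φ) hθ h0 hN
      fun k hk => by have := a1 k hk; have := a2 k hk; fun_prop
    have e1 : (fun k φ => (r * Wr k r φ + (-G) * W k r φ) * cos φ)
        = fun k φ => r * (Wr k r φ * cos φ) + (-G) * (W k r φ * cos φ) := by
      funext k φ; ring
    have e2 : (fun k φ => (r * Wr k r φ + (-G) * W k r φ) * sin φ)
        = fun k φ => r * (Wr k r φ * sin φ) + (-G) * (W k r φ * sin φ) := by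
      funext k φ; ring
    have e3 : (fun k φ => (r * Wr k r φ + (-G) * W k r φ) ^ 2)
        = fun k φ => 1 * (r ^ 2 * Wr k r φ ^ 2 + (-(2 * r * G)) * (W k r φ * Wr k r φ))
          + G ^ 2 * W k r φ ^ 2 := by
      funext k φ; ring
    rw [e1, e2, e3, SI_lin (F := fun k φ => Wr k r φ) (G := fun k φ => W k r φ) a2 a1,
      SI_lin (fun k hk => by have := a2 k hk; fun_prop) (fun k hk => by have := a1 k hk; fun_prop),
      SI_lin (fun k hk => by have := a2 k hk; fun_prop) (fun k hk => by have := a1 k hk; fun_prop),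
      SI_lin (fun k hk => by have := a1 k hk; have := a2 k hk; fun_prop)
        (fun k hk => by have := a1 k hk; fun_prop),
      SI_lin (fun k hk => by have := a2 k hk; fun_prop)
        (fun k hk => by have := a1 k hk; have := a2 k hk; fun_prop)] at this
    refine le_trans (le_of_eq ?_) (this.trans (le_of_eq ?_))
    · simp only [hd0, hd1, hd2, hc0, hc1, hc2]; ring
    · simp only [hSr, hX, hS]; ring
  have z0 : c0 0 = 2 * π * w0 := by
    simp only [hc0]
    rw [SI_of_eq hθ (f := fun _ => w0) continuous_const fun k hk φ hφ => (hW k hk).zero φ hφ,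
      h0, hN]
    rw [intervalIntegral.integral_const, smul_eq_mul]; ring
  have z1 : c1 0 = 0 := by
    simp only [hc1]
    rw [SI_of_eq hθ (f := fun φ => w0 * cos φ) (by fun_prop)
      fun k hk φ hφ => by rw [(hW k hk).zero φ hφ], h0, hN]
    simp
  have z2 : c2 0 = 0 := by
    simp only [hc2]
    rw [SI_of_eq hθ (f := fun φ => w0 * sin φ) (by fun_prop)
      fun k hk φ hφ => by rw [(hW k hk).zero φ hφ], h0, hN]
    simp
  have zS : S 0 = 2 * π * w0 ^ 2 := by
    simp only [hS]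
    rw [SI_of_eq hθ (f := fun _ => w0 ^ 2) continuous_const
      fun k hk φ hφ => by rw [(hW k hk).zero φ hφ], h0, hN]
    rw [intervalIntegral.integral_const, smul_eq_mul]; ring
  have DΦ : ∀ r, HasDerivAt (fun r => (2 - 2 * r ^ 2) * (2 * π * S r - c0 r ^ 2
      - 2 * (c1 r ^ 2 + c2 r ^ 2)) + (1 - 1.5 * r ^ 2 - 1.5 * r ^ 4) * (2 * (c1 r ^ 2 + c2 r ^ 2)))
      ((-4 * r) * (2 * π * S r - c0 r ^ 2 - 2 * (c1 r ^ 2 + c2 r ^ 2))
      + (2 - 2 * r ^ 2) * (2 * π * (2 * X r) - 2 * c0 r * d0 r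
        - 2 * (2 * c1 r * d1 r + 2 * c2 r * d2 r))
      + ((-3 * r - 6 * r ^ 3) * (2 * (c1 r ^ 2 + c2 r ^ 2))
        + (1 - 1.5 * r ^ 2 - 1.5 * r ^ 4) * (2 * (2 * c1 r * d1 r + 2 * c2 r * d2 r)))) r := by
    intro r
    have g1 : HasDerivAt (fun r : ℝ => 2 - 2 * r ^ 2) (-4 * r) r :=
      (((hasDerivAt_pow 2 r).const_mul 2).const_sub 2).congr_deriv (by simp; ring)
    have g2 : HasDerivAt (fun r : ℝ => 1 - 1.5 * r ^ 2 - 1.5 * r ^ 4) (-3 * r - 6 * r ^ 3) r :=
      ((((hasDerivAt_pow 2 r).const_mul 1.5).const_sub 1).fun_sub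
        ((hasDerivAt_pow 4 r).const_mul 1.5)).congr_deriv (by norm_num; ring)
    have g3 : HasDerivAt (fun r => 2 * (c1 r ^ 2 + c2 r ^ 2))
        (2 * (2 * c1 r * d1 r + 2 * c2 r * d2 r)) r :=
      ((((D1 r).fun_pow 2).fun_add ((D2 r).fun_pow 2)).const_mul 2).congr_deriv (by simp)
    have g4 : HasDerivAt (fun r => c0 r ^ 2) (2 * c0 r * d0 r) r :=
      ((D0 r).fun_pow 2).congr_deriv (by simp)
    exact (g1.fun_mul ((((DS r).const_mul (2 * π)).fun_sub g4).fun_sub g3)).fun_add (g2.fun_mul g3)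
  have hI := integral_eq_sub_of_hasDerivAt (a := 0) (b := s) (fun r _ => DΦ r)
    (Continuous.intervalIntegrable (by fun_prop) _ _)
  have hM := integral_mono_on_of_le_Ioo (μ := volume) hs.le
    (Continuous.intervalIntegrable (by fun_prop) _ _)
    (Continuous.intervalIntegrable (by fun_prop) _ _)
    fun r hr => barta hr.1 (hr.2.le.trans hs1) (hU r) (hWi r) (hB r _)
  rw [hI, integral_sub (Continuous.intervalIntegrable (by fun_prop) _ _)
    (Continuous.intervalIntegrable (by fun_prop) _ _),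
    integral_sub (Continuous.intervalIntegrable (by fun_prop) _ _)
    (Continuous.intervalIntegrable (by fun_prop) _ _), intervalIntegral.integral_const_mul,
    intervalIntegral.integral_const_mul,
    integral_sub (Continuous.intervalIntegrable (by fun_prop) _ _)
    (Continuous.intervalIntegrable (by fun_prop) _ _), intervalIntegral.integral_const_mul,
    z0, z1, z2, zS] at hM
  rw [sum_PI cW] at hm
  have hP := poincare0 hs hs1 D0 l0 hm
  rw [sum_PI (F := fun k r φ => W k r φ ^ 2) fun k hk => (cW k hk).pow 2,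
    sum_PI (F := fun k r φ => Wr k r φ ^ 2 + Wt k r φ ^ 2)
      fun k hk => ((cR k hk).pow 2).add ((cT k hk).pow 2)]
  have e : (fun r => (SI N θ fun k φ => Wr k r φ ^ 2 + Wt k r φ ^ 2) * r)
      = fun r => (Sr r + St r) * r := by
    funext r
    have := SI_lin (N := N) (θ := θ) (F := fun k φ => Wr k r φ ^ 2) (G := fun k φ => Wt k r φ ^ 2)
      (fun k hk => ((cR k hk).arc r).pow 2) (fun k hk => ((cT k hk).arc r).pow 2) 1 1
    simp only [one_mul] at this
    rw [this]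
  change 6 * ∫ r in (0 : ℝ)..s, S r * r
    ≤ (∫ r in (0 : ℝ)..s, (SI N θ fun k φ => Wr k r φ ^ 2 + Wt k r φ ^ 2) * r) + c1 s ^ 2 + c2 s ^ 2
  rw [e]
  refine le_of_mul_le_mul_left ?_ (by positivity : 0 < 2 * π)
  have hx : s ^ 2 ≤ 1 := by nlinarith
  have h1 : 0 ≤ (2 - 2 * s ^ 2) * (2 * π * S s - c0 s ^ 2 - 2 * (c1 s ^ 2 + c2 s ^ 2)) :=
    mul_nonneg (by linarith) (by linarith [hU s])
  have h2 : 0 ≤ (π + (1 - 1.5 * s ^ 2 - 1.5 * s ^ 4)) * (2 * (c1 s ^ 2 + c2 s ^ 2)) :=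
    mul_nonneg (by nlinarith [pi_gt_three, sq_nonneg s]) (by positivity)
  nlinarith

end Pool.Agent.PSz
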