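import Pool.Agent.P.MP_7b7370_an.PolarA

/-! Gagliardo-Nirenberg inequality outside a disc. -/

set_option autoImplicit false

namespace Pool.Agent.PSz.Pol

open Real Set MeasureTheory intervalIntegral

lemma line_emb (a : ℂ) {e : ℂ} (he : ‖e‖ = 1) :
    Topology.IsClosedEmbedding fun s : ℝ => a + s • e := by
  refine Isometry.isClosedEmbedding (Isometry.of_dist_eq fun s t => ?_)
  rw [dist_eq_norm, add_sub_add_left_eq_sub, ← sub_smul, norm_smul, he, mul_one, dist_eq_norm]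

lemma hasDerivAt_line {u : ℂ → ℝ} (hu : ContDiff ℝ 1 u) (a e : ℂ) (s : ℝ) :
    HasDerivAt (fun s : ℝ => u (a + s • e)) (fderiv ℝ u (a + s • e) e) s := by
  have h : HasDerivAt (fun s : ℝ => a + s • e) e s := by
    simpa using ((hasDerivAt_id s).smul_const e).const_add a
  exact (hu.differentiable one_ne_zero _).hasFDerivAt.comp_hasDerivAt s h

lemma contDiff_line {u : ℂ → ℝ} (hu : ContDiff ℝ 1 u) (a e : ℂ) :
    ContDiff ℝ 1 fun s : ℝ => u (a + s • e) :=
  hu.comp (contDiff_const.add (contDiff_id.smul contDiff_const))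

lemma integrable_line {G : ℂ → ℝ} (hG : Continuous G) (hc : HasCompactSupport G) (a : ℂ) {e : ℂ}
    (he : ‖e‖ = 1) : Integrable fun s : ℝ => G (a + s • e) :=
  (hG.comp (line_emb a he).continuous).integrable_of_hasCompactSupport
    (hc.comp_isClosedEmbedding (line_emb a he))

lemma cont_nD {u : ℂ → ℝ} (hu : ContDiff ℝ 1 u) : Continuous fun z => ‖fderiv ℝ u z‖ :=
  (hu.continuous_fderiv one_ne_zero).norm

lemma supp_nD {u : ℂ → ℝ} (hc : HasCompactSupport u) :
    HasCompactSupport fun z => ‖fderiv ℝ u z‖ := (hc.fderiv (𝕜 := ℝ)).norm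

lemma abs_D_le (u : ℂ → ℝ) (z : ℂ) {e : ℂ} (he : ‖e‖ = 1) :
    |fderiv ℝ u z e| ≤ ‖fderiv ℝ u z‖ := by
  have := (fderiv ℝ u z).le_opNorm e
  rwa [he, mul_one] at this

lemma line_bound {u : ℂ → ℝ} (hu : ContDiff ℝ 1 u) (hc : HasCompactSupport u) {O : Set ℂ}
    (hO : MeasurableSet O) (a : ℂ) {e : ℂ} (he : ‖e‖ = 1) (x : ℝ)
    (hx : (∀ s, x ≤ s → a + s • e ∈ O) ∨ ∀ s, s ≤ x → a + s • e ∈ O) :
    |u (a + x • e)| ≤ ∫ s : ℝ, O.indicator (fun z => ‖fderiv ℝ u z‖) (a + s • e) := by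
  have hI := integrable_line (cont_nD hu) (supp_nD hc) a he
  have hI' : Integrable fun s : ℝ => O.indicator (fun z => ‖fderiv ℝ u z‖) (a + s • e) :=
    hI.indicator ((line_emb a he).continuous.measurable hO)
  have hf := contDiff_line hu a e
  have hfc : HasCompactSupport fun s : ℝ => u (a + s • e) :=
    hc.comp_isClosedEmbedding (line_emb a he)
  have hd : ∀ s : ℝ, deriv (fun s : ℝ => u (a + s • e)) s = fderiv ℝ u (a + s • e) e :=
    fun s => (hasDerivAt_line hu a e s).deriv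
  have key : ∀ S : Set ℝ, MeasurableSet S → (∀ s ∈ S, a + s • e ∈ O) →
      |∫ s in S, deriv (fun s : ℝ => u (a + s • e)) s|
        ≤ ∫ s : ℝ, O.indicator (fun z => ‖fderiv ℝ u z‖) (a + s • e) := by
    intro S hS hSO
    calc _ ≤ ∫ s in S, O.indicator (fun z => ‖fderiv ℝ u z‖) (a + s • e) := by
          rw [← Real.norm_eq_abs]
          refine norm_integral_le_of_norm_le hI'.integrableOn ?_
          refine (ae_restrict_iff' hS).2 (Filter.Eventually.of_forall fun s hs => ?_)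
          rw [hd, indicator_of_mem (hSO s hs)]
          exact abs_D_le u _ he
      _ ≤ _ := setIntegral_le_integral hI' (Filter.Eventually.of_forall fun s =>
          indicator_nonneg (fun _ _ => norm_nonneg _) _)
  rcases hx with hx | hx
  · have := key (Ioi x) measurableSet_Ioi fun s hs => hx s (le_of_lt hs)
    rwa [hfc.integral_Ioi_deriv_eq hf, abs_neg] at this
  · have := key (Iic x) measurableSet_Iic fun s hs => hx s hs
    rwa [hfc.integral_Iic_deriv_eq hf] at this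

lemma out_mono {ρ x y x' y' : ℝ} (h : (⟨x, y⟩ : ℂ) ∈ (Metric.ball (0 : ℂ) ρ)ᶜ)
    (h' : x ^ 2 + y ^ 2 ≤ x' ^ 2 + y' ^ 2) : (⟨x', y'⟩ : ℂ) ∈ (Metric.ball (0 : ℂ) ρ)ᶜ := by
  simp only [mem_compl_iff, Metric.mem_ball, dist_zero_right, not_lt] at h ⊢
  refine h.trans ((sq_le_sq₀ (norm_nonneg _) (norm_nonneg _)).1 ?_)
  rw [Complex.sq_norm, Complex.sq_norm, Complex.normSq_mk, Complex.normSq_mk]
  nlinarith

lemma gn {u : ℂ → ℝ} (hu : ContDiff ℝ 1 u) (hc : HasCompactSupport u) (ρ : ℝ) :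
    ∫ z in (Metric.ball (0 : ℂ) ρ)ᶜ, u z ^ 2
      ≤ (∫ z in (Metric.ball (0 : ℂ) ρ)ᶜ, ‖fderiv ℝ u z‖) ^ 2 := by
  set O := (Metric.ball (0 : ℂ) ρ)ᶜ with hO
  have hOm : MeasurableSet O := measurableSet_ball.compl
  set g : ℂ → ℝ := O.indicator fun z => ‖fderiv ℝ u z‖ with hg
  have hgi : Integrable g :=
    ((cont_nD hu).integrable_of_hasCompactSupport (supp_nD hc)).indicator hOm
  have hmp := Complex.volume_preserving_equiv_real_prod.symm
  have hgp : Integrable (fun p : ℝ × ℝ => g ⟨p.1, p.2⟩) (volume.prod volume) :=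
    (hmp.integrable_comp_emb Complex.measurableEquivRealProd.symm.measurableEmbedding).2 hgi
  have hgE : ∫ p : ℝ × ℝ, g ⟨p.1, p.2⟩ ∂(volume.prod volume) = ∫ z, g z :=
    hmp.integral_comp Complex.measurableEquivRealProd.symm.measurableEmbedding g
  have hA := hgp.integral_prod_right
  have hB := hgp.integral_prod_left
  have eA : ∫ y : ℝ, ∫ x : ℝ, g ⟨x, y⟩ = ∫ z, g z := by
    rw [← hgE, integral_prod_symm _ hgp]
  have eB : ∫ x : ℝ, ∫ y : ℝ, g ⟨x, y⟩ = ∫ z, g z := by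
    rw [← hgE, integral_prod _ hgp]
  have hg0 : ∀ z, 0 ≤ g z := fun z => indicator_nonneg (fun _ _ => norm_nonneg _) _
  have hpt : ∀ p : ℝ × ℝ, O.indicator (fun z => u z ^ 2) ⟨p.1, p.2⟩ ≤
      (∫ y : ℝ, g ⟨p.1, y⟩) * ∫ x : ℝ, g ⟨x, p.2⟩ := by
    rintro ⟨x, y⟩
    by_cases h : (⟨x, y⟩ : ℂ) ∈ O
    · rw [indicator_of_mem h]
      have e1 : ∀ s : ℝ, (⟨0, y⟩ : ℂ) + s • (1 : ℂ) = ⟨s, y⟩ := fun s => by
        apply Complex.ext <;> simp
      have e2 : ∀ s : ℝ, (⟨x, 0⟩ : ℂ) + s • Complex.I = ⟨x, s⟩ := fun s => by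
        apply Complex.ext <;> simp
      have h1 := line_bound hu hc hOm ⟨0, y⟩ (e := 1) norm_one x (by
        simp only [e1]
        rcases le_total 0 x with h0 | h0
        · exact Or.inl fun s hs => out_mono h (by nlinarith)
        · exact Or.inr fun s hs => out_mono h (by nlinarith))
      have h2 := line_bound hu hc hOm ⟨x, 0⟩ (e := Complex.I) Complex.norm_I y (by
        simp only [e2]
        rcases le_total 0 y with h0 | h0
        · exact Or.inl fun s hs => out_mono h (by nlinarith)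
        · exact Or.inr fun s hs => out_mono h (by nlinarith))
      simp only [e1, e2] at h1 h2
      rw [← sq_abs, sq]
      exact mul_le_mul h2 h1 (abs_nonneg _) ((abs_nonneg _).trans h2)
    · rw [indicator_of_notMem h]
      exact mul_nonneg (integral_nonneg fun _ => hg0 _) (integral_nonneg fun _ => hg0 _)
  rw [← MeasureTheory.integral_indicator hOm, ← MeasureTheory.integral_indicator hOm,
    ← hmp.integral_comp Complex.measurableEquivRealProd.symm.measurableEmbedding]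
  calc _ ≤ ∫ p : ℝ × ℝ, (∫ y : ℝ, g ⟨p.1, y⟩) * (∫ x : ℝ, g ⟨x, p.2⟩) ∂(volume.prod volume) :=
        integral_mono_of_nonneg (Filter.Eventually.of_forall fun p =>
          indicator_nonneg (fun _ _ => sq_nonneg _) _) (hB.mul_prod hA)
          (Filter.Eventually.of_forall hpt)
    _ = _ := by
        rw [integral_prod_mul (fun x : ℝ => ∫ y : ℝ, g ⟨x, y⟩) (fun y : ℝ => ∫ x : ℝ, g ⟨x, y⟩),
          eA, eB, sq]

end Pool.Agent.PSz.Pol
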