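import Pool.Agent.P.MP_7b7370_an.SDefs
import Pool.Agent.P.MP_7b7370_an.PolarB

set_option autoImplicit false

namespace Pool.Agent.PSz

open Real Set MeasureTheory intervalIntegral

/-- paper 4.1 -/
theorem integral_ball {F : ℂ → ℝ} (hF : Continuous F) {ρ : ℝ} (hρ : 0 ≤ ρ) :
    ∫ z in Metric.ball (0 : ℂ) ρ, F z
      = PI (-π) π (fun _ => 0) (fun _ => ρ) fun r θ => F (pol r θ) := by
  exact Pol.integral_ball' hF.measurable hρ (Pol.integrableOn_ball hF 0 ρ)

/-- paper 4.2 -/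
theorem ray_identity {u : ℂ → ℝ} (hu : ContDiff ℝ 1 u) (t c R θ : ℝ) :
    ∫ r in (0 : ℝ)..R, (‖fderiv ℝ u (pol r θ)‖ ^ 2 - t * u (pol r θ) ^ 2) * r
      = (∫ r in (0 : ℝ)..R, (‖fderiv ℝ (fun z => c * phi t z - u z) (pol r θ)‖ ^ 2
          - t * (c * phi t (pol r θ) - u (pol r θ)) ^ 2) * r)
        - c ^ 2 * Gt t (R ^ 2) + 2 * c * (2 * R ^ 2 * F1 t (R ^ 2) * u (pol R θ)) := by
  have hh : ContDiff ℝ 1 fun z => c * phi t z - u z :=
    (contDiff_const.mul (contDiff_phi t)).sub hu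
  have hfd : ∀ z v, fderiv ℝ (fun z => c * phi t z - u z) z v
      = c * fderiv ℝ (phi t) z v - fderiv ℝ u z v := by
    intro z v
    have := ((((contDiff_phi t).differentiable one_ne_zero z).hasFDerivAt.const_mul c).sub
      (hu.differentiable one_ne_zero z).hasFDerivAt).fderiv
    have e : (fun z => c * phi t z - u z) = (fun y => c * phi t y) - u := rfl
    rw [e, this]
    simp
  have hd : ∀ r : ℝ, HasDerivAt (fun r => -(c ^ 2 * Gt t (r ^ 2))
      + 2 * c * (2 * r ^ 2 * F1 t (r ^ 2) * u (pol r θ)))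
      ((‖fderiv ℝ u (pol r θ)‖ ^ 2 - t * u (pol r θ) ^ 2) * r -
        (‖fderiv ℝ (fun z => c * phi t z - u z) (pol r θ)‖ ^ 2
          - t * (c * phi t (pol r θ) - u (pol r θ)) ^ 2) * r) r := by
    intro r
    have h1 := ((hasDerivAt_Gt t (r ^ 2)).comp r (hasDerivAt_pow 2 r)).const_mul (c ^ 2)
    have h2 := ((((hasDerivAt_pow 2 r).const_mul 2).mul
      ((hasDerivAt_F1 t (r ^ 2)).comp r (hasDerivAt_pow 2 r))).mul
        (hasDerivAt_ray hu r θ)).const_mul (2 * c)
    refine (h1.neg.add h2).congr_deriv ?_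
    rw [norm_clm_sq_cis _ θ, norm_clm_sq_cis (fderiv ℝ (fun z => c * phi t z - u z) _) θ, hfd, hfd,
      fderiv_phi_ray, phi_pol]
    have h3 := fderiv_phi_arc t r θ
    have h4 := ode t (r ^ 2)
    simp only [Gt1, Pi.mul_apply, Function.comp]
    norm_num
    linear_combination (2 * c * r * u (pol r θ)) * h4 +
      (c ^ 2 * fderiv ℝ (phi t) (pol r θ) (Complex.I * cis θ)
        - 2 * c * fderiv ℝ u (pol r θ) (Complex.I * cis θ)) * h3
  have c1 : Continuous fun r : ℝ => (‖fderiv ℝ u (pol r θ)‖ ^ 2 - t * u (pol r θ) ^ 2) * r := by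
    have h1 := Pol.cont_nD hu
    have h2 := hu.continuous
    fun_prop
  have c2 : Continuous fun r : ℝ => (‖fderiv ℝ (fun z => c * phi t z - u z) (pol r θ)‖ ^ 2
      - t * (c * phi t (pol r θ) - u (pol r θ)) ^ 2) * r := by
    have h1 := Pol.cont_nD hh
    have h2 := hu.continuous
    fun_prop
  have := integral_eq_sub_of_hasDerivAt (a := 0) (b := R) (fun r _ => hd r)
    ((c1.sub c2).intervalIntegrable _ _)
  rw [intervalIntegral.integral_sub (c1.intervalIntegrable _ _) (c2.intervalIntegrable _ _)] at this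
  simp only [Gt, ne_eq, OfNat.ofNat_ne_zero, not_false_eq_true, zero_pow, mul_zero, zero_mul,
    neg_zero, add_zero, sub_zero] at this ⊢
  linarith

/-- paper 4.3 -/
theorem ext_bound {Ω : Set ℂ} (hΩ : MeasurableSet Ω) {u : ℂ → ℝ} (hu : ContDiff ℝ 1 u)
    (hc : HasCompactSupport u) (hs : tsupport u ⊆ Ω) {ρ δ : ℝ} (hρ : 0 < ρ) (hδ : 0 ≤ δ)
    (hv : volume (Ω \ Metric.ball 0 ρ) ≤ ENNReal.ofReal δ) :
    (∫ z in (Metric.ball (0 : ℂ) ρ)ᶜ, u z ^ 2
      ≤ δ * ∫ z in (Metric.ball (0 : ℂ) ρ)ᶜ, ‖fderiv ℝ u z‖ ^ 2) ∧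
    ∫ θ in (-π)..π, u (pol ρ θ) ^ 2
      ≤ 2 * √δ / ρ * ∫ z in (Metric.ball (0 : ℂ) ρ)ᶜ, ‖fderiv ℝ u z‖ ^ 2 := by
  set O := (Metric.ball (0 : ℂ) ρ)ᶜ with hO
  have hOm : MeasurableSet O := measurableSet_ball.compl
  have cD := Pol.cont_nD hu
  have sD := Pol.supp_nD (u := u) hc
  have iD : Integrable fun z => ‖fderiv ℝ u z‖ := cD.integrable_of_hasCompactSupport sD
  have iD2 : Integrable fun z => ‖fderiv ℝ u z‖ ^ 2 := by
    simp only [sq]
    exact (cD.mul cD).integrable_of_hasCompactSupport sD.mul_left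
  have iu2 : Integrable fun z => |u z| ^ 2 := by
    simp only [sq, abs_mul_abs_self]
    exact (hu.continuous.mul hu.continuous).integrable_of_hasCompactSupport hc.mul_left
  have cuD : Continuous fun z => |u z| * ‖fderiv ℝ u z‖ := hu.continuous.abs.mul cD
  have suD : HasCompactSupport fun z => |u z| * ‖fderiv ℝ u z‖ := sD.mul_left
  have iuD : Integrable fun z => |u z| * ‖fderiv ℝ u z‖ := cuD.integrable_of_hasCompactSupport suD
  have hD0 : 0 ≤ ∫ z in O, ‖fderiv ℝ u z‖ ^ 2 := integral_nonneg fun _ => sq_nonneg _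
  have hfin : volume (Ω ∩ O) ≠ ⊤ := ne_top_of_le_ne_top ENNReal.ofReal_ne_top hv
  have hvol : (volume (Ω ∩ O)).toReal ≤ δ := ENNReal.toReal_le_of_le_ofReal hδ hv
  have first : ∫ z in O, u z ^ 2 ≤ δ * ∫ z in O, ‖fderiv ℝ u z‖ ^ 2 := by
    refine (Pol.gn hu hc ρ).trans ?_
    have e1 : ∫ z in O, ‖fderiv ℝ u z‖ = ∫ z in Ω ∩ O, 1 * ‖fderiv ℝ u z‖ := by
      rw [inter_comm, ← setIntegral_indicator hΩ]
      refine integral_congr_ae (Filter.Eventually.of_forall fun z => ?_)
      by_cases hz : z ∈ Ω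
      · simp [indicator_of_mem hz]
      · have : fderiv ℝ u z = 0 := by
          by_contra h
          exact hz (hs (support_fderiv_subset ℝ h))
        simp [indicator_of_notMem hz, this]
    have h1 := Pol.cs (μ := volume.restrict (Ω ∩ O)) (f := fun _ => (1 : ℝ))
      (g := fun z => ‖fderiv ℝ u z‖) (integrableOn_const hfin) iD2.integrableOn
      (iD.const_mul 1).integrableOn
    rw [e1]
    refine h1.trans (mul_le_mul ?_ ?_ (integral_nonneg fun _ => sq_nonneg _) hδ)
    · simpa [Measure.real] using hvol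
    · exact setIntegral_mono_set iD2.integrableOn
        (Filter.Eventually.of_forall fun _ => sq_nonneg _) inter_subset_right.eventuallyLE
  refine ⟨first, ?_⟩
  have second : ∫ z in O, |u z| * ‖fderiv ℝ u z‖ ≤ √δ * ∫ z in O, ‖fderiv ℝ u z‖ ^ 2 := by
    have h1 := Pol.cs (μ := volume.restrict O) (f := fun z => |u z|)
      (g := fun z => ‖fderiv ℝ u z‖) iu2.integrableOn iD2.integrableOn iuD.integrableOn
    simp only [sq_abs] at h1
    refine abs_le_of_sq_le_sq' ?_ (by positivity) |>.2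
    rw [mul_pow, sq_sqrt hδ]
    nlinarith
  have hpt : ∀ θ : ℝ, u (pol ρ θ) ^ 2 ≤
      2 / ρ * ∫ r in Ioi ρ, |u (pol r θ)| * ‖fderiv ℝ u (pol r θ)‖ * r := by
    intro θ
    have ep : ∀ r : ℝ, pol r θ = 0 + r • cis θ := fun r => by rw [zero_add, pol_eq_smul]
    have hf : ContDiff ℝ 1 fun r : ℝ => u (pol r θ) * u (pol r θ) := by
      simp only [ep]
      exact (Pol.contDiff_line hu 0 _).mul (Pol.contDiff_line hu 0 _)
    have hfc : HasCompactSupport fun r : ℝ => u (pol r θ) * u (pol r θ) := by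
      simp only [ep]
      exact (hc.comp_isClosedEmbedding (Pol.line_emb 0 (norm_cis θ))).mul_left
    have h1 := hfc.integral_Ioi_deriv_eq hf ρ
    have hI : Integrable fun r : ℝ => |u (pol r θ)| * ‖fderiv ℝ u (pol r θ)‖ * r := by
      have h2 : HasCompactSupport fun r : ℝ => |u (pol r θ)| * ‖fderiv ℝ u (pol r θ)‖ := by
        simp only [ep]
        exact suD.comp_isClosedEmbedding (Pol.line_emb 0 (norm_cis θ))
      refine Continuous.integrable_of_hasCompactSupport ?_ h2.mul_right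
      exact (cuD.comp (by fun_prop : Continuous fun r : ℝ => pol r θ)).mul continuous_id
    rw [← MeasureTheory.integral_const_mul]
    calc u (pol ρ θ) ^ 2 = |∫ r in Ioi ρ, deriv (fun r : ℝ => u (pol r θ) * u (pol r θ)) r| := by
          rw [h1, abs_neg, abs_mul_self, sq]
      _ ≤ _ := by
          rw [← Real.norm_eq_abs]
          refine norm_integral_le_of_norm_le (hI.const_mul _).integrableOn ?_
          refine (ae_restrict_iff' measurableSet_Ioi).2 (Filter.Eventually.of_forall fun r hr => ?_)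
          have hr' : ρ < r := hr
          have hd : HasDerivAt (fun r : ℝ => u (pol r θ) * u (pol r θ)) _ r :=
            (hasDerivAt_ray hu r θ).mul (hasDerivAt_ray hu r θ)
          rw [hd.deriv, mul_comm (fderiv ℝ u (pol r θ) (cis θ)), ← two_mul, Real.norm_eq_abs,
            abs_mul, abs_mul, abs_two]
          have h3 := Pol.abs_D_le u (pol r θ) (norm_cis θ)
          have h4 : |u (pol r θ)| * |fderiv ℝ u (pol r θ) (cis θ)| ≤
              |u (pol r θ)| * ‖fderiv ℝ u (pol r θ)‖ := mul_le_mul_of_nonneg_left h3 (abs_nonneg _)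
          have h5 : 0 ≤ |u (pol r θ)| * ‖fderiv ℝ u (pol r θ)‖ := by positivity
          have h6 : 1 ≤ r / ρ := (one_le_div hρ).2 hr'.le
          calc _ ≤ 2 * (|u (pol r θ)| * ‖fderiv ℝ u (pol r θ)‖) * 1 := by linarith
            _ ≤ 2 * (|u (pol r θ)| * ‖fderiv ℝ u (pol r θ)‖) * (r / ρ) := by gcongr
            _ = _ := by field_simp
  have hm : Measurable (O.indicator fun z => |u z| * ‖fderiv ℝ u z‖) :=
    cuD.measurable.indicator hOm
  have e3 := Pol.integral_polar hm (iuD.indicator hOm)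
  have i3 := Pol.ii_polar hm (iuD.indicator hOm)
  simp only [hO, Pol.inner_out _ hρ] at e3 i3
  rw [MeasureTheory.integral_indicator hOm] at e3
  have cu : Continuous fun θ => u (pol ρ θ) ^ 2 := by
    have := hu.continuous
    fun_prop
  calc _ ≤ ∫ θ in (-π)..π, 2 / ρ * ∫ r in Ioi ρ, |u (pol r θ)| * ‖fderiv ℝ u (pol r θ)‖ * r :=
        integral_mono_on (by linarith [pi_pos]) (cu.intervalIntegrable _ _) (i3.const_mul _)
          fun θ _ => hpt θ
    _ = 2 / ρ * ∫ z in O, |u z| * ‖fderiv ℝ u z‖ := by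
        rw [intervalIntegral.integral_const_mul, e3]
    _ ≤ 2 / ρ * (√δ * ∫ z in O, ‖fderiv ℝ u z‖ ^ 2) := by gcongr
    _ = _ := by ring

end Pool.Agent.PSz
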