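import Pool.Agent.P.MP_7b7370_an.Sector
import Pool.Agent.P.MP_7b7370_an.LowFreq
import Pool.Agent.P.MP_7b7370_an.Polar
import Pool.Agent.P.MP_7b7370_an.AsmC

set_option autoImplicit false

namespace Pool.Agent.PSz

open Real Set MeasureTheory intervalIntegral

namespace Asm

lemma core {e C0 C ε a t ς Φ sJ sD κ δ : ℝ} {h : P2 → ℝ} {N : ℕ} (hN0 : 0 < N) {θ A B : ℕ → ℝ}
    (hθ : Monotone θ) (h0 : θ 0 = -π) (hN : θ N = π) (hNa : N * a = π)
    (he : e ≤ 1 / 100) (hC0 : 1 ≤ C0) (hC : 1 ≤ C) (hε : 0 < ε)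
    (hε1 : ε ≤ 1 / 10 ^ 7) (hε2 : 1000 * ε ≤ e) (hε3 : ε * C0 ≤ 1 / 1000)
    (ha : C * C0 * a ≤ 1 / 10 ^ 5) (hδ : δ ≤ 1 / 12) (hr : Ref a t ς h)
    (hΦ : 2 * a * Gt t 1 ≤ Φ) (hJ : |sJ + sD| ≤ C0 * a ^ 3)
    {abn : ℕ → Prop} {Hb : ℕ → ℂ → ℝ} {g : ℕ → ℝ}
    (hS : ∀ k < N, SecOut e C0 C ε a t ς Φ sJ sD κ h (θ k) (θ (k + 1)) (A k) (B k) (abn k)
      (Hb k) (g k))
    (hl : ∀ k < N, θ k < θ (k + 1) → ∀ φ ∈ Icc (θ k) (θ (k + 1)),
      0 < ell (A k) (B k) φ ∧ ell (A k) (B k) φ ≤ 1 / (1 - ε))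
    (har : ∑ k ∈ Finset.range N, ∫ φ in (θ k)..(θ (k + 1)), Rp ε (A k) (B k) φ ^ 2 / 2 ≤ π)
    (hmc : |∑ k ∈ Finset.range N, ∫ φ in (θ k)..(θ (k + 1)), Rp ε (A k) (B k) φ ^ 3 * cos φ|
      ≤ 3 * (1 + ε) *
        (π - ∑ k ∈ Finset.range N, ∫ φ in (θ k)..(θ (k + 1)), Rp ε (A k) (B k) φ ^ 2 / 2))
    (hms : |∑ k ∈ Finset.range N, ∫ φ in (θ k)..(θ (k + 1)), Rp ε (A k) (B k) φ ^ 3 * sin φ|
      ≤ 3 * (1 + ε) *
        (π - ∑ k ∈ Finset.range N, ∫ φ in (θ k)..(θ (k + 1)), Rp ε (A k) (B k) φ ^ 2 / 2))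
    {u : ℂ → ℝ} (hu : ContDiff ℝ 1 u) (hcs : HasCompactSupport u)
    (hu0 : ∀ k < N, θ k < θ (k + 1) → ∀ φ ∈ Icc (θ k) (θ (k + 1)),
      u (pol (1 / ell (A k) (B k) φ) φ) = 0)
    (hO : ∫ z in (Metric.ball (0 : ℂ) (1 + ε))ᶜ, u z ^ 2
      ≤ δ * ∫ z in (Metric.ball (0 : ℂ) (1 + ε))ᶜ, ‖fderiv ℝ u z‖ ^ 2)
    (hU : 200 * (C0 / ε ^ 2) * ∫ φ in (-π)..π, u (pol (1 + ε) φ) ^ 2
      ≤ ∫ z in (Metric.ball (0 : ℂ) (1 + ε))ᶜ, ‖fderiv ℝ u z‖ ^ 2) :
    -(8000 * PI (-π) π (fun _ => 0) (fun _ => (1 - ε) ^ 2) (fun r φ => u (pol r φ)) ^ 2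
      * N * C * ς) ≤ en u - t * ma u := by
  have hab : ∀ k, θ k ≤ θ (k + 1) := fun k => hθ (Nat.le_succ k)
  have mem : ∀ {k : ℕ}, k ∈ Finset.range N → k < N := Finset.mem_range.1
  have ha0 := hr.a_pos
  have ha1 := hr.a_le
  have hε5 : ε ≤ 1 / 10 ^ 5 := hε1.trans (by norm_num)
  have ht0 : 0 ≤ t := le_trans (by norm_num) hr.t_lo
  have ht6 : t ≤ 6 := hr.t_hi.trans (by norm_num)
  have hs : 0.99 ≤ (1 - ε) ^ 2 := by nlinarith
  have hs1 : (1 - ε) ^ 2 ≤ 1 := by nlinarith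
  have len : ∑ k ∈ Finset.range N, (θ (k + 1) - θ k) = 2 * π := by
    rw [sum_len, h0, hN]; ring
  have hς1 : ς ≤ 1 := hr.s_le.trans (pow_le_one₀ ha0.le (by linarith))
  have hF : |F0 t 1| ≤ 1 / 1000 := hr.F_one.trans (by nlinarith)
  have hG1 := Gt1_one_bounds hr.t_lo hr.t_hi hF
  have a1 : C0 * a ≤ 1 / 10 ^ 5 := (small hC0 hC hε hε1 hε3 ha0 ha).2.1
  have a2 : C * a ≤ 1 / 10 ^ 5 := by nlinarith [mul_pos (by linarith : 0 < C) ha0]
  have cR : ∀ k, Continuous (Rp ε (A k) (B k)) := fun k => continuous_Rp hε _ _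
  have hR : ∀ k < N, ∀ φ ∈ Ioo (θ k) (θ (k + 1)),
      1 - ε ≤ Rp ε (A k) (B k) φ ∧ Rp ε (A k) (B k) φ ≤ 1 + ε := fun k hk φ hφ =>
    ⟨le_Rp hε (by linarith) (hl k hk (hφ.1.trans hφ.2) φ (Ioo_subset_Icc_self hφ)).2,
      Rp_le hε _ _ _⟩
  have hz : ∀ k < N, ∀ φ ∈ Ioo (θ k) (θ (k + 1)),
      u (pol (Rp ε (A k) (B k) φ) φ) = 0 ∨ Rp ε (A k) (B k) φ = 1 + ε := fun k hk φ hφ => by
    unfold Rp
    rcases le_total (ell (A k) (B k) φ) (1 / (1 + ε)) with h1 | h1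
    · right; rw [max_eq_right h1, one_div_one_div]
    · left; rw [max_eq_left h1]
      exact hu0 k hk (hφ.1.trans hφ.2) φ (Ioo_subset_Icc_self hφ)
  obtain ⟨b, b01, bN, babn, bsum⟩ := flags hN0 abn (fun k => C0 * g k) (m := a ^ 4)
    fun k hk => ⟨mul_nonneg (by linarith) (hS k hk).g_nonneg, (hS k hk).g_abn⟩
  choose! H Hr Ht hP hErr hH2 using fun k (hk : k < N) =>
    (hS k hk).inner (b k) (b (k + 1)) (b01 _) (b01 _) (babn k hk)
  obtain ⟨c, hc, hmean⟩ := exists_c hθ h0 hN hr.t_lo hr.t_hi hs hs1 (fun k hk => (hP k hk).cH) (by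
    refine (Finset.sum_le_sum fun k hk => hH2 k (mem hk)).trans ?_
    rw [← Finset.mul_sum, Finset.sum_add_distrib, len, Finset.sum_const, Finset.card_range,
      nsmul_eq_mul, hNa]
    have h1 : a ^ 4 ≤ 1 := pow_le_one₀ ha0.le (by linarith)
    have h2 : C * a ^ 5 ≤ 1 / 10 ^ 5 := by
      calc C * a ^ 5 = C * a * a ^ 4 := by ring
        _ ≤ 1 / 10 ^ 5 * 1 := mul_le_mul a2 h1 (by positivity) (by norm_num)
        _ = _ := mul_one _
    have h3 := mul_le_mul h2 (show 2 * π + π ≤ 12 by linarith [pi_le_four]) (by positivity)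
      (by norm_num)
    linarith) hu
  have hh : ContDiff ℝ 1 fun z => c * phi t z - u z := by fun_prop
  have hy : ∀ k < N, ContDiff ℝ 1 fun z => c * phi t z - u z - c * Hb k z := fun k hk => by
    have := (hS k hk).smooth
    fun_prop
  have hW := low_freq N θ hθ h0 hN (s := (1 - ε) ^ 2) (by linarith) hs1
    (fun j r => (c * phi t (pol r (θ j)) - u (pol r (θ j))) - c * Nd a h (b j) r) (by
      funext r
      have : pol r π = pol r (-π) := by apply Complex.ext <;> simp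
      rw [bN, hN, h0, this]) _ _ _ _ (fun k hk => piece_W (c := c) (hP k hk) hh) hmean
  have hHd1 : π - ∑ k ∈ Finset.range N, ∫ φ in (θ k)..(θ (k + 1)), Rp ε (A k) (B k) φ ^ 2 / 2
      ≤ 6.5 * ε := by
    have h1 : ∑ k ∈ Finset.range N, (θ (k + 1) - θ k) * ((1 - ε) ^ 2 / 2) ≤
        ∑ k ∈ Finset.range N, ∫ φ in (θ k)..(θ (k + 1)), Rp ε (A k) (B k) φ ^ 2 / 2 := by
      refine Finset.sum_le_sum fun k hk => ?_
      have ck := cR k
      have := imono (hab k) (f := fun _ => (1 - ε) ^ 2 / 2)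
        (g := fun φ => Rp ε (A k) (B k) φ ^ 2 / 2) continuous_const (by fun_prop) fun φ hφ =>
          div_le_div_of_nonneg_right (pow_le_pow_left₀ (by linarith) (hR k (mem hk) φ hφ).1 2)
            (by norm_num)
      rwa [intervalIntegral.integral_const, smul_eq_mul] at this
    rw [← Finset.sum_mul, len] at h1
    nlinarith [pi_lt_d2, pi_pos, mul_nonneg pi_pos.le (sq_nonneg ε)]
  have hMc := mom_le (c := c) hθ h0 hN hε hε5 ha0 hNa ht0 ht6 (by linarith) (sub_nonneg.2 har) hHd1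
    cR hR hu hz (fun k hk => (hS k hk).smooth) (fun k hk => (hS k hk).g_nonneg) hP
    continuous_cos cos_sq_le_one (by simp) (fun k hk => (hS k hk).zc) hmc
  have hMs := mom_le (c := c) hθ h0 hN hε hε5 ha0 hNa ht0 ht6 (by linarith) (sub_nonneg.2 har) hHd1
    cR hR hu hz (fun k hk => (hS k hk).smooth) (fun k hk => (hS k hk).g_nonneg) hP
    continuous_sin sin_sq_le_one (by simp) (fun k hk => (hS k hk).zs) hms
  have hUs := sum_int N θ ((c_sq hu).arc (1 + ε))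
  rw [h0, hN] at hUs
  have hGr := Finset.sum_le_sum (s := Finset.range N) fun k hk =>
    grad_le (c := c) (hab k) (sq_nonneg (1 - ε)) (hP k (mem hk)) (hS k (mem hk)).smooth hh
  have hMB := Finset.sum_le_sum (s := Finset.range N) fun k hk =>
    mass_le (c := c) (hab k) (sq_nonneg (1 - ε)) (hP k (mem hk)) (hS k (mem hk)).smooth hh
  rw [Finset.sum_add_distrib, ← Finset.mul_sum, ← Finset.mul_sum] at hGr hMB
  have hMR : ∑ k ∈ Finset.range N, PM (θ k) (θ (k + 1)) (fun _ => (1 - ε) ^ 2)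
      (Rp ε (A k) (B k)) (fun z => c * phi t z - u z - c * Hb k z) ≤
      8 * ε * (2 * c ^ 2 * (C0 * ∑ k ∈ Finset.range N, g k) +
        2 * ∫ φ in (-π)..π, u (pol (1 + ε) φ) ^ 2) +
      32 * ε ^ 2 * ∑ k ∈ Finset.range N, PD (θ k) (θ (k + 1)) (fun _ => (1 - ε) ^ 2)
        (Rp ε (A k) (B k)) (fun z => c * phi t z - u z - c * Hb k z) := by
    rw [← hUs]
    simp only [Finset.mul_sum, ← Finset.sum_add_distrib]
    refine Finset.sum_le_sum fun k hk => ?_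
    refine (ring_le (hab k) hε hε5 (cR k) (hR k (mem hk)) (hy k (mem hk))).trans
      (add_le_add (mul_le_mul_of_nonneg_left ?_ (by positivity)) le_rfl)
    refine (bdry_le (hab k) (cR k) hu (hS k (mem hk)).smooth).trans (add_le_add
      (mul_le_mul_of_nonneg_left (hS k (mem hk)).bdry (by positivity))
      (mul_le_mul_of_nonneg_left (u_le (hz k (mem hk)) (hab k) (cR k) hu) (by norm_num)))
  have hB : -(c ^ 2 * (∑ k ∈ Finset.range N, g k) / 4 +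
      4 * (C0 / ε ^ 2) * ∫ φ in (-π)..π, u (pol (1 + ε) φ) ^ 2) ≤
      2 * c * ∑ k ∈ Finset.range N, ∫ φ in (θ k)..(θ (k + 1)), 2 * Rp ε (A k) (B k) φ ^ 2 *
        F1 t (Rp ε (A k) (B k) φ ^ 2) * u (pol (Rp ε (A k) (B k) φ) φ) := by
    rw [← hUs]
    simp only [Finset.mul_sum, Finset.sum_div, ← Finset.sum_add_distrib, ← Finset.sum_neg_distrib]
    refine Finset.sum_le_sum fun k hk => ?_
    exact cross (by positivity) (hS k (mem hk)).g_nonneg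
      (integral_nonneg (hab k) fun _ _ => sq_nonneg _) ((hS k (mem hk)).bad u hu (hu0 k (mem hk)))
  have G0 : 0 ≤ ∑ k ∈ Finset.range N, g k := Finset.sum_nonneg fun k hk => (hS k (mem hk)).g_nonneg
  have hEr : ∑ k ∈ Finset.range N,
      Err (θ k) (θ (k + 1)) ((1 - ε) ^ 2) (Hb k) (H k) (Hr k) (Ht k) ≤
      C * (5 * C0 * a * (∑ k ∈ Finset.range N, g k) + N * ς ^ 2) := by
    refine (Finset.sum_le_sum fun k hk => hErr k (mem hk)).trans ?_
    rw [← Finset.mul_sum, Finset.sum_add_distrib, ← Finset.mul_sum, Finset.sum_add_distrib,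
      Finset.sum_const, Finset.card_range, nsmul_eq_mul]
    rw [← Finset.mul_sum _ g C0] at bsum
    refine mul_le_mul_of_nonneg_left (add_le_add ?_ le_rfl) (by linarith)
    have h1 := mul_le_mul_of_nonneg_right hC0 G0
    calc _ ≤ a * (5 * (C0 * ∑ k ∈ Finset.range N, g k)) :=
          mul_le_mul_of_nonneg_left (by linarith) ha0.le
      _ = _ := by ring
  have hE := Finset.sum_le_sum (s := Finset.range N) fun k hk => show
      c ^ 2 * (Φ + (sJ / a + sD / a) * (∫ φ in (θ k)..(θ (k + 1)), Rp ε (A k) (B k) φ ^ 2 / 2)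
        - sJ - sD / a / 2 * (θ (k + 1) - θ k) + g k - C * ς)
      + 0.98 * PD (θ k) (θ (k + 1)) (fun _ => 0) (fun _ => (1 - ε) ^ 2)
        (fun z => c * phi t z - u z - c * Hb k z)
      + e * PD (θ k) (θ (k + 1)) (fun _ => (1 - ε) ^ 2) (Rp ε (A k) (B k))
        (fun z => c * phi t z - u z - c * Hb k z)
      - (t + e) * (PM (θ k) (θ (k + 1)) (fun _ => 0) (fun _ => (1 - ε) ^ 2)
        (fun z => c * phi t z - u z - c * Hb k z) +
        PM (θ k) (θ (k + 1)) (fun _ => (1 - ε) ^ 2) (Rp ε (A k) (B k))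
        (fun z => c * phi t z - u z - c * Hb k z))
      - c ^ 2 * (Gt t 1 * (θ (k + 1) - θ k) + Gt1 t 1 *
        (2 * (∫ φ in (θ k)..(θ (k + 1)), Rp ε (A k) (B k) φ ^ 2 / 2) - (θ (k + 1) - θ k)))
      + 2 * c * ∫ φ in (θ k)..(θ (k + 1)), 2 * Rp ε (A k) (B k) φ ^ 2 *
        F1 t (Rp ε (A k) (B k) φ ^ 2) * u (pol (Rp ε (A k) (B k) φ) φ) ≤
      PI (θ k) (θ (k + 1)) (fun _ => 0) (fun _ => 1 + ε)
        (fun r φ => ‖fderiv ℝ u (pol r φ)‖ ^ 2 - t * u (pol r φ) ^ 2) by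
    have m1 := (hS k (mem hk)).main u hu (hu0 k (mem hk)) c
    have m2 := sec_id (θa := θ k) (θb := θ (k + 1)) (t := t) (c := c) (cR k) hu
    have m3 := ring_nonneg (hab k) hε hε5 ht0 ht6 (cR k) hu (hR k (mem hk)) (hz k (mem hk))
    have m4 := PI_split (θa := θ k) (θb := θ (k + 1)) (r0 := fun _ => 0) (r2 := fun _ => 1 + ε)
      (show Cont fun r φ => ‖fderiv ℝ u (pol r φ)‖ ^ 2 - t * u (pol r φ) ^ 2 from
        (c_nrm hu).sub (continuous_const.mul (c_sq hu))) continuous_const (cR k) continuous_const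
    have m5 : PM (θ k) (θ (k + 1)) (fun _ => 0) (fun _ => (1 - ε) ^ 2)
        (fun z => c * phi t z - u z - c * Hb k z) +
        PM (θ k) (θ (k + 1)) (fun _ => (1 - ε) ^ 2) (Rp ε (A k) (B k))
        (fun z => c * phi t z - u z - c * Hb k z) =
        PM (θ k) (θ (k + 1)) (fun _ => 0) (Rp ε (A k) (B k))
        (fun z => c * phi t z - u z - c * Hb k z) :=
      PI_split (c_sq (hy k (mem hk))) continuous_const continuous_const (cR k)
    have m6 : ∀ x y : ℝ, sJ * (x / a - 1) + sD * ((x - y / 2) / a) =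
        (sJ / a + sD / a) * x - sJ - sD / a / 2 * y := fun x y => by ring
    rw [add_assoc Φ, m6] at m1
    rw [m5]
    linarith
  have cQ : Cont fun r φ => ‖fderiv ℝ u (pol r φ)‖ ^ 2 - t * u (pol r φ) ^ 2 :=
    (c_nrm hu).sub (continuous_const.mul (c_sq hu))
  rw [sum_PI N θ cQ, h0, hN] at hE
  simp only [Finset.sum_add_distrib, Finset.sum_sub_distrib (f := fun k => _ - _),
    Finset.sum_sub_distrib (f := fun k => _ + _), Finset.sum_sub_distrib (f := fun k => _ * _),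
    ← Finset.mul_sum, len, Finset.sum_const, Finset.card_range, nsmul_eq_mul] at hE
  have hsp := split_out hu hcs t (ρ := 1 + ε) (by linarith)
  have DO0 : 0 ≤ ∫ z in (Metric.ball (0 : ℂ) (1 + ε))ᶜ, ‖fderiv ℝ u z‖ ^ 2 :=
    MeasureTheory.integral_nonneg fun _ => sq_nonneg _
  have nn : ∀ (r0 r1 : ℕ → ℝ → ℝ), (∀ k, Continuous (r0 k)) → (∀ k, Continuous (r1 k)) →
      (∀ k < N, ∀ φ ∈ Ioo (θ k) (θ (k + 1)), 0 ≤ r0 k φ ∧ r0 k φ ≤ r1 k φ) →
      0 ≤ ∑ k ∈ Finset.range N, PD (θ k) (θ (k + 1)) (r0 k) (r1 k)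
        (fun z => c * phi t z - u z - c * Hb k z) ∧
      0 ≤ ∑ k ∈ Finset.range N, PM (θ k) (θ (k + 1)) (r0 k) (r1 k)
        (fun z => c * phi t z - u z - c * Hb k z) := fun r0 r1 c0 c1 hr =>
    ⟨Finset.sum_nonneg fun k hk => PI_nonneg (c_nrm (hy k (mem hk))) (c0 k) (c1 k) (hab k)
      (hr k (mem hk)) fun _ _ _ _ => sq_nonneg _,
    Finset.sum_nonneg fun k hk => PI_nonneg (c_sq (hy k (mem hk))) (c0 k) (c1 k) (hab k)
      (hr k (mem hk)) fun _ _ _ _ => sq_nonneg _⟩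
  have n1 := nn (fun _ _ => 0) (fun _ _ => (1 - ε) ^ 2) (fun _ => continuous_const)
    (fun _ => continuous_const) fun _ _ _ _ => ⟨le_rfl, sq_nonneg _⟩
  have n2 := nn (fun _ _ => (1 - ε) ^ 2) (fun k => Rp ε (A k) (B k)) (fun _ => continuous_const)
    cR fun k hk φ hφ => ⟨sq_nonneg _, (widths hε hε5 (hR k hk φ hφ).1 (hR k hk φ hφ).2).2.1⟩
  have fin := arith (E := en u - t * ma u) he hC0 hC hε hε1 hε2 hε3 ha0 ha ht0 hr.t_hi hr.s_pos
    hς1 (Nat.cast_nonneg N) G0 (sub_nonneg.2 har) n1.1 n2.1 n1.2 n2.2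
    (integral_nonneg (by linarith [pi_pos]) fun _ _ => sq_nonneg _) ?_ hB hMR hMB
    (hW.trans (add_le_add (add_le_add hGr le_rfl) le_rfl)) hMc hMs hEr hU
  · refine le_trans (neg_le_neg ?_) fin
    have := mul_le_mul_of_nonneg_right hc (show 0 ≤ 2000 * (N * C * ς) by
      have := hr.s_pos; positivity)
    linarith
  · generalize ∑ k ∈ Finset.range N, ∫ φ in (θ k)..(θ (k + 1)), Rp ε (A k) (B k) φ ^ 2 / 2 = ar
      at *
    have k1 : t * ∫ z in (Metric.ball (0 : ℂ) (1 + ε))ᶜ, u z ^ 2 ≤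
        (∫ z in (Metric.ball (0 : ℂ) (1 + ε))ᶜ, ‖fderiv ℝ u z‖ ^ 2) / 2 := by
      have j1 := mul_le_mul_of_nonneg_left hO ht0
      have j2 := mul_le_mul_of_nonneg_right hδ DO0
      have j3 := mul_le_mul_of_nonneg_left j2 ht0
      have j4 := mul_le_mul_of_nonneg_right ht6 DO0
      linarith
    have k2 : 2 * π * Gt t 1 ≤ N * Φ := by
      rw [← hNa]
      have := mul_le_mul_of_nonneg_left hΦ (Nat.cast_nonneg (α := ℝ) N)
      linarith
    have k3 : (sJ + sD) / a ≤ 0.1 := by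
      rw [div_le_iff₀ ha0]
      have j1 : C0 * a ^ 3 = C0 * a * a * a := by ring
      have j2 := mul_le_mul a1 ha1 ha0.le (by norm_num)
      have j3 := mul_le_mul_of_nonneg_right j2 ha0.le
      linarith [(abs_le.1 hJ).2]
    have k4 : (N : ℝ) * sJ = sJ / a * π := by rw [← hNa]; field_simp
    have k5 := mul_le_mul_of_nonneg_right k3 (sub_nonneg.2 har)
    have k6 := mul_le_mul_of_nonneg_right hG1 (sub_nonneg.2 har)
    have k7 : (∑ k ∈ Finset.range N, g k) + 0.5 * (π - ar) - N * C * ς ≤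
        (N * Φ + (sJ / a + sD / a) * ar - N * sJ - sD / a / 2 * (2 * π) +
          (∑ k ∈ Finset.range N, g k) - N * (C * ς)) -
        (Gt t 1 * (2 * π) + Gt1 t 1 * (2 * ar - 2 * π)) := by
      rw [k4]
      rw [add_div] at k5
      linarith
    have k8 := mul_le_mul_of_nonneg_left k7 (sq_nonneg c)
    rw [mul_sub (c ^ 2) _ (_ + _)] at k8
    linarith

end Asm

/-- paper 18: summation over the sectors -/
theorem fan_main : ∃ ε δ a0 : ℝ, 0 < ε ∧ ε ≤ 1 / 10 ^ 5 ∧ 0 < δ ∧ 0 < a0 ∧ ∀ N : ℕ, 0 < N →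
    π / N ≤ a0 → ∀ t : ℝ, (∀ ς, 0 < ς → ς ≤ (π / N) ^ 3 → ∃ h, Ref (π / N) t ς h) →
    ∀ θ A B : ℕ → ℝ, Monotone θ → θ 0 = -π → θ N = π →
    (∀ k < N, θ k < θ (k + 1) → ∀ φ ∈ Icc (θ k) (θ (k + 1)),
      0 < ell (A k) (B k) φ ∧ ell (A k) (B k) φ ≤ 1 / (1 - ε)) →
    ∑ k ∈ Finset.range N, ∫ φ in (θ k)..(θ (k + 1)), Rp ε (A k) (B k) φ ^ 2 / 2 ≤ π →
    |∑ k ∈ Finset.range N, ∫ φ in (θ k)..(θ (k + 1)), Rp ε (A k) (B k) φ ^ 3 * cos φ|
      ≤ 3 * (1 + ε) *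
        (π - ∑ k ∈ Finset.range N, ∫ φ in (θ k)..(θ (k + 1)), Rp ε (A k) (B k) φ ^ 2 / 2) →
    |∑ k ∈ Finset.range N, ∫ φ in (θ k)..(θ (k + 1)), Rp ε (A k) (B k) φ ^ 3 * sin φ|
      ≤ 3 * (1 + ε) *
        (π - ∑ k ∈ Finset.range N, ∫ φ in (θ k)..(θ (k + 1)), Rp ε (A k) (B k) φ ^ 2 / 2) →
    ∀ u : ℂ → ℝ, ContDiff ℝ 1 u → HasCompactSupport u →
    (∀ k < N, θ k < θ (k + 1) → ∀ φ ∈ Icc (θ k) (θ (k + 1)),
      u (pol (1 / ell (A k) (B k) φ) φ) = 0) →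
    (∫ z in (Metric.ball (0 : ℂ) (1 + ε))ᶜ, u z ^ 2
      ≤ δ * ∫ z in (Metric.ball (0 : ℂ) (1 + ε))ᶜ, ‖fderiv ℝ u z‖ ^ 2) →
    (∫ φ in (-π)..π, u (pol (1 + ε) φ) ^ 2
      ≤ 2 * √δ / (1 + ε) * ∫ z in (Metric.ball (0 : ℂ) (1 + ε))ᶜ, ‖fderiv ℝ u z‖ ^ 2) →
    t * ma u ≤ en u := by
  obtain ⟨e, C0, he0, he, hC0, hsec⟩ := sector
  obtain ⟨ε, hε, hε1, hε2, hε3⟩ : ∃ ε : ℝ, 0 < ε ∧ ε ≤ 1 / 10 ^ 7 ∧ 1000 * ε ≤ e ∧
      ε * C0 ≤ 1 / 1000 := by
    refine ⟨min (1 / 10 ^ 7) (min (e / 1000) (1 / 1000 / C0)), by positivity, min_le_left _ _,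
      ?_, ?_⟩
    · have := (min_le_right (1 / 10 ^ 7) _).trans (min_le_left (e / 1000) (1 / 1000 / C0))
      linarith
    · exact (le_div_iff₀ (by positivity)).1
        ((min_le_right (1 / 10 ^ 7) _).trans (min_le_right (e / 1000) (1 / 1000 / C0)))
  have hε5 : ε ≤ 1 / 10 ^ 5 := hε1.trans (by norm_num)
  obtain ⟨C, a0, hC, ha0, hsec⟩ := hsec ε hε hε5
  refine ⟨ε, (ε ^ 2 / (400 * C0)) ^ 2, min a0 (1 / 10 ^ 5 / (C * C0)), hε, hε5, by positivity,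
    by positivity, ?_⟩
  intro N hN0 ha t href θ A B hθ h0 hN hl har hmc hms u hu hcs hu0 hO hU
  have hNp : (0 : ℝ) < N := Nat.cast_pos.2 hN0
  have hap : 0 < π / N := by positivity
  have hNa : (N : ℝ) * (π / N) = π := by field_simp
  have ha2 : C * C0 * (π / N) ≤ 1 / 10 ^ 5 := by
    rw [mul_comm]
    exact (le_div_iff₀ (by positivity)).1 (ha.trans (min_le_right _ _))
  have hd : ε ^ 2 / (400 * C0) ≤ 1 / 4 := by
    rw [div_le_iff₀ (by positivity)]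
    nlinarith
  have hδ : (ε ^ 2 / (400 * C0)) ^ 2 ≤ 1 / 12 :=
    (pow_le_pow_left₀ (by positivity) hd 2).trans (by norm_num)
  have DO0 : 0 ≤ ∫ z in (Metric.ball (0 : ℂ) (1 + ε))ᶜ, ‖fderiv ℝ u z‖ ^ 2 :=
    MeasureTheory.integral_nonneg fun _ => sq_nonneg _
  have hU' : 200 * (C0 / ε ^ 2) * ∫ φ in (-π)..π, u (pol (1 + ε) φ) ^ 2
      ≤ ∫ z in (Metric.ball (0 : ℂ) (1 + ε))ᶜ, ‖fderiv ℝ u z‖ ^ 2 := by
    rw [sqrt_sq (by positivity)] at hU
    refine (mul_le_mul_of_nonneg_left hU (by positivity)).trans ?_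
    rw [← mul_assoc]
    refine mul_le_of_le_one_left DO0 ?_
    have : 200 * (C0 / ε ^ 2) * (2 * (ε ^ 2 / (400 * C0)) / (1 + ε)) = 1 / (1 + ε) := by
      field_simp; norm_num
    rw [this, div_le_one (by positivity)]
    linarith
  set K := 8000 * PI (-π) π (fun _ => 0) (fun _ => (1 - ε) ^ 2) (fun r φ => u (pol r φ)) ^ 2
    * N * C with hK
  have K0 : 0 ≤ K := by positivity
  have key : ∀ ς, 0 < ς → ς ≤ (π / N) ^ 3 → -(K * ς) ≤ en u - t * ma u := by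
    intro ς h1 h2
    obtain ⟨h, hr⟩ := href ς h1 h2
    obtain ⟨Φ, sJ, sD, κ, hΦ, hJ, hk⟩ := hsec _ _ _ _ hr (ha.trans (min_le_left _ _))
    have : ∀ k, ∃ abn Hb g, k < N → SecOut e C0 C ε (π / N) t ς Φ sJ sD κ h (θ k) (θ (k + 1))
        (A k) (B k) abn Hb g := fun k => by
      by_cases hkN : k < N
      · have j1 := hθ (Nat.zero_le k)
        have j2 := hθ (show k + 1 ≤ N from hkN)
        obtain ⟨abn, Hb, g, hh⟩ := hk (θ k) (θ (k + 1)) (A k) (B k) (hθ (Nat.le_succ k))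
          (by linarith) (hl k hkN)
        exact ⟨abn, Hb, g, fun _ => hh⟩
      · exact ⟨True, 0, 0, fun j => absurd j hkN⟩
    choose abn Hb g hS using this
    exact Asm.core hN0 hθ h0 hN hNa he hC0 hC hε hε1 hε2 hε3 ha2 hδ hr hΦ hJ hS hl har hmc hms
      hu hcs hu0 hO hU'
  by_contra hcon
  have hp : 0 < t * ma u - en u := by linarith [not_le.1 hcon]
  have := key (min ((π / N) ^ 3) ((t * ma u - en u) / (K + 1))) (by positivity) (min_le_left _ _)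
  have h2 := mul_le_mul_of_nonneg_left
    (min_le_right ((π / N) ^ 3) ((t * ma u - en u) / (K + 1))) K0
  have h3 : K * ((t * ma u - en u) / (K + 1)) < t * ma u - en u := by
    rw [← mul_div_assoc, div_lt_iff₀ (by positivity)]
    nlinarith
  linarith

end Pool.Agent.PSz
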