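import Pool.Agent.P.MP_7b7370_an.Bes

set_option autoImplicit false

namespace Pool.Agent.PSz

open Real Set

/-- second order Taylor lower bound -/
lemma taylor_ge {f f' f'' : ℝ → ℝ} {a b m x y : ℝ} (hf : ∀ z ∈ Icc a b, HasDerivAt f (f' z) z)
    (hf' : ∀ z ∈ Icc a b, HasDerivAt f' (f'' z) z) (hm : ∀ z ∈ Icc a b, m ≤ f'' z)
    (hx : x ∈ Icc a b) (hy : y ∈ Icc a b) :
    f x + f' x * (y - x) + m / 2 * (y - x) ^ 2 ≤ f y := by
  have hd : ∀ z ∈ Icc a b, HasDerivAt (fun z => f' z - m * z) (f'' z - m) z := fun z hz => by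
    have := (hf' z hz).sub ((hasDerivAt_id z).const_mul m)
    rw [mul_one] at this
    exact this
  have hmono : MonotoneOn (fun z => f' z - m * z) (Icc a b) :=
    monotoneOn_of_deriv_nonneg (convex_Icc a b)
      (fun z hz => (hd z hz).continuousAt.continuousWithinAt)
      (fun z hz => (hd z (interior_subset hz)).differentiableAt.differentiableWithinAt)
      fun z hz => by rw [(hd z (interior_subset hz)).deriv]; linarith [hm z (interior_subset hz)]
  have hg : ∀ z ∈ Icc a b, HasDerivAt (fun z => f z - f' x * (z - x) - m / 2 * (z - x) ^ 2)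
      (f' z - m * z - (f' x - m * x)) z := fun z hz => by
    have := ((hf z hz).sub (((hasDerivAt_id z).sub_const x).const_mul (f' x))).sub
      ((((hasDerivAt_id z).sub_const x).pow 2).const_mul (m / 2))
    refine this.congr_deriv ?_
    simp; ring
  rcases lt_trichotomy x y with h | h | h
  · have hs : Icc x y ⊆ Icc a b := Icc_subset_Icc hx.1 hy.2
    obtain ⟨ξ, hξ, e⟩ := exists_hasDerivAt_eq_slope _ _ h
      (fun z hz => (hg z (hs hz)).continuousAt.continuousWithinAt)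
      (fun z hz => hg z (hs (Ioo_subset_Icc_self hz)))
    have := hmono hx (hs (Ioo_subset_Icc_self hξ)) hξ.1.le
    simp only at this
    rw [eq_div_iff (by linarith)] at e
    nlinarith
  · subst h; simp
  · have hs : Icc y x ⊆ Icc a b := Icc_subset_Icc hy.1 hx.2
    obtain ⟨ξ, hξ, e⟩ := exists_hasDerivAt_eq_slope _ _ h
      (fun z hz => (hg z (hs hz)).continuousAt.continuousWithinAt)
      (fun z hz => hg z (hs (Ioo_subset_Icc_self hz)))
    have := hmono (hs (Ioo_subset_Icc_self hξ)) hx hξ.2.le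
    simp only at this
    rw [eq_div_iff (by linarith)] at e
    nlinarith

/-- second order Taylor two sided bound -/
lemma taylor_abs {f f' f'' : ℝ → ℝ} {a b C x y : ℝ} (hf : ∀ z ∈ Icc a b, HasDerivAt f (f' z) z)
    (hf' : ∀ z ∈ Icc a b, HasDerivAt f' (f'' z) z) (hm : ∀ z ∈ Icc a b, |f'' z| ≤ C)
    (hx : x ∈ Icc a b) (hy : y ∈ Icc a b) :
    |f y - f x - f' x * (y - x)| ≤ C / 2 * (y - x) ^ 2 := by
  have h1 := taylor_ge (m := -C) hf hf' (fun z hz => (abs_le.1 (hm z hz)).1) hx hy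
  have h2 := taylor_ge (m := -C) (f := fun z => -f z) (f' := fun z => -f' z)
    (f'' := fun z => -f'' z) (fun z hz => (hf z hz).neg) (fun z hz => (hf' z hz).neg)
    (fun z hz => by linarith [(abs_le.1 (hm z hz)).2]) hx hy
  rw [abs_le]; constructor <;> linarith

lemma hasDerivAt_ft (t q : ℝ) : HasDerivAt (ft t) (Gt1 t 1 - Gt1 t q) q := by
  have := ((((hasDerivAt_id q).sub_const 1).const_mul (Gt1 t 1)).const_add (Gt t 1)).sub
    (hasDerivAt_Gt t q)
  refine this.congr_deriv ?_; simp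

lemma abs_F0_near {t q : ℝ} (ht : 5.7 ≤ t) (ht' : t ≤ 5.8) (hq : |q - 1| ≤ 1 / 5) :
    |F0 t q| ≤ |F0 t 1| + 25 * |q - 1| := by
  have hq' := abs_le.1 hq
  have := abs_sub_le_of_deriv (a := 0) (b := 1.3) (C := 25) (x := 1) (y := q) (hasDerivAt_F0 t)
    (fun z hz => abs_F1_le (by linarith) (by linarith) (abs_le.2 ⟨by linarith [hz.1], hz.2⟩))
    ⟨by norm_num, by norm_num⟩ ⟨by linarith, by linarith⟩
  have h2 := abs_sub_abs_le_abs_sub (F0 t q) (F0 t 1)
  linarith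

lemma neg_Gt2_bounds {t q : ℝ} (ht : 5.7 ≤ t) (ht' : t ≤ 5.8) (hF : |F0 t 1| ≤ 1 / 1000)
    (hq : |q - 1| ≤ 1 / 10000) : 0.3 ≤ -Gt2 t q ∧ -Gt2 t q ≤ 1300 := by
  have hq' := abs_le.1 hq
  have h0 := abs_le.1 ((abs_F0_near ht ht' (hq.trans (by norm_num))).trans
    (show _ ≤ (0.0035 : ℝ) by linarith))
  have h1 := F1_le ht ht' (q := q) (by linarith) (by linarith)
  have h2 := abs_le.1 (abs_F1_le (t := t) (q := q) (by linarith) (by linarith)
    (abs_le.2 ⟨by linarith, by linarith⟩))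
  have h3 : t * F0 t q ≤ 0.021 := by nlinarith
  have h4 : -0.021 ≤ t * F0 t q := by nlinarith
  unfold Gt2
  constructor <;> nlinarith

theorem ft_bounds {t q : ℝ} (ht : 5.7 ≤ t) (ht' : t ≤ 5.8) (hF : |F0 t 1| ≤ 1 / 1000)
    (hq : |q - 1| ≤ 1 / 10000) : 0.1 * (q - 1) ^ 2 ≤ ft t q ∧ ft t q ≤ 5000 * (q - 1) ^ 2 := by
  have hq' := abs_le.1 hq
  have hI : ∀ z ∈ Icc (1 - 1 / 10000 : ℝ) (1 + 1 / 10000), |z - 1| ≤ 1 / 10000 := fun z hz =>
    abs_le.2 ⟨by linarith [hz.1], by linarith [hz.2]⟩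
  have hd : ∀ z, HasDerivAt (fun q => Gt1 t 1 - Gt1 t q) (-Gt2 t z) z := fun z =>
    (hasDerivAt_Gt1 t z).const_sub _
  have e : ft t 1 = 0 := by simp [ft]
  have h1 := taylor_ge (m := 0.3) (x := 1) (y := q) (fun z _ => hasDerivAt_ft t z)
    (fun z _ => hd z) (fun z hz => (neg_Gt2_bounds ht ht' hF (hI z hz)).1)
    ⟨by norm_num, by norm_num⟩ ⟨by linarith, by linarith⟩
  have h2 := taylor_abs (C := 1300) (x := 1) (y := q) (fun z _ => hasDerivAt_ft t z)
    (fun z _ => hd z) (fun z hz => abs_le.2 ⟨by linarith [(neg_Gt2_bounds ht ht' hF (hI z hz)).1],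
      (neg_Gt2_bounds ht ht' hF (hI z hz)).2⟩)
    ⟨by norm_num, by norm_num⟩ ⟨by linarith, by linarith⟩
  have h3 := (abs_le.1 h2).2
  simp only [e, sub_self, zero_mul, zero_add, sub_zero] at h1 h3
  constructor <;> nlinarith [sq_nonneg (q - 1)]

lemma Gt1_one_bounds {t : ℝ} (ht : 5.7 ≤ t) (ht' : t ≤ 5.8) (hF : |F0 t 1| ≤ 1 / 1000) :
    0.3 ≤ Gt1 t 1 := by
  have h1 := F1_le ht ht' (q := 1) (by norm_num) (by norm_num)
  have h0 : F0 t 1 ^ 2 ≤ 1 / 1000000 := by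
    have := abs_le.1 hF; nlinarith
  unfold Gt1
  nlinarith [sq_nonneg (F0 t 1)]

end Pool.Agent.PSz
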