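import Pool.Agent.P.MP_7b7370_an.LowFreq
import Pool.Agent.P.MP_7b7370_an.Polar
import Pool.Agent.P.MP_7b7370_an.Ft

/-! Estimates on one sector for the summation. -/

set_option autoImplicit false

namespace Pool.Agent.PSz.Asm

open Real Set MeasureTheory intervalIntegral

lemma c_pol : Continuous fun p : ℝ × ℝ => pol p.1 p.2 :=
  Continuous.pol continuous_fst continuous_snd

lemma c_val {w : ℂ → ℝ} (hw : ContDiff ℝ 1 w) : Cont fun r θ => w (pol r θ) :=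
  hw.continuous.comp c_pol

lemma c_fd {w : ℂ → ℝ} (hw : ContDiff ℝ 1 w) :
    Continuous fun p : ℝ × ℝ => fderiv ℝ w (pol p.1 p.2) :=
  (hw.continuous_fderiv one_ne_zero).comp c_pol

lemma c_dr {w : ℂ → ℝ} (hw : ContDiff ℝ 1 w) : Cont fun r θ => fderiv ℝ w (pol r θ) (cis θ) :=
  (c_fd hw).clm_apply (continuous_cis.comp continuous_snd)

lemma c_dt {w : ℂ → ℝ} (hw : ContDiff ℝ 1 w) :
    Cont fun r θ => fderiv ℝ w (pol r θ) (Complex.I * cis θ) :=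
  (c_fd hw).clm_apply (continuous_const.mul (continuous_cis.comp continuous_snd))

lemma c_nrm {w : ℂ → ℝ} (hw : ContDiff ℝ 1 w) : Cont fun r θ => ‖fderiv ℝ w (pol r θ)‖ ^ 2 :=
  (c_fd hw).norm.pow 2

lemma c_sq {w : ℂ → ℝ} (hw : ContDiff ℝ 1 w) : Cont fun r θ => w (pol r θ) ^ 2 :=
  (c_val hw).pow 2

lemma c_on {Γ : ℝ → ℝ → ℝ} (h : Cont Γ) {R : ℝ → ℝ} (hR : Continuous R) :
    Continuous fun θ => Γ (R θ) θ :=
  Continuous.comp (g := fun p : ℝ × ℝ => Γ p.1 p.2) (f := fun θ => (R θ, θ)) h (by fun_prop)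

lemma imono {a b : ℝ} (hab : a ≤ b) {f g : ℝ → ℝ} (hf : Continuous f) (hg : Continuous g)
    (h : ∀ x ∈ Ioo a b, f x ≤ g x) : ∫ x in a..b, f x ≤ ∫ x in a..b, g x :=
  integral_mono_on_of_le_Ioo hab (hf.intervalIntegrable _ _) (hg.intervalIntegrable _ _) h

lemma iadd {a b : ℝ} {f g : ℝ → ℝ} (hf : Continuous f) (hg : Continuous g) :
    ∫ x in a..b, (f x + g x) = (∫ x in a..b, f x) + ∫ x in a..b, g x :=
  integral_add (hf.intervalIntegrable _ _) (hg.intervalIntegrable _ _)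

lemma isub {a b : ℝ} {f g : ℝ → ℝ} (hf : Continuous f) (hg : Continuous g) :
    ∫ x in a..b, (f x - g x) = (∫ x in a..b, f x) - ∫ x in a..b, g x :=
  integral_sub (hf.intervalIntegrable _ _) (hg.intervalIntegrable _ _)

lemma dr_le (w : ℂ → ℝ) (r θ : ℝ) :
    fderiv ℝ w (pol r θ) (cis θ) ^ 2 ≤ ‖fderiv ℝ w (pol r θ)‖ ^ 2 := by
  rw [norm_clm_sq_cis _ θ]
  nlinarith [sq_nonneg (fderiv ℝ w (pol r θ) (Complex.I * cis θ))]

lemma ray_dr_le {w : ℂ → ℝ} (hw : ContDiff ℝ 1 w) {s R : ℝ} (hs : 0 ≤ s) (h : s ≤ R) (θ : ℝ) :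
    ∫ r in s..R, fderiv ℝ w (pol r θ) (cis θ) ^ 2 * r ≤
      ∫ r in s..R, ‖fderiv ℝ w (pol r θ)‖ ^ 2 * r :=
  imono h ((((c_dr hw).ray θ).pow 2).mul continuous_id) (((c_nrm hw).ray θ).mul continuous_id)
    fun r hr => mul_le_mul_of_nonneg_right (dr_le w r θ) (hs.trans hr.1.le)

lemma ray_nonneg (w : ℂ → ℝ) {s R : ℝ} (hs : 0 ≤ s) (h : s ≤ R) (θ : ℝ) :
    0 ≤ ∫ r in s..R, ‖fderiv ℝ w (pol r θ)‖ ^ 2 * r :=
  integral_nonneg h fun _ hr => mul_nonneg (sq_nonneg _) (hs.trans hr.1)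

lemma trig_cs {a b : ℝ} (hab : a ≤ b) {f τ : ℝ → ℝ} (hf : Continuous f) (hτ : Continuous τ)
    (h1 : ∀ x, τ x ^ 2 ≤ 1) : (∫ x in a..b, f x * τ x) ^ 2 ≤ (b - a) * ∫ x in a..b, f x ^ 2 := by
  have h2 := cs_interval hab hf hτ
  have h3 : ∫ x in a..b, τ x ^ 2 ≤ ∫ _ in a..b, (1 : ℝ) :=
    imono hab (hτ.pow 2) continuous_const fun x _ => h1 x
  have h4 : 0 ≤ ∫ x in a..b, f x ^ 2 := integral_nonneg hab fun x _ => sq_nonneg _
  simp only [intervalIntegral.integral_const, smul_eq_mul, mul_one] at h3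
  nlinarith

section
variable {θa θb ε t c : ℝ} {R : ℝ → ℝ} {u Hb : ℂ → ℝ}

lemma ring_nonneg (hab : θa ≤ θb) (hε : 0 < ε) (hε1 : ε ≤ 1 / 10 ^ 5) (ht0 : 0 ≤ t)
    (ht : t ≤ 6) (cR : Continuous R) (hu : ContDiff ℝ 1 u)
    (hR : ∀ θ ∈ Ioo θa θb, 1 - ε ≤ R θ ∧ R θ ≤ 1 + ε)
    (hz : ∀ θ ∈ Ioo θa θb, u (pol (R θ) θ) = 0 ∨ R θ = 1 + ε) :
    0 ≤ PI θa θb R (fun _ => 1 + ε)
      (fun r θ => ‖fderiv ℝ u (pol r θ)‖ ^ 2 - t * u (pol r θ) ^ 2) := by
  have hc : Cont fun r θ => ‖fderiv ℝ u (pol r θ)‖ ^ 2 - t * u (pol r θ) ^ 2 :=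
    (c_nrm hu).sub (continuous_const.mul (c_sq hu))
  have := imono hab (continuous_const (y := (0 : ℝ))) (hc.inner cR continuous_const)
    (g := fun θ => ∫ r in (R θ)..(1 + ε),
      (‖fderiv ℝ u (pol r θ)‖ ^ 2 - t * u (pol r θ) ^ 2) * r) fun θ hθ => by
    obtain ⟨h1, h2⟩ := hR θ hθ
    rcases hz θ hθ with h | h
    · have hp : 0 < R θ := by linarith
      have k1 := ring_mass0 hp h2 (fun r => hasDerivAt_ray hu r θ) ((c_dr hu).ray θ) h
      have k2 := ray_dr_le hu hp.le h2 θ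
      have k3 := ray_nonneg u hp.le h2 θ
      have e : ∫ r in (R θ)..(1 + ε), (‖fderiv ℝ u (pol r θ)‖ ^ 2 - t * u (pol r θ) ^ 2) * r =
          (∫ r in (R θ)..(1 + ε), ‖fderiv ℝ u (pol r θ)‖ ^ 2 * r) -
            t * ∫ r in (R θ)..(1 + ε), u (pol r θ) ^ 2 * r := by
        have d1 := (c_nrm hu).ray θ
        have d2 := (c_sq hu).ray θ
        rw [← intervalIntegral.integral_const_mul, ← isub
          (by exact d1.mul continuous_id) (by exact continuous_const.mul (d2.mul continuous_id))]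
        congr 1; funext r; ring
      have k4 : (1 + ε - R θ) ^ 2 * ((1 + ε) / R θ) ≤ 1 / 6 := by
        have : (1 + ε) / R θ ≤ 2 := by rw [div_le_iff₀ hp]; linarith
        have h5 : (1 + ε - R θ) ^ 2 ≤ 1 / 12 := by nlinarith
        have : 0 ≤ (1 + ε) / R θ := by positivity
        nlinarith [sq_nonneg (1 + ε - R θ)]
      have k5 : 0 ≤ (1 + ε - R θ) ^ 2 * ((1 + ε) / R θ) := by positivity
      rw [e]
      have k6 := k1.trans (mul_le_mul k4 k2 (integral_nonneg h2 fun r hr =>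
        mul_nonneg (sq_nonneg _) (hp.le.trans hr.1)) (by norm_num))
      have k7 := mul_le_mul_of_nonneg_left k6 ht0
      nlinarith
    · rw [h]; simp
  simpa [PI] using this

lemma sec_id (cR : Continuous R) (hu : ContDiff ℝ 1 u) :
    PI θa θb (fun _ => 0) R (fun r θ => ‖fderiv ℝ u (pol r θ)‖ ^ 2 - t * u (pol r θ) ^ 2) =
      PD θa θb (fun _ => 0) R (fun z => c * phi t z - u z)
        - t * PM θa θb (fun _ => 0) R (fun z => c * phi t z - u z)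
        + c ^ 2 * (∫ θ in θa..θb, ft t (R θ ^ 2))
        - c ^ 2 * (Gt t 1 * (θb - θa) + Gt1 t 1 * (2 * (∫ θ in θa..θb, R θ ^ 2 / 2) - (θb - θa)))
        + 2 * c * ∫ θ in θa..θb, 2 * R θ ^ 2 * F1 t (R θ ^ 2) * u (pol (R θ) θ) := by
  have hh : ContDiff ℝ 1 fun z => c * phi t z - u z := by fun_prop
  have hc : Cont fun r θ => ‖fderiv ℝ (fun z => c * phi t z - u z) (pol r θ)‖ ^ 2
      - t * (c * phi t (pol r θ) - u (pol r θ)) ^ 2 :=
    (c_nrm hh).sub (continuous_const.mul (c_sq hh))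
  have c1 := hc.inner (r0 := fun _ => 0) continuous_const cR
  have c2 : Continuous fun θ => u (pol (R θ) θ) := c_on (c_val hu) cR
  rw [PD, PM, ← PI_const_mul, ← PI_sub (c_nrm hh) (continuous_const.mul (c_sq hh))
    continuous_const cR]
  unfold PI
  simp only [ray_identity hu t c]
  have e : ∀ θ, Gt t (R θ ^ 2) = Gt t 1 - Gt1 t 1 + 2 * Gt1 t 1 * (R θ ^ 2 / 2) - ft t (R θ ^ 2) :=
    fun θ => by unfold ft; ring
  simp only [e]
  rw [iadd (by exact c1.sub (by fun_prop)) (by fun_prop), isub c1 (by fun_prop),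
    intervalIntegral.integral_const_mul, intervalIntegral.integral_const_mul,
    isub (by fun_prop) (by fun_prop), iadd (by fun_prop) (by fun_prop),
    intervalIntegral.integral_const_mul, intervalIntegral.integral_const, smul_eq_mul]
  ring

lemma u_le (hz : ∀ θ ∈ Ioo θa θb, u (pol (R θ) θ) = 0 ∨ R θ = 1 + ε) (hab : θa ≤ θb)
    (cR : Continuous R) (hu : ContDiff ℝ 1 u) :
    ∫ θ in θa..θb, u (pol (R θ) θ) ^ 2 ≤ ∫ θ in θa..θb, u (pol (1 + ε) θ) ^ 2 :=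
  imono hab (c_on (c_sq hu) cR) ((c_sq hu).arc _) fun θ hθ => by
    rcases hz θ hθ with h | h <;> rw [h]
    nlinarith [sq_nonneg (u (pol (1 + ε) θ))]

lemma widths (hε : 0 < ε) (hε1 : ε ≤ 1 / 10 ^ 5) {x : ℝ} (h1 : 1 - ε ≤ x) (h2 : x ≤ 1 + ε) :
    0 < (1 - ε) ^ 2 ∧ (1 - ε) ^ 2 ≤ x ∧ (x - (1 - ε) ^ 2) * x ≤ 4 * ε ∧
      (x - (1 - ε) ^ 2) / (1 - ε) ^ 2 ≤ 4 * ε := by
  have h0 : 0.99 ≤ (1 - ε) ^ 2 := by nlinarith
  have h3 : x - (1 - ε) ^ 2 ≤ 3 * ε := by nlinarith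
  refine ⟨by linarith, by nlinarith, by nlinarith, ?_⟩
  rw [div_le_iff₀ (by linarith)]
  nlinarith

lemma ring_le (hab : θa ≤ θb) (hε : 0 < ε) (hε1 : ε ≤ 1 / 10 ^ 5) (cR : Continuous R)
    (hR : ∀ θ ∈ Ioo θa θb, 1 - ε ≤ R θ ∧ R θ ≤ 1 + ε) {y : ℂ → ℝ} (hy : ContDiff ℝ 1 y) :
    PM θa θb (fun _ => (1 - ε) ^ 2) R y ≤ 8 * ε * (∫ θ in θa..θb, y (pol (R θ) θ) ^ 2) +
      32 * ε ^ 2 * PD θa θb (fun _ => (1 - ε) ^ 2) R y := by
  have c1 := (c_sq hy).inner (r0 := fun _ => (1 - ε) ^ 2) continuous_const cR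
  have c2 := (c_nrm hy).inner (r0 := fun _ => (1 - ε) ^ 2) continuous_const cR
  have c3 := c_on (c_sq hy) cR
  unfold PM PD PI
  rw [← intervalIntegral.integral_const_mul, ← intervalIntegral.integral_const_mul,
    ← iadd (by exact continuous_const.mul c3) (by exact continuous_const.mul c2)]
  refine imono hab c1 ((continuous_const.mul c3).add (continuous_const.mul c2)) fun θ hθ => ?_
  obtain ⟨w0, w1, w2, w3⟩ := widths hε hε1 (hR θ hθ).1 (hR θ hθ).2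
  have k1 := ring_mass w0 w1 (fun r => hasDerivAt_ray hy r θ) ((c_dr hy).ray θ)
  have k2 := ray_dr_le hy w0.le w1 θ
  have k3 : 0 ≤ ∫ r in ((1 - ε) ^ 2)..(R θ), fderiv ℝ y (pol r θ) (cis θ) ^ 2 * r :=
    integral_nonneg w1 fun r hr => mul_nonneg (sq_nonneg _) (w0.le.trans hr.1)
  have k4 := mul_le_mul w3 k2 k3 (by positivity)
  have k5 : 0 ≤ (R θ - (1 - ε) ^ 2) / (1 - ε) ^ 2 := div_nonneg (by linarith) w0.le
  refine k1.trans ((mul_le_mul w2 (show _ ≤ 2 * y (pol (R θ) θ) ^ 2 + 2 * (4 * ε *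
    ∫ r in ((1 - ε) ^ 2)..(R θ), ‖fderiv ℝ y (pol r θ)‖ ^ 2 * r) by linarith)
    (by positivity) (by positivity)).trans (le_of_eq ?_))
  ring

lemma bdry_le (hab : θa ≤ θb) (cR : Continuous R) (hu : ContDiff ℝ 1 u) (hb : ContDiff ℝ 1 Hb) :
    ∫ θ in θa..θb, (c * phi t (pol (R θ) θ) - u (pol (R θ) θ) - c * Hb (pol (R θ) θ)) ^ 2 ≤
      2 * c ^ 2 * (∫ θ in θa..θb, (F0 t (R θ ^ 2) - Hb (pol (R θ) θ)) ^ 2) +
        2 * ∫ θ in θa..θb, u (pol (R θ) θ) ^ 2 := by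
  have c1 := c_on (c_val hu) cR
  have c2 := c_on (c_val hb) cR
  simp only [phi_pol]
  rw [← intervalIntegral.integral_const_mul, ← intervalIntegral.integral_const_mul,
    ← iadd (by fun_prop) (by fun_prop)]
  refine imono hab (by fun_prop) (by fun_prop) fun θ _ => ?_
  nlinarith [sq_nonneg (c * (F0 t (R θ ^ 2) - Hb (pol (R θ) θ)) + u (pol (R θ) θ))]

lemma diff_le (hab : θa ≤ θb) (hε : 0 < ε) (hε1 : ε ≤ 1 / 10 ^ 5) (cR : Continuous R)
    (hR : ∀ θ ∈ Ioo θa θb, 1 - ε ≤ R θ ∧ R θ ≤ 1 + ε) {y : ℂ → ℝ} (hy : ContDiff ℝ 1 y) :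
    ∫ θ in θa..θb, (y (pol (R θ) θ) - y (pol ((1 - ε) ^ 2) θ)) ^ 2 ≤
      4 * ε * PD θa θb (fun _ => (1 - ε) ^ 2) R y := by
  have c2 := (c_nrm hy).inner (r0 := fun _ => (1 - ε) ^ 2) continuous_const cR
  unfold PD PI
  rw [← intervalIntegral.integral_const_mul]
  refine imono hab (((c_on (c_val hy) cR).sub ((c_val hy).arc _)).pow 2)
    (continuous_const.mul c2) fun θ hθ => ?_
  obtain ⟨w0, w1, -, w3⟩ := widths hε hε1 (hR θ hθ).1 (hR θ hθ).2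
  have k1 := ring_diff w0 w1 (fun r => hasDerivAt_ray hy r θ) ((c_dr hy).ray θ)
  have k2 := ray_dr_le hy w0.le w1 θ
  have k3 : 0 ≤ ∫ r in ((1 - ε) ^ 2)..(R θ), fderiv ℝ y (pol r θ) (cis θ) ^ 2 * r :=
    integral_nonneg w1 fun r hr => mul_nonneg (sq_nonneg _) (w0.le.trans hr.1)
  exact k1.trans (mul_le_mul w3 k2 k3 (by positivity))

variable {na nb : ℝ → ℝ} {w0 s : ℝ} {H Hr Ht : ℝ → ℝ → ℝ}

lemma c_err (hP : Piece θa θb na nb w0 H Hr Ht) (hb : ContDiff ℝ 1 Hb) : Cont fun r θ =>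
    (Hr r θ - fderiv ℝ Hb (pol r θ) (cis θ)) ^ 2
      + (Ht r θ - fderiv ℝ Hb (pol r θ) (Complex.I * cis θ)) ^ 2 + (H r θ - Hb (pol r θ)) ^ 2 :=
  (((hP.cHr.sub (c_dr hb)).pow 2).add ((hP.cHt.sub (c_dt hb)).pow 2)).add
    ((hP.cH.sub (c_val hb)).pow 2)

lemma err_nonneg (hab : θa ≤ θb) (hs : 0 ≤ s) (hP : Piece θa θb na nb w0 H Hr Ht)
    (hb : ContDiff ℝ 1 Hb) : 0 ≤ Err θa θb s Hb H Hr Ht :=
  PI_nonneg (c_err hP hb) continuous_const continuous_const hab (fun _ _ => ⟨le_rfl, hs⟩)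
    fun _ _ _ _ => by positivity

lemma trace_err (hab : θa ≤ θb) (hs : 0.99 ≤ s) (hs1 : s ≤ 1) (hP : Piece θa θb na nb w0 H Hr Ht)
    (hb : ContDiff ℝ 1 Hb) :
    ∫ θ in θa..θb, (H s θ - Hb (pol s θ)) ^ 2 ≤ 4 * Err θa θb s Hb H Hr Ht := by
  have c2 := (c_err hP hb).inner (r0 := fun _ => 0) (r1 := fun _ => s) continuous_const
    continuous_const
  unfold Err PI
  rw [← intervalIntegral.integral_const_mul]
  refine imono hab (((hP.cH.arc s).sub ((c_val hb).arc s)).pow 2) (continuous_const.mul c2)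
    fun θ hθ => ?_
  have h0 : 0 ≤ s := by linarith
  have k1 := trace_le h0 hs1 (f := fun r => H r θ - Hb (pol r θ))
    (fun r => (hP.dr r θ (Ioo_subset_Icc_self hθ)).sub (hasDerivAt_ray hb r θ))
    ((hP.cHr.ray θ).sub ((c_dr hb).ray θ))
  have k2 := imono h0 (f := fun r => ((H r θ - Hb (pol r θ)) ^ 2 +
      (Hr r θ - fderiv ℝ Hb (pol r θ) (cis θ)) ^ 2) * r)
    (((((hP.cH.ray θ).sub ((c_val hb).ray θ)).pow 2).add
      (((hP.cHr.ray θ).sub ((c_dr hb).ray θ)).pow 2)).mul continuous_id)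
    (((c_err hP hb).ray θ).mul continuous_id) fun r hr =>
      mul_le_mul_of_nonneg_right (by
        nlinarith [sq_nonneg (Ht r θ - fderiv ℝ Hb (pol r θ) (Complex.I * cis θ))]) hr.1.le
  have k3 : 0.75 ≤ s ^ 2 := by nlinarith
  have k4 := mul_le_mul_of_nonneg_right k3 (sq_nonneg (H s θ - Hb (pol s θ)))
  simp only [Pi.mul_apply, id] at k2
  linarith

lemma piece_W (hP : Piece θa θb na nb w0 H Hr Ht) {hh : ℂ → ℝ} (h : ContDiff ℝ 1 hh) :
    Piece θa θb (fun r => hh (pol r θa) - c * na r) (fun r => hh (pol r θb) - c * nb r)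
      (hh 0 - c * w0) (fun r θ => hh (pol r θ) - c * H r θ)
      (fun r θ => fderiv ℝ hh (pol r θ) (cis θ) - c * Hr r θ)
      (fun r θ => fderiv ℝ hh (pol r θ) (Complex.I * cis θ) - c * Ht r θ) where
  cH := (c_val h).sub (continuous_const.mul hP.cH)
  cHr := (c_dr h).sub (continuous_const.mul hP.cHr)
  cHt := (c_dt h).sub (continuous_const.mul hP.cHt)
  dr r θ hθ := (hasDerivAt_ray h r θ).sub ((hP.dr r θ hθ).const_mul c)
  dt r θ hθ := ((hasDerivAt_arc h r θ).sub ((hP.dt r θ hθ).const_mul c)).congr_deriv (by ring)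
  left r := by rw [hP.left]
  right r := by rw [hP.right]
  zero θ hθ := by rw [hP.zero θ hθ, pol_zero]

lemma sq_split (p q : ℝ) : (p + q) ^ 2 ≤ 1.005 * p ^ 2 + 201 * q ^ 2 := by
  nlinarith [sq_nonneg (p - 200 * q)]

lemma fd_sub {hh : ℂ → ℝ} (h : ContDiff ℝ 1 hh) (hb : ContDiff ℝ 1 Hb) (z v : ℂ) :
    fderiv ℝ (fun z => hh z - c * Hb z) z v = fderiv ℝ hh z v - c * fderiv ℝ Hb z v := by
  have := ((h.differentiable one_ne_zero z).hasFDerivAt.sub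
    ((hb.differentiable one_ne_zero z).hasFDerivAt.const_mul c)).fderiv
  change fderiv ℝ (fun z => hh z - c * Hb z) z = _ at this
  rw [this]
  simp

lemma mass_le (hab : θa ≤ θb) (hs : 0 ≤ s) (hP : Piece θa θb na nb w0 H Hr Ht)
    (hb : ContDiff ℝ 1 Hb) {hh : ℂ → ℝ} (h : ContDiff ℝ 1 hh) :
    PM θa θb (fun _ => 0) (fun _ => s) (fun z => hh z - c * Hb z) ≤
      1.005 * PI θa θb (fun _ => 0) (fun _ => s) (fun r θ => (hh (pol r θ) - c * H r θ) ^ 2)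
        + 201 * c ^ 2 * Err θa θb s Hb H Hr Ht := by
  have hy : ContDiff ℝ 1 fun z => hh z - c * Hb z := by fun_prop
  have c1 : Cont fun r θ => 1.005 * (hh (pol r θ) - c * H r θ) ^ 2 :=
    continuous_const.mul ((piece_W hP h).cH.pow 2)
  have c2 := (continuous_const (y := 201 * c ^ 2)).mul (c_err hP hb)
  rw [PM, Err, ← PI_const_mul, ← PI_const_mul, ← PI_add c1 c2 continuous_const continuous_const]
  refine PI_mono (c_sq hy) (c1.add c2) continuous_const continuous_const hab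
    (fun _ _ => ⟨le_rfl, hs⟩) fun θ _ r _ => ?_
  have := sq_split (hh (pol r θ) - c * H r θ) (c * (H r θ - Hb (pol r θ)))
  have k1 := mul_nonneg (sq_nonneg c) (add_nonneg
    (sq_nonneg (Hr r θ - fderiv ℝ Hb (pol r θ) (cis θ)))
    (sq_nonneg (Ht r θ - fderiv ℝ Hb (pol r θ) (Complex.I * cis θ))))
  nlinarith

lemma grad_le (hab : θa ≤ θb) (hs : 0 ≤ s) (hP : Piece θa θb na nb w0 H Hr Ht)
    (hb : ContDiff ℝ 1 Hb) {hh : ℂ → ℝ} (h : ContDiff ℝ 1 hh) :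
    PI θa θb (fun _ => 0) (fun _ => s) (fun r θ =>
        (fderiv ℝ hh (pol r θ) (cis θ) - c * Hr r θ) ^ 2 +
        (fderiv ℝ hh (pol r θ) (Complex.I * cis θ) - c * Ht r θ) ^ 2) ≤
      1.005 * PD θa θb (fun _ => 0) (fun _ => s) (fun z => hh z - c * Hb z)
        + 201 * c ^ 2 * Err θa θb s Hb H Hr Ht := by
  have hy : ContDiff ℝ 1 fun z => hh z - c * Hb z := by fun_prop
  have c1 := (continuous_const (y := (1.005 : ℝ))).mul (c_nrm hy)
  have c2 := (continuous_const (y := 201 * c ^ 2)).mul (c_err hP hb)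
  rw [PD, Err, ← PI_const_mul, ← PI_const_mul, ← PI_add c1 c2 continuous_const continuous_const]
  refine PI_mono (((piece_W hP h).cHr.pow 2).add ((piece_W hP h).cHt.pow 2)) (c1.add c2)
    continuous_const continuous_const hab (fun _ _ => ⟨le_rfl, hs⟩) fun θ _ r _ => ?_
  rw [norm_clm_sq_cis _ θ, fd_sub h hb, fd_sub h hb]
  have k1 := sq_split (fderiv ℝ hh (pol r θ) (cis θ) - c * fderiv ℝ Hb (pol r θ) (cis θ))
    (-c * (Hr r θ - fderiv ℝ Hb (pol r θ) (cis θ)))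
  have k2 := sq_split (fderiv ℝ hh (pol r θ) (Complex.I * cis θ) -
    c * fderiv ℝ Hb (pol r θ) (Complex.I * cis θ))
    (-c * (Ht r θ - fderiv ℝ Hb (pol r θ) (Complex.I * cis θ)))
  have k3 := mul_nonneg (sq_nonneg c) (sq_nonneg (H r θ - Hb (pol r θ)))
  nlinarith

lemma mom_id (cR : Continuous R) (hu : ContDiff ℝ 1 u) (hb : ContDiff ℝ 1 Hb) (cH : Cont H)
    {τ : ℝ → ℝ} (hτ : Continuous τ) (γ κ : ℝ) :
    ∫ θ in θa..θb, (c * phi t (pol s θ) - u (pol s θ) - c * H s θ) * τ θ =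
      c * (∫ θ in θa..θb, (F0 t (R θ ^ 2) - Hb (pol (R θ) θ) - γ * R θ ^ 3 - κ) * τ θ)
      + c * γ * (∫ θ in θa..θb, R θ ^ 3 * τ θ) + c * κ * (∫ θ in θa..θb, τ θ)
      - (∫ θ in θa..θb, u (pol (R θ) θ) * τ θ)
      - (∫ θ in θa..θb, ((c * phi t (pol (R θ) θ) - u (pol (R θ) θ) - c * Hb (pol (R θ) θ)) -
          (c * phi t (pol s θ) - u (pol s θ) - c * Hb (pol s θ))) * τ θ)
      - c * ∫ θ in θa..θb, (H s θ - Hb (pol s θ)) * τ θ := by
  have c1 := c_on (c_val hu) cR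
  have c2 := c_on (c_val hb) cR
  have c3 := (c_val hu).arc s
  have c4 := (c_val hb).arc s
  have c5 := cH.arc s
  simp only [phi_pol, ← intervalIntegral.integral_const_mul]
  rw [← iadd (by fun_prop) (by fun_prop), ← iadd (by fun_prop) (by fun_prop),
    ← isub (by fun_prop) (by fun_prop), ← isub (by fun_prop) (by fun_prop),
    ← isub (by fun_prop) (by fun_prop)]
  congr 1; funext θ; ring

end

lemma int_phi {t s : ℝ} (ht : 5.7 ≤ t) (ht' : t ≤ 5.8) (hs : 0.99 ≤ s) (hs1 : s ≤ 1) :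
    0.13 ≤ ∫ r in (0 : ℝ)..s, F0 t (r ^ 2) * r := by
  have hd : ∀ r : ℝ, HasDerivAt (fun r => -(2 / t) * (r ^ 2 * F1 t (r ^ 2))) (F0 t (r ^ 2) * r) r :=
    fun r => by
      have := ((hasDerivAt_pow 2 r).mul ((hasDerivAt_F1 t (r ^ 2)).comp r
        (hasDerivAt_pow 2 r))).const_mul (-(2 / t))
      refine this.congr_deriv ?_
      have o := ode t (r ^ 2)
      have ht0 : t ≠ 0 := by linarith
      simp only [Function.comp]
      field_simp
      norm_num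
      linear_combination (-r) * o
  rw [integral_eq_sub_of_hasDerivAt (fun r _ => hd r)
    ((by fun_prop : Continuous fun r : ℝ => F0 t (r ^ 2) * r).intervalIntegrable _ _)]
  have h1 := F1_le ht ht' (q := s ^ 2) (by positivity) (by nlinarith)
  have h2 : 0.344 ≤ 2 / t := by rw [le_div_iff₀ (by linarith)]; linarith
  have h3 : 0.98 ≤ s ^ 2 := by nlinarith
  have h4 : 0.392 ≤ -(s ^ 2 * F1 t (s ^ 2)) := by nlinarith
  have h5 := mul_le_mul h2 h4 (by norm_num) (by linarith)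
  norm_num at h5 ⊢
  linarith

end Pool.Agent.PSz.Asm
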