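import Pool.Agent.P.MP_7b7370_an.AsmA

/-! Bookkeeping lemmas for the summation. -/

set_option autoImplicit false

namespace Pool.Agent.PSz.Asm

open Real Set MeasureTheory intervalIntegral

lemma small {C0 C ε a : ℝ} (hC0 : 1 ≤ C0) (hC : 1 ≤ C) (hε : 0 < ε) (hε1 : ε ≤ 1 / 10 ^ 7)
    (hε3 : ε * C0 ≤ 1 / 1000) (ha0 : 0 < a) (ha : C * C0 * a ≤ 1 / 10 ^ 5) :
    1000 ≤ C0 / ε ^ 2 ∧ C0 * a ≤ 1 / 10 ^ 5 ∧ C0 * (10 * a + 7 * ε ^ 2) ≤ 2 / 10 ^ 4 := by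
  have a1 : C0 * a ≤ 1 / 10 ^ 5 := by nlinarith [mul_pos (by linarith : 0 < C0) ha0]
  refine ⟨?_, a1, by nlinarith⟩
  rw [le_div_iff₀ (by positivity)]
  nlinarith

lemma arith {e C0 C ε a t ς c N G Hd DB DR MB MR DO U Er W2 Mc Ms E Bs : ℝ}
    (he : e ≤ 1 / 100) (hC0 : 1 ≤ C0) (hC : 1 ≤ C) (hε : 0 < ε) (hε1 : ε ≤ 1 / 10 ^ 7)
    (hε2 : 1000 * ε ≤ e) (hε3 : ε * C0 ≤ 1 / 1000) (ha0 : 0 < a) (ha : C * C0 * a ≤ 1 / 10 ^ 5)
    (ht0 : 0 ≤ t) (ht : t ≤ 5.8) (hς : 0 < ς) (hς1 : ς ≤ 1) (hN : 0 ≤ N)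
    (hG : 0 ≤ G) (hHd : 0 ≤ Hd) (hDB : 0 ≤ DB) (hDR : 0 ≤ DR) (hMB0 : 0 ≤ MB) (hMR0 : 0 ≤ MR)
    (hU0 : 0 ≤ U)
    (hE : c ^ 2 * (G + 0.5 * Hd - N * C * ς) + 0.98 * DB + e * DR - (t + e) * (MB + MR)
      + 2 * c * Bs + DO / 2 ≤ E)
    (hB : -(c ^ 2 * G / 4 + 4 * (C0 / ε ^ 2) * U) ≤ 2 * c * Bs)
    (hMR : MR ≤ 8 * ε * (2 * c ^ 2 * (C0 * G) + 2 * U) + 32 * ε ^ 2 * DR)
    (hMB : MB ≤ 1.005 * W2 + 201 * c ^ 2 * Er)
    (hW : 6 * W2 ≤ 1.005 * DB + 201 * c ^ 2 * Er + Mc ^ 2 + Ms ^ 2)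
    (hMc : Mc ^ 2 ≤ 5 * (c ^ 2 * (C0 * (10 * a + 7 * ε ^ 2) * G) + c ^ 2 * (19000 * ε * Hd)
      + 7 * U + 28 * ε * DR + 28 * c ^ 2 * Er))
    (hMs : Ms ^ 2 ≤ 5 * (c ^ 2 * (C0 * (10 * a + 7 * ε ^ 2) * G) + c ^ 2 * (19000 * ε * Hd)
      + 7 * U + 28 * ε * DR + 28 * c ^ 2 * Er))
    (hEr : Er ≤ C * (5 * C0 * a * G + N * ς ^ 2))
    (hU : 200 * (C0 / ε ^ 2) * U ≤ DO) :
    -(2000 * c ^ 2 * N * C * ς) ≤ E := by
  obtain ⟨k0, a1, a2⟩ := small hC0 hC hε hε1 hε3 ha0 ha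
  have c2 : 0 ≤ c ^ 2 := sq_nonneg c
  set cG := c ^ 2 * G with hcG
  set cH := c ^ 2 * Hd with hcH
  set cE := c ^ 2 * Er with hcE
  set cN := c ^ 2 * N * C * ς with hcN
  set KU := C0 / ε ^ 2 * U with hKU
  have g0 : 0 ≤ cG := by positivity
  have h0 : 0 ≤ cH := by positivity
  have n0 : 0 ≤ cN := by positivity
  have k1 : 1000 * U ≤ KU := mul_le_mul_of_nonneg_right k0 hU0
  have e1 : cE ≤ 5 / 10 ^ 5 * cG + cN := by
    have h1 := mul_le_mul_of_nonneg_left hEr c2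
    have h2 := mul_le_mul_of_nonneg_right ha g0
    have h3 := mul_le_mul_of_nonneg_left hς1 n0
    have : c ^ 2 * (C * (5 * C0 * a * G + N * ς ^ 2)) = 5 * (C * C0 * a * cG) + cN * ς := by
      simp only [hcG, hcN]; ring
    linarith
  have r1 : MR ≤ 16 / 1000 * cG + U + ε * DR := by
    have h1 := mul_le_mul_of_nonneg_right hε3 g0
    have h2 := mul_le_mul_of_nonneg_right (show 16 * ε ≤ 1 by linarith) hU0
    have h3 := mul_le_mul_of_nonneg_right (show 32 * ε ≤ 1 by linarith)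
      (mul_nonneg hε.le hDR)
    have : 8 * ε * (2 * c ^ 2 * (C0 * G) + 2 * U) + 32 * ε ^ 2 * DR =
        16 * (ε * C0 * cG) + 16 * ε * U + 32 * ε * (ε * DR) := by
      simp only [hcG]; ring
    linarith
  have m1 : 5 * (c ^ 2 * (C0 * (10 * a + 7 * ε ^ 2) * G) + c ^ 2 * (19000 * ε * Hd)
      + 7 * U + 28 * ε * DR + 28 * c ^ 2 * Er) ≤
      1 / 1000 * cG + 1 / 100 * cH + 35 * U + 140 * (ε * DR) + 140 * cE := by
    have h2 := mul_le_mul_of_nonneg_right a2 g0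
    have h3 := mul_le_mul_of_nonneg_right hε1 h0
    have : 5 * (c ^ 2 * (C0 * (10 * a + 7 * ε ^ 2) * G) + c ^ 2 * (19000 * ε * Hd)
        + 7 * U + 28 * ε * DR + 28 * c ^ 2 * Er) = 5 * (C0 * (10 * a + 7 * ε ^ 2) * cG) +
        95000 * (ε * cH) + 35 * U + 140 * (ε * DR) + 140 * cE := by
      simp only [hcG, hcH, hcE]; ring
    linarith
  have d1 := mul_le_mul_of_nonneg_right hε2 hDR
  have d0 := mul_nonneg hε.le hDR
  have t1 := mul_le_mul_of_nonneg_right (show t + e ≤ 5.81 by linarith) (add_nonneg hMB0 hMR0)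
  have q1 : c ^ 2 * (G + 0.5 * Hd - N * C * ς) = cG + 0.5 * cH - cN := by
    simp only [hcG, hcH, hcN]; ring
  have q2 : 201 * c ^ 2 * Er = 201 * cE := by simp only [hcE]; ring
  have q3 : 2000 * c ^ 2 * N * C * ς = 2000 * cN := by simp only [hcN]; ring
  have q4 : 4 * (C0 / ε ^ 2) * U = 4 * KU := by simp only [hKU]; ring
  have q5 : 200 * (C0 / ε ^ 2) * U = 200 * KU := by simp only [hKU]; ring
  have s1 := sq_nonneg Mc
  have s2 := sq_nonneg Ms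
  rw [q1] at hE
  rw [q2] at hMB hW
  rw [q3]
  rw [q4] at hB
  rw [q5] at hU
  have hMc' := hMc.trans m1
  have hMs' := hMs.trans m1
  linarith

lemma flags {N : ℕ} (hN : 0 < N) (abn : ℕ → Prop) (x : ℕ → ℝ) {m : ℝ}
    (hx : ∀ k < N, 0 ≤ x k ∧ (abn k → m ≤ x k)) :
    ∃ b : ℕ → ℝ, (∀ j, b j = 0 ∨ b j = 1) ∧ b N = b 0 ∧
      (∀ k < N, abn k → b k = 0 ∧ b (k + 1) = 0) ∧
      ∑ k ∈ Finset.range N, m * (2 - b k - b (k + 1)) ≤ 4 * ∑ k ∈ Finset.range N, x k := by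
  classical
  obtain ⟨n, rfl⟩ : ∃ n, N = n + 1 := ⟨N - 1, by omega⟩
  set b : ℕ → ℝ := fun j => if abn (j % (n + 1)) ∨ abn ((j + n) % (n + 1)) then 0 else 1 with hb
  have e1 : ∀ j, (j + 1 + n) % (n + 1) = j % (n + 1) := fun j => by
    rw [show j + 1 + n = j + (n + 1) by ring, Nat.add_mod_right]
  have key : ∀ j, m * (1 - b j) ≤ x (j % (n + 1)) + x ((j + n) % (n + 1)) := fun j => by
    have h1 := hx _ (Nat.mod_lt j hN)
    have h2 := hx _ (Nat.mod_lt (j + n) hN)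
    simp only [hb]
    split_ifs with h
    · rcases h with h | h
      · linarith [h1.2 h, h2.1]
      · linarith [h2.2 h, h1.1]
    · linarith [h1.1, h2.1]
  have shift : ∀ f : ℕ → ℝ, f (n + 1) = f 0 →
      ∑ k ∈ Finset.range (n + 1), f (k + 1) = ∑ k ∈ Finset.range (n + 1), f k := fun f hf => by
    have h1 := Finset.sum_range_succ' f (n + 1)
    have h2 := Finset.sum_range_succ f (n + 1)
    linarith
  have s0 : ∑ k ∈ Finset.range (n + 1), x (k % (n + 1)) = ∑ k ∈ Finset.range (n + 1), x k :=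
    Finset.sum_congr rfl fun k hk => by rw [Nat.mod_eq_of_lt (Finset.mem_range.1 hk)]
  have bN : b (n + 1) = b 0 := by
    simp only [hb]
    rw [Nat.mod_self, Nat.zero_mod, show n + 1 + n = 0 + n + (n + 1) by ring, Nat.add_mod_right]
  have s1 := shift (fun j => x ((j + n) % (n + 1))) (by
    rw [show n + 1 + n = 0 + n + (n + 1) by ring, Nat.add_mod_right])
  simp only [e1] at s1
  have s2 := shift (fun j => m * (1 - b j)) (by simp only [bN])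
  have s3 : ∑ k ∈ Finset.range (n + 1), m * (1 - b k) ≤ 2 * ∑ k ∈ Finset.range (n + 1), x k := by
    refine (Finset.sum_le_sum fun k _ => key k).trans ?_
    rw [Finset.sum_add_distrib, ← s1, s0]
    linarith
  refine ⟨b, fun j => ?_, bN, fun k hk h => ?_, ?_⟩
  · simp only [hb]; split_ifs <;> simp
  · simp only [hb, e1, Nat.mod_eq_of_lt hk, h, true_or, or_true, if_true, and_self]
  · have : ∑ k ∈ Finset.range (n + 1), m * (2 - b k - b (k + 1)) =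
        ∑ k ∈ Finset.range (n + 1), m * (1 - b k) +
          ∑ k ∈ Finset.range (n + 1), m * (1 - b (k + 1)) := by
      rw [← Finset.sum_add_distrib]
      exact Finset.sum_congr rfl fun k _ => by ring
    linarith

lemma sum_int (N : ℕ) (θ : ℕ → ℝ) {f : ℝ → ℝ} (hf : Continuous f) :
    ∑ k ∈ Finset.range N, ∫ x in (θ k)..(θ (k + 1)), f x = ∫ x in (θ 0)..(θ N), f x :=
  sum_integral_adjacent_intervals fun _ _ => hf.intervalIntegrable _ _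

lemma sum_PI (N : ℕ) (θ : ℕ → ℝ) {Γ : ℝ → ℝ → ℝ} (h : Cont Γ) (r0 r1 : ℝ) :
    ∑ k ∈ Finset.range N, PI (θ k) (θ (k + 1)) (fun _ => r0) (fun _ => r1) Γ =
      PI (θ 0) (θ N) (fun _ => r0) (fun _ => r1) Γ :=
  sum_int N θ (h.inner continuous_const continuous_const)

lemma sum_len (N : ℕ) (θ : ℕ → ℝ) : ∑ k ∈ Finset.range N, (θ (k + 1) - θ k) = θ N - θ 0 :=
  Finset.sum_range_sub θ N

lemma five (p q r s t : ℝ) : (p + q - r - s - t) ^ 2 ≤ 5 * (p ^ 2 + q ^ 2 + r ^ 2 + s ^ 2 + t ^ 2) := by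
  nlinarith [sq_nonneg (p - q), sq_nonneg (p + r), sq_nonneg (p + s), sq_nonneg (p + t),
    sq_nonneg (q + r), sq_nonneg (q + s), sq_nonneg (q + t), sq_nonneg (r - s), sq_nonneg (r - t),
    sq_nonneg (s - t)]

lemma cross {c B K g U : ℝ} (hK : 0 < K) (hg : 0 ≤ g) (hU : 0 ≤ U) (h : B ^ 2 ≤ K * g * U) :
    -(c ^ 2 * g / 4 + 4 * K * U) ≤ 2 * c * B := by
  have h1 : (2 * c * B) ^ 2 ≤ (c ^ 2 * g / 4 + 4 * K * U) ^ 2 := by
    have := mul_le_mul_of_nonneg_left h (sq_nonneg c)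
    nlinarith [sq_nonneg (c ^ 2 * g / 4 - 4 * K * U)]
  exact (abs_le_of_sq_le_sq' h1 (by positivity)).1

lemma split_out {u : ℂ → ℝ} (hu : ContDiff ℝ 1 u) (hc : HasCompactSupport u) (t : ℝ) {ρ : ℝ}
    (hρ : 0 ≤ ρ) : en u - t * ma u =
      PI (-π) π (fun _ => 0) (fun _ => ρ)
        (fun r θ => ‖fderiv ℝ u (pol r θ)‖ ^ 2 - t * u (pol r θ) ^ 2) +
      ((∫ z in (Metric.ball (0 : ℂ) ρ)ᶜ, ‖fderiv ℝ u z‖ ^ 2) -
        t * ∫ z in (Metric.ball (0 : ℂ) ρ)ᶜ, u z ^ 2) := by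
  have c1 : Continuous fun z => ‖fderiv ℝ u z‖ ^ 2 :=
    (hu.continuous_fderiv one_ne_zero).norm.pow 2
  have c2 : Continuous fun z => u z ^ 2 := hu.continuous.pow 2
  have i1 : Integrable fun z => ‖fderiv ℝ u z‖ ^ 2 :=
    c1.integrable_of_hasCompactSupport
      ((hc.fderiv (𝕜 := ℝ)).comp_left (g := fun L => ‖L‖ ^ 2) (by simp))
  have i2 : Integrable fun z => u z ^ 2 :=
    c2.integrable_of_hasCompactSupport (hc.comp_left (g := fun x => x ^ 2) (by simp))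
  rw [en, ma, ← integral_add_compl (Metric.isOpen_ball (x := (0 : ℂ)) (ε := ρ)).measurableSet i1,
    ← integral_add_compl (Metric.isOpen_ball (x := (0 : ℂ)) (ε := ρ)).measurableSet i2,
    integral_ball c1 hρ, integral_ball c2 hρ,
    PI_sub (c_nrm hu) (continuous_const.mul (c_sq hu)) continuous_const continuous_const,
    PI_const_mul]
  ring

end Pool.Agent.PSz.Asm
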