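import Pool.Agent.P.MP_7b7370_an.Bes

/-! Common definitions: energies, polar coordinates, the standard triangle. -/

set_option autoImplicit false

namespace Pool.Agent.PSz

open Real Set MeasureTheory intervalIntegral

abbrev P2 := ℝ × ℝ

noncomputable def en (u : ℂ → ℝ) : ℝ := ∫ z, ‖fderiv ℝ u z‖ ^ 2
noncomputable def ma (u : ℂ → ℝ) : ℝ := ∫ z, u z ^ 2

noncomputable def cis (θ : ℝ) : ℂ := Complex.exp (θ * Complex.I)
noncomputable def pol (r θ : ℝ) : ℂ := (r : ℂ) * cis θ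

/-- the radial solution -/
noncomputable def phi (t : ℝ) (z : ℂ) : ℝ := F0 t (Complex.normSq z)

/-- polar integral over `θ ∈ [θa, θb]`, `r ∈ [r0 θ, r1 θ]` -/
noncomputable def PI (θa θb : ℝ) (r0 r1 : ℝ → ℝ) (Γ : ℝ → ℝ → ℝ) : ℝ :=
  ∫ θ in θa..θb, ∫ r in (r0 θ)..(r1 θ), Γ r θ * r

noncomputable def ell (A B θ : ℝ) : ℝ := A * cos θ + B * sin θ
/-- truncated radial function of a side -/
noncomputable def Rp (ε A B θ : ℝ) : ℝ := 1 / max (ell A B θ) (1 / (1 + ε))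

/-- integral over the part `x0 ≤ x ≤ x1` of the triangle `|y| ≤ x ≤ 1`, with `y = x η` -/
noncomputable def T (x0 x1 : ℝ) (Γ : ℝ → ℝ → ℝ) : ℝ :=
  ∫ η in (-1 : ℝ)..1, ∫ x in x0..x1, Γ x η * x

noncomputable def px (w : P2 → ℝ) (p : P2) : ℝ := fderiv ℝ w p (1, 0)
noncomputable def py (w : P2 → ℝ) (p : P2) : ℝ := fderiv ℝ w p (0, 1)

noncomputable def sg (a : ℝ) : ℝ := tan a
noncomputable def X2 (a : ℝ) : ℝ := a / tan a
noncomputable def om (a : ℝ) : ℝ := a * tan a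
noncomputable def q0 (a y : ℝ) : ℝ := X2 a + om a * y ^ 2
/-- circumradius of the regular polygon of area `π` -/
noncomputable def Rv (a : ℝ) : ℝ := √(q0 a 1)

noncomputable def D0 (a x0 x1 : ℝ) (w : P2 → ℝ) : ℝ :=
  T x0 x1 fun x η => sg a * px w (x, x * η) ^ 2 + py w (x, x * η) ^ 2 / sg a
noncomputable def M0 (a x0 x1 : ℝ) (w : P2 → ℝ) : ℝ :=
  a * T x0 x1 fun x η => w (x, x * η) ^ 2
noncomputable def B0 (a t : ℝ) (w z : P2 → ℝ) : ℝ :=
  T 0 1 fun x η => sg a * (px w (x, x * η) * px z (x, x * η))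
    + py w (x, x * η) * py z (x, x * η) / sg a - t * a * (w (x, x * η) * z (x, x * η))

/-- the first mixed eigenvalue of the reference triangle -/
noncomputable def tt (a : ℝ) : ℝ :=
  sInf {q | ∃ w : P2 → ℝ, ContDiff ℝ 1 w ∧ (∀ y, |y| ≤ 1 → w (1, y) = 0) ∧ 0 < M0 a 0 1 w ∧
    q = D0 a 0 1 w / M0 a 0 1 w}

noncomputable def avg (h : P2 → ℝ) (x : ℝ) : ℝ := (1 / 2) * ∫ η in (-1 : ℝ)..1, h (x, x * η)
noncomputable def davg (h : P2 → ℝ) (x : ℝ) : ℝ :=
  (1 / 2) * ∫ η in (-1 : ℝ)..1, (px h (x, x * η) + η * py h (x, x * η))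

noncomputable def Fz (a t : ℝ) : ℝ := ∫ η in (-1 : ℝ)..1, ft t (q0 a η) / q0 a η

/-- data of an almost minimiser on the reference triangle -/
structure Ref (a t ς : ℝ) (h : P2 → ℝ) : Prop where
  a_pos : 0 < a
  a_le : a ≤ 1 / 1000
  t_lo : 5.7 ≤ t
  t_hi : t ≤ 5.8
  tX : t * X2 a ≤ 5.8
  F_one : |F0 t 1| ≤ 300 * a ^ 2
  G_le : Gt t 1 ≤ 10 ^ 5 * a ^ 3
  s_pos : 0 < ς
  s_le : ς ≤ a ^ 3
  smooth : ContDiff ℝ 1 h
  bdry : ∀ y, |y| ≤ 1 → h (1, y) = F0 t (q0 a y)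
  even : ∀ x y, h (x, -y) = h (x, y)
  mean : T 0 1 (fun x η => h (x, x * η)) = 0
  el : ∀ z : P2 → ℝ, ContDiff ℝ 1 z → (∀ y, |y| ≤ 1 → z (1, y) = 0) →
    |B0 a t h z| ≤ ς * √(D0 a 0 1 z)
  val_lo : 2 * a * Gt t 1 ≤ D0 a 0 1 h - t * M0 a 0 1 h + a * Fz a t
  val_hi : D0 a 0 1 h - t * M0 a 0 1 h + a * Fz a t ≤ 2 * a * Gt t 1 + ς ^ 2

/-- simple closed polygon with interior `Ω` (as in the frozen statement) -/
structure IsPoly {N : ℕ} (v : Fin N → ℂ) (Ω : Set ℂ) : Prop where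
  simple : ∀ i j : Fin N, i ≠ j →
    ∀ z ∈ segment ℝ (v i) (v (finRotate N i)) ∩ segment ℝ (v j) (v (finRotate N j)),
      (finRotate N i = j ∧ z = v j) ∨ (finRotate N j = i ∧ z = v i)
  isOpen : IsOpen Ω
  bdd : Bornology.IsBounded Ω
  front : frontier Ω = ⋃ i : Fin N, segment ℝ (v i) (v (finRotate N i))

/-! ### polar coordinates -/

@[simp] lemma cis_re (θ : ℝ) : (cis θ).re = cos θ := by simp [cis, Complex.exp_re]
@[simp] lemma cis_im (θ : ℝ) : (cis θ).im = sin θ := by simp [cis, Complex.exp_im]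
@[simp] lemma pol_re (r θ : ℝ) : (pol r θ).re = r * cos θ := by simp [pol]
@[simp] lemma pol_im (r θ : ℝ) : (pol r θ).im = r * sin θ := by simp [pol]
lemma norm_cis (θ : ℝ) : ‖cis θ‖ = 1 := by simp [cis, Complex.norm_exp_ofReal_mul_I]
lemma norm_pol (r θ : ℝ) : ‖pol r θ‖ = |r| := by simp [pol, norm_cis]
lemma normSq_pol (r θ : ℝ) : Complex.normSq (pol r θ) = r ^ 2 := by
  rw [Complex.normSq_eq_norm_sq, norm_pol, sq_abs]
@[simp] lemma pol_zero (θ : ℝ) : pol 0 θ = 0 := by simp [pol]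
lemma pol_eq_smul (r θ : ℝ) : pol r θ = r • cis θ := by simp [pol]

@[fun_prop] lemma continuous_cis : Continuous cis := by unfold cis; fun_prop
@[fun_prop] lemma Continuous.pol {α : Type*} [TopologicalSpace α] {r θ : α → ℝ}
    (hr : Continuous r) (hθ : Continuous θ) : Continuous fun p => pol (r p) (θ p) := by
  unfold Pool.Agent.PSz.pol; fun_prop

lemma hasDerivAt_cis (θ : ℝ) : HasDerivAt cis (Complex.I * cis θ) θ := by
  have := ((Complex.ofRealCLM.hasDerivAt (x := θ)).mul_const Complex.I).cexp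
  refine this.congr_deriv ?_
  simp [cis, mul_comm]

lemma hasDerivAt_pol_r (r θ : ℝ) : HasDerivAt (fun r => pol r θ) (cis θ) r := by
  have := (Complex.ofRealCLM.hasDerivAt (x := r)).mul_const (cis θ)
  simpa [pol] using this

lemma hasDerivAt_pol_t (r θ : ℝ) : HasDerivAt (pol r) (r • (Complex.I * cis θ)) θ := by
  have := (hasDerivAt_cis θ).const_mul (r : ℂ)
  rw [Complex.real_smul]
  exact this

lemma clm_apply (L : ℂ →L[ℝ] ℝ) (v : ℂ) : L v = v.re * L 1 + v.im * L Complex.I := by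
  conv_lhs => rw [show v = v.re • (1 : ℂ) + v.im • Complex.I by
    simp [Complex.re_add_im]]
  rw [map_add, map_smul, map_smul]; simp

lemma norm_clm_sq (L : ℂ →L[ℝ] ℝ) : ‖L‖ ^ 2 = L 1 ^ 2 + L Complex.I ^ 2 := by
  set g : ℂ := ⟨L 1, L Complex.I⟩ with hg
  have e : L = innerSL ℝ g := by
    ext v
    simp [hg, Complex.inner, clm_apply L v]
  have : ‖L‖ = ‖g‖ := by rw [e, innerSL_apply_norm]
  rw [this, Complex.sq_norm, Complex.normSq_apply]; simp [hg]; ring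

lemma norm_clm_sq_cis (L : ℂ →L[ℝ] ℝ) (θ : ℝ) :
    ‖L‖ ^ 2 = L (cis θ) ^ 2 + L (Complex.I * cis θ) ^ 2 := by
  rw [norm_clm_sq, clm_apply L (cis θ), clm_apply L (Complex.I * cis θ)]
  simp
  linear_combination (-(L 1 ^ 2 + L Complex.I ^ 2)) * sin_sq_add_cos_sq θ

lemma hasDerivAt_ray {u : ℂ → ℝ} (hu : ContDiff ℝ 1 u) (r θ : ℝ) :
    HasDerivAt (fun r => u (pol r θ)) (fderiv ℝ u (pol r θ) (cis θ)) r :=
  (hu.differentiable one_ne_zero _).hasFDerivAt.comp_hasDerivAt r (hasDerivAt_pol_r r θ)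

lemma hasDerivAt_arc {u : ℂ → ℝ} (hu : ContDiff ℝ 1 u) (r θ : ℝ) :
    HasDerivAt (fun θ => u (pol r θ)) (r * fderiv ℝ u (pol r θ) (Complex.I * cis θ)) θ := by
  have := (hu.differentiable one_ne_zero _).hasFDerivAt.comp_hasDerivAt θ (hasDerivAt_pol_t r θ)
  rw [map_smul] at this
  exact this

lemma contDiff_normSq : ContDiff ℝ 1 fun z : ℂ => Complex.normSq z := by
  have : (fun z : ℂ => Complex.normSq z) = fun z => Complex.reCLM z * Complex.reCLM z +
      Complex.imCLM z * Complex.imCLM z := by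
    funext z; simp [Complex.normSq_apply]
  rw [this]; fun_prop

@[fun_prop] lemma contDiff_phi (t : ℝ) : ContDiff ℝ 1 (phi t) :=
  (contDiff_F0 t).comp contDiff_normSq

@[fun_prop] lemma continuous_phi (t : ℝ) : Continuous (phi t) := (contDiff_phi t).continuous

lemma phi_pol (t r θ : ℝ) : phi t (pol r θ) = F0 t (r ^ 2) := by rw [phi, normSq_pol]

lemma fderiv_phi_ray (t r θ : ℝ) : fderiv ℝ (phi t) (pol r θ) (cis θ) = 2 * r * F1 t (r ^ 2) := by
  have h1 := hasDerivAt_ray (contDiff_phi t) r θ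
  simp only [phi_pol] at h1
  have h2 := (hasDerivAt_F0 t (r ^ 2)).comp r (hasDerivAt_pow 2 r)
  rw [h1.unique h2]; simp; ring

lemma fderiv_phi_arc (t r θ : ℝ) :
    r * fderiv ℝ (phi t) (pol r θ) (Complex.I * cis θ) = 0 := by
  have h1 := hasDerivAt_arc (contDiff_phi t) r θ
  simp only [phi_pol] at h1
  exact h1.unique (hasDerivAt_const θ _)

@[fun_prop] lemma continuous_ell (A B : ℝ) : Continuous (ell A B) := by unfold ell; fun_prop

lemma Rp_pos {ε : ℝ} (hε : 0 < ε) (A B θ : ℝ) : 0 < Rp ε A B θ :=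
  one_div_pos.2 (lt_max_of_lt_right (by positivity))

lemma Rp_le {ε : ℝ} (hε : 0 < ε) (A B θ : ℝ) : Rp ε A B θ ≤ 1 + ε := by
  unfold Rp
  rw [one_div_le (lt_max_of_lt_right (by positivity)) (by positivity)]
  exact le_max_right _ _

lemma continuous_Rp {ε : ℝ} (hε : 0 < ε) (A B : ℝ) : Continuous (Rp ε A B) := by
  unfold Rp
  exact continuous_const.div (by fun_prop) fun θ => (lt_max_of_lt_right (by positivity)).ne'

lemma le_Rp {ε A B θ : ℝ} (hε : 0 < ε) (hε1 : ε < 1) (h : ell A B θ ≤ 1 / (1 - ε)) :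
    1 - ε ≤ Rp ε A B θ := by
  unfold Rp
  rw [le_one_div (by linarith) (lt_max_of_lt_right (by positivity))]
  exact max_le h (one_div_le_one_div_of_le (by linarith) (by linarith))

/-! ### derivatives on the plane -/

@[fun_prop] lemma continuous_px {w : P2 → ℝ} (hw : ContDiff ℝ 1 w) : Continuous (px w) := by
  unfold px; exact (hw.continuous_fderiv one_ne_zero).clm_apply continuous_const
@[fun_prop] lemma continuous_py {w : P2 → ℝ} (hw : ContDiff ℝ 1 w) : Continuous (py w) := by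
  unfold py; exact (hw.continuous_fderiv one_ne_zero).clm_apply continuous_const

lemma fderiv_apply_P2 (w : P2 → ℝ) (p v : P2) :
    fderiv ℝ w p v = v.1 * px w p + v.2 * py w p := by
  conv_lhs => rw [show v = v.1 • ((1 : ℝ), (0 : ℝ)) + v.2 • ((0 : ℝ), (1 : ℝ)) by simp]
  rw [map_add, map_smul, map_smul]; rfl

/-- chain rule along a curve in the plane -/
lemma hasDerivAt_curve {w : P2 → ℝ} (hw : ContDiff ℝ 1 w) {f g : ℝ → ℝ} {f' g' s : ℝ}
    (hf : HasDerivAt f f' s) (hg : HasDerivAt g g' s) :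
    HasDerivAt (fun s => w (f s, g s)) (f' * px w (f s, g s) + g' * py w (f s, g s)) s := by
  have := (hw.differentiable one_ne_zero (f s, g s)).hasFDerivAt.comp_hasDerivAt s (hf.prodMk hg)
  rw [fderiv_apply_P2] at this
  exact this

lemma hasDerivAt_px {w : P2 → ℝ} (hw : ContDiff ℝ 1 w) (x y : ℝ) :
    HasDerivAt (fun x => w (x, y)) (px w (x, y)) x := by
  simpa using hasDerivAt_curve hw (hasDerivAt_id x) (hasDerivAt_const x y)

lemma hasDerivAt_py {w : P2 → ℝ} (hw : ContDiff ℝ 1 w) (x y : ℝ) :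
    HasDerivAt (fun y => w (x, y)) (py w (x, y)) y := by
  simpa using hasDerivAt_curve hw (hasDerivAt_const y x) (hasDerivAt_id y)

/-- to compute `px` of a compound function -/
lemma px_eq {w : P2 → ℝ} (hw : ContDiff ℝ 1 w) {x y d : ℝ}
    (h : HasDerivAt (fun x => w (x, y)) d x) : px w (x, y) = d := (hasDerivAt_px hw x y).unique h

lemma py_eq {w : P2 → ℝ} (hw : ContDiff ℝ 1 w) {x y d : ℝ}
    (h : HasDerivAt (fun y => w (x, y)) d y) : py w (x, y) = d := (hasDerivAt_py hw x y).unique h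

end Pool.Agent.PSz
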