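import Mathlib
import Pool.Agent.P.MP_342f9e_an.Bessel

/-! The radial solution `F0 t (|z|^2) = J_0(sqrt t |z|)` and its first zero. -/

set_option autoImplicit false

namespace Pool.Agent.PSz

open Real Set
open Pool.Agent.P.MP_342f9e_an

noncomputable def F0 (t q : ℝ) : ℝ := PS c0 (-(t * q) / 4)
noncomputable def F1 (t q : ℝ) : ℝ := -(t / 4) * PS c1 (-(t * q) / 4)
noncomputable def F2 (t q : ℝ) : ℝ := (t / 4) ^ 2 * PS (dc c1) (-(t * q) / 4)
noncomputable def F3 (t q : ℝ) : ℝ := -(t / 4) ^ 3 * PS (dc (dc c1)) (-(t * q) / 4)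

lemma hasDerivAt_arg (t q : ℝ) : HasDerivAt (fun q : ℝ => -(t * q) / 4) (-(t / 4)) q := by
  have := (((hasDerivAt_id q).const_mul t).neg).div_const 4
  refine this.congr_deriv ?_; ring

lemma hasDerivAt_F0 (t q : ℝ) : HasDerivAt (F0 t) (F1 t q) q := by
  have := (small_c0.hasDerivAt (-(t * q) / 4)).comp q (hasDerivAt_arg t q)
  rw [dc_c0] at this
  refine this.congr_deriv ?_
  unfold F1; ring

lemma hasDerivAt_F1 (t q : ℝ) : HasDerivAt (F1 t) (F2 t q) q := by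
  have := ((small_c1.hasDerivAt (-(t * q) / 4)).comp q (hasDerivAt_arg t q)).const_mul (-(t / 4))
  refine this.congr_deriv ?_
  unfold F2; ring

lemma hasDerivAt_F2 (t q : ℝ) : HasDerivAt (F2 t) (F3 t q) q := by
  have := ((small_c1.dc.hasDerivAt (-(t * q) / 4)).comp q (hasDerivAt_arg t q)).const_mul
    ((t / 4) ^ 2)
  refine this.congr_deriv ?_
  unfold F3; ring

lemma contDiff_arg (t : ℝ) {n : WithTop ℕ∞} : ContDiff ℝ n (fun q : ℝ => -(t * q) / 4) := by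
  fun_prop

@[fun_prop] lemma contDiff_F0 (t : ℝ) : ContDiff ℝ 1 (F0 t) :=
  (small_c0.contDiff.of_le (by exact_mod_cast le_top)).comp (contDiff_arg t)

@[fun_prop] lemma contDiff_F1 (t : ℝ) : ContDiff ℝ 1 (F1 t) :=
  contDiff_const.mul ((small_c1.contDiff.of_le (by exact_mod_cast le_top)).comp (contDiff_arg t))

@[fun_prop] lemma contDiff_F2 (t : ℝ) : ContDiff ℝ 1 (F2 t) :=
  contDiff_const.mul ((small_c1.dc.contDiff.of_le (by exact_mod_cast le_top)).comp (contDiff_arg t))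

@[fun_prop] lemma continuous_F0 (t : ℝ) : Continuous (F0 t) := (contDiff_F0 t).continuous
@[fun_prop] lemma continuous_F1 (t : ℝ) : Continuous (F1 t) := (contDiff_F1 t).continuous
@[fun_prop] lemma continuous_F2 (t : ℝ) : Continuous (F2 t) := (contDiff_F2 t).continuous

/-- Bessel's equation in the variable `q = r^2`. -/
lemma ode (t q : ℝ) : 4 * (q * F2 t q + F1 t q) = -t * F0 t q := by
  have := mul_PS_dc_c1 (-(t * q) / 4)
  unfold F0 F1 F2
  linear_combination (-t) * this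

lemma F0_zero (t : ℝ) : F0 t 0 = 1 := by
  have := I0_zero
  unfold I0 at this; unfold F0; simpa using this

lemma F0_scale (t q : ℝ) : F0 t q = F0 1 (t * q) := by unfold F0; simp

lemma F1_scale (t q : ℝ) : F1 t q = t * F1 1 (t * q) := by unfold F1; simp; ring

lemma abs_PS_le {c : ℕ → ℝ} (h : Small c) {z : ℝ} (hz : |z| ≤ 2) : |PS c z| ≤ 7.4 := by
  have h1 : HasSum (fun m : ℕ => (2 : ℝ) ^ m / m.factorial) (Real.exp 2) := by
    rw [Real.exp_eq_exp_ℝ]; exact NormedSpace.expSeries_div_hasSum_exp (2 : ℝ)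
  have h2 : ‖PS c z‖ ≤ Real.exp 2 :=
    tsum_of_norm_bounded h1 (h.norm_le hz)
  have h3 : Real.exp 2 ≤ 7.4 := by
    have := Real.exp_one_lt_d9
    have e : Real.exp 2 = Real.exp 1 * Real.exp 1 := by rw [← Real.exp_add]; norm_num
    have := Real.exp_pos 1
    nlinarith
  exact h2.trans h3

lemma abs_arg_le {t q : ℝ} (ht0 : 0 ≤ t) (ht : t ≤ 6) (hq : |q| ≤ 1.3) : |-(t * q) / 4| ≤ 2 := by
  rw [abs_div, abs_neg, abs_mul, abs_of_nonneg ht0, abs_of_pos (by norm_num : (0:ℝ) < 4)]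
  have := abs_nonneg q
  nlinarith

lemma abs_F0_le {t q : ℝ} (ht0 : 0 ≤ t) (ht : t ≤ 6) (hq : |q| ≤ 1.3) : |F0 t q| ≤ 25 :=
  (abs_PS_le small_c0 (abs_arg_le ht0 ht hq)).trans (by norm_num)

lemma abs_F1_le {t q : ℝ} (ht0 : 0 ≤ t) (ht : t ≤ 6) (hq : |q| ≤ 1.3) : |F1 t q| ≤ 25 := by
  have := abs_PS_le small_c1 (abs_arg_le ht0 ht hq)
  unfold F1
  rw [abs_mul, abs_neg, abs_of_nonneg (by positivity)]
  nlinarith [abs_nonneg (PS c1 (-(t * q) / 4))]

lemma abs_F2_le {t q : ℝ} (ht0 : 0 ≤ t) (ht : t ≤ 6) (hq : |q| ≤ 1.3) : |F2 t q| ≤ 25 := by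
  have := abs_PS_le small_c1.dc (abs_arg_le ht0 ht hq)
  unfold F2
  rw [abs_mul, abs_of_nonneg (by positivity)]
  have : (t / 4) ^ 2 ≤ 2.25 := by nlinarith
  nlinarith [abs_nonneg (PS (dc c1) (-(t * q) / 4))]

lemma abs_F3_le {t q : ℝ} (ht0 : 0 ≤ t) (ht : t ≤ 6) (hq : |q| ≤ 1.3) : |F3 t q| ≤ 25 := by
  have := abs_PS_le small_c1.dc.dc (abs_arg_le ht0 ht hq)
  unfold F3
  rw [abs_mul, abs_neg, abs_of_nonneg (by positivity)]
  have : (t / 4) ^ 3 ≤ 3.375 := by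
    calc (t / 4) ^ 3 ≤ (1.5 : ℝ) ^ 3 := by gcongr; linarith
      _ = 3.375 := by norm_num
  nlinarith [abs_nonneg (PS (dc (dc c1)) (-(t * q) / 4))]

lemma PS_tail {c : ℕ → ℝ} (h : Small c) (hp : ∀ m, 0 < c m) {z : ℝ} (hz : 0 ≤ z) (K : ℕ)
    (hr : ∀ m, K ≤ m → c (m + 1) * z ≤ c m / 2) :
    |PS c (-z) - ∑ m ∈ Finset.range K, c m * (-z) ^ m| ≤ 2 * (c K * z ^ K) := by
  have h1 := PS_le h hp hz K hr
  unfold PS at h1 ⊢
  rw [← (h.summable z).sum_add_tsum_nat_add K] at h1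
  rw [← (h.summable (-z)).sum_add_tsum_nat_add K, add_sub_cancel_left]
  have h2 : ‖∑' m, c (m + K) * (-z) ^ (m + K)‖ ≤ ∑' m, c (m + K) * z ^ (m + K) :=
    tsum_of_norm_bounded ((summable_nat_add_iff K).2 (h.summable z)).hasSum fun m => by
      rw [Real.norm_eq_abs, abs_mul, abs_pow, abs_neg, abs_of_nonneg hz, abs_of_pos (hp _)]
  rw [Real.norm_eq_abs] at h2
  linarith

lemma PS_c1_ge {z : ℝ} (hz : 0 ≤ z) (hz' : z ≤ 1.75) : 0.29 ≤ PS c1 (-z) := by
  have h := PS_tail small_c1 c1_pos hz 4 (c1_ratio hz (by norm_num; linarith))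
  have h' := (abs_le.1 h).1
  simp only [Finset.sum_range_succ, Finset.sum_range_zero, c1, Nat.factorial] at h'
  norm_num at h'
  have h3 : z ^ 3 ≤ 1.75 * z ^ 2 := by nlinarith [sq_nonneg z]
  have h4 : z ^ 4 ≤ 1.75 * z ^ 3 := by nlinarith [pow_nonneg hz 3]
  have e3 : (-z) ^ 3 = -z ^ 3 := by ring
  rw [e3] at h'
  nlinarith [sq_nonneg (z - 1.75)]

lemma F1_le_gen {t q : ℝ} (ht : 0 ≤ t) (hq : 0 ≤ t * q) (hq' : t * q ≤ 7) :
    F1 t q ≤ -(0.07 * t) := by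
  have := PS_c1_ge (z := t * q / 4) (by positivity) (by linarith)
  unfold F1
  rw [neg_div]
  nlinarith

lemma F1_le {t q : ℝ} (ht : 5.7 ≤ t) (ht' : t ≤ 5.8) (hq : 0 ≤ q) (hq' : q ≤ 1.2) :
    F1 t q ≤ -0.4 := by
  have := PS_c1_ge (z := t * q / 4) (by positivity) (by nlinarith)
  unfold F1
  rw [neg_div]
  nlinarith

lemma F0_575 : 0 < F0 1 5.75 := by
  have h := PS_tail small_c0 c0_pos (z := 5.75 / 4) (by norm_num) 7
    (c0_ratio (by norm_num) (by norm_num))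
  have h' := (abs_le.1 h).1
  simp only [Finset.sum_range_succ, Finset.sum_range_zero, c0, Nat.factorial] at h'
  unfold F0
  rw [show -(1 * 5.75 : ℝ) / 4 = -(5.75 / 4) by norm_num]
  norm_num at h' ⊢
  linarith

lemma F0_579 : F0 1 5.79 < 0 := by
  have h := PS_tail small_c0 c0_pos (z := 5.79 / 4) (by norm_num) 7
    (c0_ratio (by norm_num) (by norm_num))
  have h' := (abs_le.1 h).2
  simp only [Finset.sum_range_succ, Finset.sum_range_zero, c0, Nat.factorial] at h'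
  unfold F0
  rw [show -(1 * 5.79 : ℝ) / 4 = -(5.79 / 4) by norm_num]
  norm_num at h' ⊢
  linarith

lemma exists_j2 : ∃ s : ℝ, 5.75 < s ∧ s < 5.79 ∧ F0 1 s = 0 := by
  obtain ⟨s, hs, h0⟩ := intermediate_value_Ioo' (by norm_num : (5.75 : ℝ) ≤ 5.79)
    (continuous_F0 1).continuousOn ⟨F0_579, F0_575⟩
  exact ⟨s, hs.1, hs.2, h0⟩

/-- the square of the first zero of `J_0` -/
noncomputable def j2 : ℝ := exists_j2.choose

lemma j2_gt : 5.75 < j2 := exists_j2.choose_spec.1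
lemma j2_lt : j2 < 5.79 := exists_j2.choose_spec.2.1
lemma F0_j2 : F0 1 j2 = 0 := exists_j2.choose_spec.2.2

lemma F0_strictAntiOn : StrictAntiOn (F0 1) (Icc 0 7) := by
  refine strictAntiOn_of_deriv_neg (convex_Icc _ _) (continuous_F0 1).continuousOn fun x hx => ?_
  rw [interior_Icc] at hx
  rw [(hasDerivAt_F0 1 x).deriv]
  have := F1_le_gen (t := 1) (q := x) zero_le_one (by linarith [hx.1]) (by linarith [hx.2])
  linarith

lemma F0_pos {t q : ℝ} (h0 : 0 ≤ t * q) (h1 : t * q < j2) : 0 < F0 t q := by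
  rw [F0_scale, ← F0_j2]
  exact F0_strictAntiOn ⟨h0, by linarith [j2_lt]⟩ ⟨by linarith [j2_gt], by linarith [j2_lt]⟩ h1

lemma F0_eq_zero {t q : ℝ} (h : t * q = j2) : F0 t q = 0 := by rw [F0_scale, h, F0_j2]

/-- mean value bound -/
lemma abs_sub_le_of_deriv {f f' : ℝ → ℝ} {a b C x y : ℝ} (hf : ∀ z, HasDerivAt f (f' z) z)
    (hC : ∀ z ∈ Icc a b, |f' z| ≤ C) (hx : x ∈ Icc a b) (hy : y ∈ Icc a b) :
    |f y - f x| ≤ C * |y - x| := by
  have := (convex_Icc a b).norm_image_sub_le_of_norm_hasDerivWithin_le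
    (fun z _ => (hf z).hasDerivWithinAt) (fun z hz => by simpa using hC z hz) hx hy
  simpa using this

/-- `G(R) = R phi phi'` in the variable `q = R^2` -/
noncomputable def Gt (t q : ℝ) : ℝ := 2 * q * F0 t q * F1 t q
noncomputable def Gt1 (t q : ℝ) : ℝ := 2 * q * F1 t q ^ 2 - t * F0 t q ^ 2 / 2
noncomputable def Gt2 (t q : ℝ) : ℝ := -2 * F1 t q * (F1 t q + t * F0 t q)
/-- tangent line at `q = 1` minus `Gt` -/
noncomputable def ft (t q : ℝ) : ℝ := Gt t 1 + Gt1 t 1 * (q - 1) - Gt t q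

lemma hasDerivAt_Gt (t q : ℝ) : HasDerivAt (Gt t) (Gt1 t q) q := by
  have := (((hasDerivAt_id q).const_mul 2).mul (hasDerivAt_F0 t q)).mul (hasDerivAt_F1 t q)
  refine this.congr_deriv ?_
  have := ode t q
  simp only [Gt1, id, Pi.mul_apply]
  linear_combination (F0 t q / 2) * this

lemma hasDerivAt_Gt1 (t q : ℝ) : HasDerivAt (Gt1 t) (Gt2 t q) q := by
  have := (((hasDerivAt_id q).const_mul 2).mul ((hasDerivAt_F1 t q).pow 2)).sub
    ((((hasDerivAt_F0 t q).pow 2).const_mul t).div_const 2)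
  refine this.congr_deriv ?_
  have := ode t q
  simp only [Gt2, id, Pi.pow_apply]
  norm_num
  linear_combination (F1 t q) * this

@[fun_prop] lemma continuous_Gt (t : ℝ) : Continuous (Gt t) := by unfold Gt; fun_prop
@[fun_prop] lemma continuous_ft (t : ℝ) : Continuous (ft t) := by unfold ft; fun_prop

end Pool.Agent.PSz
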