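import Pool.Agent.P.MP_7b7370_an.CLDefs

/-! Cauchy estimate for the logarithm. -/

set_option autoImplicit false

namespace Pool.Agent.PSF.CL

open Real Set MeasureTheory Filter Topology
open scoped ENNReal NNReal

theorem lip_of_abs_im {F : ℂ → ℂ} (hd : DifferentiableOn ℂ F Sg) (hB : ∀ w ∈ Sg, |(F w).im| ≤ π)
    {b : ℝ} (hb : b < π / 2) : ∃ K : ℝ, 0 ≤ K ∧ ∀ w ∈ Sc b, ∀ w' ∈ Sc b,
      ‖F w - F w'‖ ≤ K * ‖w - w'‖ := by
  have hr : 0 < (π / 2 - b) / 2 := by linarith
  have hE : DifferentiableOn ℂ (fun z => Complex.exp (Complex.I * F z)) Sg :=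
    (hd.const_mul _).cexp
  have hn : ∀ z, ‖Complex.exp (Complex.I * F z)‖ = exp (-(F z).im) := fun z => by
    rw [Complex.norm_exp]
    simp
  have hsub : Sc b ⊆ Sg := Sc_subset_Sg hb
  have hda : ∀ w ∈ Sc b, DifferentiableAt ℂ F w := fun w hw =>
    hd.differentiableAt (isOpen_Sg.mem_nhds (hsub hw))
  refine ⟨exp π / ((π / 2 - b) / 2) * exp π, by positivity, fun w hw w' hw' => ?_⟩
  refine (convex_Sc b).norm_image_sub_le_of_norm_deriv_le hda (fun z hz => ?_) hw' hw
  have hball : Metric.closedBall z ((π / 2 - b) / 2) ⊆ Sg := fun y hy => by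
    have h1 : |(y - z).im| ≤ (π / 2 - b) / 2 :=
      (Complex.abs_im_le_norm _).trans (mem_closedBall_iff_norm.1 hy)
    rw [Complex.sub_im, abs_le] at h1
    obtain ⟨h2, h3⟩ := hz
    show |y.im| < π / 2
    rw [abs_lt]
    constructor <;> linarith [h1.1, h1.2]
  have h1 := Complex.norm_deriv_le_of_forall_mem_sphere_norm_le hr (hE.diffContOnCl_ball hball)
    (C := exp π) fun y hy => by
      rw [hn]
      exact exp_le_exp.2 (neg_le.1 (abs_le.1 (hB y (hball (Metric.sphere_subset_closedBall hy)))).1)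
  rw [(((hda z hz).hasDerivAt.const_mul Complex.I).cexp).deriv, norm_mul, norm_mul, Complex.norm_I,
    one_mul, hn] at h1
  have h2 : 1 ≤ exp (-(F z).im) * exp π := by
    rw [← exp_add]
    exact one_le_exp (by linarith [(abs_le.1 (hB z (hsub hz))).2])
  calc ‖deriv F z‖ ≤ exp (-(F z).im) * exp π * ‖deriv F z‖ :=
        le_mul_of_one_le_left (norm_nonneg _) h2
    _ = exp (-(F z).im) * ‖deriv F z‖ * exp π := by ring
    _ ≤ _ := mul_le_mul_of_nonneg_right h1 (exp_pos _).le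

end Pool.Agent.PSF.CL
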