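import Pool.Agent.P.MP_7b7370_an.CLDefs

/-! A lemma on the real line. -/

set_option autoImplicit false

namespace Pool.Agent.PSF.CL

open Real Set MeasureTheory Filter Topology
open scoped ENNReal NNReal

/-- a positive log-Lipschitz derivative of a bounded function is bounded and tends to zero -/
theorem deriv_small {g l : ℝ → ℝ} {K B : ℝ} (hg : ∀ x, HasDerivAt g (exp (l x)) x)
    (hl : ∀ x y, |l x - l y| ≤ K * |x - y|) (hB : ∀ x, |g x| ≤ B) :
    (∃ M, ∀ x, exp (l x) ≤ M) ∧ ∀ ε > 0, ∃ R, ∀ x, R ≤ |x| → exp (l x) < ε := by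
  have hK : 0 ≤ K := by simpa using (abs_nonneg _).trans (hl 1 0)
  have key : ∀ x, exp (l x) ≤ exp K * (g (x + 1) - g x) := fun x => by
    obtain ⟨c, hc, e⟩ := exists_hasDerivAt_eq_slope g (fun x => exp (l x)) (lt_add_one x)
      (fun y _ => (hg y).continuousAt.continuousWithinAt) fun y _ => hg y
    rw [add_sub_cancel_left, div_one] at e
    rw [← e, ← exp_add]
    have h1 : |x - c| ≤ 1 := abs_le.2 ⟨by linarith [hc.2], by linarith [hc.1]⟩
    have h2 := (le_abs_self _).trans ((hl x c).trans (mul_le_mul_of_nonneg_left h1 hK))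
    exact exp_le_exp.2 (by linarith)
  have hm : Monotone g := monotone_of_deriv_nonneg (fun x => (hg x).differentiableAt)
    fun x => (hg x).deriv ▸ (exp_pos _).le
  have t1 := tendsto_atTop_ciSup hm ⟨B, forall_mem_range.2 fun x => (abs_le.1 (hB x)).2⟩
  have t2 := tendsto_atBot_ciInf hm ⟨-B, forall_mem_range.2 fun x => (abs_le.1 (hB x)).1⟩
  have s1 := ((t1.comp (tendsto_atTop_add_const_right _ 1 tendsto_id)).sub t1).const_mul (exp K)
  have s2 := ((t2.comp (tendsto_atBot_add_const_right _ 1 tendsto_id)).sub t2).const_mul (exp K)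
  rw [sub_self, mul_zero] at s1 s2
  refine ⟨⟨exp K * (B + B), fun x => (key x).trans (mul_le_mul_of_nonneg_left ?_ (exp_pos _).le)⟩,
    fun ε hε => ?_⟩
  · linarith [(abs_le.1 (hB x)).1, (abs_le.1 (hB (x + 1))).2]
  · obtain ⟨a, ha⟩ := eventually_atTop.1 (s1.eventually_lt_const hε)
    obtain ⟨b, hb⟩ := eventually_atBot.1 (s2.eventually_lt_const hε)
    refine ⟨max a (-b), fun x hx => (key x).trans_lt ?_⟩
    rcases le_abs.1 hx with h | h
    · exact ha x ((le_max_left _ _).trans h)
    · exact hb x (neg_le_neg_iff.1 ((le_max_right _ _).trans h))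

end Pool.Agent.PSF.CL
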