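import Pool.Agent.P.MP_7b7370_an.CLDefs

/-! Maximum principle in a strip. -/

set_option autoImplicit false

namespace Pool.Agent.PSF.CL

open Real Set MeasureTheory Filter Topology
open scoped ENNReal NNReal

theorem cfmax_re_cosh (w : ℂ) :
    (Complex.cosh (w / 2)).re = cosh (w.re / 2) * cos (w.im / 2) := by
  have e : w / 2 = ((w.re / 2 : ℝ) : ℂ) + ((w.im / 2 : ℝ) : ℂ) * Complex.I := by
    apply Complex.ext <;> simp
  rw [e, Complex.cosh_add, Complex.cosh_mul_I, Complex.sinh_mul_I, ← Complex.ofReal_cosh,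
    ← Complex.ofReal_cos, ← Complex.ofReal_sinh, ← Complex.ofReal_sin]
  simp only [Complex.add_re, Complex.mul_re, Complex.mul_im, Complex.ofReal_re, Complex.ofReal_im,
    Complex.I_re, Complex.I_im]
  ring

theorem cfmax_lower {b : ℝ} (hb' : b ≤ π / 2) {w : ℂ} (hw : w ∈ Sc b) :
    |w.re| / 4 ≤ cosh (w.re / 2) * cos (w.im / 2) := by
  have h1 : |w.re / 2| ≤ cosh (w.re / 2) := by
    rw [← cosh_abs]
    exact ((self_le_sinh_iff.2 (abs_nonneg _)).trans (sinh_lt_cosh _).le)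
  have h2 : 1 / 2 ≤ cos (w.im / 2) := by
    have h3 := one_sub_sq_div_two_le_cos (x := w.im / 2)
    have h4 : w.im ≤ 2 := by have := hw.2; have := pi_le_four; linarith
    have h5 := hw.1
    nlinarith
  rw [abs_div, abs_two] at h1
  have h6 := abs_nonneg w.re
  have h7 := cosh_pos (w.re / 2)
  nlinarith

theorem cfmax_compact (R b : ℝ) : IsCompact {w : ℂ | |w.re| ≤ R ∧ w ∈ Sc b} := by
  have e : {w : ℂ | |w.re| ≤ R ∧ w ∈ Sc b} = Icc (-R) R ×ℂ Icc 0 b := by
    ext w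
    simp only [mem_ofPred_eq, Sc, Complex.mem_reProdIm, mem_Icc, abs_le]
  rw [e]
  exact isCompact_Icc.reProdIm isCompact_Icc

theorem cfmax_eps {b M B ε : ℝ} (hε : 0 < ε) (hb' : b ≤ π / 2) {h : ℂ → ℂ} {u : ℂ → ℝ}
    (hd : DifferentiableOn ℂ h (St b)) (hu : ∀ w ∈ St b, u w = (h w).im)
    (hc : ContinuousOn u (Sc b)) (hB : ∀ w ∈ Sc b, u w ≤ B)
    (h0 : ∀ w ∈ Sc b, w.im = 0 ∨ w.im = b → u w ≤ M) {w0 : ℂ} (hw0 : w0 ∈ Sc b) :
    u w0 - ε * (cosh (w0.re / 2) * cos (w0.im / 2)) ≤ M := by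
  by_contra hcon
  rw [not_le] at hcon
  set v : ℂ → ℝ := fun w => u w - ε * (cosh (w.re / 2) * cos (w.im / 2)) with hv
  have hvc : ContinuousOn v (Sc b) := by
    refine hc.sub (Continuous.continuousOn ?_)
    fun_prop
  set R : ℝ := max |w0.re| (4 * (B - M) / ε) with hR
  have hR0 : 0 ≤ R := (abs_nonneg _).trans (le_max_left _ _)
  have hfar : ∀ w ∈ Sc b, R ≤ |w.re| → v w ≤ M := by
    intro w hw hRw
    have h1 := cfmax_lower hb' hw
    have h2 : 4 * (B - M) / ε ≤ |w.re| := (le_max_right _ _).trans hRw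
    rw [div_le_iff₀ hε] at h2
    have h3 := hB w hw
    have h4 := mul_le_mul_of_nonneg_left h1 hε.le
    simp only [hv]
    nlinarith
  obtain ⟨z, hz, hzm⟩ := (cfmax_compact R b).exists_isMaxOn ⟨w0, le_max_left _ _, hw0⟩
    (hvc.mono fun w hw => hw.2)
  have hzM : M < v z := hcon.trans_le (hzm ⟨le_max_left _ _, hw0⟩)
  have hall : ∀ w ∈ Sc b, v w ≤ v z := by
    intro w hw
    rcases le_total |w.re| R with h1 | h1
    · exact hzm ⟨h1, hw⟩
    · exact (hfar w hw h1).trans hzM.le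
  have hzS : z ∈ St b := by
    have h1 := cfmax_lower hb' hz.2
    have h2 := abs_nonneg z.re
    have h3 : 0 ≤ ε * (cosh (z.re / 2) * cos (z.im / 2)) := mul_nonneg hε.le (by linarith)
    have h4 : ¬ (z.im = 0 ∨ z.im = b) := by
      intro h5
      have := h0 z hz.2 h5
      simp only [hv] at hzM
      linarith
    rw [not_or] at h4
    exact ⟨lt_of_le_of_ne hz.2.1 (Ne.symm h4.1), lt_of_le_of_ne hz.2.2 h4.2⟩
  set g : ℂ → ℂ := fun w => Complex.exp (-Complex.I * h w - (ε : ℂ) * Complex.cosh (w / 2)) with hg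
  have hgn : ∀ w ∈ St b, ‖g w‖ = exp (v w) := by
    intro w hw
    simp only [hg, hv, Complex.norm_exp]
    congr 1
    rw [Complex.sub_re, Complex.re_ofReal_mul, cfmax_re_cosh, hu w hw]
    simp
  have hgd : DifferentiableOn ℂ g (St b) := by
    refine DifferentiableOn.cexp ((hd.const_mul _).sub (Differentiable.differentiableOn ?_))
    fun_prop
  have hmax : IsMaxOn (norm ∘ g) (St b) z := by
    intro w hw
    show ‖g w‖ ≤ ‖g z‖
    rw [hgn w hw, hgn z hzS]
    exact exp_le_exp.2 (hall w (St_subset_Sc b hw))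
  have heq := Complex.norm_eqOn_of_isPreconnected_of_isMaxOn (convex_St b).isPreconnected
    (isOpen_St b) hgd hzS hmax
  have hw1 : (⟨R, z.im⟩ : ℂ) ∈ St b := hzS
  have h5 : ‖g ⟨R, z.im⟩‖ = ‖g z‖ := heq hw1
  rw [hgn _ hw1, hgn z hzS, exp_eq_exp] at h5
  have h6 := hfar _ (St_subset_Sc b hw1) (by simp only [abs_of_nonneg hR0, le_refl])
  linarith

theorem max_strip {b M B : ℝ} (hb : 0 < b) (hb' : b ≤ π / 2) {h : ℂ → ℂ} {u : ℂ → ℝ}
    (hd : DifferentiableOn ℂ h (St b)) (hu : ∀ w ∈ St b, u w = (h w).im)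
    (hc : ContinuousOn u (Sc b)) (hB : ∀ w ∈ Sc b, u w ≤ B)
    (h0 : ∀ w ∈ Sc b, w.im = 0 ∨ w.im = b → u w ≤ M) : ∀ w ∈ Sc b, u w ≤ M := by
  intro w hw
  have _ := hb
  refine le_of_forall_pos_le_add fun δ hδ => ?_
  set c : ℝ := cosh (w.re / 2) * cos (w.im / 2) with hcdef
  have hc0 : 0 ≤ c := le_trans (by positivity) (cfmax_lower hb' hw)
  have h1 := cfmax_eps (ε := δ / (c + 1)) (by positivity) hb' hd hu hc hB h0 hw
  have h2 : δ / (c + 1) * c ≤ δ := by
    rw [div_mul_eq_mul_div, div_le_iff₀ (by positivity)]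
    nlinarith
  rw [← hcdef] at h1
  linarith

theorem im_le {ψ : ℂ → ℂ} (hd : DifferentiableOn ℂ ψ Sg) (hm : MapsTo ψ Sg Sg)
    (hr : ∀ x : ℝ, (ψ x).im = 0) {w : ℂ} (hw : w ∈ Sg) (h0 : 0 ≤ w.im) : (ψ w).im ≤ w.im := by
  have hw' : w.im < π / 2 := (le_abs_self _).trans_lt hw
  have key : ∀ b : ℝ, w.im < b → b < π / 2 → (ψ w).im - w.im ≤ π / 2 - b := by
    intro b h1 h2
    have hs := Sc_subset_Sg h2
    have hlt : ∀ z ∈ Sc b, (ψ z).im < π / 2 := fun z hz => (le_abs_self _).trans_lt (hm (hs hz))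
    refine max_strip (b := b) (M := π / 2 - b) (B := π / 2) (h := fun z => ψ z - z)
      (u := fun z => (ψ z).im - z.im) (h0.trans_lt h1) h2.le
      ((hd.mono ((St_subset_Sc b).trans hs)).sub differentiableOn_id)
      (fun z _ => (Complex.sub_im _ _).symm)
      ((Complex.continuous_im.comp_continuousOn (hd.continuousOn.mono hs)).sub
        Complex.continuous_im.continuousOn)
      (fun z hz => ?_) (fun z hz hz' => ?_) w ⟨h0, h1.le⟩
    · have := hlt z hz
      have := hz.1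
      linarith
    · rcases hz' with h3 | h3
      · have e : z = ((z.re : ℝ) : ℂ) := Complex.ext (by simp) (by simpa using h3)
        have h4 : (ψ z).im = 0 := by rw [e]; exact hr _
        simp only [h3, h4]
        linarith
      · have := hlt z hz
        simp only [h3]
        linarith
  by_contra hcon
  rw [not_le] at hcon
  have h1 := key (max ((w.im + π / 2) / 2) (π / 2 - ((ψ w).im - w.im) / 2))
    (lt_max_of_lt_left (by linarith)) (max_lt (by linarith) (by linarith))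
  have h2 := le_max_right ((w.im + π / 2) / 2) (π / 2 - ((ψ w).im - w.im) / 2)
  linarith

theorem re_const {b : ℝ} {h : ℂ → ℂ} (hd : DifferentiableOn ℂ h (St b))
    (h0 : ∀ w ∈ St b, (h w).im = 0) : ∃ c : ℝ, ∀ w ∈ St b, (h w).re = c := by
  rcases (St b).eq_empty_or_nonempty with he | hne
  · exact ⟨0, fun w hw => by rw [he] at hw; exact hw.elim⟩
  · obtain ⟨c, hc⟩ := (hd.analyticOnNhd (isOpen_St b)).eq_const_of_im_eq_const h0 (isOpen_St b)
      ⟨hne, (convex_St b).isPreconnected⟩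
    exact ⟨c.re, fun w hw => by rw [hc w hw]⟩

end Pool.Agent.PSF.CL
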