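import Pool.Agent.P.MP_7b7370_an.CFStrip
import Pool.Agent.P.MP_7b7370_an.CFMax

/-! Study trick. -/

set_option autoImplicit false

namespace Pool.Agent.PSF.CL

open Real Set MeasureTheory Filter Topology
open scoped ENNReal NNReal

variable {C : Set ℂ} {G Ψ : ℂ → ℂ}

theorem cfstudy_slope {φ : ℝ → ℝ} {D : ℝ} (hD : HasDerivAt φ D 0)
    (hle : ∀ s : ℝ, 0 ≤ s → s ≤ 1 → φ s ≤ φ 0) : D ≤ 0 := by
  refine le_of_tendsto hD.tendsto_slope_zero_right ?_
  filter_upwards [Ioo_mem_nhdsGT (zero_lt_one' ℝ)] with t ht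
  rw [zero_add, smul_eq_mul]
  exact mul_nonpos_of_nonneg_of_nonpos (inv_nonneg.mpr ht.1.le)
    (sub_nonpos.mpr (hle t ht.1.le ht.2.le))

theorem cfstudy_im {f : ℂ → ℂ} {f' z d : ℂ} {t : ℝ} (hf : HasDerivAt f f' (z + t * d)) :
    HasDerivAt (fun s : ℝ => (f (z + s * d)).im) (f' * d).im t := by
  have h1 : HasDerivAt (fun s : ℂ => z + s * d) d (t : ℂ) := by
    simpa using ((hasDerivAt_id (t : ℂ)).mul_const d).const_add z
  have h2 : HasDerivAt (fun s : ℂ => f (z + s * d)) (f' * d) (t : ℂ) := hf.comp (t : ℂ) h1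
  exact Complex.imCLM.hasFDerivAt.comp_hasDerivAt t h2.comp_ofReal

theorem cfstudy_add {w : ℂ} (hw : w ∈ Sg) (t : ℝ) : w + t ∈ Sg := by
  simpa [Sg] using hw

theorem cfstudy_conj {w : ℂ} (hw : w ∈ Sg) : (starRingEnd ℂ) w ∈ Sg := by
  simpa [Sg] using hw

theorem SM.study (ho : IsOpen C) (h : SM Sg C G Ψ) {a : ℂ → ℂ} (ha : DifferentiableOn ℂ a Sg)
    (hr : ∀ x : ℝ, (a x).im = 0)
    (hm : ∀ w ∈ Sg, ∀ s : ℝ, 0 ≤ s → s ≤ 1 → G w + s * (a w - G w) ∈ Om C)
    {w : ℂ} (hw : w ∈ Sg) (h0 : 0 ≤ w.im) : ((a w - G w) / deriv G w).im ≤ 0 := by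
  have key : ∀ s : ℝ, 0 ≤ s → s ≤ 1 → (Ψ (G w + s * (a w - G w))).im ≤ w.im := by
    intro s hs0 hs1
    refine im_le (ψ := fun w => Ψ (G w + s * (a w - G w))) ?_ ?_ ?_ hw h0
    · exact h.dΨ.comp (h.dG.add ((ha.sub h.dG).const_mul (s : ℂ)))
        (fun z hz => hm z hz s hs0 hs1)
    · exact fun z hz => h.mΨ (hm z hz s hs0 hs1)
    · intro x
      refine h.inv_real (hm x (ofReal_mem_Sg x) s hs0 hs1) ?_
      simp [hr x, h.im_real x]
  have hd : HasDerivAt Ψ (deriv G w)⁻¹ (G w + ((0 : ℝ) : ℂ) * (a w - G w)) := by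
    simpa using h.hasDerivAt_inv ho hw
  have := cfstudy_slope (cfstudy_im hd) (fun s hs0 hs1 => by
    simpa [h.left w hw] using key s hs0 hs1)
  rwa [div_eq_inv_mul]

theorem SM.study_pt (ho : IsOpen C) (hc : Convex ℝ C) (h : SM Sg C G Ψ) {x : ℝ}
    (hx : (x : ℂ) ∈ C) {w : ℂ} (hw : w ∈ Sg) (h0 : 0 ≤ w.im) :
    ((x - G w) / deriv G w).im ≤ 0 := by
  refine h.study ho (a := fun _ => (x : ℂ)) (differentiableOn_const _) (fun _ => by simp) ?_ hw h0
  intro z hz s hs0 hs1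
  have h1 : fo (G z) ∈ C := h.mG hz
  have h2 := hc.add_smul_sub_mem h1 hx ⟨hs0, hs1⟩
  have h3 : fo (G z + s * (x - G z)) = fo (G z) + s • ((x : ℂ) - fo (G z)) := by
    apply Complex.ext
    · simp [fo]
    · have e : (G z).im + s * -(G z).im = (1 - s) * (G z).im := by ring
      simp only [fo, Complex.add_im, Complex.mul_im, Complex.ofReal_re, Complex.ofReal_im,
        Complex.sub_im, Complex.smul_im, smul_eq_mul, zero_mul, add_zero, zero_sub]
      rw [e, abs_mul, abs_of_nonneg (sub_nonneg.mpr hs1)]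
      ring
  change fo _ ∈ C
  rw [h3]
  exact h2

theorem cfstudy_seg (hc : Convex ℝ C) (h : SM Sg C G Ψ) (t : ℝ) {z : ℂ} (hz : z ∈ Sg)
    (h0 : 0 ≤ z.im) {s : ℝ} (hs0 : 0 ≤ s) (hs1 : s ≤ 1) :
    G z + s * (G (z + t) - G z) ∈ Om C := by
  have h0' : 0 ≤ (z + t).im := by simpa using h0
  have h1 := h.mem hz h0
  have h2 := h.mem (cfstudy_add hz t) h0'
  have h3 := h.im_nonneg hz h0
  have h4 := h.im_nonneg (cfstudy_add hz t) h0'
  have h5 := hc.add_smul_sub_mem h1 h2 ⟨hs0, hs1⟩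
  rw [Complex.real_smul] at h5
  change fo _ ∈ C
  rw [fo_of_nonneg]
  · exact h5
  · simp only [Complex.add_im, Complex.mul_im, Complex.ofReal_re, Complex.ofReal_im,
      Complex.sub_im, zero_mul, add_zero]
    nlinarith [mul_nonneg hs0 h4, mul_nonneg (sub_nonneg.mpr hs1) h3]

theorem SM.study_two (ho : IsOpen C) (hc : Convex ℝ C) (h : SM Sg C G Ψ) {w : ℂ} (hw : w ∈ Sg)
    (h0 : 0 ≤ w.im) : (deriv (deriv G) w / deriv G w).im ≤ 0 := by
  have key : ∀ t : ℝ, ((G (w + t) - G w) / deriv G w).im ≤ 0 := by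
    intro t
    refine h.study ho (a := fun z => G (z + t)) ?_ ?_ ?_ hw h0
    · exact h.dG.comp (differentiableOn_id.add_const _) (fun z hz => cfstudy_add hz t)
    · intro x
      have := h.im_real (x + t)
      rwa [Complex.ofReal_add] at this
    · intro z hz s hs0 hs1
      rcases le_total 0 z.im with hz0 | hz0
      · exact cfstudy_seg hc h t hz hz0 hs0 hs1
      · have h1 := cfstudy_seg hc h t (cfstudy_conj hz) (by simpa using hz0) hs0 hs1
        have e : (starRingEnd ℂ) z + t = (starRingEnd ℂ) (z + t) := by simp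
        rw [e, h.cj z hz, h.cj _ (cfstudy_add hz t)] at h1
        change fo _ ∈ C at h1 ⊢
        rw [← fo_conj]
        simpa using h1
  have han : AnalyticOnNhd ℂ G Sg := h.dG.analyticOnNhd isOpen_Sg
  have hne := h.deriv_ne ho hw
  set φ : ℝ → ℝ := fun t => ((G (w + t * 1) - G w) / deriv G w).im with hφ
  have d1 : ∀ t : ℝ, HasDerivAt φ (deriv G (w + t * 1) / deriv G w).im t := by
    intro t
    have hz : w + t * 1 ∈ Sg := by simpa using cfstudy_add hw t
    have h1 := ((han _ hz).differentiableAt.hasDerivAt.sub_const (G w)).div_const (deriv G w)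
    have h2 := cfstudy_im h1
    rwa [mul_one (deriv G (w + t * 1) / deriv G w)] at h2
  have e1 : deriv φ = fun t : ℝ => (deriv G (w + t * 1) / deriv G w).im :=
    funext fun t => (d1 t).deriv
  have d2 : deriv (deriv φ) 0 = (deriv (deriv G) w / deriv G w).im := by
    have h1 : HasDerivAt (fun z => deriv G z / deriv G w) (deriv (deriv G) w / deriv G w)
        (w + ((0 : ℝ) : ℂ) * 1) := by
      simpa using (han.deriv w hw).differentiableAt.hasDerivAt.div_const (deriv G w)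
    rw [e1]
    simpa using (cfstudy_im h1).deriv
  by_contra hpos
  rw [not_le, ← d2] at hpos
  have hz : deriv φ 0 = 0 := by
    rw [e1]; simp [div_self hne]
  have hmin := isLocalMin_of_deriv_deriv_pos hpos hz (d1 0).continuousAt
  have hev : φ =ᶠ[𝓝 0] fun _ => (0 : ℝ) := by
    filter_upwards [hmin] with t ht
    have h1 : φ 0 = 0 := by simp [hφ]
    have h2 : φ t ≤ 0 := by simpa [hφ] using key t
    linarith
  rw [hev.deriv.deriv_eq] at hpos
  simp at hpos

end Pool.Agent.PSF.CL
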