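import Pool.Agent.P.MP_7b7370_an.CFLogA
import Pool.Agent.P.MP_7b7370_an.CFStudy

/-! The argument of the derivative. -/

set_option autoImplicit false

namespace Pool.Agent.PSF.CL

open Real Set MeasureTheory Filter Topology
open scoped ENNReal NNReal

variable {C : Set ℂ} {β γ : ℝ} {G Ψ F : ℂ → ℂ}

lemma cflog_im (s a : ℝ) (u : ℂ) :
    ((s : ℂ) * Complex.exp (a * Complex.I) / Complex.exp u).im =
      s * exp (-u.re) * sin (a - u.im) := by
  rw [mul_div_assoc, ← Complex.exp_sub, Complex.im_ofReal_mul, Complex.exp_im]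
  simp [mul_assoc]

lemma cflog_sin (hC : Cell C β γ) (h : SM Sg C G Ψ) (hF : LG G F) {w : ℂ} (hw : w ∈ Sg)
    (h0 : 0 < w.im) : 0 ≤ sin (β - (F w).im) ∧ 0 ≤ sin (γ + (F w).im) := by
  have hm := h.mem hw h0.le
  have hu := h.up w hw h0
  constructor
  · obtain ⟨s, x, hs, hx, e⟩ := hC.left _ hm hu
    have h1 := h.study_pt hC.op hC.cv hx hw h0.le
    have e1 : (x : ℂ) - G w = ((-s : ℝ) : ℂ) * Complex.exp (β * Complex.I) := by
      rw [← neg_sub, e]; push_cast; ring
    rw [e1, ← hF.ex w hw, cflog_im] at h1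
    have h2 : 0 < s * exp (-(F w).re) := mul_pos hs (exp_pos _)
    by_contra hn
    have := mul_pos h2 (neg_pos.mpr (not_le.mp hn))
    nlinarith
  · obtain ⟨s, x, hs, hx, e⟩ := hC.right _ hm hu
    have h1 := h.study_pt hC.op hC.cv hx hw h0.le
    have e1 : (x : ℂ) - G w = (s : ℂ) * Complex.exp (((-γ : ℝ) : ℂ) * Complex.I) := by
      rw [e]; push_cast; ring
    rw [e1, ← hF.ex w hw, cflog_im] at h1
    have h2 : 0 < s * exp (-(F w).re) := mul_pos hs (exp_pos _)
    have e2 : -γ - (F w).im = -(γ + (F w).im) := by ring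
    rw [e2, sin_neg] at h1
    by_contra hn
    have := mul_pos h2 (neg_pos.mpr (not_le.mp hn))
    linarith

lemma cflog_mem {x y : ℝ} (h0 : 0 ≤ y) (h1 : y < π / 2) : (⟨x, y⟩ : ℂ) ∈ Sg := by
  show |y| < π / 2
  rwa [abs_of_nonneg h0]

theorem LG.im_mem (hC : Cell C β γ) (h : SM Sg C G Ψ) (hF : LG G F) {w : ℂ} (hw : w ∈ Sg)
    (h0 : 0 ≤ w.im) : -γ ≤ (F w).im ∧ (F w).im ≤ β := by
  have hw1 : w.im < π / 2 := lt_of_le_of_lt (le_abs_self _) hw
  have hβ := hC.hβ
  have hγ := hC.hγ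
  have hπ := pi_pos
  let φ : ℝ → ℝ := fun y => (F ⟨w.re, y⟩).im
  have hl : Continuous fun y : ℝ => (⟨w.re, y⟩ : ℂ) := by
    have : (fun y : ℝ => (⟨w.re, y⟩ : ℂ)) = fun y : ℝ => (w.re : ℂ) + y * Complex.I := by
      funext y; apply Complex.ext <;> simp
    rw [this]; fun_prop
  have hc : ContinuousOn φ (Icc 0 w.im) :=
    Complex.continuous_im.comp_continuousOn (hF.dF.continuousOn.comp hl.continuousOn
      fun y hy => cflog_mem hy.1 (hy.2.trans_lt hw1))
  have hz : φ 0 = 0 := hF.im_real w.re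
  have he : φ w.im = (F w).im := rfl
  have key : ∀ y ∈ Icc 0 w.im, φ y ≠ 0 → 0 ≤ sin (β - φ y) ∧ 0 ≤ sin (γ + φ y) := by
    intro y hy hn
    have hy0 : 0 < y := lt_of_le_of_ne hy.1 fun e => hn (e ▸ hz)
    exact cflog_sin hC h hF (cflog_mem hy.1 (hy.2.trans_lt hw1)) hy0
  constructor
  · by_contra hn
    have hn := not_le.mp hn
    have hv1 : max (F w).im (-γ - π / 2) < -γ := max_lt hn (by linarith)
    have hv2 : -γ - π / 2 ≤ max (F w).im (-γ - π / 2) := le_max_right _ _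
    obtain ⟨y, hy, e⟩ := intermediate_value_Icc' h0 hc
      (show max (F w).im (-γ - π / 2) ∈ Icc (φ w.im) (φ 0) from
        ⟨le_max_left _ _, by rw [hz]; linarith⟩)
    have h1 := (key y hy (by rw [e]; linarith)).2
    rw [e] at h1
    exact absurd h1 (not_le.mpr (sin_neg_of_neg_of_neg_pi_lt (by linarith) (by linarith)))
  · by_contra hn
    have hn := not_le.mp hn
    have hv1 : β < min (F w).im (β + π / 2) := lt_min hn (by linarith)
    have hv2 : min (F w).im (β + π / 2) ≤ β + π / 2 := min_le_right _ _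
    obtain ⟨y, hy, e⟩ := intermediate_value_Icc h0 hc
      (show min (F w).im (β + π / 2) ∈ Icc (φ 0) (φ w.im) from
        ⟨by rw [hz]; linarith, min_le_left _ _⟩)
    have h1 := (key y hy (by rw [e]; linarith)).1
    rw [e] at h1
    exact absurd h1 (not_le.mpr (sin_neg_of_neg_of_neg_pi_lt (by linarith) (by linarith)))

theorem LG.abs_im (hC : Cell C β γ) (h : SM Sg C G Ψ) (hF : LG G F) {w : ℂ} (hw : w ∈ Sg) :
    |(F w).im| ≤ π := by
  have hβ := hC.hβ
  have hγ := hC.hγ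
  have hl := hC.lt
  rcases le_total 0 w.im with h0 | h0
  · have := hF.im_mem hC h hw h0
    exact abs_le.mpr ⟨by linarith [this.1], by linarith [this.2]⟩
  · have hw' : (starRingEnd ℂ) w ∈ Sg := by
      show |((starRingEnd ℂ) w).im| < π / 2
      rw [Complex.conj_im, abs_neg]; exact hw
    have := hF.im_mem hC h hw' (by rw [Complex.conj_im]; linarith)
    rw [hF.cj w hw, Complex.conj_im] at this
    exact abs_le.mpr ⟨by linarith [this.2], by linarith [this.1]⟩

lemma cflog_deriv (hF : LG G F) {w : ℂ} (hw : w ∈ Sg) :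
    HasDerivAt F (deriv (deriv G) w / deriv G w) w := by
  have hn : Sg ∈ 𝓝 w := isOpen_Sg.mem_nhds hw
  have h1 : HasDerivAt F (deriv F w) w := (hF.dF.differentiableAt hn).hasDerivAt
  have h2 : HasDerivAt (deriv G) (Complex.exp (F w) * deriv F w) w :=
    h1.cexp.congr_of_eventuallyEq (Filter.mem_of_superset hn fun z hz => (hF.ex z hz).symm)
  rw [h2.deriv, ← hF.ex w hw, mul_div_cancel_left₀ _ (Complex.exp_ne_zero _)]
  exact h1

theorem LG.anti (hC : Cell C β γ) (h : SM Sg C G Ψ) (hF : LG G F) {y : ℝ} (h0 : 0 ≤ y)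
    (h1 : y < π / 2) : Antitone fun x : ℝ => (F ⟨x, y⟩).im := by
  have e : ∀ x : ℝ, (⟨x, y⟩ : ℂ) = (x : ℂ) + y * Complex.I := fun x => by
    apply Complex.ext <;> simp
  have hd : ∀ x : ℝ, HasDerivAt (fun x : ℝ => (F ⟨x, y⟩).im)
      (deriv (deriv G) ⟨x, y⟩ / deriv G ⟨x, y⟩).im x := by
    intro x
    have h2 := cflog_deriv hF (cflog_mem (x := x) h0 h1)
    have h3 : HasDerivAt (fun z : ℂ => F (z + y * Complex.I))
        (deriv (deriv G) ⟨x, y⟩ / deriv G ⟨x, y⟩) (x : ℂ) := by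
      refine HasDerivAt.comp_add_const (x : ℂ) (y * Complex.I) ?_
      rw [← e]; exact h2
    have h4 := Complex.imCLM.hasFDerivAt.comp_hasDerivAt x h3.comp_ofReal
    refine h4.congr_of_eventuallyEq (Filter.Eventually.of_forall fun t => ?_)
    show (F ⟨t, y⟩).im = (F (t + y * Complex.I)).im
    rw [e]
  refine antitone_of_hasDerivAt_nonpos hd fun x => ?_
  exact h.study_two hC.op hC.cv (cflog_mem h0 h1) h0

end Pool.Agent.PSF.CL
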