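import Pool.Agent.P.MP_7b7370_an.CLDefs

/-! The doubled domain. -/

set_option autoImplicit false

namespace Pool.Agent.PSF.CL

open Real Set MeasureTheory Filter Topology
open scoped ENNReal NNReal

variable {C : Set ℂ} {β γ : ℝ}

theorem cftop_star (h : Cell C β γ) {x : ℝ} (hx : (x : ℂ) ∈ C) :
    StarConvex ℝ (x : ℂ) (Om C) := by
  intro y hy a b ha hb hab
  have e : fo (a • (x : ℂ) + b • y) = a • (x : ℂ) + b • fo y := by
    apply Complex.ext <;> simp [fo, abs_mul, abs_of_nonneg hb]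
  change fo _ ∈ C
  rw [e]
  exact h.cv hx hy ha hb hab

theorem cftop_base {x : ℝ} (hx : (x : ℂ) ∈ C) : (x : ℂ) ∈ Om C := by
  change fo _ ∈ C
  rwa [fo_of_nonneg (by simp)]

theorem cftop_compl {S : Set ℂ} {x : ℂ} (hx : x ∈ S) (hs : StarConvex ℝ x S)
    (hb : Bornology.IsBounded S) : IsPreconnected Sᶜ := by
  obtain ⟨R, hR, hS⟩ := hb.subset_ball_lt 0 x
  have hout : ∀ w : ℂ, R ≤ ‖w - x‖ → w ∉ S := fun w hw h => by
    have := mem_ball_iff_norm.1 (hS h)
    linarith
  refine isPreconnected_of_forall (x + R) fun z hz => ?_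
  have hzx : z - x ≠ 0 := fun h => hz (by rw [sub_eq_zero.1 h]; exact hx)
  have hn : 0 < ‖z - x‖ := norm_pos_iff.2 hzx
  have hnorm : ∀ t : ℝ, 0 ≤ t → ‖x + t • (z - x) - x‖ = t * ‖z - x‖ := fun t ht => by
    rw [add_sub_cancel_left, norm_smul, Real.norm_of_nonneg ht]
  refine ⟨Metric.sphere x R ∪ (fun t : ℝ => x + t • (z - x)) '' Ici (min 1 (R / ‖z - x‖)),
    ?_, Or.inl ?_, Or.inr ⟨1, mem_Ici.2 (min_le_left _ _), by simp⟩, ?_⟩
  · rintro w (hw | ⟨t, ht, rfl⟩)
    · exact hout w (mem_sphere_iff_norm.1 hw).ge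
    · rcases min_le_iff.1 (mem_Ici.1 ht) with h1 | h1
      · intro hw
        have ht0 : 0 < t := by linarith
        have h2 := hs hw (a := 1 - t⁻¹) (b := t⁻¹)
          (sub_nonneg.2 (inv_le_one_of_one_le₀ h1)) (by positivity) (by ring)
        have e : (1 - t⁻¹) • x + t⁻¹ • (x + t • (z - x)) = z := by
          rw [smul_add, smul_smul, inv_mul_cancel₀ ht0.ne', one_smul, sub_smul, one_smul]
          abel
        exact hz (e ▸ h2)
      · apply hout
        have ht0 : 0 ≤ t := le_trans (by positivity) h1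
        rw [hnorm t ht0]
        exact (div_le_iff₀ hn).1 h1
  · rw [mem_sphere_iff_norm, add_sub_cancel_left, Complex.norm_real, Real.norm_of_nonneg hR.le]
  · refine IsPreconnected.union (x + (R / ‖z - x‖) • (z - x)) ?_
      ⟨R / ‖z - x‖, mem_Ici.2 (min_le_right _ _), rfl⟩
      (isPreconnected_sphere (by rw [Complex.rank_real_complex]; norm_num) x R)
      (isPreconnected_Ici.image _ (by fun_prop))
    rw [mem_sphere_iff_norm, hnorm _ (by positivity), div_mul_cancel₀ _ hn.ne']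

theorem Cell.preconn (h : Cell C β γ) : IsPreconnected (Om C) := by
  obtain ⟨x, hx⟩ := h.base
  exact ((cftop_star h hx).isPathConnected (cftop_base hx)).isConnected.isPreconnected

theorem Cell.bdd (h : Cell C β γ) : Bornology.IsBounded (Om C) := by
  obtain ⟨R, hR⟩ := isBounded_iff_forall_norm_le.1 h.bd
  refine isBounded_iff_forall_norm_le.2 ⟨R + 1, fun z hz => ?_⟩
  have e : ‖fo z‖ = ‖z‖ := by
    rw [Complex.norm_eq_sqrt_sq_add_sq, Complex.norm_eq_sqrt_sq_add_sq]
    simp [fo]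
  obtain ⟨ε, hε, hb⟩ := Metric.isOpen_iff.1 h.op _ hz
  have hd : 0 < min (ε / 2) 1 := lt_min (by linarith) one_pos
  have hn : ‖((min (ε / 2) 1 : ℝ) : ℂ) * Complex.I‖ = min (ε / 2) 1 := by
    rw [norm_mul, Complex.norm_I, mul_one, Complex.norm_real, Real.norm_of_nonneg hd.le]
  have h1 : fo z + ((min (ε / 2) 1 : ℝ) : ℂ) * Complex.I ∈ C := by
    apply hb
    rw [mem_ball_iff_norm, add_sub_cancel_left, hn]
    exact lt_of_le_of_lt (min_le_left _ _) (by linarith)
  have h2 : 0 < (fo z + ((min (ε / 2) 1 : ℝ) : ℂ) * Complex.I).im := by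
    have h3 : (fo z + ((min (ε / 2) 1 : ℝ) : ℂ) * Complex.I).im = |z.im| + min (ε / 2) 1 := by
      rw [Complex.add_im, Complex.mul_I_im, Complex.ofReal_re]; rfl
    rw [h3]
    exact add_pos_of_nonneg_of_pos (abs_nonneg _) hd
  have h4 := hR _ ⟨h1, h2⟩
  have h5 := norm_sub_le (fo z + ((min (ε / 2) 1 : ℝ) : ℂ) * Complex.I)
    (((min (ε / 2) 1 : ℝ) : ℂ) * Complex.I)
  rw [add_sub_cancel_right, hn, e] at h5
  have := min_le_right (ε / 2) 1
  linarith

theorem Cell.compl (h : Cell C β γ) : IsPreconnected (Om C)ᶜ := by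
  obtain ⟨x, hx⟩ := h.base
  exact cftop_compl (cftop_base hx) (cftop_star h hx) h.bdd

end Pool.Agent.PSF.CL
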