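import Pool.Agent.P.MP_7b7370_an.CFBndA
import Pool.Agent.P.MP_7b7370_an.CFBndC
import Pool.Agent.P.MP_7b7370_an.CFLog
import Pool.Agent.P.MP_7b7370_an.CFTop

/-! The map is Lipschitz on substrips; supports pull back to boxes. -/

set_option autoImplicit false

namespace Pool.Agent.PSF.CL

open Real Set MeasureTheory Filter Topology
open scoped ENNReal NNReal

variable {C : Set ℂ} {β γ : ℝ} {G Ψ F : ℂ → ℂ}

theorem cfbndb_real {b : ℝ} (hb0 : 0 < b) (x : ℝ) : (x : ℂ) ∈ Sc b :=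
  ⟨by simp, by simpa using hb0.le⟩

theorem cfbndb_norm {b : ℝ} {w : ℂ} (hw : w ∈ Sc b) : ‖w - (w.re : ℂ)‖ = w.im := by
  have : w - (w.re : ℂ) = (w.im : ℂ) * Complex.I := by
    apply Complex.ext <;> simp
  rw [this, norm_mul, Complex.norm_I, mul_one, Complex.norm_real, Real.norm_eq_abs,
    abs_of_nonneg hw.1]

theorem cfbndb_seg (h : SM Sg C G Ψ) {b : ℝ} (hb0 : 0 < b) (hb : b < π / 2) {w : ℂ}
    (hw : w ∈ Sc b) {M : ℝ} (hM : ∀ u ∈ Sc b, u.re = w.re → ‖deriv G u‖ ≤ M) :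
    ‖G w - G w.re‖ ≤ M * w.im := by
  have hc : Convex ℝ (Sc b ∩ ({u : ℂ | u.re ≤ w.re} ∩ {u : ℂ | w.re ≤ u.re})) :=
    (convex_Sc b).inter ((convex_halfSpace_re_le _).inter (convex_halfSpace_re_ge _))
  have := hc.norm_image_sub_le_of_norm_deriv_le (f := G) (C := M)
    (fun u hu => h.dG.differentiableAt (isOpen_Sg.mem_nhds (Sc_subset_Sg hb hu.1)))
    (fun u hu => hM u hu.1 (le_antisymm hu.2.1 hu.2.2))
    (x := (w.re : ℂ)) (y := w) ⟨cfbndb_real hb0 _, by simp, by simp⟩ ⟨hw, by simp, by simp⟩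
  rwa [cfbndb_norm hw] at this

theorem LG.deriv_bd (hC : Cell C β γ) (h : SM Sg C G Ψ) (hF : LG G F) {b : ℝ} (hb0 : 0 < b)
    (hb : b < π / 2) : (∃ M, ∀ w ∈ Sc b, ‖deriv G w‖ ≤ M) ∧
      ∀ ε > 0, ∃ R, ∀ w ∈ Sc b, R ≤ |w.re| → ‖deriv G w‖ < ε := by
  obtain ⟨K, hK0, hK⟩ := lip_of_abs_im hF.dF (fun w hw => LG.abs_im hC h hF hw) hb
  obtain ⟨B, hB⟩ := hC.bdd.exists_norm_le
  have hg : ∀ x : ℝ, HasDerivAt (fun x : ℝ => (G x).re) (exp (F x).re) x := fun x => by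
    have h1 := (h.dG.differentiableAt (isOpen_Sg.mem_nhds (ofReal_mem_Sg x))).hasDerivAt
    have h2 := h1.real_of_complex
    rwa [← hF.ex _ (ofReal_mem_Sg x), Complex.exp_re, hF.im_real x, cos_zero, mul_one] at h2
  have hl : ∀ x y : ℝ, |(F x).re - (F y).re| ≤ K * |x - y| := fun x y => by
    have h1 := hK x (cfbndb_real hb0 x) y (cfbndb_real hb0 y)
    rw [← Complex.ofReal_sub, Complex.norm_real, Real.norm_eq_abs] at h1
    rw [← Complex.sub_re]
    exact (Complex.abs_re_le_norm _).trans h1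
  have hb' : ∀ x : ℝ, |(G x).re| ≤ B := fun x =>
    (Complex.abs_re_le_norm _).trans (hB _ (h.mG (ofReal_mem_Sg x)))
  obtain ⟨⟨M, hM⟩, hs⟩ := deriv_small (l := fun x : ℝ => (F x).re) hg hl hb'
  have key : ∀ w ∈ Sc b, ‖deriv G w‖ ≤ exp (F w.re).re * exp (K * b) := fun w hw => by
    rw [← hF.ex _ (Sc_subset_Sg hb hw), Complex.norm_exp, ← exp_add, exp_le_exp]
    have h1 := hK w hw w.re (cfbndb_real hb0 _)
    rw [cfbndb_norm hw] at h1
    have h2 := (Complex.re_le_norm _).trans h1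
    rw [Complex.sub_re] at h2
    have h3 := mul_le_mul_of_nonneg_left hw.2 hK0
    linarith
  refine ⟨⟨M * exp (K * b), fun w hw => (key w hw).trans
    (mul_le_mul_of_nonneg_right (hM _) (exp_pos _).le)⟩, fun ε hε => ?_⟩
  obtain ⟨R, hR⟩ := hs (ε / exp (K * b)) (div_pos hε (exp_pos _))
  exact ⟨R, fun w hw hr => (key w hw).trans_lt ((lt_div_iff₀ (exp_pos _)).1 (hR _ hr))⟩

theorem LG.lip (hC : Cell C β γ) (h : SM Sg C G Ψ) (hF : LG G F) {b : ℝ} (hb0 : 0 < b)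
    (hb : b < π / 2) : ∃ K, LipschitzOnWith K G (Sc b) := by
  obtain ⟨M, hM⟩ := (LG.deriv_bd hC h hF hb0 hb).1
  refine ⟨M.toNNReal, (convex_Sc b).lipschitzOnWith_of_nnnorm_deriv_le
    (fun u hu => h.dG.differentiableAt (isOpen_Sg.mem_nhds (Sc_subset_Sg hb hu)))
    fun u hu => ?_⟩
  rw [← NNReal.coe_le_coe, coe_nnnorm]
  exact (hM u hu).trans (Real.le_coe_toNNReal M)

theorem LG.box (hC : Cell C β γ) (h : SM Sg C G Ψ) (hF : LG G F) {b : ℝ} (hb0 : 0 < b)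
    (hb : b < π / 2) {K : Set ℂ} (hK : IsCompact K) (hd : ∀ z ∈ closure C, z.im = 0 → z ∉ K) :
    ∃ R δ : ℝ, 0 < δ ∧ ∀ w ∈ Sc b, G w ∈ K → |w.re| < R ∧ δ < w.im := by
  obtain ⟨⟨M, hM⟩, hs⟩ := LG.deriv_bd hC h hF hb0 hb
  have hZ : IsClosed (closure C ∩ {z : ℂ | z.im = 0}) :=
    isClosed_closure.inter (isClosed_eq Complex.continuous_im continuous_const)
  obtain ⟨d, hd0, hdK⟩ := hK.exists_thickening_subset_open hZ.isOpen_compl
    (fun z hz hz' => hd z hz'.1 hz'.2 hz)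
  have far : ∀ w ∈ Sc b, G w ∈ K → d ≤ ‖G w - G w.re‖ := fun w _ hw => by
    by_contra hlt
    refine hdK (Metric.mem_thickening_iff.2 ⟨G w, hw, ?_⟩)
      ⟨subset_closure (h.mem (ofReal_mem_Sg w.re) (by simp)), h.im_real _⟩
    rw [dist_comm, dist_eq_norm]
    exact not_le.1 hlt
  obtain ⟨R, hR⟩ := hs (d / (2 * b)) (by positivity)
  have hM1 : 0 < max M 1 := lt_max_of_lt_right one_pos
  refine ⟨R, d / (2 * max M 1), by positivity, fun w hw hk => ⟨?_, ?_⟩⟩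
  · by_contra hr
    have h1 := cfbndb_seg h hb0 hb hw (M := d / (2 * b))
      fun u hu e => (hR u hu (by rw [e]; exact not_lt.1 hr)).le
    have h2 := mul_le_mul_of_nonneg_left hw.2 (show 0 ≤ d / (2 * b) by positivity)
    have h3 : d / (2 * b) * b = d / 2 := by field_simp
    have h4 := far w hw hk
    linarith
  · have h1 := cfbndb_seg h hb0 hb hw (M := max M 1)
      fun u hu _ => (hM u hu).trans (le_max_left _ _)
    have h4 := far w hw hk
    rw [div_lt_iff₀ (by positivity)]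
    nlinarith

end Pool.Agent.PSF.CL
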