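import Pool.Agent.P.MP_7b7370_an.CLDefs

/-! The angles of a cell. -/

set_option autoImplicit false

namespace Pool.Agent.PSF.CL

open Real Set MeasureTheory Filter Topology
open scoped ENNReal NNReal

theorem cfcell_im (z : ℂ) (s t : ℝ) :
    (z + (s : ℂ) * Complex.exp ((t : ℂ) * Complex.I)).im = z.im + s * sin t := by
  rw [Complex.add_im, Complex.im_ofReal_mul, Complex.exp_ofReal_mul_I_im]

theorem cfcell_sin {C : Set ℂ} {a b : ℝ} (hR : Rec C a b)
    (hb : Bornology.IsBounded (C ∩ {z | 0 < z.im})) (hne : (C ∩ {z | 0 < z.im}).Nonempty)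
    {t : ℝ} (ht : t ∈ Icc a b) : sin t < 0 := by
  by_contra h
  obtain ⟨z, hz, hz'⟩ := hne
  obtain ⟨R, hR0, hR1⟩ := hb.exists_pos_norm_le
  have s0 : 0 ≤ R + ‖z‖ + 1 := by positivity
  have h1 := hR1 _ ⟨hR z hz t ht _ s0, by
    show 0 < Complex.im _
    rw [cfcell_im]
    exact add_pos_of_pos_of_nonneg hz' (mul_nonneg s0 (not_lt.1 h))⟩
  have h2 := norm_sub_le (z + ((R + ‖z‖ + 1 : ℝ) : ℂ) * Complex.exp ((t : ℂ) * Complex.I)) z
  rw [add_sub_cancel_left, norm_mul, Complex.norm_exp_ofReal_mul_I, mul_one, Complex.norm_real,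
    Real.norm_of_nonneg s0] at h2
  linarith

theorem cfcell_ray {C : Set ℂ} {a b t : ℝ} (hR : Rec C a b) (ht : t ∈ Icc a b) (hs : sin t < 0)
    {z : ℂ} (hz : z ∈ C) (h0 : 0 < z.im) : ∃ s x : ℝ, 0 < s ∧ (x : ℂ) ∈ C ∧
      x - z = s * Complex.exp (t * Complex.I) := by
  have s0 : 0 < z.im / -sin t := div_pos h0 (neg_pos.2 hs)
  have e : (((z + ((z.im / -sin t : ℝ) : ℂ) * Complex.exp ((t : ℂ) * Complex.I)).re : ℝ) : ℂ) =
      z + ((z.im / -sin t : ℝ) : ℂ) * Complex.exp ((t : ℂ) * Complex.I) := by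
    refine Complex.ext (Complex.ofReal_re _) ?_
    have := hs.ne
    rw [Complex.ofReal_im, cfcell_im]
    field_simp
    ring
  refine ⟨_, _, s0, e ▸ hR z hz t ht _ s0.le, ?_⟩
  rw [e, add_sub_cancel_left]

theorem exists_cell {C : Set ℂ} {a b : ℝ} (ho : IsOpen C) (hc : Convex ℝ C) (hab : a < b) (hR : Rec C a b)
    (hb : Bornology.IsBounded (C ∩ {z | 0 < z.im})) (hne : (C ∩ {z | 0 < z.im}).Nonempty) :
    ∃ β γ, Cell C β γ ∧ β + γ = π - (b - a) := by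
  have hs : ∀ t ∈ Icc a b, sin t < 0 := fun t ht => cfcell_sin hR hb hne ht
  have ha : a ∈ Icc a b := left_mem_Icc.2 hab.le
  have hb' : b ∈ Icc a b := right_mem_Icc.2 hab.le
  obtain ⟨m, h1, h2⟩ : ∃ m : ℤ, -π < a - m * (2 * π) ∧ a - m * (2 * π) ≤ π := by
    have h3 := toIocMod_mem_Ioc two_pi_pos (-π) a
    rw [toIocMod, zsmul_eq_mul] at h3
    exact ⟨_, h3.1, by linarith [h3.2]⟩
  have h3 : a - m * (2 * π) < 0 := by
    by_contra h4
    have h5 := sin_nonneg_of_nonneg_of_le_pi (not_lt.1 h4) h2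
    rw [sin_sub_int_mul_two_pi] at h5
    linarith [hs a ha]
  have h4 : b - m * (2 * π) < 0 := by
    by_contra h5
    have h6 := hs (m * (2 * π)) ⟨by linarith, by linarith⟩
    have h7 := sin_add_int_mul_two_pi 0 m
    rw [zero_add, sin_zero] at h7
    linarith
  have e0 : ∀ t : ℝ, Complex.exp (((t - m * (2 * π) : ℝ) : ℂ) * Complex.I) =
      Complex.exp (t * Complex.I) := by
    intro t
    rw [← Complex.exp_mul_I_periodic.sub_int_mul_eq m (x := (t : ℂ))]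
    push_cast
    rfl
  refine ⟨a - m * (2 * π) + π, -(b - m * (2 * π)), ⟨ho, hc, hb, ?_, by linarith, by linarith,
    by linarith, fun z hz h0 => ?_, fun z hz h0 => ?_⟩, by ring⟩
  · obtain ⟨z, hz, h0⟩ := hne
    obtain ⟨s, x, -, hx, -⟩ := cfcell_ray hR ha (hs a ha) hz h0
    exact ⟨x, hx⟩
  · obtain ⟨s, x, s0, hx, e⟩ := cfcell_ray hR ha (hs a ha) hz h0
    refine ⟨s, x, s0, hx, ?_⟩
    rw [Complex.ofReal_add, add_mul, Complex.exp_add, e0, Complex.exp_pi_mul_I, ← neg_sub, e]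
    ring
  · obtain ⟨s, x, s0, hx, e⟩ := cfcell_ray hR hb' (hs b hb') hz h0
    refine ⟨s, x, s0, hx, ?_⟩
    rw [Complex.ofReal_neg, neg_neg, e0, e]

end Pool.Agent.PSF.CL
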