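import Pool.Agent.P.MP_7b7370_an.CLDefs

/-! Holomorphic change of variables. -/

set_option autoImplicit false

namespace Pool.Agent.PSF.CL

open Real Set MeasureTheory Filter Topology
open scoped ENNReal NNReal

theorem cfchg_det (a : ℂ) : (a • (1 : ℂ →L[ℝ] ℂ)).det = ‖a‖ ^ 2 := by
  rw [ContinuousLinearMap.det, ← LinearMap.det_toMatrix Complex.basisOneI, Matrix.det_fin_two]
  simp [LinearMap.toMatrix_apply, Complex.sq_norm, Complex.normSq_apply]

theorem lint_image {f : ℂ → ℂ} {D : Set ℂ} (hD : IsOpen D) (hd : DifferentiableOn ℂ f D)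
    (hi : InjOn f D) (g : ℂ → ℝ≥0∞) :
    ∫⁻ z in f '' D, g z = ∫⁻ w in D, ENNReal.ofReal (‖deriv f w‖ ^ 2) * g (f w) := by
  rw [lintegral_image_eq_lintegral_abs_det_fderiv_mul volume hD.measurableSet
    (f' := fun w => deriv f w • (1 : ℂ →L[ℝ] ℂ)) (fun w hw =>
      ((hd.differentiableAt (hD.mem_nhds hw)).hasDerivAt.complexToReal_fderiv).hasFDerivWithinAt)
    hi g]
  refine lintegral_congr fun w => ?_
  rw [cfchg_det, abs_of_nonneg (sq_nonneg _)]

theorem lint_ka (g : ℂ → ℝ≥0∞) : ∫⁻ w in St (π / 2), g w = ∫⁻ p in Sig, g (ka p) := by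
  let e : ℝ × ℝ ≃ᵐ ℂ :=
    (MeasurableEquiv.prodCongr (MeasurableEquiv.refl ℝ) (MeasurableEquiv.subLeft (π / 2))).trans
      Complex.measurableEquivRealProd.symm
  have he : ∀ p, e p = ka p := fun p => rfl
  have h1 : MeasurePreserving
      (MeasurableEquiv.prodCongr (MeasurableEquiv.refl ℝ) (MeasurableEquiv.subLeft (π / 2)))
      (volume : Measure (ℝ × ℝ)) volume :=
    (MeasurePreserving.id (volume : Measure ℝ)).prod
      (Measure.measurePreserving_sub_left volume (π / 2))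
  have h2 : MeasurePreserving e volume volume :=
    (Complex.volume_preserving_equiv_real_prod.symm _).comp h1
  rw [← h2.setLIntegral_comp_preimage_emb e.measurableEmbedding g (St (π / 2))]
  have h3 : e ⁻¹' St (π / 2) = Sig := by
    ext p
    simp only [mem_preimage, he, St, ka, Sig, mem_ofPred_eq, mem_prod, mem_univ, true_and, mem_Ioo]
    constructor <;> rintro ⟨a, b⟩ <;> constructor <;> linarith
  rw [h3]
  rfl

theorem ka_mem {p : ℝ × ℝ} (hp : p ∈ Sig) : ka p ∈ St (π / 2) := by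
  obtain ⟨_, a, b⟩ := hp
  constructor
  · show 0 < π / 2 - p.2
    linarith
  · show π / 2 - p.2 < π / 2
    linarith

theorem cfchg_rep (L : ℂ →L[ℝ] ℝ) (z : ℂ) : L z = z.re * L 1 + z.im * L Complex.I := by
  have : z = z.re • (1 : ℂ) + z.im • Complex.I := by
    apply Complex.ext <;> simp
  conv_lhs => rw [this]
  rw [map_add, map_smul, map_smul, smul_eq_mul, smul_eq_mul]

theorem cfchg_norm (L : ℂ →L[ℝ] ℝ) : ‖L‖ ^ 2 = L 1 ^ 2 + L Complex.I ^ 2 := by
  let v : ℂ := ⟨L 1, L Complex.I⟩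
  have hv : L = innerSL ℝ v := by
    ext z
    rw [cfchg_rep L z]
    simp [v, Complex.inner]
  have : ‖L‖ = ‖v‖ := by
    conv_lhs => rw [hv]
    exact innerSL_apply_norm ℝ v
  rw [this, Complex.sq_norm, Complex.normSq_apply]
  simp only [v]
  ring

theorem norm_sq_clm (L : ℂ →L[ℝ] ℝ) (a : ℂ) :
    L a ^ 2 + L (-Complex.I * a) ^ 2 = ‖a‖ ^ 2 * ‖L‖ ^ 2 := by
  have h := cfchg_rep L
  rw [cfchg_norm, h a, h (-Complex.I * a), Complex.sq_norm, Complex.normSq_apply]
  simp only [Complex.mul_re, Complex.mul_im, Complex.neg_re, Complex.neg_im, Complex.I_re,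
    Complex.I_im]
  ring

end Pool.Agent.PSF.CL
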