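import Pool.Agent.P.MP_7b7370_an.CLDefs

/-! Difference quotients and energies. -/

set_option autoImplicit false

namespace Pool.Agent.PSF.CL

open Real Set MeasureTheory Filter Topology
open scoped ENNReal NNReal

variable {U : ℝ × ℝ → ℝ} {e : ℝ≥0∞}

theorem cldq_lip {K : ℝ≥0} (hU : LipschitzWith K U) :
    LipschitzWith K fun w : ℝ × ℝ => U w.swap :=
  LipschitzWith.of_dist_le_mul fun x y => (hU.dist_le_mul x.swap y.swap).trans_eq (by
    simp [Prod.dist_eq, max_comm])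

theorem cldq_slice {K : ℝ≥0} (hU : LipschitzWith K U) (t : ℝ) :
    LipschitzWith K fun x => U (x, t) :=
  LipschitzWith.of_dist_le_mul fun x y => (hU.dist_le_mul (x, t) (y, t)).trans_eq (by
    simp [Prod.dist_eq])

theorem cldq_one {g : ℝ → ℝ} {K : ℝ≥0} (hg : LipschitzWith K g) {r : ℝ} (hr : 0 < r) (x : ℝ) :
    ENNReal.ofReal ((g (x + r) - g x) ^ 2) ≤
      ENNReal.ofReal r * ∫⁻ s in Ioc 0 r, ENNReal.ofReal (deriv g (x + s) ^ 2) := by
  have hm : Measurable fun s => deriv g (x + s) := (measurable_deriv g).comp (by fun_prop)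
  have hb : ∀ s, ‖deriv g (x + s)‖ ≤ K := fun s => norm_deriv_le_of_lipschitz hg
  have i1 : IntegrableOn (fun s => deriv g (x + s)) (Ioc 0 r) :=
    Integrable.of_bound hm.aestronglyMeasurable K (.of_forall hb)
  have i2 : IntegrableOn (fun s => deriv g (x + s) ^ 2) (Ioc 0 r) :=
    Integrable.of_bound (hm.pow_const 2).aestronglyMeasurable (K ^ 2) (.of_forall fun s => by
      rw [norm_pow]
      exact pow_le_pow_left₀ (norm_nonneg _) (hb s) 2)
  have e : ∫ s in Ioc 0 r, deriv g (x + s) = g (x + r) - g x := by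
    rw [← intervalIntegral.integral_of_le hr.le, intervalIntegral.integral_comp_add_left, add_zero]
    exact hg.lipschitzOnWith.absolutelyContinuousOnInterval.integral_deriv_eq_sub
  rw [← ofReal_integral_eq_lintegral_ofReal i2 (.of_forall fun s => sq_nonneg _),
    ← ENNReal.ofReal_mul hr.le, ← e]
  refine ENNReal.ofReal_le_ofReal ?_
  obtain ⟨A, hA⟩ : ∃ A, A = ∫ s in Ioc 0 r, deriv g (x + s) := ⟨_, rfl⟩
  have h0 : 0 ≤ ∫ s in Ioc 0 r,
      (r ^ 2 * deriv g (x + s) ^ 2 - 2 * r * A * deriv g (x + s) + A ^ 2) :=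
    integral_nonneg fun s => by
      have := sq_nonneg (r * deriv g (x + s) - A)
      simp only [Pi.zero_apply]
      linarith
  have i3 : IntegrableOn (fun s => r ^ 2 * deriv g (x + s) ^ 2 - 2 * r * A * deriv g (x + s))
      (Ioc 0 r) := (i2.const_mul _).sub (i1.const_mul _)
  rw [integral_add i3 (integrable_const _),
    integral_sub (i2.const_mul _) (i1.const_mul _), integral_const_mul, integral_const_mul,
    setIntegral_const, Real.volume_real_Ioc_of_le hr.le, sub_zero, smul_eq_mul, ← hA] at h0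
  rw [← hA]
  refine le_of_mul_le_mul_left ?_ hr
  linarith

theorem E1_le_of_DQ (hU : Continuous U)
    (h : ∀ r : ℝ, 0 < r → DQ U (r, 0) ≤ ENNReal.ofReal (r ^ 2) * e) : E1 U ≤ e := by
  have hm : ∀ r : ℝ, Measurable fun w : ℝ × ℝ => ENNReal.ofReal ((U (w + (r, 0)) - U w) ^ 2) :=
    fun r => (Continuous.measurable (by fun_prop)).ennreal_ofReal
  have h1 : E1 U ≤ ∫⁻ w : ℝ × ℝ, liminf (fun r : ℝ => ENNReal.ofReal (r⁻¹ ^ 2) *
      ENNReal.ofReal ((U (w + (r, 0)) - U w) ^ 2)) (𝓝[>] 0) := by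
    refine lintegral_mono fun w => ?_
    by_cases hd : DifferentiableAt ℝ (fun x => U (x, w.2)) w.1
    · refine le_of_eq (Tendsto.liminf_eq ?_).symm
      refine (ENNReal.tendsto_ofReal (hd.hasDerivAt.tendsto_slope_zero_right.pow 2)).congr
        fun r => ?_
      have : w + (r, 0) = (w.1 + r, w.2) := by ext <;> simp
      rw [smul_eq_mul, mul_pow, ENNReal.ofReal_mul (sq_nonneg _), this]
    · simp [e1, deriv_zero_of_not_differentiableAt hd]
  refine h1.trans ((lintegral_liminf_le fun r => (hm r).const_mul _).trans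
    (liminf_le_of_frequently_le' (Eventually.frequently ?_)))
  filter_upwards [self_mem_nhdsWithin] with r hr
  have hr : 0 < r := hr
  rw [lintegral_const_mul _ (hm r)]
  refine (mul_le_mul_right (h r hr) _).trans_eq ?_
  rw [← mul_assoc, ← ENNReal.ofReal_mul (sq_nonneg _), ← mul_pow, inv_mul_cancel₀ hr.ne', one_pow,
    ENNReal.ofReal_one, one_mul]

theorem E2_le_of_DQ (hU : Continuous U)
    (h : ∀ r : ℝ, 0 < r → DQ U (0, r) ≤ ENNReal.ofReal (r ^ 2) * e) : E2 U ≤ e := by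
  rw [E2_eq]
  exact E1_le_of_DQ (hU.comp continuous_swap) fun r hr => (DQ_swap U (0, r)).trans_le (h r hr)

theorem DQ_le_E1 {K : ℝ≥0} (hU : LipschitzWith K U) {r : ℝ} (hr : 0 < r) :
    DQ U (r, 0) ≤ ENNReal.ofReal (r ^ 2) * E1 U := by
  have hm : Measurable fun p : (ℝ × ℝ) × ℝ => e1 U (p.1 + (p.2, 0)) :=
    (measurable_e1 hU.continuous).comp (by fun_prop)
  calc DQ U (r, 0) ≤ ∫⁻ w : ℝ × ℝ, ENNReal.ofReal r * ∫⁻ s in Ioc 0 r, e1 U (w + (s, 0)) := by
        refine lintegral_mono fun w => ?_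
        have := cldq_one (cldq_slice hU w.2) hr w.1
        have e : w + (r, 0) = (w.1 + r, w.2) := by ext <;> simp
        simpa only [e, e1, Prod.fst_add, Prod.snd_add, add_zero] using this
    _ = ENNReal.ofReal r * ∫⁻ s in Ioc 0 r, ∫⁻ w : ℝ × ℝ, e1 U (w + (s, 0)) := by
        rw [lintegral_const_mul' _ _ ENNReal.ofReal_ne_top,
          lintegral_lintegral_swap hm.aemeasurable]
    _ = ENNReal.ofReal (r ^ 2) * E1 U := by
        simp only [lintegral_add_right_eq_self (e1 U)]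
        rw [setLIntegral_const, Real.volume_Ioc, sub_zero, sq, ENNReal.ofReal_mul hr.le, E1]
        ring

theorem DQ_le_E2 {K : ℝ≥0} (hU : LipschitzWith K U) {r : ℝ} (hr : 0 < r) :
    DQ U (0, r) ≤ ENNReal.ofReal (r ^ 2) * E2 U := by
  rw [E2_eq]
  exact (DQ_swap U (0, r)).symm.trans_le (DQ_le_E1 (cldq_lip hU) hr)

theorem cldq_abs (U : ℝ × ℝ → ℝ) (h : ℝ × ℝ) : DQ (fun w => |U w|) h ≤ DQ U h :=
  lintegral_mono fun _ => ENNReal.ofReal_le_ofReal
    (sq_le_sq.2 (abs_abs_sub_abs_le_abs_sub _ _))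

theorem E1_abs {K : ℝ≥0} (hU : LipschitzWith K U) : E1 (fun w => |U w|) ≤ E1 U :=
  E1_le_of_DQ hU.continuous.abs fun _ hr => (cldq_abs U _).trans (DQ_le_E1 hU hr)

theorem E2_abs {K : ℝ≥0} (hU : LipschitzWith K U) : E2 (fun w => |U w|) ≤ E2 U :=
  E2_le_of_DQ hU.continuous.abs fun _ hr => (cldq_abs U _).trans (DQ_le_E2 hU hr)

end Pool.Agent.PSF.CL
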