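import Pool.Agent.P.MP_7b7370_an.CLDefs

/-! Finiteness and positivity of one-dimensional integrals; halves of the strip. -/

set_option autoImplicit false

namespace Pool.Agent.PSF.CL

open Real Set MeasureTheory Filter Topology
open scoped ENNReal NNReal

theorem SS_ne_zero (Q : ℝ) : SS Q ≠ 0 := by
  refine ((lintegral_pos_iff_support (continuous_sg Q).measurable.ennreal_ofReal).2 ?_).ne'
  have : (Function.support fun x => ENNReal.ofReal (sg Q x)) = univ :=
    eq_univ_of_forall fun x => (ENNReal.ofReal_pos.2 (sg_pos Q x)).ne'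
  rw [this]
  simp

theorem clwa_lc (x : ℝ) : x - 1 ≤ lc x := by
  rw [lc, le_log_iff_exp_le (cosh_pos x), cosh_eq, exp_sub, div_le_div_iff₀ (exp_pos 1) two_pos]
  have h1 := add_one_le_exp (1 : ℝ)
  nlinarith [exp_pos x, exp_pos (-x), mul_pos (exp_pos (-x)) (exp_pos 1)]

theorem SS_ne_top {Q : ℝ} (hQ : 0 < Q) : SS Q ≠ ∞ := by
  have hb : ∀ x y : ℝ, lc x = lc y → ‖sg Q x‖ ≤ exp (2 * Q) * exp (-(2 * Q) * y) := fun x y h => by
    rw [Real.norm_of_nonneg (sg_pos Q x).le, sg, ← exp_add, h]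
    refine exp_le_exp.2 ?_
    nlinarith [mul_le_mul_of_nonneg_left (clwa_lc y) hQ.le]
  have h1 : IntegrableOn (sg Q) (Ioi 0) :=
    ((integrableOn_exp_mul_Ioi (a := -(2 * Q)) (by linarith) 0).const_mul (exp (2 * Q))).mono'
      (continuous_sg Q).aestronglyMeasurable (.of_forall fun x => hb x x rfl)
  have h2 : IntegrableOn (sg Q) (Iic 0) :=
    ((integrableOn_exp_mul_Iic (a := 2 * Q) (by linarith) 0).const_mul (exp (2 * Q))).mono'
      (continuous_sg Q).aestronglyMeasurable (.of_forall fun x => by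
        simpa only [neg_mul_neg] using hb x (-x) (lc_neg x).symm)
  have h3 := h2.union h1
  rw [Iic_union_Ioi, integrableOn_univ] at h3
  exact h3.lintegral_lt_top.ne

theorem cN_ne_zero (N : ℕ) : cN N ≠ 0 := by
  refine ((lintegral_pos_iff_support (measurable_ct N)).2 ?_).ne'
  refine lt_of_lt_of_le ?_ (measure_mono (s := Ioo (-(π / 2)) (π / 2)) fun t ht => ?_)
  · rw [Real.volume_Ioo, ENNReal.ofReal_pos]
    linarith [pi_pos]
  · rw [Function.mem_support, ct, indicator_of_mem ht]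
    exact (ENNReal.ofReal_pos.2 (pow_pos (cos_pos_of_mem_Ioo ht) _)).ne'

theorem cN_ne_top (N : ℕ) : cN N ≠ ∞ := by
  refine ne_top_of_le_ne_top (b := ∫⁻ t, (Ioo (-(π / 2)) (π / 2)).indicator (fun _ => 1) t) ?_
    (lintegral_mono fun t => indicator_le_indicator ?_)
  · rw [lintegral_indicator_const measurableSet_Ioo, one_mul]
    exact measure_Ioo_lt_top.ne
  · rw [ENNReal.ofReal_le_one, pow_mul]
    exact pow_le_one₀ (sq_nonneg _) (cos_sq_le_one t)

theorem lint_Str_add (f : ℝ × ℝ → ℝ≥0∞) :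
    ∫⁻ w in Str, f w = (∫⁻ w in Sig, f w) + ∫⁻ w in Sig, f (w.1, -w.2) := by
  have hm : MeasurePreserving (fun w : ℝ × ℝ => (w.1, -w.2)) volume volume :=
    (MeasurePreserving.id (volume : Measure ℝ)).prod (Measure.measurePreserving_neg volume)
  have he : MeasurableEmbedding fun w : ℝ × ℝ => (w.1, -w.2) :=
    ((MeasurableEquiv.refl ℝ).prodCongr (MeasurableEquiv.neg ℝ)).measurableEmbedding
  have h1 := hm.setLIntegral_comp_preimage_emb he f (univ ×ˢ Ioo (-(π / 2)) 0)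
  have h2 : (fun w : ℝ × ℝ => (w.1, -w.2)) ⁻¹' (univ ×ˢ Ioo (-(π / 2)) 0) = Sig := by
    ext w
    simp [Sig, and_comm]
  have h3 : ∀ᵐ w : ℝ × ℝ, w.2 ≠ 0 := by
    have : {w : ℝ × ℝ | ¬w.2 ≠ 0} = univ ×ˢ {0} := by
      ext w
      simp
    rw [ae_iff, this, Measure.volume_eq_prod, Measure.prod_prod]
    simp
  have h4 : Str =ᵐ[volume] (Sig ∪ univ ×ˢ Ioo (-(π / 2)) 0 : Set (ℝ × ℝ)) := by
    refine eventuallyEq_set.2 (h3.mono fun w hw => ?_)
    have := pi_pos
    simp only [Str, Sig, mem_union, mem_prod, mem_univ, true_and, mem_Ioo]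
    constructor
    · intro h
      rcases lt_or_gt_of_ne hw with e | e
      exacts [Or.inr ⟨h.1, e⟩, Or.inl ⟨e, h.2⟩]
    · rintro (h | h) <;> constructor <;> linarith [h.1, h.2]
  rw [h2] at h1
  rw [h1, setLIntegral_congr h4, lintegral_union (MeasurableSet.univ.prod measurableSet_Ioo)
    (disjoint_left.2 fun w h h' => lt_asymm h.2.1 h'.2.2)]

theorem lint_Str_even {f : ℝ × ℝ → ℝ≥0∞} (hf : ∀ x t, f (x, -t) = f (x, t)) :
    ∫⁻ w in Str, f w = 2 * ∫⁻ w in Sig, f w := by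
  rw [lint_Str_add, two_mul]
  simp only [hf]

theorem measurable_Wp (p : ℝ) : Measurable (Wp p) := by
  unfold Wp
  fun_prop

end Pool.Agent.PSF.CL
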