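import Pool.Agent.P.MP_7b7370_an.CFEnA
import Pool.Agent.P.MP_7b7370_an.CLWa
import Pool.Agent.P.MP_7b7370_an.CLDQ

/-! The pulled back test function. -/

set_option autoImplicit false

namespace Pool.Agent.PSF.CL

open Real Set MeasureTheory Filter Topology
open scoped ENNReal NNReal

theorem pull_back {f : ℂ → ℂ} {v : ℂ → ℝ} {K : ℝ≥0} {R δ : ℝ}
    (hd : DifferentiableOn ℂ f (St (π / 2))) (hK : LipschitzOnWith K f (Sc (π / 2)))
    (hv : ContDiff ℝ 1 v) (hc : HasCompactSupport v) (hδ : 0 < δ)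
    (hs : ∀ w ∈ Sc (π / 2), f w ∈ tsupport v → |w.re| < R ∧ δ < w.im) :
    LB R (π / 2 - δ) (fun p => |v (f (kb p))|) ∧
      E1 (fun p => |v (f (kb p))|) + E2 (fun p => |v (f (kb p))|) ≤
        2 * ∫⁻ p in Sig, ENNReal.ofReal (‖deriv f (ka p)‖ ^ 2) *
          ENNReal.ofReal (‖fderiv ℝ v (f (ka p))‖ ^ 2) := by
  obtain ⟨K', hK'⟩ := pull_lip hK hv hc
  have hz : ∀ p : ℝ × ℝ, R ≤ |p.1| ∨ π / 2 - δ ≤ |p.2| → v (f (kb p)) = 0 := fun p hp =>
    pull_supp hδ hs hp
  have hen : ∀ p ∈ Sig, _ := fun p hp => pull_en hd hv (p := p) hp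
  have hev : ∀ x t : ℝ, v (f (kb (x, -t))) = v (f (kb (x, t))) := fun x t => by
    simp only [kb, abs_neg]
  generalize hU : (fun p => v (f (kb p))) = U at hK' hen
  have eU : ∀ p, v (f (kb p)) = U p := fun p => congrFun hU p
  simp only [eU] at hz hev ⊢
  refine ⟨⟨⟨1 * K', lipschitzWith_one_norm.comp hK'⟩, fun p => abs_nonneg _, fun p hp => by
    rw [hz p hp, abs_zero]⟩, (add_le_add (E1_abs hK') (E2_abs hK')).trans (le_of_eq ?_)⟩
  have h1 : ∀ p, p ∉ Str → e1 U p + e2 U p = 0 := fun p hp => by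
    have h2 : π / 2 ≤ |p.2| := not_lt.1 fun h => hp ⟨mem_univ _, abs_lt.1 h⟩
    have h3 : (fun x => U (x, p.2)) = fun _ => 0 :=
      funext fun x => hz _ (Or.inr (by linarith))
    have h4 : (fun t => U (p.1, t)) =ᶠ[𝓝 p.2] fun _ => 0 := by
      have : ∀ᶠ t in 𝓝 p.2, π / 2 - δ < |t| :=
        continuous_abs.continuousAt.eventually (lt_mem_nhds (by linarith))
      filter_upwards [this] with t ht using hz _ (Or.inr ht.le)
    rw [e1, e2, h3, h4.deriv_eq]
    simp
  have h5 : ∀ x t : ℝ, e1 U (x, -t) + e2 U (x, -t) = e1 U (x, t) + e2 U (x, t) := fun x t => by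
    have h6 := deriv_comp_neg (fun s => U (x, s)) t
    simp only [hev] at h6
    simp only [e1, e2, hev, h6, neg_sq]
  rw [E1, E2, ← lintegral_add_left (measurable_e1 hK'.continuous),
    ← setLIntegral_eq_of_support_subset (s := Str) fun p hp => not_not.1 fun h => hp (h1 p h),
    lint_Str_even (f := fun p => e1 U p + e2 U p) h5,
    setLIntegral_congr_fun measurableSet_Sig hen]

end Pool.Agent.PSF.CL
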