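import Pool.Agent.P.MP_7b7370_an.CFChg

/-! The pulled back test function, pointwise facts. -/

set_option autoImplicit false

namespace Pool.Agent.PSF.CL

open Real Set MeasureTheory Filter Topology
open scoped ENNReal NNReal

theorem cfena_mem (p : ℝ × ℝ) : kb p ∈ Sc (π / 2) := by
  have h1 := min_le_right |p.2| (π / 2)
  have h2 : 0 ≤ min |p.2| (π / 2) := le_min (abs_nonneg _) (by positivity)
  constructor
  · change 0 ≤ π / 2 - min |p.2| (π / 2)
    linarith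
  · change π / 2 - min |p.2| (π / 2) ≤ π / 2
    linarith

theorem cfena_lip : LipschitzWith 2 kb := by
  refine LipschitzWith.of_dist_le_mul fun p q => ?_
  have h1 : |p.1 - q.1| ≤ dist p q := by
    rw [Prod.dist_eq, ← Real.dist_eq]
    exact le_max_left _ _
  have h2 : |p.2 - q.2| ≤ dist p q := by
    rw [Prod.dist_eq, ← Real.dist_eq]
    exact le_max_right _ _
  have h3 := abs_min_sub_min_le_max |q.2| (π / 2) |p.2| (π / 2)
  rw [sub_self, abs_zero, max_eq_left (abs_nonneg _)] at h3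
  have h4 := abs_abs_sub_abs_le_abs_sub q.2 p.2
  rw [abs_sub_comm q.2] at h4
  have h5 := Complex.norm_le_abs_re_add_abs_im (kb p - kb q)
  have e1 : (kb p - kb q).re = p.1 - q.1 := by simp [kb]
  have e2 : (kb p - kb q).im = min |q.2| (π / 2) - min |p.2| (π / 2) := by simp [kb]
  rw [e1, e2] at h5
  rw [dist_eq_norm]
  push_cast
  linarith

theorem pull_lip {f : ℂ → ℂ} {v : ℂ → ℝ} {K : ℝ≥0} (hK : LipschitzOnWith K f (Sc (π / 2)))
    (hv : ContDiff ℝ 1 v) (hc : HasCompactSupport v) :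
    ∃ K', LipschitzWith K' fun p => v (f (kb p)) := by
  obtain ⟨Kv, hKv⟩ := hv.lipschitzWith_of_hasCompactSupport hc one_ne_zero
  refine ⟨Kv * (K * 2), hKv.comp (g := fun p => f (kb p)) ?_⟩
  rw [← lipschitzOnWith_univ]
  exact hK.comp cfena_lip.lipschitzOnWith fun p _ => cfena_mem p

theorem pull_supp {f : ℂ → ℂ} {v : ℂ → ℝ} {R δ : ℝ} (hδ : 0 < δ)
    (hs : ∀ w ∈ Sc (π / 2), f w ∈ tsupport v → |w.re| < R ∧ δ < w.im) {p : ℝ × ℝ}
    (hp : R ≤ |p.1| ∨ π / 2 - δ ≤ |p.2|) : v (f (kb p)) = 0 := by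
  by_contra h
  obtain ⟨h1, h2⟩ := hs _ (cfena_mem p) (subset_tsupport v h)
  simp only [kb] at h1 h2
  rcases hp with hp | hp
  · linarith
  · have : π / 2 - δ ≤ min |p.2| (π / 2) := le_min hp (by linarith)
    linarith

theorem kb_eq {p : ℝ × ℝ} (hp : p ∈ Sig) : kb p = ka p := by
  have h := hp.2
  rw [kb, ka, abs_of_pos h.1, min_eq_left h.2.le]

theorem pull_en {f : ℂ → ℂ} {v : ℂ → ℝ} (hd : DifferentiableOn ℂ f (St (π / 2)))
    (hv : ContDiff ℝ 1 v) {p : ℝ × ℝ} (hp : p ∈ Sig) :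
    e1 (fun p => v (f (kb p))) p + e2 (fun p => v (f (kb p))) p =
      ENNReal.ofReal (‖deriv f (ka p)‖ ^ 2) * ENNReal.ofReal (‖fderiv ℝ v (f (ka p))‖ ^ 2) := by
  have hf : HasDerivAt f (deriv f (ka p)) (ka p) :=
    (hd.differentiableAt ((isOpen_St _).mem_nhds (ka_mem hp))).hasDerivAt
  have hL : HasFDerivAt v (fderiv ℝ v (f (ka p))) (f (ka p)) :=
    (hv.differentiable one_ne_zero _).hasFDerivAt
  have c1 : HasDerivAt (fun x : ℝ => ka (x, p.2)) 1 p.1 := by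
    have e : (fun x : ℝ => ka (x, p.2)) = fun x : ℝ => (x : ℂ) + (π / 2 - p.2 : ℝ) * Complex.I := by
      funext x
      apply Complex.ext <;> simp [ka]
    rw [e]
    exact (Complex.ofRealCLM.hasDerivAt (x := p.1)).add_const _
  have c2 : HasDerivAt (fun t : ℝ => ka (p.1, t)) (-Complex.I) p.2 := by
    have e : (fun t : ℝ => ka (p.1, t)) =
        fun t : ℝ => ((p.1 : ℂ) + (π / 2 : ℝ) * Complex.I) + (t : ℂ) * -Complex.I := by
      funext x
      apply Complex.ext <;> simp [ka, sub_eq_add_neg]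
    rw [e]
    simpa using ((Complex.ofRealCLM.hasDerivAt (x := p.2)).mul_const (-Complex.I)).const_add
      ((p.1 : ℂ) + (π / 2 : ℝ) * Complex.I)
  have d1 : HasDerivAt (fun x : ℝ => v (f (ka (x, p.2))))
      (fderiv ℝ v (f (ka p)) (deriv f (ka p) * 1)) p.1 :=
    HasFDerivAt.comp_hasDerivAt (f := fun x : ℝ => f (ka (x, p.2))) p.1 hL
      (HasDerivAt.comp (h := fun x : ℝ => ka (x, p.2)) p.1 hf c1)
  have d2 : HasDerivAt (fun t : ℝ => v (f (ka (p.1, t))))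
      (fderiv ℝ v (f (ka p)) (deriv f (ka p) * -Complex.I)) p.2 :=
    HasFDerivAt.comp_hasDerivAt (f := fun t : ℝ => f (ka (p.1, t))) p.2 hL
      (HasDerivAt.comp (h := fun t : ℝ => ka (p.1, t)) p.2 hf c2)
  have q1 : (fun x : ℝ => v (f (kb (x, p.2)))) = fun x : ℝ => v (f (ka (x, p.2))) := by
    funext x
    rw [kb_eq (p := (x, p.2)) ⟨mem_univ _, hp.2⟩]
  have q2 : (fun t : ℝ => v (f (kb (p.1, t)))) =ᶠ[𝓝 p.2] fun t : ℝ => v (f (ka (p.1, t))) := by
    filter_upwards [isOpen_Ioo.mem_nhds hp.2] with t ht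
    rw [kb_eq (p := (p.1, t)) ⟨mem_univ _, ht⟩]
  unfold e1 e2
  rw [q1, q2.deriv_eq, d1.deriv, d2.deriv, ← ENNReal.ofReal_add (sq_nonneg _) (sq_nonneg _),
    ← ENNReal.ofReal_mul (sq_nonneg _), mul_one, mul_comm _ (-Complex.I), norm_sq_clm]

end Pool.Agent.PSF.CL
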