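import Pool.Agent.P.MP_7b7370_an.CFStrip
import Pool.Agent.P.MP_7f9008_an.RMTA

/-! The logarithm of the derivative. -/

set_option autoImplicit false

namespace Pool.Agent.PSF.CL

open Real Set MeasureTheory Filter Topology
open scoped ENNReal NNReal

variable {C : Set ℂ} {G Ψ F : ℂ → ℂ}

theorem cfloga_conj_mem {w : ℂ} (hw : w ∈ Sg) : (starRingEnd ℂ) w ∈ Sg := by
  simpa [Sg] using hw

theorem cfloga_deriv_cj (h : SM Sg C G Ψ) {w : ℂ} (hw : w ∈ Sg) :
    deriv G ((starRingEnd ℂ) w) = (starRingEnd ℂ) (deriv G w) := by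
  have h1 := (h.dG.differentiableAt (isOpen_Sg.mem_nhds hw)).hasDerivAt.conj_conj
  refine (h1.congr_of_eventuallyEq ?_).deriv
  filter_upwards [isOpen_Sg.mem_nhds (cfloga_conj_mem hw)] with z hz
  simp [h.cj z hz]

theorem cfloga_re_nonneg (h : SM Sg C G Ψ) : 0 ≤ (deriv G 0).re := by
  have h0 : (0 : ℂ) ∈ Sg := by simpa using ofReal_mem_Sg 0
  have h1 : HasDerivAt G (deriv G 0) ((0 : ℂ) * Complex.I) := by
    simpa using (h.dG.differentiableAt (isOpen_Sg.mem_nhds h0)).hasDerivAt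
  have h2 : HasDerivAt (fun z : ℂ => G (z * Complex.I)) (deriv G 0 * Complex.I) ((0 : ℝ) : ℂ) := by
    rw [Complex.ofReal_zero]
    exact h1.comp (0 : ℂ) (hasDerivAt_mul_const Complex.I)
  have h3 := Complex.imCLM.hasFDerivAt.comp_hasDerivAt (0 : ℝ) h2.comp_ofReal
  have h4 := (hasDerivAt_iff_tendsto_slope_zero.1 h3).mono_left
    (nhdsWithin_mono _ (show Ioi (0 : ℝ) ⊆ {0}ᶜ from fun x hx => ne_of_gt hx))
  have h5 : (G 0).im = 0 := by simpa using h.im_real 0
  have h6 : Complex.imCLM (deriv G 0 * Complex.I) = (deriv G 0).re := by simp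
  rw [← h6]
  refine ge_of_tendsto h4 ?_
  filter_upwards [Ioo_mem_nhdsGT (show (0 : ℝ) < π / 2 by positivity)] with t ht
  have h7 : 0 < (G (t * Complex.I)).im :=
    h.up _ (by simpa [Sg, abs_of_pos ht.1] using ht.2) (by simpa using ht.1)
  have h8 : 0 ≤ t⁻¹ * (G (t * Complex.I)).im := mul_nonneg (inv_nonneg.2 ht.1.le) h7.le
  simpa [h5] using h8

theorem SM.exists_log (ho : IsOpen C) (h : SM Sg C G Ψ) : ∃ F, LG G F := by
  have h0 : (0 : ℂ) ∈ Sg := by simpa using ofReal_mem_Sg 0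
  have hsc : IsSimplyConnected Sg := by
    have := convex_Sg.contractibleSpace ⟨0, h0⟩
    exact SimplyConnectedSpace.ofContractible _
  have hd : DifferentiableOn ℂ (deriv G) Sg := h.dG.deriv isOpen_Sg
  obtain ⟨F0, hc, he⟩ := Complex.exists_continuousOn_eqOn_exp_comp hsc isOpen_Sg hd.continuousOn
    (by rintro ⟨w, hw, e⟩; exact h.deriv_ne ho hw e)
  have he' : ∀ z ∈ Sg, Complex.exp (F0 z) = deriv G z := fun z hz => he hz
  have hd0 := Pool.Agent.P.MP_7f9008_an.RMT.differentiableOn_log isOpen_Sg hd hc he'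
  have hre : ((deriv G 0).re : ℂ) = deriv G 0 := by
    have h1 := cfloga_deriv_cj h h0
    rw [map_zero] at h1
    exact Complex.conj_eq_iff_re.1 h1.symm
  have hpos : 0 < (deriv G 0).re := by
    refine (cfloga_re_nonneg h).lt_of_ne fun e => h.deriv_ne ho h0 ?_
    rw [← hre, ← e, Complex.ofReal_zero]
  have hdF : DifferentiableOn ℂ (fun w => F0 w - F0 0 + (Real.log (deriv G 0).re : ℝ)) Sg :=
    (hd0.sub_const _).add_const _
  have hex : ∀ w ∈ Sg, Complex.exp (F0 w - F0 0 + (Real.log (deriv G 0).re : ℝ)) = deriv G w := by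
    intro w hw
    rw [Complex.exp_add, Complex.exp_sub, he' w hw, he' 0 h0, ← Complex.ofReal_exp,
      Real.exp_log hpos, hre, div_mul_cancel₀ _ (h.deriv_ne ho h0)]
  refine ⟨fun w => F0 w - F0 0 + (Real.log (deriv G 0).re : ℝ), hdF, hex, fun w hw => ?_⟩
  refine Pool.Agent.P.MP_7f9008_an.RMT.log_unique
    (l := fun w => F0 ((starRingEnd ℂ) w) - F0 0 + (Real.log (deriv G 0).re : ℝ))
    (m := fun w => (starRingEnd ℂ) (F0 w - F0 0 + (Real.log (deriv G 0).re : ℝ)))
    convex_Sg.isPreconnected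
    (hdF.continuousOn.comp Complex.continuous_conj.continuousOn fun z hz => cfloga_conj_mem hz)
    (Complex.continuous_conj.comp_continuousOn hdF.continuousOn) (fun z hz => ?_) h0 ?_ hw
  · rw [Complex.exp_conj, hex z hz, hex _ (cfloga_conj_mem hz), cfloga_deriv_cj h hz]
  · simp only [map_zero, sub_self, zero_add, Complex.conj_ofReal]

theorem LG.im_real (hF : LG G F) (x : ℝ) : (F x).im = 0 := by
  have h := hF.cj x (ofReal_mem_Sg x)
  rw [Complex.conj_ofReal] at h
  exact Complex.conj_eq_iff_im.1 h.symm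

end Pool.Agent.PSF.CL
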