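import Pool.Agent.P.MP_7b7370_an.CLDefs

/-! Boundary values of the model argument. -/

set_option autoImplicit false

namespace Pool.Agent.PSF.CL

open Real Set MeasureTheory Filter Topology
open scoped ENNReal NNReal

theorem cfrepb_cosh (w : ℂ) (s : ℝ) : Complex.cosh (w - s) =
    ((cosh (w.re - s) * cos w.im : ℝ) : ℂ) + ((sinh (w.re - s) * sin w.im : ℝ) : ℂ) * Complex.I := by
  have h : w - s = ((w.re - s : ℝ) : ℂ) + (w.im : ℂ) * Complex.I := by
    apply Complex.ext <;> simp
  rw [h, Complex.cosh_add, Complex.cosh_mul_I, Complex.sinh_mul_I]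
  push_cast
  ring

theorem cfrepb_top {w : ℂ} (hw : w.im = π / 2) (s : ℝ) :
    Complex.cosh (w - s) = ((sinh (w.re - s) : ℝ) : ℂ) * Complex.I := by
  rw [cfrepb_cosh, hw, cos_pi_div_two, sin_pi_div_two]
  simp

theorem cfrepb_slit {w : ℂ} (hw : w ∈ Sc (π / 2)) {s : ℝ} (hs : s ≠ w.re) :
    Complex.cosh (w - s) ∈ Complex.slitPlane := by
  rcases hw.2.eq_or_lt with h | h
  · right
    rw [cfrepb_top h, Complex.mul_I_im, Complex.ofReal_re]
    exact sinh_ne_zero.mpr (sub_ne_zero.mpr hs.symm)
  · left
    rw [cfrepb_cosh, Complex.add_re, Complex.ofReal_re, Complex.mul_I_re, Complex.ofReal_im, neg_zero,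
      add_zero]
    exact mul_pos (cosh_pos _) (cos_pos_of_mem_Ioo ⟨by linarith [hw.1, pi_pos], h⟩)

theorem continuousOn_uu (k : ℝ) (q : Measure ℝ) [IsFiniteMeasure q] (hq : ∀ x, q {x} = 0) :
    ContinuousOn (uu k q) (Sc (π / 2)) := by
  intro w hw
  refine ContinuousWithinAt.sub (Continuous.continuousWithinAt (by fun_prop)) ?_
  refine continuousWithinAt_of_dominated (bound := fun _ => π) (Eventually.of_forall fun z => ?_)
    (Eventually.of_forall fun z => Eventually.of_forall fun s => Complex.abs_arg_le_pi _)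
    (integrable_const _) ?_
  · exact (Complex.measurable_arg.comp (Continuous.measurable (by fun_prop))).aestronglyMeasurable
  · have h0 : ∀ᵐ s ∂q, s ∉ ({w.re} : Set ℝ) := measure_eq_zero_iff_ae_notMem.mp (hq _)
    filter_upwards [h0] with s hs
    have hc : ContinuousAt (fun z : ℂ => Complex.cosh (z - s)) w := by fun_prop
    exact (ContinuousAt.comp (f := fun z : ℂ => Complex.cosh (z - s))
      (Complex.continuousAt_arg (cfrepb_slit hw hs)) hc).continuousWithinAt

theorem abs_uu_le (k : ℝ) (q : Measure ℝ) [IsFiniteMeasure q] {w : ℂ} (hw : w ∈ Sc (π / 2)) :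
    |uu k q w| ≤ |k| * (π / 2) + π * q.real univ := by
  refine (abs_sub _ _).trans (add_le_add ?_ ?_)
  · rw [abs_mul, abs_of_nonneg hw.1]
    exact mul_le_mul_of_nonneg_left hw.2 (abs_nonneg _)
  · exact norm_integral_le_of_norm_le_const (μ := q) (C := π)
      (f := fun s : ℝ => Complex.arg (Complex.cosh (w - s)))
      (Eventually.of_forall fun s => Complex.abs_arg_le_pi _)

theorem uu_bot (k : ℝ) (q : Measure ℝ) {w : ℂ} (hw : w.im = 0) : uu k q w = 0 := by
  have h : ∀ s : ℝ, Complex.arg (Complex.cosh (w - s)) = 0 := fun s => by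
    rw [cfrepb_cosh, hw, cos_zero, sin_zero, mul_zero, mul_one, Complex.ofReal_zero, zero_mul,
      add_zero]
    exact Complex.arg_ofReal_of_nonneg (cosh_pos _).le
  simp [uu, hw, h]

theorem uu_top (k : ℝ) (q : Measure ℝ) [IsFiniteMeasure q] {w : ℂ} (hw : w.im = π / 2) :
    uu k q w = k * (π / 2) - π / 2 * (q.real (Iio w.re) - q.real (Ioi w.re)) := by
  have h : ∀ s : ℝ, Complex.arg (Complex.cosh (w - s)) =
      (Iio w.re).indicator (fun _ => π / 2) s - (Ioi w.re).indicator (fun _ => π / 2) s := by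
    intro s
    rw [cfrepb_top hw]
    rcases lt_trichotomy s w.re with hs | hs | hs
    · rw [Complex.arg_real_mul _ (sinh_pos_iff.mpr (sub_pos.mpr hs)), Complex.arg_I,
        indicator_of_mem (show s ∈ Iio w.re from hs),
        indicator_of_notMem (show s ∉ Ioi w.re from not_lt.mpr hs.le), sub_zero]
    · simp [hs]
    · have e : ((sinh (w.re - s) : ℝ) : ℂ) * Complex.I = ((sinh (s - w.re) : ℝ) : ℂ) * -Complex.I := by
        rw [← neg_sub s, sinh_neg]
        push_cast
        ring
      rw [e, Complex.arg_real_mul _ (sinh_pos_iff.mpr (sub_pos.mpr hs)), Complex.arg_neg_I,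
        indicator_of_mem (show s ∈ Ioi w.re from hs),
        indicator_of_notMem (show s ∉ Iio w.re from not_lt.mpr hs.le), zero_sub]
  unfold uu
  simp only [h]
  rw [integral_sub ((integrable_const _).indicator measurableSet_Iio)
    ((integrable_const _).indicator measurableSet_Ioi), integral_indicator_const _ measurableSet_Iio,
    integral_indicator_const _ measurableSet_Ioi, hw, smul_eq_mul, smul_eq_mul]
  ring

end Pool.Agent.PSF.CL
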