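import Pool.Agent.P.MP_7b7370_an.CLDefs

/-! The measure of a monotone function. -/

set_option autoImplicit false

namespace Pool.Agent.PSF.CL

open Real Set MeasureTheory Filter Topology
open scoped ENNReal NNReal

theorem exists_meas {θ : ℝ → ℝ} {β γ : ℝ} (hc : Continuous θ) (ha : Antitone θ)
    (h1 : ∀ x, -γ ≤ θ x) (h2 : ∀ x, θ x ≤ β) :
    ∃ (k : ℝ) (q : Measure ℝ), IsFiniteMeasure q ∧ (∀ x, q {x} = 0) ∧
      q.real univ ≤ (β + γ) / π ∧
      ∀ x, θ x = k * (π / 2) - π / 2 * (q.real (Iio x) - q.real (Ioi x)) := by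
  have hm : Monotone fun x => -θ x / π := fun x y h =>
    div_le_div_of_nonneg_right (neg_le_neg (ha h)) pi_pos.le
  have hcf : Continuous fun x => -θ x / π := hc.neg.div_const π
  obtain ⟨f, hf⟩ : ∃ f : StieltjesFunction ℝ, ∀ x, f x = -θ x / π :=
    ⟨⟨fun x => -θ x / π, hm, fun x => hcf.continuousWithinAt⟩, fun x => rfl⟩
  have hfe : (f : ℝ → ℝ) = fun x => -θ x / π := funext hf
  have hfc : Continuous f := by rw [hfe]; exact hcf
  have lo : ∀ x, -β / π ≤ f x := fun x => by
    rw [hf]; exact div_le_div_of_nonneg_right (neg_le_neg (h2 x)) pi_pos.le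
  have hi : ∀ x, f x ≤ γ / π := fun x => by
    rw [hf]; exact div_le_div_of_nonneg_right (by linarith [h1 x]) pi_pos.le
  have bb : BddBelow (range f) := ⟨-β / π, by rintro _ ⟨x, rfl⟩; exact lo x⟩
  have ba : BddAbove (range f) := ⟨γ / π, by rintro _ ⟨x, rfl⟩; exact hi x⟩
  have tL := tendsto_atBot_ciInf f.mono bb
  have tU := tendsto_atTop_ciSup f.mono ba
  have l1 : ∀ x, (⨅ y, f y) ≤ f x := fun x => ciInf_le bb x
  have u1 : ∀ x, f x ≤ ⨆ y, f y := fun x => le_ciSup ba x
  have l2 : -β / π ≤ ⨅ y, f y := le_ciInf lo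
  have u2 : (⨆ y, f y) ≤ γ / π := ciSup_le hi
  generalize (⨅ y, f y) = L at *
  generalize (⨆ y, f y) = U at *
  have ll : ∀ x, Function.leftLim f x = f x := fun x => hfc.continuousWithinAt.leftLim_eq
  refine ⟨-(L + U), f.measure, f.isFiniteMeasure tL tU, fun x => ?_, ?_, fun x => ?_⟩
  · rw [f.measure_singleton, ll, sub_self, ENNReal.ofReal_zero]
  · rw [measureReal_def, f.measure_univ tL tU,
      ENNReal.toReal_ofReal (by linarith [l1 0, u1 0]), add_div]
    rw [neg_div] at l2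
    linarith
  · rw [measureReal_def, measureReal_def, f.measure_Iio tL, f.measure_Ioi tU, ll,
      ENNReal.toReal_ofReal (sub_nonneg.2 (l1 x)), ENNReal.toReal_ofReal (sub_nonneg.2 (u1 x)), hf]
    have := pi_pos.ne'
    field_simp
    ring

end Pool.Agent.PSF.CL
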