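import Pool.Agent.P.MP_7b7370_an.CFRepD
import Pool.Agent.P.MP_7b7370_an.CFRepB
import Pool.Agent.P.MP_7b7370_an.CFRepC
import Pool.Agent.P.MP_7b7370_an.CFMax
import Pool.Agent.P.MP_7b7370_an.CFChg

/-! Representation of the conformal weight. -/

set_option autoImplicit false

namespace Pool.Agent.PSF.CL

open Real Set MeasureTheory Filter Topology
open scoped ENNReal NNReal

theorem rep {F : ℂ → ℂ} {β γ : ℝ} (hd : DifferentiableOn ℂ F (St (π / 2)))
    (hc : ContinuousOn F (Sc (π / 2))) (h0 : ∀ x : ℝ, (F x).im = 0)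
    (hb : ∀ w ∈ Sc (π / 2), -γ ≤ (F w).im ∧ (F w).im ≤ β)
    (ha : Antitone fun x : ℝ => (F ⟨x, π / 2⟩).im) :
    ∃ (c k : ℝ) (q : Measure ℝ), IsFiniteMeasure q ∧ q.real univ ≤ (β + γ) / π ∧
      ∀ w ∈ Sig, exp (2 * (F (ka w)).re) = WW c k q w := by
  have hp : 0 < π / 2 := by positivity
  have hmem : ∀ x : ℝ, (⟨x, π / 2⟩ : ℂ) ∈ Sc (π / 2) := fun x => ⟨hp.le, le_rfl⟩
  have hline : Continuous fun x : ℝ => (⟨x, π / 2⟩ : ℂ) := by
    have : (fun x : ℝ => (⟨x, π / 2⟩ : ℂ)) = fun x : ℝ => (x : ℂ) + ((π / 2 : ℝ) : ℂ) * Complex.I := by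
      funext x
      apply Complex.ext <;> simp
    rw [this]
    fun_prop
  have hθ : Continuous fun x : ℝ => (F ⟨x, π / 2⟩).im :=
    Complex.continuous_im.comp (hc.comp_continuous hline hmem)
  obtain ⟨k, q, hq, hq0, hqm, hθq⟩ := exists_meas hθ ha (fun x => (hb _ (hmem x)).1)
    fun x => (hb _ (hmem x)).2
  have hd' : DifferentiableOn ℂ (fun w => F w - HH k q w) (St (π / 2)) :=
    hd.sub (differentiableOn_HH k q)
  have hu : ∀ w ∈ St (π / 2), (F w).im - uu k q w = (F w - HH k q w).im := fun w hw => by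
    rw [Complex.sub_im, im_HH k q hw]
  have hcu : ContinuousOn (fun w => (F w).im - uu k q w) (Sc (π / 2)) :=
    (Complex.continuous_im.comp_continuousOn hc).sub (continuousOn_uu k q hq0)
  have hbd : ∀ w ∈ Sc (π / 2), w.im = 0 ∨ w.im = π / 2 → (F w).im - uu k q w = 0 := by
    rintro w - (h | h)
    · have e : w = (w.re : ℂ) := Complex.ext rfl (by simpa using h)
      rw [uu_bot k q h, e, h0, sub_zero]
    · have e : w = ⟨w.re, π / 2⟩ := Complex.ext rfl h
      rw [uu_top k q h, ← hθq, ← e, sub_self]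
  have h1 := max_strip (M := 0) (B := β + (|k| * (π / 2) + π * q.real univ)) hp le_rfl hd' hu hcu
    (fun w hw => by linarith [(hb w hw).2, (abs_le.1 (abs_uu_le k q hw)).1])
    fun w hw h => (hbd w hw h).le
  have h2 := max_strip (M := 0) (B := γ + (|k| * (π / 2) + π * q.real univ))
    (h := fun w => -(F w - HH k q w)) (u := fun w => -((F w).im - uu k q w)) hp le_rfl hd'.neg
    (fun w hw => by rw [hu w hw, Complex.neg_im]) hcu.neg
    (fun w hw => by linarith [(hb w hw).1, (abs_le.1 (abs_uu_le k q hw)).2])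
    fun w hw h => by rw [hbd w hw h, neg_zero]
  obtain ⟨c, hc0⟩ := re_const hd' fun w hw => by
    have a1 := h1 w (St_subset_Sc _ hw)
    have a2 := h2 w (St_subset_Sc _ hw)
    rw [← hu w hw]
    linarith
  refine ⟨2 * c, k, q, hq, hqm, fun w hw => ?_⟩
  have a1 := hc0 _ (ka_mem hw)
  rw [Complex.sub_re] at a1
  rw [← re_HH (2 * c) k q hw]
  congr 1
  linarith

end Pool.Agent.PSF.CL
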