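import Pool.Agent.P.MP_7b7370_an.CLDefs

/-! The model logarithm HH inside the strip. -/

set_option autoImplicit false

namespace Pool.Agent.PSF.CL

open Real Set MeasureTheory Filter Topology
open scoped ENNReal NNReal

theorem cfrepa_cosh (z : ℂ) : (Complex.cosh z).re = cosh z.re * cos z.im ∧
    (Complex.cosh z).im = sinh z.re * sin z.im := by
  have h : Complex.cosh z = ((cosh z.re * cos z.im : ℝ) : ℂ) +
      ((sinh z.re * sin z.im : ℝ) : ℂ) * Complex.I := by
    conv_lhs => rw [← Complex.re_add_im z]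
    rw [Complex.cosh_add, Complex.cosh_mul_I, Complex.sinh_mul_I]
    push_cast
    ring
  rw [h]
  constructor
  · simp only [Complex.add_re, Complex.mul_re, Complex.ofReal_re, Complex.ofReal_im, Complex.I_re,
      Complex.I_im, mul_zero, zero_mul, sub_zero, add_zero]
  · simp only [Complex.add_im, Complex.mul_im, Complex.ofReal_re, Complex.ofReal_im, Complex.I_re,
      Complex.I_im, mul_zero, mul_one, zero_add, add_zero]

theorem cfrepa_sinh (z : ℂ) : (Complex.sinh z).re = sinh z.re * cos z.im ∧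
    (Complex.sinh z).im = cosh z.re * sin z.im := by
  have h : Complex.sinh z = ((sinh z.re * cos z.im : ℝ) : ℂ) +
      ((cosh z.re * sin z.im : ℝ) : ℂ) * Complex.I := by
    conv_lhs => rw [← Complex.re_add_im z]
    rw [Complex.sinh_add, Complex.cosh_mul_I, Complex.sinh_mul_I]
    push_cast
    ring
  rw [h]
  constructor
  · simp only [Complex.add_re, Complex.mul_re, Complex.ofReal_re, Complex.ofReal_im, Complex.I_re,
      Complex.I_im, mul_zero, zero_mul, sub_zero, add_zero]
  · simp only [Complex.add_im, Complex.mul_im, Complex.ofReal_re, Complex.ofReal_im, Complex.I_re,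
      Complex.I_im, mul_zero, mul_one, zero_add, add_zero]

theorem cfrepa_cosh_le (z : ℂ) : ‖Complex.cosh z‖ ≤ cosh z.re := by
  refine le_of_sq_le_sq ?_ (cosh_pos _).le
  rw [← Complex.normSq_eq_norm_sq, Complex.normSq_apply, (cfrepa_cosh z).1, (cfrepa_cosh z).2]
  have h1 := cosh_sq z.re
  have h2 := sin_sq_add_cos_sq z.im
  have h3 : cosh z.re * cos z.im * (cosh z.re * cos z.im) +
      sinh z.re * sin z.im * (sinh z.re * sin z.im) = cosh z.re ^ 2 - sin z.im ^ 2 := by
    linear_combination cosh z.re ^ 2 * h2 - sin z.im ^ 2 * h1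
  rw [h3]
  linarith [sq_nonneg (sin z.im)]

theorem cfrepa_sinh_le (z : ℂ) : ‖Complex.sinh z‖ ≤ cosh z.re := by
  refine le_of_sq_le_sq ?_ (cosh_pos _).le
  rw [← Complex.normSq_eq_norm_sq, Complex.normSq_apply, (cfrepa_sinh z).1, (cfrepa_sinh z).2]
  have h1 := cosh_sq z.re
  have h2 := sin_sq_add_cos_sq z.im
  have h3 : sinh z.re * cos z.im * (sinh z.re * cos z.im) +
      cosh z.re * sin z.im * (cosh z.re * sin z.im) = cosh z.re ^ 2 - cos z.im ^ 2 := by
    linear_combination cosh z.re ^ 2 * h2 - cos z.im ^ 2 * h1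
  rw [h3]
  linarith [sq_nonneg (cos z.im)]

theorem cfrepa_cosh_ge (z : ℂ) : cosh z.re * cos z.im ≤ ‖Complex.cosh z‖ := by
  rw [← (cfrepa_cosh z).1]
  exact Complex.re_le_norm _

theorem cfrepa_slit {w : ℂ} (hw : 0 < cos w.im) (s : ℝ) :
    Complex.cosh (w - s) ∈ Complex.slitPlane := by
  left
  rw [(cfrepa_cosh _).1]
  simp only [Complex.sub_im, Complex.ofReal_im, sub_zero]
  exact mul_pos (cosh_pos _) hw

theorem cfrepa_cont {w : ℂ} (hw : 0 < cos w.im) :
    Continuous fun s : ℝ => Complex.log (Complex.cosh (w - s)) - (lc s : ℝ) :=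
  (Continuous.clog (by fun_prop) (cfrepa_slit hw)).sub
    (Complex.continuous_ofReal.comp continuous_lc)

theorem cfrepa_cos {w : ℂ} (hw : w ∈ St (π / 2)) : 0 < cos w.im :=
  cos_pos_of_mem_Ioo ⟨by linarith [hw.1, pi_pos], hw.2⟩

variable (k : ℝ) (q : Measure ℝ) [IsFiniteMeasure q]

theorem integrable_log_cosh {w : ℂ} (hw : w ∈ St (π / 2)) :
    Integrable (fun s : ℝ => Complex.log (Complex.cosh (w - s)) - (lc s : ℝ)) q := by
  have hc := cfrepa_cos hw
  refine Integrable.of_bound (C := -log (cos w.im) + |w.re| + π)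
    (cfrepa_cont hc).aestronglyMeasurable (.of_forall fun s => ?_)
  refine (Complex.norm_le_abs_re_add_abs_im _).trans (add_le_add ?_ ?_)
  · have h1 := cfrepa_cosh_le (w - s)
    have h2 := cfrepa_cosh_ge (w - s)
    simp only [Complex.sub_im, Complex.ofReal_im, sub_zero, Complex.sub_re, Complex.ofReal_re]
      at h1 h2
    have h0 : 0 < cosh (w.re - s) * cos w.im := mul_pos (cosh_pos _) hc
    have h3 : log ‖Complex.cosh (w - s)‖ ≤ lc (w.re - s) := log_le_log (h0.trans_le h2) h1
    have h4 : lc (w.re - s) + log (cos w.im) ≤ log ‖Complex.cosh (w - s)‖ := by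
      rw [lc, ← log_mul (cosh_pos _).ne' hc.ne']
      exact log_le_log h0 h2
    have h5 := abs_lc_sub (w.re - s) (-s)
    rw [lc_neg, show w.re - s - -s = w.re by ring, abs_le] at h5
    have h6 : log (cos w.im) ≤ 0 := log_nonpos hc.le (cos_le_one _)
    rw [Complex.sub_re, Complex.ofReal_re, Complex.log_re, abs_le]
    constructor <;> linarith [h5.1, h5.2]
  · rw [Complex.sub_im, Complex.ofReal_im, sub_zero, Complex.log_im]
    exact Complex.abs_arg_le_pi _

theorem differentiableOn_HH : DifferentiableOn ℂ (HH k q) (St (π / 2)) := by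
  intro w hw
  have hc := cfrepa_cos hw
  have ho : IsOpen {z : ℂ | cos w.im / 2 < cos z.im} := isOpen_lt continuous_const (by fun_prop)
  have hU : {z : ℂ | cos w.im / 2 < cos z.im} ∈ 𝓝 w := ho.mem_nhds (half_lt_self hc)
  have hpos : ∀ z ∈ {z : ℂ | cos w.im / 2 < cos z.im}, 0 < cos z.im := fun z hz =>
    (half_pos hc).trans hz
  have h := hasDerivAt_integral_of_dominated_loc_of_deriv_le (μ := q)
    (F := fun (z : ℂ) (s : ℝ) => Complex.log (Complex.cosh (z - s)) - (lc s : ℝ))
    (F' := fun (z : ℂ) (s : ℝ) => Complex.sinh (z - s) / Complex.cosh (z - s))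
    (bound := fun _ => (cos w.im / 2)⁻¹) hU
    (by
      filter_upwards [hU] with z hz
      exact (cfrepa_cont (hpos z hz)).aestronglyMeasurable)
    (integrable_log_cosh q hw)
    (Continuous.div (by fun_prop) (by fun_prop)
      (fun s => Complex.slitPlane_ne_zero (cfrepa_slit hc s))).aestronglyMeasurable
    (.of_forall fun s z hz => by
      have h1 := cfrepa_sinh_le (z - s)
      have h2 := cfrepa_cosh_ge (z - s)
      simp only [Complex.sub_im, Complex.ofReal_im, sub_zero] at h2
      have h3 : cosh (z - s).re * (cos w.im / 2) ≤ cosh (z - s).re * cos z.im :=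
        mul_le_mul_of_nonneg_left (le_of_lt hz) (cosh_pos _).le
      have h0 : 0 < cosh (z - s).re * (cos w.im / 2) := mul_pos (cosh_pos _) (half_pos hc)
      rw [norm_div]
      refine (div_le_div₀ (cosh_pos _).le h1 h0 (h3.trans h2)).trans (le_of_eq ?_)
      rw [div_mul_cancel_left₀ (cosh_pos _).ne'])
    (integrable_const _)
    (.of_forall fun s z hz => by
      have h1 : HasDerivAt (fun z : ℂ => Complex.cosh (z - s)) (Complex.sinh (z - s) * 1) z :=
        ((hasDerivAt_id' z).sub_const (s : ℂ)).ccosh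
      rw [mul_one] at h1
      exact (h1.clog (cfrepa_slit (hpos z hz) s)).sub_const _)
  exact (((differentiableAt_id.const_mul (k : ℂ)).sub h.2.differentiableAt)).differentiableWithinAt

theorem im_HH {w : ℂ} (hw : w ∈ St (π / 2)) : (HH k q w).im = uu k q w := by
  have h := Complex.imCLM.integral_comp_comm (integrable_log_cosh q hw)
  simp only [Complex.imCLM_apply, Complex.sub_im, Complex.ofReal_im, sub_zero,
    Complex.log_im] at h
  rw [HH, uu, Complex.sub_im, Complex.im_ofReal_mul, h]

end Pool.Agent.PSF.CL
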