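import Pool.Agent.P.MP_7b7370_an.CFRepA

/-! The real part of the model logarithm. -/

set_option autoImplicit false

namespace Pool.Agent.PSF.CL

open Real Set MeasureTheory Filter Topology
open scoped ENNReal NNReal

theorem cfrepd_norm (x s t : ℝ) : ‖Complex.cosh (ka (x, t) - s)‖ ^ 2 =
    cosh (x - s) ^ 2 * (1 - cos t ^ 2 * X s x) := by
  have e : ka (x, t) - s = ((x - s : ℝ) : ℂ) + ((π / 2 - t : ℝ) : ℂ) * Complex.I := by
    apply Complex.ext <;> simp [ka]
  rw [e, Complex.cosh_add, Complex.cosh_mul_I, Complex.sinh_mul_I, ← Complex.ofReal_cosh,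
    ← Complex.ofReal_sinh, ← Complex.ofReal_cos, ← Complex.ofReal_sin, ← mul_assoc,
    ← Complex.ofReal_mul, ← Complex.ofReal_mul, Complex.sq_norm, Complex.normSq_add_mul_I,
    cos_pi_div_two_sub, sin_pi_div_two_sub, X_eq]
  have h := (cosh_pos (x - s)).ne'
  field_simp
  linear_combination cosh (x - s) ^ 2 * sin_sq_add_cos_sq t - cos t ^ 2 * cosh_sq (x - s)

theorem re_HH (c k : ℝ) (q : Measure ℝ) [IsFiniteMeasure q] {w : ℝ × ℝ} (hw : w ∈ Sig) :
    exp (c + 2 * (HH k q (ka w)).re) = WW c k q w := by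
  obtain ⟨x, t⟩ := w
  obtain ⟨-, h0, h1⟩ := hw
  have hk : ka (x, t) ∈ St (π / 2) := ⟨by simp only [ka]; linarith, by simp only [ka]; linarith⟩
  have hs : 0 < sin t := sin_pos_of_pos_of_lt_pi h0 (by linarith [pi_pos])
  have hp : ∀ s, 0 < 1 - cos t ^ 2 * X s x := fun s => by
    have := mul_le_of_le_one_right (sq_nonneg (cos t)) (X_le_one s x)
    nlinarith [sin_sq_add_cos_sq t]
  have e : ∀ s : ℝ, log (1 - cos t ^ 2 * X s x) =
      2 * (Complex.log (Complex.cosh (ka (x, t) - s)) - (lc s : ℝ)).re -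
        2 * (lc (x - s) - lc s) := fun s => by
    have h := congrArg log (cfrepd_norm x s t)
    rw [log_mul (pow_pos (cosh_pos _) 2).ne' (hp s).ne', log_pow, log_pow] at h
    rw [Complex.sub_re, Complex.log_re, Complex.ofReal_re, lc, lc]
    push_cast at h
    linarith
  have hi := integrable_log_cosh q hk
  have h2 := integral_re hi
  have h3 := hi.re
  simp only [RCLike.re_to_complex] at h2 h3
  simp only [WW, wq, psi, e, HH]
  rw [← exp_add, integral_sub (h3.const_mul 2) ((integrable_lc_sub q x).const_mul 2),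
    integral_const_mul, integral_const_mul, h2]
  congr 1
  simp [ka]
  ring

end Pool.Agent.PSF.CL
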