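import Pool.Agent.P.MP_7b7370_an.CLDefs

/-! First properties of the strip map. -/

set_option autoImplicit false

namespace Pool.Agent.PSF.CL

open Real Set MeasureTheory Filter Topology
open scoped ENNReal NNReal

variable {C : Set ℂ} {G Ψ : ℂ → ℂ}

theorem cfstrip_conj {w : ℂ} (hw : w ∈ Sg) : (starRingEnd ℂ) w ∈ Sg := by
  simp only [Sg, mem_ofPred_eq, Complex.conj_im, abs_neg] at hw ⊢
  exact hw

theorem cfstrip_real (h : SM Sg C G Ψ) {w : ℂ} (hw : w ∈ Sg) (h0 : w.im = 0) : (G w).im = 0 := by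
  have h1 := h.cj w hw
  rw [Complex.conj_eq_iff_im.2 h0] at h1
  exact Complex.conj_eq_iff_im.1 h1.symm

theorem cfstrip_chain (ho : IsOpen C) (h : SM Sg C G Ψ) {w : ℂ} (hw : w ∈ Sg) :
    HasDerivAt Ψ (deriv Ψ (G w)) (G w) ∧ deriv Ψ (G w) * deriv G w = 1 := by
  have h1 : HasDerivAt G (deriv G w) w :=
    (h.dG.differentiableAt (isOpen_Sg.mem_nhds hw)).hasDerivAt
  have h2 : HasDerivAt Ψ (deriv Ψ (G w)) (G w) :=
    (h.dΨ.differentiableAt ((isOpen_Om ho).mem_nhds (h.mG hw))).hasDerivAt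
  have h3 := h2.comp w h1
  have h4 : HasDerivAt (Ψ ∘ G) 1 w := (hasDerivAt_id w).congr_of_eventuallyEq (by
    filter_upwards [isOpen_Sg.mem_nhds hw] with z hz
    exact h.left z hz)
  exact ⟨h2, h3.unique h4⟩

theorem SM.im_real (h : SM Sg C G Ψ) (x : ℝ) : (G x).im = 0 :=
  cfstrip_real h (ofReal_mem_Sg x) (Complex.ofReal_im x)

theorem SM.im_nonneg (h : SM Sg C G Ψ) {w : ℂ} (hw : w ∈ Sg) (h0 : 0 ≤ w.im) :
    0 ≤ (G w).im := by
  rcases h0.eq_or_lt with h1 | h1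
  · exact (cfstrip_real h hw h1.symm).ge
  · exact (h.up w hw h1).le

theorem SM.mem (h : SM Sg C G Ψ) {w : ℂ} (hw : w ∈ Sg) (h0 : 0 ≤ w.im) : G w ∈ C := by
  have h1 : fo (G w) ∈ C := h.mG hw
  rwa [fo_of_nonneg (h.im_nonneg hw h0)] at h1

theorem SM.inj (h : SM Sg C G Ψ) : InjOn G Sg := fun a ha b hb e => by
  rw [← h.left a ha, e, h.left b hb]

theorem SM.inv_real (h : SM Sg C G Ψ) {z : ℂ} (hz : z ∈ Om C) (h0 : z.im = 0) :
    (Ψ z).im = 0 := by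
  have hw := h.mΨ hz
  have h1 := h.cj _ hw
  rw [h.right z hz, Complex.conj_eq_iff_im.2 h0] at h1
  refine Complex.conj_eq_iff_im.1 (h.inj (cfstrip_conj hw) hw ?_)
  rw [h1, h.right z hz]

theorem SM.image (h : SM Sg C G Ψ) : G '' St (π / 2) = C ∩ {z | 0 < z.im} := by
  ext z
  constructor
  · rintro ⟨w, hw, rfl⟩
    exact ⟨h.mem (St_subset_Sg hw) hw.1.le, h.up w (St_subset_Sg hw) hw.1⟩
  · rintro ⟨h1, h2⟩
    have h2' : 0 < z.im := h2
    have hz : z ∈ Om C := by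
      show fo z ∈ C
      rwa [fo_of_nonneg h2'.le]
    have hw := h.mΨ hz
    refine ⟨Ψ z, ⟨?_, (abs_lt.1 hw).2⟩, h.right z hz⟩
    by_contra h3
    push Not at h3
    have h4 := h.im_nonneg (cfstrip_conj hw) (by rw [Complex.conj_im]; linarith)
    rw [h.cj _ hw, h.right z hz, Complex.conj_im] at h4
    linarith

theorem SM.deriv_ne (ho : IsOpen C) (h : SM Sg C G Ψ) {w : ℂ} (hw : w ∈ Sg) :
    deriv G w ≠ 0 :=
  right_ne_zero_of_mul_eq_one (cfstrip_chain ho h hw).2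

theorem SM.hasDerivAt_inv (ho : IsOpen C) (h : SM Sg C G Ψ) {w : ℂ} (hw : w ∈ Sg) :
    HasDerivAt Ψ (deriv G w)⁻¹ (G w) := by
  obtain ⟨h1, h2⟩ := cfstrip_chain ho h hw
  rwa [eq_inv_of_mul_eq_one_left h2] at h1

end Pool.Agent.PSF.CL
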