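import Pool.Agent.P.MP_7b7370_an.CLDefs

/-! From the disc to the strip. -/

set_option autoImplicit false

namespace Pool.Agent.PSF.CL

open Real Set MeasureTheory Filter Topology
open scoped ENNReal NNReal

theorem cfstripa_re {w : ℂ} (hw : w ∈ Sg) : 0 < (Complex.exp w).re := by
  rw [Complex.exp_re]
  exact mul_pos (exp_pos _) (cos_pos_of_mem_Ioo (abs_lt.1 hw))

theorem cfstripa_ne {e : ℂ} (he : 0 < e.re) : e + 1 ≠ 0 := fun h => by
  have := congrArg Complex.re h
  simp only [Complex.add_re, Complex.one_re, Complex.zero_re] at this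
  linarith

theorem cfstripa_ball {e : ℂ} (he : 0 < e.re) : (e - 1) / (e + 1) ∈ Metric.ball (0 : ℂ) 1 := by
  rw [mem_ball_zero_iff, norm_div, div_lt_one (norm_pos_iff.2 (cfstripa_ne he))]
  refine lt_of_pow_lt_pow_left₀ 2 (norm_nonneg _) ?_
  rw [Complex.sq_norm, Complex.sq_norm, Complex.normSq_apply, Complex.normSq_apply]
  simp only [Complex.add_re, Complex.sub_re, Complex.add_im, Complex.sub_im, Complex.one_re,
    Complex.one_im]
  nlinarith

theorem cfstripa_ne' {u : ℂ} (hu : u ∈ Metric.ball (0 : ℂ) 1) : 1 - u ≠ 0 := fun h => by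
  rw [mem_ball_zero_iff, ← sub_eq_zero.1 h] at hu
  simp at hu

theorem cfstripa_re' {u : ℂ} (hu : u ∈ Metric.ball (0 : ℂ) 1) : 0 < ((1 + u) / (1 - u)).re := by
  have h0 := Complex.normSq_pos.2 (cfstripa_ne' hu)
  rw [mem_ball_zero_iff] at hu
  have h1 : ‖u‖ ^ 2 < 1 := pow_lt_one₀ (norm_nonneg _) hu two_ne_zero
  rw [Complex.sq_norm, Complex.normSq_apply] at h1
  rw [Complex.div_re, ← add_div]
  refine div_pos ?_ h0
  simp only [Complex.add_re, Complex.sub_re, Complex.add_im, Complex.sub_im, Complex.one_re,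
    Complex.one_im]
  nlinarith

theorem cfstripa_im {w : ℂ} (hw : w ∈ Sg) (h : 0 < w.im) :
    0 < ((Complex.exp w - 1) / (Complex.exp w + 1)).im := by
  have h0 := Complex.normSq_pos.2 (cfstripa_ne (cfstripa_re hw))
  have h1 : 0 < (Complex.exp w).im := by
    rw [Complex.exp_im]
    have := (abs_lt.1 (show |w.im| < π / 2 from hw)).2
    exact mul_pos (exp_pos _) (sin_pos_of_pos_of_lt_pi h (by linarith [pi_pos]))
  rw [Complex.div_im, ← sub_div]
  refine div_pos ?_ h0
  simp only [Complex.add_re, Complex.sub_re, Complex.add_im, Complex.sub_im, Complex.one_re,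
    Complex.one_im]
  nlinarith

theorem SM.strip {C : Set ℂ} {g Γ : ℂ → ℂ} (h : SM (Metric.ball 0 1) C g Γ) :
    ∃ G Ψ : ℂ → ℂ, SM Sg C G Ψ := by
  have m1 : MapsTo (fun w => (Complex.exp w - 1) / (Complex.exp w + 1)) Sg (Metric.ball 0 1) :=
    fun w hw => cfstripa_ball (cfstripa_re hw)
  have d1 : DifferentiableOn ℂ (fun w => (Complex.exp w - 1) / (Complex.exp w + 1)) Sg :=
    DifferentiableOn.div (by fun_prop) (by fun_prop) fun w hw => cfstripa_ne (cfstripa_re hw)
  have d2 : DifferentiableOn ℂ (fun u => Complex.log ((1 + u) / (1 - u))) (Metric.ball 0 1) :=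
    DifferentiableOn.clog (DifferentiableOn.div (by fun_prop) (by fun_prop)
      fun u hu => cfstripa_ne' hu) fun u hu => Or.inl (cfstripa_re' hu)
  refine ⟨fun w => g ((Complex.exp w - 1) / (Complex.exp w + 1)),
    fun z => Complex.log ((1 + Γ z) / (1 - Γ z)), h.dG.comp d1 m1, d2.comp h.dΨ h.mΨ,
    fun w hw => h.mG (m1 hw), fun z hz => ?_, fun w hw => ?_, fun z hz => ?_, fun w hw => ?_,
    fun w hw hi => h.up _ (m1 hw) (cfstripa_im hw hi)⟩
  · change |(Complex.log ((1 + Γ z) / (1 - Γ z))).im| < π / 2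
    rw [Complex.log_im]
    exact Complex.abs_arg_lt_pi_div_two_iff.2 (Or.inl (cfstripa_re' (h.mΨ hz)))
  · have hn := cfstripa_ne (cfstripa_re hw)
    have hb := abs_lt.1 (show |w.im| < π / 2 from hw)
    have e : (1 + (Complex.exp w - 1) / (Complex.exp w + 1)) /
        (1 - (Complex.exp w - 1) / (Complex.exp w + 1)) = Complex.exp w := by
      rw [div_eq_iff (cfstripa_ne' (m1 hw))]
      field_simp
      ring
    rw [h.left _ (m1 hw), e]
    exact Complex.log_exp (by linarith [pi_pos]) (by linarith [pi_pos])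
  · have hn := cfstripa_ne' (h.mΨ hz)
    have hr := cfstripa_re' (h.mΨ hz)
    have h0 : (1 + Γ z) / (1 - Γ z) ≠ 0 := fun e => by simp [e] at hr
    have e : ((1 + Γ z) / (1 - Γ z) - 1) / ((1 + Γ z) / (1 - Γ z) + 1) = Γ z := by
      rw [div_eq_iff (cfstripa_ne hr)]
      field_simp
      ring
    rw [Complex.exp_log h0, e]
    exact h.right z hz
  · rw [← h.cj _ (m1 hw), Complex.exp_conj]
    simp

end Pool.Agent.PSF.CL
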