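import Pool.Agent.P.MP_7b7370_an.CFSubA
import Pool.Agent.P.MP_7b7370_an.CFRep
import Pool.Agent.P.MP_7b7370_an.CFBndB

/-! The inequality on substrips. -/

set_option autoImplicit false

namespace Pool.Agent.PSF.CL

open Real Set MeasureTheory Filter Topology
open scoped ENNReal NNReal

theorem sub_ineq {C : Set ℂ} {β γ φ : ℝ} {G Ψ F : ℂ → ℂ} {v : ℂ → ℝ} (hC : Cell C β γ)
    (h : SM Sg C G Ψ) (hF : LG G F) (hM : ∀ p, 0 < p → p ≤ (β + γ) / π → Model p φ)
    (hv : ContDiff ℝ 1 v) (hc : HasCompactSupport v)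
    (hd : ∀ z ∈ closure C, z.im = 0 → z ∉ tsupport v) {b : ℝ} (hb0 : 0 < b) (hb : b < π / 2) :
    ENNReal.ofReal φ * ∫⁻ z in G '' St b, ENNReal.ofReal (v z ^ 2) ≤
      volume (G '' St b) * ∫⁻ z in G '' St b, ENNReal.ofReal (‖fderiv ℝ v z‖ ^ 2) := by
  have hp : 0 < π / 2 := by positivity
  set l : ℝ := b / (π / 2) with hl
  have l0 : 0 < l := div_pos hb0 hp
  have lb : l * (π / 2) = b := div_mul_cancel₀ _ hp.ne'
  have him : ∀ w : ℂ, ((l : ℂ) * w).im = l * w.im := fun w => by simp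
  have hre : ∀ w : ℂ, ((l : ℂ) * w).re = l * w.re := fun w => by simp
  have m1 : ∀ w ∈ Sc (π / 2), (l : ℂ) * w ∈ Sc b := fun w hw =>
    ⟨him w ▸ mul_nonneg l0.le hw.1, by rw [him, ← lb]; exact mul_le_mul_of_nonneg_left hw.2 l0.le⟩
  have m2 : ∀ w ∈ Sc (π / 2), (l : ℂ) * w ∈ Sg := fun w hw => Sc_subset_Sg hb (m1 w hw)
  have lc0 : (l : ℂ) ≠ 0 := by exact_mod_cast l0.ne'
  have img : (fun w => G (l * w)) '' St (π / 2) = G '' St b := by
    ext z
    constructor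
    · rintro ⟨w, hw, rfl⟩
      exact ⟨l * w, ⟨him w ▸ mul_pos l0 hw.1, by
        rw [him, ← lb]; exact mul_lt_mul_of_pos_left hw.2 l0⟩, rfl⟩
    · rintro ⟨w, hw, rfl⟩
      have e : (l : ℂ) * (w / l) = w := mul_div_cancel₀ _ lc0
      have e2 := him (w / l)
      rw [e] at e2
      refine ⟨w / l, ⟨(mul_pos_iff_of_pos_left l0).1 (e2 ▸ hw.1), ?_⟩, by simp only [e]⟩
      exact lt_of_mul_lt_mul_left (by rw [← e2, lb]; exact hw.2) l0.le
  have dl : ∀ w : ℂ, HasDerivAt (fun w : ℂ => (l : ℂ) * w) l w := fun w => by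
    simpa using (hasDerivAt_id w).const_mul (l : ℂ)
  have dG : ∀ w ∈ Sc (π / 2), HasDerivAt (fun w => G (l * w)) (deriv G (l * w) * l) w :=
    fun w hw => ((h.dG.differentiableAt (isOpen_Sg.mem_nhds (m2 w hw))).hasDerivAt).comp w (dl w)
  have dF : ∀ w ∈ Sc (π / 2), DifferentiableAt ℂ (fun w => F (l * w) + (Real.log l : ℝ)) w :=
    fun w hw => ((hF.dF.differentiableAt (isOpen_Sg.mem_nhds (m2 w hw))).comp w
      (dl w).differentiableAt).add_const _
  obtain ⟨c, k, q, hq, q1, q2⟩ := rep (F := fun w => F (l * w) + (Real.log l : ℝ)) (β := β) (γ := γ)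
    (fun w hw => (dF w (St_subset_Sc _ hw)).differentiableWithinAt)
    (fun w hw => (dF w hw).continuousAt.continuousWithinAt)
    (fun x => by
      rw [Complex.add_im, Complex.ofReal_im, add_zero, ← Complex.ofReal_mul]; exact hF.im_real _)
    (fun w hw => by
      rw [Complex.add_im, Complex.ofReal_im, add_zero]
      exact hF.im_mem hC h (m2 w hw) (m1 w hw).1)
    (fun x y hxy => by
      have e : ∀ x : ℝ, (l : ℂ) * ⟨x, π / 2⟩ = ⟨l * x, b⟩ := fun x =>
        Complex.ext (hre _) ((him _).trans lb)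
      simp only [Complex.add_im, Complex.ofReal_im, add_zero, e]
      exact hF.anti hC h hb0.le hb (mul_le_mul_of_nonneg_left hxy l0.le))
  obtain ⟨K, hK⟩ := hF.lip hC h hb0 hb
  obtain ⟨R, δ, δ0, hR⟩ := hF.box hC h hb0 hb hc hd
  have hK' : LipschitzOnWith (K * ‖(l : ℂ)‖₊) (fun w => G (l * w)) (Sc (π / 2)) :=
    hK.comp (lipschitzWith_smul (l : ℂ)).lipschitzOnWith m1
  rw [← img]
  refine strip_ineq (c := c) (k := k) (q := q) (R := R / l) (δ := δ / l)
    (fun w hw => (dG w (St_subset_Sc _ hw)).differentiableAt.differentiableWithinAt)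
    (fun w hw w' hw' e => mul_left_cancel₀ lc0
      (h.inj (m2 w (St_subset_Sc _ hw)) (m2 w' (St_subset_Sc _ hw')) e))
    hK' hv hc (div_pos δ0 l0) (fun w hw e => ?_) (fun w hw => ?_) ?_
    (q1.trans_lt ((div_lt_one pi_pos).2 hC.lt)) fun h0 => hM _ h0 q1
  · obtain ⟨r1, r2⟩ := hR _ (m1 w hw) e
    rw [hre, abs_mul, abs_of_pos l0] at r1
    rw [him] at r2
    exact ⟨(lt_div_iff₀' l0).2 r1, (div_lt_iff₀' l0).2 r2⟩
  · have hw' := St_subset_Sc _ (ka_mem hw)
    rw [← q2 w hw, (dG _ hw').deriv, ← hF.ex _ (m2 _ hw'), norm_mul, Complex.norm_exp,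
      Complex.norm_real, Real.norm_of_nonneg l0.le, Complex.add_re, Complex.ofReal_re, two_mul,
      exp_add, exp_add, exp_log l0, sq]
  · rw [img]
    refine ((measure_mono ?_).trans_lt hC.bd.measure_lt_top).ne
    rw [← h.image]
    exact image_mono fun w hw => ⟨hw.1, hw.2.trans hb⟩

end Pool.Agent.PSF.CL
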