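import Pool.Agent.P.MP_7b7370_an.CLExpA

/-! Expansion of the model weight. -/

set_option autoImplicit false

namespace Pool.Agent.PSF.CL

open Real Set MeasureTheory Filter Topology
open scoped ENNReal NNReal

theorem clexp_int {p : ℝ} (hp : 0 < p) (f : ℝ → ℝ) :
    ∫ s, f s ∂(ENNReal.ofReal p • Measure.dirac (0 : ℝ)) = p * f 0 := by
  rw [integral_smul_measure, integral_dirac, ENNReal.toReal_ofReal hp.le, smul_eq_mul]

theorem clexp_wq {p : ℝ} (hp : 0 < p) (x : ℝ) :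
    wq 0 0 (ENNReal.ofReal p • Measure.dirac (0 : ℝ)) x = sg p x := by
  rw [wq, psi, clexp_int hp, sg, sub_zero, lc_zero]
  congr 1; ring

theorem clexp_pow (N : ℕ) (x : ℝ) : sg 1 x ^ N = sg N x := by
  rw [sg, sg, ← exp_nat_mul]
  congr 1; ring

theorem clexp_eN {p : ℝ} (hp : 0 < p) (N : ℕ) (x : ℝ) :
    eN 0 0 (ENNReal.ofReal p • Measure.dirac (0 : ℝ)) N x =
      ENNReal.ofReal (aN p N) * ENNReal.ofReal (sg (p + N) x) := by
  have h : PP (ENNReal.ofReal p • Measure.dirac (0 : ℝ)) x = fun j => p * sg 1 x ^ j := by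
    funext j
    rw [PP, clexp_int hp, X_zero]
  rw [eN, clexp_wq hp, h, hN_const, clexp_pow, sg_add, ← ENNReal.ofReal_mul (aN_nonneg hp.le N)]
  congr 1; ring

theorem clexp_WW {p : ℝ} (hp : 0 < p) {w : ℝ × ℝ} (hw : w.1 ≠ 0) :
    Wp p w = WW 0 0 (ENNReal.ofReal p • Measure.dirac (0 : ℝ)) w := by
  have h1 : 0 < sinh w.1 ^ 2 + sin w.2 ^ 2 := by
    have : sinh w.1 ≠ 0 := by simpa using hw
    positivity
  have hc := cosh_pos w.1
  have h2 : 1 - cos w.2 ^ 2 * X 0 w.1 = (sinh w.1 ^ 2 + sin w.2 ^ 2) / cosh w.1 ^ 2 := by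
    rw [X_eq, sub_zero]
    field_simp
    rw [cosh_sq, sin_sq]; ring
  rw [WW, clexp_wq hp, clexp_int hp, h2, Wp, rpow_def_of_pos h1, sg, ← exp_add,
    log_div h1.ne' (by positivity), log_pow, lc]
  congr 1
  push_cast
  ring

theorem clexp_ae : ∀ᵐ w : ℝ × ℝ, w.1 ≠ 0 :=
  (Measure.quasiMeasurePreserving_fst (μ := (volume : Measure ℝ)) (ν := (volume : Measure ℝ))).ae
    (Measure.ae_ne volume 0)

theorem lint_Wp {p : ℝ} (hp : 0 < p) {φ : ℝ × ℝ → ℝ≥0∞} (hφ : Measurable φ) :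
    ∫⁻ w in Str, ENNReal.ofReal (Wp p w) * φ w =
      ∑' N, ENNReal.ofReal (aN p N) *
        ∫⁻ w : ℝ × ℝ, ct N w.2 * ENNReal.ofReal (sg (p + N) w.1) * φ w := by
  have : IsFiniteMeasure (ENNReal.ofReal p • Measure.dirac (0 : ℝ)) :=
    Measure.smul_finite _ ENNReal.ofReal_ne_top
  have h1 : ∫⁻ w in Str, ENNReal.ofReal (Wp p w) * φ w = ∫⁻ w in Str,
      ENNReal.ofReal (WW 0 0 (ENNReal.ofReal p • Measure.dirac (0 : ℝ)) w) * φ w := by
    refine lintegral_congr_ae (ae_restrict_of_ae ?_)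
    filter_upwards [clexp_ae] with w hw
    rw [clexp_WW hp hw]
  rw [h1, lint_WW _ _ _ hφ]
  refine tsum_congr fun N => ?_
  rw [← lintegral_const_mul' _ _ ENNReal.ofReal_ne_top]
  refine lintegral_congr fun w => ?_
  rw [clexp_eN hp]
  ring

theorem lint_Wp_one {p : ℝ} (hp : 0 < p) :
    ∫⁻ w in Str, ENNReal.ofReal (Wp p w) =
      ∑' N, ENNReal.ofReal (aN p N) * SS (p + N) * cN N := by
  have : IsFiniteMeasure (ENNReal.ofReal p • Measure.dirac (0 : ℝ)) :=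
    Measure.smul_finite _ ENNReal.ofReal_ne_top
  have h1 : ∫⁻ w in Str, ENNReal.ofReal (Wp p w) = ∫⁻ w in Str,
      ENNReal.ofReal (WW 0 0 (ENNReal.ofReal p • Measure.dirac (0 : ℝ)) w) := by
    refine lintegral_congr_ae (ae_restrict_of_ae ?_)
    filter_upwards [clexp_ae] with w hw
    rw [clexp_WW hp hw]
  rw [h1, lint_WW_one]
  refine tsum_congr fun N => ?_
  rw [SS, ← lintegral_const_mul' _ _ ENNReal.ofReal_ne_top]
  simp only [clexp_eN hp]

end Pool.Agent.PSF.CL
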