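import Pool.Agent.P.MP_7b7370_an.CLBath

/-! One-dimensional majorisation from inequality (K). -/

set_option autoImplicit false

namespace Pool.Agent.PSF.CL

open Real Set MeasureTheory Filter Topology
open scoped ENNReal NNReal

theorem clmaj_level {ψ : ℝ → ℝ} (hc : Continuous ψ)
    (hfin : ∫⁻ x, ENNReal.ofReal (exp (-ψ x)) ≠ ∞) (L : ℝ) : ∃ a, ψ a = ψ (a + L) := by
  have hc' : Continuous fun x => ψ (x + L) := by fun_prop
  have e := lintegral_add_right_eq_self (μ := volume) (fun x => ENNReal.ofReal (exp (-ψ x))) L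
  by_cases h1 : ∃ x, ψ x ≤ ψ (x + L)
  · by_cases h2 : ∃ x, ψ (x + L) ≤ ψ x
    · obtain ⟨x, hx⟩ := h1
      obtain ⟨y, hy⟩ := h2
      exact intermediate_value_univ₂ hc hc' hx hy
    · push Not at h2
      refine absurd e (ne_of_lt (lintegral_strict_mono (NeZero.ne _) (by fun_prop) (e ▸ hfin)
        (.of_forall fun x => ?_)))
      exact (ENNReal.ofReal_lt_ofReal_iff (exp_pos _)).2 (exp_lt_exp.2 (neg_lt_neg (h2 x)))
  · push Not at h1
    refine absurd e (ne_of_gt (lintegral_strict_mono (NeZero.ne _) (by fun_prop) hfin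
      (.of_forall fun x => ?_)))
    exact (ENNReal.ofReal_lt_ofReal_iff (exp_pos _)).2 (exp_lt_exp.2 (neg_lt_neg (h1 x)))

theorem clmaj_compl {f : ℝ → ℝ≥0∞} (hf : Measurable f) {a b : ℝ} (hab : a < b) :
    ∫⁻ x in (Ioo a b)ᶜ, f x = ∫⁻ y in Ioi (0 : ℝ), (f (a - y) + f (b + y)) := by
  have h1 := (volume.measurePreserving_sub_left a).setLIntegral_comp_preimage_emb
    (Homeomorph.subLeft a).measurableEmbedding f (Iio a)
  have h2 := (measurePreserving_add_left volume b).setLIntegral_comp_preimage_emb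
    (measurableEmbedding_addLeft b) f (Ioi b)
  rw [preimage_const_sub_Iio, sub_self] at h1
  rw [preimage_const_add_Ioi, sub_self] at h2
  have e : (Ioo a b)ᶜ = Iic a ∪ Ici b := by
    ext x
    simp only [mem_compl_iff, mem_Ioo, mem_union, mem_Iic, mem_Ici, not_and_or, not_lt]
  rw [e, lintegral_union measurableSet_Ici (Iic_disjoint_Ici.2 (not_le.2 hab)),
    lintegral_add_left (by fun_prop), h1, h2, setLIntegral_congr Iio_ae_eq_Iic,
    setLIntegral_congr Ioi_ae_eq_Ici]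

theorem clmaj_exp {A B C : ℝ} (h : 2 * C ≤ A + B) : exp C + exp C ≤ exp A + exp B := by
  have h1 := add_one_le_exp (A - C)
  have h2 := add_one_le_exp (B - C)
  have e1 : exp A = exp C * exp (A - C) := by rw [← exp_add]; congr 1; ring
  have e2 : exp B = exp C * exp (B - C) := by rw [← exp_add]; congr 1; ring
  rw [e1, e2]
  nlinarith [exp_pos C]

theorem clmaj_out {ψ ψ₀ : ℝ → ℝ} (hc : Continuous ψ) (hc₀ : Continuous ψ₀)
    (hm : ∀ x y, |x| ≤ |y| → ψ₀ x ≤ ψ₀ y) (hK : KI ψ ψ₀) {a l : ℝ} (hl : 0 < l)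
    (ha : ψ a = ψ (a + 2 * l)) :
    ENNReal.ofReal (exp (-ψ a + ψ₀ l)) * ∫⁻ x in (Ioo (-l) l)ᶜ, ENNReal.ofReal (exp (-ψ₀ x)) ≤
      ∫⁻ x in (Ioo a (a + 2 * l))ᶜ, ENNReal.ofReal (exp (-ψ x)) := by
  rw [clmaj_compl (by fun_prop) (by linarith), clmaj_compl (by fun_prop) (by linarith),
    ← lintegral_const_mul _ (by fun_prop)]
  refine setLIntegral_mono' measurableSet_Ioi fun y hy => ?_
  have hy0 : 0 < y := hy
  have h1 := hK (a - y) (a + 2 * l + y) y y hy0 hy0 (by linarith)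
  have e1 : (y + y) / 2 / y = 1 := by field_simp; ring
  have e2 : (a + 2 * l + y - (a - y)) / 2 = l + y := by ring
  have e3 : (a + 2 * l + y - (a - y) - y - y) / 2 = l := by ring
  rw [e1, e2, e3, sub_add_cancel, add_sub_cancel_right, ← ha] at h1
  have e4 : ψ₀ (-l - y) = ψ₀ (l + y) := by
    have e : |-l - y| = |l + y| := by rw [← abs_neg]; congr 1; ring
    exact le_antisymm (hm _ _ e.le) (hm _ _ e.ge)
  rw [e4, ← ENNReal.ofReal_add (exp_pos _).le (exp_pos _).le,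
    ← ENNReal.ofReal_add (exp_pos _).le (exp_pos _).le, ← ENNReal.ofReal_mul (exp_pos _).le,
    mul_add, ← exp_add]
  exact ENNReal.ofReal_le_ofReal (clmaj_exp (by linarith))

theorem clmaj_in {ψ ψ₀ : ℝ → ℝ} (hc : Continuous ψ) (hc₀ : Continuous ψ₀)
    (hm : ∀ x y, |x| ≤ |y| → ψ₀ x ≤ ψ₀ y) (hK : KI ψ ψ₀) {a l : ℝ}
    (ha : ψ a = ψ (a + 2 * l)) (hin : ∀ x ∈ Ioo a (a + 2 * l), ψ x ≤ ψ a) :
    ∫⁻ x in Ioo a (a + 2 * l), ENNReal.ofReal (exp (-ψ x)) ≤
      ENNReal.ofReal (exp (-ψ a + ψ₀ l)) * ∫⁻ x in Ioo (-l) l, ENNReal.ofReal (exp (-ψ₀ x)) := by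
  rw [← lintegral_const_mul _ (by fun_prop)]
  simp only [← ENNReal.ofReal_mul (exp_pos _).le, ← exp_add]
  rw [lintegral_eq_lintegral_meas_lt _ (.of_forall fun x => (exp_pos _).le) (by fun_prop),
    lintegral_eq_lintegral_meas_lt _ (.of_forall fun x => (exp_pos _).le) (by fun_prop)]
  refine lintegral_mono fun t => ?_
  rw [Measure.restrict_apply' measurableSet_Ioo, Measure.restrict_apply' measurableSet_Ioo]
  have key : ∀ x ∈ {x | t < exp (-ψ x)} ∩ Ioo a (a + 2 * l),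
      ∀ y ∈ {x | t < exp (-ψ x)} ∩ Ioo a (a + 2 * l), x ≤ y →
      edist x y ≤ volume ({x | t < exp (-ψ a + ψ₀ l + -ψ₀ x)} ∩ Ioo (-l) l) := by
    rintro x ⟨x1, x2⟩ y ⟨y1, y2⟩ hxy
    have hu : 0 < x - a := sub_pos.2 x2.1
    have hv : 0 < a + 2 * l - y := sub_pos.2 y2.2
    have h1 := hK a (a + 2 * l) (x - a) (a + 2 * l - y) hu hv (by linarith)
    have e2 : (a + 2 * l - a) / 2 = l := by ring
    have e3 : (a + 2 * l - a - (x - a) - (a + 2 * l - y)) / 2 = (y - x) / 2 := by ring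
    rw [e2, e3, add_sub_cancel, sub_sub_cancel, ← ha] at h1
    generalize x - a = u at hu h1
    generalize a + 2 * l - y = v at hv h1
    have h2 : 2 ≤ (u + v) / 2 / u + (u + v) / 2 / v := by
      rw [div_add_div _ _ hu.ne' hv.ne', le_div_iff₀ (mul_pos hu hv)]
      nlinarith [sq_nonneg (u - v)]
    have p1 : 0 ≤ (u + v) / 2 / u := by positivity
    have p2 : 0 ≤ (u + v) / 2 / v := by positivity
    have q1 := sub_nonneg.2 (hin x x2)
    have q2 := sub_nonneg.2 (hin y y2)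
    have h3 : t < exp (-ψ a + ψ₀ l + -ψ₀ ((y - x) / 2)) := by
      rcases le_total (ψ x) (ψ y) with h | h
      · refine lt_of_lt_of_le y1 (exp_le_exp.2 ?_)
        nlinarith [mul_le_mul_of_nonneg_right h2 q2, mul_nonneg p1 (sub_nonneg.2 h)]
      · refine lt_of_lt_of_le x1 (exp_le_exp.2 ?_)
        nlinarith [mul_le_mul_of_nonneg_right h2 q1, mul_nonneg p2 (sub_nonneg.2 h)]
    have h4 : Ioo (-((y - x) / 2)) ((y - x) / 2) ⊆
        {x | t < exp (-ψ a + ψ₀ l + -ψ₀ x)} ∩ Ioo (-l) l := by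
      intro z hz
      have h5 := hm z ((y - x) / 2) ((abs_lt.2 hz).le.trans (le_abs_self _))
      exact ⟨h3.trans_le (exp_le_exp.2 (by linarith)), by linarith [hz.1, x2.1, y2.2],
        by linarith [hz.2, x2.1, y2.2]⟩
    refine le_trans (le_of_eq ?_) (measure_mono h4)
    rw [Real.volume_Ioo, edist_dist, Real.dist_eq, abs_sub_comm, abs_of_nonneg (sub_nonneg.2 hxy)]
    congr 1
    ring
  refine (Real.volume_le_diam _).trans (Metric.ediam_le fun x hx y hy => ?_)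
  rcases le_total x y with h | h
  · exact key x hx y hy h
  · rw [edist_comm]
    exact key y hy x hx h

theorem maj_of_KI {ψ ψ₀ : ℝ → ℝ} (hc : Continuous ψ) (hv : ConvexOn ℝ univ ψ)
    (hc₀ : Continuous ψ₀) (hm : ∀ x y, |x| ≤ |y| → ψ₀ x ≤ ψ₀ y) (hK : KI ψ ψ₀)
    (hfin : ∫⁻ x, ENNReal.ofReal (exp (-ψ x)) ≠ ∞) :
    Maj (∫⁻ x, ENNReal.ofReal (exp (-ψ₀ x))) (fun x => ENNReal.ofReal (exp (-ψ x)))
      (∫⁻ x, ENNReal.ofReal (exp (-ψ x))) (fun x => ENNReal.ofReal (exp (-ψ₀ x))) := by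
  intro E l hE hl hvol
  rcases hl.eq_or_lt with rfl | hl
  · rw [mul_zero, ENNReal.ofReal_zero, nonpos_iff_eq_zero] at hvol
    rw [setLIntegral_measure_zero _ _ hvol, mul_zero]
    exact zero_le
  obtain ⟨a, ha⟩ := clmaj_level hc hfin (2 * l)
  have hab : a < a + 2 * l := by linarith
  have hin : ∀ x ∈ Ioo a (a + 2 * l), ψ x ≤ ψ a := fun x hx => by
    have h := hv.le_on_segment (mem_univ a) (mem_univ (a + 2 * l))
      (show x ∈ segment ℝ a (a + 2 * l) by rw [segment_eq_Icc hab.le]; exact Ioo_subset_Icc_self hx)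
    rwa [← ha, max_self] at h
  have hout : ∀ x ∉ Ioo a (a + 2 * l), ψ a ≤ ψ x := fun x hx => by
    rcases lt_trichotomy x a with h | h | h
    · exact hv.le_left_of_right_le'' (mem_univ x) (mem_univ (a + 2 * l)) h.le hab ha.ge
    · rw [h]
    · rcases (not_lt.1 fun h' => hx ⟨h, h'⟩).eq_or_lt with h' | h'
      · rw [← h', ha]
      · rw [ha]
        exact hv.le_right_of_left_le'' (mem_univ a) (mem_univ x) hab h'.le ha.le
  have h1 := bathtub (f := fun x => ENNReal.ofReal (exp (-ψ x))) (I := Ioo a (a + 2 * l))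
    (m := ENNReal.ofReal (exp (-ψ a))) measurableSet_Ioo hE
    (fun x hx => ENNReal.ofReal_le_ofReal (exp_le_exp.2 (neg_le_neg (hin x hx))))
    (fun x hx => ENNReal.ofReal_le_ofReal (exp_le_exp.2 (neg_le_neg (hout x hx))))
    (by rwa [Real.volume_Ioo, add_sub_cancel_left]) measure_Ioo_lt_top.ne
  have h2 := clmaj_out hc hc₀ hm hK hl ha
  have h3 := clmaj_in hc hc₀ hm hK ha hin
  refine (mul_le_mul_right h1 _).trans ?_
  have s0 := lintegral_add_compl (μ := volume) (fun x => ENNReal.ofReal (exp (-ψ₀ x)))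
    (A := Ioo (-l) l) measurableSet_Ioo
  have s1 := lintegral_add_compl (μ := volume) (fun x => ENNReal.ofReal (exp (-ψ x)))
    (A := Ioo a (a + 2 * l)) measurableSet_Ioo
  rw [← s0, ← s1]
  generalize (∫⁻ x in Ioo (-l) l, ENNReal.ofReal (exp (-ψ₀ x))) = V at h3 ⊢
  generalize (∫⁻ x in (Ioo (-l) l)ᶜ, ENNReal.ofReal (exp (-ψ₀ x))) = V' at h2 ⊢
  generalize (∫⁻ x in Ioo a (a + 2 * l), ENNReal.ofReal (exp (-ψ x))) = W at h3 ⊢
  generalize (∫⁻ x in (Ioo a (a + 2 * l))ᶜ, ENNReal.ofReal (exp (-ψ x))) = W' at h2 ⊢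
  generalize ENNReal.ofReal (exp (-ψ a + ψ₀ l)) = R at h2 h3
  calc (V + V') * W = W * V + V' * W := by ring
    _ ≤ W * V + V' * (R * V) := by gcongr
    _ = W * V + R * V' * V := by ring
    _ ≤ W * V + W' * V := by gcongr
    _ = (W + W') * V := by ring

end Pool.Agent.PSF.CL
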