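import Pool.Agent.P.MP_7b7370_an.CLIndA
import Pool.Agent.P.MP_7b7370_an.CLMaj

/-! The two inductions over all measures. -/

set_option autoImplicit false

namespace Pool.Agent.PSF.CL

open Real Set MeasureTheory Filter Topology
open scoped ENNReal NNReal

theorem clind_mass (q : Measure ℝ) [IsFiniteMeasure q] (s : ℝ) :
    (q + Measure.dirac s).real univ = q.real univ + 1 := by
  rw [measureReal_add_apply (measure_ne_top _ _) (measure_ne_top _ _)]
  simp

theorem clind_fin {c k : ℝ} {q : Measure ℝ} [IsFiniteMeasure q]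
    (h : ∫⁻ x, ENNReal.ofReal (wq c k q x) ≠ ∞) (s : ℝ) :
    ∫⁻ x, ENNReal.ofReal (wq (c - 2 * lc s) k (q + Measure.dirac s) x) ≠ ∞ := by
  refine ne_top_of_le_ne_top h (lintegral_mono fun x => ENNReal.ofReal_le_ofReal ?_)
  rw [wq_add_dirac]
  exact mul_le_of_le_one_right (wq_pos _ _ _ _).le (X_le_one _ _)

theorem clind_meas (c k : ℝ) (q : Measure ℝ) [IsFiniteMeasure q] (N : ℕ) (E : Set ℝ) :
    Measurable fun s => ∫⁻ x in E, eN (c - 2 * lc s) k (q + Measure.dirac s) N x :=
  (measurable_eN_dirac c k q N).lintegral_prod_right' (ν := volume.restrict E)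

theorem clind_meas' (c k : ℝ) (q : Measure ℝ) [IsFiniteMeasure q] (N : ℕ) :
    Measurable fun s => ∫⁻ x, eN (c - 2 * lc s) k (q + Measure.dirac s) N x :=
  (measurable_eN_dirac c k q N).lintegral_prod_right' (ν := volume)

theorem clind_univ (c k : ℝ) (q : Measure ℝ) [IsFiniteMeasure q] (N : ℕ) :
    ((N : ℝ≥0∞) + 1) * ∫⁻ x, eN c k q (N + 1) x =
      ∫⁻ s, (∫⁻ x, eN (c - 2 * lc s) k (q + Measure.dirac s) N x) ∂q := by
  simpa only [Measure.restrict_univ] using lint_eN_succ c k q N MeasurableSet.univ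

theorem clind_cancel (N : ℕ) {a b : ℝ≥0∞} (h : ((N : ℝ≥0∞) + 1) * a ≤ ((N : ℝ≥0∞) + 1) * b) :
    a ≤ b := by
  have h0 : ((N : ℝ≥0∞) + 1) ≠ 0 := by simp
  have h1 : ((N : ℝ≥0∞) + 1) ≠ ∞ := by simp
  have := mul_le_mul_right h ((N : ℝ≥0∞) + 1)⁻¹
  rwa [← mul_assoc, ← mul_assoc, ENNReal.inv_mul_cancel h0 h1, one_mul, one_mul] at this

theorem clind_eN_zero (c k : ℝ) (q : Measure ℝ) :
    eN c k q 0 = fun x => ENNReal.ofReal (wq c k q x) := by
  funext x
  rw [eN, hN_zero, mul_one]

theorem maj_eN (N : ℕ) : ∀ (c k : ℝ) (q : Measure ℝ) [IsFiniteMeasure q],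
    ∫⁻ x, ENNReal.ofReal (wq c k q x) ≠ ∞ →
    Maj (SS (q.real univ + N)) (eN c k q N) (∫⁻ x, eN c k q N x)
      (fun x => ENNReal.ofReal (sg (q.real univ + N) x)) := by
  induction N with
  | zero =>
    intro c k q _ hfin
    have hQ : 0 ≤ q.real univ := measureReal_nonneg
    have := maj_of_KI (ψ₀ := fun x => 2 * q.real univ * lc x) (continuous_psi c k q)
      (convexOn_psi c k q) (continuous_const.mul continuous_lc)
      (fun x y h => mul_le_mul_of_nonneg_left (lc_mono h) (by positivity)) (KI_psi c k q) hfin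
    rw [clind_eN_zero, Nat.cast_zero, add_zero]
    exact this
  | succ N ih =>
    intro c k q _ hfin E l hE hl hv
    have e : q.real univ + ((N + 1 : ℕ) : ℝ) = q.real univ + 1 + N := by push_cast; ring
    rw [e]
    refine clind_cancel N ?_
    calc ((N : ℝ≥0∞) + 1) * (SS (q.real univ + 1 + N) * ∫⁻ x in E, eN c k q (N + 1) x)
        = SS (q.real univ + 1 + N) * (((N : ℝ≥0∞) + 1) * ∫⁻ x in E, eN c k q (N + 1) x) := by
          ring
      _ = ∫⁻ s, SS (q.real univ + 1 + N) *
            (∫⁻ x in E, eN (c - 2 * lc s) k (q + Measure.dirac s) N x) ∂q := by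
          rw [lint_eN_succ c k q N hE, lintegral_const_mul _ (clind_meas c k q N E)]
      _ ≤ ∫⁻ s, (∫⁻ x, eN (c - 2 * lc s) k (q + Measure.dirac s) N x) *
            (∫⁻ x in Ioo (-l) l, ENNReal.ofReal (sg (q.real univ + 1 + N) x)) ∂q := by
          refine lintegral_mono fun s => ?_
          have := ih (c - 2 * lc s) k (q + Measure.dirac s) (clind_fin hfin s) E l hE hl hv
          rwa [clind_mass] at this
      _ = _ := by
          rw [lintegral_mul_const _ (clind_meas' c k q N), ← clind_univ, mul_assoc]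

theorem mass_eN (N : ℕ) : ∀ (c k : ℝ) (q : Measure ℝ) [IsFiniteMeasure q],
    ∫⁻ x, ENNReal.ofReal (wq c k q x) ≠ ∞ →
    ((N : ℝ≥0∞) + 1) * (∫⁻ x, eN c k q (N + 1) x) * SS (q.real univ + N) ≤
      ENNReal.ofReal (q.real univ + N) * SS (q.real univ + N + 1) * ∫⁻ x, eN c k q N x := by
  induction N with
  | zero =>
    intro c k q _ hfin
    have hm := maj_eN 0 c k q hfin
    rw [clind_univ, ← lintegral_mul_const _ (clind_meas' c k q 0)]
    generalize hQ : q.real univ + ((0 : ℕ) : ℝ) = Q at hm ⊢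
    have hq : q univ = ENNReal.ofReal Q := by
      rw [← hQ, Nat.cast_zero, add_zero, ofReal_measureReal (measure_ne_top _ _)]
    have hX : ∀ s, Measurable (X s) := fun s =>
      (continuous_X.comp (continuous_const.prodMk continuous_id)).measurable
    calc ∫⁻ s, (∫⁻ x, eN (c - 2 * lc s) k (q + Measure.dirac s) 0 x) * SS Q ∂q
        ≤ ∫⁻ _, (∫⁻ x, eN c k q 0 x) * SS (Q + 1) ∂q := by
          refine lintegral_mono fun s => ?_
          have h1 := hm.lint (measurable_eN c k q 0)
            (continuous_sg Q).measurable.ennreal_ofReal (hX s) (hX 0)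
            (fun x => (X_pos s x).le) (fun x => (X_pos 0 x).le) (lev_X s)
          have e1 : ∀ x, eN (c - 2 * lc s) k (q + Measure.dirac s) 0 x =
              eN c k q 0 x * ENNReal.ofReal (X s x) := fun x => by
            simp only [clind_eN_zero]
            rw [wq_add_dirac, ENNReal.ofReal_mul (wq_pos _ _ _ _).le]
          have e2 : ∀ x, ENNReal.ofReal (sg Q x) * ENNReal.ofReal (X 0 x) =
              ENNReal.ofReal (sg (Q + 1) x) := fun x => by
            rw [sg_add, X_zero, ENNReal.ofReal_mul (sg_pos _ _).le]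
          simp only [e2] at h1
          simp only [e1]
          rw [mul_comm]
          exact h1
      _ = _ := by
          rw [lintegral_const, hq]
          ring
  | succ N ih =>
    intro c k q _ hfin
    have e : q.real univ + ((N + 1 : ℕ) : ℝ) = q.real univ + 1 + N := by push_cast; ring
    rw [e, clind_univ]
    refine clind_cancel N ?_
    calc ((N : ℝ≥0∞) + 1) *
          ((∫⁻ s, (∫⁻ x, eN (c - 2 * lc s) k (q + Measure.dirac s) (N + 1) x) ∂q) *
            SS (q.real univ + 1 + N))
        = ∫⁻ s, ((N : ℝ≥0∞) + 1) * (∫⁻ x, eN (c - 2 * lc s) k (q + Measure.dirac s) (N + 1) x) *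
            SS (q.real univ + 1 + N) ∂q := by
          rw [lintegral_mul_const _ ((clind_meas' c k q (N + 1)).const_mul _),
            lintegral_const_mul _ (clind_meas' c k q (N + 1)), mul_assoc]
      _ ≤ ∫⁻ s, ENNReal.ofReal (q.real univ + 1 + N) * SS (q.real univ + 1 + N + 1) *
            (∫⁻ x, eN (c - 2 * lc s) k (q + Measure.dirac s) N x) ∂q := by
          refine lintegral_mono fun s => ?_
          have := ih (c - 2 * lc s) k (q + Measure.dirac s) (clind_fin hfin s)
          rwa [clind_mass] at this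
      _ = _ := by
          rw [lintegral_const_mul _ (clind_meas' c k q N), ← clind_univ]
          ring

end Pool.Agent.PSF.CL
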