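import Pool.Agent.P.MP_7b7370_an.CLBath

/-! The slice inequality. -/

set_option autoImplicit false

namespace Pool.Agent.PSF.CL

open Real Set MeasureTheory Filter Topology
open scoped ENNReal NNReal

theorem clslice_meas (N : ℕ) {e : ℝ → ℝ≥0∞} (he : Measurable e) {F : ℝ × ℝ → ℝ}
    (hF : Continuous F) :
    Measurable fun w : ℝ × ℝ => ct N w.2 * e w.1 * ENNReal.ofReal (F w ^ 2) :=
  (((measurable_ct N).comp measurable_snd).mul (he.comp measurable_fst)).mul
    (hF.measurable.pow_const 2).ennreal_ofReal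

theorem clslice_x (N : ℕ) {e : ℝ → ℝ≥0∞} (he : Measurable e) {F : ℝ × ℝ → ℝ}
    (hF : Continuous F) :
    ∫⁻ w : ℝ × ℝ, ct N w.2 * e w.1 * ENNReal.ofReal (F w ^ 2) =
      ∫⁻ x, e x * ∫⁻ t, ct N t * ENNReal.ofReal (F (x, t) ^ 2) := by
  rw [Measure.volume_eq_prod, lintegral_prod _ (clslice_meas N he hF).aemeasurable]
  refine lintegral_congr fun x => ?_
  have h1 : Measurable fun t => ct N t * ENNReal.ofReal (F (x, t) ^ 2) :=
    (measurable_ct N).mul
      ((hF.comp (Continuous.prodMk_right x)).measurable.pow_const 2).ennreal_ofReal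
  rw [← lintegral_const_mul _ h1]
  exact lintegral_congr fun t => by ring

theorem clslice_t (N : ℕ) {e : ℝ → ℝ≥0∞} (he : Measurable e) {F : ℝ × ℝ → ℝ}
    (hF : Continuous F) :
    ∫⁻ w : ℝ × ℝ, ct N w.2 * e w.1 * ENNReal.ofReal (F w ^ 2) =
      ∫⁻ t, ct N t * ∫⁻ x, e x * ENNReal.ofReal (F (x, t) ^ 2) := by
  rw [Measure.volume_eq_prod, lintegral_prod_symm _ (clslice_meas N he hF).aemeasurable]
  refine lintegral_congr fun t => ?_
  have h1 : Measurable fun x => e x * ENNReal.ofReal (F (x, t) ^ 2) :=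
    he.mul ((hF.comp (Continuous.prodMk_left t)).measurable.pow_const 2).ennreal_ofReal
  rw [← lintegral_const_mul _ h1]
  exact lintegral_congr fun x => by ring

theorem clslice_in (N : ℕ) {e : ℝ → ℝ≥0∞} (he : Measurable e) {F : ℝ × ℝ → ℝ}
    (hF : Continuous F) :
    Measurable fun t => ct N t * ∫⁻ x, e x * ENNReal.ofReal (F (x, t) ^ 2) :=
  (measurable_ct N).mul (Measurable.lintegral_prod_left'
    (f := fun w : ℝ × ℝ => e w.1 * ENNReal.ofReal (F w ^ 2))
    ((he.comp measurable_fst).mul (hF.measurable.pow_const 2).ennreal_ofReal))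

theorem slice_le {p : ℝ} {N : ℕ} {e : ℝ → ℝ≥0∞} {m : ℝ≥0∞} (he : Measurable e)
    (hM : Maj (SS (p + N)) e m (fun x => ENNReal.ofReal (sg (p + N) x)))
    {F G U : ℝ × ℝ → ℝ} (hF : Continuous F) (hG : Continuous G) (hU : Continuous U)
    (h2 : ∀ x, Lev (fun t => F (x, t) ^ 2) (fun t => G (x, t) ^ 2))
    (h1 : ∀ t, Lev (fun x => G (x, t) ^ 2) (fun x => U (x, t) ^ 2)) :
    SS (p + N) * ∫⁻ w : ℝ × ℝ, ct N w.2 * e w.1 * ENNReal.ofReal (F w ^ 2) ≤ m * Ps p U N := by
  have hs : Measurable fun x => ENNReal.ofReal (sg (p + N) x) :=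
    (continuous_sg _).measurable.ennreal_ofReal
  have a1 : ∫⁻ w : ℝ × ℝ, ct N w.2 * e w.1 * ENNReal.ofReal (F w ^ 2) ≤
      ∫⁻ w : ℝ × ℝ, ct N w.2 * e w.1 * ENNReal.ofReal (G w ^ 2) := by
    rw [clslice_x N he hF, clslice_x N he hG]
    refine lintegral_mono fun x => mul_le_mul_right ?_ _
    have h := (maj_self (dec_ct N)).lint (measurable_ct N) (measurable_ct N)
      ((hF.comp (Continuous.prodMk_right x)).measurable.pow_const 2)
      ((hG.comp (Continuous.prodMk_right x)).measurable.pow_const 2)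
      (fun _ => sq_nonneg _) (fun _ => sq_nonneg _) (h2 x)
    rw [one_mul, one_mul] at h
    exact h
  refine (mul_le_mul_right a1 _).trans ?_
  rw [Ps, clslice_t N he hG, clslice_t N hs hU, ← lintegral_const_mul _ (clslice_in N he hG),
    ← lintegral_const_mul _ (clslice_in N hs hU)]
  refine lintegral_mono fun t => ?_
  have h := hM.lint he hs ((hG.comp (Continuous.prodMk_left t)).measurable.pow_const 2)
    ((hU.comp (Continuous.prodMk_left t)).measurable.pow_const 2)
    (fun _ => sq_nonneg _) (fun _ => sq_nonneg _) (h1 t)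
  simp only
  rw [mul_left_comm, mul_left_comm m]
  exact mul_le_mul_right h _

end Pool.Agent.PSF.CL
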