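import Pool.Agent.P.MP_7b7370_an.CLPSa

/-! The rearrangement inequality for the energy on the line. -/

set_option autoImplicit false

namespace Pool.Agent.PSF.CL

open Real Set MeasureTheory Filter Topology
open scoped ENNReal NNReal

variable {R : ℝ} {f : ℝ → ℝ}

theorem clpsb_inner (hf : B1 R f) {h c : ℝ} (hh : 0 < h) (hc : 0 ≤ c) (D : ℝ≥0∞) :
    ∫⁻ y in Ioi (0 : ℝ), {y | sdr f (y + h) < c ∧ c < sdr f y}.indicator (fun _ => D) y ≤
      ENNReal.ofReal h * D := by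
  obtain ⟨ρ, h0, -, hρ⟩ := sdr_level hf hc
  have key : ∀ y ∈ Ioi (0 : ℝ), {y | sdr f (y + h) < c ∧ c < sdr f y}.indicator (fun _ => D) y ≤
      (Ico (ρ - h) ρ).indicator (fun _ => D) y := by
    intro y hy
    by_cases m : y ∈ {y | sdr f (y + h) < c ∧ c < sdr f y}
    · have h1 : y ∈ Ioo (-ρ) ρ := hρ ▸ m.2
      have h2 : y + h ∉ Ioo (-ρ) ρ := hρ ▸ fun k => lt_asymm m.1 k
      have h3 : ρ - h ≤ y := by
        by_contra k
        exact h2 ⟨by linarith [h1.1], by linarith [not_le.1 k]⟩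
      rw [indicator_of_mem m, indicator_of_mem (show y ∈ Ico (ρ - h) ρ from ⟨h3, h1.2⟩)]
    · rw [indicator_of_notMem m]
      exact zero_le
  refine (setLIntegral_mono' measurableSet_Ioi key).trans
    ((setLIntegral_le_lintegral _ _).trans (le_of_eq ?_))
  rw [lintegral_indicator_const measurableSet_Ico, Real.volume_Ico, sub_sub_cancel, mul_comm]

theorem ps_half (hf : B1 R f) {K : ℝ≥0} (hK : LipschitzWith K f) {h : ℝ} (hh : 0 < h) :
    2 * ∫⁻ y in Ioi (0 : ℝ), ENNReal.ofReal ((sdr f (y + h) - sdr f y) ^ 2) ≤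
      ENNReal.ofReal (h ^ 2) * ∫⁻ x, ENNReal.ofReal (deriv f x ^ 2) := by
  have mg := measurable_sdr hf
  have mf := hf.cont.measurable
  have mD : Measurable fun x => ENNReal.ofReal (deriv f x ^ 2) :=
    ((measurable_deriv f).pow_const 2).ennreal_ofReal
  have mT : MeasurableSet {p : ℝ × ℝ | sdr f (p.1 + h) < f p.2 ∧ f p.2 < sdr f p.1} :=
    (measurableSet_lt (mg.comp (measurable_fst.add_const h)) (mf.comp measurable_snd)).inter
      (measurableSet_lt (mf.comp measurable_snd) (mg.comp measurable_fst))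
  have mF := (mD.comp measurable_snd).indicator mT
  calc 2 * ∫⁻ y in Ioi (0 : ℝ), ENNReal.ofReal ((sdr f (y + h) - sdr f y) ^ 2)
      = ∫⁻ y in Ioi (0 : ℝ), 2 * ENNReal.ofReal ((sdr f (y + h) - sdr f y) ^ 2) :=
        (lintegral_const_mul' _ _ ENNReal.ofNat_ne_top).symm
    _ ≤ ∫⁻ y in Ioi (0 : ℝ), ENNReal.ofReal h * ∫⁻ x,
          {p : ℝ × ℝ | sdr f (p.1 + h) < f p.2 ∧ f p.2 < sdr f p.1}.indicator
            ((fun x => ENNReal.ofReal (deriv f x ^ 2)) ∘ Prod.snd) (y, x) := by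
        refine setLIntegral_mono' measurableSet_Ioi fun y hy => (ps_key hf hK hy hh).trans ?_
        have mS : MeasurableSet {x | sdr f (y + h) < f x ∧ f x < sdr f y} :=
          (measurableSet_lt measurable_const mf).inter (measurableSet_lt mf measurable_const)
        rw [← lintegral_indicator mS]
        exact le_rfl
    _ = ENNReal.ofReal h * ∫⁻ x, ∫⁻ y in Ioi (0 : ℝ),
          {p : ℝ × ℝ | sdr f (p.1 + h) < f p.2 ∧ f p.2 < sdr f p.1}.indicator
            ((fun x => ENNReal.ofReal (deriv f x ^ 2)) ∘ Prod.snd) (y, x) := by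
        rw [lintegral_const_mul' _ _ ENNReal.ofReal_ne_top, lintegral_lintegral_swap]
        exact mF.aemeasurable
    _ ≤ ENNReal.ofReal h * ∫⁻ x, ENNReal.ofReal h * ENNReal.ofReal (deriv f x ^ 2) :=
        mul_le_mul_right (lintegral_mono fun x => clpsb_inner hf hh (hf.nn x) _) _
    _ = _ := by
        rw [lintegral_const_mul' _ _ ENNReal.ofReal_ne_top, ← mul_assoc,
          ← ENNReal.ofReal_mul hh.le, ← sq]

theorem clpsb_pt (g : ℝ → ℝ) (y : ℝ) : ENNReal.ofReal (deriv g y ^ 2) ≤ liminf (fun n : ℕ =>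
    ENNReal.ofReal (((1 / ((n : ℝ) + 1))⁻¹ * (g (y + 1 / ((n : ℝ) + 1)) - g y)) ^ 2)) atTop := by
  by_cases hd : DifferentiableAt ℝ g y
  · have h1 : Tendsto (fun n : ℕ => 1 / ((n : ℝ) + 1)) atTop (𝓝[≠] 0) :=
      tendsto_nhdsWithin_iff.2 ⟨tendsto_one_div_add_atTop_nhds_zero_nat,
        Eventually.of_forall fun n => (Nat.one_div_pos_of_nat (α := ℝ)).ne'⟩
    have h2 := (hasDerivAt_iff_tendsto_slope_zero.1 hd.hasDerivAt).comp h1
    exact (ENNReal.tendsto_ofReal (h2.pow 2)).liminf_eq.ge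
  · rw [deriv_zero_of_not_differentiableAt hd]
    simp

theorem ps_line (hf : B1 R f) {K : ℝ≥0} (hK : LipschitzWith K f) :
    ∫⁻ x, ENNReal.ofReal (deriv (sdr f) x ^ 2) ≤ ∫⁻ x, ENNReal.ofReal (deriv f x ^ 2) := by
  have mg := measurable_sdr hf
  have h1 : ∀ h : ℝ, 0 < h →
      ∫⁻ y in Ioi (0 : ℝ), ENNReal.ofReal ((h⁻¹ * (sdr f (y + h) - sdr f y)) ^ 2) ≤
        (∫⁻ x, ENNReal.ofReal (deriv f x ^ 2)) / 2 := by
    intro h hh
    have e : ∀ a : ℝ, ENNReal.ofReal (a ^ 2) =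
        ENNReal.ofReal (h ^ 2) * ENNReal.ofReal ((h⁻¹ * a) ^ 2) := fun a => by
      rw [← ENNReal.ofReal_mul (sq_nonneg h), ← mul_pow, mul_inv_cancel_left₀ hh.ne']
    have h2 := ps_half hf hK hh
    rw [lintegral_congr fun y => e _, lintegral_const_mul' _ _ ENNReal.ofReal_ne_top,
      mul_left_comm, ENNReal.mul_le_mul_iff_right (ENNReal.ofReal_pos.2 (by positivity)).ne'
        ENNReal.ofReal_ne_top] at h2
    rwa [ENNReal.le_div_iff_mul_le (Or.inl two_ne_zero) (Or.inl ENNReal.ofNat_ne_top), mul_comm]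
  have h2 : ∫⁻ y in Ioi (0 : ℝ), ENNReal.ofReal (deriv (sdr f) y ^ 2) ≤
      (∫⁻ x, ENNReal.ofReal (deriv f x ^ 2)) / 2 := by
    refine (lintegral_mono fun y => clpsb_pt (sdr f) y).trans
      ((lintegral_liminf_le fun n => by fun_prop).trans ?_)
    exact liminf_le_of_frequently_le' (Frequently.of_forall fun n =>
      h1 _ Nat.one_div_pos_of_nat)
  have h3 : ∫⁻ y in (Ioi (0 : ℝ))ᶜ, ENNReal.ofReal (deriv (sdr f) y ^ 2) =
      ∫⁻ y in Ioi (0 : ℝ), ENNReal.ofReal (deriv (sdr f) y ^ 2) := by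
    rw [compl_Ioi, ← Measure.restrict_congr_set Iio_ae_eq_Iic,
      ← (Measure.measurePreserving_neg volume).setLIntegral_comp_preimage_emb
        (MeasurableEquiv.neg ℝ).measurableEmbedding, neg_preimage, neg_Iio, neg_zero]
    refine lintegral_congr fun y => ?_
    have := deriv_comp_neg (f := sdr f) (x := y)
    simp only [sdr_neg] at this
    rw [show deriv (sdr f) y = -deriv (sdr f) (-y) from this, neg_sq]
  rw [← lintegral_add_compl _ (measurableSet_Ioi (a := (0 : ℝ))), h3,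
    ← ENNReal.add_halves (∫⁻ x, ENNReal.ofReal (deriv f x ^ 2))]
  exact add_le_add h2 h2

end Pool.Agent.PSF.CL
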