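import Pool.Agent.P.MP_7b7370_an.CLStarA

/-! Rearrangement keeps the Lipschitz constant. -/

set_option autoImplicit false

namespace Pool.Agent.PSF.CL

open Real Set MeasureTheory Filter Topology
open scoped ENNReal NNReal

variable {R : ℝ} {f : ℝ → ℝ}

theorem clstarl_core (hf : B1 R f) {K : ℝ≥0} (hK : LipschitzWith K f) {x y : ℝ}
    (hxy : |x| < |y|) : sdr f x ≤ sdr f y + K * (|y| - |x|) := by
  by_contra hcon
  obtain ⟨a, ha1, ha2⟩ := exists_between (not_le.1 hcon)
  obtain ⟨h, hh⟩ : ∃ h, h = |y| - |x| := ⟨_, rfl⟩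
  rw [← hh] at ha1
  have h0 : 0 < h := by linarith
  have hb := sdr_nonneg f y
  have hKh : 0 ≤ (K : ℝ) * h := mul_nonneg K.2 h0.le
  have ha0 : 0 ≤ a := by linarith
  have hD := (lt_sdr_iff hf ha0 x).1 ha2
  have hne : {z | a < f z}.Nonempty := nonempty_of_measure_ne_zero (pos_of_gt hD).ne'
  have hbd : ∀ z ∈ {z | a < f z}, |z| < R := fun z hz => by
    by_contra hR
    have h1 : a < f z := hz
    rw [hf.supp z (not_lt.1 hR)] at h1
    linarith
  have hup : BddAbove {z | a < f z} := ⟨R, fun z hz => (le_abs_self z).trans (hbd z hz).le⟩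
  have hlo : BddBelow {z | a < f z} := ⟨-R, fun z hz => (abs_lt.1 (hbd z hz)).1.le⟩
  have hs : a ≤ f (sSup {z | a < f z}) :=
    closure_lt_subset_le continuous_const hf.cont (csSup_mem_closure hne hup)
  have hi : a ≤ f (sInf {z | a < f z}) :=
    closure_lt_subset_le continuous_const hf.cont (csInf_mem_closure hne hlo)
  have his : sInf {z | a < f z} ≤ sSup {z | a < f z} := csInf_le_csSup hne hlo hup
  have hu : ∀ z ∈ {z | a < f z}, z ≤ sSup {z | a < f z} := fun z hz => le_csSup hup hz
  have hl : ∀ z ∈ {z | a < f z}, sInf {z | a < f z} ≤ z := fun z hz => csInf_le hlo hz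
  generalize sSup {z | a < f z} = s at hs his hu
  generalize sInf {z | a < f z} = i at hi his hl
  have near : ∀ w z : ℝ, a ≤ f w → |w - z| ≤ h → sdr f y < f z := fun w z h1 h2 => by
    have h3 := hK.le_add_mul w z
    rw [Real.dist_eq] at h3
    have h4 : (K : ℝ) * |w - z| ≤ K * h := mul_le_mul_of_nonneg_left h2 K.2
    linarith
  have hsub : {z | a < f z} ∪ Ioo s (s + h) ∪ Ioo (i - h) i ⊆ {z | sdr f y < f z} := by
    rintro z ((hz | hz) | hz)
    · have h1 : a < f z := hz
      show sdr f y < f z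
      linarith
    · exact near s z hs (abs_le.2 ⟨by linarith [hz.2], by linarith [hz.1]⟩)
    · exact near i z hi (abs_le.2 ⟨by linarith [hz.2], by linarith [hz.1]⟩)
  have d1 : Disjoint {z | a < f z} (Ioo s (s + h)) :=
    Set.disjoint_left.2 fun z hz hz' => (hu z hz).not_gt hz'.1
  have d2 : Disjoint ({z | a < f z} ∪ Ioo s (s + h)) (Ioo (i - h) i) :=
    Set.disjoint_left.2 fun z hz hz' => by
      rcases hz with hz | hz
      · exact (hl z hz).not_gt hz'.2
      · linarith [hz.1, hz'.2]
  have hm := measure_mono (μ := volume) hsub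
  rw [measure_union d2 measurableSet_Ioo, measure_union d1 measurableSet_Ioo, Real.volume_Ioo,
    Real.volume_Ioo, add_sub_cancel_left, sub_sub_cancel] at hm
  have e : ENNReal.ofReal (2 * |y|) =
      ENNReal.ofReal (2 * |x|) + ENNReal.ofReal h + ENNReal.ofReal h := by
    rw [← ENNReal.ofReal_add (by positivity) h0.le, ← ENNReal.ofReal_add (by positivity) h0.le]
    congr 1
    linarith
  refine lt_irrefl _ ((lt_sdr_iff hf hb y).2 (lt_of_lt_of_le ?_ hm))
  rw [e]
  exact ENNReal.add_lt_add_right ENNReal.ofReal_ne_top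
    (ENNReal.add_lt_add_right ENNReal.ofReal_ne_top hD)

theorem lipschitz_sdr (hf : B1 R f) {K : ℝ≥0} (hK : LipschitzWith K f) :
    LipschitzWith K (sdr f) := by
  refine LipschitzWith.of_le_add_mul K fun x y => ?_
  rcases le_or_gt |y| |x| with h | h
  · have h1 : sdr f x ≤ sdr f y := dec_sdr hf y x h
    have h2 : 0 ≤ (K : ℝ) * dist x y := mul_nonneg K.2 dist_nonneg
    linarith
  · have h1 := clstarl_core hf hK h
    have h2 : |y| - |x| ≤ dist x y := by
      rw [dist_comm, Real.dist_eq]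
      exact abs_sub_abs_le_abs_sub y x
    have h3 : (K : ℝ) * (|y| - |x|) ≤ K * dist x y := mul_le_mul_of_nonneg_left h2 K.2
    linarith

end Pool.Agent.PSF.CL
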