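import Pool.Agent.P.MP_7b7370_an.CLStarB
import Pool.Agent.P.MP_7b7370_an.CLStarL
import Pool.Agent.P.MP_7b7370_an.CLPSb
import Pool.Agent.P.MP_7b7370_an.CLDQ

/-! Two Steiner rearrangements in the plane. -/

set_option autoImplicit false

namespace Pool.Agent.PSF.CL

open Real Set MeasureTheory Filter Topology
open scoped ENNReal NNReal

variable {R b : ℝ} {F : ℝ × ℝ → ℝ}

theorem clstarc_slice {K : ℝ≥0} (hK : LipschitzWith K F) (t : ℝ) :
    LipschitzWith K fun y => F (y, t) :=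
  LipschitzWith.of_dist_le_mul fun x y => by
    simpa [Prod.dist_eq] using hK.dist_le_mul (x, t) (y, t)

theorem clstarc_symm {f : ℝ × ℝ → ℝ≥0∞} (hf : Measurable f) :
    ∫⁻ w, f w = ∫⁻ t, ∫⁻ x, f (x, t) := by
  rw [Measure.volume_eq_prod]
  exact lintegral_prod_symm' f hf

theorem LB.r1 (hF : LB R b F) : LB R b (R1 F) := by
  obtain ⟨K, hK⟩ := hF.lip
  refine ⟨⟨K + K, LipschitzWith.of_le_add_mul _ fun w v => ?_⟩, fun w => sdr_nonneg _ _,
    fun w hw => ?_⟩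
  · have h1 : sdr (fun y => F (y, w.2)) w.1 ≤ sdr (fun y => F (y, v.2)) w.1 + K * dist w v := by
      refine sdr_le_add (hF.b1 w.2) (hF.b1 v.2) (by positivity) (fun y => ?_) w.1
      refine (hK.le_add_mul (y, w.2) (y, v.2)).trans ?_
      have : dist (y, w.2) (y, v.2) ≤ dist w v := by simp [Prod.dist_eq]
      gcongr
    have h2 := (lipschitz_sdr (hF.b1 v.2) (clstarc_slice hK v.2)).le_add_mul w.1 v.1
    have h3 : (K : ℝ) * dist w.1 v.1 ≤ K * dist w v := by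
      have : dist w.1 v.1 ≤ dist w v := by simp [Prod.dist_eq]
      gcongr
    simp only [R1, NNReal.coe_add]
    linarith
  · rcases hw with hw | hw
    · exact sdr_supp (hF.b1 w.2) hw
    · obtain ⟨y, hy⟩ := exists_sdr_le (hF.b1 w.2) w.1
      exact le_antisymm (hy.trans_eq (hF.supp (y, w.2) (Or.inr hw))) (sdr_nonneg _ _)

theorem E1_R1 (hF : LB R b F) : E1 (R1 F) ≤ E1 F := by
  obtain ⟨K, hK⟩ := hF.lip
  unfold E1
  rw [clstarc_symm (measurable_e1 hF.r1.cont), clstarc_symm (measurable_e1 hF.cont)]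
  refine lintegral_mono fun t => ?_
  have h := ps_line (hF.b1 t) (clstarc_slice hK t)
  have a1 : ∀ x, e1 (R1 F) (x, t) =
      ENNReal.ofReal (deriv (sdr fun y => F (y, t)) x ^ 2) := fun x => rfl
  have a2 : ∀ x, e1 F (x, t) = ENNReal.ofReal (deriv (fun y => F (y, t)) x ^ 2) := fun x => rfl
  simp only [a1, a2]
  exact h

theorem E2_R1 (hF : LB R b F) : E2 (R1 F) ≤ E2 F := by
  obtain ⟨K, hK⟩ := hF.lip
  refine E2_le_of_DQ hF.r1.cont fun r hr => le_trans ?_ (DQ_le_E2 hK hr)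
  have hm : ∀ {U : ℝ × ℝ → ℝ}, Continuous U →
      Measurable fun w : ℝ × ℝ => ENNReal.ofReal ((U (w + (0, r)) - U w) ^ 2) := fun hU =>
    (((hU.comp (continuous_id.add continuous_const)).sub hU).pow 2).measurable.ennreal_ofReal
  unfold DQ
  rw [clstarc_symm (hm hF.r1.cont), clstarc_symm (hm hF.cont)]
  refine lintegral_mono fun t => ?_
  have h := lint_sdr_sub_sq (hF.b1 (t + r)) (hF.b1 t)
  have a1 : ∀ x s, R1 F (x, s) = sdr (fun y => F (y, s)) x := fun x s => rfl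
  simp only [Prod.mk_add_mk, add_zero, a1]
  exact h

theorem exists_rearr (hF : LB R b F) : ∃ G U : ℝ × ℝ → ℝ, LB R b G ∧ LB R b U ∧
    (∀ x, Lev (fun t => F (x, t) ^ 2) (fun t => G (x, t) ^ 2)) ∧
    (∀ t, Lev (fun x => G (x, t) ^ 2) (fun x => U (x, t) ^ 2)) ∧
    (∀ t, Dec fun x => U (x, t)) ∧ (∀ x, Dec fun t => U (x, t)) ∧
    E1 U ≤ E1 F ∧ E2 U ≤ E2 F := by
  have hS := hF.swap
  have hG : LB R b fun w => R1 (fun w => F w.swap) w.swap := hS.r1.swap
  refine ⟨_, _, hG, hG.r1, fun x => lev_sdr_sq (hS.b1 x), fun t => lev_sdr_sq (hG.b1 t),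
    fun t => dec_sdr (hG.b1 t), fun x t t' h => ?_, ?_, ?_⟩
  · have := sdr_le_add (hG.b1 t') (hG.b1 t) le_rfl
      (fun y => (dec_sdr (hS.b1 y) t t' h).trans_eq (add_zero _).symm) x
    exact this.trans_eq (add_zero _)
  · exact (E1_R1 hG).trans (((E2_eq _).symm.trans_le (E2_R1 hS)).trans_eq (E1_eq F).symm)
  · exact (E2_R1 hG).trans (((E1_eq _).symm.trans_le (E1_R1 hS)).trans_eq (E2_eq F).symm)

end Pool.Agent.PSF.CL
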