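import Pool.Agent.P.MP_7b7370_an.CLWa

/-! Integrability of the model weight. -/

set_option autoImplicit false

namespace Pool.Agent.PSF.CL

open Real Set MeasureTheory Filter Topology
open scoped ENNReal NNReal

theorem clw_sinh (x : ℝ) : |x| * exp (|x| / 2) ≤ 2 * |sinh x| := by
  rw [abs_sinh]
  have hx := abs_nonneg x
  generalize |x| = y at hx
  have h1 : sinh y = 2 * sinh (y / 2) * cosh (y / 2) := by
    rw [← sinh_two_mul]
    ring_nf
  have h2 : y ≤ 2 * sinh (y / 2) := by
    have := self_le_sinh_iff.2 (show 0 ≤ y / 2 by linarith)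
    linarith
  have h3 : exp (y / 2) ≤ 2 * cosh (y / 2) := by
    rw [cosh_eq]
    have := exp_pos (-(y / 2))
    linarith
  have := mul_le_mul h2 h3 (exp_pos _).le (hx.trans h2)
  linarith

theorem clw_x {p : ℝ} (hp : 0 < p) (hp1 : p < 1) :
    Integrable fun x : ℝ => (|x| * exp (|x| / 2)) ^ (-p) := by
  have h1 : IntegrableOn (fun x : ℝ => (|x| * exp (|x| / 2)) ^ (-p)) (Ioi 0) := by
    refine (integrableOn_rpow_mul_exp_neg_mul_rpow (s := -p) (p := 1) (b := p / 2) (by linarith)
      one_pos (by linarith)).congr_fun (fun x hx => ?_) measurableSet_Ioi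
    have hx' : (0 : ℝ) < x := hx
    simp only [abs_of_pos hx', rpow_one]
    rw [mul_rpow hx'.le (exp_pos _).le, ← exp_mul]
    ring_nf
  rw [← integrableOn_univ, ← Iio_union_Ici (a := (0 : ℝ)), integrableOn_union,
    integrableOn_Ici_iff_integrableOn_Ioi]
  refine ⟨?_, h1⟩
  rw [← (Measure.measurePreserving_neg (volume : Measure ℝ)).integrableOn_comp_preimage
    (Homeomorph.neg ℝ).measurableEmbedding]
  simpa [Function.comp_def] using h1

theorem _root_.Pool.Agent.PSF.integrableOn_Wp {p : ℝ} (hp : 0 < p) (hp1 : p < 1) :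
    IntegrableOn (Wp p) Sig := by
  have h2 : IntegrableOn (fun t : ℝ => (1 / 2 : ℝ) ^ (-p) * t ^ (-p)) (Ioo 0 (π / 2)) :=
    ((intervalIntegral.integrableOn_Ioo_rpow_iff (by positivity)).2 (by linarith)).const_mul _
  have h3 := (clw_x hp hp1).mul_prod h2
  have h4 : (volume : Measure (ℝ × ℝ)).restrict Sig =
      (volume : Measure ℝ).prod (volume.restrict (Ioo 0 (π / 2))) := by
    rw [Sig, Measure.volume_eq_prod, ← Measure.prod_restrict, Measure.restrict_univ]
  rw [← h4] at h3
  refine h3.mono' (measurable_Wp p).aestronglyMeasurable ?_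
  have h5 : ∀ᵐ w : ℝ × ℝ, w.1 ≠ 0 := by
    rw [Measure.volume_eq_prod]
    exact Measure.quasiMeasurePreserving_fst.ae (Measure.ae_ne volume (0 : ℝ))
  filter_upwards [ae_restrict_mem measurableSet_Sig, ae_restrict_of_ae h5] with w hw h0
  have ht : 0 < w.2 := hw.2.1
  have hx : 0 < |w.1| * exp (|w.1| / 2) := mul_pos (abs_pos.2 h0) (exp_pos _)
  have h6 : w.2 / 2 ≤ sin w.2 := by
    refine le_trans ?_ (mul_le_sin ht.le hw.2.2.le)
    rw [div_mul_eq_mul_div, div_le_div_iff₀ two_pos pi_pos]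
    nlinarith [pi_le_four]
  rw [Wp, Real.norm_of_nonneg (rpow_nonneg (by positivity) _), ← mul_rpow (by norm_num) ht.le,
    ← mul_rpow hx.le (by positivity)]
  refine rpow_le_rpow_of_nonpos (by positivity) ?_ (by linarith)
  have h7 := mul_le_mul (clw_sinh w.1) h6 (by positivity) (by positivity)
  nlinarith [sq_nonneg (|sinh w.1| - sin w.2), sq_abs (sinh w.1)]

theorem lint_Wp_ne_top {p : ℝ} (hp : 0 < p) (hp1 : p < 1) :
    ∫⁻ w in Str, ENNReal.ofReal (Wp p w) ≠ ∞ := by
  rw [lint_Str_even fun x t => by simp [Wp]]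
  exact ENNReal.mul_ne_top (by simp) (integrableOn_Wp hp hp1).lintegral_lt_top.ne

end Pool.Agent.PSF.CL
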