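import Pool.Agent.P.MP_7b7370_an.CLPhi
import Pool.Agent.P.MP_7b7370_an.CLSlice
import Pool.Agent.P.MP_7b7370_an.CLInd
import Pool.Agent.P.MP_7b7370_an.CLExp
import Pool.Agent.P.MP_7b7370_an.CLW
import Pool.Agent.P.MP_7b7370_an.CLStarC

/-! Comparison of a general weight with the model weight. -/

set_option autoImplicit false

namespace Pool.Agent.PSF.CL

open Real Set MeasureTheory Filter Topology
open scoped ENNReal NNReal

theorem dm {c k φ R b : ℝ} {q : Measure ℝ} [IsFiniteMeasure q] (h1 : q.real univ < 1)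
    (hW : ∫⁻ w in Str, ENNReal.ofReal (WW c k q w) ≠ ∞) (hM : Model (q.real univ) φ)
    {F : ℝ × ℝ → ℝ} (hb : b < π / 2) (hF : LB R b F) :
    ENNReal.ofReal (2 * φ) *
        ∫⁻ w in Str, ENNReal.ofReal (WW c k q w) * ENNReal.ofReal (F w ^ 2) ≤
      (∫⁻ w in Str, ENNReal.ofReal (WW c k q w)) * (E1 F + E2 F) := by
  have hq := wq_fin hW
  have hp := mass_pos hq
  obtain ⟨G, U, hG, hU, l2, l1, d1, d2, e1, e2⟩ := exists_rearr hF
  have mF : Measurable fun w => ENNReal.ofReal (F w ^ 2) :=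
    (hF.cont.pow 2).measurable.ennreal_ofReal
  have mU : Measurable fun w => ENNReal.ofReal (U w ^ 2) :=
    (hU.cont.pow 2).measurable.ennreal_ofReal
  have hN : ∀ N : ℕ, 0 < q.real univ + N := fun N => by positivity
  have key := sum_cheb (a := fun N => ENNReal.ofReal (aN (q.real univ) N))
    (S := fun N => SS (q.real univ + N)) (c := cN) (e := fun N => ∫⁻ x, eN c k q N x)
    (Ψ := Ps (q.real univ) U)
    (T := fun N => ∫⁻ w : ℝ × ℝ, ct N w.2 * eN c k q N w.1 * ENNReal.ofReal (F w ^ 2))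
    (fun N => (ENNReal.ofReal_pos.2 (aN_pos hp N)).ne') (fun N => ENNReal.ofReal_ne_top)
    (fun N => SS_ne_zero _) (fun N => SS_ne_top (hN N)) cN_ne_zero cN_ne_top
    (fun N => slice_le (measurable_eN c k q N) (maj_eN N c k q hq) hF.cont hG.cont hU.cont l2 l1)
    (fun N => by
      have h := mass_eN N c k q hq
      have ea : ((N : ℝ≥0∞) + 1) * ENNReal.ofReal (aN (q.real univ) (N + 1)) =
          ENNReal.ofReal (q.real univ + N) * ENNReal.ofReal (aN (q.real univ) N) := by
        rw [← ENNReal.ofReal_mul (hN N).le, ← aN_succ, ENNReal.ofReal_mul (by positivity),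
          ENNReal.ofReal_add (by positivity) zero_le_one, ENNReal.ofReal_natCast,
          ENNReal.ofReal_one]
      have es : q.real univ + ((N + 1 : ℕ) : ℝ) = q.real univ + N + 1 := by
        push_cast
        ring
      have h0 : (N : ℝ≥0∞) + 1 ≠ 0 := by simp
      have ht : (N : ℝ≥0∞) + 1 ≠ ∞ := by simp
      rw [es, ← ENNReal.mul_le_mul_iff_right h0 ht]
      calc ((N : ℝ≥0∞) + 1) * ((∫⁻ x, eN c k q (N + 1) x) *
            (ENNReal.ofReal (aN (q.real univ) N) * SS (q.real univ + N)))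
          = ((N : ℝ≥0∞) + 1) * (∫⁻ x, eN c k q (N + 1) x) * SS (q.real univ + N) *
            ENNReal.ofReal (aN (q.real univ) N) := by ring
        _ ≤ ENNReal.ofReal (q.real univ + N) * SS (q.real univ + N + 1) * (∫⁻ x, eN c k q N x) *
            ENNReal.ofReal (aN (q.real univ) N) := by gcongr
        _ = (∫⁻ x, eN c k q N x) * (ENNReal.ofReal (q.real univ + N) *
            ENNReal.ofReal (aN (q.real univ) N)) * SS (q.real univ + N + 1) := by ring
        _ = _ := by rw [← ea]; ring)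
    (Ps_mono _ hU.cont hU.nn d1 d2)
  have eP := lint_Wp hp mU
  rw [← lint_Wp_one hp, ← lint_WW_one, ← lint_WW c k q mF] at key
  replace key := key.trans_eq (congrArg _ eP.symm)
  have hg : Good (q.real univ) φ U := hM U R b hb hU
  have ht := lint_Wp_ne_top hp h1
  have h0 : ∫⁻ w in Str, ENNReal.ofReal (Wp (q.real univ) w) ≠ 0 := by
    rw [lint_Wp_one hp]
    refine (lt_of_lt_of_le ?_ (ENNReal.le_tsum 0)).ne'
    exact pos_iff_ne_zero.2 (mul_ne_zero (mul_ne_zero (ENNReal.ofReal_pos.2 (aN_pos hp 0)).ne'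
      (SS_ne_zero _)) (cN_ne_zero 0))
  rw [← ENNReal.mul_le_mul_iff_right h0 ht]
  unfold Good at hg
  generalize ∫⁻ w in Str, ENNReal.ofReal (Wp (q.real univ) w) = A at key hg ⊢
  generalize ∫⁻ w in Str, ENNReal.ofReal (WW c k q w) = B at key ⊢
  generalize ∫⁻ w in Str, ENNReal.ofReal (WW c k q w) * ENNReal.ofReal (F w ^ 2) = C at key ⊢
  generalize ∫⁻ w in Str, ENNReal.ofReal (Wp (q.real univ) w) * ENNReal.ofReal (U w ^ 2) = D
    at key hg
  calc A * (ENNReal.ofReal (2 * φ) * C) = ENNReal.ofReal (2 * φ) * (A * C) := by ring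
    _ ≤ ENNReal.ofReal (2 * φ) * (B * D) := by gcongr
    _ = B * (ENNReal.ofReal (2 * φ) * D) := by ring
    _ ≤ B * (A * (E1 U + E2 U)) := by gcongr
    _ ≤ B * (A * (E1 F + E2 F)) := by gcongr
    _ = A * (B * (E1 F + E2 F)) := by ring

end Pool.Agent.PSF.CL
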