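import Pool.Agent.P.MP_7b7370_an.CFEn
import Pool.Agent.P.MP_7b7370_an.CLDm

/-! The inequality for the image of a strip with a represented weight. -/

set_option autoImplicit false

namespace Pool.Agent.PSF.CL

open Real Set MeasureTheory Filter Topology
open scoped ENNReal NNReal

theorem strip_ineq {f : ℂ → ℂ} {v : ℂ → ℝ} {K : ℝ≥0} {R δ c k φ : ℝ} {q : Measure ℝ}
    [IsFiniteMeasure q] (hd : DifferentiableOn ℂ f (St (π / 2))) (hi : InjOn f (St (π / 2)))
    (hK : LipschitzOnWith K f (Sc (π / 2))) (hv : ContDiff ℝ 1 v) (hc : HasCompactSupport v)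
    (hδ : 0 < δ) (hs : ∀ w ∈ Sc (π / 2), f w ∈ tsupport v → |w.re| < R ∧ δ < w.im)
    (hW : ∀ w ∈ Sig, ‖deriv f (ka w)‖ ^ 2 = WW c k q w)
    (hfin : volume (f '' St (π / 2)) ≠ ∞) (h1 : q.real univ < 1)
    (hM : 0 < q.real univ → Model (q.real univ) φ) :
    ENNReal.ofReal φ * ∫⁻ z in f '' St (π / 2), ENNReal.ofReal (v z ^ 2) ≤
      volume (f '' St (π / 2)) *
        ∫⁻ z in f '' St (π / 2), ENNReal.ofReal (‖fderiv ℝ v z‖ ^ 2) := by
  have key : ∀ g : ℂ → ℝ≥0∞, ∫⁻ z in f '' St (π / 2), g z =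
      ∫⁻ p in Sig, ENNReal.ofReal (‖deriv f (ka p)‖ ^ 2) * g (f (ka p)) := fun g => by
    rw [lint_image (isOpen_St _) hd hi g,
      lint_ka fun w => ENNReal.ofReal (‖deriv f w‖ ^ 2) * g (f w)]
  have hev : ∀ x t, WW c k q (x, -t) = WW c k q (x, t) := fun x t => by simp only [WW, cos_neg]
  have hkb : ∀ x t, kb (x, -t) = kb (x, t) := fun x t => by simp only [kb, abs_neg]
  have hV : ∫⁻ w in Str, ENNReal.ofReal (WW c k q w) = 2 * volume (f '' St (π / 2)) := by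
    rw [lint_Str_even fun x t => by rw [hev], ← setLIntegral_one, key]
    congr 1
    refine setLIntegral_congr_fun measurableSet_Sig fun p hp => ?_
    simp only [hW p hp, mul_one]
  have hA : ∫⁻ w in Str, ENNReal.ofReal (WW c k q w) * ENNReal.ofReal (|v (f (kb w))| ^ 2) =
      2 * ∫⁻ z in f '' St (π / 2), ENNReal.ofReal (v z ^ 2) := by
    rw [lint_Str_even fun x t => by rw [hev, hkb], key]
    congr 1
    refine setLIntegral_congr_fun measurableSet_Sig fun p hp => ?_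
    simp only [hW p hp, kb_eq hp, sq_abs]
  have hfin2 : ∫⁻ w in Str, ENNReal.ofReal (WW c k q w) ≠ ∞ := by
    rw [hV]; exact ENNReal.mul_ne_top ENNReal.ofNat_ne_top hfin
  obtain ⟨hL, hE⟩ := pull_back hd hK hv hc hδ hs
  have h := dm h1 hfin2 (hM (mass_pos (wq_fin hfin2))) (by linarith) hL
  rw [← key fun z => ENNReal.ofReal (‖fderiv ℝ v z‖ ^ 2)] at hE
  rw [hA, hV, ENNReal.ofReal_mul zero_le_two, ENNReal.ofReal_ofNat] at h
  have h2 := h.trans (mul_le_mul_right hE _)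
  have h4 : (2 * 2 : ℝ≥0∞) ≠ 0 := by norm_num
  have h5 : (2 * 2 : ℝ≥0∞) ≠ ∞ := ENNReal.mul_ne_top ENNReal.ofNat_ne_top ENNReal.ofNat_ne_top
  rw [mul_mul_mul_comm 2 (volume (f '' St (π / 2))) 2, mul_mul_mul_comm 2 (ENNReal.ofReal φ) 2] at h2
  exact (ENNReal.mul_le_mul_iff_right h4 h5).1 h2

end Pool.Agent.PSF.CL
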