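import Pool.Agent.P.MP_7b7370_an.CFTop
import Pool.Agent.P.MP_7f9008_an.RMT

/-! The symmetric Riemann map of the disc. -/

set_option autoImplicit false

namespace Pool.Agent.PSF.CL

open Real Set MeasureTheory Filter Topology
open scoped ENNReal NNReal

theorem cfsym_inv {U : Set ℂ} (hU : IsOpen U) {g G : ℂ → ℂ}
    (dG : DifferentiableOn ℂ G U) (mg : MapsTo g (Metric.ball 0 1) U)
    (hl : ∀ u ∈ Metric.ball (0 : ℂ) 1, G (g u) = u) {d : ℂ} (hd : HasDerivAt g d 0) :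
    ∃ e, HasDerivAt G e (g 0) ∧ e * d = 1 := by
  have h0 : (0 : ℂ) ∈ Metric.ball (0 : ℂ) 1 := Metric.mem_ball_self one_pos
  have h1 := (dG.differentiableAt (hU.mem_nhds (mg h0))).hasDerivAt
  refine ⟨_, h1, ?_⟩
  have h2 := h1.comp 0 hd
  have h3 : HasDerivAt (G ∘ g) 1 0 :=
    (hasDerivAt_id (0 : ℂ)).congr_of_eventuallyEq
      (mem_of_superset (Metric.ball_mem_nhds 0 one_pos) fun u hu => hl u hu)
  exact h2.unique h3

theorem cfsym_norm {U : Set ℂ} (hU : IsOpen U) {g G : ℂ → ℂ}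
    (dg : DifferentiableOn ℂ g (Metric.ball 0 1)) (dG : DifferentiableOn ℂ G U)
    (mg : MapsTo g (Metric.ball 0 1) U) (mG : MapsTo G U (Metric.ball 0 1))
    (hl : ∀ u ∈ Metric.ball (0 : ℂ) 1, G (g u) = u) (hr : ∀ z ∈ U, g (G z) = z) :
    ∃ (g' G' : ℂ → ℂ) (r : ℝ), DifferentiableOn ℂ g' (Metric.ball 0 1) ∧ DifferentiableOn ℂ G' U ∧
      MapsTo g' (Metric.ball 0 1) U ∧ MapsTo G' U (Metric.ball 0 1) ∧
      (∀ u ∈ Metric.ball (0 : ℂ) 1, G' (g' u) = u) ∧ (∀ z ∈ U, g' (G' z) = z) ∧ g' 0 = g 0 ∧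
      0 < r ∧ HasDerivAt g' r 0 := by
  have hd := (dg.differentiableAt (Metric.ball_mem_nhds 0 one_pos)).hasDerivAt
  obtain ⟨e, -, he⟩ := cfsym_inv hU dG mg hl hd
  obtain ⟨d, hde⟩ : ∃ d, d = deriv g 0 := ⟨_, rfl⟩
  rw [← hde] at hd he
  have d0 : d ≠ 0 := right_ne_zero_of_mul_eq_one he
  have r0 : 0 < ‖d‖ := norm_pos_iff.2 d0
  have rc : ((‖d‖ : ℝ) : ℂ) ≠ 0 := Complex.ofReal_ne_zero.2 r0.ne'
  have n1 : ‖((‖d‖ : ℝ) : ℂ) / d‖ = 1 := by
    rw [norm_div, Complex.norm_real, norm_norm, div_self r0.ne']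
  have n2 : ‖d / ((‖d‖ : ℝ) : ℂ)‖ = 1 := by
    rw [norm_div, Complex.norm_real, norm_norm, div_self r0.ne']
  have m1 : ∀ c : ℂ, ‖c‖ = 1 → MapsTo (fun u : ℂ => c * u) (Metric.ball 0 1) (Metric.ball 0 1) :=
    fun c hc u hu => by
      rw [mem_ball_zero_iff] at hu ⊢
      rwa [norm_mul, hc, one_mul]
  refine ⟨fun u => g (((‖d‖ : ℝ) : ℂ) / d * u), fun z => d / ((‖d‖ : ℝ) : ℂ) * G z, ‖d‖,
    dg.comp (by fun_prop) (m1 _ n1), dG.const_mul _, mg.comp (m1 _ n1), (m1 _ n2).comp mG,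
    fun u hu => ?_, fun z hz => ?_, by simp, r0, ?_⟩
  · simp only
    rw [hl _ (m1 _ n1 hu)]
    field_simp
  · simp only
    have : ((‖d‖ : ℝ) : ℂ) / d * (d / ((‖d‖ : ℝ) : ℂ) * G z) = G z := by field_simp
    rw [this, hr z hz]
  · have h1 : HasDerivAt (fun u : ℂ => ((‖d‖ : ℝ) : ℂ) / d * u) (((‖d‖ : ℝ) : ℂ) / d) 0 := by
      simpa using (hasDerivAt_id (0 : ℂ)).const_mul (((‖d‖ : ℝ) : ℂ) / d)
    have h2 : HasDerivAt g d ((fun u : ℂ => ((‖d‖ : ℝ) : ℂ) / d * u) 0) := by simpa using hd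
    have h3 := h2.comp 0 h1
    have : d * (((‖d‖ : ℝ) : ℂ) / d) = ‖d‖ := by field_simp
    rw [this] at h3
    exact h3

theorem cfsym_ball {w : ℂ} (hw : w ∈ Metric.ball (0 : ℂ) 1) :
    (starRingEnd ℂ) w ∈ Metric.ball (0 : ℂ) 1 := by
  rw [mem_ball_zero_iff] at hw ⊢
  rwa [Complex.norm_conj]

theorem cfsym_cj {U : Set ℂ} (hU : IsOpen U) (hs : ∀ z ∈ U, (starRingEnd ℂ) z ∈ U) {g G : ℂ → ℂ}
    (dg : DifferentiableOn ℂ g (Metric.ball 0 1)) (dG : DifferentiableOn ℂ G U)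
    (mg : MapsTo g (Metric.ball 0 1) U) (mG : MapsTo G U (Metric.ball 0 1))
    (hl : ∀ u ∈ Metric.ball (0 : ℂ) 1, G (g u) = u) (hr : ∀ z ∈ U, g (G z) = z) {x r : ℝ}
    (h0 : g 0 = x) (hd : HasDerivAt g r 0) :
    ∀ w ∈ Metric.ball (0 : ℂ) 1, g ((starRingEnd ℂ) w) = (starRingEnd ℂ) (g w) := by
  have b0 : (0 : ℂ) ∈ Metric.ball (0 : ℂ) 1 := Metric.mem_ball_self one_pos
  obtain ⟨e, he, her⟩ := cfsym_inv hU dG mg hl hd
  obtain ⟨k, hk⟩ : ∃ k : ℂ → ℂ, k = starRingEnd ℂ ∘ g ∘ starRingEnd ℂ := ⟨_, rfl⟩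
  have kv : ∀ w, k w = (starRingEnd ℂ) (g ((starRingEnd ℂ) w)) := fun w => by rw [hk]; rfl
  have dk : DifferentiableOn ℂ k (Metric.ball 0 1) := fun w hw => by
    rw [hk]
    exact (differentiableAt_conj_conj_iff.2 (dg.differentiableAt
      (Metric.isOpen_ball.mem_nhds (cfsym_ball hw)))).differentiableWithinAt
  have mk : MapsTo k (Metric.ball 0 1) U := fun w hw => by
    rw [kv]; exact hs _ (mg (cfsym_ball hw))
  have k0 : k 0 = g 0 := by rw [kv, map_zero, h0, Complex.conj_ofReal]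
  have hk' : HasDerivAt k r 0 := by
    have := hd.conj_conj
    rw [map_zero, Complex.conj_ofReal, ← hk] at this
    exact this
  have hh : HasDerivAt (G ∘ k) 1 0 := by
    have h1 : HasDerivAt G e (k 0) := by rw [k0]; exact he
    have := h1.comp 0 hk'
    rwa [her] at this
  have v0 : (G ∘ k) 0 = 0 := by rw [Function.comp_apply, k0, hl 0 b0]
  have ds : dslope (G ∘ k) 0 0 = 1 := by rw [dslope_same, hh.deriv]
  have key := Complex.affine_of_mapsTo_ball_of_norm_dslope_eq_div (f := G ∘ k) (c := 0) (z₀ := 0)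
    (R₁ := 1) (R₂ := 1) (dG.comp dk mk)
    (fun w hw => by rw [v0]; exact Metric.ball_subset_closedBall (mG (mk hw))) b0
    (by rw [ds]; simp)
  intro w hw
  have h1 : G (k w) = w := by
    have := key hw
    simp only [v0, ds] at this
    simpa using this
  have h2 : k w = g w := by rw [← hr _ (mk hw), h1]
  rw [← h2, kv, Complex.conj_conj]

theorem cfsym_up {g G : ℂ → ℂ} (dg : DifferentiableOn ℂ g (Metric.ball 0 1))
    (hl : ∀ u ∈ Metric.ball (0 : ℂ) 1, G (g u) = u) {x r : ℝ} (h0 : g 0 = x) (hr : 0 < r)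
    (hd : HasDerivAt g r 0)
    (cj : ∀ w ∈ Metric.ball (0 : ℂ) 1, g ((starRingEnd ℂ) w) = (starRingEnd ℂ) (g w)) :
    ∀ w ∈ Metric.ball (0 : ℂ) 1, 0 < w.im → 0 < (g w).im := by
  have ne : ∀ w ∈ Metric.ball (0 : ℂ) 1, 0 < w.im → (g w).im ≠ 0 := fun w hw hi h => by
    have h1 : g ((starRingEnd ℂ) w) = g w := by rw [cj w hw, Complex.conj_eq_iff_im.2 h]
    have h2 : (starRingEnd ℂ) w = w := by rw [← hl _ (cfsym_ball hw), h1, hl w hw]
    exact hi.ne' (Complex.conj_eq_iff_im.1 h2)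
  have d1 : HasDerivAt (fun t : ℝ => (g (t * Complex.I)).im) r 0 := by
    have h1 : HasDerivAt (fun u : ℂ => u * Complex.I) Complex.I ((0 : ℝ) : ℂ) := by
      simpa using (hasDerivAt_id ((0 : ℝ) : ℂ)).mul_const Complex.I
    have h2 : HasDerivAt g r ((fun u : ℂ => u * Complex.I) ((0 : ℝ) : ℂ)) := by simpa using hd
    have h3 := (HasDerivAt.comp (h := fun u : ℂ => u * Complex.I) ((0 : ℝ) : ℂ) h2 h1).comp_ofReal
    have h4 := Complex.imCLM.hasFDerivAt.comp_hasDerivAt (0 : ℝ) h3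
    simpa [Function.comp_def] using h4
  have ev : ∀ᶠ t : ℝ in 𝓝[>] 0, 0 < (g (t * Complex.I)).im := by
    have h1 := (hasDerivAt_iff_tendsto_slope_zero.1 d1).mono_left (nhdsGT_le_nhdsNE (0 : ℝ))
    filter_upwards [h1.eventually (lt_mem_nhds hr), self_mem_nhdsWithin] with t ht t0
    simp only [zero_add, Complex.ofReal_zero, zero_mul, h0, Complex.ofReal_im, sub_zero,
      smul_eq_mul] at ht
    exact (mul_pos_iff_of_pos_left (inv_pos.2 t0)).1 ht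
  obtain ⟨t, ht, t0, t1⟩ := (ev.and (Ioo_mem_nhdsGT one_pos)).exists
  have hA : IsPreconnected (Metric.ball (0 : ℂ) 1 ∩ {w | 0 < w.im}) :=
    ((convex_ball 0 1).inter (convex_halfSpace_im_gt 0)).isPreconnected
  have hc : ContinuousOn (fun w => (g w).im) (Metric.ball (0 : ℂ) 1 ∩ {w | 0 < w.im}) :=
    Complex.continuous_im.comp_continuousOn (dg.continuousOn.mono inter_subset_left)
  have hm : (t : ℂ) * Complex.I ∈ Metric.ball (0 : ℂ) 1 ∩ {w | 0 < w.im} := by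
    refine ⟨?_, by simpa using t0⟩
    rw [mem_ball_zero_iff, norm_mul, Complex.norm_I, mul_one, Complex.norm_real,
      Real.norm_of_nonneg t0.le]
    exact t1
  intro w hw hi
  by_contra hn
  obtain ⟨v, hv, h⟩ := hA.intermediate_value (a := w) ⟨hw, hi⟩ hm hc ⟨not_lt.1 hn, ht.le⟩
  exact ne v hv.1 hv.2 h

theorem Cell.exists_disc {C : Set ℂ} {β γ : ℝ} (h : Cell C β γ) :
    ∃ g Γ : ℂ → ℂ, SM (Metric.ball 0 1) C g Γ := by
  obtain ⟨x, hx⟩ := h.base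
  have hU := isOpen_Om h.op
  have hx' : (x : ℂ) ∈ Om C := by
    show fo x ∈ C
    rwa [fo_of_nonneg (by simp)]
  have hs : ∀ z ∈ Om C, (starRingEnd ℂ) z ∈ Om C := fun z hz => by
    show fo _ ∈ C
    rw [fo_conj]
    exact hz
  obtain ⟨g, G, dg, dG, mg, mG, hl, hr, h0⟩ :=
    Pool.Agent.P.MP_7f9008_an.rmt hU h.preconn h.bdd h.compl hx'
  obtain ⟨g', G', r, dg', dG', mg', mG', hl', hr', h0', r0, hd⟩ := cfsym_norm hU dg dG mg mG hl hr
  rw [h0] at h0'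
  have cj := cfsym_cj hU hs dg' dG' mg' mG' hl' hr' h0' hd
  exact ⟨g', G', dg', dG', mg', mG', hl', hr', cj, cfsym_up dg' hl' h0' r0 hd cj⟩

end Pool.Agent.PSF.CL
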