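import Pool.Agent.P.MP_7b7370_an.CLMollA

/-! Mollification. -/

set_option autoImplicit false

namespace Pool.Agent.PSF.CL

open Real Set MeasureTheory Filter Topology
open scoped ENNReal NNReal Convolution

theorem exists_moll {R b : ℝ} {U : ℝ × ℝ → ℝ} (hb : b < π / 2) (hU : LB R b U) :
    ∃ V : ℕ → ℝ × ℝ → ℝ, (∀ n, ContDiff ℝ 1 (V n) ∧ HasCompactSupport (V n) ∧
      tsupport (V n) ⊆ Str ∧ ∀ h, DQ (V n) h ≤ DQ U h) ∧
      ∀ w, Tendsto (fun n => V n w) atTop (𝓝 (U w)) := by
  set d : ℝ := (π / 2 - b) / 2 with hd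
  have d0 : 0 < d := by rw [hd]; linarith
  let φ : ℕ → ContDiffBump (0 : ℝ × ℝ) := fun n =>
    ⟨d / (n + 1) / 2, d / (n + 1), by positivity, half_lt_self (by positivity)⟩
  have hr : ∀ n, (φ n).rOut ≤ d := fun n =>
    div_le_self d0.le (le_add_of_nonneg_left (Nat.cast_nonneg n))
  refine ⟨fun n => (φ n).normed volume ⋆[ContinuousLinearMap.lsmul ℝ ℝ, volume] U,
    fun n => ?_, fun w => ?_⟩
  · have e : ((φ n).normed volume ⋆[ContinuousLinearMap.lsmul ℝ ℝ, volume] U) =
        fun w => ∫ y, (φ n).normed volume y * U (w - y) := by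
      funext w; rw [convolution_def]; rfl
    have hs : Function.support
        ((φ n).normed volume ⋆[ContinuousLinearMap.lsmul ℝ ℝ, volume] U) ⊆
        Icc (-(R + d)) (R + d) ×ˢ Icc (-(b + d)) (b + d) := by
      intro w hw
      rw [e] at hw
      by_contra hn
      refine hw (integral_eq_zero_of_ae (.of_forall fun y => ?_))
      by_cases hy : (φ n).normed volume y = 0
      · simp [hy]
      have h1 : y ∈ Metric.ball (0 : ℝ × ℝ) (φ n).rOut := by
        rw [← (φ n).support_normed_eq (μ := volume)]; exact hy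
      rw [mem_ball_zero_iff, Prod.norm_def, max_lt_iff, Real.norm_eq_abs, Real.norm_eq_abs,
        abs_lt, abs_lt] at h1
      have h2 := hr n
      have h3 : U (w - y) = 0 := by
        refine hU.supp _ ?_
        by_contra h4
        rw [not_or, not_le, not_le, abs_lt, abs_lt, Prod.fst_sub, Prod.snd_sub] at h4
        exact hn ⟨⟨by linarith [h1.1.1, h4.1.1], by linarith [h1.1.2, h4.1.2]⟩,
          ⟨by linarith [h1.2.1, h4.2.1], by linarith [h1.2.2, h4.2.2]⟩⟩
      simp [h3]
    have hK : IsCompact (Icc (-(R + d)) (R + d) ×ˢ Icc (-(b + d)) (b + d)) :=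
      isCompact_Icc.prod isCompact_Icc
    refine ⟨(φ n).hasCompactSupport_normed.contDiff_convolution_left _ (φ n).contDiff_normed
      hU.cont.locallyIntegrable, HasCompactSupport.of_support_subset_isCompact hK hs,
      (closure_minimal hs hK.isClosed).trans fun w hw => ⟨mem_univ _, ?_, ?_⟩, fun h => ?_⟩
    · linarith [hw.2.1]
    · linarith [hw.2.2]
    · beta_reduce
      rw [e]
      exact DQ_conv (φ n).continuous_normed (φ n).hasCompactSupport_normed (φ n).nonneg_normed
        (φ n).integral_normed hU.cont h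
  · refine ContDiffBump.convolution_tendsto_right_of_continuous ?_ hU.cont w
    exact tendsto_const_nhds.div_atTop
      (tendsto_atTop_add_const_right _ _ tendsto_natCast_atTop_atTop)

end Pool.Agent.PSF.CL
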