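import Pool.Agent.P.MP_7b7370_an.CLModelA
import Pool.Agent.P.MP_7b7370_an.CLMoll
import Pool.Agent.P.MP_7b7370_an.CLDQ

/-! From smooth to Lipschitz functions. -/

set_option autoImplicit false

namespace Pool.Agent.PSF.CL

open Real Set MeasureTheory Filter Topology
open scoped ENNReal NNReal

theorem model_of_stripLB {p φ : ℝ} (hp : 0 < p) (hp1 : p < 1) (h : StripLB p φ) :
    Model p φ := by
  intro U R b hb hU
  obtain ⟨V, hV, hlim⟩ := exists_moll hb hU
  obtain ⟨K, hK⟩ := hU.lip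
  have mW : Measurable fun w : ℝ × ℝ => ENNReal.ofReal (Wp p w) := by
    unfold Wp
    fun_prop
  have mV : ∀ n, Measurable fun w : ℝ × ℝ =>
      ENNReal.ofReal (2 * φ) * (ENNReal.ofReal (Wp p w) * ENNReal.ofReal (V n w ^ 2)) := by
    intro n
    have := (hV n).1.continuous.measurable
    exact (mW.mul (this.pow_const 2).ennreal_ofReal).const_mul _
  have hb : ∀ n, ∫⁻ w in Str,
      ENNReal.ofReal (2 * φ) * (ENNReal.ofReal (Wp p w) * ENNReal.ofReal (V n w ^ 2)) ≤
      (∫⁻ w in Str, ENNReal.ofReal (Wp p w)) * (E1 U + E2 U) := by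
    intro n
    obtain ⟨h1, h2, h3, h4⟩ := hV n
    rw [lintegral_const_mul' _ _ ENNReal.ofReal_ne_top]
    refine (good_of_contDiff hp hp1 h h1 h2 h3).trans (mul_le_mul_right (add_le_add ?_ ?_) _)
    · exact E1_le_of_DQ h1.continuous fun r hr => (h4 _).trans (DQ_le_E1 hK hr)
    · exact E2_le_of_DQ h1.continuous fun r hr => (h4 _).trans (DQ_le_E2 hK hr)
  have hl : ∀ w : ℝ × ℝ,
      ENNReal.ofReal (2 * φ) * (ENNReal.ofReal (Wp p w) * ENNReal.ofReal (U w ^ 2)) =
      liminf (fun n => ENNReal.ofReal (2 * φ) *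
        (ENNReal.ofReal (Wp p w) * ENNReal.ofReal (V n w ^ 2))) atTop := by
    intro w
    refine (Tendsto.liminf_eq ?_).symm
    refine ENNReal.Tendsto.const_mul (ENNReal.Tendsto.const_mul ?_ (Or.inr ENNReal.ofReal_ne_top))
      (Or.inr ENNReal.ofReal_ne_top)
    exact ENNReal.tendsto_ofReal ((hlim w).pow 2)
  unfold Good
  rw [← lintegral_const_mul' _ _ ENNReal.ofReal_ne_top]
  simp only [hl]
  refine (lintegral_liminf_le mV).trans ?_
  exact liminf_le_of_frequently_le' (Frequently.of_forall hb)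

end Pool.Agent.PSF.CL
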