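import Pool.Agent.P.MP_7b7370_an.CFSub
import Pool.Agent.P.MP_7b7370_an.CFSym
import Pool.Agent.P.MP_7b7370_an.CFStripA
import Pool.Agent.P.MP_7b7370_an.CFCell
import Pool.Agent.P.MP_7b7370_an.CLModel

/-! The cell inequality. -/

set_option autoImplicit false

namespace Pool.Agent.PSF.CL

open Real Set MeasureTheory Filter Topology
open scoped ENNReal NNReal

theorem cell_lint {C : Set ℂ} {β γ φ : ℝ} {v : ℂ → ℝ} (hC : Cell C β γ)
    (hM : ∀ p, 0 < p → p ≤ (β + γ) / π → Model p φ) (hv : ContDiff ℝ 1 v)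
    (hc : HasCompactSupport v) (hd : ∀ z ∈ closure C, z.im = 0 → z ∉ tsupport v) :
    ENNReal.ofReal φ * ∫⁻ z in C ∩ {z | 0 < z.im}, ENNReal.ofReal (v z ^ 2) ≤
      volume (C ∩ {z | 0 < z.im}) *
        ∫⁻ z in C ∩ {z | 0 < z.im}, ENNReal.ofReal (‖fderiv ℝ v z‖ ^ 2) := by
  obtain ⟨g, Γ, hg⟩ := hC.exists_disc
  obtain ⟨G, Ψ, h⟩ := hg.strip
  obtain ⟨F, hF⟩ := h.exists_log hC.op
  have hπ : 0 < π / 2 := by positivity
  set b : ℕ → ℝ := fun n => π / 2 - π / 2 / ((n : ℝ) + 2) with hb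
  have hb0 : ∀ n, 0 < b n := fun n => by
    have h1 : π / 2 / ((n : ℝ) + 2) < π / 2 := div_lt_self hπ (by
      have : (0 : ℝ) ≤ n := n.cast_nonneg
      linarith)
    simp only [hb]; linarith
  have hb1 : ∀ n, b n < π / 2 := fun n => by
    have h1 : 0 < π / 2 / ((n : ℝ) + 2) := by positivity
    simp only [hb]; linarith
  have hbm : Monotone b := fun m n hmn => by
    have h1 : (m : ℝ) ≤ n := by exact_mod_cast hmn
    have h2 : π / 2 / ((n : ℝ) + 2) ≤ π / 2 / ((m : ℝ) + 2) := by gcongr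
    simp only [hb]; linarith
  have hsub : ∀ n, G '' St (b n) ⊆ C ∩ {z | 0 < z.im} := fun n => by
    rw [← h.image]
    exact image_mono fun w hw => ⟨hw.1, hw.2.trans (hb1 n)⟩
  have hU : C ∩ {z | 0 < z.im} = ⋃ n, G '' St (b n) := by
    refine Subset.antisymm ?_ (iUnion_subset hsub)
    rw [← h.image]
    rintro _ ⟨w, hw, rfl⟩
    have hδ : 0 < π / 2 - w.im := sub_pos.mpr hw.2
    obtain ⟨n, hn⟩ := exists_nat_gt (π / 2 / (π / 2 - w.im))
    refine mem_iUnion.mpr ⟨n, w, ⟨hw.1, ?_⟩, rfl⟩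
    have h1 : π / 2 / ((n : ℝ) + 2) < π / 2 - w.im := by
      rw [div_lt_iff₀ (by positivity)]
      rw [div_lt_iff₀ hδ] at hn
      nlinarith
    simp only [hb]; linarith
  have hdir : Directed (· ⊆ ·) fun n => G '' St (b n) :=
    Monotone.directed_le fun m n hmn =>
      image_mono fun w hw => ⟨hw.1, hw.2.trans_le (hbm hmn)⟩
  conv_lhs => rw [hU, setLIntegral_iUnion_of_directed _ hdir, ENNReal.mul_iSup]
  refine iSup_le fun n => (sub_ineq hC h hF hM hv hc hd (hb0 n) (hb1 n)).trans ?_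
  exact mul_le_mul' (measure_mono (hsub n)) (lintegral_mono_set (hsub n))

theorem _root_.Pool.Agent.PSF.cellIneq : CellIneq := by
  intro C a b φ v ho hcv hab hR hbd hS hv hc hd
  rcases (C ∩ {z : ℂ | 0 < z.im}).eq_empty_or_nonempty with he | hne
  · simp [he]
  rcases le_or_gt φ 0 with hφ | hφ
  · exact (mul_nonpos_of_nonpos_of_nonneg hφ (integral_nonneg fun _ => sq_nonneg _)).trans
      (mul_nonneg ENNReal.toReal_nonneg (integral_nonneg fun _ => sq_nonneg _))
  obtain ⟨β, γ, hC, hβγ⟩ := exists_cell ho hcv hab hR hbd hne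
  have hM : ∀ p, 0 < p → p ≤ (β + γ) / π → Model p φ := fun p hp hp1 => by
    have h1 : (β + γ) / π = 1 - (b - a) / π := by rw [hβγ]; field_simp
    have h2 : (β + γ) / π < 1 := (div_lt_one pi_pos).mpr hC.lt
    exact model_of_stripLB hp (hp1.trans_lt h2) (hS p hp (h1 ▸ hp1))
  have key := cell_lint hC hM hv hc hd
  have hdc : Continuous fun z => ‖fderiv ℝ v z‖ ^ 2 :=
    ((hv.continuous_fderiv one_ne_zero).norm).pow 2
  have hdi : Integrable fun z => ‖fderiv ℝ v z‖ ^ 2 := by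
    refine hdc.integrable_of_hasCompactSupport ?_
    exact (hc.fderiv (𝕜 := ℝ)).comp_left (g := fun L : ℂ →L[ℝ] ℝ => ‖L‖ ^ 2) (by simp)
  have hvi : Integrable fun z => v z ^ 2 := by
    refine (hv.continuous.pow 2).integrable_of_hasCompactSupport ?_
    exact hc.comp_left (g := fun y : ℝ => y ^ 2) (by simp)
  rw [← ofReal_integral_eq_lintegral_ofReal hvi.integrableOn (.of_forall fun _ => sq_nonneg _),
    ← ofReal_integral_eq_lintegral_ofReal hdi.integrableOn (.of_forall fun _ => sq_nonneg _),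
    ← ENNReal.ofReal_mul hφ.le, ← ENNReal.ofReal_toReal hbd.measure_lt_top.ne,
    ← ENNReal.ofReal_mul ENNReal.toReal_nonneg] at key
  exact (ENNReal.ofReal_le_ofReal_iff
    (mul_nonneg ENNReal.toReal_nonneg (integral_nonneg fun _ => sq_nonneg _))).mp key

end Pool.Agent.PSF.CL
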