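import Pool.Agent.P.MP_7b7370_an.CLDefs

/-! Bathtub principle and the layer cake form of majorisation. -/

set_option autoImplicit false

namespace Pool.Agent.PSF.CL

open Real Set MeasureTheory Filter Topology
open scoped ENNReal NNReal

theorem bathtub {f : ℝ → ℝ≥0∞} {I E : Set ℝ} {m : ℝ≥0∞} (hI : MeasurableSet I)
    (hE : MeasurableSet E) (hin : ∀ x ∈ I, m ≤ f x) (hout : ∀ x ∉ I, f x ≤ m)
    (hv : volume E ≤ volume I) (hfin : volume I ≠ ∞) :
    ∫⁻ x in E, f x ≤ ∫⁻ x in I, f x := by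
  have h1 : volume (E \ I) ≤ volume (I \ E) := by
    rw [← measure_inter_add_sdiff E hI, ← measure_inter_add_sdiff I hE, inter_comm I E] at hv
    exact ENNReal.le_of_add_le_add_left
      (ne_top_of_le_ne_top hfin (measure_mono inter_subset_right)) hv
  rw [← lintegral_inter_add_sdiff f E hI, ← lintegral_inter_add_sdiff f I hE, inter_comm I E]
  refine add_le_add le_rfl ?_
  calc ∫⁻ x in E \ I, f x ≤ ∫⁻ _ in E \ I, m := setLIntegral_mono' (hE.diff hI) fun x hx =>
        hout x hx.2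
    _ = m * volume (E \ I) := setLIntegral_const _ _
    _ ≤ m * volume (I \ E) := mul_le_mul_right h1 m
    _ = ∫⁻ _ in I \ E, m := (setLIntegral_const _ _).symm
    _ ≤ _ := setLIntegral_mono' (hI.diff hE) fun x hx => hin x hx.1

theorem maj_self {f : ℝ → ℝ≥0∞} (hf : Dec f) : Maj 1 f 1 f := by
  intro E l hE hl hv
  rw [one_mul, one_mul]
  refine bathtub (m := f l) measurableSet_Ioo hE (fun x hx => hf x l ?_) (fun x hx => hf l x ?_)
    ?_ measure_Ioo_lt_top.ne
  · rw [abs_of_nonneg hl]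
    exact (abs_lt.2 hx).le
  · rw [abs_of_nonneg hl]
    exact not_lt.1 fun h => hx (abs_lt.1 h)
  · rwa [Real.volume_Ioo, sub_neg_eq_add, ← two_mul]

theorem clbath_cake {f : ℝ → ℝ≥0∞} (hf : Measurable f) {φ : ℝ → ℝ} (hφ : Measurable φ)
    (hφ0 : ∀ x, 0 ≤ φ x) : ∫⁻ x, f x * ENNReal.ofReal (φ x) =
      ∫⁻ a in Ioi (0 : ℝ), ∫⁻ x in {x | a < φ x}, f x := by
  have h1 := lintegral_withDensity_eq_lintegral_mul volume hf hφ.ennreal_ofReal
  rw [lintegral_eq_lintegral_meas_lt _ (Eventually.of_forall hφ0) hφ.aemeasurable] at h1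
  refine h1.symm.trans (lintegral_congr fun a => ?_)
  exact withDensity_apply f (measurableSet_lt measurable_const hφ)

theorem Maj.lint {A B : ℝ≥0∞} {f g : ℝ → ℝ≥0∞} (h : Maj A f B g) (hf : Measurable f)
    (hg : Measurable g) {φ ψ : ℝ → ℝ} (hφ : Measurable φ) (hψ : Measurable ψ)
    (hφ0 : ∀ x, 0 ≤ φ x) (hψ0 : ∀ x, 0 ≤ ψ x) (hL : Lev φ ψ) :
    A * ∫⁻ x, f x * ENNReal.ofReal (φ x) ≤ B * ∫⁻ x, g x * ENNReal.ofReal (ψ x) := by
  have hm : Measurable fun a : ℝ => ∫⁻ x in {x | a < ψ x}, g x :=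
    Antitone.measurable fun a b hab => lintegral_mono_set fun x hx => lt_of_le_of_lt hab hx
  rw [clbath_cake hf hφ hφ0, clbath_cake hg hψ hψ0, ← lintegral_const_mul B hm]
  refine (lintegral_const_mul_le _ _).trans (setLIntegral_mono' measurableSet_Ioi fun a ha => ?_)
  obtain ⟨l, h0, h1, h2⟩ := hL a ha
  exact (h _ l (measurableSet_lt measurable_const hφ) h0 h1).trans
    (mul_le_mul_right (lintegral_mono_set h2) B)

theorem lev_X (s : ℝ) : Lev (X s) (X 0) := by
  intro a ha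
  have hb : BddAbove ((fun x : ℝ => |x|) '' {x | a < X 0 x}) := by
    refine ⟨a⁻¹, ?_⟩
    rintro _ ⟨x, hx, rfl⟩
    have h1 : a < (cosh x ^ 2)⁻¹ := by simpa [X_eq] using hx
    have h2 := one_le_cosh x
    have h3 : cosh x ^ 2 < a⁻¹ := (lt_inv_comm₀ (by positivity) ha).2 h1
    have h4 : |x| ≤ sinh |x| := self_le_sinh_iff.2 (abs_nonneg x)
    have h5 := sinh_lt_cosh |x|
    rw [cosh_abs] at h5
    show |x| ≤ a⁻¹
    nlinarith
  refine ⟨sSup ((fun x : ℝ => |x|) '' {x | a < X 0 x}), Real.sSup_nonneg ?_, ?_, fun x hx => ?_⟩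
  · rintro _ ⟨x, -, rfl⟩
    exact abs_nonneg x
  · generalize hl : sSup ((fun x : ℝ => |x|) '' {x | a < X 0 x}) = l
    have : {x | a < X s x} ⊆ Icc (s - l) (s + l) := fun x hx => by
      have h1 : |x - s| ≤ l := hl ▸ le_csSup hb ⟨x - s, by simpa [X] using hx, rfl⟩
      rw [abs_le] at h1
      constructor <;> linarith [h1.1, h1.2]
    refine (measure_mono this).trans (le_of_eq ?_)
    rw [Real.volume_Icc]
    congr 1
    ring
  · have h1 := abs_lt.2 hx
    rcases ((fun x : ℝ => |x|) '' {x | a < X 0 x}).eq_empty_or_nonempty with e | e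
    · rw [e, Real.sSup_empty] at h1
      exact absurd h1 (abs_nonneg x).not_gt
    · obtain ⟨_, ⟨y, hy, rfl⟩, h2⟩ := exists_lt_of_lt_csSup e h1
      have h3 : a < X 0 y := hy
      show a < X 0 x
      rw [X_zero] at h3 ⊢
      exact h3.trans_le (dec_sg zero_le_one x y h2.le)

theorem dec_ct (N : ℕ) : Dec (ct N) := by
  intro x y h
  unfold ct
  by_cases hy : y ∈ Ioo (-(π / 2)) (π / 2)
  · have h1 : |y| < π / 2 := abs_lt.2 hy
    rw [indicator_of_mem hy, indicator_of_mem (show x ∈ Ioo (-(π / 2)) (π / 2) from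
      abs_lt.1 (h.trans_lt h1))]
    refine ENNReal.ofReal_le_ofReal (pow_le_pow_left₀ (cos_pos_of_mem_Ioo hy).le ?_ _)
    rw [← cos_abs x, ← cos_abs y]
    exact cos_le_cos_of_nonneg_of_le_pi (abs_nonneg x) (by linarith [pi_pos]) h
  · rw [indicator_of_notMem hy]
    exact zero_le

end Pool.Agent.PSF.CL
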