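import Pool.Agent.P.MP_7b7370_an.CLDefs

/-! Chebyshev inequalities. -/

set_option autoImplicit false

namespace Pool.Agent.PSF.CL

open Real Set MeasureTheory Filter Topology
open scoped ENNReal NNReal

lemma clcheb_pair {a b c d : ℝ≥0∞} (h1 : b ≤ a) (h2 : c ≤ d) : a * c + b * d ≤ a * d + b * c := by
  obtain ⟨x, rfl⟩ := exists_add_of_le h1
  obtain ⟨y, rfl⟩ := exists_add_of_le h2
  calc _ ≤ (b + x) * c + b * (c + y) + x * y := le_self_add
    _ = _ := by ring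

lemma clcheb_sym {α : Type*} [MeasurableSpace α] (μ : Measure α) {A B : α → ℝ≥0∞}
    (hA : Measurable A) (hB : Measurable B) :
    ∫⁻ x, ∫⁻ y, A x * B y + A y * B x ∂μ ∂μ = 2 * ((∫⁻ x, A x ∂μ) * ∫⁻ x, B x ∂μ) := by
  have h : ∀ x, ∫⁻ y, A x * B y + A y * B x ∂μ =
      A x * ∫⁻ y, B y ∂μ + (∫⁻ y, A y ∂μ) * B x := fun x => by
    rw [lintegral_add_left (hB.const_mul _), lintegral_const_mul _ hB, lintegral_mul_const _ hA]
  simp only [h]
  rw [lintegral_add_left (hA.mul_const _), lintegral_const_mul _ hB, lintegral_mul_const _ hA,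
    two_mul]

lemma clcheb_gen {α : Type*} [MeasurableSpace α] (μ : Measure α) {A B C D : α → ℝ≥0∞}
    (hA : Measurable A) (hB : Measurable B) (hC : Measurable C) (hD : Measurable D)
    (h : ∀ x y, A x * B y + A y * B x ≤ C x * D y + C y * D x) :
    (∫⁻ x, A x ∂μ) * ∫⁻ x, B x ∂μ ≤ (∫⁻ x, C x ∂μ) * ∫⁻ x, D x ∂μ := by
  refine (ENNReal.mul_le_mul_iff_right two_ne_zero ENNReal.ofNat_ne_top).1 ?_
  rw [← clcheb_sym μ hA hB, ← clcheb_sym μ hC hD]
  exact lintegral_mono fun x => lintegral_mono fun y => h x y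

theorem cheb_dec {w f g : ℝ → ℝ≥0∞} (hw : Measurable w) (hf : Measurable f) (hg : Measurable g)
    (df : Dec f) (dg : Dec g) :
    (∫⁻ x, w x * f x) * ∫⁻ x, w x * g x ≤ (∫⁻ x, w x) * ∫⁻ x, w x * f x * g x := by
  refine clcheb_gen volume (hw.mul hf) (hw.mul hg) hw ((hw.mul hf).mul hg) fun x y => ?_
  have h : f x * g y + f y * g x ≤ f x * g x + f y * g y := by
    rcases le_total |x| |y| with h | h
    · exact clcheb_pair (df x y h) (dg x y h)
    · rw [add_comm, add_comm (f x * g x)]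
      exact clcheb_pair (df y x h) (dg y x h)
  calc _ = w x * w y * (f x * g y + f y * g x) := by ring
    _ ≤ w x * w y * (f x * g x + f y * g y) := by gcongr
    _ = _ := by ring

theorem sum_cheb {a S c e Ψ T : ℕ → ℝ≥0∞} (ha : ∀ N, a N ≠ 0) (ha' : ∀ N, a N ≠ ∞)
    (hS : ∀ N, S N ≠ 0) (hS' : ∀ N, S N ≠ ∞) (hc : ∀ N, c N ≠ 0) (hc' : ∀ N, c N ≠ ∞)
    (hT : ∀ N, S N * T N ≤ e N * Ψ N)
    (hρ : ∀ N, e (N + 1) * (a N * S N) ≤ e N * (a (N + 1) * S (N + 1)))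
    (hΦ : ∀ N, Ψ N * (S (N + 1) * c (N + 1)) ≤ Ψ (N + 1) * (S N * c N)) :
    (∑' N, a N * S N * c N) * ∑' N, T N ≤ (∑' N, e N * c N) * ∑' N, a N * Ψ N := by
  have h1 : ∀ N, a N * S N ≠ 0 := fun N => mul_ne_zero (ha N) (hS N)
  have h2 : ∀ N, a N * S N ≠ ∞ := fun N => ENNReal.mul_ne_top (ha' N) (hS' N)
  have h3 : ∀ N, S N * c N ≠ 0 := fun N => mul_ne_zero (hS N) (hc N)
  have h4 : ∀ N, S N * c N ≠ ∞ := fun N => ENNReal.mul_ne_top (hS' N) (hc' N)
  obtain ⟨ρ, e1⟩ : ∃ ρ : ℕ → ℝ≥0∞, ∀ N, e N = ρ N * (a N * S N) :=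
    ⟨fun N => e N / (a N * S N), fun N => (ENNReal.div_mul_cancel (h1 N) (h2 N)).symm⟩
  obtain ⟨Φ, e2⟩ : ∃ Φ : ℕ → ℝ≥0∞, ∀ N, Ψ N = Φ N * (S N * c N) :=
    ⟨fun N => Ψ N / (S N * c N), fun N => (ENNReal.div_mul_cancel (h3 N) (h4 N)).symm⟩
  have m1 : Antitone ρ := antitone_nat_of_succ_le fun N => by
    have := hρ N
    rw [e1, e1, mul_assoc, mul_assoc (ρ N), mul_comm (a N * S N)] at this
    exact (ENNReal.mul_le_mul_iff_left (mul_ne_zero (h1 _) (h1 _))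
      (ENNReal.mul_ne_top (h2 _) (h2 _))).1 this
  have m2 : Monotone Φ := monotone_nat_of_le_succ fun N => by
    have := hΦ N
    rw [e2, e2, mul_assoc, mul_assoc (Φ (N + 1)), mul_comm (S N * c N)] at this
    exact (ENNReal.mul_le_mul_iff_left (mul_ne_zero (h3 _) (h3 _))
      (ENNReal.mul_ne_top (h4 _) (h4 _))).1 this
  have h5 : ∀ N, T N ≤ a N * S N * c N * (ρ N * Φ N) := fun N => by
    refine (ENNReal.mul_le_mul_iff_right (hS N) (hS' N)).1 ((hT N).trans_eq ?_)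
    rw [e1, e2]
    ring
  simp only [← lintegral_count]
  refine clcheb_gen _ (measurable_of_countable _) (measurable_of_countable _)
    (measurable_of_countable _) (measurable_of_countable _) fun x y => ?_
  have h : ρ y * Φ y + ρ x * Φ x ≤ ρ x * Φ y + ρ y * Φ x := by
    rcases le_total x y with h | h
    · rw [add_comm]
      exact clcheb_pair (m1 h) (m2 h)
    · rw [add_comm (ρ x * Φ y)]
      exact clcheb_pair (m1 h) (m2 h)
  calc _ ≤ a x * S x * c x * (a y * S y * c y * (ρ y * Φ y)) +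
        a y * S y * c y * (a x * S x * c x * (ρ x * Φ x)) := by gcongr <;> exact h5 _
    _ = a x * S x * c x * (a y * S y * c y) * (ρ y * Φ y + ρ x * Φ x) := by ring
    _ ≤ a x * S x * c x * (a y * S y * c y) * (ρ x * Φ y + ρ y * Φ x) := by gcongr
    _ = _ := by simp only [e1, e2]; ring

end Pool.Agent.PSF.CL
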