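import Pool.Agent.P.MP_7b7370_an.FDefs

/-! Definitions for the cell inequality (block CL). -/

set_option autoImplicit false

namespace Pool.Agent.PSF.CL

open Real Set MeasureTheory
open scoped ENNReal NNReal

/-! ### one-dimensional weights -/

noncomputable def lc (x : ℝ) : ℝ := log (cosh x)
/-- `sech ^ (2 Q)` -/
noncomputable def sg (Q x : ℝ) : ℝ := exp (-(2 * Q * lc x))
noncomputable def SS (Q : ℝ) : ℝ≥0∞ := ∫⁻ x, ENNReal.ofReal (sg Q x)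
/-- `sech ^ 2 (x - s)` -/
noncomputable def X (s x : ℝ) : ℝ := sg 1 (x - s)
noncomputable def psi (c k : ℝ) (q : Measure ℝ) (x : ℝ) : ℝ :=
  -c - 2 * k * x + 2 * ∫ s, (lc (x - s) - lc s) ∂q
noncomputable def wq (c k : ℝ) (q : Measure ℝ) (x : ℝ) : ℝ := exp (-psi c k q x)
noncomputable def PP (q : Measure ℝ) (x : ℝ) (j : ℕ) : ℝ := ∫ s, X s x ^ j ∂q

/-- coefficients of `exp (∑ P j z ^ j / j)` -/
noncomputable def hN (P : ℕ → ℝ) : ℕ → ℝ
  | 0 => 1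
  | N + 1 => (∑ j : Fin (N + 1), P (j + 1) * hN P (N - j)) / (N + 1)
decreasing_by omega

/-- `(p)_N / N!` -/
noncomputable def aN (p : ℝ) : ℕ → ℝ
  | 0 => 1
  | N + 1 => aN p N * (p + N) / (N + 1)

noncomputable def eN (c k : ℝ) (q : Measure ℝ) (N : ℕ) (x : ℝ) : ℝ≥0∞ :=
  ENNReal.ofReal (wq c k q x * hN (PP q x) N)
noncomputable def WW (c k : ℝ) (q : Measure ℝ) (w : ℝ × ℝ) : ℝ :=
  wq c k q w.1 * exp (-∫ s, log (1 - cos w.2 ^ 2 * X s w.1) ∂q)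
def Str : Set (ℝ × ℝ) := univ ×ˢ Ioo (-(π / 2)) (π / 2)
noncomputable def ct (N : ℕ) (t : ℝ) : ℝ≥0∞ :=
  (Ioo (-(π / 2)) (π / 2)).indicator (fun t => ENNReal.ofReal (cos t ^ (2 * N))) t
noncomputable def cN (N : ℕ) : ℝ≥0∞ := ∫⁻ t, ct N t

/-- the two-endpoint inequality (K) -/
def KI (ψ ψ₀ : ℝ → ℝ) : Prop :=
  ∀ a b u v : ℝ, 0 < u → 0 < v → u + v ≤ b - a →
    (u + v) / 2 / u * (ψ a - ψ (a + u)) + (u + v) / 2 / v * (ψ b - ψ (b - v)) ≤
      2 * (ψ₀ ((b - a) / 2) - ψ₀ ((b - a - u - v) / 2))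

/-- majorisation of the density `A f` by the density `B g` -/
def Maj (A : ℝ≥0∞) (f : ℝ → ℝ≥0∞) (B : ℝ≥0∞) (g : ℝ → ℝ≥0∞) : Prop :=
  ∀ (E : Set ℝ) (l : ℝ), MeasurableSet E → 0 ≤ l → volume E ≤ ENNReal.ofReal (2 * l) →
    A * ∫⁻ x in E, f x ≤ B * ∫⁻ x in Ioo (-l) l, g x

/-- `ψ` dominates the symmetric decreasing rearrangement of `φ` -/
def Lev (φ ψ : ℝ → ℝ) : Prop :=
  ∀ a : ℝ, 0 < a → ∃ l : ℝ, 0 ≤ l ∧ volume {x | a < φ x} ≤ ENNReal.ofReal (2 * l) ∧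
    Ioo (-l) l ⊆ {x | a < ψ x}

/-- symmetric decreasing -/
def Dec {α : Type*} [LE α] (f : ℝ → α) : Prop := ∀ x y : ℝ, |x| ≤ |y| → f y ≤ f x

/-! ### rearrangement and energies -/

noncomputable def sdr (f : ℝ → ℝ) (x : ℝ) : ℝ :=
  sSup {a : ℝ | 0 ≤ a ∧ ENNReal.ofReal (2 * |x|) < volume {y | a < f y}}

structure B1 (R : ℝ) (f : ℝ → ℝ) : Prop where
  cont : Continuous f
  nn : ∀ x, 0 ≤ f x
  supp : ∀ x, R ≤ |x| → f x = 0

structure LB (R b : ℝ) (F : ℝ × ℝ → ℝ) : Prop where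
  lip : ∃ K, LipschitzWith K F
  nn : ∀ w, 0 ≤ F w
  supp : ∀ w : ℝ × ℝ, R ≤ |w.1| ∨ b ≤ |w.2| → F w = 0

noncomputable def R1 (F : ℝ × ℝ → ℝ) (w : ℝ × ℝ) : ℝ := sdr (fun y => F (y, w.2)) w.1
noncomputable def e1 (U : ℝ × ℝ → ℝ) (w : ℝ × ℝ) : ℝ≥0∞ :=
  ENNReal.ofReal (deriv (fun x => U (x, w.2)) w.1 ^ 2)
noncomputable def e2 (U : ℝ × ℝ → ℝ) (w : ℝ × ℝ) : ℝ≥0∞ :=
  ENNReal.ofReal (deriv (fun t => U (w.1, t)) w.2 ^ 2)
noncomputable def E1 (U : ℝ × ℝ → ℝ) : ℝ≥0∞ := ∫⁻ w, e1 U w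
noncomputable def E2 (U : ℝ × ℝ → ℝ) : ℝ≥0∞ := ∫⁻ w, e2 U w
noncomputable def DQ (U : ℝ × ℝ → ℝ) (h : ℝ × ℝ) : ℝ≥0∞ :=
  ∫⁻ w, ENNReal.ofReal ((U (w + h) - U w) ^ 2)

noncomputable def Ps (p : ℝ) (U : ℝ × ℝ → ℝ) (N : ℕ) : ℝ≥0∞ :=
  ∫⁻ w : ℝ × ℝ, ct N w.2 * ENNReal.ofReal (sg (p + N) w.1) * ENNReal.ofReal (U w ^ 2)

/-- the model inequality for one function on the full strip -/
def Good (p φ : ℝ) (U : ℝ × ℝ → ℝ) : Prop :=
  ENNReal.ofReal (2 * φ) * ∫⁻ w in Str, ENNReal.ofReal (Wp p w) * ENNReal.ofReal (U w ^ 2) ≤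
    (∫⁻ w in Str, ENNReal.ofReal (Wp p w)) * (E1 U + E2 U)
def Model (p φ : ℝ) : Prop :=
  ∀ (U : ℝ × ℝ → ℝ) (R b : ℝ), b < π / 2 → LB R b U → Good p φ U

/-! ### conformal part -/

def Sg : Set ℂ := {w | |w.im| < π / 2}
def St (b : ℝ) : Set ℂ := {w | 0 < w.im ∧ w.im < b}
def Sc (b : ℝ) : Set ℂ := {w | 0 ≤ w.im ∧ w.im ≤ b}
noncomputable def fo (z : ℂ) : ℂ := ⟨z.re, |z.im|⟩
/-- the doubled domain -/
def Om (C : Set ℂ) : Set ℂ := {z | fo z ∈ C}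
noncomputable def ka (w : ℝ × ℝ) : ℂ := ⟨w.1, π / 2 - w.2⟩
noncomputable def kb (w : ℝ × ℝ) : ℂ := ⟨w.1, π / 2 - min |w.2| (π / 2)⟩

structure Cell (C : Set ℂ) (β γ : ℝ) : Prop where
  op : IsOpen C
  cv : Convex ℝ C
  bd : Bornology.IsBounded (C ∩ {z | 0 < z.im})
  base : ∃ x : ℝ, (x : ℂ) ∈ C
  hβ : 0 ≤ β
  hγ : 0 ≤ γ
  lt : β + γ < π
  left : ∀ z ∈ C, 0 < z.im → ∃ s x : ℝ, 0 < s ∧ (x : ℂ) ∈ C ∧
    z - x = s * Complex.exp (β * Complex.I)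
  right : ∀ z ∈ C, 0 < z.im → ∃ s x : ℝ, 0 < s ∧ (x : ℂ) ∈ C ∧
    x - z = s * Complex.exp (-γ * Complex.I)

/-- symmetric conformal map of the symmetric domain `D` onto the doubled domain -/
structure SM (D C : Set ℂ) (G Ψ : ℂ → ℂ) : Prop where
  dG : DifferentiableOn ℂ G D
  dΨ : DifferentiableOn ℂ Ψ (Om C)
  mG : MapsTo G D (Om C)
  mΨ : MapsTo Ψ (Om C) D
  left : ∀ w ∈ D, Ψ (G w) = w
  right : ∀ z ∈ Om C, G (Ψ z) = z
  cj : ∀ w ∈ D, G ((starRingEnd ℂ) w) = (starRingEnd ℂ) (G w)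
  up : ∀ w ∈ D, 0 < w.im → 0 < (G w).im

/-- symmetric logarithm of the derivative -/
structure LG (G F : ℂ → ℂ) : Prop where
  dF : DifferentiableOn ℂ F Sg
  ex : ∀ w ∈ Sg, Complex.exp (F w) = deriv G w
  cj : ∀ w ∈ Sg, F ((starRingEnd ℂ) w) = (starRingEnd ℂ) (F w)

noncomputable def HH (k : ℝ) (q : Measure ℝ) (w : ℂ) : ℂ :=
  k * w - ∫ s : ℝ, (Complex.log (Complex.cosh (w - s)) - (lc s : ℝ)) ∂q
noncomputable def uu (k : ℝ) (q : Measure ℝ) (w : ℂ) : ℝ :=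
  k * w.im - ∫ s : ℝ, Complex.arg (Complex.cosh (w - s)) ∂q

/-! ### basic facts -/

theorem hN_zero (P : ℕ → ℝ) : hN P 0 = 1 := by rw [hN]

theorem hN_succ (P : ℕ → ℝ) (N : ℕ) :
    ((N : ℝ) + 1) * hN P (N + 1) = ∑ j ∈ Finset.range (N + 1), P (j + 1) * hN P (N - j) := by
  rw [hN, Finset.sum_range (fun j => P (j + 1) * hN P (N - j))]
  field_simp

theorem aN_zero (p : ℝ) : aN p 0 = 1 := rfl

theorem aN_succ (p : ℝ) (N : ℕ) : ((N : ℝ) + 1) * aN p (N + 1) = (p + N) * aN p N := by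
  rw [aN]; field_simp

theorem aN_nonneg {p : ℝ} (hp : 0 ≤ p) (N : ℕ) : 0 ≤ aN p N := by
  induction N with
  | zero => exact zero_le_one
  | succ N ih => rw [aN]; positivity

theorem aN_pos {p : ℝ} (hp : 0 < p) (N : ℕ) : 0 < aN p N := by
  induction N with
  | zero => exact zero_lt_one
  | succ N ih => rw [aN]; positivity

theorem hasDerivAt_lc (x : ℝ) : HasDerivAt lc (sinh x / cosh x) x :=
  (hasDerivAt_cosh x).log (cosh_pos x).ne'

theorem continuous_lc : Continuous lc :=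
  continuous_iff_continuousAt.mpr fun x => (hasDerivAt_lc x).continuousAt

theorem lc_neg (x : ℝ) : lc (-x) = lc x := by simp [lc]

theorem lc_zero : lc 0 = 0 := by simp [lc]

theorem lc_nonneg (x : ℝ) : 0 ≤ lc x := log_nonneg (one_le_cosh x)

theorem lc_mono {x y : ℝ} (h : |x| ≤ |y|) : lc x ≤ lc y :=
  log_le_log (cosh_pos x) (cosh_le_cosh.mpr h)

theorem exp_lc (x : ℝ) : exp (lc x) = cosh x := exp_log (cosh_pos x)

theorem abs_lc_sub (x y : ℝ) : |lc x - lc y| ≤ |x - y| := by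
  have h : ∀ z ∈ (univ : Set ℝ), ‖deriv lc z‖ ≤ 1 := fun z _ => by
    rw [(hasDerivAt_lc z).deriv, Real.norm_eq_abs, abs_div, abs_of_pos (cosh_pos z),
      div_le_one (cosh_pos z), abs_sinh]
    simpa using (sinh_lt_cosh |z|).le
  simpa using convex_univ.norm_image_sub_le_of_norm_deriv_le
    (fun z _ => (hasDerivAt_lc z).differentiableAt) h (mem_univ y) (mem_univ x)

theorem integrable_lc_sub (q : Measure ℝ) [IsFiniteMeasure q] (x : ℝ) :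
    Integrable (fun s => lc (x - s) - lc s) q := by
  refine Integrable.of_bound (C := |x|)
    ((continuous_lc.comp (by fun_prop)).sub continuous_lc).aestronglyMeasurable
    (.of_forall fun s => ?_)
  have := abs_lc_sub (x - s) (-s)
  rw [lc_neg] at this
  simpa using this

theorem sg_pos (Q x : ℝ) : 0 < sg Q x := exp_pos _

theorem continuous_sg (Q : ℝ) : Continuous (sg Q) := by
  have := continuous_lc
  unfold sg; fun_prop

theorem sg_add (P Q x : ℝ) : sg (P + Q) x = sg P x * sg Q x := by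
  rw [sg, sg, sg, ← exp_add]; congr 1; ring

theorem dec_sg {Q : ℝ} (hQ : 0 ≤ Q) : Dec (sg Q) := fun _ _ h =>
  exp_le_exp.mpr (neg_le_neg (mul_le_mul_of_nonneg_left (lc_mono h) (by positivity)))

theorem X_pos (s x : ℝ) : 0 < X s x := sg_pos _ _

theorem X_le_one (s x : ℝ) : X s x ≤ 1 := by
  have := lc_nonneg (x - s)
  exact exp_le_one_iff.mpr (by linarith)

theorem X_eq (s x : ℝ) : X s x = (cosh (x - s) ^ 2)⁻¹ := by
  rw [X, sg, exp_neg, ← exp_lc, ← exp_nat_mul]; norm_num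

theorem X_zero (x : ℝ) : X 0 x = sg 1 x := by simp [X]

theorem continuous_X : Continuous fun p : ℝ × ℝ => X p.1 p.2 :=
  (continuous_sg 1).comp (by fun_prop)

theorem wq_pos (c k : ℝ) (q : Measure ℝ) (x : ℝ) : 0 < wq c k q x := exp_pos _

theorem measurableSet_Str : MeasurableSet Str := MeasurableSet.univ.prod measurableSet_Ioo

theorem measurableSet_Sig : MeasurableSet Sig := MeasurableSet.univ.prod measurableSet_Ioo

theorem measurable_ct (N : ℕ) : Measurable (ct N) :=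
  Measurable.indicator (by fun_prop) measurableSet_Ioo

theorem isOpen_Sg : IsOpen Sg := isOpen_lt (by fun_prop) continuous_const

theorem isOpen_St (b : ℝ) : IsOpen (St b) :=
  (isOpen_lt continuous_const Complex.continuous_im).inter
    (isOpen_lt Complex.continuous_im continuous_const)

theorem convex_St (b : ℝ) : Convex ℝ (St b) :=
  (convex_halfSpace_im_gt 0).inter (convex_halfSpace_im_lt b)

theorem convex_Sc (b : ℝ) : Convex ℝ (Sc b) :=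
  (convex_halfSpace_im_ge 0).inter (convex_halfSpace_im_le b)

theorem convex_Sg : Convex ℝ Sg := by
  have : Sg = {w : ℂ | -(π / 2) < w.im} ∩ {w : ℂ | w.im < π / 2} := by
    ext w; simp [Sg, abs_lt]
  rw [this]
  exact (convex_halfSpace_im_gt _).inter (convex_halfSpace_im_lt _)

theorem ofReal_mem_Sg (x : ℝ) : (x : ℂ) ∈ Sg := by
  simp only [Sg, mem_ofPred_eq, Complex.ofReal_im, abs_zero]; positivity

theorem Sc_subset_Sg {b : ℝ} (hb : b < π / 2) : Sc b ⊆ Sg := fun w hw => by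
  have h1 := hw.1
  have h2 := hw.2
  simp only [Sg, mem_ofPred_eq]
  rw [abs_of_nonneg h1]; linarith

theorem St_subset_Sc (b : ℝ) : St b ⊆ Sc b := fun _ hw => ⟨hw.1.le, hw.2.le⟩

theorem St_subset_Sg : St (π / 2) ⊆ Sg := fun w hw => by
  simp only [Sg, mem_ofPred_eq]
  rw [abs_of_pos hw.1]; exact hw.2

theorem fo_of_nonneg {z : ℂ} (h : 0 ≤ z.im) : fo z = z := by
  apply Complex.ext <;> simp [fo, abs_of_nonneg h]

theorem fo_conj (z : ℂ) : fo ((starRingEnd ℂ) z) = fo z := by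
  apply Complex.ext <;> simp [fo]

theorem continuous_fo : Continuous fo := by
  have : fo = fun z : ℂ => (z.re : ℂ) + (|z.im| : ℝ) * Complex.I := by
    funext z; apply Complex.ext <;> simp [fo]
  rw [this]; fun_prop

theorem isOpen_Om {C : Set ℂ} (h : IsOpen C) : IsOpen (Om C) := h.preimage continuous_fo

theorem LB.cont {R b : ℝ} {F : ℝ × ℝ → ℝ} (h : LB R b F) : Continuous F :=
  h.lip.choose_spec.continuous

theorem LB.swap {R b : ℝ} {F : ℝ × ℝ → ℝ} (h : LB R b F) : LB b R (fun w => F w.swap) := by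
  obtain ⟨K, hK⟩ := h.lip
  refine ⟨⟨K * 1, hK.comp ?_⟩, fun w => h.nn _, fun w hw => h.supp _ hw.symm⟩
  exact LipschitzWith.of_dist_le_mul fun x y => by simp [Prod.dist_eq, max_comm]

theorem LB.b1 {R b : ℝ} {F : ℝ × ℝ → ℝ} (h : LB R b F) (t : ℝ) : B1 R (fun y => F (y, t)) :=
  ⟨h.cont.comp (by fun_prop), fun _ => h.nn _, fun _ hx => h.supp _ (Or.inl hx)⟩

theorem measurable_e1 {U : ℝ × ℝ → ℝ} (hU : Continuous U) : Measurable (e1 U) := by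
  have h := measurable_deriv_with_param (𝕜 := ℝ) (f := fun t x => U (x, t))
    (hU.comp continuous_swap)
  exact ((h.comp measurable_swap).pow_const 2).ennreal_ofReal

theorem measurable_e2 {U : ℝ × ℝ → ℝ} (hU : Continuous U) : Measurable (e2 U) := by
  have h := measurable_deriv_with_param (𝕜 := ℝ) (f := fun x t => U (x, t)) hU
  exact (h.pow_const 2).ennreal_ofReal

theorem lintegral_swap (f : ℝ × ℝ → ℝ≥0∞) : ∫⁻ w : ℝ × ℝ, f w.swap = ∫⁻ w, f w :=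
  lintegral_prod_swap f

theorem E2_eq (U : ℝ × ℝ → ℝ) : E2 U = E1 (fun w => U w.swap) :=
  (lintegral_swap (e2 U)).symm

theorem E1_eq (U : ℝ × ℝ → ℝ) : E1 U = E2 (fun w => U w.swap) :=
  (lintegral_swap (e1 U)).symm

theorem DQ_swap (U : ℝ × ℝ → ℝ) (h : ℝ × ℝ) : DQ (fun w => U w.swap) h.swap = DQ U h :=
  lintegral_swap fun w => ENNReal.ofReal ((U (w + h) - U w) ^ 2)

end Pool.Agent.PSF.CL
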