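import Pool.Agent.P.MP_7b7370_an.CLUrnA

/-! The generating function of hN. -/

set_option autoImplicit false

namespace Pool.Agent.PSF.CL

open Real Set MeasureTheory Filter Topology
open scoped ENNReal NNReal

theorem clurnb_deriv {c : ℕ → ℝ} {r : ℝ} (hr : 0 < r)
    (hs : Summable fun n : ℕ => ((n : ℝ) + 1) * |c n| * r ^ n) {y : ℝ} (hy : y ∈ Ioo (-r) r) :
    HasDerivAt (fun y => ∑' n, c n * y ^ (n + 1)) (∑' n : ℕ, ((n : ℝ) + 1) * c n * y ^ n) y := by
  refine hasDerivAt_tsum_of_isPreconnected (g := fun n y => c n * y ^ (n + 1))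
    (g' := fun n y => ((n : ℝ) + 1) * c n * y ^ n) (y₀ := 0) hs isOpen_Ioo isPreconnected_Ioo
    (fun n y _ => ?_) (fun n y hy => ?_) ⟨by linarith, hr⟩ (by simp) hy
  · refine ((hasDerivAt_pow (n + 1) y).const_mul (c n)).congr_deriv ?_
    simp only [Nat.cast_add, Nat.cast_one, Nat.add_sub_cancel]
    ring
  · rw [norm_eq_abs, abs_mul, abs_mul, abs_pow, abs_of_pos (by positivity : (0 : ℝ) < n + 1)]
    have : |y| ≤ r := (abs_lt.2 hy).le
    gcongr

theorem clurnb_sum {Q r : ℝ} (hQ : 0 < Q) (hr : 0 < r) (hr1 : r < 1) :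
    Summable fun n : ℕ => (Q + n) * aN Q n * r ^ n := by
  have hpos : ∀ n : ℕ, 0 < (Q + n) * aN Q n * r ^ n := fun n => by
    have := aN_pos hQ n
    positivity
  refine summable_of_ratio_test_tendsto_lt_one hr1 (Eventually.of_forall fun n => (hpos n).ne') ?_
  have h1 : Tendsto (fun n : ℕ => (Q * (1 / ((n : ℝ) + 1)) + 1) * r) atTop (𝓝 ((Q * 0 + 1) * r)) :=
    ((tendsto_one_div_add_atTop_nhds_zero_nat.const_mul Q).add_const 1).mul_const r
  rw [mul_zero, zero_add, one_mul] at h1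
  refine h1.congr fun n => ?_
  rw [norm_of_nonneg (hpos _).le, norm_of_nonneg (hpos _).le, aN]
  have := aN_pos hQ n
  push_cast
  field_simp
  ring

theorem hasSum_hN {P : ℕ → ℝ} {Q z L : ℝ} (hP : ∀ j, 0 ≤ P j) (hQ : ∀ j, P j ≤ Q)
    (hz : 0 ≤ z) (hz1 : z < 1) (hL : HasSum (fun j : ℕ => P (j + 1) * z ^ (j + 1) / (j + 1)) L) :
    HasSum (fun N => hN P N * z ^ N) (exp L) := by
  obtain ⟨r, hzr, hr1⟩ := exists_between hz1
  have hr : 0 < r := hz.trans_lt hzr
  have hQ0 : 0 ≤ Q := (hP 0).trans (hQ 0)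
  have hQ1 : 0 < Q + 1 := by linarith
  have hle : ∀ n, hN P n ≤ aN (Q + 1) n := hN_le hP fun j => (hQ j).trans (by linarith)
  have hb := clurnb_sum hQ1 hr hr1
  have s1 : Summable fun n : ℕ => ((n : ℝ) + 1) * |hN P (n + 1)| * r ^ n := by
    refine Summable.of_nonneg_of_le (fun n => by positivity) (fun n => ?_) hb
    rw [← aN_succ, abs_of_nonneg (hN_nonneg hP _)]
    have := hle (n + 1)
    gcongr
  have s2 : Summable fun n : ℕ => ((n : ℝ) + 1) * |P (n + 1) / (n + 1)| * r ^ n := by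
    refine Summable.of_nonneg_of_le (fun n => by positivity) (fun n => ?_)
      ((summable_geometric_of_lt_one hr.le hr1).mul_left Q)
    have h0 : (0 : ℝ) < n + 1 := by positivity
    rw [abs_of_nonneg (div_nonneg (hP _) h0.le), mul_div_cancel₀ _ h0.ne']
    have := hQ (n + 1)
    gcongr
  have n1 : ∀ y ∈ Ioo (-r) r, Summable fun n : ℕ => ‖hN P n * y ^ n‖ := by
    intro y hy
    refine Summable.of_nonneg_of_le (fun n => norm_nonneg _) (fun n => ?_) hb
    rw [norm_eq_abs, abs_mul, abs_pow, abs_of_nonneg (hN_nonneg hP _)]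
    have h1 : |y| ≤ r := (abs_lt.2 hy).le
    have h2 := aN_pos hQ1 n
    have h3 : hN P n ≤ (Q + 1 + n) * aN (Q + 1) n := by
      have : (0 : ℝ) ≤ n := Nat.cast_nonneg n
      nlinarith [hle n]
    gcongr
  have n2 : ∀ y ∈ Ioo (-r) r, Summable fun n : ℕ => ‖P (n + 1) * y ^ n‖ := by
    intro y hy
    refine Summable.of_nonneg_of_le (fun n => norm_nonneg _) (fun n => ?_)
      ((summable_geometric_of_lt_one hr.le hr1).mul_left Q)
    rw [norm_eq_abs, abs_mul, abs_pow, abs_of_nonneg (hP _)]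
    have h1 : |y| ≤ r := (abs_lt.2 hy).le
    have := hQ (n + 1)
    gcongr
  have e0 : ∀ y ∈ Ioo (-r) r, ∑' n, hN P n * y ^ n = 1 + ∑' n, hN P (n + 1) * y ^ (n + 1) := by
    intro y hy
    rw [(n1 y hy).of_norm.tsum_eq_zero_add, hN_zero, pow_zero, one_mul]
  have hd : ∀ y ∈ Ioo (-r) r, HasDerivAt (fun y => (1 + ∑' n, hN P (n + 1) * y ^ (n + 1)) *
      exp (-∑' n : ℕ, P (n + 1) / (n + 1) * y ^ (n + 1))) 0 y := by
    intro y hy
    have d1 := (clurnb_deriv hr s1 hy).const_add 1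
    have d2 := (clurnb_deriv hr s2 hy).neg.exp
    refine (d1.mul d2).congr_deriv ?_
    have e1 : ∑' n : ℕ, ((n : ℝ) + 1) * (P (n + 1) / (n + 1)) * y ^ n =
        ∑' n : ℕ, P (n + 1) * y ^ n := by
      refine tsum_congr fun n => ?_
      have h0 : (0 : ℝ) < n + 1 := by positivity
      rw [mul_div_cancel₀ _ h0.ne']
    have e2 : ∑' n : ℕ, ((n : ℝ) + 1) * hN P (n + 1) * y ^ n =
        (∑' n : ℕ, P (n + 1) * y ^ n) * ∑' n, hN P n * y ^ n := by
      rw [tsum_mul_tsum_eq_tsum_sum_range_of_summable_norm (n2 y hy) (n1 y hy)]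
      refine tsum_congr fun n => ?_
      rw [hN_succ, Finset.sum_mul]
      refine Finset.sum_congr rfl fun j hj => ?_
      have hj' : j ≤ n := Nat.lt_succ_iff.1 (Finset.mem_range.1 hj)
      rw [← pow_mul_pow_sub y hj']
      ring
    rw [e1, e2, e0 y hy]
    simp only [Pi.neg_apply]
    ring
  have hzm : z ∈ Ioo (-r) r := ⟨by linarith, hzr⟩
  have hc := isOpen_Ioo.is_const_of_deriv_eq_zero isPreconnected_Ioo
    (fun y hy => (hd y hy).differentiableAt.differentiableWithinAt)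
    (fun y hy => (hd y hy).deriv) hzm (show (0 : ℝ) ∈ Ioo (-r) r from ⟨by linarith, hr⟩)
  have eL : ∑' n : ℕ, P (n + 1) / (n + 1) * z ^ (n + 1) = L := by
    rw [← hL.tsum_eq]
    exact tsum_congr fun n => by ring
  simp only [ne_eq, Nat.add_eq_zero_iff, one_ne_zero, and_false, not_false_eq_true, zero_pow,
    mul_zero, tsum_zero, add_zero, neg_zero, exp_zero, mul_one] at hc
  rw [eL, ← e0 z hzm, exp_neg, mul_inv_eq_one₀ (exp_pos L).ne'] at hc
  rw [← hc]
  exact (n1 z hzm).of_norm.hasSum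

theorem hasSum_log (q : Measure ℝ) [IsFiniteMeasure q] (x : ℝ) {z : ℝ} (hz : 0 ≤ z)
    (hz1 : z < 1) :
    HasSum (fun j : ℕ => PP q x (j + 1) * z ^ (j + 1) / (j + 1))
      (-∫ s, log (1 - z * X s x) ∂q) := by
  have hc : Continuous fun s => X s x := continuous_X.comp (Continuous.prodMk_left x)
  have hb : ∀ (j : ℕ) s, ‖(z * X s x) ^ (j + 1) / ((j : ℝ) + 1)‖ ≤ z ^ (j + 1) := by
    intro j s
    have h1 := (X_pos s x).le
    have h2 : z * X s x ≤ z := mul_le_of_le_one_right hz (X_le_one s x)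
    rw [norm_of_nonneg (by positivity)]
    refine (div_le_self (by positivity) (by linarith [(Nat.cast_nonneg j : (0 : ℝ) ≤ j)])).trans ?_
    gcongr
  have hi : ∀ j : ℕ, Integrable (fun s => (z * X s x) ^ (j + 1) / ((j : ℝ) + 1)) q := fun j =>
    Integrable.of_bound (by fun_prop) _ (Eventually.of_forall (hb j))
  have hs : Summable fun j : ℕ => ∫ s, ‖(z * X s x) ^ (j + 1) / ((j : ℝ) + 1)‖ ∂q := by
    refine Summable.of_nonneg_of_le (fun j => integral_nonneg fun s => norm_nonneg _)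
      (fun j => ?_) ((summable_geometric_of_lt_one hz hz1).mul_left (q.real univ * z))
    refine (integral_mono (hi j).norm (integrable_const _) (hb j)).trans_eq ?_
    rw [integral_const, smul_eq_mul]
    ring
  have h := hasSum_integral_of_summable_integral_norm hi hs
  have e1 : ∀ s, ∑' j : ℕ, (z * X s x) ^ (j + 1) / ((j : ℝ) + 1) = -log (1 - z * X s x) := by
    intro s
    have h1 := (X_pos s x).le
    have h2 : z * X s x ≤ z := mul_le_of_le_one_right hz (X_le_one s x)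
    refine (hasSum_pow_div_log_of_abs_lt_one ?_).tsum_eq
    rw [abs_of_nonneg (by positivity)]
    linarith
  have e2 : ∀ j : ℕ, ∫ s, (z * X s x) ^ (j + 1) / ((j : ℝ) + 1) ∂q =
      PP q x (j + 1) * z ^ (j + 1) / (j + 1) := by
    intro j
    simp only [mul_pow]
    rw [integral_div, integral_const_mul, PP, mul_comm]
  simpa only [e1, e2, integral_neg] using h

end Pool.Agent.PSF.CL
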