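import Pool.Agent.P.MP_7b7370_an.CLIndA
import Pool.Agent.P.MP_7b7370_an.CLUrnB
import Pool.Agent.P.MP_7b7370_an.CLWa

/-! Expansion of the weights in powers of the squared cosine. -/

set_option autoImplicit false

namespace Pool.Agent.PSF.CL

open Real Set MeasureTheory Filter Topology
open scoped ENNReal NNReal

theorem clexpa_pt (c k : ℝ) (q : Measure ℝ) [IsFiniteMeasure q] {w : ℝ × ℝ}
    (hw : w.2 ∈ Ioo (-(π / 2)) (π / 2)) (h0 : w.2 ≠ 0) :
    ENNReal.ofReal (WW c k q w) = ∑' N, ct N w.2 * eN c k q N w.1 := by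
  have hs : sin w.2 ≠ 0 := by
    intro h
    have := pi_pos
    exact h0 ((sin_eq_zero_iff_of_lt_of_lt (by linarith [hw.1]) (by linarith [hw.2])).1 h)
  have hz : 0 ≤ cos w.2 ^ 2 := sq_nonneg _
  have hz1 : cos w.2 ^ 2 < 1 := by
    have h1 := sin_sq_add_cos_sq w.2
    have h2 : 0 < sin w.2 ^ 2 := by positivity
    linarith
  have h := (hasSum_hN (PP_nonneg q w.1) (PP_le q w.1) hz hz1
    (hasSum_log q w.1 hz hz1)).mul_left (wq c k q w.1)
  have hn : ∀ N, 0 ≤ wq c k q w.1 * hN (PP q w.1) N := fun N =>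
    mul_nonneg (wq_pos c k q w.1).le (hN_nonneg (PP_nonneg q w.1) N)
  rw [WW, ← h.tsum_eq, ENNReal.ofReal_tsum_of_nonneg (fun N => by
    rw [← mul_assoc]
    exact mul_nonneg (hn N) (pow_nonneg hz N)) h.summable]
  refine tsum_congr fun N => ?_
  rw [ct, indicator_of_mem hw, eN, ← mul_assoc, ENNReal.ofReal_mul (hn N), mul_comm, pow_mul]

theorem lint_WW (c k : ℝ) (q : Measure ℝ) [IsFiniteMeasure q] {φ : ℝ × ℝ → ℝ≥0∞}
    (hφ : Measurable φ) :
    ∫⁻ w in Str, ENNReal.ofReal (WW c k q w) * φ w =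
      ∑' N, ∫⁻ w : ℝ × ℝ, ct N w.2 * eN c k q N w.1 * φ w := by
  have hm : ∀ N, Measurable fun w : ℝ × ℝ => ct N w.2 * eN c k q N w.1 * φ w := fun N =>
    (((measurable_ct N).comp measurable_snd).mul
      ((measurable_eN c k q N).comp measurable_fst)).mul hφ
  rw [← lintegral_indicator measurableSet_Str, ← lintegral_tsum fun N => (hm N).aemeasurable]
  have h0 : ∀ᵐ w : ℝ × ℝ, w.2 ≠ 0 :=
    Measure.quasiMeasurePreserving_snd.ae (Measure.ae_ne volume (0 : ℝ))
  refine lintegral_congr_ae ?_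
  filter_upwards [h0] with w hw
  by_cases h : w.2 ∈ Ioo (-(π / 2)) (π / 2)
  · have h1 : w ∈ Str := ⟨mem_univ _, h⟩
    rw [indicator_of_mem h1, clexpa_pt c k q h hw, ENNReal.tsum_mul_right]
  · have h1 : w ∉ Str := fun h1 => h h1.2
    rw [indicator_of_notMem h1]
    simp only [ct, indicator_of_notMem h, zero_mul, tsum_zero]

theorem lint_WW_one (c k : ℝ) (q : Measure ℝ) [IsFiniteMeasure q] :
    ∫⁻ w in Str, ENNReal.ofReal (WW c k q w) = ∑' N, (∫⁻ x, eN c k q N x) * cN N := by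
  have h := lint_WW c k q (φ := fun _ => 1) measurable_const
  simp only [mul_one] at h
  rw [h]
  refine tsum_congr fun N => ?_
  rw [cN, ← lintegral_prod_mul (measurable_eN c k q N).aemeasurable
    (measurable_ct N).aemeasurable]
  exact lintegral_congr fun w => mul_comm _ _

theorem wq_fin {c k : ℝ} {q : Measure ℝ} [IsFiniteMeasure q]
    (h : ∫⁻ w in Str, ENNReal.ofReal (WW c k q w) ≠ ∞) :
    ∫⁻ x, ENNReal.ofReal (wq c k q x) ≠ ∞ := by
  rw [lint_WW_one] at h
  have h1 := ne_top_of_le_ne_top h (ENNReal.le_tsum 0)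
  simp only [eN, hN_zero, mul_one] at h1
  intro h2
  rw [h2, ENNReal.top_mul (cN_ne_zero 0)] at h1
  exact h1 rfl

theorem mass_pos {c k : ℝ} {q : Measure ℝ} [IsFiniteMeasure q]
    (h : ∫⁻ x, ENNReal.ofReal (wq c k q x) ≠ ∞) : 0 < q.real univ := by
  refine measureReal_nonneg.lt_of_ne fun h0 => h ?_
  have hq : q = 0 := Measure.measure_univ_eq_zero.1 ((measureReal_eq_zero_iff (measure_ne_top _ _)).1 h0.symm)
  subst hq
  have key : ∀ S : Set ℝ, MeasurableSet S → volume S = ∞ → (∀ x ∈ S, 0 ≤ k * x) →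
      ∫⁻ x, ENNReal.ofReal (wq c k 0 x) = ∞ := by
    intro S hS hv hk
    refine top_le_iff.1 (le_trans ?_ (setLIntegral_le_lintegral S _))
    refine le_trans ?_ (setLIntegral_mono' (f := fun _ => ENNReal.ofReal (exp c)) hS fun x hx => ?_)
    · rw [setLIntegral_const, hv, ENNReal.mul_top (ENNReal.ofReal_pos.2 (exp_pos c)).ne']
    · refine ENNReal.ofReal_le_ofReal (exp_le_exp.2 ?_)
      rw [psi, integral_zero_measure]
      linarith [hk x hx]
  rcases le_total 0 k with hk | hk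
  · exact key (Ici 0) measurableSet_Ici volume_Ici fun x hx => mul_nonneg hk hx
  · exact key (Iic 0) measurableSet_Iic volume_Iic fun x hx => mul_nonneg_of_nonpos_of_nonpos hk hx

end Pool.Agent.PSF.CL
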