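import Pool.Agent.P.MP_7b7370_an.CLDefs

/-! Algebra of the coefficients hN. -/

set_option autoImplicit false

namespace Pool.Agent.PSF.CL

open Real Set MeasureTheory Filter Topology
open scoped ENNReal NNReal

theorem clurna_succ (P : ℕ → ℝ) (N : ℕ) :
    hN P (N + 1) = (∑ j ∈ Finset.range (N + 1), P (j + 1) * hN P (N - j)) / ((N : ℝ) + 1) := by
  rw [← hN_succ]
  have : (N : ℝ) + 1 ≠ 0 := by positivity
  field_simp

theorem clurna_uniq (P g : ℕ → ℝ) (h0 : g 0 = 1)
    (h1 : ∀ N : ℕ, ((N : ℝ) + 1) * g (N + 1) = ∑ j ∈ Finset.range (N + 1), P (j + 1) * g (N - j))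
    (N : ℕ) : hN P N = g N := by
  induction N using Nat.strong_induction_on with
  | _ N ih =>
    cases N with
    | zero => rw [hN_zero, h0]
    | succ N =>
      have hp : (N : ℝ) + 1 ≠ 0 := by positivity
      apply mul_left_cancel₀ hp
      rw [hN_succ, h1]
      exact Finset.sum_congr rfl fun j _ => by rw [ih (N - j) (by omega)]

theorem hN_nonneg {P : ℕ → ℝ} (hP : ∀ j, 0 ≤ P j) (N : ℕ) : 0 ≤ hN P N := by
  induction N using Nat.strong_induction_on with
  | _ N ih =>
    cases N with
    | zero => rw [hN_zero]; exact zero_le_one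
    | succ N =>
      rw [clurna_succ]
      exact div_nonneg (Finset.sum_nonneg fun j _ => mul_nonneg (hP _) (ih _ (by omega)))
        (by positivity)

theorem clurna_deriv (P : ℕ → ℝ) :
    PowerSeries.derivative ℝ (PowerSeries.mk (hN P)) =
      PowerSeries.mk (fun j => P (j + 1)) * PowerSeries.mk (hN P) := by
  ext n
  rw [PowerSeries.coeff_derivative, PowerSeries.coeff_mul,
    Finset.Nat.sum_antidiagonal_eq_sum_range_succ
      (fun i j => PowerSeries.coeff i (PowerSeries.mk fun j => P (j + 1)) *
        PowerSeries.coeff j (PowerSeries.mk (hN P)))]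
  simp only [PowerSeries.coeff_mk]
  rw [mul_comm, hN_succ]

theorem clurna_geo (y : ℝ) :
    PowerSeries.derivative ℝ (PowerSeries.mk fun j => y ^ j) =
      PowerSeries.mk (fun j => y ^ (j + 1)) * PowerSeries.mk fun j => y ^ j := by
  ext n
  rw [PowerSeries.coeff_derivative, PowerSeries.coeff_mul]
  simp only [PowerSeries.coeff_mk]
  rw [Finset.sum_congr rfl (g := fun _ => y ^ (n + 1))]
  · simp [mul_comm]
  · intro p hp
    have hp' : p.1 + p.2 = n := by simpa using hp
    rw [← pow_add, ← hp']
    congr 1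
    ring

theorem hN_add (P : ℕ → ℝ) (y : ℝ) (N : ℕ) :
    hN (fun j => P j + y ^ j) N = ∑ j ∈ Finset.range (N + 1), y ^ j * hN P (N - j) := by
  set G : PowerSeries ℝ := (PowerSeries.mk fun j => y ^ j) * PowerSeries.mk (hN P) with hG
  have hc : ∀ n, PowerSeries.coeff n G = ∑ j ∈ Finset.range (n + 1), y ^ j * hN P (n - j) := by
    intro n
    rw [hG, PowerSeries.coeff_mul, Finset.Nat.sum_antidiagonal_eq_sum_range_succ
      (fun i j => PowerSeries.coeff i (PowerSeries.mk fun j => y ^ j) *
        PowerSeries.coeff j (PowerSeries.mk (hN P)))]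
    simp only [PowerSeries.coeff_mk]
  have hd : PowerSeries.derivative ℝ G =
      PowerSeries.mk (fun j => P (j + 1) + y ^ (j + 1)) * G := by
    have e : (PowerSeries.mk fun j => P (j + 1) + y ^ (j + 1)) =
        PowerSeries.mk (fun j => P (j + 1)) + PowerSeries.mk fun j => y ^ (j + 1) := by
      ext n; simp
    rw [hG, Derivation.leibniz, clurna_deriv, clurna_geo, e]
    simp only [smul_eq_mul]
    ring
  clear_value G
  rw [← hc]
  refine clurna_uniq _ (fun n => PowerSeries.coeff n G) ?_ (fun n => ?_) N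
  · rw [hc]; simp [hN_zero]
  · have := congrArg (PowerSeries.coeff n) hd
    rw [PowerSeries.coeff_derivative, PowerSeries.coeff_mul,
      Finset.Nat.sum_antidiagonal_eq_sum_range_succ
        (fun i j => PowerSeries.coeff i (PowerSeries.mk fun j => P (j + 1) + y ^ (j + 1)) *
          PowerSeries.coeff j G)] at this
    simp only [PowerSeries.coeff_mk] at this
    rw [mul_comm, this]

theorem clurna_sum (p : ℝ) (N : ℕ) :
    p * ∑ i ∈ Finset.range (N + 1), aN p i = (p + N) * aN p N := by
  induction N with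
  | zero => simp
  | succ N ih =>
    rw [Finset.sum_range_succ, mul_add, ih, ← aN_succ]
    push_cast
    ring

theorem hN_const (p y : ℝ) (N : ℕ) : hN (fun j => p * y ^ j) N = aN p N * y ^ N := by
  refine clurna_uniq _ (fun n => aN p n * y ^ n) (by simp [aN_zero]) (fun n => ?_) N
  have h1 : ∑ j ∈ Finset.range (n + 1), p * y ^ (j + 1) * (aN p (n - j) * y ^ (n - j)) =
      (p * ∑ j ∈ Finset.range (n + 1), aN p (n + 1 - 1 - j)) * y ^ (n + 1) := by
    rw [Finset.mul_sum, Finset.sum_mul]
    refine Finset.sum_congr rfl fun j hj => ?_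
    have hj' : j ≤ n := Nat.lt_succ_iff.1 (Finset.mem_range.1 hj)
    have e : y ^ (n + 1) = y ^ (j + 1) * y ^ (n - j) := by
      rw [← pow_add]; congr 1; omega
    rw [e, Nat.add_sub_cancel]
    ring
  rw [h1, Finset.sum_range_reflect (aN p) (n + 1), clurna_sum, ← aN_succ]
  ring

theorem clurna_mono {P P' : ℕ → ℝ} (hP : ∀ j, 0 ≤ P j) (h : ∀ j, P j ≤ P' j) (N : ℕ) :
    hN P N ≤ hN P' N := by
  induction N using Nat.strong_induction_on with
  | _ N ih =>
    cases N with
    | zero => rw [hN_zero, hN_zero]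
    | succ N =>
      rw [clurna_succ, clurna_succ]
      refine div_le_div_of_nonneg_right (Finset.sum_le_sum fun j _ => ?_) (by positivity)
      exact mul_le_mul (h _) (ih _ (by omega)) (hN_nonneg hP _) ((hP _).trans (h _))

theorem hN_le {P : ℕ → ℝ} {Q : ℝ} (hP : ∀ j, 0 ≤ P j) (hQ : ∀ j, P j ≤ Q) (N : ℕ) :
    hN P N ≤ aN Q N := by
  have h := clurna_mono (P' := fun j => Q * (1 : ℝ) ^ j) hP (fun j => by simpa using hQ j) N
  rw [hN_const] at h
  simpa using h

theorem continuous_hN {P : ℝ → ℕ → ℝ} (hP : ∀ j, Continuous fun x => P x j) (N : ℕ) :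
    Continuous fun x => hN (P x) N := by
  induction N using Nat.strong_induction_on with
  | _ N ih =>
    cases N with
    | zero => simp only [hN_zero]; exact continuous_const
    | succ N =>
      simp only [clurna_succ]
      exact (continuous_finsetSum _ fun j _ => (hP _).mul (ih _ (by omega))).div_const _

theorem continuous_PP (q : Measure ℝ) [IsFiniteMeasure q] (j : ℕ) :
    Continuous fun x => PP q x j := by
  unfold PP
  refine continuous_of_dominated (bound := fun _ => 1) (fun x => ?_) (fun x => ?_)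
    (integrable_const _) ?_
  · exact ((continuous_X.comp (continuous_id.prodMk continuous_const)).pow j).aestronglyMeasurable
  · refine Eventually.of_forall fun s => ?_
    rw [Real.norm_eq_abs, abs_of_nonneg (pow_nonneg (X_pos s x).le j)]
    exact pow_le_one₀ (X_pos s x).le (X_le_one s x)
  · exact Eventually.of_forall fun s =>
      (continuous_X.comp (continuous_const.prodMk continuous_id)).pow j

theorem PP_nonneg (q : Measure ℝ) (x : ℝ) (j : ℕ) : 0 ≤ PP q x j :=
  integral_nonneg fun s => pow_nonneg (X_pos s x).le j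

theorem PP_le (q : Measure ℝ) [IsFiniteMeasure q] (x : ℝ) (j : ℕ) :
    PP q x j ≤ q.real univ := by
  have h : ∫ s, X s x ^ j ∂q ≤ ∫ _ : ℝ, (1 : ℝ) ∂q :=
    integral_mono_of_nonneg (Eventually.of_forall fun s => pow_nonneg (X_pos s x).le j)
      (integrable_const _) (Eventually.of_forall fun s => pow_le_one₀ (X_pos s x).le (X_le_one s x))
  simpa [PP] using h

end Pool.Agent.PSF.CL
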