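import Pool.Agent.P.MP_7b7370_an.CLOne
import Pool.Agent.P.MP_7b7370_an.CLUrnA

/-! The urn recursion for eN. -/

set_option autoImplicit false

namespace Pool.Agent.PSF.CL

open Real Set MeasureTheory Filter Topology
open scoped ENNReal NNReal

theorem wq_add_dirac (c k : ℝ) (q : Measure ℝ) [IsFiniteMeasure q] (s x : ℝ) :
    wq (c - 2 * lc s) k (q + Measure.dirac s) x = wq c k q x * X s x := by
  unfold wq psi X sg
  rw [integral_add_measure (integrable_lc_sub q x) (integrable_lc_sub _ x), integral_dirac,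
    ← exp_add]
  congr 1
  ring

theorem clinda_integrable_X (q : Measure ℝ) [IsFiniteMeasure q] (x : ℝ) (j : ℕ) :
    Integrable (fun s => X s x ^ j) q := by
  have hc : Continuous fun s : ℝ => X s x :=
    continuous_X.comp (continuous_id.prodMk continuous_const)
  refine Integrable.of_bound (C := 1) (hc.pow j).aestronglyMeasurable (.of_forall fun s => ?_)
  rw [Real.norm_eq_abs, abs_of_nonneg (pow_nonneg (X_pos s x).le j)]
  exact pow_le_one₀ (X_pos s x).le (X_le_one s x)

theorem clinda_PP_add (q : Measure ℝ) [IsFiniteMeasure q] (s x : ℝ) :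
    PP (q + Measure.dirac s) x = fun j => PP q x j + X s x ^ j := by
  funext j
  unfold PP
  rw [integral_add_measure (clinda_integrable_X q x j) (clinda_integrable_X _ x j),
    integral_dirac]

theorem clinda_eN_dirac (c k : ℝ) (q : Measure ℝ) [IsFiniteMeasure q] (N : ℕ) (s x : ℝ) :
    eN (c - 2 * lc s) k (q + Measure.dirac s) N x =
      ENNReal.ofReal (∑ j ∈ Finset.range (N + 1),
        wq c k q x * hN (PP q x) (N - j) * X s x ^ (j + 1)) := by
  rw [eN, wq_add_dirac, clinda_PP_add, hN_add, Finset.mul_sum]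
  congr 1
  refine Finset.sum_congr rfl fun j _ => ?_
  ring

theorem measurable_eN (c k : ℝ) (q : Measure ℝ) [IsFiniteMeasure q] (N : ℕ) :
    Measurable (eN c k q N) :=
  ((continuous_wq c k q).mul (continuous_hN (continuous_PP q) N)).measurable.ennreal_ofReal

theorem measurable_eN_dirac (c k : ℝ) (q : Measure ℝ) [IsFiniteMeasure q] (N : ℕ) :
    Measurable fun p : ℝ × ℝ => eN (c - 2 * lc p.1) k (q + Measure.dirac p.1) N p.2 := by
  simp only [clinda_eN_dirac]
  refine Measurable.ennreal_ofReal (Continuous.measurable ?_)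
  refine continuous_finsetSum _ fun j _ => ?_
  exact (((continuous_wq c k q).comp continuous_snd).mul
    ((continuous_hN (continuous_PP q) (N - j)).comp continuous_snd)).mul (continuous_X.pow _)

theorem eN_succ (c k : ℝ) (q : Measure ℝ) [IsFiniteMeasure q] (N : ℕ) (x : ℝ) :
    ((N : ℝ≥0∞) + 1) * eN c k q (N + 1) x =
      ∫⁻ s, eN (c - 2 * lc s) k (q + Measure.dirac s) N x ∂q := by
  simp only [clinda_eN_dirac]
  have hi : ∀ j ∈ Finset.range (N + 1), Integrable
      (fun s => wq c k q x * hN (PP q x) (N - j) * X s x ^ (j + 1)) q := fun j _ =>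
    (clinda_integrable_X q x (j + 1)).const_mul _
  rw [← ofReal_integral_eq_lintegral_ofReal (integrable_finsetSum _ hi)
    (.of_forall fun s => Finset.sum_nonneg fun j _ =>
      mul_nonneg (mul_nonneg (wq_pos c k q x).le (hN_nonneg (PP_nonneg q x) _))
        (pow_nonneg (X_pos s x).le _)), integral_finsetSum _ hi]
  have h1 : ((N : ℝ≥0∞) + 1) = ENNReal.ofReal ((N : ℝ) + 1) := by
    rw [ENNReal.ofReal_add (Nat.cast_nonneg N) zero_le_one, ENNReal.ofReal_natCast,
      ENNReal.ofReal_one]
  rw [h1, eN, ← ENNReal.ofReal_mul (by positivity), mul_left_comm, hN_succ, Finset.mul_sum]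
  congr 1
  refine Finset.sum_congr rfl fun j _ => ?_
  rw [integral_const_mul]
  unfold PP
  ring

theorem lint_eN_succ (c k : ℝ) (q : Measure ℝ) [IsFiniteMeasure q] (N : ℕ) {E : Set ℝ}
    (hE : MeasurableSet E) :
    ((N : ℝ≥0∞) + 1) * ∫⁻ x in E, eN c k q (N + 1) x =
      ∫⁻ s, (∫⁻ x in E, eN (c - 2 * lc s) k (q + Measure.dirac s) N x) ∂q := by
  have _ := hE
  rw [← lintegral_const_mul _ (measurable_eN c k q (N + 1))]
  simp only [eN_succ]
  exact (lintegral_lintegral_swap (measurable_eN_dirac c k q N).aemeasurable).symm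

end Pool.Agent.PSF.CL
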