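import Pool.Agent.P.MP_7b7370_an.CLW

/-! The smooth model inequality on the full strip. -/

set_option autoImplicit false

namespace Pool.Agent.PSF.CL

open Real Set MeasureTheory Filter Topology
open scoped ENNReal NNReal

theorem clmodela_e1 {V : ℝ × ℝ → ℝ} (hV : ContDiff ℝ 1 V) (w : ℝ × ℝ) :
    e1 V w = ENNReal.ofReal (dx V w ^ 2) := by
  have h1 : HasDerivAt (fun x : ℝ => (x, w.2)) ((1, 0) : ℝ × ℝ) w.1 :=
    (hasDerivAt_id w.1).prodMk (hasDerivAt_const w.1 w.2)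
  have h2 : HasFDerivAt V (fderiv ℝ V w) (w.1, w.2) :=
    (hV.differentiable one_ne_zero w).hasFDerivAt
  have h3 : HasDerivAt (fun x : ℝ => V (x, w.2)) (dx V w) w.1 := h2.comp_hasDerivAt w.1 h1
  rw [e1, h3.deriv]

theorem clmodela_e2 {V : ℝ × ℝ → ℝ} (hV : ContDiff ℝ 1 V) (w : ℝ × ℝ) :
    e2 V w = ENNReal.ofReal (dy V w ^ 2) := by
  have h1 : HasDerivAt (fun t : ℝ => (w.1, t)) ((0, 1) : ℝ × ℝ) w.2 :=
    (hasDerivAt_const w.2 w.1).prodMk (hasDerivAt_id w.2)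
  have h2 : HasFDerivAt V (fderiv ℝ V w) (w.1, w.2) :=
    (hV.differentiable one_ne_zero w).hasFDerivAt
  have h3 : HasDerivAt (fun t : ℝ => V (w.1, t)) (dy V w) w.2 := h2.comp_hasDerivAt w.2 h1
  rw [e2, h3.deriv]

theorem clmodela_int {V : ℝ × ℝ → ℝ} (hV : ContDiff ℝ 1 V) (hc : HasCompactSupport V)
    (a : ℝ × ℝ) : Integrable fun w => fderiv ℝ V w a ^ 2 := by
  have h1 : Continuous fun w => fderiv ℝ V w a :=
    (hV.continuous_fderiv one_ne_zero).clm_apply continuous_const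
  have h2 : HasCompactSupport fun w => fderiv ℝ V w a := hc.fderiv_apply ℝ a
  have h3 : Continuous fun w => fderiv ℝ V w a ^ 2 := h1.pow 2
  have h4 : HasCompactSupport fun w => fderiv ℝ V w a ^ 2 :=
    h2.mono fun w hw h0 => hw (by simp only [h0]; simp)
  exact h3.integrable_of_hasCompactSupport h4

theorem clmodela_nonneg (p : ℝ) (w : ℝ × ℝ) : 0 ≤ Wp p w := rpow_nonneg (by positivity) _

theorem clmodela_sig {p φ : ℝ} (hp : 0 < p) (hp1 : p < 1) (h : StripLB p φ) (hφ : 0 ≤ φ)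
    {V : ℝ × ℝ → ℝ} (hV : ContDiff ℝ 1 V) (hc : HasCompactSupport V) (hs : tsupport V ⊆ Str) :
    ENNReal.ofReal φ * ∫⁻ w in Sig, ENNReal.ofReal (Wp p w) * ENNReal.ofReal (V w ^ 2) ≤
      (∫⁻ w in Sig, ENNReal.ofReal (Wp p w)) * ∫⁻ w in Sig, (e1 V w + e2 V w) := by
  have hW := integrableOn_Wp hp hp1
  obtain ⟨C, hC⟩ := hV.continuous.bounded_above_of_compact_support hc
  have h1 : IntegrableOn (fun w => Wp p w * V w ^ 2) Sig := by
    refine Integrable.mul_bdd (c := C ^ 2) hW (hV.continuous.pow 2).aestronglyMeasurable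
      (.of_forall fun w => ?_)
    rw [norm_pow]
    exact pow_le_pow_left₀ (norm_nonneg _) (hC w) 2
  have h2 : IntegrableOn (fun w => dx V w ^ 2 + dy V w ^ 2) Sig :=
    ((clmodela_int hV hc (1, 0)).add (clmodela_int hV hc (0, 1))).integrableOn
  have h3 := ENNReal.ofReal_le_ofReal (h V hV hc hs)
  rw [ENNReal.ofReal_mul hφ, ENNReal.ofReal_mul (integral_nonneg (clmodela_nonneg p)),
    ofReal_integral_eq_lintegral_ofReal h1
      (.of_forall fun w => mul_nonneg (clmodela_nonneg p w) (sq_nonneg _)),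
    ofReal_integral_eq_lintegral_ofReal hW (.of_forall (clmodela_nonneg p)),
    ofReal_integral_eq_lintegral_ofReal h2
      (.of_forall fun w => add_nonneg (sq_nonneg _) (sq_nonneg _))] at h3
  simp only [ENNReal.ofReal_mul (clmodela_nonneg p _),
    ENNReal.ofReal_add (sq_nonneg _) (sq_nonneg _)] at h3
  simpa only [clmodela_e1 hV, clmodela_e2 hV] using h3

theorem good_of_contDiff {p φ : ℝ} (hp : 0 < p) (hp1 : p < 1) (h : StripLB p φ)
    {V : ℝ × ℝ → ℝ} (hV : ContDiff ℝ 1 V) (hc : HasCompactSupport V) (hs : tsupport V ⊆ Str) :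
    Good p φ V := by
  unfold Good
  rcases le_total φ 0 with hφ | hφ
  · rw [ENNReal.ofReal_of_nonpos (by linarith), zero_mul]
    exact zero_le
  let T : (ℝ × ℝ) ≃ₜ (ℝ × ℝ) := (Homeomorph.refl ℝ).prodCongr (Homeomorph.neg ℝ)
  have hT : ∀ w : ℝ × ℝ, T w = (w.1, -w.2) := fun _ => rfl
  have hV' : ContDiff ℝ 1 fun w : ℝ × ℝ => V (w.1, -w.2) :=
    hV.comp (contDiff_fst.prodMk contDiff_snd.neg)
  have hc' : HasCompactSupport fun w : ℝ × ℝ => V (w.1, -w.2) := hc.comp_homeomorph T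
  have hs' : tsupport (fun w : ℝ × ℝ => V (w.1, -w.2)) ⊆ Str := by
    intro w hw
    have h1 : tsupport (V ∘ T) ⊆ T ⁻¹' tsupport V :=
      closure_minimal (fun z hz => subset_closure hz)
        ((isClosed_tsupport V).preimage T.continuous)
    obtain ⟨-, h2, h3⟩ := hs (h1 hw)
    rw [hT] at h2 h3
    exact ⟨mem_univ _, by linarith, by linarith⟩
  have hWe : ∀ x t : ℝ, Wp p (x, -t) = Wp p (x, t) := fun x t => by simp [Wp]
  have a1 := clmodela_sig hp hp1 h hφ hV hc hs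
  have a2 := clmodela_sig hp hp1 h hφ hV' hc' hs'
  have b1 : ∀ w : ℝ × ℝ, e1 (fun w : ℝ × ℝ => V (w.1, -w.2)) w = e1 V (w.1, -w.2) := fun _ => rfl
  have b2 : ∀ w : ℝ × ℝ, e2 (fun w : ℝ × ℝ => V (w.1, -w.2)) w = e2 V (w.1, -w.2) := fun w => by
    unfold e2
    rw [deriv_comp_neg (fun t => V (w.1, t)) w.2, neg_sq]
  simp only [b1, b2] at a2
  have c1 : (∫⁻ w in Sig, (e1 V w + e2 V w)) + ∫⁻ w in Sig, (e1 V (w.1, -w.2) + e2 V (w.1, -w.2))
      ≤ E1 V + E2 V := by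
    rw [← lint_Str_add fun w => e1 V w + e2 V w, E1, E2,
      ← lintegral_add_left (measurable_e1 hV.continuous)]
    exact setLIntegral_le_lintegral _ _
  rw [lint_Str_add, lint_Str_even (f := fun w => ENNReal.ofReal (Wp p w))
    (fun x t => by simp only [hWe]), ENNReal.ofReal_mul zero_le_two, ENNReal.ofReal_ofNat,
    mul_assoc, mul_assoc, mul_add]
  simp only [hWe]
  gcongr 2 * ?_
  refine (add_le_add a1 a2).trans ?_
  rw [← mul_add]
  gcongr

end Pool.Agent.PSF.CL
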