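import Pool.Agent.P.MP_7b7370_an.CLDefs

/-! Averaging contracts difference quotients. -/

set_option autoImplicit false

namespace Pool.Agent.PSF.CL

open Real Set MeasureTheory Filter Topology
open scoped ENNReal NNReal

theorem clmolla_int {ρ g : ℝ × ℝ → ℝ} (hρ : Continuous ρ) (hρc : HasCompactSupport ρ)
    (hg : Continuous g) : Integrable fun y => ρ y * g y :=
  (hρ.mul hg).integrable_of_hasCompactSupport hρc.mul_right

theorem clmolla_jensen {ρ g : ℝ × ℝ → ℝ} (hρ : Continuous ρ) (hρc : HasCompactSupport ρ)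
    (hρ0 : ∀ y, 0 ≤ ρ y) (hρ1 : ∫ y, ρ y = 1) (hg : Continuous g) :
    (∫ y, ρ y * g y) ^ 2 ≤ ∫ y, ρ y * g y ^ 2 := by
  set m := ∫ y, ρ y * g y with hm
  have i0 : Integrable ρ := hρ.integrable_of_hasCompactSupport hρc
  have i1 := clmolla_int hρ hρc hg
  have i2 : Integrable fun y => ρ y * g y ^ 2 := clmolla_int hρ hρc (hg.pow 2)
  have h0 : 0 ≤ ∫ y, ρ y * (g y - m) ^ 2 :=
    integral_nonneg fun y => mul_nonneg (hρ0 y) (sq_nonneg _)
  have e : (fun y => ρ y * (g y - m) ^ 2) =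
      fun y => (ρ y * g y ^ 2 - 2 * m * (ρ y * g y)) + m ^ 2 * ρ y := by
    funext y
    ring
  have i3 : Integrable fun y => ρ y * g y ^ 2 - 2 * m * (ρ y * g y) := i2.sub (i1.const_mul _)
  rw [e, integral_add i3 (i0.const_mul _), integral_sub i2 (i1.const_mul _), integral_const_mul,
    integral_const_mul, hρ1, ← hm] at h0
  linarith

theorem DQ_conv {ρ U : ℝ × ℝ → ℝ} (hρ : Continuous ρ) (hρc : HasCompactSupport ρ)
    (hρ0 : ∀ y, 0 ≤ ρ y) (hρ1 : ∫ y, ρ y = 1) (hU : Continuous U) (h : ℝ × ℝ) :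
    DQ (fun w => ∫ y, ρ y * U (w - y)) h ≤ DQ U h := by
  have m1 : Measurable fun w : ℝ × ℝ => ENNReal.ofReal ((U (w + h) - U w) ^ 2) :=
    (by fun_prop : Continuous fun w : ℝ × ℝ => (U (w + h) - U w) ^ 2).measurable.ennreal_ofReal
  have m2 : Measurable fun y => ENNReal.ofReal (ρ y) := hρ.measurable.ennreal_ofReal
  have key : ∀ w : ℝ × ℝ,
      ENNReal.ofReal (((∫ y, ρ y * U (w + h - y)) - ∫ y, ρ y * U (w - y)) ^ 2) ≤
        ∫⁻ y, ENNReal.ofReal (ρ y) * ENNReal.ofReal ((U (w - y + h) - U (w - y)) ^ 2) := by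
    intro w
    have c1 : Continuous fun y => U (w + h - y) := by fun_prop
    have c2 : Continuous fun y => U (w - y) := by fun_prop
    have c3 : Continuous fun y => U (w - y + h) - U (w - y) := by fun_prop
    have e1 : (∫ y, ρ y * U (w + h - y)) - ∫ y, ρ y * U (w - y) =
        ∫ y, ρ y * (U (w - y + h) - U (w - y)) := by
      rw [← integral_sub (clmolla_int hρ hρc c1) (clmolla_int hρ hρc c2)]
      refine integral_congr_ae (.of_forall fun y => ?_)
      simp only [mul_sub, add_sub_right_comm]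
    rw [e1]
    refine (ENNReal.ofReal_le_ofReal (clmolla_jensen hρ hρc hρ0 hρ1 c3)).trans (le_of_eq ?_)
    have i2 : Integrable fun y => ρ y * (U (w - y + h) - U (w - y)) ^ 2 :=
      clmolla_int hρ hρc (c3.pow 2)
    rw [ofReal_integral_eq_lintegral_ofReal i2
      (.of_forall fun y => mul_nonneg (hρ0 y) (sq_nonneg _))]
    exact lintegral_congr fun y => ENNReal.ofReal_mul (hρ0 y)
  refine (lintegral_mono key).trans (le_of_eq ?_)
  rw [lintegral_lintegral_swap ((m2.comp measurable_snd).mul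
    (m1.comp (measurable_fst.sub measurable_snd))).aemeasurable]
  have e2 : ∀ y : ℝ × ℝ,
      ∫⁻ w, ENNReal.ofReal (ρ y) * ENNReal.ofReal ((U (w - y + h) - U (w - y)) ^ 2) =
        ENNReal.ofReal (ρ y) * DQ U h := by
    intro y
    rw [lintegral_const_mul' _ _ ENNReal.ofReal_ne_top]
    congr 1
    exact lintegral_sub_right_eq_self
      (fun w : ℝ × ℝ => ENNReal.ofReal ((U (w + h) - U w) ^ 2)) y
  rw [lintegral_congr e2, lintegral_mul_const _ m2,
    ← ofReal_integral_eq_lintegral_ofReal (hρ.integrable_of_hasCompactSupport hρc)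
      (.of_forall hρ0), hρ1, ENNReal.ofReal_one, one_mul]

end Pool.Agent.PSF.CL
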