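import Pool.Agent.P.MP_7b7370_an.CLDefs

/-! The potential psi: continuity, convexity, inequality (K). -/

set_option autoImplicit false

namespace Pool.Agent.PSF.CL

open Real Set MeasureTheory Filter Topology
open scoped ENNReal NNReal

theorem clone_cont (q : Measure ℝ) [IsFiniteMeasure q] :
    Continuous fun x => ∫ s, (lc (x - s) - lc s) ∂q := by
  refine (LipschitzWith.of_dist_le_mul (K := (q.real univ).toNNReal) fun x y => ?_).continuous
  rw [Real.dist_eq, Real.dist_eq, ← integral_sub (integrable_lc_sub q x) (integrable_lc_sub q y),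
    Real.coe_toNNReal _ measureReal_nonneg, mul_comm, ← Real.norm_eq_abs]
  refine norm_integral_le_of_norm_le_const (.of_forall fun s => ?_)
  have := abs_lc_sub (x - s) (y - s)
  rw [sub_sub_sub_cancel_right] at this
  rw [sub_sub_sub_cancel_right, Real.norm_eq_abs]
  exact this

theorem continuous_psi (c k : ℝ) (q : Measure ℝ) [IsFiniteMeasure q] :
    Continuous (psi c k q) := by
  have := clone_cont q
  unfold psi
  fun_prop

theorem clone_convex : ConvexOn ℝ univ lc := by
  refine Monotone.convexOn_univ_of_deriv (fun x => (hasDerivAt_lc x).differentiableAt)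
    fun x y h => ?_
  rw [(hasDerivAt_lc x).deriv, (hasDerivAt_lc y).deriv,
    div_le_div_iff₀ (cosh_pos x) (cosh_pos y)]
  have h1 := sinh_sub y x
  have h2 : 0 ≤ sinh (y - x) := sinh_nonneg_iff.2 (sub_nonneg.2 h)
  linarith

theorem convexOn_psi (c k : ℝ) (q : Measure ℝ) [IsFiniteMeasure q] :
    ConvexOn ℝ univ (psi c k q) := by
  refine ⟨convex_univ, fun x _ y _ a b ha hb hab => ?_⟩
  have h1 : ∫ s, (lc (a * x + b * y - s) - lc s) ∂q ≤
      ∫ s, (a * (lc (x - s) - lc s) + b * (lc (y - s) - lc s)) ∂q := by
    refine integral_mono (integrable_lc_sub q _)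
      (((integrable_lc_sub q x).const_mul a).add ((integrable_lc_sub q y).const_mul b)) fun s => ?_
    have h2 := clone_convex.2 (mem_univ (x - s)) (mem_univ (y - s)) ha hb hab
    simp only [smul_eq_mul] at h2
    have h3 : a * (x - s) + b * (y - s) = a * x + b * y - s := by
      linear_combination (-s) * hab
    have h4 : lc s = a * lc s + b * lc s := by rw [← add_mul, hab, one_mul]
    rw [h3] at h2
    dsimp only
    linarith
  rw [integral_add ((integrable_lc_sub q x).const_mul a) ((integrable_lc_sub q y).const_mul b),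
    integral_const_mul, integral_const_mul] at h1
  simp only [smul_eq_mul, psi]
  have h5 : c = a * c + b * c := by rw [← add_mul, hab, one_mul]
  linarith

theorem clone_T {x y m : ℝ} (hm : 0 ≤ m) (h : x + y = 2 * m) :
    sinh x / cosh x + sinh y / cosh y ≤ 2 * (sinh m / cosh m) := by
  have hx := cosh_pos x
  have hy := cosh_pos y
  have hc := cosh_pos m
  have h1 : sinh x * cosh y + cosh x * sinh y = 2 * sinh m * cosh m := by
    rw [← sinh_add, h, sinh_two_mul]
  have h2 : cosh m ^ 2 ≤ cosh x * cosh y := by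
    have e1 := cosh_add x y
    have e2 := cosh_sub x y
    have e3 := one_le_cosh (x - y)
    have e4 := cosh_two_mul m
    have e5 := cosh_sq m
    rw [h] at e1
    linarith
  have h3 : 0 ≤ sinh m := sinh_nonneg_iff.2 hm
  rw [div_add_div _ _ hx.ne' hy.ne', h1, ← mul_div_assoc, div_le_div_iff₀ (by positivity) hc]
  nlinarith [mul_le_mul_of_nonneg_left h2 h3]

theorem clone_atom {A B l d u v : ℝ} (hu : 0 < u) (hv : 0 < v) (hd : u + v = 2 * d)
    (hl : B - A = 2 * l) (hdl : d ≤ l) :
    d / u * (lc A - lc (A + u)) + d / v * (lc B - lc (B - v)) ≤ 2 * (lc l - lc (l - d)) := by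
  have hd0 : 0 < d := by linarith
  have hD : ∀ t : ℝ, HasDerivAt
      (fun t => d / u * lc (A + t * u) + d / v * lc (B - t * v) - 2 * lc (l - t * d))
      (d / u * (sinh (A + t * u) / cosh (A + t * u) * u) +
        d / v * (sinh (B - t * v) / cosh (B - t * v) * (-v)) -
        2 * (sinh (l - t * d) / cosh (l - t * d) * (-d))) t := by
    intro t
    have h1 : HasDerivAt (fun t : ℝ => A + t * u) u t := by
      simpa using ((hasDerivAt_id t).mul_const u).const_add A
    have h2 : HasDerivAt (fun t : ℝ => B - t * v) (-v) t := by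
      simpa using ((hasDerivAt_id t).mul_const v).const_sub B
    have h3 : HasDerivAt (fun t : ℝ => l - t * d) (-d) t := by
      simpa using ((hasDerivAt_id t).mul_const d).const_sub l
    exact ((((hasDerivAt_lc _).comp t h1).const_mul _).add
      (((hasDerivAt_lc _).comp t h2).const_mul _)).sub (((hasDerivAt_lc _).comp t h3).const_mul _)
  obtain ⟨t, ht, he⟩ := exists_hasDerivAt_eq_slope _ _ zero_lt_one
    (fun t _ => (hD t).continuousAt.continuousWithinAt) (fun t _ => hD t)
  have hm : 0 ≤ l - t * d := by nlinarith [ht.2]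
  have hT := clone_T (x := -(A + t * u)) (y := B - t * v) hm (by linear_combination hl - t * hd)
  rw [sinh_neg, cosh_neg, neg_div] at hT
  have h4 : d / u * (sinh (A + t * u) / cosh (A + t * u) * u) =
      d * (sinh (A + t * u) / cosh (A + t * u)) := by field_simp
  have h5 : d / v * (sinh (B - t * v) / cosh (B - t * v) * (-v)) =
      -(d * (sinh (B - t * v) / cosh (B - t * v))) := by field_simp
  rw [h4, h5] at he
  simp only [one_mul, zero_mul, add_zero, sub_zero, div_one] at he
  have h6 := mul_le_mul_of_nonneg_left hT hd0.le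
  linarith

theorem KI_psi (c k : ℝ) (q : Measure ℝ) [IsFiniteMeasure q] :
    KI (psi c k q) (fun x => 2 * q.real univ * lc x) := by
  intro a b u v hu hv huv
  obtain ⟨d, hd⟩ : ∃ d, d = (u + v) / 2 := ⟨_, rfl⟩
  obtain ⟨l, hl⟩ : ∃ l, l = (b - a) / 2 := ⟨_, rfl⟩
  have h0 : (b - a - u - v) / 2 = l - d := by rw [hd, hl]; ring
  rw [h0, ← hd, ← hl]
  have i1 := ((integrable_lc_sub q a).sub (integrable_lc_sub q (a + u))).const_mul (d / u)
  have i2 := ((integrable_lc_sub q b).sub (integrable_lc_sub q (b - v))).const_mul (d / v)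
  have h1 : ∫ s, (d / u * ((lc (a - s) - lc s) - (lc (a + u - s) - lc s)) +
      d / v * ((lc (b - s) - lc s) - (lc (b - v - s) - lc s))) ∂q ≤
      ∫ _s, 2 * (lc l - lc (l - d)) ∂q := by
    refine integral_mono (i1.add i2) (integrable_const _) fun s => ?_
    have h2 := clone_atom (A := a - s) (B := b - s) (l := l) (d := d) hu hv (by rw [hd]; ring)
      (by rw [hl]; ring) (by rw [hd, hl]; linarith)
    rw [show a - s + u = a + u - s by ring, show b - s - v = b - v - s by ring] at h2
    simpa only [sub_sub_sub_cancel_right] using h2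
  have e1 : ∫ s, (d / u * ((lc (a - s) - lc s) - (lc (a + u - s) - lc s)) +
      d / v * ((lc (b - s) - lc s) - (lc (b - v - s) - lc s))) ∂q =
      d / u * ((∫ s, (lc (a - s) - lc s) ∂q) - ∫ s, (lc (a + u - s) - lc s) ∂q) +
      d / v * ((∫ s, (lc (b - s) - lc s) ∂q) - ∫ s, (lc (b - v - s) - lc s) ∂q) := by
    rw [← integral_sub (integrable_lc_sub q a) (integrable_lc_sub q (a + u)),
      ← integral_sub (integrable_lc_sub q b) (integrable_lc_sub q (b - v)),
      ← integral_const_mul, ← integral_const_mul]
    exact integral_add i1 i2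
  rw [e1, integral_const, smul_eq_mul] at h1
  have e2 : d / u * u = d := div_mul_cancel₀ _ hu.ne'
  have e3 : d / v * v = d := div_mul_cancel₀ _ hv.ne'
  simp only [psi]
  have e4 : d / u * (2 * k * u) = d / v * (2 * k * v) := by
    linear_combination 2 * k * e2 - 2 * k * e3
  linarith

theorem continuous_wq (c k : ℝ) (q : Measure ℝ) [IsFiniteMeasure q] :
    Continuous (wq c k q) := (continuous_psi c k q).neg.rexp

end Pool.Agent.PSF.CL
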