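import Pool.Agent.P.MP_7b7370_an.CLStarA

/-! Two crossings. -/

set_option autoImplicit false

namespace Pool.Agent.PSF.CL

open Real Set MeasureTheory Filter Topology
open scoped ENNReal NNReal

variable {R : ℝ} {f : ℝ → ℝ}

theorem clpsa_var {K : ℝ≥0} (hK : LipschitzWith K f) {p q : ℝ} (hpq : p ≤ q) :
    ENNReal.ofReal |f q - f p| ≤ ∫⁻ x in Ioo p q, ENNReal.ofReal |deriv f x| := by
  rw [← (hK.lipschitzOnWith.absolutelyContinuousOnInterval).integral_deriv_eq_sub,
    intervalIntegral.integral_of_le hpq, integral_Ioc_eq_integral_Ioo, ← Real.enorm_eq_ofReal_abs]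
  simp only [← Real.enorm_eq_ofReal_abs]
  exact enorm_integral_le_lintegral_enorm _

theorem clpsa_pass (hf : Continuous f) {a b p q : ℝ} (hpq : p ≤ q) (hp : f p ≤ b)
    (hq : a ≤ f q) : ∃ x₁ x₂, p ≤ x₁ ∧ x₁ ≤ x₂ ∧ x₂ ≤ q ∧ f x₁ ≤ b ∧ a ≤ f x₂ ∧
      ∀ x ∈ Ioo x₁ x₂, b < f x ∧ f x < a := by
  obtain ⟨x₁, h1, h2⟩ := (isCompact_Icc.inter_right (isClosed_le hf continuous_const) :
    IsCompact (Icc p q ∩ {x | f x ≤ b})).exists_isGreatest ⟨p, ⟨le_rfl, hpq⟩, hp⟩
  obtain ⟨x₂, h3, h4⟩ := (isCompact_Icc.inter_right (isClosed_le continuous_const hf) :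
    IsCompact (Icc x₁ q ∩ {x | a ≤ f x})).exists_isLeast ⟨q, ⟨h1.1.2, le_rfl⟩, hq⟩
  refine ⟨x₁, x₂, h1.1.1, h3.1.1, h3.1.2, h1.2, h3.2, fun x hx => ⟨not_le.1 fun h => ?_,
    not_le.1 fun h => ?_⟩⟩
  · exact (h2 ⟨⟨h1.1.1.trans hx.1.le, hx.2.le.trans h3.1.2⟩, h⟩).not_gt hx.1
  · exact (h4 ⟨⟨hx.1.le, hx.2.le.trans h3.1.2⟩, h⟩).not_gt hx.2

theorem clpsa_vol (hf : B1 R f) {y h : ℝ} (hy : 0 < y) (hh : 0 < h)
    (hab : sdr f (y + h) < sdr f y) :
    volume {x | sdr f (y + h) < f x ∧ f x < sdr f y} ≤ ENNReal.ofReal (2 * h) := by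
  have hb := sdr_nonneg f (y + h)
  have h1 := (lt_sdr_iff hf hb (y + h)).not.1 (lt_irrefl _)
  have h2 : ∀ c, sdr f (y + h) ≤ c → c < sdr f y →
      ENNReal.ofReal (2 * y) < volume {x | c < f x} := fun c h3 h4 => by
    have h5 := (lt_sdr_iff hf (hb.trans h3) y).1 h4
    rwa [abs_of_pos hy] at h5
  rw [not_lt, abs_of_pos (by linarith)] at h1
  generalize sdr f (y + h) = b at *
  generalize sdr f y = a at *
  have hd : 0 < a - b := sub_pos.2 hab
  have h3 : ENNReal.ofReal (2 * y) ≤ volume {x | a ≤ f x} := by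
    have e : {x | a ≤ f x} = ⋂ n : ℕ, {x | a - (a - b) / ((n : ℝ) + 1) < f x} := by
      ext x
      simp only [mem_ofPred_eq, mem_iInter]
      refine ⟨fun h4 n => (sub_lt_self _ (by positivity)).trans_le h4, fun h4 => ?_⟩
      have h5 := (tendsto_const_nhds (x := a)).sub
        ((tendsto_one_div_add_atTop_nhds_zero_nat (𝕜 := ℝ)).const_mul (a - b))
      rw [mul_zero, sub_zero] at h5
      exact le_of_tendsto' h5 fun n => by rw [mul_one_div]; exact (h4 n).le
    rw [e, Antitone.measure_iInter]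
    · refine le_iInf fun n => (h2 _ ?_ (sub_lt_self _ (by positivity))).le
      have : (a - b) / ((n : ℝ) + 1) ≤ a - b :=
        div_le_self hd.le (le_add_of_nonneg_left (Nat.cast_nonneg n))
      linarith
    · intro n m hnm x hx
      have h4 : (a - b) / ((m : ℝ) + 1) ≤ (a - b) / ((n : ℝ) + 1) :=
        div_le_div_of_nonneg_left hd.le (by positivity) (by exact_mod_cast Nat.succ_le_succ hnm)
      simp only [mem_ofPred_eq] at hx ⊢
      linarith
    · exact fun n => (isOpen_lt continuous_const hf.cont).measurableSet.nullMeasurableSet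
    · refine ⟨0, ne_top_of_le_ne_top ENNReal.ofReal_ne_top (le_of_eq_of_le ?_ h1)⟩
      simp
  have h4 : volume {x | b < f x ∧ f x < a} + volume {x | a ≤ f x} ≤ volume {x | b < f x} := by
    rw [← measure_union (disjoint_left.2 fun x hx hx' => hx.2.not_ge hx')
      (isClosed_le continuous_const hf.cont).measurableSet]
    exact measure_mono (union_subset (fun x hx => hx.1) fun x hx => hab.trans_le hx)
  have h5 : volume {x | b < f x ∧ f x < a} + ENNReal.ofReal (2 * y) ≤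
      ENNReal.ofReal (2 * h) + ENNReal.ofReal (2 * y) := by
    rw [← ENNReal.ofReal_add (by positivity) (by positivity)]
    refine ((add_le_add le_rfl h3).trans (h4.trans h1)).trans_eq ?_
    congr 1
    ring
  exact (ENNReal.add_le_add_iff_right ENNReal.ofReal_ne_top).1 h5

theorem cross (hf : B1 R f) {K : ℝ≥0} (hK : LipschitzWith K f) {a b x₀ : ℝ} (hb : 0 ≤ b)
    (hab : b < a) (hx : a ≤ f x₀) :
    ENNReal.ofReal (2 * (a - b)) ≤ ∫⁻ x in {x | b < f x ∧ f x < a}, ENNReal.ofReal |deriv f x| := by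
  have h0 := abs_nonneg R
  have h1 := le_abs_self x₀
  have h2 := neg_abs_le x₀
  have h3 := le_abs_self R
  have h4 := abs_nonneg x₀
  obtain ⟨x₁, x₂, -, p2, p3, p4, p5, p6⟩ := clpsa_pass hf.cont (a := a) (b := b)
    (p := -(|R| + |x₀|)) (q := x₀) (by linarith)
    ((hf.supp _ (by rw [abs_neg, abs_of_nonneg (by linarith)]; linarith)).trans_le hb) hx
  obtain ⟨x₃, x₄, q1, q2, -, q4, q5, q6⟩ := clpsa_pass (f := fun x => -f x) hf.cont.neg
    (a := -b) (b := -a) (p := x₀) (q := |R| + |x₀|) (by linarith) (neg_le_neg hx)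
    (neg_le_neg ((hf.supp _ (by rw [abs_of_nonneg (by linarith)]; linarith)).trans_le hb))
  have r1 : ENNReal.ofReal (a - b) ≤ ∫⁻ x in Ioo x₁ x₂, ENNReal.ofReal |deriv f x| :=
    (ENNReal.ofReal_le_ofReal (le_trans (by linarith) (le_abs_self _))).trans (clpsa_var hK p2)
  have r2 : ENNReal.ofReal (a - b) ≤ ∫⁻ x in Ioo x₃ x₄, ENNReal.ofReal |deriv f x| := by
    refine (ENNReal.ofReal_le_ofReal ?_).trans (clpsa_var hK q2)
    have := neg_le_abs (f x₄ - f x₃)
    linarith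
  rw [two_mul, ENNReal.ofReal_add (by linarith) (by linarith)]
  refine (add_le_add r1 r2).trans ?_
  rw [← lintegral_union measurableSet_Ioo
    (disjoint_left.2 fun x hx hx' => (hx.2.trans_le (p3.trans q1)).not_gt hx'.1)]
  refine lintegral_mono_set (union_subset p6 fun x hx => ?_)
  exact ⟨neg_lt_neg_iff.1 (q6 x hx).2, neg_lt_neg_iff.1 (q6 x hx).1⟩

theorem ps_key (hf : B1 R f) {K : ℝ≥0} (hK : LipschitzWith K f) {y h : ℝ} (hy : 0 < y)
    (hh : 0 < h) :
    2 * ENNReal.ofReal ((sdr f (y + h) - sdr f y) ^ 2) ≤ ENNReal.ofReal h *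
      ∫⁻ x in {x | sdr f (y + h) < f x ∧ f x < sdr f y}, ENNReal.ofReal (deriv f x ^ 2) := by
  have hle : sdr f (y + h) ≤ sdr f y :=
    dec_sdr hf y (y + h) (by rw [abs_of_pos hy, abs_of_pos (by linarith)]; linarith)
  rcases hle.eq_or_lt with e | hab
  · simp [e]
  obtain ⟨x₀, hx⟩ := exists_sdr_le hf y
  have h1 := cross hf hK (sdr_nonneg f _) hab hx
  have h2 := clpsa_vol hf hy hh hab
  generalize sdr f (y + h) = b at *
  generalize sdr f y = a at *
  have hd : 0 < a - b := sub_pos.2 hab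
  obtain ⟨t, ht⟩ : ∃ t : ℝ, t = (a - b) / h := ⟨_, rfl⟩
  have ht0 : 0 < t := by rw [ht]; positivity
  have h3 : ENNReal.ofReal (2 * t) * ENNReal.ofReal (2 * (a - b)) ≤
      (∫⁻ x in {x | b < f x ∧ f x < a}, ENNReal.ofReal (deriv f x ^ 2)) +
        ENNReal.ofReal (t ^ 2) * ENNReal.ofReal (2 * h) := by
    refine (mul_le_mul_right h1 _).trans ?_
    rw [← lintegral_const_mul' _ _ ENNReal.ofReal_ne_top]
    refine (lintegral_mono (g := fun x => ENNReal.ofReal (deriv f x ^ 2) + ENNReal.ofReal (t ^ 2))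
      fun x => ?_).trans ?_
    · simp only
      rw [← ENNReal.ofReal_mul (by positivity), ← ENNReal.ofReal_add (sq_nonneg _) (sq_nonneg _)]
      refine ENNReal.ofReal_le_ofReal ?_
      nlinarith [sq_nonneg (|deriv f x| - t), sq_abs (deriv f x)]
    · rw [lintegral_add_right _ measurable_const, setLIntegral_const]
      exact add_le_add le_rfl (mul_le_mul_right h2 _)
  have e1 : 2 * t * (2 * (a - b)) = 2 * (a - b) ^ 2 / h + t ^ 2 * (2 * h) := by
    rw [ht]
    field_simp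
    ring
  rw [← ENNReal.ofReal_mul (by positivity), ← ENNReal.ofReal_mul (by positivity), e1,
    ENNReal.ofReal_add (by positivity) (by positivity),
    ENNReal.add_le_add_iff_right ENNReal.ofReal_ne_top] at h3
  refine le_of_eq_of_le ?_ (mul_le_mul_right h3 _)
  rw [← ENNReal.ofReal_mul hh.le, ← ENNReal.ofReal_ofNat 2, ← ENNReal.ofReal_mul (by norm_num)]
  congr 1
  field_simp
  ring

end Pool.Agent.PSF.CL
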