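import Pool.Agent.P.MP_7b7370_an.CLCheb
import Pool.Agent.P.MP_7b7370_an.CLBath

/-! Monotone means. -/

set_option autoImplicit false

namespace Pool.Agent.PSF.CL

open Real Set MeasureTheory Filter Topology
open scoped ENNReal NNReal

lemma clphi_ct_succ (N : ℕ) (t : ℝ) : ct (N + 1) t = ct N t * ct 1 t := by
  unfold ct
  by_cases h : t ∈ Ioo (-(π / 2)) (π / 2)
  · simp only [indicator_of_mem h]
    rw [← ENNReal.ofReal_mul (by rw [pow_mul]; positivity), ← pow_add]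
    congr 2
  · simp only [indicator_of_notMem h, mul_zero]

lemma clphi_meas (Q : ℝ) {U : ℝ × ℝ → ℝ} (hU : Continuous U) :
    Measurable fun w : ℝ × ℝ => ENNReal.ofReal (sg Q w.1) * ENNReal.ofReal (U w ^ 2) :=
  ((((continuous_sg Q).comp continuous_fst).measurable).ennreal_ofReal).mul
    (hU.measurable.pow_const 2).ennreal_ofReal

/-- the inner integral -/
noncomputable def clphi_B (Q : ℝ) (U : ℝ × ℝ → ℝ) (t : ℝ) : ℝ≥0∞ :=
  ∫⁻ x, ENNReal.ofReal (sg Q x) * ENNReal.ofReal (U (x, t) ^ 2)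

lemma clphi_measB (Q : ℝ) {U : ℝ × ℝ → ℝ} (hU : Continuous U) : Measurable (clphi_B Q U) :=
  (clphi_meas Q hU).lintegral_prod_left'

lemma clphi_Ps (p : ℝ) {U : ℝ × ℝ → ℝ} (hU : Continuous U) (N : ℕ) :
    Ps p U N = ∫⁻ t, ct N t * clphi_B (p + N) U t := by
  unfold Ps
  have hm : Measurable fun w : ℝ × ℝ =>
      ct N w.2 * ENNReal.ofReal (sg (p + N) w.1) * ENNReal.ofReal (U w ^ 2) := by
    simp_rw [mul_assoc]
    exact ((measurable_ct N).comp measurable_snd).mul (clphi_meas _ hU)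
  rw [Measure.volume_eq_prod, lintegral_prod_symm' _ hm]
  refine lintegral_congr fun t => ?_
  unfold clphi_B
  have hm2 : Measurable fun x : ℝ =>
      ENNReal.ofReal (sg (p + N) x) * ENNReal.ofReal (U (x, t) ^ 2) :=
    (continuous_sg (p + N)).measurable.ennreal_ofReal.mul
      ((hU.comp (Continuous.prodMk_left t)).measurable.pow_const 2).ennreal_ofReal
  rw [← lintegral_const_mul _ hm2]
  simp_rw [mul_assoc]

lemma clphi_decB (Q : ℝ) {U : ℝ × ℝ → ℝ} (h0 : ∀ w, 0 ≤ U w)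
    (h2 : ∀ x, Dec fun t => U (x, t)) : Dec (clphi_B Q U) := fun s t h =>
  lintegral_mono fun x => mul_le_mul_right
    (ENNReal.ofReal_le_ofReal (pow_le_pow_left₀ (h0 _) (h2 x s t h) 2)) _

lemma clphi_step (Q : ℝ) {U : ℝ × ℝ → ℝ} (hU : Continuous U) (h0 : ∀ w, 0 ≤ U w)
    (h1 : ∀ t, Dec fun x => U (x, t)) (t : ℝ) :
    SS (Q + 1) * clphi_B Q U t ≤ SS Q * clphi_B (Q + 1) U t := by
  have e : ∀ x, ENNReal.ofReal (sg (Q + 1) x) =
      ENNReal.ofReal (sg Q x) * ENNReal.ofReal (sg 1 x) := fun x => by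
    rw [sg_add, ENNReal.ofReal_mul (sg_pos _ _).le]
  unfold SS clphi_B
  simp_rw [e]
  refine cheb_dec (continuous_sg Q).measurable.ennreal_ofReal
    (continuous_sg 1).measurable.ennreal_ofReal
    (((hU.comp (Continuous.prodMk_left t)).measurable.pow_const 2).ennreal_ofReal)
    (fun x y h => ENNReal.ofReal_le_ofReal (dec_sg zero_le_one x y h))
    (fun x y h => ENNReal.ofReal_le_ofReal (pow_le_pow_left₀ (h0 _) (h1 t x y h) 2))

theorem Ps_mono (p : ℝ) {U : ℝ × ℝ → ℝ} (hU : Continuous U) (h0 : ∀ w, 0 ≤ U w)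
    (h1 : ∀ t, Dec fun x => U (x, t)) (h2 : ∀ x, Dec fun t => U (x, t)) (N : ℕ) :
    Ps p U N * (SS (p + (N + 1 : ℕ)) * cN (N + 1)) ≤ Ps p U (N + 1) * (SS (p + N) * cN N) := by
  have e : p + ((N + 1 : ℕ) : ℝ) = p + N + 1 := by push_cast; ring
  rw [clphi_Ps p hU, clphi_Ps p hU, e]
  have s1 : (∫⁻ t, ct N t * clphi_B (p + N) U t) * SS (p + N + 1) ≤
      SS (p + N) * ∫⁻ t, ct N t * clphi_B (p + N + 1) U t := by
    have hm : ∀ Q : ℝ, Measurable fun t => ct N t * clphi_B Q U t := fun Q =>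
      (measurable_ct N).mul (clphi_measB Q hU)
    rw [← lintegral_mul_const _ (hm _), ← lintegral_const_mul _ (hm _)]
    refine lintegral_mono fun t => ?_
    calc ct N t * clphi_B (p + N) U t * SS (p + N + 1)
        = ct N t * (SS (p + N + 1) * clphi_B (p + N) U t) := by ring
      _ ≤ ct N t * (SS (p + N) * clphi_B (p + N + 1) U t) :=
          mul_le_mul_right (clphi_step _ hU h0 h1 t) _
      _ = SS (p + N) * (ct N t * clphi_B (p + N + 1) U t) := by ring
  have s2 : cN (N + 1) * ∫⁻ t, ct N t * clphi_B (p + N + 1) U t ≤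
      cN N * ∫⁻ t, ct (N + 1) t * clphi_B (p + N + 1) U t := by
    unfold cN
    simp_rw [clphi_ct_succ N]
    exact cheb_dec (measurable_ct N) (measurable_ct 1) (clphi_measB _ hU) (dec_ct 1)
      (clphi_decB _ h0 h2)
  calc (∫⁻ t, ct N t * clphi_B (p + N) U t) * (SS (p + N + 1) * cN (N + 1))
      = ((∫⁻ t, ct N t * clphi_B (p + N) U t) * SS (p + N + 1)) * cN (N + 1) := by ring
    _ ≤ (SS (p + N) * ∫⁻ t, ct N t * clphi_B (p + N + 1) U t) * cN (N + 1) :=
        mul_le_mul_left s1 _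
    _ = SS (p + N) * (cN (N + 1) * ∫⁻ t, ct N t * clphi_B (p + N + 1) U t) := by ring
    _ ≤ SS (p + N) * (cN N * ∫⁻ t, ct (N + 1) t * clphi_B (p + N + 1) U t) :=
        mul_le_mul_right s2 _
    _ = (∫⁻ t, ct (N + 1) t * clphi_B (p + N + 1) U t) * (SS (p + N) * cN N) := by ring

end Pool.Agent.PSF.CL
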