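import Pool.Agent.P.MP_7b7370_an.CLDefs

/-! The symmetric decreasing rearrangement on the line. -/

set_option autoImplicit false

namespace Pool.Agent.PSF.CL

open Real Set MeasureTheory Filter Topology
open scoped ENNReal NNReal

variable {R : ℝ} {f g : ℝ → ℝ}

theorem clstara_max (hf : B1 R f) : ∃ y, ∀ z, f z ≤ f y := by
  obtain ⟨y, -, hy⟩ := (isCompact_Icc (a := -|R|) (b := |R|)).exists_isMaxOn
    ⟨0, by simp⟩ hf.cont.continuousOn
  refine ⟨y, fun z => ?_⟩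
  by_cases hz : z ∈ Icc (-|R|) |R|
  · exact hy hz
  · have : R ≤ |z| := by
      rw [mem_Icc, ← abs_le, not_le] at hz
      exact (le_abs_self R).trans hz.le
    rw [hf.supp z this]
    exact hf.nn y

theorem clstara_bdd (hf : B1 R f) (x : ℝ) :
    BddAbove {a : ℝ | 0 ≤ a ∧ ENNReal.ofReal (2 * |x|) < volume {y | a < f y}} := by
  obtain ⟨y, hy⟩ := clstara_max hf
  refine ⟨f y, fun a ha => ?_⟩
  obtain ⟨z, hz⟩ := nonempty_of_measure_ne_zero (ne_zero_of_lt ha.2)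
  exact (le_of_lt hz).trans (hy z)

theorem clstara_sub (hf : B1 R f) {a : ℝ} (ha : 0 ≤ a) : {y | a < f y} ⊆ Ioo (-R) R := by
  intro y hy
  rw [mem_Ioo, ← abs_lt]
  by_contra h
  have := hf.supp y (not_lt.mp h)
  simp only [mem_ofPred_eq, this] at hy
  linarith

theorem clstara_vol (hf : B1 R f) {a : ℝ} (ha : 0 ≤ a) :
    volume {y | a < f y} ≤ ENNReal.ofReal (2 * R) := by
  refine (measure_mono (clstara_sub hf ha)).trans ?_
  rw [Real.volume_Ioo]
  exact le_of_eq (by congr 1; ring)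

theorem lt_sdr_iff (hf : B1 R f) {a : ℝ} (ha : 0 ≤ a) (x : ℝ) :
    a < sdr f x ↔ ENNReal.ofReal (2 * |x|) < volume {y | a < f y} := by
  constructor
  · intro h
    rcases eq_empty_or_nonempty
      {a : ℝ | 0 ≤ a ∧ ENNReal.ofReal (2 * |x|) < volume {y | a < f y}} with he | hne
    · rw [sdr, he, Real.sSup_empty] at h
      linarith
    · obtain ⟨b, hb, hab⟩ := exists_lt_of_lt_csSup hne h
      exact hb.2.trans_le (measure_mono fun y (hy : b < f y) => hab.trans hy)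
  · intro h
    have hU : {y | a < f y} = ⋃ n : ℕ, {y | a + 1 / ((n : ℝ) + 1) < f y} := by
      ext y
      simp only [mem_ofPred_eq, mem_iUnion]
      constructor
      · intro hy
        obtain ⟨n, hn⟩ := exists_nat_one_div_lt (sub_pos.mpr hy)
        exact ⟨n, by linarith⟩
      · rintro ⟨n, hn⟩
        have : (0 : ℝ) < 1 / ((n : ℝ) + 1) := by positivity
        linarith
    have hm : Monotone fun n : ℕ => {y | a + 1 / ((n : ℝ) + 1) < f y} := by
      intro m n hmn y hy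
      have h1 : (1 : ℝ) / ((n : ℝ) + 1) ≤ 1 / ((m : ℝ) + 1) := Nat.one_div_le_one_div hmn
      simp only [mem_ofPred_eq] at hy ⊢
      linarith
    rw [hU, hm.measure_iUnion, lt_iSup_iff] at h
    obtain ⟨n, hn⟩ := h
    have hp : (0 : ℝ) < 1 / ((n : ℝ) + 1) := by positivity
    have : a + 1 / ((n : ℝ) + 1) ≤ sdr f x :=
      le_csSup (clstara_bdd hf x) ⟨by linarith, hn⟩
    linarith

theorem sdr_nonneg (f : ℝ → ℝ) (x : ℝ) : 0 ≤ sdr f x :=
  Real.sSup_nonneg fun _ ha => ha.1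

theorem sdr_neg (f : ℝ → ℝ) (x : ℝ) : sdr f (-x) = sdr f x := by
  simp only [sdr, abs_neg]

theorem dec_sdr (hf : B1 R f) : Dec (sdr f) := by
  intro x y hxy
  by_contra h
  have h1 := (lt_sdr_iff hf (sdr_nonneg f x) y).mp (not_le.mp h)
  have h2 : ENNReal.ofReal (2 * |x|) ≤ ENNReal.ofReal (2 * |y|) :=
    ENNReal.ofReal_le_ofReal (by linarith)
  exact lt_irrefl _ ((lt_sdr_iff hf (sdr_nonneg f x) x).mpr (h2.trans_lt h1))

theorem sdr_supp (hf : B1 R f) {x : ℝ} (hx : R ≤ |x|) : sdr f x = 0 := by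
  refine le_antisymm (not_lt.mp fun h => ?_) (sdr_nonneg f x)
  have h1 := ((lt_sdr_iff hf le_rfl x).mp h).trans_le (clstara_vol hf le_rfl)
  have h2 : ENNReal.ofReal (2 * R) ≤ ENNReal.ofReal (2 * |x|) :=
    ENNReal.ofReal_le_ofReal (by linarith)
  exact lt_irrefl _ (h1.trans_le h2)

theorem sdr_level (hf : B1 R f) {a : ℝ} (ha : 0 ≤ a) :
    ∃ ρ : ℝ, 0 ≤ ρ ∧ volume {y | a < f y} = ENNReal.ofReal (2 * ρ) ∧
      {x | a < sdr f x} = Ioo (-ρ) ρ := by
  have hfin : volume {y | a < f y} ≠ ⊤ :=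
    ((clstara_vol hf ha).trans_lt ENNReal.ofReal_lt_top).ne
  have hv : volume {y | a < f y} =
      ENNReal.ofReal (2 * ((volume {y | a < f y}).toReal / 2)) := by
    rw [mul_div_cancel₀ _ (two_ne_zero), ENNReal.ofReal_toReal hfin]
  refine ⟨(volume {y | a < f y}).toReal / 2, by positivity, hv, ?_⟩
  ext x
  rw [mem_ofPred_eq, lt_sdr_iff hf ha, mem_Ioo, ← abs_lt,
    ENNReal.ofReal_lt_iff_lt_toReal (by positivity) hfin]
  constructor <;> intro h <;> linarith

theorem measurable_sdr (hf : B1 R f) : Measurable (sdr f) := by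
  refine measurable_of_Ioi fun a => ?_
  rcases lt_or_ge a 0 with ha | ha
  · have : sdr f ⁻¹' Ioi a = univ :=
      eq_univ_of_forall fun x => ha.trans_le (sdr_nonneg f x)
    rw [this]
    exact MeasurableSet.univ
  · obtain ⟨ρ, -, -, h⟩ := sdr_level hf ha
    have : sdr f ⁻¹' Ioi a = Ioo (-ρ) ρ := h
    rw [this]
    exact measurableSet_Ioo

theorem sdr_le_add (hf : B1 R f) (hg : B1 R g) {c : ℝ} (hc : 0 ≤ c) (h : ∀ y, f y ≤ g y + c)
    (x : ℝ) : sdr f x ≤ sdr g x + c := by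
  by_contra hh
  have h0 := sdr_nonneg g x
  have h1 := (lt_sdr_iff hf (add_nonneg h0 hc) x).mp (not_le.mp hh)
  have h2 : volume {y | sdr g x + c < f y} ≤ volume {y | sdr g x < g y} :=
    measure_mono fun y hy => by
      have := h y
      simp only [mem_ofPred_eq] at hy ⊢
      linarith
  exact lt_irrefl _ ((lt_sdr_iff hg h0 x).mpr (h1.trans_le h2))

theorem exists_sdr_le (hf : B1 R f) (x : ℝ) : ∃ y, sdr f x ≤ f y := by
  obtain ⟨y, hy⟩ := clstara_max hf
  refine ⟨y, not_lt.mp fun h => ?_⟩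
  obtain ⟨z, hz⟩ := nonempty_of_measure_ne_zero
    (ne_zero_of_lt ((lt_sdr_iff hf (hf.nn y) x).mp h))
  exact lt_irrefl _ (lt_of_lt_of_le hz (hy z))

theorem lev_sdr (hf : B1 R f) : Lev f (sdr f) := by
  intro a ha
  obtain ⟨ρ, h0, h1, h2⟩ := sdr_level hf ha.le
  exact ⟨ρ, h0, h1.le, h2.ge⟩

theorem lev_sdr_sq (hf : B1 R f) : Lev (fun x => f x ^ 2) (fun x => sdr f x ^ 2) := by
  intro a ha
  obtain ⟨ρ, h0, h1, h2⟩ := sdr_level hf (Real.sqrt_nonneg a)
  have key : ∀ t : ℝ, 0 ≤ t → (a < t ^ 2 ↔ √a < t) := fun t ht => by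
    rw [← Real.sqrt_lt_sqrt_iff ha.le, Real.sqrt_sq ht]
  refine ⟨ρ, h0, ?_, ?_⟩
  · rw [← h1]
    exact measure_mono fun x hx => (key _ (hf.nn x)).mp hx
  · rw [← h2]
    exact fun x hx => (key _ (sdr_nonneg f x)).mpr hx

end Pool.Agent.PSF.CL
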