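import Pool.Agent.P.MP_7b7370_an.CLStarA
import Pool.Agent.P.MP_7b7370_an.CLBath

/-! Rearrangement contracts the quadratic distance. -/

set_option autoImplicit false

namespace Pool.Agent.PSF.CL

open Real Set MeasureTheory Filter Topology
open scoped ENNReal NNReal

variable {R : ℝ} {f g : ℝ → ℝ}

theorem clstarb_set {a : ℝ → ℝ} (ha : ∀ x, 0 ≤ a x) {t : ℝ} (ht : 0 ≤ t) :
    {x | t < a x ^ 2} = {x | √t < a x} := by
  ext x
  simp only [mem_setOf_eq]
  rw [← Real.sqrt_lt_sqrt_iff ht, Real.sqrt_sq (ha x)]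

theorem clstarb_vol (ρ : ℝ) : volume (Ioo (-ρ) ρ) = ENNReal.ofReal (2 * ρ) := by
  rw [Real.volume_Ioo]; congr 1; ring

theorem clstarb_id {a b : ℝ → ℝ} (ha : Measurable a) (hb : Measurable b) (ha0 : ∀ x, 0 ≤ a x)
    (hb0 : ∀ x, 0 ≤ b x) :
    (∫⁻ x, ENNReal.ofReal ((a x - b x) ^ 2)) +
        2 * ∫⁻ x, ENNReal.ofReal (b x) * ENNReal.ofReal (a x) =
      (∫⁻ x, ENNReal.ofReal (a x ^ 2)) + ∫⁻ x, ENNReal.ofReal (b x ^ 2) := by
  rw [← lintegral_const_mul _ (by fun_prop), ← lintegral_add_left (by fun_prop),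
    ← lintegral_add_left (by fun_prop)]
  refine lintegral_congr fun x => ?_
  have h1 := ha0 x
  have h2 := hb0 x
  rw [← ENNReal.ofReal_mul h2, ← ENNReal.ofReal_ofNat 2, ← ENNReal.ofReal_mul (by norm_num),
    ← ENNReal.ofReal_add (by positivity) (by positivity),
    ← ENNReal.ofReal_add (by positivity) (by positivity)]
  congr 1; ring

theorem clstarb_fin (hf : B1 R f) : ∫⁻ x, ENNReal.ofReal (f x ^ 2) ≠ ∞ := by
  have hs : HasCompactSupport fun x => f x ^ 2 := by
    refine HasCompactSupport.intro (isCompact_Icc (a := -R) (b := R)) fun x hx => ?_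
    have : R ≤ |x| := by
      by_contra h
      exact hx (abs_le.1 (not_le.1 h).le)
    rw [hf.supp x this]; norm_num
  exact ((hf.cont.pow 2).integrable_of_hasCompactSupport hs).lintegral_lt_top.ne

theorem lint_sdr_sq (hf : B1 R f) :
    ∫⁻ x, ENNReal.ofReal (sdr f x ^ 2) = ∫⁻ x, ENNReal.ofReal (f x ^ 2) := by
  rw [lintegral_eq_lintegral_meas_lt _ (Eventually.of_forall fun x => sq_nonneg (sdr f x))
      ((measurable_sdr hf).pow_const 2).aemeasurable,
    lintegral_eq_lintegral_meas_lt _ (Eventually.of_forall fun x => sq_nonneg (f x))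
      (hf.cont.measurable.pow_const 2).aemeasurable]
  refine setLIntegral_congr_fun measurableSet_Ioi fun t ht => ?_
  have ht' : (0 : ℝ) ≤ t := le_of_lt ht
  obtain ⟨ρ, -, h1, h2⟩ := sdr_level hf (Real.sqrt_nonneg t)
  rw [clstarb_set (sdr_nonneg f) ht', clstarb_set hf.nn ht', h1, h2, clstarb_vol]

theorem maj_sdr (hg : B1 R g) :
    Maj 1 (fun x => ENNReal.ofReal (g x)) 1 (fun x => ENNReal.ofReal (sdr g x)) := by
  intro E l hE hl hv
  rw [one_mul, one_mul,
    lintegral_eq_lintegral_meas_lt _ (Eventually.of_forall hg.nn) hg.cont.measurable.aemeasurable,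
    lintegral_eq_lintegral_meas_lt _ (Eventually.of_forall (sdr_nonneg g))
      (measurable_sdr hg).aemeasurable]
  refine setLIntegral_mono' measurableSet_Ioi fun t ht => ?_
  obtain ⟨ρ, -, h1, h2⟩ := sdr_level hg (le_of_lt ht)
  rw [h2, Measure.restrict_apply measurableSet_Ioo]
  rcases le_total ρ l with h | h
  · rw [inter_eq_left.2 (Ioo_subset_Ioo (neg_le_neg h) h), clstarb_vol, ← h1]
    exact Measure.restrict_apply_le _ _
  · rw [inter_eq_right.2 (Ioo_subset_Ioo (neg_le_neg h) h), clstarb_vol]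
    refine le_trans (measure_mono (subset_univ _)) ?_
    rwa [Measure.restrict_apply_univ]

theorem lint_sdr_sub_sq (hf : B1 R f) (hg : B1 R g) :
    ∫⁻ x, ENNReal.ofReal ((sdr f x - sdr g x) ^ 2) ≤ ∫⁻ x, ENNReal.ofReal ((f x - g x) ^ 2) := by
  have h1 := clstarb_id (measurable_sdr hf) (measurable_sdr hg) (sdr_nonneg f) (sdr_nonneg g)
  have h2 := clstarb_id hf.cont.measurable hg.cont.measurable hf.nn hg.nn
  rw [lint_sdr_sq hf, lint_sdr_sq hg, ← h2] at h1
  have h3 := (maj_sdr hg).lint hg.cont.measurable.ennreal_ofReal (measurable_sdr hg).ennreal_ofReal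
    hf.cont.measurable (measurable_sdr hf) hf.nn (sdr_nonneg f) (lev_sdr hf)
  rw [one_mul, one_mul] at h3
  have h4 : 2 * ∫⁻ x, ENNReal.ofReal (g x) * ENNReal.ofReal (f x) ≠ ∞ := by
    refine ne_top_of_le_ne_top (ENNReal.add_ne_top.2 ⟨clstarb_fin hf, clstarb_fin hg⟩) ?_
    rw [← h2]
    exact le_add_self
  refine ENNReal.le_of_add_le_add_right h4 ?_
  rw [← h1]
  gcongr

end Pool.Agent.PSF.CL
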