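import Pool.Agent.P.MP_7b7370_an.PolarA

/-! Auxiliary facts for the choice of the centre. -/

set_option autoImplicit false

namespace Pool.Agent.PSz.Cen

open Real Set MeasureTheory intervalIntegral

noncomputable def qf (ρ : ℝ) (x z : ℂ) : ℝ := ρ ^ 2 - Complex.normSq (z - x)
noncomputable def psi (ρ : ℝ) (x z : ℂ) : ℝ := max (qf ρ x z) 0

lemma cont_qf (ρ : ℝ) (x : ℂ) : Continuous (qf ρ x) := by
  unfold qf
  exact continuous_const.sub (Complex.continuous_normSq.comp (continuous_id.sub continuous_const))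

lemma cont_psi (ρ : ℝ) (x : ℂ) : Continuous (psi ρ x) := (cont_qf ρ x).max continuous_const

lemma cont_psi' (ρ : ℝ) (z : ℂ) : Continuous fun x => psi ρ x z := by
  unfold psi qf
  exact (continuous_const.sub (Complex.continuous_normSq.comp
    (continuous_const.sub continuous_id))).max continuous_const

lemma psi_nonneg (ρ : ℝ) (x z : ℂ) : 0 ≤ psi ρ x z := le_max_right _ _

lemma norm_psi_le (ρ : ℝ) (x z : ℂ) : ‖psi ρ x z‖ ≤ ρ ^ 2 := by
  rw [Real.norm_eq_abs, abs_of_nonneg (psi_nonneg _ _ _)]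
  exact max_le (by unfold qf; linarith [Complex.normSq_nonneg (z - x)]) (sq_nonneg _)

lemma psi_eq {ρ : ℝ} {x z : ℂ} (h : ‖z - x‖ ≤ ρ) : psi ρ x z = qf ρ x z := by
  refine max_eq_left ?_
  unfold qf
  rw [Complex.normSq_eq_norm_sq]
  nlinarith [norm_nonneg (z - x)]

lemma psi_zero {ρ : ℝ} (hρ : 0 ≤ ρ) {x z : ℂ} (h : ρ ≤ ‖z - x‖) : psi ρ x z = 0 := by
  refine max_eq_right ?_
  unfold qf
  rw [Complex.normSq_eq_norm_sq]
  nlinarith

lemma int_psi (ρ : ℝ) (x : ℂ) {S : Set ℂ} (hS : volume S ≠ ⊤) : IntegrableOn (psi ρ x) S :=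
  Measure.integrableOn_of_bounded hS (cont_psi ρ x).aestronglyMeasurable
    (Filter.Eventually.of_forall fun z => norm_psi_le ρ x z)

lemma int_psi_le (ρ : ℝ) (x : ℂ) {S : Set ℂ} (hS : volume S ≠ ⊤) :
    ∫ z in S, psi ρ x z ≤ ρ ^ 2 * volume.real S :=
  (le_abs_self _).trans (norm_setIntegral_le_of_norm_le_const hS.lt_top fun z _ => norm_psi_le ρ x z)

lemma vol_ball (x : ℂ) {r : ℝ} (hr : 0 ≤ r) : volume.real (Metric.ball x r) = π * r ^ 2 := by
  rw [Measure.real, Complex.volume_ball]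
  simp [hr, mul_comm]

lemma shift (ρ : ℝ) (x v : ℂ) {A : Set ℂ} {y : ℂ} {R : ℝ} (hA : A ⊆ Metric.ball y R) :
    ∫ z in A, qf ρ (x + v) z = (∫ z in A, qf ρ x z)
      + 2 * (v.re * (∫ z in A, (z - x)).re + v.im * (∫ z in A, (z - x)).im)
      - Complex.normSq v * volume.real A := by
  have hfin : volume A ≠ ⊤ := ne_top_of_le_ne_top measure_ball_lt_top.ne (measure_mono hA)
  have h0 : IntegrableOn (fun z : ℂ => z - x) A :=
    (Pol.integrableOn_ball (by fun_prop) y R).mono_set hA
  have h1 : IntegrableOn (qf ρ x) A := (Pol.integrableOn_ball (cont_qf ρ x) y R).mono_set hA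
  have h2 : IntegrableOn (fun z : ℂ => 2 * (v.re * (z - x).re + v.im * (z - x).im)) A :=
    (Pol.integrableOn_ball (by fun_prop) y R).mono_set hA
  have h3 : IntegrableOn (fun z : ℂ => v.re * (z - x).re) A :=
    (Pol.integrableOn_ball (by fun_prop) y R).mono_set hA
  have h4 : IntegrableOn (fun z : ℂ => v.im * (z - x).im) A :=
    (Pol.integrableOn_ball (by fun_prop) y R).mono_set hA
  have h5 : IntegrableOn (fun z : ℂ => qf ρ x z + 2 * (v.re * (z - x).re + v.im * (z - x).im)) A :=
    h1.add h2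
  have e : qf ρ (x + v) = fun z =>
      (qf ρ x z + 2 * (v.re * (z - x).re + v.im * (z - x).im)) - Complex.normSq v := by
    funext z
    simp only [qf, Complex.normSq_apply, Complex.sub_re, Complex.sub_im, Complex.add_re,
      Complex.add_im]
    ring
  have e1 : ∫ z in A, (z - x).re = (∫ z in A, (z - x)).re := integral_re h0
  have e2 : ∫ z in A, (z - x).im = (∫ z in A, (z - x)).im := integral_im h0
  rw [e, MeasureTheory.integral_sub h5 (integrableOn_const hfin),
    MeasureTheory.integral_add h1 h2, MeasureTheory.integral_const_mul,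
    MeasureTheory.integral_add h3 h4, MeasureTheory.integral_const_mul,
    MeasureTheory.integral_const_mul, e1, e2, setIntegral_const, smul_eq_mul]
  ring

lemma ball_moment (x : ℂ) (r : ℝ) : ∫ z in Metric.ball x r, (z - x) = 0 := by
  rw [← MeasureTheory.integral_indicator measurableSet_ball]
  have h := integral_sub_left_eq_self ((Metric.ball x r).indicator fun z => z - x) volume (2 * x)
  have e : ∀ z, (Metric.ball x r).indicator (fun z => z - x) (2 * x - z)
      = -(Metric.ball x r).indicator (fun z => z - x) z := by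
    intro z
    have hd : 2 * x - z ∈ Metric.ball x r ↔ z ∈ Metric.ball x r := by
      rw [mem_ball_iff_norm, mem_ball_iff_norm, show 2 * x - z - x = -(z - x) by ring, norm_neg]
    by_cases hz : z ∈ Metric.ball x r
    · rw [indicator_of_mem hz, indicator_of_mem (hd.2 hz)]; ring
    · rw [indicator_of_notMem hz, indicator_of_notMem fun h => hz (hd.1 h), neg_zero]
  simp only [e, MeasureTheory.integral_neg] at h
  linear_combination (-1 / 2 : ℂ) * h

/-- interval integrability of a cut-off ray integrand -/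
lemma ii_ind {Ω : Set ℂ} (hΩ : MeasurableSet Ω) {F : ℂ → ℝ} (hF : Continuous F) (φ a b : ℝ) :
    IntervalIntegrable (fun r => Ω.indicator F (pol r φ) * r) volume a b := by
  have hc : Continuous fun r : ℝ => pol r φ := by fun_prop
  have e : (fun r => Ω.indicator F (pol r φ) * r)
      = ((fun r : ℝ => pol r φ) ⁻¹' Ω).indicator fun r => F (pol r φ) * r := by
    funext r
    by_cases h : pol r φ ∈ Ω
    · rw [indicator_of_mem h, indicator_of_mem (by exact h)]
    · rw [indicator_of_notMem h, indicator_of_notMem (by exact h), zero_mul]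
  have h := ((hF.comp hc).mul continuous_id).intervalIntegrable (μ := volume) a b
  rw [e]
  exact ⟨h.1.indicator (hc.measurable hΩ), h.2.indicator (hc.measurable hΩ)⟩

lemma ray_part {Ω : Set ℂ} (F : ℂ → ℝ) {φ R : ℝ} (hR : 0 ≤ R)
    (hin : ∀ r, 0 ≤ r → r < R → pol r φ ∈ Ω) :
    ∫ r in (0 : ℝ)..R, Ω.indicator F (pol r φ) * r = ∫ r in (0 : ℝ)..R, F (pol r φ) * r := by
  rw [integral_of_le hR, integral_of_le hR, integral_Ioc_eq_integral_Ioo,
    integral_Ioc_eq_integral_Ioo]
  exact setIntegral_congr_fun measurableSet_Ioo fun r hr => by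
    simp only [indicator_of_mem (hin r hr.1.le hr.2)]

/-- the pointwise estimate on one ray -/
lemma ray_est {Ω : Set ℂ} (hΩ : MeasurableSet Ω) {L : ℂ → ℝ} (hL : Continuous L) {c φ R ρ : ℝ}
    (hc : |c| ≤ 1) (hLc : ∀ r, L (pol r φ) = r * c) (hR : 0 ≤ R) (hRρ : R ≤ ρ)
    (hin : ∀ r, 0 ≤ r → r < R → pol r φ ∈ Ω) :
    |R ^ 3 * c - 3 * ∫ r in (0 : ℝ)..ρ, Ω.indicator L (pol r φ) * r|
      ≤ 3 * ρ * ((∫ r in (0 : ℝ)..ρ, Ω.indicator (fun _ => (1 : ℝ)) (pol r φ) * r) - R ^ 2 / 2) := by
  rw [← integral_add_adjacent_intervals (ii_ind hΩ hL φ 0 R) (ii_ind hΩ hL φ R ρ),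
    ← integral_add_adjacent_intervals (ii_ind hΩ continuous_const φ 0 R)
      (ii_ind hΩ continuous_const φ R ρ), ray_part _ hR hin, ray_part _ hR hin]
  have e1 : ∫ r in (0 : ℝ)..R, L (pol r φ) * r = c * (R ^ 3 / 3) := by
    have : (fun r : ℝ => L (pol r φ) * r) = fun r => c * r ^ 2 := by
      funext r; rw [hLc]; ring
    rw [this, intervalIntegral.integral_const_mul, integral_pow]
    norm_num
  have e2 : ∫ r in (0 : ℝ)..R, (1 : ℝ) * r = R ^ 2 / 2 := by simp
  rw [e1, e2]
  have h : ‖∫ r in R..ρ, Ω.indicator L (pol r φ) * r‖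
      ≤ ∫ r in R..ρ, ρ * (Ω.indicator (fun _ => (1 : ℝ)) (pol r φ) * r) := by
    refine norm_integral_le_of_norm_le hRρ (Filter.Eventually.of_forall fun r hr => ?_)
      ((ii_ind hΩ continuous_const φ R ρ).const_mul ρ)
    have h0 : 0 ≤ r := hR.trans hr.1.le
    by_cases h : pol r φ ∈ Ω
    · rw [indicator_of_mem h, indicator_of_mem h, hLc, Real.norm_eq_abs, abs_mul, abs_mul,
        abs_of_nonneg h0]
      have : r * |c| ≤ ρ := by nlinarith [hr.2, abs_nonneg c]
      nlinarith
    · simp [indicator_of_notMem h]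
  rw [intervalIntegral.integral_const_mul, Real.norm_eq_abs] at h
  have := abs_le.1 h
  rw [abs_le]
  constructor <;> linarith

end Pool.Agent.PSz.Cen
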