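import Pool.Agent.P.MP_7b7370_an.SDefs
import Pool.Agent.P.MP_7b7370_an.CenterA

set_option autoImplicit false

namespace Pool.Agent.PSz

open Real Set MeasureTheory intervalIntegral

/-- paper 5.1 -/
theorem center {ε δ : ℝ} (hε : 0 < ε) (hδ : 0 < δ) : ∃ δ' > 0, ∀ (Ω : Set ℂ) (x1 : ℂ),
    MeasurableSet Ω → volume Ω ≤ ENNReal.ofReal π →
    volume (Metric.ball x1 1 \ Ω) ≤ ENNReal.ofReal δ' →
    ∃ x0 : ℂ, volume (Metric.ball x0 1 \ Ω) ≤ ENNReal.ofReal δ ∧
      ∫ z in Ω ∩ Metric.ball x0 (1 + ε), (z - x0) = 0 := by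
  set ρ := 1 + ε with hρ
  have hρ0 : 0 < ρ := by positivity
  set e := min (min ε 1) (δ / 24) with he
  have he0 : 0 < e := by positivity
  have he1 : e ≤ ε := (min_le_left _ _).trans (min_le_left _ _)
  have he2 : e ≤ 1 := (min_le_left _ _).trans (min_le_right _ _)
  have he3 : e ≤ δ / 24 := min_le_right _ _
  set d := min (δ / 2) (e ^ 2 / (4 * ρ ^ 2)) with hd
  have hd0 : 0 < d := by positivity
  have hd1 : d ≤ δ / 2 := min_le_left _ _
  have hd2 : d * (4 * ρ ^ 2) ≤ e ^ 2 := (le_div_iff₀ (by positivity)).1 (min_le_right _ _)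
  refine ⟨d, hd0, fun Ω x1 hΩ hv hB => ?_⟩
  set B := Metric.ball x1 1 with hBdef
  have hBm : MeasurableSet B := measurableSet_ball
  have hfin : volume Ω ≠ ⊤ := ne_top_of_le_ne_top ENNReal.ofReal_ne_top hv
  have hfinB : volume B ≠ ⊤ := measure_ball_lt_top.ne
  have sub_fin : ∀ {S T : Set ℂ}, volume T ≠ ⊤ → S ⊆ T → volume S ≠ ⊤ := fun h h' =>
    ne_top_of_le_ne_top h (measure_mono h')
  have vΩ : volume.real Ω ≤ π := ENNReal.toReal_le_of_le_ofReal pi_pos.le hv
  have vB : volume.real B = π := by rw [hBdef, Cen.vol_ball _ zero_le_one]; ring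
  have v1 : volume.real (B \ Ω) ≤ d := ENNReal.toReal_le_of_le_ofReal hd0.le hB
  have v2 : volume.real (Ω \ B) ≤ d := by
    have h1 := measureReal_inter_add_sdiff (μ := volume) (s := Ω) hBm hfin
    have h2 := measureReal_inter_add_sdiff (μ := volume) (s := B) hΩ hfinB
    rw [inter_comm] at h2
    linarith
  set U : ℂ → ℝ := fun x => ∫ z in Ω, Cen.psi ρ x z with hU
  have hUc : Continuous U :=
    continuous_of_dominated (bound := fun _ => ρ ^ 2)
      (fun x => (Cen.cont_psi ρ x).aestronglyMeasurable)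
      (fun x => Filter.Eventually.of_forall fun z => Cen.norm_psi_le ρ x z)
      (integrableOn_const hfin) (Filter.Eventually.of_forall fun z => Cen.cont_psi' ρ z)
  obtain ⟨x0, hx0, hmax⟩ := (isCompact_closedBall x1 e).exists_isMaxOn
    ⟨x1, Metric.mem_closedBall_self he0.le⟩ hUc.continuousOn
  have hx0' : ‖x0 - x1‖ ≤ e := mem_closedBall_iff_norm.1 hx0
  have eB : ∀ x, ‖x - x1‖ ≤ e → ∫ z in B, Cen.psi ρ x z = ∫ z in B, Cen.qf ρ x z := by
    intro x hx
    refine setIntegral_congr_fun hBm fun z hz => Cen.psi_eq ?_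
    have h1 : ‖z - x1‖ < 1 := mem_ball_iff_norm.1 hz
    have h2 := norm_sub_le (z - x1) (x - x1)
    rw [sub_sub_sub_cancel_right] at h2
    linarith
  have up : U x0 ≤ (∫ z in B, Cen.qf ρ x0 z) + ρ ^ 2 * d := by
    have h1 := integral_inter_add_sdiff (μ := volume) hBm (Cen.int_psi ρ x0 hfin)
    have h2 := Cen.int_psi_le ρ x0 (sub_fin hfin (sdiff_subset (s := Ω) (t := B)))
    have h3 : ∫ z in Ω ∩ B, Cen.psi ρ x0 z ≤ ∫ z in B, Cen.psi ρ x0 z :=
      setIntegral_mono_set (Cen.int_psi ρ x0 hfinB)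
        (Filter.Eventually.of_forall fun z => Cen.psi_nonneg _ _ _) inter_subset_right.eventuallyLE
    rw [eB x0 hx0'] at h3
    have h4 : ρ ^ 2 * volume.real (Ω \ B) ≤ ρ ^ 2 * d := by gcongr
    simp only [hU]
    linarith
  have low : (∫ z in B, Cen.qf ρ x1 z) - ρ ^ 2 * d ≤ U x1 := by
    have h1 := integral_inter_add_sdiff (μ := volume) hΩ (Cen.int_psi ρ x1 hfinB)
    have h2 := Cen.int_psi_le ρ x1 (sub_fin hfinB (sdiff_subset (s := B) (t := Ω)))
    have h3 : ∫ z in B ∩ Ω, Cen.psi ρ x1 z ≤ ∫ z in Ω, Cen.psi ρ x1 z :=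
      setIntegral_mono_set (Cen.int_psi ρ x1 hfin)
        (Filter.Eventually.of_forall fun z => Cen.psi_nonneg _ _ _) inter_subset_right.eventuallyLE
    rw [eB x1 (by simpa using he0.le)] at h1
    have h4 : ρ ^ 2 * volume.real (B \ Ω) ≤ ρ ^ 2 * d := by gcongr
    simp only [hU]
    linarith
  have hclose : ‖x0 - x1‖ ≤ e / 2 := by
    have h1 := Cen.shift ρ x1 (x0 - x1) (A := B) Subset.rfl
    rw [add_sub_cancel, hBdef, Cen.ball_moment, ← hBdef, vB, Complex.normSq_eq_norm_sq] at h1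
    have h2 : U x1 ≤ U x0 := hmax (Metric.mem_closedBall_self he0.le)
    simp only [Complex.zero_re, Complex.zero_im, mul_zero, add_zero] at h1
    refine (sq_le_sq₀ (norm_nonneg _) (by positivity)).1 ?_
    nlinarith [pi_gt_three, sq_nonneg ‖x0 - x1‖]
  refine ⟨x0, ?_, ?_⟩
  · have hsub : Metric.ball x0 1 \ Ω ⊆ (B \ Ω) ∪ (Metric.ball x1 (1 + e) \ B) := by
      intro z hz
      by_cases h : z ∈ B
      · exact Or.inl ⟨h, hz.2⟩
      · refine Or.inr ⟨?_, h⟩
        have h1 : ‖z - x0‖ < 1 := mem_ball_iff_norm.1 hz.1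
        have h2 := norm_add_le (z - x0) (x0 - x1)
        rw [sub_add_sub_cancel] at h2
        exact mem_ball_iff_norm.2 (by linarith)
    have hf : volume (Metric.ball x1 (1 + e)) ≠ ⊤ := measure_ball_lt_top.ne
    have h1 : volume.real (Metric.ball x1 (1 + e) \ B) = π * (1 + e) ^ 2 - π := by
      rw [measureReal_sdiff (Metric.ball_subset_ball (by linarith)) hBm hf, vB,
        Cen.vol_ball _ (by linarith)]
    have h2 : volume.real (Metric.ball x0 1 \ Ω) ≤ δ := by
      refine (measureReal_mono hsub (by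
        exact measure_union_ne_top (sub_fin hfinB sdiff_subset) (sub_fin hf sdiff_subset))).trans ?_
      refine (measureReal_union_le _ _).trans ?_
      rw [h1]
      nlinarith [pi_lt_four, pi_pos, mul_pos he0 he0]
    rw [← ENNReal.ofReal_toReal (sub_fin measure_ball_lt_top.ne
      (sdiff_subset (s := Metric.ball x0 1) (t := Ω)))]
    exact ENNReal.ofReal_le_ofReal h2
  · set A := Ω ∩ Metric.ball x0 ρ with hA
    set m := ∫ z in A, (z - x0) with hm
    have hAf : volume A ≠ ⊤ := sub_fin hfin inter_subset_left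
    have vA : volume.real A ≤ π := (measureReal_mono inter_subset_left hfin).trans vΩ
    have e0 : U x0 = ∫ z in A, Cen.qf ρ x0 z := by
      simp only [hU]
      rw [hA, ← setIntegral_indicator measurableSet_ball]
      refine integral_congr_ae (Filter.Eventually.of_forall fun z => ?_)
      by_cases hz : z ∈ Metric.ball x0 ρ
      · simp only [indicator_of_mem hz]
        exact Cen.psi_eq (mem_ball_iff_norm.1 hz).le
      · simp only [indicator_of_notMem hz]
        exact Cen.psi_zero hρ0.le (not_lt.1 fun h => hz (mem_ball_iff_norm.2 h))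
    have e1 : ∀ y, ∫ z in A, Cen.qf ρ y z ≤ U y := by
      intro y
      calc _ ≤ ∫ z in A, Cen.psi ρ y z :=
            integral_mono ((Pol.integrableOn_ball (Cen.cont_qf ρ y) x0 ρ).mono_set
              inter_subset_right) (Cen.int_psi ρ y hAf) fun z => le_max_left _ _
        _ ≤ _ := setIntegral_mono_set (Cen.int_psi ρ y hfin)
            (Filter.Eventually.of_forall fun z => Cen.psi_nonneg _ _ _)
            inter_subset_left.eventuallyLE
    set s := min (1 / 4) (e / (2 * (‖m‖ + 1))) with hs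
    have hs0 : 0 < s := by positivity
    have hs1 : s ≤ 1 / 4 := min_le_left _ _
    have hs2 : s * (2 * (‖m‖ + 1)) ≤ e := (le_div_iff₀ (by positivity)).1 (min_le_right _ _)
    have hmem : x0 + s • m ∈ Metric.closedBall x1 e := by
      rw [mem_closedBall_iff_norm]
      have h2 := norm_add_le (x0 - x1) (s • m)
      rw [norm_smul, Real.norm_eq_abs, abs_of_pos hs0] at h2
      rw [show x0 + s • m - x1 = x0 - x1 + s • m by ring]
      nlinarith
    have h1 := Cen.shift ρ x0 (s • m) (A := A) inter_subset_right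
    have h2 : U (x0 + s • m) ≤ U x0 := hmax hmem
    have h3 := e1 (x0 + s • m)
    rw [← hm] at h1
    simp only [Complex.normSq_apply, Complex.smul_re, Complex.smul_im, smul_eq_mul] at h1
    have h4 : 0 ≤ m.re * m.re + m.im * m.im := by nlinarith
    have h5 : s * (s * volume.real A * (m.re * m.re + m.im * m.im)) ≥
        s * (2 * (m.re * m.re + m.im * m.im)) := by linarith
    have h6 := le_of_mul_le_mul_left h5 hs0
    have h7 : s * volume.real A ≤ 1 := by
      nlinarith [pi_lt_four, measureReal_nonneg (μ := volume) (s := A)]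
    have h8 : Complex.normSq m = 0 := by
      rw [Complex.normSq_apply]
      nlinarith
    exact Complex.normSq_eq_zero.1 h8

/-- paper 5.2 -/
theorem moment (N : ℕ) (θ : ℕ → ℝ) (hθ : Monotone θ) (h0 : θ 0 = -π) (hN : θ N = π)
    {ρ : ℝ} (R : ℕ → ℝ → ℝ) (hRc : ∀ k, Continuous (R k)) (hR : ∀ k φ, 0 ≤ R k φ ∧ R k φ ≤ ρ)
    {Ω : Set ℂ} (hΩ : MeasurableSet Ω) (hv : volume Ω ≤ ENNReal.ofReal π)
    (hin : ∀ k < N, ∀ φ ∈ Ioo (θ k) (θ (k + 1)), ∀ r, 0 ≤ r → r < R k φ → pol r φ ∈ Ω)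
    (hc : ∫ z in Ω ∩ Metric.ball (0 : ℂ) ρ, z = 0) :
    ∑ k ∈ Finset.range N, ∫ φ in (θ k)..(θ (k + 1)), R k φ ^ 2 / 2 ≤ π ∧
    |∑ k ∈ Finset.range N, ∫ φ in (θ k)..(θ (k + 1)), R k φ ^ 3 * cos φ|
      ≤ 3 * ρ * (π - ∑ k ∈ Finset.range N, ∫ φ in (θ k)..(θ (k + 1)), R k φ ^ 2 / 2) ∧
    |∑ k ∈ Finset.range N, ∫ φ in (θ k)..(θ (k + 1)), R k φ ^ 3 * sin φ|
      ≤ 3 * ρ * (π - ∑ k ∈ Finset.range N, ∫ φ in (θ k)..(θ (k + 1)), R k φ ^ 2 / 2) := by
  have hρ : 0 ≤ ρ := (hR 0 0).1.trans (hR 0 0).2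
  have hfin : volume Ω ≠ ⊤ := ne_top_of_le_ne_top ENNReal.ofReal_ne_top hv
  have hsub : ∀ k < N, uIcc (θ k) (θ (k + 1)) ⊆ uIcc (-π) π := by
    intro k hk
    rw [uIcc_of_le (hθ (Nat.le_succ k)), uIcc_of_le (by linarith [pi_pos])]
    exact Icc_subset_Icc (h0 ▸ hθ (Nat.zero_le k)) (hN ▸ hθ hk)
  have gen : ∀ {F : ℂ → ℝ}, Continuous F →
      (∀ k < N, IntervalIntegrable (fun φ => ∫ r in (0 : ℝ)..ρ, Ω.indicator F (pol r φ) * r)
        volume (θ k) (θ (k + 1))) ∧
      ∑ k ∈ Finset.range N, (∫ φ in (θ k)..(θ (k + 1)),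
        ∫ r in (0 : ℝ)..ρ, Ω.indicator F (pol r φ) * r) = ∫ z in Ω ∩ Metric.ball 0 ρ, F z := by
    intro F hF
    have hi : IntegrableOn (Ω.indicator F) (Metric.ball 0 ρ) :=
      (Pol.integrableOn_ball hF 0 ρ).indicator hΩ
    have h1 := fun k (hk : k < N) => (Pol.ii_ball (hF.measurable.indicator hΩ) hρ hi).mono_set
      (hsub k hk)
    refine ⟨h1, ?_⟩
    rw [sum_integral_adjacent_intervals h1, h0, hN,
      ← Pol.integral_ball' (hF.measurable.indicator hΩ) hρ hi, setIntegral_indicator hΩ, inter_comm]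
  obtain ⟨a1, a2⟩ := gen (F := fun _ => 1) continuous_const
  have a3 : ∫ _z in Ω ∩ Metric.ball (0 : ℂ) ρ, (1 : ℝ) ≤ π := by
    rw [setIntegral_const, smul_eq_mul, mul_one]
    exact (measureReal_mono inter_subset_left hfin).trans
      (ENNReal.toReal_le_of_le_ofReal pi_pos.le hv)
  have hid : IntegrableOn (fun z : ℂ => z) (Ω ∩ Metric.ball 0 ρ) :=
    (Pol.integrableOn_ball continuous_id 0 ρ).mono_set inter_subset_right
  have r2 : ∀ k, IntervalIntegrable (fun φ => R k φ ^ 2 / 2) volume (θ k) (θ (k + 1)) := fun k =>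
    (((hRc k).pow 2).div_const 2).intervalIntegrable _ _
  have main : ∀ {L : ℂ → ℝ} {c : ℝ → ℝ}, Continuous L → Continuous c → (∀ φ, |c φ| ≤ 1) →
      (∀ r φ, L (pol r φ) = r * c φ) → ∫ z in Ω ∩ Metric.ball 0 ρ, L z = 0 →
      |∑ k ∈ Finset.range N, ∫ φ in (θ k)..(θ (k + 1)), R k φ ^ 3 * c φ|
        ≤ 3 * ρ * (π - ∑ k ∈ Finset.range N, ∫ φ in (θ k)..(θ (k + 1)), R k φ ^ 2 / 2) := by
    intro L c hL hcc hc1 hLc hz
    obtain ⟨b1, b2⟩ := gen hL
    have r3 : ∀ k, IntervalIntegrable (fun φ => R k φ ^ 3 * c φ) volume (θ k) (θ (k + 1)) :=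
      fun k => (((hRc k).pow 3).mul hcc).intervalIntegrable _ _
    have step : ∀ k ∈ Finset.range N,
        |(∫ φ in (θ k)..(θ (k + 1)), R k φ ^ 3 * c φ) - 3 * ∫ φ in (θ k)..(θ (k + 1)),
          ∫ r in (0 : ℝ)..ρ, Ω.indicator L (pol r φ) * r|
        ≤ 3 * ρ * ((∫ φ in (θ k)..(θ (k + 1)),
          ∫ r in (0 : ℝ)..ρ, Ω.indicator (fun _ => (1 : ℝ)) (pol r φ) * r)
            - ∫ φ in (θ k)..(θ (k + 1)), R k φ ^ 2 / 2) := by
      intro k hk
      rw [Finset.mem_range] at hk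
      have hle : θ k ≤ θ (k + 1) := hθ (Nat.le_succ k)
      rw [← intervalIntegral.integral_const_mul, ← intervalIntegral.integral_sub (r3 k)
        ((b1 k hk).const_mul 3), ← intervalIntegral.integral_sub (a1 k hk) (r2 k),
        ← intervalIntegral.integral_const_mul]
      refine (abs_integral_le_integral_abs hle).trans ?_
      refine integral_mono_on_of_le_Ioo hle ((r3 k).sub ((b1 k hk).const_mul 3)).abs
        (((a1 k hk).sub (r2 k)).const_mul _) fun φ hφ => ?_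
      exact Cen.ray_est hΩ hL (hc1 φ) (fun r => hLc r φ) (hR k φ).1 (hR k φ).2 (hin k hk φ hφ)
    have h1 := (Finset.abs_sum_le_sum_abs _ _).trans (Finset.sum_le_sum step)
    rw [Finset.sum_sub_distrib, ← Finset.mul_sum, b2, hz, mul_zero, sub_zero, ← Finset.mul_sum,
      Finset.sum_sub_distrib, a2] at h1
    refine h1.trans ?_
    gcongr
  refine ⟨?_, main Complex.continuous_re continuous_cos abs_cos_le_one pol_re ?_,
    main Complex.continuous_im continuous_sin abs_sin_le_one pol_im ?_⟩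
  · refine le_trans (Finset.sum_le_sum fun k hk => ?_) (a2.trans_le a3)
    rw [Finset.mem_range] at hk
    refine integral_mono_on_of_le_Ioo (hθ (Nat.le_succ k)) (r2 k) (a1 k hk) fun φ hφ => ?_
    rw [← integral_add_adjacent_intervals (Cen.ii_ind hΩ continuous_const φ 0 (R k φ))
      (Cen.ii_ind hΩ continuous_const φ (R k φ) ρ), Cen.ray_part _ (hR k φ).1 (hin k hk φ hφ)]
    have h1 : 0 ≤ ∫ r in (R k φ)..ρ, Ω.indicator (fun _ => (1 : ℝ)) (pol r φ) * r :=
      intervalIntegral.integral_nonneg (hR k φ).2 fun r hr =>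
        mul_nonneg (indicator_nonneg (fun _ _ => zero_le_one) _) ((hR k φ).1.trans hr.1)
    have e2 : ∫ r in (0 : ℝ)..(R k φ), (1 : ℝ) * r = R k φ ^ 2 / 2 := by simp
    linarith
  · have : ∫ z in Ω ∩ Metric.ball (0 : ℂ) ρ, z.re = (∫ z in Ω ∩ Metric.ball (0 : ℂ) ρ, z).re :=
      integral_re hid
    rw [this, hc, Complex.zero_re]
  · have : ∫ z in Ω ∩ Metric.ball (0 : ℂ) ρ, z.im = (∫ z in Ω ∩ Metric.ball (0 : ℂ) ρ, z).im :=
      integral_im hid
    rw [this, hc, Complex.zero_im]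

end Pool.Agent.PSz
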