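import Pool.Agent.P.MP_7b7370_an.SDefs

set_option autoImplicit false

namespace Pool.Agent.PSz

open Real Set MeasureTheory intervalIntegral

namespace Chg

lemma ell_rec (A B x h : ℝ) : ell A B x - 1 =
    (1 + 2 * cos h) * (ell A B (1 * h + x) - 1) - (1 + 2 * cos h) * (ell A B (2 * h + x) - 1)
      + (ell A B (3 * h + x) - 1) := by
  simp only [ell, one_mul, cos_add, sin_add, cos_two_mul, sin_two_mul, cos_three_mul,
    sin_three_mul]
  linear_combination (4 * sin h * (B * cos x - A * sin x)) * sin_sq_add_cos_sq h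

lemma min_rec {a b c d k ε : ℝ} (hε : 0 ≤ ε) (hk : |k| ≤ 3) (h : a = k * b - k * c + d) :
    min |a| ε ^ 2 ≤ 27 * (min |b| ε ^ 2 + min |c| ε ^ 2 + min |d| ε ^ 2) := by
  have h1 : |a| ≤ 3 * |b| + 3 * |c| + |d| := by
    have e1 := abs_add_le (k * b - k * c) d
    have e2 := abs_sub (k * b) (k * c)
    rw [abs_mul, abs_mul] at e2
    rw [h]
    nlinarith [abs_nonneg b, abs_nonneg c]
  have hb := abs_nonneg b
  have hc := abs_nonneg c
  have hd := abs_nonneg d
  have h0 : 0 ≤ min |a| ε := le_min (abs_nonneg _) hε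
  have h2 : min |a| ε ≤ 3 * min |b| ε + 3 * min |c| ε + 3 * min |d| ε := by
    have := min_le_left |a| ε
    have := min_le_right |a| ε
    rcases min_cases |b| ε with ⟨e1, -⟩ | ⟨e1, -⟩ <;> rcases min_cases |c| ε with ⟨e2, -⟩ | ⟨e2, -⟩ <;>
      rcases min_cases |d| ε with ⟨e3, -⟩ | ⟨e3, -⟩ <;> rw [e1, e2, e3] <;> linarith
  generalize min |a| ε = p at *
  generalize min |b| ε = q at *
  generalize min |c| ε = r at *
  generalize min |d| ε = s at *
  nlinarith [pow_le_pow_left₀ h0 h2 2, sq_nonneg (q - r), sq_nonneg (q - s), sq_nonneg (r - s)]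

lemma min_le_Rp {ε A B θ : ℝ} (hε : 0 < ε) (hε1 : ε ≤ 1 / 100) (h : ell A B θ ≤ 1 / (1 - ε)) :
    min |ell A B θ - 1| ε ^ 2 ≤ 4 * (Rp ε A B θ ^ 2 - 1) ^ 2 := by
  unfold Rp
  have a1 : 1 / (1 - ε) ≤ 3 / 2 := by rw [div_le_iff₀ (by linarith)]; linarith
  have a2 : 1 / (1 + ε) ≤ 1 - ε / 2 := by rw [div_le_iff₀ (by linarith)]; nlinarith
  have a3 : 0 < 1 / (1 + ε) := by positivity
  have h0 : 0 ≤ min |ell A B θ - 1| ε := le_min (abs_nonneg _) hε.le
  have key : ∀ l : ℝ, 0 < l → l ≤ 3 / 2 → (l - 1) ^ 2 ≤ ((1 / l) ^ 2 - 1) ^ 2 := by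
    intro l l0 l1
    have e : (1 / l) ^ 2 - 1 = -((l - 1) * ((1 + l) / l ^ 2)) := by field_simp; ring
    have b : 1 ≤ (1 + l) / l ^ 2 := by rw [le_div_iff₀ (by positivity)]; nlinarith
    rw [e, neg_sq, mul_pow]
    nlinarith [sq_nonneg (l - 1), one_le_pow₀ (n := 2) b]
  rcases max_cases (ell A B θ) (1 / (1 + ε)) with ⟨e, k⟩ | ⟨e, k⟩ <;> rw [e]
  · have := key _ (a3.trans_le k) (h.trans a1)
    have b := pow_le_pow_left₀ h0 (min_le_left _ _) 2
    rw [sq_abs] at b
    nlinarith [sq_nonneg (ell A B θ - 1)]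
  · have := key _ a3 (by linarith)
    have b := pow_le_pow_left₀ h0 (min_le_right _ _) 2
    nlinarith

lemma int_le {G : ℝ → ℝ} (hG : Continuous G) (h0 : ∀ x, 0 ≤ G x) {a b φ s τ : ℝ} (hs : 1 ≤ |s|)
    (h1 : φ ∈ Icc a b) (h2 : s * τ + φ ∈ Icc a b) :
    ∫ h in (0 : ℝ)..τ, G (s * h + φ) ≤ ∫ x in a..b, G x := by
  have hab : a ≤ b := h1.1.trans h1.2
  have hs0 : s ≠ 0 := by rintro rfl; norm_num at hs
  rw [integral_comp_mul_add G hs0, smul_eq_mul, mul_zero, zero_add]
  have hI : 0 ≤ ∫ x in a..b, G x := integral_nonneg hab fun x _ => h0 x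
  have h3 : |∫ x in φ..(s * τ + φ), G x| ≤ |∫ x in a..b, G x| :=
    abs_integral_mono_interval
      (uIoc_subset_uIoc_of_uIcc_subset_uIcc (uIcc_subset_uIcc (by rwa [uIcc_of_le hab])
        (by rwa [uIcc_of_le hab])))
      (Filter.Eventually.of_forall h0) (hG.intervalIntegrable _ _)
  rw [abs_of_nonneg hI] at h3
  refine (le_abs_self _).trans ?_
  rw [abs_mul, abs_inv]
  exact (mul_le_of_le_one_left (abs_nonneg _) (inv_le_one_of_one_le₀ hs)).trans h3

lemma ell_neg (A B x : ℝ) : ell A B (x + π) = -ell A B x := by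
  simp [ell, cos_add_pi, sin_add_pi]; ring

lemma Lm_Li {M D : ℂ} (h : det M D ≠ 0) (z : ℂ) : Lm M D (Li M D z) = z := by
  apply Complex.ext
  · simp only [Lm, Li, Complex.add_re, Complex.smul_re, smul_eq_mul]
    field_simp
    simp only [det]; ring
  · simp only [Lm, Li, Complex.add_im, Complex.smul_im, smul_eq_mul]
    field_simp
    simp only [det]; ring

end Chg

open Chg

/-- paper 7.2 -/
theorem classify : ∃ c > 0, ∀ ε A B θa θb : ℝ, 0 < ε → ε ≤ 1 / 100 → θa < θb →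
    (∀ φ ∈ Icc θa θb, 0 < ell A B φ ∧ ell A B φ ≤ 1 / (1 - ε)) → ∀ φ ∈ Icc θa θb,
    c * (θb - θa) * min |ell A B φ - 1| ε ^ 2 ≤ ∫ ψ in θa..θb, (Rp ε A B ψ ^ 2 - 1) ^ 2 := by
  refine ⟨1 / 1944, by norm_num, fun ε A B θa θb hε hε1 hlt h φ hφ => ?_⟩
  set G : ℝ → ℝ := fun ψ => (Rp ε A B ψ ^ 2 - 1) ^ 2 with hG
  have cG : Continuous G := (((continuous_Rp hε A B).pow 2).sub continuous_const).pow 2
  have G0 : ∀ x, 0 ≤ G x := fun x => sq_nonneg _
  set τ := (θb - θa) / 6 with hτ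
  have τ0 : 0 < τ := by rw [hτ]; linarith
  obtain ⟨σ, hσ, hm⟩ : ∃ σ : ℝ, |σ| = 1 ∧ ∀ x ∈ Icc 0 (3 * τ), σ * x + φ ∈ Icc θa θb := by
    rcases le_total φ ((θa + θb) / 2) with k | k
    · exact ⟨1, abs_one, fun x hx => ⟨by linarith [hx.1, hφ.1], by linarith [hx.2]⟩⟩
    · exact ⟨-1, by simp, fun x hx => ⟨by linarith [hx.2], by linarith [hx.1, hφ.2]⟩⟩
  have hm' : ∀ k : ℝ, 1 ≤ k → k ≤ 3 → ∀ x ∈ Icc 0 τ, k * σ * x + φ ∈ Icc θa θb := by
    intro k k1 k3 x hx
    have := hm (k * x) ⟨by nlinarith [hx.1], by nlinarith [hx.1, hx.2]⟩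
    rwa [show σ * (k * x) = k * σ * x by ring] at this
  have hi : ∀ k : ℝ, 1 ≤ k → k ≤ 3 →
      ∫ x in (0 : ℝ)..τ, G (k * σ * x + φ) ≤ ∫ x in θa..θb, G x := fun k k1 k3 =>
    int_le cG G0 (by rw [abs_mul, hσ, mul_one]; exact k1.trans (le_abs_self _)) hφ
      (hm' k k1 k3 τ ⟨τ0.le, le_rfl⟩)
  have ci : ∀ k : ℝ, IntervalIntegrable (fun x => G (k * σ * x + φ)) volume 0 τ := fun k =>
    (cG.comp (by fun_prop)).intervalIntegrable _ _
  have main : ∫ _x in (0 : ℝ)..τ, min |ell A B φ - 1| ε ^ 2 ≤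
      ∫ x in (0 : ℝ)..τ, 108 * (G (1 * σ * x + φ) + G (2 * σ * x + φ) + G (3 * σ * x + φ)) := by
    refine integral_mono_on τ0.le (by simp) ((((ci 1).add (ci 2)).add (ci 3)).const_mul _)
      fun x hx => ?_
    have a0 := min_rec hε.le (k := 1 + 2 * cos (σ * x))
      (by rw [abs_le]; constructor <;> linarith [cos_le_one (σ * x), neg_one_le_cos (σ * x)])
      (ell_rec A B φ (σ * x))
    have a1 := min_le_Rp hε hε1 (h _ (hm' 1 (by norm_num) (by norm_num) x hx)).2
    have a2 := min_le_Rp hε hε1 (h _ (hm' 2 (by norm_num) (by norm_num) x hx)).2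
    have a3 := min_le_Rp hε hε1 (h _ (hm' 3 (by norm_num) (by norm_num) x hx)).2
    simp only [← mul_assoc] at a0
    simp only [hG]
    linarith
  rw [intervalIntegral.integral_const, intervalIntegral.integral_const_mul,
    integral_add ((ci 1).add (ci 2)) (ci 3), integral_add (ci 1) (ci 2), smul_eq_mul] at main
  have b1 := hi 1 (by norm_num) (by norm_num)
  have b2 := hi 2 (by norm_num) (by norm_num)
  have b3 := hi 3 (by norm_num) (by norm_num)
  have e : 1 / 1944 * (θb - θa) * min |ell A B φ - 1| ε ^ 2 =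
      (τ - 0) * min |ell A B φ - 1| ε ^ 2 / 324 := by rw [hτ]; ring
  rw [e]
  linarith

/-- paper 7.3 -/
theorem exists_tri {A B θa θb : ℝ} (hlt : θa < θb) (hpos : ∀ φ ∈ Icc θa θb, 0 < ell A B φ) :
    ∃ M D η R, Tri θa θb M D η R ∧ ∀ φ ∈ Icc θa θb, R φ = 1 / ell A B φ := by
  have ha : θa ∈ Icc θa θb := left_mem_Icc.2 hlt.le
  have hb : θb ∈ Icc θa θb := right_mem_Icc.2 hlt.le
  have hπ : θb - θa < π := by
    by_contra k
    have h1 := hpos (θa + π) ⟨by linarith [pi_pos], by linarith⟩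
    rw [ell_neg] at h1
    linarith [hpos θa ha]
  have hs : 0 < sin (θb - θa) := sin_pos_of_pos_of_lt_pi (by linarith) hπ
  set z : ℝ → ℂ := fun θ => pol (1 / ell A B θ) θ with hz
  have lz : ∀ θ ∈ Icc θa θb, A * (z θ).re + B * (z θ).im = 1 := fun θ hθ => by
    have := (hpos θ hθ).ne'
    simp only [hz, pol_re, pol_im]
    field_simp
    simp only [ell]
  obtain ⟨M, D, hM, hD⟩ : ∃ M D : ℂ, z θa = M - D ∧ z θb = M + D :=
    ⟨(z θa + z θb) / 2, (z θb - z θa) / 2, by ring, by ring⟩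
  have lM : A * M.re + B * M.im = 1 ∧ A * D.re + B * D.im = 0 := by
    have h1 := lz θa ha
    have h2 := lz θb hb
    rw [hM, Complex.sub_re, Complex.sub_im] at h1
    rw [hD, Complex.add_re, Complex.add_im] at h2
    constructor <;> linarith
  have hA : 0 < det M D := by
    have h1 : det (z θa) (z θb) = 2 * det M D := by rw [hM, hD]; simp [det]; ring
    have h2 : det (z θa) (z θb) = 1 / ell A B θa * (1 / ell A B θb) * sin (θb - θa) := by
      simp only [det, hz, pol_re, pol_im, sin_sub]; ring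
    have := hpos θa ha
    have := hpos θb hb
    have : 0 < det (z θa) (z θb) := by rw [h2]; positivity
    linarith
  set e : ℝ → ℝ := fun θ => det M (z θ) / det M D with he
  have pt : ∀ θ ∈ Icc θa θb, z θ = M + e θ • D := fun θ hθ => by
    have h1 := Lm_Li hA.ne' (z θ)
    have h2 := lz θ hθ
    have h3 : (Li M D (z θ)).1 = 1 := by
      rw [← h1] at h2
      simp only [Lm, Complex.add_re, Complex.add_im, Complex.smul_re, Complex.smul_im,
        smul_eq_mul] at h2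
      linear_combination h2 - (Li M D (z θ)).1 * lM.1 - (Li M D (z θ)).2 * lM.2
    rw [← h1, Lm, h3, one_smul]
    rfl
  have der : ∀ θ ∈ Icc θa θb, HasDerivAt e ((1 / ell A B θ) ^ 2 / det M D) θ := fun θ hθ => by
    have h0 := (hpos θ hθ).ne'
    have e1 : e = fun θ => (M.re * sin θ - M.im * cos θ) / ell A B θ / det M D := by
      funext x
      simp only [he, hz, det, pol_re, pol_im]
      ring
    have d1 : HasDerivAt (ell A B) (A * -sin θ + B * cos θ) θ :=
      ((hasDerivAt_cos θ).const_mul A).add ((hasDerivAt_sin θ).const_mul B)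
    have d2 := ((((hasDerivAt_sin θ).const_mul M.re).sub
      ((hasDerivAt_cos θ).const_mul M.im)).div d1 h0).div_const (det M D)
    rw [e1]
    refine d2.congr_deriv ?_
    congr 1
    rw [one_div, inv_pow, ← one_div]
    congr 1
    simp only [ell, Pi.sub_apply]
    linear_combination (A * M.re + B * M.im) * sin_sq_add_cos_sq θ + lM.1
  have ea : e θa = -1 := by
    simp only [he]
    rw [hM, div_eq_iff hA.ne']
    simp [det]; ring
  have eb : e θb = 1 := by
    simp only [he]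
    rw [hD, div_eq_iff hA.ne']
    simp [det]; ring
  have ce : ContinuousOn e (Icc θa θb) := fun θ hθ => (der θ hθ).continuousAt.continuousWithinAt
  have mono : MonotoneOn e (Icc θa θb) :=
    monotoneOn_of_deriv_nonneg (convex_Icc _ _) ce
      (fun θ hθ => (der θ (interior_subset hθ)).differentiableAt.differentiableWithinAt)
      fun θ hθ => by rw [(der θ (interior_subset hθ)).deriv]; positivity
  set cl : ℝ → ℝ := fun θ => max θa (min θb θ) with hcl
  have c1 : ∀ θ, cl θ ∈ Icc θa θb := fun θ =>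
    ⟨le_max_left _ _, max_le hlt.le (min_le_left _ _)⟩
  have c2 : ∀ θ ∈ Icc θa θb, cl θ = θ := fun θ hθ => by
    simp only [hcl]; rw [min_eq_right hθ.2, max_eq_right hθ.1]
  have c3 : Continuous cl := by fun_prop
  refine ⟨M, D, fun θ => e (cl θ), fun θ => 1 / ell A B (cl θ),
    ⟨hlt, hA, ce.comp_continuous c3 c1,
      continuous_const.div ((continuous_ell A B).comp c3) fun θ => (hpos _ (c1 θ)).ne',
      fun θ => one_div_pos.2 (hpos _ (c1 θ)), fun θ => abs_le.2 ⟨?_, ?_⟩, fun θ hθ => ?_,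
      by rw [c2 _ ha, ea], by rw [c2 _ hb, eb], fun θ hθ => ?_⟩, fun φ hφ => by simp only [c2 φ hφ]⟩
  · rw [← ea]; exact mono ha (c1 θ) (c1 θ).1
  · rw [← eb]; exact mono (c1 θ) hb (c1 θ).2
  · rw [c2 θ hθ]; exact pt θ hθ
  · rw [c2 θ (Ioo_subset_Icc_self hθ)]
    refine (der θ (Ioo_subset_Icc_self hθ)).congr_of_eventuallyEq ?_
    filter_upwards [Icc_mem_nhds hθ.1 hθ.2] with x hx
    rw [c2 x hx]

section
variable {θa θb : ℝ} {M D : ℂ} {η R : ℝ → ℝ}

theorem Tri.sq (h : Tri θa θb M D η R) {θ : ℝ} (hθ : θ ∈ Icc θa θb) :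
    R θ ^ 2 = qq M D (η θ) := by
  rw [qq_eq, ← h.pt θ hθ, normSq_pol]

theorem Tri.surj (h : Tri θa θb M D η R) {y : ℝ} (hy : |y| ≤ 1) : ∃ θ ∈ Icc θa θb, η θ = y := by
  have := intermediate_value_Icc h.lt.le h.ce.continuousOn
  rw [h.ea, h.eb] at this
  exact this (abs_le.1 hy)

theorem qq_pos (h : 0 < det M D) (y : ℝ) : 0 < qq M D y := by
  rw [qq_eq, Complex.normSq_pos]
  intro e
  have : det (M + y • D) D = det M D := by simp [det]; ring
  rw [e] at this
  simp [det] at this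
  simp only [det] at h
  linarith

theorem Tri.chg1 (h : Tri θa θb M D η R) {g : ℝ → ℝ} (hg : Continuous g) :
    ∫ θ in θa..θb, g (η θ) = det M D * ∫ y in (-1 : ℝ)..1, g y / qq M D y := by
  have := integral_comp_mul_deriv'' (a := θa) (b := θb) (f := η)
    (f' := fun θ => R θ ^ 2 / det M D) (g := fun y => g y / qq M D y) h.ce.continuousOn
    (fun x hx => by
      rw [min_eq_left h.lt.le, max_eq_right h.lt.le] at hx
      exact (h.der x hx).hasDerivWithinAt)
    ((h.cR.pow 2).div_const _).continuousOn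
    (hg.div (continuous_qq M D) fun y => (qq_pos h.ar y).ne').continuousOn
  rw [h.ea, h.eb] at this
  rw [← this, ← intervalIntegral.integral_const_mul]
  refine integral_congr fun θ hθ => ?_
  rw [uIcc_of_le h.lt.le] at hθ
  have a := (qq_pos h.ar (η θ)).ne'
  have b := h.ar.ne'
  simp only [Function.comp, h.sq hθ]
  field_simp

theorem Tri.chg (h : Tri θa θb M D η R) (x0 x1 : ℝ) {Γ : ℝ → ℝ → ℝ} (hΓ : Cont Γ) :
    PI θa θb (fun θ => x0 * R θ) (fun θ => x1 * R θ) (fun r θ => Γ (r / R θ) (η θ))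
      = det M D * T x0 x1 Γ := by
  have hI : Continuous fun y => ∫ x in x0..x1, Γ x y * x :=
    hΓ.inner continuous_const continuous_const
  have := h.chg1 ((continuous_qq M D).mul hI)
  have e : (fun y => (qq M D * fun y => ∫ x in x0..x1, Γ x y * x) y / qq M D y) =
      fun y => ∫ x in x0..x1, Γ x y * x := by
    funext y
    have a := (qq_pos h.ar y).ne'
    simp only [Pi.mul_apply]
    field_simp
  rw [e] at this
  unfold T PI
  rw [← this]
  refine integral_congr fun θ hθ => ?_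
  rw [uIcc_of_le h.lt.le] at hθ
  have a := (h.Rpos θ).ne'
  have b := integral_comp_div (a := x0 * R θ) (b := x1 * R θ) (fun x => Γ x (η θ) * x) a
  rw [mul_div_cancel_right₀ _ a, mul_div_cancel_right₀ _ a, smul_eq_mul] at b
  have c : (fun r => Γ (r / R θ) (η θ) * r) = fun r => R θ * (Γ (r / R θ) (η θ) * (r / R θ)) := by
    funext r; field_simp
  simp only [Pi.mul_apply]
  rw [c, intervalIntegral.integral_const_mul, b, ← h.sq hθ]
  ring

theorem Tri.pol_eq (h : Tri θa θb M D η R) {θ : ℝ} (hθ : θ ∈ Icc θa θb) (r : ℝ) :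
    pol r θ = Lm M D (r / R θ, r / R θ * η θ) := by
  have a := (h.Rpos θ).ne'
  have e : pol r θ = (r / R θ) • pol (R θ) θ := by
    rw [pol_eq_smul, pol_eq_smul, smul_smul, div_mul_cancel₀ _ a]
  rw [e, h.pt θ hθ, smul_add, smul_smul]
  rfl

theorem Tri.chgF (h : Tri θa θb M D η R) (x0 x1 : ℝ) {F : ℂ → ℝ} (hF : Continuous F) :
    PI θa θb (fun θ => x0 * R θ) (fun θ => x1 * R θ) (fun r θ => F (pol r θ))
      = det M D * T x0 x1 fun x y => F (Lm M D (x, x * y)) := by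
  rw [← h.chg x0 x1 (Γ := fun x y => F (Lm M D (x, x * y)))
    (hF.comp ((contDiff_Lm M D).continuous.comp (by fun_prop)))]
  unfold PI
  refine integral_congr fun θ hθ => ?_
  rw [uIcc_of_le h.lt.le] at hθ
  simp only [← h.pol_eq hθ]

theorem grad_Lm (hA : 0 < det M D) {w : ℂ → ℝ} (hw : ContDiff ℝ 1 w) (p : P2) :
    det M D * ‖fderiv ℝ w (Lm M D p)‖ ^ 2 =
      (Complex.normSq D * px (fun p => w (Lm M D p)) p ^ 2
        - 2 * ip M D * (px (fun p => w (Lm M D p)) p * py (fun p => w (Lm M D p)) p)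
        + Complex.normSq M * py (fun p => w (Lm M D p)) p ^ 2) / det M D := by
  obtain ⟨x, y⟩ := p
  have hc : ContDiff ℝ 1 fun p => w (Lm M D p) := hw.comp (contDiff_Lm M D)
  have hd := (hw.differentiable one_ne_zero (Lm M D (x, y))).hasFDerivAt
  have e1 : px (fun p => w (Lm M D p)) (x, y) = fderiv ℝ w (Lm M D (x, y)) M := by
    refine px_eq hc (hd.comp_hasDerivAt x (f := fun x => Lm M D (x, y)) ?_)
    simpa [Lm] using ((hasDerivAt_id x).smul_const M).add_const (y • D)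
  have e2 : py (fun p => w (Lm M D p)) (x, y) = fderiv ℝ w (Lm M D (x, y)) D := by
    refine py_eq hc (hd.comp_hasDerivAt y (f := fun y => Lm M D (x, y)) ?_)
    simpa [Lm] using ((hasDerivAt_id y).smul_const D).const_add (x • M)
  rw [e1, e2, eq_div_iff hA.ne', norm_clm_sq, clm_apply _ M, clm_apply _ D]
  simp only [det, ip, Complex.normSq_apply]
  ring

theorem Tri.chgD (h : Tri θa θb M D η R) (x0 x1 : ℝ) {w : ℂ → ℝ} (hw : ContDiff ℝ 1 w) :
    PD θa θb (fun θ => x0 * R θ) (fun θ => x1 * R θ) w = DG M D x0 x1 fun p => w (Lm M D p) := by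
  unfold PD DG
  rw [h.chgF x0 x1 (F := fun z => ‖fderiv ℝ w z‖ ^ 2)
    ((hw.continuous_fderiv one_ne_zero).norm.pow 2), ← T_const_mul]
  simp only [grad_Lm h.ar hw]

end

end Pool.Agent.PSz
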