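import Pool.Agent.P.MP_7b7370_an.DCDefs

set_option autoImplicit false

namespace Pool.Agent.PSF

open Real Set MeasureTheory Pool.Agent.PSz

theorem vol_line {n : ℂ} (hn : n ≠ 0) (h : ℝ) : volume {z : ℂ | ipr n z = h} = 0 := by
  let S : AffineSubspace ℝ ℂ := ⟨{z : ℂ | ipr n z = h}, fun c p1 p2 p3 h1 h2 h3 => by
    simp only [mem_ofPred_eq, vsub_eq_sub, vadd_eq_add] at h1 h2 h3 ⊢
    rw [ipr_add, ipr_smul, ipr_sub, h1, h2, h3]; ring⟩
  have hS : S ≠ ⊤ := by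
    intro ht
    have h0 : (0 : ℂ) ∈ S := by rw [ht]; trivial
    have h1 : n ∈ S := by rw [ht]; trivial
    have h2 : ipr n 0 = h := h0
    have h3 : ipr n n = h := h1
    have h4 : ipr n 0 = 0 := by simp [ipr]
    rw [ipr_self, ← h2, h4] at h3
    exact hn (norm_eq_zero.1 (pow_eq_zero_iff two_ne_zero |>.1 h3))
  exact Measure.addHaar_affineSubspace volume S hS

theorem Tst.int_grad {Ω : Set ℂ} {u : ℂ → ℝ} (hu : Tst Ω u) :
    Integrable fun z => ‖fderiv ℝ u z‖ ^ 2 := by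
  have hc : Continuous fun z => ‖fderiv ℝ u z‖ ^ 2 :=
    ((hu.c1.continuous_fderiv one_ne_zero).norm).pow 2
  refine hc.integrable_of_hasCompactSupport ?_
  refine HasCompactSupport.intro hu.cs.isCompact fun z hz => ?_
  rw [fderiv_of_notMem_tsupport ℝ hz]
  simp

theorem Tst.int_sq {Ω : Set ℂ} {u : ℂ → ℝ} (hu : Tst Ω u) : Integrable fun z => u z ^ 2 := by
  have hc : Continuous fun z => u z ^ 2 := hu.c1.continuous.pow 2
  refine hc.integrable_of_hasCompactSupport ?_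
  refine HasCompactSupport.intro hu.cs.isCompact fun z hz => ?_
  rw [image_eq_zero_of_notMem_tsupport hz]
  simp

theorem Qu_eq {Ω : Set ℂ} {u : ℂ → ℝ} (hu : Tst Ω u) (r : ℝ) (Z : Set ℂ) :
    Qu u r Z = (∫ z in Z, ‖fderiv ℝ u z‖ ^ 2) - r * ∫ z in Z, u z ^ 2 := by
  rw [Qu, integral_sub hu.int_grad.integrableOn (hu.int_sq.integrableOn.const_mul r),
    integral_const_mul]

theorem Qu_split {Ω : Set ℂ} {u : ℂ → ℝ} (hu : Tst Ω u) (r : ℝ) {Z : Set ℂ}
    (hZ : MeasurableSet Z) {n : ℂ} (hn : n ≠ 0) (h : ℝ) :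
    Qu u r Z = Qu u r (Z ∩ HQ n h) + Qu u r (Z ∩ HP n h) := by
  have hi : Integrable fun z => ‖fderiv ℝ u z‖ ^ 2 - r * u z ^ 2 :=
    hu.int_grad.sub (hu.int_sq.const_mul r)
  have he : Z =ᵐ[volume] (Z ∩ HQ n h ∪ Z ∩ HP n h : Set ℂ) := by
    refine Filter.eventuallyEq_set.2 ?_
    filter_upwards [measure_eq_zero_iff_ae_notMem.1 (vol_line hn h)] with z hz
    constructor
    · intro hzZ
      rcases lt_or_gt_of_ne (show ipr n z ≠ h from hz) with h1 | h1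
      · exact Or.inr ⟨hzZ, h1⟩
      · exact Or.inl ⟨hzZ, h1⟩
    · rintro (h1 | h1) <;> exact h1.1
  have hd : Disjoint (Z ∩ HQ n h) (Z ∩ HP n h) :=
    disjoint_left.2 fun z h1 h2 => lt_asymm (show h < ipr n z from h1.2) h2.2
  unfold Qu
  rw [setIntegral_congr_set he,
    setIntegral_union hd (hZ.inter (isOpen_HP n h).measurableSet) hi.integrableOn hi.integrableOn]

theorem Qu_out {Ω : Set ℂ} {u : ℂ → ℝ} (hu : Tst Ω u) (r : ℝ) {Z : Set ℂ}
    (hZ : MeasurableSet Z) (h : ∀ z ∈ Z, z ∉ Ω) : Qu u r Z = 0 := by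
  refine setIntegral_eq_zero_of_forall_eq_zero fun z hz => ?_
  have h1 : z ∉ tsupport u := fun h2 => h z hz (hu.sub h2)
  rw [image_eq_zero_of_notMem_tsupport h1, fderiv_of_notMem_tsupport ℝ h1]
  simp

/-- if the part of `Z` inside `Ω` is a null set -/
theorem Qu_null {Ω : Set ℂ} {u : ℂ → ℝ} (hΩ : IsOpen Ω) (hu : Tst Ω u) (r : ℝ) {Z : Set ℂ}
    (hZ : MeasurableSet Z) (h : volume (Z ∩ Ω) = 0) : Qu u r Z = 0 := by
  have he : Z =ᵐ[volume] (Z \ Ω : Set ℂ) := by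
    refine Filter.eventuallyEq_set.2 ?_
    filter_upwards [measure_eq_zero_iff_ae_notMem.1 h] with z hz
    exact ⟨fun h1 => ⟨h1, fun h2 => hz ⟨h1, h2⟩⟩, fun h1 => h1.1⟩
  have h1 := Qu_out hu r (hZ.diff hΩ.measurableSet) fun z hz => hz.2
  unfold Qu at h1 ⊢
  rw [setIntegral_congr_set he, h1]

theorem vol_split {Z : Set ℂ} (hb : Bornology.IsBounded Z) (n : ℂ) (h : ℝ) :
    (volume (Z ∩ HQ n h)).toReal + (volume (Z ∩ HP n h)).toReal ≤ (volume Z).toReal := by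
  have h1 : volume (Z ∩ HQ n h) ≠ ⊤ := (hb.subset inter_subset_left).measure_lt_top.ne
  have h2 : volume (Z ∩ HP n h) ≠ ⊤ := (hb.subset inter_subset_left).measure_lt_top.ne
  rw [← ENNReal.toReal_add h1 h2]
  refine ENNReal.toReal_mono hb.measure_lt_top.ne ?_
  rw [← measure_inter_add_sdiff Z (isOpen_HQ n h).measurableSet]
  refine add_le_add le_rfl (measure_mono fun z hz => ⟨hz.1, fun h3 => ?_⟩)
  exact lt_asymm (show h < ipr n z from h3) hz.2

theorem vol_mono {Y Z : Set ℂ} (hb : Bornology.IsBounded Z) (h : Y ⊆ Z) :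
    (volume Y).toReal ≤ (volume Z).toReal := by
  exact ENNReal.toReal_mono hb.measure_lt_top.ne (measure_mono h)

theorem Cell.dir_pos {Ω C : Set ℂ} {a b h : ℝ} {n : ℂ} (hC : Cell Ω C a b n h)
    (hne : (C ∩ HP n h).Nonempty) {t : ℝ} (ht : t ∈ Icc a b) : 0 < ipr n (cis t) := by
  by_contra hc
  have hc' : ipr n (cis t) ≤ 0 := not_lt.1 hc
  obtain ⟨z, hz, hzh⟩ := hne
  obtain ⟨R, hR⟩ := hC.bd.exists_norm_le
  have hR0 : 0 ≤ R := (norm_nonneg z).trans (hR z ⟨hz, hzh⟩)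
  have hs : 0 ≤ R + ‖z‖ + 1 := by positivity
  have hm : z + ((R + ‖z‖ + 1 : ℝ) : ℂ) * cis t ∈ C ∩ HP n h := by
    refine ⟨hC.rc.cis hz ht hs, ?_⟩
    have h1 : ipr n z < h := hzh
    have h2 := mul_nonpos_of_nonneg_of_nonpos hs hc'
    show ipr n _ < h
    rw [ipr_add, ipr_mul]
    linarith
  have h1 := hR _ hm
  have h2 := norm_sub_le (z + ((R + ‖z‖ + 1 : ℝ) : ℂ) * cis t) z
  rw [add_sub_cancel_left, norm_mul, norm_cis, Complex.norm_real, Real.norm_of_nonneg hs] at h2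
  linarith

theorem Cell.lt_pi {Ω C : Set ℂ} {a b h : ℝ} {n : ℂ} (hC : Cell Ω C a b n h)
    (hne : (C ∩ HP n h).Nonempty) : b - a < π := by
  by_contra hc
  have h1 := hC.dir_pos hne (t := a) ⟨le_rfl, hC.le⟩
  have h2 := hC.dir_pos hne (t := a + π) ⟨by linarith [pi_pos], by linarith⟩
  simp only [ipr, cis_re, cis_im, cos_add_pi, sin_add_pi] at h1 h2
  linarith

/-- the closed base is disjoint from `Ω` -/
theorem Cell.out_closure {Ω C : Set ℂ} {a b h : ℝ} {n : ℂ} (hΩ : IsOpen Ω)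
    (hC : Cell Ω C a b n h) (hne : (C ∩ HP n h).Nonempty) :
    ∀ z ∈ closure C, ipr n z = h → z ∉ Ω := by
  intro z hz hzh hzΩ
  have hd := hC.dir_pos hne (t := a) ⟨le_rfl, hC.le⟩
  obtain ⟨x, hx, hxh⟩ := hne
  have hxh' : ipr n x < h := hxh
  have hs : 0 ≤ (h - ipr n x) / ipr n (cis a) := div_nonneg (by linarith) hd.le
  obtain ⟨y, hy, hyh⟩ : ∃ y ∈ C, ipr n y = h :=
    ⟨_, hC.rc.cis hx ⟨le_rfl, hC.le⟩ hs, by
      rw [ipr_add, ipr_mul, div_mul_cancel₀ _ hd.ne']; ring⟩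
  have h1 : openSegment ℝ y z ⊆ interior C :=
    hC.cv.openSegment_interior_closure_subset_interior (by rwa [hC.op.interior_eq]) hz
  have h2 : openSegment ℝ y z ⊆ Ωᶜ := by
    intro w hw
    refine hC.out w (interior_subset (h1 hw)) ?_
    obtain ⟨s, t, -, -, hst, rfl⟩ := hw
    rw [ipr_add, ipr_smul, ipr_smul, hyh, hzh, ← add_mul, hst, one_mul]
  exact (closure_minimal h2 hΩ.isClosed_compl)
    (segment_subset_closure_openSegment (right_mem_segment ℝ y z)) hzΩ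

end Pool.Agent.PSF
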