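import Pool.Agent.P.MP_7b7370_an.DCDefs

set_option autoImplicit false

namespace Pool.Agent.PSF

open Real Set MeasureTheory Pool.Agent.PSz

theorem lsc_measure {X Y : Type*} [TopologicalSpace X] [FirstCountableTopology X]
    [TopologicalSpace Y] [MeasurableSpace Y] [OpensMeasurableSpace Y] (μ : Measure Y)
    {O : Set (X × Y)} (hO : IsOpen O) : LowerSemicontinuous fun x => μ {y | (x, y) ∈ O} := by
  rw [lowerSemicontinuous_iff_le_liminf]
  intro x
  have hm : ∀ x', MeasurableSet {y | (x', y) ∈ O} := fun x' =>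
    (hO.preimage (Continuous.prodMk_right x')).measurableSet
  have e : ∀ x', μ {y | (x', y) ∈ O} = ∫⁻ y, indicator {y | (x', y) ∈ O} 1 y ∂μ := fun x' =>
    (lintegral_indicator_one (hm x')).symm
  simp only [e]
  refine le_trans (lintegral_mono fun y => ?_)
    (lintegral_liminf_le (u := nhds x) fun x' => measurable_one.indicator (hm x'))
  by_cases hy : (x, y) ∈ O
  · refine Filter.le_liminf_of_le (by isBoundedDefault) ?_
    have h1 : ∀ᶠ x' in nhds x, (x', y) ∈ O :=
      (Continuous.prodMk_left y).continuousAt.eventually (hO.mem_nhds hy)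
    filter_upwards [h1] with x' hx'
    rw [indicator_of_mem (show y ∈ {y | (x, y) ∈ O} from hy),
      indicator_of_mem (show y ∈ {y | (x', y) ∈ O} from hx')]
  · rw [indicator_of_notMem (show y ∉ {y | (x, y) ∈ O} from hy)]
    exact zero_le

theorem lsc_cnt {X : Type*} [TopologicalSpace X] {N : ℕ} (v : Fin N → ℂ) {O : Set (X × ℂ)}
    (hO : IsOpen O) (n : ℂ) (h : ℝ) :
    LowerSemicontinuous fun x => (cnt v {z | (x, z) ∈ O} n h : ℝ) := by
  intro x y hy
  have h1 : ∀ᶠ x' in nhds x, ∀ i, (x, v i) ∈ O → (x', v i) ∈ O := by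
    refine Filter.eventually_all.2 fun i => ?_
    by_cases hi : (x, v i) ∈ O
    · filter_upwards [(Continuous.prodMk_left (v i)).continuousAt.eventually (hO.mem_nhds hi)]
        with x' hx' _
      exact hx'
    · exact Filter.Eventually.of_forall fun x' h => absurd h hi
  filter_upwards [h1] with x' hx'
  refine lt_of_lt_of_le hy ?_
  refine Nat.cast_le.2 ?_
  unfold cnt
  refine Finset.card_le_card fun i hi => ?_
  simp only [Finset.mem_filter, Finset.mem_univ, true_and, mem_setOf_eq] at hi ⊢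
  exact ⟨hx' i hi.1, hi.2⟩

theorem isClosed_good {X : Type*} [TopologicalSpace X] {S : Set X} (hS : IsClosed S)
    {f : X → ENNReal} (hf : LowerSemicontinuousOn f S) {M : ENNReal} (hM : M ≠ ⊤)
    (hfM : ∀ x ∈ S, f x ≤ M) {g α : X → ℝ} (hg : LowerSemicontinuousOn g S)
    (hα : UpperSemicontinuousOn α S) {r σ c : ℝ} (hr : 0 ≤ r) (hσ : 0 ≤ σ) (hc : 0 ≤ c) :
    IsClosed {x | x ∈ S ∧ r * (f x).toReal ≤ σ * α x - c * (g x + 1)} := by
  have h1 : LowerSemicontinuousOn ((fun t : ENNReal => r * ENNReal.truncateToReal M t) ∘ f) S :=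
    (continuous_const.mul (ENNReal.continuous_truncateToReal hM)).comp_lowerSemicontinuousOn hf
      fun a b hab => mul_le_mul_of_nonneg_left (ENNReal.monotone_truncateToReal hM hab) hr
  have h2 : LowerSemicontinuousOn ((fun t : ℝ => c * (t + 1)) ∘ g) S :=
    (by fun_prop : Continuous fun t : ℝ => c * (t + 1)).comp_lowerSemicontinuousOn hg
      fun a b hab => mul_le_mul_of_nonneg_left (by linarith) hc
  have h3 : LowerSemicontinuousOn ((fun t : ℝ => -(σ * t)) ∘ α) S :=
    (by fun_prop : Continuous fun t : ℝ => -(σ * t)).comp_upperSemicontinuousOn_antitone hα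
      fun a b hab => neg_le_neg (mul_le_mul_of_nonneg_left hab hσ)
  obtain ⟨w, hw, e⟩ := lowerSemicontinuousOn_iff_preimage_Iic.1 ((h1.add h2).add h3) 0
  have e2 : {x | x ∈ S ∧ r * (f x).toReal ≤ σ * α x - c * (g x + 1)} = S ∩ w := by
    rw [← e]
    ext x
    simp only [mem_setOf_eq, mem_inter_iff, mem_preimage, mem_Iic, Function.comp]
    refine and_congr_right fun hx => ?_
    rw [ENNReal.truncateToReal_eq_toReal hM (hfM x hx)]
    constructor <;> intro h <;> linarith
  rw [e2]
  exact hS.inter hw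

end Pool.Agent.PSF
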