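import Pool.Agent.P.MP_7b7370_an.DCA

set_option autoImplicit false

namespace Pool.Agent.PSF

open Real Set MeasureTheory Pool.Agent.PSz

theorem StripLB.mono {p φ ψ : ℝ} (h : StripLB p φ) (hle : ψ ≤ φ) : StripLB p ψ := by
  intro U h1 h2 h3
  refine le_trans (mul_le_mul_of_nonneg_right hle ?_) (h U h1 h2 h3)
  exact integral_nonneg fun w => mul_nonneg (rpow_nonneg (by positivity) _) (sq_nonneg _)

lemma dcc_ipr {n : ℂ} (hn : ‖n‖ = 1) (h : ℝ) (w : ℂ) :
    ipr n (Complex.I * n * w + h * n) = h - w.im := by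
  have h1 : n.re * n.re + n.im * n.im = 1 := by
    have := ipr_self n
    rw [hn] at this
    simpa [ipr] using this
  simp only [ipr, Complex.add_re, Complex.add_im, Complex.mul_re, Complex.mul_im, Complex.I_re,
    Complex.I_im, Complex.ofReal_re, Complex.ofReal_im]
  linear_combination (h - w.im) * h1

/-- move the base to the real axis by `z ↦ -I * conj n * z + I * h` -/
theorem clin_of (hCL : CellIneq) {σ c : ℝ} (hσ : 0 ≤ σ)
    (hS : ∀ p, 0 < p → p < 1 → StripLB p (σ * (π * (1 - p)) - c)) : CLin σ c := by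
  intro Ω C a b n h u hΩ hC hab hu
  rcases (C ∩ HP n h).eq_empty_or_nonempty with he | hne
  · simp [he]
  have hα1 : ‖Complex.I * n‖ = 1 := by simp [hC.un]
  have hα : Complex.I * n ≠ 0 := by
    intro e
    rw [e, norm_zero] at hα1
    exact zero_ne_one hα1
  obtain ⟨k, hk⟩ : ∃ k : ℝ, Complex.I * n = cis k := by
    refine ⟨Complex.arg (Complex.I * n), ?_⟩
    have := Complex.norm_mul_exp_arg_mul_I (Complex.I * n)
    rw [hα1] at this
    simpa [cis] using this.symm
  set S := Fi.sim (Complex.I * n) (h * n) hα with hSdef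
  have hip : ∀ w, ipr n (S w) = h - w.im := fun w => dcc_ipr hC.un h w
  have hZ : S ⁻¹' C ∩ {z : ℂ | 0 < z.im} = S ⁻¹' (C ∩ HP n h) := by
    ext w
    simp only [mem_inter_iff, mem_preimage, mem_ofPred_eq, HP, hip]
    exact and_congr_right fun _ => by constructor <;> intro _ <;> linarith
  have hm : MeasurePreserving S volume volume :=
    ⟨S.continuous.measurable, by rw [hSdef, Fi.map_sim, hα1]; simp⟩
  have key := hCL (S ⁻¹' C) (a - k) (b - k) (σ * (b - a) - c) (u ∘ S)
    (hC.op.preimage S.continuous) ?_ (by linarith) ?_ ?_ ?_ (hu.c1.comp (Fi.contDiff_sim hα))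
    (hu.cs.comp_homeomorph S) ?_
  · rw [hZ] at key
    have e1 : ∫ z in S ⁻¹' (C ∩ HP n h), (u ∘ S) z ^ 2 = ∫ z in C ∩ HP n h, u z ^ 2 :=
      hm.setIntegral_preimage_emb S.measurableEmbedding (fun z => u z ^ 2) _
    have e2 : ∫ z in S ⁻¹' (C ∩ HP n h), ‖fderiv ℝ (u ∘ S) z‖ ^ 2 =
        ∫ z in C ∩ HP n h, ‖fderiv ℝ u z‖ ^ 2 := by
      rw [← hm.setIntegral_preimage_emb S.measurableEmbedding (fun z => ‖fderiv ℝ u z‖ ^ 2) _]
      refine integral_congr_ae (Filter.Eventually.of_forall fun z => ?_)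
      have := Fi.norm_fderiv_sim (β := (h : ℂ) * n) hα hu.c1 z
      rw [hα1, one_pow, one_mul] at this
      exact this
    have e3 : volume (S ⁻¹' (C ∩ HP n h)) = volume (C ∩ HP n h) := by
      rw [hSdef, Fi.vol_sim, hα1]; simp
    rwa [e1, e2, e3] at key
  · intro x hx y hy s t hs ht hst
    have e : S (s • x + t • y) = s • S x + t • S y := by
      have hst' : (s : ℂ) + t = 1 := by exact_mod_cast hst
      simp only [hSdef, Fi.sim_apply, Complex.real_smul]
      linear_combination (-(h : ℂ) * n) * hst'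
    rw [mem_preimage, e]
    exact hC.cv hx hy hs ht hst
  · intro z hz t ht s hs
    have e : S (z + (s : ℂ) * Complex.exp ((t : ℂ) * Complex.I)) =
        S z + (s : ℂ) * cis (t + k) := by
      have : cis (t + k) = Complex.exp ((t : ℂ) * Complex.I) * cis k := by
        simp only [cis, ← Complex.exp_add]
        congr 1
        push_cast
        ring
      simp only [hSdef, Fi.sim_apply]
      rw [this, ← hk]
      ring
    rw [mem_preimage, e]
    exact hC.rc.cis hz ⟨by linarith [ht.1], by linarith [ht.2]⟩ hs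
  · rw [hZ]
    exact (S.isCompact_preimage.2 hC.bd.isCompact_closure).isBounded.subset
      (preimage_mono subset_closure)
  · intro p hp0 hp
    have e : b - k - (a - k) = b - a := by ring
    rw [e] at hp
    have h1 : 0 < (b - a) / π := div_pos (sub_pos.2 hab) pi_pos
    have h2 : b - a ≤ π * (1 - p) := by
      have : (b - a) / π ≤ 1 - p := by linarith
      rwa [div_le_iff₀ pi_pos, mul_comm] at this
    refine (hS p hp0 (by linarith)).mono ?_
    linarith [mul_le_mul_of_nonneg_left h2 hσ]
  · intro z hz h0 hs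
    have h1 : S z ∈ closure C := S.continuous.closure_preimage_subset _ hz
    have h2 : S z ∈ Ω := Fi.tsupport_sim hα hu.sub hs
    exact hC.out_closure hΩ hne _ h1 (by rw [hip, h0, sub_zero]) h2

end Pool.Agent.PSF
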