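import Pool.Agent.P.MP_7b7370_an.DCA

set_option autoImplicit false

namespace Pool.Agent.PSF

open Real Set MeasureTheory Pool.Agent.PSz

theorem Q_base {σ c r : ℝ} (hc : 0 ≤ c) (hr : 0 ≤ r) (hL : CLin σ c) {Ω C : Set ℂ} {u : ℂ → ℝ}
    (hΩ : IsOpen Ω) (hu : Tst Ω u) {a b h : ℝ} {n : ℂ} (hC : Cell Ω C a b n h)
    (hf : ∀ z ∈ C ∩ HP n h, z ∉ frontier Ω)
    (hv : r * (volume (C ∩ HP n h ∩ Ω)).toReal ≤ σ * (b - a) - c) :
    0 ≤ Qu u r (C ∩ HP n h) := by
  have hm : MeasurableSet (C ∩ HP n h) := (hC.op.inter (isOpen_HP n h)).measurableSet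
  by_cases h0 : volume (C ∩ HP n h ∩ Ω) = 0
  · exact (Qu_null hΩ hu r hm h0).ge
  have hs : C ∩ HP n h ⊆ Ω := Fi.subset_of_preconn hΩ
    (hC.cv.inter (convex_HP n h)).isPreconnected hf (nonempty_of_measure_ne_zero h0)
  rw [inter_eq_left.2 hs] at h0 hv
  have hV : 0 < (volume (C ∩ HP n h)).toReal := ENNReal.toReal_pos h0 hC.bd.measure_lt_top.ne
  have g0 : 0 ≤ ∫ z in C ∩ HP n h, ‖fderiv ℝ u z‖ ^ 2 := integral_nonneg fun z => sq_nonneg _
  have u0 : 0 ≤ ∫ z in C ∩ HP n h, u z ^ 2 := integral_nonneg fun z => sq_nonneg _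
  rw [Qu_eq hu, sub_nonneg]
  rcases hC.le.eq_or_lt with e | e
  · rw [e, sub_self, mul_zero] at hv
    have : r ≤ 0 := by
      by_contra hn
      have := mul_pos (not_le.1 hn) hV
      linarith
    exact (mul_nonpos_of_nonpos_of_nonneg this u0).trans g0
  · have h1 := (mul_le_mul_of_nonneg_right hv u0).trans (hL Ω C a b n h u hΩ hC e hu)
    refine le_of_mul_le_mul_left ?_ hV
    linarith

theorem dcd_ray {u : ℂ → ℝ} (hu : ContDiff ℝ 1 u) {n z : ℂ} (hn : ‖n‖ = 1) {d H : ℝ} (hd : 0 < d)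
    (hH : d ≤ H) (h0 : u (z + (d : ℂ) * n) = 0) :
    u z ^ 2 ≤ H * ∫ s in (0 : ℝ)..d, ‖fderiv ℝ u (z + (s : ℂ) * n)‖ ^ 2 := by
  have hH0 : 0 < H := hd.trans_le hH
  have cf : Continuous fun s : ℝ => fderiv ℝ u (z + (s : ℂ) * n) :=
    (hu.continuous_fderiv one_ne_zero).comp (by fun_prop)
  have cφ : Continuous fun s : ℝ => fderiv ℝ u (z + (s : ℂ) * n) n :=
    cf.clm_apply continuous_const
  have hd' : ∀ s : ℝ, HasDerivAt (fun s : ℝ => u (z + (s : ℂ) * n))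
      (fderiv ℝ u (z + (s : ℂ) * n) n) s := fun s => by
    have h1 : HasDerivAt (fun s : ℝ => z + (s : ℂ) * n) n s := by
      simpa using ((Complex.ofRealCLM.hasDerivAt (x := s)).mul_const n).const_add z
    exact (hu.differentiable one_ne_zero _).hasFDerivAt.comp_hasDerivAt s h1
  have hi : ∫ s in (0 : ℝ)..d, fderiv ℝ u (z + (s : ℂ) * n) n = -u z := by
    rw [intervalIntegral.integral_eq_sub_of_hasDerivAt (fun s _ => hd' s)
      (cφ.intervalIntegrable _ _), h0]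
    simp
  have h2 : ∫ s in (0 : ℝ)..d, (2 * (-u z / H) * fderiv ℝ u (z + (s : ℂ) * n) n - (-u z / H) ^ 2) ≤
      ∫ s in (0 : ℝ)..d, ‖fderiv ℝ u (z + (s : ℂ) * n)‖ ^ 2 := by
    refine intervalIntegral.integral_mono_on hd.le
      (((continuous_const.mul cφ).sub continuous_const).intervalIntegrable _ _)
      ((cf.norm.pow 2).intervalIntegrable _ _) fun s _ => ?_
    have h3 := (fderiv ℝ u (z + (s : ℂ) * n)).le_opNorm n
    rw [hn, mul_one, Real.norm_eq_abs] at h3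
    have h4 := pow_le_pow_left₀ (abs_nonneg _) h3 2
    rw [sq_abs] at h4
    nlinarith [sq_nonneg (fderiv ℝ u (z + (s : ℂ) * n) n - -u z / H)]
  rw [intervalIntegral.integral_sub ((cφ.intervalIntegrable _ _).const_mul _)
    (continuous_const.intervalIntegrable _ _), intervalIntegral.integral_const_mul, hi,
    intervalIntegral.integral_const, sub_zero, smul_eq_mul] at h2
  refine le_trans ?_ (mul_le_mul_of_nonneg_left h2 hH0.le)
  have h5 : d * (-u z / H) ^ 2 ≤ H * (-u z / H) ^ 2 := mul_le_mul_of_nonneg_right hH (sq_nonneg _)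
  have h6 : u z ^ 2 = H * (2 * (-u z / H) * -u z - H * (-u z / H) ^ 2) := by
    field_simp
    ring
  rw [h6]
  exact mul_le_mul_of_nonneg_left (by linarith) hH0.le

/-- a thin cell whose base normal is a recession direction -/
theorem Q_thin {Ω C : Set ℂ} {u : ℂ → ℝ} (hu : Tst Ω u) (hC : IsOpen C) {n : ℂ} (hn : ‖n‖ = 1)
    {h H r : ℝ} (hrec : ∀ z ∈ C, ∀ s : ℝ, 0 ≤ s → z + (s : ℂ) * n ∈ C)
    (hΩ : Ω ⊆ HP n h) (hH : ∀ z ∈ C, h - ipr n z ≤ H) (hH0 : 0 ≤ H) (hr0 : 0 ≤ r)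
    (hr : r * H ^ 2 ≤ 1) : 0 ≤ Qu u r (C ∩ HP n h) := by
  have hm : MeasurableSet (C ∩ HP n h) := (hC.inter (isOpen_HP n h)).measurableSet
  have cf : Continuous fun z => ‖fderiv ℝ u z‖ ^ 2 :=
    (hu.c1.continuous_fderiv one_ne_zero).norm.pow 2
  let G : ℂ → ENNReal := (C ∩ HP n h).indicator fun z => ENNReal.ofReal (‖fderiv ℝ u z‖ ^ 2)
  have mG : Measurable G := cf.measurable.ennreal_ofReal.indicator hm
  have ip : ∀ (z : ℂ) (s : ℝ), ipr n (z + (s : ℂ) * n) = ipr n z + s := fun z s => by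
    rw [ipr_add, ipr_mul, ipr_self, hn, one_pow, mul_one]
  have p1 : ∀ z ∈ C ∩ HP n h, ENNReal.ofReal (u z ^ 2) ≤
      ENNReal.ofReal H * ∫⁻ s in Ioo (0 : ℝ) H, G (z + (s : ℂ) * n) := fun z hz => by
    have hd : 0 < h - ipr n z := sub_pos.2 hz.2
    have h0 : u (z + ((h - ipr n z : ℝ) : ℂ) * n) = 0 := by
      refine image_eq_zero_of_notMem_tsupport fun hh => ?_
      have : ipr n (z + ((h - ipr n z : ℝ) : ℂ) * n) < h := hΩ (hu.sub hh)
      rw [ip] at this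
      linarith
    have c2 : Continuous fun s : ℝ => ‖fderiv ℝ u (z + (s : ℂ) * n)‖ ^ 2 := cf.comp (by fun_prop)
    refine (ENNReal.ofReal_le_ofReal (dcd_ray hu.c1 hn hd (hH z hz.1) h0)).trans ?_
    rw [ENNReal.ofReal_mul hH0, intervalIntegral.integral_of_le hd.le, integral_Ioc_eq_integral_Ioo,
      ofReal_integral_eq_lintegral_ofReal (c2.integrableOn_Icc.mono_set Ioo_subset_Icc_self)
        (Filter.Eventually.of_forall fun s => sq_nonneg _)]
    refine mul_le_mul_right ?_ _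
    refine le_trans (setLIntegral_mono' measurableSet_Ioo fun s hs => ?_)
      (lintegral_mono_set (Ioo_subset_Ioo_right (hH z hz.1)))
    have : z + (s : ℂ) * n ∈ C ∩ HP n h := by
      refine ⟨hrec z hz.1 s hs.1.le, ?_⟩
      show ipr n _ < h
      rw [ip]
      linarith [hs.2]
    exact le_of_eq (indicator_of_mem this fun z => ENNReal.ofReal (‖fderiv ℝ u z‖ ^ 2)).symm
  have p2 : ∫⁻ z, ∫⁻ s in Ioo (0 : ℝ) H, G (z + (s : ℂ) * n) = ENNReal.ofReal H * ∫⁻ z, G z := by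
    have m2 : Measurable fun w : ℂ × ℝ => G (w.1 + (w.2 : ℂ) * n) := mG.comp (by fun_prop)
    rw [lintegral_lintegral_swap (f := fun (z : ℂ) (s : ℝ) => G (z + (s : ℂ) * n)) m2.aemeasurable]
    simp only [lintegral_add_right_eq_self]
    rw [setLIntegral_const, Real.volume_Ioo, sub_zero, mul_comm]
  have p3 : ENNReal.ofReal (∫ z in C ∩ HP n h, u z ^ 2) ≤
      ENNReal.ofReal (H ^ 2 * ∫ z in C ∩ HP n h, ‖fderiv ℝ u z‖ ^ 2) := by
    rw [ofReal_integral_eq_lintegral_ofReal hu.int_sq.integrableOn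
        (Filter.Eventually.of_forall fun s => sq_nonneg _), ENNReal.ofReal_mul (sq_nonneg H),
      ofReal_integral_eq_lintegral_ofReal hu.int_grad.integrableOn
        (Filter.Eventually.of_forall fun s => sq_nonneg _),
      ← lintegral_indicator hm fun z => ENNReal.ofReal (‖fderiv ℝ u z‖ ^ 2), sq H,
      ENNReal.ofReal_mul hH0, mul_assoc, ← p2, ← lintegral_const_mul' _ _ ENNReal.ofReal_ne_top]
    exact (setLIntegral_mono' hm p1).trans (setLIntegral_le_lintegral _ _)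
  have g0 : 0 ≤ ∫ z in C ∩ HP n h, ‖fderiv ℝ u z‖ ^ 2 := integral_nonneg fun z => sq_nonneg _
  have p4 := (ENNReal.ofReal_le_ofReal_iff (mul_nonneg (sq_nonneg H) g0)).1 p3
  rw [Qu_eq hu, sub_nonneg]
  have p5 := mul_le_mul_of_nonneg_left p4 hr0
  have p6 := mul_le_mul_of_nonneg_right hr g0
  linarith

end Pool.Agent.PSF
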