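import Pool.Agent.P.MP_7b7370_an.Basic

/-! Similarities of the plane and elementary topology of polygons. -/

set_option autoImplicit false

namespace Pool.Agent.PSz.Fi

open Real Set MeasureTheory

/-- the similarity `z ↦ α z + β` -/
noncomputable def sim (α β : ℂ) (hα : α ≠ 0) : ℂ ≃ₜ ℂ :=
  (Homeomorph.mulLeft₀ α hα).trans (Homeomorph.addRight β)

@[simp] lemma sim_apply (α β : ℂ) (hα : α ≠ 0) (z : ℂ) : sim α β hα z = α * z + β := rfl

variable {α β : ℂ} (hα : α ≠ 0)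

lemma map_sim : Measure.map (sim α β hα) volume = ENNReal.ofReal (‖α‖ ^ 2)⁻¹ • volume := by
  have hd : LinearMap.det (LinearMap.mul ℝ ℂ α) = ‖α‖ ^ 2 := by
    rw [← Complex.normSq_eq_norm_sq, ← Algebra.norm_complex_apply]; rfl
  have hp : 0 < ‖α‖ ^ 2 := by positivity
  have h1 := Measure.map_linearMap_addHaar_eq_smul_addHaar (volume : Measure ℂ)
    (f := LinearMap.mul ℝ ℂ α) (by rw [hd]; exact hp.ne')
  rw [hd, abs_of_pos (inv_pos.2 hp)] at h1
  have e : (sim α β hα : ℂ → ℂ) = (fun z => z + β) ∘ (LinearMap.mul ℝ ℂ α) := rfl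
  rw [e, ← Measure.map_map (by fun_prop) (by exact measurable_const_mul α), h1, Measure.map_smul,
    map_add_right_eq_self]

lemma vol_sim (S : Set ℂ) :
    volume (sim α β hα ⁻¹' S) = ENNReal.ofReal (‖α‖ ^ 2)⁻¹ * volume S := by
  rw [← (sim α β hα).measurableEmbedding.map_apply, map_sim]; rfl

lemma integral_sim (F : ℂ → ℝ) : ∫ z, F (sim α β hα z) = (‖α‖ ^ 2)⁻¹ * ∫ z, F z := by
  rw [← (sim α β hα).measurableEmbedding.integral_map, map_sim, integral_smul_measure,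
    ENNReal.toReal_ofReal (by positivity), smul_eq_mul]

lemma contDiff_sim : ContDiff ℝ 1 (sim α β hα) := by
  change ContDiff ℝ 1 fun z : ℂ => α * z + β
  fun_prop

lemma norm_fderiv_sim {u : ℂ → ℝ} (hu : ContDiff ℝ 1 u) (z : ℂ) :
    ‖fderiv ℝ (u ∘ sim α β hα) z‖ ^ 2 = ‖α‖ ^ 2 * ‖fderiv ℝ u (sim α β hα z)‖ ^ 2 := by
  have h1 : HasFDerivAt (sim α β hα) (ContinuousLinearMap.mul ℝ ℂ α) z :=
    ((ContinuousLinearMap.mul ℝ ℂ α).hasFDerivAt (x := z)).add_const β
  have h2 := (hu.differentiable one_ne_zero (sim α β hα z)).hasFDerivAt.comp z h1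
  rw [h2.fderiv, norm_clm_sq, norm_clm_sq, ← Complex.normSq_eq_norm_sq, Complex.normSq_apply]
  simp only [ContinuousLinearMap.comp_apply, ContinuousLinearMap.mul_apply', mul_one]
  rw [clm_apply _ α, clm_apply _ (α * Complex.I)]
  simp
  ring

lemma en_sim {u : ℂ → ℝ} (hu : ContDiff ℝ 1 u) : en (u ∘ sim α β hα) = en u := by
  unfold en
  simp only [norm_fderiv_sim hα hu]
  rw [integral_const_mul, integral_sim hα fun z => ‖fderiv ℝ u z‖ ^ 2, ← mul_assoc,
    mul_inv_cancel₀ (by positivity), one_mul]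

lemma ma_sim (u : ℂ → ℝ) : ma (u ∘ sim α β hα) = (‖α‖ ^ 2)⁻¹ * ma u :=
  integral_sim hα fun z => u z ^ 2

lemma tsupport_sim {u : ℂ → ℝ} {Ω : Set ℂ} (hs : tsupport u ⊆ Ω) :
    tsupport (u ∘ sim α β hα) ⊆ sim α β hα ⁻¹' Ω := by
  refine Subset.trans ?_ (preimage_mono hs)
  unfold tsupport
  rw [Function.support_comp_eq_preimage]
  exact (sim α β hα).continuous.closure_preimage_subset _

lemma mem_segment_sim (x y z : ℂ) :
    z ∈ segment ℝ ((x - β) / α) ((y - β) / α) ↔ sim α β hα z ∈ segment ℝ x y := by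
  simp only [segment_eq_image, mem_image, sim_apply, Complex.real_smul]
  refine exists_congr fun s => and_congr_right fun _ => ?_
  push_cast
  constructor
  · rintro rfl
    field_simp
    ring
  · intro h
    field_simp
    linear_combination h

lemma isPoly_sim {N : ℕ} {v : Fin N → ℂ} {Ω : Set ℂ} (h : IsPoly v Ω) :
    IsPoly (fun i => (v i - β) / α) (sim α β hα ⁻¹' Ω) := by
  refine ⟨fun i j hij z hz => ?_, h.isOpen.preimage (sim α β hα).continuous, ?_, ?_⟩
  · have key : ∀ x : ℂ, sim α β hα z = x → z = (x - β) / α := by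
      rintro x rfl
      simp [hα]
    exact (h.simple i j hij _ ⟨(mem_segment_sim hα _ _ _).1 hz.1,
      (mem_segment_sim hα _ _ _).1 hz.2⟩).imp (And.imp_right (key _)) (And.imp_right (key _))
  · have h1 := (sim α β hα).isCompact_preimage.2 h.bdd.isCompact_closure
    exact h1.isBounded.subset (preimage_mono subset_closure)
  · rw [← (sim α β hα).preimage_frontier, h.front, preimage_iUnion]
    refine iUnion_congr fun i => ?_
    ext z
    exact (mem_segment_sim hα _ _ _).symm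

lemma ball_sim (h1 : ‖α‖ = 1) (ρ : ℝ) : sim α β hα ⁻¹' Metric.ball β ρ = Metric.ball 0 ρ := by
  ext z
  simp [h1]

lemma centroid_sim (h1 : ‖α‖ = 1) {Ω : Set ℂ} {ρ : ℝ}
    (h : ∫ z in Ω ∩ Metric.ball β ρ, (z - β) = 0) :
    ∫ z in sim α β hα ⁻¹' Ω ∩ Metric.ball 0 ρ, z = 0 := by
  have hm : MeasurePreserving (sim α β hα) volume volume :=
    ⟨(sim α β hα).continuous.measurable, by rw [map_sim, h1]; simp⟩
  have h2 := hm.setIntegral_preimage_emb (sim α β hα).measurableEmbedding (fun z => z - β)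
    (Ω ∩ Metric.ball β ρ)
  rw [h, preimage_inter, ball_sim hα h1] at h2
  simp only [sim_apply, add_sub_cancel_right] at h2
  rw [integral_const_mul] at h2
  exact (mul_eq_zero.1 h2).resolve_left hα

lemma exists_rot (w : ℂ) : ∃ α : ℂ, ‖α‖ = 1 ∧ w / α = -(‖w‖ : ℂ) := by
  refine ⟨-Complex.exp (Complex.arg w * Complex.I), by simp, ?_⟩
  rw [div_eq_iff (neg_ne_zero.2 (Complex.exp_ne_zero _)), neg_mul_neg,
    Complex.norm_mul_exp_arg_mul_I]

/-! ### topology -/

lemma subset_of_preconn {Ω S : Set ℂ} (hΩ : IsOpen Ω) (hS : IsPreconnected S)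
    (hd : ∀ z ∈ S, z ∉ frontier Ω) (hne : (S ∩ Ω).Nonempty) : S ⊆ Ω := by
  refine hS.subset_left_of_subset_union hΩ isClosed_closure.isOpen_compl
    (disjoint_compl_right.mono_left subset_closure) (fun z hz => ?_) hne
  by_cases h : z ∈ closure Ω
  · left
    by_contra h'
    exact hd z hz (by rw [hΩ.frontier_eq]; exact ⟨h, h'⟩)
  · exact Or.inr h

lemma exists_far {Ω : Set ℂ} (hΩ : IsOpen Ω) (hb : Bornology.IsBounded Ω) {z : ℂ} (hz : z ∈ Ω)
    (h0 : z ≠ 0) : ∃ w ∈ frontier Ω, ‖z‖ ≤ ‖w‖ := by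
  by_contra hcon
  push Not at hcon
  have hn : 0 < ‖z‖ := norm_pos_iff.2 h0
  have hS : IsPreconnected ((fun s : ℝ => s • z) '' Ici 1) :=
    isPreconnected_Ici.image _ (by fun_prop)
  have h1 := subset_of_preconn hΩ hS (by
    rintro _ ⟨s, hs, rfl⟩ hw
    have := hcon _ hw
    rw [norm_smul, Real.norm_of_nonneg (zero_le_one.trans hs)] at this
    nlinarith [mem_Ici.1 hs]) ⟨z, ⟨1, self_mem_Ici, one_smul _ _⟩, hz⟩
  obtain ⟨C, hC⟩ := hb.exists_norm_le
  have h2 := hC z hz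
  have h3 : 1 ≤ C / ‖z‖ + 1 := by
    have : 0 ≤ C / ‖z‖ := div_nonneg (hn.le.trans h2) hn.le
    linarith
  have h4 := hC _ (h1 ⟨C / ‖z‖ + 1, h3, rfl⟩)
  simp only at h4
  rw [norm_smul, Real.norm_of_nonneg (by linarith), add_mul, div_mul_cancel₀ _ hn.ne'] at h4
  linarith

lemma preconn_front {N : ℕ} {v : Fin N → ℂ} {Ω : Set ℂ} (h : IsPoly v Ω) :
    IsPreconnected (frontier Ω) := by
  rw [h.front]
  cases N with
  | zero => simpa using isPreconnected_empty
  | succ n =>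
    have e : ⋃ i : Fin (n + 1), segment ℝ (v i) (v (finRotate (n + 1) i)) =
        ⋃ k : ℕ, segment ℝ (v (Fin.ofNat (n + 1) k)) (v (finRotate (n + 1) (Fin.ofNat (n + 1) k))) := by
      refine (Function.Surjective.iUnion_comp (f := Fin.ofNat (n + 1)) (fun i => ⟨i, ?_⟩)
        fun i => segment ℝ (v i) (v (finRotate (n + 1) i))).symm
      simp
    rw [e]
    refine IsPreconnected.iUnion_of_chain (fun k => (convex_segment _ _).isPreconnected)
      fun k => ⟨v (finRotate (n + 1) (Fin.ofNat (n + 1) k)), right_mem_segment _ _ _, ?_⟩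
    have : finRotate (n + 1) (Fin.ofNat (n + 1) k) = Fin.ofNat (n + 1) (Order.succ k) := by
      rw [finRotate_apply]
      ext
      simp [Fin.val_add]
    rw [this]
    exact left_mem_segment _ _ _

lemma exists_mem_ball {Ω : Set ℂ} {δ η : ℝ} (hη : 0 < η) (hδ : δ ≤ η ^ 2) {x : ℂ}
    (hx : ‖x‖ + η ≤ 1) (hv : volume (Metric.ball (0 : ℂ) 1 \ Ω) ≤ ENNReal.ofReal δ) :
    (Metric.ball x η ∩ Ω).Nonempty := by
  by_contra hcon
  have h1 : Metric.ball x η ⊆ Metric.ball (0 : ℂ) 1 \ Ω := fun z hz =>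
    ⟨Metric.ball_subset_ball' (by simpa [add_comm] using hx) hz, fun h => hcon ⟨z, hz, h⟩⟩
  have h2 := (measure_mono h1).trans (hv.trans (ENNReal.ofReal_le_ofReal hδ))
  rw [Complex.volume_ball, ← ENNReal.ofReal_pow hη.le, ← ENNReal.ofReal_coe_nnreal,
    ← ENNReal.ofReal_mul (by positivity), ENNReal.ofReal_le_ofReal_iff (by positivity),
    NNReal.coe_real_pi] at h2
  nlinarith [pi_gt_three, pow_pos hη 2]

lemma vol_diff_le {Ω : Set ℂ} {δ : ENNReal} (h1 : volume Ω ≤ ENNReal.ofReal π)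
    (hΩ : MeasurableSet Ω) (hv : volume (Metric.ball (0 : ℂ) 1 \ Ω) ≤ δ) :
    volume (Ω \ Metric.ball (0 : ℂ) 1) ≤ δ := by
  have e1 := measure_inter_add_sdiff (μ := volume) Ω (measurableSet_ball (x := (0 : ℂ)) (ε := 1))
  have e2 := measure_inter_add_sdiff (μ := volume) (Metric.ball (0 : ℂ) 1) hΩ
  have e3 : volume (Metric.ball (0 : ℂ) 1) = ENNReal.ofReal π := by
    rw [Complex.volume_ball, ← ENNReal.ofReal_coe_nnreal]; simp
  have h4 : volume (Ω ∩ Metric.ball (0 : ℂ) 1) ≠ ⊤ :=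
    ne_top_of_le_ne_top ENNReal.ofReal_ne_top ((measure_mono inter_subset_left).trans h1)
  refine le_trans ((ENNReal.add_le_add_iff_left h4).1 ?_) hv
  rw [e1, inter_comm, e2, e3]
  exact h1

lemma zero_of_front {Ω : Set ℂ} (hΩ : IsOpen Ω) {u : ℂ → ℝ} (hs : tsupport u ⊆ Ω) {z : ℂ}
    (hz : z ∈ frontier Ω) : u z = 0 := by
  rw [hΩ.frontier_eq] at hz
  exact image_eq_zero_of_notMem_tsupport fun h => hz.2 (hs h)

lemma ma_pos {u : ℂ → ℝ} (hu : ContDiff ℝ 1 u) (hc : HasCompactSupport u) (h0 : u ≠ 0) :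
    0 < ma u := by
  obtain ⟨z, hz⟩ := Function.ne_iff.1 h0
  exact (hu.continuous.pow 2).integral_pos_of_hasCompactSupport_nonneg_nonzero
    (hc.comp_left (g := fun x => x ^ 2) (by simp)) (fun _ => sq_nonneg _) (x := z)
    (pow_ne_zero 2 hz)

end Pool.Agent.PSz.Fi
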