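import Pool.Agent.P.MP_7b7370_an.FDefs
import Pool.Agent.P.MP_7b7370_an.FinalA

/-! Definitions for the decomposition of a polygon into cells. -/

set_option autoImplicit false

namespace Pool.Agent.PSF

open Real Set MeasureTheory Pool.Agent.PSz

def ipr (n z : ℂ) : ℝ := n.re * z.re + n.im * z.im
def HP (n : ℂ) (h : ℝ) : Set ℂ := {z | ipr n z < h}
def HQ (n : ℂ) (h : ℝ) : Set ℂ := {z | h < ipr n z}

structure Tst (Ω : Set ℂ) (u : ℂ → ℝ) : Prop where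
  c1 : ContDiff ℝ 1 u
  cs : HasCompactSupport u
  sub : tsupport u ⊆ Ω

noncomputable def Qu (u : ℂ → ℝ) (r : ℝ) (Z : Set ℂ) : ℝ :=
  ∫ z in Z, (‖fderiv ℝ u z‖ ^ 2 - r * u z ^ 2)

open Classical in
/-- number of vertices inside the cell or on its open base -/
noncomputable def cnt {N : ℕ} (v : Fin N → ℂ) (C : Set ℂ) (n : ℂ) (h : ℝ) : ℕ :=
  (Finset.univ.filter fun i => v i ∈ C ∧ ipr n (v i) ≤ h).card

/-- the cell is `C ∩ HP n h`, its base is the part of `C` on the line `ipr n z = h` -/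
structure Cell (Ω C : Set ℂ) (a b : ℝ) (n : ℂ) (h : ℝ) : Prop where
  op : IsOpen C
  cv : Convex ℝ C
  le : a ≤ b
  rc : Rec C a b
  un : ‖n‖ = 1
  bd : Bornology.IsBounded (C ∩ HP n h)
  out : ∀ z ∈ C, ipr n z = h → z ∉ Ω

/-- the cell inequality in linear form -/
def CLin (σ c : ℝ) : Prop :=
  ∀ (Ω C : Set ℂ) (a b : ℝ) (n : ℂ) (h : ℝ) (u : ℂ → ℝ), IsOpen Ω → Cell Ω C a b n h → a < b →
    Tst Ω u → (σ * (b - a) - c) * ∫ z in C ∩ HP n h, u z ^ 2 ≤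
      (volume (C ∩ HP n h)).toReal * ∫ z in C ∩ HP n h, ‖fderiv ℝ u z‖ ^ 2

/-- supporting lines through the edges of the convex hull -/
structure Hull {N m : ℕ} (v : Fin N → ℂ) (nr : Fin m → ℂ) (hh : Fin m → ℝ) : Prop where
  un : ∀ k, ‖nr k‖ = 1
  inj : Function.Injective nr
  le : ∀ k i, ipr (nr k) (v i) ≤ hh k
  span : ∀ d : ℂ, d ≠ 0 → ∃ k, 0 < ipr (nr k) d
  cor : ∃ idx : Fin m → Fin N, Function.Injective idx ∧
    ∀ k, ∃ j, j ≠ k ∧ ipr (nr k) (v (idx k)) = hh k ∧ ipr (nr j) (v (idx k)) = hh j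

/-- cells of the weighted skeleton -/
def Ck {m : ℕ} (nr : Fin m → ℂ) (hh w : Fin m → ℝ) (k : Fin m) : Set ℂ :=
  {z | ∀ j, j ≠ k → (hh k - ipr (nr k) z) * w j < (hh j - ipr (nr j) z) * w k}

@[fun_prop] lemma Continuous.ipr {X : Type*} [TopologicalSpace X] {n z : X → ℂ}
    (hn : Continuous n) (hz : Continuous z) : Continuous fun x => ipr (n x) (z x) := by
  unfold Pool.Agent.PSF.ipr; fun_prop

lemma ipr_add (n z w : ℂ) : ipr n (z + w) = ipr n z + ipr n w := by simp [ipr]; ring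
lemma ipr_sub (n z w : ℂ) : ipr n (z - w) = ipr n z - ipr n w := by simp [ipr]; ring
lemma ipr_mul (n z : ℂ) (s : ℝ) : ipr n ((s : ℂ) * z) = s * ipr n z := by simp [ipr]; ring
lemma ipr_smul (n z : ℂ) (s : ℝ) : ipr n (s • z) = s * ipr n z := by simp [ipr]; ring
lemma ipr_neg_left (n z : ℂ) : ipr (-n) z = -ipr n z := by simp [ipr]; ring
lemma ipr_self (n : ℂ) : ipr n n = ‖n‖ ^ 2 := by
  rw [Complex.sq_norm, Complex.normSq_apply]; rfl
lemma ipr_I_cis (t s : ℝ) : ipr (Complex.I * cis t) (cis s) = sin (s - t) := by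
  simp [ipr, sin_sub]; ring
lemma abs_ipr_le (n z : ℂ) : |ipr n z| ≤ ‖n‖ * ‖z‖ := by
  refine abs_le_of_sq_le_sq' ?_ (by positivity) |> abs_le.2
  rw [mul_pow, Complex.sq_norm, Complex.sq_norm, Complex.normSq_apply, Complex.normSq_apply, ipr]
  nlinarith [sq_nonneg (n.re * z.im - n.im * z.re)]

lemma isOpen_HP (n : ℂ) (h : ℝ) : IsOpen (HP n h) := isOpen_lt (by fun_prop) continuous_const
lemma isOpen_HQ (n : ℂ) (h : ℝ) : IsOpen (HQ n h) := isOpen_lt continuous_const (by fun_prop)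
lemma isLinearMap_ipr (n : ℂ) : IsLinearMap ℝ (ipr n) := ⟨ipr_add n, fun s z => ipr_smul n z s⟩
lemma convex_HP (n : ℂ) (h : ℝ) : Convex ℝ (HP n h) := convex_halfSpace_lt (isLinearMap_ipr n) h
lemma convex_HQ (n : ℂ) (h : ℝ) : Convex ℝ (HQ n h) := convex_halfSpace_gt (isLinearMap_ipr n) h

lemma Rec.cis {C : Set ℂ} {a b : ℝ} (h : Rec C a b) {z : ℂ} (hz : z ∈ C) {t : ℝ}
    (ht : t ∈ Icc a b) {s : ℝ} (hs : 0 ≤ s) : z + (s : ℂ) * cis t ∈ C := h z hz t ht s hs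

end Pool.Agent.PSF
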