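import Pool.Agent.P.MP_7b7370_an.DCE0

set_option autoImplicit false

namespace Pool.Agent.PSF

open Real Set MeasureTheory Pool.Agent.PSz

theorem dce_fin {Ω C : Set ℂ} {a b h : ℝ} {n : ℂ} (hC : Cell Ω C a b n h)
    (hne : (C ∩ HP n h).Nonempty) {ν : ℂ} {k : ℝ} (hν : ‖ν‖ = 1)
    (h1 : ∀ z ∈ C, ipr ν z = k → ipr n z < h ∧ z ∉ Ω) (h2 : ∀ t ∈ Icc a b, 0 < ipr ν (cis t)) :
    Cell Ω (C ∩ HQ ν k) a b n h ∧ Cell Ω C a b ν k ∧ ∀ z ∈ C, ipr ν z ≤ k → ipr n z < h := by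
  have last : ∀ z ∈ C, ipr ν z ≤ k → ipr n z < h := by
    intro z hz hk
    have ha : a ∈ Icc a b := left_mem_Icc.2 hC.le
    have p1 := h2 a ha
    have p2 := hC.dir_pos hne ha
    have hs : 0 ≤ (k - ipr ν z) / ipr ν (cis a) := div_nonneg (by linarith) p1.le
    have h3 := (h1 _ (hC.rc.cis hz ha hs) (by
      rw [ipr_add, ipr_mul, div_mul_cancel₀ _ p1.ne']; ring)).1
    rw [ipr_add, ipr_mul] at h3
    have := mul_nonneg hs p2.le
    linarith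
  refine ⟨⟨hC.op.inter (isOpen_HQ ν k), hC.cv.inter (convex_HQ ν k), hC.le, ?_, hC.un,
    hC.bd.subset fun z hz => ⟨hz.1.1, hz.2⟩, fun z hz => hC.out z hz.1⟩,
    ⟨hC.op, hC.cv, hC.le, hC.rc, hν, hC.bd.subset fun z hz => ⟨hz.1, last z hz.1 (le_of_lt hz.2)⟩,
      fun z hz hk => (h1 z hz hk).2⟩, last⟩
  intro z hz t ht s hs
  refine ⟨hC.rc.cis hz.1 ht hs, ?_⟩
  have h3 : k < ipr ν z := hz.2
  have h4 := mul_nonneg hs (h2 t ht).le
  change k < ipr ν (z + (s : ℂ) * cis t)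
  rw [ipr_add, ipr_mul]
  linarith

theorem dce_cross {Ω C : Set ℂ} {a b h : ℝ} {n : ℂ} (hC : Cell Ω C a b n h) {ν x0 y0 : ℂ} {k ε : ℝ}
    (hν : ‖ν‖ = 1) (hx : ipr ν x0 = k) (hx' : ipr n x0 < h) (hy : y0 ∈ C) (hy1 : ipr ν y0 = k)
    (hy2 : ipr n y0 = h) (hε : 0 < ε)
    (hd : Metric.ball y0 ε ∩ HQ ν k ⊆ Ω ∨ Metric.ball y0 ε ∩ HP ν k ⊆ Ω) : False := by
  obtain ⟨δ, hδ, hb⟩ := Metric.isOpen_iff.1 hC.op y0 hy
  obtain ⟨c, hc⟩ : ∃ c, c = ipr ν (Complex.I * n) := ⟨_, rfl⟩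
  have hn1 : ‖Complex.I * n‖ = 1 := by rw [norm_mul, Complex.norm_I, hC.un, one_mul]
  have hc1 : |c| ≤ 1 := by
    have := abs_ipr_le ν (Complex.I * n)
    rwa [hν, hn1, one_mul, ← hc] at this
  have hc0 : c ≠ 0 := by
    intro h0
    have e1 : ν.re * ν.re + ν.im * ν.im = 1 := by
      have := ipr_self ν
      rw [hν] at this
      simpa [ipr] using this
    have e2 : ν.im * n.re - ν.re * n.im = 0 := by
      rw [← h0, hc]; simp [ipr]; ring
    simp only [ipr] at hx hx' hy1 hy2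
    have e3 : n.re * (x0.re - y0.re) + n.im * (x0.im - y0.im) = 0 := by
      linear_combination (-(n.re * (x0.re - y0.re) + n.im * (x0.im - y0.im))) * e1 +
        (ν.re * n.re + ν.im * n.im) * (hx - hy1) -
        (ν.re * (x0.im - y0.im) - ν.im * (x0.re - y0.re)) * e2
    linarith
  have hm : 0 < min ε δ := lt_min hε hδ
  have key : ∀ s : ℝ, |s| < min ε δ → y0 + (s : ℂ) * (Complex.I * n) ∈ Metric.ball y0 ε ∧
      y0 + (s : ℂ) * (Complex.I * n) ∉ Ω ∧ ipr ν (y0 + (s : ℂ) * (Complex.I * n)) = k + s * c := by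
    intro s hs
    have e : dist (y0 + (s : ℂ) * (Complex.I * n)) y0 = |s| := by
      rw [dist_self_add_left, norm_mul, hn1, mul_one, Complex.norm_real, Real.norm_eq_abs]
    refine ⟨?_, hC.out _ (hb ?_) ?_, ?_⟩
    · rw [Metric.mem_ball, e]; exact hs.trans_le (min_le_left _ _)
    · rw [Metric.mem_ball, e]; exact hs.trans_le (min_le_right _ _)
    · have : ipr n (Complex.I * n) = 0 := by simp [ipr]; ring
      rw [ipr_add, ipr_mul, this, hy2]; ring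
    · rw [ipr_add, ipr_mul, hy1, hc]
  have hs : |min ε δ / 2 * c| < min ε δ := by
    rw [abs_mul, abs_of_pos (half_pos hm)]
    nlinarith
  have hcc : 0 < min ε δ / 2 * c * c := by
    rw [mul_assoc]; exact mul_pos (half_pos hm) (mul_self_pos.2 hc0)
  rcases hd with hd | hd
  · obtain ⟨k1, k2, k3⟩ := key _ hs
    refine k2 (hd ⟨k1, ?_⟩)
    change k < ipr ν _
    rw [k3]; linarith
  · obtain ⟨k1, k2, k3⟩ := key (-(min ε δ / 2 * c)) (by rwa [abs_neg])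
    refine k2 (hd ⟨k1, ?_⟩)
    change ipr ν _ < k
    rw [k3]; linarith

/-- cutting a cell without vertices along a side of the polygon -/
theorem chord {N : ℕ} {v : Fin N → ℂ} {Ω C : Set ℂ} (hP : IsPoly v Ω) {a b h : ℝ} {n : ℂ}
    (hC : Cell Ω C a b n h) (h0 : cnt v C n h = 0) {i : Fin N}
    (hi : (segment ℝ (v i) (v (finRotate N i)) ∩ (C ∩ HP n h)).Nonempty) :
    ∃ (ν : ℂ) (k : ℝ), (∀ z ∈ segment ℝ (v i) (v (finRotate N i)), ipr ν z = k) ∧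
      Cell Ω (C ∩ HQ ν k) a b n h ∧ Cell Ω C a b ν k ∧
      ∀ z ∈ C, ipr ν z ≤ k → ipr n z < h := by
  classical
  obtain ⟨x0, hx0, hx0C, hx0P⟩ := hi
  have hne : (C ∩ HP n h).Nonempty := ⟨x0, hx0C, hx0P⟩
  have hx0P' : ipr n x0 < h := hx0P
  have hv : ∀ j, ¬(v j ∈ C ∧ ipr n (v j) ≤ h) := by
    intro j
    have := Finset.filter_eq_empty_iff.1 (Finset.card_eq_zero.1 h0) (Finset.mem_univ j)
    exact this
  have hxy : v i ≠ v (finRotate N i) := by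
    intro e
    rw [← e, segment_same, mem_singleton_iff] at hx0
    exact hv i ⟨hx0 ▸ hx0C, hx0 ▸ hx0P'.le⟩
  have hd : 0 < ‖v (finRotate N i) - v i‖ := norm_pos_iff.2 (sub_ne_zero.2 hxy.symm)
  obtain ⟨ν, hν, hνd⟩ : ∃ ν : ℂ, ‖ν‖ = 1 ∧ ipr ν (v (finRotate N i) - v i) = 0 := by
    refine ⟨((‖v (finRotate N i) - v i‖⁻¹ : ℝ) : ℂ) * (Complex.I * (v (finRotate N i) - v i)), ?_, ?_⟩
    · rw [norm_mul, norm_mul, Complex.norm_I, one_mul, Complex.norm_real, norm_inv, norm_norm,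
        inv_mul_cancel₀ hd.ne']
    · generalize ‖v (finRotate N i) - v i‖⁻¹ = r
      generalize v (finRotate N i) - v i = w
      simp [ipr]; ring
  have hν0 : ν ≠ 0 := by
    intro e; rw [e, norm_zero] at hν; exact zero_ne_one hν
  obtain ⟨k, hk⟩ : ∃ k, ipr ν (v i) = k := ⟨_, rfl⟩
  have hk' : ipr ν (v (finRotate N i)) = k := by
    rw [ipr_sub] at hνd; linarith
  have hl : ∀ z ∈ segment ℝ (v i) (v (finRotate N i)), ipr ν z = k := by
    rintro z ⟨s, t, -, -, hst, rfl⟩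
    rw [ipr_add, ipr_smul, ipr_smul, hk, hk', ← add_mul, hst, one_mul]
  have hS : (C ∩ {z | ipr n z ≤ h}) ∩ {z | ipr ν z = k} ⊆ segment ℝ (v i) (v (finRotate N i)) :=
    sub_segment hxy hν0 hk hk'
      ((hC.cv.inter (convex_halfSpace_le (isLinearMap_ipr n) h)).inter
        (convex_hyperplane (isLinearMap_ipr ν) k))
      (fun z hz => hz.2) ⟨x0, hx0, ⟨hx0C, hx0P'.le⟩, hl x0 hx0⟩
      (fun hz => hv _ hz.1) (fun hz => hv _ hz.1)
  have c1 : ∀ y0 ∈ C, ipr ν y0 = k → ipr n y0 ≠ h := by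
    intro y0 hy hy1 hy2
    obtain ⟨ε, hε, hdisc⟩ := half_disc hP (hS ⟨⟨hy, hy2.le⟩, hy1⟩)
      (fun j e => hv j ⟨e ▸ hy, e ▸ hy2.le⟩) hν0 hl
    exact dce_cross hC hν (hl x0 hx0) hx0P' hy hy1 hy2 hε hdisc
  have c2 : ∀ z ∈ C, ipr ν z = k → ipr n z < h := by
    intro z hz hz1
    by_contra hz2
    rw [not_lt] at hz2
    have hp : 0 < ipr n z - ipr n x0 := by linarith
    refine c1 (x0 + ((h - ipr n x0) / (ipr n z - ipr n x0)) • (z - x0))
      (hC.cv.add_smul_sub_mem hx0C hz ⟨div_nonneg (by linarith) hp.le,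
        (div_le_one hp).2 (by linarith)⟩) ?_ ?_
    · rw [ipr_add, ipr_smul, ipr_sub ν, hz1, hl x0 hx0]; ring
    · rw [ipr_add, ipr_smul, ipr_sub n z x0, div_mul_cancel₀ _ hp.ne']; ring
  have c3 : ∀ z ∈ C, ipr ν z = k → ipr n z < h ∧ z ∉ Ω := by
    intro z hz hz1
    refine ⟨c2 z hz hz1, fun hΩ => ?_⟩
    have h1 : z ∈ frontier Ω := by
      rw [hP.front]
      exact mem_iUnion.2 ⟨i, hS ⟨⟨hz, (c2 z hz hz1).le⟩, hz1⟩⟩
    rw [hP.isOpen.frontier_eq] at h1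
    exact h1.2 hΩ
  have c4 : ∀ t ∈ Icc a b, ipr ν (cis t) ≠ 0 := by
    intro t ht e
    have p2 := hC.dir_pos hne ht
    have hs : 0 ≤ (h - ipr n x0) / ipr n (cis t) := div_nonneg (by linarith) p2.le
    refine c1 _ (hC.rc.cis hx0C ht hs) ?_ ?_
    · rw [ipr_add, ipr_mul, e, hl x0 hx0]; ring
    · rw [ipr_add, ipr_mul, div_mul_cancel₀ _ p2.ne']; ring
  have hcont : ContinuousOn (fun t : ℝ => ipr ν (cis t)) (Icc a b) := by
    apply Continuous.continuousOn; fun_prop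
  have ha : a ∈ Icc a b := left_mem_Icc.2 hC.le
  rcases lt_or_gt_of_ne (c4 a ha) with hneg | hpos
  · refine ⟨-ν, -k, fun z hz => by rw [ipr_neg_left, hl z hz], dce_fin hC hne (by rwa [norm_neg])
      (fun z hz hz1 => c3 z hz (by rw [ipr_neg_left] at hz1; linarith)) fun t ht => ?_⟩
    rw [ipr_neg_left, neg_pos]
    by_contra hc
    obtain ⟨s, hs, e⟩ := isPreconnected_Icc.intermediate_value ha ht hcont
      (⟨hneg.le, not_lt.1 hc⟩ : (0 : ℝ) ∈ Icc _ _)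
    exact c4 s hs e
  · refine ⟨ν, k, hl, dce_fin hC hne hν c3 fun t ht => ?_⟩
    by_contra hc
    obtain ⟨s, hs, e⟩ := isPreconnected_Icc.intermediate_value ht ha hcont
      (⟨not_lt.1 hc, hpos.le⟩ : (0 : ℝ) ∈ Icc _ _)
    exact c4 s hs e

end Pool.Agent.PSF
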