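import Pool.Agent.P.MP_7b7370_an.DCA

set_option autoImplicit false

namespace Pool.Agent.PSF

open Real Set MeasureTheory Pool.Agent.PSz

/-- one of the two half discs at an inner point of a side lies in the polygon -/
theorem half_disc {N : ℕ} {v : Fin N → ℂ} {Ω : Set ℂ} (hP : IsPoly v Ω) {i : Fin N} {y : ℂ}
    (hy : y ∈ segment ℝ (v i) (v (finRotate N i))) (hv : ∀ j, y ≠ v j) {ν : ℂ} (hν : ν ≠ 0)
    {k : ℝ} (hl : ∀ z ∈ segment ℝ (v i) (v (finRotate N i)), ipr ν z = k) :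
    ∃ ε > 0, Metric.ball y ε ∩ HQ ν k ⊆ Ω ∨ Metric.ball y ε ∩ HP ν k ⊆ Ω := by
  have hcl : ∀ j : Fin N, IsClosed (segment ℝ (v j) (v (finRotate N j))) := fun j => by
    rw [segment_eq_image]
    exact (isCompact_Icc.image (by fun_prop)).isClosed
  have hA : IsClosed (⋃ j ∈ {j : Fin N | j ≠ i}, segment ℝ (v j) (v (finRotate N j))) :=
    (Set.toFinite _).isClosed_biUnion fun j _ => hcl j
  have hyA : y ∉ ⋃ j ∈ {j : Fin N | j ≠ i}, segment ℝ (v j) (v (finRotate N j)) := by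
    intro h
    obtain ⟨j, hj, hyj⟩ := mem_iUnion₂.1 h
    rcases hP.simple i j (Ne.symm hj) y ⟨hy, hyj⟩ with h1 | h1
    · exact hv _ h1.2
    · exact hv _ h1.2
  obtain ⟨ε, hε, hb⟩ := Metric.isOpen_iff.1 hA.isOpen_compl y hyA
  have hfr : ∀ z ∈ Metric.ball y ε, z ∈ frontier Ω → ipr ν z = k := by
    intro z hz hf
    rw [hP.front] at hf
    obtain ⟨j, hj⟩ := mem_iUnion.1 hf
    by_cases e : j = i
    · exact hl z (e ▸ hj)
    · exact absurd (mem_iUnion₂.2 ⟨j, e, hj⟩) (hb hz)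
  have hyc : y ∈ closure Ω := frontier_subset_closure (by
    rw [hP.front]
    exact mem_iUnion.2 ⟨i, hy⟩)
  have hne : (Metric.ball y ε ∩ Ω).Nonempty :=
    mem_closure_iff.1 hyc _ Metric.isOpen_ball (Metric.mem_ball_self hε)
  obtain ⟨z, hz, hzk⟩ : ∃ z ∈ Metric.ball y ε ∩ Ω, ipr ν z ≠ k := by
    by_contra! h
    have h1 := (Metric.isOpen_ball.inter hP.isOpen).measure_pos volume hne
    exact h1.ne' (measure_mono_null (fun z hz => h z hz) (vol_line hν k))
  have key : ∀ H : Set ℂ, Convex ℝ H → (∀ w ∈ H, ipr ν w ≠ k) → z ∈ H →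
      Metric.ball y ε ∩ H ⊆ Ω := by
    intro H hH hk hzH
    have hc := ((convex_ball y ε).inter hH).isPreconnected
    refine hc.subset_of_closure_inter_subset hP.isOpen ⟨z, ⟨hz.1, hzH⟩, hz.2⟩ ?_
    rintro w ⟨h1, h2⟩
    by_contra h3
    refine hk w h2.2 (hfr w h2.1 ?_)
    rw [hP.isOpen.frontier_eq]
    exact ⟨h1, h3⟩
  refine ⟨ε, hε, ?_⟩
  rcases lt_or_gt_of_ne hzk with h | h
  · exact Or.inr (key _ (convex_HP ν k) (fun w hw => ne_of_lt hw) h)
  · exact Or.inl (key _ (convex_HQ ν k) (fun w hw => ne_of_gt hw) h)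

/-- a convex part of the line through `x, y` that meets the segment and misses both ends -/
theorem sub_segment {x y ν : ℂ} (hxy : x ≠ y) (hν : ν ≠ 0) {k : ℝ} (hx : ipr ν x = k)
    (hy : ipr ν y = k) {S : Set ℂ} (hS : Convex ℝ S) (hl : ∀ z ∈ S, ipr ν z = k)
    (hne : (segment ℝ x y ∩ S).Nonempty) (h1 : x ∉ S) (h2 : y ∉ S) : S ⊆ segment ℝ x y := by
  have hpar : ∀ z, ipr ν z = k → ∃ s : ℝ, z = x + s • (y - x) := by
    intro z hz
    have hd : y - x ≠ 0 := sub_ne_zero.2 hxy.symm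
    have hn : Complex.normSq (y - x) ≠ 0 := fun h => hd (Complex.normSq_eq_zero.1 h)
    have hν' : Complex.normSq ν ≠ 0 := fun h => hν (Complex.normSq_eq_zero.1 h)
    have e1 : ipr ν (y - x) = 0 := by rw [ipr_sub, hx, hy, sub_self]
    have e2 : ipr ν (z - x) = 0 := by rw [ipr_sub, hx, hz, sub_self]
    have e3 : (y - x).re * (z - x).im - (y - x).im * (z - x).re = 0 := by
      apply mul_left_cancel₀ hν'
      rw [Complex.normSq_apply]
      unfold ipr at e1 e2
      linear_combination (ν.re * (z - x).im - ν.im * (z - x).re) * e1 +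
        (ν.im * (y - x).re - ν.re * (y - x).im) * e2
    refine ⟨ipr (y - x) (z - x) / Complex.normSq (y - x), ?_⟩
    rw [← sub_eq_iff_eq_add']
    generalize y - x = d at *
    generalize z - x = w at *
    rw [Complex.normSq_apply] at hn ⊢
    apply Complex.ext
    · simp only [ipr, Complex.smul_re, smul_eq_mul]
      rw [div_mul_eq_mul_div, eq_div_iff hn]
      linear_combination (-d.im) * e3
    · simp only [ipr, Complex.smul_im, smul_eq_mul]
      rw [div_mul_eq_mul_div, eq_div_iff hn]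
      linear_combination d.re * e3
  obtain ⟨p, hp, hpS⟩ := hne
  rw [segment_eq_image'] at hp ⊢
  obtain ⟨r, hr, rfl⟩ := hp
  intro z hz
  obtain ⟨s, rfl⟩ := hpar z (hl z hz)
  have hpre : Convex ℝ {t : ℝ | x + t • (y - x) ∈ S} := by
    intro t1 h1 t2 h2 α β hα hβ hs
    have := hS h1 h2 hα hβ hs
    have e : α • (x + t1 • (y - x)) + β • (x + t2 • (y - x)) = x + (α • t1 + β • t2) • (y - x) := by
      rw [smul_add, smul_add, add_add_add_comm, ← add_smul, hs, one_smul, add_smul, smul_assoc,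
        smul_assoc]
    rw [e] at this
    exact this
  have ho := hpre.ordConnected
  refine ⟨s, ⟨?_, ?_⟩, rfl⟩
  · by_contra! h
    have : (0 : ℝ) ∈ {t : ℝ | x + t • (y - x) ∈ S} := ho.out hz hpS ⟨h.le, hr.1⟩
    exact h1 (by simpa using this)
  · by_contra! h
    have : (1 : ℝ) ∈ {t : ℝ | x + t • (y - x) ∈ S} := ho.out hpS hz ⟨hr.2, h.le⟩
    exact h2 (by simpa using this)

end Pool.Agent.PSF
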