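import Pool.Agent.P.MP_7b7370_an.DCD
import Pool.Agent.P.MP_7b7370_an.DCE

set_option autoImplicit false

namespace Pool.Agent.PSF

open Real Set MeasureTheory Pool.Agent.PSz

lemma dcf_cnt {N : ℕ} {v : Fin N → ℂ} {C : Set ℂ} {n : ℂ} {h : ℝ} :
    cnt v C n h = 0 ↔ ∀ i, v i ∈ C → ¬ipr n (v i) ≤ h := by
  simp [cnt, Finset.card_eq_zero, Finset.filter_eq_empty_iff]

open Classical in
lemma dcf_lt {N : ℕ} (v : Fin N → ℂ) {Y Z : Set ℂ} (hYZ : Y ⊆ Z) {i : Fin N}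
    (hi : (segment ℝ (v i) (v (finRotate N i)) ∩ Z).Nonempty)
    (hn : ¬(segment ℝ (v i) (v (finRotate N i)) ∩ Y).Nonempty) :
    (Finset.univ.filter fun j => (segment ℝ (v j) (v (finRotate N j)) ∩ Y).Nonempty).card <
      (Finset.univ.filter fun j => (segment ℝ (v j) (v (finRotate N j)) ∩ Z).Nonempty).card := by
  refine Finset.card_lt_card ⟨fun j hj => ?_, fun hs => hn ?_⟩
  · rw [Finset.mem_filter] at hj ⊢
    exact ⟨hj.1, hj.2.mono (inter_subset_inter_right _ hYZ)⟩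
  · exact (Finset.mem_filter.1 (hs (Finset.mem_filter.2 ⟨Finset.mem_univ i, hi⟩))).2

open Classical in
lemma dcf_ind {σ c r : ℝ} (hc : 0 ≤ c) (hr : 0 ≤ r) (hL : CLin σ c) {N : ℕ} {v : Fin N → ℂ}
    {Ω : Set ℂ} (hP : IsPoly v Ω) {u : ℂ → ℝ} (hu : Tst Ω u) {a b : ℝ} (m : ℕ) :
    ∀ (C : Set ℂ) (h : ℝ) (n : ℂ), Cell Ω C a b n h → cnt v C n h = 0 →
      r * (volume (C ∩ HP n h ∩ Ω)).toReal ≤ σ * (b - a) - c →
      (Finset.univ.filter fun j =>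
        (segment ℝ (v j) (v (finRotate N j)) ∩ (C ∩ HP n h)).Nonempty).card < m →
      0 ≤ Qu u r (C ∩ HP n h) := by
  induction m with
  | zero => intro C h n _ _ _ hm; exact absurd hm (Nat.not_lt_zero _)
  | succ m ih =>
    intro C h n hC h0 hv hm
    by_cases hex : ∃ i, (segment ℝ (v i) (v (finRotate N i)) ∩ (C ∩ HP n h)).Nonempty
    swap
    · refine Q_base hc hr hL hP.isOpen hu hC (fun z hz hf => hex ?_) hv
      rw [hP.front, mem_iUnion] at hf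
      obtain ⟨i, hi⟩ := hf
      exact ⟨i, z, hi, hz⟩
    obtain ⟨i, hi⟩ := hex
    obtain ⟨ν, k, hl, hC1, hC2, hk⟩ := chord hP hC h0 hi
    have hν : ν ≠ 0 := by
      intro e
      have := hC2.un
      rw [e, norm_zero] at this
      exact zero_ne_one this
    have e1 : C ∩ HP n h ∩ HQ ν k = C ∩ HQ ν k ∩ HP n h := inter_right_comm _ _ _
    have e2 : C ∩ HP n h ∩ HP ν k = C ∩ HP ν k :=
      Subset.antisymm (fun z hz => ⟨hz.1.1, hz.2⟩)
        fun z hz => ⟨⟨hz.1, hk z hz.1 (le_of_lt hz.2)⟩, hz.2⟩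
    have s1 : C ∩ HQ ν k ∩ HP n h ⊆ C ∩ HP n h := e1 ▸ inter_subset_left
    have s2 : C ∩ HP ν k ⊆ C ∩ HP n h := e2 ▸ inter_subset_left
    have hb : Bornology.IsBounded (C ∩ HP n h ∩ Ω) := hC.bd.subset inter_subset_left
    have hvol : ∀ Y ⊆ C ∩ HP n h, r * (volume (Y ∩ Ω)).toReal ≤ σ * (b - a) - c := fun Y hY =>
      (mul_le_mul_of_nonneg_left (vol_mono hb (inter_subset_inter_left _ hY)) hr).trans hv
    rw [Qu_split hu r (hC.op.inter (isOpen_HP n h)).measurableSet hν k, e1, e2]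
    rw [dcf_cnt] at h0
    refine add_nonneg (ih _ h n hC1 (dcf_cnt.2 fun j hj => h0 j hj.1) (hvol _ s1) ?_)
      (ih _ k ν hC2 (dcf_cnt.2 fun j hj hj' => h0 j hj (hk _ hj hj').le) (hvol _ s2) ?_)
    · refine (dcf_lt v s1 hi ?_).trans_le (Nat.lt_succ_iff.1 hm)
      rintro ⟨z, h1, h2⟩
      exact (hl z h1).not_gt h2.1.2
    · refine (dcf_lt v s2 hi ?_).trans_le (Nat.lt_succ_iff.1 hm)
      rintro ⟨z, h1, h2⟩
      exact (hl z h1).not_lt h2.2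

/-- cells without vertices: induction on the number of sides that meet the cell -/
theorem Q_zero {σ c r : ℝ} (hc : 0 ≤ c) (hr : 0 ≤ r) (hL : CLin σ c) {N : ℕ} {v : Fin N → ℂ}
    {Ω : Set ℂ} (hP : IsPoly v Ω) {u : ℂ → ℝ} (hu : Tst Ω u) {C : Set ℂ} {a b h : ℝ} {n : ℂ}
    (hC : Cell Ω C a b n h) (h0 : cnt v C n h = 0)
    (hv : r * (volume (C ∩ HP n h ∩ Ω)).toReal ≤ σ * (b - a) - c) :
    0 ≤ Qu u r (C ∩ HP n h) := by
  exact dcf_ind hc hr hL hP hu _ C h n hC h0 hv (Nat.lt_succ_self _)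

end Pool.Agent.PSF
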