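import Pool.Agent.P.MP_7b7370_an.DCA
import Pool.Agent.P.MP_7b7370_an.DCB

set_option autoImplicit false

namespace Pool.Agent.PSF

open Real Set MeasureTheory Pool.Agent.PSz

theorem Cell.left {Ω C : Set ℂ} {a b h : ℝ} {n : ℂ} (hC : Cell Ω C a b n h) (hπ : b - a < π)
    {t : ℝ} (ht : t ∈ Icc a b) (k : ℝ) :
    Cell Ω (C ∩ HQ (Complex.I * cis t) k) t b n h := by
  refine ⟨hC.op.inter (isOpen_HQ _ _), hC.cv.inter (convex_HQ _ _), ht.2, ?_, hC.un,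
    hC.bd.subset fun z hz => ⟨hz.1.1, hz.2⟩, fun z hz => hC.out z hz.1⟩
  intro z hz θ hθ s hs
  refine ⟨hC.rc.cis hz.1 ⟨ht.1.trans hθ.1, hθ.2⟩ hs, ?_⟩
  have h1 : 0 ≤ sin (θ - t) :=
    sin_nonneg_of_nonneg_of_le_pi (sub_nonneg.2 hθ.1) (by linarith [ht.1, hθ.2])
  have h2 : k < ipr (Complex.I * cis t) z := hz.2
  show k < ipr (Complex.I * cis t) (z + (s : ℂ) * cis θ)
  rw [ipr_add, ipr_mul, ipr_I_cis]
  nlinarith [mul_nonneg hs h1]

theorem Cell.right {Ω C : Set ℂ} {a b h : ℝ} {n : ℂ} (hC : Cell Ω C a b n h) (hπ : b - a < π)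
    {t : ℝ} (ht : t ∈ Icc a b) (k : ℝ) :
    Cell Ω (C ∩ HP (Complex.I * cis t) k) a t n h := by
  refine ⟨hC.op.inter (isOpen_HP _ _), hC.cv.inter (convex_HP _ _), ht.1, ?_, hC.un,
    hC.bd.subset fun z hz => ⟨hz.1.1, hz.2⟩, fun z hz => hC.out z hz.1⟩
  intro z hz θ hθ s hs
  refine ⟨hC.rc.cis hz.1 ⟨hθ.1, hθ.2.trans ht.2⟩ hs, ?_⟩
  have h1 : 0 ≤ sin (t - θ) :=
    sin_nonneg_of_nonneg_of_le_pi (sub_nonneg.2 hθ.2) (by linarith [ht.2, hθ.1])
  have h2 : ipr (Complex.I * cis t) z < k := hz.2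
  show ipr (Complex.I * cis t) (z + (s : ℂ) * cis θ) < k
  rw [ipr_add, ipr_mul, ipr_I_cis, ← neg_sub t θ, sin_neg]
  nlinarith [mul_nonneg hs h1]

theorem cnt_cut {N : ℕ} (v : Fin N → ℂ) (C : Set ℂ) (n ν : ℂ) (h : ℝ) {i : Fin N}
    (hi : v i ∈ C ∧ ipr n (v i) ≤ h) :
    cnt v (C ∩ HQ ν (ipr ν (v i))) n h + cnt v (C ∩ HP ν (ipr ν (v i))) n h + 1
      ≤ cnt v C n h := by
  classical
  obtain ⟨S, hS, hm⟩ : ∃ S : Set ℂ → Finset (Fin N), (∀ D, cnt v D n h = (S D).card) ∧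
      ∀ D j, j ∈ S D ↔ v j ∈ D ∧ ipr n (v j) ≤ h :=
    ⟨_, fun D => rfl, fun D j => by simp only [Finset.mem_filter, Finset.mem_univ, true_and]⟩
  rw [hS, hS, hS]
  have hd : Disjoint (S (C ∩ HQ ν (ipr ν (v i)))) (S (C ∩ HP ν (ipr ν (v i)))) := by
    rw [Finset.disjoint_left]
    intro j h1 h2
    have a1 : ipr ν (v i) < ipr ν (v j) := ((hm _ _).1 h1).1.2
    have a2 : ipr ν (v j) < ipr ν (v i) := ((hm _ _).1 h2).1.2
    exact lt_asymm a1 a2
  have hs : S (C ∩ HQ ν (ipr ν (v i))) ∪ S (C ∩ HP ν (ipr ν (v i))) ⊆ (S C).erase i := by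
    intro j hj
    rw [Finset.mem_union, hm, hm] at hj
    rw [Finset.mem_erase, hm]
    rcases hj with h1 | h1
    · refine ⟨fun e => ?_, h1.1.1, h1.2⟩
      have a1 : ipr ν (v i) < ipr ν (v j) := h1.1.2
      rw [e] at a1
      exact lt_irrefl _ a1
    · refine ⟨fun e => ?_, h1.1.1, h1.2⟩
      have a1 : ipr ν (v j) < ipr ν (v i) := h1.1.2
      rw [e] at a1
      exact lt_irrefl _ a1
  have k1 := Finset.card_le_card hs
  rw [Finset.card_union_of_disjoint hd] at k1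
  have k2 := Finset.card_erase_add_one ((hm C i).2 hi)
  omega

/-- a balanced cut through a counted vertex -/
theorem exists_cut {σ c r : ℝ} (hσ : 0 ≤ σ) (hc : 0 ≤ c) (hr : 0 ≤ r) {N : ℕ} (v : Fin N → ℂ)
    {Ω C : Set ℂ} (hΩ : IsOpen Ω) {a b h : ℝ} {n : ℂ} (hC : Cell Ω C a b n h) {i : Fin N}
    (hi : v i ∈ C ∧ ipr n (v i) ≤ h)
    (hv : r * (volume (C ∩ HP n h ∩ Ω)).toReal ≤ σ * (b - a) - c * (cnt v C n h + 1)) :
    ∃ t ∈ Icc a b, ∀ ν k, ν = Complex.I * cis t → k = ipr ν (v i) →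
      r * (volume (C ∩ HQ ν k ∩ HP n h ∩ Ω)).toReal
          ≤ σ * (b - t) - c * (cnt v (C ∩ HQ ν k) n h + 1) ∧
        r * (volume (C ∩ HP ν k ∩ HP n h ∩ Ω)).toReal
          ≤ σ * (t - a) - c * (cnt v (C ∩ HP ν k) n h + 1) := by
  have hb : Bornology.IsBounded (C ∩ HP n h ∩ Ω) := hC.bd.subset inter_subset_left
  have hM : volume (C ∩ HP n h ∩ Ω) ≠ ⊤ := hb.measure_lt_top.ne
  have oC : IsOpen {p : ℝ × ℂ | p.2 ∈ C} := hC.op.preimage continuous_snd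
  have oR : IsOpen {p : ℝ × ℂ | p.2 ∈ HP n h} := (isOpen_HP n h).preimage continuous_snd
  have oΩ : IsOpen {p : ℝ × ℂ | p.2 ∈ Ω} := hΩ.preimage continuous_snd
  have oQ : IsOpen {p : ℝ × ℂ | ipr (Complex.I * cis p.1) (v i) < ipr (Complex.I * cis p.1) p.2} :=
    isOpen_lt (by fun_prop) (by fun_prop)
  have oP : IsOpen {p : ℝ × ℂ | ipr (Complex.I * cis p.1) p.2 < ipr (Complex.I * cis p.1) (v i)} :=
    isOpen_lt (by fun_prop) (by fun_prop)
  have cA : IsClosed {t : ℝ | t ∈ Icc a b ∧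
      r * (volume (C ∩ HQ (Complex.I * cis t) (ipr (Complex.I * cis t) (v i)) ∩ HP n h ∩ Ω)).toReal
        ≤ σ * (b - t) -
          c * (cnt v (C ∩ HQ (Complex.I * cis t) (ipr (Complex.I * cis t) (v i))) n h + 1)} :=
    isClosed_good isClosed_Icc
      ((lsc_measure volume (((oC.inter oQ).inter oR).inter oΩ)).lowerSemicontinuousOn _) hM
      (fun t _ => measure_mono fun z hz => ⟨⟨hz.1.1.1, hz.1.2⟩, hz.2⟩)
      ((lsc_cnt v (oC.inter oQ) n h).lowerSemicontinuousOn _)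
      ((continuous_const.sub continuous_id).upperSemicontinuous.upperSemicontinuousOn _) hr hσ hc
  have cB : IsClosed {t : ℝ | t ∈ Icc a b ∧
      r * (volume (C ∩ HP (Complex.I * cis t) (ipr (Complex.I * cis t) (v i)) ∩ HP n h ∩ Ω)).toReal
        ≤ σ * (t - a) -
          c * (cnt v (C ∩ HP (Complex.I * cis t) (ipr (Complex.I * cis t) (v i))) n h + 1)} :=
    isClosed_good isClosed_Icc
      ((lsc_measure volume (((oC.inter oP).inter oR).inter oΩ)).lowerSemicontinuousOn _) hM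
      (fun t _ => measure_mono fun z hz => ⟨⟨hz.1.1.1, hz.1.2⟩, hz.2⟩)
      ((lsc_cnt v (oC.inter oP) n h).lowerSemicontinuousOn _)
      ((continuous_id.sub continuous_const).upperSemicontinuous.upperSemicontinuousOn _) hr hσ hc
  have sum : ∀ ν : ℂ,
      r * (volume (C ∩ HQ ν (ipr ν (v i)) ∩ HP n h ∩ Ω)).toReal +
        c * (cnt v (C ∩ HQ ν (ipr ν (v i))) n h + 1) +
        (r * (volume (C ∩ HP ν (ipr ν (v i)) ∩ HP n h ∩ Ω)).toReal +
          c * (cnt v (C ∩ HP ν (ipr ν (v i))) n h + 1)) ≤ σ * (b - a) := by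
    intro ν
    have k1 := vol_split hb ν (ipr ν (v i))
    have e1 : C ∩ HP n h ∩ Ω ∩ HQ ν (ipr ν (v i)) = C ∩ HQ ν (ipr ν (v i)) ∩ HP n h ∩ Ω := by
      ext z; simp only [mem_inter_iff]; tauto
    have e2 : C ∩ HP n h ∩ Ω ∩ HP ν (ipr ν (v i)) = C ∩ HP ν (ipr ν (v i)) ∩ HP n h ∩ Ω := by
      ext z; simp only [mem_inter_iff]; tauto
    rw [e1, e2] at k1
    have k2 : (cnt v (C ∩ HQ ν (ipr ν (v i))) n h : ℝ) + cnt v (C ∩ HP ν (ipr ν (v i))) n h + 1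
        ≤ cnt v C n h := by exact_mod_cast cnt_cut v C n ν h hi
    have k3 := mul_le_mul_of_nonneg_left k1 hr
    have k4 := mul_le_mul_of_nonneg_left k2 hc
    linarith
  have pos : ∀ D : Set ℂ, ∀ Z : Set ℂ, 0 ≤ r * (volume Z).toReal + c * (cnt v D n h + 1) :=
    fun D Z => by positivity
  obtain ⟨t, ht, hA, hB⟩ := isPreconnected_closed_iff.1 (isPreconnected_Icc (a := a) (b := b)) _ _
    cA cB (fun t ht => by
      have k := sum (Complex.I * cis t)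
      by_contra hn
      simp only [mem_union, mem_ofPred_eq, not_or, not_and, not_le] at hn
      have k1 := hn.1 ht
      have k2 := hn.2 ht
      linarith)
    ⟨a, left_mem_Icc.2 hC.le, left_mem_Icc.2 hC.le, by
      have k := sum (Complex.I * cis a)
      have k1 := pos (C ∩ HP (Complex.I * cis a) (ipr (Complex.I * cis a) (v i)))
        (C ∩ HP (Complex.I * cis a) (ipr (Complex.I * cis a) (v i)) ∩ HP n h ∩ Ω)
      linarith⟩
    ⟨b, right_mem_Icc.2 hC.le, right_mem_Icc.2 hC.le, by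
      have k := sum (Complex.I * cis b)
      have k1 := pos (C ∩ HQ (Complex.I * cis b) (ipr (Complex.I * cis b) (v i)))
        (C ∩ HQ (Complex.I * cis b) (ipr (Complex.I * cis b) (v i)) ∩ HP n h ∩ Ω)
      linarith⟩
  refine ⟨t, ht, fun ν k e1 e2 => ?_⟩
  subst e1
  subst e2
  exact ⟨hA.2, hB.2⟩

end Pool.Agent.PSF
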