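import Pool.Agent.P.MP_7b7370_an.DCF
import Pool.Agent.P.MP_7b7370_an.DCG0

set_option autoImplicit false

namespace Pool.Agent.PSF

open Real Set MeasureTheory Pool.Agent.PSz

/-- claim G: strong induction on the number of counted vertices -/
theorem Q_cell {σ c r : ℝ} (hσ : 0 ≤ σ) (hc : 0 ≤ c) (hr : 0 ≤ r) (hL : CLin σ c) {N : ℕ}
    {v : Fin N → ℂ} {Ω : Set ℂ} (hP : IsPoly v Ω) {u : ℂ → ℝ} (hu : Tst Ω u) {C : Set ℂ}
    {a b h : ℝ} {n : ℂ} (hC : Cell Ω C a b n h)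
    (hv : r * (volume (C ∩ HP n h ∩ Ω)).toReal ≤ σ * (b - a) - c * (cnt v C n h + 1)) :
    0 ≤ Qu u r (C ∩ HP n h) := by
  induction hk : cnt v C n h using Nat.strong_induction_on generalizing C a b with
  | _ k ih =>
  rcases (C ∩ HP n h).eq_empty_or_nonempty with he | hne
  · simp [Qu, he]
  by_cases h0 : cnt v C n h = 0
  · refine Q_zero hc hr hL hP hu hC h0 ?_
    simpa [h0] using hv
  obtain ⟨i, hi⟩ : ∃ i, v i ∈ C ∧ ipr n (v i) ≤ h := by
    classical
    obtain ⟨i, hi⟩ := Finset.card_ne_zero.1 h0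
    exact ⟨i, (Finset.mem_filter.1 hi).2⟩
  obtain ⟨t, ht, hcut⟩ := exists_cut hσ hc hr v hP.isOpen hC hi hv
  obtain ⟨h1, h2⟩ := hcut _ _ rfl rfl
  have hlt := cnt_cut v C n (Complex.I * cis t) h hi
  have hπ := hC.lt_pi hne
  have hν : Complex.I * cis t ≠ 0 := by
    rw [← norm_ne_zero_iff, norm_mul, Complex.norm_I, norm_cis]
    norm_num
  rw [Qu_split hu r (hC.op.inter (isOpen_HP n h)).measurableSet hν
    (ipr (Complex.I * cis t) (v i)), inter_right_comm, inter_right_comm C (HP n h)]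
  exact add_nonneg (ih _ (by omega) (hC.left hπ ht _) h1 rfl)
    (ih _ (by omega) (hC.right hπ ht _) h2 rfl)

end Pool.Agent.PSF
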