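import Pool.Agent.P.MP_7b7370_an.DCH0

set_option autoImplicit false

namespace Pool.Agent.PSF

open Real Set MeasureTheory Pool.Agent.PSz

/-- the normals of the edges of the hull -/
def dch_E {N : ℕ} (v : Fin N → ℂ) : Set ℂ :=
  {n : ℂ | ‖n‖ = 1 ∧ ∃ i j, v i ≠ v j ∧ ipr n (v j) = ipr n (v i) ∧ ∀ l, ipr n (v l) ≤ ipr n (v i)}

lemma dch_left (c : ℝ) (d z : ℂ) : ipr ((c : ℂ) * d) z = c * ipr d z := by simp [ipr]; ring

lemma dch_sq {n : ℂ} (hn : ‖n‖ = 1) : n.re ^ 2 + n.im ^ 2 = 1 := by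
  have := ipr_self n
  rw [hn, ipr] at this
  linarith

lemma dch_unit {d : ℂ} (hd : d ≠ 0) : ‖((‖d‖⁻¹ : ℝ) : ℂ) * d‖ = 1 := by
  rw [norm_mul, Complex.norm_real, norm_inv, norm_norm, inv_mul_cancel₀ (norm_ne_zero_iff.2 hd)]

lemma dch_end {N : ℕ} (v : Fin N → ℂ) (i0 : Fin N) (n : ℂ) :
    ∃ i, (∀ j, ipr n (v j) ≤ ipr n (v i)) ∧ ∀ j, ipr n (v j) = ipr n (v i) →
      ipr (Complex.I * n) (v j) ≤ ipr (Complex.I * n) (v i) := by
  obtain ⟨a, -, ha⟩ := Finset.exists_max_image Finset.univ (fun j => ipr n (v j))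
    ⟨i0, Finset.mem_univ _⟩
  obtain ⟨i, hi, hm⟩ := Finset.exists_max_image
    (Finset.univ.filter fun j => ipr n (v j) = ipr n (v a))
    (fun j => ipr (Complex.I * n) (v j)) ⟨a, by simp⟩
  rw [Finset.mem_filter] at hi
  exact ⟨i, fun j => hi.2 ▸ ha j (Finset.mem_univ _), fun j hj => hm j (by simp [hj, hi.2])⟩

lemma dch_turn {N : ℕ} {v : Fin N → ℂ}
    (hnc : ∃ i j k, ¬ Collinear ℝ ({v i, v j, v k} : Set ℂ)) {n : ℂ} (hn : ‖n‖ = 1) {e : ℝ}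
    (he : e = 1 ∨ e = -1) {i : Fin N} (h1 : ∀ j, ipr n (v j) ≤ ipr n (v i))
    (h2 : ∀ j, ipr n (v j) = ipr n (v i) →
      e * ipr (Complex.I * n) (v j) ≤ e * ipr (Complex.I * n) (v i)) :
    ∃ n1 ∈ dch_E v, n1 ≠ n ∧ (∀ l, ipr n1 (v l) ≤ ipr n1 (v i)) ∧ ∃ c s : ℝ, 0 < c ∧
      ∀ z, ipr n1 z = c * (e * ipr (Complex.I * n) z + s * ipr n z) := by
  have n0 : n ≠ 0 := by rintro rfl; simp at hn
  obtain ⟨j0, hj0⟩ := not_on_line hnc n0 (ipr n (v i))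
  obtain ⟨s, j, k1, k2, k3⟩ := turn v hn he h1 h2 ⟨j0, lt_of_le_of_ne (h1 j0) hj0⟩
  set d := (e : ℂ) * (Complex.I * n) + (s : ℂ) * n with hd
  have d0 : d ≠ 0 := by
    intro h0
    have h3 : ipr (Complex.I * n) d = e * (n.re ^ 2 + n.im ^ 2) := by simp [hd, ipr]; ring
    rw [h0, dch_sq hn] at h3
    rcases he with rfl | rfl <;> simp [ipr] at h3
  have c0 : 0 < ‖d‖⁻¹ := inv_pos.2 (norm_pos_iff.2 d0)
  have hl : ∀ l, ipr (((‖d‖⁻¹ : ℝ) : ℂ) * d) (v l) ≤ ipr (((‖d‖⁻¹ : ℝ) : ℂ) * d) (v i) :=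
    fun l => by rw [dch_left, dch_left]; exact mul_le_mul_of_nonneg_left (k3 l) c0.le
  have hj : ipr (((‖d‖⁻¹ : ℝ) : ℂ) * d) (v j) = ipr (((‖d‖⁻¹ : ℝ) : ℂ) * d) (v i) := by
    rw [dch_left, dch_left, k2]
  refine ⟨((‖d‖⁻¹ : ℝ) : ℂ) * d, ⟨dch_unit d0, i, j, fun h => ?_, hj, hl⟩, fun h => ?_, hl,
    ‖d‖⁻¹, s, c0, fun z => ?_⟩
  · rw [h] at k1; exact lt_irrefl _ k1
  · rw [h] at hj; exact k1.ne hj
  · rw [dch_left]; congr 1; simp [hd, ipr]; ring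

lemma dch_face {N : ℕ} {v : Fin N → ℂ} {n : ℂ} (hn : n ∈ dch_E v) {i : Fin N}
    (h1 : ∀ j, ipr n (v j) ≤ ipr n (v i)) (h2 : ∀ j, ipr n (v j) = ipr n (v i) →
      ipr (Complex.I * n) (v j) ≤ ipr (Complex.I * n) (v i)) :
    ∃ a, ∃ s : ℝ, 0 < s ∧ v a = v i - (s : ℂ) * (Complex.I * n) := by
  obtain ⟨hu, a, b, ab, e1, e2⟩ := hn
  have ea : ipr n (v a) = ipr n (v i) := le_antisymm (h1 a) (e2 i)
  obtain ⟨c, hc, ec⟩ : ∃ c, v c ≠ v i ∧ ipr n (v c) = ipr n (v i) := by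
    by_cases h : v a = v i
    · exact ⟨b, fun h' => ab (h.trans h'.symm), e1.trans ea⟩
    · exact ⟨a, h, ea⟩
  have h3 := h2 c ec
  have h4 := dch_sq hu
  have key : v c = v i - ((ipr (Complex.I * n) (v i) - ipr (Complex.I * n) (v c) : ℝ) : ℂ) *
      (Complex.I * n) := by
    simp only [ipr] at ec
    apply Complex.ext
    · simp [ipr]
      linear_combination ((v i).re - (v c).re) * h4 + n.re * ec
    · simp [ipr]
      linear_combination ((v i).im - (v c).im) * h4 + n.im * ec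
  refine ⟨c, _, lt_of_le_of_ne (sub_nonneg.2 h3) fun h => hc ?_, key⟩
  rw [key, ← h]; simp

lemma dch_inj {N : ℕ} {v : Fin N → ℂ}
    (hnc : ∃ i j k, ¬ Collinear ℝ ({v i, v j, v k} : Set ℂ)) {n n' : ℂ} (hn : n ∈ dch_E v)
    (hn' : n' ∈ dch_E v) {i : Fin N} (h1 : ∀ j, ipr n (v j) ≤ ipr n (v i))
    (h2 : ∀ j, ipr n (v j) = ipr n (v i) → ipr (Complex.I * n) (v j) ≤ ipr (Complex.I * n) (v i))
    (h1' : ∀ j, ipr n' (v j) ≤ ipr n' (v i)) (h2' : ∀ j, ipr n' (v j) = ipr n' (v i) →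
      ipr (Complex.I * n') (v j) ≤ ipr (Complex.I * n') (v i)) : n = n' := by
  obtain ⟨a, s, s0, ea⟩ := dch_face hn h1 h2
  obtain ⟨b, t, t0, eb⟩ := dch_face hn' h1' h2'
  have k1 := h1' a
  have k2 := h1 b
  rw [ea, ipr_sub, ipr_mul] at k1
  rw [eb, ipr_sub, ipr_mul] at k2
  have k3 : 0 ≤ ipr n' (Complex.I * n) := le_of_mul_le_mul_left (by linarith) s0
  have k4 : 0 ≤ ipr n (Complex.I * n') := le_of_mul_le_mul_left (by linarith) t0
  have k5 : n.re * n'.im - n.im * n'.re = 0 := by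
    simp [ipr] at k3 k4
    linarith
  have u := dch_sq hn.1
  have u' := dch_sq hn'.1
  have e1 : n'.re = ipr n n' * n.re := by
    rw [ipr]; linear_combination (-n'.re) * u - n.im * k5
  have e2 : n'.im = ipr n n' * n.im := by
    rw [ipr]; linear_combination (-n'.im) * u + n.re * k5
  have e3 : (ipr n n' - 1) * (ipr n n' + 1) = 0 := by
    rw [e1, e2] at u'
    linear_combination u' - (ipr n n') ^ 2 * u
  rcases mul_eq_zero.1 e3 with e | e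
  · have e4 : ipr n n' = 1 := by linarith
    rw [e4, one_mul] at e1 e2
    exact Complex.ext e1.symm e2.symm
  · have e4 : ipr n n' = -1 := by linarith
    rw [e4] at e1 e2
    have e5 : n' = -n := Complex.ext (by simpa using e1) (by simpa using e2)
    have n0 : n ≠ 0 := by
      rintro rfl
      simp at u
    obtain ⟨j, hj⟩ := not_on_line hnc n0 (ipr n (v i))
    have := h1' j
    rw [e5, ipr_neg_left, ipr_neg_left] at this
    exact absurd (le_antisymm (h1 j) (by linarith)) hj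

lemma dch_span {N : ℕ} {v : Fin N → ℂ}
    (hnc : ∃ i j k, ¬ Collinear ℝ ({v i, v j, v k} : Set ℂ)) {n : ℂ} (hn : ‖n‖ = 1) :
    ∃ n1 ∈ dch_E v, 0 < ipr n1 n := by
  obtain ⟨i, h1, -⟩ := dch_end v hnc.choose n
  have nn : ipr n n = 1 := by rw [ipr_self, hn, one_pow]
  by_cases hc : ∃ j, v i ≠ v j ∧ ipr n (v j) = ipr n (v i)
  · obtain ⟨j, j1, j2⟩ := hc
    exact ⟨n, ⟨hn, i, j, j1, j2, h1⟩, by rw [nn]; exact one_pos⟩
  have h2 : ∀ e : ℝ, ∀ j, ipr n (v j) = ipr n (v i) →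
      e * ipr (Complex.I * n) (v j) ≤ e * ipr (Complex.I * n) (v i) := by
    intro e j hj
    have : v i = v j := by
      by_contra h
      exact hc ⟨j, h, hj⟩
    rw [this]
  obtain ⟨n1, m1, -, l1, c1, s1, p1, e1⟩ := dch_turn hnc hn (Or.inl rfl) h1 (h2 1)
  obtain ⟨n2, m2, -, l2, c2, s2, p2, e2⟩ := dch_turn hnc hn (Or.inr rfl) h1 (h2 (-1))
  have nI : ipr (Complex.I * n) n = 0 := by simp [ipr]; ring
  by_cases q1 : 0 < s1
  · exact ⟨n1, m1, by rw [e1, nI, nn]; simpa using mul_pos p1 q1⟩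
  by_cases q2 : 0 < s2
  · exact ⟨n2, m2, by rw [e2, nI, nn]; simpa using mul_pos p2 q2⟩
  have n0 : Complex.I * n ≠ 0 := mul_ne_zero Complex.I_ne_zero (by rintro rfl; simp at hn)
  obtain ⟨j, hj⟩ := not_on_line hnc n0 (ipr (Complex.I * n) (v i))
  have a1 := l1 j
  have a2 := l2 j
  rw [e1, e1] at a1
  rw [e2, e2] at a2
  have b1 := le_of_mul_le_mul_left a1 p1
  have b2 := le_of_mul_le_mul_left a2 p2
  have b3 := mul_le_mul_of_nonpos_left (h1 j) (not_lt.1 q1)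
  have b4 := mul_le_mul_of_nonpos_left (h1 j) (not_lt.1 q2)
  exact absurd (le_antisymm (by linarith) (by linarith)) hj

theorem exists_hull {N : ℕ} {v : Fin N → ℂ}
    (hnc : ∃ i j k, ¬ Collinear ℝ ({v i, v j, v k} : Set ℂ)) :
    ∃ (m : ℕ) (nr : Fin m → ℂ) (hh : Fin m → ℝ), Hull v nr hh := by
  have hE : (dch_E v).Finite := finite_normals v
  let φ := hE.toFinset.equivFin.symm
  have mem : ∀ k, (φ k : ℂ) ∈ dch_E v := fun k => hE.mem_toFinset.1 (φ k).2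
  have sur : ∀ n ∈ dch_E v, ∃ k, (φ k : ℂ) = n := fun n hn =>
    ⟨φ.symm ⟨n, hE.mem_toFinset.2 hn⟩, by simp⟩
  have inj : Function.Injective fun k => (φ k : ℂ) := Subtype.val_injective.comp φ.injective
  choose idx h1 h2 using fun k => dch_end v hnc.choose (φ k : ℂ)
  refine ⟨_, fun k => φ k, fun k => ipr (φ k) (v (idx k)), fun k => (mem k).1, inj,
    fun k i => h1 k i, fun d hd => ?_, idx, fun k k' e => inj ?_, fun k => ?_⟩
  · obtain ⟨n1, m1, p1⟩ := dch_span hnc (dch_unit hd)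
    obtain ⟨k, rfl⟩ := sur n1 m1
    rw [ipr_mul] at p1
    exact ⟨k, (mul_pos_iff_of_pos_left (inv_pos.2 (norm_pos_iff.2 hd))).1 p1⟩
  · exact dch_inj hnc (mem k) (mem k') (h1 k) (h2 k) (e ▸ h1 k') (e ▸ h2 k')
  · obtain ⟨n1, m1, ne, l1, -⟩ := dch_turn hnc (mem k).1 (Or.inl rfl) (h1 k)
      (by simpa using h2 k)
    obtain ⟨j, rfl⟩ := sur n1 m1
    exact ⟨j, fun e => ne (by rw [e]), rfl, le_antisymm (h1 j _) (l1 _)⟩

end Pool.Agent.PSF
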