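import Pool.Agent.P.MP_7b7370_an.DCDefs

set_option autoImplicit false

namespace Pool.Agent.PSF

open Real Set MeasureTheory Pool.Agent.PSz

lemma dch0_perp {n z : ℂ} (hn : n ≠ 0) (h : ipr n z = 0) : ∃ r : ℝ, z = r • (Complex.I * n) := by
  have hp : n.re ^ 2 + n.im ^ 2 ≠ 0 := by
    have := Complex.normSq_pos.2 hn
    rw [Complex.normSq_apply] at this
    nlinarith
  unfold ipr at h
  refine ⟨(n.re * z.im - n.im * z.re) / (n.re ^ 2 + n.im ^ 2), Complex.ext ?_ ?_⟩
  · simp only [Complex.smul_re, Complex.mul_re, Complex.I_re, Complex.I_im, smul_eq_mul]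
    field_simp
    linear_combination n.re * h
  · simp only [Complex.smul_im, Complex.mul_im, Complex.I_re, Complex.I_im, smul_eq_mul]
    field_simp
    linear_combination n.im * h

/-- turning a supporting line around its last vertex: `n` is a supporting unit normal at `v i`,
`v i` is extreme on that line in direction `e * I * n`, and some vertex is off the line -/
theorem turn {N : ℕ} (v : Fin N → ℂ) {n : ℂ} (hn : ‖n‖ = 1) {e : ℝ} (he : e = 1 ∨ e = -1)
    {i : Fin N} (h1 : ∀ j, ipr n (v j) ≤ ipr n (v i))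
    (h2 : ∀ j, ipr n (v j) = ipr n (v i) →
      e * ipr (Complex.I * n) (v j) ≤ e * ipr (Complex.I * n) (v i))
    (h3 : ∃ j, ipr n (v j) < ipr n (v i)) :
    ∃ (s : ℝ) (j : Fin N), ipr n (v j) < ipr n (v i) ∧
      ipr ((e : ℂ) * (Complex.I * n) + (s : ℂ) * n) (v j)
        = ipr ((e : ℂ) * (Complex.I * n) + (s : ℂ) * n) (v i) ∧
      ∀ l, ipr ((e : ℂ) * (Complex.I * n) + (s : ℂ) * n) (v l)
        ≤ ipr ((e : ℂ) * (Complex.I * n) + (s : ℂ) * n) (v i) := by
  classical
  have key : ∀ (s : ℝ) (z : ℂ), ipr ((e : ℂ) * (Complex.I * n) + (s : ℂ) * n) z =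
      e * ipr (Complex.I * n) z + s * ipr n z := fun s z => by
    simp [ipr]
    ring
  obtain ⟨j0, hj0⟩ := h3
  obtain ⟨j, hj, hmax⟩ := Finset.exists_max_image
    (Finset.univ.filter fun l => ipr n (v l) < ipr n (v i))
    (fun l => (e * ipr (Complex.I * n) (v l) - e * ipr (Complex.I * n) (v i)) /
      (ipr n (v i) - ipr n (v l))) ⟨j0, by simpa using hj0⟩
  have hj' : ipr n (v j) < ipr n (v i) := by simpa using hj
  refine ⟨(e * ipr (Complex.I * n) (v j) - e * ipr (Complex.I * n) (v i)) /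
      (ipr n (v i) - ipr n (v j)), j, hj', ?_, fun l => ?_⟩
  · rw [key, key]
    have := div_mul_cancel₀ (e * ipr (Complex.I * n) (v j) - e * ipr (Complex.I * n) (v i))
      (sub_pos.2 hj').ne'
    linarith
  · rw [key, key]
    rcases (h1 l).eq_or_lt with hl | hl
    · have := h2 l hl
      rw [hl]
      linarith
    · have h4 := hmax l (by simpa using hl)
      rw [div_le_iff₀ (sub_pos.2 hl)] at h4
      linarith

theorem not_on_line {N : ℕ} {v : Fin N → ℂ}
    (hnc : ∃ i j k, ¬ Collinear ℝ ({v i, v j, v k} : Set ℂ)) {n : ℂ} (hn : n ≠ 0) (h : ℝ) :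
    ∃ i, ipr n (v i) ≠ h := by
  by_contra hc
  push Not at hc
  obtain ⟨i, j, k, hn'⟩ := hnc
  refine hn' ((collinear_iff_of_mem (p₀ := v i) (by simp)).2 ⟨Complex.I * n, fun p hp => ?_⟩)
  have hp' : ipr n (p - v i) = 0 := by
    rw [ipr_sub, hc i]
    simp only [mem_insert_iff, mem_singleton_iff] at hp
    rcases hp with rfl | rfl | rfl <;> rw [hc, sub_self]
  obtain ⟨r, hr⟩ := dch0_perp hn hp'
  exact ⟨r, by rw [vadd_eq_add, ← hr, sub_add_cancel]⟩

/-- unit normals of lines through two different vertices that have all vertices on one side -/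
theorem finite_normals {N : ℕ} (v : Fin N → ℂ) :
    {n : ℂ | ‖n‖ = 1 ∧ ∃ i j, v i ≠ v j ∧ ipr n (v j) = ipr n (v i) ∧
      ∀ l, ipr n (v l) ≤ ipr n (v i)}.Finite := by
  have hf : (⋃ i, ⋃ j, ({(‖v i - v j‖⁻¹ : ℝ) • (Complex.I * (v i - v j)),
      (-‖v i - v j‖⁻¹ : ℝ) • (Complex.I * (v i - v j))} : Set ℂ)).Finite :=
    finite_iUnion fun i => finite_iUnion fun j => toFinite _
  refine hf.subset ?_
  rintro n ⟨hn, i, j, hij, he, -⟩
  have hw : v i - v j ≠ 0 := sub_ne_zero.2 hij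
  have h0 : ipr (v i - v j) n = 0 := by
    have : ipr (v i - v j) n = ipr n (v i - v j) := by
      simp only [ipr]
      ring
    rw [this, ipr_sub, he, sub_self]
  obtain ⟨r, hr⟩ := dch0_perp hw h0
  have h1 : |r| = ‖v i - v j‖⁻¹ := by
    rw [hr, norm_smul, norm_mul, Complex.norm_I, one_mul, Real.norm_eq_abs] at hn
    exact eq_inv_of_mul_eq_one_left hn
  refine mem_iUnion.2 ⟨i, mem_iUnion.2 ⟨j, ?_⟩⟩
  rcases abs_cases r with h | h
  · left
    rw [hr, ← h1, h.1]
  · right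
    rw [hr, ← h1, h.1, neg_neg]
    rfl

end Pool.Agent.PSF
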