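import Pool.Agent.P.MP_7b7370_an.DCDefs
import Pool.Agent.Lib.Brouwer.Basic

set_option autoImplicit false

namespace Pool.Agent.PSF

open Real Set MeasureTheory Pool.Agent.PSz

theorem dci_point {m : ℕ} {η : ℝ} (hη : m * η < 1) (j : Fin m) :
    ∃ w : Fin m → ℝ, (∀ k, η ≤ w k) ∧ ∑ k, w k = 1 ∧ ∀ k, k ≠ j → w k = η := by
  refine ⟨fun k => η + if k = j then 1 - m * η else 0, fun k => ?_, ?_, fun k hk => by simp [hk]⟩
  · have : 0 ≤ if k = j then 1 - m * η else 0 := by
      split_ifs
      · linarith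
      · exact le_rfl
    linarith
  · simp [Finset.sum_add_distrib]

/-- closed sets that cover the shrunken simplex and contain its facets have a common point -/
theorem kkm {m : ℕ} (hm : 0 < m) {η : ℝ} (hη : m * η < 1) (G : Fin m → Set (Fin m → ℝ))
    (hG : ∀ k, IsClosed (G k))
    (hcov : ∀ w : Fin m → ℝ, (∀ k, η ≤ w k) → ∑ k, w k = 1 → ∃ k, w ∈ G k)
    (hfac : ∀ w : Fin m → ℝ, (∀ k, η ≤ w k) → ∑ k, w k = 1 → ∀ k, w k = η → w ∈ G k) :
    ∃ w : Fin m → ℝ, (∀ k, η ≤ w k) ∧ ∑ k, w k = 1 ∧ ∀ k, w ∈ G k := by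
  have hL : 0 < 1 - m * η := by linarith
  have hne : ∀ k, (G k).Nonempty := by
    intro k
    by_cases h : ∃ j, k ≠ j
    · obtain ⟨j, hj⟩ := h
      obtain ⟨w, h1, h2, h3⟩ := dci_point hη j
      exact ⟨w, hfac w h1 h2 k (h3 k hj)⟩
    · obtain ⟨w, h1, h2, -⟩ := dci_point hη k
      obtain ⟨j, hj⟩ := hcov w h1 h2
      have e : k = j := by
        by_contra hn
        exact h ⟨j, hn⟩
      exact ⟨w, e ▸ hj⟩
  set K : Set (Fin m → ℝ) := {w | (∀ k, η ≤ w k) ∧ ∑ k, w k = 1} with hK
  have hKcl : IsClosed K := by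
    have e : K = (⋂ k, {w : Fin m → ℝ | η ≤ w k}) ∩ {w | ∑ k, w k = 1} := by
      ext w
      simp [hK]
    rw [e]
    exact (isClosed_iInter fun k => isClosed_le continuous_const (continuous_apply k)).inter
      (isClosed_eq (by fun_prop) continuous_const)
  have hKc : IsCompact K := by
    refine (isCompact_Icc (a := fun _ => η) (b := fun _ => η + (1 - m * η))).of_isClosed_subset
      hKcl fun w hw => ⟨hw.1, fun k => ?_⟩
    have h1 : w k - η ≤ ∑ j, (w j - η) :=
      Finset.single_le_sum (f := fun j => w j - η) (fun j _ => sub_nonneg.2 (hw.1 j))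
        (Finset.mem_univ k)
    rw [Finset.sum_sub_distrib, hw.2] at h1
    simp only [Finset.sum_const, Finset.card_univ, Fintype.card_fin, nsmul_eq_mul] at h1
    show w k ≤ η + (1 - m * η)
    linarith
  have hKv : Convex ℝ K := by
    intro x hx y hy a b ha hb hab
    refine ⟨fun k => ?_, ?_⟩
    · have h1 := mul_le_mul_of_nonneg_left (hx.1 k) ha
      have h2 := mul_le_mul_of_nonneg_left (hy.1 k) hb
      have h3 : η = a * η + b * η := by rw [← add_mul, hab, one_mul]
      simp only [Pi.add_apply, Pi.smul_apply, smul_eq_mul]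
      linarith
    · simp only [Pi.add_apply, Pi.smul_apply, smul_eq_mul]
      rw [Finset.sum_add_distrib, ← Finset.mul_sum, ← Finset.mul_sum, hx.2, hy.2]
      linarith
  have hKn : K.Nonempty := by
    obtain ⟨w, h1, h2, -⟩ := dci_point hη ⟨0, hm⟩
    exact ⟨w, h1, h2⟩
  obtain ⟨d, hd⟩ : ∃ d : Fin m → (Fin m → ℝ) → ℝ, d = fun k w => Metric.infDist w (G k) := ⟨_, rfl⟩
  have dc : ∀ k, Continuous (d k) := fun k => by
    rw [hd]
    exact Metric.continuous_infDist_pt _
  have d0 : ∀ k w, 0 ≤ d k w := fun k w => by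
    rw [hd]
    exact Metric.infDist_nonneg
  have dz : ∀ k w, w ∈ G k ↔ d k w = 0 := fun k w => by
    rw [hd]
    exact (hG k).mem_iff_infDist_zero (hne k)
  obtain ⟨e, he⟩ : ∃ e : Fin m → (Fin m → ℝ) → ℝ,
      e = fun k w => ∑ j, max (d j w - d k w) 0 := ⟨_, rfl⟩
  have ec : ∀ k, Continuous (e k) := fun k => by
    rw [he]
    exact continuous_finsetSum _ fun j _ => ((dc j).sub (dc k)).max continuous_const
  have e0 : ∀ k w, 0 ≤ e k w := fun k w => by
    rw [he]
    exact Finset.sum_nonneg fun j _ => le_max_right _ _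
  have s0 : ∀ w, 0 < 1 + ∑ j, e j w := fun w =>
    add_pos_of_pos_of_nonneg one_pos (Finset.sum_nonneg fun j _ => e0 j w)
  obtain ⟨w, hw, hfix⟩ := Pool.Agent.Lib.Brouwer.brouwer K hKc hKv hKn
    (fun w k => η + (w k - η + (1 - m * η) * e k w) / (1 + ∑ j, e j w))
    (by
      refine (continuous_pi fun k => continuous_const.add (Continuous.div ?_ ?_ fun w =>
        (s0 w).ne')).continuousOn
      · exact ((continuous_apply k).sub continuous_const).add (continuous_const.mul (ec k))
      · exact continuous_const.add (continuous_finsetSum _ fun j _ => ec j))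
    (by
      intro w hw
      refine ⟨fun k => le_add_of_nonneg_right (div_nonneg (add_nonneg (sub_nonneg.2 (hw.1 k))
        (mul_nonneg hL.le (e0 k w))) (s0 w).le), ?_⟩
      have h0 := (s0 w).ne'
      rw [Finset.sum_add_distrib, ← Finset.sum_div, Finset.sum_add_distrib,
        Finset.sum_sub_distrib, ← Finset.mul_sum, hw.2]
      simp only [Finset.sum_const, Finset.card_univ, Fintype.card_fin, nsmul_eq_mul]
      field_simp
      ring)
  refine ⟨w, hw.1, hw.2, ?_⟩
  obtain ⟨k, -, hk⟩ := Finset.exists_max_image Finset.univ (fun k => d k w) ⟨⟨0, hm⟩, by simp⟩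
  have hk0 : d k w = 0 := by
    by_contra hn
    have hw1 : w k ≠ η := fun h => hn ((dz k w).1 (hfac w hw.1 hw.2 k h))
    have ek : e k w = 0 := by
      rw [he]
      exact Finset.sum_eq_zero fun j hj => max_eq_right (sub_nonpos.2 (hk j hj))
    have h1 : η + (w k - η + (1 - m * η) * e k w) / (1 + ∑ j, e j w) = w k := congrFun hfix k
    rw [ek, mul_zero, add_zero, ← eq_sub_iff_add_eq', div_eq_iff (s0 w).ne'] at h1
    have h2 : (w k - η) * ∑ j, e j w = 0 := by linarith
    have h3 : ∑ j, e j w = 0 := (mul_eq_zero.1 h2).resolve_left (sub_ne_zero.2 hw1)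
    obtain ⟨j, hj⟩ := hcov w hw.1 hw.2
    have h4 : e j w = 0 :=
      (Finset.sum_eq_zero_iff_of_nonneg fun j _ => e0 j w).1 h3 j (Finset.mem_univ j)
    rw [he] at h4
    have h5 : max (d k w - d j w) 0 = 0 :=
      (Finset.sum_eq_zero_iff_of_nonneg fun i _ => le_max_right (d i w - d j w) 0).1 h4 k
        (Finset.mem_univ k)
    have h6 := le_max_left (d k w - d j w) 0
    rw [h5, (dz j w).1 hj] at h6
    exact hn (le_antisymm (by linarith) (d0 k w))
  intro j
  exact (dz j w).2 (le_antisymm (hk0 ▸ hk j (Finset.mem_univ j)) (d0 j w))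

end Pool.Agent.PSF
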