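import Pool.Agent.P.MP_7b7370_an.DCB

set_option autoImplicit false

namespace Pool.Agent.PSF

open Real Set MeasureTheory Pool.Agent.PSz

lemma dcj_cos {n : ℂ} (hn : ‖n‖ = 1) (t : ℝ) : ipr n (cis t) = cos (t - Complex.arg n) := by
  have h0 : n ≠ 0 := by
    intro e
    rw [e, norm_zero] at hn
    exact zero_ne_one hn
  rw [cos_sub, Complex.cos_arg h0, Complex.sin_arg, hn, ipr, cis_re, cis_im]
  ring

lemma dcj_comb (n : ℂ) (t1 t t2 : ℝ) : sin (t2 - t1) * ipr n (cis t) =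
    sin (t2 - t) * ipr n (cis t1) + sin (t - t1) * ipr n (cis t2) := by
  simp only [ipr, cis_re, cis_im, sin_sub]
  ring

lemma dcj_per (n : ℂ) (t : ℝ) : ipr n (cis (t + 2 * π)) = ipr n (cis t) := by
  simp only [ipr, cis_re, cis_im, cos_add_two_pi, sin_add_two_pi]

/-- the closed condition on directions -/
def dcjP {m : ℕ} (nr : Fin m → ℂ) (w : Fin m → ℝ) (k : Fin m) : Set ℝ :=
  {t | ∀ j, ipr (nr j) (cis t) * w k ≤ ipr (nr k) (cis t) * w j}

lemma dcj_closed {m : ℕ} (nr : Fin m → ℂ) (w : Fin m → ℝ) (k : Fin m) :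
    IsClosed (dcjP nr w k) := by
  have : dcjP nr w k = ⋂ j, {t | ipr (nr j) (cis t) * w k ≤ ipr (nr k) (cis t) * w j} := by
    ext t
    simp [dcjP]
  rw [this]
  exact isClosed_iInter fun j => isClosed_le (by fun_prop) (by fun_prop)

lemma dcj_conv {m : ℕ} (nr : Fin m → ℂ) (w : Fin m → ℝ) (k : Fin m) {t1 t t2 : ℝ}
    (h1 : t1 ∈ dcjP nr w k) (h2 : t2 ∈ dcjP nr w k) (l1 : t1 < t) (l2 : t < t2)
    (l3 : t2 - t1 < π) : t ∈ dcjP nr w k := by
  intro j
  have s0 : 0 < sin (t2 - t1) := sin_pos_of_pos_of_lt_pi (by linarith) l3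
  have s1 : 0 ≤ sin (t2 - t) := sin_nonneg_of_nonneg_of_le_pi (by linarith) (by linarith)
  have s2 : 0 ≤ sin (t - t1) := sin_nonneg_of_nonneg_of_le_pi (by linarith) (by linarith)
  have e1 := dcj_comb (nr j) t1 t t2
  have e2 := dcj_comb (nr k) t1 t t2
  have a1 := mul_le_mul_of_nonneg_left (h1 j) s1
  have a2 := mul_le_mul_of_nonneg_left (h2 j) s2
  refine le_of_mul_le_mul_left ?_ s0
  calc sin (t2 - t1) * (ipr (nr j) (cis t) * w k)
      = (sin (t2 - t1) * ipr (nr j) (cis t)) * w k := by ring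
    _ = sin (t2 - t) * (ipr (nr j) (cis t1) * w k) + sin (t - t1) * (ipr (nr j) (cis t2) * w k) := by
      rw [e1]; ring
    _ ≤ sin (t2 - t) * (ipr (nr k) (cis t1) * w j) + sin (t - t1) * (ipr (nr k) (cis t2) * w j) :=
      add_le_add a1 a2
    _ = (sin (t2 - t1) * ipr (nr k) (cis t)) * w j := by rw [e2]; ring
    _ = _ := by ring

lemma dcj_arc {P : Set ℝ} (hP : IsClosed P) {c : ℝ}
    (hc : ∀ t1 t t2, t1 ∈ P → t2 ∈ P → t1 < t → t < t2 → t2 - t1 < π → t ∈ P)
    (hpos : 0 < volume.real (Ioo c (c + π) ∩ P)) :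
    ∃ a b : ℝ, a ≤ b ∧ volume.real (Ioo c (c + π) ∩ P) ≤ b - a ∧ Icc a b ⊆ P := by
  set D := Ioo c (c + π) ∩ P with hD
  have hne : D.Nonempty := by
    rcases D.eq_empty_or_nonempty with e | e
    · rw [e] at hpos
      simp at hpos
    · exact e
  have hb : BddBelow D := ⟨c, fun t ht => ht.1.1.le⟩
  have ha : BddAbove D := ⟨c + π, fun t ht => ht.1.2.le⟩
  have hsub : D ⊆ Icc (sInf D) (sSup D) := fun t ht => ⟨csInf_le hb ht, le_csSup ha ht⟩
  have hle : sInf D ≤ sSup D := csInf_le_csSup hne hb ha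
  have hv : volume.real D ≤ sSup D - sInf D := by
    rw [← volume_real_Icc_of_le hle]
    exact measureReal_mono hsub (by simp)
  have hlt : sInf D < sSup D := by linarith
  refine ⟨sInf D, sSup D, hle, hv, ?_⟩
  rw [← closure_Ioo hlt.ne]
  refine closure_minimal ?_ hP
  intro t ht
  obtain ⟨t1, h1, l1⟩ := exists_lt_of_csInf_lt hne ht.1
  obtain ⟨t2, h2, l2⟩ := exists_lt_of_lt_csSup hne ht.2
  exact hc t1 t t2 h1.2 h2.2 l1 l2 (by linarith [h1.1.1, h2.1.2])

lemma dcj_shift {E : Set ℝ} (hE : MeasurableSet E) (hp : ∀ t, t + 2 * π ∈ E ↔ t ∈ E) (s s' : ℝ) :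
    volume.real (E ∩ Ioc s (s + 2 * π)) = volume.real (E ∩ Ioc s' (s' + 2 * π)) := by
  have hper : Function.Periodic (E.indicator (1 : ℝ → ℝ)) (2 * π) := by
    intro t
    by_cases h : t ∈ E
    · rw [indicator_of_mem h, indicator_of_mem ((hp t).2 h)]
      rfl
    · rw [indicator_of_notMem h, indicator_of_notMem fun h' => h ((hp t).1 h')]
  have h := hper.intervalIntegral_add_eq s s'
  have p2 : 0 < 2 * π := two_pi_pos
  rw [intervalIntegral.integral_of_le (by linarith), intervalIntegral.integral_of_le (by linarith),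
    integral_indicator_one hE, integral_indicator_one hE, measureReal_restrict_apply hE,
    measureReal_restrict_apply hE] at h
  exact h

lemma dcj_usc {m : ℕ} (nr : Fin m → ℂ) (k : Fin m) (c : ℝ) :
    UpperSemicontinuous fun w : Fin m → ℝ => volume.real (Ioo c (c + π) ∩ dcjP nr w k) := by
  have hO : IsOpen {p : (Fin m → ℝ) × ℝ | p.2 ∈ Ioo c (c + π) ∧ p.2 ∉ dcjP nr p.1 k} := by
    have : {p : (Fin m → ℝ) × ℝ | p.2 ∈ Ioo c (c + π) ∧ p.2 ∉ dcjP nr p.1 k} =
        (Prod.snd ⁻¹' Ioo c (c + π)) ∩ ⋃ j, {p : (Fin m → ℝ) × ℝ |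
          ipr (nr k) (cis p.2) * p.1 j < ipr (nr j) (cis p.2) * p.1 k} := by
      ext p
      simp [dcjP]
    rw [this]
    exact (isOpen_Ioo.preimage continuous_snd).inter
      (isOpen_iUnion fun j => isOpen_lt (by fun_prop) (by fun_prop))
  have hl := lsc_measure (volume : Measure ℝ) hO
  have fin : ∀ w : Fin m → ℝ, volume (Ioo c (c + π) \ dcjP nr w k) ≠ ⊤ := fun w =>
    measure_ne_top_of_subset sdiff_subset (by simp)
  have e : ∀ w : Fin m → ℝ, volume.real (Ioo c (c + π) ∩ dcjP nr w k) =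
      π - (volume (Ioo c (c + π) \ dcjP nr w k)).toReal := by
    intro w
    have h1 := measure_inter_add_sdiff (μ := volume) (Ioo c (c + π))
      (dcj_closed nr w k).measurableSet
    have h2 := congrArg ENNReal.toReal h1
    rw [ENNReal.toReal_add (measure_ne_top_of_subset inter_subset_left (by simp)) (fin w),
      Real.volume_Ioo, ENNReal.toReal_ofReal (by linarith [pi_pos])] at h2
    rw [measureReal_def]
    linarith
  intro w y hy
  simp only [e] at hy ⊢
  by_cases hpi : π - y < 0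
  · refine Filter.Eventually.of_forall fun w' => ?_
    have := ENNReal.toReal_nonneg (a := volume (Ioo c (c + π) \ dcjP nr w' k))
    linarith
  · have h0 : 0 ≤ π - y := not_lt.mp hpi
    have h1 : ENNReal.ofReal (π - y) < volume (Ioo c (c + π) \ dcjP nr w k) :=
      (ENNReal.ofReal_lt_iff_lt_toReal h0 (fin w)).2 (by linarith)
    filter_upwards [hl w _ h1] with w' hw'
    have := (ENNReal.ofReal_lt_iff_lt_toReal h0 (fin w')).1 hw'
    linarith

/-- the arcs of recession directions -/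
theorem arcs {m : ℕ} {nr : Fin m → ℂ} (hun : ∀ k, ‖nr k‖ = 1)
    (hspan : ∀ d : ℂ, d ≠ 0 → ∃ k, 0 < ipr (nr k) d) :
    ∃ al : Fin m → (Fin m → ℝ) → ℝ, (∀ k, UpperSemicontinuous (al k)) ∧ (∀ k w, 0 ≤ al k w) ∧
      ∀ w : Fin m → ℝ, (∀ k, 0 < w k) → 2 * π ≤ ∑ k, al k w ∧
        ∀ k, 0 < al k w → ∃ a b : ℝ, a ≤ b ∧ al k w ≤ b - a ∧
          ∀ t ∈ Icc a b, ∀ j, ipr (nr j) (cis t) * w k ≤ ipr (nr k) (cis t) * w j := by
  refine ⟨fun k w => volume.real (Ioo (Complex.arg (nr k) - π / 2)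
      (Complex.arg (nr k) - π / 2 + π) ∩ dcjP nr w k), fun k => dcj_usc nr k _,
    fun k w => measureReal_nonneg, fun w hw => ⟨?_, fun k hk => ?_⟩⟩
  · let E : Fin m → Set ℝ := fun k => {t | 0 < ipr (nr k) (cis t)} ∩ dcjP nr w k
    have mE : ∀ k, MeasurableSet (E k) := fun k =>
      (isOpen_lt continuous_const (by fun_prop)).measurableSet.inter
        (dcj_closed nr w k).measurableSet
    have pE : ∀ k t, t + 2 * π ∈ E k ↔ t ∈ E k := by
      intro k t
      simp only [E, dcjP, mem_inter_iff, mem_ofPred_eq, dcj_per]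
    have cov : ∀ t, ∃ k, t ∈ E k := by
      intro t
      have hc : cis t ≠ 0 := by
        intro e
        have := norm_cis t
        rw [e, norm_zero] at this
        exact zero_ne_one this
      obtain ⟨k0, hk0⟩ := hspan _ hc
      obtain ⟨k, -, hk⟩ := Finset.exists_max_image Finset.univ
        (fun j => ipr (nr j) (cis t) / w j) ⟨k0, Finset.mem_univ _⟩
      refine ⟨k, ?_, fun j => ?_⟩
      · have h1 := (div_pos hk0 (hw k0)).trans_le (hk k0 (Finset.mem_univ _))
        exact (div_pos_iff_of_pos_right (hw k)).1 h1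
      · exact (div_le_div_iff₀ (hw j) (hw k)).1 (hk j (Finset.mem_univ _))
    have p2 : 0 < 2 * π := two_pi_pos
    have h1 : volume.real (Ioc (0 : ℝ) (0 + 2 * π)) = 2 * π := by
      rw [volume_real_Ioc_of_le (by linarith)]
      ring
    have h2 : Ioc (0 : ℝ) (0 + 2 * π) = ⋃ k, E k ∩ Ioc (0 : ℝ) (0 + 2 * π) := by
      ext t
      simp only [mem_iUnion, mem_inter_iff]
      refine ⟨fun ht => ?_, fun ⟨_, h⟩ => h.2⟩
      obtain ⟨k, hk⟩ := cov t
      exact ⟨k, hk, ht⟩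
    rw [← h1, h2]
    refine (measureReal_iUnion_fintype_le _).trans (Finset.sum_le_sum fun k _ => ?_)
    rw [dcj_shift (mE k) (pE k) 0 (Complex.arg (nr k) - π / 2)]
    refine measureReal_mono ?_ (measure_ne_top_of_subset inter_subset_left (by simp))
    rintro t ⟨⟨ht1, ht2⟩, ht3, ht4⟩
    refine ⟨⟨ht3, ?_⟩, ht2⟩
    by_contra hn
    rw [mem_ofPred_eq, dcj_cos (hun k)] at ht1
    have := cos_nonpos_of_pi_div_two_le_of_le (x := t - Complex.arg (nr k))
      (by linarith [not_lt.mp hn]) (by linarith)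
    linarith
  · obtain ⟨a, b, h1, h2, h3⟩ := dcj_arc (dcj_closed nr w k)
      (fun t1 t t2 a1 a2 l1 l2 l3 => dcj_conv nr w k a1 a2 l1 l2 l3) hk
    exact ⟨a, b, h1, h2, fun t ht => h3 ht⟩

end Pool.Agent.PSF
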