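import Pool.Agent.P.MP_7b7370_an.DCA

set_option autoImplicit false

namespace Pool.Agent.PSF

open Real Set MeasureTheory Pool.Agent.PSz

variable {N m : ℕ} {v : Fin N → ℂ} {Ω : Set ℂ} {nr : Fin m → ℂ} {hh w : Fin m → ℝ}

theorem dck_push {Ω : Set ℂ} (hΩ : IsOpen Ω) {z : ℂ} (hz : z ∈ Ω) (n : ℂ) :
    ∃ ε : ℝ, 0 < ε ∧ z + (ε : ℂ) * n ∈ Ω := by
  have hc : Continuous fun ε : ℝ => z + (ε : ℂ) * n := by fun_prop
  have h1 : ∀ᶠ ε : ℝ in nhds 0, z + (ε : ℂ) * n ∈ Ω :=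
    hc.continuousAt.eventually_mem (hΩ.mem_nhds (by simpa using hz))
  have h2 : ∀ᶠ ε : ℝ in nhdsWithin 0 (Ioi 0), 0 < ε := self_mem_nhdsWithin
  exact (h2.and (h1.filter_mono nhdsWithin_le_nhds)).exists

theorem Hull.sub (hH : Hull v nr hh) (hP : IsPoly v Ω) (k : Fin m) : Ω ⊆ HP (nr k) (hh k) := by
  intro z hz
  have hn : ipr (nr k) (nr k) = 1 := by rw [ipr_self, hH.un k, one_pow]
  have hc : Continuous fun z => ipr (nr k) z := by fun_prop
  obtain ⟨y, hy, hmax⟩ := hP.bdd.isCompact_closure.exists_isMaxOn ⟨z, subset_closure hz⟩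
    hc.continuousOn
  have hyΩ : y ∉ Ω := by
    intro h
    obtain ⟨ε, hε, h1⟩ := dck_push hP.isOpen h (nr k)
    have h2 : ipr (nr k) (y + (ε : ℂ) * nr k) ≤ ipr (nr k) y := hmax (subset_closure h1)
    rw [ipr_add, ipr_mul, hn] at h2
    linarith
  have hf : y ∈ frontier Ω := by
    rw [hP.isOpen.frontier_eq]
    exact ⟨hy, hyΩ⟩
  rw [hP.front] at hf
  obtain ⟨i, a, b, ha, hb, hab, rfl⟩ := mem_iUnion.1 hf
  obtain ⟨ε, hε, h1⟩ := dck_push hP.isOpen hz (nr k)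
  have h2 : ipr (nr k) (z + (ε : ℂ) * nr k) ≤ ipr (nr k) (a • v i + b • v (finRotate N i)) :=
    hmax (subset_closure h1)
  rw [ipr_add, ipr_mul, hn, ipr_add, ipr_smul, ipr_smul] at h2
  have h3 := mul_le_mul_of_nonneg_left (hH.le k i) ha
  have h4 := mul_le_mul_of_nonneg_left (hH.le k (finRotate N i)) hb
  have h5 : a * hh k + b * hh k = hh k := by rw [← add_mul, hab, one_mul]
  show ipr (nr k) z < hh k
  linarith

theorem Hull.bdd (hH : Hull v nr hh) :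
    Bornology.IsBounded {z : ℂ | ∀ k, ipr (nr k) z ≤ hh k} := by
  have hc : Continuous fun d : ℂ => ∑ k, max (ipr (nr k) d) 0 := by fun_prop
  obtain ⟨d0, hd0, hmin⟩ := (isCompact_sphere (0 : ℂ) 1).exists_isMinOn
    ⟨1, by simp⟩ hc.continuousOn
  have hne : d0 ≠ 0 := by
    rintro rfl
    simp at hd0
  obtain ⟨k0, hk0⟩ := hH.span d0 hne
  have hδ : 0 < ∑ k, max (ipr (nr k) d0) 0 :=
    Finset.sum_pos' (fun k _ => le_max_right _ _) ⟨k0, Finset.mem_univ _, lt_max_of_lt_left hk0⟩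
  rw [isBounded_iff_forall_norm_le]
  refine ⟨(∑ k, max (hh k) 0) / ∑ k, max (ipr (nr k) d0) 0, fun z hz => ?_⟩
  rw [le_div_iff₀ hδ]
  rcases eq_or_ne z 0 with rfl | hz0
  · rw [norm_zero, zero_mul]
    exact Finset.sum_nonneg fun k _ => le_max_right _ _
  have hn : 0 < ‖z‖ := norm_pos_iff.2 hz0
  have hs : ‖z‖⁻¹ • z ∈ Metric.sphere (0 : ℂ) 1 := by
    rw [mem_sphere_zero_iff_norm, norm_smul, norm_inv, norm_norm, inv_mul_cancel₀ hn.ne']
  have h1 : ∑ k, max (ipr (nr k) d0) 0 ≤ ∑ k, max (ipr (nr k) (‖z‖⁻¹ • z)) 0 := hmin hs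
  refine (mul_le_mul_of_nonneg_left h1 hn.le).trans ?_
  rw [Finset.mul_sum]
  refine Finset.sum_le_sum fun k _ => ?_
  rw [mul_max_of_nonneg _ _ hn.le, ipr_smul, mul_inv_cancel_left₀ hn.ne', mul_zero]
  exact max_le_max (hz k) le_rfl

theorem isOpen_Ck (nr : Fin m → ℂ) (hh : Fin m → ℝ) (k : Fin m) :
    IsOpen {p : (Fin m → ℝ) × ℂ | p.2 ∈ Ck nr hh p.1 k} := by
  have e : {p : (Fin m → ℝ) × ℂ | p.2 ∈ Ck nr hh p.1 k} = ⋂ j, ⋂ (_ : j ≠ k),
      {p : (Fin m → ℝ) × ℂ | (hh k - ipr (nr k) p.2) * p.1 j < (hh j - ipr (nr j) p.2) * p.1 k} := by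
    ext p
    simp only [mem_iInter]
    rfl
  rw [e]
  refine isOpen_iInter_of_finite fun j => isOpen_iInter_of_finite fun _ => ?_
  exact isOpen_lt (by fun_prop) (by fun_prop)

theorem Ck_sub (hw : ∀ k, 0 < w k) (k : Fin m) :
    Ck nr hh w k ∩ HP (nr k) (hh k) ⊆ {z : ℂ | ∀ j, ipr (nr j) z ≤ hh j} := by
  rintro z ⟨h1, h2⟩ j
  have h3 : ipr (nr k) z < hh k := h2
  rcases eq_or_ne j k with rfl | hj
  · exact h3.le
  have h4 := (mul_pos (sub_pos.2 h3) (hw j)).trans (h1 j hj)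
  have h5 := (mul_pos_iff_of_pos_right (hw k)).1 h4
  linarith

theorem Ck_rec {k : Fin m} {d : ℂ} (hd : ∀ j, ipr (nr j) d * w k ≤ ipr (nr k) d * w j) :
    ∀ z ∈ Ck nr hh w k, ∀ s : ℝ, 0 ≤ s → z + (s : ℂ) * d ∈ Ck nr hh w k := by
  intro z hz s hs j hj
  have h1 := hz j hj
  have h2 := mul_le_mul_of_nonneg_left (hd j) hs
  rw [ipr_add, ipr_add, ipr_mul, ipr_mul]
  linarith

theorem Hull.cell (hH : Hull v nr hh) (hP : IsPoly v Ω) (hw : ∀ k, 0 < w k) {k : Fin m}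
    {a b : ℝ} (hab : a ≤ b)
    (hd : ∀ t ∈ Icc a b, ∀ j, ipr (nr j) (cis t) * w k ≤ ipr (nr k) (cis t) * w j) :
    Cell Ω (Ck nr hh w k) a b (nr k) (hh k) := by
  refine ⟨?_, ?_, hab, fun z hz t ht s hs => Ck_rec (hd t ht) z hz s hs, hH.un k,
    hH.bdd.subset (Ck_sub hw k), fun z _ h hz => ?_⟩
  · exact (isOpen_Ck nr hh k).preimage (f := fun z : ℂ => (w, z)) (by fun_prop)
  · intro x hx y hy s t hs ht hst j hj
    have h1 := sub_pos.2 (hx j hj)
    have h2 := sub_pos.2 (hy j hj)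
    have h3 := mul_nonneg hs h1.le
    have h4 := mul_nonneg ht h2.le
    have h5 : 0 < s * ((hh j - ipr (nr j) x) * w k - (hh k - ipr (nr k) x) * w j) +
        t * ((hh j - ipr (nr j) y) * w k - (hh k - ipr (nr k) y) * w j) := by
      rcases hs.lt_or_eq with h | h
      · exact add_pos_of_pos_of_nonneg (mul_pos h h1) h4
      · exact add_pos_of_nonneg_of_pos h3 (mul_pos (by linarith) h2)
    rw [ipr_add, ipr_add, ipr_smul, ipr_smul, ipr_smul, ipr_smul]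
    have e : (hh j - (s * ipr (nr j) x + t * ipr (nr j) y)) * w k -
        (hh k - (s * ipr (nr k) x + t * ipr (nr k) y)) * w j =
        s * ((hh j - ipr (nr j) x) * w k - (hh k - ipr (nr k) x) * w j) +
        t * ((hh j - ipr (nr j) y) * w k - (hh k - ipr (nr k) y) * w j) := by
      linear_combination (hh k * w j - hh j * w k) * hst
    linarith
  · exact absurd h (ne_of_lt (hH.sub hP k hz))

/-- a cell of minimal small weight is thin -/
theorem Hull.thin (hH : Hull v nr hh) : ∃ K : ℝ, 0 ≤ K ∧ ∀ (w : Fin m → ℝ) (η : ℝ), 0 < η →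
    m * η < 1 → (∀ j, η ≤ w j) → ∑ j, w j = 1 → ∀ k, w k = η →
      (∀ j, ipr (nr j) (nr k) * w k ≤ ipr (nr k) (nr k) * w j) ∧
      ∀ z ∈ Ck nr hh w k, hh k - ipr (nr k) z ≤ K * η := by
  obtain ⟨R, hR⟩ := isBounded_iff_forall_norm_le.1 hH.bdd
  have hB : 0 ≤ ∑ j, |hh j| + |R| :=
    add_nonneg (Finset.sum_nonneg fun j _ => abs_nonneg _) (abs_nonneg _)
  refine ⟨m * (∑ j, |hh j| + |R|), mul_nonneg (Nat.cast_nonneg _) hB,
    fun w η hη hm hw hs k hk => ⟨fun j => ?_, fun z hz => ?_⟩⟩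
  · have h1 := (abs_le.1 (abs_ipr_le (nr j) (nr k))).2
    rw [hH.un j, hH.un k, mul_one] at h1
    rw [ipr_self, hH.un k, one_pow, one_mul, hk]
    have h2 := mul_le_mul_of_nonneg_right h1 hη.le
    linarith [hw j]
  · rcases le_or_gt (hh k - ipr (nr k) z) 0 with h | h
    · exact h.trans (mul_nonneg (mul_nonneg (Nat.cast_nonneg _) hB) hη.le)
    have hw0 : ∀ j, 0 < w j := fun j => hη.trans_le (hw j)
    have hzR := hR z (Ck_sub hw0 k ⟨hz, sub_pos.1 h⟩)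
    obtain ⟨j, hj⟩ : ∃ j, 1 ≤ m * w j := by
      by_contra hc
      push Not at hc
      have h1 := Finset.sum_lt_sum_of_nonempty ⟨k, Finset.mem_univ k⟩ fun j _ => hc j
      rw [← Finset.mul_sum, hs] at h1
      simp at h1
    have hjk : j ≠ k := by
      rintro rfl
      rw [hk] at hj
      linarith
    have h1 := hz j hjk
    rw [hk] at h1
    have h2 : hh j - ipr (nr j) z ≤ ∑ j, |hh j| + |R| := by
      have h3 := (abs_le.1 (abs_ipr_le (nr j) z)).1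
      rw [hH.un j, one_mul] at h3
      have h4 : |hh j| ≤ ∑ j, |hh j| :=
        Finset.single_le_sum (f := fun j => |hh j|) (fun j _ => abs_nonneg _) (Finset.mem_univ j)
      linarith [le_abs_self (hh j), le_abs_self R]
    have h3 := h1.le.trans (mul_le_mul_of_nonneg_right h2 hη.le)
    have h4 := mul_le_mul_of_nonneg_left h3 (Nat.cast_nonneg (α := ℝ) m)
    have h5 := mul_le_mul_of_nonneg_left hj h.le
    linarith

end Pool.Agent.PSF
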