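import Pool.Agent.P.MP_7b7370_an.DCK

set_option autoImplicit false

namespace Pool.Agent.PSF

open Real Set MeasureTheory Pool.Agent.PSz

variable {N m : ℕ} {v : Fin N → ℂ} {Ω : Set ℂ} {nr : Fin m → ℂ} {hh w : Fin m → ℝ}

theorem Ck_disjoint (hw : ∀ k, 0 < w k) {j k : Fin m} (hjk : j ≠ k) :
    Disjoint (Ck nr hh w j) (Ck nr hh w k) := by
  exact Set.disjoint_left.2 fun z h1 h2 => lt_asymm (h1 k hjk.symm) (h2 j hjk)

theorem dcl_meas (k : Fin m) : MeasurableSet (Ck nr hh w k ∩ HP (nr k) (hh k)) :=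
  (((isOpen_Ck nr hh k).preimage (f := fun z : ℂ => (w, z)) (by fun_prop)).inter
    (isOpen_HP _ _)).measurableSet

theorem dcl_disj (hw : ∀ k, 0 < w k) :
    Pairwise (Function.onFun Disjoint fun k => Ck nr hh w k ∩ HP (nr k) (hh k)) := fun _ _ h =>
  (Ck_disjoint hw h).mono inter_subset_left inter_subset_left

theorem dcl_null (hH : Hull v nr hh) (hP : IsPoly v Ω) (hw : ∀ k, 0 < w k) :
    volume ((⋃ k, Ck nr hh w k ∩ HP (nr k) (hh k))ᶜ ∩ Ω) = 0 := by
  have h1 : ∀ k j, j ≠ k →
      volume {z : ℂ | ipr (w j • nr k - w k • nr j) z = w j * hh k - w k * hh j} = 0 := by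
    refine fun k j hj => vol_line (sub_ne_zero.2 fun e => hj ?_) _
    have h2 := congrArg norm e
    rw [norm_smul, norm_smul, hH.un, hH.un, Real.norm_of_nonneg (hw j).le,
      Real.norm_of_nonneg (hw k).le, mul_one, mul_one] at h2
    rw [h2] at e
    exact (hH.inj (smul_right_injective ℂ (hw k).ne' e)).symm
  refine measure_mono_null ?_ (measure_iUnion_null fun k => measure_iUnion_null fun j =>
    measure_iUnion_null fun hj => h1 k j hj)
  rintro z ⟨hz, hz'⟩
  obtain ⟨k0, -⟩ := hH.span 1 one_ne_zero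
  obtain ⟨k, -, hk⟩ := Finset.exists_min_image Finset.univ
    (fun k => (hh k - ipr (nr k) z) / w k) ⟨k0, Finset.mem_univ _⟩
  by_contra hn
  simp only [mem_iUnion, not_exists, mem_ofPred_eq] at hn
  refine hz (mem_iUnion.2 ⟨k, fun j hj => ?_, hH.sub hP k hz'⟩)
  refine ((div_le_div_iff₀ (hw k) (hw j)).1 (hk j (Finset.mem_univ _))).lt_of_ne fun e => ?_
  refine hn k j hj ?_
  simp only [ipr, Complex.sub_re, Complex.sub_im, Complex.smul_re, Complex.smul_im,
    smul_eq_mul] at e ⊢
  linarith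

theorem Hull.sum_Q (hH : Hull v nr hh) (hP : IsPoly v Ω) (hw : ∀ k, 0 < w k) {u : ℂ → ℝ}
    (hu : Tst Ω u) (r : ℝ) :
    en u - r * ma u = ∑ k, Qu u r (Ck nr hh w k ∩ HP (nr k) (hh k)) := by
  have hi : Integrable fun z => ‖fderiv ℝ u z‖ ^ 2 - r * u z ^ 2 :=
    hu.int_grad.sub (hu.int_sq.const_mul r)
  have hU := MeasurableSet.iUnion (dcl_meas (nr := nr) (hh := hh) (w := w))
  have h1 := Qu_null hP.isOpen hu r hU.compl (dcl_null hH hP hw)
  have h2 := integral_add_compl hU hi
  unfold Qu at h1 ⊢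
  rw [← integral_iUnion_fintype dcl_meas (dcl_disj hw) fun _ => hi.integrableOn, en, ma,
    ← integral_const_mul, ← integral_sub hu.int_grad (hu.int_sq.const_mul r), ← h2, h1, add_zero]

theorem sum_vol (hb : Bornology.IsBounded Ω) (hw : ∀ k, 0 < w k) :
    ∑ k, (volume (Ck nr hh w k ∩ HP (nr k) (hh k) ∩ Ω)).toReal ≤ (volume Ω).toReal := by
  have h := sum_measure_le_measure_univ (μ := volume.restrict Ω) (s := Finset.univ)
    (t := fun k => Ck nr hh w k ∩ HP (nr k) (hh k))
    (fun k _ => (dcl_meas k).nullMeasurableSet) fun j _ k _ e => (dcl_disj hw e).aedisjoint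
  simp only [Measure.restrict_apply (dcl_meas _), Measure.restrict_apply_univ] at h
  rw [← ENNReal.toReal_sum fun k _ =>
    ((measure_mono inter_subset_right).trans_lt hb.measure_lt_top).ne]
  exact ENNReal.toReal_mono hb.measure_lt_top.ne h

theorem Hull.sum_cnt (hH : Hull v nr hh) (hw : ∀ k, 0 < w k) :
    ∑ k, (cnt v (Ck nr hh w k) (nr k) (hh k) + 1) ≤ N := by
  classical
  obtain ⟨idx, hi, hc⟩ := hH.cor
  have h1 : ∀ j k, v (idx j) ∉ Ck nr hh w k := fun j k h => by
    obtain ⟨l, hl, e1, e2⟩ := hc j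
    by_cases e : j = k
    · subst e
      have := h l hl
      rw [e1, e2, sub_self, sub_self, zero_mul, zero_mul] at this
      exact lt_irrefl _ this
    · have := h j e
      rw [e1, sub_self, zero_mul] at this
      exact this.not_ge (mul_nonneg (sub_nonneg.2 (hH.le k _)) (hw j).le)
  have h2 : ∀ k, cnt v (Ck nr hh w k) (nr k) (hh k) + 1 = (insert (idx k)
      (Finset.univ.filter fun i => v i ∈ Ck nr hh w k ∧ ipr (nr k) (v i) ≤ hh k)).card := fun k => by
    rw [Finset.card_insert_of_notMem fun h => h1 k k (Finset.mem_filter.1 h).2.1, cnt]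
  simp only [h2]
  rw [← Finset.card_biUnion fun j _ k _ e => Finset.disjoint_left.2 fun i a b => ?_]
  · exact (Finset.card_le_univ _).trans (Fintype.card_fin N).le
  · rcases Finset.mem_insert.1 a with a | a <;> rcases Finset.mem_insert.1 b with b | b
    · exact e (hi (a.symm.trans b))
    · exact h1 j k (a ▸ (Finset.mem_filter.1 b).2.1)
    · exact h1 k j (b ▸ (Finset.mem_filter.1 a).2.1)
    · exact Set.disjoint_left.1 (Ck_disjoint hw e) (Finset.mem_filter.1 a).2.1
        (Finset.mem_filter.1 b).2.1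

end Pool.Agent.PSF
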