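import Pool.Agent.P.MP_7b7370_an.DCG
import Pool.Agent.P.MP_7b7370_an.DCH
import Pool.Agent.P.MP_7b7370_an.DCI
import Pool.Agent.P.MP_7b7370_an.DCJ
import Pool.Agent.P.MP_7b7370_an.DCL

set_option autoImplicit false

namespace Pool.Agent.PSF

open Real Set MeasureTheory Pool.Agent.PSz

theorem decomp {σ c r : ℝ} (hσ : 0 ≤ σ) (hc : 0 ≤ c) (hr : 0 ≤ r) (hL : CLin σ c) {N : ℕ}
    {v : Fin N → ℂ} {Ω : Set ℂ} (hP : IsPoly v Ω)
    (hnc : ∃ i j k, ¬ Collinear ℝ ({v i, v j, v k} : Set ℂ))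
    (hv : r * (volume Ω).toReal ≤ σ * (2 * π) - c * N) {u : ℂ → ℝ} (hu : Tst Ω u) :
    r * ma u ≤ en u := by
  obtain ⟨m, nr, hh, hH⟩ := exists_hull hnc
  obtain ⟨al, hal, hal0, harc⟩ := arcs hH.un hH.span
  obtain ⟨K, hK, hthin⟩ := hH.thin
  have hm : 0 < m := by
    obtain ⟨k, -⟩ := hH.span 1 one_ne_zero
    exact k.pos
  have hm0 : (0 : ℝ) ≤ m := Nat.cast_nonneg m
  have hrK : 0 ≤ (1 + r) * K := by positivity
  obtain ⟨η, hη0, hη1, hη2⟩ : ∃ η : ℝ, 0 < η ∧ m * η < 1 ∧ r * (K * η) ^ 2 ≤ 1 := by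
    have hD : 0 < (m : ℝ) + 1 + (1 + r) * K := by linarith
    refine ⟨(m + 1 + (1 + r) * K)⁻¹, inv_pos.2 hD, ?_, ?_⟩
    · rw [← div_eq_mul_inv, div_lt_one hD]
      linarith
    · rw [← div_eq_mul_inv, div_pow, ← mul_div_assoc, div_le_one (by positivity)]
      have h1 : ((1 + r) * K) ^ 2 ≤ (m + 1 + (1 + r) * K) ^ 2 :=
        pow_le_pow_left₀ hrK (by linarith) 2
      have h2 : r * K ^ 2 ≤ (1 + r) ^ 2 * K ^ 2 :=
        mul_le_mul_of_nonneg_right (by nlinarith) (sq_nonneg K)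
      rw [mul_pow] at h1
      linarith
  have hfin : volume Ω ≠ ⊤ := hP.bdd.measure_lt_top.ne
  have hpos : ∀ {w : Fin m → ℝ}, (∀ k, η ≤ w k) → ∀ k, 0 < w k := fun h k => hη0.trans_le (h k)
  obtain ⟨w, hw, hw1, hG⟩ := kkm hm hη1 (fun k => {w | w ∈ (univ : Set (Fin m → ℝ)) ∧
      r * (volume (Ck nr hh w k ∩ HP (nr k) (hh k) ∩ Ω)).toReal ≤
        σ * al k w - c * ((cnt v (Ck nr hh w k) (nr k) (hh k) : ℝ) + 1)} ∪ {w | w k = η})
    (fun k => by
      refine IsClosed.union ?_ (isClosed_eq (continuous_apply k) continuous_const)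
      have hO : IsOpen {p : (Fin m → ℝ) × ℂ | p.2 ∈ Ck nr hh p.1 k ∩ HP (nr k) (hh k) ∩ Ω} :=
        ((isOpen_Ck nr hh k).inter ((isOpen_HP (nr k) (hh k)).preimage continuous_snd)).inter
          (hP.isOpen.preimage continuous_snd)
      exact isClosed_good isClosed_univ
        (f := fun w => volume (Ck nr hh w k ∩ HP (nr k) (hh k) ∩ Ω))
        ((lsc_measure volume hO).lowerSemicontinuousOn _) hfin
        (fun w _ => measure_mono inter_subset_right)
        (g := fun w => (cnt v (Ck nr hh w k) (nr k) (hh k) : ℝ))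
        ((lsc_cnt v (isOpen_Ck nr hh k) (nr k) (hh k)).lowerSemicontinuousOn _)
        ((hal k).upperSemicontinuousOn _) hr hσ hc)
    (fun w hw _ => by
      by_contra hcon
      push Not at hcon
      have h1 : ∑ k, (σ * al k w - c * ((cnt v (Ck nr hh w k) (nr k) (hh k) : ℝ) + 1)) <
          ∑ k, r * (volume (Ck nr hh w k ∩ HP (nr k) (hh k) ∩ Ω)).toReal :=
        Finset.sum_lt_sum_of_nonempty ⟨⟨0, hm⟩, Finset.mem_univ _⟩ fun k _ =>
          not_le.1 fun h => hcon k (Or.inl ⟨trivial, h⟩)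
      rw [Finset.sum_sub_distrib, ← Finset.mul_sum, ← Finset.mul_sum, ← Finset.mul_sum] at h1
      have h2 := mul_le_mul_of_nonneg_left (harc w (hpos hw)).1 hσ
      have h3 := mul_le_mul_of_nonneg_left (sum_vol (nr := nr) (hh := hh) hP.bdd (hpos hw)) hr
      have h4 : ∑ k, ((cnt v (Ck nr hh w k) (nr k) (hh k) : ℝ) + 1) ≤ N := by
        exact_mod_cast hH.sum_cnt (hpos hw)
      have h5 := mul_le_mul_of_nonneg_left h4 hc
      linarith)
    (fun w _ _ k hk => Or.inr hk)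
  have hQ : ∀ k, 0 ≤ Qu u r (Ck nr hh w k ∩ HP (nr k) (hh k)) := fun k => by
    have hCo : IsOpen (Ck nr hh w k) := (isOpen_Ck nr hh k).preimage (Continuous.prodMk_right w)
    rcases hG k with ⟨-, hk⟩ | hk
    · rcases (hal0 k w).eq_or_lt with h0 | h0
      · have h1 : 0 ≤ c * ((cnt v (Ck nr hh w k) (nr k) (hh k) : ℝ) + 1) := by positivity
        have h2 : r * (volume (Ck nr hh w k ∩ HP (nr k) (hh k) ∩ Ω)).toReal = 0 := by
          rw [← h0, mul_zero] at hk
          exact le_antisymm (by linarith) (by positivity)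
        rcases mul_eq_zero.1 h2 with h3 | h3
        · refine integral_nonneg fun z => ?_
          simp only [h3, zero_mul, sub_zero, Pi.zero_apply]
          positivity
        · refine (Qu_null hP.isOpen hu r (hCo.inter (isOpen_HP _ _)).measurableSet ?_).ge
          exact ((ENNReal.toReal_eq_zero_iff _).1 h3).resolve_right
            (ne_top_of_le_ne_top hfin (measure_mono inter_subset_right))
      · obtain ⟨a, b, hab, h1, h2⟩ := (harc w (hpos hw)).2 k h0
        have h3 := mul_le_mul_of_nonneg_left h1 hσ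
        exact Q_cell hσ hc hr hL hP hu (hH.cell hP (hpos hw) hab h2) (by linarith)
    · obtain ⟨h1, h2⟩ := hthin w η hη0 hη1 hw hw1 k hk
      exact Q_thin hu hCo (hH.un k) (Ck_rec h1) (hH.sub hP k) h2 (by positivity) hr hη2
  have h := Finset.sum_nonneg fun k (_ : k ∈ Finset.univ) => hQ k
  rw [← hH.sum_Q hP (hpos hw) hu r] at h
  linarith

end Pool.Agent.PSF
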