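import Mathlib

/-! Shared definitions for the full polygonal Faber-Krahn inequality. -/

set_option autoImplicit false

namespace Pool.Agent.PSF

open Real Set MeasureTheory

noncomputable def dx (U : ℝ × ℝ → ℝ) (w : ℝ × ℝ) : ℝ := fderiv ℝ U w (1, 0)
noncomputable def dy (U : ℝ × ℝ → ℝ) (w : ℝ × ℝ) : ℝ := fderiv ℝ U w (0, 1)

/-- the half strip; `t = 0` is the Neumann line, `t = π/2` the Dirichlet line -/
def Sig : Set (ℝ × ℝ) := univ ×ˢ Ioo 0 (π / 2)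
/-- conformal weight of the isosceles triangle with apex angle `π (1 - p)` -/
noncomputable def Wp (p : ℝ) (w : ℝ × ℝ) : ℝ := (sinh w.1 ^ 2 + sin w.2 ^ 2) ^ (-p)
/-- eigenvalue times area of that triangle is at least `φ` -/
def StripLB (p φ : ℝ) : Prop :=
  ∀ U : ℝ × ℝ → ℝ, ContDiff ℝ 1 U → HasCompactSupport U →
    tsupport U ⊆ univ ×ˢ Ioo (-(π / 2)) (π / 2) →
    φ * ∫ w in Sig, Wp p w * U w ^ 2 ≤
      (∫ w in Sig, Wp p w) * ∫ w in Sig, (dx U w ^ 2 + dy U w ^ 2)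

/-- `C` recedes in all directions with angle in `[a, b]` -/
def Rec (C : Set ℂ) (a b : ℝ) : Prop :=
  ∀ z ∈ C, ∀ t ∈ Icc a b, ∀ s : ℝ, 0 ≤ s → z + (s : ℂ) * Complex.exp ((t : ℂ) * Complex.I) ∈ C

/-- the cell inequality for a cell whose base lies on the real axis (block CL) -/
def CellIneq : Prop :=
  ∀ (C : Set ℂ) (a b φ : ℝ) (v : ℂ → ℝ), IsOpen C → Convex ℝ C → a < b → Rec C a b →
    Bornology.IsBounded (C ∩ {z | 0 < z.im}) →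
    (∀ p, 0 < p → p ≤ 1 - (b - a) / π → StripLB p φ) →
    ContDiff ℝ 1 v → HasCompactSupport v →
    (∀ z ∈ closure C, z.im = 0 → z ∉ tsupport v) →
    φ * ∫ z in C ∩ {z | 0 < z.im}, v z ^ 2 ≤
      (volume (C ∩ {z | 0 < z.im})).toReal * ∫ z in C ∩ {z | 0 < z.im}, ‖fderiv ℝ v z‖ ^ 2

/-- the model domain, coordinates `(s, φ)` -/
def Pi0 : Set (ℝ × ℝ) := Ioi 0 ×ˢ Ioo 0 π
/-- `exp (-2 s) * |1 - exp (-n s + i φ)| ^ (-4 / n)` -/
noncomputable def om (n : ℝ) (p : ℝ × ℝ) : ℝ :=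
  exp (-2 * p.1) * (1 - 2 * exp (-n * p.1) * cos p.2 + exp (-n * p.1) ^ 2) ^ (-2 / n)
/-- admissible functions of the model -/
structure Adm (V : ℝ × ℝ → ℝ) : Prop where
  c1 : ContDiff ℝ 1 V
  zero : ∃ η > 0, ∀ p : ℝ × ℝ, p.1 ≤ η → V p = 0
  const : ∃ S κ : ℝ, ∀ p : ℝ × ℝ, S ≤ p.1 → V p = κ
noncomputable def Dn (n : ℝ) (V : ℝ × ℝ → ℝ) : ℝ :=
  ∫ p in Pi0, (dx V p ^ 2 + n ^ 2 * dy V p ^ 2)
noncomputable def Bn (n : ℝ) (V : ℝ × ℝ → ℝ) : ℝ := ∫ p in Pi0, om n p * V p ^ 2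
/-- area of the regular `n`-gon with conformal radius one -/
noncomputable def An (n : ℝ) : ℝ := 2 * ∫ p in Pi0, om n p
noncomputable def lam (n : ℝ) : ℝ :=
  sInf {q | ∃ V, Adm V ∧ 0 < Bn n V ∧ q = Dn n V / Bn n V}
/-- eigenvalue times area of the regular `n`-gon, for real `n` -/
noncomputable def gn (n : ℝ) : ℝ := An n * lam n

/-- supporting lines on `[4, ∞)` (block SB) -/
def Support4 : Prop :=
  gn 5 ≤ 19 ∧ ∀ N : ℕ, 5 ≤ N → ∃ c : ℝ, 0 ≤ c ∧ c ≤ 2 / 3 ∧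
    ∀ n : ℝ, 4 ≤ n → gn N - c * (n - N) ≤ gn n

end Pool.Agent.PSF
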