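import Pool.Agent.P.MP_7b7370_an.FMain

set_option autoImplicit false

namespace Pool.Agent.PSF

open Real Set Pool.Agent.PSz

theorem fflat_ray {Ω : Set ℂ} (ho : IsOpen Ω) (hb : Bornology.IsBounded Ω) {p e : ℂ} (hp : p ∈ Ω)
    (he : e ≠ 0) (h : ∀ t : ℝ, 0 ≤ t → p + (t : ℂ) * e ∉ frontier Ω) : False := by
  have hc : IsPreconnected ((fun t : ℝ => p + (t : ℂ) * e) '' Ici 0) :=
    isPreconnected_Ici.image _ (by fun_prop)
  have hs := hc.subset_of_closure_inter_subset ho ⟨p, ⟨0, self_mem_Ici, by simp⟩, hp⟩ (by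
    rintro z ⟨hz, t, ht, rfl⟩
    by_contra hcon
    exact h t ht ⟨hz, by rwa [ho.interior_eq]⟩)
  obtain ⟨M, hM⟩ := hb.exists_norm_le
  have he0 : 0 < ‖e‖ := norm_pos_iff.2 he
  have hM0 : 0 ≤ M := (norm_nonneg _).trans (hM p hp)
  have ht : (0 : ℝ) ≤ (2 * M + 1) / ‖e‖ := by positivity
  have h1 := hM _ (hs ⟨_, ht, rfl⟩)
  have h2 := norm_sub_le (p + (((2 * M + 1) / ‖e‖ : ℝ) : ℂ) * e) p
  rw [add_sub_cancel_left, norm_mul, Complex.norm_real, Real.norm_of_nonneg ht,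
    div_mul_cancel₀ _ he0.ne'] at h2
  linarith [hM p hp]

theorem exists_not_collinear {N : ℕ} (hN : 0 < N) {v : Fin N → ℂ} {Ω : Set ℂ} (hP : IsPoly v Ω) :
    ∃ i j k, ¬ Collinear ℝ ({v i, v j, v k} : Set ℂ) := by
  by_contra hcon
  push Not at hcon
  obtain ⟨o, ho⟩ : ∃ o : Fin N, o = ⟨0, hN⟩ := ⟨_, rfl⟩
  obtain ⟨d, hd, hv⟩ : ∃ d : ℂ, d ≠ 0 ∧ ∀ k, ∃ t : ℝ, v k = v o + (t : ℂ) * d := by
    by_cases h : ∀ k, v k = v o
    · exact ⟨1, one_ne_zero, fun k => ⟨0, by simp [h k]⟩⟩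
    · push Not at h
      obtain ⟨j, hj⟩ := h
      refine ⟨v j - v o, sub_ne_zero.2 hj, fun k => ?_⟩
      have h1 := (hcon o j k).mem_affineSpan_of_mem_of_ne (p₁ := v o) (p₂ := v j) (p₃ := v k)
        (by simp) (by simp) (by simp) hj.symm
      obtain ⟨t, ht⟩ := mem_affineSpan_pair_iff_exists_lineMap_eq.1 h1
      refine ⟨t, ?_⟩
      rw [← ht, AffineMap.lineMap_apply]
      simp [add_comm]
  obtain ⟨f, hf⟩ : ∃ f : ℂ → ℝ, f = fun z => d.re * (z.im - (v o).im) - d.im * (z.re - (v o).re) :=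
    ⟨_, rfl⟩
  have hz : ∀ z ∈ frontier Ω, f z = 0 := by
    intro z hz
    rw [hP.front] at hz
    obtain ⟨i, a, b, -, -, hab, rfl⟩ := mem_iUnion.1 hz
    obtain ⟨s, hs⟩ := hv i
    obtain ⟨t, ht⟩ := hv (finRotate N i)
    rw [hs, ht, hf]
    obtain rfl : b = 1 - a := by linarith
    simp
    ring
  have hn : 0 < d.re ^ 2 + d.im ^ 2 := by
    have := Complex.normSq_pos.2 hd
    rw [Complex.normSq_apply] at this
    linarith
  have hstep : ∀ (z : ℂ) (t : ℝ), f (z + (t : ℂ) * (Complex.I * d)) =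
      f z + t * (d.re ^ 2 + d.im ^ 2) := by
    intro z t
    rw [hf]
    simp
    ring
  have hne : Ω.Nonempty := by
    by_contra h0
    have h1 := hP.front
    rw [not_nonempty_iff_eq_empty.1 h0, frontier_empty] at h1
    have : v o ∈ (∅ : Set ℂ) := by
      rw [h1]
      exact mem_iUnion.2 ⟨o, left_mem_segment _ _ _⟩
    exact this
  obtain ⟨p, hp⟩ := hne
  have hpf : p ∉ frontier Ω := fun h => h.2 (by rwa [hP.isOpen.interior_eq])
  have hI : Complex.I * d ≠ 0 := mul_ne_zero Complex.I_ne_zero hd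
  rcases le_total 0 (f p) with h0 | h0
  · refine fflat_ray hP.isOpen hP.bdd hp hI fun t ht hm => ?_
    rcases ht.eq_or_lt with rfl | ht
    · exact hpf (by simpa using hm)
    · have := hz _ hm
      rw [hstep] at this
      nlinarith [mul_pos ht hn]
  · refine fflat_ray hP.isOpen hP.bdd hp (neg_ne_zero.2 hI) fun t ht hm => ?_
    rcases ht.eq_or_lt with rfl | ht
    · exact hpf (by simpa using hm)
    · have h1 : p + (t : ℂ) * -(Complex.I * d) = p + ((-t : ℝ) : ℂ) * (Complex.I * d) := by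
        push_cast
        ring
      rw [h1] at hm
      have := hz _ hm
      rw [hstep] at this
      nlinarith [mul_pos ht hn]

end Pool.Agent.PSF
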