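import Pool.Agent.P.MP_7b7370_an.Api
import Pool.Agent.P.MP_f791b6_an.P2Iso

set_option autoImplicit false

namespace Pool.Agent.PSz

open Real Set MeasureTheory intervalIntegral

namespace FK

open Pool.Agent.P.MP_f791b6_an.Two Pool.Agent.Lib.Mergelyan Metric

lemma real_ball (x : ℂ) {r : ℝ} (hr : 0 ≤ r) : volume.real (ball x r) = π * r ^ 2 := by
  simp [measureReal_def, Complex.volume_ball, hr, mul_comm]

lemma pk_ge {c : ℝ} (h0 : 0 < c) {w : ℂ} (hw : ‖w - 1‖ < √(1 - c)) :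
    c / 8 ≤ pk 2 w := by
  have h2 : ‖w - 1‖ ^ 2 < 1 - c := (lt_sqrt (norm_nonneg _)).1 hw
  rw [Complex.sq_norm, Complex.normSq_apply] at h2
  simp only [Complex.sub_re, Complex.one_re, Complex.sub_im, Complex.one_im, sub_zero] at h2
  refine le_max_of_le_left ?_
  have h3 : 0 < w.re * w.re + w.im * w.im := by nlinarith [sq_nonneg w.im, sq_nonneg w.re]
  rw [Complex.inv_re, Complex.normSq_apply, le_sub_iff_add_le, le_div_iff₀ h3]
  have h4 : w.re * w.re + w.im * w.im ≤ 4 := by nlinarith [sq_nonneg w.im, sq_nonneg (w.re - 2)]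
  nlinarith

/-- the Ahlfors-Beurling estimate with a deficit -/
lemma ahlfors_def {δ : ℝ} (hδ : 0 < δ) : ∃ D > 0, D ≤ 1 ∧ ∀ E : Set ℂ, MeasurableSet E →
    volume E ≠ ⊤ → (∀ x : ℂ, δ ≤ volume.real (ball x 1 \ E)) → ∀ z : ℂ,
    ‖∫ w in E, (w - z)⁻¹‖ ≤ π / 2 + volume.real E / 2 - D := by
  have hp := pi_pos
  set c := min (δ / (2 * π)) 1 with hc
  have c0 : 0 < c := lt_min (by positivity) one_pos
  have c1 : c ≤ 1 := min_le_right _ _
  have c2 : π * c ≤ δ / 2 := by
    have := min_le_left (δ / (2 * π)) 1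
    rw [← hc, le_div_iff₀ (by positivity)] at this
    linarith
  refine ⟨min (c / 8 * (δ / 2)) 1, lt_min (by positivity) one_pos, min_le_right _ _,
    fun E hE hf hx z => ?_⟩
  set J := ∫ w in E, (w - z)⁻¹ with hJ
  obtain ⟨a, haJ⟩ : ∃ a : Circle, ‖J‖ = ((a : ℂ)⁻¹ * J).re := by
    refine ⟨Circle.exp (Complex.arg J), ?_⟩
    conv_rhs => rw [← Complex.norm_mul_exp_arg_mul_I J]
    simp only [Circle.coe_exp, Complex.norm_mul_exp_arg_mul_I]
    conv_rhs => enter [1, 2]; rw [← Complex.norm_mul_exp_arg_mul_I J]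
    rw [mul_left_comm, inv_mul_cancel₀ (Complex.exp_ne_zero _)]
    simp
  have hi := integrableOn_inv_sub hf z
  have hpk : Integrable fun w => pk 2 (rotation a (w - z)) :=
    (((rotation a).measurePreserving.integrable_comp_emb
      (rotation a).toHomeomorph.measurableEmbedding).mpr (integrable_pk two_pos)).comp_sub_right z
  have h1 : ∫ w, pk 2 (rotation a (w - z)) = π * 2 / 4 := by
    rw [integral_sub_right_eq_self (fun w => pk 2 (rotation a w)) z,
      integral_comp (rotation a) (pk 2), integral_pk two_pos]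
  have h2 := integral_re (hi.const_mul (a : ℂ)⁻¹)
  simp only [RCLike.re_to_complex] at h2
  set x := z + (a : ℂ)⁻¹ with hx'
  have h3 : δ / 2 ≤ volume.real (ball x √(1 - c) \ E) := by
    have a1 : ball x √(1 - c) ⊆ ball x 1 := ball_subset_ball (sqrt_le_one.2 (by linarith))
    have a2 := measureReal_sdiff (μ := volume) a1 measurableSet_ball measure_ball_lt_top.ne
    rw [real_ball x zero_le_one, real_ball x (sqrt_nonneg _), sq_sqrt (by linarith)] at a2
    have a3 := measureReal_union_le (μ := volume) (ball x √(1 - c) \ E) (ball x 1 \ ball x √(1 - c))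
    have a4 : volume.real (ball x 1 \ E) ≤
        volume.real (ball x √(1 - c) \ E ∪ ball x 1 \ ball x √(1 - c)) := by
      refine measureReal_mono (fun w hw => ?_) (measure_ne_top_of_subset
        (union_subset (sdiff_subset.trans a1) sdiff_subset) measure_ball_lt_top.ne)
      by_cases h : w ∈ ball x √(1 - c)
      exacts [Or.inl ⟨h, hw.2⟩, Or.inr ⟨hw.1, h⟩]
    linarith [hx x]
  have h4 : c / 8 * volume.real (ball x √(1 - c) \ E) ≤ ∫ w in Eᶜ, pk 2 (rotation a (w - z)) := by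
    refine (setIntegral_ge_of_const_le_real (measurableSet_ball.diff hE)
      (measure_ne_top_of_subset sdiff_subset measure_ball_lt_top.ne) (fun w hw => pk_ge c0 ?_)
      hpk.integrableOn).trans (setIntegral_mono_set hpk.integrableOn
        (ae_of_all _ fun w => le_max_right _ _) (sdiff_subset_compl _ _).eventuallyLE)
    have : rotation a (w - z) - 1 = a * (w - x) := by
      rw [rotation_apply, hx']; field_simp; ring
    rw [this, norm_mul, Circle.norm_coe, one_mul]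
    exact mem_ball_iff_norm.1 hw.1
  have h5 := integral_add_compl hE hpk
  have h6 := mul_le_mul_of_nonneg_left h3 (show 0 ≤ c / 8 by positivity)
  have h7 : ∫ w in E, ((a : ℂ)⁻¹ * (w - z)⁻¹).re
      ≤ ∫ w in E, (pk 2 (rotation a (w - z)) + 2⁻¹) := by
    refine integral_mono (hi.const_mul _).re (hpk.integrableOn.add (integrableOn_const hf))
      fun w => ?_
    simp only [pk, rotation_apply, mul_inv]
    linarith [le_max_left (((a : ℂ)⁻¹ * (w - z)⁻¹).re - 2⁻¹) 0]
  rw [MeasureTheory.integral_add hpk.integrableOn (integrableOn_const hf), setIntegral_const,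
    smul_eq_mul] at h7
  rw [haJ, hJ, ← MeasureTheory.integral_const_mul, ← h2]
  linarith [min_le_left (c / 8 * (δ / 2)) 1]

lemma norm_gr (u : ℂ → ℝ) (z : ℂ) : ‖gr u z‖ = ‖fderiv ℝ u z‖ := by
  rw [← sq_eq_sq₀ (norm_nonneg _) (norm_nonneg _), norm_clm_sq, Complex.sq_norm,
    Complex.normSq_apply, gr_re, gr_im]
  ring

/-- the dual isoperimetric inequality from a bound on the Cauchy transform -/
lemma iso_of {f : ℂ → ℝ} (h : ContDiff ℝ 1 f) (hc : HasCompactSupport f) {E : Set ℂ}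
    (hf : volume E ≠ ⊤) {A : ℝ} (hA : ∀ z, ‖∫ w in E, (w - z)⁻¹‖ ≤ A) :
    2 * π * ∫ w in E, f w ≤ A * ∫ z, ‖fderiv ℝ f z‖ := by
  have hp := Real.pi_pos
  set φ : ℂ → ℂ := fun z => (f z : ℂ) with hφ
  have h1 : ContDiff ℝ 1 φ := Complex.ofRealCLM.contDiff.comp h
  have hc1 : HasCompactSupport φ := hc.comp_left (g := fun x : ℝ => (x : ℂ)) (by simp)
  have hd : ∀ z, dbar φ z = gr f z / 2 := by
    intro z
    have : HasFDerivAt φ (Complex.ofRealCLM.comp (fderiv ℝ f z)) z :=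
      Complex.ofRealCLM.hasFDerivAt.comp z (h.differentiable one_ne_zero z).hasFDerivAt
    simp [dbar, gr, this.fderiv]
  obtain ⟨M, hM⟩ := exists_data_dbar h1 hc1
  have hfin : IsFiniteMeasure (volume.restrict E) := isFiniteMeasure_restrict.mpr hf
  have hm : AEStronglyMeasurable (fun p : ℂ × ℂ => dbar φ p.2 * (p.1 - p.2)⁻¹)
      ((volume.restrict E).prod volume) := by
    have := (continuous_dbar h1).measurable
    exact Measurable.aestronglyMeasurable (by fun_prop)
  have hI : Integrable (fun p : ℂ × ℂ => dbar φ p.2 * (p.1 - p.2)⁻¹)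
      ((volume.restrict E).prod volume) := by
    rw [integrable_prod_iff hm]
    refine ⟨ae_of_all _ fun w => hM.integrable_kernel w, ?_⟩
    refine Integrable.of_bound hm.norm.integral_prod_right'
      (M * (2 * π * 1) + ∫ ζ, (tsupport φ).indicator (fun _ => M * 1⁻¹) ζ) (ae_of_all _ fun w => ?_)
    rw [Real.norm_eq_abs, abs_of_nonneg (MeasureTheory.integral_nonneg fun _ => norm_nonneg _),
      ← integral_kr_sub one_pos.le w, ← MeasureTheory.integral_const_mul,
      ← MeasureTheory.integral_add ((integrable_kr_sub 1 w).const_mul M) (hM.integrable_ind _)]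
    exact integral_mono (hM.integrable_kernel w).norm
      (((integrable_kr_sub 1 w).const_mul M).add (hM.integrable_ind _))
      fun ζ => hM.kernel_le one_pos w ζ
  have e1 : ((∫ w in E, f w : ℝ) : ℂ) = (π : ℂ)⁻¹ * ∫ ζ, dbar φ ζ * ∫ w in E, (w - ζ)⁻¹ := by
    rw [← integral_complex_ofReal]
    have : ∀ w, (f w : ℂ) = (π : ℂ)⁻¹ * ∫ ζ, dbar φ ζ * (w - ζ)⁻¹ := fun w =>
      (pompeiu h1 hc1 w).symm
    simp only [this]
    rw [MeasureTheory.integral_const_mul, integral_integral_swap hI]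
    simp only [MeasureTheory.integral_const_mul]
  have gi : Integrable fun z => ‖gr f z‖ :=
    ((continuous_gr h).integrable_of_hasCompactSupport (hasCompactSupport_gr hc)).norm
  have e2 : ‖∫ ζ, dbar φ ζ * ∫ w in E, (w - ζ)⁻¹‖ ≤ ∫ ζ, ‖gr f ζ‖ * (A / 2) := by
    refine norm_integral_le_of_norm_le (gi.mul_const _) (ae_of_all _ fun ζ => ?_)
    rw [norm_mul, hd, norm_div, Complex.norm_ofNat]
    have := hA ζ
    have := norm_nonneg (gr f ζ)
    nlinarith
  have e3 : |∫ w in E, f w| ≤ π⁻¹ * ∫ ζ, ‖gr f ζ‖ * (A / 2) := by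
    rw [← Real.norm_eq_abs, ← Complex.norm_real, e1, norm_mul, norm_inv, Complex.norm_real,
      Real.norm_eq_abs, abs_of_pos hp]
    exact mul_le_mul_of_nonneg_left e2 (by positivity)
  rw [MeasureTheory.integral_mul_const, le_inv_mul_iff₀ hp] at e3
  simp only [norm_gr] at e3
  nlinarith [le_abs_self (∫ w in E, f w)]

variable {u : ℂ → ℝ}

lemma fin_level (hc : HasCompactSupport u) {S : Set ℂ} (h : ∀ z ∈ S, u z ≠ 0) : volume S ≠ ⊤ :=
  measure_ne_top_of_subset (fun z hz => subset_tsupport u (h z hz)) hc.measure_lt_top.ne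

lemma int_D (hu : ContDiff ℝ 1 u) (hc : HasCompactSupport u) :
    Integrable fun z => ‖fderiv ℝ u z‖ :=
  ((hu.continuous_fderiv one_ne_zero).integrable_of_hasCompactSupport (hc.fderiv ℝ)).norm

lemma int_D2 (hu : ContDiff ℝ 1 u) (hc : HasCompactSupport u) :
    Integrable fun z => ‖fderiv ℝ u z‖ ^ 2 := by
  have h1 : Continuous fun z => ‖fderiv ℝ u z‖ ^ 2 := (hu.continuous_fderiv one_ne_zero).norm.pow 2
  have h2 : HasCompactSupport fun z => ‖fderiv ℝ u z‖ ^ 2 :=
    (hc.fderiv ℝ).comp_left (g := fun L : ℂ →L[ℝ] ℝ => ‖L‖ ^ 2) (by simp)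
  exact h1.integrable_of_hasCompactSupport h2

lemma int_u2 (hu : ContDiff ℝ 1 u) (hc : HasCompactSupport u) : Integrable fun z => u z ^ 2 := by
  have h1 : Continuous fun z => u z ^ 2 := hu.continuous.pow 2
  have h2 : HasCompactSupport fun z => u z ^ 2 := hc.comp_left (g := fun x : ℝ => x ^ 2) (by simp)
  exact h1.integrable_of_hasCompactSupport h2

lemma meas_lay (hu : ContDiff ℝ 1 u) (a b : ℝ) : MeasurableSet (u ⁻¹' Ioc a b) :=
  hu.continuous.measurable measurableSet_Ioc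

/-- one layer -/
lemma layer (hu : ContDiff ℝ 1 u) (hc : HasCompactSupport u) {a b A : ℝ} (ha : 0 ≤ a)
    (hab : a < b) (hA : ∀ z, ‖∫ w in u ⁻¹' Ioi b, (w - z)⁻¹‖ ≤ A) :
    2 * π * ((b - a) * volume.real (u ⁻¹' Ioi b)) ≤ A * ∫ z in u ⁻¹' Ioc a b, ‖fderiv ℝ u z‖ := by
  have hp := pi_pos
  have A0 : 0 ≤ A := (norm_nonneg _).trans (hA 0)
  have hf : volume (u ⁻¹' Ioi b) ≠ ⊤ := fin_level hc fun z hz => (ha.trans_lt (hab.trans hz)).ne'
  have key : ∀ η, 0 < η → η ≤ (b - a) / 2 → 2 * π * ((b - a - 2 * η) * volume.real (u ⁻¹' Ioi b)) ≤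
      A * ∫ z in u ⁻¹' Ioc a b, ‖fderiv ℝ u z‖ := by
    intro η h0 h1
    set γ : ℝ → ℝ := fun x => max 0 (min 1 (min (x - a) (b - x) / η)) with hγ
    have γc : Continuous γ := by fun_prop
    have γ0 : ∀ x, 0 ≤ γ x := fun x => le_max_left _ _
    have γ1 : ∀ x, γ x ≤ 1 := fun x => max_le zero_le_one (min_le_left _ _)
    have γ2 : ∀ x, x ∉ Ioc a b → γ x = 0 := fun x hx => by
      refine max_eq_left ((min_le_right _ _).trans (div_nonpos_of_nonpos_of_nonneg ?_ h0.le))
      rw [mem_Ioc, not_and_or, not_lt, not_le] at hx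
      rcases hx with hx | hx
      exacts [(min_le_left _ _).trans (by linarith), (min_le_right _ _).trans (by linarith)]
    set G : ℝ → ℝ := fun x => ∫ s in a..x, γ s with hG
    have Gd : ∀ x, HasDerivAt G (γ x) x := fun x => (γc.integral_hasStrictDerivAt a x).hasDerivAt
    have G1 : ContDiff ℝ 1 G := contDiff_one_iff_deriv.2 ⟨fun x => (Gd x).differentiableAt, by
      rw [show deriv G = γ from funext fun x => (Gd x).deriv]; exact γc⟩
    have G0 : G 0 = 0 := by
      simp only [hG]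
      rw [integral_congr (g := fun _ => 0) fun x hx => γ2 x fun h => ?_]
      · simp
      · rw [uIcc_of_ge ha] at hx; linarith [hx.2, h.1]
    have G2 : ∀ x, b < x → b - a - 2 * η ≤ G x := fun x hx => by
      refine le_trans (le_of_eq ?_) (integral_mono_interval (a := a + η) (b := b - η) (by linarith)
        (by linarith) (by linarith) (ae_of_all _ γ0) (γc.intervalIntegrable _ _))
      rw [integral_congr (g := fun _ => 1) fun s hs => ?_]
      · simp; ring
      · rw [uIcc_of_le (by linarith)] at hs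
        have : 1 ≤ min (s - a) (b - s) / η := by
          rw [one_le_div h0]; exact le_min (by linarith [hs.1]) (by linarith [hs.2])
        simp only [hγ, min_eq_left this, max_eq_right zero_le_one]
    have f1 : ContDiff ℝ 1 (G ∘ u) := G1.comp hu
    have fc : HasCompactSupport (G ∘ u) := hc.comp_left G0
    have h2 := iso_of f1 fc hf hA
    have h3 := setIntegral_ge_of_const_le_real (hu.continuous.measurable measurableSet_Ioi) hf
      (f := G ∘ u) (fun z hz => G2 _ hz)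
      (f1.continuous.integrable_of_hasCompactSupport fc).integrableOn
    have h4 : ∫ z, ‖fderiv ℝ (G ∘ u) z‖ ≤ ∫ z in u ⁻¹' Ioc a b, ‖fderiv ℝ u z‖ := by
      rw [← MeasureTheory.integral_indicator (meas_lay hu a b)]
      refine integral_mono (int_D f1 fc) ((int_D hu hc).indicator (meas_lay hu a b)) fun z => ?_
      have := ((Gd (u z)).comp_hasFDerivAt z (hu.differentiable one_ne_zero z).hasFDerivAt).fderiv
      simp only [this, norm_smul, Real.norm_eq_abs, abs_of_nonneg (γ0 _)]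
      by_cases hz : z ∈ u ⁻¹' Ioc a b
      · rw [indicator_of_mem hz]; exact mul_le_of_le_one_left (norm_nonneg _) (γ1 _)
      · rw [indicator_of_notMem hz, γ2 _ hz, zero_mul]
    exact (mul_le_mul_of_nonneg_left h3 (by positivity)).trans
      (h2.trans (mul_le_mul_of_nonneg_left h4 A0))
  refine le_of_forall_pos_le_add fun ε hε => ?_
  set m := volume.real (u ⁻¹' Ioi b)
  have m0 : 0 ≤ m := measureReal_nonneg
  have h1 := key _ (lt_min (show 0 < ε / (4 * π * (m + 1)) by positivity) (by linarith))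
    (min_le_right _ _)
  have h2 := min_le_left (ε / (4 * π * (m + 1))) ((b - a) / 2)
  have h3 : 0 < min (ε / (4 * π * (m + 1))) ((b - a) / 2) := lt_min (by positivity) (by linarith)
  rw [le_div_iff₀ (by positivity)] at h2
  nlinarith [mul_pos h3 hp]

lemma layer' (hu : ContDiff ℝ 1 u) (hc : HasCompactSupport u) {a b A e : ℝ} (ha : 0 ≤ a)
    (hab : a < b) (he : 0 ≤ e) (hA : ∀ z, ‖∫ w in u ⁻¹' Ioi b, (w - z)⁻¹‖ ≤ A)
    (h : e * A ≤ √(π * volume.real (u ⁻¹' Ioi b))) :
    (b - a) * (e * (2 * √(π * volume.real (u ⁻¹' Ioi b)))) ≤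
      ∫ z in u ⁻¹' Ioc a b, ‖fderiv ℝ u z‖ := by
  have h1 := mul_le_mul_of_nonneg_left (layer hu hc ha hab hA) he
  have X0 : 0 ≤ ∫ z in u ⁻¹' Ioc a b, ‖fderiv ℝ u z‖ :=
    MeasureTheory.integral_nonneg fun _ => norm_nonneg _
  have h2 := mul_self_sqrt (mul_nonneg pi_pos.le (measureReal_nonneg (μ := volume)
    (s := u ⁻¹' Ioi b)))
  rcases (sqrt_nonneg (π * volume.real (u ⁻¹' Ioi b))).eq_or_lt with h0 | h0
  · rw [← h0]; simpa using X0
  · refine le_of_mul_le_mul_left ?_ h0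
    have h3 := mul_le_mul_of_nonneg_right h X0
    have h4 := congrArg (fun x => 2 * e * (b - a) * x) h2
    linarith

/-- symmetrization in calibrated form -/
lemma ps (hu : ContDiff ℝ 1 u) (hc : HasCompactSupport u) {I K k : ℝ → ℝ} {τ B A : ℝ}
    (hA : volume.real (u ⁻¹' Ioi 0) ≤ A) (hτ : 0 ≤ τ)
    (h1 : ∀ a b, 0 ≤ a → a < b →
      (b - a) * I (volume.real (u ⁻¹' Ioi b)) ≤ ∫ z in u ⁻¹' Ioc a b, ‖fderiv ℝ u z‖)
    (h2 : ∀ m, 0 ≤ m → m ≤ A → K m ≤ I m * k m)
    (h3 : ∀ m m', 0 ≤ m → m ≤ m' → m' ≤ A → (τ + k m ^ 2) * (m' - m) ≤ K m' - K m)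
    (h4 : ∀ m, 0 ≤ m → m ≤ A → 0 ≤ k m ∧ k m ^ 2 ≤ B) (h5 : K 0 = 0) :
    τ * ∫ z in u ⁻¹' Ioi 0, u z ^ 2 ≤ ∫ z in u ⁻¹' Ioi 0, ‖fderiv ℝ u z‖ ^ 2 := by
  set μ : ℝ → ℝ := fun s => volume.real (u ⁻¹' Ioi s) with hμ
  have μ0 : ∀ s, 0 ≤ μ s := fun s => measureReal_nonneg
  have fin : ∀ {S : Set ℝ}, (∀ x ∈ S, 0 < x) → volume (u ⁻¹' S) ≠ ⊤ := fun h =>
    fin_level hc fun z hz => (h _ hz).ne'
  have μ1 : ∀ a b, 0 ≤ a → a ≤ b → μ a - μ b = volume.real (u ⁻¹' Ioc a b) := fun a b ha hab => by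
    simp only [hμ]
    rw [← Ioc_union_Ioi_eq_Ioi hab, preimage_union, measureReal_union
      ((Ioc_disjoint_Ioi le_rfl).preimage u) (hu.continuous.measurable measurableSet_Ioi)
      (fin fun x hx => ha.trans_lt hx.1) (fin fun x hx => (ha.trans hab).trans_lt hx)]
    ring
  have μ2 : ∀ a b, 0 ≤ a → a ≤ b → μ b ≤ μ a := fun a b ha hab => by
    linarith [μ1 a b ha hab, measureReal_nonneg (μ := volume) (s := u ⁻¹' Ioc a b)]
  have μ3 : ∀ a, 0 ≤ a → μ a ≤ A := fun a ha => (μ2 0 a le_rfl ha).trans hA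
  have B0 : 0 ≤ B := (sq_nonneg _).trans (h4 0 le_rfl ((μ0 0).trans hA)).2
  have step : ∀ a b, 0 ≤ a → a < b → τ * ∫ z in u ⁻¹' Ioc a b, u z ^ 2 ≤
      a * b * K (μ a) - b * (2 * b - a) * K (μ b) + (∫ z in u ⁻¹' Ioc a b, ‖fderiv ℝ u z‖ ^ 2) +
        (b - a) * b * (B + τ) * (μ a - μ b) := by
    intro a b ha hab
    have hb : 0 ≤ b := by linarith
    have hf := fin (S := Ioc a b) fun x hx => ha.trans_lt hx.1
    have a1 : ∫ z in u ⁻¹' Ioc a b, u z ^ 2 ≤ b ^ 2 * (μ a - μ b) := by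
      rw [μ1 a b ha hab.le, mul_comm, ← smul_eq_mul, ← setIntegral_const]
      exact setIntegral_mono_on (int_u2 hu hc).integrableOn (integrableOn_const hf)
        (meas_lay hu a b) fun z hz => pow_le_pow_left₀ (ha.trans hz.1.le) hz.2 2
    obtain ⟨k0, k1⟩ := h4 _ (μ0 b) (μ3 b hb)
    have a2 : 2 * (b * k (μ b)) * ∫ z in u ⁻¹' Ioc a b, ‖fderiv ℝ u z‖ ≤
        (∫ z in u ⁻¹' Ioc a b, ‖fderiv ℝ u z‖ ^ 2) + (b * k (μ b)) ^ 2 * (μ a - μ b) := by
      rw [μ1 a b ha hab.le, mul_comm _ (volume.real _), ← smul_eq_mul (volume.real _),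
        ← setIntegral_const, ← MeasureTheory.integral_const_mul,
        ← MeasureTheory.integral_add (int_D2 hu hc).integrableOn (integrableOn_const hf)]
      exact integral_mono ((int_D hu hc).const_mul _).integrableOn
        ((int_D2 hu hc).integrableOn.add (integrableOn_const hf)) fun z => by
          simp only; nlinarith [sq_nonneg (‖fderiv ℝ u z‖ - b * k (μ b))]
    have a3 := mul_le_mul_of_nonneg_left (h1 a b ha hab) (show 0 ≤ 2 * (b * k (μ b)) by positivity)
    have a4 := mul_le_mul_of_nonneg_left (h2 _ (μ0 b) (μ3 b hb))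
      (show 0 ≤ 2 * b * (b - a) from mul_nonneg (by positivity) (by linarith))
    have a5 := mul_le_mul_of_nonneg_left (h3 _ _ (μ0 b) (μ2 a b ha hab.le) (μ3 a ha))
      (mul_nonneg ha hb)
    have a6 := mul_le_mul_of_nonneg_left a1 hτ
    have a7 := mul_le_mul_of_nonneg_left k1 (show 0 ≤ (b - a) * b * (μ a - μ b) from
      mul_nonneg (mul_nonneg (by linarith) hb) (sub_nonneg.2 (μ2 a b ha hab.le)))
    change _ * ((b - a) * I (μ b)) ≤ _ at a3
    linarith
  have ind : ∀ h : ℝ, 0 < h → ∀ n : ℕ, τ * ∫ z in u ⁻¹' Ioc 0 (n * h), u z ^ 2 ≤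
      -(n * h * ((n + 1) * h) * K (μ (n * h))) +
        (∫ z in u ⁻¹' Ioc 0 (n * h), ‖fderiv ℝ u z‖ ^ 2) +
        h * (n * h) * (B + τ) * (μ 0 - μ (n * h)) := by
    intro h h0 n
    induction n with
    | zero => simp
    | succ n ih =>
      have a0 : 0 ≤ n * h := by positivity
      have a1 : n * h < (n + 1) * h := by linarith
      have hd : Disjoint (u ⁻¹' Ioc 0 (n * h)) (u ⁻¹' Ioc (n * h) ((n + 1) * h)) :=
        (Ioc_disjoint_Ioc_of_le le_rfl).preimage u
      rw [Nat.cast_add_one, ← Ioc_union_Ioc_eq_Ioc a0 a1.le, preimage_union,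
        setIntegral_union hd (meas_lay hu _ _) (int_u2 hu hc).integrableOn
          (int_u2 hu hc).integrableOn,
        setIntegral_union hd (meas_lay hu _ _) (int_D2 hu hc).integrableOn
          (int_D2 hu hc).integrableOn]
      have a2 := step _ _ a0 a1
      have a3 : 0 ≤ h * h * (B + τ) * (μ 0 - μ (n * h)) :=
        mul_nonneg (by positivity) (sub_nonneg.2 (μ2 _ _ le_rfl a0))
      linarith
  obtain ⟨L, hL⟩ := hu.continuous.bddAbove_range_of_hasCompactSupport hc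
  have hL' : ∀ z, u z ≤ |L| + 1 := fun z => by linarith [hL (mem_range_self z), le_abs_self L]
  set L' := |L| + 1 with hL''
  have L0 : 0 < L' := by positivity
  refine le_of_forall_pos_le_add fun ε hε => ?_
  obtain ⟨n, hn⟩ := exists_nat_gt (L' * L' * (B + τ) * A / ε)
  have A0 : 0 ≤ A := (μ0 0).trans hA
  have n0 : (0 : ℝ) < n := lt_of_le_of_lt (by positivity) hn
  have a1 := ind (L' / n) (by positivity) n
  have e1 : u ⁻¹' Ioc 0 L' = u ⁻¹' Ioi 0 := by
    ext z; exact ⟨fun h => h.1, fun h => ⟨h, hL' z⟩⟩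
  have e2 : μ L' = 0 := by
    have : u ⁻¹' Ioi L' = ∅ := eq_empty_of_forall_notMem fun z hz => absurd (hL' z) (not_le.2 hz)
    simp only [hμ, this, measureReal_empty]
  rw [mul_div_cancel₀ _ n0.ne', e1, e2, h5] at a1
  have a2 : L' / n * L' * (B + τ) * (μ 0 - 0) ≤ ε := by
    rw [div_lt_iff₀ hε] at hn
    calc _ = L' * L' * (B + τ) * μ 0 / n := by ring
      _ ≤ L' * L' * (B + τ) * A / n := by gcongr
      _ ≤ ε := by rw [div_le_iff₀ n0]; linarith
  linarith

/-! the radial calibration -/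

noncomputable def kk (t q : ℝ) : ℝ := -2 * √q * F1 t q / F0 t q
noncomputable def k2 (t q : ℝ) : ℝ := 4 * q * (F1 t q / F0 t q) ^ 2
noncomputable def KK (t q : ℝ) : ℝ := -4 * q * F1 t q / F0 t q

lemma mono_of {f f' : ℝ → ℝ} {a b : ℝ} (hab : a ≤ b)
    (h : ∀ x ∈ Icc a b, HasDerivAt f (f' x) x) (h' : ∀ x ∈ Ioo a b, 0 ≤ f' x) : f a ≤ f b :=
  monotoneOn_of_hasDerivWithinAt_nonneg (convex_Icc a b)
    (fun x hx => (h x hx).continuousAt.continuousWithinAt)
    (fun x hx => (h x (interior_subset hx)).hasDerivWithinAt)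
    (fun x hx => h' x (by rwa [interior_Icc] at hx)) (left_mem_Icc.2 hab) (right_mem_Icc.2 hab) hab

variable {t q q' : ℝ}

lemma F1_nonpos (ht : 0 ≤ t) (hq : 0 ≤ q) (h : t * q < j2) : F1 t q ≤ 0 := by
  linarith [F1_le_gen ht (mul_nonneg ht hq) (by linarith [j2_lt])]

lemma kk_nonneg (ht : 0 ≤ t) (hq : 0 ≤ q) (h : t * q < j2) : 0 ≤ kk t q :=
  div_nonneg (by nlinarith [F1_nonpos ht hq h, sqrt_nonneg q]) (F0_pos (mul_nonneg ht hq) h).le

lemma kk_sq (hq : 0 ≤ q) : kk t q ^ 2 = k2 t q := by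
  unfold kk k2
  rw [mul_div_assoc, mul_pow, mul_pow, sq_sqrt hq]; ring

lemma KK_eq (hq : 0 ≤ q) : KK t q = 2 * √q * kk t q := by
  unfold kk KK
  conv_lhs => rw [← mul_self_sqrt hq]
  rw [mul_self_sqrt hq]
  conv_lhs => enter [1, 1, 2]; rw [← mul_self_sqrt hq]
  ring

lemma w_nonneg (ht : 0 ≤ t) (hq : 0 < q) :
    0 ≤ t * F0 t q ^ 2 / 2 + F1 t q * F0 t q + 2 * q * F1 t q ^ 2 := by
  have := mono_of (f := fun q => q * (t * F0 t q ^ 2 / 2 + F1 t q * F0 t q + 2 * q * F1 t q ^ 2))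
    (f' := fun q => t * F0 t q ^ 2 / 4 + q * F1 t q ^ 2) hq.le (fun x _ => by
      refine ((hasDerivAt_id x).mul ((((((hasDerivAt_F0 t x).pow 2).const_mul t).div_const 2).add
        ((hasDerivAt_F1 t x).mul (hasDerivAt_F0 t x))).add
        (((hasDerivAt_id x).const_mul 2).mul ((hasDerivAt_F1 t x).pow 2)))).congr_deriv ?_
      have := ode t x
      simp only [id, Pi.add_apply, Pi.mul_apply, Pi.pow_apply]
      norm_num
      linear_combination (x * F1 t x + F0 t x / 4) * this)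
    fun x hx => by have := hx.1; positivity
  simp only [zero_mul] at this
  exact nonneg_of_mul_nonneg_right this hq

lemma k2_mono (ht : 0 ≤ t) (hq : 0 ≤ q) (hqq : q ≤ q') (h : t * q' < j2) : k2 t q ≤ k2 t q' := by
  have h0 : ∀ x ∈ Icc q q', t * x < j2 := fun x hx => (mul_le_mul_of_nonneg_left hx.2 ht).trans_lt h
  refine mono_of (f' := fun x => 4 * (-F1 t x) *
    (t * F0 t x ^ 2 / 2 + F1 t x * F0 t x + 2 * x * F1 t x ^ 2) / F0 t x ^ 3) hqq
    (fun x hx => ?_) fun x hx => ?_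
  · have h1 := (F0_pos (mul_nonneg ht (hq.trans hx.1)) (h0 x hx)).ne'
    refine (((hasDerivAt_id x).const_mul 4).mul
      (((hasDerivAt_F1 t x).div (hasDerivAt_F0 t x) h1).pow 2)).congr_deriv ?_
    have := ode t x
    simp only [id, Pi.div_apply, Pi.pow_apply, Nat.add_one_sub_one, pow_one, Nat.cast_ofNat]
    field_simp
    linear_combination (F1 t x * F0 t x) * this
  · have h1 := h0 x (Ioo_subset_Icc_self hx)
    have h2 := hq.trans_lt hx.1
    exact div_nonneg (mul_nonneg (by linarith [F1_nonpos ht h2.le h1]) (w_nonneg ht h2))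
      (pow_pos (F0_pos (mul_nonneg ht h2.le) h1) 3).le

lemma KK_sub (ht : 0 ≤ t) (hq : 0 ≤ q) (hqq : q ≤ q') (h : t * q' < j2) :
    (t + k2 t q) * (q' - q) ≤ KK t q' - KK t q := by
  have h0 : ∀ x ∈ Icc q q', t * x < j2 := fun x hx => (mul_le_mul_of_nonneg_left hx.2 ht).trans_lt h
  have := mono_of (f := fun x => KK t x - (t + k2 t q) * x) (f' := fun x => k2 t x - k2 t q) hqq
    (fun x hx => by
      have h1 := (F0_pos (mul_nonneg ht (hq.trans hx.1)) (h0 x hx)).ne'
      refine (((((hasDerivAt_id x).const_mul (-4)).mul (hasDerivAt_F1 t x)).div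
        (hasDerivAt_F0 t x) h1).sub ((hasDerivAt_id x).const_mul (t + k2 t q))).congr_deriv ?_
      have := ode t x
      simp only [id, Pi.mul_apply]
      generalize k2 t q = y
      unfold k2
      field_simp
      linear_combination (-F0 t x) * this)
    fun x hx => sub_nonneg.2 (k2_mono ht hq hx.1.le (h0 x (Ioo_subset_Icc_self hx)))
  linarith

/-- one sign of the test function -/
lemma half {δ : ℝ} (hδ : 0 < δ) : ∃ d > 0, ∀ (Ω : Set ℂ) (u : ℂ → ℝ),
    volume Ω ≤ ENNReal.ofReal π → ContDiff ℝ 1 u → HasCompactSupport u → tsupport u ⊆ Ω →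
    (∀ x : ℂ, δ ≤ volume.real (ball x 1 \ Ω)) →
    (j2 + d) * ∫ z in u ⁻¹' Ioi 0, u z ^ 2 ≤ ∫ z in u ⁻¹' Ioi 0, ‖fderiv ℝ u z‖ ^ 2 := by
  have hp := pi_gt_three
  have hp4 := pi_le_four
  have hj := j2_gt
  obtain ⟨D, D0, D1, hD⟩ := ahlfors_def hδ
  obtain ⟨e, he⟩ : ∃ e, e = 1 + D / 8 := ⟨_, rfl⟩
  obtain ⟨m1, hm1⟩ : ∃ m1, m1 = π - D / 2 := ⟨_, rfl⟩
  have e1 : 1 < e := by linarith
  have m0 : 0 < m1 := by linarith
  set s : ℝ → ℝ := fun m => if m < m1 then m / π else (m1 + (m - m1) / e) / π with hs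
  have s1 : s π < 1 := by
    simp only [hs, if_neg (show ¬π < m1 by linarith)]
    rw [div_lt_one (by linarith), ← lt_sub_iff_add_lt']
    exact div_lt_self (by linarith) e1
  have s2 : ∀ m, m1 ≤ m → s m = m1 / π + (m - m1) / (e * π) := fun m h => by
    simp only [hs, if_neg (not_lt.2 h)]; field_simp
  have s3 : ∀ m, m < m1 → s m = m / π := fun m h => if_pos h
  have s4 : ∀ m, m1 ≤ m → m1 / π ≤ s m := fun m h => by
    rw [s2 m h]; exact le_add_of_nonneg_right (div_nonneg (by linarith) (by positivity))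
  have s5 : ∀ m m', m ≤ m' → s m ≤ s m' := fun m m' h => by
    rcases lt_or_ge m' m1 with h1 | h1
    · rw [s3 m' h1, s3 m (h.trans_lt h1)]; gcongr
    rcases lt_or_ge m m1 with h2 | h2
    · rw [s3 m h2]; exact le_trans (by gcongr) (s4 m' h1)
    · rw [s2 m h2, s2 m' h1]; gcongr
  have s6 : ∀ m, 0 ≤ m → 0 ≤ s m := fun m h => le_trans (by rw [s3 0 m0]; simp) (s5 0 m h)
  have s7 : ∀ m, s m ≤ m / π := fun m => by
    rcases lt_or_ge m m1 with h1 | h1
    · rw [s3 m h1]
    · simp only [hs, if_neg (not_lt.2 h1)]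
      have := div_le_self (sub_nonneg.2 h1) e1.le
      gcongr; linarith
  refine ⟨j2 * (1 - s π) / 2, by nlinarith, fun Ω u hv hu hc hsub hx => ?_⟩
  set τ := j2 + j2 * (1 - s π) / 2 with hτ
  have τ0 : 0 ≤ τ := by nlinarith
  have τ1 : ∀ m, m ≤ π → τ * s m < j2 := fun m h =>
    (mul_le_mul_of_nonneg_left (s5 m π h) τ0).trans_lt (by
      nlinarith [mul_pos (show 0 < j2 by linarith) (sub_pos.2 s1), s6 π (by linarith),
        mul_pos (mul_pos (show 0 < j2 by linarith) (sub_pos.2 s1)) (sub_pos.2 s1)])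
  have τ2 : τ * (m1 / π) < j2 := (mul_le_mul_of_nonneg_left (s4 π (by linarith)) τ0).trans_lt
    (τ1 π le_rfl)
  have hΩ : volume Ω ≠ ⊤ := ne_top_of_le_ne_top ENNReal.ofReal_ne_top hv
  have sub : ∀ b, 0 ≤ b → u ⁻¹' Ioi b ⊆ Ω := fun b hb z hz =>
    hsub (subset_tsupport u (hb.trans_lt hz).ne')
  have vol : ∀ b, 0 ≤ b → volume.real (u ⁻¹' Ioi b) ≤ π := fun b hb =>
    ENNReal.toReal_le_of_le_ofReal pi_pos.le ((measure_mono (sub b hb)).trans hv)
  have q1 : 0 ≤ m1 / π := by positivity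
  refine ps hu hc (I := fun m => (if m < m1 then 1 else e) * (2 * √(π * m)))
    (K := fun m => if m < m1 then π * KK τ (s m) else
      π * KK τ (m1 / π) + e * π * (KK τ (s m) - KK τ (m1 / π)))
    (k := fun m => kk τ (s m)) (B := k2 τ (s π)) (vol 0 le_rfl) τ0 (fun a b ha hab => ?_)
    (fun m h0 h1 => ?_) (fun m m' h0 h1 h2 => ?_) (fun m h0 h1 => ?_) ?_
  · have hb : 0 ≤ b := by linarith
    have hf := measure_ne_top_of_subset (sub b hb) hΩ
    split_ifs with h
    · exact layer' hu hc ha hab zero_le_one (ahlfors hf) (by rw [one_mul])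
    · refine layer' hu hc ha hab (by linarith)
        (hD _ (hu.continuous.measurable measurableSet_Ioi) hf fun x => (hx x).trans
          (measureReal_mono (sdiff_subset_sdiff_right (sub b hb))
            (measure_ne_top_of_subset sdiff_subset measure_ball_lt_top.ne))) ?_
      have h1 := vol b hb
      have h2 := not_lt.1 h
      refine le_trans ?_ (le_sqrt_of_sq_le (x := volume.real (u ⁻¹' Ioi b)) (by nlinarith))
      rw [he]
      nlinarith
  · have a1 := kk_nonneg τ0 (s6 m h0) (τ1 m h1)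
    have a2 : π * KK τ (s m) ≤ 2 * √(π * m) * kk τ (s m) := by
      rw [KK_eq (s6 m h0), ← mul_assoc]
      refine mul_le_mul_of_nonneg_right ?_ a1
      have : π * √(s m) ≤ √(π * m) := by
        refine le_sqrt_of_sq_le ?_
        rw [mul_pow, sq_sqrt (s6 m h0)]
        have := s7 m
        rw [le_div_iff₀ pi_pos] at this
        nlinarith
      linarith
    split_ifs with h
    · rwa [one_mul]
    · have a3 : 0 ≤ KK τ (m1 / π) := by
        rw [KK_eq q1]; exact mul_nonneg (by positivity) (kk_nonneg τ0 q1 τ2)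
      nlinarith [mul_le_mul_of_nonneg_left a2 (show 0 ≤ e by linarith),
        mul_nonneg (mul_nonneg (sub_pos.2 e1).le pi_pos.le) a3]
  · rw [kk_sq (s6 m h0)]
    have hπ := pi_pos
    rcases lt_or_ge m' m1 with a1 | a1
    · have a2 := mul_le_mul_of_nonneg_left (KK_sub τ0 (s6 m h0) (s5 m m' h1) (τ1 m' h2)) hπ.le
      rw [if_pos a1, if_pos (h1.trans_lt a1)]
      have e2 : m' - m = π * (s m' - s m) := by
        rw [s3 m' a1, s3 m (h1.trans_lt a1)]; field_simp
      rw [e2]; linarith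
    rcases lt_or_ge m m1 with a2 | a2
    · have a3 : s m ≤ m1 / π := by rw [s3 m a2]; gcongr
      have a4 := mul_le_mul_of_nonneg_left (KK_sub τ0 (s6 m h0) a3 τ2) hπ.le
      have a5 := mul_le_mul_of_nonneg_left (KK_sub τ0 q1 (s4 m' a1) (τ1 m' h2))
        (show 0 ≤ e * π by positivity)
      have a6 := mul_le_mul_of_nonneg_right (k2_mono τ0 (s6 m h0) a3 τ2) (sub_nonneg.2 a1)
      have e2 : m1 - m = π * (m1 / π - s m) := by rw [s3 m a2]; field_simp
      have e3 : m' - m1 = e * π * (s m' - m1 / π) := by rw [s2 m' a1]; field_simp; ring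
      rw [if_neg (not_lt.2 a1), if_pos a2, show m' - m = (m' - m1) + (m1 - m) by ring, mul_add, e2]
      rw [e3] at a6 ⊢
      linarith
    · have a5 := mul_le_mul_of_nonneg_left (KK_sub τ0 (s6 m h0) (s5 m m' h1) (τ1 m' h2))
        (show 0 ≤ e * π by positivity)
      have e3 : m' - m = e * π * (s m' - s m) := by rw [s2 m' a1, s2 m a2]; field_simp; ring
      rw [if_neg (not_lt.2 a1), if_neg (not_lt.2 a2), e3]
      linarith
  · exact ⟨kk_nonneg τ0 (s6 m h0) (τ1 m h1),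
      (kk_sq (s6 m h0)).trans_le (k2_mono τ0 (s6 m h0) (s5 m π h1) (τ1 π le_rfl))⟩
  · simp only [if_pos m0, s3 0 m0]; simp [KK]

end FK

/-- paper 6: Faber-Krahn with (non explicit) stability -/
theorem fk_stab {δ : ℝ} (hδ : 0 < δ) : ∃ d > 0, ∀ (Ω : Set ℂ) (u : ℂ → ℝ),
    MeasurableSet Ω → volume Ω ≤ ENNReal.ofReal π → ContDiff ℝ 1 u → HasCompactSupport u →
    tsupport u ⊆ Ω → en u < (j2 + d) * ma u →
    ∃ x : ℂ, volume (Metric.ball x 1 \ Ω) ≤ ENNReal.ofReal δ := by
  obtain ⟨d, d0, hd⟩ := FK.half hδ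
  refine ⟨d, d0, fun Ω u _ hv hu hc hs hlt => ?_⟩
  by_contra hn
  push Not at hn
  have hx : ∀ x : ℂ, δ ≤ volume.real (Metric.ball x 1 \ Ω) := fun x =>
    (ENNReal.ofReal_le_iff_le_toReal
      (measure_ne_top_of_subset sdiff_subset measure_ball_lt_top.ne)).1 (hn x).le
  have h1 := hd Ω u hv hu hc hs hx
  have h2 := hd Ω (fun z => -u z) hv hu.neg hc.neg (by rwa [show tsupport (fun z => -u z) =
    tsupport u from tsupport_neg u]) hx
  have e : (fun z => -u z) ⁻¹' Ioi 0 = u ⁻¹' Iio 0 := by ext z; simp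
  simp only [e, fderiv_fun_neg, norm_neg, neg_sq] at h2
  have m1 : MeasurableSet (u ⁻¹' Ioi 0) := hu.continuous.measurable measurableSet_Ioi
  have m2 : MeasurableSet (u ⁻¹' Iio 0) := hu.continuous.measurable measurableSet_Iio
  have hd' : Disjoint (u ⁻¹' Ioi 0) (u ⁻¹' Iio 0) := (Iio_disjoint_Ici le_rfl).symm.mono_left
    Ioi_subset_Ici_self |>.preimage u
  have h3 := setIntegral_le_integral (s := u ⁻¹' Ioi 0 ∪ u ⁻¹' Iio 0) (FK.int_D2 hu hc)
    (ae_of_all _ fun z => sq_nonneg _)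
  have h4 : ∫ z in u ⁻¹' Ioi 0 ∪ u ⁻¹' Iio 0, u z ^ 2 = ∫ z, u z ^ 2 :=
    setIntegral_eq_integral_of_forall_compl_eq_zero fun z hz => by
      simp only [mem_union, mem_preimage, mem_Ioi, mem_Iio, not_or, not_lt] at hz
      rw [le_antisymm hz.1 hz.2]; simp
  rw [setIntegral_union hd' m2 (FK.int_D2 hu hc).integrableOn (FK.int_D2 hu hc).integrableOn] at h3
  rw [setIntegral_union hd' m2 (FK.int_u2 hu hc).integrableOn (FK.int_u2 hu hc).integrableOn] at h4
  unfold en ma at hlt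
  rw [← h4] at hlt
  linarith

end Pool.Agent.PSz
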