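import Pool.Agent.P.MP_7b7370_an.FOm

set_option autoImplicit false

namespace Pool.Agent.PSF

open Real Set MeasureTheory

theorem flam_compact (S : ℝ) : IsCompact (Icc (0 : ℝ) S ×ˢ Icc (0 : ℝ) π) :=
  isCompact_Icc.prod isCompact_Icc

theorem flam_mem {S : ℝ} {p : ℝ × ℝ} (hp : p ∈ Pi0) (hS : p.1 ≤ S) :
    p ∈ Icc (0 : ℝ) S ×ˢ Icc (0 : ℝ) π :=
  ⟨⟨le_of_lt hp.1, hS⟩, hp.2.1.le, hp.2.2.le⟩

theorem flam_int {g : ℝ × ℝ → ℝ} (hg : Continuous g) {S : ℝ}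
    (h0 : ∀ p : ℝ × ℝ, S < p.1 → g p = 0) : IntegrableOn g Pi0 := by
  have h1 : IntegrableOn g (Icc (0 : ℝ) S ×ˢ Icc (0 : ℝ) π) :=
    hg.continuousOn.integrableOn_compact (flam_compact S)
  refine h1.of_forall_sdiff_eq_zero measurableSet_Pi0 fun p hp => h0 p ?_
  by_contra hn
  exact hp.2 (flam_mem hp.1 (not_lt.1 hn))

theorem flam_fderiv {V : ℝ × ℝ → ℝ} {S κ : ℝ} (h : ∀ p : ℝ × ℝ, S ≤ p.1 → V p = κ)
    {p : ℝ × ℝ} (hp : S < p.1) : fderiv ℝ V p = 0 := by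
  have h1 : V =ᶠ[nhds p] fun _ => κ := by
    have h2 : {q : ℝ × ℝ | S < q.1} ∈ nhds p :=
      (isOpen_lt continuous_const continuous_fst).mem_nhds hp
    filter_upwards [h2] with q hq using h q hq.le
  rw [h1.fderiv_eq]
  simp

theorem flam_cont {V : ℝ × ℝ → ℝ} (hV : Adm V) (e : ℝ × ℝ) :
    Continuous fun p => fderiv ℝ V p e :=
  (hV.c1.continuous_fderiv one_ne_zero).clm_apply continuous_const

theorem Adm.bdd {V : ℝ × ℝ → ℝ} (hV : Adm V) : ∃ M : ℝ, ∀ p ∈ Pi0, |V p| ≤ M := by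
  obtain ⟨S, κ, h⟩ := hV.const
  obtain ⟨M, hM⟩ := (flam_compact S).exists_bound_of_continuousOn hV.c1.continuous.continuousOn
  refine ⟨max M |κ|, fun p hp => ?_⟩
  rcases le_total p.1 S with h1 | h1
  · exact (hM p (flam_mem hp h1)).trans (le_max_left _ _)
  · rw [h p h1]
    exact le_max_right _ _

theorem Adm.int_dx {V : ℝ × ℝ → ℝ} (hV : Adm V) : IntegrableOn (fun p => dx V p ^ 2) Pi0 := by
  obtain ⟨S, κ, h⟩ := hV.const
  refine flam_int ((flam_cont hV (1, 0)).pow 2) (S := S) fun p hp => ?_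
  simp [dx, flam_fderiv h hp]

theorem Adm.int_dy {V : ℝ × ℝ → ℝ} (hV : Adm V) : IntegrableOn (fun p => dy V p ^ 2) Pi0 := by
  obtain ⟨S, κ, h⟩ := hV.const
  refine flam_int ((flam_cont hV (0, 1)).pow 2) (S := S) fun p hp => ?_
  simp [dy, flam_fderiv h hp]

theorem Adm.int_B {V : ℝ × ℝ → ℝ} (hV : Adm V) {n : ℝ} (hn : 2 < n) :
    IntegrableOn (fun p => om n p * V p ^ 2) Pi0 := by
  obtain ⟨M, hM⟩ := hV.bdd
  refine Integrable.mul_bdd (c := M ^ 2) (integrableOn_om hn)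
    (hV.c1.continuous.pow 2).aestronglyMeasurable ?_
  filter_upwards [ae_restrict_mem measurableSet_Pi0] with p hp
  rw [Real.norm_eq_abs, abs_pow]
  exact pow_le_pow_left₀ (abs_nonneg _) (hM p hp) 2

theorem Dn_nonneg (n : ℝ) (V : ℝ × ℝ → ℝ) : 0 ≤ Dn n V :=
  integral_nonneg fun p => by positivity

theorem Bn_nonneg {n : ℝ} (hn : 0 < n) (V : ℝ × ℝ → ℝ) : 0 ≤ Bn n V :=
  setIntegral_nonneg measurableSet_Pi0 fun _ hp =>
    mul_nonneg (om_pos hn hp.1).le (sq_nonneg _)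

theorem exists_adm {n : ℝ} (hn : 2 < n) : ∃ V, Adm V ∧ 0 < Bn n V := by
  have hn0 : 0 < n := by linarith
  have hA : Adm fun p : ℝ × ℝ => smoothTransition (p.1 - 1) := by
    refine ⟨?_, ⟨1, one_pos, fun p hp => ?_⟩, ⟨2, 1, fun p hp => ?_⟩⟩
    · exact (smoothTransition.contDiff (n := 1)).comp (contDiff_fst.sub contDiff_const)
    · exact smoothTransition.zero_of_nonpos (by linarith)
    · exact smoothTransition.one_of_one_le (by linarith)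
  refine ⟨_, hA, ?_⟩
  have hnn : 0 ≤ᵐ[volume.restrict Pi0]
      fun p : ℝ × ℝ => om n p * smoothTransition (p.1 - 1) ^ 2 := by
    filter_upwards [ae_restrict_mem measurableSet_Pi0] with p hp
    exact mul_nonneg (om_pos hn0 hp.1).le (sq_nonneg _)
  refine (setIntegral_pos_iff_support_of_nonneg_ae hnn (hA.int_B hn)).2 ?_
  have hO : IsOpen (Ioi (2 : ℝ) ×ˢ Ioo (0 : ℝ) π) := isOpen_Ioi.prod isOpen_Ioo
  have hne : (Ioi (2 : ℝ) ×ˢ Ioo (0 : ℝ) π).Nonempty :=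
    nonempty_Ioi.prod (nonempty_Ioo.2 pi_pos)
  refine (hO.measure_pos volume hne).trans_le (measure_mono fun p hp => ?_)
  have h2 : (2 : ℝ) < p.1 := hp.1
  have h0 : 0 < p.1 := by linarith
  refine ⟨?_, h0, hp.2⟩
  rw [Function.mem_support, smoothTransition.one_of_one_le (by linarith), one_pow, mul_one]
  exact (om_pos hn0 h0).ne'

theorem flam_lb (n : ℝ) :
    ∀ q ∈ {q | ∃ V, Adm V ∧ 0 < Bn n V ∧ q = Dn n V / Bn n V}, (0 : ℝ) ≤ q := by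
  rintro q ⟨V, -, hB, rfl⟩
  exact div_nonneg (Dn_nonneg n V) hB.le

theorem flam_ne {n : ℝ} (hn : 2 < n) :
    {q | ∃ V, Adm V ∧ 0 < Bn n V ∧ q = Dn n V / Bn n V}.Nonempty := by
  obtain ⟨V, hV, hB⟩ := exists_adm hn
  exact ⟨_, V, hV, hB, rfl⟩

theorem lam_nonneg {n : ℝ} (hn : 0 < n) : 0 ≤ lam n :=
  Real.sInf_nonneg (flam_lb n)

theorem lam_le {n : ℝ} (hn : 0 < n) {V : ℝ × ℝ → ℝ} (hV : Adm V) : lam n * Bn n V ≤ Dn n V := by
  rcases (Bn_nonneg hn V).eq_or_lt with h | h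
  · rw [← h, mul_zero]
    exact Dn_nonneg n V
  · exact (le_div_iff₀ h).1 (csInf_le ⟨0, flam_lb n⟩ ⟨V, hV, h, rfl⟩)

theorem le_lam {n μ : ℝ} (hn : 2 < n) (h : ∀ V, Adm V → μ * Bn n V ≤ Dn n V) : μ ≤ lam n := by
  refine le_csInf (flam_ne hn) ?_
  rintro q ⟨V, hV, hB, rfl⟩
  exact (le_div_iff₀ hB).2 (h V hV)

theorem exists_lt_of_lam_lt {n τ : ℝ} (hn : 2 < n) (h : lam n < τ) :
    ∃ V, Adm V ∧ Dn n V < τ * Bn n V := by
  obtain ⟨q, ⟨V, hV, hB, rfl⟩, hq⟩ := exists_lt_of_csInf_lt (flam_ne hn) h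
  exact ⟨V, hV, (div_lt_iff₀ hB).1 hq⟩

end Pool.Agent.PSF
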