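import Pool.Agent.P.MP_7b7370_an.TR4b

set_option autoImplicit false

namespace Pool.Agent.PSF

open Real Set MeasureTheory Pool.Agent.PSz

/-- the same bound on the reference triangle -/
def RefLB (s μ : ℝ) : Prop := ∀ G : ℂ → ℝ, Tt 1 G →
  μ * ∫ z in Tr 1 1, G z ^ 2 ≤
    (∫ z in Tr 1 1, fderiv ℝ G z 1 ^ 2) + s * ∫ z in Tr 1 1, fderiv ℝ G z Complex.I ^ 2

/-- the diagonal map -/
noncomputable def tr10a_dg (a b : ℝ) : ℂ →L[ℝ] ℂ :=
  (a • Complex.reCLM).smulRight 1 + (b • Complex.imCLM).smulRight Complex.I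

lemma tr10a_re (a b : ℝ) (z : ℂ) : (tr10a_dg a b z).re = a * z.re := by simp [tr10a_dg]

lemma tr10a_im (a b : ℝ) (z : ℂ) : (tr10a_dg a b z).im = b * z.im := by simp [tr10a_dg]

lemma tr10a_det (a b : ℝ) : (tr10a_dg a b).det = a * b := by
  rw [ContinuousLinearMap.det, ← LinearMap.det_toMatrix Complex.basisOneI, Matrix.det_fin_two]
  simp [LinearMap.toMatrix_apply, tr10a_re, tr10a_im]

lemma tr10a_int {a b : ℝ} (ha : 0 < a) (hb : 0 < b) (X t : ℝ) (H : ℂ → ℝ) :
    ∫ z in Tr (a * X) (b * t / a), H z = a * b * ∫ z in Tr X t, H (tr10a_dg a b z) := by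
  have hi : Function.Injective (tr10a_dg a b) := by
    intro z w h
    have h1 := congrArg Complex.re h
    have h2 := congrArg Complex.im h
    rw [tr10a_re, tr10a_re] at h1
    rw [tr10a_im, tr10a_im] at h2
    exact Complex.ext (mul_left_cancel₀ ha.ne' h1) (mul_left_cancel₀ hb.ne' h2)
  have hm : ∀ z, tr10a_dg a b z ∈ Tr (a * X) (b * t / a) ↔ z ∈ Tr X t := by
    intro z
    simp only [Tr, mem_ofPred_eq, tr10a_re, tr10a_im]
    have e : -(b * t / a * (a * z.re)) = b * -(t * z.re) := by field_simp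
    rw [e, mul_lt_mul_iff_right₀ ha, mul_lt_mul_iff_right₀ hb]
    refine and_congr_right fun _ => and_congr_left fun _ => ?_
    exact ⟨fun h => by by_contra h'; nlinarith, fun h => mul_neg_of_pos_of_neg hb h⟩
  have hs : tr10a_dg a b '' Tr X t = Tr (a * X) (b * t / a) := by
    ext w
    constructor
    · rintro ⟨z, hz, rfl⟩
      exact (hm z).2 hz
    · intro hw
      have e : tr10a_dg a b ⟨w.re / a, w.im / b⟩ = w := by
        apply Complex.ext
        · rw [tr10a_re]; field_simp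
        · rw [tr10a_im]; field_simp
      exact ⟨_, (hm _).1 (e.symm ▸ hw), e⟩
  have h := integral_image_eq_integral_abs_det_fderiv_smul volume (isOpen_Tr X t).measurableSet
    (fun z _ => (tr10a_dg a b).hasFDerivAt.hasFDerivWithinAt) hi.injOn H
  rw [hs] at h
  rw [h, ← integral_const_mul]
  simp only [tr10a_det, abs_of_pos (mul_pos ha hb), smul_eq_mul]

lemma tr10a_tt {a b X : ℝ} (ha : 0 < a) {F : ℂ → ℝ} (h : Tt (a * X) F) :
    Tt X (F ∘ tr10a_dg a b) := by
  obtain ⟨h1, δ, hδ, h2⟩ := h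
  refine ⟨h1.comp (tr10a_dg a b).contDiff, δ / a, div_pos hδ ha, fun z hz => h2 _ ?_⟩
  rw [tr10a_re]
  have e : a * X - δ = a * (X - δ / a) := by field_simp
  rw [e]
  exact mul_le_mul_of_nonneg_left hz ha.le

lemma tr10a_d {F : ℂ → ℝ} (h : ContDiff ℝ 1 F) (a b : ℝ) (z : ℂ) :
    fderiv ℝ (F ∘ tr10a_dg a b) z 1 = a * fderiv ℝ F (tr10a_dg a b z) 1 ∧
      fderiv ℝ (F ∘ tr10a_dg a b) z Complex.I = b * fderiv ℝ F (tr10a_dg a b z) Complex.I := by
  have h2 := (h.differentiable one_ne_zero (tr10a_dg a b z)).hasFDerivAt.comp z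
    (tr10a_dg a b).hasFDerivAt
  rw [h2.fderiv, ContinuousLinearMap.comp_apply, ContinuousLinearMap.comp_apply,
    clm_apply _ (tr10a_dg a b 1), clm_apply _ (tr10a_dg a b Complex.I)]
  simp [tr10a_re, tr10a_im]

lemma tr10a_split {X t : ℝ} (ht : 0 < t) {F : ℂ → ℝ} (h : ContDiff ℝ 1 F) :
    ∫ z in Tr X t, ‖fderiv ℝ F z‖ ^ 2 =
      (∫ z in Tr X t, fderiv ℝ F z 1 ^ 2) + ∫ z in Tr X t, fderiv ℝ F z Complex.I ^ 2 := by
  have hi : ∀ v : ℂ, IntegrableOn (fun z => fderiv ℝ F z v ^ 2) (Tr X t) := by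
    intro v
    have hc : Continuous fun z => fderiv ℝ F z v ^ 2 :=
      ((h.continuous_fderiv one_ne_zero).clm_apply continuous_const).pow 2
    exact (hc.continuousOn.integrableOn_compact (bdd_Tr ht).isCompact_closure).mono_set
      subset_closure
  rw [← integral_add (hi 1) (hi Complex.I)]
  simp only [norm_clm_sq]

lemma tr10a_gen {a b X t α β μ : ℝ} (ha : 0 < a) (hb : 0 < b)
    (h : ∀ G : ℂ → ℝ, Tt X G → μ * ∫ z in Tr X t, G z ^ 2 ≤
      α * (∫ z in Tr X t, fderiv ℝ G z 1 ^ 2) + β * ∫ z in Tr X t, fderiv ℝ G z Complex.I ^ 2)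
    (F : ℂ → ℝ) (hF : Tt (a * X) F) :
    μ * ∫ z in Tr (a * X) (b * t / a), F z ^ 2 ≤
      α * a ^ 2 * (∫ z in Tr (a * X) (b * t / a), fderiv ℝ F z 1 ^ 2) +
        β * b ^ 2 * ∫ z in Tr (a * X) (b * t / a), fderiv ℝ F z Complex.I ^ 2 := by
  have h1 := h _ (tr10a_tt (b := b) ha hF)
  simp only [(tr10a_d hF.1 a b _).1, (tr10a_d hF.1 a b _).2, mul_pow, integral_const_mul,
    Function.comp_apply] at h1
  rw [tr10a_int ha hb, tr10a_int ha hb, tr10a_int ha hb]
  have h2 := mul_le_mul_of_nonneg_left h1 (mul_pos ha hb).le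
  linarith

theorem phys_iff_ref {t μ : ℝ} (ht : 0 < t) : PhysLB 1 t μ ↔ RefLB (1 / t ^ 2) μ := by
  constructor
  · intro h G hG
    have h1 := tr10a_gen (a := 1) (b := 1 / t) (X := 1) (t := t) (α := 1) (β := 1) (μ := μ)
      one_pos (by positivity) (fun F hF => by
        have := h F hF
        rw [tr10a_split ht hF.1] at this
        linarith) G (by rwa [one_mul])
    have e : 1 / t * t / 1 = 1 := by field_simp
    rw [e, div_pow] at h1
    simpa using h1
  · intro h F hF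
    have h1 := tr10a_gen (a := 1) (b := t) (X := 1) (t := 1) (α := 1) (β := 1 / t ^ 2) (μ := μ)
      one_pos ht (fun G hG => by
        have := h G hG
        linarith) F (by rwa [one_mul])
    have e : 1 / t ^ 2 * t ^ 2 = 1 := by field_simp
    rw [e] at h1
    rw [tr10a_split ht hF.1]
    simpa using h1

theorem PhysLB.scale {X t μ : ℝ} (hX : 0 < X) (h : PhysLB 1 t μ) : PhysLB X t (μ / X ^ 2) := by
  intro F hF
  have h1 := h _ (tr10a_tt (a := X) (b := X) (X := 1) hX (by rwa [mul_one]))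
  have e : ∀ z, ‖fderiv ℝ (F ∘ tr10a_dg X X) z‖ ^ 2 =
      X ^ 2 * ‖fderiv ℝ F (tr10a_dg X X z)‖ ^ 2 := by
    intro z
    rw [norm_clm_sq, norm_clm_sq, (tr10a_d hF.1 X X z).1, (tr10a_d hF.1 X X z).2]
    ring
  simp only [e, integral_const_mul, Function.comp_apply] at h1
  have e1 : Tr X t = Tr (X * 1) (X * t / X) := by
    rw [mul_one, mul_div_cancel_left₀ _ hX.ne']
  rw [e1, tr10a_int hX hX, tr10a_int hX hX]
  have e2 : ∀ y : ℝ, μ / X ^ 2 * (X * X * y) = μ * y := fun y => by field_simp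
  rw [e2]
  linarith

end Pool.Agent.PSF
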