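import Pool.Agent.P.MP_7b7370_an.TR7

set_option autoImplicit false

namespace Pool.Agent.PSF

open Real Set MeasureTheory Pool.Agent.PSz

lemma tr8a_sub {z : ℂ} (hz : z ∈ KN 4 1) :
    |√2 / 2 * (z.re + z.im)| < 1 ∧ |√2 / 2 * (z.im - z.re)| < 1 := by
  have h0 := hz 0
  have h1 := hz 1
  have h2 := hz (-1)
  have h3 := hz (-2)
  have e0 : (2 * ((0 : ℤ) : ℝ) + 1) * (π / (4 : ℕ)) = π / 4 := by push_cast; ring
  have e1 : (2 * ((1 : ℤ) : ℝ) + 1) * (π / (4 : ℕ)) = π - π / 4 := by push_cast; ring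
  have e2 : (2 * ((-1 : ℤ) : ℝ) + 1) * (π / (4 : ℕ)) = -(π / 4) := by push_cast; ring
  have e3 : (2 * ((-2 : ℤ) : ℝ) + 1) * (π / (4 : ℕ)) = -(π - π / 4) := by push_cast; ring
  rw [e0, cos_pi_div_four, sin_pi_div_four] at h0
  rw [e1, cos_pi_sub, sin_pi_sub, cos_pi_div_four, sin_pi_div_four] at h1
  rw [e2, cos_neg, sin_neg, cos_pi_div_four, sin_pi_div_four] at h2
  rw [e3, cos_neg, sin_neg, cos_pi_sub, sin_pi_sub, cos_pi_div_four, sin_pi_div_four] at h3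
  simp only [abs_lt]
  refine ⟨⟨?_, ?_⟩, ?_, ?_⟩ <;> linarith

lemma tr8a_cos {x : ℝ} (h : |x| < π / 2) : cos x ≠ 0 :=
  (cos_pos_of_mem_Ioo (abs_lt.1 h)).ne'

lemma tr8a_der (A : ℂ →L[ℝ] ℝ) {z : ℂ} (h : |A z| < π / 2) :
    HasFDerivAt (fun w => tan (A w)) ((1 + tan (A z) ^ 2) • A) z := by
  have h1 := (hasDerivAt_tan (tr8a_cos h)).comp_hasFDerivAt z A.hasFDerivAt
  rwa [one_div, ← inv_one_add_tan_sq (tr8a_cos h), inv_inv] at h1

lemma tr8a_c1 (A : ℂ →L[ℝ] ℝ) {z : ℂ} (h : |A z| < π / 2) :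
    ContDiffAt ℝ 1 (fun w => tan (A w)) z :=
  (contDiffAt_tan.2 (tr8a_cos h)).comp z A.contDiff.contDiffAt

theorem square_lb {f : ℂ → ℝ} (hf : Tst (KN 4 1) f) : π ^ 2 / 2 * ma f ≤ en f := by
  obtain ⟨c, hc⟩ : ∃ c : ℝ, c = π / 2 * (√2 / 2) := ⟨_, rfl⟩
  have hc2 : c ^ 2 = π ^ 2 / 8 := by
    rw [hc, mul_pow, div_pow, div_pow, sq_sqrt (by norm_num)]
    ring
  obtain ⟨A, hA⟩ : ∃ A : ℂ →L[ℝ] ℝ, ∀ z, A z = c * (z.re + z.im) :=
    ⟨c • (Complex.reCLM + Complex.imCLM), fun z => by simp [mul_add]⟩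
  obtain ⟨B, hB⟩ : ∃ B : ℂ →L[ℝ] ℝ, ∀ z, B z = c * (z.im - z.re) :=
    ⟨c • (Complex.imCLM - Complex.reCLM), fun z => by simp⟩
  have hp : 0 < π / 2 := by positivity
  have hsub : KN 4 1 ⊆ {z | |A z| < π / 2 ∧ |B z| < π / 2} := by
    intro z hz
    obtain ⟨h1, h2⟩ := tr8a_sub hz
    simp only [mem_ofPred_eq, hA, hB, hc, mul_assoc (π / 2), abs_mul (π / 2), abs_of_pos hp]
    exact ⟨mul_lt_of_lt_one_right hp h1, mul_lt_of_lt_one_right hp h2⟩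
  have ho : IsOpen {z | |A z| < π / 2 ∧ |B z| < π / 2} :=
    (isOpen_lt A.continuous.abs continuous_const).inter
      (isOpen_lt B.continuous.abs continuous_const)
  refine barta ho
    ⟨hf.c1, hf.cs, hf.sub.trans hsub⟩ (g1 := fun w => -c * (tan (A w) - tan (B w)))
    (g2 := fun w => -c * (tan (A w) + tan (B w)))
    (fun z hz => (contDiffAt_const.mul ((tr8a_c1 A hz.1).sub (tr8a_c1 B hz.2))).contDiffWithinAt)
    (fun z hz => (contDiffAt_const.mul ((tr8a_c1 A hz.1).add (tr8a_c1 B hz.2))).contDiffWithinAt)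
    fun z hz => le_of_eq ?_
  have d1 : HasFDerivAt (fun w => -c * (tan (A w) - tan (B w))) _ z :=
    ((tr8a_der A hz.1).sub (tr8a_der B hz.2)).const_mul (-c)
  have d2 : HasFDerivAt (fun w => -c * (tan (A w) + tan (B w))) _ z :=
    ((tr8a_der A hz.1).add (tr8a_der B hz.2)).const_mul (-c)
  have a1 : A 1 = c := by simp [hA]
  have a2 : A Complex.I = c := by simp [hA]
  have b1 : B 1 = -c := by simp [hB]
  have b2 : B Complex.I = c := by simp [hB]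
  rw [d1.fderiv, d2.fderiv]
  simp only [smul_apply, sub_apply, add_apply, smul_eq_mul, a1, a2, b1, b2]
  linear_combination (-4) * hc2

end Pool.Agent.PSF
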