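import Pool.Agent.P.MP_7b7370_an.TR7

set_option autoImplicit false

namespace Pool.Agent.PSF

open Real Set MeasureTheory Pool.Agent.PSz

/-- the affine angle `c + a x + b y` -/
noncomputable def tr8b_ang (c a b : ℝ) (z : ℂ) : ℝ := c + (a * z.re + b * z.im)

/-- its cotangent -/
noncomputable def tr8b_cot (c a b : ℝ) (z : ℂ) : ℝ :=
  cos (tr8b_ang c a b z) / sin (tr8b_ang c a b z)

lemma tr8b_ang_der (c a b : ℝ) (z : ℂ) :
    HasFDerivAt (tr8b_ang c a b) (a • Complex.reCLM + b • Complex.imCLM) z := by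
  have h := ((a • Complex.reCLM + b • Complex.imCLM : ℂ →L[ℝ] ℝ).hasFDerivAt (x := z)).const_add c
  refine h.congr_of_eventuallyEq (Filter.Eventually.of_forall fun w => ?_)
  simp [tr8b_ang]

lemma tr8b_ang_cd (c a b : ℝ) : ContDiff ℝ 1 (tr8b_ang c a b) := by
  unfold tr8b_ang
  exact contDiff_const.add ((contDiff_const.mul Complex.reCLM.contDiff).add
    (contDiff_const.mul Complex.imCLM.contDiff))

lemma tr8b_cot_cd (c a b : ℝ) {Ω : Set ℂ} (h : ∀ z ∈ Ω, sin (tr8b_ang c a b z) ≠ 0) :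
    ContDiffOn ℝ 1 (tr8b_cot c a b) Ω := by
  unfold tr8b_cot
  exact ((tr8b_ang_cd c a b).cos.contDiffOn).div ((tr8b_ang_cd c a b).sin.contDiffOn) h

lemma tr8b_cot_der (c a b : ℝ) {z : ℂ} (h : sin (tr8b_ang c a b z) ≠ 0) :
    HasFDerivAt (tr8b_cot c a b)
      ((-(1 + tr8b_cot c a b z ^ 2)) • (a • Complex.reCLM + b • Complex.imCLM)) z := by
  have h1 : HasDerivAt (fun t => cos t / sin t)
      (-(1 + (cos (tr8b_ang c a b z) / sin (tr8b_ang c a b z)) ^ 2)) (tr8b_ang c a b z) := by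
    have h2 := (hasDerivAt_cos (tr8b_ang c a b z)).div (hasDerivAt_sin (tr8b_ang c a b z)) h
    refine h2.congr_deriv ?_
    field_simp
    ring
  exact h1.comp_hasFDerivAt z (tr8b_ang_der c a b z)

lemma tr8b_cot_sum {A B C : ℝ} (hA : sin A ≠ 0) (hB : sin B ≠ 0) (hC : sin C ≠ 0)
    (h : A + B + C = π) :
    cos A / sin A * (cos B / sin B) + cos A / sin A * (cos C / sin C)
      + cos B / sin B * (cos C / sin C) = 1 := by
  have e : C = π - (A + B) := by linarith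
  have hs : sin C = sin A * cos B + cos A * sin B := by rw [e, sin_pi_sub, sin_add]
  have hc : cos C = -(cos A * cos B - sin A * sin B) := by rw [e, cos_pi_sub, cos_add]
  field_simp
  rw [hc, hs]
  ring

theorem equi_lb {f : ℂ → ℝ} (hf : Tst (KN 3 1) f) : 4 * π ^ 2 / 9 * ma f ≤ en f := by
  set κ : ℝ := π / 3 with hκ
  have hκ0 : 0 < κ := by positivity
  set s : ℝ := √3 with hs
  have hs2 : s ^ 2 = 3 := Real.sq_sqrt (by norm_num)
  let A := tr8b_ang κ (-(κ / 2)) (-(κ * s / 2))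
  let B := tr8b_ang κ κ 0
  let C := tr8b_ang κ (-(κ / 2)) (κ * s / 2)
  let a := tr8b_cot κ (-(κ / 2)) (-(κ * s / 2))
  let b := tr8b_cot κ κ 0
  let c := tr8b_cot κ (-(κ / 2)) (κ * s / 2)
  let Ω : Set ℂ := {z | 0 < A z} ∩ ({z | 0 < B z} ∩ {z | 0 < C z})
  have hΩ : IsOpen Ω :=
    (isOpen_lt continuous_const (tr8b_ang_cd _ _ _).continuous).inter
      ((isOpen_lt continuous_const (tr8b_ang_cd _ _ _).continuous).inter
        (isOpen_lt continuous_const (tr8b_ang_cd _ _ _).continuous))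
  have hsum : ∀ z, A z + B z + C z = π := by
    intro z
    simp only [A, B, C, tr8b_ang]
    have : π = 3 * κ := by rw [hκ]; ring
    rw [this]; ring
  have hsub : KN 3 1 ⊆ Ω := by
    intro z hz
    have h0 := hz 0
    have h1 := hz 1
    have h2 := hz (-1)
    have e0 : (2 * ((0 : ℤ) : ℝ) + 1) * (π / ((3 : ℕ) : ℝ)) = π / 3 := by push_cast; ring
    have e1 : (2 * ((1 : ℤ) : ℝ) + 1) * (π / ((3 : ℕ) : ℝ)) = π := by push_cast; ring
    have e2 : (2 * ((-1 : ℤ) : ℝ) + 1) * (π / ((3 : ℕ) : ℝ)) = -(π / 3) := by push_cast; ring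
    rw [e0, cos_pi_div_three, sin_pi_div_three, ← hs] at h0
    rw [e1, cos_pi, sin_pi] at h1
    rw [e2, cos_neg, sin_neg, cos_pi_div_three, sin_pi_div_three, ← hs] at h2
    refine ⟨?_, ?_, ?_⟩
    · show 0 < κ + (-(κ / 2) * z.re + -(κ * s / 2) * z.im)
      have : 0 < κ * (1 - (z.re * (1 / 2) + z.im * (s / 2))) := mul_pos hκ0 (by linarith)
      linarith
    · show 0 < κ + (κ * z.re + 0 * z.im)
      have : 0 < κ * (1 - (z.re * (-1) + z.im * 0)) := mul_pos hκ0 (by linarith)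
      linarith
    · show 0 < κ + (-(κ / 2) * z.re + κ * s / 2 * z.im)
      have : 0 < κ * (1 - (z.re * (1 / 2) + z.im * (-(s / 2)))) := mul_pos hκ0 (by linarith)
      linarith
  have hA : ∀ z ∈ Ω, sin (A z) ≠ 0 := fun z hz =>
    (sin_pos_of_pos_of_lt_pi hz.1 (by
      have h1 : 0 < B z := hz.2.1
      have h2 : 0 < C z := hz.2.2
      linarith [hsum z])).ne'
  have hB : ∀ z ∈ Ω, sin (B z) ≠ 0 := fun z hz =>
    (sin_pos_of_pos_of_lt_pi hz.2.1 (by
      have h1 : 0 < A z := hz.1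
      have h2 : 0 < C z := hz.2.2
      linarith [hsum z])).ne'
  have hC : ∀ z ∈ Ω, sin (C z) ≠ 0 := fun z hz =>
    (sin_pos_of_pos_of_lt_pi hz.2.2 (by
      have h1 : 0 < A z := hz.1
      have h2 : 0 < B z := hz.2.1
      linarith [hsum z])).ne'
  have ca : ContDiffOn ℝ 1 a Ω := tr8b_cot_cd _ _ _ hA
  have cb : ContDiffOn ℝ 1 b Ω := tr8b_cot_cd _ _ _ hB
  have cc : ContDiffOn ℝ 1 c Ω := tr8b_cot_cd _ _ _ hC
  refine barta (g1 := fun z => -(κ / 2) * a z + κ * b z + -(κ / 2) * c z)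
    (g2 := fun z => -(κ * s / 2) * a z + κ * s / 2 * c z) hΩ
    ⟨hf.c1, hf.cs, hf.sub.trans hsub⟩ ?_ ?_ ?_
  · exact ((contDiffOn_const.mul ca).add (contDiffOn_const.mul cb)).add (contDiffOn_const.mul cc)
  · exact (contDiffOn_const.mul ca).add (contDiffOn_const.mul cc)
  · intro z hz
    have da := tr8b_cot_der κ (-(κ / 2)) (-(κ * s / 2)) (hA z hz)
    have db := tr8b_cot_der κ κ 0 (hB z hz)
    have dc := tr8b_cot_der κ (-(κ / 2)) (κ * s / 2) (hC z hz)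
    have d1 := (((da.const_mul (-(κ / 2))).add (db.const_mul κ)).add
      (dc.const_mul (-(κ / 2)))).fderiv
    have d2 := ((da.const_mul (-(κ * s / 2))).add (dc.const_mul (κ * s / 2))).fderiv
    have e1 : fderiv ℝ (fun z => -(κ / 2) * a z + κ * b z + -(κ / 2) * c z) z 1 =
        -(κ ^ 2 / 4) * (1 + a z ^ 2) - κ ^ 2 * (1 + b z ^ 2) - κ ^ 2 / 4 * (1 + c z ^ 2) := by
      refine (congrArg (fun L : ℂ →L[ℝ] ℝ => L 1) d1).trans ?_
      simp [a, b, c]
      ring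
    have e2 : fderiv ℝ (fun z => -(κ * s / 2) * a z + κ * s / 2 * c z) z Complex.I =
        -(κ ^ 2 * s ^ 2 / 4) * (1 + a z ^ 2) - κ ^ 2 * s ^ 2 / 4 * (1 + c z ^ 2) := by
      refine (congrArg (fun L : ℂ →L[ℝ] ℝ => L Complex.I) d2).trans ?_
      simp [a, c]
      ring
    have hcs : a z * b z + a z * c z + b z * c z = 1 :=
      tr8b_cot_sum (hA z hz) (hB z hz) (hC z hz) (hsum z)
    rw [e1, e2]
    have hπ : π = 3 * κ := by rw [hκ]; ring
    have e3 : (-(κ * s / 2) * a z + κ * s / 2 * c z) ^ 2 = κ ^ 2 * s ^ 2 / 4 * (c z - a z) ^ 2 := by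
      ring
    rw [e3, hs2, hπ]
    have : 4 * (3 * κ) ^ 2 / 9 +
        (-(κ ^ 2 / 4) * (1 + a z ^ 2) - κ ^ 2 * (1 + b z ^ 2) - κ ^ 2 / 4 * (1 + c z ^ 2) +
          (-(κ ^ 2 * 3 / 4) * (1 + a z ^ 2) - κ ^ 2 * 3 / 4 * (1 + c z ^ 2))) +
        ((-(κ / 2) * a z + κ * b z + -(κ / 2) * c z) ^ 2 + κ ^ 2 * 3 / 4 * (c z - a z) ^ 2) =
        κ ^ 2 * (1 - (a z * b z + a z * c z + b z * c z)) := by ring
    rw [this, hcs]
    simp

end Pool.Agent.PSF
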