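import Pool.Agent.P.MP_7b7370_an.TR4b

set_option autoImplicit false

namespace Pool.Agent.PSF

open Real Set MeasureTheory Pool.Agent.PSz

lemma tr9_cos_pos {x : ℝ} (h0 : 0 ≤ x) (h1 : x < 1) : 0 < cos (π / 2 * x) := by
  apply cos_pos_of_mem_Ioo
  have := pi_pos
  constructor <;> nlinarith

lemma tr9_tan_nonneg {x : ℝ} (h0 : 0 ≤ x) (h1 : x < 1) : 0 ≤ tan (π / 2 * x) := by
  have := pi_pos
  apply tan_nonneg_of_nonneg_of_le_pi_div_two <;> nlinarith

lemma tr9_hasDerivAt_tan {x : ℝ} (h0 : 0 ≤ x) (h1 : x < 1) :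
    HasDerivAt (fun x => tan (π / 2 * x)) (π / 2 * (1 + tan (π / 2 * x) ^ 2)) x := by
  have hc := (tr9_cos_pos h0 h1).ne'
  have h1 : HasDerivAt (fun x : ℝ => π / 2 * x) (π / 2) x := by
    simpa using (hasDerivAt_id x).const_mul (π / 2)
  have h2 := (hasDerivAt_tan hc).comp x h1
  have h3 : 1 / cos (π / 2 * x) ^ 2 = 1 + tan (π / 2 * x) ^ 2 := by
    rw [← inv_one_add_tan_sq hc]; simp
  rw [h3, mul_comm (1 + tan (π / 2 * x) ^ 2)] at h2
  exact h2

lemma tr9_core {f f' : ℝ → ℝ} (hf : ∀ x, HasDerivAt f (f' x) x) (hc : Continuous f')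
    {a b : ℝ} (ha : 0 ≤ a) (hab : a ≤ b) (hb : b < 1) (h0 : f b = 0) :
    π ^ 2 / 4 * ∫ x in a..b, f x ^ 2 ≤ ∫ x in a..b, f' x ^ 2 := by
  have hfc : Continuous f := continuous_iff_continuousAt.2 fun x => (hf x).continuousAt
  have hT : ∀ x ∈ uIcc a b,
      HasDerivAt (fun x => tan (π / 2 * x)) (π / 2 * (1 + tan (π / 2 * x) ^ 2)) x := by
    intro x hx
    rw [uIcc_of_le hab] at hx
    exact tr9_hasDerivAt_tan (ha.trans hx.1) (hx.2.trans_lt hb)
  have hTc : ContinuousOn (fun x => tan (π / 2 * x)) (uIcc a b) :=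
    fun x hx => (hT x hx).continuousAt.continuousWithinAt
  set G' : ℝ → ℝ := fun x => 2 * f x * f' x * (π / 2 * tan (π / 2 * x))
    + f x ^ 2 * (π / 2 * (π / 2 * (1 + tan (π / 2 * x) ^ 2))) with hG'
  have hG : ∀ x ∈ uIcc a b,
      HasDerivAt (fun x => f x ^ 2 * (π / 2 * tan (π / 2 * x))) (G' x) x := by
    intro x hx
    have h1 : HasDerivAt (fun x => f x ^ 2) (2 * f x * f' x) x := by
      have h := (hf x).fun_pow 2
      simp only [Nat.cast_ofNat, Nat.add_one_sub_one, pow_one] at h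
      exact h
    exact h1.mul ((hT x hx).const_mul (π / 2))
  have hG'c : ContinuousOn G' (uIcc a b) := by
    apply ContinuousOn.add
    · exact (by fun_prop : Continuous fun x => 2 * f x * f' x).continuousOn.mul
        (continuousOn_const.mul hTc)
    · exact (by fun_prop : Continuous fun x => f x ^ 2).continuousOn.mul
        (continuousOn_const.mul (continuousOn_const.mul (continuousOn_const.add (hTc.pow 2))))
  have hI : IntervalIntegrable G' volume a b := hG'c.intervalIntegrable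
  have hE := intervalIntegral.integral_eq_sub_of_hasDerivAt hG hI
  have h1 : IntervalIntegrable (fun x => f x ^ 2) volume a b :=
    (hfc.pow 2).intervalIntegrable a b
  have h2 : IntervalIntegrable (fun x => f' x ^ 2) volume a b :=
    (hc.pow 2).intervalIntegrable a b
  have hm : ∫ x in a..b, π ^ 2 / 4 * f x ^ 2 ≤ ∫ x in a..b, (f' x ^ 2 + G' x) := by
    apply intervalIntegral.integral_mono_on hab (h1.const_mul _) (h2.add hI)
    intro x _
    simp only [hG']
    nlinarith [sq_nonneg (f' x + f x * (π / 2 * tan (π / 2 * x)))]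
  rw [intervalIntegral.integral_const_mul, intervalIntegral.integral_add h2 hI, hE, h0] at hm
  have h3 : 0 ≤ f a ^ 2 * (π / 2 * tan (π / 2 * a)) :=
    mul_nonneg (sq_nonneg _) (mul_nonneg (by positivity) (tr9_tan_nonneg ha (hab.trans_lt hb)))
  nlinarith

theorem poincare_mixed {f f' : ℝ → ℝ} (hf : ∀ x, HasDerivAt f (f' x) x) (hc : Continuous f')
    {a δ : ℝ} (ha : 0 ≤ a) (ha1 : a ≤ 1) (hδ : 0 < δ) (h0 : ∀ x, 1 - δ ≤ x → f x = 0) :
    π ^ 2 / 4 * ∫ x in a..1, f x ^ 2 ≤ ∫ x in a..1, f' x ^ 2 := by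
  have hfc : Continuous f := continuous_iff_continuousAt.2 fun x => (hf x).continuousAt
  have hz : ∀ c, 1 - δ ≤ c → c ≤ 1 → ∫ x in c..1, f x ^ 2 = 0 := by
    intro c hc1 hc2
    rw [intervalIntegral.integral_congr (g := fun _ => (0 : ℝ))]
    · simp
    · intro x hx
      rw [uIcc_of_le hc2] at hx
      simp [h0 x (hc1.trans hx.1)]
  have hp : ∀ c, c ≤ 1 → 0 ≤ ∫ x in c..1, f' x ^ 2 := fun c hc1 =>
    intervalIntegral.integral_nonneg hc1 fun x _ => sq_nonneg _
  rcases le_total (1 - δ) a with h | h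
  · rw [hz a h ha1, mul_zero]
    exact hp a ha1
  · have hb : 1 - δ < 1 := by linarith
    have h1 := intervalIntegral.integral_add_adjacent_intervals
      ((hfc.pow 2).intervalIntegrable (μ := volume) a (1 - δ))
      ((hfc.pow 2).intervalIntegrable (μ := volume) (1 - δ) 1)
    have h2 := intervalIntegral.integral_add_adjacent_intervals
      ((hc.pow 2).intervalIntegrable (μ := volume) a (1 - δ))
      ((hc.pow 2).intervalIntegrable (μ := volume) (1 - δ) 1)
    simp only [Pi.pow_apply] at h1 h2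
    rw [← h1, ← h2, hz _ le_rfl hb.le, add_zero]
    have h3 := tr9_core hf hc ha h hb (h0 _ le_rfl)
    have h4 := hp _ hb.le
    linarith

lemma tr9_int {H : ℂ → ℝ} (hH : Continuous H) : IntegrableOn H (Tr 1 1) :=
  (hH.continuousOn.integrableOn_compact (bdd_Tr one_pos).isCompact_closure).mono_set
    subset_closure

lemma tr9_fubini {H : ℂ → ℝ} (hH : Continuous H)
    (h : ∀ a : ℝ, 0 ≤ a → a ≤ 1 → 0 ≤ ∫ x in a..1, H ⟨x, -a⟩) :
    0 ≤ ∫ z in Tr 1 1, H z := by
  have hm : MeasurableSet (Tr 1 1) := (isOpen_Tr 1 1).measurableSet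
  have hI : Integrable ((Tr 1 1).indicator H) := (integrable_indicator_iff hm).2 (tr9_int hH)
  have hv := Complex.volume_preserving_equiv_real_prod.symm
  have h1 := hv.integral_comp' ((Tr 1 1).indicator H)
  have h2 : Integrable (fun p => (Tr 1 1).indicator H (Complex.measurableEquivRealProd.symm p))
      ((volume : Measure ℝ).prod volume) :=
    (hv.integrable_comp_emb (MeasurableEquiv.measurableEmbedding _)).2 hI
  rw [← integral_indicator hm, ← h1, Measure.volume_eq_prod, integral_prod_symm _ h2]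
  apply integral_nonneg
  intro y
  simp only [Complex.measurableEquivRealProd_symm_apply, Pi.zero_apply]
  by_cases hy : -1 < y ∧ y < 0
  · have e : (fun x : ℝ => (Tr 1 1).indicator H ⟨x, y⟩)
        = (Ioo (-y) 1).indicator fun x : ℝ => H ⟨x, - -y⟩ := by
      funext x
      by_cases hx : x ∈ Ioo (-y) 1
      · have : (⟨x, y⟩ : ℂ) ∈ Tr 1 1 := ⟨hx.2, hy.2, by have := hx.1; simp only; linarith⟩
        rw [indicator_of_mem this, indicator_of_mem hx, neg_neg]
      · have : (⟨x, y⟩ : ℂ) ∉ Tr 1 1 := fun hz =>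
          hx ⟨by have := hz.2.2; simp only at this; linarith, hz.1⟩
        rw [indicator_of_notMem this, indicator_of_notMem hx]
    rw [e, integral_indicator measurableSet_Ioo, ← integral_Ioc_eq_integral_Ioo,
      ← intervalIntegral.integral_of_le (by linarith [hy.1])]
    exact h (-y) (by linarith [hy.2]) (by linarith [hy.1])
  · have e : (fun x : ℝ => (Tr 1 1).indicator H ⟨x, y⟩) = fun _ => 0 := by
      funext x
      apply indicator_of_notMem
      intro hz
      have h1 := hz.1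
      have h3 := hz.2.2
      simp only at h1 h3
      exact hy ⟨by linarith, hz.2.1⟩
    rw [e]
    simp

theorem strip_lb {F : ℂ → ℝ} (hF : Tt 1 F) :
    π ^ 2 / 4 * ∫ z in Tr 1 1, F z ^ 2 ≤ ∫ z in Tr 1 1, fderiv ℝ F z 1 ^ 2 := by
  obtain ⟨hF1, δ, hδ, h0⟩ := hF
  have hFc : Continuous F := hF1.continuous
  have hD : Continuous fun z => fderiv ℝ F z 1 :=
    (hF1.continuous_fderiv one_ne_zero).clm_apply continuous_const
  have h1 : IntegrableOn (fun z => π ^ 2 / 4 * F z ^ 2) (Tr 1 1) := tr9_int (by fun_prop)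
  have h2 : IntegrableOn (fun z => fderiv ℝ F z 1 ^ 2) (Tr 1 1) := tr9_int (by fun_prop)
  have key := tr9_fubini (H := fun z => fderiv ℝ F z 1 ^ 2 - π ^ 2 / 4 * F z ^ 2) (by fun_prop) (by
    intro a ha ha1
    have hl : ∀ x : ℝ, HasDerivAt (fun x : ℝ => (⟨x, -a⟩ : ℂ)) 1 x := by
      intro x
      have e : (fun x : ℝ => (⟨x, -a⟩ : ℂ)) = fun x : ℝ => (x : ℂ) + ⟨0, -a⟩ := by
        funext x
        apply Complex.ext <;> simp
      rw [e]
      exact (Complex.ofRealCLM.hasDerivAt (x := x)).add_const _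
    have hlc : Continuous fun x : ℝ => (⟨x, -a⟩ : ℂ) :=
      continuous_iff_continuousAt.2 fun x => (hl x).continuousAt
    have hd : ∀ x : ℝ, HasDerivAt (fun x : ℝ => F ⟨x, -a⟩) (fderiv ℝ F ⟨x, -a⟩ 1) x := fun x =>
      (hF1.differentiable one_ne_zero _).hasFDerivAt.comp_hasDerivAt x (hl x)
    have hdc : Continuous fun x : ℝ => fderiv ℝ F ⟨x, -a⟩ 1 := hD.comp hlc
    have hfc : Continuous fun x : ℝ => F ⟨x, -a⟩ := hFc.comp hlc
    have hp := poincare_mixed hd hdc ha ha1 hδ fun x hx => h0 _ hx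
    have i1 : IntervalIntegrable (fun x : ℝ => fderiv ℝ F ⟨x, -a⟩ 1 ^ 2) volume a 1 :=
      (hdc.pow 2).intervalIntegrable _ _
    have i2 : IntervalIntegrable (fun x : ℝ => π ^ 2 / 4 * F ⟨x, -a⟩ ^ 2) volume a 1 :=
      ((hfc.pow 2).intervalIntegrable _ _).const_mul _
    rw [intervalIntegral.integral_sub i1 i2, intervalIntegral.integral_const_mul]
    linarith)
  rw [integral_sub h2 h1, integral_const_mul] at key
  linarith

end Pool.Agent.PSF
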