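import Pool.Agent.P.MP_7b7370_an.TR6
import Pool.Agent.P.MP_7b7370_an.TR8a
import Pool.Agent.P.MP_7b7370_an.TR8b
import Pool.Agent.P.MP_7b7370_an.TR9
import Pool.Agent.P.MP_7b7370_an.TR10a

set_option autoImplicit false

namespace Pool.Agent.PSF

open Real Set MeasureTheory Pool.Agent.PSz

theorem tr10_of_fold {N : ℕ} (hN : 3 ≤ N) {τ : ℝ}
    (h : ∀ f, Tst (KN N 1) f → τ * ma f ≤ en f) : PhysLB 1 (tan (π / N)) τ := by
  intro F hF
  by_contra hc
  obtain ⟨f, hf, hlt⟩ := fold_tri hN one_pos hF (not_le.1 hc)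
  exact absurd (h f hf) (not_le.2 hlt)

theorem tr10_sq : RefLB 1 (π ^ 2 / 2) := by
  have h := tr10_of_fold (N := 4) (by norm_num) fun f hf => square_lb hf
  have e : tan (π / ((4 : ℕ) : ℝ)) = 1 := by
    rw [show ((4 : ℕ) : ℝ) = 4 by norm_num, tan_pi_div_four]
  rw [e, phys_iff_ref one_pos] at h
  simpa using h

theorem tr10_eq : RefLB (1 / 3) (4 * π ^ 2 / 9) := by
  have h := tr10_of_fold (N := 3) le_rfl fun f hf => equi_lb hf
  have e : tan (π / ((3 : ℕ) : ℝ)) = √3 := by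
    rw [show ((3 : ℕ) : ℝ) = 3 by norm_num, tan_pi_div_three]
  rw [e, phys_iff_ref (sqrt_pos.2 (by norm_num)), sq_sqrt (by norm_num)] at h
  exact h

theorem tr10_st : RefLB 0 (π ^ 2 / 4) := by
  intro G hG
  rw [zero_mul, add_zero]
  exact strip_lb hG

theorem phys_low {t : ℝ} (ht : 1 ≤ t) : PhysLB 1 t (mlow t) := by
  have ht0 : 0 < t := by linarith
  rw [phys_iff_ref ht0]
  have hs0 : 0 ≤ 1 / t ^ 2 := by positivity
  have hs1 : 1 / t ^ 2 ≤ 1 := by
    rw [div_le_one (by positivity)]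
    nlinarith
  have hm : mlow t = π ^ 2 / 12 * min (5 + 1 / t ^ 2) (3 + 7 * (1 / t ^ 2)) := by
    rw [mlow, mul_one_div]
  rw [hm]
  generalize 1 / t ^ 2 = s at hs0 hs1
  intro G hG
  have h0 := tr10_st G hG
  have h1 := tr10_eq G hG
  have h2 := tr10_sq G hG
  have hM : 0 ≤ ∫ z in Tr 1 1, G z ^ 2 := integral_nonneg fun z => sq_nonneg _
  generalize ∫ z in Tr 1 1, G z ^ 2 = M at *
  generalize ∫ z in Tr 1 1, fderiv ℝ G z 1 ^ 2 = A at *
  generalize ∫ z in Tr 1 1, fderiv ℝ G z Complex.I ^ 2 = B at *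
  have hp : 0 ≤ π ^ 2 / 12 * M := by positivity
  rcases le_total s (1 / 3) with h | h
  · have e1 : π ^ 2 / 12 * min (5 + s) (3 + 7 * s) * M ≤ (3 + 7 * s) * (π ^ 2 / 12 * M) := by
      rw [mul_comm (π ^ 2 / 12), mul_assoc]
      exact mul_le_mul_of_nonneg_right (min_le_right _ _) hp
    have e2 := mul_le_mul_of_nonneg_left h0 (show 0 ≤ 1 - 3 * s by linarith)
    have e3 := mul_le_mul_of_nonneg_left h1 (show 0 ≤ 3 * s by linarith)
    linarith
  · have e1 : π ^ 2 / 12 * min (5 + s) (3 + 7 * s) * M ≤ (5 + s) * (π ^ 2 / 12 * M) := by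
      rw [mul_comm (π ^ 2 / 12), mul_assoc]
      exact mul_le_mul_of_nonneg_right (min_le_left _ _) hp
    have e2 := mul_le_mul_of_nonneg_left h1 (show 0 ≤ 3 * (1 - s) / 2 by linarith)
    have e3 := mul_le_mul_of_nonneg_left h2 (show 0 ≤ (3 * s - 1) / 2 by linarith)
    linarith

end Pool.Agent.PSF
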