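import Pool.Agent.P.MP_7b7370_an.TRDefs

set_option autoImplicit false

namespace Pool.Agent.PSF

open Real Set MeasureTheory Pool.Agent.PSz

theorem tr11_angle {θ : ℝ} (h1 : π / 4 ≤ θ) (h2 : θ < π / 2) :
    1 ≤ tan θ ∧ θ ≤ π / 4 + (tan θ - 1) / (tan θ + 1) := by
  have hpi := pi_pos
  have hc : 0 < cos θ := cos_pos_of_mem_Ioo ⟨by linarith, h2⟩
  have ht : 1 ≤ tan θ := by
    rw [← tan_pi_div_four]
    exact strictMonoOn_tan.monotoneOn ⟨by linarith, by linarith⟩ ⟨by linarith, h2⟩ h1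
  refine ⟨ht, ?_⟩
  have h3 : θ - π / 4 ≤ tan (θ - π / 4) := le_tan (by linarith) (by linarith)
  have hs : sin θ = tan θ * cos θ := by rw [tan_eq_sin_div_cos]; field_simp
  have h4 : tan (θ - π / 4) = (tan θ - 1) / (tan θ + 1) := by
    have h5 : (0 : ℝ) < √2 := by positivity
    have h6 : 0 < tan θ + 1 := by linarith
    rw [tan_eq_sin_div_cos (θ - π / 4), sin_sub, cos_sub, sin_pi_div_four, cos_pi_div_four, hs]
    have e1 : tan θ * cos θ * (√2 / 2) - cos θ * (√2 / 2) = (tan θ - 1) * (cos θ * (√2 / 2)) := by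
      ring
    have e2 : cos θ * (√2 / 2) + tan θ * cos θ * (√2 / 2) = (tan θ + 1) * (cos θ * (√2 / 2)) := by
      ring
    rw [e1, e2, mul_div_mul_right _ _ (by positivity)]
  linarith

theorem tr11_poly {t m : ℝ} (ht : 1 ≤ t) (hm : m = 5 + 1 / t ^ 2 ∨ m = 3 + 7 / t ^ 2) :
    15.4462 + 67 / 3 * ((t - 1) / (t + 1)) ≤ 2.58385 * (t * m) := by
  have h0 : 0 < t := by linarith
  have h1 : 0 < t * (t + 1) := by positivity
  have e : (15.4462 + 67 / 3 * ((t - 1) / (t + 1))) * (t * (t + 1))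
      = 15.4462 * (t * (t + 1)) + 67 / 3 * (t * (t - 1)) := by field_simp
  refine le_of_mul_le_mul_right ?_ h1
  rw [e]
  rcases hm with rfl | rfl
  · have e2 : 2.58385 * (t * (5 + 1 / t ^ 2)) * (t * (t + 1))
        = 2.58385 * ((5 * t ^ 2 + 1) * (t + 1)) := by field_simp
    rw [e2]
    nlinarith [mul_nonneg h0.le (sq_nonneg (t - 1.06)), sq_nonneg (t - 1)]
  · have e2 : 2.58385 * (t * (3 + 7 / t ^ 2)) * (t * (t + 1))
        = 2.58385 * ((3 * t ^ 2 + 7) * (t + 1)) := by field_simp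
    rw [e2]
    nlinarith [mul_nonneg h0.le (sq_nonneg (t - 2)), sq_nonneg (t - 3)]

theorem low_num {n : ℝ} (h2 : 2 < n) (h4 : n ≤ 4) :
    19 + 2 / 3 * (5 - n) ≤ n * tan (π / n) * mlow (tan (π / n)) := by
  have hpi := pi_pos
  have hn : 0 < n := by linarith
  have p1 := pi_gt_d6
  have p2 := pi_lt_d6
  obtain ⟨ht, hθ⟩ := tr11_angle (θ := π / n) (div_le_div_of_nonneg_left hpi.le hn h4)
    (div_lt_div_of_pos_left hpi (by norm_num) h2)
  set θ := π / n with hθd
  set t := tan θ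
  have hθ0 : 0 < θ := by positivity
  have hnθ : n * θ = π := by rw [hθd]; field_simp
  set m := min (5 + 1 / t ^ 2) (3 + 7 / t ^ 2) with hm
  have hm' : m = 5 + 1 / t ^ 2 ∨ m = 3 + 7 / t ^ 2 := min_choice _ _
  have hp := tr11_poly ht hm'
  have hm0 : 0 ≤ t * m := by
    have : 0 < t := by linarith
    rcases hm' with h | h <;> rw [h] <;> positivity
  have hc : 2.58385 ≤ π ^ 3 / 12 := by
    have := pow_le_pow_left₀ (by norm_num : (0 : ℝ) ≤ 3.141592) p1.le 3
    norm_num at this ⊢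
    linarith
  have h5 := mul_le_mul_of_nonneg_right hc hm0
  refine le_of_mul_le_mul_right ?_ hθ0
  have e1 : (19 + 2 / 3 * (5 - n)) * θ = 67 / 3 * θ - 2 / 3 * π := by rw [← hnθ]; ring
  have e2 : n * t * mlow t * θ = π ^ 3 / 12 * (t * m) := by
    have : n * t * mlow t * θ = (n * θ) * (t * mlow t) := by ring
    rw [this, hnθ, mlow, ← hm]
    ring
  rw [e1, e2]
  linarith

end Pool.Agent.PSF
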