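import Pool.Agent.P.MP_7b7370_an.TR14c
import Pool.Agent.P.MP_7b7370_an.DCA

set_option autoImplicit false

namespace Pool.Agent.PSF

open Real Set MeasureTheory Pool.Agent.PSz

/-- the two identifications of the plane -/
lemma tr14_equiv {s : ℝ} (hs : s = 1 ∨ s = -1) : ∃ L : ℂ ≃L[ℝ] ℝ × ℝ,
    (∀ w, L w = (s * w.re, w.im)) ∧ MeasurePreserving L volume volume := by
  rcases hs with rfl | rfl
  · refine ⟨Complex.equivRealProdCLM, fun w => by simp [Complex.equivRealProdCLM_apply], ?_⟩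
    exact Complex.volume_preserving_equiv_real_prod
  · refine ⟨Complex.equivRealProdCLM.trans
      ((ContinuousLinearEquiv.neg ℝ).prodCongr (ContinuousLinearEquiv.refl ℝ ℝ)),
      fun w => by simp [Complex.equivRealProdCLM_apply], ?_⟩
    have h1 : MeasurePreserving (Prod.map (fun x : ℝ => -x) (id : ℝ → ℝ)) volume volume :=
      (Measure.measurePreserving_neg volume).prod (MeasurePreserving.id volume)
    exact h1.comp Complex.volume_preserving_equiv_real_prod

lemma tr14_move {s : ℝ} (hs : s = 1 ∨ s = -1) (G : ℝ × ℝ → ℝ)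
    (hG : IntegrableOn (fun w : ℂ => G (s * w.re, w.im)) Qs) :
    IntegrableOn G ({x | 0 < s * x} ×ˢ Ioo 0 (π / 2)) ∧
      ∫ p in {x | 0 < s * x} ×ˢ Ioo 0 (π / 2), G p = ∫ w in Qs, G (s * w.re, w.im) := by
  obtain ⟨L, hL, hm⟩ := tr14_equiv hs
  have he : MeasurableEmbedding L := L.toHomeomorph.measurableEmbedding
  have hss : s * s = 1 := by rcases hs with rfl | rfl <;> norm_num
  have hpre : L ⁻¹' ({x | 0 < s * x} ×ˢ Ioo 0 (π / 2)) = Qs := by
    ext w
    simp only [mem_preimage, hL, mem_prod, mem_ofPred_eq, mem_Ioo, Qs, ← mul_assoc, hss, one_mul]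
  constructor
  · rw [← hm.integrableOn_comp_preimage he, hpre]
    refine hG.congr_fun (fun w _ => ?_) isOpen_Qs.measurableSet
    simp only [Function.comp_apply, hL]
  · rw [← hm.setIntegral_preimage_emb he, hpre]
    simp only [hL]

lemma tr14_split (G : ℝ × ℝ → ℝ) (h1 : IntegrableOn (fun w : ℂ => G (1 * w.re, w.im)) Qs)
    (h2 : IntegrableOn (fun w : ℂ => G (-1 * w.re, w.im)) Qs) :
    ∫ p in Sig, G p = (∫ w in Qs, G (1 * w.re, w.im)) + ∫ w in Qs, G (-1 * w.re, w.im) := by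
  obtain ⟨i1, e1⟩ := tr14_move (Or.inl rfl) G h1
  obtain ⟨i2, e2⟩ := tr14_move (Or.inr rfl) G h2
  rw [← e1, ← e2, ← setIntegral_union ?_ ?_ i1 i2]
  · refine setIntegral_congr_set ?_
    have h0 : volume (({0} : Set ℝ) ×ˢ (univ : Set ℝ)) = 0 := by
      rw [Measure.volume_eq_prod, Measure.prod_prod]
      simp
    have h3 : ∀ᵐ p : ℝ × ℝ, p ∉ ({0} : Set ℝ) ×ˢ (univ : Set ℝ) :=
      measure_eq_zero_iff_ae_notMem.mp h0
    refine Filter.eventuallyEq_set.mpr (h3.mono fun p hp => ?_)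
    have h4 : p.1 ≠ 0 := fun h => hp ⟨h, mem_univ _⟩
    simp only [Sig, mem_union, mem_prod, mem_ofPred_eq, mem_univ, true_and]
    constructor
    · intro h
      rcases lt_or_gt_of_ne h4 with h5 | h5
      · exact Or.inr ⟨by linarith, h⟩
      · exact Or.inl ⟨by linarith, h⟩
    · rintro (h | h) <;> exact h.2
  · rw [Set.disjoint_left]
    rintro p ⟨h3, -⟩ ⟨h4, -⟩
    simp only [mem_ofPred_eq] at h3 h4
    linarith
  · exact (isOpen_lt continuous_const (by fun_prop)).measurableSet.prod measurableSet_Ioo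

lemma tr14_even {s : ℝ} (hs : s = 1 ∨ s = -1) (p : ℝ) (w : ℂ) :
    Wp p (s * w.re, w.im) = Wp p (w.re, w.im) := by
  rcases hs with rfl | rfl <;> simp [Wp]

lemma tr14_half {n : ℝ} (hn : 2 < n) {s : ℝ} (hs : s = 1 ∨ s = -1) {U : ℝ × ℝ → ℝ}
    (h1 : ContDiff ℝ 1 U) (h2 : HasCompactSupport U)
    (h3 : tsupport U ⊆ univ ×ˢ Ioo (-(π / 2)) (π / 2)) :
    IntegrableOn (fun w : ℂ => Wp (1 - 2 / n) (s * w.re, w.im) * U (s * w.re, w.im) ^ 2) Qs ∧
    IntegrableOn (fun w : ℂ => dx U (s * w.re, w.im) ^ 2 + dy U (s * w.re, w.im) ^ 2) Qs ∧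
    lam n * ∫ w in Qs, Wp (1 - 2 / n) (s * w.re, w.im) * U (s * w.re, w.im) ^ 2
      ≤ n ^ 2 * (4 : ℝ) ^ (-(1 - 2 / n)) *
        ∫ w in Qs, (dx U (s * w.re, w.im) ^ 2 + dy U (s * w.re, w.im) ^ 2) := by
  obtain ⟨L, hL, -⟩ := tr14_equiv hs
  have hss : s * s = 1 := by rcases hs with rfl | rfl <;> norm_num
  have hT : Tst {w | |w.im| < π / 2} (U ∘ L) := by
    refine ⟨h1.comp L.contDiff, h2.comp_homeomorph L.toHomeomorph, fun w hw => ?_⟩
    have h4 : L w ∈ tsupport U := by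
      refine L.continuous.closure_preimage_subset (Function.support U) ?_
      rw [← Function.support_comp_eq_preimage]
      exact hw
    have h5 := (h3 h4).2
    rw [hL] at h5
    exact abs_lt.mpr h5
  have hg : ∀ w : ℂ, ‖fderiv ℝ (U ∘ L) w‖ ^ 2 =
      dx U (s * w.re, w.im) ^ 2 + dy U (s * w.re, w.im) ^ 2 := by
    intro w
    rw [norm_clm_sq, L.comp_right_fderiv]
    have e1 : L 1 = s • ((1 : ℝ), (0 : ℝ)) := by rw [hL]; simp
    have e2 : L Complex.I = ((0 : ℝ), (1 : ℝ)) := by rw [hL]; simp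
    simp only [ContinuousLinearMap.comp_apply, ContinuousLinearEquiv.coe_coe, e1, e2, map_smul,
      smul_eq_mul, hL w, dx, dy]
    rw [mul_pow, sq s, hss, one_mul]
  have hv : ∀ w : ℂ, (U ∘ L) w = U (s * w.re, w.im) := fun w => by
    rw [Function.comp_apply, hL]
  have hq := quarter_lb hn hT
  have hi := hT.int_grad
  simp only [hg, hv] at hq hi
  simp only [tr14_even hs]
  refine ⟨?_, hi.integrableOn, hq⟩
  obtain ⟨C, hC⟩ := h1.continuous.bounded_above_of_compact_support h2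
  have hc : Continuous fun w : ℂ => U (s * w.re, w.im) ^ 2 :=
    (h1.continuous.comp (by fun_prop)).pow 2
  refine Integrable.mul_bdd (c := C ^ 2) (quarter_weight hn).1 hc.aestronglyMeasurable
    (Filter.Eventually.of_forall fun w => ?_)
  rw [norm_pow]
  exact pow_le_pow_left₀ (norm_nonneg _) (hC _) 2

theorem link {n : ℝ} (hn : 2 < n) : StripLB (1 - 2 / n) (gn n / n) := by
  intro U h1 h2 h3
  have hn0 : 0 < n := by linarith
  obtain ⟨a1, b1, c1⟩ := tr14_half hn (Or.inl rfl) h1 h2 h3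
  obtain ⟨a2, b2, c2⟩ := tr14_half hn (Or.inr rfl) h1 h2 h3
  obtain ⟨w1, w2⟩ := quarter_weight hn
  have eW := tr14_split (Wp (1 - 2 / n)) (by simpa only [tr14_even (Or.inl rfl)] using w1)
    (by simpa only [tr14_even (Or.inr rfl)] using w1)
  simp only [tr14_even (Or.inl rfl), tr14_even (Or.inr rfl), w2] at eW
  rw [tr14_split (fun w => Wp (1 - 2 / n) w * U w ^ 2) a1 a2,
    tr14_split (fun w => dx U w ^ 2 + dy U w ^ 2) b1 b2, eW]
  have hA : 0 ≤ An n / n := div_nonneg (An_pos hn).le hn0.le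
  have h4 := mul_le_mul_of_nonneg_left (add_le_add c1 c2) hA
  refine le_trans (le_of_eq ?_) (h4.trans (le_of_eq ?_))
  · unfold gn
    ring
  · field_simp
    ring

end Pool.Agent.PSF
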