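import Pool.Agent.P.MP_7b7370_an.TR4
import Pool.Agent.P.MP_7b7370_an.TR10
import Pool.Agent.P.MP_7b7370_an.TR11
import Pool.Agent.P.MP_7b7370_an.TR14
import Pool.Agent.P.MP_7b7370_an.DCC
import Pool.Agent.P.MP_7b7370_an.DCM

set_option autoImplicit false

namespace Pool.Agent.PSF

open Real Set MeasureTheory Pool.Agent.PSz

theorem gn_low {n : ℝ} (h2 : 2 < n) (h4 : n ≤ 4) : 19 + 2 / 3 * (5 - n) ≤ gn n := by
  have h0 : 0 < n := by linarith
  have ht : 1 ≤ tan (π / n) := by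
    rw [← tan_pi_div_four]
    have h5 : π / 4 ≤ π / n := div_le_div_of_nonneg_left pi_pos.le h0 h4
    have h6 : π / n < π / 2 := div_lt_div_of_pos_left pi_pos (by norm_num) h2
    exact strictMonoOn_tan.monotoneOn ⟨by linarith [pi_pos], by linarith [pi_pos]⟩
      ⟨by linarith [pi_pos], h6⟩ h5
  obtain ⟨X, hX, hA, hm⟩ := model_tri h2
  have hm0 : 0 ≤ mlow (tan (π / n)) := by
    unfold mlow
    exact mul_nonneg (by positivity) (le_min (by positivity) (by positivity))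
  have h1 : mlow (tan (π / n)) / X ^ 2 ≤ lam n := by
    refine le_lam h2 fun V hV => ?_
    by_contra hcon
    obtain ⟨F, hF, hlt⟩ := hm V _ hV (by positivity) (not_le.1 hcon)
    exact absurd ((phys_low ht).scale hX F hF) (not_le.2 hlt)
  refine (low_num h2 h4).trans ?_
  have h3 := mul_le_mul_of_nonneg_left h1 (An_pos h2).le
  refine le_trans (le_of_eq ?_) h3
  rw [hA]
  field_simp

theorem support (hS : Support4) {N : ℕ} (hN : 5 ≤ N) :
    ∃ c : ℝ, 0 ≤ c ∧ ∀ n : ℝ, 2 < n → gn N - c * (n - N) ≤ gn n := by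
  obtain ⟨c, hc, hc2, h⟩ := hS.2 N hN
  refine ⟨c, hc, fun n hn => ?_⟩
  rcases le_total 4 n with h4 | h4
  · exact h n h4
  · have h1 := h 5 (by norm_num)
    have h2 := gn_low hn h4
    have h3 := hS.1
    have h5 : c * (5 - n) ≤ 2 / 3 * (5 - n) := mul_le_mul_of_nonneg_right hc2 (by linarith)
    nlinarith

theorem lower (hCL : CellIneq) (hS : Support4) {N : ℕ} (hN : 5 ≤ N) {v : Fin N → ℂ} {Ω : Set ℂ}
    (hP : IsPoly v Ω) (hnc : ∃ i j k, ¬ Collinear ℝ ({v i, v j, v k} : Set ℂ))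
    (hv : 0 < (volume Ω).toReal) {u : ℂ → ℝ} (hu : Tst Ω u) :
    gn N / (volume Ω).toReal * ma u ≤ en u := by
  obtain ⟨c, hc, h⟩ := support hS hN
  have hN5 : (5 : ℝ) ≤ N := by exact_mod_cast hN
  have hg : 0 ≤ gn N := mul_nonneg (An_pos (by linarith)).le (lam_nonneg (by linarith))
  have hσ : 0 ≤ (gn N + c * N) / (2 * π) := by positivity
  have hL : CLin ((gn N + c * N) / (2 * π)) c := by
    refine clin_of hCL hσ fun p hp0 hp1 => ?_
    have h1 : 0 < 1 - p := by linarith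
    have h2 : 2 < 2 / (1 - p) := by
      rw [lt_div_iff₀ h1]; linarith
    have h3 := link h2
    have e : 1 - 2 / (2 / (1 - p)) = p := by field_simp; ring
    rw [e] at h3
    refine h3.mono ?_
    have h4 := h _ h2
    rw [le_div_iff₀ (by positivity)]
    refine le_trans (le_of_eq ?_) h4
    field_simp
    ring
  refine decomp hσ hc (by positivity) hL hP hnc (le_of_eq ?_) hu
  field_simp
  ring

theorem main (hCL : CellIneq) (hS : Support4) {N : ℕ} (hN : 5 ≤ N) (v : Fin N → ℂ) (Ω : Set ℂ)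
    (r : ℝ) (Ω₀ : Set ℂ) (hP : IsPoly v Ω)
    (hnc : ∃ i j k, ¬ Collinear ℝ ({v i, v j, v k} : Set ℂ)) (hr : 0 < r) (ho : IsOpen Ω₀)
    (hb : Bornology.IsBounded Ω₀) (hf : frontier Ω₀ = regFront N r)
    (hvol : volume Ω₀ = volume Ω) :
    sInf {q : ℝ | ∃ f : ℂ → ℝ, ContDiff ℝ 1 f ∧ HasCompactSupport f ∧ tsupport f ⊆ Ω₀ ∧
        f ≠ 0 ∧ q = (∫ x, ‖fderiv ℝ f x‖ ^ 2) / (∫ x, f x ^ 2)}
      ≤ sInf {q : ℝ | ∃ f : ℂ → ℝ, ContDiff ℝ 1 f ∧ HasCompactSupport f ∧ tsupport f ⊆ Ω ∧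
        f ≠ 0 ∧ q = (∫ x, ‖fderiv ℝ f x‖ ^ 2) / (∫ x, f x ^ 2)} := by
  have h3 : 3 ≤ N := by omega
  have hN5 : (5 : ℝ) ≤ N := by exact_mod_cast hN
  have hN0 : (0 : ℝ) < N := by linarith
  have hN2 : (2 : ℝ) < N := by linarith
  obtain ⟨ha, ha2, hcos⟩ := Up.cos_pos h3
  have hsin : 0 < sin (π / N) := sin_pos_of_pos_of_lt_pi ha (by linarith [pi_pos])
  have htan : 0 < tan (π / N) := by rw [tan_eq_sin_div_cos]; positivity
  obtain ⟨X₀, hX₀⟩ : ∃ X₀, X₀ = r * cos (π / N) := ⟨_, rfl⟩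
  have hX0 : 0 < X₀ := by rw [hX₀]; positivity
  have hK : Ω₀ = KN N X₀ := by rw [hX₀]; exact reg_eq h3 hr ho hb hf
  have hne : Ω.Nonempty := by
    by_contra hcon
    have h1 := hP.front
    rw [not_nonempty_iff_eq_empty.1 hcon, frontier_empty] at h1
    have : v ⟨0, by omega⟩ ∈ (∅ : Set ℂ) := by
      rw [h1]
      exact mem_iUnion.2 ⟨⟨0, by omega⟩, left_mem_segment _ _ _⟩
    exact this
  have hv : 0 < (volume Ω).toReal :=
    ENNReal.toReal_pos (hP.isOpen.measure_pos volume hne).ne' hP.bdd.measure_lt_top.ne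
  have hle : (volume Ω).toReal ≤ N * X₀ ^ 2 * tan (π / N) := by
    have h1 := reg_vol h3 hr ho hb hf
    rw [hvol] at h1
    refine (ENNReal.toReal_le_of_le_ofReal (by positivity) h1).trans (le_of_eq ?_)
    have e : π = N * (π / N) := by field_simp
    rw [hX₀]
    generalize π / N = a at ha hcos hsin e
    have hq : q0 a 1 = a / (sin a * cos a) := by
      simp only [q0, X2, PSz.om, tan_eq_sin_div_cos]
      field_simp
      linear_combination sin_sq_add_cos_sq a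
    rw [div_pow, Rv, Real.sq_sqrt (by rw [hq]; positivity), hq, tan_eq_sin_div_cos, e]
    field_simp
  obtain ⟨X, hX, hA, hm⟩ := model_tri hN2
  have hl0 : 0 ≤ lam N := lam_nonneg hN0
  obtain ⟨s, hs⟩ : ∃ s, s = X / X₀ := ⟨_, rfl⟩
  have hs0 : 0 < s := by rw [hs]; positivity
  have hα : (s : ℂ) ≠ 0 := by exact_mod_cast hs0.ne'
  have hn : ‖(s : ℂ)‖ = s := by rw [Complex.norm_real, Real.norm_of_nonneg hs0.le]
  refine le_trans (b := gn N / (volume Ω).toReal) (le_trans (b := lam N * s ^ 2) ?_ ?_)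
    (le_csInf ?_ ?_)
  · refine le_of_forall_pos_le_add fun e he => ?_
    obtain ⟨V, hV, hlt⟩ := exists_lt_of_lam_lt hN2 (τ := lam N + e / s ^ 2)
      (lt_add_of_pos_right _ (by positivity))
    obtain ⟨F, hF, hF2⟩ := hm V _ hV (by positivity) hlt
    obtain ⟨f, ⟨f1, f2, f3⟩, f4⟩ := fold_tri h3 hX hF hF2
    have f0 : f ≠ 0 := by
      rintro rfl
      simp [en, ma] at f4
    have fm := Fi.ma_pos f1 f2 f0
    refine csInf_le_of_le ⟨0, ?_⟩ ⟨f ∘ Fi.sim _ 0 hα, f1.comp (Fi.contDiff_sim hα),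
      f2.comp_homeomorph _, (Fi.tsupport_sim hα f3).trans ?_, ?_, rfl⟩ ?_
    · rintro q ⟨g, -, -, -, -, rfl⟩
      exact div_nonneg (MeasureTheory.integral_nonneg fun _ => by positivity)
        (MeasureTheory.integral_nonneg fun _ => by positivity)
    · rw [hK]
      intro z hz k
      have h1 := hz k
      simp only [Fi.sim_apply, add_zero, Complex.re_ofReal_mul, Complex.im_ofReal_mul] at h1
      have e1 : X = s * X₀ := by rw [hs]; field_simp
      rw [e1] at h1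
      refine lt_of_mul_lt_mul_left (a := s) (lt_of_eq_of_lt ?_ h1) hs0.le
      ring
    · intro h
      exact f0 ((Fi.sim _ 0 hα).surjective.injective_comp_right h)
    · change en (f ∘ Fi.sim _ 0 hα) / ma (f ∘ Fi.sim _ 0 hα) ≤ _
      rw [Fi.en_sim hα f1, Fi.ma_sim, hn, div_le_iff₀ (by positivity)]
      refine f4.le.trans (le_of_eq ?_)
      field_simp
  · rw [le_div_iff₀ hv]
    refine (mul_le_mul_of_nonneg_left hle (by positivity)).trans (le_of_eq ?_)
    rw [gn, hA, hs]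
    field_simp
  · obtain ⟨z, hz⟩ := hne
    obtain ⟨f, f1, f2, f3, -, f4⟩ :=
      exists_contDiff_tsupport_subset (n := 1) (hP.isOpen.mem_nhds hz)
    refine ⟨_, f, f3, f2, f1, ?_, rfl⟩
    rintro rfl
    simp at f4
  · rintro q ⟨f, f1, f2, f3, f0, rfl⟩
    have fm := Fi.ma_pos f1 f2 f0
    change _ ≤ en f / ma f
    rw [le_div_iff₀ fm]
    exact lower hCL hS hN hP hnc hv ⟨f1, f2, f3⟩

end Pool.Agent.PSF
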