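import Pool.Agent.P.MP_7b7370_an.FDefs

set_option autoImplicit false

namespace Pool.Agent.PSF

open Real Set MeasureTheory

theorem measurableSet_Pi0 : MeasurableSet Pi0 := measurableSet_Ioi.prod measurableSet_Ioo

lemma fom_q {n s : ℝ} (hn : 0 < n) (hs : 0 < s) : exp (-n * s) < 1 :=
  exp_lt_one_iff.2 (by nlinarith)

theorem om_base_pos {n : ℝ} (hn : 0 < n) {p : ℝ × ℝ} (hp : 0 < p.1) :
    0 < 1 - 2 * exp (-n * p.1) * cos p.2 + exp (-n * p.1) ^ 2 := by
  have h1 := fom_q hn hp
  have h2 := exp_pos (-n * p.1)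
  nlinarith [cos_le_one p.2]

theorem om_pos {n : ℝ} (hn : 0 < n) {p : ℝ × ℝ} (hp : 0 < p.1) : 0 < om n p := by
  exact mul_pos (exp_pos _) (rpow_pos_of_pos (om_base_pos hn hp) _)

theorem continuousOn_om {n : ℝ} (hn : 0 < n) : ContinuousOn (om n) {p | 0 < p.1} := by
  exact ContinuousOn.mul (by fun_prop)
    (ContinuousOn.rpow_const (by fun_prop) fun p hp => Or.inl (om_base_pos hn hp).ne')

lemma fom_s {n a : ℝ} (hn : 0 < n) (h0 : 0 < a) (h1 : a < 1) :
    IntegrableOn (fun s => exp (-2 * s) * (1 - exp (-n * s)) ^ (-a)) (Ioi 0) := by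
  have h2 := integrableOn_rpow_mul_exp_neg_mul_rpow (s := -a) (p := 1) (b := 2) (by linarith)
    one_pos two_pos
  refine ((exp_neg_integrableOn_Ioi 0 two_pos).add (h2.const_mul (n ^ (-a)))).mono'
    (Measurable.aestronglyMeasurable (by fun_prop)) ?_
  filter_upwards [ae_restrict_mem measurableSet_Ioi] with s hs
  have hs : 0 < s := hs
  have hq := fom_q hn hs
  have hx : 0 < n * s := by positivity
  have h3 : (1 + (n * s)⁻¹)⁻¹ ≤ 1 - exp (-n * s) := by
    have h4 : exp (-n * s) ≤ (n * s + 1)⁻¹ := by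
      rw [neg_mul, exp_neg]
      exact inv_anti₀ (by positivity) (add_one_le_exp _)
    have h5 : (1 + (n * s)⁻¹)⁻¹ = 1 - (n * s + 1)⁻¹ := by
      field_simp
      ring
    linarith
  have h4 : (1 - exp (-n * s)) ^ (-a) ≤ 1 + n ^ (-a) * s ^ (-a) := by
    refine (rpow_le_rpow_of_nonpos (by positivity) h3 (by linarith)).trans ?_
    rw [inv_rpow (by positivity), rpow_neg (by positivity), inv_inv, ← mul_rpow hn.le hs.le,
      rpow_neg hx.le, ← inv_rpow hx.le]
    simpa using rpow_add_le_add_rpow zero_le_one (inv_pos.2 hx).le h0.le h1.le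
  rw [norm_of_nonneg (mul_nonneg (exp_pos _).le (rpow_nonneg (by linarith) _))]
  simp only [Pi.add_apply, rpow_one]
  have := mul_le_mul_of_nonneg_left h4 (exp_pos (-2 * s)).le
  linarith

lemma fom_phi {a : ℝ} (h0 : 0 < a) (h1 : a < 1) :
    IntegrableOn (fun φ => sin φ ^ (-a)) (Ioo 0 π) := by
  have h2 := (intervalIntegral.intervalIntegrable_rpow' (r := -a) (a := 0) (b := π)
    (by linarith))
  have h3 := (h2.comp_sub_left π).symm
  simp only [sub_zero, sub_self] at h3
  rw [intervalIntegrable_iff_integrableOn_Ioo_of_le pi_pos.le] at h2 h3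
  refine ((h2.add h3).const_mul ((2 / π) ^ (-a))).mono'
    (Measurable.aestronglyMeasurable (by fun_prop)) ?_
  filter_upwards [ae_restrict_mem measurableSet_Ioo] with φ hφ
  have h4 : ∀ x, 0 < x → x ≤ π / 2 → sin x ^ (-a) ≤ (2 / π) ^ (-a) * x ^ (-a) := by
    intro x a1 a2
    rw [← mul_rpow (by positivity) a1.le]
    exact rpow_le_rpow_of_nonpos (by positivity) (mul_le_sin a1.le a2) (by linarith)
  have h5 : 0 < π - φ := sub_pos.2 hφ.2
  have h6 := hφ.1
  rw [norm_of_nonneg (rpow_nonneg (sin_pos_of_mem_Ioo hφ).le _)]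
  simp only [Pi.add_apply, mul_add]
  rcases le_total φ (π / 2) with h | h
  · exact (h4 φ h6 h).trans (le_add_of_nonneg_right (by positivity))
  · rw [← sin_pi_sub]
    exact (h4 _ h5 (by linarith)).trans (le_add_of_nonneg_left (by positivity))

theorem integrableOn_om {n : ℝ} (hn : 2 < n) : IntegrableOn (om n) Pi0 := by
  have hn0 : 0 < n := by linarith
  have h0 : 0 < 2 / n := by positivity
  have h1 : 2 / n < 1 := (div_lt_one hn0).2 hn
  have h2 := (fom_s hn0 h0 h1).mul_prod (fom_phi h0 h1)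
  rw [Measure.prod_restrict] at h2
  refine Integrable.mono' h2 (((continuousOn_om hn0).mono fun p hp => hp.1).aestronglyMeasurable
    measurableSet_Pi0) ?_
  filter_upwards [ae_restrict_mem measurableSet_Pi0] with p hp
  have h3 := fom_q hn0 hp.1
  have h4 := sin_pos_of_mem_Ioo hp.2
  have h5 := exp_pos (-n * p.1)
  rw [norm_of_nonneg (om_pos hn0 hp.1).le, om, mul_assoc (exp _), ← mul_rpow (by linarith) h4.le,
    neg_div]
  refine mul_le_mul_of_nonneg_left (rpow_le_rpow_of_nonpos (mul_pos (by linarith) h4) ?_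
    (by linarith)) (exp_pos _).le
  nlinarith [cos_le_one p.2, sin_sq_add_cos_sq p.2, sq_nonneg (exp (-n * p.1) - cos p.2),
    sq_nonneg (1 - exp (-n * p.1) - sin p.2)]

theorem An_pos {n : ℝ} (hn : 2 < n) : 0 < An n := by
  have hn0 : 0 < n := by linarith
  refine mul_pos two_pos ((setIntegral_pos_iff_support_of_nonneg_ae ?_ (integrableOn_om hn)).2 ?_)
  · filter_upwards [ae_restrict_mem measurableSet_Pi0] with p hp using (om_pos hn0 hp.1).le
  · rw [inter_eq_right.2 (show Pi0 ⊆ Function.support (om n) from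
      fun p hp => (om_pos hn0 hp.1).ne')]
    exact (isOpen_Ioi.prod isOpen_Ioo).measure_pos _
      ⟨(1, 1), mem_Ioi.2 one_pos, one_pos, by linarith [pi_gt_three]⟩

end Pool.Agent.PSF
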