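import Pool.Agent.P.MP_7b7370_an.SDefs

set_option autoImplicit false

namespace Pool.Agent.PSz

open Real Set MeasureTheory intervalIntegral

namespace Fan

lemma subset_of_miss {Ω S : Set ℂ} (ho : IsOpen Ω) (hS : IsPreconnected S) (hne : (S ∩ Ω).Nonempty)
    (hm : ∀ z ∈ S, z ∉ frontier Ω) : S ⊆ Ω := by
  refine hS.subset_of_closure_inter_subset ho hne fun z hz => ?_
  by_contra h
  exact hm z hz.2 ⟨hz.1, by rwa [ho.interior_eq]⟩

lemma pos_of_ne {f : ℝ → ℝ} (hf : Continuous f) {α β x : ℝ} (hx : x ∈ Ioo α β) (h0 : 0 < f x)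
    (hne : ∀ y ∈ Ioo α β, f y ≠ 0) : ∀ y ∈ Ioo α β, 0 < f y := by
  intro y hy
  by_contra h
  obtain ⟨z, hz, h1⟩ := isPreconnected_Ioo.intermediate_value hy hx hf.continuousOn
    ⟨not_lt.1 h, h0.le⟩
  exact hne z hz h1

/-- coefficients of the linear form that equals one on the side -/
noncomputable def cA (p q : ℂ) : ℝ := (q.im - p.im) / det p q
noncomputable def cB (p q : ℂ) : ℝ := (p.re - q.re) / det p q

lemma cis_ne (φ : ℝ) : cis φ ≠ 0 := by
  intro h
  have := norm_cis φ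
  rw [h] at this
  simp at this

lemma side {p q : ℂ} {α β φ0 r0 : ℝ} (hp : ∀ φ ∈ Ioo α β, ∀ r, 0 < r → p ≠ pol r φ)
    (hq : ∀ φ ∈ Ioo α β, ∀ r, 0 < r → q ≠ pol r φ) (h0 : φ0 ∈ Ioo α β) (hr0 : 0 < r0)
    (hz : pol r0 φ0 ∈ segment ℝ p q) :
    ∀ φ ∈ Icc α β, 0 < ell (cA p q) (cB p q) φ ∧
      pol (1 / ell (cA p q) (cB p q) φ) φ ∈ segment ℝ p q ∧
      ∀ r, pol r φ ∈ segment ℝ p q → r * ell (cA p q) (cB p q) φ = 1 := by
  obtain ⟨s, t, hs, ht, hst, hz⟩ := hz
  have h1 : s * p.re + t * q.re = r0 * cos φ0 := by simpa using congrArg Complex.re hz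
  have h2 : s * p.im + t * q.im = r0 * sin φ0 := by simpa using congrArg Complex.im hz
  have hcs := sin_sq_add_cos_sq φ0
  have hd : det p q ≠ 0 := by
    intro hd
    rw [det] at hd
    have e1 : p.re * sin φ0 - p.im * cos φ0 = 0 := by
      refine mul_left_cancel₀ hr0.ne' ?_
      linear_combination (-p.re) * h2 + p.im * h1 + t * hd
    have e2 : q.re * sin φ0 - q.im * cos φ0 = 0 := by
      refine mul_left_cancel₀ hr0.ne' ?_
      linear_combination (-q.re) * h2 + q.im * h1 - s * hd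
    have p1 : p = pol (p.re * cos φ0 + p.im * sin φ0) φ0 := by
      apply Complex.ext <;> simp
      · linear_combination (-p.re) * hcs + sin φ0 * e1
      · linear_combination (-p.im) * hcs - cos φ0 * e1
    have q1 : q = pol (q.re * cos φ0 + q.im * sin φ0) φ0 := by
      apply Complex.ext <;> simp
      · linear_combination (-q.re) * hcs + sin φ0 * e2
      · linear_combination (-q.im) * hcs - cos φ0 * e2
    have p2 : p.re * cos φ0 + p.im * sin φ0 ≤ 0 := not_lt.1 fun h => hp φ0 h0 _ h p1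
    have q2 : q.re * cos φ0 + q.im * sin φ0 ≤ 0 := not_lt.1 fun h => hq φ0 h0 _ h q1
    have : s * (p.re * cos φ0 + p.im * sin φ0) + t * (q.re * cos φ0 + q.im * sin φ0) = r0 := by
      linear_combination cos φ0 * h1 + sin φ0 * h2 + r0 * hcs
    nlinarith [mul_nonneg hs (neg_nonneg.2 p2), mul_nonneg ht (neg_nonneg.2 q2)]
  set al : ℝ → ℝ := fun φ => (cos φ * q.im - sin φ * q.re) / det p q with hal
  set be : ℝ → ℝ := fun φ => (p.re * sin φ - p.im * cos φ) / det p q with hbe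
  have hdec : ∀ φ, cis φ = al φ • p + be φ • q := by
    intro φ
    apply Complex.ext <;>
      simp only [hal, hbe, cis_re, cis_im, Complex.add_re, Complex.add_im, Complex.smul_re,
        Complex.smul_im, smul_eq_mul] <;> field_simp <;> simp only [det] <;> ring
  have hell : ∀ φ, ell (cA p q) (cB p q) φ = al φ + be φ := by
    intro φ
    simp only [ell, cA, cB, hal, hbe]
    ring
  have hmin : ∀ φ ∈ Ioo α β, min (al φ) (be φ) ≠ 0 := by
    intro φ hφ h
    have a0 : 0 ≤ al φ := h ▸ min_le_left _ _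
    have b0 : 0 ≤ be φ := h ▸ min_le_right _ _
    have hc := hdec φ
    rcases min_eq_iff.1 h with ⟨h, -⟩ | ⟨h, -⟩
    · rw [h, zero_smul, zero_add] at hc
      have b1 : be φ ≠ 0 := fun h => cis_ne φ (by rw [hc, h, zero_smul])
      refine hq φ hφ (be φ)⁻¹ (inv_pos.2 (b0.lt_of_ne' b1)) ?_
      rw [pol_eq_smul, hc, smul_smul, inv_mul_cancel₀ b1, one_smul]
    · rw [h, zero_smul, add_zero] at hc
      have b1 : al φ ≠ 0 := fun h => cis_ne φ (by rw [hc, h, zero_smul])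
      refine hp φ hφ (al φ)⁻¹ (inv_pos.2 (a0.lt_of_ne' b1)) ?_
      rw [pol_eq_smul, hc, smul_smul, inv_mul_cancel₀ b1, one_smul]
  have hc : Continuous fun φ => min (al φ) (be φ) := by
    simp only [hal, hbe]; fun_prop
  have a0 : al φ0 = s / r0 := by
    simp only [hal]
    rw [div_eq_div_iff hd hr0.ne', det]
    linear_combination q.re * h2 - q.im * h1
  have b0 : be φ0 = t / r0 := by
    simp only [hbe]
    rw [div_eq_div_iff hd hr0.ne', det]
    linear_combination (-p.re) * h2 + p.im * h1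
  have m0 : 0 < min (al φ0) (be φ0) :=
    (le_min (a0 ▸ div_nonneg hs hr0.le) (b0 ▸ div_nonneg ht hr0.le)).lt_of_ne' (hmin φ0 h0)
  have m1 := pos_of_ne hc h0 m0 hmin
  have m2 : ∀ φ ∈ Icc α β, 0 ≤ min (al φ) (be φ) := by
    intro φ hφ
    rw [← closure_Ioo (h0.1.trans h0.2).ne] at hφ
    exact closure_minimal (fun y hy => (m1 y hy).le) (isClosed_le continuous_const hc) hφ
  intro φ hφ
  have a1 : 0 ≤ al φ := (m2 φ hφ).trans (min_le_left _ _)
  have b1 : 0 ≤ be φ := (m2 φ hφ).trans (min_le_right _ _)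
  have hpos : 0 < al φ + be φ := by
    refine (add_nonneg a1 b1).lt_of_ne' fun h => cis_ne φ ?_
    rw [hdec, show al φ = 0 by linarith, show be φ = 0 by linarith]
    simp
  refine ⟨hell φ ▸ hpos, ?_, ?_⟩
  · rw [hell]
    refine ⟨al φ / (al φ + be φ), be φ / (al φ + be φ), by positivity, by positivity,
      by field_simp, ?_⟩
    rw [pol_eq_smul, hdec, smul_add, smul_smul, smul_smul]
    congr 2 <;> ring
  · rintro r ⟨s', t', -, -, hst', hz'⟩
    have h1 : s' * p.re + t' * q.re = r * cos φ := by simpa using congrArg Complex.re hz'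
    have h2 : s' * p.im + t' * q.im = r * sin φ := by simpa using congrArg Complex.im hz'
    simp only [ell, cA, cB]
    field_simp
    rw [det]
    linear_combination (p.im - q.im) * h1 - (p.re - q.re) * h2 + (p.re * q.im - p.im * q.re) * hst'

lemma ray_meets {Ω : Set ℂ} (ho : IsOpen Ω) (hb : Bornology.IsBounded Ω) (h0 : (0 : ℂ) ∈ Ω)
    (φ : ℝ) : ∃ r, 0 < r ∧ pol r φ ∈ frontier Ω := by
  by_contra h
  push Not at h
  have hS : IsPreconnected ((fun r => pol r φ) '' Ici 0) :=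
    isPreconnected_Ici.image _ (by fun_prop)
  have := subset_of_miss ho hS ⟨0, ⟨0, self_mem_Ici, pol_zero φ⟩, h0⟩ (by
    rintro _ ⟨r, hr, rfl⟩
    rcases eq_or_lt_of_le (mem_Ici.1 hr) with rfl | hr
    · intro hf
      simp only [pol_zero] at hf
      exact hf.2 (by rwa [ho.interior_eq])
    · exact h r hr)
  obtain ⟨C, hC, hC'⟩ := hb.exists_pos_norm_lt
  have h1 := hC' _ (this ⟨C, hC.le, rfl⟩)
  rw [norm_pol, abs_of_pos hC] at h1
  exact lt_irrefl _ h1

lemma sector {N : ℕ} {v : Fin N → ℂ} {Ω : Set ℂ} (hP : IsPoly v Ω) (h0 : (0 : ℂ) ∈ Ω) {α β : ℝ}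
    (hlt : α < β) (hv : ∀ i, ∀ φ ∈ Ioo α β, ∀ r, 0 < r → v i ≠ pol r φ) :
    ∃ A B : ℝ, (∀ φ ∈ Icc α β, 0 < ell A B φ ∧ pol (1 / ell A B φ) φ ∈ frontier Ω) ∧
      ∀ φ ∈ Ioo α β, ∀ r, 0 ≤ r → r < 1 / ell A B φ → pol r φ ∈ Ω := by
  classical
  have hm : (α + β) / 2 ∈ Ioo α β := ⟨by linarith, by linarith⟩
  set m := (α + β) / 2
  let l : Fin N → ℝ → ℝ := fun i => ell (cA (v i) (v (finRotate N i))) (cB (v i) (v (finRotate N i)))
  let I : Finset (Fin N) :=
    Finset.univ.filter fun i => ∃ r, 0 < r ∧ pol r m ∈ segment ℝ (v i) (v (finRotate N i))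
  have hI : I.Nonempty := by
    obtain ⟨r, hr, h⟩ := ray_meets hP.isOpen hP.bdd h0 m
    rw [hP.front] at h
    obtain ⟨i, hi⟩ := mem_iUnion.1 h
    exact ⟨i, Finset.mem_filter.2 ⟨Finset.mem_univ _, r, hr, hi⟩⟩
  obtain ⟨i, hi, hmax⟩ := I.exists_max_image (fun i => l i m) hI
  obtain ⟨-, ri, hri, hi⟩ := Finset.mem_filter.1 hi
  have si := side (hv i) (hv _) hm hri hi
  refine ⟨_, _, fun φ hφ => ⟨(si φ hφ).1, hP.front ▸ mem_iUnion.2 ⟨i, (si φ hφ).2.1⟩⟩, ?_⟩
  intro φ hφ r hr hlt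
  have hS : IsPreconnected ((fun r => pol r φ) '' Icc 0 r) :=
    isPreconnected_Icc.image _ (by fun_prop)
  refine subset_of_miss hP.isOpen hS ⟨0, ⟨0, ⟨le_rfl, hr⟩, pol_zero φ⟩, h0⟩ ?_ ⟨r, ⟨hr, le_rfl⟩, rfl⟩
  rintro _ ⟨s, hs, rfl⟩ hf
  rcases eq_or_lt_of_le hs.1 with rfl | hs0
  · simp only [pol_zero] at hf
    exact hf.2 (by rwa [hP.isOpen.interior_eq])
  rw [hP.front] at hf
  obtain ⟨j, hj⟩ := mem_iUnion.1 hf
  have sj := side (hv j) (hv _) hφ hs0 hj
  have hmI := Ioo_subset_Icc_self hm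
  have hφI := Ioo_subset_Icc_self hφ
  have hjI : j ∈ I :=
    Finset.mem_filter.2 ⟨Finset.mem_univ _, _, one_div_pos.2 (sj m hmI).1, (sj m hmI).2.1⟩
  have hle : l j φ ≤ l i φ := by
    by_cases hij : i = j
    · rw [hij]
    have hne : ∀ y ∈ Ioo α β, l i y - l j y ≠ 0 := by
      intro y hy h
      have hyI := Ioo_subset_Icc_self hy
      have e : l j y = l i y := by linarith
      have h2 := (sj y hyI).2.1
      change pol (1 / l j y) y ∈ _ at h2
      rw [e] at h2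
      rcases hP.simple i j hij _ ⟨(si y hyI).2.1, h2⟩ with ⟨-, h3⟩ | ⟨-, h3⟩
      · exact hv j y hy _ (one_div_pos.2 (si y hyI).1) h3.symm
      · exact hv i y hy _ (one_div_pos.2 (si y hyI).1) h3.symm
    have := pos_of_ne (f := fun y => l i y - l j y) (by simp only [l]; fun_prop) hm
      ((sub_nonneg.2 (hmax j hjI)).lt_of_ne' (hne m hm)) hne φ hφ
    linarith
  have h1 : s * l j φ = 1 := (sj φ hφI).2.2 s hj
  have h2 : 0 < l i φ := (si φ hφI).1
  have h3 : r * l i φ < 1 := (lt_div_iff₀ h2).1 hlt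
  nlinarith [hs.2]

lemma arg_pol {r φ : ℝ} (hr : 0 < r) (hφ : φ ∈ Ioc (-π) π) : Complex.arg (pol r φ) = φ := by
  rw [pol, cis, Complex.exp_mul_I]
  simpa using Complex.arg_mul_cos_add_sin_mul_I hr hφ

/-- the cut directions -/
noncomputable def th {N : ℕ} (b : Fin N → ℝ) : ℕ → ℝ
  | 0 => -π
  | k + 1 => if h : k < N then b ⟨k, h⟩ else π

end Fan

/-- paper 7.1: the sectors between consecutive vertex directions -/
theorem fan {N : ℕ} {v : Fin N → ℂ} {Ω : Set ℂ} (hP : IsPoly v Ω) (h0 : (0 : ℂ) ∈ Ω)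
    (i0 : Fin N) (him : (v i0).im = 0) (hre : (v i0).re < 0) :
    ∃ θ A B : ℕ → ℝ, Monotone θ ∧ θ 0 = -π ∧ θ N = π ∧ ∀ k < N, θ k < θ (k + 1) →
      (∀ φ ∈ Icc (θ k) (θ (k + 1)), 0 < ell (A k) (B k) φ ∧
        pol (1 / ell (A k) (B k) φ) φ ∈ frontier Ω) ∧
      ∀ φ ∈ Ioo (θ k) (θ (k + 1)), ∀ r, 0 ≤ r → r < 1 / ell (A k) (B k) φ → pol r φ ∈ Ω := by
  let a : Fin N → ℝ := fun i => Complex.arg (v i)
  let σ := Tuple.sort a
  have hσ : Monotone (a ∘ σ) := Tuple.monotone_sort a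
  let θ : ℕ → ℝ := Fan.th (a ∘ σ)
  have θs : ∀ k (h : k < N), θ (k + 1) = a (σ ⟨k, h⟩) := fun k h => dif_pos h
  have θt : ∀ k, ¬ k < N → θ (k + 1) = π := fun k h => dif_neg h
  have hlo : ∀ k, -π ≤ θ k := by
    rintro (_ | k)
    · exact le_rfl
    · by_cases h : k < N
      · rw [θs k h]; exact (Complex.neg_pi_lt_arg _).le
      · rw [θt k h]; linarith [pi_pos]
  have hhi : ∀ k, θ k ≤ π := by
    rintro (_ | k)
    · change -π ≤ π; linarith [pi_pos]
    · by_cases h : k < N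
      · rw [θs k h]; exact Complex.arg_le_pi _
      · rw [θt k h]
  have hmono : Monotone θ := by
    refine monotone_nat_of_le_succ ?_
    rintro (_ | k)
    · exact hlo 1
    · by_cases h : k + 1 < N
      · rw [θs _ h, θs k (by omega)]
        exact hσ (Fin.mk_le_mk.2 (Nat.le_succ k))
      · rw [θt _ h]; exact hhi (k + 1)
  have hval : ∀ i, θ ((σ.symm i : ℕ) + 1) = a i := fun i => by
    rw [θs _ (σ.symm i).2]; simp
  have hN : θ N = π := by
    refine le_antisymm (hhi N) ?_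
    have h1 : a i0 = π := Complex.arg_eq_pi_iff.2 ⟨hre, him⟩
    rw [← h1, ← hval]
    exact hmono (σ.symm i0).2
  have key : ∀ k, ∃ A B : ℝ, θ k < θ (k + 1) →
      (∀ φ ∈ Icc (θ k) (θ (k + 1)), 0 < ell A B φ ∧ pol (1 / ell A B φ) φ ∈ frontier Ω) ∧
      ∀ φ ∈ Ioo (θ k) (θ (k + 1)), ∀ r, 0 ≤ r → r < 1 / ell A B φ → pol r φ ∈ Ω := by
    intro k
    rcases lt_or_ge (θ k) (θ (k + 1)) with hk | hk
    · obtain ⟨A, B, h⟩ := Fan.sector hP h0 hk (fun i φ hφ r hr h => by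
        have h1 : a i = φ := by
          change Complex.arg (v i) = φ
          rw [h, Fan.arg_pol hr ⟨(hlo k).trans_lt hφ.1, hφ.2.le.trans (hhi _)⟩]
        rw [← hval] at h1
        rcases le_or_gt ((σ.symm i : ℕ) + 1) k with h2 | h2
        · exact absurd (hmono h2) (by rw [h1]; exact not_le.2 hφ.1)
        · exact absurd (hmono h2) (by rw [h1]; exact not_le.2 hφ.2))
      exact ⟨A, B, fun _ => h⟩
    · exact ⟨0, 0, fun h => absurd h (not_lt.2 hk)⟩
  choose A B h using key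
  exact ⟨θ, A, B, hmono, rfl, hN, fun k _ => h k⟩

end Pool.Agent.PSz
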