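import Pool.Agent.P.MP_7b7370_an.Tri0

/-! The first mixed eigenvalue of the reference triangle and an almost minimiser. -/

set_option autoImplicit false

namespace Pool.Agent.PSz

open Real Set MeasureTheory intervalIntegral

namespace Ref1

/-- linear combination -/
def lin (α : ℝ) (u : P2 → ℝ) (β : ℝ) (v : P2 → ℝ) : P2 → ℝ := fun p => α * u p + β * v p

/-- reflection -/
def refl (u : P2 → ℝ) : P2 → ℝ := fun p => u (p.1, -p.2)

variable {a t α β : ℝ} {u v w z : P2 → ℝ}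

lemma contDiff_lin (hu : ContDiff ℝ 1 u) (hv : ContDiff ℝ 1 v) : ContDiff ℝ 1 (lin α u β v) := by
  unfold lin; fun_prop

lemma contDiff_refl (hu : ContDiff ℝ 1 u) : ContDiff ℝ 1 (refl u) := by
  unfold refl; fun_prop

lemma px_lin (hu : ContDiff ℝ 1 u) (hv : ContDiff ℝ 1 v) (x y : ℝ) :
    px (lin α u β v) (x, y) = α * px u (x, y) + β * px v (x, y) :=
  px_eq (contDiff_lin hu hv)
    (((hasDerivAt_px hu x y).const_mul α).add ((hasDerivAt_px hv x y).const_mul β))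

lemma py_lin (hu : ContDiff ℝ 1 u) (hv : ContDiff ℝ 1 v) (x y : ℝ) :
    py (lin α u β v) (x, y) = α * py u (x, y) + β * py v (x, y) :=
  py_eq (contDiff_lin hu hv)
    (((hasDerivAt_py hu x y).const_mul α).add ((hasDerivAt_py hv x y).const_mul β))

lemma px_refl (hu : ContDiff ℝ 1 u) (x y : ℝ) : px (refl u) (x, y) = px u (x, -y) :=
  px_eq (contDiff_refl hu) (hasDerivAt_px hu x (-y))

lemma py_refl (hu : ContDiff ℝ 1 u) (x y : ℝ) : py (refl u) (x, y) = -py u (x, -y) := by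
  refine py_eq (contDiff_refl hu) ?_
  have := hasDerivAt_curve hu (hasDerivAt_const y x) (hasDerivAt_neg y)
  refine this.congr_deriv ?_
  simp

lemma cont_w (hw : ContDiff ℝ 1 w) : Cont fun x η => w (x, x * η) := by
  have := hw.continuous
  unfold Cont; fun_prop

lemma cont_px (hw : ContDiff ℝ 1 w) : Cont fun x η => px w (x, x * η) := by
  have := continuous_px hw
  unfold Cont; fun_prop

lemma cont_py (hw : ContDiff ℝ 1 w) : Cont fun x η => py w (x, x * η) := by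
  have := continuous_py hw
  unfold Cont; fun_prop

lemma cont_B (hw : ContDiff ℝ 1 w) (hz : ContDiff ℝ 1 z) :
    Cont fun x η => sg a * (px w (x, x * η) * px z (x, x * η))
      + py w (x, x * η) * py z (x, x * η) / sg a - t * a * (w (x, x * η) * z (x, x * η)) :=
  ((continuous_const.mul ((cont_px hw).mul (cont_px hz))).add
    (((cont_py hw).mul (cont_py hz)).div_const _)).sub
    (continuous_const.mul ((cont_w hw).mul (cont_w hz)))

lemma cont_D (hw : ContDiff ℝ 1 w) :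
    Cont fun x η => sg a * px w (x, x * η) ^ 2 + py w (x, x * η) ^ 2 / sg a :=
  (continuous_const.mul ((cont_px hw).pow 2)).add (((cont_py hw).pow 2).div_const _)

lemma B0_comm : B0 a t w z = B0 a t z w := by
  unfold B0; congr 1; funext x η; ring

lemma B0_lin (hu : ContDiff ℝ 1 u) (hv : ContDiff ℝ 1 v) (hz : ContDiff ℝ 1 z) :
    B0 a t (lin α u β v) z = α * B0 a t u z + β * B0 a t v z := by
  unfold B0
  rw [← T_const_mul, ← T_const_mul,
    ← T_add (continuous_const.mul (cont_B hu hz)) (continuous_const.mul (cont_B hv hz))]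
  congr 1; funext x η
  rw [px_lin hu hv, py_lin hu hv]
  simp only [lin]
  ring

lemma B0_self (hw : ContDiff ℝ 1 w) : B0 a t w w = D0 a 0 1 w - t * M0 a 0 1 w := by
  unfold B0 D0 M0
  rw [← mul_assoc, ← T_const_mul,
    ← T_sub (cont_D hw) (continuous_const.mul ((cont_w hw).pow 2))]
  congr 1; funext x η; ring

lemma Q_lin (hu : ContDiff ℝ 1 u) (hv : ContDiff ℝ 1 v) :
    B0 a t (lin α u β v) (lin α u β v) =
      α ^ 2 * B0 a t u u + 2 * α * β * B0 a t u v + β ^ 2 * B0 a t v v := by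
  rw [B0_lin hu hv (contDiff_lin hu hv), B0_comm (w := u), B0_comm (w := v),
    B0_lin hu hv hu, B0_lin hu hv hv, B0_comm (w := v) (z := u)]
  ring

lemma Q_refl (hu : ContDiff ℝ 1 u) : B0 a t (refl u) (refl u) = B0 a t u u := by
  unfold B0
  rw [← T_neg_arg]
  congr 1; funext x η
  rw [px_refl hu, py_refl hu]
  simp only [refl, mul_neg, neg_neg]
  ring

lemma T_lin (hu : ContDiff ℝ 1 u) (hv : ContDiff ℝ 1 v) :
    T 0 1 (fun x η => lin α u β v (x, x * η)) =
      α * T 0 1 (fun x η => u (x, x * η)) + β * T 0 1 (fun x η => v (x, x * η)) := by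
  rw [← T_const_mul, ← T_const_mul,
    ← T_add (continuous_const.mul (cont_w hu)) (continuous_const.mul (cont_w hv))]
  rfl

lemma T_refl : T 0 1 (fun x η => refl u (x, x * η)) = T 0 1 (fun x η => u (x, x * η)) := by
  rw [← T_neg_arg]
  simp only [refl, mul_neg, neg_neg]

lemma D0_nonneg (h0 : 0 < a) (h1 : a ≤ 1 / 1000) (hw : ContDiff ℝ 1 w) : 0 ≤ D0 a 0 1 w := by
  have := sg_pos h0 h1
  exact T_nonneg (cont_D hw) le_rfl zero_le_one fun x _ η _ => by positivity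

lemma Tsq_nonneg (hw : ContDiff ℝ 1 w) : 0 ≤ T 0 1 fun x η => w (x, x * η) ^ 2 :=
  T_nonneg ((cont_w hw).pow 2) le_rfl zero_le_one fun x _ η _ => by positivity

lemma M0_nonneg (h0 : 0 < a) (hw : ContDiff ℝ 1 w) : 0 ≤ M0 a 0 1 w :=
  mul_nonneg h0.le (Tsq_nonneg hw)

lemma py_le (h0 : 0 < a) (h1 : a ≤ 1 / 1000) (hw : ContDiff ℝ 1 w) :
    T 0 1 (fun x η => py w (x, x * η) ^ 2) ≤ sg a * D0 a 0 1 w := by
  have hs := sg_pos h0 h1
  unfold D0
  rw [← T_const_mul]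
  refine T_mono ((cont_py hw).pow 2) (continuous_const.mul (cont_D hw)) le_rfl zero_le_one
    fun x _ η _ => ?_
  have : sg a * (sg a * px w (x, x * η) ^ 2 + py w (x, x * η) ^ 2 / sg a) =
      (sg a * px w (x, x * η)) ^ 2 + py w (x, x * η) ^ 2 := by field_simp
  rw [this]; nlinarith [sq_nonneg (sg a * px w (x, x * η))]

/-- a function of `x` only sees the average -/
lemma T_mul_avg (hw : ContDiff ℝ 1 w) {g : ℝ → ℝ} (hg : Continuous g) :
    T 0 1 (fun x η => g x * w (x, x * η)) = T 0 1 (fun x _ => g x * avg w x) := by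
  have hc : Cont fun x η => g x * w (x, x * η) := (hg.comp continuous_fst).mul (cont_w hw)
  rw [T_swap hc, T_radial, ← intervalIntegral.integral_const_mul]
  congr 1; funext x
  rw [intervalIntegral.integral_const_mul]
  unfold avg; ring

/-- splitting of the mass -/
lemma Tsq_le (h0 : 0 < a) (h1 : a ≤ 1 / 1000) (hw : ContDiff ℝ 1 w) :
    T 0 1 (fun x η => w (x, x * η) ^ 2) ≤
      T 0 1 (fun x _ => avg w x ^ 2) + 4 * sg a * D0 a 0 1 w := by
  obtain ⟨Γ, hΓ, e, hb⟩ := exists_dev hw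
  have hm : Continuous (avg w) := (contDiff_avg hw).continuous
  have cm : Cont fun x _ => avg w x := hm.comp continuous_fst
  have h2 := T_mul_avg hw hm
  have h3 : T 0 1 (fun x η => w (x, x * η) ^ 2) ≤ T 0 1 (fun x η =>
      (2 * (avg w x * w (x, x * η)) - avg w x * avg w x) + Γ x η ^ 2) := by
    refine T_mono ((cont_w hw).pow 2)
      (((continuous_const.mul (cm.mul (cont_w hw))).sub (cm.mul cm)).add (hΓ.pow 2))
      le_rfl zero_le_one fun x hx η _ => ?_
    have hx2 : x ^ 2 ≤ 1 := by nlinarith [hx.1, hx.2]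
    have := e x η
    have h4 : (w (x, x * η) - avg w x) ^ 2 ≤ Γ x η ^ 2 := by
      rw [this, mul_pow]; nlinarith [sq_nonneg (Γ x η)]
    nlinarith
  rw [T_add ((continuous_const.mul (cm.mul (cont_w hw))).sub (cm.mul cm)) (hΓ.pow 2),
    T_sub (continuous_const.mul (cm.mul (cont_w hw))) (cm.mul cm), T_const_mul, h2] at h3
  have h5 := hb 1 zero_le_one
  have h6 := py_le h0 h1 hw
  simp only [← sq] at h3
  linarith

/-- the mass of a function vanishing on the side -/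
lemma mass_le (h0 : 0 < a) (h1 : a ≤ 1 / 1000) (hw : ContDiff ℝ 1 w)
    (hb : ∀ y, |y| ≤ 1 → w (1, y) = 0) :
    j2 * (1 - 25 * a ^ 2) * M0 a 0 1 w ≤ D0 a 0 1 w := by
  have hs := sg_pos h0 h1
  have hm1 : avg w 1 = 0 := by
    unfold avg
    rw [integral_congr (g := fun _ => (0 : ℝ)) fun η hη => ?_]
    · simp
    · rw [uIcc_of_le (by norm_num)] at hη
      simpa using hb η (abs_le.2 hη)
  have h2 := poincare_j (hasDerivAt_avg hw) (continuous_davg hw) hm1
  have h3 := davg_le h0 h1 hw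
  have h4 := Tsq_le h0 h1 hw
  rw [T_radial] at h3 h4
  have hD := D0_nonneg h0 h1 hw
  have hT := Tsq_nonneg hw
  unfold M0
  set D := D0 a 0 1 w
  set Tw := T 0 1 (fun x η => w (x, x * η) ^ 2)
  set I := ∫ r in (0 : ℝ)..1, avg w r ^ 2 * r
  set J := ∫ r in (0 : ℝ)..1, davg w r ^ 2 * r
  have hj := j2_gt
  have hj' := j2_lt
  have hsa := sg_ge h0 h1
  have hsb := sg_le h0 h1
  have hs2 : sg a ^ 2 ≤ 1.003 * a ^ 2 := by nlinarith
  have h5 : j2 * sg a * Tw ≤ (1 + 25 * a ^ 2) * D := by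
    have e1 : j2 * sg a * Tw ≤ j2 * sg a * (2 * I + 4 * sg a * D) :=
      mul_le_mul_of_nonneg_left h4 (by positivity)
    have e2 : sg a * (2 * (j2 * I)) ≤ sg a * (2 * J) := by gcongr
    have e3 : (1 + 4 * j2) * sg a ^ 2 * D ≤ 25 * a ^ 2 * D := by
      gcongr ?_ * D
      nlinarith [sq_nonneg (sg a)]
    nlinarith
  have h6 : j2 * a * Tw ≤ j2 * sg a * Tw := by gcongr
  have h7 : 0 ≤ 1 - 25 * a ^ 2 := by nlinarith
  have h8 : (1 - 25 * a ^ 2) * (j2 * a * Tw) ≤ (1 - 25 * a ^ 2) * ((1 + 25 * a ^ 2) * D) :=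
    mul_le_mul_of_nonneg_left (h6.trans h5) h7
  nlinarith [mul_nonneg (sq_nonneg (25 * a ^ 2)) hD]

/-- the mass is controlled by the mean and the energy -/
lemma mass_le_mean (h0 : 0 < a) (h1 : a ≤ 1 / 1000) (hw : ContDiff ℝ 1 w) :
    sg a * T 0 1 (fun x η => w (x, x * η) ^ 2) ≤
      sg a * T 0 1 (fun x η => w (x, x * η)) ^ 2 + 0.16668 * D0 a 0 1 w := by
  have hs := sg_pos h0 h1
  have hm : Continuous (avg w) := (contDiff_avg hw).continuous
  set μ := T 0 1 (fun x η => w (x, x * η)) with hμ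
  have h1' := T_mul_avg hw (g := fun _ => 1) continuous_const
  simp only [one_mul] at h1'
  rw [← hμ, T_radial] at h1'
  have i1 : IntervalIntegrable (fun r => avg w r * r) volume 0 1 :=
    (hm.mul continuous_id).intervalIntegrable _ _
  have i2 : IntervalIntegrable (fun r => avg w r ^ 2 * r) volume 0 1 :=
    ((hm.pow 2).mul continuous_id).intervalIntegrable _ _
  have i3 : ∀ c : ℝ, IntervalIntegrable (fun r : ℝ => c * r) volume 0 1 := fun c =>
    (continuous_const.mul continuous_id).intervalIntegrable _ _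
  have hz : ∫ r in (0 : ℝ)..1, (avg w r - μ) * r = 0 := by
    simp only [sub_mul]
    rw [integral_sub i1 (i3 μ), intervalIntegral.integral_const_mul, integral_id]
    linarith
  have h2 := poincare0 one_pos le_rfl (fun r => (hasDerivAt_avg hw r).sub_const μ)
    (continuous_davg hw) hz
  have h2' : ∫ r in (0 : ℝ)..1, (avg w r - μ) ^ 2 * r =
      (∫ r in (0 : ℝ)..1, avg w r ^ 2 * r) - μ ^ 2 / 2 := by
    have : (fun r => (avg w r - μ) ^ 2 * r) =
        fun r => (avg w r ^ 2 * r - (2 * μ) * (avg w r * r)) + μ ^ 2 * r := by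
      funext r; ring
    rw [this, integral_add (i2.sub (i1.const_mul _)) (i3 _), integral_sub i2 (i1.const_mul _),
      intervalIntegral.integral_const_mul, intervalIntegral.integral_const_mul, integral_id]
    linear_combination μ * h1'
  rw [h2'] at h2
  have h3 := davg_le h0 h1 hw
  have h4 := Tsq_le h0 h1 hw
  rw [T_radial] at h3 h4
  have hD := D0_nonneg h0 h1 hw
  set D := D0 a 0 1 w
  set Tw := T 0 1 (fun x η => w (x, x * η) ^ 2)
  set I := ∫ r in (0 : ℝ)..1, avg w r ^ 2 * r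
  set J := ∫ r in (0 : ℝ)..1, davg w r ^ 2 * r
  have hsb := sg_le h0 h1
  have hs2 : sg a ^ 2 ≤ 1.003 / 1000000 := by nlinarith
  have e1 : sg a * Tw ≤ sg a * (2 * I + 4 * sg a * D) := mul_le_mul_of_nonneg_left h4 hs.le
  have e2 : sg a * (6 * (I - μ ^ 2 / 2)) ≤ sg a * J := mul_le_mul_of_nonneg_left h2 hs.le
  have e3 : sg a ^ 2 * D ≤ 1.003 / 1000000 * D := mul_le_mul_of_nonneg_right hs2 hD
  nlinarith

/-- the radial solution in the coordinates of the triangle -/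
noncomputable def phi0 (a t : ℝ) : P2 → ℝ := fun p => F0 t (X2 a * p.1 ^ 2 + om a * p.2 ^ 2)

lemma contDiff_phi0 : ContDiff ℝ 1 (phi0 a t) := (contDiff_F0 t).comp (by fun_prop)

lemma px_phi0 (x y : ℝ) :
    px (phi0 a t) (x, y) = F1 t (X2 a * x ^ 2 + om a * y ^ 2) * (X2 a * (2 * x)) := by
  refine px_eq contDiff_phi0 ?_
  have := (hasDerivAt_F0 t (X2 a * x ^ 2 + om a * y ^ 2)).comp x
    (((hasDerivAt_pow 2 x).const_mul (X2 a)).add_const (om a * y ^ 2))
  refine this.congr_deriv ?_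
  simp

lemma py_phi0 (x y : ℝ) :
    py (phi0 a t) (x, y) = F1 t (X2 a * x ^ 2 + om a * y ^ 2) * (om a * (2 * y)) := by
  refine py_eq contDiff_phi0 ?_
  have := (hasDerivAt_F0 t (X2 a * x ^ 2 + om a * y ^ 2)).comp y
    (((hasDerivAt_pow 2 y).const_mul (om a)).const_add (X2 a * x ^ 2))
  refine this.congr_deriv ?_
  simp

lemma arg_eq (x η : ℝ) : X2 a * x ^ 2 + om a * (x * η) ^ 2 = x ^ 2 * q0 a η := by
  unfold q0; ring

lemma phi0_one (y : ℝ) : phi0 a t (1, y) = F0 t (q0 a y) := by simp [phi0, q0]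

/-- Green's formula for the radial solution -/
lemma B0_phi0 (h0 : 0 < a) (h1 : a ≤ 1 / 1000) (hz : ContDiff ℝ 1 z) :
    B0 a t (phi0 a t) z = a * ∫ η in (-1 : ℝ)..1, 2 * F1 t (q0 a η) * z (1, η) := by
  have hs := (sg_pos h0 h1).ne'
  have hX := X2_mul_sg h0 h1
  unfold B0 T
  rw [← intervalIntegral.integral_const_mul]
  congr 1; funext η
  have hd : ∀ x : ℝ, HasDerivAt
      (fun x => a * (2 * x ^ 2 * F1 t (x ^ 2 * q0 a η) * z (x, x * η)))
      ((sg a * (px (phi0 a t) (x, x * η) * px z (x, x * η))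
        + py (phi0 a t) (x, x * η) * py z (x, x * η) / sg a
        - t * a * (phi0 a t (x, x * η) * z (x, x * η))) * x) x := by
    intro x
    have d1 := (hasDerivAt_F1 t (x ^ 2 * q0 a η)).comp x
      ((hasDerivAt_pow 2 x).mul_const (q0 a η))
    have d2 := hasDerivAt_curve hz (hasDerivAt_id x) ((hasDerivAt_id x).mul_const η)
    have := ((((hasDerivAt_pow 2 x).const_mul 2).fun_mul d1).fun_mul d2).const_mul a
    refine this.congr_deriv ?_
    rw [px_phi0, py_phi0]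
    simp only [phi0, arg_eq, id, Function.comp]
    rw [om_eq]
    have ho := ode t (x ^ 2 * q0 a η)
    have e : F1 t (x ^ 2 * q0 a η) * (a * sg a * (2 * (x * η))) * py z (x, x * η) / sg a =
        F1 t (x ^ 2 * q0 a η) * (a * (2 * (x * η))) * py z (x, x * η) := by field_simp
    rw [e]
    norm_num
    linear_combination (a * x * z (x, x * η)) * ho
      - (2 * x ^ 2 * F1 t (x ^ 2 * q0 a η) * px z (x, x * η)) * hX
  rw [integral_eq_sub_of_hasDerivAt (fun x _ => hd x)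
    ((cont_B (a := a) (t := t) contDiff_phi0 hz).ii η 0 1)]
  simp

lemma B0_phi0_zero (h0 : 0 < a) (h1 : a ≤ 1 / 1000) (hz : ContDiff ℝ 1 z)
    (hb : ∀ y, |y| ≤ 1 → z (1, y) = 0) : B0 a t (phi0 a t) z = 0 := by
  rw [B0_phi0 h0 h1 hz, integral_congr (g := fun _ => (0 : ℝ)) fun η hη => ?_]
  · simp
  · rw [uIcc_of_le (by norm_num)] at hη
    simp [hb η (abs_le.2 hη)]

lemma B0_phi0_bdry (h0 : 0 < a) (h1 : a ≤ 1 / 1000) (hz : ContDiff ℝ 1 z)
    (hb : ∀ y, z (1, y) = F0 t (q0 a y)) :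
    B0 a t (phi0 a t) z = 2 * a * Gt t 1 - a * Fz a t := by
  rw [B0_phi0 h0 h1 hz]
  have hq := fun η => (q0_pos h0 h1 η).ne'
  have c1 : Continuous fun η => 1 / q0 a η := continuous_const.div (continuous_q0 a) hq
  have c2 : Continuous fun η => ft t (q0 a η) / q0 a η :=
    ((continuous_ft t).comp (continuous_q0 a)).div (continuous_q0 a) hq
  have e : (fun η => 2 * F1 t (q0 a η) * z (1, η)) = fun η =>
      ((Gt t 1 - Gt1 t 1) * (1 / q0 a η) + Gt1 t 1) - ft t (q0 a η) / q0 a η := by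
    funext η
    have := hq η
    rw [hb]
    unfold ft
    rw [show Gt t (q0 a η) = 2 * q0 a η * F0 t (q0 a η) * F1 t (q0 a η) from rfl]
    field_simp
    ring
  have c3 : Continuous fun η => (Gt t 1 - Gt1 t 1) * (1 / q0 a η) := continuous_const.mul c1
  have c4 : Continuous fun η => (Gt t 1 - Gt1 t 1) * (1 / q0 a η) + Gt1 t 1 :=
    c3.add continuous_const
  rw [e, integral_sub (c4.intervalIntegrable _ _) (c2.intervalIntegrable _ _),
    integral_add (c3.intervalIntegrable _ _) (continuous_const.intervalIntegrable _ _),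
    intervalIntegral.integral_const_mul,
    integral_inv_q0 h0 h1]
  unfold Fz
  simp
  ring

/-- the radial test function -/
noncomputable def wr : P2 → ℝ := fun p => F0 j2 (p.1 ^ 2)

lemma contDiff_wr : ContDiff ℝ 1 wr := (contDiff_F0 j2).comp (by fun_prop)

lemma wr_one (y : ℝ) : wr (1, y) = 0 := F0_eq_zero (by simp)

lemma wr_pos : 0 < ∫ x in (0 : ℝ)..1, F0 j2 (x ^ 2) ^ 2 * x := by
  refine intervalIntegral_pos_of_pos_on (Continuous.intervalIntegrable (by fun_prop) _ _)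
    (fun x hx => ?_) one_pos
  have hj := j2_gt
  have hx2 : x ^ 2 < 1 := by nlinarith [hx.1, hx.2]
  have := F0_pos (t := j2) (q := x ^ 2) (by positivity) (by nlinarith)
  have := hx.1
  positivity

lemma M0_wr : M0 a 0 1 wr = a * (2 * ∫ x in (0 : ℝ)..1, F0 j2 (x ^ 2) ^ 2 * x) := by
  unfold M0; rw [← T_radial]; rfl

lemma D0_wr : D0 a 0 1 wr = sg a * j2 * (2 * ∫ x in (0 : ℝ)..1, F0 j2 (x ^ 2) ^ 2 * x) := by
  have e1 : ∀ x y : ℝ, px wr (x, y) = F1 j2 (x ^ 2) * (2 * x) := fun x y => by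
    refine px_eq contDiff_wr ?_
    have := (hasDerivAt_F0 j2 (x ^ 2)).comp x (hasDerivAt_pow 2 x)
    refine this.congr_deriv ?_
    simp
  have e2 : ∀ x y : ℝ, py wr (x, y) = 0 := fun x y =>
    py_eq contDiff_wr (hasDerivAt_const y (F0 j2 (x ^ 2)))
  have hd : ∀ x : ℝ, HasDerivAt (fun x => Gt j2 (x ^ 2))
      ((F1 j2 (x ^ 2) * (2 * x)) ^ 2 * x - j2 * (F0 j2 (x ^ 2) ^ 2 * x)) x := fun x => by
    have := (hasDerivAt_Gt j2 (x ^ 2)).comp x (hasDerivAt_pow 2 x)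
    refine this.congr_deriv ?_
    simp only [Gt1]
    norm_num
    ring
  have h := integral_eq_sub_of_hasDerivAt (a := 0) (b := 1) (fun x _ => hd x)
    (Continuous.intervalIntegrable (by fun_prop) _ _)
  rw [integral_sub (Continuous.intervalIntegrable (by fun_prop) _ _)
    (Continuous.intervalIntegrable (by fun_prop) _ _), intervalIntegral.integral_const_mul] at h
  have g1 : Gt j2 (1 ^ 2) = 0 := by
    unfold Gt; rw [F0_eq_zero (by simp)]; simp
  have g0 : Gt j2 (0 ^ 2) = 0 := by unfold Gt; simp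
  rw [g1, g0] at h
  unfold D0
  simp only [e1, e2, ne_eq, OfNat.ofNat_ne_zero, not_false_eq_true, zero_pow, zero_div, add_zero]
  rw [T_const_mul, T_radial]
  linear_combination (2 * sg a) * h

/-- the set of Rayleigh quotients -/
def S (a : ℝ) : Set ℝ :=
  {q | ∃ w : P2 → ℝ, ContDiff ℝ 1 w ∧ (∀ y, |y| ≤ 1 → w (1, y) = 0) ∧ 0 < M0 a 0 1 w ∧
    q = D0 a 0 1 w / M0 a 0 1 w}

lemma tt_eq : tt a = sInf (S a) := rfl

lemma M0_wr_pos (h0 : 0 < a) : 0 < M0 a 0 1 wr := by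
  have := wr_pos
  rw [M0_wr]; positivity

lemma wr_mem (h0 : 0 < a) : D0 a 0 1 wr / M0 a 0 1 wr ∈ S a :=
  ⟨wr, contDiff_wr, fun y _ => wr_one y, M0_wr_pos h0, rfl⟩

lemma S_lb (h0 : 0 < a) (h1 : a ≤ 1 / 1000) : j2 * (1 - 25 * a ^ 2) ∈ lowerBounds (S a) := by
  rintro q ⟨w, hw, hb, hM, rfl⟩
  rw [le_div_iff₀ hM]
  exact mass_le h0 h1 hw hb

lemma Q_nonneg (h0 : 0 < a) (h1 : a ≤ 1 / 1000) (hw : ContDiff ℝ 1 w)
    (hb : ∀ y, |y| ≤ 1 → w (1, y) = 0) : 0 ≤ B0 a (tt a) w w := by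
  rw [B0_self hw]
  rcases (M0_nonneg h0 hw).eq_or_lt with h | h
  · rw [← h]; simpa using D0_nonneg h0 h1 hw
  · have : tt a ≤ D0 a 0 1 w / M0 a 0 1 w := csInf_le ⟨_, S_lb h0 h1⟩ ⟨w, hw, hb, h, rfl⟩
    rw [le_div_iff₀ h] at this
    linarith

end Ref1

open Ref1

/-- paper 11.1 -/
theorem tt_bounds {a : ℝ} (h0 : 0 < a) (h1 : a ≤ 1 / 1000) :
    j2 * (1 - 25 * a ^ 2) ≤ tt a ∧ tt a * X2 a ≤ j2 := by
  refine ⟨le_csInf ⟨_, wr_mem h0⟩ (S_lb h0 h1), ?_⟩
  have h : tt a ≤ D0 a 0 1 wr / M0 a 0 1 wr := csInf_le ⟨_, S_lb h0 h1⟩ (wr_mem h0)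
  have hp := wr_pos
  have hs := sg_pos h0 h1
  rw [D0_wr, M0_wr, mul_div_mul_right _ _ (by positivity), le_div_iff₀ h0] at h
  have hX := X2_mul_sg h0 h1
  have : tt a * X2 a * sg a ≤ j2 * sg a := by rw [mul_assoc, hX]; linarith
  exact le_of_mul_le_mul_right this hs

/-- paper 11.1 -/
theorem tt_approx {a : ℝ} (h0 : 0 < a) (h1 : a ≤ 1 / 1000) {τ : ℝ} (hτ : tt a < τ) :
    ∃ w : P2 → ℝ, ContDiff ℝ 1 w ∧ (∀ y, |y| ≤ 1 → w (1, y) = 0) ∧
      D0 a 0 1 w < τ * M0 a 0 1 w := by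
  have _ := h1
  obtain ⟨q, ⟨w, hw, hb, hM, rfl⟩, hq⟩ := exists_lt_of_csInf_lt ⟨_, wr_mem h0⟩ hτ
  exact ⟨w, hw, hb, (div_lt_iff₀ hM).1 hq⟩

namespace Ref1

variable {a t : ℝ} {u v w z : P2 → ℝ}

lemma tt_near (h0 : 0 < a) (h1 : a ≤ 1 / 1000) : |tt a - j2| ≤ 145 * a ^ 2 := by
  obtain ⟨b1, b2⟩ := tt_bounds h0 h1
  have hX := X2_ge h0 h1
  have hj := j2_gt
  have hj' := j2_lt
  have ha2 : a ^ 2 ≤ 1 / 1000000 := by nlinarith
  have ha0 : 0 < a ^ 2 := by positivity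
  have ht : 0 < tt a := by nlinarith
  have h2 : tt a * (1 - a ^ 2 / 2) ≤ j2 := (mul_le_mul_of_nonneg_left hX ht.le).trans b2
  have h3 : tt a ≤ 6 := by nlinarith
  rw [abs_le]; constructor <;> nlinarith

lemma tt_lo (h0 : 0 < a) (h1 : a ≤ 1 / 1000) : 5.7 ≤ tt a := by
  have := abs_le.1 (tt_near h0 h1)
  have := j2_gt
  nlinarith

lemma tt_hi (h0 : 0 < a) (h1 : a ≤ 1 / 1000) : tt a ≤ 5.8 := by
  have := abs_le.1 (tt_near h0 h1)
  have := j2_lt
  nlinarith

lemma F_one (h0 : 0 < a) (h1 : a ≤ 1 / 1000) : |F0 (tt a) 1| ≤ 300 * a ^ 2 := by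
  have hlo := tt_lo h0 h1
  have hhi := tt_hi h0 h1
  have := abs_sub_le_of_deriv (a := 0) (b := 6) (C := 1.85) (x := j2) (y := tt a)
    (hasDerivAt_F0 1) (fun q hq => ?_) ⟨by linarith [j2_gt], by linarith [j2_lt]⟩
    ⟨by linarith, by linarith⟩
  · rw [F0_j2, sub_zero] at this
    rw [F0_scale, mul_one]
    have := tt_near h0 h1
    nlinarith [sq_nonneg a]
  · have h := abs_PS_le P.MP_342f9e_an.small_c1 (z := -(1 * q) / 4)
      (abs_le.2 ⟨by linarith [hq.2], by linarith [hq.1]⟩)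
    unfold F1
    rw [abs_mul, abs_neg, abs_of_nonneg (by norm_num)]
    linarith

lemma Fz_le (h0 : 0 < a) (h1 : a ≤ 1 / 1000) : Fz a (tt a) ≤ 11000 * a ^ 4 := by
  have hq := fun η => (q0_pos h0 h1 η).ne'
  have c2 : Continuous fun η => ft (tt a) (q0 a η) / q0 a η :=
    ((continuous_ft _).comp (continuous_q0 a)).div (continuous_q0 a) hq
  have ha2 : a ^ 2 ≤ 1 / 1000000 := by nlinarith
  have ha0 : 0 < a ^ 2 := by positivity
  have hF : |F0 (tt a) 1| ≤ 1 / 1000 := (F_one h0 h1).trans (by linarith)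
  have := integral_mono_on (by norm_num : (-1 : ℝ) ≤ 1) (c2.intervalIntegrable (μ := volume) _ _)
    ((continuous_const (y := 5500 * a ^ 4)).intervalIntegrable _ _) fun η hη => by
      have h2 := abs_q0_sub_one h0 h1 (abs_le.2 hη)
      have h3 := (ft_bounds (tt_lo h0 h1) (tt_hi h0 h1) hF (h2.trans (by linarith))).2
      have h4 := abs_le.1 h2
      have h5 : (q0 a η - 1) ^ 2 ≤ (1.001 * a ^ 2) ^ 2 := sq_le_sq' (by linarith) h4.2
      rw [div_le_iff₀ (q0_pos h0 h1 η)]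
      have h6 : 0.99 ≤ q0 a η := by linarith
      have h7 : 0 ≤ a ^ 4 := by positivity
      nlinarith
  unfold Fz
  simp only [intervalIntegral.integral_const, smul_eq_mul] at this
  linarith

/-- boundary layer competitor -/
noncomputable def lay (a t : ℝ) : P2 → ℝ := fun p => exp ((p.1 - 1) / sg a) * F0 t (q0 a p.2)

lemma contDiff_lay : ContDiff ℝ 1 (lay a t) := by
  have h1 : ContDiff ℝ 1 fun p : P2 => F0 t (q0 a p.2) :=
    ((contDiff_F0 t).comp (contDiff_q0 a)).comp contDiff_snd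
  have h2 : ContDiff ℝ 1 fun p : P2 => exp ((p.1 - 1) / sg a) := by fun_prop
  exact h2.mul h1

lemma lay_one (y : ℝ) : lay a t (1, y) = F0 t (q0 a y) := by simp [lay]

lemma D0_lay (h0 : 0 < a) (h1 : a ≤ 1 / 1000) : D0 a 0 1 (lay a (tt a)) ≤ 109000 * a ^ 4 := by
  have hs := sg_pos h0 h1
  have hlo := tt_lo h0 h1
  have hhi := tt_hi h0 h1
  set t := tt a with ht
  have hE : ∀ x : ℝ, HasDerivAt (fun x => exp ((x - 1) / sg a))
      (exp ((x - 1) / sg a) * (1 / sg a)) x := fun x =>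
    (((hasDerivAt_id x).sub_const 1).div_const (sg a)).exp
  have e1 : ∀ x y : ℝ, px (lay a t) (x, y) =
      exp ((x - 1) / sg a) * (1 / sg a) * F0 t (q0 a y) := fun x y =>
    px_eq contDiff_lay ((hE x).mul_const (F0 t (q0 a y)))
  have e2 : ∀ x y : ℝ, py (lay a t) (x, y) =
      exp ((x - 1) / sg a) * (F1 t (q0 a y) * (2 * om a * y)) := fun x y =>
    py_eq contDiff_lay (((hasDerivAt_F0 t _).comp y (hasDerivAt_q0 a y)).const_mul
      (exp ((x - 1) / sg a)))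
  have ha2 : a ^ 2 ≤ 1 / 1000000 := by nlinarith
  have ha0 : 0 < a ^ 2 := by positivity
  have cE : Continuous fun x : ℝ => exp ((x - 1) / sg a) ^ 2 / sg a := by fun_prop
  have h2 : D0 a 0 1 (lay a t) ≤
      T 0 1 fun x _ => 109000 * a ^ 4 * (exp ((x - 1) / sg a) ^ 2 / sg a) := by
    refine T_mono (cont_D contDiff_lay) (continuous_const.mul (cE.comp continuous_fst))
      le_rfl zero_le_one fun x hx η hη => ?_
    have hy : |x * η| ≤ 1 := by
      rw [abs_mul]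
      exact mul_le_one₀ (abs_le.2 ⟨by linarith [hx.1], hx.2.le⟩) (abs_nonneg _)
        (abs_le.2 ⟨hη.1.le, hη.2.le⟩)
    rw [e1, e2]
    set y := x * η
    have q1 := abs_q0_sub_one h0 h1 hy
    have q2 := abs_le.1 q1
    have f0 : |F0 t (q0 a y)| ≤ 326 * a ^ 2 := by
      have := abs_F0_near hlo hhi (q1.trans (by linarith))
      have := F_one h0 h1
      linarith
    have f1 : |F1 t (q0 a y)| ≤ 25 :=
      abs_F1_le (by linarith) (by linarith) (abs_le.2 ⟨by linarith, by linarith⟩)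
    have f2 : |F1 t (q0 a y) * (2 * om a * y)| ≤ 25 * (2 * (1.001 * a ^ 2) * 1) := by
      have : 0 ≤ om a := ha0.le.trans (om_ge h0 h1)
      rw [abs_mul, abs_mul, abs_of_nonneg (show 0 ≤ 2 * om a by linarith)]
      have := om_le h0 h1
      gcongr
    have g0 := sq_le_sq' (abs_le.1 f0).1 (abs_le.1 f0).2
    have g2 := sq_le_sq' (abs_le.1 f2).1 (abs_le.1 f2).2
    have e : sg a * (exp ((x - 1) / sg a) * (1 / sg a) * F0 t (q0 a y)) ^ 2 +
        (exp ((x - 1) / sg a) * (F1 t (q0 a y) * (2 * om a * y))) ^ 2 / sg a =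
        (F0 t (q0 a y) ^ 2 + (F1 t (q0 a y) * (2 * om a * y)) ^ 2) *
          (exp ((x - 1) / sg a) ^ 2 / sg a) := by field_simp
    rw [e]
    gcongr
    have : 0 ≤ a ^ 4 := by positivity
    nlinarith
  have hd : ∀ x : ℝ, HasDerivAt (fun x => x * exp ((x - 1) / sg a) ^ 2)
      (exp ((x - 1) / sg a) ^ 2 + 2 * (exp ((x - 1) / sg a) ^ 2 / sg a * x)) x := fun x => by
    have := (hasDerivAt_id x).fun_mul ((hE x).fun_pow 2)
    refine this.congr_deriv ?_
    simp only [id]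
    norm_num
    field_simp
  have h3 := integral_eq_sub_of_hasDerivAt (a := 0) (b := 1) (fun x _ => hd x)
    (Continuous.intervalIntegrable (by fun_prop) _ _)
  rw [integral_add (Continuous.intervalIntegrable (by fun_prop) _ _)
    (Continuous.intervalIntegrable (by fun_prop) _ _), intervalIntegral.integral_const_mul] at h3
  have h4 : 0 ≤ ∫ x in (0 : ℝ)..1, exp ((x - 1) / sg a) ^ 2 :=
    integral_nonneg zero_le_one fun x _ => by positivity
  rw [T_const_mul, T_radial] at h2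
  simp only [sub_self, zero_div, exp_zero, one_pow, mul_one, zero_mul, sub_zero] at h3
  have h5 : 0 ≤ a ^ 4 := by positivity
  nlinarith

lemma G_le (h0 : 0 < a) (h1 : a ≤ 1 / 1000) : Gt (tt a) 1 ≤ 10 ^ 5 * a ^ 3 := by
  have h2 := Q_nonneg h0 h1 (contDiff_lin (α := 1) (β := -1) (contDiff_phi0 (a := a) (t := tt a))
    (contDiff_lay (a := a) (t := tt a))) fun y _ => by simp [lin, phi0_one, lay_one]
  rw [Q_lin contDiff_phi0 contDiff_lay, B0_phi0_bdry h0 h1 contDiff_phi0 phi0_one,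
    B0_phi0_bdry h0 h1 contDiff_lay lay_one, B0_self contDiff_lay] at h2
  have h3 := D0_lay h0 h1
  have h4 := Fz_le h0 h1
  have h5 := mul_nonneg (show 0 ≤ tt a by linarith [tt_lo h0 h1])
    (M0_nonneg h0 (contDiff_lay (a := a) (t := tt a)))
  have h6 : a * Fz a (tt a) ≤ 11 * a ^ 4 := by
    have : 0 ≤ a ^ 4 := by positivity
    nlinarith
  have h7 : a * Gt (tt a) 1 ≤ a * (10 ^ 5 * a ^ 3) := by
    have : 0 ≤ a ^ 4 := by positivity
    nlinarith
  exact le_of_mul_le_mul_left h7 h0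

lemma T_phi0_sq (h0 : 0 < a) (h1 : a ≤ 1 / 1000) :
    T 0 1 (fun x η => phi0 a (tt a) (x, x * η)) ^ 2 ≤ 625 := by
  have hlo := tt_lo h0 h1
  have hhi := tt_hi h0 h1
  have ha2 : a ^ 2 ≤ 1 / 1000000 := by nlinarith
  have hb : ∀ x ∈ Ioo (0 : ℝ) 1, ∀ η ∈ Ioo (-1 : ℝ) 1, |phi0 a (tt a) (x, x * η)| ≤ 25 := by
    intro x hx η hη
    have q2 := abs_le.1 (abs_q0_sub_one h0 h1 (abs_le.2 ⟨hη.1.le, hη.2.le⟩))
    have hx2 : x ^ 2 ≤ 1 := by nlinarith [hx.1, hx.2]
    have hq := q0_pos h0 h1 η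
    simp only [phi0, arg_eq]
    refine abs_F0_le (by linarith) (by linarith) ?_
    rw [abs_of_nonneg (by positivity)]
    nlinarith
  have u1 := T_mono (cont_w (contDiff_phi0 (a := a) (t := tt a))) (Γ' := fun _ _ => 25)
    continuous_const le_rfl zero_le_one fun x hx η hη => (abs_le.1 (hb x hx η hη)).2
  have u2 := T_mono (Γ := fun _ _ => -25) continuous_const
    (cont_w (contDiff_phi0 (a := a) (t := tt a))) le_rfl zero_le_one
    fun x hx η hη => (abs_le.1 (hb x hx η hη)).1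
  rw [T_const] at u1 u2
  nlinarith

/-- an even almost minimiser with prescribed mean -/
lemma exists_near (h0 : 0 < a) (h1 : a ≤ 1 / 1000) {δ : ℝ} (hδ : 0 < δ) (hδ1 : δ ≤ 1 / 100)
    (c : ℝ) : ∃ u : P2 → ℝ, ContDiff ℝ 1 u ∧ (∀ y, |y| ≤ 1 → u (1, y) = 0) ∧
      (∀ x y, u (x, -y) = u (x, y)) ∧ T 0 1 (fun x η => u (x, x * η)) = c ∧
      B0 a (tt a) u u ≤ δ * c ^ 2 := by
  obtain ⟨w, hw, hb, hD⟩ := tt_approx h0 h1 (lt_add_of_pos_right (tt a) hδ)
  have hs := sg_pos h0 h1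
  have hr := contDiff_refl hw
  have hbr : ∀ y, |y| ≤ 1 → refl w (1, y) = 0 := fun y hy => hb (-y) (by rwa [abs_neg])
  have hP := mass_le_mean h0 h1 hw
  have hD0 := D0_nonneg h0 h1 hw
  have hT := Tsq_nonneg hw
  have hQ := B0_self (a := a) (t := tt a) hw
  have hX := X2_mul_sg h0 h1
  have hX1 := X2_le h0 h1
  have htX := (tt_bounds h0 h1).2
  have hj := j2_lt
  unfold M0 at hD hQ
  set μ := T 0 1 (fun x η => w (x, x * η)) with hμ
  set Tw := T 0 1 (fun x η => w (x, x * η) ^ 2)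
  have h2 : (tt a + δ) * a ≤ 5.8 * sg a := by
    have : (tt a + δ) * X2 a ≤ 5.8 := by nlinarith
    calc (tt a + δ) * a = (tt a + δ) * X2 a * sg a := by rw [mul_assoc, hX]
      _ ≤ 5.8 * sg a := mul_le_mul_of_nonneg_right this hs.le
  have h3 : D0 a 0 1 w < 5.8 * sg a * Tw := by
    calc D0 a 0 1 w < (tt a + δ) * a * Tw := by rw [mul_assoc]; exact hD
      _ ≤ 5.8 * sg a * Tw := mul_le_mul_of_nonneg_right h2 hT
  have h4 : sg a * Tw < sg a * (31 * μ ^ 2) := by nlinarith [mul_nonneg hs.le hT]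
  have h5 : Tw < 31 * μ ^ 2 := lt_of_mul_lt_mul_left h4 hs.le
  have hμ0 : μ ≠ 0 := by
    intro h; rw [h] at h5; nlinarith
  have h6 : B0 a (tt a) w w ≤ δ * μ ^ 2 := by
    have : a * Tw ≤ μ ^ 2 := by nlinarith [sq_nonneg μ]
    nlinarith
  refine ⟨lin (c / μ / 2) w (c / μ / 2) (refl w), contDiff_lin hw hr, fun y hy => ?_,
    fun x y => ?_, ?_, ?_⟩
  · simp [lin, hb y hy, hbr y hy]
  · simp [lin, refl, add_comm]
  · rw [T_lin hw hr, T_refl, ← hμ]; field_simp; ring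
  · have h7 := Q_nonneg h0 h1 (contDiff_lin (α := c / μ / 2) (β := -(c / μ / 2)) hw hr)
      fun y hy => by simp [lin, hb y hy, hbr y hy]
    rw [Q_lin hw hr, Q_refl hw] at h7 ⊢
    have h8 : (c / μ) ^ 2 * B0 a (tt a) w w ≤ (c / μ) ^ 2 * (δ * μ ^ 2) :=
      mul_le_mul_of_nonneg_left h6 (sq_nonneg _)
    have h9 : (c / μ) ^ 2 * (δ * μ ^ 2) = δ * c ^ 2 := by field_simp
    nlinarith

end Ref1

/-- paper 11.2 -/
theorem exists_ref {a : ℝ} (h0 : 0 < a) (h1 : a ≤ 1 / 1000) {ς : ℝ} (hς : 0 < ς)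
    (hς1 : ς ≤ a ^ 3) : ∃ h, Ref a (tt a) ς h := by
  have ha3 : a ^ 3 ≤ 1 := pow_le_one₀ h0.le (by linarith)
  obtain ⟨u, hu, hb, he, hm, hQ⟩ := exists_near h0 h1 (δ := ς ^ 2 / 625) (by positivity)
    (by nlinarith) (T 0 1 fun x η => phi0 a (tt a) (x, x * η))
  have hQ1 : B0 a (tt a) u u ≤ ς ^ 2 := by
    have := T_phi0_sq h0 h1
    nlinarith [sq_nonneg ς]
  have hQ0 := Q_nonneg h0 h1 hu hb
  have hp := contDiff_phi0 (a := a) (t := tt a)
  have hh := contDiff_lin (α := 1) (β := -1) hp hu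
  have hval : D0 a 0 1 (lin 1 (phi0 a (tt a)) (-1) u) - tt a * M0 a 0 1 (lin 1 (phi0 a (tt a)) (-1) u)
      + a * Fz a (tt a) = 2 * a * Gt (tt a) 1 + B0 a (tt a) u u := by
    rw [← B0_self hh, Q_lin hp hu, B0_phi0_bdry h0 h1 hp phi0_one, B0_phi0_zero h0 h1 hu hb]
    ring
  refine ⟨lin 1 (phi0 a (tt a)) (-1) u, h0, h1, tt_lo h0 h1, tt_hi h0 h1,
    (tt_bounds h0 h1).2.trans (by linarith [j2_lt]), F_one h0 h1, G_le h0 h1, hς, hς1, hh,
    fun y hy => ?_, fun x y => ?_, ?_, fun z hz hzb => ?_, by linarith, by linarith⟩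
  · simp [lin, hb y hy, phi0_one]
  · simp [lin, he, phi0]
  · rw [T_lin hp hu, hm]; ring
  · rw [B0_lin hp hu hz, B0_phi0_zero h0 h1 hz hzb]
    have key : ∀ x : ℝ, 0 ≤ B0 a (tt a) z z * (x * x) + 2 * B0 a (tt a) u z * x
        + B0 a (tt a) u u := by
      intro x
      have := Q_nonneg h0 h1 (contDiff_lin (α := 1) (β := x) hu hz)
        fun y hy => by simp [lin, hb y hy, hzb y hy]
      rw [Q_lin hu hz] at this
      linarith
    have hd := discrim_le_zero key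
    unfold discrim at hd
    have hz0 := Q_nonneg h0 h1 hz hzb
    have hD := D0_nonneg h0 h1 hz
    have hz1 : B0 a (tt a) z z ≤ D0 a 0 1 z := by
      rw [B0_self hz]
      linarith [mul_nonneg (show 0 ≤ tt a by linarith [tt_lo h0 h1]) (M0_nonneg h0 hz)]
    have h2 : B0 a (tt a) z z * B0 a (tt a) u u ≤ D0 a 0 1 z * ς ^ 2 :=
      mul_le_mul hz1 hQ1 hQ0 hD
    refine abs_le_of_sq_le_sq' ?_ (by positivity) |> abs_le.2
    rw [mul_pow, sq_sqrt hD]
    nlinarith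

end Pool.Agent.PSz
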