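import Pool.Agent.P.MP_7b7370_an.LowFreq
import Pool.Agent.P.MP_7b7370_an.Polar

set_option autoImplicit false

namespace Pool.Agent.PSz

open Real Set MeasureTheory intervalIntegral

namespace Sl

lemma PI_swap {Γ : ℝ → ℝ → ℝ} (h : Cont Γ) {a b x0 x1 : ℝ} (hab : a ≤ b) (hx : x0 ≤ x1) :
    PI a b (fun _ => x0) (fun _ => x1) Γ = ∫ x in x0..x1, (∫ θ in a..b, Γ x θ) * x := by
  unfold PI
  simp only [← intervalIntegral.integral_mul_const]
  have hc : Continuous (Function.uncurry fun η x => Γ x η * x) :=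
    (Continuous.comp (g := fun p : ℝ × ℝ => Γ p.1 p.2) (f := fun p : ℝ × ℝ => (p.2, p.1)) h
      (by fun_prop)).mul continuous_snd
  simp only [integral_of_le hx, integral_of_le hab]
  apply integral_integral_swap
  rw [Measure.prod_restrict]
  exact (hc.continuousOn.integrableOn_compact (isCompact_Icc.prod isCompact_Icc)).mono_set
    (prod_mono Ioc_subset_Icc_self Ioc_subset_Icc_self)

lemma iadd {f g : ℝ → ℝ} (hf : Continuous f) (hg : Continuous g) (a b : ℝ) :
    ∫ x in a..b, (f x + g x) = (∫ x in a..b, f x) + ∫ x in a..b, g x :=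
  intervalIntegral.integral_add (hf.intervalIntegrable _ _) (hg.intervalIntegrable _ _)

lemma isub {f g : ℝ → ℝ} (hf : Continuous f) (hg : Continuous g) (a b : ℝ) :
    ∫ x in a..b, (f x - g x) = (∫ x in a..b, f x) - ∫ x in a..b, g x :=
  intervalIntegral.integral_sub (hf.intervalIntegrable _ _) (hg.intervalIntegrable _ _)

lemma imono {f g : ℝ → ℝ} (hf : Continuous f) (hg : Continuous g) {a b : ℝ} (hab : a ≤ b)
    (h : ∀ x ∈ Icc a b, f x ≤ g x) : ∫ x in a..b, f x ≤ ∫ x in a..b, g x :=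
  integral_mono_on hab (hf.intervalIntegrable _ _) (hg.intervalIntegrable _ _) h

lemma cont_sq {h : ℂ → ℝ} (hh : ContDiff ℝ 1 h) : Continuous fun z => h z ^ 2 :=
  hh.continuous.pow 2

lemma cont_pol {F : ℂ → ℝ} (hF : Continuous F) : Cont fun r θ => F (pol r θ) :=
  hF.comp (Continuous.pol continuous_fst continuous_snd)

lemma cont_dr {h : ℂ → ℝ} (hh : ContDiff ℝ 1 h) : Cont fun r θ => fderiv ℝ h (pol r θ) (cis θ) :=
  ((hh.continuous_fderiv one_ne_zero).comp
    (Continuous.pol continuous_fst continuous_snd)).clm_apply (continuous_cis.comp continuous_snd)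

lemma cont_dt {h : ℂ → ℝ} (hh : ContDiff ℝ 1 h) :
    Cont fun r θ => fderiv ℝ h (pol r θ) (Complex.I * cis θ) :=
  ((hh.continuous_fderiv one_ne_zero).comp
    (Continuous.pol continuous_fst continuous_snd)).clm_apply
    (continuous_const.mul (continuous_cis.comp continuous_snd))

lemma cont_grad {h : ℂ → ℝ} (hh : ContDiff ℝ 1 h) : Continuous fun z => ‖fderiv ℝ h z‖ ^ 2 :=
  (hh.continuous_fderiv one_ne_zero).norm.pow 2

lemma pol_neg_pi (r : ℝ) : pol r (-π) = pol r π := by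
  apply Complex.ext <;> simp

lemma F0_ge {t q : ℝ} (ht : 5.7 ≤ t) (ht' : t ≤ 5.8) (hq : 0 ≤ q) (hq' : q ≤ 1) :
    F0 t 1 + 0.4 * (1 - q) ≤ F0 t q := by
  have hd : ∀ x, HasDerivAt (fun x => F0 t x + 0.4 * x) (F1 t x + 0.4) x := fun x => by
    have := (hasDerivAt_F0 t x).fun_add ((hasDerivAt_id' x).const_mul 0.4)
    rwa [mul_one] at this
  have ha : AntitoneOn (fun x => F0 t x + 0.4 * x) (Icc 0 1) := by
    refine antitoneOn_of_deriv_nonpos (convex_Icc _ _)
      (fun x _ => (hd x).continuousAt.continuousWithinAt)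
      (fun x _ => (hd x).differentiableAt.differentiableWithinAt) fun x hx => ?_
    rw [interior_Icc] at hx
    rw [(hd x).deriv]
    linarith [F1_le ht ht' hx.1.le (hx.2.le.trans (by norm_num))]
  have := ha ⟨hq, hq'⟩ ⟨zero_le_one, le_rfl⟩ hq'
  simp only at this
  linarith

/-- low frequency lemma on the unit disc for a single smooth function -/
lemma low_one {h : ℂ → ℝ} (hh : ContDiff ℝ 1 h)
    (hm : PI (-π) π (fun _ => 0) (fun _ => 1) (fun r θ => h (pol r θ)) = 0) :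
    6 * PM (-π) π (fun _ => 0) (fun _ => 1) h ≤ PD (-π) π (fun _ => 0) (fun _ => 1) h
      + 2 * π * ∫ θ in (-π)..π, h (pol 1 θ) ^ 2 := by
  have hπ : -π ≤ π := by linarith [pi_pos]
  have key := low_freq 1 (fun k => if k = 0 then -π else π)
    (by
      intro a b hab
      by_cases ha : a = 0 <;> by_cases hb : b = 0 <;> simp [ha, hb, hπ]
      omega) (by simp) (by simp) one_pos le_rfl (fun _ r => h (pol r π)) rfl (h 0)
    (fun _ r θ => h (pol r θ)) (fun _ r θ => fderiv ℝ h (pol r θ) (cis θ))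
    (fun _ r θ => fderiv ℝ h (pol r θ) (Complex.I * cis θ))
    (by
      intro k hk
      obtain rfl : k = 0 := by omega
      exact ⟨cont_pol hh.continuous, cont_dr hh, cont_dt hh, fun r θ _ => hasDerivAt_ray hh r θ,
        fun r θ _ => hasDerivAt_arc hh r θ, fun r => by simp [pol_neg_pi], fun r => by simp,
        fun θ _ => by simp⟩)
    (by simpa using hm)
  simp only [Finset.range_one, Finset.sum_singleton, if_true, zero_add, one_ne_zero, if_false,
    ← norm_clm_sq_cis] at key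
  have hc : Continuous fun θ => h (pol 1 θ) := (cont_pol hh.continuous).arc 1
  have h1 := cs_interval hπ hc continuous_cos
  have h2 := cs_interval hπ hc continuous_sin
  have h3 : (∫ θ in (-π)..π, cos θ ^ 2) + ∫ θ in (-π)..π, sin θ ^ 2 = 2 * π := by
    rw [← iadd (by fun_prop) (by fun_prop)]
    simp [cos_sq_add_sin_sq]
    ring
  unfold PM PD
  rw [← h3]
  nlinarith

/-- a value on a circle is controlled by the energy on the circle -/
lemma circle_val {h : ℂ → ℝ} (hh : ContDiff ℝ 1 h) {r θ0 : ℝ} (hr0 : 0 ≤ r) (hr : r ≤ 1)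
    (h0 : θ0 ∈ Icc (-π) π) :
    h (pol r θ0) ^ 2 ≤ 13 * ∫ θ in (-π)..π, (h (pol r θ) ^ 2 + ‖fderiv ℝ h (pol r θ)‖ ^ 2) := by
  have hπ : -π ≤ π := by linarith [pi_pos]
  have c1 : Continuous fun θ => h (pol r θ) := (cont_pol hh.continuous).arc r
  have c2 : Continuous fun θ => r * fderiv ℝ h (pol r θ) (Complex.I * cis θ) :=
    continuous_const.mul ((cont_dt hh).arc r)
  have c3 : Continuous fun θ => ‖fderiv ℝ h (pol r θ)‖ ^ 2 := (cont_pol (cont_grad hh)).arc r
  set E := ∫ θ in (-π)..π, ‖fderiv ℝ h (pol r θ)‖ ^ 2 with hE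
  set M := ∫ θ in (-π)..π, h (pol r θ) ^ 2 with hM
  have hE0 : 0 ≤ E := integral_nonneg hπ fun _ _ => by positivity
  have hM0 : 0 ≤ M := integral_nonneg hπ fun _ _ => by positivity
  have h1 : ∫ θ in (-π)..π, (r * fderiv ℝ h (pol r θ) (Complex.I * cis θ)) ^ 2 ≤ E := by
    refine imono (c2.fun_pow 2) c3 hπ fun θ _ => ?_
    rw [norm_clm_sq_cis _ θ, mul_pow]
    have : r ^ 2 ≤ 1 := by nlinarith
    nlinarith [sq_nonneg (fderiv ℝ h (pol r θ) (cis θ)),
      sq_nonneg (fderiv ℝ h (pol r θ) (Complex.I * cis θ))]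
  have h2 : ∀ θ ∈ Icc (-π) π, h (pol r θ0) ^ 2 ≤ 2 * h (pol r θ) ^ 2 + 4 * π * E := by
    intro θ hθ
    have h3 := sq_sub_le (fun θ => hasDerivAt_arc hh r θ) c2 hθ h0
    have h4 : (π - -π) * ∫ θ in (-π)..π, (r * fderiv ℝ h (pol r θ) (Complex.I * cis θ)) ^ 2
        ≤ (π - -π) * E := mul_le_mul_of_nonneg_left h1 (by linarith)
    nlinarith [sq_nonneg (h (pol r θ0) - 2 * h (pol r θ))]
  have h3 := imono continuous_const (by fun_prop) hπ h2
  rw [iadd (by fun_prop) continuous_const, intervalIntegral.integral_const_mul] at h3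
  simp only [intervalIntegral.integral_const, smul_eq_mul] at h3
  rw [iadd (c1.fun_pow 2) c3]
  rw [← hM] at h3 ⊢
  rw [← hE]
  have hp := pi_gt_three
  have hp' := pi_lt_d2
  have h4 : π * h (pol r θ0) ^ 2 ≤ π * (13 * (M + E)) := by
    nlinarith [mul_nonneg hE0 pi_pos.le]
  exact le_of_mul_le_mul_left h4 pi_pos

/-- values on a ring of circles force energy -/
lemma ring_val {h : ℂ → ℝ} (hh : ContDiff ℝ 1 h) {ε b : ℝ} (hε : 0 < ε) (hε1 : ε ≤ 1 / 100)
    (hb : ∀ r ∈ Icc (1 - ε) (1 - ε / 2), ∃ θ ∈ Icc (-π) π, b ≤ h (pol r θ) ^ 2) :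
    b * ε / 52 ≤ PM (-π) π (fun _ => 0) (fun _ => 1) h + PD (-π) π (fun _ => 0) (fun _ => 1) h := by
  have hπ : -π ≤ π := by linarith [pi_pos]
  have cG : Cont fun r θ => h (pol r θ) ^ 2 + ‖fderiv ℝ h (pol r θ)‖ ^ 2 :=
    (cont_pol (cont_sq hh)).add (cont_pol (cont_grad hh))
  unfold PM PD
  rw [← PI_add (cont_pol (cont_sq hh)) (cont_pol (cont_grad hh)) continuous_const
    continuous_const]
  have s1 := PI_split (θa := -π) (θb := π) (r0 := fun _ => 0) (r1 := fun _ => 1 - ε)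
    (r2 := fun _ => 1 - ε / 2) cG continuous_const continuous_const continuous_const
  have s2 := PI_split (θa := -π) (θb := π) (r0 := fun _ => 0) (r1 := fun _ => 1 - ε / 2)
    (r2 := fun _ => 1) cG continuous_const continuous_const continuous_const
  have n1 := PI_nonneg (θa := -π) (θb := π) (r0 := fun _ => 0) (r1 := fun _ => 1 - ε) cG
    continuous_const continuous_const hπ (fun _ _ => ⟨le_rfl, by linarith⟩)
    fun _ _ _ _ => by positivity
  have n2 := PI_nonneg (θa := -π) (θb := π) (r0 := fun _ => 1 - ε / 2) (r1 := fun _ => 1) cG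
    continuous_const continuous_const hπ (fun _ _ => ⟨by linarith, by linarith⟩)
    fun _ _ _ _ => by positivity
  have hle : 1 - ε ≤ 1 - ε / 2 := by linarith
  have h3 : b * ε / 52 ≤ PI (-π) π (fun _ => 1 - ε) (fun _ => 1 - ε / 2)
      fun r θ => h (pol r θ) ^ 2 + ‖fderiv ℝ h (pol r θ)‖ ^ 2 := by
    rw [PI_swap cG hπ hle]
    have cI : Continuous fun r => ∫ θ in (-π)..π,
        (h (pol r θ) ^ 2 + ‖fderiv ℝ h (pol r θ)‖ ^ 2) :=
      continuous_parametric_intervalIntegral_of_continuous' cG _ _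
    have := imono (f := fun _ => b / 26) continuous_const (cI.fun_mul continuous_id') hle
      fun r hr => by
        obtain ⟨θ, hθ, h1⟩ := hb r hr
        have h2 := circle_val (r := r) hh (by linarith [hr.1]) (by linarith [hr.2]) hθ
        have h4 : 1 / 2 ≤ r := by linarith [hr.1]
        nlinarith
    simp only [intervalIntegral.integral_const, smul_eq_mul] at this
    refine le_trans (le_of_eq (by ring)) this
  linarith

lemma PI_phi_pos {t δ : ℝ} (ht : 5.7 ≤ t) (ht' : t ≤ 5.8) (hF : |F0 t 1| ≤ δ) (hδ : δ ≤ 1 / 100) :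
    0 < PI (-π) π (fun _ => 0) (fun _ => 1) fun r θ => phi t (pol r θ) := by
  have hπ : -π ≤ π := by linarith [pi_pos]
  have h1 := PI_mono (θa := -π) (θb := π) (r0 := fun _ => 0) (r1 := fun _ => 1)
    (Γ := fun r _ => 0.39 - 0.4 * r ^ 2) (Γ' := fun r θ => phi t (pol r θ))
    (by unfold Cont; fun_prop)
    (cont_pol (continuous_phi t)) continuous_const continuous_const hπ
    (fun _ _ => ⟨le_rfl, zero_le_one⟩) fun θ _ r hr => by
      rw [phi_pol]
      have := F0_ge ht ht' (sq_nonneg r) (by nlinarith [hr.1, hr.2])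
      linarith [(abs_le.1 hF).1]
  refine lt_of_lt_of_le ?_ h1
  have e : ∫ r in (0 : ℝ)..1, (0.39 - 0.4 * r ^ 2) * r = 0.095 := by
    have : (fun r : ℝ => (0.39 - 0.4 * r ^ 2) * r) = fun r => 0.39 * r ^ 1 - 0.4 * r ^ 3 := by
      funext r; ring
    rw [this, isub (by fun_prop) (by fun_prop), intervalIntegral.integral_const_mul,
      intervalIntegral.integral_const_mul, integral_pow, integral_pow]
    norm_num
  unfold PI
  simp only [e, intervalIntegral.integral_const, smul_eq_mul]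
  nlinarith [pi_pos]

/-- the quadratic form on the unit disc -/
lemma disc_identity {u : ℂ → ℝ} (hu : ContDiff ℝ 1 u) (t c : ℝ) :
    PD (-π) π (fun _ => 0) (fun _ => 1) u - t * PM (-π) π (fun _ => 0) (fun _ => 1) u
      = PD (-π) π (fun _ => 0) (fun _ => 1) (fun z => c * phi t z - u z)
        - t * PM (-π) π (fun _ => 0) (fun _ => 1) (fun z => c * phi t z - u z)
        - 2 * π * (c ^ 2 * Gt t 1) + 4 * c * F1 t 1 * ∫ θ in (-π)..π, u (pol 1 θ) := by
  have hh : ContDiff ℝ 1 fun z => c * phi t z - u z := by fun_prop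
  have key : ∀ w : ℂ → ℝ, ContDiff ℝ 1 w →
      PD (-π) π (fun _ => 0) (fun _ => 1) w - t * PM (-π) π (fun _ => 0) (fun _ => 1) w =
      PI (-π) π (fun _ => 0) (fun _ => 1)
        fun r θ => ‖fderiv ℝ w (pol r θ)‖ ^ 2 - t * w (pol r θ) ^ 2 := by
    intro w hw
    unfold PD PM
    rw [← PI_const_mul, ← PI_sub (cont_pol (cont_grad hw))
      (continuous_const.mul (cont_pol (cont_sq hw))) continuous_const continuous_const]
  rw [key u hu, key _ hh]
  unfold PI
  simp only [ray_identity hu t c 1]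
  have cG : Cont fun r θ => ‖fderiv ℝ (fun z => c * phi t z - u z) (pol r θ)‖ ^ 2
      - t * (c * phi t (pol r θ) - u (pol r θ)) ^ 2 :=
    (cont_pol (cont_grad hh)).sub (continuous_const.mul (cont_pol (hh.continuous.pow 2)))
  have c1 := cG.inner (r0 := fun _ => 0) (r1 := fun _ => 1) continuous_const continuous_const
  have c2 : Continuous fun θ => u (pol 1 θ) := (cont_pol hu.continuous).arc 1
  rw [iadd (c1.fun_sub continuous_const) (by fun_prop), isub c1 continuous_const,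
    intervalIntegral.integral_const, intervalIntegral.integral_const_mul,
    intervalIntegral.integral_const_mul]
  simp only [smul_eq_mul, one_pow]
  linarith

lemma split_ball {F : ℂ → ℝ} (hF : Continuous F) (hc : HasCompactSupport F) :
    ∫ z, F z = PI (-π) π (fun _ => 0) (fun _ => 1) (fun r θ => F (pol r θ))
      + ∫ z in (Metric.ball (0 : ℂ) 1)ᶜ, F z := by
  rw [← integral_ball hF zero_le_one,
    integral_add_compl measurableSet_ball (hF.integrable_of_hasCompactSupport hc)]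

lemma arith {ε σ t c DO MO M D Mu Du U J Y F G : ℝ} (hε : 0 < ε) (hσ : σ = ε ^ 3 / 10 ^ 9)
    (hσ1 : σ ≤ 1 / 10 ^ 6) (ht' : t ≤ 5.8) (hDO0 : 0 ≤ DO) (hM0 : 0 ≤ M) (hMO : 0 ≤ MO)
    (e1 : MO ≤ σ ^ 4 * DO) (e2 : U ≤ 2 * σ ^ 2 * DO) (l1 : 6 * M ≤ D + 2 * π * Y)
    (l2 : c ^ 2 * (ε / 10) ^ 2 * ε / 52 ≤ M + D)
    (l3 : Du - t * Mu = D - t * M - 2 * π * (c ^ 2 * G) + 4 * c * F * J)
    (l4 : J ^ 2 ≤ U * (2 * π)) (l5 : Y ≤ 4 * π * (c ^ 2 * σ) + 2 * U) (hF1 : |F| ≤ 25)
    (l6 : G ≤ 50 * σ) : t * (Mu + MO) ≤ Du + DO := by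
  have hσ0 : 0 < σ := by rw [hσ]; positivity
  have hσ2 : σ ^ 2 ≤ σ := by nlinarith
  have hσ4 : σ ^ 4 ≤ σ := by nlinarith [sq_nonneg σ]
  have hp := pi_gt_three
  have hp' := pi_lt_d2
  have l7 : -(50 * σ * c ^ 2 + 700 * σ * DO) ≤ 4 * c * F * J := by
    have h1 : J ^ 2 ≤ 14 * σ ^ 2 * DO := by
      have : U * (2 * π) ≤ 2 * σ ^ 2 * DO * (2 * π) :=
        mul_le_mul_of_nonneg_right e2 (by positivity)
      nlinarith [mul_nonneg (sq_nonneg σ) hDO0]
    have h2 : F ^ 2 ≤ 625 := by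
      have := abs_le.1 hF1
      nlinarith
    have h3 : (F * J) ^ 2 ≤ 625 * (14 * σ ^ 2 * DO) := by
      rw [mul_pow]
      exact mul_le_mul h2 h1 (sq_nonneg _) (by norm_num)
    have h4 : σ * -(50 * σ * c ^ 2 + 700 * σ * DO) ≤ σ * (4 * c * F * J) := by
      nlinarith [sq_nonneg (25 * σ * c + F * J)]
    exact le_of_mul_le_mul_left h4 hσ0
  have hc2 : 0 ≤ c ^ 2 * σ := by positivity
  have hσD : 0 ≤ σ * DO := by positivity
  have m1 : t * M ≤ 5.8 * M := mul_le_mul_of_nonneg_right ht' hM0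
  have m2 : t * MO ≤ 6 * (σ * DO) := by
    have h1 : σ ^ 4 * DO ≤ σ * DO := mul_le_mul_of_nonneg_right hσ4 hDO0
    exact mul_le_mul (by linarith) (e1.trans h1) hMO (by norm_num)
  have m3 : U ≤ 2 * (σ * DO) := by
    have h1 : σ ^ 2 * DO ≤ σ * DO := mul_le_mul_of_nonneg_right hσ2 hDO0
    linarith
  have m4 : 2 * π * Y ≤ 100 * (c ^ 2 * σ) + 30 * (σ * DO) := by
    have h1 : 4 * π * (c ^ 2 * σ) + 2 * U ≤ 13 * (c ^ 2 * σ) + 4 * (σ * DO) := by nlinarith
    have h2 := mul_le_mul_of_nonneg_left (l5.trans h1) (by positivity : 0 ≤ 2 * π)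
    nlinarith
  have m5 : 2 * π * (c ^ 2 * G) ≤ 350 * (c ^ 2 * σ) := by
    have h1 : c ^ 2 * G ≤ 50 * (c ^ 2 * σ) := by nlinarith [sq_nonneg c]
    have h2 := mul_le_mul_of_nonneg_left h1 (by positivity : 0 ≤ 2 * π)
    nlinarith
  have m6 : 100000 * (c ^ 2 * σ) ≤ M + D := by
    refine le_trans ?_ l2
    rw [hσ]
    nlinarith [mul_nonneg (sq_nonneg c) (pow_pos hε 3).le]
  have m7 : σ * DO ≤ 1 / 10 ^ 6 * DO := mul_le_mul_of_nonneg_right hσ1 hDO0
  rw [mul_add]
  linarith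

end Sl

open Sl in
/-- paper 8: a boundary that enters the disc deeply costs too much -/
theorem slit {ε : ℝ} (hε : 0 < ε) (hε1 : ε ≤ 1 / 100) : ∃ δ > 0, ∀ t : ℝ, 5.7 ≤ t → t ≤ 5.8 →
    |F0 t 1| ≤ δ → ∀ (Ω : Set ℂ) (u : ℂ → ℝ), MeasurableSet Ω → ContDiff ℝ 1 u →
    HasCompactSupport u → tsupport u ⊆ Ω → volume (Ω \ Metric.ball 0 1) ≤ ENNReal.ofReal δ →
    (∀ r ∈ Icc (1 - ε) (1 - ε / 2), ∃ θ ∈ Icc (-π) π, u (pol r θ) = 0) →
    t * ma u ≤ en u := by
  obtain ⟨σ, hσ⟩ : ∃ σ : ℝ, σ = ε ^ 3 / 10 ^ 9 := ⟨_, rfl⟩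
  have hσ0 : 0 < σ := by rw [hσ]; positivity
  have hε3 : ε ^ 3 ≤ ε := by
    have : ε ^ 2 ≤ 1 := by nlinarith
    nlinarith
  have hσε : σ ≤ ε / 10 ^ 9 := by rw [hσ]; linarith
  have hσ1 : σ ≤ 1 / 10 ^ 6 := by linarith
  have hσ2 : σ ^ 2 ≤ σ := by nlinarith
  have hσ4 : σ ^ 4 ≤ σ := by nlinarith [sq_nonneg σ]
  refine ⟨σ ^ 4, by positivity, fun t ht ht' hF Ω u hΩ hu hc hs hv hz => ?_⟩
  have hπ : -π ≤ π := by linarith [pi_pos]
  obtain ⟨e1, e2⟩ := ext_bound hΩ hu hc hs one_pos (by positivity) hv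
  rw [show √(σ ^ 4) = σ ^ 2 by rw [show σ ^ 4 = (σ ^ 2) ^ 2 by ring, sqrt_sq (by positivity)],
    div_one] at e2
  have hen := split_ball (cont_grad hu) ((hc.fderiv ℝ).norm.comp_left (g := fun x => x ^ 2) (by simp))
  have hma := split_ball (cont_sq hu) (hc.comp_left (g := fun x => x ^ 2) (by simp))
  set DO := ∫ z in (Metric.ball (0 : ℂ) 1)ᶜ, ‖fderiv ℝ u z‖ ^ 2 with hDO
  have hDO0 : 0 ≤ DO := MeasureTheory.integral_nonneg fun _ => by positivity
  have hP := PI_phi_pos ht ht' hF (by linarith)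
  set c := PI (-π) π (fun _ => 0) (fun _ => 1) (fun r θ => u (pol r θ)) /
    PI (-π) π (fun _ => 0) (fun _ => 1) fun r θ => phi t (pol r θ) with hcd
  have hh : ContDiff ℝ 1 fun z => c * phi t z - u z := by fun_prop
  have hm : PI (-π) π (fun _ => 0) (fun _ => 1)
      (fun r θ => c * phi t (pol r θ) - u (pol r θ)) = 0 := by
    rw [PI_sub (continuous_const.mul (cont_pol (continuous_phi t))) (cont_pol hu.continuous)
      continuous_const continuous_const, PI_const_mul, hcd, div_mul_cancel₀ _ hP.ne', sub_self]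
  have l1 := low_one hh hm
  have l2 := ring_val hh hε hε1 (b := c ^ 2 * (ε / 10) ^ 2) fun r hr => by
    obtain ⟨θ, hθ, h0⟩ := hz r hr
    refine ⟨θ, hθ, ?_⟩
    rw [h0, sub_zero, phi_pol, mul_pow]
    have h1 := F0_ge ht ht' (sq_nonneg r) (by nlinarith [hr.1, hr.2])
    have h2 : ε / 2 ≤ 1 - r ^ 2 := by nlinarith [hr.1, hr.2]
    have h3 : ε / 10 ≤ F0 t (r ^ 2) := by linarith [(abs_le.1 hF).1]
    exact mul_le_mul_of_nonneg_left (pow_le_pow_left₀ (by positivity) h3 2) (by positivity)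
  have l3 := disc_identity hu t c
  have c2 : Continuous fun θ => u (pol 1 θ) := (cont_pol hu.continuous).arc 1
  set U := ∫ θ in (-π)..π, u (pol 1 θ) ^ 2 with hU
  set J := ∫ θ in (-π)..π, u (pol 1 θ) with hJ
  have l4 : J ^ 2 ≤ U * (2 * π) := by
    have := cs_interval hπ c2 (continuous_const (y := (1 : ℝ)))
    simp only [mul_one, one_pow, intervalIntegral.integral_const, smul_eq_mul] at this
    linarith
  have l5 : ∫ θ in (-π)..π, (c * phi t (pol 1 θ) - u (pol 1 θ)) ^ 2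
      ≤ 4 * π * (c ^ 2 * σ) + 2 * U := by
    have hF2 : F0 t 1 ^ 2 ≤ σ := by
      have := abs_le.1 (hF.trans hσ4)
      nlinarith
    have := imono ((cont_pol (cont_sq hh)).arc 1)
      (g := fun θ => 2 * (c ^ 2 * σ) + 2 * u (pol 1 θ) ^ 2) (by fun_prop) hπ fun θ _ => by
        simp only [phi_pol, one_pow]
        nlinarith [sq_nonneg (c * F0 t 1 + u (pol 1 θ)),
          mul_le_mul_of_nonneg_left hF2 (sq_nonneg c)]
    rw [iadd continuous_const (by fun_prop), intervalIntegral.integral_const_mul (2 : ℝ)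
      (fun θ => u (pol 1 θ) ^ 2)] at this
    simp only [intervalIntegral.integral_const, smul_eq_mul] at this
    linarith
  have hF1 := abs_F1_le (t := t) (q := 1) (by linarith) (by linarith) (by norm_num)
  have l6 : Gt t 1 ≤ 50 * σ := by
    unfold Gt
    have h1 : |F0 t 1 * F1 t 1| ≤ σ * 25 := by
      rw [abs_mul]
      exact mul_le_mul (hF.trans hσ4) hF1 (abs_nonneg _) hσ0.le
    linarith [(abs_le.1 h1).2]
  unfold en ma
  rw [hen, hma]
  have hM0 : 0 ≤ PM (-π) π (fun _ => 0) (fun _ => 1) (fun z => c * phi t z - u z) :=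
    PI_nonneg (cont_pol (cont_sq hh)) continuous_const continuous_const
      hπ (fun _ _ => ⟨le_rfl, zero_le_one⟩) fun _ _ _ _ => by positivity
  exact arith hε hσ hσ1 ht' hDO0 hM0 (MeasureTheory.integral_nonneg fun _ => by positivity) e1 e2
    l1 l2 l3 l4 l5 hF1 l6

end Pool.Agent.PSz
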