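import Pool.Agent.P.MP_7b7370_an.Api

/-! A smoothed soft threshold, the smoothed triangle wave and parametric continuity of `PI`. -/

set_option autoImplicit false

namespace Pool.Agent.PSz.Up

open Real Set MeasureTheory intervalIntegral Filter Topology

lemma hasDerivAt_pos_sq (s : ℝ) : HasDerivAt (fun s : ℝ => max s 0 ^ 2) (2 * max s 0) s := by
  rcases lt_trichotomy s 0 with h | rfl | h
  · have : (fun s : ℝ => max s 0 ^ 2) =ᶠ[𝓝 s] fun _ => 0 := by
      filter_upwards [Iio_mem_nhds h] with x hx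
      rw [max_eq_right (le_of_lt hx)]; simp
    rw [max_eq_right h.le]
    simpa using (hasDerivAt_const s (0 : ℝ)).congr_of_eventuallyEq this
  · rw [hasDerivAt_iff_tendsto_slope_zero]
    have h1 : Tendsto (fun t : ℝ => max t 0) (𝓝[≠] 0) (𝓝 (max 0 0)) :=
      ((continuous_id.max continuous_const).tendsto 0).mono_left nhdsWithin_le_nhds
    simp only [max_self, mul_zero, zero_add] at h1 ⊢
    refine h1.congr' ?_
    filter_upwards [self_mem_nhdsWithin] with t ht
    have ht : t ≠ 0 := ht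
    rcases le_total t 0 with h | h
    · simp [max_eq_right h]
    · simp only [max_eq_left h, smul_eq_mul]; field_simp; ring
  · have : (fun s : ℝ => max s 0 ^ 2) =ᶠ[𝓝 s] fun s => s ^ 2 := by
      filter_upwards [Ioi_mem_nhds h] with x hx
      rw [max_eq_left (le_of_lt hx)]
    rw [max_eq_left h.le]
    simpa using (hasDerivAt_pow 2 s).congr_of_eventuallyEq this

noncomputable def rho (d s : ℝ) : ℝ := √(d ^ 2 + max (s - d) 0 ^ 2) - d
noncomputable def rho' (d s : ℝ) : ℝ := max (s - d) 0 / √(d ^ 2 + max (s - d) 0 ^ 2)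
/-- odd smoothed soft threshold -/
noncomputable def gg (d s : ℝ) : ℝ := rho d s - rho d (-s)
noncomputable def gg' (d s : ℝ) : ℝ := rho' d s + rho' d (-s)

@[fun_prop] lemma continuous_gg {α : Type*} [TopologicalSpace α] {d s : α → ℝ}
    (hd : Continuous d) (hs : Continuous s) : Continuous fun p => gg (d p) (s p) := by
  unfold gg rho; fun_prop

lemma gg_zero (s : ℝ) : gg 0 s = s := by
  simp only [gg, rho, sub_zero, ne_eq, OfNat.ofNat_ne_zero, not_false_eq_true, zero_pow, zero_add]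
  rw [sqrt_sq (le_max_right _ _), sqrt_sq (le_max_right _ _)]
  rcases le_total s 0 with h | h
  · rw [max_eq_right h, max_eq_left (by linarith)]; ring
  · rw [max_eq_left h, max_eq_right (by linarith)]; ring

variable {d : ℝ}

lemma rho_eq_zero (hd : 0 < d) {s : ℝ} (h : s ≤ d) : rho d s = 0 := by
  unfold rho
  rw [max_eq_right (by linarith)]; simp [sqrt_sq hd.le]

lemma rho'_eq_zero {s : ℝ} (h : s ≤ d) : rho' d s = 0 := by
  unfold rho'
  rw [max_eq_right (by linarith)]; simp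

lemma rho'_mem (hd : 0 < d) (s : ℝ) : 0 ≤ rho' d s ∧ rho' d s ≤ 1 := by
  unfold rho'
  refine ⟨by positivity, (div_le_one (by positivity)).2 ?_⟩
  exact le_sqrt_of_sq_le (by nlinarith [sq_nonneg d])

lemma hasDerivAt_rho (hd : 0 < d) (s : ℝ) : HasDerivAt (rho d) (rho' d s) s := by
  have h1 := (hasDerivAt_pos_sq (s - d)).comp s ((hasDerivAt_id s).sub_const d)
  have h2 := ((h1.const_add (d ^ 2)).sqrt (by simp only [Function.comp]; positivity)).sub_const d
  refine h2.congr_deriv ?_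
  simp only [Function.comp, rho', id]
  field_simp

lemma continuous_rho' (hd : 0 < d) : Continuous (rho' d) := by
  unfold rho'
  exact Continuous.div (by fun_prop) (by fun_prop) fun s => by positivity

lemma hasDerivAt_gg (hd : 0 < d) (s : ℝ) : HasDerivAt (gg d) (gg' d s) s := by
  have h1 := (hasDerivAt_rho hd (-s)).comp s (hasDerivAt_neg s)
  refine ((hasDerivAt_rho hd s).sub h1).congr_deriv ?_
  simp [gg']

lemma contDiff_gg (hd : 0 < d) : ContDiff ℝ 1 (gg d) := by
  rw [contDiff_one_iff_deriv]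
  refine ⟨fun s => (hasDerivAt_gg hd s).differentiableAt, ?_⟩
  have : deriv (gg d) = gg' d := funext fun s => (hasDerivAt_gg hd s).deriv
  rw [this]
  exact (continuous_rho' hd).add ((continuous_rho' hd).comp continuous_neg)

lemma gg'_sq_le (hd : 0 < d) (s : ℝ) : gg' d s ^ 2 ≤ 1 := by
  have h1 := rho'_mem hd s
  have h2 := rho'_mem hd (-s)
  unfold gg'
  rcases le_total s 0 with h | h
  · rw [rho'_eq_zero (s := s) (by linarith)]; nlinarith
  · rw [rho'_eq_zero (s := -s) (by linarith)]; nlinarith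

lemma gg_eq_zero (hd : 0 < d) {s : ℝ} (h : |s| ≤ d) : gg d s = 0 := by
  rw [abs_le] at h
  rw [gg, rho_eq_zero hd h.2, rho_eq_zero hd (by linarith [h.1])]; simp

lemma gg_mem (hd : 0 < d) {s : ℝ} (h : 0 ≤ s) : 0 ≤ gg d s ∧ gg d s ≤ s ∧ s - 2 * d ≤ gg d s := by
  rw [gg, rho_eq_zero hd (s := -s) (by linarith), sub_zero, rho]
  have hm : 0 ≤ max (s - d) 0 := le_max_right _ _
  have hm1 : s - d ≤ max (s - d) 0 := le_max_left _ _
  have hm2 : max (s - d) 0 ≤ s := max_le (by linarith) h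
  have h1 : d ≤ √(d ^ 2 + max (s - d) 0 ^ 2) := le_sqrt_of_sq_le (by nlinarith)
  have h2 : max (s - d) 0 ≤ √(d ^ 2 + max (s - d) 0 ^ 2) := le_sqrt_of_sq_le (by nlinarith)
  have h3 : √(d ^ 2 + max (s - d) 0 ^ 2) ≤ d + max (s - d) 0 :=
    sqrt_le_iff.2 ⟨by positivity, by nlinarith⟩
  exact ⟨by linarith, by linarith, by linarith⟩

/-- smoothed distance to the nearest side normal -/
noncomputable def sig (N : ℕ) (d θ : ℝ) : ℝ := arccos (-(1 - d) * cos (N * θ)) / N

@[fun_prop] lemma continuous_sig (N : ℕ) {α : Type*} [TopologicalSpace α] {d s : α → ℝ}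
    (hd : Continuous d) (hs : Continuous s) : Continuous fun p => sig N (d p) (s p) := by
  unfold sig; fun_prop

lemma sig_mem (N : ℕ) (d θ : ℝ) : 0 ≤ sig N d θ ∧ sig N d θ ≤ π / N :=
  ⟨div_nonneg (arccos_nonneg _) (Nat.cast_nonneg _),
    div_le_div_of_nonneg_right (arccos_le_pi _) (Nat.cast_nonneg _)⟩

lemma abs_lt_one (hd : 0 < d) (hd1 : d ≤ 1) {c : ℝ} (hc : |c| ≤ 1) : |-(1 - d) * c| < 1 := by
  rw [abs_mul, abs_neg, abs_of_nonneg (by linarith)]
  nlinarith [abs_nonneg c]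

lemma sig_deriv {N : ℕ} (hN : 0 < N) (hd : 0 < d) (hd1 : d ≤ 1) (θ : ℝ) :
    ∃ s', HasDerivAt (sig N d) s' θ ∧ s' ^ 2 ≤ 1 := by
  have hN' : (0 : ℝ) < N := by exact_mod_cast hN
  have h0 := abs_lt.1 (abs_lt_one hd hd1 (abs_cos_le_one (N * θ)))
  have h1 := (((hasDerivAt_id θ).const_mul (N : ℝ)).cos).const_mul (-(1 - d))
  have h2 := ((hasDerivAt_arccos h0.1.ne' h0.2.ne).comp θ h1).div_const N
  refine ⟨_, h2, ?_⟩
  set u := -(1 - d) * cos (N * θ) with hu
  have hp : 0 < 1 - u ^ 2 := by nlinarith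
  have e : (-(1 / √(1 - u ^ 2)) * (-(1 - d) * (-sin (N * id θ) * (N * 1))) / N) ^ 2
      = ((1 - d) * sin (N * θ)) ^ 2 / (1 - u ^ 2) := by
    simp only [id]
    have := sq_sqrt hp.le
    have h3 : √(1 - u ^ 2) ≠ 0 := (sqrt_pos.2 hp).ne'
    field_simp
    rw [this]
  rw [e, div_le_one hp, hu]
  have := sin_sq_add_cos_sq (N * θ)
  have h4 : (1 - d) ^ 2 ≤ 1 := by nlinarith
  nlinarith

lemma sig_zero {N : ℕ} (hN : 0 < N) {θ : ℝ} (h0 : 0 ≤ θ) (h1 : θ ≤ π / N) :
    sig N 0 θ = π / N - θ := by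
  have hN' : (0 : ℝ) < N := by exact_mod_cast hN
  rw [le_div_iff₀ hN'] at h1
  unfold sig
  rw [sub_zero, neg_one_mul, arccos_neg, arccos_cos (by positivity) (by linarith)]
  field_simp

lemma sig_neg (N : ℕ) (d θ : ℝ) : sig N d (-θ) = sig N d θ := by simp [sig]

lemma sig_periodic {N : ℕ} (hN : 0 < N) (d : ℝ) : Function.Periodic (sig N d) (2 * (π / N)) := by
  intro θ
  have hN' : (0 : ℝ) < N := by exact_mod_cast hN
  have : (N : ℝ) * (θ + 2 * (π / N)) = N * θ + 2 * π := by field_simp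
  simp [sig, this]

lemma integral_sig {N : ℕ} (hN : 0 < N) {q : ℝ → ℝ} (hq : Continuous q) :
    ∫ θ in (-π)..π, q (sig N 0 θ) = 2 * N * ∫ θ in (0 : ℝ)..(π / N), q θ := by
  have hN' : (0 : ℝ) < N := by exact_mod_cast hN
  have hp : Function.Periodic (fun θ => q (sig N 0 θ)) (2 * (π / N)) :=
    (sig_periodic hN 0).comp q
  have hc : Continuous fun θ => q (sig N 0 θ) := by fun_prop
  have h1 := hp.intervalIntegral_add_zsmul_eq (N : ℤ) (-π) fun _ _ => hc.intervalIntegrable _ _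
  have e1 : -π + (N : ℤ) • (2 * (π / N)) = π := by
    simp only [zsmul_eq_mul, Int.cast_natCast]; field_simp; ring
  have e2 : -(π / N) + 2 * (π / N) = π / N := by ring
  rw [e1, hp.intervalIntegral_add_eq (-π) (-(π / N)), e2,
    ← integral_add_adjacent_intervals (a := -(π / N)) (b := 0) (hc.intervalIntegrable _ _)
      (hc.intervalIntegrable _ _)] at h1
  have h2 : ∫ θ in (-(π / N))..0, q (sig N 0 θ) = ∫ θ in (0 : ℝ)..(π / N), q (sig N 0 θ) := by
    have := integral_comp_neg (a := (0 : ℝ)) (b := π / N) fun θ => q (sig N 0 θ)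
    simp only [sig_neg, neg_zero] at this
    exact this.symm
  have h3 : ∫ θ in (0 : ℝ)..(π / N), q (sig N 0 θ) = ∫ θ in (0 : ℝ)..(π / N), q θ := by
    have := integral_comp_sub_left (a := (0 : ℝ)) (b := π / N) q (π / N)
    simp only [sub_self, sub_zero] at this
    rw [← this]
    refine integral_congr fun θ hθ => ?_
    rw [uIcc_of_le (by positivity)] at hθ
    simp only [sig_zero hN hθ.1 hθ.2]
  rw [h1, h2, h3]
  simp only [zsmul_eq_mul, Int.cast_natCast]; ring

lemma arccos_cos_le (x : ℝ) : arccos (cos x) ≤ |x| := by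
  rcases le_total |x| π with h | h
  · rw [← cos_abs, arccos_cos (abs_nonneg _) h]
  · exact (arccos_le_pi _).trans h

lemma cos_le_cos_sig {N : ℕ} (hN : 0 < N) (θ : ℝ) (k : ℤ) :
    cos (θ - (2 * k + 1) * (π / N)) ≤ cos (sig N 0 θ) := by
  have hN' : (0 : ℝ) < N := by exact_mod_cast hN
  set t := θ - (2 * k + 1) * (π / N) with ht
  have h1 : -cos (N * θ) = cos (N * t) := by
    have : (N : ℝ) * θ = N * t + k * (2 * π) + π := by rw [ht]; field_simp; ring
    rw [this, cos_add_pi, cos_add_int_mul_two_pi, neg_neg]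
  have h2 : cos (arccos (cos t)) = cos t := cos_arccos (neg_one_le_cos t) (cos_le_one t)
  have h3 : cos (N * t) = cos (N * arccos (cos t)) := by
    have a1 := Polynomial.Chebyshev.T_real_cos t N
    have a2 := Polynomial.Chebyshev.T_real_cos (arccos (cos t)) N
    rw [h2, a1] at a2
    simpa using a2
  have h4 : sig N 0 θ ≤ arccos (cos t) := by
    unfold sig
    rw [sub_zero, neg_one_mul, h1, h3, div_le_iff₀ hN']
    refine (arccos_cos_le _).trans (le_of_eq ?_)
    rw [abs_of_nonneg (mul_nonneg hN'.le (arccos_nonneg _)), mul_comm]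
  rw [← h2]
  exact cos_le_cos_of_nonneg_of_le_pi (sig_mem N 0 θ).1 (arccos_le_pi _) h4

lemma continuous_PI {Γ : ℝ → ℝ → ℝ → ℝ}
    (h : Continuous fun p : ℝ × ℝ × ℝ => Γ p.1 p.2.1 p.2.2) (a b x0 x1 : ℝ) :
    Continuous fun d => PI a b (fun _ => x0) (fun _ => x1) (Γ d) := by
  unfold PI
  refine continuous_parametric_intervalIntegral_of_continuous' ?_ a b
  refine continuous_parametric_intervalIntegral_of_continuous'
    (f := fun (p : ℝ × ℝ) r => Γ p.1 r p.2 * r) ?_ x0 x1
  exact (h.comp (f := fun p : (ℝ × ℝ) × ℝ => (p.1.1, p.2, p.1.2)) (by fun_prop)).mul continuous_snd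

end Pool.Agent.PSz.Up
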