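import Pool.Agent.P.MP_7b7370_an.Reg
import Pool.Agent.P.MP_7b7370_an.Chg
import Pool.Agent.P.MP_7b7370_an.UpperA

set_option autoImplicit false

namespace Pool.Agent.PSz

open Real Set MeasureTheory intervalIntegral Filter Topology

namespace Up

lemma cutoff {a τ : ℝ} (hs : 0 < sg a) {w : P2 → ℝ} (hw : ContDiff ℝ 1 w)
    (hb : ∀ y, |y| ≤ 1 → w (1, y) = 0) (hτ : D0 a 0 1 w < τ * M0 a 0 1 w) :
    ∃ δ > 0, ∃ v : P2 → ℝ, ContDiff ℝ 1 v ∧ (∀ p : P2, 1 - δ ≤ p.1 → v p = 0) ∧
      D0 a 0 1 v < τ * M0 a 0 1 v := by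
  have hwc := hw.continuous
  have hc : Continuous fun ε => τ * M0 a 0 1 fun p => gg ε (w p) := by
    unfold M0
    simp only [T_eq]
    refine continuous_const.mul (continuous_const.mul ?_)
    exact continuous_PI (Γ := fun ε x η => gg ε (w (x, x * η)) ^ 2) (by fun_prop) _ _ _ _
  have h1 : ∀ᶠ ε in 𝓝 (0 : ℝ), D0 a 0 1 w < τ * M0 a 0 1 fun p => gg ε (w p) :=
    continuousAt_const.eventually_lt hc.continuousAt (by simpa only [gg_zero] using hτ)
  obtain ⟨ε, hε1, hε⟩ := ((h1.filter_mono nhdsWithin_le_nhds).and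
    (self_mem_nhdsWithin (s := Ioi 0))).exists
  have hε : 0 < ε := hε
  have h2 : ∀ᶠ x in 𝓝 (1 : ℝ), ∀ y ∈ Icc (-1 : ℝ) 1, |w (x, y)| < ε := by
    refine isCompact_Icc.eventually_forall_of_forall_eventually fun y hy => ?_
    refine hwc.abs.continuousAt.eventually_lt continuousAt_const ?_
    rw [hb y (abs_le.2 hy)]; simpa using hε
  obtain ⟨δ0, hδ0, h3⟩ := Metric.eventually_nhds_iff.1 h2
  have hg : ContDiff ℝ 1 fun p => gg ε (w p) := (contDiff_gg hε).comp hw
  set δ := δ0 / 4 with hδ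
  have hδp : 0 < δ := by positivity
  set v : P2 → ℝ := fun p => smoothTransition ((1 - δ - p.1) / δ) * gg ε (w p) with hv
  have hvs : ContDiff ℝ 1 v :=
    (smoothTransition.contDiff.comp (by fun_prop)).mul hg
  have key : ∀ x ∈ Ioo (0 : ℝ) 1, ∀ η ∈ Ioo (-1 : ℝ) 1,
      v =ᶠ[𝓝 (x, x * η)] fun p => gg ε (w p) := by
    intro x hx η hη
    rcases lt_or_ge x (1 - 2 * δ) with h | h
    · have : ∀ᶠ p : P2 in 𝓝 (x, x * η), p.1 < 1 - 2 * δ :=
        continuous_fst.continuousAt.eventually_lt continuousAt_const h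
      filter_upwards [this] with p hp
      simp only [hv]
      rw [smoothTransition.one_of_one_le ((one_le_div hδp).2 (by linarith)), one_mul]
    · have h4 : |w (x, x * η)| < ε := by
        refine h3 ?_ _ ⟨by nlinarith [hx.1, hx.2, hη.1], by nlinarith [hx.1, hx.2, hη.2]⟩
        rw [Real.dist_eq, abs_lt]; constructor <;> linarith [hx.2]
      have : ∀ᶠ p : P2 in 𝓝 (x, x * η), |w p| < ε :=
        hwc.abs.continuousAt.eventually_lt continuousAt_const h4
      filter_upwards [this] with p hp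
      simp only [hv, gg_eq_zero hε hp.le, mul_zero]
  refine ⟨δ, hδp, v, hvs, fun p hp => ?_, ?_⟩
  · simp only [hv]
    rw [smoothTransition.zero_of_nonpos (div_nonpos_of_nonpos_of_nonneg (by linarith) hδp.le),
      zero_mul]
  have hvc := hvs.continuous
  have hM : M0 a 0 1 v = M0 a 0 1 fun p => gg ε (w p) := by
    unfold M0
    congr 1
    refine T_congr (by unfold Cont; fun_prop) (by unfold Cont; fun_prop) le_rfl zero_le_one fun x hx η hη => ?_
    rw [(key x hx η hη).eq_of_nhds]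
  rw [hM]
  refine lt_of_le_of_lt ?_ hε1
  have c1 := continuous_px hw
  have c2 := continuous_py hw
  have c3 := continuous_px hvs
  have c4 := continuous_py hvs
  refine T_mono (by unfold Cont; fun_prop) (by unfold Cont; fun_prop) le_rfl zero_le_one
    fun x hx η hη => ?_
  have e := ((key x hx η hη).fderiv_eq (𝕜 := ℝ)).trans ((hasDerivAt_gg hε _).comp_hasFDerivAt _
    (hw.differentiable one_ne_zero (x, x * η)).hasFDerivAt).fderiv
  have h5 := gg'_sq_le hε (w (x, x * η))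
  have e1 : px v (x, x * η) = gg' ε (w (x, x * η)) * px w (x, x * η) := by simp [px, e]
  have e2 : py v (x, x * η) = gg' ε (w (x, x * η)) * py w (x, x * η) := by simp [py, e]
  rw [e1, e2, mul_pow, mul_pow]
  gcongr
  · exact mul_le_of_le_one_left (sq_nonneg _) h5
  · exact mul_le_of_le_one_left (sq_nonneg _) h5

/-- the smoothed folding map -/
noncomputable def GG (N : ℕ) (s d : ℝ) (z : ℂ) : ℂ :=
  pol (gg d ‖z‖) (s * (arccos (-(1 - d) * ((z ^ N).re / ‖z‖ ^ N)) / N))

lemma GG_pol (N : ℕ) (s : ℝ) {d r : ℝ} (hd : 0 < d) (hr : 0 ≤ r) (θ : ℝ) :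
    GG N s d (pol r θ) = pol (gg d r) (s * sig N d θ) := by
  unfold GG
  rw [norm_pol, abs_of_nonneg hr]
  rcases hr.eq_or_lt with rfl | hr
  · rw [gg_eq_zero hd (by simpa using hd.le), pol_zero, pol_zero]
  have : pol r θ ^ N = pol (r ^ N) (N * θ) := by
    simp only [pol, cis, mul_pow, ← Complex.exp_nat_mul]
    push_cast; ring_nf
  rw [this, pol_re, mul_div_cancel_left₀ _ (pow_pos hr N).ne', sig]

lemma contDiff_pol : ContDiff ℝ 1 fun p : ℝ × ℝ => pol p.1 p.2 := by
  have h : ContDiff ℝ 1 fun x : ℝ => (x : ℂ) := Complex.ofRealCLM.contDiff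
  have h2 : ContDiff ℝ 1 Complex.exp := Complex.contDiff_exp
  unfold pol cis
  exact (h.comp contDiff_fst).mul (h2.comp ((h.comp contDiff_snd).mul contDiff_const))

lemma contDiff_GG (N : ℕ) (s : ℝ) {d : ℝ} (hd : 0 < d) (hd1 : d ≤ 1) :
    ContDiff ℝ 1 (GG N s d) := by
  rw [contDiff_iff_contDiffAt]
  intro z
  rcases eq_or_ne z 0 with rfl | hz
  · refine (contDiffAt_const (c := 0)).congr_of_eventuallyEq ?_
    filter_upwards [Metric.ball_mem_nhds 0 hd] with z hz
    rw [GG, gg_eq_zero hd (by simpa using (mem_ball_zero_iff.1 hz).le), pol_zero]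
  have hn : ContDiffAt ℝ 1 (fun z : ℂ => ‖z‖) z := contDiffAt_norm ℝ hz
  have hp : ‖z‖ ^ N ≠ 0 := pow_ne_zero _ (norm_ne_zero_iff.2 hz)
  have h1 : ContDiffAt ℝ 1 (fun z : ℂ => -(1 - d) * ((z ^ N).re / ‖z‖ ^ N)) z :=
    contDiffAt_const.mul ((Complex.reCLM.contDiff.contDiffAt.comp z
      (contDiffAt_id.pow N)).div (hn.pow N) hp)
  have h2 : |(z ^ N).re / ‖z‖ ^ N| ≤ 1 := by
    rw [abs_div, abs_of_nonneg (a := ‖z‖ ^ N) (by positivity), ← norm_pow]
    exact div_le_one_of_le₀ (Complex.abs_re_le_norm _) (norm_nonneg _)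
  have h3 := abs_lt.1 (abs_lt_one hd hd1 h2)
  have h4 := (contDiffAt_arccos (n := 1) h3.1.ne' h3.2.ne).comp z h1
  exact contDiff_pol.contDiffAt.comp z (((contDiff_gg hd).contDiffAt.comp z hn).prodMk
    (contDiffAt_const.mul (h4.div_const N)))

lemma grad_le {N : ℕ} (hN : 0 < N) {s : ℝ} (hs : s ^ 2 = 1) {d : ℝ} (hd : 0 < d) (hd1 : d ≤ 1)
    {F : ℂ → ℝ} (hF : ContDiff ℝ 1 F) {r : ℝ} (hr : 0 < r) (θ : ℝ) :
    ‖fderiv ℝ (fun z => F (GG N s d z)) (pol r θ)‖ ^ 2
      ≤ ‖fderiv ℝ F (pol (gg d r) (s * sig N d θ))‖ ^ 2 := by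
  have hf : ContDiff ℝ 1 fun z => F (GG N s d z) := hF.comp (contDiff_GG N s hd hd1)
  obtain ⟨s', h1, h2⟩ := sig_deriv hN hd hd1 θ
  have a1 := (hasDerivAt_ray hF (gg d r) (s * sig N d θ)).comp r (hasDerivAt_gg hd r)
  have a2 := (hasDerivAt_arc hF (gg d r) (s * sig N d θ)).comp θ (h1.const_mul s)
  have b1 := (hasDerivAt_ray hf r θ).unique (a1.congr_of_eventuallyEq (by
    filter_upwards [Ioi_mem_nhds hr] with x hx
    simp only [GG_pol N s hd (le_of_lt hx), Function.comp]))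
  have b2 := (hasDerivAt_arc hf r θ).unique (a2.congr_of_eventuallyEq (by
    filter_upwards with x
    simp only [GG_pol N s hd hr.le, Function.comp]))
  rw [norm_clm_sq_cis _ θ, norm_clm_sq_cis _ (s * sig N d θ), b1, mul_pow]
  obtain ⟨g1, g2, -⟩ := gg_mem hd hr.le
  refine add_le_add (mul_le_of_le_one_right (sq_nonneg _) (gg'_sq_le hd r)) ?_
  refine le_of_mul_le_mul_left ?_ (pow_pos hr 2)
  rw [← mul_pow, b2, mul_pow, mul_pow, mul_pow, hs, one_mul]
  refine (mul_le_of_le_one_right (by positivity) h2).trans ?_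
  gcongr

lemma cos_pos {N : ℕ} (hN : 3 ≤ N) : 0 < π / N ∧ π / N < π / 2 ∧ 0 < cos (π / N) := by
  have hN' : (3 : ℝ) ≤ N := by exact_mod_cast hN
  have h1 : 0 < π / N := by positivity
  have h2 : π / N < π / 2 := div_lt_div_of_pos_left pi_pos two_pos (by linarith)
  exact ⟨h1, h2, cos_pos_of_mem_Ioo ⟨by linarith, h2⟩⟩

noncomputable def Qi (F : ℂ → ℝ) (τ : ℝ) (z : ℂ) : ℝ := ‖fderiv ℝ F z‖ ^ 2 - τ * F z ^ 2

lemma continuous_Qi {F : ℂ → ℝ} (hF : ContDiff ℝ 1 F) (τ : ℝ) : Continuous (Qi F τ) :=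
  ((hF.continuous_fderiv one_ne_zero).norm.pow 2).sub (continuous_const.mul (hF.continuous.pow 2))

lemma fold {N : ℕ} (hN : 3 ≤ N) {F : ℂ → ℝ} (hF : ContDiff ℝ 1 F) {X δ τ s : ℝ}
    (hδ : 0 < δ) (h0 : ∀ z : ℂ, X - δ ≤ z.re → F z = 0) (hX : 0 < X) (hs : s = 1 ∨ s = -1)
    (hQ : PI 0 (π / N) (fun _ => 0) (fun _ => X / cos (π / N) + 2)
      (fun r θ => Qi F τ (pol r (s * θ))) < 0) :
    ∃ f : ℂ → ℝ, ContDiff ℝ 1 f ∧ HasCompactSupport f ∧
      tsupport f ⊆ {z | ∀ k : ℤ, z.re * cos ((2 * k + 1) * (π / N))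
        + z.im * sin ((2 * k + 1) * (π / N)) < X} ∧ en f < τ * ma f := by
  obtain ⟨ha, ha2, hc⟩ := cos_pos hN
  have hN0 : 0 < N := by omega
  have hN' : (0 : ℝ) < N := by exact_mod_cast hN0
  set R := X / cos (π / N) + 2 with hR
  have hR0 : 0 < R := by positivity
  have hq := continuous_Qi hF τ
  have hp := contDiff_pol.continuous
  have hcs : ∀ x, cos (s * x) = cos x := by rcases hs with rfl | rfl <;> simp
  have hΦ : Continuous fun d => PI (-π) π (fun _ => 0) (fun _ => R)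
      fun r θ => Qi F τ (pol (gg d r) (s * sig N d θ)) :=
    continuous_PI (Γ := fun d r θ => Qi F τ (pol (gg d r) (s * sig N d θ)))
      (hq.comp (Continuous.pol (by fun_prop) (by fun_prop))) _ _ _ _
  have e1 : ∀ᶠ d in 𝓝 (0 : ℝ), PI (-π) π (fun _ => 0) (fun _ => R)
      (fun r θ => Qi F τ (pol (gg d r) (s * sig N d θ))) < 0 := by
    refine hΦ.continuousAt.eventually_lt continuousAt_const ?_
    have hc : Cont fun r θ => Qi F τ (pol r (s * θ)) :=
      hq.comp (Continuous.pol (by fun_prop) (by fun_prop))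
    have := integral_sig hN0 (hc.inner (continuous_const (y := 0)) (continuous_const (y := R)))
    simp only [gg_zero]
    exact this.trans_lt (mul_neg_of_pos_of_neg (by positivity) hQ)
  have e2 : ∀ᶠ d in 𝓝 (0 : ℝ), ∀ p ∈ Icc 0 R ×ˢ Icc (-π) π,
      p.1 * cos (sig N 0 p.2) - gg d p.1 * cos (sig N d p.2) < δ / 2 := by
    refine (isCompact_Icc.prod isCompact_Icc).eventually_forall_of_forall_eventually
      fun p _ => ?_
    refine ContinuousAt.eventually_lt (Continuous.continuousAt (by fun_prop)) continuousAt_const ?_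
    simpa [gg_zero] using hδ
  have e3 : ∀ᶠ d in 𝓝 (0 : ℝ), d < 1 := Iio_mem_nhds one_pos
  obtain ⟨d, ⟨k1, k2, k3⟩, hd⟩ := (((e1.and (e2.and e3)).filter_mono nhdsWithin_le_nhds).and
    (self_mem_nhdsWithin (s := Ioi 0))).exists
  have hd : 0 < d := hd
  set f : ℂ → ℝ := fun z => F (GG N s d z) with hf
  have hfs : ContDiff ℝ 1 f := hF.comp (contDiff_GG N s hd k3.le)
  have hsup : Function.support f ⊆ Metric.closedBall 0 (R - (2 - 2 * d)) ∩
      ⋂ k : ℤ, {z : ℂ | z.re * cos ((2 * k + 1) * (π / N))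
        + z.im * sin ((2 * k + 1) * (π / N)) ≤ X - δ / 2} := by
    intro z hz
    have ez : pol ‖z‖ (Complex.arg z) = z := Complex.norm_mul_exp_arg_mul_I z
    have h1 : gg d ‖z‖ * cos (sig N d z.arg) < X - δ := by
      by_contra h
      refine hz (h0 _ ?_)
      rw [← ez, GG_pol N s hd (norm_nonneg z), pol_re, hcs]
      exact not_lt.1 h
    obtain ⟨g1, g2, g3⟩ := gg_mem hd (norm_nonneg z)
    have h2 : cos (π / N) ≤ cos (sig N d z.arg) :=
      cos_le_cos_of_nonneg_of_le_pi (sig_mem N d _).1 (by linarith [pi_pos]) (sig_mem N d _).2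
    have h3 : gg d ‖z‖ ≤ X / cos (π / N) := by
      rw [le_div_iff₀ hc]; nlinarith
    refine ⟨mem_closedBall_zero_iff.2 (by linarith), mem_iInter.2 fun k => ?_⟩
    have h4 := k2 (‖z‖, z.arg) ⟨⟨norm_nonneg z, by simp only; linarith⟩,
      (Complex.neg_pi_lt_arg z).le, Complex.arg_le_pi z⟩
    have h5 := mul_le_mul_of_nonneg_left (cos_le_cos_sig hN0 z.arg k) (norm_nonneg z)
    rw [cos_sub, mul_add, ← mul_assoc, ← mul_assoc, ← pol_re _ z.arg, ← pol_im _ z.arg, ez] at h5
    simp only [mem_ofPred_eq] at h4 ⊢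
    linarith
  have hts := closure_minimal hsup (Metric.isClosed_closedBall.inter
    (isClosed_iInter fun k => isClosed_le (by fun_prop) continuous_const))
  have hout : ∀ z, z ∉ Metric.ball (0 : ℂ) R → z ∉ tsupport f := fun z hz h =>
    hz (Metric.closedBall_subset_ball (by linarith) (hts h).1)
  refine ⟨f, hfs, (isCompact_closedBall _ _).of_isClosed_subset (isClosed_tsupport f)
    (fun z hz => (hts hz).1), fun z hz k => ?_, ?_⟩
  · have := mem_iInter.1 (hts hz).2 k
    simp only [mem_ofPred_eq] at this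
    linarith
  have c1 : Continuous fun z => ‖fderiv ℝ f z‖ ^ 2 :=
    (hfs.continuous_fderiv one_ne_zero).norm.pow 2
  have c2 : Continuous fun z => f z ^ 2 := hfs.continuous.pow 2
  have i1 : en f = PI (-π) π (fun _ => 0) (fun _ => R) fun r θ => ‖fderiv ℝ f (pol r θ)‖ ^ 2 := by
    rw [← integral_ball c1 hR0.le, en]
    refine (setIntegral_eq_integral_of_forall_compl_eq_zero fun z hz => ?_).symm
    rw [fderiv_of_notMem_tsupport _ (hout z hz)]; simp
  have i2 : ma f = PI (-π) π (fun _ => 0) (fun _ => R) fun r θ => f (pol r θ) ^ 2 := by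
    rw [← integral_ball c2 hR0.le, ma]
    refine (setIntegral_eq_integral_of_forall_compl_eq_zero fun z hz => ?_).symm
    rw [image_eq_zero_of_notMem_tsupport (hout z hz)]; simp
  rw [← sub_neg, i1, i2, ← PI_const_mul, ← PI_sub (c1.comp hp) (continuous_const.mul (c2.comp hp))
    continuous_const continuous_const]
  refine lt_of_le_of_lt ?_ k1
  refine PI_mono ((c1.comp hp).sub (continuous_const.mul (c2.comp hp)))
    (hq.comp (Continuous.pol (by fun_prop) (by fun_prop))) continuous_const continuous_const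
    (by linarith [pi_pos]) (fun _ _ => ⟨le_rfl, hR0.le⟩) fun θ _ r hr => ?_
  have := grad_le hN0 (s := s) (by rcases hs with rfl | rfl <;> simp) hd k3.le hF hr.1 θ
  simp only [Qi, hf, GG_pol N s hd hr.1.le]
  linarith

end Up

/-- paper 9.3: folding a test function of the triangle onto the regular polygon -/
theorem upper {N : ℕ} (hN : 3 ≤ N) {w : P2 → ℝ} (hw : ContDiff ℝ 1 w)
    (hb : ∀ y, |y| ≤ 1 → w (1, y) = 0) {τ : ℝ} (hτ : D0 (π / N) 0 1 w < τ * M0 (π / N) 0 1 w) :
    ∃ f : ℂ → ℝ, ContDiff ℝ 1 f ∧ HasCompactSupport f ∧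
      tsupport f ⊆ {z | ∀ k : ℤ, z.re * cos ((2 * k + 1) * (π / N))
        + z.im * sin ((2 * k + 1) * (π / N)) < Rv (π / N) * cos (π / N)} ∧
      en f < τ * ma f := by
  obtain ⟨ha, ha2, hc⟩ := Up.cos_pos hN
  set a := π / N with ha'
  have hsn : 0 < sin a := sin_pos_of_pos_of_lt_pi ha (by linarith [pi_pos])
  have hsg : sg a = sin a / cos a := tan_eq_sin_div_cos a
  have hs : 0 < sg a := by rw [hsg]; positivity
  obtain ⟨δ, hδ, v, hv, hv0, hQ⟩ := Up.cutoff hs hw hb hτ
  have hq : q0 a 1 = a / (sin a * cos a) := by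
    simp only [q0, X2, om, tan_eq_sin_div_cos]
    field_simp
    linear_combination sin_sq_add_cos_sq a
  have hR2 : Rv a ^ 2 = a / (sin a * cos a) := by rw [Rv, sq_sqrt (by rw [hq]; positivity), hq]
  have hR : 0 < Rv a := sqrt_pos.2 (by rw [hq]; positivity)
  set X := Rv a * cos a with hX
  have hXp : 0 < X := by positivity
  have hcos : ∀ φ ∈ Icc (-a) a, cos a ≤ cos φ := fun φ hφ => by
    rw [← cos_abs φ]
    exact cos_le_cos_of_nonneg_of_le_pi (abs_nonneg _) (by linarith [pi_pos]) (abs_le.2 hφ)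
  obtain ⟨M, D, η, R, hT, hRe⟩ := exists_tri (A := 1 / X) (B := 0) (θa := -a) (θb := a)
    (by linarith) fun φ hφ => by
      simp only [ell, zero_mul, add_zero]; exact mul_pos (by positivity) (hc.trans_le (hcos φ hφ))
  have hRe' : ∀ φ ∈ Icc (-a) a, R φ = X / cos φ := fun φ hφ => by
    rw [hRe φ hφ]; simp [ell, div_eq_mul_inv, mul_comm]
  have m1 : -a ∈ Icc (-a) a := ⟨le_rfl, by linarith⟩
  have m2 : a ∈ Icc (-a) a := ⟨by linarith, le_rfl⟩
  have p1 := hT.pt _ m1
  have p2 := hT.pt _ m2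
  have eR : X / cos a = Rv a := by rw [hX]; field_simp
  rw [hRe' _ m1, hT.ea, cos_neg, eR] at p1
  rw [hRe' _ m2, hT.eb, eR] at p2
  have q1 := congrArg Complex.re p1
  have q2 := congrArg Complex.im p1
  have q3 := congrArg Complex.re p2
  have q4 := congrArg Complex.im p2
  simp at q1 q2 q3 q4
  have r1 : M.re = X := by linarith
  have r2 : M.im = 0 := by linarith
  have r3 : D.re = 0 := by linarith
  have r4 : D.im = Rv a * sin a := by linarith
  have hdet : det M D = a := by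
    rw [det, r1, r2, r4, hX]
    have : Rv a * cos a * (Rv a * sin a) = Rv a ^ 2 * (sin a * cos a) := by ring
    rw [this, hR2]; field_simp; ring
  set F : ℂ → ℝ := fun z => v (Li M D z) with hF
  have hFs : ContDiff ℝ 1 F := hv.comp (contDiff_Li M D)
  have hFL : ∀ p, F (Lm M D p) = v p := fun p => by simp only [hF, Li_Lm hT.ar.ne']
  have hF0 : ∀ z : ℂ, X - δ * X ≤ z.re → F z = 0 := fun z hz => hv0 _ (by
    have : (Li M D z).1 = z.re / X := by
      simp only [Li, det, r1, r2, r3, r4]; field_simp; ring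
    rw [this, le_div_iff₀ hXp]; linarith)
  have hp := Up.contDiff_pol.continuous
  have c1 : Cont fun r θ => ‖fderiv ℝ F (pol r θ)‖ ^ 2 :=
    ((hFs.continuous_fderiv one_ne_zero).norm.pow 2).comp hp
  have c2 : Cont fun r θ => F (pol r θ) ^ 2 := (hFs.continuous.pow 2).comp hp
  have c3 : Cont fun r θ => Up.Qi F τ (pol r θ) := (Up.continuous_Qi hFs τ).comp hp
  have i1 := hT.chgD 0 1 hFs
  have i2 := hT.chgF 0 1 (F := fun z => F z ^ 2) (hFs.continuous.pow 2)
  simp only [zero_mul, one_mul, hFL, hdet, PD] at i1 i2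
  have e1 : DG M D 0 1 (fun p => v p) = D0 a 0 1 v := by
    unfold DG D0
    congr 1; funext x y
    have n1 : Complex.normSq D = a * sg a := by
      rw [Complex.normSq_apply, r3, r4, hsg]
      have : Rv a * sin a * (Rv a * sin a) = Rv a ^ 2 * sin a ^ 2 := by ring
      rw [this, hR2]; field_simp; ring
    have n2 : Complex.normSq M = a / sg a := by
      rw [Complex.normSq_apply, r1, r2, hsg, hX]
      have : Rv a * cos a * (Rv a * cos a) = Rv a ^ 2 * cos a ^ 2 := by ring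
      rw [this, hR2]; field_simp; ring
    rw [n1, n2, hdet, ip, r2, r3]; field_simp; ring
  have i3 : PI (-a) a (fun _ => 0) R (fun r θ => Up.Qi F τ (pol r θ)) < 0 := by
    unfold Up.Qi
    rw [PI_sub c1 (continuous_const.mul c2) continuous_const hT.cR, PI_const_mul, i1, i2, e1]
    exact sub_neg.2 hQ
  have i4 : PI (-a) a R (fun _ => X / cos a + 2) (fun r θ => Up.Qi F τ (pol r θ)) = 0 := by
    rw [← PI_zero (θa := -a) (θb := a) (r0 := R) (r1 := fun _ => X / cos a + 2)]
    refine PI_congr c3 continuous_const hT.cR continuous_const (by linarith)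
      (fun θ hθ => ⟨(hT.Rpos θ).le, ?_⟩) fun θ hθ r hr => ?_
    · rw [hRe' θ (Ioo_subset_Icc_self hθ)]
      have := div_le_div_of_nonneg_left hXp.le hc (hcos θ (Ioo_subset_Icc_self hθ))
      linarith
    · have h1 := hr.1
      rw [hRe' θ (Ioo_subset_Icc_self hθ),
        div_lt_iff₀ (hc.trans_le (hcos θ (Ioo_subset_Icc_self hθ))), ← pol_re] at h1
      have h2 : F =ᶠ[𝓝 (pol r θ)] fun _ => 0 := by
        filter_upwards [continuousAt_const.eventually_lt Complex.continuous_re.continuousAt h1]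
          with z hz
        exact hF0 z (by nlinarith)
      simp [Up.Qi, h2.fderiv_eq, h2.eq_of_nhds]
  have i5 := PI_split (θa := -a) (θb := a) c3 (continuous_const (y := 0)) hT.cR
    (continuous_const (y := X / cos a + 2))
  rw [i4, add_zero] at i5
  have c4 := c3.inner (continuous_const (y := 0)) (continuous_const (y := X / cos a + 2))
  rw [i5, PI, ← integral_add_adjacent_intervals (b := 0) (c4.intervalIntegrable _ _)
    (c4.intervalIntegrable _ _)] at i3
  have i6 := integral_comp_neg (a := 0) (b := a)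
    fun θ => ∫ r in (0 : ℝ)..(X / cos a + 2), Up.Qi F τ (pol r θ) * r
  rw [neg_zero] at i6
  by_cases h : ∫ θ in (0 : ℝ)..a, ∫ r in (0 : ℝ)..(X / cos a + 2), Up.Qi F τ (pol r θ) * r < 0
  · exact Up.fold hN hFs (mul_pos hδ hXp) hF0 hXp (.inl rfl) (by simpa only [one_mul, PI] using h)
  · refine Up.fold hN hFs (mul_pos hδ hXp) hF0 hXp (.inr rfl) ?_
    simp only [neg_one_mul, PI]
    linarith

end Pool.Agent.PSz
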