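import Pool.Agent.P.MP_7b7370_an.Asm
import Pool.Agent.P.MP_7b7370_an.Slit
import Pool.Agent.P.MP_7b7370_an.FK
import Pool.Agent.P.MP_7b7370_an.Fan
import Pool.Agent.P.MP_7b7370_an.Center
import Pool.Agent.P.MP_7b7370_an.Upper
import Pool.Agent.P.MP_7b7370_an.Ref1
import Pool.Agent.P.MP_7b7370_an.FinalA

set_option autoImplicit false

namespace Pool.Agent.PSz

open Real Set MeasureTheory intervalIntegral

namespace Fi

lemma exists_N {a0 : ℝ} (h : 0 < a0) : ∃ N0 : ℕ, ∀ N ≥ N0, 3 ≤ N ∧ 0 < π / N ∧ π / N ≤ a0 := by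
  refine ⟨⌈π / a0⌉₊ + 3, fun N hN => ?_⟩
  have h3 : 3 ≤ N := by omega
  have hN0 : (0 : ℝ) < N := by exact_mod_cast (by omega : 0 < N)
  refine ⟨h3, div_pos pi_pos hN0, ?_⟩
  have h1 : π / a0 ≤ N := (Nat.le_ceil _).trans (by exact_mod_cast (by omega : ⌈π / a0⌉₊ ≤ N))
  rw [div_le_iff₀ hN0]
  rw [div_le_iff₀ h] at h1
  linarith

/-- the centred case -/
lemma lower_centred : ∃ ε δ : ℝ, 0 < ε ∧ 0 < δ ∧ ∃ N0 : ℕ, ∀ N ≥ N0, ∀ (v : Fin N → ℂ)
    (Ω : Set ℂ), IsPoly v Ω → volume Ω ≤ ENNReal.ofReal π →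
    volume (Metric.ball (0 : ℂ) 1 \ Ω) ≤ ENNReal.ofReal δ →
    ∫ z in Ω ∩ Metric.ball (0 : ℂ) (1 + ε), z = 0 → (∃ i0, ∃ x : ℝ, 0 ≤ x ∧ v i0 = -(x : ℂ)) →
    ∀ u : ℂ → ℝ, ContDiff ℝ 1 u → HasCompactSupport u → tsupport u ⊆ Ω →
      tt (π / N) * ma u ≤ en u := by
  obtain ⟨ε, δ1, a0, hε, hε1, hδ1, ha0, hmain⟩ := fan_main
  obtain ⟨δ2, hδ2, hslit⟩ := slit hε (hε1.trans (by norm_num))
  obtain ⟨N0, hN0⟩ := exists_N (a0 := min a0 (min (1 / 1000) δ2)) (by positivity)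
  refine ⟨ε, min δ1 (min δ2 ((ε / 4) ^ 2)), hε, by positivity, N0, ?_⟩
  rintro N hN v Ω hP hvol hv hcen ⟨i0, x, hx, hi0⟩ u hu hc hs
  obtain ⟨h3, ha, ha'⟩ := hN0 N hN
  have ha1 : π / N ≤ a0 := ha'.trans (min_le_left _ _)
  have ha2 : π / N ≤ 1 / 1000 := ha'.trans ((min_le_right _ _).trans (min_le_left _ _))
  have ha3 : π / N ≤ δ2 := ha'.trans ((min_le_right _ _).trans (min_le_right _ _))
  have hΩ := hP.isOpen.measurableSet
  have hout := vol_diff_le hvol hΩ hv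
  have hε2 : ε ≤ 1 / 100 := hε1.trans (by norm_num)
  have hd3 : min δ1 (min δ2 ((ε / 4) ^ 2)) ≤ (ε / 4) ^ 2 :=
    (min_le_right _ _).trans (min_le_right _ _)
  by_cases hcase : ∃ z ∈ frontier Ω, ‖z‖ < 1 - ε
  · obtain ⟨h, hR⟩ := exists_ref ha ha2 (pow_pos ha 3) le_rfl
    refine hslit _ hR.t_lo hR.t_hi (hR.F_one.trans (by nlinarith)) Ω u hΩ hu hc hs
      (hout.trans (ENNReal.ofReal_le_ofReal ((min_le_right _ _).trans (min_le_left _ _))))
      fun r hr => ?_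
    obtain ⟨z1, hz1, hn1⟩ := hcase
    have hnx : ‖((1 - ε / 4 : ℝ) : ℂ)‖ = 1 - ε / 4 := by
      rw [Complex.norm_real, Real.norm_of_nonneg (by linarith)]
    obtain ⟨z2, hz2, hz2'⟩ := exists_mem_ball (x := ((1 - ε / 4 : ℝ) : ℂ)) (by positivity) hd3
      (by rw [hnx]; linarith) hv
    have hn2 : 1 - ε / 2 ≤ ‖z2‖ := by
      rw [Metric.mem_ball, dist_eq_norm] at hz2
      have := norm_sub_norm_le ((1 - ε / 4 : ℝ) : ℂ) z2
      rw [norm_sub_rev, hnx] at this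
      linarith
    obtain ⟨z3, hz3, hn3⟩ := exists_far hP.isOpen hP.bdd hz2' (by
      rintro rfl
      rw [norm_zero] at hn2
      linarith)
    obtain ⟨z, hz, hzr⟩ := (preconn_front hP).intermediate_value hz1 hz3
      continuous_norm.continuousOn (show r ∈ _ from ⟨by linarith [hr.1], by linarith [hr.2]⟩)
    refine ⟨Complex.arg z, ⟨(Complex.neg_pi_lt_arg z).le, Complex.arg_le_pi z⟩, ?_⟩
    have : pol r (Complex.arg z) = z := by
      rw [← hzr]
      exact Complex.norm_mul_exp_arg_mul_I z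
    rw [this]
    exact zero_of_front hP.isOpen hs hz
  · push Not at hcase
    have hball : Metric.ball (0 : ℂ) (1 - ε) ⊆ Ω := by
      refine subset_of_preconn hP.isOpen (convex_ball _ _).isPreconnected
        (fun z hz hf => absurd (hcase z hf) (not_le.2 (mem_ball_zero_iff.1 hz))) ?_
      obtain ⟨z, hz, hz'⟩ := exists_mem_ball (x := 0) (by positivity) hd3
        (by rw [norm_zero]; linarith) hv
      exact ⟨z, Metric.ball_subset_ball (by linarith) hz, hz'⟩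
    have h0 : (0 : ℂ) ∈ Ω := hball (Metric.mem_ball_self (by linarith))
    have hvf : v i0 ∈ frontier Ω := by
      rw [hP.front]
      exact mem_iUnion.2 ⟨i0, left_mem_segment _ _ _⟩
    have hx0 : 0 < x := by
      have := hcase _ hvf
      rw [hi0, norm_neg, Complex.norm_real, Real.norm_of_nonneg hx] at this
      linarith
    obtain ⟨θ, A, B, hθ, hθ0, hθN, hfan⟩ := fan hP h0 i0 (by simp [hi0]) (by simpa [hi0] using hx0)
    obtain ⟨m1, m2, m3⟩ := moment N θ hθ hθ0 hθN (ρ := 1 + ε) (fun k => Rp ε (A k) (B k))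
      (fun k => continuous_Rp hε _ _) (fun k φ => ⟨(Rp_pos hε _ _ _).le, Rp_le hε _ _ _⟩) hΩ hvol
      (fun k hk φ hφ r hr hr' => by
        obtain ⟨f1, f2⟩ := hfan k hk (hφ.1.trans hφ.2)
        refine f2 φ hφ r hr (hr'.trans_le ?_)
        exact one_div_le_one_div_of_le (f1 φ (Ioo_subset_Icc_self hφ)).1 (le_max_left _ _)) hcen
    obtain ⟨e1, e2⟩ := ext_bound hΩ hu hc hs (ρ := 1 + ε) (by linarith) hδ1.le
      ((measure_mono (sdiff_subset_sdiff_right (Metric.ball_subset_ball (by linarith)))).trans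
        (hout.trans (ENNReal.ofReal_le_ofReal (min_le_left _ _))))
    refine hmain N (by omega) ha1 _ (fun ς h1 h2 => exists_ref ha ha2 h1 h2) θ A B hθ hθ0 hθN
      (fun k hk hlt φ hφ => ?_) m1 m2 m3 u hu hc
      (fun k hk hlt φ hφ => zero_of_front hP.isOpen hs ((hfan k hk hlt).1 φ hφ).2) e1 e2
    obtain ⟨f1, f2⟩ := (hfan k hk hlt).1 φ hφ
    refine ⟨f1, ?_⟩
    have := hcase _ f2
    rw [norm_pol, abs_of_pos (one_div_pos.2 f1)] at this
    exact (le_one_div f1 (by linarith)).2 this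

end Fi

open Fi in
/-- paper 19.1 -/
theorem lower : ∃ N0 : ℕ, ∀ N ≥ N0, ∀ (v : Fin N → ℂ) (Ω : Set ℂ), IsPoly v Ω →
    volume Ω ≤ ENNReal.ofReal π → ∀ u : ℂ → ℝ, ContDiff ℝ 1 u → HasCompactSupport u →
    tsupport u ⊆ Ω → tt (π / N) * ma u ≤ en u := by
  obtain ⟨ε, δ, hε, hδ, N1, hcen⟩ := lower_centred
  obtain ⟨δ', hδ', hcenter⟩ := center hε hδ
  obtain ⟨d, hd, hfk⟩ := fk_stab hδ'
  obtain ⟨N2, hN2⟩ := exists_N (a0 := min (1 / 1000) d) (by positivity)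
  refine ⟨max N1 N2, fun N hN v Ω hP hvol u hu hc hs => ?_⟩
  obtain ⟨h3, ha, ha'⟩ := hN2 N (le_of_max_le_right hN)
  have ha2 : π / N ≤ 1 / 1000 := ha'.trans (min_le_left _ _)
  have ha3 : π / N ≤ d := ha'.trans (min_le_right _ _)
  have hΩ := hP.isOpen.measurableSet
  by_contra hcon
  push Not at hcon
  have ht : tt (π / N) ≤ j2 + d := by
    obtain ⟨h, hR⟩ := exists_ref ha ha2 (pow_pos ha 3) le_rfl
    have h1 := (tt_bounds ha ha2).2
    have h2 := X2_ge ha ha2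
    have h4 := hR.t_lo
    have h5 := hR.t_hi
    have h6 : tt (π / N) * (1 - (π / N) ^ 2 / 2) ≤ tt (π / N) * X2 (π / N) :=
      mul_le_mul_of_nonneg_left h2 (by linarith)
    have h7 : tt (π / N) * (π / N) ^ 2 ≤ 5.8 * (π / N) ^ 2 :=
      mul_le_mul_of_nonneg_right h5 (by positivity)
    nlinarith
  have hma : 0 ≤ ma u := MeasureTheory.integral_nonneg fun _ => sq_nonneg _
  obtain ⟨x1, hx1⟩ := hfk Ω u hΩ hvol hu hc hs
    (hcon.trans_le (mul_le_mul_of_nonneg_right ht hma))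
  obtain ⟨x0, hx0, hm⟩ := hcenter Ω x1 hΩ hvol hx1
  obtain ⟨α, h1, h2⟩ := exists_rot (v ⟨0, by omega⟩ - x0)
  have hα : α ≠ 0 := by
    rintro rfl
    simp at h1
  have hv : ∀ S, volume (sim α x0 hα ⁻¹' S) = volume S := fun S => by
    rw [vol_sim, h1]; simp
  have key := hcen N (le_of_max_le_left hN) _ _ (isPoly_sim (β := x0) hα hP)
    (by rw [hv]; exact hvol) (by rw [← ball_sim hα h1 (β := x0), ← preimage_sdiff, hv]; exact hx0)
    (centroid_sim hα h1 hm) ⟨⟨0, by omega⟩, _, norm_nonneg _, h2⟩ (u ∘ sim α x0 hα)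
    (hu.comp (contDiff_sim hα)) (hc.comp_homeomorph _) (tsupport_sim hα hs)
  rw [en_sim hα hu, ma_sim, h1] at key
  simp only [one_pow, inv_one, one_mul] at key
  linarith

open Fi in
/-- paper 19.2 -/
theorem main : ∃ N0 : ℕ, ∀ N ≥ N0, ∀ (v : Fin N → ℂ) (Ω : Set ℂ) (r : ℝ) (Ω₀ : Set ℂ),
    IsPoly v Ω → 0 < r → IsOpen Ω₀ → Bornology.IsBounded Ω₀ → frontier Ω₀ = regFront N r →
    volume Ω₀ = volume Ω →
    sInf {q : ℝ | ∃ f : ℂ → ℝ, ContDiff ℝ 1 f ∧ HasCompactSupport f ∧ tsupport f ⊆ Ω₀ ∧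
        f ≠ 0 ∧ q = (∫ x, ‖fderiv ℝ f x‖ ^ 2) / (∫ x, f x ^ 2)}
      ≤ sInf {q : ℝ | ∃ f : ℂ → ℝ, ContDiff ℝ 1 f ∧ HasCompactSupport f ∧ tsupport f ⊆ Ω ∧
        f ≠ 0 ∧ q = (∫ x, ‖fderiv ℝ f x‖ ^ 2) / (∫ x, f x ^ 2)} := by
  obtain ⟨N1, hlow⟩ := lower
  obtain ⟨N2, hN2⟩ := exists_N (a0 := 1 / 1000) (by norm_num)
  refine ⟨max N1 N2, fun N hN v Ω r Ω₀ hP hr ho hb hf hvol => ?_⟩
  obtain ⟨h3, ha, ha2⟩ := hN2 N (le_of_max_le_right hN)
  have hRv : 0 < Rv (π / N) := sqrt_pos.2 (q0_pos ha ha2 1)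
  obtain ⟨s, hs⟩ : ∃ s, s = r / Rv (π / N) := ⟨_, rfl⟩
  have hs0 : 0 < s := by rw [hs]; positivity
  have hα : (s : ℂ) ≠ 0 := by exact_mod_cast hs0.ne'
  have hα' : ((s⁻¹ : ℝ) : ℂ) ≠ 0 := by exact_mod_cast (inv_pos.2 hs0).ne'
  have hn : ‖(s : ℂ)‖ = s := by rw [Complex.norm_real, Real.norm_of_nonneg hs0.le]
  have hn' : ‖((s⁻¹ : ℝ) : ℂ)‖ = s⁻¹ := by
    rw [Complex.norm_real, Real.norm_of_nonneg (inv_pos.2 hs0).le]
  refine le_trans (b := tt (π / N) / s ^ 2) ?_ (le_csInf ?_ ?_)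
  · refine le_of_forall_pos_le_add fun e he => ?_
    obtain ⟨w, hw, hw1, hw2⟩ := tt_approx ha ha2 (τ := tt (π / N) + e * s ^ 2)
      (lt_add_of_pos_right _ (by positivity))
    obtain ⟨f, f1, f2, f3, f4⟩ := upper h3 hw hw1 hw2
    have f0 : f ≠ 0 := by
      rintro rfl
      simp [en, ma] at f4
    have fm := ma_pos f1 f2 f0
    refine csInf_le_of_le ⟨0, ?_⟩ ⟨f ∘ sim _ 0 hα', f1.comp (contDiff_sim hα'),
      f2.comp_homeomorph _, (tsupport_sim hα' f3).trans ?_, ?_, rfl⟩ ?_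
    · rintro q ⟨g, -, -, -, -, rfl⟩
      exact div_nonneg (MeasureTheory.integral_nonneg fun _ => by positivity)
        (MeasureTheory.integral_nonneg fun _ => by positivity)
    · rw [reg_eq h3 hr ho hb hf]
      intro z hz k
      have h1 := hz k
      simp only [sim_apply, add_zero, Complex.re_ofReal_mul, Complex.im_ofReal_mul] at h1
      have h2 := mul_lt_mul_of_pos_left h1 hs0
      have e : r = s * Rv (π / N) := by rw [hs]; field_simp
      rw [e]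
      refine lt_of_eq_of_lt ?_ (h2.trans_eq (mul_assoc _ _ _).symm)
      field_simp
    · intro h
      exact f0 ((sim _ 0 hα').surjective.injective_comp_right h)
    · change en (f ∘ sim _ 0 hα') / ma (f ∘ sim _ 0 hα') ≤ _
      rw [en_sim hα' f1, ma_sim, hn', inv_pow, inv_inv, div_le_iff₀ (by positivity)]
      refine f4.le.trans (le_of_eq ?_)
      field_simp
  · have hne : Ω.Nonempty := by
      by_contra hcon
      have h1 := hP.front
      rw [not_nonempty_iff_eq_empty.1 hcon, frontier_empty] at h1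
      have : v ⟨0, by omega⟩ ∈ (∅ : Set ℂ) := by
        rw [h1]
        exact mem_iUnion.2 ⟨⟨0, by omega⟩, left_mem_segment _ _ _⟩
      exact this
    obtain ⟨z, hz⟩ := hne
    obtain ⟨f, f1, f2, f3, -, f4⟩ :=
      exists_contDiff_tsupport_subset (n := 1) (hP.isOpen.mem_nhds hz)
    refine ⟨_, f, f3, f2, f1, ?_, rfl⟩
    rintro rfl
    simp at f4
  · rintro q ⟨f, f1, f2, f3, f0, rfl⟩
    have fm := ma_pos f1 f2 f0
    have key := hlow N (le_of_max_le_left hN) _ _ (isPoly_sim (β := 0) hα hP) (by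
      rw [vol_sim, hn, ← hvol]
      refine (mul_le_mul_right (reg_vol h3 hr ho hb hf) _).trans (le_of_eq ?_)
      rw [← ENNReal.ofReal_mul (by positivity), ← hs]
      congr 1
      field_simp) (f ∘ sim _ 0 hα) (f1.comp (contDiff_sim hα)) (f2.comp_homeomorph _)
      (tsupport_sim hα f3)
    rw [en_sim hα f1, ma_sim, hn] at key
    change _ ≤ en f / ma f
    rw [le_div_iff₀ fm]
    refine le_trans (le_of_eq ?_) key
    field_simp

end Pool.Agent.PSz
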