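import Pool.Agent.P.MP_7b7370_an.FFlat

/-! The decomposition argument for an open set bounded by a plane straight-line graph
(adapted from the files DCE0, DCE, DCF, DCG, DCK, DCL, DCM, FMain, FFlat of this folder). -/

set_option autoImplicit false

namespace Pool.Agent.PSF.Gr

open Real Set MeasureTheory Pool.Agent.PSz

/-- the frontier of `Ω` is a union of segments between the points `v`, which meet only at
these points -/
structure IsGraph {N : ℕ} {ι : Type} (v : Fin N → ℂ) (s t : ι → Fin N) (Ω : Set ℂ) : Prop where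
  simple : ∀ i j : ι, i ≠ j →
    ∀ z ∈ segment ℝ (v (s i)) (v (t i)) ∩ segment ℝ (v (s j)) (v (t j)), ∃ l, z = v l
  isOpen : IsOpen Ω
  bdd : Bornology.IsBounded Ω
  front : frontier Ω = ⋃ i : ι, segment ℝ (v (s i)) (v (t i))

variable {N m : ℕ} {ι : Type} [Fintype ι] {v : Fin N → ℂ} {s t : ι → Fin N} {Ω : Set ℂ}
  {nr : Fin m → ℂ} {hh w : Fin m → ℝ}

theorem half_disc (hP : IsGraph v s t Ω) {i : ι} {y : ℂ}
    (hy : y ∈ segment ℝ (v (s i)) (v (t i))) (hv : ∀ j, y ≠ v j) {ν : ℂ} (hν : ν ≠ 0)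
    {k : ℝ} (hl : ∀ z ∈ segment ℝ (v (s i)) (v (t i)), ipr ν z = k) :
    ∃ ε > 0, Metric.ball y ε ∩ HQ ν k ⊆ Ω ∨ Metric.ball y ε ∩ HP ν k ⊆ Ω := by
  have hcl : ∀ j : ι, IsClosed (segment ℝ (v (s j)) (v (t j))) := fun j => by
    rw [segment_eq_image]
    exact (isCompact_Icc.image (by fun_prop)).isClosed
  have hA : IsClosed (⋃ j ∈ {j : ι | j ≠ i}, segment ℝ (v (s j)) (v (t j))) :=
    (Set.toFinite _).isClosed_biUnion fun j _ => hcl j
  have hyA : y ∉ ⋃ j ∈ {j : ι | j ≠ i}, segment ℝ (v (s j)) (v (t j)) := by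
    intro h
    obtain ⟨j, hj, hyj⟩ := mem_iUnion₂.1 h
    obtain ⟨l, h1⟩ := hP.simple i j (Ne.symm hj) y ⟨hy, hyj⟩
    exact hv _ h1
  obtain ⟨ε, hε, hb⟩ := Metric.isOpen_iff.1 hA.isOpen_compl y hyA
  have hfr : ∀ z ∈ Metric.ball y ε, z ∈ frontier Ω → ipr ν z = k := by
    intro z hz hf
    rw [hP.front] at hf
    obtain ⟨j, hj⟩ := mem_iUnion.1 hf
    by_cases e : j = i
    · exact hl z (e ▸ hj)
    · exact absurd (mem_iUnion₂.2 ⟨j, e, hj⟩) (hb hz)
  have hyc : y ∈ closure Ω := frontier_subset_closure (by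
    rw [hP.front]
    exact mem_iUnion.2 ⟨i, hy⟩)
  have hne : (Metric.ball y ε ∩ Ω).Nonempty :=
    mem_closure_iff.1 hyc _ Metric.isOpen_ball (Metric.mem_ball_self hε)
  obtain ⟨z, hz, hzk⟩ : ∃ z ∈ Metric.ball y ε ∩ Ω, ipr ν z ≠ k := by
    by_contra! h
    have h1 := (Metric.isOpen_ball.inter hP.isOpen).measure_pos volume hne
    exact h1.ne' (measure_mono_null (fun z hz => h z hz) (vol_line hν k))
  have key : ∀ H : Set ℂ, Convex ℝ H → (∀ w ∈ H, ipr ν w ≠ k) → z ∈ H →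
      Metric.ball y ε ∩ H ⊆ Ω := by
    intro H hH hk hzH
    have hc := ((convex_ball y ε).inter hH).isPreconnected
    refine hc.subset_of_closure_inter_subset hP.isOpen ⟨z, ⟨hz.1, hzH⟩, hz.2⟩ ?_
    rintro w ⟨h1, h2⟩
    by_contra h3
    refine hk w h2.2 (hfr w h2.1 ?_)
    rw [hP.isOpen.frontier_eq]
    exact ⟨h1, h3⟩
  refine ⟨ε, hε, ?_⟩
  rcases lt_or_gt_of_ne hzk with h | h
  · exact Or.inr (key _ (convex_HP ν k) (fun w hw => ne_of_lt hw) h)
  · exact Or.inl (key _ (convex_HQ ν k) (fun w hw => ne_of_gt hw) h)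

theorem chord {C : Set ℂ} (hP : IsGraph v s t Ω) {a b h : ℝ} {n : ℂ}
    (hC : Cell Ω C a b n h) (h0 : cnt v C n h = 0) {i : ι}
    (hi : (segment ℝ (v (s i)) (v (t i)) ∩ (C ∩ HP n h)).Nonempty) :
    ∃ (ν : ℂ) (k : ℝ), (∀ z ∈ segment ℝ (v (s i)) (v (t i)), ipr ν z = k) ∧
      Cell Ω (C ∩ HQ ν k) a b n h ∧ Cell Ω C a b ν k ∧
      ∀ z ∈ C, ipr ν z ≤ k → ipr n z < h := by
  classical
  obtain ⟨x0, hx0, hx0C, hx0P⟩ := hi
  have hne : (C ∩ HP n h).Nonempty := ⟨x0, hx0C, hx0P⟩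
  have hx0P' : ipr n x0 < h := hx0P
  have hv : ∀ j, ¬(v j ∈ C ∧ ipr n (v j) ≤ h) := by
    intro j
    have := Finset.filter_eq_empty_iff.1 (Finset.card_eq_zero.1 h0) (Finset.mem_univ j)
    exact this
  have hxy : v (s i) ≠ v (t i) := by
    intro e
    rw [← e, segment_same, mem_singleton_iff] at hx0
    exact hv (s i) ⟨hx0 ▸ hx0C, hx0 ▸ hx0P'.le⟩
  have hd : 0 < ‖v (t i) - v (s i)‖ := norm_pos_iff.2 (sub_ne_zero.2 hxy.symm)
  obtain ⟨ν, hν, hνd⟩ : ∃ ν : ℂ, ‖ν‖ = 1 ∧ ipr ν (v (t i) - v (s i)) = 0 := by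
    refine ⟨((‖v (t i) - v (s i)‖⁻¹ : ℝ) : ℂ) * (Complex.I * (v (t i) - v (s i))), ?_, ?_⟩
    · rw [norm_mul, norm_mul, Complex.norm_I, one_mul, Complex.norm_real, norm_inv, norm_norm,
        inv_mul_cancel₀ hd.ne']
    · generalize ‖v (t i) - v (s i)‖⁻¹ = r
      generalize v (t i) - v (s i) = w
      simp [ipr]; ring
  have hν0 : ν ≠ 0 := by
    intro e; rw [e, norm_zero] at hν; exact zero_ne_one hν
  obtain ⟨k, hk⟩ : ∃ k, ipr ν (v (s i)) = k := ⟨_, rfl⟩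
  have hk' : ipr ν (v (t i)) = k := by
    rw [ipr_sub] at hνd; linarith
  have hl : ∀ z ∈ segment ℝ (v (s i)) (v (t i)), ipr ν z = k := by
    rintro z ⟨α, β, -, -, hst, rfl⟩
    rw [ipr_add, ipr_smul, ipr_smul, hk, hk', ← add_mul, hst, one_mul]
  have hS : (C ∩ {z | ipr n z ≤ h}) ∩ {z | ipr ν z = k} ⊆ segment ℝ (v (s i)) (v (t i)) :=
    sub_segment hxy hν0 hk hk'
      ((hC.cv.inter (convex_halfSpace_le (isLinearMap_ipr n) h)).inter
        (convex_hyperplane (isLinearMap_ipr ν) k))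
      (fun z hz => hz.2) ⟨x0, hx0, ⟨hx0C, hx0P'.le⟩, hl x0 hx0⟩
      (fun hz => hv _ hz.1) (fun hz => hv _ hz.1)
  have c1 : ∀ y0 ∈ C, ipr ν y0 = k → ipr n y0 ≠ h := by
    intro y0 hy hy1 hy2
    obtain ⟨ε, hε, hdisc⟩ := half_disc hP (hS ⟨⟨hy, hy2.le⟩, hy1⟩)
      (fun j e => hv j ⟨e ▸ hy, e ▸ hy2.le⟩) hν0 hl
    exact dce_cross hC hν (hl x0 hx0) hx0P' hy hy1 hy2 hε hdisc
  have c2 : ∀ z ∈ C, ipr ν z = k → ipr n z < h := by
    intro z hz hz1
    by_contra hz2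
    rw [not_lt] at hz2
    have hp : 0 < ipr n z - ipr n x0 := by linarith
    refine c1 (x0 + ((h - ipr n x0) / (ipr n z - ipr n x0)) • (z - x0))
      (hC.cv.add_smul_sub_mem hx0C hz ⟨div_nonneg (by linarith) hp.le,
        (div_le_one hp).2 (by linarith)⟩) ?_ ?_
    · rw [ipr_add, ipr_smul, ipr_sub ν, hz1, hl x0 hx0]; ring
    · rw [ipr_add, ipr_smul, ipr_sub n z x0, div_mul_cancel₀ _ hp.ne']; ring
  have c3 : ∀ z ∈ C, ipr ν z = k → ipr n z < h ∧ z ∉ Ω := by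
    intro z hz hz1
    refine ⟨c2 z hz hz1, fun hΩ => ?_⟩
    have h1 : z ∈ frontier Ω := by
      rw [hP.front]
      exact mem_iUnion.2 ⟨i, hS ⟨⟨hz, (c2 z hz hz1).le⟩, hz1⟩⟩
    rw [hP.isOpen.frontier_eq] at h1
    exact h1.2 hΩ
  have c4 : ∀ t ∈ Icc a b, ipr ν (cis t) ≠ 0 := by
    intro t ht e
    have p2 := hC.dir_pos hne ht
    have hs : 0 ≤ (h - ipr n x0) / ipr n (cis t) := div_nonneg (by linarith) p2.le
    refine c1 _ (hC.rc.cis hx0C ht hs) ?_ ?_
    · rw [ipr_add, ipr_mul, e, hl x0 hx0]; ring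
    · rw [ipr_add, ipr_mul, div_mul_cancel₀ _ p2.ne']; ring
  have hcont : ContinuousOn (fun t : ℝ => ipr ν (cis t)) (Icc a b) := by
    apply Continuous.continuousOn; fun_prop
  have ha : a ∈ Icc a b := left_mem_Icc.2 hC.le
  rcases lt_or_gt_of_ne (c4 a ha) with hneg | hpos
  · refine ⟨-ν, -k, fun z hz => by rw [ipr_neg_left, hl z hz], dce_fin hC hne (by rwa [norm_neg])
      (fun z hz hz1 => c3 z hz (by rw [ipr_neg_left] at hz1; linarith)) fun t ht => ?_⟩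
    rw [ipr_neg_left, neg_pos]
    by_contra hc
    obtain ⟨s, hs, e⟩ := isPreconnected_Icc.intermediate_value ha ht hcont
      (⟨hneg.le, not_lt.1 hc⟩ : (0 : ℝ) ∈ Icc _ _)
    exact c4 s hs e
  · refine ⟨ν, k, hl, dce_fin hC hne hν c3 fun t ht => ?_⟩
    by_contra hc
    obtain ⟨s, hs, e⟩ := isPreconnected_Icc.intermediate_value ht ha hcont
      (⟨not_lt.1 hc, hpos.le⟩ : (0 : ℝ) ∈ Icc _ _)
    exact c4 s hs e

open Classical in
lemma dcf_lt (v : Fin N → ℂ) {Y Z : Set ℂ} (hYZ : Y ⊆ Z) {i : ι}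
    (hi : (segment ℝ (v (s i)) (v (t i)) ∩ Z).Nonempty)
    (hn : ¬(segment ℝ (v (s i)) (v (t i)) ∩ Y).Nonempty) :
    (Finset.univ.filter fun j => (segment ℝ (v (s j)) (v (t j)) ∩ Y).Nonempty).card <
      (Finset.univ.filter fun j => (segment ℝ (v (s j)) (v (t j)) ∩ Z).Nonempty).card := by
  refine Finset.card_lt_card ⟨fun j hj => ?_, fun hs => hn ?_⟩
  · rw [Finset.mem_filter] at hj ⊢
    exact ⟨hj.1, hj.2.mono (inter_subset_inter_right _ hYZ)⟩
  · exact (Finset.mem_filter.1 (hs (Finset.mem_filter.2 ⟨Finset.mem_univ i, hi⟩))).2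

open Classical in
lemma dcf_ind {σ c r : ℝ} (hc : 0 ≤ c) (hr : 0 ≤ r) (hL : CLin σ c)
    (hP : IsGraph v s t Ω) {u : ℂ → ℝ} (hu : Tst Ω u) {a b : ℝ} (m : ℕ) :
    ∀ (C : Set ℂ) (h : ℝ) (n : ℂ), Cell Ω C a b n h → cnt v C n h = 0 →
      r * (volume (C ∩ HP n h ∩ Ω)).toReal ≤ σ * (b - a) - c →
      (Finset.univ.filter fun j =>
        (segment ℝ (v (s j)) (v (t j)) ∩ (C ∩ HP n h)).Nonempty).card < m →
      0 ≤ Qu u r (C ∩ HP n h) := by
  induction m with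
  | zero => intro C h n _ _ _ hm; exact absurd hm (Nat.not_lt_zero _)
  | succ m ih =>
    intro C h n hC h0 hv hm
    by_cases hex : ∃ i, (segment ℝ (v (s i)) (v (t i)) ∩ (C ∩ HP n h)).Nonempty
    swap
    · refine Q_base hc hr hL hP.isOpen hu hC (fun z hz hf => hex ?_) hv
      rw [hP.front, mem_iUnion] at hf
      obtain ⟨i, hi⟩ := hf
      exact ⟨i, z, hi, hz⟩
    obtain ⟨i, hi⟩ := hex
    obtain ⟨ν, k, hl, hC1, hC2, hk⟩ := chord hP hC h0 hi
    have hν : ν ≠ 0 := by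
      intro e
      have := hC2.un
      rw [e, norm_zero] at this
      exact zero_ne_one this
    have e1 : C ∩ HP n h ∩ HQ ν k = C ∩ HQ ν k ∩ HP n h := inter_right_comm _ _ _
    have e2 : C ∩ HP n h ∩ HP ν k = C ∩ HP ν k :=
      Subset.antisymm (fun z hz => ⟨hz.1.1, hz.2⟩)
        fun z hz => ⟨⟨hz.1, hk z hz.1 (le_of_lt hz.2)⟩, hz.2⟩
    have s1 : C ∩ HQ ν k ∩ HP n h ⊆ C ∩ HP n h := e1 ▸ inter_subset_left
    have s2 : C ∩ HP ν k ⊆ C ∩ HP n h := e2 ▸ inter_subset_left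
    have hb : Bornology.IsBounded (C ∩ HP n h ∩ Ω) := hC.bd.subset inter_subset_left
    have hvol : ∀ Y ⊆ C ∩ HP n h, r * (volume (Y ∩ Ω)).toReal ≤ σ * (b - a) - c := fun Y hY =>
      (mul_le_mul_of_nonneg_left (vol_mono hb (inter_subset_inter_left _ hY)) hr).trans hv
    rw [Qu_split hu r (hC.op.inter (isOpen_HP n h)).measurableSet hν k, e1, e2]
    rw [dcf_cnt] at h0
    refine add_nonneg (ih _ h n hC1 (dcf_cnt.2 fun j hj => h0 j hj.1) (hvol _ s1) ?_)
      (ih _ k ν hC2 (dcf_cnt.2 fun j hj hj' => h0 j hj (hk _ hj hj').le) (hvol _ s2) ?_)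
    · refine (dcf_lt v s1 hi ?_).trans_le (Nat.lt_succ_iff.1 hm)
      rintro ⟨z, h1, h2⟩
      exact (hl z h1).not_gt h2.1.2
    · refine (dcf_lt v s2 hi ?_).trans_le (Nat.lt_succ_iff.1 hm)
      rintro ⟨z, h1, h2⟩
      exact (hl z h1).not_lt h2.2

/-- cells without vertices: induction on the number of sides that meet the cell -/
theorem Q_zero {σ c r : ℝ} (hc : 0 ≤ c) (hr : 0 ≤ r) (hL : CLin σ c)
    (hP : IsGraph v s t Ω) {u : ℂ → ℝ} (hu : Tst Ω u) {C : Set ℂ} {a b h : ℝ} {n : ℂ}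
    (hC : Cell Ω C a b n h) (h0 : cnt v C n h = 0)
    (hv : r * (volume (C ∩ HP n h ∩ Ω)).toReal ≤ σ * (b - a) - c) :
    0 ≤ Qu u r (C ∩ HP n h) := by
  exact dcf_ind hc hr hL hP hu _ C h n hC h0 hv (Nat.lt_succ_self _)

theorem Q_cell {σ c r : ℝ} (hσ : 0 ≤ σ) (hc : 0 ≤ c) (hr : 0 ≤ r) (hL : CLin σ c)
    (hP : IsGraph v s t Ω) {u : ℂ → ℝ} (hu : Tst Ω u) {C : Set ℂ}
    {a b h : ℝ} {n : ℂ} (hC : Cell Ω C a b n h)
    (hv : r * (volume (C ∩ HP n h ∩ Ω)).toReal ≤ σ * (b - a) - c * (cnt v C n h + 1)) :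
    0 ≤ Qu u r (C ∩ HP n h) := by
  induction hk : cnt v C n h using Nat.strong_induction_on generalizing C a b with
  | _ k ih =>
  rcases (C ∩ HP n h).eq_empty_or_nonempty with he | hne
  · simp [Qu, he]
  by_cases h0 : cnt v C n h = 0
  · refine Q_zero hc hr hL hP hu hC h0 ?_
    simpa [h0] using hv
  obtain ⟨i, hi⟩ : ∃ i, v i ∈ C ∧ ipr n (v i) ≤ h := by
    classical
    obtain ⟨i, hi⟩ := Finset.card_ne_zero.1 h0
    exact ⟨i, (Finset.mem_filter.1 hi).2⟩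
  obtain ⟨τ, ht, hcut⟩ := exists_cut hσ hc hr v hP.isOpen hC hi hv
  obtain ⟨h1, h2⟩ := hcut _ _ rfl rfl
  have hlt := cnt_cut v C n (Complex.I * cis τ) h hi
  have hπ := hC.lt_pi hne
  have hν : Complex.I * cis τ ≠ 0 := by
    rw [← norm_ne_zero_iff, norm_mul, Complex.norm_I, norm_cis]
    norm_num
  rw [Qu_split hu r (hC.op.inter (isOpen_HP n h)).measurableSet hν
    (ipr (Complex.I * cis τ) (v i)), inter_right_comm, inter_right_comm C (HP n h)]
  exact add_nonneg (ih _ (by omega) (hC.left hπ ht _) h1 rfl)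
    (ih _ (by omega) (hC.right hπ ht _) h2 rfl)

theorem hull_sub (hH : Hull v nr hh) (hP : IsGraph v s t Ω) (k : Fin m) : Ω ⊆ HP (nr k) (hh k) := by
  intro z hz
  have hn : ipr (nr k) (nr k) = 1 := by rw [ipr_self, hH.un k, one_pow]
  have hc : Continuous fun z => ipr (nr k) z := by fun_prop
  obtain ⟨y, hy, hmax⟩ := hP.bdd.isCompact_closure.exists_isMaxOn ⟨z, subset_closure hz⟩
    hc.continuousOn
  have hyΩ : y ∉ Ω := by
    intro h
    obtain ⟨ε, hε, h1⟩ := dck_push hP.isOpen h (nr k)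
    have h2 : ipr (nr k) (y + (ε : ℂ) * nr k) ≤ ipr (nr k) y := hmax (subset_closure h1)
    rw [ipr_add, ipr_mul, hn] at h2
    linarith
  have hf : y ∈ frontier Ω := by
    rw [hP.isOpen.frontier_eq]
    exact ⟨hy, hyΩ⟩
  rw [hP.front] at hf
  obtain ⟨i, a, b, ha, hb, hab, rfl⟩ := mem_iUnion.1 hf
  obtain ⟨ε, hε, h1⟩ := dck_push hP.isOpen hz (nr k)
  have h2 : ipr (nr k) (z + (ε : ℂ) * nr k) ≤ ipr (nr k) (a • v (s i) + b • v (t i)) :=
    hmax (subset_closure h1)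
  rw [ipr_add, ipr_mul, hn, ipr_add, ipr_smul, ipr_smul] at h2
  have h3 := mul_le_mul_of_nonneg_left (hH.le k (s i)) ha
  have h4 := mul_le_mul_of_nonneg_left (hH.le k (t i)) hb
  have h5 : a * hh k + b * hh k = hh k := by rw [← add_mul, hab, one_mul]
  show ipr (nr k) z < hh k
  linarith

theorem hull_cell (hH : Hull v nr hh) (hP : IsGraph v s t Ω) (hw : ∀ k, 0 < w k) {k : Fin m}
    {a b : ℝ} (hab : a ≤ b)
    (hd : ∀ t ∈ Icc a b, ∀ j, ipr (nr j) (cis t) * w k ≤ ipr (nr k) (cis t) * w j) :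
    Cell Ω (Ck nr hh w k) a b (nr k) (hh k) := by
  refine ⟨?_, ?_, hab, fun z hz t ht s hs => Ck_rec (hd t ht) z hz s hs, hH.un k,
    hH.bdd.subset (Ck_sub hw k), fun z _ h hz => ?_⟩
  · exact (isOpen_Ck nr hh k).preimage (f := fun z : ℂ => (w, z)) (by fun_prop)
  · intro x hx y hy s t hs ht hst j hj
    have h1 := sub_pos.2 (hx j hj)
    have h2 := sub_pos.2 (hy j hj)
    have h3 := mul_nonneg hs h1.le
    have h4 := mul_nonneg ht h2.le
    have h5 : 0 < s * ((hh j - ipr (nr j) x) * w k - (hh k - ipr (nr k) x) * w j) +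
        t * ((hh j - ipr (nr j) y) * w k - (hh k - ipr (nr k) y) * w j) := by
      rcases hs.lt_or_eq with h | h
      · exact add_pos_of_pos_of_nonneg (mul_pos h h1) h4
      · exact add_pos_of_nonneg_of_pos h3 (mul_pos (by linarith) h2)
    rw [ipr_add, ipr_add, ipr_smul, ipr_smul, ipr_smul, ipr_smul]
    have e : (hh j - (s * ipr (nr j) x + t * ipr (nr j) y)) * w k -
        (hh k - (s * ipr (nr k) x + t * ipr (nr k) y)) * w j =
        s * ((hh j - ipr (nr j) x) * w k - (hh k - ipr (nr k) x) * w j) +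
        t * ((hh j - ipr (nr j) y) * w k - (hh k - ipr (nr k) y) * w j) := by
      linear_combination (hh k * w j - hh j * w k) * hst
    linarith
  · exact absurd h (ne_of_lt (hull_sub hH hP k hz))

theorem dcl_null (hH : Hull v nr hh) (hP : IsGraph v s t Ω) (hw : ∀ k, 0 < w k) :
    volume ((⋃ k, Ck nr hh w k ∩ HP (nr k) (hh k))ᶜ ∩ Ω) = 0 := by
  have h1 : ∀ k j, j ≠ k →
      volume {z : ℂ | ipr (w j • nr k - w k • nr j) z = w j * hh k - w k * hh j} = 0 := by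
    refine fun k j hj => vol_line (sub_ne_zero.2 fun e => hj ?_) _
    have h2 := congrArg norm e
    rw [norm_smul, norm_smul, hH.un, hH.un, Real.norm_of_nonneg (hw j).le,
      Real.norm_of_nonneg (hw k).le, mul_one, mul_one] at h2
    rw [h2] at e
    exact (hH.inj (smul_right_injective ℂ (hw k).ne' e)).symm
  refine measure_mono_null ?_ (measure_iUnion_null fun k => measure_iUnion_null fun j =>
    measure_iUnion_null fun hj => h1 k j hj)
  rintro z ⟨hz, hz'⟩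
  obtain ⟨k0, -⟩ := hH.span 1 one_ne_zero
  obtain ⟨k, -, hk⟩ := Finset.exists_min_image Finset.univ
    (fun k => (hh k - ipr (nr k) z) / w k) ⟨k0, Finset.mem_univ _⟩
  by_contra hn
  simp only [mem_iUnion, not_exists, mem_ofPred_eq] at hn
  refine hz (mem_iUnion.2 ⟨k, fun j hj => ?_, hull_sub hH hP k hz'⟩)
  refine ((div_le_div_iff₀ (hw k) (hw j)).1 (hk j (Finset.mem_univ _))).lt_of_ne fun e => ?_
  refine hn k j hj ?_
  simp only [ipr, Complex.sub_re, Complex.sub_im, Complex.smul_re, Complex.smul_im,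
    smul_eq_mul] at e ⊢
  linarith

theorem hull_sum_Q (hH : Hull v nr hh) (hP : IsGraph v s t Ω) (hw : ∀ k, 0 < w k) {u : ℂ → ℝ}
    (hu : Tst Ω u) (r : ℝ) :
    en u - r * ma u = ∑ k, Qu u r (Ck nr hh w k ∩ HP (nr k) (hh k)) := by
  have hi : Integrable fun z => ‖fderiv ℝ u z‖ ^ 2 - r * u z ^ 2 :=
    hu.int_grad.sub (hu.int_sq.const_mul r)
  have hU := MeasurableSet.iUnion (dcl_meas (nr := nr) (hh := hh) (w := w))
  have h1 := Qu_null hP.isOpen hu r hU.compl (dcl_null hH hP hw)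
  have h2 := integral_add_compl hU hi
  unfold Qu at h1 ⊢
  rw [← integral_iUnion_fintype dcl_meas (dcl_disj hw) fun _ => hi.integrableOn, en, ma,
    ← integral_const_mul, ← integral_sub hu.int_grad (hu.int_sq.const_mul r), ← h2, h1, add_zero]

theorem decomp {σ c r : ℝ} (hσ : 0 ≤ σ) (hc : 0 ≤ c) (hr : 0 ≤ r) (hL : CLin σ c)
    (hP : IsGraph v s t Ω)
    (hnc : ∃ i j k, ¬ Collinear ℝ ({v i, v j, v k} : Set ℂ))
    (hv : r * (volume Ω).toReal ≤ σ * (2 * π) - c * N) {u : ℂ → ℝ} (hu : Tst Ω u) :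
    r * ma u ≤ en u := by
  obtain ⟨m, nr, hh, hH⟩ := exists_hull hnc
  obtain ⟨al, hal, hal0, harc⟩ := arcs hH.un hH.span
  obtain ⟨K, hK, hthin⟩ := hH.thin
  have hm : 0 < m := by
    obtain ⟨k, -⟩ := hH.span 1 one_ne_zero
    exact k.pos
  have hm0 : (0 : ℝ) ≤ m := Nat.cast_nonneg m
  have hrK : 0 ≤ (1 + r) * K := by positivity
  obtain ⟨η, hη0, hη1, hη2⟩ : ∃ η : ℝ, 0 < η ∧ m * η < 1 ∧ r * (K * η) ^ 2 ≤ 1 := by
    have hD : 0 < (m : ℝ) + 1 + (1 + r) * K := by linarith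
    refine ⟨(m + 1 + (1 + r) * K)⁻¹, inv_pos.2 hD, ?_, ?_⟩
    · rw [← div_eq_mul_inv, div_lt_one hD]
      linarith
    · rw [← div_eq_mul_inv, div_pow, ← mul_div_assoc, div_le_one (by positivity)]
      have h1 : ((1 + r) * K) ^ 2 ≤ (m + 1 + (1 + r) * K) ^ 2 :=
        pow_le_pow_left₀ hrK (by linarith) 2
      have h2 : r * K ^ 2 ≤ (1 + r) ^ 2 * K ^ 2 :=
        mul_le_mul_of_nonneg_right (by nlinarith) (sq_nonneg K)
      rw [mul_pow] at h1
      linarith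
  have hfin : volume Ω ≠ ⊤ := hP.bdd.measure_lt_top.ne
  have hpos : ∀ {w : Fin m → ℝ}, (∀ k, η ≤ w k) → ∀ k, 0 < w k := fun h k => hη0.trans_le (h k)
  obtain ⟨w, hw, hw1, hG⟩ := kkm hm hη1 (fun k => {w | w ∈ (univ : Set (Fin m → ℝ)) ∧
      r * (volume (Ck nr hh w k ∩ HP (nr k) (hh k) ∩ Ω)).toReal ≤
        σ * al k w - c * ((cnt v (Ck nr hh w k) (nr k) (hh k) : ℝ) + 1)} ∪ {w | w k = η})
    (fun k => by
      refine IsClosed.union ?_ (isClosed_eq (continuous_apply k) continuous_const)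
      have hO : IsOpen {p : (Fin m → ℝ) × ℂ | p.2 ∈ Ck nr hh p.1 k ∩ HP (nr k) (hh k) ∩ Ω} :=
        ((isOpen_Ck nr hh k).inter ((isOpen_HP (nr k) (hh k)).preimage continuous_snd)).inter
          (hP.isOpen.preimage continuous_snd)
      exact isClosed_good isClosed_univ
        (f := fun w => volume (Ck nr hh w k ∩ HP (nr k) (hh k) ∩ Ω))
        ((lsc_measure volume hO).lowerSemicontinuousOn _) hfin
        (fun w _ => measure_mono inter_subset_right)
        (g := fun w => (cnt v (Ck nr hh w k) (nr k) (hh k) : ℝ))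
        ((lsc_cnt v (isOpen_Ck nr hh k) (nr k) (hh k)).lowerSemicontinuousOn _)
        ((hal k).upperSemicontinuousOn _) hr hσ hc)
    (fun w hw _ => by
      by_contra hcon
      push Not at hcon
      have h1 : ∑ k, (σ * al k w - c * ((cnt v (Ck nr hh w k) (nr k) (hh k) : ℝ) + 1)) <
          ∑ k, r * (volume (Ck nr hh w k ∩ HP (nr k) (hh k) ∩ Ω)).toReal :=
        Finset.sum_lt_sum_of_nonempty ⟨⟨0, hm⟩, Finset.mem_univ _⟩ fun k _ =>
          not_le.1 fun h => hcon k (Or.inl ⟨trivial, h⟩)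
      rw [Finset.sum_sub_distrib, ← Finset.mul_sum, ← Finset.mul_sum, ← Finset.mul_sum] at h1
      have h2 := mul_le_mul_of_nonneg_left (harc w (hpos hw)).1 hσ
      have h3 := mul_le_mul_of_nonneg_left (sum_vol (nr := nr) (hh := hh) hP.bdd (hpos hw)) hr
      have h4 : ∑ k, ((cnt v (Ck nr hh w k) (nr k) (hh k) : ℝ) + 1) ≤ N := by
        exact_mod_cast hH.sum_cnt (hpos hw)
      have h5 := mul_le_mul_of_nonneg_left h4 hc
      linarith)
    (fun w _ _ k hk => Or.inr hk)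
  have hQ : ∀ k, 0 ≤ Qu u r (Ck nr hh w k ∩ HP (nr k) (hh k)) := fun k => by
    have hCo : IsOpen (Ck nr hh w k) := (isOpen_Ck nr hh k).preimage (Continuous.prodMk_right w)
    rcases hG k with ⟨-, hk⟩ | hk
    · rcases (hal0 k w).eq_or_lt with h0 | h0
      · have h1 : 0 ≤ c * ((cnt v (Ck nr hh w k) (nr k) (hh k) : ℝ) + 1) := by positivity
        have h2 : r * (volume (Ck nr hh w k ∩ HP (nr k) (hh k) ∩ Ω)).toReal = 0 := by
          rw [← h0, mul_zero] at hk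
          exact le_antisymm (by linarith) (by positivity)
        rcases mul_eq_zero.1 h2 with h3 | h3
        · refine integral_nonneg fun z => ?_
          simp only [h3, zero_mul, sub_zero, Pi.zero_apply]
          positivity
        · refine (Qu_null hP.isOpen hu r (hCo.inter (isOpen_HP _ _)).measurableSet ?_).ge
          exact ((ENNReal.toReal_eq_zero_iff _).1 h3).resolve_right
            (ne_top_of_le_ne_top hfin (measure_mono inter_subset_right))
      · obtain ⟨a, b, hab, h1, h2⟩ := (harc w (hpos hw)).2 k h0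
        have h3 := mul_le_mul_of_nonneg_left h1 hσ
        exact Q_cell hσ hc hr hL hP hu (hull_cell hH hP (hpos hw) hab h2) (by linarith)
    · obtain ⟨h1, h2⟩ := hthin w η hη0 hη1 hw hw1 k hk
      exact Q_thin hu hCo (hH.un k) (Ck_rec h1) (hull_sub hH hP k) h2 (by positivity) hr hη2
  have h := Finset.sum_nonneg fun k (_ : k ∈ Finset.univ) => hQ k
  rw [← hull_sum_Q hH hP (hpos hw) hu r] at h
  linarith

theorem lower (hCL : CellIneq) (hS : Support4) (hN : 5 ≤ N)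
    (hP : IsGraph v s t Ω) (hnc : ∃ i j k, ¬ Collinear ℝ ({v i, v j, v k} : Set ℂ))
    (hv : 0 < (volume Ω).toReal) {u : ℂ → ℝ} (hu : Tst Ω u) :
    gn N / (volume Ω).toReal * ma u ≤ en u := by
  obtain ⟨c, hc, h⟩ := support hS hN
  have hN5 : (5 : ℝ) ≤ N := by exact_mod_cast hN
  have hg : 0 ≤ gn N := mul_nonneg (An_pos (by linarith)).le (lam_nonneg (by linarith))
  have hσ : 0 ≤ (gn N + c * N) / (2 * π) := by positivity
  have hL : CLin ((gn N + c * N) / (2 * π)) c := by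
    refine clin_of hCL hσ fun p hp0 hp1 => ?_
    have h1 : 0 < 1 - p := by linarith
    have h2 : 2 < 2 / (1 - p) := by
      rw [lt_div_iff₀ h1]; linarith
    have h3 := link h2
    have e : 1 - 2 / (2 / (1 - p)) = p := by field_simp; ring
    rw [e] at h3
    refine h3.mono ?_
    have h4 := h _ h2
    rw [le_div_iff₀ (by positivity)]
    refine le_trans (le_of_eq ?_) h4
    field_simp
    ring
  refine decomp hσ hc (by positivity) hL hP hnc (le_of_eq ?_) hu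
  field_simp
  ring

theorem exists_not_collinear (hN : 0 < N) (hP : IsGraph v s t Ω) (hne : Ω.Nonempty) :
    ∃ i j k, ¬ Collinear ℝ ({v i, v j, v k} : Set ℂ) := by
  by_contra hcon
  push Not at hcon
  obtain ⟨o, ho⟩ : ∃ o : Fin N, o = ⟨0, hN⟩ := ⟨_, rfl⟩
  obtain ⟨d, hd, hv⟩ : ∃ d : ℂ, d ≠ 0 ∧ ∀ k, ∃ t : ℝ, v k = v o + (t : ℂ) * d := by
    by_cases h : ∀ k, v k = v o
    · exact ⟨1, one_ne_zero, fun k => ⟨0, by simp [h k]⟩⟩
    · push Not at h
      obtain ⟨j, hj⟩ := h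
      refine ⟨v j - v o, sub_ne_zero.2 hj, fun k => ?_⟩
      have h1 := (hcon o j k).mem_affineSpan_of_mem_of_ne (p₁ := v o) (p₂ := v j) (p₃ := v k)
        (by simp) (by simp) (by simp) hj.symm
      obtain ⟨t, ht⟩ := mem_affineSpan_pair_iff_exists_lineMap_eq.1 h1
      refine ⟨t, ?_⟩
      rw [← ht, AffineMap.lineMap_apply]
      simp [add_comm]
  obtain ⟨f, hf⟩ : ∃ f : ℂ → ℝ, f = fun z => d.re * (z.im - (v o).im) - d.im * (z.re - (v o).re) :=
    ⟨_, rfl⟩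
  have hz : ∀ z ∈ frontier Ω, f z = 0 := by
    intro z hz
    rw [hP.front] at hz
    obtain ⟨i, a, b, -, -, hab, rfl⟩ := mem_iUnion.1 hz
    obtain ⟨α, hs⟩ := hv (s i)
    obtain ⟨β, ht⟩ := hv (t i)
    rw [hs, ht, hf]
    obtain rfl : b = 1 - a := by linarith
    simp
    ring
  have hn : 0 < d.re ^ 2 + d.im ^ 2 := by
    have := Complex.normSq_pos.2 hd
    rw [Complex.normSq_apply] at this
    linarith
  have hstep : ∀ (z : ℂ) (t : ℝ), f (z + (t : ℂ) * (Complex.I * d)) =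
      f z + t * (d.re ^ 2 + d.im ^ 2) := by
    intro z t
    rw [hf]
    simp
    ring
  obtain ⟨p, hp⟩ := hne
  have hpf : p ∉ frontier Ω := fun h => h.2 (by rwa [hP.isOpen.interior_eq])
  have hI : Complex.I * d ≠ 0 := mul_ne_zero Complex.I_ne_zero hd
  rcases le_total 0 (f p) with h0 | h0
  · refine fflat_ray hP.isOpen hP.bdd hp hI fun t ht hm => ?_
    rcases ht.eq_or_lt with rfl | ht
    · exact hpf (by simpa using hm)
    · have := hz _ hm
      rw [hstep] at this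
      nlinarith [mul_pos ht hn]
  · refine fflat_ray hP.isOpen hP.bdd hp (neg_ne_zero.2 hI) fun t ht hm => ?_
    rcases ht.eq_or_lt with rfl | ht
    · exact hpf (by simpa using hm)
    · have h1 : p + (t : ℂ) * -(Complex.I * d) = p + ((-t : ℝ) : ℂ) * (Complex.I * d) := by
        push_cast
        ring
      rw [h1] at hm
      have := hz _ hm
      rw [hstep] at this
      nlinarith [mul_pos ht hn]

theorem main (hCL : CellIneq) (hS : Support4) (hN : 5 ≤ N)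
    (r : ℝ) (Ω₀ : Set ℂ) (hP : IsGraph v s t Ω) (hne : Ω.Nonempty) (hr : 0 < r) (ho : IsOpen Ω₀)
    (hb : Bornology.IsBounded Ω₀) (hf : frontier Ω₀ = regFront N r)
    (hvol : volume Ω₀ = volume Ω) :
    sInf {q : ℝ | ∃ f : ℂ → ℝ, ContDiff ℝ 1 f ∧ HasCompactSupport f ∧ tsupport f ⊆ Ω₀ ∧
        f ≠ 0 ∧ q = (∫ x, ‖fderiv ℝ f x‖ ^ 2) / (∫ x, f x ^ 2)}
      ≤ sInf {q : ℝ | ∃ f : ℂ → ℝ, ContDiff ℝ 1 f ∧ HasCompactSupport f ∧ tsupport f ⊆ Ω ∧
        f ≠ 0 ∧ q = (∫ x, ‖fderiv ℝ f x‖ ^ 2) / (∫ x, f x ^ 2)} := by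
  have h3 : 3 ≤ N := by omega
  have hN5 : (5 : ℝ) ≤ N := by exact_mod_cast hN
  have hN0 : (0 : ℝ) < N := by linarith
  have hN2 : (2 : ℝ) < N := by linarith
  obtain ⟨ha, ha2, hcos⟩ := Up.cos_pos h3
  have hsin : 0 < sin (π / N) := sin_pos_of_pos_of_lt_pi ha (by linarith [pi_pos])
  have htan : 0 < tan (π / N) := by rw [tan_eq_sin_div_cos]; positivity
  obtain ⟨X₀, hX₀⟩ : ∃ X₀, X₀ = r * cos (π / N) := ⟨_, rfl⟩
  have hX0 : 0 < X₀ := by rw [hX₀]; positivity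
  have hK : Ω₀ = KN N X₀ := by rw [hX₀]; exact reg_eq h3 hr ho hb hf
  have hnc := exists_not_collinear (by omega) hP hne
  have hv : 0 < (volume Ω).toReal :=
    ENNReal.toReal_pos (hP.isOpen.measure_pos volume hne).ne' hP.bdd.measure_lt_top.ne
  have hle : (volume Ω).toReal ≤ N * X₀ ^ 2 * tan (π / N) := by
    have h1 := reg_vol h3 hr ho hb hf
    rw [hvol] at h1
    refine (ENNReal.toReal_le_of_le_ofReal (by positivity) h1).trans (le_of_eq ?_)
    have e : π = N * (π / N) := by field_simp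
    rw [hX₀]
    generalize π / N = a at ha hcos hsin e
    have hq : q0 a 1 = a / (sin a * cos a) := by
      simp only [q0, X2, PSz.om, tan_eq_sin_div_cos]
      field_simp
      linear_combination sin_sq_add_cos_sq a
    rw [div_pow, Rv, Real.sq_sqrt (by rw [hq]; positivity), hq, tan_eq_sin_div_cos, e]
    field_simp
  obtain ⟨X, hX, hA, hm⟩ := model_tri hN2
  have hl0 : 0 ≤ lam N := lam_nonneg hN0
  obtain ⟨s, hs⟩ : ∃ s, s = X / X₀ := ⟨_, rfl⟩
  have hs0 : 0 < s := by rw [hs]; positivity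
  have hα : (s : ℂ) ≠ 0 := by exact_mod_cast hs0.ne'
  have hn : ‖(s : ℂ)‖ = s := by rw [Complex.norm_real, Real.norm_of_nonneg hs0.le]
  refine le_trans (b := gn N / (volume Ω).toReal) (le_trans (b := lam N * s ^ 2) ?_ ?_)
    (le_csInf ?_ ?_)
  · refine le_of_forall_pos_le_add fun e he => ?_
    obtain ⟨V, hV, hlt⟩ := exists_lt_of_lam_lt hN2 (τ := lam N + e / s ^ 2)
      (lt_add_of_pos_right _ (by positivity))
    obtain ⟨F, hF, hF2⟩ := hm V _ hV (by positivity) hlt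
    obtain ⟨f, ⟨f1, f2, f3⟩, f4⟩ := fold_tri h3 hX hF hF2
    have f0 : f ≠ 0 := by
      rintro rfl
      simp [en, ma] at f4
    have fm := Fi.ma_pos f1 f2 f0
    refine csInf_le_of_le ⟨0, ?_⟩ ⟨f ∘ Fi.sim _ 0 hα, f1.comp (Fi.contDiff_sim hα),
      f2.comp_homeomorph _, (Fi.tsupport_sim hα f3).trans ?_, ?_, rfl⟩ ?_
    · rintro q ⟨g, -, -, -, -, rfl⟩
      exact div_nonneg (MeasureTheory.integral_nonneg fun _ => by positivity)
        (MeasureTheory.integral_nonneg fun _ => by positivity)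
    · rw [hK]
      intro z hz k
      have h1 := hz k
      simp only [Fi.sim_apply, add_zero, Complex.re_ofReal_mul, Complex.im_ofReal_mul] at h1
      have e1 : X = s * X₀ := by rw [hs]; field_simp
      rw [e1] at h1
      refine lt_of_mul_lt_mul_left (a := s) (lt_of_eq_of_lt ?_ h1) hs0.le
      ring
    · intro h
      exact f0 ((Fi.sim _ 0 hα).surjective.injective_comp_right h)
    · change en (f ∘ Fi.sim _ 0 hα) / ma (f ∘ Fi.sim _ 0 hα) ≤ _
      rw [Fi.en_sim hα f1, Fi.ma_sim, hn, div_le_iff₀ (by positivity)]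
      refine f4.le.trans (le_of_eq ?_)
      field_simp
  · rw [le_div_iff₀ hv]
    refine (mul_le_mul_of_nonneg_left hle (by positivity)).trans (le_of_eq ?_)
    rw [gn, hA, hs]
    field_simp
  · obtain ⟨z, hz⟩ := hne
    obtain ⟨f, f1, f2, f3, -, f4⟩ :=
      exists_contDiff_tsupport_subset (n := 1) (hP.isOpen.mem_nhds hz)
    refine ⟨_, f, f3, f2, f1, ?_, rfl⟩
    rintro rfl
    simp at f4
  · rintro q ⟨f, f1, f2, f3, f0, rfl⟩
    have fm := Fi.ma_pos f1 f2 f0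
    change _ ≤ en f / ma f
    rw [le_div_iff₀ fm]
    exact lower hCL hS hN hP hnc hv ⟨f1, f2, f3⟩

end Pool.Agent.PSF.Gr
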