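import Pool.Agent.P.MP_7b7370_an.SDefs

/-! Sizes of the parameters of a normal triangle. -/

set_option autoImplicit false

namespace Pool.Agent.PSz.Inn

open Real Set MeasureTheory intervalIntegral

lemma int_quad (A B C : ℝ) : ∫ y in (-1 : ℝ)..1, (A + B * y + C * y ^ 2) ^ 2 =
    2 * A ^ 2 + 2 / 3 * B ^ 2 + 4 / 3 * A * C + 2 / 5 * C ^ 2 := by
  have hd : ∀ y : ℝ, HasDerivAt (fun y : ℝ => A ^ 2 * y + A * B * y ^ 2
      + (B ^ 2 + 2 * A * C) / 3 * y ^ 3 + B * C / 2 * y ^ 4 + C ^ 2 / 5 * y ^ 5)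
      ((A + B * y + C * y ^ 2) ^ 2) y := by
    intro y
    have := (((((hasDerivAt_id y).const_mul (A ^ 2)).add
      ((hasDerivAt_pow 2 y).const_mul (A * B))).add
      ((hasDerivAt_pow 3 y).const_mul ((B ^ 2 + 2 * A * C) / 3))).add
      ((hasDerivAt_pow 4 y).const_mul (B * C / 2))).add
      ((hasDerivAt_pow 5 y).const_mul (C ^ 2 / 5))
    refine this.congr_deriv ?_
    simp; ring
  rw [integral_eq_sub_of_hasDerivAt (fun y _ => hd y)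
    ((by fun_prop : Continuous fun y : ℝ => (A + B * y + C * y ^ 2) ^ 2).intervalIntegrable _ _)]
  ring

lemma del_eq (a : ℝ) (M D : ℂ) (y : ℝ) : qq M D y - q0 a y =
    (Complex.normSq M - X2 a) + 2 * ip M D * y + (Complex.normSq D - om a) * y ^ 2 := by
  unfold qq q0; ring

lemma Th_eq (a : ℝ) (M D : ℂ) : Th a M D =
    2 * (Complex.normSq M - X2 a) ^ 2 + 8 / 3 * ip M D ^ 2
      + 4 / 3 * (Complex.normSq M - X2 a) * (Complex.normSq D - om a)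
      + 2 / 5 * (Complex.normSq D - om a) ^ 2 := by
  unfold Th
  simp only [del_eq, int_quad]
  ring

lemma Th_nonneg (a : ℝ) (M D : ℂ) : 0 ≤ Th a M D := by
  rw [Th_eq]
  nlinarith [sq_nonneg (ip M D), sq_nonneg (3 * (Complex.normSq M - X2 a) +
    (Complex.normSq D - om a)), sq_nonneg (Complex.normSq D - om a)]

lemma A0_le (a : ℝ) (M D : ℂ) : (Complex.normSq M - X2 a) ^ 2 ≤ 2 * Th a M D := by
  rw [Th_eq]
  nlinarith [sq_nonneg (ip M D), sq_nonneg (5 * (Complex.normSq M - X2 a) +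
    3 * (Complex.normSq D - om a)), sq_nonneg (Complex.normSq M - X2 a)]

lemma C0_le (a : ℝ) (M D : ℂ) : (Complex.normSq D - om a) ^ 2 ≤ 6 * Th a M D := by
  rw [Th_eq]
  nlinarith [sq_nonneg (ip M D), sq_nonneg (3 * (Complex.normSq M - X2 a) +
    (Complex.normSq D - om a)), sq_nonneg (Complex.normSq D - om a)]

lemma ip_le (a : ℝ) (M D : ℂ) : ip M D ^ 2 ≤ Th a M D := by
  rw [Th_eq]
  nlinarith [sq_nonneg (ip M D), sq_nonneg (3 * (Complex.normSq M - X2 a) +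
    (Complex.normSq D - om a)), sq_nonneg (Complex.normSq D - om a)]

lemma del_le (a : ℝ) (M D : ℂ) {y : ℝ} (hy : |y| ≤ 1) :
    (qq M D y - q0 a y) ^ 2 ≤ 36 * Th a M D := by
  have hy2 : y ^ 2 ≤ 1 := by nlinarith [abs_nonneg y, sq_abs y]
  have h1 := A0_le a M D
  have h2 := C0_le a M D
  have h3 := ip_le a M D
  rw [del_eq]
  set A := Complex.normSq M - X2 a
  set B := ip M D
  set C := Complex.normSq D - om a
  have e1 : (2 * B * y) ^ 2 ≤ 4 * B ^ 2 := by nlinarith [sq_nonneg B]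
  have e2 : (C * y ^ 2) ^ 2 ≤ C ^ 2 := by
    have : (y ^ 2) ^ 2 ≤ 1 := by nlinarith [sq_nonneg y]
    nlinarith [sq_nonneg C]
  nlinarith [sq_nonneg (A - 2 * B * y), sq_nonneg (A - C * y ^ 2), sq_nonneg (2 * B * y - C * y ^ 2)]

lemma Th_le {a δ : ℝ} {M D : ℂ} (h : ∀ y, |y| ≤ 1 → |qq M D y - q0 a y| ≤ δ) :
    Th a M D ≤ 2 * δ ^ 2 := by
  unfold Th
  have : ∫ y in (-1 : ℝ)..1, (qq M D y - q0 a y) ^ 2 ≤ ∫ y in (-1 : ℝ)..1, δ ^ 2 := by
    refine integral_mono_on (by norm_num) ((by fun_prop : Continuous fun y =>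
      (qq M D y - q0 a y) ^ 2).intervalIntegrable _ _) (by simp) fun y hy => ?_
    have := h y (abs_le.2 hy)
    rw [← sq_abs]
    exact pow_le_pow_left₀ (abs_nonneg _) this 2
  simp only [intervalIntegral.integral_const, smul_eq_mul] at this
  linarith

lemma form_up {w X β A u v : ℝ} (hX : 0 < X) (hA : A ^ 2 = X * w - β ^ 2) :
    w * u ^ 2 - 2 * β * (u * v) + X * v ^ 2 ≤ 2 * w * u ^ 2 + 2 * X * v ^ 2 := by
  have h1 : 0 ≤ X * (w * u ^ 2 + 2 * β * (u * v) + X * v ^ 2) := by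
    have : X * (w * u ^ 2 + 2 * β * (u * v) + X * v ^ 2) = (X * v + β * u) ^ 2 + A ^ 2 * u ^ 2 := by
      rw [hA]; ring
    rw [this]; positivity
  have := (mul_nonneg_iff_of_pos_left hX).1 h1
  linarith

lemma form_lo1 {w X β A u v : ℝ} (hA : A ^ 2 = X * w - β ^ 2) :
    A ^ 2 * u ^ 2 ≤ X * (w * u ^ 2 - 2 * β * (u * v) + X * v ^ 2) := by
  rw [hA]; nlinarith [sq_nonneg (X * v - β * u)]

lemma form_lo2 {w X β A u v : ℝ} (hA : A ^ 2 = X * w - β ^ 2) :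
    A ^ 2 * v ^ 2 ≤ w * (w * u ^ 2 - 2 * β * (u * v) + X * v ^ 2) := by
  rw [hA]; nlinarith [sq_nonneg (w * u - β * v)]

/-- pointwise comparison of the two quadratic forms -/
lemma form_cmp {a s w X β A b C u v : ℝ} (ha : 0 < a) (hs : a ≤ s)
    (hX : 1 / 2 ≤ X) (hA : A ^ 2 = X * w - β ^ 2) (hAl : s * X / 4 ≤ A)
    (hw : w = b * (a * s)) (hb : 0 ≤ b) (hC : 20 + 16 * b ≤ C) :
    (w * u ^ 2 - 2 * β * (u * v) + X * v ^ 2) / A ≤ C * (s * u ^ 2 + v ^ 2 / s) ∧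
    s * u ^ 2 + v ^ 2 / s ≤ C * ((w * u ^ 2 - 2 * β * (u * v) + X * v ^ 2) / A) := by
  have hs0 : 0 < s := by linarith
  have hA8 : a / 8 ≤ A := by nlinarith
  have hA0 : 0 < A := by linarith
  have hX0 : 0 < X := by linarith
  set Q := w * u ^ 2 - 2 * β * (u * v) + X * v ^ 2 with hQ
  have hu := sq_nonneg u
  have hv := sq_nonneg v
  have hsu : 0 ≤ s * u ^ 2 := by positivity
  have hvs : 0 ≤ v ^ 2 / s := by positivity
  have ev : v ^ 2 = s * (v ^ 2 / s) := by field_simp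
  constructor
  · rw [div_le_iff₀ hA0]
    have h1 : Q ≤ 2 * w * u ^ 2 + 2 * X * v ^ 2 := form_up hX0 hA
    have h2 : 2 * w * u ^ 2 ≤ C * (s * u ^ 2) * A := by
      have : 2 * w * u ^ 2 = (2 * b * a) * (s * u ^ 2) := by rw [hw]; ring
      rw [this, mul_right_comm C]
      refine mul_le_mul_of_nonneg_right ?_ hsu
      nlinarith
    have h3 : 2 * X * v ^ 2 ≤ C * (v ^ 2 / s) * A := by
      have : 2 * X * v ^ 2 = (2 * X * s) * (v ^ 2 / s) := by field_simp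
      rw [this, mul_right_comm C]
      refine mul_le_mul_of_nonneg_right ?_ hvs
      nlinarith
    nlinarith
  · have h1 : A ^ 2 * u ^ 2 ≤ X * Q := form_lo1 hA
    have h2 : A ^ 2 * v ^ 2 ≤ w * Q := form_lo2 hA
    have hQ0 : 0 ≤ Q := by
      have : 0 ≤ X * Q := le_trans (by positivity) h1
      exact (mul_nonneg_iff_of_pos_left hX0).1 this
    have hq : 0 ≤ Q / A := by positivity
    have eQ : Q = A * (Q / A) := by field_simp
    have h3 : s * u ^ 2 ≤ 4 * (Q / A) := by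
      have : A * u ^ 2 ≤ X * (Q / A) := by
        refine le_of_mul_le_mul_left ?_ hA0
        calc A * (A * u ^ 2) = A ^ 2 * u ^ 2 := by ring
          _ ≤ X * Q := h1
          _ = A * (X * (Q / A)) := by field_simp
      refine le_of_mul_le_mul_left ?_ hX0
      nlinarith
    have h4 : v ^ 2 / s ≤ 8 * b * (Q / A) := by
      have h5 : A * v ^ 2 ≤ w * (Q / A) := by
        refine le_of_mul_le_mul_left ?_ hA0
        calc A * (A * v ^ 2) = A ^ 2 * v ^ 2 := by ring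
          _ ≤ w * Q := h2
          _ = A * (w * (Q / A)) := by field_simp
      rw [div_le_iff₀ hs0]
      refine le_of_mul_le_mul_left ?_ ha
      rw [hw] at h5
      nlinarith
    nlinarith

/-- the size of `b - 1` -/
lemma b_est {a s X X2 P Pm β b Θ : ℝ} (ha : 0 < a) (ha1 : a ≤ 1 / 1000) (hs : a ≤ s)
    (hX : 1 / 2 ≤ X) (hX' : X ≤ 1.1) (h2 : 1 / 2 ≤ X2) (hP : 0 ≤ P) (hP' : P ≤ Pm) (hPm : 1 ≤ Pm)
    (hb : b = X / X2 * P ^ 2 + β ^ 2 / (X * X2 * s ^ 2)) (hv : (X / X2 - 1) ^ 2 ≤ 8 * Θ)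
    (hβ : β ^ 2 ≤ Θ) (hΘ : Θ ≤ a ^ 2 / 50) :
    a ^ 4 * (b - 1) ^ 2 ≤ 30 * Pm ^ 4 * (a ^ 4 * (P - 1) ^ 2 + a * Θ) ∧ b ≤ 3 * Pm ^ 4 := by
  have hs0 : 0 < s := by linarith
  have hΘ0 : 0 ≤ Θ := (sq_nonneg β).trans hβ
  have hden : a ^ 2 / 4 ≤ X * X2 * s ^ 2 := by
    have h1 : 1 / 4 ≤ X * X2 := by nlinarith
    have h2 : a ^ 2 ≤ s ^ 2 := by nlinarith
    nlinarith [sq_nonneg a]
  set τ := β ^ 2 / (X * X2 * s ^ 2) with hτ
  have hτ0 : 0 ≤ τ := by positivity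
  have hτ1 : a ^ 2 * τ ≤ 4 * Θ := by
    have : τ * (X * X2 * s ^ 2) = β ^ 2 := by rw [hτ]; field_simp
    nlinarith
  have hτ2 : τ ≤ 2 / 25 := by
    have : a ^ 2 * τ ≤ a ^ 2 * (2 / 25) := by linarith
    exact le_of_mul_le_mul_left this (by positivity)
  have hP2 : P ^ 2 ≤ Pm ^ 2 := pow_le_pow_left₀ hP hP' 2
  have hPm2 : 1 ≤ Pm ^ 2 := one_le_pow₀ hPm
  have hPm4 : Pm ^ 2 ≤ Pm ^ 4 := by nlinarith
  have hk : X / X2 ≤ 2.2 := by rw [div_le_iff₀ (by linarith)]; linarith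
  set v := X / X2 - 1 with hv'
  have ek : X / X2 = 1 + v := by rw [hv']; ring
  constructor
  · have e : b - 1 = (P - 1) * (P + 1) + v * P ^ 2 + τ := by rw [hb, ek]; ring
    have t1 : a ^ 4 * ((P - 1) * (P + 1)) ^ 2 ≤ 4 * Pm ^ 4 * (a ^ 4 * (P - 1) ^ 2) := by
      have : (P + 1) ^ 2 ≤ 4 * Pm ^ 4 := by nlinarith
      calc _ = (P + 1) ^ 2 * (a ^ 4 * (P - 1) ^ 2) := by ring
        _ ≤ _ := mul_le_mul_of_nonneg_right this (by positivity)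
    have ha3 : a ^ 3 ≤ 1 := pow_le_one₀ ha.le (by linarith)
    have haΘ : 0 ≤ a * Θ := by positivity
    have t2 : a ^ 4 * (v * P ^ 2) ^ 2 ≤ 8 * Pm ^ 4 * (a * Θ) := by
      have h4 : P ^ 4 ≤ Pm ^ 4 := pow_le_pow_left₀ hP hP' 4
      calc _ = a ^ 3 * (a * (v ^ 2 * P ^ 4)) := by ring
        _ ≤ 1 * (a * (8 * Θ * Pm ^ 4)) := by gcongr
        _ = _ := by ring
    have t3 : a ^ 4 * τ ^ 2 ≤ a * Θ := by
      calc _ = (a ^ 2 * τ) * (a ^ 2 * τ) := by ring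
        _ ≤ (4 * Θ) * (a ^ 2 * (2 / 25)) := by gcongr
        _ = (8 / 25 * a) * (a * Θ) := by ring
        _ ≤ 1 * (a * Θ) := by gcongr; linarith
        _ = _ := by ring
    have hsum : (b - 1) ^ 2 ≤ 3 * (((P - 1) * (P + 1)) ^ 2 + (v * P ^ 2) ^ 2 + τ ^ 2) := by
      rw [e]
      nlinarith [sq_nonneg ((P - 1) * (P + 1) - v * P ^ 2), sq_nonneg ((P - 1) * (P + 1) - τ),
        sq_nonneg (v * P ^ 2 - τ)]
    have h5 : a ^ 4 * (b - 1) ^ 2 ≤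
        a ^ 4 * (3 * (((P - 1) * (P + 1)) ^ 2 + (v * P ^ 2) ^ 2 + τ ^ 2)) := by gcongr
    have h6 : 0 ≤ a ^ 4 * (P - 1) ^ 2 := by positivity
    have h7 : a * Θ ≤ Pm ^ 4 * (a * Θ) := by nlinarith
    have h8 : 0 ≤ Pm ^ 4 * (a ^ 4 * (P - 1) ^ 2) := by positivity
    nlinarith
  · have : X / X2 * P ^ 2 ≤ 2.2 * Pm ^ 2 := by gcongr
    rw [hb]; nlinarith

lemma root_est {K a : ℝ} (hK : 1 ≤ K) (ha : 0 < a) (ha1 : a ≤ 1 / 1000)
    (ha2 : (K + 1) ^ 2 * a ≤ 1 / 100) :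
    K * (a * √a) + 1.001 * a ^ 2 ≤ (K + 1) * (a * √a) ∧ K * (a * √a) ≤ 1 / 10 ∧
      ((K + 1) * (a * √a)) ^ 2 = (K + 1) ^ 2 * a ^ 3 := by
  have hr0 : 0 ≤ √a := sqrt_nonneg a
  have hr2 : √a ^ 2 = a := sq_sqrt ha.le
  have hr1 : √a ≤ 1 / 20 := by nlinarith
  have hKr : (K + 1) * √a ≤ 1 / 10 := by
    have : ((K + 1) * √a) ^ 2 ≤ (1 / 10) ^ 2 := by rw [mul_pow, hr2]; linarith
    exact (pow_le_pow_iff_left₀ (by positivity) (by norm_num) two_ne_zero).1 this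
  refine ⟨?_, by nlinarith, by rw [mul_pow, mul_pow, hr2]; ring⟩
  have : a ^ 2 = (a * √a) * √a := by rw [mul_assoc, ← sq √a, hr2]; ring
  rw [this]
  nlinarith [mul_nonneg ha.le hr0]

lemma v_est {X Y Θ : ℝ} (hY : 1 / 2 ≤ Y) (h : (X - Y) ^ 2 ≤ 2 * Θ) : (X / Y - 1) ^ 2 ≤ 8 * Θ := by
  have : X / Y - 1 = (X - Y) / Y := by field_simp
  rw [this, div_pow, div_le_iff₀ (by positivity)]
  have : 1 / 4 ≤ Y ^ 2 := by nlinarith
  nlinarith [sq_nonneg (X - Y)]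

lemma A_est {a s X P Pm C : ℝ} (ha : 0 < a) (hs : a ≤ s) (hs' : s ≤ 1.001 * a) (hX : 1 / 2 ≤ X)
    (hX' : X ≤ 1.1) (hP : 1 / 4 ≤ P) (hP' : P ≤ Pm) (hPm : 1 ≤ Pm) (hC : 8 * Pm ^ 4 ≤ C) :
    s * X / 4 ≤ P * (s * X) ∧ a / C ≤ P * (s * X) ∧ P * (s * X) ≤ C * a := by
  have h4 : Pm ≤ Pm ^ 4 := by nlinarith [one_le_pow₀ (n := 3) hPm]
  have h1 : a / 2 ≤ s * X := by nlinarith
  have h2 : s * X ≤ 2 * a := by nlinarith
  have h3 : s * X / 4 ≤ P * (s * X) := by nlinarith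
  refine ⟨h3, ?_, ?_⟩
  · calc a / C ≤ a / 8 := by gcongr; linarith
      _ ≤ _ := by linarith
  · calc _ ≤ Pm * (2 * a) := by gcongr; linarith
      _ ≤ _ := by nlinarith

theorem nrm_sizes {K Pm : ℝ} (hK : 1 ≤ K) (hPm : 1 ≤ Pm) : ∃ C a0 : ℝ, 1 ≤ C ∧ 0 < a0 ∧
    ∀ a M D, 0 < a → a ≤ a0 → Nrm a K Pm M D →
      a ≤ 1 / 1000 ∧ Th a M D ≤ C * a ^ 3 ∧ (∀ y, |y| ≤ 1 → (qq M D y - q0 a y) ^ 2 ≤ C * Th a M D) ∧
      (Complex.normSq M / X2 a - 1) ^ 2 ≤ C * Th a M D ∧ ip M D ^ 2 ≤ C * Th a M D ∧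
      (Complex.normSq D - om a) ^ 2 ≤ C * Th a M D ∧
      a ^ 4 * (bb a D - 1) ^ 2 ≤ C * g0 a M D ∧ 0 ≤ bb a D ∧ bb a D ≤ C ∧
      a / C ≤ det M D ∧ det M D ≤ C * a ∧
      (∀ y, |y| ≤ 1 → 1 / 2 ≤ qq M D y ∧ qq M D y ≤ 1.1) ∧
      ∀ (w : P2 → ℝ) (x0 x1 : ℝ), ContDiff ℝ 1 w → 0 ≤ x0 → x0 ≤ x1 →
        DG M D x0 x1 w ≤ C * D0 a x0 x1 w ∧ D0 a x0 x1 w ≤ C * DG M D x0 x1 w := by
  have hPm4 : 1 ≤ Pm ^ 4 := one_le_pow₀ hPm
  have hK2 : 4 ≤ (K + 1) ^ 2 := by nlinarith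
  refine ⟨2 * (K + 1) ^ 2 + 100 * Pm ^ 4, min (1 / 1000) (1 / (100 * (K + 1) ^ 2)), by linarith,
    lt_min (by norm_num) (by positivity), fun a M D ha ha0 hN => ?_⟩
  set C := 2 * (K + 1) ^ 2 + 100 * Pm ^ 4 with hC
  have ha1 : a ≤ 1 / 1000 := ha0.trans (min_le_left _ _)
  have ha2 : (K + 1) ^ 2 * a ≤ 1 / 100 := by
    have := ha0.trans (min_le_right _ _)
    rw [le_div_iff₀ (by positivity)] at this
    linarith
  obtain ⟨r1, r2, r3⟩ := root_est hK ha ha1 ha2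
  have hδ : ∀ y, |y| ≤ 1 → |qq M D y - q0 a y| ≤ (K + 1) * (a * √a) := by
    intro y hy
    calc _ = |(qq M D y - 1) - (q0 a y - 1)| := by congr 1; ring
      _ ≤ _ := abs_sub _ _
      _ ≤ _ := by linarith [hN.small y hy, abs_q0_sub_one ha ha1 hy]
  have hTh : Th a M D ≤ 2 * ((K + 1) ^ 2 * a ^ 3) := r3 ▸ Th_le hδ
  have hTh' : Th a M D ≤ a ^ 2 / 50 := by
    calc _ ≤ 2 * ((K + 1) ^ 2 * a) * a ^ 2 := by linarith
      _ ≤ 2 * (1 / 100) * a ^ 2 := by gcongr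
      _ = _ := by ring
  have hT0 := Th_nonneg a M D
  have hq : ∀ y, |y| ≤ 1 → 1 / 2 ≤ qq M D y ∧ qq M D y ≤ 1.1 := by
    intro y hy
    have h1 := abs_le.1 (hN.small y hy)
    constructor <;> linarith [h1.1, h1.2]
  have hX := hq 0 (by simp)
  have eX : qq M D 0 = Complex.normSq M := by simp [qq]
  rw [eX] at hX
  have hX2 : 1 / 2 ≤ X2 a := by
    have : a ^ 2 ≤ 1 := pow_le_one₀ ha.le (by linarith)
    linarith [X2_ge ha ha1]
  have hs := sg_ge ha ha1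
  have hs0 := sg_pos ha ha1
  have hX0 : 0 < Complex.normSq M := by linarith [hX.1]
  have hom : 0 < om a := by rw [om_eq]; positivity
  have hv := v_est hX2 (A0_le a M D)
  have eA : det M D = PP a M D * (sg a * Complex.normSq M) := by unfold PP; field_simp
  have ew : Complex.normSq D = bb a D * (a * sg a) := by unfold bb; rw [← om_eq]; field_simp
  have hP0 : 0 ≤ PP a M D := by linarith [hN.P_lo]
  have eb : bb a D = Complex.normSq M / X2 a * PP a M D ^ 2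
      + ip M D ^ 2 / (Complex.normSq M * X2 a * sg a ^ 2) := by
    have h1 := det_sq M D
    have h2 := X2_mul_sg ha ha1
    rw [eA, ew] at h1
    field_simp
    linear_combination (-1) * h1 + bb a D * Complex.normSq M * sg a * h2
  obtain ⟨hb1, hb2⟩ := b_est ha ha1 hs hX.1 hX.2 hX2 hP0 hN.P_hi hPm eb hv (ip_le a M D) hTh'
  have hb0 : 0 ≤ bb a D := div_nonneg (Complex.normSq_nonneg _) hom.le
  obtain ⟨hA1, hA2, hA3⟩ := A_est (C := C) ha hs (sg_le ha ha1) hX.1 hX.2 hN.P_lo hN.P_hi hPm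
    (by linarith)
  rw [← eA] at hA1 hA2 hA3
  have hg : 0 ≤ g0 a M D := by unfold g0; positivity
  have hCT : 36 * Th a M D ≤ C * Th a M D := by gcongr; linarith
  refine ⟨ha1, ?_, fun y hy => (del_le a M D hy).trans hCT, by linarith,
    by linarith [ip_le a M D], by linarith [C0_le a M D], ?_, hb0, by linarith, hA2, hA3, hq,
    fun w x0 x1 hw h0 h1 => ?_⟩
  · calc _ ≤ 2 * (K + 1) ^ 2 * a ^ 3 := by linarith
      _ ≤ _ := by gcongr; linarith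
  · calc _ ≤ 30 * Pm ^ 4 * g0 a M D := hb1
      _ ≤ _ := by gcongr; linarith
  · have key := fun u v => form_cmp (u := u) (v := v) (C := C) ha hs hX.1 (det_sq M D)
      hA1 ew hb0 (by linarith)
    unfold DG D0
    rw [← T_const_mul, ← T_const_mul]
    have hx := continuous_px hw
    have hy := continuous_py hw
    exact ⟨T_mono (by unfold Cont; fun_prop) (by unfold Cont; fun_prop) h0 h1
        fun x _ η _ => (key _ _).1,
      T_mono (by unfold Cont; fun_prop) (by unfold Cont; fun_prop) h0 h1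
        fun x _ η _ => (key _ _).2⟩

end Pool.Agent.PSz.Inn
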