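import Pool.Agent.P.MP_7b7370_an.Api

/-! Definitions shared by the sector files. -/

set_option autoImplicit false

namespace Pool.Agent.PSz

open Real Set MeasureTheory intervalIntegral

def det (u v : ℂ) : ℝ := u.re * v.im - u.im * v.re
def ip (u v : ℂ) : ℝ := u.re * v.re + u.im * v.im
/-- the linear map from the standard triangle onto the triangle `0, M - D, M + D` -/
noncomputable def Lm (M D : ℂ) (p : P2) : ℂ := p.1 • M + p.2 • D
noncomputable def Li (M D : ℂ) (z : ℂ) : P2 := (det z D / det M D, det M z / det M D)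
/-- squared distance to the origin along the base -/
noncomputable def qq (M D : ℂ) (y : ℝ) : ℝ :=
  Complex.normSq M + 2 * ip M D * y + Complex.normSq D * y ^ 2
/-- Dirichlet energy on the triangle `0, M - D, M + D` in standard coordinates -/
noncomputable def DG (M D : ℂ) (x0 x1 : ℝ) (w : P2 → ℝ) : ℝ :=
  T x0 x1 fun x η => (Complex.normSq D * px w (x, x * η) ^ 2
    - 2 * ip M D * (px w (x, x * η) * py w (x, x * η))
    + Complex.normSq M * py w (x, x * η) ^ 2) / det M D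
noncomputable def PP (a : ℝ) (M D : ℂ) : ℝ := det M D / (sg a * Complex.normSq M)
noncomputable def bb (a : ℝ) (D : ℂ) : ℝ := Complex.normSq D / om a
noncomputable def Th (a : ℝ) (M D : ℂ) : ℝ := ∫ y in (-1 : ℝ)..1, (qq M D y - q0 a y) ^ 2
/-- the gain of a normal sector -/
noncomputable def g0 (a : ℝ) (M D : ℂ) : ℝ := a ^ 4 * (PP a M D - 1) ^ 2 + a * Th a M D
noncomputable def gam (t : ℝ) : ℝ := 2 * F1 t 1 / 3
noncomputable def kap (a t : ℝ) : ℝ := -2 * gam t / ∫ y in (-1 : ℝ)..1, 1 / √(q0 a y) ^ 3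
/-- values of the comparison function on a cut -/
noncomputable def Nd (a : ℝ) (h : P2 → ℝ) (b r : ℝ) : ℝ :=
  avg h (r / Rv a) + b * (h (r / Rv a, r / Rv a) - avg h (r / Rv a))

/-- a sector whose first side is the segment `M - D, M + D` -/
structure Tri (θa θb : ℝ) (M D : ℂ) (η R : ℝ → ℝ) : Prop where
  lt : θa < θb
  ar : 0 < det M D
  ce : Continuous η
  cR : Continuous R
  Rpos : ∀ θ, 0 < R θ
  mem : ∀ θ, |η θ| ≤ 1
  pt : ∀ θ ∈ Icc θa θb, pol (R θ) θ = M + η θ • D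
  ea : η θa = -1
  eb : η θb = 1
  der : ∀ θ ∈ Ioo θa θb, HasDerivAt η (R θ ^ 2 / det M D) θ

/-- a triangle close to the reference one up to a bounded stretch -/
structure Nrm (a K Pm : ℝ) (M D : ℂ) : Prop where
  ar : 0 < det M D
  small : ∀ y, |y| ≤ 1 → |qq M D y - 1| ≤ K * (a * √a)
  P_lo : 1 / 4 ≤ PP a M D
  P_hi : PP a M D ≤ Pm

/-- a function of `(r, θ)` on a sector with its polar derivatives and values on the two cuts -/
structure Piece (θa θb : ℝ) (na nb : ℝ → ℝ) (w0 : ℝ) (H Hr Ht : ℝ → ℝ → ℝ) : Prop where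
  cH : Cont H
  cHr : Cont Hr
  cHt : Cont Ht
  dr : ∀ r, ∀ θ ∈ Icc θa θb, HasDerivAt (fun r => H r θ) (Hr r θ) r
  dt : ∀ r, ∀ θ ∈ Ioo θa θb, HasDerivAt (H r) (r * Ht r θ) θ
  left : ∀ r, H r θa = na r
  right : ∀ r, H r θb = nb r
  zero : ∀ θ ∈ Icc θa θb, H 0 θ = w0

/-- squared `H^1` distance on the circular sector of radius `s` -/
noncomputable def Err (θa θb s : ℝ) (Hb : ℂ → ℝ) (H Hr Ht : ℝ → ℝ → ℝ) : ℝ :=
  PI θa θb (fun _ => 0) (fun _ => s) fun r θ =>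
    (Hr r θ - fderiv ℝ Hb (pol r θ) (cis θ)) ^ 2
      + (Ht r θ - fderiv ℝ Hb (pol r θ) (Complex.I * cis θ)) ^ 2 + (H r θ - Hb (pol r θ)) ^ 2

noncomputable def PD (θa θb : ℝ) (r0 r1 : ℝ → ℝ) (w : ℂ → ℝ) : ℝ :=
  PI θa θb r0 r1 fun r θ => ‖fderiv ℝ w (pol r θ)‖ ^ 2
noncomputable def PM (θa θb : ℝ) (r0 r1 : ℝ → ℝ) (w : ℂ → ℝ) : ℝ :=
  PI θa θb r0 r1 fun r θ => w (pol r θ) ^ 2

/-- what is proved for every sector (`R` is the truncated radial function) -/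
structure SecOut (e C0 C ε a t ς Φ sJ sD κ : ℝ) (h : P2 → ℝ) (θa θb A B : ℝ) (abn : Prop)
    (Hb : ℂ → ℝ) (g : ℝ) : Prop where
  smooth : ContDiff ℝ 1 Hb
  g_nonneg : 0 ≤ g
  g_abn : abn → a ^ 4 ≤ C0 * g
  inner : ∀ ba bb : ℝ, (ba = 0 ∨ ba = 1) → (bb = 0 ∨ bb = 1) → (abn → ba = 0 ∧ bb = 0) →
    ∃ H Hr Ht, Piece θa θb (Nd a h ba) (Nd a h bb) (h 0) H Hr Ht ∧
      Err θa θb ((1 - ε) ^ 2) Hb H Hr Ht ≤ C * (a * (g + a ^ 4 * (2 - ba - bb)) + ς ^ 2) ∧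
      PI θa θb (fun _ => 0) (fun _ => (1 - ε) ^ 2) (fun r θ => H r θ ^ 2)
        ≤ C * a ^ 5 * (θb - θa + a)
  main : ∀ u : ℂ → ℝ, ContDiff ℝ 1 u →
    (θa < θb → ∀ θ ∈ Icc θa θb, u (pol (1 / ell A B θ) θ) = 0) → ∀ c : ℝ,
    c ^ 2 * (Φ + sJ * ((∫ θ in θa..θb, Rp ε A B θ ^ 2 / 2) / a - 1)
        + sD * (((∫ θ in θa..θb, Rp ε A B θ ^ 2 / 2) - (θb - θa) / 2) / a) + g - C * ς)
      + 0.98 * PD θa θb (fun _ => 0) (fun _ => (1 - ε) ^ 2) (fun z => c * phi t z - u z - c * Hb z)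
      + e * PD θa θb (fun _ => (1 - ε) ^ 2) (Rp ε A B) (fun z => c * phi t z - u z - c * Hb z)
      - (t + e) * PM θa θb (fun _ => 0) (Rp ε A B) (fun z => c * phi t z - u z - c * Hb z)
    ≤ PD θa θb (fun _ => 0) (Rp ε A B) (fun z => c * phi t z - u z)
      - t * PM θa θb (fun _ => 0) (Rp ε A B) (fun z => c * phi t z - u z)
      + c ^ 2 * ∫ θ in θa..θb, ft t (Rp ε A B θ ^ 2)
  bdry : ∫ θ in θa..θb, (F0 t (Rp ε A B θ ^ 2) - Hb (pol (Rp ε A B θ) θ)) ^ 2 ≤ C0 * g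
  bad : ∀ u : ℂ → ℝ, ContDiff ℝ 1 u →
    (θa < θb → ∀ θ ∈ Icc θa θb, u (pol (1 / ell A B θ) θ) = 0) →
    (∫ θ in θa..θb, 2 * Rp ε A B θ ^ 2 * F1 t (Rp ε A B θ ^ 2) * u (pol (Rp ε A B θ) θ)) ^ 2
      ≤ C0 / ε ^ 2 * g * ∫ θ in θa..θb, u (pol (1 + ε) θ) ^ 2
  zc : (∫ θ in θa..θb, (F0 t (Rp ε A B θ ^ 2) - Hb (pol (Rp ε A B θ) θ)
      - gam t * Rp ε A B θ ^ 3 - κ) * cos θ) ^ 2 ≤ C0 * (a ^ 2 + (a + ε ^ 2) * (θb - θa)) * g
  zs : (∫ θ in θa..θb, (F0 t (Rp ε A B θ ^ 2) - Hb (pol (Rp ε A B θ) θ)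
      - gam t * Rp ε A B θ ^ 3 - κ) * sin θ) ^ 2 ≤ C0 * (a ^ 2 + (a + ε ^ 2) * (θb - θa)) * g

@[fun_prop] lemma contDiff_Lm (M D : ℂ) : ContDiff ℝ 1 (Lm M D) := by unfold Lm; fun_prop
@[fun_prop] lemma contDiff_Li (M D : ℂ) : ContDiff ℝ 1 (Li M D) := by
  have h1 : ContDiff ℝ 1 fun z : ℂ => z.re := Complex.reCLM.contDiff
  have h2 : ContDiff ℝ 1 fun z : ℂ => z.im := Complex.imCLM.contDiff
  unfold Li det; fun_prop
@[fun_prop] lemma contDiff_qq (M D : ℂ) : ContDiff ℝ 1 (qq M D) := by unfold qq; fun_prop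
@[fun_prop] lemma continuous_qq (M D : ℂ) : Continuous (qq M D) := by unfold qq; fun_prop

lemma Li_Lm {M D : ℂ} (h : det M D ≠ 0) (p : P2) : Li M D (Lm M D p) = p := by
  ext
  · simp only [Li]; rw [div_eq_iff h]; simp [Lm, det]; ring
  · simp only [Li]; rw [div_eq_iff h]; simp [Lm, det]; ring

lemma qq_eq (M D : ℂ) (y : ℝ) : qq M D y = Complex.normSq (M + y • D) := by
  simp [qq, ip, Complex.normSq_apply]; ring

lemma det_sq (M D : ℂ) : det M D ^ 2 = Complex.normSq M * Complex.normSq D - ip M D ^ 2 := by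
  simp [det, ip, Complex.normSq_apply]; ring

end Pool.Agent.PSz
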