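import Pool.Agent.P.MP_7b7370_an.Ref2
import Pool.Agent.P.MP_7b7370_an.SDefs

/-! The comparison function on the reference triangle. -/

set_option autoImplicit false

namespace Pool.Agent.PSz.Inn

open Real Set MeasureTheory intervalIntegral

lemma one_le_q0 {a : ℝ} (h0 : 0 < a) (h1 : a ≤ 1 / 1000) : 1 ≤ q0 a 1 := by
  have := om_ge h0 h1
  have := X2_ge h0 h1
  have := sq_nonneg a
  unfold q0; linarith

lemma Rv_sq {a : ℝ} (h0 : 0 < a) (h1 : a ≤ 1 / 1000) : Rv a ^ 2 = q0 a 1 :=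
  sq_sqrt (q0_pos h0 h1 1).le

lemma one_le_Rv {a : ℝ} (h0 : 0 < a) (h1 : a ≤ 1 / 1000) : 1 ≤ Rv a :=
  one_le_sqrt.2 (one_le_q0 h0 h1)

lemma Rv_sq_le {a : ℝ} (h0 : 0 < a) (h1 : a ≤ 1 / 1000) : Rv a ^ 2 ≤ 2 := by
  rw [Rv_sq h0 h1]
  have := (abs_le.1 (abs_q0_sub_one h0 h1 (y := 1) (by simp))).2
  have : a ^ 2 ≤ 1 / 2 := by nlinarith
  linarith

lemma avg_zero (h : P2 → ℝ) : avg h 0 = h 0 := by
  have : ((0 : ℝ), (0 : ℝ)) = (0 : P2) := rfl
  simp [avg, this]; ring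

lemma T_scale_le {g : ℝ → ℝ} (hg : Continuous g) (hg0 : ∀ x, 0 ≤ g x) {l s : ℝ} (hl : 0 < l)
    (hs : 0 ≤ s) (hls : l * s ≤ 1) :
    l ^ 2 * T 0 s (fun x _ => g (l * x)) ≤ T 0 1 fun x _ => g x := by
  rw [T_scale (Γ := fun x _ => g x) hl.ne', mul_zero, mul_div_cancel₀ _ (by positivity)]
  exact T_le_range (by unfold Cont; fun_prop) (by positivity) hls fun x _ _ _ => hg0 x

lemma rad_le {a : ℝ} (h0 : 0 < a) (h1 : a ≤ 1 / 1000) {g : ℝ → ℝ} (hg : Continuous g)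
    (hg0 : ∀ x, 0 ≤ g x) {θa θb s : ℝ} (hab : θa ≤ θb) (hs : 0 ≤ s) (hs1 : s ≤ 1) :
    PI θa θb (fun _ => 0) (fun _ => s) (fun r _ => g (r / Rv a))
      ≤ (θb - θa) * T 0 1 fun x _ => g x := by
  have hR := one_le_Rv h0 h1
  have hR2 := Rv_sq_le h0 h1
  have h2 := T_scale_le hg hg0 (l := (Rv a)⁻¹) (by positivity) hs
    (by rw [inv_mul_le_iff₀ (by linarith)]; linarith)
  have h3 : 0 ≤ T 0 1 fun x _ => g x :=
    T_nonneg (by unfold Cont; fun_prop) le_rfl zero_le_one fun x _ _ _ => hg0 x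
  rw [T_radial fun x => g ((Rv a)⁻¹ * x), inv_pow, inv_mul_le_iff₀ (by positivity)] at h2
  simp only [PI, intervalIntegral.integral_const, smul_eq_mul, div_eq_inv_mul]
  refine mul_le_mul_of_nonneg_left ?_ (by linarith)
  nlinarith

theorem inner_abn : ∃ C : ℝ, 1 ≤ C ∧ ∀ a t ς h, Ref a t ς h → ∀ θa θb s : ℝ, θa ≤ θb → 0 ≤ s →
    s ≤ 1 → ∃ H Hr Ht, Piece θa θb (Nd a h 0) (Nd a h 0) (h 0) H Hr Ht ∧
      Err θa θb s (fun _ => 0) H Hr Ht ≤ C * a ^ 5 * (θb - θa) ∧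
      PI θa θb (fun _ => 0) (fun _ => s) (fun r θ => H r θ ^ 2) ≤ C * a ^ 5 * (θb - θa) := by
  obtain ⟨c, C, -, hC, hr⟩ := ref_sizes
  refine ⟨2 * C, by linarith, fun a t ς h hR θa θb s hab hs hs1 => ?_⟩
  obtain ⟨-, -, -, h4, h5⟩ := hr a t ς h hR
  have h0 := hR.a_pos
  have h1 := hR.a_le
  have hv := one_le_Rv h0 h1
  have hm := (contDiff_avg hR.smooth).continuous
  have hd := continuous_davg hR.smooth
  have hθ : 0 ≤ θb - θa := by linarith
  have hCa : 0 ≤ C * a ^ 5 := by positivity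
  refine ⟨fun r _ => avg h (r / Rv a), fun r _ => davg h (r / Rv a) / Rv a, fun _ _ => 0,
    ⟨by unfold Cont; fun_prop, by unfold Cont; fun_prop, continuous_const, fun r θ _ => ?_,
      fun r θ _ => ?_, fun r => by simp [Nd], fun r => by simp [Nd],
      fun θ _ => by simp [avg_zero]⟩, ?_, ?_⟩
  · have := (hasDerivAt_avg hR.smooth (r / Rv a)).comp r ((hasDerivAt_id r).div_const (Rv a))
    refine this.congr_deriv ?_
    ring
  · simpa using hasDerivAt_const θ (avg h (r / Rv a))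
  · have := rad_le h0 h1 (g := fun x => davg h x ^ 2 + avg h x ^ 2) (by fun_prop)
      (fun x => by positivity) hab hs hs1
    rw [T_add (Γ := fun x _ => davg h x ^ 2) (Γ' := fun x _ => avg h x ^ 2)
      (by unfold Cont; fun_prop) (by unfold Cont; fun_prop)] at this
    unfold Err
    simp only [fderiv_fun_const, Pi.zero_apply, zero_apply, sub_zero]
    refine (PI_mono (by unfold Cont; fun_prop) (by unfold Cont; fun_prop) continuous_const
      continuous_const hab (fun _ _ => ⟨le_rfl, hs⟩) fun θ _ r _ => ?_).trans (this.trans ?_)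
    · have : (davg h (r / Rv a) / Rv a) ^ 2 ≤ davg h (r / Rv a) ^ 2 := by
        rw [div_pow]; exact div_le_self (sq_nonneg _) (one_le_pow₀ hv)
      linarith
    · nlinarith
  · have := rad_le h0 h1 (g := fun x => avg h x ^ 2) (by fun_prop)
      (fun x => by positivity) hab hs hs1
    refine this.trans ?_
    nlinarith

/-- interpolation between the angular average and the function -/
noncomputable def Gb (h : P2 → ℝ) (β : ℝ) (p : P2) : ℝ := avg h p.1 + β * (h p - avg h p.1)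

lemma contDiff_Gb {h : P2 → ℝ} (hh : ContDiff ℝ 1 h) (β : ℝ) : ContDiff ℝ 1 (Gb h β) := by
  have := contDiff_avg hh
  unfold Gb; fun_prop

lemma px_Gb {h : P2 → ℝ} (hh : ContDiff ℝ 1 h) (β x y : ℝ) :
    px (Gb h β) (x, y) = davg h x + β * (px h (x, y) - davg h x) :=
  px_eq (contDiff_Gb hh β) ((hasDerivAt_avg hh x).add
    (((hasDerivAt_px hh x y).sub (hasDerivAt_avg hh x)).const_mul β))

lemma py_Gb {h : P2 → ℝ} (hh : ContDiff ℝ 1 h) (β x y : ℝ) :
    py (Gb h β) (x, y) = β * py h (x, y) :=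
  py_eq (contDiff_Gb hh β)
    ((((hasDerivAt_py hh x y).sub_const (avg h x)).const_mul β).const_add (avg h x))

lemma D0_comb {a x0 x1 c : ℝ} (hs : 0 < sg a) (h0 : 0 ≤ x0) (h1 : x0 ≤ x1) {f g : P2 → ℝ}
    (hf : ContDiff ℝ 1 f) (hg : ContDiff ℝ 1 g) :
    D0 a x0 x1 (fun p => f p + c * g p) ≤ 2 * D0 a x0 x1 f + 2 * c ^ 2 * D0 a x0 x1 g := by
  have hs' : ContDiff ℝ 1 fun p => f p + c * g p := by fun_prop
  have ex : ∀ x y, px (fun p => f p + c * g p) (x, y) = px f (x, y) + c * px g (x, y) :=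
    fun x y => px_eq hs' ((hasDerivAt_px hf x y).add ((hasDerivAt_px hg x y).const_mul c))
  have ey : ∀ x y, py (fun p => f p + c * g p) (x, y) = py f (x, y) + c * py g (x, y) :=
    fun x y => py_eq hs' ((hasDerivAt_py hf x y).add ((hasDerivAt_py hg x y).const_mul c))
  have := continuous_px hf
  have := continuous_py hf
  have := continuous_px hg
  have := continuous_py hg
  unfold D0
  simp only [ex, ey]
  rw [← T_const_mul, ← T_const_mul, ← T_add (by unfold Cont; fun_prop) (by unfold Cont; fun_prop)]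
  refine T_mono (by unfold Cont; fun_prop) (by unfold Cont; fun_prop) h0 h1 fun x _ η _ => ?_
  simp only [div_eq_mul_inv]
  have hi : 0 < (sg a)⁻¹ := by positivity
  nlinarith [mul_nonneg hs.le (sq_nonneg (px f (x, x * η) - c * px g (x, x * η))),
    mul_nonneg hi.le (sq_nonneg (py f (x, x * η) - c * py g (x, x * η)))]

lemma Tpx_le {a x1 : ℝ} (hs : 0 < sg a) (h1 : 0 ≤ x1) {f : P2 → ℝ} (hf : ContDiff ℝ 1 f) :
    sg a * T 0 x1 (fun x η => px f (x, x * η) ^ 2) ≤ D0 a 0 x1 f := by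
  have := continuous_px hf
  have := continuous_py hf
  unfold D0
  rw [← T_const_mul]
  refine T_mono (by unfold Cont; fun_prop) (by unfold Cont; fun_prop) le_rfl h1 fun x _ η _ => ?_
  have : 0 ≤ py f (x, x * η) ^ 2 / sg a := by positivity
  linarith

lemma Tpy_le {a x1 : ℝ} (hs : 0 < sg a) (h1 : 0 ≤ x1) {f : P2 → ℝ} (hf : ContDiff ℝ 1 f) :
    T 0 x1 (fun x η => py f (x, x * η) ^ 2) ≤ sg a * D0 a 0 x1 f := by
  have := continuous_px hf
  have := continuous_py hf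
  unfold D0
  rw [← T_const_mul]
  refine T_mono (by unfold Cont; fun_prop) (by unfold Cont; fun_prop) le_rfl h1 fun x _ η _ => ?_
  have : 0 ≤ sg a * (sg a * px f (x, x * η) ^ 2) := by positivity
  rw [mul_add, mul_div_cancel₀ _ hs.ne']
  linarith

lemma D0_rad {a l s : ℝ} (hs : 0 < sg a) {h : P2 → ℝ} (hh : ContDiff ℝ 1 h) (hl : 0 < l)
    (h0 : 0 ≤ s) (hls : l * s ≤ 1) :
    D0 a 0 s (fun p => Gb h 0 (l • p)) ≤ sg a * T 0 1 fun x _ => davg h x ^ 2 := by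
  have hm := contDiff_avg hh
  have eG : (fun p => Gb h 0 (l • p)) = fun p : P2 => avg h (l * p.1) := by
    funext p; simp [Gb]
  rw [eG]
  have hs' : ContDiff ℝ 1 fun p : P2 => avg h (l * p.1) := by fun_prop
  have ex : ∀ x y, px (fun p : P2 => avg h (l * p.1)) (x, y) = davg h (l * x) * (l * 1) :=
    fun x y => px_eq hs' ((hasDerivAt_avg hh (l * x)).comp x ((hasDerivAt_id x).const_mul l))
  have ey : ∀ x y, py (fun p : P2 => avg h (l * p.1)) (x, y) = 0 :=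
    fun x y => py_eq hs' (hasDerivAt_const y (avg h (l * x)))
  have h2 := T_scale_le (g := fun x => davg h x ^ 2) ((continuous_davg hh).pow 2)
    (fun x => sq_nonneg _) hl h0 hls
  refine le_trans (le_of_eq ?_) (mul_le_mul_of_nonneg_left h2 hs.le)
  unfold D0
  rw [← T_const_mul, ← T_const_mul]
  congr 1; funext x η
  rw [ex, ey]; ring

lemma D0_nonneg {a x1 : ℝ} (hs : 0 < sg a) (h1 : 0 ≤ x1) {f : P2 → ℝ} (hf : ContDiff ℝ 1 f) :
    0 ≤ D0 a 0 x1 f := by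
  have := continuous_px hf
  have := continuous_py hf
  exact T_nonneg (by unfold Cont; fun_prop) le_rfl h1 fun x _ η _ => by positivity

/-- sizes of the interpolated function -/
lemma Gb_sizes : ∃ C : ℝ, 1 ≤ C ∧ ∀ a t ς h, Ref a t ς h →
    (∀ β : ℝ, β = 0 ∨ β = 1 →
      T 0 1 (fun x η => px (Gb h β) (x, x * η) ^ 2 + py (Gb h β) (x, x * η) ^ 2) ≤ C * a ^ 3) ∧
    (∀ s, 0 ≤ s → s ≤ 1 → T 0 s (fun x η => h (x, x * η) ^ 2) ≤ C * a ^ 5) ∧
    (∀ s, 0 ≤ s → s ≤ 1 → T 0 s (fun x _ => avg h x ^ 2) ≤ C * a ^ 5) ∧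
    sg a * T 0 1 (fun x _ => davg h x ^ 2) ≤ C * a ^ 6 := by
  obtain ⟨c, C, -, hC, hr⟩ := ref_sizes
  refine ⟨4 * C, by linarith, fun a t ς h hR => ?_⟩
  obtain ⟨-, h2, h3, h4, h5⟩ := hr a t ς h hR
  have h0 := hR.a_pos
  have h1 := hR.a_le
  have hh := hR.smooth
  have hs := sg_pos h0 h1
  have hs1 := sg_ge h0 h1
  have hs2 : sg a ≤ 2 * a := by linarith [sg_le h0 h1]
  have hm := (contDiff_avg hh).continuous
  have hd := continuous_davg hh
  have hx := continuous_px hh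
  have hy := continuous_py hh
  have hc := hh.continuous
  have ha5 : 0 ≤ C * a ^ 5 := by positivity
  refine ⟨fun β hβ => ?_, fun s s0 s1 => ?_, fun s s0 s1 => ?_, ?_⟩
  · have e1 : T 0 1 (fun x η => px h (x, x * η) ^ 2) ≤ C * a ^ 3 := by
      refine le_of_mul_le_mul_left (((Tpx_le hs zero_le_one hh).trans h2).trans ?_) hs
      calc C * a ^ 4 = a * (C * a ^ 3) := by ring
        _ ≤ _ := by gcongr
    have e2 : T 0 1 (fun x η => py h (x, x * η) ^ 2) ≤ 2 * (C * a ^ 5) := by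
      calc _ ≤ sg a * D0 a 0 1 h := Tpy_le hs zero_le_one hh
        _ ≤ (2 * a) * (C * a ^ 4) := by gcongr; exact D0_nonneg hs zero_le_one hh
        _ = _ := by ring
    have e3 : C * a ^ 5 ≤ C * a ^ 3 :=
      mul_le_mul_of_nonneg_left (pow_le_pow_of_le_one h0.le (by linarith) (by norm_num))
        (by linarith)
    simp only [px_Gb hh, py_Gb hh]
    calc _ ≤ T 0 1 fun x η => (davg h x ^ 2 + px h (x, x * η) ^ 2) + py h (x, x * η) ^ 2 := by
          refine T_mono (by unfold Cont; fun_prop) (by unfold Cont; fun_prop) le_rfl zero_le_one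
            fun x _ η _ => ?_
          rcases hβ with rfl | rfl
          · nlinarith [sq_nonneg (px h (x, x * η)), sq_nonneg (py h (x, x * η))]
          · nlinarith [sq_nonneg (davg h x)]
      _ ≤ _ := by
          rw [T_add (by unfold Cont; fun_prop) (by unfold Cont; fun_prop),
            T_add (Γ := fun x _ => davg h x ^ 2) (by unfold Cont; fun_prop)
            (by unfold Cont; fun_prop)]
          linarith
  · have e1 : T 0 1 (fun x η => h (x, x * η) ^ 2) ≤ C * a ^ 5 := by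
      refine le_of_mul_le_mul_left (h3.trans (le_of_eq ?_)) h0
      ring
    have := T_le_range (x0 := 0) (Γ := fun x η => h (x, x * η) ^ 2) (by unfold Cont; fun_prop) s0 s1
      fun _ _ _ _ => sq_nonneg _
    linarith
  · have := T_le_range (x0 := 0) (Γ := fun x _ => avg h x ^ 2) (by unfold Cont; fun_prop) s0 s1
      fun _ _ _ _ => sq_nonneg _
    linarith
  · calc _ ≤ sg a * (C * a ^ 5) := by gcongr
      _ ≤ (4 * a) * (C * a ^ 5) := by gcongr; linarith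
      _ = _ := by ring

lemma sq_e {x g m u b β : ℝ} (h0 : 0 ≤ x) (h1 : x ≤ 1) (hβ : β = 0 ∨ β = 1) :
    (x * g + (m + β * (u - m)) - b * u) ^ 2
      ≤ 3 * g ^ 2 + 6 * (1 - b) ^ 2 * u ^ 2 + (1 - β) * (3 * m ^ 2 + 6 * u ^ 2) ∧
    (x * g + (m + β * (u - m))) ^ 2 ≤ 2 * g ^ 2 + 2 * m ^ 2 + 2 * u ^ 2 := by
  have e : (x * g) ^ 2 ≤ g ^ 2 := by
    rw [mul_pow]; exact mul_le_of_le_one_left (sq_nonneg g) (pow_le_one₀ h0 h1)
  generalize x * g = k at e ⊢
  rcases hβ with rfl | rfl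
  · constructor
    · nlinarith [sq_nonneg (k - m), sq_nonneg (k + b * u), sq_nonneg (m + b * u),
        sq_nonneg ((2 - b) * u)]
    · nlinarith [sq_nonneg (k - m), sq_nonneg u]
  · constructor
    · nlinarith [sq_nonneg (k - (1 - b) * u), sq_nonneg ((1 - b) * u), sq_nonneg g]
    · nlinarith [sq_nonneg (k - u), sq_nonneg m]

/-- estimates for the function attached to one cut -/
lemma side {ε : ℝ} (hε : 0 < ε) (hε1 : ε ≤ 1 / 100) : ∃ C : ℝ, 1 ≤ C ∧ ∀ a t ς h, Ref a t ς h →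
    ∀ l β b : ℝ, |l - 1| ≤ ε / 4 → (β = 0 ∨ β = 1) → ∃ Γ : ℝ → ℝ → ℝ, Cont Γ ∧
    (∀ x η, Gb h β (l • (x, x * η)) = x * Γ x η + Gb h β (x, x * η)) ∧
    T 0 (1 - ε) (fun x η => Γ x η ^ 2) ≤ C * ((l - 1) ^ 2 * a ^ 3) ∧
    D0 a 0 (1 - ε) (fun p => Gb h β (l • p) - b * h p)
      ≤ C * ((l - 1) ^ 2 * a ^ 4 + ς ^ 2 + (1 - b) ^ 2 * a ^ 6 + (1 - β) * a ^ 6) ∧
    T 0 (1 - ε) (fun x η => (Gb h β (l • (x, x * η)) - b * h (x, x * η)) ^ 2)
      ≤ C * ((l - 1) ^ 2 * a ^ 3 + (1 - b) ^ 2 * a ^ 5 + (1 - β) * a ^ 5) ∧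
    T 0 (1 - ε) (fun x η => Gb h β (l • (x, x * η)) ^ 2) ≤ C * ((l - 1) ^ 2 * a ^ 3 + a ^ 5) := by
  obtain ⟨C1, hC1, hr1⟩ := Gb_sizes
  obtain ⟨C2, hC2, hr2⟩ := ref_inner hε (by linarith)
  obtain ⟨C3, hC3, hr3⟩ := ref_dil hε (by linarith)
  obtain ⟨C, hC⟩ : ∃ C, C = 24 * C1 + 4 * C2 + 2 * C3 := ⟨_, rfl⟩
  refine ⟨C, by linarith, fun a t ς h hR l β b hl hβ => ?_⟩
  obtain ⟨e1, e2, e3, e4⟩ := hr1 a t ς h hR
  have e5 := hr2 a t ς h hR
  have e6 := hr3 a t ς h hR l hl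
  have h0 := hR.a_pos
  have hh := hR.smooth
  have hs := sg_pos h0 hR.a_le
  have hε2 : 0 ≤ 1 - ε := by linarith
  obtain ⟨l0, l1⟩ := abs_le.1 hl
  have hlε : l * (1 - ε) ≤ 1 := by nlinarith
  have hG := contDiff_Gb hh β
  obtain ⟨Γ, hΓ, eΓ, bΓ⟩ := exists_dil hG (l := l) (by linarith) (by linarith)
  have eΓ' : ∀ x η, Gb h β (l • (x, x * η)) = x * Γ x η + Gb h β (x, x * η) := by
    intro x η; rw [← eΓ]; simp
  have t1 : T 0 (1 - ε) (fun x η => Γ x η ^ 2) ≤ 8 * C1 * ((l - 1) ^ 2 * a ^ 3) := by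
    calc _ ≤ _ := bΓ (1 - ε) 1 hε2 (by linarith) hlε
      _ ≤ 8 * (l - 1) ^ 2 * (C1 * a ^ 3) := by gcongr; exact e1 β hβ
      _ = _ := by ring
  have e2 := e2 _ hε2 (by linarith)
  have e3 := e3 _ hε2 (by linarith)
  have hm := (contDiff_avg hh).continuous
  have hc := hh.continuous
  have hβ0 : 0 ≤ 1 - β := by rcases hβ with rfl | rfl <;> norm_num
  have p1 : 0 ≤ (l - 1) ^ 2 * a ^ 3 := by positivity
  have hΓ2 : Continuous fun p : ℝ × ℝ => Γ p.1 p.2 := hΓ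
  refine ⟨Γ, hΓ, eΓ', t1.trans (by gcongr; linarith), ?_, ?_, ?_⟩
  · have p2 : 0 ≤ (l - 1) ^ 2 * a ^ 4 + ς ^ 2 := by positivity
    have p3 : 0 ≤ (1 - b) ^ 2 * a ^ 6 := by positivity
    have p4 : 0 ≤ a ^ 6 := by positivity
    have hD := D0_nonneg hs hε2 hh
    rcases hβ with rfl | rfl
    · have k1 := D0_comb (c := -b) hs le_rfl hε2 (f := fun p => Gb h 0 (l • p)) (by fun_prop) hh
      have k2 := (D0_rad hs hh (by linarith) hε2 hlε).trans e4
      have k3 : 2 * (-b) ^ 2 * D0 a 0 (1 - ε) h ≤ (4 * (1 - b) ^ 2 + 4) * (C2 * a ^ 6) := by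
        gcongr; nlinarith [sq_nonneg (2 - b)]
      simp only [neg_mul, ← sub_eq_add_neg] at k1
      calc _ ≤ 2 * (C1 * a ^ 6) + (4 * (1 - b) ^ 2 + 4) * (C2 * a ^ 6) := by linarith
        _ = 0 * ((l - 1) ^ 2 * a ^ 4 + ς ^ 2) + 4 * C2 * ((1 - b) ^ 2 * a ^ 6)
            + (2 * C1 + 4 * C2) * a ^ 6 := by ring
        _ ≤ C * ((l - 1) ^ 2 * a ^ 4 + ς ^ 2)
            + C * ((1 - b) ^ 2 * a ^ 6)
            + C * a ^ 6 := by gcongr <;> linarith
        _ = _ := by ring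
    · have k1 := D0_comb (c := 1 - b) hs le_rfl hε2 (f := fun p => h (l • p) - h p)
        (by fun_prop) hh
      have e : (fun p => Gb h 1 (l • p) - b * h p) = fun p => h (l • p) - h p + (1 - b) * h p := by
        funext p; unfold Gb; ring
      have k3 : 2 * (1 - b) ^ 2 * D0 a 0 (1 - ε) h ≤ 2 * (1 - b) ^ 2 * (C2 * a ^ 6) := by gcongr
      rw [e]
      calc _ ≤ 2 * C3 * ((l - 1) ^ 2 * a ^ 4 + ς ^ 2) + 2 * C2 * ((1 - b) ^ 2 * a ^ 6) := by
            linarith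
        _ ≤ C * ((l - 1) ^ 2 * a ^ 4 + ς ^ 2)
            + C * ((1 - b) ^ 2 * a ^ 6) := by gcongr <;> linarith
        _ = _ := by ring
  · simp only [eΓ']
    calc _ ≤ T 0 (1 - ε) fun x η => 3 * Γ x η ^ 2 + 6 * (1 - b) ^ 2 * h (x, x * η) ^ 2
          + (1 - β) * (3 * avg h x ^ 2 + 6 * h (x, x * η) ^ 2) :=
          T_mono (by unfold Cont; fun_prop) (by unfold Cont; fun_prop) le_rfl hε2
            fun x hx η _ => (sq_e hx.1.le (by linarith [hx.2]) hβ).1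
      _ ≤ 3 * (8 * C1 * ((l - 1) ^ 2 * a ^ 3)) + 6 * (1 - b) ^ 2 * (C1 * a ^ 5)
          + (1 - β) * (3 * (C1 * a ^ 5) + 6 * (C1 * a ^ 5)) := by
          rw [T_add (by unfold Cont; fun_prop) (by unfold Cont; fun_prop),
            T_add (by unfold Cont; fun_prop) (by unfold Cont; fun_prop), T_const_mul, T_const_mul,
            T_const_mul, T_add (Γ := fun x _ => 3 * avg h x ^ 2) (by unfold Cont; fun_prop)
            (by unfold Cont; fun_prop), T_const_mul, T_const_mul]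
          gcongr
      _ = 24 * C1 * ((l - 1) ^ 2 * a ^ 3) + 6 * C1 * ((1 - b) ^ 2 * a ^ 5)
          + 9 * C1 * ((1 - β) * a ^ 5) := by ring
      _ ≤ C * ((l - 1) ^ 2 * a ^ 3)
          + C * ((1 - b) ^ 2 * a ^ 5)
          + C * ((1 - β) * a ^ 5) := by gcongr <;> linarith
      _ = _ := by ring
  · simp only [eΓ']
    calc _ ≤ T 0 (1 - ε) fun x η => 2 * Γ x η ^ 2 + 2 * avg h x ^ 2 + 2 * h (x, x * η) ^ 2 :=
          T_mono (by unfold Cont; fun_prop) (by unfold Cont; fun_prop) le_rfl hε2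
            fun x hx η _ => (sq_e (b := b) hx.1.le (by linarith [hx.2]) hβ).2
      _ ≤ 2 * (8 * C1 * ((l - 1) ^ 2 * a ^ 3)) + 2 * (C1 * a ^ 5) + 2 * (C1 * a ^ 5) := by
          rw [T_add (by unfold Cont; fun_prop) (by unfold Cont; fun_prop),
            T_add (Γ' := fun x _ => 2 * avg h x ^ 2) (by unfold Cont; fun_prop)
            (by unfold Cont; fun_prop), T_const_mul, T_const_mul, T_const_mul]
          gcongr
      _ = 16 * C1 * ((l - 1) ^ 2 * a ^ 3) + 4 * C1 * a ^ 5 := by ring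
      _ ≤ C * ((l - 1) ^ 2 * a ^ 3)
          + C * a ^ 5 := by gcongr <;> linarith
      _ = _ := by ring

end Pool.Agent.PSz.Inn
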