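import Pool.Agent.P.MP_7b7370_an.Chg

/-! Angular interpolation of two functions on a triangular sector. -/

set_option autoImplicit false

namespace Pool.Agent.PSz.Inn

open Real Set MeasureTheory intervalIntegral

lemma conv_sq {e u v : ℝ} (he : |e| ≤ 1) :
    ((1 + e) / 2 * u + (1 - e) / 2 * v) ^ 2 ≤ u ^ 2 + v ^ 2 := by
  obtain ⟨h0, h1⟩ := abs_le.1 he
  have h2 : 0 ≤ (1 + e) * (1 - e) := mul_nonneg (by linarith) (by linarith)
  nlinarith [mul_nonneg h2 (sq_nonneg (u - v)), mul_nonneg (by linarith : 0 ≤ 1 - e) (sq_nonneg u),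
    mul_nonneg (by linarith : 0 ≤ 1 + e) (sq_nonneg v)]

lemma PI_le_tri {θa θb s x1 : ℝ} {R : ℝ → ℝ} (hab : θa ≤ θb) (hR : Continuous R) (hs : 0 ≤ s)
    (hsx : ∀ θ ∈ Icc θa θb, s ≤ x1 * R θ) {F : ℝ → ℝ → ℝ} (hF : Cont F) (h0 : ∀ r θ, 0 ≤ F r θ) :
    PI θa θb (fun _ => 0) (fun _ => s) F ≤ PI θa θb (fun θ => 0 * R θ) (fun θ => x1 * R θ) F := by
  have h1 := PI_split (θa := θa) (θb := θb) (r0 := fun _ => 0) (r1 := fun _ => s)
    (r2 := fun θ => x1 * R θ) hF continuous_const continuous_const (by fun_prop)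
  have h2 := PI_nonneg (θa := θa) (θb := θb) (r0 := fun _ => s) (r1 := fun θ => x1 * R θ) hF
    continuous_const (by fun_prop) hab (fun θ hθ => ⟨hs, hsx θ (Ioo_subset_Icc_self hθ)⟩)
    fun θ _ r _ => h0 r θ
  simp only [zero_mul]
  linarith

lemma piece_of {θa θb : ℝ} {M D : ℂ} {η R : ℝ → ℝ} (hT : Tri θa θb M D η R) {Yp Ym Hb : ℂ → ℝ}
    (hp : ContDiff ℝ 1 Yp) (hm : ContDiff ℝ 1 Ym) (hb : ContDiff ℝ 1 Hb) {Γ : ℝ → ℝ → ℝ}
    (hΓ : Cont Γ) (e : ∀ x y, Yp (Lm M D (x, x * y)) - Ym (Lm M D (x, x * y)) = x * Γ x y)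
    {na nb : ℝ → ℝ} {w0 : ℝ} (hl : ∀ r, Ym (pol r θa) = na r) (hr : ∀ r, Yp (pol r θb) = nb r)
    (h0p : Yp 0 = w0) (h0m : Ym 0 = w0) {s x1 : ℝ} (hs : 0 ≤ s)
    (hsx : ∀ θ ∈ Icc θa θb, s ≤ x1 * R θ) (hR2 : ∀ θ ∈ Icc θa θb, R θ ^ 2 ≤ 2) :
    ∃ H Hr Ht, Piece θa θb na nb w0 H Hr Ht ∧
      Err θa θb s Hb H Hr Ht ≤ 2 * DG M D 0 x1 (fun p => Yp (Lm M D p) - Hb (Lm M D p))
        + 2 * DG M D 0 x1 (fun p => Ym (Lm M D p) - Hb (Lm M D p))
        + T 0 x1 (fun x y => Γ x y ^ 2) / det M D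
        + det M D * T 0 x1 (fun x y => (Yp (Lm M D (x, x * y)) - Hb (Lm M D (x, x * y))) ^ 2)
        + det M D * T 0 x1 (fun x y => (Ym (Lm M D (x, x * y)) - Hb (Lm M D (x, x * y))) ^ 2) ∧
      PI θa θb (fun _ => 0) (fun _ => s) (fun r θ => H r θ ^ 2)
        ≤ det M D * T 0 x1 (fun x y => Yp (Lm M D (x, x * y)) ^ 2)
          + det M D * T 0 x1 (fun x y => Ym (Lm M D (x, x * y)) ^ 2) := by
  have hA := hT.ar
  have ce := hT.ce
  have cR := hT.cR
  have hR0 : ∀ θ, R θ ≠ 0 := fun θ => (hT.Rpos θ).ne'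
  have cp := hp.continuous
  have cm := hm.continuous
  have cb := hb.continuous
  have dp := hp.continuous_fderiv one_ne_zero
  have dm := hm.continuous_fderiv one_ne_zero
  have db := hb.continuous_fderiv one_ne_zero
  have cpol : Continuous fun p : ℝ × ℝ => pol p.1 p.2 :=
    Continuous.pol continuous_fst continuous_snd
  have cG : Continuous fun p : ℝ × ℝ => Γ (p.1 / R p.2) (η p.2) :=
    Continuous.comp (g := fun p : ℝ × ℝ => Γ p.1 p.2) (f := fun p : ℝ × ℝ => (p.1 / R p.2, η p.2))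
      hΓ ((continuous_fst.div (cR.comp continuous_snd) fun p => hR0 _).prodMk
        (ce.comp continuous_snd))
  obtain ⟨G, hG⟩ : ∃ G : ℝ → ℝ → ℝ, ∀ r θ, Γ (r / R θ) (η θ) = G r θ := ⟨_, fun _ _ => rfl⟩
  simp only [hG] at cG
  have hab := hT.lt.le
  have hep : ContDiff ℝ 1 fun z => Yp z - Hb z := hp.sub hb
  have hem : ContDiff ℝ 1 fun z => Ym z - Hb z := hm.sub hb
  have dep := hep.continuous_fderiv one_ne_zero
  have dem := hem.continuous_fderiv one_ne_zero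
  refine ⟨fun r θ => (1 + η θ) / 2 * Yp (pol r θ) + (1 - η θ) / 2 * Ym (pol r θ),
    fun r θ => (1 + η θ) / 2 * fderiv ℝ Yp (pol r θ) (cis θ)
      + (1 - η θ) / 2 * fderiv ℝ Ym (pol r θ) (cis θ),
    fun r θ => (1 + η θ) / 2 * fderiv ℝ Yp (pol r θ) (Complex.I * cis θ)
      + (1 - η θ) / 2 * fderiv ℝ Ym (pol r θ) (Complex.I * cis θ)
      + R θ / (2 * det M D) * G r θ,
    ⟨by unfold Cont; fun_prop, by unfold Cont; fun_prop, by unfold Cont; fun_prop,
      fun r θ _ => ((hasDerivAt_ray hp r θ).const_mul _).add ((hasDerivAt_ray hm r θ).const_mul _),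
      fun r θ hθ => ?_, fun r => by simp [hT.ea, hl], fun r => by simp [hT.eb, hr],
      fun θ _ => by simp only [pol_zero, h0p, h0m]; ring⟩, ?_, ?_⟩
  · have h1 := hT.der θ hθ
    have h2 := (((h1.const_add 1).div_const 2).mul (hasDerivAt_arc hp r θ)).add
      (((h1.const_sub 1).div_const 2).mul (hasDerivAt_arc hm r θ))
    refine h2.congr_deriv ?_
    have h3 := e (r / R θ) (η θ)
    rw [← hT.pol_eq (Ioo_subset_Icc_self hθ), hG] at h3
    have h4 : Yp (pol r θ) = Ym (pol r θ) + r / R θ * G r θ := by linarith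
    have := hR0 θ
    rw [h4]
    field_simp
    ring
  · have k1 := hT.chgD 0 x1 hep
    have k2 := hT.chgD 0 x1 hem
    have k3 := hT.chg 0 x1 (Γ := fun x y => Γ x y ^ 2) (hΓ.pow 2)
    simp only [hG] at k3
    have k4 := hT.chgF 0 x1 (F := fun z => (Yp z - Hb z) ^ 2) (by fun_prop)
    have k5 := hT.chgF 0 x1 (F := fun z => (Ym z - Hb z) ^ 2) (by fun_prop)
    have k6 : T 0 x1 (fun x y => Γ x y ^ 2) / det M D
        = 1 / det M D ^ 2 * (det M D * T 0 x1 fun x y => Γ x y ^ 2) := by field_simp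
    have c0 : Continuous fun θ => 0 * R θ := by fun_prop
    have c1 : Continuous fun θ => x1 * R θ := by fun_prop
    rw [k6, ← k1, ← k2, ← k3, ← k4, ← k5]
    unfold PD Err
    rw [← PI_const_mul, ← PI_const_mul, ← PI_const_mul,
      ← PI_add (by unfold Cont; fun_prop) (by unfold Cont; fun_prop) c0 c1,
      ← PI_add (by unfold Cont; fun_prop) (by unfold Cont; fun_prop) c0 c1,
      ← PI_add (by unfold Cont; fun_prop) (by unfold Cont; fun_prop) c0 c1,
      ← PI_add (by unfold Cont; fun_prop) (by unfold Cont; fun_prop) c0 c1]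
    refine le_trans (PI_mono (by unfold Cont; fun_prop) (by unfold Cont; fun_prop) continuous_const
      continuous_const hab (fun _ _ => ⟨le_rfl, hs⟩) fun θ hθ r _ => ?_)
      (PI_le_tri hab cR hs hsx (by unfold Cont; fun_prop) fun r θ => by positivity)
    rw [norm_clm_sq_cis _ θ, norm_clm_sq_cis _ θ,
      fderiv_fun_sub (hp.differentiable one_ne_zero _) (hb.differentiable one_ne_zero _),
      fderiv_fun_sub (hm.differentiable one_ne_zero _) (hb.differentiable one_ne_zero _)]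
    simp only [sub_apply]
    have he := hT.mem θ
    have hκ : 2 * (R θ / (2 * det M D) * G r θ) ^ 2 ≤ 1 / det M D ^ 2 * G r θ ^ 2 := by
      calc _ = R θ ^ 2 / 2 * (1 / det M D ^ 2 * G r θ ^ 2) := by field_simp
        _ ≤ 1 * _ := by gcongr; linarith [hR2 θ (Ioo_subset_Icc_self hθ)]
        _ = _ := one_mul _
    generalize R θ / (2 * det M D) * G r θ = κ at hκ ⊢
    generalize 1 / det M D ^ 2 * G r θ ^ 2 = κ2 at hκ ⊢
    generalize fderiv ℝ Yp (pol r θ) (cis θ) = u1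
    generalize fderiv ℝ Ym (pol r θ) (cis θ) = v1
    generalize fderiv ℝ Hb (pol r θ) (cis θ) = w1
    generalize fderiv ℝ Yp (pol r θ) (Complex.I * cis θ) = u2
    generalize fderiv ℝ Ym (pol r θ) (Complex.I * cis θ) = v2
    generalize fderiv ℝ Hb (pol r θ) (Complex.I * cis θ) = w2
    have t1 := conv_sq (u := u1 - w1) (v := v1 - w1) he
    have t2 := conv_sq (u := u2 - w2) (v := v2 - w2) he
    have t3 := conv_sq (u := Yp (pol r θ) - Hb (pol r θ)) (v := Ym (pol r θ) - Hb (pol r θ)) he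
    have t4 := sq_nonneg ((1 + η θ) / 2 * (u2 - w2) + (1 - η θ) / 2 * (v2 - w2) - κ)
    have t5 := sq_nonneg (u1 - w1)
    have t6 := sq_nonneg (v1 - w1)
    linarith
  · have k4 := hT.chgF 0 x1 (F := fun z => Yp z ^ 2) (by fun_prop)
    have k5 := hT.chgF 0 x1 (F := fun z => Ym z ^ 2) (by fun_prop)
    rw [← k4, ← k5, ← PI_add (by unfold Cont; fun_prop) (by unfold Cont; fun_prop) (by fun_prop)
      (by fun_prop)]
    exact le_trans (PI_mono (by unfold Cont; fun_prop) (by unfold Cont; fun_prop) continuous_const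
      continuous_const hab (fun _ _ => ⟨le_rfl, hs⟩) fun θ hθ r _ => conv_sq (hT.mem θ))
      (PI_le_tri hab cR hs hsx (by unfold Cont; fun_prop) fun r θ => by positivity)

end Pool.Agent.PSz.Inn
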