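import Pool.Agent.P.MP_7b7370_an.Ref2
import Pool.Agent.P.MP_7b7370_an.Chg
import Pool.Agent.P.MP_7b7370_an.InnerA
import Pool.Agent.P.MP_7b7370_an.InnerB
import Pool.Agent.P.MP_7b7370_an.InnerC

set_option autoImplicit false

namespace Pool.Agent.PSz

open Real Set MeasureTheory intervalIntegral

namespace Inn

lemma dil_sq_le {ρ v Θ : ℝ} (hρ : 0 < ρ) (hv : 1 ≤ v) (h : (ρ ^ 2 - v ^ 2) ^ 2 ≤ Θ) :
    (ρ / v - 1) ^ 2 ≤ Θ := by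
  have e : ρ / v - 1 = (ρ - v) / v := by field_simp
  rw [e, div_pow]
  refine (div_le_self (sq_nonneg _) (one_le_pow₀ hv)).trans (le_trans ?_ h)
  have e2 : (ρ ^ 2 - v ^ 2) ^ 2 = (ρ - v) ^ 2 * (ρ + v) ^ 2 := by ring
  rw [e2]
  exact le_mul_of_one_le_right (sq_nonneg _) (one_le_pow₀ (by linarith))

lemma Li_zero (M D : ℂ) : Li M D 0 = 0 := by
  ext <;> simp [Li, det]

/-- the four small quantities are bounded by `Z` -/
lemma small_le {a C Θ g n d b β ς : ℝ} (ha : 0 < a) (ha1 : a ≤ 1) (hC : 1 ≤ C) (hΘ : 0 ≤ Θ)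
    (hg : a * Θ ≤ g) (hd : d ≤ C * Θ) (hb : a ^ 4 * (b - 1) ^ 2 ≤ C * g) (hβ0 : 0 ≤ β)
    (hβ : β ≤ n) :
    d * a ^ 2 ≤ C * (a * (g + a ^ 4 * n) + ς ^ 2) ∧
    d * a ^ 4 + (1 - b) ^ 2 * a ^ 6 + β * a ^ 6 + ς ^ 2 ≤ 2 * C * (a * (g + a ^ 4 * n) + ς ^ 2) ∧
    n * a ^ 6 ≤ a * (g + a ^ 4 * n) + ς ^ 2 := by
  have hg0 : 0 ≤ g := le_trans (by positivity) hg
  have hn : 0 ≤ n := hβ0.trans hβ
  have p1 : 0 ≤ a * g := by positivity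
  have p2 : 0 ≤ a * (a ^ 4 * n) := by positivity
  have p3 := sq_nonneg ς
  have q1 : d * a ^ 2 ≤ C * (a * g) := by
    calc _ ≤ C * Θ * a ^ 2 := by gcongr
      _ = C * (a * (a * Θ)) := by ring
      _ ≤ _ := by gcongr
  have q2 : d * a ^ 4 ≤ C * (a * g) := by
    calc _ = a ^ 2 * (d * a ^ 2) := by ring
      _ ≤ a ^ 2 * (C * (a * g)) := by gcongr
      _ ≤ 1 * (C * (a * g)) := by gcongr; exact pow_le_one₀ ha.le ha1
      _ = _ := one_mul _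
  have q3 : (1 - b) ^ 2 * a ^ 6 ≤ C * (a * g) := by
    calc _ = a * (a * (a ^ 4 * (b - 1) ^ 2)) := by ring
      _ ≤ 1 * (a * (C * g)) := by gcongr
      _ = _ := by ring
  have q4 : n * a ^ 6 ≤ a * (a ^ 4 * n) := by
    calc _ = a * (a * (a ^ 4 * n)) := by ring
      _ ≤ 1 * (a * (a ^ 4 * n)) := by gcongr
      _ = _ := one_mul _
  have q5 : β * a ^ 6 ≤ n * a ^ 6 := by gcongr
  have q6 : a * (a ^ 4 * n) + ς ^ 2 ≤ C * (a * (a ^ 4 * n) + ς ^ 2) :=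
    le_mul_of_one_le_left (by positivity) hC
  refine ⟨by linarith, by linarith, by linarith⟩

end Inn

/-- paper 13.1: sizes of the parameters of a normal triangle -/
theorem nrm_sizes {K Pm : ℝ} (hK : 1 ≤ K) (hPm : 1 ≤ Pm) : ∃ C a0 : ℝ, 1 ≤ C ∧ 0 < a0 ∧
    ∀ a M D, 0 < a → a ≤ a0 → Nrm a K Pm M D →
      a ≤ 1 / 1000 ∧ Th a M D ≤ C * a ^ 3 ∧ (∀ y, |y| ≤ 1 → (qq M D y - q0 a y) ^ 2 ≤ C * Th a M D) ∧
      (Complex.normSq M / X2 a - 1) ^ 2 ≤ C * Th a M D ∧ ip M D ^ 2 ≤ C * Th a M D ∧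
      (Complex.normSq D - om a) ^ 2 ≤ C * Th a M D ∧
      a ^ 4 * (bb a D - 1) ^ 2 ≤ C * g0 a M D ∧ 0 ≤ bb a D ∧ bb a D ≤ C ∧
      a / C ≤ det M D ∧ det M D ≤ C * a ∧
      (∀ y, |y| ≤ 1 → 1 / 2 ≤ qq M D y ∧ qq M D y ≤ 1.1) ∧
      ∀ (w : P2 → ℝ) (x0 x1 : ℝ), ContDiff ℝ 1 w → 0 ≤ x0 → x0 ≤ x1 →
        DG M D x0 x1 w ≤ C * D0 a x0 x1 w ∧ D0 a x0 x1 w ≤ C * DG M D x0 x1 w :=
  Inn.nrm_sizes hK hPm

/-- paper 14.1 -/
theorem inner_abn : ∃ C : ℝ, 1 ≤ C ∧ ∀ a t ς h, Ref a t ς h → ∀ θa θb s : ℝ, θa ≤ θb → 0 ≤ s →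
    s ≤ 1 → ∃ H Hr Ht, Piece θa θb (Nd a h 0) (Nd a h 0) (h 0) H Hr Ht ∧
      Err θa θb s (fun _ => 0) H Hr Ht ≤ C * a ^ 5 * (θb - θa) ∧
      PI θa θb (fun _ => 0) (fun _ => s) (fun r θ => H r θ ^ 2) ≤ C * a ^ 5 * (θb - θa) :=
  Inn.inner_abn

namespace Inn

/-- the estimates for one cut of a normal triangle -/
lemma side2 {K Pm ε : ℝ} (hK : 1 ≤ K) (hPm : 1 ≤ Pm) (hε : 0 < ε) (hε1 : ε ≤ 1 / 100) :
    ∃ C a0 : ℝ, 1 ≤ C ∧ 0 < a0 ∧ ∀ a t ς h, Ref a t ς h → a ≤ a0 → ∀ M D, Nrm a K Pm M D →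
    ∀ ρ β n y : ℝ, 0 < ρ → (y = 1 ∨ y = -1) → ρ ^ 2 = qq M D y → (β = 0 ∨ β = 1) → 1 - β ≤ n →
    ∃ Γ : ℝ → ℝ → ℝ, Cont Γ ∧
      (∀ x η, Gb h β ((ρ / Rv a) • (x, x * η)) = x * Γ x η + Gb h β (x, x * η)) ∧
      T 0 (1 - ε) (fun x η => Γ x η ^ 2) / det M D ≤ C * (a * (g0 a M D + a ^ 4 * n) + ς ^ 2) ∧
      DG M D 0 (1 - ε) (fun p => Gb h β ((ρ / Rv a) • p) - bb a D * h p)
        ≤ C * (a * (g0 a M D + a ^ 4 * n) + ς ^ 2) ∧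
      det M D * T 0 (1 - ε)
        (fun x η => (Gb h β ((ρ / Rv a) • (x, x * η)) - bb a D * h (x, x * η)) ^ 2)
        ≤ C * (a * (g0 a M D + a ^ 4 * n) + ς ^ 2) ∧
      det M D * T 0 (1 - ε) (fun x η => Gb h β ((ρ / Rv a) • (x, x * η)) ^ 2) ≤ C * a ^ 6 := by
  obtain ⟨C0, a0, hC0, ha0, hn⟩ := nrm_sizes hK hPm
  obtain ⟨C1, hC1, hs⟩ := side hε hε1
  refine ⟨2 * C0 ^ 3 * C1, min a0 (ε ^ 2 / (16 * C0 ^ 2)),
    one_le_mul_of_one_le_of_one_le (by linarith [one_le_pow₀ (n := 3) hC0]) hC1,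
    lt_min ha0 (by positivity), fun a t ς h hR ha M D hN ρ β n y hρ hy eρ hβ hβn => ?_⟩
  have h0 := hR.a_pos
  obtain ⟨h1, n1, n2, -, -, -, n3, -, -, n4, n5, -, n6⟩ :=
    hn a M D h0 (ha.trans (min_le_left _ _)) hN
  have ha1 : a ≤ 1 := by linarith
  have hA := hN.ar
  have hΘ := Th_nonneg a M D
  have hd : (ρ / Rv a - 1) ^ 2 ≤ C0 * Th a M D := by
    refine dil_sq_le hρ (one_le_Rv h0 h1) ?_
    rw [eρ, Rv_sq h0 h1]
    rcases hy with rfl | rfl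
    · exact n2 1 (by simp)
    · have := n2 (-1) (by simp)
      rwa [show q0 a (-1) = q0 a 1 by simp [q0]] at this
  have hd2 : (ρ / Rv a - 1) ^ 2 ≤ C0 ^ 2 * a ^ 3 := by
    calc _ ≤ C0 * Th a M D := hd
      _ ≤ C0 * (C0 * a ^ 3) := by gcongr
      _ = _ := by ring
  have hl : |ρ / Rv a - 1| ≤ ε / 4 := by
    refine abs_le_of_sq_le_sq' ?_ (by positivity) |> abs_le.2
    have h2 := ha.trans (min_le_right _ _)
    rw [le_div_iff₀ (by positivity)] at h2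
    have h3 : a ^ 3 ≤ a := pow_le_of_le_one h0.le ha1 (by norm_num)
    calc _ ≤ C0 ^ 2 * a ^ 3 := hd2
      _ ≤ C0 ^ 2 * a := by gcongr
      _ ≤ _ := by linarith
  obtain ⟨Γ, hΓ, eΓ, b1, b2, b3, b4⟩ := hs a t ς h hR _ β (bb a D) hl hβ
  have hβ0 : 0 ≤ 1 - β := by rcases hβ with rfl | rfl <;> norm_num
  have hg : a * Th a M D ≤ g0 a M D := le_add_of_nonneg_left (by positivity)
  obtain ⟨z1, z2, -⟩ := small_le (ς := ς) h0 ha1 hC0 hΘ hg hd n3 hβ0 hβn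
  have hg0 : 0 ≤ g0 a M D := le_trans (by positivity) hg
  have hn0 : 0 ≤ n := hβ0.trans hβn
  obtain ⟨Z, hZ⟩ : ∃ Z, Z = a * (g0 a M D + a ^ 4 * n) + ς ^ 2 := ⟨_, rfl⟩
  have hZ0 : 0 ≤ Z := by rw [hZ]; positivity
  rw [← hZ] at z1 z2 ⊢
  have hG := contDiff_Gb hR.smooth β
  have hh := hR.smooth
  have c23 : C0 ^ 2 ≤ C0 ^ 3 := pow_le_pow_right₀ hC0 (by norm_num)
  have cZ : 2 * C0 ^ 2 * C1 * Z ≤ 2 * C0 ^ 3 * C1 * Z := by gcongr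
  have cZ0 : 0 ≤ C0 ^ 2 * C1 * Z := by positivity
  have hd0 := sq_nonneg (ρ / Rv a - 1)
  generalize (ρ / Rv a - 1) ^ 2 = d at *
  refine ⟨Γ, hΓ, eΓ, ?_, ?_, ?_, ?_⟩
  · rw [div_le_iff₀ hA]
    rw [div_le_iff₀ (by positivity)] at n4
    calc _ ≤ C1 * (d * a ^ 3) := b1
      _ = C1 * (d * a ^ 2) * a := by ring
      _ ≤ C1 * (C0 * Z) * (det M D * C0) := by gcongr
      _ = C0 ^ 2 * C1 * Z * det M D := by ring
      _ ≤ _ := mul_le_mul_of_nonneg_right (by linarith) hA.le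
  · calc _ ≤ _ := (n6 _ 0 (1 - ε) (by fun_prop) le_rfl (by linarith)).1
      _ ≤ C0 * (C1 * (2 * C0 * Z)) := by gcongr; exact b2.trans (by gcongr; linarith)
      _ ≤ _ := by linarith
  · calc _ ≤ det M D * (C1 * (d * a ^ 3 + (1 - bb a D) ^ 2 * a ^ 5 + (1 - β) * a ^ 5)) := by gcongr
      _ ≤ (C0 * a) * (C1 * (d * a ^ 3 + (1 - bb a D) ^ 2 * a ^ 5 + (1 - β) * a ^ 5)) := by
          gcongr
      _ = C0 * (C1 * (d * a ^ 4 + (1 - bb a D) ^ 2 * a ^ 6 + (1 - β) * a ^ 6)) := by ring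
      _ ≤ C0 * (C1 * (2 * C0 * Z)) := by gcongr; linarith [sq_nonneg ς]
      _ ≤ _ := by linarith
  · calc _ ≤ det M D * (C1 * (C0 ^ 2 * a ^ 3 * a ^ 3 + a ^ 5)) := by
          gcongr; exact b4.trans (by gcongr)
      _ ≤ (C0 * a) * (C1 * (C0 ^ 2 * a ^ 3 * a ^ 3 + a ^ 5)) := by gcongr
      _ = C0 * C1 * a ^ 6 * (C0 ^ 2 * a + 1) := by ring
      _ ≤ C0 * C1 * a ^ 6 * (C0 ^ 2 * 1 + C0 ^ 2) := by gcongr; exact one_le_pow₀ hC0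
      _ = _ := by ring

end Inn

/-- paper 14.2 -/
theorem inner_normal {K Pm ε : ℝ} (hK : 1 ≤ K) (hPm : 1 ≤ Pm) (hε : 0 < ε) (hε1 : ε ≤ 1 / 100) :
    ∃ C a0 : ℝ, 1 ≤ C ∧ 0 < a0 ∧ ∀ a t ς h, Ref a t ς h → a ≤ a0 →
    ∀ θa θb M D η R, Tri θa θb M D η R → Nrm a K Pm M D → ∀ s : ℝ, 0 ≤ s →
    (∀ θ ∈ Icc θa θb, s ≤ (1 - ε) * R θ) →
    ∀ ba bb' : ℝ, (ba = 0 ∨ ba = 1) → (bb' = 0 ∨ bb' = 1) →
    ∃ H Hr Ht, Piece θa θb (Nd a h ba) (Nd a h bb') (h 0) H Hr Ht ∧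
      Err θa θb s (fun z => bb a D * h (Li M D z)) H Hr Ht
        ≤ C * (a * (g0 a M D + a ^ 4 * (2 - ba - bb')) + ς ^ 2) ∧
      PI θa θb (fun _ => 0) (fun _ => s) (fun r θ => H r θ ^ 2) ≤ C * a ^ 6 := by
  obtain ⟨C0, a0, hC0, ha0, hn⟩ := nrm_sizes hK hPm
  obtain ⟨C1, a1, hC1, ha1, hs⟩ := Inn.side2 hK hPm hε hε1
  obtain ⟨C2, hC2, hi⟩ := ref_inner hε (by linarith)
  have hC02 : 1 ≤ C0 * C2 := one_le_mul_of_one_le_of_one_le hC0 hC2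
  refine ⟨12 * C1 + 24 * (C0 * C2), min a0 a1, by linarith, lt_min ha0 ha1,
    fun a t ς h hR ha θa θb M D η R hT hN s hs0 hsx ba bb' hba hbb => ?_⟩
  have h0 := hR.a_pos
  obtain ⟨h1, -, -, -, -, -, n3, -, -, n4, -, n5, -⟩ :=
    hn a M D h0 (ha.trans (min_le_left _ _)) hN
  have hA := hN.ar
  have ma : θa ∈ Icc θa θb := left_mem_Icc.2 hT.lt.le
  have mb : θb ∈ Icc θa θb := right_mem_Icc.2 hT.lt.le
  have b0 : ba ≤ 1 := by rcases hba with rfl | rfl <;> norm_num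
  have b1 : bb' ≤ 1 := by rcases hbb with rfl | rfl <;> norm_num
  obtain ⟨Γp, cp, ep, p1, p2, p3, p4⟩ := hs a t ς h hR (ha.trans (min_le_right _ _)) M D hN (R θb)
    bb' (2 - ba - bb') 1 (hT.Rpos _) (Or.inl rfl) (by rw [hT.sq mb, hT.eb]) hbb (by linarith)
  obtain ⟨Γm, cm, em, m1, m2, m3, m4⟩ := hs a t ς h hR (ha.trans (min_le_right _ _)) M D hN (R θa)
    ba (2 - ba - bb') (-1) (hT.Rpos _) (Or.inr rfl) (by rw [hT.sq ma, hT.ea]) hba (by linarith)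
  have hh := hR.smooth
  obtain ⟨Γ0, c0, e0, d0⟩ := exists_dev hh
  have gp := Inn.contDiff_Gb hh bb'
  have gm := Inn.contDiff_Gb hh ba
  have hv : Rv a ≠ 0 := by linarith [Inn.one_le_Rv h0 h1]
  have hε2 : 0 ≤ 1 - ε := by linarith
  have cp' : Continuous fun p : ℝ × ℝ => Γp p.1 p.2 := cp
  have cm' : Continuous fun p : ℝ × ℝ => Γm p.1 p.2 := cm
  have c0' : Continuous fun p : ℝ × ℝ => Γ0 p.1 p.2 := c0
  obtain ⟨H, Hr, Ht, hP, hE, hM⟩ := Inn.piece_of hT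
    (Yp := fun z => Inn.Gb h bb' ((R θb / Rv a) • Li M D z))
    (Ym := fun z => Inn.Gb h ba ((R θa / Rv a) • Li M D z))
    (Hb := fun z => bb a D * h (Li M D z)) (by fun_prop) (by fun_prop) (by fun_prop)
    (Γ := fun x y => Γp x y - Γm x y + (bb' - ba) * Γ0 x y) (by unfold Cont; fun_prop)
    (fun x y => by
      simp only [Li_Lm hA.ne', ep, em]
      unfold Inn.Gb
      linear_combination (bb' - ba) * e0 x y)
    (na := Nd a h ba) (nb := Nd a h bb') (w0 := h 0)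
    (fun r => by
      have e : R θa / Rv a * (r / R θa) = r / Rv a := by have := (hT.Rpos θa).ne'; field_simp
      simp only [hT.pol_eq ma, Li_Lm hA.ne', hT.ea, Prod.smul_mk, smul_eq_mul, mul_neg, mul_one, e,
        Inn.Gb, Nd, hR.even])
    (fun r => by
      have e : R θb / Rv a * (r / R θb) = r / Rv a := by have := (hT.Rpos θb).ne'; field_simp
      simp only [hT.pol_eq mb, Li_Lm hA.ne', hT.eb, Prod.smul_mk, smul_eq_mul, mul_one, e,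
        Inn.Gb, Nd])
    (by simp [Inn.Li_zero, Inn.Gb, Inn.avg_zero]) (by simp [Inn.Li_zero, Inn.Gb, Inn.avg_zero])
    hs0 hsx (fun θ hθ => by rw [hT.sq hθ]; linarith [(n5 _ (hT.mem θ)).2])
  simp only [Li_Lm hA.ne'] at hE hM
  have hg : a * Th a M D ≤ g0 a M D := le_add_of_nonneg_left (by positivity)
  have hΘ := Inn.Th_nonneg a M D
  obtain ⟨-, -, z3⟩ := Inn.small_le (ς := ς) (d := 0) (β := 0) (n := 2 - ba - bb') h0
    (by linarith) hC0 hΘ hg (by positivity) n3 le_rfl (by linarith)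
  have hn0 : 0 ≤ 2 - ba - bb' := by linarith
  have hg0 : 0 ≤ g0 a M D := le_trans (by positivity) hg
  have hZ0 : 0 ≤ a * (g0 a M D + a ^ 4 * (2 - ba - bb')) + ς ^ 2 := by positivity
  generalize a * (g0 a M D + a ^ 4 * (2 - ba - bb')) + ς ^ 2 = Z at *
  have hsg := sg_pos h0 h1
  have k0 : T 0 (1 - ε) (fun x y => Γ0 x y ^ 2) / det M D ≤ 8 * (C0 * C2) * a ^ 6 := by
    rw [div_le_iff₀ hA]
    rw [div_le_iff₀ (by positivity)] at n4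
    calc _ ≤ _ := d0 _ hε2
      _ ≤ 4 * (sg a * D0 a 0 (1 - ε) h) := by gcongr; exact Inn.Tpy_le hsg hε2 hh
      _ ≤ 4 * (sg a * (C2 * a ^ 6)) := by gcongr; exact hi a t ς h hR
      _ ≤ 4 * ((2 * (det M D * C0)) * (C2 * a ^ 6)) := by gcongr; linarith [sg_le h0 h1]
      _ = _ := by ring
  have k1 : T 0 (1 - ε) (fun x y => (Γp x y - Γm x y + (bb' - ba) * Γ0 x y) ^ 2)
      ≤ 3 * T 0 (1 - ε) (fun x y => Γp x y ^ 2) + 3 * T 0 (1 - ε) (fun x y => Γm x y ^ 2)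
        + 3 * (2 - ba - bb') * T 0 (1 - ε) (fun x y => Γ0 x y ^ 2) := by
    rw [← T_const_mul, ← T_const_mul, ← T_const_mul,
      ← T_add (by unfold Cont; fun_prop) (by unfold Cont; fun_prop),
      ← T_add (by unfold Cont; fun_prop) (by unfold Cont; fun_prop)]
    refine T_mono (by unfold Cont; fun_prop) (by unfold Cont; fun_prop) le_rfl hε2
      fun x _ y _ => ?_
    have : (bb' - ba) ^ 2 ≤ 2 - ba - bb' := by
      rcases hba with rfl | rfl <;> rcases hbb with rfl | rfl <;> norm_num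
    have := mul_le_mul_of_nonneg_right this (sq_nonneg (Γ0 x y))
    linarith [sq_nonneg (Γp x y + Γm x y), sq_nonneg (Γp x y - (bb' - ba) * Γ0 x y),
      sq_nonneg (Γm x y + (bb' - ba) * Γ0 x y)]
  have k2 : T 0 (1 - ε) (fun x y => (Γp x y - Γm x y + (bb' - ba) * Γ0 x y) ^ 2) / det M D
      ≤ 6 * (C1 * Z) + 24 * (C0 * C2) * Z := by
    calc _ ≤ _ := div_le_div_of_nonneg_right k1 hA.le
      _ = 3 * (T 0 (1 - ε) (fun x y => Γp x y ^ 2) / det M D)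
          + 3 * (T 0 (1 - ε) (fun x y => Γm x y ^ 2) / det M D)
          + 3 * (2 - ba - bb') * (T 0 (1 - ε) (fun x y => Γ0 x y ^ 2) / det M D) := by ring
      _ ≤ 3 * (C1 * Z) + 3 * (C1 * Z) + 3 * (2 - ba - bb') * (8 * (C0 * C2) * a ^ 6) := by gcongr
      _ = 6 * (C1 * Z) + 24 * (C0 * C2) * ((2 - ba - bb') * a ^ 6) := by ring
      _ ≤ _ := by gcongr
  refine ⟨H, Hr, Ht, hP, by linarith, ?_⟩
  have : 0 ≤ C1 * a ^ 6 := by positivity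
  have : 0 ≤ C0 * C2 * a ^ 6 := by positivity
  linarith

end Pool.Agent.PSz
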