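import Pool.Agent.P.MP_7b7370_an.SDefs

/-! Completing squares on a normal triangle. -/

set_option autoImplicit false

namespace Pool.Agent.PSz.NA

open Real Set MeasureTheory intervalIntegral Pool.Agent.PSz

lemma pw {σ P τ A a t e f k hx hy hv yx yy yv : ℝ} (hσ : 0 < σ) (hP : 0 < P) (hA : 0 < A)
    (he : 0 < e) (hf : 0 < f) :
    k ^ 2 * (P * σ * hx ^ 2 + (hy - τ * σ * hx) ^ 2 / (P * σ)) - k ^ 2 * t * A * hv ^ 2
      + 2 * k / P * (σ * (hx * yx) + hy * yy / σ - t * a * (hv * yv))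
      - k ^ 2 * ((P - 1 / P) ^ 2 / P / f + 2 / e * τ ^ 2 / P) * (σ * hx ^ 2)
      - k ^ 2 * (2 / e * τ ^ 2 / P ^ 3) * (hy ^ 2 / σ)
      - k ^ 2 * (t ^ 2 * (a / P - A) ^ 2 / (e * A)) * hv ^ 2
      + (1 - f - e / 2) * (P * σ * yx ^ 2 + (yy - τ * σ * yx) ^ 2 / (P * σ))
      - (t + e) * A * yv ^ 2
    ≤ (P * σ * (yx + k * hx) ^ 2 + ((yy + k * hy) - τ * σ * (yx + k * hx)) ^ 2 / (P * σ))
      - t * A * (yv + k * hv) ^ 2 := by
  have h1 : 0 ≤ f * P * σ * (yx + k * (P - 1 / P) * hx / (f * P)) ^ 2 := by positivity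
  have h2 : 0 ≤ e / 2 / (P * σ) * ((yy - τ * σ * yx) - 2 / e * k * τ * σ * hx) ^ 2 := by positivity
  have h3 : 0 ≤ e / 2 * P * σ * (yx - 2 / e * k * τ * hy / (P ^ 2 * σ)) ^ 2 := by positivity
  have h4 : 0 ≤ e * A * (yv + k * t * (a / P - A) * hv / (e * A)) ^ 2 := by positivity
  have h5 : 0 ≤ f * (yy - τ * σ * yx) ^ 2 / (P * σ) := by positivity
  rw [← sub_nonneg]
  refine (add_nonneg (add_nonneg (add_nonneg (add_nonneg h1 h2) h3) h4) h5).trans_eq ?_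
  field_simp; ring

section lin
variable {W h : P2 → ℝ}

lemma px_sub (hW : ContDiff ℝ 1 W) (hh : ContDiff ℝ 1 h) (k : ℝ) (p : P2) :
    px (fun p => W p - k * h p) p = px W p - k * px h p :=
  px_eq (x := p.1) (y := p.2) (by fun_prop)
    ((hasDerivAt_px hW p.1 p.2).sub ((hasDerivAt_px hh p.1 p.2).const_mul k))

lemma py_sub (hW : ContDiff ℝ 1 W) (hh : ContDiff ℝ 1 h) (k : ℝ) (p : P2) :
    py (fun p => W p - k * h p) p = py W p - k * py h p :=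
  py_eq (x := p.1) (y := p.2) (by fun_prop)
    ((hasDerivAt_py hW p.1 p.2).sub ((hasDerivAt_py hh p.1 p.2).const_mul k))

lemma px_even (hh : ContDiff ℝ 1 h) (he : ∀ x y, h (x, -y) = h (x, y)) (x y : ℝ) :
    px h (x, -y) = px h (x, y) :=
  px_eq hh (by simp only [he]; exact hasDerivAt_px hh x y)

lemma py_even (hh : ContDiff ℝ 1 h) (he : ∀ x y, h (x, -y) = h (x, y)) (x y : ℝ) :
    py h (x, -y) = -py h (x, y) := by
  have h1 := hasDerivAt_curve hh (hasDerivAt_const y x) (hasDerivAt_neg y)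
  simp only [he] at h1
  have := h1.unique (hasDerivAt_py hh x y)
  simp only [zero_mul, zero_add, neg_mul, one_mul] at this
  linarith

end lin

noncomputable def dn (P σ τ : ℝ) (w : P2 → ℝ) (x η : ℝ) : ℝ :=
  P * σ * px w (x, x * η) ^ 2 + (py w (x, x * η) - τ * σ * px w (x, x * η)) ^ 2 / (P * σ)
noncomputable def ex (σ : ℝ) (w : P2 → ℝ) (x η : ℝ) : ℝ := σ * px w (x, x * η) ^ 2
noncomputable def ey (σ : ℝ) (w : P2 → ℝ) (x η : ℝ) : ℝ := py w (x, x * η) ^ 2 / σ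
noncomputable def sqv (w : P2 → ℝ) (x η : ℝ) : ℝ := w (x, x * η) ^ 2
noncomputable def bi (σ a t : ℝ) (w z : P2 → ℝ) (x η : ℝ) : ℝ :=
  σ * (px w (x, x * η) * px z (x, x * η))
    + py w (x, x * η) * py z (x, x * η) / σ - t * a * (w (x, x * η) * z (x, x * η))

section cont
variable {w z : P2 → ℝ}
lemma c_dn (P σ τ : ℝ) (hw : ContDiff ℝ 1 w) : Cont (dn P σ τ w) := by
  have := continuous_px hw; have := continuous_py hw
  unfold dn Cont; fun_prop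
lemma c_ex (σ : ℝ) (hw : ContDiff ℝ 1 w) : Cont (ex σ w) := by
  have := continuous_px hw
  unfold ex Cont; fun_prop
lemma c_ey (σ : ℝ) (hw : ContDiff ℝ 1 w) : Cont (ey σ w) := by
  have := continuous_py hw
  unfold ey Cont; fun_prop
lemma c_sqv (hw : ContDiff ℝ 1 w) : Cont (sqv w) := by
  have := hw.continuous
  unfold sqv Cont; fun_prop
lemma c_bi (σ a t : ℝ) (hw : ContDiff ℝ 1 w) (hz : ContDiff ℝ 1 z) : Cont (bi σ a t w z) := by
  have := continuous_px hw; have := continuous_py hw; have := hw.continuous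
  have := continuous_px hz; have := continuous_py hz; have := hz.continuous
  unfold bi Cont; fun_prop
end cont

noncomputable def tau (a : ℝ) (M D : ℂ) : ℝ := ip M D / (sg a * Complex.normSq M)

lemma normSq_pos {M D : ℂ} (hA : 0 < det M D) : 0 < Complex.normSq M := by
  rcases (Complex.normSq_nonneg M).eq_or_lt with h | h
  · have := det_sq M D
    rw [← h] at this
    nlinarith [sq_nonneg (ip M D)]
  · exact h

lemma PP_pos {a : ℝ} {M D : ℂ} (hσ : 0 < sg a) (hA : 0 < det M D) : 0 < PP a M D :=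
  div_pos hA (mul_pos hσ (normSq_pos hA))

lemma DG_eq {a : ℝ} {M D : ℂ} (hσ : 0 < sg a) (hA : 0 < det M D) (x0 x1 : ℝ) (w : P2 → ℝ) :
    DG M D x0 x1 w = T x0 x1 (dn (PP a M D) (sg a) (tau a M D) w) := by
  unfold DG; congr 1; funext x η
  have hX := (normSq_pos hA).ne'
  have e : Complex.normSq D = (det M D ^ 2 + ip M D ^ 2) / Complex.normSq M := by
    rw [det_sq]; field_simp; ring
  unfold dn PP tau
  rw [e]; field_simp; ring

lemma T_lin8 {x0 x1 : ℝ} {G1 G2 G3 G4 G5 G6 G7 G8 : ℝ → ℝ → ℝ} (h1 : Cont G1) (h2 : Cont G2)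
    (h3 : Cont G3) (h4 : Cont G4) (h5 : Cont G5) (h6 : Cont G6) (h7 : Cont G7) (h8 : Cont G8)
    (c1 c2 c3 c4 c5 c6 c7 c8 : ℝ) :
    T x0 x1 (fun x η => c1 * G1 x η + c2 * G2 x η + c3 * G3 x η + c4 * G4 x η + c5 * G5 x η
      + c6 * G6 x η + c7 * G7 x η + c8 * G8 x η)
      = c1 * T x0 x1 G1 + c2 * T x0 x1 G2 + c3 * T x0 x1 G3 + c4 * T x0 x1 G4 + c5 * T x0 x1 G5
      + c6 * T x0 x1 G6 + c7 * T x0 x1 G7 + c8 * T x0 x1 G8 := by
  rw [T_add, T_add, T_add, T_add, T_add, T_add, T_add]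
  · simp only [T_const_mul]
  all_goals (unfold Cont at *; fun_prop)

lemma region {σ P τ A a t e f k x0 x1 : ℝ} (hσ : 0 < σ) (hP : 0 < P) (hA : 0 < A)
    (he : 0 < e) (hf : 0 < f) (h0 : 0 ≤ x0) (h1 : x0 ≤ x1) {W h : P2 → ℝ} (hW : ContDiff ℝ 1 W)
    (hh : ContDiff ℝ 1 h) :
    k ^ 2 * T x0 x1 (dn P σ τ h)
      - k ^ 2 * (t * A + t ^ 2 * (a / P - A) ^ 2 / (e * A)) * T x0 x1 (sqv h)
      + 2 * k / P * T x0 x1 (bi σ a t h fun p => W p - k * h p)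
      - k ^ 2 * ((P - 1 / P) ^ 2 / P / f + 2 / e * τ ^ 2 / P) * T x0 x1 (ex σ h)
      - k ^ 2 * (2 / e * τ ^ 2 / P ^ 3) * T x0 x1 (ey σ h)
      + (1 - f - e / 2) * T x0 x1 (dn P σ τ fun p => W p - k * h p)
      - (t + e) * A * T x0 x1 (sqv fun p => W p - k * h p)
    ≤ T x0 x1 (dn P σ τ W) - t * A * T x0 x1 (sqv W) := by
  have hy : ContDiff ℝ 1 fun p => W p - k * h p := by fun_prop
  have e1 := T_lin8 (x0 := x0) (x1 := x1) (c_dn P σ τ hh) (c_sqv hh) (c_bi σ a t hh hy)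
    (c_ex σ hh) (c_ey σ hh) (c_dn P σ τ hy) (c_sqv hy) (c_sqv hW) (k ^ 2)
    (-(k ^ 2 * (t * A + t ^ 2 * (a / P - A) ^ 2 / (e * A)))) (2 * k / P)
    (-(k ^ 2 * ((P - 1 / P) ^ 2 / P / f + 2 / e * τ ^ 2 / P))) (-(k ^ 2 * (2 / e * τ ^ 2 / P ^ 3)))
    (1 - f - e / 2) (-((t + e) * A)) (t * A)
  have e2 := T_mono (x0 := x0) (x1 := x1) (Γ' := dn P σ τ W) (Γ := fun x η =>
    k ^ 2 * dn P σ τ h x η + -(k ^ 2 * (t * A + t ^ 2 * (a / P - A) ^ 2 / (e * A))) * sqv h x η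
    + 2 * k / P * bi σ a t h (fun p => W p - k * h p) x η
    + -(k ^ 2 * ((P - 1 / P) ^ 2 / P / f + 2 / e * τ ^ 2 / P)) * ex σ h x η
    + -(k ^ 2 * (2 / e * τ ^ 2 / P ^ 3)) * ey σ h x η
    + (1 - f - e / 2) * dn P σ τ (fun p => W p - k * h p) x η
    + -((t + e) * A) * sqv (fun p => W p - k * h p) x η + t * A * sqv W x η)
    (by
      have := c_dn P σ τ hh; have := c_sqv hh; have := c_bi σ a t hh hy
      have := c_ex σ hh; have := c_ey σ hh; have := c_dn P σ τ hy; have := c_sqv hy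
      have := c_sqv hW
      unfold Cont at *; fun_prop) (c_dn P σ τ hW) h0 h1 fun x _ η _ => by
      have := pw (τ := τ) (a := a) (t := t) (k := k) (hx := px h (x, x * η))
        (hy := py h (x, x * η)) (hv := h (x, x * η))
        (yx := px W (x, x * η) - k * px h (x, x * η)) (yy := py W (x, x * η) - k * py h (x, x * η))
        (yv := W (x, x * η) - k * h (x, x * η)) hσ hP hA he hf
      simp only [sub_add_cancel] at this
      simp only [dn, ex, ey, sqv, bi, px_sub hW hh, py_sub hW hh]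
      linarith
  rw [e1] at e2
  linarith

lemma ex_nonneg {σ x0 x1 : ℝ} (hσ : 0 < σ) (h0 : 0 ≤ x0) (h1 : x0 ≤ x1) {h : P2 → ℝ}
    (hh : ContDiff ℝ 1 h) : 0 ≤ T x0 x1 (ex σ h) :=
  T_nonneg (c_ex σ hh) h0 h1 fun x _ η _ => by unfold ex; positivity

lemma ey_nonneg {σ x0 x1 : ℝ} (hσ : 0 < σ) (h0 : 0 ≤ x0) (h1 : x0 ≤ x1) {h : P2 → ℝ}
    (hh : ContDiff ℝ 1 h) : 0 ≤ T x0 x1 (ey σ h) :=
  T_nonneg (c_ey σ hh) h0 h1 fun x _ η _ => by unfold ey; positivity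

lemma sqv_nonneg {x0 x1 : ℝ} (h0 : 0 ≤ x0) (h1 : x0 ≤ x1) {h : P2 → ℝ}
    (hh : ContDiff ℝ 1 h) : 0 ≤ T x0 x1 (sqv h) :=
  T_nonneg (c_sqv hh) h0 h1 fun x _ η _ => by unfold sqv; positivity

lemma dn_nonneg {P σ τ x0 x1 : ℝ} (hP : 0 < P) (hσ : 0 < σ) (h0 : 0 ≤ x0) (h1 : x0 ≤ x1)
    {h : P2 → ℝ} (hh : ContDiff ℝ 1 h) : 0 ≤ T x0 x1 (dn P σ τ h) :=
  T_nonneg (c_dn P σ τ hh) h0 h1 fun x _ η _ => by unfold dn; positivity

lemma D0_eq (a x0 x1 : ℝ) {h : P2 → ℝ} (hh : ContDiff ℝ 1 h) :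
    D0 a x0 x1 h = T x0 x1 (ex (sg a) h) + T x0 x1 (ey (sg a) h) :=
  T_add (c_ex _ hh) (c_ey _ hh)

lemma dn_even_ge {P σ τ : ℝ} (hP : 0 < P) (hσ : 0 < σ) {h : P2 → ℝ} (hh : ContDiff ℝ 1 h)
    (he : ∀ x y, h (x, -y) = h (x, y)) :
    P * T 0 1 (ex σ h) + T 0 1 (ey σ h) / P ≤ T 0 1 (dn P σ τ h) := by
  have cx := continuous_px hh
  have cy := continuous_py hh
  have c3 : Cont fun x η => px h (x, x * η) * py h (x, x * η) := by unfold Cont; fun_prop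
  have o : T 0 1 (fun x η => px h (x, x * η) * py h (x, x * η)) = 0 :=
    T_odd fun x η => by rw [mul_neg, px_even hh he, py_even hh he]; ring
  have c1 := c_ex σ hh
  have c2 := c_ey σ hh
  have e1 : T 0 1 (fun x η => P * ex σ h x η + P⁻¹ * ey σ h x η
      + (-2 * τ / P) * (px h (x, x * η) * py h (x, x * η)))
      = P * T 0 1 (ex σ h) + T 0 1 (ey σ h) / P := by
    rw [T_add, T_add]
    · simp only [T_const_mul, o]; field_simp; ring
    all_goals (unfold Cont at *; fun_prop)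
  rw [← e1]
  refine T_mono (by unfold Cont at *; fun_prop) (c_dn P σ τ hh) le_rfl zero_le_one
    fun x _ η _ => ?_
  have : 0 ≤ τ ^ 2 * σ * px h (x, x * η) ^ 2 / P := by positivity
  rw [← sub_nonneg]
  convert this using 1
  unfold dn ex ey
  field_simp; ring

/-- sum of the inner and the outer region -/
lemma core1 {σ P τ A a t e k x1 : ℝ} (hσ : 0 < σ) (hP : 0 < P) (hA : 0 < A)
    (he : 0 < e) (he1 : e ≤ 1 / 100) (h0 : 0 ≤ x1) (h1 : x1 ≤ 1) {W h : P2 → ℝ}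
    (hW : ContDiff ℝ 1 W) (hh : ContDiff ℝ 1 h) (hev : ∀ x y, h (x, -y) = h (x, y)) :
    k ^ 2 * (P * T 0 1 (ex σ h) + T 0 1 (ey σ h) / P
        - (t * A + t ^ 2 * (a / P - A) ^ 2 / (e * A)) * T 0 1 (sqv h)
        - (P - 1 / P) ^ 2 / P * (100 * T 0 x1 (ex σ h) + (1 + 3 * e) * T 0 1 (ex σ h))
        - 2 / e * τ ^ 2 * (T 0 1 (ex σ h) / P + T 0 1 (ey σ h) / P ^ 3))
      + 2 * k / P * T 0 1 (bi σ a t h fun p => W p - k * h p)
      + (0.99 - e / 2) * T 0 x1 (dn P σ τ fun p => W p - k * h p)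
      + 3 * e / 2 * T x1 1 (dn P σ τ fun p => W p - k * h p)
      - (t + e) * A * T 0 1 (sqv fun p => W p - k * h p)
    ≤ T 0 1 (dn P σ τ W) - t * A * T 0 1 (sqv W) := by
  have hy : ContDiff ℝ 1 fun p => W p - k * h p := by fun_prop
  have r1 := region (τ := τ) (a := a) (t := t) (k := k) (f := 1 / 100) hσ hP hA he (by norm_num)
    le_rfl h0 hW hh
  have r2 := region (τ := τ) (a := a) (t := t) (k := k) (f := 1 - 2 * e) hσ hP hA he (by linarith)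
    h0 h1 hW hh
  have ev := dn_even_ge (τ := τ) hP hσ hh hev
  rw [← T_split (x0 := 0) (x1 := x1) (x2 := 1) (c_dn P σ τ hh)] at ev
  rw [← T_split (x0 := 0) (x1 := x1) (x2 := 1) (c_dn P σ τ hW),
    ← T_split (x0 := 0) (x1 := x1) (x2 := 1) (c_sqv hW),
    ← T_split (x0 := 0) (x1 := x1) (x2 := 1) (c_sqv hy),
    ← T_split (x0 := 0) (x1 := x1) (x2 := 1) (c_sqv hh),
    ← T_split (x0 := 0) (x1 := x1) (x2 := 1) (c_bi σ a t hh hy)]
  have sx := T_split (x0 := 0) (x1 := x1) (x2 := 1) (c_ex σ hh)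
  have sy := T_split (x0 := 0) (x1 := x1) (x2 := 1) (c_ey σ hh)
  have p1 := ex_nonneg hσ le_rfl h0 hh
  have p2 := ex_nonneg hσ h0 h1 hh
  have hq : 0 ≤ k ^ 2 * ((P - 1 / P) ^ 2 / P) := by positivity
  have hf : 1 / (1 - 2 * e) ≤ 1 + 3 * e := by
    rw [div_le_iff₀ (by linarith)]; nlinarith
  have k1 : k ^ 2 * ((P - 1 / P) ^ 2 / P) * (1 / (1 - 2 * e) * T x1 1 (ex σ h))
      ≤ k ^ 2 * ((P - 1 / P) ^ 2 / P) * ((1 + 3 * e) * T 0 1 (ex σ h)) := by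
    refine mul_le_mul_of_nonneg_left (mul_le_mul hf (by linarith) p2 (by linarith)) hq
  have k2 := mul_le_mul_of_nonneg_left ev (sq_nonneg k)
  rw [← sx, ← sy] at k2 ⊢
  rw [← sx] at k1
  have q1 : (P - 1 / P) ^ 2 / P / (1 / 100) = (P - 1 / P) ^ 2 / P * 100 := by ring
  have q2 : (P - 1 / P) ^ 2 / P / (1 - 2 * e) = (P - 1 / P) ^ 2 / P * (1 / (1 - 2 * e)) := by ring
  rw [q1] at r1
  rw [q2] at r2
  generalize (P - 1 / P) ^ 2 / P = G at *
  generalize 1 / (1 - 2 * e) = F at *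
  generalize t ^ 2 * (a / P - A) ^ 2 / (e * A) = H at *
  simp only [div_eq_mul_inv] at *
  nlinarith

end Pool.Agent.PSz.NA
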