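import Mathlib

/-! Scalar bookkeeping for a normal triangle. -/

set_option autoImplicit false

namespace Pool.Agent.PSz.NB

/-- all scalar quantities with their sizes (`s = sqrt a`, `d` = relative deviation) -/
structure Ctx (C : ℝ) where
  s : ℝ
  d : ℝ
  u : ℝ
  v : ℝ
  T2 : ℝ
  Ex : ℝ
  Ey : ℝ
  Ei : ℝ
  M : ℝ
  t : ℝ
  b1 : ℝ
  b2 : ℝ
  b4 : ℝ
  Fz : ℝ
  n1 : ℝ
  n2 : ℝ
  r1 : ℝ
  r2 : ℝ
  r5 : ℝ
  sJ : ℝ
  sD : ℝ
  ie : ℝ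
  hs0 : 0 < s
  hs1 : s ≤ 1
  hd0 : 0 ≤ d
  hd1 : d ≤ C
  hu : |u| ≤ d
  hP : 1 / 4 ≤ 1 + u
  hk : 1 / 4 ≤ 1 + v
  hv : |v| ≤ C * (s ^ 3 * d)
  hT : |T2| ≤ C * (s ^ 2 * d ^ 2)
  hEx : |Ex| ≤ C * s ^ 8
  hEy : |Ey| ≤ C * s ^ 8
  hEi : |Ei| ≤ C * s ^ 12
  hM : |M| ≤ C * s ^ 12
  ht : |t| ≤ C
  hb1 : |b1| ≤ C * s ^ 11
  hb2 : |b2| ≤ C * s ^ 7
  hb4 : |b4| ≤ C * (s ^ 9 * d ^ 2)
  hFz : |Fz| ≤ C * s ^ 8
  hn1 : |n1| ≤ C * s ^ 8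
  hn2 : |n2| ≤ C * s ^ 4
  hr1 : |r1| ≤ C * s ^ 4
  hr2 : |r2| ≤ C
  hr5 : |r5| ≤ C * (s ^ 6 * d ^ 2)
  hsJ : |sJ| ≤ C * s ^ 6
  hsD : |sD| ≤ C * s ^ 6
  hie : |ie| ≤ C
  e1 : sJ + sD * r1 = 5 * Ex + 3 * Ey - 5 * t * M + 4 * b1 + s ^ 2 * Fz + 2 * s ^ 2 * n1
  e2 : sJ + sD * (r1 + r2) / 2
    = 2 * (Ex + Ey) - 3 * t * M + 2 * b1 + 2 * b2 + s ^ 2 * Fz + s ^ 2 * n2 + s ^ 2 * n1

variable {C : ℝ}

def O (i j : ℕ) (f : Ctx C → ℝ) : Prop := ∃ K, ∀ c : Ctx C, |f c| ≤ K * (c.s ^ i * c.d ^ j)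

lemma mon_nonneg (c : Ctx C) (i j : ℕ) : 0 ≤ c.s ^ i * c.d ^ j :=
  mul_nonneg (pow_nonneg c.hs0.le _) (pow_nonneg c.hd0 _)

lemma O.pos {i j : ℕ} {f : Ctx C → ℝ} (h : O i j f) :
    ∃ K, 0 ≤ K ∧ ∀ c : Ctx C, |f c| ≤ K * (c.s ^ i * c.d ^ j) := by
  obtain ⟨K, hK⟩ := h
  exact ⟨max K 0, le_max_right _ _, fun c => (hK c).trans
    (mul_le_mul_of_nonneg_right (le_max_left _ _) (mon_nonneg c i j))⟩

lemma O.mul {i j k l : ℕ} {f g : Ctx C → ℝ} (h : O i j f) (h' : O k l g) :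
    O (i + k) (j + l) fun c => f c * g c := by
  obtain ⟨K, hK0, hK⟩ := h.pos
  obtain ⟨L, hL0, hL⟩ := h'.pos
  refine ⟨K * L, fun c => ?_⟩
  rw [abs_mul]
  calc |f c| * |g c| ≤ K * (c.s ^ i * c.d ^ j) * (L * (c.s ^ k * c.d ^ l)) :=
        mul_le_mul (hK c) (hL c) (abs_nonneg _) (mul_nonneg hK0 (mon_nonneg c i j))
    _ = _ := by ring

lemma O.add {i j : ℕ} {f g : Ctx C → ℝ} (h : O i j f) (h' : O i j g) :
    O i j fun c => f c + g c := by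
  obtain ⟨K, hK⟩ := h
  obtain ⟨L, hL⟩ := h'
  exact ⟨K + L, fun c => (abs_add_le _ _).trans (by linarith [hK c, hL c])⟩

lemma O.neg {i j : ℕ} {f : Ctx C → ℝ} (h : O i j f) : O i j fun c => -f c := by
  obtain ⟨K, hK⟩ := h
  exact ⟨K, fun c => by rw [abs_neg]; exact hK c⟩

lemma O.sub {i j : ℕ} {f g : Ctx C → ℝ} (h : O i j f) (h' : O i j g) :
    O i j fun c => f c - g c := by
  simpa [sub_eq_add_neg] using h.add h'.neg

lemma O.weak {i j : ℕ} {f : Ctx C → ℝ} (h : O i j f) (k l : ℕ) (hk : k ≤ i) (hl : l ≤ j) :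
    O k l f := by
  obtain ⟨K, hK0, hK⟩ := h.pos
  refine ⟨K * max C 1 ^ (j - l), fun c => (hK c).trans ?_⟩
  have h1 : c.s ^ i ≤ c.s ^ k := pow_le_pow_of_le_one c.hs0.le c.hs1 hk
  have h2 : c.d ^ j ≤ max C 1 ^ (j - l) * c.d ^ l := by
    calc c.d ^ j = c.d ^ (j - l) * c.d ^ l := by rw [← pow_add]; congr 1; omega
      _ ≤ _ := mul_le_mul_of_nonneg_right
        (pow_le_pow_left₀ c.hd0 (c.hd1.trans (le_max_left _ _)) _) (pow_nonneg c.hd0 _)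
  calc K * (c.s ^ i * c.d ^ j) ≤ K * (c.s ^ k * (max C 1 ^ (j - l) * c.d ^ l)) :=
        mul_le_mul_of_nonneg_left (mul_le_mul h1 h2 (pow_nonneg c.hd0 _)
          (pow_nonneg c.hs0.le _)) hK0
    _ = _ := by ring

lemma O.const (x : ℝ) : O 0 0 fun _ : Ctx C => x := ⟨|x|, fun c => by simp⟩

lemma O.cmul (x : ℝ) {i j : ℕ} {f : Ctx C → ℝ} (h : O i j f) : O i j fun c => x * f c := by
  simpa using (O.const x).mul h

lemma O.congr {i j : ℕ} {f g : Ctx C → ℝ} (h : O i j f) (e : ∀ c, g c = f c) : O i j g := by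
  rwa [show g = f from funext e]

lemma os2 : O 2 0 fun c : Ctx C => c.s ^ 2 := ⟨1, fun c => by simp⟩
lemma ou : O 0 1 fun c : Ctx C => c.u := ⟨1, fun c => by simpa using c.hu⟩
lemma ov : O 3 1 fun c : Ctx C => c.v := ⟨C, fun c => by simpa using c.hv⟩
lemma oT : O 2 2 fun c : Ctx C => c.T2 := ⟨C, fun c => c.hT⟩
lemma oEx : O 8 0 fun c : Ctx C => c.Ex := ⟨C, fun c => by simpa using c.hEx⟩
lemma oEy : O 8 0 fun c : Ctx C => c.Ey := ⟨C, fun c => by simpa using c.hEy⟩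
lemma oEi : O 12 0 fun c : Ctx C => c.Ei := ⟨C, fun c => by simpa using c.hEi⟩
lemma oM : O 12 0 fun c : Ctx C => c.M := ⟨C, fun c => by simpa using c.hM⟩
lemma ot : O 0 0 fun c : Ctx C => c.t := ⟨C, fun c => by simpa using c.ht⟩
lemma ob1 : O 11 0 fun c : Ctx C => c.b1 := ⟨C, fun c => by simpa using c.hb1⟩
lemma ob2 : O 7 0 fun c : Ctx C => c.b2 := ⟨C, fun c => by simpa using c.hb2⟩
lemma ob4 : O 9 2 fun c : Ctx C => c.b4 := ⟨C, fun c => c.hb4⟩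
lemma oFz : O 8 0 fun c : Ctx C => c.Fz := ⟨C, fun c => by simpa using c.hFz⟩
lemma on1 : O 8 0 fun c : Ctx C => c.n1 := ⟨C, fun c => by simpa using c.hn1⟩
lemma on2 : O 4 0 fun c : Ctx C => c.n2 := ⟨C, fun c => by simpa using c.hn2⟩
lemma or1 : O 4 0 fun c : Ctx C => c.r1 := ⟨C, fun c => by simpa using c.hr1⟩
lemma or2 : O 0 0 fun c : Ctx C => c.r2 := ⟨C, fun c => by simpa using c.hr2⟩
lemma or5 : O 6 2 fun c : Ctx C => c.r5 := ⟨C, fun c => c.hr5⟩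
lemma osJ : O 6 0 fun c : Ctx C => c.sJ := ⟨C, fun c => by simpa using c.hsJ⟩
lemma osD : O 6 0 fun c : Ctx C => c.sD := ⟨C, fun c => by simpa using c.hsD⟩
lemma oie : O 0 0 fun c : Ctx C => c.ie := ⟨C, fun c => by simpa using c.hie⟩

def Ctx.P (c : Ctx C) : ℝ := 1 + c.u
def Ctx.k (c : Ctx C) : ℝ := 1 + c.v
def Ctx.J (c : Ctx C) : ℝ := c.k * c.P
def Ctx.b (c : Ctx C) : ℝ := c.k * (c.P ^ 2 + c.T2)

lemma Ctx.P_pos (c : Ctx C) : 0 < c.P := lt_of_lt_of_le (by norm_num) c.hP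
lemma Ctx.k_pos (c : Ctx C) : 0 < c.k := lt_of_lt_of_le (by norm_num) c.hk

lemma oP : O 0 0 fun c : Ctx C => c.P := (O.const 1).add (ou.weak 0 0 le_rfl zero_le_one)
lemma ok : O 0 0 fun c : Ctx C => c.k := (O.const 1).add (ov.weak 0 0 (by norm_num) zero_le_one)
lemma oiP : O 0 0 fun c : Ctx C => c.P⁻¹ := ⟨4, fun c => by
  rw [abs_of_pos (inv_pos.2 c.P_pos), pow_zero, pow_zero, mul_one, mul_one,
    inv_le_comm₀ c.P_pos (by norm_num)]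
  have := c.hP; unfold Ctx.P; linarith⟩
lemma oik : O 0 0 fun c : Ctx C => c.k⁻¹ := ⟨4, fun c => by
  rw [abs_of_pos (inv_pos.2 c.k_pos), pow_zero, pow_zero, mul_one, mul_one,
    inv_le_comm₀ c.k_pos (by norm_num)]
  have := c.hk; unfold Ctx.k; linarith⟩
lemma oJ : O 0 0 fun c : Ctx C => c.J := ok.mul oP
lemma ouv : O 3 2 fun c : Ctx C => c.u * c.v := ou.mul ov
lemma oJ1 : O 0 1 fun c : Ctx C => c.J - 1 :=
  ((ou.add (ov.weak 0 1 (by norm_num) le_rfl)).add (ouv.weak 0 1 (by norm_num) (by norm_num))).congr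
    fun c => by unfold Ctx.J Ctx.k Ctx.P; ring
lemma orb : O 0 2 fun c : Ctx C => c.b - 1 - 2 * c.u - c.v :=
  (((ou.mul ou).add ((ouv.mul (oP.add (O.const 1))).weak 0 2 (by norm_num) le_rfl)).add
    ((ok.mul oT).weak 0 2 (by norm_num) le_rfl)).congr
    fun c => by unfold Ctx.b Ctx.k Ctx.P; ring
lemma ob' : O 0 1 fun c : Ctx C => c.b - 1 :=
  (((orb.weak 0 1 le_rfl (by norm_num)).add (ou.cmul 2)).add
    (ov.weak 0 1 (by norm_num) le_rfl)).congr fun c => by ring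
lemma ob : O 0 0 fun c : Ctx C => c.b :=
  ((ob'.weak 0 0 le_rfl zero_le_one).add (O.const 1)).congr fun c => by ring
lemma obP : O 0 1 fun c : Ctx C => 2 * c.b / c.P - 2 :=
  (((ob'.sub ou).mul oiP).cmul 2).congr fun c => by
    have := c.P_pos.ne'
    have e : c.u = c.P - 1 := by unfold Ctx.P; ring
    rw [e]; field_simp; ring
lemma oJb : O 0 2 fun c : Ctx C => c.J * (c.b - 1) - 2 * c.u - c.v :=
  ((oJ1.mul ob').add orb).congr fun c => by ring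

/-- the scalar expression minus the tangent plane -/
noncomputable def Ctx.S (c : Ctx C) : ℝ :=
  c.b ^ 2 * ((2 / c.P - 1 / c.P ^ 3) * c.Ex + c.Ey / c.P) - c.t * (c.J * c.b ^ 2 * c.M)
    + 2 * c.b / c.P * ((c.b - 1) * c.b1 + c.v * c.b2 + c.b4)
    + c.s ^ 2 * c.J * (c.Fz + c.v * c.n2 + (c.b - 1) * c.n1)
    - (c.Ex + c.Ey - c.t * c.M + c.s ^ 2 * c.Fz + c.sJ * (c.J - 1)
      + c.sD * (c.J * (c.v * c.r2 + (c.b - 1) * c.r1 - c.r5) / 2))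

/-- the small losses -/
noncomputable def Ctx.L (c : Ctx C) : ℝ :=
  100 * (c.b ^ 2 * (c.P - 1 / c.P) ^ 2 / c.P * c.Ei)
    + 2 * c.ie * (c.b ^ 2 * c.T2 * (c.Ex / c.P + c.Ey / c.P ^ 3))
    + c.ie * (c.b ^ 2 * c.t ^ 2 * (1 / c.P - c.J) ^ 2 * c.M / c.J)

lemma oS1 : O 9 2 fun c : Ctx C => c.b ^ 2 * ((2 / c.P - 1 / c.P ^ 3) * c.Ex + c.Ey / c.P)
    - (c.Ex + c.Ey) - (5 * c.Ex + 3 * c.Ey) * c.u - 2 * (c.Ex + c.Ey) * c.v
    - c.u ^ 2 * (c.P + 2) * (2 * c.Ex + c.Ey) := by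
  have oZ1 : O 8 1 fun c : Ctx C => (5 * c.Ex + 3 * c.Ey) * c.u
      + c.u * c.u * (c.P + 2) * (2 * c.Ex + c.Ey) :=
    (((oEx.cmul 5).add (oEy.cmul 3)).mul ou).add
      ((((ou.mul ou).mul (oP.add (O.const 2))).mul ((oEx.cmul 2).add oEy)).weak 8 1 le_rfl
        (by norm_num))
  have oZ : O 8 0 fun c : Ctx C => (c.Ex + c.Ey) + ((5 * c.Ex + 3 * c.Ey) * c.u
      + c.u * c.u * (c.P + 2) * (2 * c.Ex + c.Ey)) :=
    (oEx.add oEy).add (oZ1.weak 8 0 le_rfl zero_le_one)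
  have oG : O 8 0 fun c : Ctx C =>
      (2 * c.P⁻¹ - c.P⁻¹ * c.P⁻¹ * c.P⁻¹) * c.Ex + c.Ey * c.P⁻¹ :=
    (((oiP.cmul 2).sub ((oiP.mul oiP).mul oiP)).mul oEx).add (oEy.mul oiP)
  have h1 := ((ov.mul oZ1).cmul 2).weak 9 2 (by norm_num) le_rfl
  have h2 := ((ov.mul ov).mul oZ).weak 9 2 (by norm_num) le_rfl
  have h3 := ((((ok.mul ok).mul oT).mul (((oP.mul oP).cmul 2).add
    (oT.weak 0 0 (by norm_num) (by norm_num)))).mul oG).weak 9 2 (by norm_num) le_rfl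
  refine ((h1.add h2).add h3).congr fun c => ?_
  have := c.P_pos.ne'
  have e : c.u = c.P - 1 := by unfold Ctx.P; ring
  have e' : c.v = c.k - 1 := by unfold Ctx.k; ring
  rw [e, e']; unfold Ctx.b
  field_simp; ring

lemma oS : O 9 2 fun c : Ctx C => c.S - c.u ^ 2 * (c.P + 2) * (2 * c.Ex + c.Ey) := by
  have h2 : O 9 2 fun c : Ctx C => c.t * c.M * ((c.J - 1) * ((c.b - 1) * (c.b - 1 + 2))
      + c.u * c.v + ((c.b - 1) * (c.b - 1) + 2 * (c.b - 1 - 2 * c.u - c.v))) :=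
    ((ot.mul oM).mul (((oJ1.mul (ob'.mul ((ob'.weak 0 0 le_rfl zero_le_one).add (O.const 2)))).add
      (ouv.weak 0 2 (by norm_num) le_rfl)).add ((ob'.mul ob').add (orb.cmul 2)))).weak 9 2
      (by norm_num) le_rfl
  have h3a : O 9 2 fun c : Ctx C => c.b1 * ((2 * c.b / c.P - 2) * (c.b - 1)
      + 2 * (c.b - 1 - 2 * c.u - c.v)) :=
    (ob1.mul ((obP.mul ob').add (orb.cmul 2))).weak 9 2 (by norm_num) le_rfl
  have h3b : O 9 2 fun c : Ctx C => c.b2 * c.v * (2 * c.b / c.P - 2) :=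
    ((ob2.mul ov).mul obP).weak 9 2 (by norm_num) le_rfl
  have h3c : O 9 2 fun c : Ctx C => (2 * c.b / c.P - 2 + 2) * c.b4 :=
    ((obP.weak 0 0 le_rfl zero_le_one).add (O.const 2)).mul ob4
  have h4a : O 9 2 fun c : Ctx C => c.s ^ 2 * c.Fz * (c.u * c.v) :=
    ((os2.mul oFz).mul ouv).weak 9 2 (by norm_num) le_rfl
  have h4b : O 9 2 fun c : Ctx C => c.s ^ 2 * c.n2 * c.v * (c.J - 1) :=
    ((os2.mul on2).mul ov).mul oJ1
  have h4c : O 9 2 fun c : Ctx C => c.s ^ 2 * c.n1 * (c.J * (c.b - 1) - 2 * c.u - c.v) :=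
    ((os2.mul on1).mul oJb).weak 9 2 (by norm_num) le_rfl
  have h5a : O 9 2 fun c : Ctx C => c.sJ * (c.u * c.v) := osJ.mul ouv
  have h5b : O 9 2 fun c : Ctx C => c.sD * ((c.J - 1) * c.v * c.r2
      + c.r1 * (c.J * (c.b - 1) - 2 * c.u - c.v) - c.J * c.r5) :=
    osD.mul ((((oJ1.mul ov).mul or2).add ((or1.mul oJb).weak 3 2 (by norm_num) le_rfl)).sub
      ((oJ.mul or5).weak 3 2 (by norm_num) le_rfl))
  refine ((((((((oS1.sub h2).add h3a).add h3b).add h3c).add h4a).add h4b).add h4c).sub h5a).sub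
    (h5b.cmul (1 / 2)) |>.congr fun c => ?_
  have e1 := c.e1
  have e2 := c.e2
  have eJ : c.J = 1 + c.u + c.v + c.u * c.v := by unfold Ctx.J Ctx.k Ctx.P; ring
  unfold Ctx.S
  rw [eJ]
  linear_combination (-c.u) * e1 + (-c.v) * e2

lemma oL : O 9 2 fun c : Ctx C => c.L := by
  have h1 : O 9 2 fun c : Ctx C => c.b * c.b * ((c.u * ((c.P + 1) * c.P⁻¹))
      * (c.u * ((c.P + 1) * c.P⁻¹))) * c.P⁻¹ * c.Ei :=
    ((((ob.mul ob).mul ((ou.mul ((oP.add (O.const 1)).mul oiP)).mul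
      (ou.mul ((oP.add (O.const 1)).mul oiP)))).mul oiP).mul oEi).weak 9 2 (by norm_num) le_rfl
  have h2 : O 9 2 fun c : Ctx C => c.ie * (c.b * c.b * c.T2 *
      (c.Ex * c.P⁻¹ + c.Ey * (c.P⁻¹ * c.P⁻¹ * c.P⁻¹))) :=
    (oie.mul (((ob.mul ob).mul oT).mul ((oEx.mul oiP).add
      (oEy.mul ((oiP.mul oiP).mul oiP))))).weak 9 2 (by norm_num) le_rfl
  have h0 : O 0 1 fun c : Ctx C => -(c.u * c.P⁻¹) - (c.J - 1) := (ou.mul oiP).neg.sub oJ1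
  have h3 : O 9 2 fun c : Ctx C => c.ie * (c.b * c.b * (c.t * c.t) *
      ((-(c.u * c.P⁻¹) - (c.J - 1)) * (-(c.u * c.P⁻¹) - (c.J - 1))) * c.M * (c.k⁻¹ * c.P⁻¹)) :=
    (oie.mul (((((ob.mul ob).mul (ot.mul ot)).mul (h0.mul h0)).mul oM).mul (oik.mul oiP))).weak 9 2
      (by norm_num) le_rfl
  refine (((h1.cmul 100).add (h2.cmul 2)).add h3).congr fun c => ?_
  have := c.P_pos.ne'
  have := c.k_pos.ne'
  have e : c.u = c.P - 1 := by unfold Ctx.P; ring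
  unfold Ctx.L
  rw [e]; unfold Ctx.J
  field_simp; ring

theorem scalar (C : ℝ) : ∃ K, 0 ≤ K ∧ ∀ c : Ctx C,
    c.u ^ 2 * (c.P + 2) * (2 * c.Ex + c.Ey) - K * (c.s ^ 9 * c.d ^ 2) ≤ c.S - c.L := by
  obtain ⟨K, hK0, hK⟩ := ((oS (C := C)).sub oL).pos
  exact ⟨K, hK0, fun c => by linarith [(abs_le.1 (hK c)).1]⟩

end Pool.Agent.PSz.NB
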