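import Pool.Agent.P.MP_7b7370_an.NormA
import Pool.Agent.P.MP_7b7370_an.Ft

/-! Constants attached to the reference function. -/

set_option autoImplicit false

namespace Pool.Agent.PSz.NA

open Real Set MeasureTheory intervalIntegral Pool.Agent.PSz

noncomputable def Bf (a t : ℝ) (h : P2 → ℝ) (f f' : ℝ → ℝ) : ℝ :=
  T 0 1 fun x η => py h (x, x * η) * f' (x * η) / sg a - t * a * (h (x, x * η) * f (x * η))

lemma abs_mul_le_one {x η : ℝ} (hx : x ∈ Ioo (0 : ℝ) 1) (hη : η ∈ Ioo (-1 : ℝ) 1) :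
    |x * η| ≤ 1 := by
  rw [abs_le]; constructor <;> nlinarith [hx.1, hx.2, hη.1, hη.2]

lemma px_snd {f : ℝ → ℝ} (hf : ContDiff ℝ 1 f) (p : P2) : px (fun p => f p.2) p = 0 :=
  px_eq (x := p.1) (y := p.2) (by fun_prop) (hasDerivAt_const p.1 (f p.2))

lemma py_snd {f f' : ℝ → ℝ} (hf : ContDiff ℝ 1 f) (hd : ∀ y, HasDerivAt f (f' y) y) (p : P2) :
    py (fun p => f p.2) p = f' p.2 :=
  py_eq (x := p.1) (y := p.2) (by fun_prop) (hd _)

lemma bi_snd (a t : ℝ) (h : P2 → ℝ) {f f' : ℝ → ℝ} (hf : ContDiff ℝ 1 f)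
    (hd : ∀ y, HasDerivAt f (f' y) y) :
    T 0 1 (bi (sg a) a t h fun p => f p.2) = Bf a t h f f' := by
  unfold Bf; congr 1; funext x η
  simp only [bi, px_snd hf, py_snd hf hd]; ring

lemma bi_sub (σ a t : ℝ) {h y z : P2 → ℝ} (hh : ContDiff ℝ 1 h) (hy : ContDiff ℝ 1 y)
    (hz : ContDiff ℝ 1 z) (c : ℝ) :
    T 0 1 (bi σ a t h fun p => y p - c * z p)
      = T 0 1 (bi σ a t h y) - c * T 0 1 (bi σ a t h z) := by
  have c2 := c_bi σ a t hh hz
  rw [← T_const_mul, ← T_sub (c_bi σ a t hh hy) (by unfold Cont at *; fun_prop)]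
  congr 1; funext x η
  simp only [bi, px_sub hy hz, py_sub hy hz]; ring

lemma c_Bf (a t : ℝ) {h : P2 → ℝ} (hh : ContDiff ℝ 1 h) {f f' : ℝ → ℝ} (hf : Continuous f)
    (hf' : Continuous f') : Cont fun x η =>
      py h (x, x * η) * f' (x * η) / sg a - t * a * (h (x, x * η) * f (x * η)) := by
  have := continuous_py hh; have := hh.continuous
  unfold Cont; fun_prop

lemma Bf_lin (a t : ℝ) {h : P2 → ℝ} (hh : ContDiff ℝ 1 h) {f1 f1' f2 f2' f3 f3' f4 f4' : ℝ → ℝ}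
    (h1 : Continuous f1) (h1' : Continuous f1') (h2 : Continuous f2) (h2' : Continuous f2')
    (h3 : Continuous f3) (h3' : Continuous f3') (h4 : Continuous f4) (h4' : Continuous f4')
    (c1 c2 c3 : ℝ) :
    Bf a t h (fun y => c1 * f1 y + c2 * f2 y + c3 * f3 y + f4 y)
      (fun y => c1 * f1' y + c2 * f2' y + c3 * f3' y + f4' y)
      = c1 * Bf a t h f1 f1' + c2 * Bf a t h f2 f2' + c3 * Bf a t h f3 f3' + Bf a t h f4 f4' := by
  have a1 := c_Bf a t hh h1 h1'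
  have a2 := c_Bf a t hh h2 h2'
  have a3 := c_Bf a t hh h3 h3'
  have a4 := c_Bf a t hh h4 h4'
  unfold Bf
  rw [← T_const_mul, ← T_const_mul, ← T_const_mul, ← T_add, ← T_add, ← T_add]
  · congr 1; funext x η; ring
  all_goals (unfold Cont at *; fun_prop)

lemma Bf_odd (a t : ℝ) {h : P2 → ℝ} (hh : ContDiff ℝ 1 h) (he : ∀ x y, h (x, -y) = h (x, y))
    {f f' : ℝ → ℝ} (h1 : ∀ y, f (-y) = -f y) (h2 : ∀ y, f' (-y) = f' y) : Bf a t h f f' = 0 :=
  T_odd fun x η => by rw [mul_neg, py_even hh he, he, h1, h2]; ring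

lemma T_sq_le {f : ℝ → ℝ} (hf : Continuous f) {S : ℝ} (hS : ∀ y, |y| ≤ 1 → |f y| ≤ S) :
    T 0 1 (fun x η => f (x * η) ^ 2) ≤ S ^ 2 := by
  have := T_mono (x0 := 0) (x1 := 1) (Γ := fun x η => f (x * η) ^ 2) (Γ' := fun _ _ => S ^ 2)
    (by unfold Cont; fun_prop) continuous_const le_rfl zero_le_one fun x hx η hη => by
      have := hS _ (abs_mul_le_one hx hη)
      exact sq_le_sq' (abs_le.1 this).1 (abs_le.1 this).2
  rw [T_const] at this
  linarith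

lemma Bf_le {a t C S S' : ℝ} {h : P2 → ℝ} (h0 : 0 < a) (h1 : a ≤ 1 / 1000) (ht0 : 0 ≤ t)
    (ht : t ≤ 6) (hh : ContDiff ℝ 1 h) (hC : 1 ≤ C) (hE : D0 a 0 1 h ≤ C * a ^ 4)
    (hM : M0 a 0 1 h ≤ C * a ^ 6) {f f' : ℝ → ℝ} (hf : Continuous f) (hf' : Continuous f')
    (hS : ∀ y, |y| ≤ 1 → |f y| ≤ S) (hS' : ∀ y, |y| ≤ 1 → |f' y| ≤ S') :
    |Bf a t h f f'| ≤ C * √a ^ 3 * S' + 6 * C * √a ^ 7 * S := by
  have hσ := sg_pos h0 h1
  have hσa := sg_ge h0 h1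
  have cy := continuous_py hh
  have ch := hh.continuous
  have hs : 0 < √a := sqrt_pos.2 h0
  have hs2 : √a ^ 2 = a := sq_sqrt h0.le
  have S0 : 0 ≤ S := (abs_nonneg _).trans (hS 0 (by simp))
  have S0' : 0 ≤ S' := (abs_nonneg _).trans (hS' 0 (by simp))
  have e : Bf a t h f f' = T 0 1 (fun x η => py h (x, x * η) * f' (x * η)) / sg a
      - t * a * T 0 1 fun x η => h (x, x * η) * f (x * η) := by
    unfold Bf
    rw [T_sub, T_div_const, T_const_mul]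
    all_goals (unfold Cont; fun_prop)
  have c1 := T_cs (x0 := 0) (x1 := 1) (Γ := fun x η => py h (x, x * η))
    (Γ' := fun x η => f' (x * η)) (by unfold Cont; fun_prop) (by unfold Cont; fun_prop) le_rfl
    zero_le_one
  have c2 := T_cs (x0 := 0) (x1 := 1) (Γ := fun x η => h (x, x * η))
    (Γ' := fun x η => f (x * η)) (by unfold Cont; fun_prop) (by unfold Cont; fun_prop) le_rfl
    zero_le_one
  have b1 := T_sq_le hf' hS'
  have b2 := T_sq_le hf hS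
  have y0 : T 0 1 (fun x η => py h (x, x * η) ^ 2) / sg a = T 0 1 (ey (sg a) h) :=
    (T_div_const _).symm
  have y1 : T 0 1 (ey (sg a) h) ≤ C * a ^ 4 := by
    rw [D0_eq a 0 1 hh] at hE
    linarith [ex_nonneg hσ le_rfl zero_le_one hh]
  have y2 := ey_nonneg hσ le_rfl zero_le_one hh
  have y3 : T 0 1 (fun x η => py h (x, x * η) ^ 2) = sg a * T 0 1 (ey (sg a) h) := by
    rw [← y0]; field_simp
  have m0 : 0 ≤ T 0 1 (fun x η => h (x, x * η) ^ 2) := sqv_nonneg le_rfl zero_le_one hh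
  have m1 : T 0 1 (fun x η => h (x, x * η) ^ 2) ≤ C * a ^ 5 := by
    unfold M0 at hM
    have : a * T 0 1 (fun x η => h (x, x * η) ^ 2) ≤ a * (C * a ^ 5) := by linarith
    exact le_of_mul_le_mul_left this h0
  set T1 := T 0 1 (fun x η => py h (x, x * η) * f' (x * η))
  set T2 := T 0 1 fun x η => h (x, x * η) * f (x * η)
  have k1 : |T1 / sg a| ≤ C * √a ^ 3 * S' := by
    refine abs_le_of_sq_le_sq ?_ (by positivity)
    have u1 : T1 ^ 2 ≤ sg a * (C * a ^ 4) * S' ^ 2 := by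
      refine c1.trans ?_
      rw [y3]
      exact mul_le_mul (mul_le_mul_of_nonneg_left y1 hσ.le) b1
        (T_nonneg (by unfold Cont; fun_prop) le_rfl zero_le_one fun _ _ _ _ => sq_nonneg _)
        (by positivity)
    rw [div_pow, div_le_iff₀ (by positivity)]
    refine u1.trans ?_
    have : (C * √a ^ 3 * S') ^ 2 * sg a ^ 2 = sg a * (C ^ 2 * a ^ 3 * sg a) * S' ^ 2 := by
      rw [show (C * √a ^ 3 * S') ^ 2 = C ^ 2 * (√a ^ 2) ^ 3 * S' ^ 2 by ring, hs2]; ring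
    rw [this]
    have : C * a ^ 4 ≤ C ^ 2 * a ^ 3 * sg a := by
      calc C * a ^ 4 = C * 1 * a ^ 3 * a := by ring
        _ ≤ C * C * a ^ 3 * sg a := by gcongr
        _ = _ := by ring
    gcongr
  have k2 : |T2| ≤ C * √a ^ 5 * S := by
    refine abs_le_of_sq_le_sq ?_ (by positivity)
    refine c2.trans ?_
    rw [show (C * √a ^ 5 * S) ^ 2 = C ^ 2 * (√a ^ 2) ^ 5 * S ^ 2 by ring, hs2]
    refine mul_le_mul (m1.trans ?_) b2
      (T_nonneg (by unfold Cont; fun_prop) le_rfl zero_le_one fun _ _ _ _ => sq_nonneg _)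
      (by positivity)
    have : C ≤ C ^ 2 := by nlinarith
    gcongr
  have k3 : |t * a * T2| ≤ 6 * C * √a ^ 7 * S := by
    rw [abs_mul, abs_of_nonneg (by positivity)]
    calc t * a * |T2| ≤ 6 * a * (C * √a ^ 5 * S) := by gcongr
      _ = 6 * √a ^ 2 * (C * √a ^ 5 * S) := by rw [hs2]
      _ = _ := by ring
  rw [e]
  exact (abs_sub _ _).trans (add_le_add k1 k3)

noncomputable def xi1 (a t y : ℝ) : ℝ := F1 t (q0 a y) * (om a * y ^ 2) - F0 t (q0 a y)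
noncomputable def xi1' (a t y : ℝ) : ℝ := F2 t (q0 a y) * (2 * om a * y) * (om a * y ^ 2)
noncomputable def xi2 (a t y : ℝ) : ℝ := X2 a * F1 t (q0 a y)
noncomputable def xi2' (a t y : ℝ) : ℝ := X2 a * (F2 t (q0 a y) * (2 * om a * y))
noncomputable def xi3 (a t y : ℝ) : ℝ := 2 * y * F1 t (q0 a y)
noncomputable def xi3' (a t y : ℝ) : ℝ :=
  2 * F1 t (q0 a y) + 2 * y * (F2 t (q0 a y) * (2 * om a * y))
noncomputable def be1 (a t : ℝ) (h : P2 → ℝ) : ℝ := Bf a t h (xi1 a t) (xi1' a t)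
noncomputable def be2 (a t : ℝ) (h : P2 → ℝ) : ℝ := Bf a t h (xi2 a t) (xi2' a t)
noncomputable def f1 (t q : ℝ) : ℝ := (Gt1 t 1 - Gt1 t q) / q - ft t q / q ^ 2
noncomputable def nu1 (a t : ℝ) : ℝ := ∫ y in (-1 : ℝ)..1, f1 t (q0 a y) * (om a * y ^ 2)
noncomputable def nu2 (a t : ℝ) : ℝ := ∫ y in (-1 : ℝ)..1, f1 t (q0 a y) * X2 a
noncomputable def rho1 (a : ℝ) : ℝ := ∫ y in (-1 : ℝ)..1, 1 / q0 a y ^ 2 * (om a * y ^ 2)
noncomputable def rho2 (a : ℝ) : ℝ := ∫ y in (-1 : ℝ)..1, 1 / q0 a y ^ 2 * X2 a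
noncomputable def lam1 (a t : ℝ) (h : P2 → ℝ) : ℝ :=
  5 * T 0 1 (ex (sg a) h) + 3 * T 0 1 (ey (sg a) h) - 5 * t * M0 a 0 1 h + 4 * be1 a t h
    + a * Fz a t + 2 * a * nu1 a t
noncomputable def lam2 (a t : ℝ) (h : P2 → ℝ) : ℝ :=
  2 * (T 0 1 (ex (sg a) h) + T 0 1 (ey (sg a) h)) - 3 * t * M0 a 0 1 h + 2 * be1 a t h
    + 2 * be2 a t h + a * Fz a t + a * nu2 a t + a * nu1 a t
noncomputable def sD (a t : ℝ) (h : P2 → ℝ) : ℝ :=
  (lam2 a t h - lam1 a t h) * 2 / (rho2 a - rho1 a)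
noncomputable def sJ (a t : ℝ) (h : P2 → ℝ) : ℝ := lam1 a t h - sD a t h * rho1 a

lemma abs_int_le {f : ℝ → ℝ} {S : ℝ} (h : ∀ y, |y| ≤ 1 → |f y| ≤ S) :
    |∫ y in (-1 : ℝ)..1, f y| ≤ 2 * S := by
  have := norm_integral_le_of_norm_le_const (a := (-1 : ℝ)) (b := 1) (f := f) (C := S)
    fun y hy => by
      rw [uIoc_of_le (by norm_num)] at hy
      exact h y (abs_le.2 ⟨hy.1.le, hy.2⟩)
  rw [Real.norm_eq_abs] at this
  norm_num at this
  linarith

@[fun_prop] lemma continuous_Gt1 (t : ℝ) : Continuous (Gt1 t) := by unfold Gt1; fun_prop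

section
variable {a t : ℝ} (h0 : 0 < a) (h1 : a ≤ 1 / 1000) (ht : 5.7 ≤ t) (ht' : t ≤ 5.8)
  (hF : |F0 t 1| ≤ 300 * a ^ 2)
include h0 h1

lemma q0_near {y : ℝ} (hy : |y| ≤ 1) : |q0 a y - 1| ≤ 1 / 100000 :=
  (abs_q0_sub_one h0 h1 hy).trans (by nlinarith)

lemma abs_q0_le {y : ℝ} (hy : |y| ≤ 1) : |q0 a y| ≤ 1.3 := by
  have := abs_le.1 (q0_near h0 h1 hy)
  rw [abs_le]; constructor <;> linarith

lemma om_y2 {y : ℝ} (hy : |y| ≤ 1) : |om a * y ^ 2| ≤ 1.001 * a ^ 2 := by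
  have hy2 : y ^ 2 ≤ 1 := by nlinarith [abs_nonneg y, sq_abs y]
  have := om_ge h0 h1
  have := om_le h0 h1
  rw [abs_of_nonneg (by nlinarith [sq_nonneg y, sq_nonneg a])]
  nlinarith [sq_nonneg y, sq_nonneg a]

lemma om_y {y : ℝ} (hy : |y| ≤ 1) : |2 * om a * y| ≤ 2.002 * a ^ 2 := by
  have := om_ge h0 h1
  have := om_le h0 h1
  rw [abs_mul, abs_of_nonneg (by nlinarith [sq_nonneg a])]
  nlinarith [sq_nonneg a, abs_nonneg y]

lemma abs_X2 : |X2 a| ≤ 1 := by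
  have := X2_ge h0 h1
  have := X2_le h0 h1
  rw [abs_le]; constructor <;> nlinarith

lemma rho1_le : |rho1 a| ≤ 3 * a ^ 2 := by
  refine (abs_int_le (S := 1.5 * a ^ 2) fun y hy => ?_).trans (by linarith)
  have h2 := abs_le.1 (q0_near h0 h1 hy)
  have h3 : |1 / q0 a y ^ 2| ≤ 1.01 := by
    rw [abs_of_nonneg (by positivity), div_le_iff₀ (by nlinarith)]; nlinarith
  rw [abs_mul]
  calc _ ≤ 1.01 * (1.001 * a ^ 2) := mul_le_mul h3 (om_y2 h0 h1 hy) (abs_nonneg _) (by norm_num)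
    _ ≤ _ := by nlinarith [sq_nonneg a]

lemma rho2_near : |rho2 a - 2| ≤ 1 / 2 := by
  have hc : Continuous fun y => 1 / q0 a y ^ 2 * X2 a :=
    (continuous_const.div (by fun_prop) fun y => (pow_pos (q0_pos h0 h1 y) 2).ne').mul
      continuous_const
  have e : rho2 a - 2 = ∫ y in (-1 : ℝ)..1, (1 / q0 a y ^ 2 * X2 a - 1) := by
    rw [integral_sub (hc.intervalIntegrable _ _) (by simp)]
    unfold rho2; norm_num
  rw [e]
  refine (abs_int_le (S := 1 / 4) fun y hy => ?_).trans (by linarith)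
  have h2 := abs_le.1 (q0_near h0 h1 hy)
  have := X2_ge h0 h1
  have := X2_le h0 h1
  have hq : 0 < q0 a y ^ 2 := by nlinarith
  rw [one_div_mul_eq_div, abs_le]
  constructor
  · rw [le_sub_iff_add_le, le_div_iff₀ hq]; nlinarith
  · rw [sub_le_iff_le_add, div_le_iff₀ hq]; nlinarith

include ht ht' hF

lemma F_small : |F0 t 1| ≤ 1 / 1000 := hF.trans (by nlinarith)

lemma F0_q0_le {y : ℝ} (hy : |y| ≤ 1) : |F0 t (q0 a y)| ≤ 326 * a ^ 2 := by
  have := abs_F0_near ht ht' ((q0_near h0 h1 hy).trans (by norm_num))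
  have := abs_q0_sub_one h0 h1 hy
  nlinarith [sq_nonneg a]

lemma Fz_le : |Fz a t| ≤ 11000 * a ^ 4 := by
  refine (abs_int_le (S := 5500 * a ^ 4) fun y hy => ?_).trans (by linarith)
  have h2 := abs_le.1 (q0_near h0 h1 hy)
  have h3 := ft_bounds ht ht' (F_small h0 h1 ht ht' hF) ((q0_near h0 h1 hy).trans (by norm_num))
  have h4 : (q0 a y - 1) ^ 2 ≤ (1.001 * a ^ 2) ^ 2 := by
    have := abs_le.1 (abs_q0_sub_one h0 h1 hy)
    exact sq_le_sq' this.1 this.2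
  have hq : 0 < q0 a y := by linarith
  rw [abs_of_nonneg (div_nonneg (by nlinarith [sq_nonneg (q0 a y - 1)]) hq.le), div_le_iff₀ hq]
  nlinarith [pow_pos h0 4]

omit h0 h1 hF in
lemma Gt1_diff {q : ℝ} (hF : |F0 t 1| ≤ 1 / 1000) (hq : |q - 1| ≤ 1 / 10000) :
    |Gt1 t 1 - Gt1 t q| ≤ 1300 * |q - 1| := by
  have hq' := abs_le.1 hq
  have := abs_sub_le_of_deriv (a := 1 - 1 / 10000) (b := 1 + 1 / 10000) (C := 1300) (x := 1)
    (y := q) (hasDerivAt_Gt1 t) (fun z hz => by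
      have := neg_Gt2_bounds ht ht' hF (q := z) (abs_le.2 ⟨by linarith [hz.1], by linarith [hz.2]⟩)
      rw [abs_le]; constructor <;> linarith)
    ⟨by norm_num, by norm_num⟩ ⟨by linarith, by linarith⟩
  rwa [abs_sub_comm] at this

lemma f1_q0_le {y : ℝ} (hy : |y| ≤ 1) : |f1 t (q0 a y)| ≤ 1400 * a ^ 2 := by
  have hn := q0_near h0 h1 hy
  have h2 := abs_le.1 hn
  have hs := F_small h0 h1 ht ht' hF
  have h3 := ft_bounds ht ht' hs (hn.trans (by norm_num))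
  have h4 := Gt1_diff ht ht' hs (hn.trans (by norm_num))
  have h5 := abs_q0_sub_one h0 h1 hy
  have hq : 0 < q0 a y := by linarith
  have h6 : |(Gt1 t 1 - Gt1 t (q0 a y)) / q0 a y| ≤ 1310 * a ^ 2 := by
    rw [abs_div, abs_of_pos hq, div_le_iff₀ hq]; nlinarith [sq_nonneg a]
  have h7 : |ft t (q0 a y) / q0 a y ^ 2| ≤ 10 * a ^ 2 := by
    have : (q0 a y - 1) ^ 2 ≤ 1 / 100000 * (1.001 * a ^ 2) := by
      rw [← sq_abs, sq]; exact mul_le_mul hn h5 (abs_nonneg _) (by norm_num)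
    have hq2 : 0.9 ≤ q0 a y ^ 2 := by nlinarith
    rw [abs_of_nonneg (div_nonneg (by nlinarith [sq_nonneg (q0 a y - 1)]) (by positivity)),
      div_le_iff₀ (by positivity)]
    nlinarith [sq_nonneg a]
  unfold f1
  exact (abs_sub _ _).trans (by nlinarith [sq_nonneg a])

lemma nu1_le : |nu1 a t| ≤ 3000 * a ^ 4 := by
  refine (abs_int_le (S := 1500 * a ^ 4) fun y hy => ?_).trans (by linarith)
  rw [abs_mul]
  calc _ ≤ 1400 * a ^ 2 * (1.001 * a ^ 2) := mul_le_mul (f1_q0_le h0 h1 ht ht' hF hy)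
        (om_y2 h0 h1 hy) (abs_nonneg _) (by positivity)
    _ ≤ _ := by nlinarith [pow_pos h0 4]

lemma nu2_le : |nu2 a t| ≤ 3000 * a ^ 2 := by
  refine (abs_int_le (S := 1500 * a ^ 2) fun y hy => ?_).trans (by linarith)
  rw [abs_mul]
  calc _ ≤ 1400 * a ^ 2 * 1 := mul_le_mul (f1_q0_le h0 h1 ht ht' hF hy)
        (abs_X2 h0 h1) (abs_nonneg _) (by positivity)
    _ ≤ _ := by nlinarith [pow_pos h0 2]

variable {C : ℝ} {h : P2 → ℝ} (hh : ContDiff ℝ 1 h) (hC : 1 ≤ C) (hE : D0 a 0 1 h ≤ C * a ^ 4)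
  (hM : M0 a 0 1 h ≤ C * a ^ 6)
include hh hC hE hM

lemma be1_le : |be1 a t h| ≤ 3000 * C * √a ^ 11 := by
  have hs2 : √a ^ 2 = a := sq_sqrt h0.le
  have := Bf_le (S := 352 * a ^ 2) (S' := 51 * a ^ 4) h0 h1 (t := t) (by linarith) (by linarith)
    hh hC hE hM (f := xi1 a t) (f' := xi1' a t) (by unfold xi1; fun_prop)
    (by unfold xi1'; fun_prop) (fun y hy => by
      have a1 := abs_F1_le (t := t) (by linarith) (by linarith) (abs_q0_le h0 h1 hy)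
      have a2 := mul_le_mul a1 (om_y2 h0 h1 hy) (abs_nonneg _) (by norm_num)
      have a3 := F0_q0_le h0 h1 ht ht' hF hy
      unfold xi1
      refine (abs_sub _ _).trans ?_
      rw [abs_mul]; nlinarith [sq_nonneg a]) (fun y hy => by
      have a1 := abs_F2_le (t := t) (by linarith) (by linarith) (abs_q0_le h0 h1 hy)
      have a2 := mul_le_mul a1 (om_y h0 h1 hy) (abs_nonneg _) (by norm_num)
      have a3 := mul_le_mul a2 (om_y2 h0 h1 hy) (abs_nonneg _) (by positivity)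
      unfold xi1'
      rw [abs_mul, abs_mul]; nlinarith [pow_pos h0 4])
  refine this.trans ?_
  have hs : 0 < √a := sqrt_pos.2 h0
  generalize √a = s at *
  subst hs2
  have : 0 < C * s ^ 11 := by positivity
  nlinarith

omit hF in
lemma be2_le : |be2 a t h| ≤ 3000 * C * √a ^ 7 := by
  have hs2 : √a ^ 2 = a := sq_sqrt h0.le
  have := Bf_le (S := 25) (S' := 51 * a ^ 2) h0 h1 (t := t) (by linarith) (by linarith)
    hh hC hE hM (f := xi2 a t) (f' := xi2' a t) (by unfold xi2; fun_prop)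
    (by unfold xi2'; fun_prop) (fun y hy => by
      have a1 := abs_F1_le (t := t) (by linarith) (by linarith) (abs_q0_le h0 h1 hy)
      have a2 := mul_le_mul (abs_X2 h0 h1) a1 (abs_nonneg _) (by norm_num)
      unfold xi2
      rw [abs_mul]; linarith) (fun y hy => by
      have a1 := abs_F2_le (t := t) (by linarith) (by linarith) (abs_q0_le h0 h1 hy)
      have a2 := mul_le_mul a1 (om_y h0 h1 hy) (abs_nonneg _) (by norm_num)
      have a3 := mul_le_mul (abs_X2 h0 h1) a2 (by positivity) (by norm_num)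
      unfold xi2'
      rw [abs_mul, abs_mul]; nlinarith [pow_pos h0 2])
  refine this.trans ?_
  have hs : 0 < √a := sqrt_pos.2 h0
  generalize √a = s at *
  subst hs2
  have : 0 < C * s ^ 7 := by positivity
  nlinarith

lemma lam_bounds : 3 * D0 a 0 1 h - 10 ^ 5 * C * a ^ 5 ≤ lam1 a t h ∧
    lam1 a t h ≤ 5 * D0 a 0 1 h + 10 ^ 5 * C * a ^ 5 ∧ |lam2 a t h| ≤ 10 ^ 5 * C * a ^ 3 := by
  have hσ := sg_pos h0 h1
  have x0 := ex_nonneg hσ le_rfl zero_le_one hh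
  have y0 := ey_nonneg hσ le_rfl zero_le_one hh
  have m0 : 0 ≤ M0 a 0 1 h := mul_nonneg h0.le (sqv_nonneg le_rfl zero_le_one hh)
  have b1 := be1_le h0 h1 ht ht' hF hh hC hE hM
  have b2 := be2_le h0 h1 ht ht' hh hC hE hM
  have z := abs_le.1 (Fz_le h0 h1 ht ht' hF)
  have n1 := abs_le.1 (nu1_le h0 h1 ht ht' hF)
  have n2 := abs_le.1 (nu2_le h0 h1 ht ht' hF)
  have hs2 : √a ^ 2 = a := sq_sqrt h0.le
  have hs : 0 < √a := sqrt_pos.2 h0
  have hs1 : √a ≤ 1 := sqrt_le_one.2 (by linarith)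
  have p11 : √a ^ 11 ≤ a ^ 5 := by
    calc √a ^ 11 ≤ √a ^ 10 := pow_le_pow_of_le_one hs.le hs1 (by norm_num)
      _ = (√a ^ 2) ^ 5 := by ring
      _ = _ := by rw [hs2]
  have p7 : √a ^ 7 ≤ a ^ 3 := by
    calc √a ^ 7 ≤ √a ^ 6 := pow_le_pow_of_le_one hs.le hs1 (by norm_num)
      _ = (√a ^ 2) ^ 3 := by ring
      _ = _ := by rw [hs2]
  have b1' := abs_le.1 (b1.trans (mul_le_mul_of_nonneg_left p11 (by positivity)))
  have b2' := abs_le.1 (b2.trans (mul_le_mul_of_nonneg_left p7 (by positivity)))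
  have ha1 : a ≤ 1 := by linarith
  have q65 : C * a ^ 6 ≤ C * a ^ 5 :=
    mul_le_mul_of_nonneg_left (pow_le_pow_of_le_one h0.le ha1 (by norm_num)) (by linarith)
  have q54 : C * a ^ 5 ≤ C * a ^ 4 :=
    mul_le_mul_of_nonneg_left (pow_le_pow_of_le_one h0.le ha1 (by norm_num)) (by linarith)
  have q43 : C * a ^ 4 ≤ C * a ^ 3 :=
    mul_le_mul_of_nonneg_left (pow_le_pow_of_le_one h0.le ha1 (by norm_num)) (by linarith)
  have c5 : a ^ 5 ≤ C * a ^ 5 := le_mul_of_one_le_left (by positivity) hC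
  have c3 : a ^ 3 ≤ C * a ^ 3 := le_mul_of_one_le_left (by positivity) hC
  have tm0 : 0 ≤ t * M0 a 0 1 h := mul_nonneg (by linarith) m0
  have tm1 : t * M0 a 0 1 h ≤ 6 * (C * a ^ 5) := by nlinarith
  have z1 : a * Fz a t ≤ 11000 * a ^ 5 := by nlinarith
  have z2 : -(11000 * a ^ 5) ≤ a * Fz a t := by nlinarith
  have m1 : a * nu1 a t ≤ 3000 * a ^ 5 := by nlinarith
  have m2 : -(3000 * a ^ 5) ≤ a * nu1 a t := by nlinarith
  have m3 : a * nu2 a t ≤ 3000 * a ^ 3 := by nlinarith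
  have m4 : -(3000 * a ^ 3) ≤ a * nu2 a t := by nlinarith
  have p5 : 0 < a ^ 5 := by positivity
  rw [D0_eq a 0 1 hh] at hE ⊢
  unfold lam1 lam2
  refine ⟨by nlinarith, by nlinarith, abs_le.2 ⟨by nlinarith, by nlinarith⟩⟩

lemma s_bounds : 3 * D0 a 0 1 h - 10 ^ 7 * C * a ^ 5 ≤ sJ a t h ∧
    sJ a t h ≤ 5 * D0 a 0 1 h + 10 ^ 7 * C * a ^ 5 ∧ |sD a t h| ≤ 10 ^ 6 * C * a ^ 3 := by
  obtain ⟨l1, l2, l3⟩ := lam_bounds h0 h1 ht ht' hF hh hC hE hM
  have r1 := rho1_le h0 h1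
  have r2 := abs_le.1 (rho2_near h0 h1)
  have r1' := abs_le.1 r1
  have hσ := sg_pos h0 h1
  have E0 : 0 ≤ D0 a 0 1 h := by
    rw [D0_eq a 0 1 hh]
    linarith [ex_nonneg hσ le_rfl zero_le_one hh, ey_nonneg hσ le_rfl zero_le_one hh]
  have ha1 : a ≤ 1 := by linarith
  have q54 : C * a ^ 5 ≤ C * a ^ 3 :=
    mul_le_mul_of_nonneg_left (pow_le_pow_of_le_one h0.le ha1 (by norm_num)) (by linarith)
  have q43 : C * a ^ 4 ≤ C * a ^ 3 :=
    mul_le_mul_of_nonneg_left (pow_le_pow_of_le_one h0.le ha1 (by norm_num)) (by linarith)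
  have hd : 1 ≤ rho2 a - rho1 a := by nlinarith
  have l3' := abs_le.1 l3
  have p3 : 0 < C * a ^ 3 := by positivity
  have d1 : |sD a t h| ≤ 10 ^ 6 * C * a ^ 3 := by
    unfold sD
    rw [abs_div, abs_of_pos (by linarith : 0 < rho2 a - rho1 a), div_le_iff₀ (by linarith)]
    have : |(lam2 a t h - lam1 a t h) * 2| ≤ 10 ^ 6 * C * a ^ 3 := by
      rw [abs_le]; constructor <;> nlinarith
    nlinarith
  have d2 : |sD a t h * rho1 a| ≤ 10 ^ 6 * C * a ^ 3 * (3 * a ^ 2) := by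
    rw [abs_mul]; exact mul_le_mul d1 r1 (abs_nonneg _) (by positivity)
  have d3 := abs_le.1 d2
  have p5 : 0 < C * a ^ 5 := by positivity
  unfold sJ
  exact ⟨by nlinarith, by nlinarith, d1⟩

end

end Pool.Agent.PSz.NA
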