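import Pool.Agent.P.MP_7b7370_an.NormC
import Pool.Agent.P.MP_7b7370_an.Chg

/-! Expansions along the base of a normal triangle. -/

set_option autoImplicit false

namespace Pool.Agent.PSz.NA

open Real Set MeasureTheory intervalIntegral Pool.Agent.PSz

noncomputable def vv (a : ℝ) (M : ℂ) : ℝ := Complex.normSq M / X2 a - 1
noncomputable def qq' (M D : ℂ) (y : ℝ) : ℝ := 2 * ip M D + 2 * Complex.normSq D * y
noncomputable def r4 (a t : ℝ) (M D : ℂ) (y : ℝ) : ℝ :=
  F0 t (qq M D y) - F0 t (q0 a y) - F1 t (q0 a y) * (qq M D y - q0 a y)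
noncomputable def r4' (a t : ℝ) (M D : ℂ) (y : ℝ) : ℝ :=
  (F1 t (qq M D y) - F1 t (q0 a y) - F2 t (q0 a y) * (qq M D y - q0 a y)) * qq' M D y
    + (qq M D y - q0 a y) * F2 t (q0 a y) * (qq' M D y - 2 * om a * y)
noncomputable def xi0 (a t : ℝ) (M D : ℂ) (y : ℝ) : ℝ :=
  F0 t (qq M D y) - bb a D * F0 t (q0 a y)
noncomputable def xi0' (a t : ℝ) (M D : ℂ) (y : ℝ) : ℝ :=
  F1 t (qq M D y) * qq' M D y - bb a D * (F1 t (q0 a y) * (2 * om a * y))
noncomputable def r5 (a : ℝ) (M D : ℂ) : ℝ :=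
  (∫ y in (-1 : ℝ)..1, 1 / qq M D y) - (2 - vv a M * rho2 a - (bb a D - 1) * rho1 a)

lemma int_odd {f : ℝ → ℝ} (h : ∀ y, f (-y) = -f y) : ∫ y in (-1 : ℝ)..1, f y = 0 := by
  have := integral_comp_neg (a := (-1 : ℝ)) (b := 1) f
  simp only [h, intervalIntegral.integral_neg, neg_neg] at this
  linarith

lemma hasDerivAt_qq (M D : ℂ) (y : ℝ) : HasDerivAt (qq M D) (qq' M D y) y := by
  have := (((hasDerivAt_id y).const_mul (2 * ip M D)).const_add (Complex.normSq M)).add
    ((hasDerivAt_pow 2 y).const_mul (Complex.normSq D))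
  refine this.congr_deriv ?_
  unfold qq'; simp; ring

lemma hasDerivAt_xi0 (a t : ℝ) (M D : ℂ) (y : ℝ) :
    HasDerivAt (xi0 a t M D) (xi0' a t M D y) y :=
  ((hasDerivAt_F0 t _).comp y (hasDerivAt_qq M D y)).sub
    (((hasDerivAt_F0 t _).comp y (hasDerivAt_q0 a y)).const_mul _)

lemma contDiff_xi0 (a t : ℝ) (M D : ℂ) : ContDiff ℝ 1 (xi0 a t M D) :=
  ((contDiff_F0 t).comp (contDiff_qq M D)).sub
    (contDiff_const.mul ((contDiff_F0 t).comp (contDiff_q0 a)))

@[fun_prop] lemma continuous_qq' (M D : ℂ) : Continuous (qq' M D) := by unfold qq'; fun_prop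

lemma q0_even (a y : ℝ) : q0 a (-y) = q0 a y := by unfold q0; ring

@[fun_prop] lemma continuous_ft (t : ℝ) : Continuous (ft t) :=
  continuous_iff_continuousAt.2 fun q => (hasDerivAt_ft t q).continuousAt

lemma f0_convex {t q r : ℝ} (ht : 5.7 ≤ t) (ht' : t ≤ 5.8) (hF : |F0 t 1| ≤ 1 / 1000)
    (hq : |q - 1| ≤ 1 / 100000) (hr : |r - 1| ≤ 1 / 100000) :
    ft t r / r + f1 t r * (q - r) + 0.1 * (q - r) ^ 2 ≤ ft t q / q := by
  have hq' := abs_le.1 hq
  have hr' := abs_le.1 hr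
  have := taylor_ge (a := 1 - 1 / 100000) (b := 1 + 1 / 100000) (m := 0.2) (x := r) (y := q)
    (f := fun z => ft t z / z) (f' := f1 t)
    (f'' := fun z => -Gt2 t z / z - 2 * (Gt1 t 1 - Gt1 t z) / z ^ 2 + 2 * ft t z / z ^ 3)
    (fun z hz => by
      have z0 : z ≠ 0 := by have := hz.1; positivity
      refine ((hasDerivAt_ft t z).div (hasDerivAt_id z) z0).congr_deriv ?_
      unfold f1; simp only [id]; field_simp)
    (fun z hz => by
      have z0 : z ≠ 0 := by have := hz.1; positivity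
      refine ((((hasDerivAt_Gt1 t z).const_sub (Gt1 t 1)).div (hasDerivAt_id z) z0).sub
        ((hasDerivAt_ft t z).div (hasDerivAt_pow 2 z) (pow_ne_zero 2 z0))).congr_deriv ?_
      simp only [id]; field_simp; push_cast; ring)
    (fun z hz => by
      have hz' : |z - 1| ≤ 1 / 100000 := abs_le.2 ⟨by linarith [hz.1], by linarith [hz.2]⟩
      have z0 : 0 < z := by linarith [hz.1]
      have a1 := (neg_Gt2_bounds ht ht' hF (hz'.trans (by norm_num))).1
      have a2 := (abs_le.1 ((Gt1_diff ht ht' hF (hz'.trans (by norm_num))).trans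
        (show _ ≤ (0.013 : ℝ) by linarith))).2
      have a3 := (ft_bounds ht ht' hF (hz'.trans (by norm_num))).1
      have b1 : 0.29 ≤ -Gt2 t z / z := by rw [le_div_iff₀ z0]; nlinarith [hz.2]
      have b2 : 2 * (Gt1 t 1 - Gt1 t z) / z ^ 2 ≤ 0.03 := by
        rw [div_le_iff₀ (by positivity)]; nlinarith [hz.1]
      have b3 : 0 ≤ 2 * ft t z / z ^ 3 :=
        div_nonneg (by nlinarith [sq_nonneg (z - 1)]) (by positivity)
      linarith)
    ⟨by linarith, by linarith⟩ ⟨by linarith, by linarith⟩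
  linarith

section
variable {a t : ℝ} {M D : ℂ} (h0 : 0 < a) (h1 : a ≤ 1 / 1000)
include h0 h1

lemma X2_pos : 0 < X2 a := by nlinarith [X2_ge h0 h1]
lemma om_pos : 0 < om a := (pow_pos h0 2).trans_le (om_ge h0 h1)

lemma nM_eq (M : ℂ) : Complex.normSq M = (1 + vv a M) * X2 a := by
  have := (X2_pos h0 h1).ne'
  unfold vv; field_simp; ring

lemma nD_eq (D : ℂ) : Complex.normSq D = bb a D * om a := by
  have := (om_pos h0 h1).ne'
  unfold bb; field_simp

lemma Delta_eq (M D : ℂ) (y : ℝ) : qq M D y - q0 a y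
    = vv a M * X2 a + ip M D * (2 * y) + (bb a D - 1) * (om a * y ^ 2) := by
  unfold qq q0; rw [nM_eq h0 h1 M, nD_eq h0 h1 D]; ring

lemma xi0_eq (t : ℝ) (M D : ℂ) : xi0 a t M D = fun y => (bb a D - 1) * xi1 a t y
    + vv a M * xi2 a t y + ip M D * xi3 a t y + r4 a t M D y := by
  funext y
  unfold xi0 xi1 xi2 xi3 r4
  rw [Delta_eq h0 h1]; ring

lemma xi0'_eq (t : ℝ) (M D : ℂ) : xi0' a t M D = fun y => (bb a D - 1) * xi1' a t y
    + vv a M * xi2' a t y + ip M D * xi3' a t y + r4' a t M D y := by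
  funext y
  unfold xi0' xi1' xi2' xi3' r4'
  rw [Delta_eq h0 h1]; unfold qq'; rw [nD_eq h0 h1 D]; ring

lemma Bf_xi0 (t : ℝ) (M D : ℂ) {h : P2 → ℝ} (hh : ContDiff ℝ 1 h)
    (he : ∀ x y, h (x, -y) = h (x, y)) :
    Bf a t h (xi0 a t M D) (xi0' a t M D) = (bb a D - 1) * be1 a t h + vv a M * be2 a t h
      + Bf a t h (r4 a t M D) (r4' a t M D) := by
  rw [xi0_eq h0 h1, xi0'_eq h0 h1, Bf_lin a t hh (by unfold xi1; fun_prop)
    (by unfold xi1'; fun_prop) (by unfold xi2; fun_prop) (by unfold xi2'; fun_prop)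
    (by unfold xi3; fun_prop) (by unfold xi3'; fun_prop) (by unfold r4; fun_prop)
    (by unfold r4'; fun_prop), Bf_odd a t hh he (f := xi3 a t) (f' := xi3' a t)
    (fun y => by unfold xi3; rw [q0_even]; ring) (fun y => by unfold xi3'; rw [q0_even]; ring)]
  unfold be1 be2; ring

/-- integral of an even weight against the deviation -/
lemma int_Delta (M D : ℂ) {g : ℝ → ℝ} (hg : Continuous g) (he : ∀ y, g (-y) = g y) :
    ∫ y in (-1 : ℝ)..1, g y * (qq M D y - q0 a y)
      = vv a M * (∫ y in (-1 : ℝ)..1, g y * X2 a)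
        + (bb a D - 1) * ∫ y in (-1 : ℝ)..1, g y * (om a * y ^ 2) := by
  have o : ∫ y in (-1 : ℝ)..1, g y * (ip M D * (2 * y)) = 0 :=
    int_odd fun y => by rw [he]; ring
  rw [← intervalIntegral.integral_const_mul, ← intervalIntegral.integral_const_mul,
    ← add_zero (∫ y in (-1 : ℝ)..1, vv a M * (g y * X2 a)), ← o, ← intervalIntegral.integral_add,
    ← intervalIntegral.integral_add]
  · congr 1; funext y; rw [Delta_eq h0 h1]; ring
  all_goals exact Continuous.intervalIntegrable (by fun_prop) _ _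

lemma T4 (hA : 0 < det M D) (ht : 5.7 ≤ t) (ht' : t ≤ 5.8) (hF : |F0 t 1| ≤ 1 / 1000)
    (hq : ∀ y, |y| ≤ 1 → |qq M D y - 1| ≤ 1 / 100000) :
    Fz a t + vv a M * nu2 a t + (bb a D - 1) * nu1 a t + 0.1 * Th a M D
      ≤ ∫ y in (-1 : ℝ)..1, ft t (qq M D y) / qq M D y := by
  have n0 : ∀ y, q0 a y ≠ 0 := fun y => (q0_pos h0 h1 y).ne'
  have n1 : ∀ y, qq M D y ≠ 0 := fun y => (qq_pos hA y).ne'
  have n2 : ∀ y, q0 a y ^ 2 ≠ 0 := fun y => pow_ne_zero 2 (n0 y)
  have cf : Continuous fun y => f1 t (q0 a y) := by unfold f1; fun_prop (disch := assumption)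
  have e := int_Delta h0 h1 M D cf fun y => by rw [q0_even]
  have c0 : Continuous fun y => ft t (q0 a y) / q0 a y := by fun_prop (disch := assumption)
  have := integral_mono_on (μ := volume) (a := (-1 : ℝ)) (b := 1)
    (f := fun y => ft t (q0 a y) / q0 a y + f1 t (q0 a y) * (qq M D y - q0 a y)
      + 0.1 * (qq M D y - q0 a y) ^ 2) (g := fun y => ft t (qq M D y) / qq M D y) (by norm_num)
    (Continuous.intervalIntegrable (by fun_prop) _ _)
    (Continuous.intervalIntegrable (by fun_prop (disch := assumption)) _ _)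
    fun y hy => f0_convex ht ht' hF (hq y (abs_le.2 hy)) (q0_near h0 h1 (abs_le.2 hy))
  rw [intervalIntegral.integral_add, intervalIntegral.integral_add,
    intervalIntegral.integral_const_mul, e] at this
  · unfold Fz nu1 nu2 Th; linarith
  all_goals exact Continuous.intervalIntegrable (by fun_prop) _ _

lemma r5_le (hA : 0 < det M D) (hq : ∀ y, |y| ≤ 1 → |qq M D y - 1| ≤ 1 / 100000) :
    |r5 a M D| ≤ 3 * Th a M D := by
  have n0 : ∀ y, q0 a y ≠ 0 := fun y => (q0_pos h0 h1 y).ne'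
  have n1 : ∀ y, qq M D y ≠ 0 := fun y => (qq_pos hA y).ne'
  have n2 : ∀ y, q0 a y ^ 2 ≠ 0 := fun y => pow_ne_zero 2 (n0 y)
  have n3 : ∀ y, q0 a y ^ 2 * qq M D y ≠ 0 := fun y => mul_ne_zero (n2 y) (n1 y)
  have cf : Continuous fun y => 1 / q0 a y ^ 2 := by fun_prop (disch := assumption)
  have c0 : Continuous fun y => 1 / q0 a y := by fun_prop (disch := assumption)
  have c1 : Continuous fun y => (qq M D y - q0 a y) ^ 2 / (q0 a y ^ 2 * qq M D y) := by
    fun_prop (disch := assumption)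
  have e := int_Delta h0 h1 M D cf fun y => by rw [q0_even]
  have e1 : ∫ y in (-1 : ℝ)..1, 1 / qq M D y = ∫ y in (-1 : ℝ)..1, (1 / q0 a y
      - 1 / q0 a y ^ 2 * (qq M D y - q0 a y)
      + (qq M D y - q0 a y) ^ 2 / (q0 a y ^ 2 * qq M D y)) := by
    congr 1; funext y
    have := n0 y; have := n1 y
    field_simp; ring
  rw [integral_add (Continuous.intervalIntegrable (by fun_prop) _ _) (c1.intervalIntegrable _ _),
    integral_sub (c0.intervalIntegrable _ _) (Continuous.intervalIntegrable (by fun_prop) _ _),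
    e, integral_inv_q0 h0 h1] at e1
  have e2 : r5 a M D = ∫ y in (-1 : ℝ)..1, (qq M D y - q0 a y) ^ 2 / (q0 a y ^ 2 * qq M D y) := by
    unfold r5 rho1 rho2; linarith
  have p : 0 ≤ r5 a M D := by
    rw [e2]
    exact integral_nonneg (by norm_num) fun y _ =>
      div_nonneg (sq_nonneg _) (mul_nonneg (sq_nonneg _) (qq_pos hA y).le)
  rw [abs_of_nonneg p, e2]
  unfold Th
  rw [← intervalIntegral.integral_const_mul]
  refine integral_mono_on (by norm_num) (c1.intervalIntegrable _ _)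
    (Continuous.intervalIntegrable (by fun_prop) _ _) fun y hy => ?_
  have a1 := abs_le.1 (hq y (abs_le.2 hy))
  have a2 := abs_le.1 (q0_near h0 h1 (abs_le.2 hy))
  have a3 : 0.9 ≤ q0 a y ^ 2 := by nlinarith
  have a4 : 0.8 ≤ q0 a y ^ 2 * qq M D y := by nlinarith
  rw [div_le_iff₀ (by linarith)]
  nlinarith [sq_nonneg (qq M D y - q0 a y)]

lemma r4_le (ht : 5.7 ≤ t) (ht' : t ≤ 5.8) {S y : ℝ} (hy : |y| ≤ 1)
    (hq : |qq M D y - 1| ≤ 1 / 100000) (hΔ : (qq M D y - q0 a y) ^ 2 ≤ S) (hβ : ip M D ^ 2 ≤ S)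
    (hD : (Complex.normSq D - om a) ^ 2 ≤ S) (hq' : |qq' M D y| ≤ 1) :
    |r4 a t M D y| ≤ 12.5 * S ∧ |r4' a t M D y| ≤ 113 * S := by
  have a1 := abs_le.1 hq
  have a2 := abs_le.1 (q0_near h0 h1 hy)
  have m1 : q0 a y ∈ Icc (0 : ℝ) 1.3 := ⟨by linarith, by linarith⟩
  have m2 : qq M D y ∈ Icc (0 : ℝ) 1.3 := ⟨by linarith, by linarith⟩
  have I : ∀ z ∈ Icc (0 : ℝ) 1.3, |z| ≤ 1.3 := fun z hz => abs_le.2 ⟨by linarith [hz.1], hz.2⟩
  have t1 := taylor_abs (C := 25) (fun z _ => hasDerivAt_F0 t z) (fun z _ => hasDerivAt_F1 t z)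
    (fun z hz => abs_F2_le (by linarith) (by linarith) (I z hz)) m1 m2
  have t2 := taylor_abs (C := 25) (fun z _ => hasDerivAt_F1 t z) (fun z _ => hasDerivAt_F2 t z)
    (fun z hz => abs_F3_le (by linarith) (by linarith) (I z hz)) m1 m2
  have t3 := abs_F2_le (t := t) (by linarith) (by linarith) (I _ m1)
  refine ⟨by unfold r4; linarith, ?_⟩
  have hy2 : y ^ 2 ≤ 1 := by nlinarith [abs_nonneg y, sq_abs y]
  have d1 : (qq' M D y - 2 * om a * y) ^ 2 ≤ 16 * S := by
    have e : qq' M D y - 2 * om a * y = 2 * (ip M D + (Complex.normSq D - om a) * y) := by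
      unfold qq'; ring
    have : ((Complex.normSq D - om a) * y) ^ 2 ≤ S := by
      rw [mul_pow]; nlinarith [sq_nonneg (Complex.normSq D - om a)]
    rw [e]; nlinarith [sq_nonneg (ip M D - (Complex.normSq D - om a) * y)]
  have S0 : 0 ≤ S := (sq_nonneg _).trans hβ
  have d2 : |(qq M D y - q0 a y) * (qq' M D y - 2 * om a * y)| ≤ 4 * S := by
    refine abs_le_of_sq_le_sq ?_ (by linarith)
    rw [mul_pow]
    calc _ ≤ S * (16 * S) := mul_le_mul hΔ d1 (sq_nonneg _) S0
      _ = _ := by ring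
  unfold r4'
  refine (abs_add_le _ _).trans ?_
  rw [abs_mul, mul_right_comm, abs_mul]
  have k1 := mul_le_mul (t2.trans (show _ ≤ 12.5 * S by linarith)) hq' (abs_nonneg _) (by linarith)
  have k2 := mul_le_mul d2 t3 (abs_nonneg _) (by linarith)
  linarith

lemma xi0'_le (ht : 5.7 ≤ t) (ht' : t ≤ 5.8) {s y : ℝ} (hy : |y| ≤ 1)
    (hq : |qq M D y - 1| ≤ 1 / 100000) (hq' : |qq' M D y| ≤ s)
    (hb : |bb a D * (2 * om a * y)| ≤ s) : |xi0' a t M D y| ≤ 50 * s := by
  have a1 := abs_le.1 hq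
  have t1 := abs_F1_le (t := t) (q := qq M D y) (by linarith) (by linarith)
    (abs_le.2 ⟨by linarith, by linarith⟩)
  have t2 := abs_F1_le (t := t) (by linarith) (by linarith) (abs_q0_le h0 h1 hy)
  have k1 := mul_le_mul t1 hq' (abs_nonneg _) (by norm_num)
  have k2 := mul_le_mul t2 hb (abs_nonneg _) (by norm_num)
  unfold xi0'
  refine (abs_sub _ _).trans ?_
  rw [abs_mul, mul_left_comm, abs_mul]
  linarith

/-- energy after subtracting a function of the second variable -/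
lemma D0_sub_le {w : P2 → ℝ} (hw : ContDiff ℝ 1 w) {f f' : ℝ → ℝ} (hf : ContDiff ℝ 1 f)
    (hd : ∀ y, HasDerivAt f (f' y) y) (hc : Continuous f') {S : ℝ}
    (hS : ∀ y, |y| ≤ 1 → |f' y| ≤ S * √a) (c : ℝ) :
    D0 a 0 1 (fun p => w p - c * f p.2) ≤ 2 * D0 a 0 1 w + 2 * c ^ 2 * S ^ 2 := by
  have hσ := sg_pos h0 h1
  have hσa := sg_ge h0 h1
  have hz : ContDiff ℝ 1 fun p : P2 => f p.2 := by fun_prop
  have cx := continuous_px hw
  have cy := continuous_py hw
  have := T_mono (x0 := 0) (x1 := 1)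
    (Γ := fun x η => sg a * px (fun p => w p - c * f p.2) (x, x * η) ^ 2
      + py (fun p => w p - c * f p.2) (x, x * η) ^ 2 / sg a)
    (Γ' := fun x η => 2 * (sg a * px w (x, x * η) ^ 2 + py w (x, x * η) ^ 2 / sg a)
      + 2 * c ^ 2 * S ^ 2)
    (by
      have := continuous_px (w := fun p => w p - c * f p.2) (by fun_prop)
      have := continuous_py (w := fun p => w p - c * f p.2) (by fun_prop)
      unfold Cont; fun_prop) (by unfold Cont; fun_prop) le_rfl zero_le_one fun x hx η hη => by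
      rw [px_sub hw hz, py_sub hw hz, px_snd hf, py_snd hf hd]
      have b1 := abs_le.1 (hS _ (abs_mul_le_one hx hη))
      have b2 : f' (x * η) ^ 2 ≤ S ^ 2 * sg a := by
        have := sq_le_sq' b1.1 b1.2
        rw [mul_pow, sq_sqrt h0.le] at this
        nlinarith [sq_nonneg S]
      have b3 : (py w (x, x * η) - c * f' (x * η)) ^ 2 / sg a
          ≤ 2 * (py w (x, x * η) ^ 2 / sg a) + 2 * c ^ 2 * S ^ 2 := by
        rw [div_le_iff₀ hσ, add_mul, mul_assoc 2, div_mul_cancel₀ _ hσ.ne']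
        nlinarith [sq_nonneg (py w (x, x * η) + c * f' (x * η)), sq_nonneg c,
          mul_le_mul_of_nonneg_left b2 (sq_nonneg c)]
      have b4 : 0 ≤ sg a * px w (x, x * η) ^ 2 := by positivity
      simp only [mul_zero, sub_zero]
      linarith
  rw [T_add (Γ' := fun _ _ => 2 * c ^ 2 * S ^ 2) (by unfold Cont; fun_prop) continuous_const,
    T_const_mul, T_const] at this
  unfold D0
  linarith

end

end Pool.Agent.PSz.NA
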