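import Pool.Agent.P.MP_7b7370_an.NormD
import Pool.Agent.P.MP_7b7370_an.NormB

/-! The scalar inequality for an actual normal triangle. -/

set_option autoImplicit false

namespace Pool.Agent.PSz.NA

open Real Set MeasureTheory intervalIntegral Pool.Agent.PSz

lemma Th_nonneg (a : ℝ) (M D : ℂ) : 0 ≤ Th a M D :=
  integral_nonneg (by norm_num) fun _ _ => sq_nonneg _

lemma g0_nonneg {a : ℝ} (h0 : 0 < a) (M D : ℂ) : 0 ≤ g0 a M D :=
  add_nonneg (by positivity) (mul_nonneg h0.le (Th_nonneg a M D))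

lemma J_eq {a : ℝ} {M D : ℂ} (h0 : 0 < a) (h1 : a ≤ 1 / 1000) (hA : 0 < det M D) :
    (1 + vv a M) * PP a M D = det M D / a := by
  have e := X2_mul_sg h0 h1
  have := (X2_pos h0 h1).ne'
  have := (sg_pos h0 h1).ne'
  have := (normSq_pos hA).ne'
  unfold vv PP
  conv_rhs => rw [← e]
  field_simp; ring

lemma b_eq {a : ℝ} {M D : ℂ} (h0 : 0 < a) (h1 : a ≤ 1 / 1000) (hA : 0 < det M D) :
    (1 + vv a M) * (PP a M D ^ 2 + tau a M D ^ 2) = bb a D := by
  have e := X2_mul_sg h0 h1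
  have := (X2_pos h0 h1).ne'
  have := (sg_pos h0 h1).ne'
  have := (normSq_pos hA).ne'
  have e2 : om a = X2 a * sg a * sg a := by rw [e, om_eq]
  unfold vv PP tau bb
  rw [e2, div_pow, div_pow, det_sq]
  field_simp; ring

theorem scal {Cr Cn Ci Pm : ℝ} (hCr : 1 ≤ Cr) (hCn : 1 ≤ Cn) (hCi : 1 ≤ Ci) (hPm : 1 ≤ Pm) :
    ∃ K, 0 ≤ K ∧ ∀ (a t x1 : ℝ) (h : P2 → ℝ) (M D : ℂ), 0 < a → a ≤ 1 / 1000 → 5.7 ≤ t → t ≤ 5.8 →
    |F0 t 1| ≤ 300 * a ^ 2 → ContDiff ℝ 1 h → D0 a 0 1 h ≤ Cr * a ^ 4 → M0 a 0 1 h ≤ Cr * a ^ 6 →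
    0 ≤ x1 → D0 a 0 x1 h ≤ Ci * a ^ 6 → 0 < det M D → 1 / 4 ≤ PP a M D → PP a M D ≤ Pm →
    (∀ y, |y| ≤ 1 → |qq M D y - 1| ≤ 1 / 100000) → (∀ y, |y| ≤ 1 → |qq' M D y| ≤ 1) →
    Th a M D ≤ Cn * a ^ 3 → (∀ y, |y| ≤ 1 → (qq M D y - q0 a y) ^ 2 ≤ Cn * Th a M D) →
    vv a M ^ 2 ≤ Cn * Th a M D → ip M D ^ 2 ≤ Cn * Th a M D →
    (Complex.normSq D - om a) ^ 2 ≤ Cn * Th a M D →
    (PP a M D - 1) ^ 2 * (PP a M D + 2) * (2 * T 0 1 (ex (sg a) h) + T 0 1 (ey (sg a) h))
      - K * (√a * g0 a M D) ≤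
    (bb a D ^ 2 * ((2 / PP a M D - 1 / PP a M D ^ 3) * T 0 1 (ex (sg a) h)
        + T 0 1 (ey (sg a) h) / PP a M D) - t * (det M D / a * bb a D ^ 2 * M0 a 0 1 h)
      + 2 * bb a D / PP a M D * ((bb a D - 1) * be1 a t h + vv a M * be2 a t h
        + Bf a t h (r4 a t M D) (r4' a t M D))
      + a * (det M D / a) * (Fz a t + vv a M * nu2 a t + (bb a D - 1) * nu1 a t)
      - (T 0 1 (ex (sg a) h) + T 0 1 (ey (sg a) h) - t * M0 a 0 1 h + a * Fz a t
        + sJ a t h * (det M D / a - 1)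
        + sD a t h * (det M D / a * (vv a M * rho2 a + (bb a D - 1) * rho1 a - r5 a M D) / 2)))
    - (100 * (bb a D ^ 2 * (PP a M D - 1 / PP a M D) ^ 2 / PP a M D * T 0 x1 (ex (sg a) h))
      + 2 * (300 * Cn ^ 2) * (bb a D ^ 2 * tau a M D ^ 2
        * (T 0 1 (ex (sg a) h) / PP a M D + T 0 1 (ey (sg a) h) / PP a M D ^ 3))
      + 300 * Cn ^ 2 * (bb a D ^ 2 * t ^ 2 * (1 / PP a M D - det M D / a) ^ 2 * M0 a 0 1 h
        / (det M D / a))) := by
  set CC := Pm + 5 * Cn + Ci + 200 * (Cr * Cn) + 11000 + 2 * 10 ^ 7 * Cr + 300 * Cn ^ 2 with hCC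
  have p1 : 0 ≤ Cr * Cn := by positivity
  have p2 : 0 ≤ Cn ^ 2 := by positivity
  obtain ⟨K, hK0, HS⟩ := NB.scalar CC
  refine ⟨K, hK0, ?_⟩
  intro a t x1 h M D h0 h1 ht ht' hF hh hE hM hx hEi hA hP hP' hq hq' hΘ hΔ hv hβ hD
  have hσ := sg_pos h0 h1
  have hσa := sg_ge h0 h1
  have Θ0 := Th_nonneg a M D
  have hs : 0 < √a := sqrt_pos.2 h0
  have hs2 : √a ^ 2 = a := sq_sqrt h0.le
  have hs1 : √a ≤ 1 := sqrt_le_one.2 (by linarith)
  have s4 : √a ^ 4 = a ^ 2 := by rw [show √a ^ 4 = (√a ^ 2) ^ 2 by ring, hs2]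
  have s6 : √a ^ 6 = a ^ 3 := by rw [show √a ^ 6 = (√a ^ 2) ^ 3 by ring, hs2]
  have s8 : √a ^ 8 = a ^ 4 := by rw [show √a ^ 8 = (√a ^ 2) ^ 4 by ring, hs2]
  have s12 : √a ^ 12 = a ^ 6 := by rw [show √a ^ 12 = (√a ^ 2) ^ 6 by ring, hs2]
  have a3 : 0 < a ^ 3 := by positivity
  obtain ⟨d, hd0, hd⟩ : ∃ d : ℝ, 0 ≤ d ∧ d ^ 2 = (PP a M D - 1) ^ 2 + Th a M D / a ^ 3 :=
    ⟨√_, sqrt_nonneg _, sq_sqrt (by positivity)⟩
  have hg : a ^ 4 * d ^ 2 = g0 a M D := by rw [hd]; unfold g0; field_simp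
  have hΘd : Th a M D ≤ a ^ 3 * d ^ 2 := by
    rw [hd, mul_add, mul_div_cancel₀ _ a3.ne']
    have : 0 ≤ a ^ 3 * (PP a M D - 1) ^ 2 := by positivity
    linarith
  have x0 := ex_nonneg hσ le_rfl zero_le_one hh
  have y0 := ey_nonneg hσ le_rfl zero_le_one hh
  have xi := ex_nonneg hσ le_rfl hx hh
  have yi := ey_nonneg hσ le_rfl hx hh
  have m0 : 0 ≤ M0 a 0 1 h := mul_nonneg h0.le (sqv_nonneg le_rfl zero_le_one hh)
  have hE' := hE
  rw [D0_eq a 0 1 hh] at hE'
  rw [D0_eq a 0 x1 hh] at hEi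
  have hX : 1 / 2 ≤ Complex.normSq M := by
    have := (abs_le.1 (hq 0 (by simp))).1
    simp only [qq] at this
    linarith
  obtain ⟨j1, j2, j3⟩ := s_bounds h0 h1 ht ht' hF hh hCr hE hM
  have hρ : 0 < rho2 a - rho1 a := by
    have := abs_le.1 (rho1_le h0 h1)
    have := abs_le.1 (rho2_near h0 h1)
    nlinarith
  have up : ∀ {x y z : ℝ}, |x| ≤ y * z → y ≤ CC → 0 ≤ z → |x| ≤ CC * z := fun h1 h2 h3 =>
    h1.trans (mul_le_mul_of_nonneg_right h2 h3)
  let c0 : NB.Ctx CC :=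
    { s := √a, d := d, u := PP a M D - 1, v := vv a M, T2 := tau a M D ^ 2
      Ex := T 0 1 (ex (sg a) h), Ey := T 0 1 (ey (sg a) h), Ei := T 0 x1 (ex (sg a) h)
      M := M0 a 0 1 h, t := t, b1 := be1 a t h, b2 := be2 a t h
      b4 := Bf a t h (r4 a t M D) (r4' a t M D), Fz := Fz a t, n1 := nu1 a t, n2 := nu2 a t
      r1 := rho1 a, r2 := rho2 a, r5 := r5 a M D, sJ := sJ a t h, sD := sD a t h
      ie := 300 * Cn ^ 2
      hs0 := hs, hs1 := hs1, hd0 := hd0
      hd1 := by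
        have k1 : Th a M D / a ^ 3 ≤ Cn := by rw [div_le_iff₀ a3]; exact hΘ
        have k2 : (PP a M D - 1) ^ 2 ≤ Pm ^ 2 := sq_le_sq' (by linarith) (by linarith)
        have k3 : d ≤ Pm + Cn := abs_le_of_sq_le_sq' (by nlinarith) (by linarith) |>.2
        linarith
      hu := abs_le_of_sq_le_sq (by rw [hd]; have : 0 ≤ Th a M D / a ^ 3 := by positivity
                                   linarith) hd0
      hP := by linarith
      hk := by
        have := X2_le h0 h1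
        have := X2_pos h0 h1
        unfold vv
        rw [add_sub_cancel, le_div_iff₀ this]; linarith
      hv := up (y := Cn) (abs_le_of_sq_le_sq (by
        rw [mul_pow, mul_pow, ← pow_mul, s6]
        calc _ ≤ Cn * (a ^ 3 * d ^ 2) := hv.trans (by gcongr)
          _ ≤ _ := by gcongr; nlinarith) (by positivity)) (by linarith) (by positivity)
      hT := up (y := 4 * Cn) (by
        rw [abs_of_nonneg (sq_nonneg _), hs2]
        unfold tau
        rw [div_pow, div_le_iff₀ (by positivity)]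
        calc _ ≤ Cn * (a ^ 3 * d ^ 2) := hβ.trans (by gcongr)
          _ = 4 * Cn * (a * d ^ 2) * (a * (1 / 2)) ^ 2 := by ring
          _ ≤ _ := by gcongr) (by linarith) (by positivity)
      hEx := up (y := Cr) (by rw [abs_of_nonneg x0, s8]; linarith) (by linarith) (by positivity)
      hEy := up (y := Cr) (by rw [abs_of_nonneg y0, s8]; linarith) (by linarith) (by positivity)
      hEi := up (y := Ci) (by rw [abs_of_nonneg xi, s12]; linarith) (by linarith) (by positivity)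
      hM := up (y := Cr) (by rw [abs_of_nonneg m0, s12]; linarith) (by linarith) (by positivity)
      ht := by rw [abs_of_nonneg (by linarith)]; linarith
      hb1 := up (be1_le h0 h1 ht ht' hF hh hCr hE hM) (by linarith) (by positivity)
      hb2 := up (be2_le h0 h1 ht ht' hh hCr hE hM) (by linarith) (by positivity)
      hb4 := up (y := 200 * (Cr * Cn)) (by
        have k := fun y (hy : |y| ≤ 1) =>
          r4_le h0 h1 ht ht' hy (hq y hy) (hΔ y hy) hβ hD (hq' y hy)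
        refine (Bf_le h0 h1 (by linarith) (by linarith) hh hCr hE hM (by unfold r4; fun_prop)
          (by unfold r4'; fun_prop) (fun y hy => (k y hy).1) fun y hy => (k y hy).2).trans ?_
        have k1 : √a ^ 7 ≤ √a ^ 3 := pow_le_pow_of_le_one hs.le hs1 (by norm_num)
        calc _ ≤ Cr * √a ^ 3 * (113 * (Cn * (a ^ 3 * d ^ 2)))
              + 6 * Cr * √a ^ 3 * (12.5 * (Cn * (a ^ 3 * d ^ 2))) := by gcongr
          _ = 188 * (Cr * Cn) * (√a ^ 9 * d ^ 2) := by rw [← s6]; ring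
          _ ≤ _ := by gcongr; norm_num) (by linarith) (by positivity)
      hFz := up (by rw [s8]; exact Fz_le h0 h1 ht ht' hF) (by linarith) (by positivity)
      hn1 := up (by rw [s8]; exact nu1_le h0 h1 ht ht' hF) (by linarith) (by positivity)
      hn2 := up (by rw [s4]; exact nu2_le h0 h1 ht ht' hF) (by linarith) (by positivity)
      hr1 := up (by rw [s4]; exact rho1_le h0 h1) (by linarith) (by positivity)
      hr2 := by
        have := abs_le.1 (rho2_near h0 h1)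
        rw [abs_le]; constructor <;> linarith
      hr5 := up (y := 3) (by rw [s6]; linarith [r5_le h0 h1 hA hq]) (by linarith) (by positivity)
      hsJ := up (y := 2 * 10 ^ 7 * Cr) (by
        have k1 : Cr * a ^ 5 ≤ Cr * a ^ 3 :=
          mul_le_mul_of_nonneg_left (pow_le_pow_of_le_one h0.le (by linarith) (by norm_num))
            (by linarith)
        have k2 : Cr * a ^ 4 ≤ Cr * a ^ 3 :=
          mul_le_mul_of_nonneg_left (pow_le_pow_of_le_one h0.le (by linarith) (by norm_num))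
            (by linarith)
        have k3 : 0 ≤ Cr * a ^ 3 := by positivity
        rw [D0_eq a 0 1 hh] at j1
        rw [s6, abs_le]; constructor <;> linarith) (by linarith) (by positivity)
      hsD := up (by rw [s6]; exact j3) (by linarith) (by positivity)
      hie := by rw [abs_of_nonneg (by positivity)]; linarith
      e1 := by rw [hs2]; unfold sJ lam1; ring
      e2 := by
        have : sD a t h * (rho2 a - rho1 a) = (lam2 a t h - lam1 a t h) * 2 := by
          unfold sD; field_simp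
        have e : lam2 a t h = 2 * (T 0 1 (ex (sg a) h) + T 0 1 (ey (sg a) h)) - 3 * t * M0 a 0 1 h
          + 2 * be1 a t h + 2 * be2 a t h + a * Fz a t + a * nu2 a t + a * nu1 a t := rfl
        rw [hs2, ← e]; unfold sJ; linarith }
  have eP : c0.P = PP a M D := by simp [NB.Ctx.P, c0]
  have eJ : c0.J = det M D / a := by
    rw [NB.Ctx.J, eP]; exact J_eq h0 h1 hA
  have eb : c0.b = bb a D := by
    rw [NB.Ctx.b, eP]; exact b_eq h0 h1 hA
  have key := HS c0
  unfold NB.Ctx.S NB.Ctx.L at key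
  rw [eP, eJ, eb] at key
  simp only [c0] at key
  rw [hs2, show √a ^ 9 * d ^ 2 = √a * g0 a M D by rw [← hg, ← s8]; ring] at key
  exact key

end Pool.Agent.PSz.NA
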