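import Mathlib

/-! Final arithmetic for a normal triangle. -/

set_option autoImplicit false

namespace Pool.Agent.PSz.NA

open Real

lemma fin {c b P J a t Cn τ Ex Ey Ei Tm Bz Bx Din Dout Ty RW Lin I Θ Tg K s cg c1 ς Z e : ℝ}
    (ha : 0 < a) (hJ : 1 / Cn ≤ J) (hCn : 1 ≤ Cn) (hP : 1 / 4 ≤ P) (hb0 : 0 ≤ b) (hb : b ≤ Cn)
    (he : e = 1 / (300 * Cn ^ 2)) (hEx : 0 ≤ Ex) (hEy : 0 ≤ Ey) (hE : c1 * a ^ 4 ≤ Ex + Ey)
    (hΘ : 0 ≤ Θ) (hDi : 0 ≤ Din) (hDo : 0 ≤ Dout) (hς : 0 ≤ ς) (hςe : ς * Cn ≤ e / 2)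
    (hZ0 : 0 ≤ Z) (hZ : Z ≤ 2 * (Cn * (Din + Dout)) + 2 * c ^ 2 * 50 ^ 2) (hBz : |Bz| ≤ ς * √Z)
    (hcg : cg ≤ c1) (hcg' : cg ≤ 0.05 / Cn) (hK : K * s ≤ cg) :
    ((c * b) ^ 2 * (P * Ex + Ey / P
        - (t * (a * J) + t ^ 2 * (a / P - a * J) ^ 2 / (e * (a * J))) * Tm
        - (P - 1 / P) ^ 2 / P * (100 * Ei + (1 + 3 * e) * Ex)
        - 2 / e * τ ^ 2 * (Ex / P + Ey / P ^ 3))
      + 2 * (c * b) / P * (Bz + c * Bx) + (0.99 - e / 2) * Din + 3 * e / 2 * Dout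
      - (t + e) * (a * J) * Ty ≤ RW) →
    (Lin + 0.1 * Θ ≤ I) →
    ((P - 1) ^ 2 * (P + 2) * (2 * Ex + Ey) - K * (s * (a ^ 4 * (P - 1) ^ 2 + a * Θ)) ≤
      (b ^ 2 * ((2 / P - 1 / P ^ 3) * Ex + Ey / P) - t * (J * b ^ 2 * (a * Tm))
        + 2 * b / P * Bx + a * J * Lin - Tg)
      - (100 * (b ^ 2 * (P - 1 / P) ^ 2 / P * Ei)
        + 2 * (300 * Cn ^ 2) * (b ^ 2 * τ ^ 2 * (Ex / P + Ey / P ^ 3))
        + 300 * Cn ^ 2 * (b ^ 2 * t ^ 2 * (1 / P - J) ^ 2 * (a * Tm) / J))) →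
    c ^ 2 * (Tg + cg * (a ^ 4 * (P - 1) ^ 2 + a * Θ) - (2500 + 32 * Cn ^ 2) * ς)
      + 0.98 * Din + e * Dout - (t + e) * (a * J * Ty) ≤ RW + c ^ 2 * (a * J * I) := by
  have P0 : 0 < P := by linarith
  have C0 : 0 < Cn := by linarith
  have J0 : 0 < J := lt_of_lt_of_le (by positivity) hJ
  have e0 : 0 < e := by rw [he]; positivity
  have e1 : e ≤ 1 / 300 := by
    rw [he]; exact one_div_le_one_div_of_le (by norm_num) (by linarith [one_le_pow₀ (n := 2) hCn])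
  have l1 : (b / Cn) ^ 2 * ((P + 1) ^ 2 / (100 * P ^ 3)) * ((P - 1) ^ 2 * Ex)
      ≤ (P - 1) ^ 2 * Ex := by
    refine mul_le_of_le_one_left (by positivity) (mul_le_one₀ ?_ (by positivity) ?_)
    · exact pow_le_one₀ (by positivity) ((div_le_one C0).2 hb)
    · rw [div_le_one (by positivity)]
      linarith [mul_nonneg (sub_nonneg.2 hP) (sq_nonneg P), mul_nonneg (sub_nonneg.2 hP) P0.le]
  have l2 : 2 * cg * (a ^ 4 * (P - 1) ^ 2)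
      ≤ (P - 1) ^ 2 * (P + 2) * (2 * Ex + Ey) - (P - 1) ^ 2 * Ex := by
    have k1 : cg * a ^ 4 ≤ Ex + Ey := (mul_le_mul_of_nonneg_right hcg (by positivity)).trans hE
    have k2 : 2 * (cg * a ^ 4) ≤ (P + 2) * (2 * Ex + Ey) - Ex := by
      linarith [mul_nonneg P0.le hEx, mul_nonneg P0.le hEy]
    linarith [mul_le_mul_of_nonneg_left k2 (sq_nonneg (P - 1))]
  have l3 : 2 * cg * (a * Θ) ≤ a * J * (0.1 * Θ) := by
    have : 2 * cg ≤ 0.1 * J := by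
      have : 0.05 / Cn = 0.05 * (1 / Cn) := by ring
      linarith
    linarith [mul_le_mul_of_nonneg_right this (mul_nonneg ha.le hΘ)]
  have g0 : 0 ≤ a ^ 4 * (P - 1) ^ 2 + a * Θ := by positivity
  have l4 : K * (s * (a ^ 4 * (P - 1) ^ 2 + a * Θ)) ≤ cg * (a ^ 4 * (P - 1) ^ 2 + a * Θ) := by
    rw [← mul_assoc]; exact mul_le_mul_of_nonneg_right hK g0
  have l6 : -(ς * (Z / 2 + 32 * Cn ^ 2 * c ^ 2)) ≤ 2 * (c * b) / P * Bz := by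
    have k1 : |2 * (c * b) / P| ≤ 8 * Cn * |c| := by
      rw [abs_div, abs_of_pos P0, div_le_iff₀ P0, abs_mul, abs_mul, abs_of_nonneg hb0, abs_two]
      have : b ≤ 4 * Cn * P := by linarith [mul_le_mul_of_nonneg_left hP C0.le]
      linarith [mul_le_mul_of_nonneg_left this (abs_nonneg c)]
    have k2 : |2 * (c * b) / P * Bz| ≤ 8 * Cn * |c| * (ς * √Z) := by
      rw [abs_mul]; exact mul_le_mul k1 hBz (abs_nonneg _) (by positivity)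
    have k3 : 8 * Cn * |c| * √Z ≤ Z / 2 + 32 * Cn ^ 2 * c ^ 2 := by
      rw [← sq_abs c]
      linarith [sq_nonneg (√Z - 8 * Cn * |c|), sq_sqrt hZ0]
    linarith [(abs_le.1 k2).1, mul_le_mul_of_nonneg_left k3 hς]
  have l7 : ς * (Z / 2) ≤ e / 2 * (Din + Dout) + 2500 * c ^ 2 * ς := by
    have := mul_le_mul_of_nonneg_left hZ hς
    have := mul_le_mul_of_nonneg_right hςe (add_nonneg hDi hDo)
    linarith
  have l8 : 0.98 * Din ≤ (0.99 - e) * Din := mul_le_mul_of_nonneg_right (by linarith) hDi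
  intro core t4 key
  have l5 := mul_le_mul_of_nonneg_left t4 (mul_pos ha J0).le
  have id1 : (c * b) ^ 2 * (P * Ex + Ey / P
        - (t * (a * J) + t ^ 2 * (a / P - a * J) ^ 2 / (e * (a * J))) * Tm
        - (P - 1 / P) ^ 2 / P * (100 * Ei + (1 + 3 * e) * Ex)
        - 2 / e * τ ^ 2 * (Ex / P + Ey / P ^ 3)) + 2 * (c * b) / P * (Bz + c * Bx)
      = c ^ 2 * ((b ^ 2 * ((2 / P - 1 / P ^ 3) * Ex + Ey / P) - t * (J * b ^ 2 * (a * Tm))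
        + 2 * b / P * Bx)
      - (100 * (b ^ 2 * (P - 1 / P) ^ 2 / P * Ei)
        + 2 * (300 * Cn ^ 2) * (b ^ 2 * τ ^ 2 * (Ex / P + Ey / P ^ 3))
        + 300 * Cn ^ 2 * (b ^ 2 * t ^ 2 * (1 / P - J) ^ 2 * (a * Tm) / J))
      - (b / Cn) ^ 2 * ((P + 1) ^ 2 / (100 * P ^ 3)) * ((P - 1) ^ 2 * Ex))
      + 2 * (c * b) / P * Bz := by
    rw [he]; field_simp; ring
  rw [id1] at core
  clear id1
  generalize b ^ 2 * ((2 / P - 1 / P ^ 3) * Ex + Ey / P) - t * (J * b ^ 2 * (a * Tm))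
    + 2 * b / P * Bx = S1 at *
  generalize 100 * (b ^ 2 * (P - 1 / P) ^ 2 / P * Ei)
    + 2 * (300 * Cn ^ 2) * (b ^ 2 * τ ^ 2 * (Ex / P + Ey / P ^ 3))
    + 300 * Cn ^ 2 * (b ^ 2 * t ^ 2 * (1 / P - J) ^ 2 * (a * Tm) / J) = L at *
  generalize (b / Cn) ^ 2 * ((P + 1) ^ 2 / (100 * P ^ 3)) * ((P - 1) ^ 2 * Ex) = L2 at *
  have l9 : Tg + cg * (a ^ 4 * (P - 1) ^ 2 + a * Θ) ≤ S1 - L - L2 + a * J * I := by linarith
  have l10 := mul_le_mul_of_nonneg_left l9 (sq_nonneg c)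
  linarith

end Pool.Agent.PSz.NA
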