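import Pool.Agent.P.MP_7b7370_an.Inner
import Pool.Agent.P.MP_7b7370_an.NormE
import Pool.Agent.P.MP_7b7370_an.NormF

set_option autoImplicit false

namespace Pool.Agent.PSz

open Real Set MeasureTheory intervalIntegral

open NA in
/-- paper 16: the inequality on a normal triangle -/
theorem normal_core : ∃ C1 : ℝ, 1 ≤ C1 ∧ ∃ sJ sD : ℝ → ℝ → (P2 → ℝ) → ℝ,
    (∀ a t ς h, Ref a t ς h → 3 * D0 a 0 1 h - C1 * a ^ 5 ≤ sJ a t h ∧
      sJ a t h ≤ 5 * D0 a 0 1 h + C1 * a ^ 5 ∧ |sD a t h| ≤ C1 * a ^ 3) ∧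
    ∀ K Pm : ℝ, 1 ≤ K → 1 ≤ Pm → ∃ e cg : ℝ, 0 < e ∧ e ≤ 1 / 100 ∧ 0 < cg ∧ cg ≤ 1 ∧
    ∀ ε : ℝ, 0 < ε → ε < 1 → ∃ C a0 : ℝ, 1 ≤ C ∧ 0 < a0 ∧ ∀ a t ς h, Ref a t ς h → a ≤ a0 →
    ∀ M D, Nrm a K Pm M D → ∀ (W : P2 → ℝ) (c : ℝ), ContDiff ℝ 1 W →
    (∀ y, |y| ≤ 1 → W (1, y) = c * F0 t (qq M D y)) →
    c ^ 2 * (D0 a 0 1 h - t * M0 a 0 1 h + a * Fz a t + sJ a t h * (det M D / a - 1)
        + sD a t h * ((det M D - det M D * (∫ y in (-1 : ℝ)..1, 1 / qq M D y) / 2) / a)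
        + cg * g0 a M D - C * ς)
      + 0.98 * DG M D 0 (1 - ε) (fun p => W p - c * (bb a D * h p))
      + e * DG M D (1 - ε) 1 (fun p => W p - c * (bb a D * h p))
      - (t + e) * (det M D * T 0 1 fun x η => (W (x, x * η) - c * (bb a D * h (x, x * η))) ^ 2)
    ≤ DG M D 0 1 W - t * (det M D * T 0 1 fun x η => W (x, x * η) ^ 2)
      + c ^ 2 * (det M D * ∫ y in (-1 : ℝ)..1, ft t (qq M D y) / qq M D y) := by
  obtain ⟨c1, Cr, hc1, hCr, RS⟩ := ref_sizes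
  refine ⟨10 ^ 7 * Cr, by linarith, NA.sJ, NA.sD, fun a t ς h r => ?_, fun K Pm hK hPm => ?_⟩
  · obtain ⟨-, hE, hM, -⟩ := RS a t ς h r
    obtain ⟨j1, j2, j3⟩ := s_bounds r.a_pos r.a_le r.t_lo r.t_hi r.F_one r.smooth hCr hE hM
    have : 0 ≤ Cr * a ^ 3 := by have := r.a_pos; positivity
    exact ⟨j1, j2, by linarith⟩
  obtain ⟨Cn, an, hCn, han, NS⟩ := nrm_sizes hK hPm
  have C0 : 0 < Cn := by linarith
  have C2 := one_le_pow₀ (n := 2) hCn
  have he1 : 1 / (300 * Cn ^ 2) ≤ 1 / 100 := one_div_le_one_div_of_le (by norm_num) (by linarith)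
  have hcg : 0.05 / Cn ≤ 1 := by rw [div_le_one C0]; linarith
  refine ⟨1 / (300 * Cn ^ 2), min c1 (0.05 / Cn), by positivity,
    he1, lt_min hc1 (by positivity),
    (min_le_right _ _).trans hcg, fun ε hε hε1 => ?_⟩
  obtain ⟨Ci, hCi, RI⟩ := ref_inner hε hε1
  obtain ⟨Ks, hKs, HS⟩ := scal hCr hCn hCi hPm
  have cg0 : 0 < min c1 (0.05 / Cn) := lt_min hc1 (by positivity)
  set cg := min c1 (0.05 / Cn) with hcgd
  refine ⟨2500 + 32 * Cn ^ 2, min (min an (1 / (10 ^ 5 * K)))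
    (min (1 / (600 * Cn ^ 3)) ((cg / (Ks + 1)) ^ 2)), by linarith,
    lt_min (lt_min han (by positivity)) (lt_min (by positivity) (by positivity)), ?_⟩
  intro a t ς h r ha M D N W c hW hb
  simp only [le_min_iff] at ha
  obtain ⟨⟨ha1, ha2⟩, ha3, ha4⟩ := ha
  have h0 := r.a_pos
  have h1 := r.a_le
  have hh := r.smooth
  have hA := N.ar
  obtain ⟨hE1, hE, hM, -⟩ := RS a t ς h r
  obtain ⟨-, hΘ, hΔ, hv, hβ, hD, -, b0, b1, A0, -, -, hcmp⟩ := NS a M D h0 ha1 N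
  have hσ := sg_pos h0 h1
  have hP := PP_pos hσ hA
  have hs : 0 < √a := sqrt_pos.2 h0
  have hs2 : √a ^ 2 = a := sq_sqrt h0.le
  have hs1 : √a ≤ 1 := sqrt_le_one.2 (by linarith)
  have has : a ≤ √a := by linarith [mul_le_mul_of_nonneg_left hs1 hs.le]
  have hq : ∀ y, |y| ≤ 1 → |qq M D y - 1| ≤ 1 / 100000 := fun y hy => by
    refine (N.small y hy).trans ?_
    rw [le_div_iff₀ (by positivity)] at ha2
    linarith [mul_le_mul_of_nonneg_left hs1 (show 0 ≤ K * a by positivity)]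
  have hCa3 : Cn ^ 3 * a ≤ 1 / 600 := by
    rw [le_div_iff₀ (by positivity)] at ha3
    linarith
  have hCa : Cn * a ≤ 1 / 600 := by
    have : Cn ≤ Cn ^ 3 := le_self_pow₀ hCn (by norm_num)
    linarith [mul_le_mul_of_nonneg_right this h0.le]
  have hbo : ∀ y, |y| ≤ 1 → |bb a D * (2 * om a * y)| ≤ √a / 2 := fun y hy => by
    rw [abs_mul, abs_of_nonneg b0]
    have := mul_le_mul b1 (om_y h0 h1 hy) (abs_nonneg _) C0.le
    linarith [mul_le_mul_of_nonneg_right hCa h0.le]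
  have hq' : ∀ y, |y| ≤ 1 → |qq' M D y| ≤ √a := fun y hy => by
    have k1 : |ip M D| ≤ Cn * a * √a := by
      refine abs_le_of_sq_le_sq ?_ (by positivity)
      rw [mul_pow, hs2]
      linarith [mul_le_mul_of_nonneg_left hΘ C0.le]
    have k2 := hbo y hy
    have e : qq' M D y = 2 * ip M D + bb a D * (2 * om a * y) := by
      unfold qq'; rw [nD_eq h0 h1 D]; ring
    rw [e]
    refine (abs_add_le _ _).trans ?_
    rw [abs_mul, abs_two]
    linarith [mul_le_mul_of_nonneg_right hCa hs.le]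
  have key := HS a t (1 - ε) h M D h0 h1 r.t_lo r.t_hi r.F_one hh hE hM (by linarith)
    (RI a t ς h r) hA N.P_lo N.P_hi hq (fun y hy => (hq' y hy).trans hs1) hΘ hΔ hv hβ hD
  have t4 := T4 h0 h1 hA r.t_lo r.t_hi (F_small h0 h1 r.t_lo r.t_hi r.F_one) hq
  have e0 : (0 : ℝ) < 1 / (300 * Cn ^ 2) := by positivity
  have core := core1 (τ := tau a M D) (a := a) (t := t) (k := c * bb a D) (x1 := 1 - ε) hσ hP hA e0
    he1 (by linarith) (by linarith) hW hh r.even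
  have ey' : (fun p => W p - c * (bb a D * h p)) = fun p => W p - c * bb a D * h p := by
    funext p; ring
  have ey2 : (fun x η => (W (x, x * η) - c * (bb a D * h (x, x * η))) ^ 2)
      = sqv fun p => W p - c * bb a D * h p := by
    funext x η; unfold sqv; ring
  rw [ey', ey2]
  set y : P2 → ℝ := fun p => W p - c * bb a D * h p with hyd
  have hy : ContDiff ℝ 1 y := by rw [hyd]; fun_prop
  have hξ := contDiff_xi0 a t M D
  have hξ2 : ContDiff ℝ 1 fun p : P2 => xi0 a t M D p.2 := by fun_prop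
  have hz : ContDiff ℝ 1 fun p : P2 => y p - c * xi0 a t M D p.2 := by fun_prop
  have el := r.el _ hz fun η hη => by
    simp only [hyd, hb η hη, r.bdry η hη, xi0]; ring
  have eB := bi_sub (sg a) a t hh hy hξ2 c
  rw [bi_snd a t h hξ (hasDerivAt_xi0 a t M D), Bf_xi0 h0 h1 t M D hh r.even] at eB
  have hZ := D0_sub_le h0 h1 hy hξ (hasDerivAt_xi0 a t M D) (by unfold xi0'; fun_prop) (S := 50)
    (fun η hη => xi0'_le h0 h1 r.t_lo r.t_hi hη (hq η hη) (hq' η hη)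
      ((hbo η hη).trans (by linarith))) c
  have hZ0 : 0 ≤ D0 a 0 1 fun p : P2 => y p - c * xi0 a t M D p.2 := by
    rw [D0_eq a 0 1 hz]
    exact add_nonneg (ex_nonneg hσ le_rfl zero_le_one hz) (ey_nonneg hσ le_rfl zero_le_one hz)
  have hc := (hcmp y 0 1 hy le_rfl zero_le_one).2
  rw [DG_eq hσ hA, ← T_split (x0 := 0) (x1 := 1 - ε) (x2 := 1) (c_dn _ _ _ hy)] at hc
  have eI : (det M D - det M D * (∫ y in (-1 : ℝ)..1, 1 / qq M D y) / 2) / a
      = det M D / a * (vv a M * rho2 a + (bb a D - 1) * rho1 a - r5 a M D) / 2 := by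
    unfold r5; ring
  rw [eI, D0_eq a 0 1 hh, DG_eq hσ hA, DG_eq hσ hA, DG_eq hσ hA]
  rw [D0_eq a 0 1 hh] at hE1
  obtain ⟨J, hJ⟩ : ∃ J, J = det M D / a := ⟨_, rfl⟩
  have eA : det M D = a * J := by rw [hJ]; field_simp
  rw [← hJ] at key ⊢
  rw [eA] at core ⊢
  have eb2 : T 0 1 (bi (sg a) a t h y) = B0 a t h (fun p : P2 => y p - c * xi0 a t M D p.2)
      + c * ((bb a D - 1) * be1 a t h + vv a M * be2 a t h
        + Bf a t h (r4 a t M D) (r4' a t M D)) := by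
    rw [← sub_eq_iff_eq_add, ← eB]; rfl
  rw [eb2] at core
  have hς1 : ς ≤ a := r.s_le.trans (pow_le_of_le_one h0.le (by linarith) (by norm_num))
  have eM : M0 a 0 1 h = a * T 0 1 (sqv h) := rfl
  have eW : (T 0 1 fun x η => W (x, x * η) ^ 2) = T 0 1 (sqv W) := rfl
  have eg : g0 a M D = a ^ 4 * (PP a M D - 1) ^ 2 + a * Th a M D := rfl
  rw [eM, eg] at key ⊢
  rw [eW]
  have hJ1 : 1 / Cn ≤ J := by
    rw [hJ, le_div_iff₀ h0, div_mul_eq_mul_div, one_mul]; exact A0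
  have hςe : ς * Cn ≤ 1 / (300 * Cn ^ 2) / 2 := by
    rw [div_div, le_div_iff₀ (by positivity)]
    have := mul_le_mul_of_nonneg_left hς1 (show 0 ≤ Cn ^ 3 by positivity)
    linarith
  have hKs' : Ks * √a ≤ cg := by
    have k : √a ≤ cg / (Ks + 1) := sqrt_le_iff.2 ⟨by positivity, ha4⟩
    rw [le_div_iff₀ (by positivity)] at k
    linarith
  have F := fin (cg := cg) h0 hJ1 hCn N.P_lo b0 b1 rfl (ex_nonneg hσ le_rfl zero_le_one hh)
    (ey_nonneg hσ le_rfl zero_le_one hh) hE1 (Th_nonneg a M D)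
    (dn_nonneg hP hσ le_rfl (by linarith) hy) (dn_nonneg hP hσ (by linarith) (by linarith) hy)
    r.s_pos.le hςe hZ0 (hZ.trans (by linarith)) el (min_le_left _ _) (min_le_right _ _) hKs'
    core t4 key
  exact F.trans_eq (by ring)

end Pool.Agent.PSz
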