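import Pool.Agent.P.MP_7b7370_an.SDefs

/-! Polar coordinates for measurable integrands, Cauchy-Schwarz. -/

set_option autoImplicit false

namespace Pool.Agent.PSz.Pol

open Real Set MeasureTheory intervalIntegral

lemma symm_eq (p : ℝ × ℝ) : Complex.polarCoord.symm p = pol p.1 p.2 := by
  rw [Complex.polarCoord_symm_apply]
  apply Complex.ext <;> simp [Complex.cos_ofReal_re, Complex.sin_ofReal_re]

lemma continuous_pol : Continuous fun p : ℝ × ℝ => pol p.1 p.2 := by fun_prop

lemma integrable_polar {F : ℂ → ℝ} (hm : Measurable F) (hF : Integrable F) :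
    Integrable (fun p : ℝ × ℝ => F (pol p.1 p.2) * p.1)
      ((volume.restrict (Ioi (0 : ℝ))).prod (volume.restrict (Ioo (-π) π))) := by
  rw [Measure.prod_restrict, ← Measure.volume_eq_prod]
  refine ⟨((hm.comp continuous_pol.measurable).mul measurable_fst).aestronglyMeasurable, ?_⟩
  have h1 := Complex.lintegral_comp_polarCoord_symm (fun z => ‖F z‖ₑ)
  have h2 : ∫⁻ p in Ioi (0 : ℝ) ×ˢ Ioo (-π) π, ‖F (pol p.1 p.2) * p.1‖ₑ = ∫⁻ z, ‖F z‖ₑ := by
    rw [← h1]
    refine setLIntegral_congr_fun (measurableSet_Ioi.prod measurableSet_Ioo) fun p hp => ?_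
    simp only [symm_eq, enorm_mul, smul_eq_mul]
    rw [mul_comm, Real.enorm_eq_ofReal (le_of_lt hp.1)]
  unfold HasFiniteIntegral
  rw [h2]
  exact hF.2

lemma integral_polar {F : ℂ → ℝ} (hm : Measurable F) (hF : Integrable F) :
    ∫ z, F z = ∫ θ in (-π)..π, ∫ r in Ioi (0 : ℝ), F (pol r θ) * r := by
  rw [integral_of_le (by linarith [pi_pos]), integral_Ioc_eq_integral_Ioo,
    ← integral_prod_symm _ (integrable_polar hm hF), Measure.prod_restrict,
    ← Measure.volume_eq_prod, ← Complex.integral_comp_polarCoord_symm]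
  refine setIntegral_congr_fun (measurableSet_Ioi.prod measurableSet_Ioo) fun p _ => ?_
  simp only [symm_eq, smul_eq_mul]
  ring

lemma ii_polar {F : ℂ → ℝ} (hm : Measurable F) (hF : Integrable F) :
    IntervalIntegrable (fun θ => ∫ r in Ioi (0 : ℝ), F (pol r θ) * r) volume (-π) π := by
  rw [intervalIntegrable_iff_integrableOn_Ioo_of_le (by linarith [pi_pos])]
  exact (integrable_polar hm hF).integral_prod_right

lemma inner_ball (F : ℂ → ℝ) {ρ : ℝ} (hρ : 0 ≤ ρ) (θ : ℝ) :
    ∫ r in Ioi (0 : ℝ), (Metric.ball (0 : ℂ) ρ).indicator F (pol r θ) * r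
      = ∫ r in (0 : ℝ)..ρ, F (pol r θ) * r := by
  rw [integral_of_le hρ, integral_Ioc_eq_integral_Ioo]
  have e : Ioo 0 ρ = Ioi 0 ∩ Iio ρ := rfl
  rw [e, ← setIntegral_indicator measurableSet_Iio]
  refine setIntegral_congr_fun measurableSet_Ioi fun r hr => ?_
  have hr' : 0 < r := hr
  by_cases h : r < ρ
  · rw [indicator_of_mem (by simp [norm_pol, abs_of_pos hr', h]), indicator_of_mem (by exact h)]
  · rw [indicator_of_notMem (by simp [norm_pol, abs_of_pos hr']; linarith),
      indicator_of_notMem (by exact h), zero_mul]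

lemma inner_out (F : ℂ → ℝ) {ρ : ℝ} (hρ : 0 < ρ) (θ : ℝ) :
    ∫ r in Ioi (0 : ℝ), (Metric.ball (0 : ℂ) ρ)ᶜ.indicator F (pol r θ) * r
      = ∫ r in Ioi ρ, F (pol r θ) * r := by
  have e : Ici ρ = Ioi 0 ∩ Ici ρ := by
    ext r
    simp only [mem_Ici, mem_inter_iff, mem_Ioi]
    exact ⟨fun h => ⟨by linarith, h⟩, fun h => h.2⟩
  rw [← integral_Ici_eq_integral_Ioi (x := ρ), e, ← setIntegral_indicator measurableSet_Ici]
  refine setIntegral_congr_fun measurableSet_Ioi fun r hr => ?_
  have hr' : 0 < r := hr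
  by_cases h : ρ ≤ r
  · rw [indicator_of_mem (by simp [norm_pol, abs_of_pos hr', h]), indicator_of_mem (by exact h)]
  · rw [indicator_of_notMem (by simp [norm_pol, abs_of_pos hr']; linarith),
      indicator_of_notMem (by exact h), zero_mul]

lemma integral_ball' {F : ℂ → ℝ} (hm : Measurable F) {ρ : ℝ} (hρ : 0 ≤ ρ)
    (hF : IntegrableOn F (Metric.ball 0 ρ)) :
    ∫ z in Metric.ball (0 : ℂ) ρ, F z = ∫ θ in (-π)..π, ∫ r in (0 : ℝ)..ρ, F (pol r θ) * r := by
  rw [← MeasureTheory.integral_indicator measurableSet_ball,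
    integral_polar (hm.indicator measurableSet_ball)
      ((integrable_indicator_iff measurableSet_ball).2 hF)]
  simp only [inner_ball F hρ]

lemma ii_ball {F : ℂ → ℝ} (hm : Measurable F) {ρ : ℝ} (hρ : 0 ≤ ρ)
    (hF : IntegrableOn F (Metric.ball 0 ρ)) :
    IntervalIntegrable (fun θ => ∫ r in (0 : ℝ)..ρ, F (pol r θ) * r) volume (-π) π := by
  have := ii_polar (hm.indicator measurableSet_ball)
    ((integrable_indicator_iff measurableSet_ball).2 hF)
  simpa only [inner_ball F hρ] using this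

lemma integrableOn_ball {E : Type*} [NormedAddCommGroup E] {F : ℂ → E} (hF : Continuous F)
    (x : ℂ) (ρ : ℝ) : IntegrableOn F (Metric.ball x ρ) :=
  (hF.continuousOn.integrableOn_compact (isCompact_closedBall x ρ)).mono_set
    Metric.ball_subset_closedBall

/-- Cauchy-Schwarz -/
lemma cs {α : Type*} [MeasurableSpace α] {μ : Measure α} {f g : α → ℝ}
    (h1 : Integrable (fun x => f x ^ 2) μ) (h2 : Integrable (fun x => g x ^ 2) μ)
    (h3 : Integrable (fun x => f x * g x) μ) :
    (∫ x, f x * g x ∂μ) ^ 2 ≤ (∫ x, f x ^ 2 ∂μ) * ∫ x, g x ^ 2 ∂μ := by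
  have key : ∀ s : ℝ, 0 ≤ (∫ x, f x ^ 2 ∂μ) * (s * s) + 2 * (∫ x, f x * g x ∂μ) * s +
      ∫ x, g x ^ 2 ∂μ := by
    intro s
    have h4 : 0 ≤ ∫ x, (s * f x + g x) ^ 2 ∂μ := integral_nonneg fun x => sq_nonneg _
    have e : (fun x => (s * f x + g x) ^ 2) =
        fun x => (s * s * f x ^ 2 + 2 * s * (f x * g x)) + g x ^ 2 := by
      funext x; ring
    have h5 : Integrable (fun x => s * s * f x ^ 2 + 2 * s * (f x * g x)) μ :=
      (h1.const_mul _).add (h3.const_mul _)
    rw [e, MeasureTheory.integral_add h5 h2,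
      MeasureTheory.integral_add (h1.const_mul _) (h3.const_mul _),
      MeasureTheory.integral_const_mul, MeasureTheory.integral_const_mul] at h4
    linarith
  have := discrim_le_zero key
  unfold discrim at this
  nlinarith

end Pool.Agent.PSz.Pol
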