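import Pool.Agent.P.MP_7b7370_an.Ref2A

set_option autoImplicit false

namespace Pool.Agent.PSz

open Real Set MeasureTheory intervalIntegral

namespace R2

variable {a t ς : ℝ} {h : P2 → ℝ}

lemma T_py_le (h0 : 0 < a) (h1 : a ≤ 1 / 1000) (hh : ContDiff ℝ 1 h) :
    T 0 1 (fun x η => py h (x, x * η) ^ 2) ≤ sg a * D0 a 0 1 h := by
  have hs := sg_pos h0 h1
  unfold D0
  rw [← T_const_mul]
  refine T_mono (by unfold Cont; fun_prop) (by unfold Cont; fun_prop) le_rfl zero_le_one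
    fun x _ η _ => ?_
  rw [mul_add, mul_div_cancel₀ _ hs.ne']
  have : 0 ≤ sg a * (sg a * px h (x, x * η) ^ 2) := by positivity
  linarith

lemma T_grad_le (h0 : 0 < a) (h1 : a ≤ 1 / 1000) (hh : ContDiff ℝ 1 h) :
    sg a * T 0 1 (fun x η => px h (x, x * η) ^ 2 + py h (x, x * η) ^ 2) ≤ D0 a 0 1 h := by
  have hs := sg_pos h0 h1
  have hs1 := sg_le h0 h1
  unfold D0
  rw [← T_const_mul]
  refine T_mono (by unfold Cont; fun_prop) (by unfold Cont; fun_prop) le_rfl zero_le_one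
    fun x _ η _ => ?_
  have : sg a * py h (x, x * η) ^ 2 ≤ py h (x, x * η) ^ 2 / sg a := by
    rw [le_div_iff₀ hs]
    have : sg a * sg a ≤ 1 := by nlinarith
    nlinarith [sq_nonneg (py h (x, x * η))]
  linarith

/-- a function of `x` times a function on the triangle -/
lemma T_mul_radial {Γ : ℝ → ℝ → ℝ} (hΓ : Cont Γ) {f g : ℝ → ℝ} (hf : Continuous f)
    (hg : ∀ x, g x = (1 / 2) * ∫ η in (-1 : ℝ)..1, Γ x η) :
    T 0 1 (fun x η => Γ x η * f x) = T 0 1 fun x _ => g x * f x := by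
  rw [T_swap (hΓ.mul (hf.comp continuous_fst)), T_radial, ← intervalIntegral.integral_const_mul]
  congr 1
  funext x
  rw [intervalIntegral.integral_mul_const, hg]
  ring

lemma poinc (r : Ref a t ς h) :
    6 * T 0 1 (fun x _ => avg h x ^ 2) ≤ T 0 1 (fun x _ => davg h x ^ 2) := by
  have hh := r.smooth
  have c1 := hh.continuous
  have hm := T_mul_radial (Γ := fun x η => h (x, x * η)) (by unfold Cont; fun_prop)
    (f := fun _ => 1) (g := avg h) continuous_const fun _ => rfl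
  simp only [mul_one] at hm
  rw [r.mean, T_radial] at hm
  have := poincare0 one_pos le_rfl (hasDerivAt_avg hh) (continuous_davg hh) (by linarith)
  rw [T_radial, T_radial]
  linarith

lemma davg_bound (r : Ref a t ς h) :
    sg a * T 0 1 (fun x _ => davg h x ^ 2) ≤ 3600 * (ς ^ 2 + sg a ^ 2 * D0 a 0 1 h) := by
  have hh := r.smooth
  have c1 := hh.continuous
  have c2 := contDiff_avg hh
  have c3 := c2.continuous
  have c4 := continuous_davg hh
  have hs := sg_pos r.a_pos r.a_le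
  have hz : ContDiff ℝ 1 fun p : P2 => avg h p.1 - avg h 1 := by fun_prop
  have zx : ∀ x y, px (fun p : P2 => avg h p.1 - avg h 1) (x, y) = davg h x := fun x y =>
    px_eq hz ((hasDerivAt_avg hh x).sub_const _)
  have zy : ∀ x y, py (fun p : P2 => avg h p.1 - avg h 1) (x, y) = 0 := fun x y =>
    py_eq hz (hasDerivAt_const y (avg h x - avg h 1))
  have key := r.el _ hz fun y _ => sub_self _
  have e1 : D0 a 0 1 (fun p : P2 => avg h p.1 - avg h 1) =
      sg a * T 0 1 (fun x _ => davg h x ^ 2) := by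
    unfold D0
    rw [← T_const_mul]
    congr 1
    funext x η
    rw [zx, zy]
    ring
  have e2 : Bd a h (fun p : P2 => avg h p.1 - avg h 1) = sg a * T 0 1 (fun x _ => davg h x ^ 2)
      - sg a * T 0 1 fun x η => (η * py h (x, x * η)) * davg h x := by
    have := T_mul_radial (Γ := fun x η => px h (x, x * η) + η * py h (x, x * η))
      (by unfold Cont; fun_prop) c4 (g := davg h) fun _ => rfl
    simp only [← sq] at this
    rw [← this, ← mul_sub, ← T_sub (by unfold Cont; fun_prop) (by unfold Cont; fun_prop),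
      ← T_const_mul]
    unfold Bd
    congr 1
    funext x η
    rw [zx, zy]
    ring
  have e3 : T 0 1 (fun x η => h (x, x * η) * (avg h x - avg h 1)) =
      T 0 1 fun x _ => avg h x ^ 2 := by
    have := T_mul_radial (Γ := fun x η => h (x, x * η)) (by unfold Cont; fun_prop) c3
      (g := avg h) fun _ => rfl
    simp only [← sq] at this
    have e := T_sub (x0 := 0) (x1 := 1) (Γ := fun x η => h (x, x * η) * avg h x)
      (Γ' := fun x η => avg h 1 * h (x, x * η)) (by unfold Cont; fun_prop)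
      (by unfold Cont; fun_prop)
    rw [T_const_mul, r.mean, mul_zero, sub_zero] at e
    rw [← this, ← e]
    congr 1
    funext x η
    ring
  rw [B0_eq a t hh hz, e1, e2, e3] at key
  have k1 := poinc r
  have k2 : T 0 1 (fun x η => (η * py h (x, x * η)) * davg h x) ≤
      15 * (sg a * D0 a 0 1 h) + (1 / 60) * T 0 1 (fun x _ => davg h x ^ 2) := by
    refine le_trans ?_ (add_le_add_left
      (mul_le_mul_of_nonneg_left (T_py_le r.a_pos r.a_le hh) (by norm_num)) _)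
    rw [← T_const_mul, ← T_const_mul,
      ← T_add (by unfold Cont; fun_prop) (by unfold Cont; fun_prop)]
    refine T_mono (by unfold Cont; fun_prop) (by unfold Cont; fun_prop) le_rfl zero_le_one
      fun x _ η hη => ?_
    have : η ^ 2 ≤ 1 := by nlinarith [hη.1, hη.2]
    nlinarith [sq_nonneg (30 * (η * py h (x, x * η)) - davg h x),
      mul_le_mul_of_nonneg_right this (sq_nonneg (py h (x, x * η)))]
  have k3 : 0 ≤ T 0 1 (fun x _ => avg h x ^ 2) :=
    T_nonneg (by unfold Cont; fun_prop) le_rfl zero_le_one fun _ _ _ _ => sq_nonneg _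
  have k4 : t * a ≤ 5.8 * sg a := by
    have := mul_le_mul_of_nonneg_right r.tX hs.le
    rwa [mul_assoc, X2_mul_sg r.a_pos r.a_le] at this
  generalize T 0 1 (fun x _ => davg h x ^ 2) = μ at *
  generalize T 0 1 (fun x _ => avg h x ^ 2) = m at *
  have k5 := sq_sqrt (show 0 ≤ sg a * μ by apply mul_nonneg hs.le; linarith)
  have k6 := (abs_le.1 key).2
  have k7 := mul_le_mul_of_nonneg_left k1 hs.le
  have k8 := mul_le_mul_of_nonneg_left k2 hs.le
  have k9 := mul_le_mul_of_nonneg_right k4 k3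
  nlinarith [sq_nonneg (60 * ς - √(sg a * μ)), sq_nonneg ς,
    mul_nonneg (sq_nonneg (sg a)) (D0_nonneg hs zero_le_one hh)]

lemma T_sq_nonneg (hh : ContDiff ℝ 1 h) : 0 ≤ T 0 1 fun x η => h (x, x * η) ^ 2 := by
  have := hh.continuous
  exact T_nonneg (by unfold Cont; fun_prop) le_rfl zero_le_one fun _ _ _ _ => sq_nonneg _

lemma mass_bound (r : Ref a t ς h) :
    M0 a 0 1 h ≤ 1200 * ς ^ 2 + 1208 * (sg a ^ 2 * D0 a 0 1 h) := by
  have hh := r.smooth
  have c1 := hh.continuous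
  have c3 := (contDiff_avg hh).continuous
  have hs := sg_pos r.a_pos r.a_le
  obtain ⟨Γ, g1, g2, g3⟩ := exists_dev hh
  have k1 : T 0 1 (fun x η => h (x, x * η) ^ 2) ≤
      2 * T 0 1 (fun x _ => avg h x ^ 2) + 2 * T 0 1 fun x η => Γ x η ^ 2 := by
    rw [← T_const_mul, ← T_const_mul,
      ← T_add (by unfold Cont; fun_prop) (continuous_const.mul (g1.pow 2))]
    refine T_mono (by unfold Cont; fun_prop)
      (Continuous.add (by fun_prop) (continuous_const.mul (g1.pow 2))) le_rfl zero_le_one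
      fun x hx η _ => ?_
    have e : h (x, x * η) = avg h x + x * Γ x η := by linarith [g2 x η]
    have : x ^ 2 ≤ 1 := by nlinarith [hx.1, hx.2]
    rw [e]
    nlinarith [sq_nonneg (avg h x - x * Γ x η),
      mul_le_mul_of_nonneg_right this (sq_nonneg (Γ x η))]
  have k2 := g3 1 zero_le_one
  have k3 := T_py_le r.a_pos r.a_le hh
  have k4 := mul_le_mul_of_nonneg_left (poinc r) hs.le
  have k5 := davg_bound r
  have k6 := mul_le_mul_of_nonneg_right (sg_ge r.a_pos r.a_le) (T_sq_nonneg hh)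
  have k7 : T 0 1 (fun x η => h (x, x * η) ^ 2) ≤
      2 * T 0 1 (fun x _ => avg h x ^ 2) + 8 * (sg a * D0 a 0 1 h) := by linarith
  have k8 := mul_le_mul_of_nonneg_left k7 hs.le
  unfold M0
  nlinarith

lemma F_small (r : Ref a t ς h) : |F0 t 1| ≤ 1 / 1000 :=
  r.F_one.trans (by nlinarith [r.a_pos, r.a_le])

lemma Fz_nonneg (r : Ref a t ς h) : 0 ≤ Fz a t := by
  refine intervalIntegral.integral_nonneg (by norm_num) fun η hη => ?_
  have h1 := abs_q0_sub_one r.a_pos r.a_le (abs_le.2 hη)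
  have h2 := (ft_bounds r.t_lo r.t_hi (F_small r) (q := q0 a η)
    (h1.trans (by nlinarith [r.a_pos, r.a_le]))).1
  exact div_nonneg (le_trans (by positivity) h2) (q0_pos r.a_pos r.a_le η).le

lemma s_sq (r : Ref a t ς h) : ς ^ 2 ≤ a ^ 6 := by
  calc ς ^ 2 ≤ (a ^ 3) ^ 2 := pow_le_pow_left₀ r.s_pos.le r.s_le 2
    _ = _ := by ring

lemma sg_sq (h0 : 0 < a) (h1 : a ≤ 1 / 1000) : sg a ^ 2 ≤ 2 * a ^ 2 := by
  have := sg_pos h0 h1
  have := sg_le h0 h1
  nlinarith

lemma M0_nonneg (r : Ref a t ς h) : 0 ≤ M0 a 0 1 h :=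
  mul_nonneg r.a_pos.le (T_sq_nonneg r.smooth)

lemma en_bound (r : Ref a t ς h) : D0 a 0 1 h ≤ 300000 * a ^ 4 := by
  have h0 := r.a_pos
  have h1 := r.a_le
  have hE := D0_nonneg (sg_pos h0 h1) zero_le_one r.smooth
  have k1 := mass_bound r
  have k2 := r.val_hi
  have k3 := mul_nonneg h0.le (Fz_nonneg r)
  have k4 := mul_le_mul_of_nonneg_left r.G_le h0.le
  have k5 := mul_le_mul_of_nonneg_right r.t_hi (M0_nonneg r)
  have k6 : sg a ^ 2 ≤ 1 / 100000 := (sg_sq h0 h1).trans (by nlinarith)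
  have k7 := mul_le_mul_of_nonneg_right k6 hE
  have k8 : a ^ 6 ≤ a ^ 4 := pow_le_pow_of_le_one h0.le (by linarith) (by norm_num)
  have k9 := s_sq r
  have : a * (10 ^ 5 * a ^ 3) = 100000 * a ^ 4 := by ring
  have : 0 ≤ a ^ 4 := by positivity
  nlinarith

lemma sE_bound (r : Ref a t ς h) : sg a ^ 2 * D0 a 0 1 h ≤ 600000 * a ^ 6 := by
  calc _ ≤ (2 * a ^ 2) * (300000 * a ^ 4) := mul_le_mul (sg_sq r.a_pos r.a_le) (en_bound r)
        (D0_nonneg (sg_pos r.a_pos r.a_le) zero_le_one r.smooth) (by positivity)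
    _ = _ := by ring

lemma M0_bound (r : Ref a t ς h) : M0 a 0 1 h ≤ 10 ^ 9 * a ^ 6 := by
  have := mass_bound r
  have := sE_bound r
  have := s_sq r
  have : 0 ≤ a ^ 6 := by positivity
  linarith

lemma davg_bound' (r : Ref a t ς h) : T 0 1 (fun x _ => davg h x ^ 2) ≤ 10 ^ 10 * a ^ 5 := by
  have h0 := r.a_pos
  have k1 := davg_bound r
  have k2 := sE_bound r
  have k3 := s_sq r
  have c4 := continuous_davg r.smooth
  have k4 : 0 ≤ T 0 1 (fun x _ => davg h x ^ 2) :=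
    T_nonneg (by unfold Cont; fun_prop) le_rfl zero_le_one fun _ _ _ _ => sq_nonneg _
  have k5 := mul_le_mul_of_nonneg_right (sg_ge h0 r.a_le) k4
  refine le_of_mul_le_mul_left ?_ h0
  have : a * (10 ^ 10 * a ^ 5) = 10 ^ 10 * a ^ 6 := by ring
  have : 0 ≤ a ^ 6 := by positivity
  linarith

lemma en_lower (r : Ref a t ς h) : 1 / 100000 * a ^ 4 ≤ D0 a 0 1 h := by
  have h0 := r.a_pos
  have h1 := r.a_le
  have hh := r.smooth
  have c1 := hh.continuous
  have t1 := r.t_lo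
  have t2 := r.t_hi
  have x1 := X2_le h0 h1
  have x2 : 0 ≤ X2 a := by nlinarith [X2_ge h0 h1]
  have o1 := om_ge h0 h1
  have o2 : om a ≤ 1 / 100000 := by nlinarith [om_le h0 h1]
  have o3 : 0 ≤ om a := le_trans (by positivity) o1
  have k1 : ∫ η in (-1 : ℝ)..1, h (1, η) * (η ^ 2 - 1 / 3) ≤ ∫ η in (-1 : ℝ)..1,
      (F1 t (X2 a) * om a * η ^ 4 + (F0 t (X2 a) - F1 t (X2 a) * om a / 3) * η ^ 2
        + (12.5 * om a ^ 2 - F0 t (X2 a) / 3)) := by
    refine integral_mono_on (by norm_num) (Continuous.intervalIntegrable (by fun_prop) _ _)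
      (Continuous.intervalIntegrable (by fun_prop) _ _) fun η hη => ?_
    have e1 : η ^ 2 ≤ 1 := by nlinarith [hη.1, hη.2]
    have e2 : om a * η ^ 2 ≤ om a := mul_le_of_le_one_right o3 e1
    have e3 : 0 ≤ om a * η ^ 2 := by positivity
    have e4 := taylor_abs (a := 0) (b := 1.3) (C := 25) (x := X2 a) (y := q0 a η)
      (fun z _ => hasDerivAt_F0 t z) (fun z _ => hasDerivAt_F1 t z)
      (fun z hz => abs_F2_le (by linarith) (by linarith) (abs_le.2 ⟨by linarith [hz.1], hz.2⟩))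
      ⟨x2, by linarith⟩ ⟨by unfold q0; linarith, by unfold q0; linarith⟩
    rw [r.bdry η (abs_le.2 hη)]
    have e5 : q0 a η - X2 a = om a * η ^ 2 := by unfold q0; ring
    rw [e5] at e4
    have e6 : (om a * η ^ 2) ^ 2 ≤ om a ^ 2 := pow_le_pow_left₀ e3 e2 2
    have e7 : |η ^ 2 - 1 / 3| ≤ 1 := abs_le.2 ⟨by linarith [sq_nonneg η], by linarith⟩
    have e8 : |(F0 t (q0 a η) - F0 t (X2 a) - F1 t (X2 a) * (om a * η ^ 2)) * (η ^ 2 - 1 / 3)|
        ≤ (12.5 * om a ^ 2) * 1 := by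
      rw [abs_mul]
      exact mul_le_mul (by linarith) e7 (abs_nonneg _) (by positivity)
    have e9 := (abs_le.1 e8).2
    linarith
  rw [integral_add (Continuous.intervalIntegrable (by fun_prop) _ _)
    (Continuous.intervalIntegrable (by fun_prop) _ _),
    integral_add (Continuous.intervalIntegrable (by fun_prop) _ _)
    (Continuous.intervalIntegrable (by fun_prop) _ _), intervalIntegral.integral_const_mul,
    intervalIntegral.integral_const_mul, integral_pow, integral_pow,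
    intervalIntegral.integral_const] at k1
  norm_num at k1
  have k2 := lower_energy h0 h1 hh
  have k3 := mul_le_mul_of_nonneg_right (F1_le t1 t2 x2 (by linarith)) o3
  have k4 : om a ^ 2 ≤ 1 / 100000 * om a := by nlinarith
  have k5 : ∫ η in (-1 : ℝ)..1, h (1, η) * (η ^ 2 - 1 / 3) ≤ -(0.07 * a ^ 2) := by linarith
  have k6 : (0.07 * a ^ 2) ^ 2 ≤ (∫ η in (-1 : ℝ)..1, h (1, η) * (η ^ 2 - 1 / 3)) ^ 2 := by
    rw [← neg_sq (∫ η in (-1 : ℝ)..1, h (1, η) * (η ^ 2 - 1 / 3))]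
    exact pow_le_pow_left₀ (by positivity) (by linarith) 2
  have : 0 ≤ a ^ 4 := by positivity
  nlinarith

lemma pt_ineq {c l : ℝ} (b1 : c ^ 2 ≤ 1) (l0 : 0 ≤ l) (l1 : l ≤ 9 / 8) (u v : ℝ) :
    l ^ 2 * ((u + v) * (c * (c * u))) - v * (c * (c * u)) ≤
      2 * (c ^ 2 * u ^ 2) + 3 * (l - 1) ^ 2 * v ^ 2 := by
  have b2 : l ^ 2 ≤ 3 / 2 := by nlinarith
  have b3 : (l + 1) ^ 2 ≤ 6 := by nlinarith
  have b4 : (l + 1) ^ 2 * c ^ 2 ≤ 6 * 1 := mul_le_mul b3 b1 (sq_nonneg _) (by norm_num)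
  nlinarith [mul_le_mul_of_nonneg_right b2 (sq_nonneg (c * u)),
    mul_le_mul_of_nonneg_right b4 (sq_nonneg ((l - 1) * v)),
    sq_nonneg (c * u - (l + 1) * c * ((l - 1) * v))]

lemma M0_bound' (r : Ref a t ς h) : M0 a 0 1 h ≤ 1000 * a ^ 4 := by
  have h0 := r.a_pos
  have := M0_bound r
  have e : a ^ 6 = a ^ 2 * a ^ 4 := by ring
  have : a ^ 2 ≤ 1 / 10 ^ 6 := by nlinarith [r.a_le]
  have := mul_le_mul_of_nonneg_right this (by positivity : 0 ≤ a ^ 4)
  linarith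

lemma l_ineq {ε l : ℝ} (hε : 0 < ε) (hε1 : ε ≤ 1 / 2) (hl : l - 1 ≤ ε / 4) (l0 : 0 < l) :
    l * (1 - ε / 2) ≤ 1 ∧ 1 - ε / 2 < l⁻¹ * 1 := by
  have : l * (1 - ε / 2) < 1 := by
    nlinarith [mul_le_mul_of_nonneg_right hl (show 0 ≤ 1 - ε / 2 by linarith)]
  refine ⟨this.le, ?_⟩
  rwa [lt_inv_mul_iff₀ l0]

end R2

/-- paper 12.1, 12.2 -/
theorem ref_sizes : ∃ c C : ℝ, 0 < c ∧ 1 ≤ C ∧ ∀ a t ς h, Ref a t ς h →
    c * a ^ 4 ≤ D0 a 0 1 h ∧ D0 a 0 1 h ≤ C * a ^ 4 ∧ M0 a 0 1 h ≤ C * a ^ 6 ∧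
    T 0 1 (fun x _ => davg h x ^ 2) ≤ C * a ^ 5 ∧ T 0 1 (fun x _ => avg h x ^ 2) ≤ C * a ^ 5 := by
  refine ⟨1 / 100000, 10 ^ 10, by norm_num, by norm_num, fun a t ς h r => ?_⟩
  have h0 := r.a_pos
  have h4 : 0 ≤ a ^ 4 := by positivity
  have h5 : 0 ≤ a ^ 5 := by positivity
  have h6 : 0 ≤ a ^ 6 := by positivity
  exact ⟨R2.en_lower r, by linarith [R2.en_bound r], by linarith [R2.M0_bound r],
    R2.davg_bound' r, by linarith [R2.poinc r, R2.davg_bound' r]⟩

/-- paper 12.3 -/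
theorem ref_inner {ε : ℝ} (hε : 0 < ε) (hε1 : ε < 1) : ∃ C : ℝ, 1 ≤ C ∧ ∀ a t ς h, Ref a t ς h →
    D0 a 0 (1 - ε) h ≤ C * a ^ 6 := by
  obtain ⟨L, χ, χ', hc⟩ := R2.exists_cut hε
  have hL := hc.L0
  refine ⟨10 ^ 11 * (1 + L), by nlinarith, fun a t ς h r => ?_⟩
  have h0 := r.a_pos
  have hh := r.smooth
  have c1 := hh.continuous
  have c2 := hc.sm
  have c3 := c2.continuous
  have c4 := hc.co
  have hs := sg_pos h0 r.a_le
  have hz : ContDiff ℝ 1 fun p : P2 => χ p.1 * (χ p.1 * h p) := by fun_prop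
  have key := (abs_le.1 (r.el _ hz fun y _ => by
    simp only [(hc.zero 1 (by linarith)).1, zero_mul])).2
  rw [R2.B0_eq a t hh hz] at key
  have k1 : T 0 1 (fun x η => h (x, x * η) * (χ x * (χ x * h (x, x * η)))) ≤
      T 0 1 fun x η => h (x, x * η) ^ 2 :=
    T_mono (by unfold Cont; fun_prop) (by unfold Cont; fun_prop) le_rfl zero_le_one
      fun x _ η _ => by
        nlinarith [mul_le_mul_of_nonneg_right (hc.sq x) (sq_nonneg (h (x, x * η)))]
  have k2 : T 0 1 (fun x η => χ' x ^ 2 * h (x, x * η) ^ 2) ≤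
      L * T 0 1 fun x η => h (x, x * η) ^ 2 := by
    rw [← T_const_mul]
    exact T_mono (by unfold Cont; fun_prop) (by unfold Cont; fun_prop) le_rfl zero_le_one
      fun x hx η _ => mul_le_mul_of_nonneg_right (hc.bd x (Ioo_subset_Icc_self hx)) (sq_nonneg _)
  have ht : 0 ≤ t := by linarith [r.t_lo]
  have k3 := R2.cacc hc hε hε1 hs hh (R := t * M0 a 0 1 h) (σ := ς) (by
    have := mul_le_mul_of_nonneg_left k1 (mul_nonneg ht h0.le)
    unfold M0
    linarith)
  have k4 := R2.M0_bound r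
  have k5 := mul_le_mul_of_nonneg_right r.t_hi (R2.M0_nonneg r)
  have k6 : sg a * T 0 1 (fun x η => χ' x ^ 2 * h (x, x * η) ^ 2) ≤ 2 * L * M0 a 0 1 h := by
    calc _ ≤ sg a * (L * T 0 1 fun x η => h (x, x * η) ^ 2) := by gcongr
      _ ≤ (2 * a) * (L * T 0 1 fun x η => h (x, x * η) ^ 2) :=
        mul_le_mul_of_nonneg_right (by linarith [sg_le h0 r.a_le])
          (mul_nonneg hL (R2.T_sq_nonneg hh))
      _ = _ := by unfold M0; ring
  have k7 := mul_le_mul_of_nonneg_left k4 hL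
  have k8 := R2.s_sq r
  have h6 : 0 ≤ a ^ 6 := by positivity
  linarith [mul_nonneg hL h6]

/-- paper 12.4 -/
theorem ref_dil {ε : ℝ} (hε : 0 < ε) (hε1 : ε ≤ 1 / 2) : ∃ C : ℝ, 1 ≤ C ∧ ∀ a t ς h,
    Ref a t ς h → ∀ l : ℝ, |l - 1| ≤ ε / 4 →
    D0 a 0 (1 - ε) (fun p => h (l • p) - h p) ≤ C * ((l - 1) ^ 2 * a ^ 4 + ς ^ 2) := by
  obtain ⟨L, χ, χ', hc⟩ := R2.exists_cut hε
  have hL := hc.L0
  refine ⟨10 ^ 11 * (1 + L), by nlinarith, fun a t ς h r l hl => ?_⟩
  obtain ⟨l1, l2⟩ := abs_le.1 hl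
  have l0 : 0 < l := by linarith
  obtain ⟨l3, l4⟩ := R2.l_ineq hε hε1 l2 l0
  have h0 := r.a_pos
  have hh := r.smooth
  have c1 := hh.continuous
  have c2 := hc.sm
  have c3 := c2.continuous
  have c4 := hc.co
  have hs := sg_pos h0 r.a_le
  have hl' : ContDiff ℝ 1 fun p : P2 => h (l • p) := by fun_prop
  obtain ⟨d, hd0⟩ : ∃ d : P2 → ℝ, d = fun p => h (l • p) - h p := ⟨_, rfl⟩
  rw [← hd0]
  have hd : ContDiff ℝ 1 d := by rw [hd0]; fun_prop
  have c5 := hd.continuous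
  have hw : ContDiff ℝ 1 fun p : P2 => χ p.1 * d p := by fun_prop
  obtain ⟨z, hz0⟩ : ∃ z : P2 → ℝ, z = fun p => χ p.1 * (χ p.1 * d p) := ⟨_, rfl⟩
  have hz : ContDiff ℝ 1 z := by rw [hz0]; fun_prop
  have hz' : ContDiff ℝ 1 fun p : P2 => z (l⁻¹ • p) := by fun_prop
  have hv : ∀ x, 1 - ε / 2 < x → ∀ y, z (x, y) = 0 ∧ px z (x, y) = 0 ∧ py z (x, y) = 0 := by
    intro x hx y
    rw [hz0, R2.px_mul c2 hc.der hw, R2.py_mul c2 hw]
    simp [(hc.zero x hx).1]
  obtain ⟨e1, e2, e3⟩ := R2.dil_pair a hh hz l0 (by linarith) (by linarith) l3 hv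
  have key1 := (abs_le.1 (r.el z hz fun y _ => (hv 1 (by linarith) y).1)).1
  have key2 := (abs_le.1 (r.el _ hz' fun y _ => (hv (l⁻¹ * 1) l4 (l⁻¹ * y)).1)).2
  rw [R2.B0_eq a t hh hz] at key1
  rw [R2.B0_eq a t hh hz', e1, e2, e3] at key2
  have e4 : R2.Bd a d z = R2.Bd a (fun p => h (l • p)) z - R2.Bd a h z := by
    rw [hd0]
    exact R2.Bd_sub a hl' hh hz
  obtain ⟨Γ, g1, g2, g3⟩ := exists_dil hh (l := l) (by linarith) (by linarith)
  have g4 : ∀ x η, d (x, x * η) = x * Γ x η := fun x η => by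
    rw [hd0, ← g2]
    simp only [Prod.smul_mk, smul_eq_mul]
  have hN : ∀ f : ℝ → ℝ, Continuous f → ∀ K, 0 ≤ K → (∀ x ∈ Icc (0 : ℝ) 1, f x ^ 2 ≤ K) →
      (∀ x, 1 - ε / 2 < x → f x = 0) →
      sg a * T 0 1 (fun x η => f x ^ 2 * d (x, x * η) ^ 2) ≤
        K * (2400000 * ((l - 1) ^ 2 * a ^ 4)) := by
    intro f hf K hK hb hz
    have n1 : T 0 1 (fun x η => f x ^ 2 * d (x, x * η) ^ 2) ≤
        K * T 0 (1 - ε / 2) fun x η => Γ x η ^ 2 := by
      rw [R2.T_vanish (x1 := 1 - ε / 2) (by unfold Cont; fun_prop) (by linarith) (by linarith)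
        fun x hx η => by simp [hz x hx], ← T_const_mul]
      refine T_mono (by unfold Cont; fun_prop) (continuous_const.mul (g1.pow 2)) le_rfl
        (by linarith) fun x hx η _ => ?_
      have : x ^ 2 ≤ 1 := pow_le_one₀ hx.1.le (by linarith [hx.2])
      rw [g4, mul_pow]
      exact mul_le_mul (hb x ⟨hx.1.le, by linarith [hx.2]⟩)
        (mul_le_of_le_one_left (sq_nonneg _) this) (by positivity) hK
    have n2 := g3 (1 - ε / 2) 1 (by linarith) (by linarith) l3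
    have n3 := (R2.T_grad_le h0 r.a_le hh).trans (R2.en_bound r)
    calc _ ≤ sg a * (K * (8 * (l - 1) ^ 2 * T 0 1 fun x η =>
          px h (x, x * η) ^ 2 + py h (x, x * η) ^ 2)) := by
          gcongr
          exact n1.trans (mul_le_mul_of_nonneg_left n2 hK)
      _ = K * (8 * (l - 1) ^ 2 * (sg a * T 0 1 fun x η =>
          px h (x, x * η) ^ 2 + py h (x, x * η) ^ 2)) := by ring
      _ ≤ K * (8 * (l - 1) ^ 2 * (300000 * a ^ 4)) := by gcongr
      _ = _ := by ring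
  have n1 := hN χ c3 1 zero_le_one (fun x _ => hc.sq x) fun x hx => (hc.zero x hx).1
  have n2 := hN χ' c4 L hL hc.bd fun x hx => (hc.zero x hx).2
  have c6 := hz.continuous
  have k1 : l ^ 2 * T 0 1 (fun x η => h (l • (x, x * η)) * z (x, x * η)) -
      T 0 1 (fun x η => h (x, x * η) * z (x, x * η)) ≤
      2 * T 0 1 (fun x η => χ x ^ 2 * d (x, x * η) ^ 2) +
        3 * (l - 1) ^ 2 * T 0 1 fun x η => h (x, x * η) ^ 2 := by
    rw [← T_const_mul, ← T_const_mul, ← T_const_mul,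
      ← T_sub (by unfold Cont; fun_prop) (by unfold Cont; fun_prop),
      ← T_add (by unfold Cont; fun_prop) (by unfold Cont; fun_prop)]
    refine T_mono (by unfold Cont; fun_prop) (by unfold Cont; fun_prop) le_rfl zero_le_one
      fun x _ η _ => ?_
    have e : h (l • (x, x * η)) = d (x, x * η) + h (x, x * η) := by rw [hd0]; ring
    rw [e, hz0]
    exact R2.pt_ineq (hc.sq x) l0.le (by linarith) _ _
  have ht : 0 ≤ t := by linarith [r.t_lo]
  have k2 : 0 ≤ T 0 1 (fun x η => χ x ^ 2 * d (x, x * η) ^ 2) :=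
    T_nonneg (by unfold Cont; fun_prop) le_rfl zero_le_one fun _ _ _ _ => by positivity
  have k3 := mul_le_mul_of_nonneg_right (sg_ge h0 r.a_le) k2
  have k4 := R2.M0_bound' r
  have k5 := mul_le_mul_of_nonneg_left k4 (sq_nonneg (l - 1))
  have hP : 0 ≤ (l - 1) ^ 2 * a ^ 4 := by positivity
  have k6 : a * (l ^ 2 * T 0 1 (fun x η => h (l • (x, x * η)) * z (x, x * η)) -
      T 0 1 (fun x η => h (x, x * η) * z (x, x * η))) ≤ 5000000 * ((l - 1) ^ 2 * a ^ 4) := by
    have := mul_le_mul_of_nonneg_left k1 h0.le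
    unfold M0 at k5
    linarith
  have k7 := (mul_le_mul_of_nonneg_left k6 ht).trans
    (mul_le_mul_of_nonneg_right r.t_hi (by positivity))
  have k8 := R2.cacc hc hε (by linarith) hs hd (R := 5.8 * (5000000 * ((l - 1) ^ 2 * a ^ 4)))
    (σ := 2 * ς) (by rw [← hz0]; linarith)
  linarith [mul_nonneg hL hP, mul_nonneg hL (sq_nonneg ς), sq_nonneg ς]

end Pool.Agent.PSz
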