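import Pool.Agent.P.MP_7b7370_an.Tri0

set_option autoImplicit false

namespace Pool.Agent.PSz

open Real Set MeasureTheory intervalIntegral

namespace R2

/-- the bilinear form of `D0` -/
noncomputable def Bd (a : ℝ) (w z : P2 → ℝ) : ℝ :=
  T 0 1 fun x η => sg a * (px w (x, x * η) * px z (x, x * η))
    + py w (x, x * η) * py z (x, x * η) / sg a

lemma B0_eq (a t : ℝ) {w z : P2 → ℝ} (hw : ContDiff ℝ 1 w) (hz : ContDiff ℝ 1 z) :
    B0 a t w z = Bd a w z - t * a * T 0 1 fun x η => w (x, x * η) * z (x, x * η) := by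
  have := hw.continuous
  have := hz.continuous
  unfold B0 Bd
  rw [T_sub (by unfold Cont; fun_prop) (by unfold Cont; fun_prop), T_const_mul]

lemma px_mul {χ χ' : ℝ → ℝ} (hχ : ContDiff ℝ 1 χ) (hd : ∀ x, HasDerivAt χ (χ' x) x)
    {f : P2 → ℝ} (hf : ContDiff ℝ 1 f) (x y : ℝ) :
    px (fun p => χ p.1 * f p) (x, y) = χ' x * f (x, y) + χ x * px f (x, y) :=
  px_eq (by fun_prop) ((hd x).mul (hasDerivAt_px hf x y))

lemma py_mul {χ : ℝ → ℝ} (hχ : ContDiff ℝ 1 χ) {f : P2 → ℝ} (hf : ContDiff ℝ 1 f) (x y : ℝ) :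
    py (fun p => χ p.1 * f p) (x, y) = χ x * py f (x, y) :=
  py_eq (by fun_prop) ((hasDerivAt_py hf x y).const_mul (χ x))

lemma px_smul {h : P2 → ℝ} (hh : ContDiff ℝ 1 h) (l x y : ℝ) :
    px (fun p => h (l • p)) (x, y) = l * px h (l * x, l * y) := by
  refine px_eq (by fun_prop) ?_
  simpa using hasDerivAt_curve hh ((hasDerivAt_id x).const_mul l) (hasDerivAt_const x (l * y))

lemma py_smul {h : P2 → ℝ} (hh : ContDiff ℝ 1 h) (l x y : ℝ) :
    py (fun p => h (l • p)) (x, y) = l * py h (l * x, l * y) := by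
  refine py_eq (by fun_prop) ?_
  simpa using hasDerivAt_curve hh (hasDerivAt_const y (l * x)) ((hasDerivAt_id y).const_mul l)

lemma px_sub {f g : P2 → ℝ} (hf : ContDiff ℝ 1 f) (hg : ContDiff ℝ 1 g) (x y : ℝ) :
    px (fun p => f p - g p) (x, y) = px f (x, y) - px g (x, y) :=
  px_eq (by fun_prop) ((hasDerivAt_px hf x y).sub (hasDerivAt_px hg x y))

lemma py_sub {f g : P2 → ℝ} (hf : ContDiff ℝ 1 f) (hg : ContDiff ℝ 1 g) (x y : ℝ) :
    py (fun p => f p - g p) (x, y) = py f (x, y) - py g (x, y) :=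
  py_eq (by fun_prop) ((hasDerivAt_py hf x y).sub (hasDerivAt_py hg x y))

lemma Bd_sub (a : ℝ) {f g z : P2 → ℝ} (hf : ContDiff ℝ 1 f) (hg : ContDiff ℝ 1 g)
    (hz : ContDiff ℝ 1 z) : Bd a (fun p => f p - g p) z = Bd a f z - Bd a g z := by
  unfold Bd
  rw [← T_sub (by unfold Cont; fun_prop) (by unfold Cont; fun_prop)]
  congr 1
  funext x η
  rw [px_sub hf hg, py_sub hf hg]
  ring

lemma D0_nonneg {a x1 : ℝ} (hs : 0 < sg a) (hx : 0 ≤ x1) {w : P2 → ℝ} (hw : ContDiff ℝ 1 w) :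
    0 ≤ D0 a 0 x1 w :=
  T_nonneg (by unfold Cont; fun_prop) le_rfl hx fun _ _ _ _ => by positivity

/-- a cutoff function -/
structure Cut (ε L : ℝ) (χ χ' : ℝ → ℝ) : Prop where
  sm : ContDiff ℝ 1 χ
  der : ∀ x, HasDerivAt χ (χ' x) x
  co : Continuous χ'
  sq : ∀ x, χ x ^ 2 ≤ 1
  one : ∀ x < 1 - ε, χ x = 1 ∧ χ' x = 0
  zero : ∀ x, 1 - ε / 2 < x → χ x = 0 ∧ χ' x = 0
  bd : ∀ x ∈ Icc (0 : ℝ) 1, χ' x ^ 2 ≤ L
  L0 : 0 ≤ L

lemma exists_cut {ε : ℝ} (hε : 0 < ε) : ∃ L χ χ', Cut ε L χ χ' := by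
  set χ : ℝ → ℝ := fun x => smoothTransition ((1 - ε / 2 - x) / (ε / 2)) with hχ
  have sm : ContDiff ℝ 1 χ := smoothTransition.contDiff.comp (by fun_prop)
  have co : Continuous (deriv χ) := sm.continuous_deriv le_rfl
  obtain ⟨L, hL⟩ := isCompact_Icc.exists_bound_of_continuousOn
    (s := Icc (0 : ℝ) 1) (co.pow 2).continuousOn
  have h1 : ∀ x < 1 - ε, χ x = 1 := fun x hx =>
    smoothTransition.one_of_one_le (by rw [le_div_iff₀ (by positivity)]; linarith)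
  have h0 : ∀ x, 1 - ε / 2 < x → χ x = 0 := fun x hx =>
    smoothTransition.zero_of_nonpos (div_nonpos_of_nonpos_of_nonneg (by linarith) (by positivity))
  refine ⟨L, χ, deriv χ, sm, fun x => (sm.differentiable one_ne_zero x).hasDerivAt, co,
    fun x => ?_, fun x hx => ⟨h1 x hx, ?_⟩, fun x hx => ⟨h0 x hx, ?_⟩,
    fun x hx => (le_abs_self _).trans (hL x hx), (norm_nonneg _).trans (hL 0 (by simp))⟩
  · exact pow_le_one₀ (smoothTransition.nonneg _) (smoothTransition.le_one _)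
  · have : χ =ᶠ[nhds x] fun _ => 1 := by
      filter_upwards [Iio_mem_nhds hx] with y hy using h1 y hy
    rw [this.deriv_eq, deriv_const]
  · have : χ =ᶠ[nhds x] fun _ => 0 := by
      filter_upwards [Ioi_mem_nhds hx] with y hy using h0 y hy
    rw [this.deriv_eq, deriv_const]

/-- Caccioppoli inequality -/
lemma cacc {ε L a R σ : ℝ} {χ χ' : ℝ → ℝ} (hc : Cut ε L χ χ') (hε : 0 < ε) (hε1 : ε < 1)
    (hs : 0 < sg a) {d : P2 → ℝ} (hd : ContDiff ℝ 1 d)
    (h : Bd a d (fun p => χ p.1 * (χ p.1 * d p)) ≤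
      R + σ * √(D0 a 0 1 fun p => χ p.1 * (χ p.1 * d p))) :
    D0 a 0 (1 - ε) d ≤ 2 * R + 2 * σ ^ 2 +
      3 * (sg a * T 0 1 fun x η => χ' x ^ 2 * d (x, x * η) ^ 2) := by
  have h1 := hc.sm
  have h2 := hc.co
  have h3 := hd.continuous
  have h4 := h1.continuous
  have hw : ContDiff ℝ 1 fun p : P2 => χ p.1 * d p := by fun_prop
  have hz : ContDiff ℝ 1 fun p : P2 => χ p.1 * (χ p.1 * d p) := by fun_prop
  have e1 : D0 a 0 1 (fun p => χ p.1 * d p) = Bd a d (fun p => χ p.1 * (χ p.1 * d p)) +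
      sg a * T 0 1 fun x η => χ' x ^ 2 * d (x, x * η) ^ 2 := by
    unfold D0 Bd
    rw [← T_const_mul, ← T_add (by unfold Cont; fun_prop) (by unfold Cont; fun_prop)]
    congr 1
    funext x η
    rw [px_mul h1 hc.der hw, py_mul h1 hw, px_mul h1 hc.der hd, py_mul h1 hd]
    ring
  have e2 : D0 a 0 1 (fun p => χ p.1 * (χ p.1 * d p)) ≤ 2 * D0 a 0 1 (fun p => χ p.1 * d p) +
      2 * (sg a * T 0 1 fun x η => χ' x ^ 2 * d (x, x * η) ^ 2) := by
    unfold D0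
    rw [← T_const_mul, ← T_const_mul, ← T_const_mul, ← T_add (by unfold Cont; fun_prop) (by unfold Cont; fun_prop)]
    refine T_mono (by unfold Cont; fun_prop) (by unfold Cont; fun_prop) le_rfl zero_le_one fun x _ η _ => ?_
    rw [px_mul h1 hc.der hw, py_mul h1 hw]
    generalize px (fun p : P2 => χ p.1 * d p) (x, x * η) = A
    generalize py (fun p : P2 => χ p.1 * d p) (x, x * η) = B
    have k1 := hc.sq x
    generalize χ x = c at k1 ⊢
    generalize χ' x = c'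
    generalize d (x, x * η) = v
    have k2 : (c' * (c * v) + c * A) ^ 2 ≤ 2 * A ^ 2 + 2 * (c' ^ 2 * v ^ 2) := by
      calc _ = c ^ 2 * (c' * v + A) ^ 2 := by ring
        _ ≤ 1 * (c' * v + A) ^ 2 := by gcongr
        _ ≤ _ := by nlinarith [sq_nonneg (c' * v - A)]
    have k3 : (c * B) ^ 2 / sg a ≤ 2 * (B ^ 2 / sg a) := by
      rw [← mul_div_assoc]
      gcongr
      nlinarith [sq_nonneg B]
    nlinarith [mul_le_mul_of_nonneg_left k2 hs.le]
  have e3 : D0 a 0 (1 - ε) d ≤ D0 a 0 1 (fun p => χ p.1 * d p) := by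
    unfold D0
    refine le_trans (le_of_eq ?_) (T_le_range (x1 := 1 - ε) (by unfold Cont; fun_prop) (by linarith)
      (by linarith) fun _ _ _ _ => by positivity)
    refine T_congr (by unfold Cont; fun_prop) (by unfold Cont; fun_prop) le_rfl (by linarith) fun x hx η _ => ?_
    rw [px_mul h1 hc.der hd, py_mul h1 hd, (hc.one x hx.2).1, (hc.one x hx.2).2]
    ring
  have e4 := sq_sqrt (D0_nonneg hs zero_le_one hz)
  nlinarith [sq_nonneg (2 * σ - √(D0 a 0 1 fun p => χ p.1 * (χ p.1 * d p)))]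

lemma T_vanish {Γ : ℝ → ℝ → ℝ} (h : Cont Γ) {x1 x2 : ℝ} (h0 : 0 ≤ x1) (h1 : x1 ≤ x2)
    (hz : ∀ x, x1 < x → ∀ η, Γ x η = 0) : T 0 x2 Γ = T 0 x1 Γ := by
  rw [← T_split (x1 := x1) h, T_congr h (Γ' := fun _ _ => 0) continuous_const h0 h1
    fun x hx η _ => hz x hx.1 η, T_const]
  ring

lemma T_dil {Γ : ℝ → ℝ → ℝ} (h : Cont Γ) {l x1 : ℝ} (hl : 0 < l) (h0 : 0 ≤ x1) (h1 : x1 ≤ 1)
    (h2 : l * x1 ≤ 1) (hz : ∀ x, x1 < x → ∀ η, Γ (l * x) η = 0) :
    T 0 1 Γ = T 0 1 fun x η => l ^ 2 * Γ (l * x) η := by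
  have hz' : ∀ x, l * x1 < x → ∀ η, Γ x η = 0 := fun x hx η => by
    have := hz (x / l) (by rw [lt_div_iff₀ hl]; linarith) η
    rwa [mul_div_cancel₀ _ hl.ne'] at this
  rw [T_const_mul, T_scale hl.ne', mul_zero, mul_one, T_vanish h (by positivity) h2 hz',
    T_vanish h (by positivity) (mul_le_of_le_one_right hl.le h1) hz']
  field_simp

lemma dil_pair (a : ℝ) {h z : P2 → ℝ} (hh : ContDiff ℝ 1 h) (hz : ContDiff ℝ 1 z) {l x1 : ℝ}
    (hl : 0 < l) (h0 : 0 ≤ x1) (h1 : x1 ≤ 1) (h2 : l * x1 ≤ 1)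
    (hv : ∀ x, x1 < x → ∀ y, z (x, y) = 0 ∧ px z (x, y) = 0 ∧ py z (x, y) = 0) :
    Bd a h (fun p => z (l⁻¹ • p)) = Bd a (fun p => h (l • p)) z ∧
    D0 a 0 1 (fun p => z (l⁻¹ • p)) = D0 a 0 1 z ∧
    T 0 1 (fun x η => h (x, x * η) * z (l⁻¹ • (x, x * η))) =
      l ^ 2 * T 0 1 fun x η => h (l • (x, x * η)) * z (x, x * η) := by
  have hz' : ContDiff ℝ 1 fun p => z (l⁻¹ • p) := by fun_prop
  have c1 := hh.continuous
  have c2 := hz.continuous
  have e1 : ∀ x, l⁻¹ * (l * x) = x := fun x => by field_simp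
  have e2 : ∀ x η, l⁻¹ * (l * x * η) = x * η := fun x η => by field_simp
  refine ⟨?_, ?_, ?_⟩
  · unfold Bd
    rw [T_dil (by unfold Cont; fun_prop) hl h0 h1 h2]
    · congr 1
      funext x η
      rw [px_smul hz, py_smul hz, px_smul hh, py_smul hh, e1, e2, mul_assoc l x η]
      field_simp
    · intro x hx η
      rw [px_smul hz, py_smul hz, e1, e2, (hv x hx _).2.1, (hv x hx _).2.2]
      ring
  · unfold D0
    rw [T_dil (by unfold Cont; fun_prop) hl h0 h1 h2]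
    · congr 1
      funext x η
      rw [px_smul hz, py_smul hz, e1, e2]
      field_simp
    · intro x hx η
      rw [px_smul hz, py_smul hz, e1, e2, (hv x hx _).2.1, (hv x hx _).2.2]
      ring
  · rw [T_dil (by unfold Cont; fun_prop) hl h0 h1 h2, ← T_const_mul]
    · congr 1
      funext x η
      simp only [Prod.smul_mk, smul_eq_mul, e1, mul_assoc l x η]
    · intro x hx η
      simp only [Prod.smul_mk, smul_eq_mul, e1, e2, (hv x hx _).1, mul_zero]

end R2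

end Pool.Agent.PSz
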