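import Pool.Agent.P.MP_7b7370_an.Polar
import Pool.Agent.P.MP_7b7370_an.Fan

set_option autoImplicit false

namespace Pool.Agent.PSz

open Real Set MeasureTheory intervalIntegral

/-- boundary of the regular polygon, literally as in the frozen statement -/
def regFront (N : ℕ) (r : ℝ) : Set ℂ :=
  ⋃ i : Fin N, segment ℝ
    ((r : ℂ) * Complex.exp (2 * (Real.pi : ℂ) * Complex.I * (((i : ℕ) : ℂ)) / (N : ℂ)))
    ((r : ℂ) * Complex.exp (2 * (Real.pi : ℂ) * Complex.I *
      ((((finRotate N i : Fin N) : ℕ) : ℂ)) / (N : ℂ)))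

namespace Reg

/-- the linear form in direction `x` -/
noncomputable def lf (x : ℝ) (z : ℂ) : ℝ := z.re * cos x + z.im * sin x

lemma lf_pol (x r φ : ℝ) : lf x (pol r φ) = r * cos (x - φ) := by
  simp only [lf, pol_re, pol_im, cos_sub]; ring

lemma lf_comb (x s t : ℝ) (p q : ℂ) : lf x (s • p + t • q) = s * lf x p + t * lf x q := by
  simp [lf]; ring

lemma vert (N j : ℕ) (r : ℝ) :
    (r : ℂ) * Complex.exp (2 * (Real.pi : ℂ) * Complex.I * (j : ℂ) / (N : ℂ)) =
      pol r (2 * j * (π / N)) := by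
  simp only [pol, cis]
  congr 2
  push_cast
  ring

lemma vert_rot {N : ℕ} (i : Fin N) (r : ℝ) :
    pol r (2 * ((finRotate N i : Fin N) : ℕ) * (π / N)) =
      pol r (2 * ((i : ℕ) + 1 : ℕ) * (π / N)) := by
  obtain ⟨n, rfl⟩ : ∃ n, N = n + 1 := ⟨N - 1, by have := i.2; omega⟩
  by_cases h : i = Fin.last n
  · subst h
    rw [finRotate_last]
    have : 2 * ((((Fin.last n : Fin (n + 1)) : ℕ) + 1 : ℕ) : ℝ) * (π / ((n + 1 : ℕ) : ℝ)) = 2 * π := by
      simp only [Fin.val_last]
      field_simp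
    rw [this]
    apply Complex.ext <;> simp
  · rw [coe_finRotate_of_ne_last h]

lemma cos_odd {N : ℕ} (hN : 3 ≤ N) (m : ℤ) : cos ((2 * m + 1) * (π / N)) ≤ cos (π / N) := by
  have hN0 : (0 : ℝ) < N := by positivity
  have hN1 : (N : ℤ) ≠ 0 := by omega
  have ha : 0 < π / N := by positivity
  have e : π = N * (π / N) := by field_simp
  have h1 : (0 : ℝ) ≤ (m % N : ℤ) := by exact_mod_cast Int.emod_nonneg m hN1
  have h2 : ((m % N : ℤ) : ℝ) + 1 ≤ N := by
    exact_mod_cast Int.emod_lt_of_pos m (show (0 : ℤ) < N by omega)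
  have h3 : (m : ℝ) = (m % N : ℤ) + N * (m / N : ℤ) := by
    exact_mod_cast (Int.emod_add_mul_ediv m N).symm
  have h4 : (2 * m + 1) * (π / N) = (2 * (m % N : ℤ) + 1) * (π / N) + (m / N : ℤ) * (2 * π) := by
    conv_lhs => rw [h3]
    field_simp
    ring
  rw [h4, cos_add_int_mul_two_pi]
  generalize ((m % N : ℤ) : ℝ) = j at h1 h2
  rcases le_total ((2 * j + 1) * (π / N)) π with h | h
  · exact cos_le_cos_of_nonneg_of_le_pi ha.le h (by nlinarith)
  · rw [← cos_two_pi_sub]
    exact cos_le_cos_of_nonneg_of_le_pi ha.le (by linarith) (by nlinarith)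

lemma lf_vert {N : ℕ} (hN : 3 ≤ N) {r : ℝ} (hr : 0 < r) (k : ℤ) (j : ℕ) :
    lf ((2 * k + 1) * (π / N)) (pol r (2 * j * (π / N))) ≤ r * cos (π / N) := by
  rw [lf_pol]
  have := cos_odd hN (k - j)
  push_cast at this
  rw [show (2 * (k : ℝ) + 1) * (π / N) - 2 * j * (π / N) = (2 * (k - j) + 1) * (π / N) by ring]
  exact mul_le_mul_of_nonneg_left this hr.le

lemma front {N : ℕ} (hN : 3 ≤ N) {r : ℝ} (hr : 0 < r) {z : ℂ} (hz : z ∈ regFront N r) :
    (∀ k : ℤ, lf ((2 * k + 1) * (π / N)) z ≤ r * cos (π / N)) ∧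
      ∃ k : ℤ, lf ((2 * k + 1) * (π / N)) z = r * cos (π / N) := by
  obtain ⟨i, hi⟩ := mem_iUnion.1 hz
  rw [vert, vert, vert_rot] at hi
  obtain ⟨s, t, hs, ht, hst, rfl⟩ := hi
  refine ⟨fun k => ?_, (i : ℕ), ?_⟩
  · rw [lf_comb]
    have h1 := mul_le_mul_of_nonneg_left (lf_vert hN hr k i) hs
    have h2 := mul_le_mul_of_nonneg_left (lf_vert hN hr k (i + 1)) ht
    have h3 : s * (r * cos (π / N)) + t * (r * cos (π / N)) = r * cos (π / N) := by
      rw [← add_mul, hst, one_mul]
    linarith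
  · rw [lf_comb, lf_pol, lf_pol]
    push_cast
    rw [show (2 * ((i : ℕ) : ℝ) + 1) * (π / N) - 2 * (i : ℕ) * (π / N) = π / N by ring,
      show (2 * ((i : ℕ) : ℝ) + 1) * (π / N) - 2 * ((i : ℕ) + 1) * (π / N) = -(π / N) by ring,
      cos_neg, ← add_mul, hst, one_mul]

/-- the isosceles triangle with height `c` and slope `τ` -/
def tri (c τ : ℝ) : Set ℂ := {z | z.re ∈ Icc 0 c ∧ z.im ∈ Icc (-(τ * z.re)) (τ * z.re)}

lemma isClosed_tri (c τ : ℝ) : IsClosed (tri c τ) :=
  (isClosed_Icc.preimage Complex.continuous_re).inter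
    ((isClosed_le (by fun_prop) Complex.continuous_im).inter
      (isClosed_le Complex.continuous_im (by fun_prop)))

lemma volume_tri {c τ : ℝ} (hc : 0 ≤ c) (hτ : 0 ≤ τ) :
    volume (tri c τ) = ENNReal.ofReal (τ * c ^ 2) := by
  let S : Set (ℝ × ℝ) := {p | p.1 ∈ Icc 0 c ∧ p.2 ∈ Icc (-(τ * p.1)) (τ * p.1)}
  have hS : MeasurableSet S :=
    ((isClosed_Icc.preimage continuous_fst).inter ((isClosed_le (by fun_prop) continuous_snd).inter
      (isClosed_le continuous_snd (by fun_prop)))).measurableSet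
  have h1 : volume (tri c τ) = volume S :=
    Complex.volume_preserving_equiv_real_prod.measure_preimage hS.nullMeasurableSet
  have h2 : ∀ x, volume (Prod.mk x ⁻¹' S) =
      (Icc 0 c).indicator (fun x => ENNReal.ofReal (2 * τ * x)) x := by
    intro x
    by_cases hx : x ∈ Icc 0 c
    · have : Prod.mk x ⁻¹' S = Icc (-(τ * x)) (τ * x) := by
        ext y; simp only [S, mem_preimage, mem_ofPred_eq, hx, true_and]
      rw [this, indicator_of_mem hx, Real.volume_Icc]
      congr 1; ring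
    · have : Prod.mk x ⁻¹' S = ∅ := by
        ext y; simp only [S, mem_preimage, mem_ofPred_eq, hx, false_and, mem_empty_iff_false]
      rw [this, indicator_of_notMem hx, measure_empty]
  rw [h1, Measure.volume_eq_prod, Measure.prod_apply hS]
  simp only [h2]
  rw [lintegral_indicator measurableSet_Icc, ← ofReal_integral_eq_lintegral_ofReal
    (Continuous.integrableOn_Icc (by fun_prop))
    ((ae_restrict_iff' measurableSet_Icc).2 (ae_of_all _ fun x hx =>
      mul_nonneg (by positivity) hx.1)),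
    integral_Icc_eq_integral_Ioc, ← integral_of_le hc, intervalIntegral.integral_const_mul,
    integral_id]
  congr 1; ring

lemma exists_pol (z : ℂ) : ∃ φ, 0 ≤ φ ∧ φ < 2 * π ∧ z = pol ‖z‖ φ := by
  have h : z = pol ‖z‖ (Complex.arg z) := (Complex.norm_mul_exp_arg_mul_I z).symm
  rcases lt_or_ge (Complex.arg z) 0 with h0 | h0
  · refine ⟨Complex.arg z + 2 * π, by linarith [Complex.neg_pi_lt_arg z, pi_pos], by linarith, ?_⟩
    refine h.trans ?_
    apply Complex.ext <;> simp only [pol_re, pol_im, cos_add_two_pi, sin_add_two_pi]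
  · exact ⟨_, h0, by linarith [Complex.arg_le_pi z, pi_pos], h⟩

lemma rot_pol (x r φ : ℝ) : rotation (Circle.exp (-x)) (pol r φ) = pol r (φ - x) := by
  rw [rotation_apply, Circle.coe_exp, pol, pol, cis, cis, mul_left_comm, ← Complex.exp_add]
  congr 2
  push_cast
  ring

end Reg

open Reg in
/-- paper 9.1 -/
theorem reg_eq {N : ℕ} (hN : 3 ≤ N) {r : ℝ} (hr : 0 < r) {Ω : Set ℂ} (ho : IsOpen Ω)
    (hb : Bornology.IsBounded Ω) (hf : frontier Ω = regFront N r) :
    Ω = {z | ∀ k : ℤ, z.re * cos ((2 * k + 1) * (π / N)) + z.im * sin ((2 * k + 1) * (π / N))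
      < r * cos (π / N)} := by
  change Ω = {z | ∀ k : ℤ, lf ((2 * k + 1) * (π / N)) z < r * cos (π / N)}
  have h1 : Ω ⊆ {z | ∀ k : ℤ, lf ((2 * k + 1) * (π / N)) z < r * cos (π / N)} := by
    intro z hz k
    by_contra hk
    set x := (2 * k + 1) * (π / N)
    have hS : IsPreconnected ((fun s => z + pol s x) '' Ici 0) :=
      isPreconnected_Ici.image _ (by fun_prop)
    have := Fan.subset_of_miss ho hS ⟨z, ⟨0, self_mem_Ici, by simp⟩, hz⟩ (by
      rintro _ ⟨s, hs, rfl⟩ hfr
      rcases eq_or_lt_of_le (mem_Ici.1 hs) with rfl | hs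
      · simp only [pol_zero, add_zero] at hfr
        exact hfr.2 (by rwa [ho.interior_eq])
      · have h2 := (front hN hr (hf ▸ hfr)).1 k
        have h3 : lf x (z + pol s x) = lf x z + s := by
          have := lf_comb x 1 1 z (pol s x)
          rw [one_smul, one_smul, lf_pol] at this
          simpa using this
        rw [h3] at h2
        exact hk (by linarith))
    obtain ⟨C, hC, hC'⟩ := hb.exists_pos_norm_lt
    have h2 := hC' _ (this ⟨2 * C, by simp [hC.le], rfl⟩)
    have h3 := hC' _ hz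
    have h4 := norm_sub_le (z + pol (2 * C) x) z
    rw [add_sub_cancel_left, norm_pol, abs_of_pos (by positivity)] at h4
    linarith
  refine h1.antisymm (Fan.subset_of_miss ho (Convex.isPreconnected ?_) ?_ ?_)
  · intro p hp q hq s t hs ht hst k
    rw [lf_comb]
    have h3 : s * (r * cos (π / N)) + t * (r * cos (π / N)) = r * cos (π / N) := by
      rw [← add_mul, hst, one_mul]
    have := hp k
    have := hq k
    rcases eq_or_lt_of_le hs with rfl | hs
    · rw [zero_add] at hst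
      simpa [hst] using hq k
    · nlinarith
  · have : (closure Ω).Nonempty := by
      refine Nonempty.mono frontier_subset_closure ?_
      rw [hf]
      exact ⟨_, mem_iUnion.2 ⟨⟨0, by omega⟩, left_mem_segment _ _ _⟩⟩
    obtain ⟨z, hz⟩ := closure_nonempty_iff.1 this
    exact ⟨z, h1 hz, hz⟩
  · intro z hz hfr
    obtain ⟨k, hk⟩ := (front hN hr (hf ▸ hfr)).2
    exact (hz k).ne hk

open Reg in
/-- paper 9.2 -/
theorem reg_vol {N : ℕ} (hN : 3 ≤ N) {r : ℝ} (hr : 0 < r) {Ω : Set ℂ} (ho : IsOpen Ω)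
    (hb : Bornology.IsBounded Ω) (hf : frontier Ω = regFront N r) :
    volume Ω ≤ ENNReal.ofReal (π * (r / Rv (π / N)) ^ 2) := by
  have hN0 : (0 : ℝ) < N := by positivity
  have hN3 : (3 : ℝ) ≤ N := by exact_mod_cast hN
  have ha : 0 < π / N := by positivity
  have e : π = N * (π / N) := by field_simp
  have hK := reg_eq hN hr ho hb hf
  set a := π / N with had
  have ha2 : a < π / 2 := by nlinarith
  have hc : 0 < cos a := cos_pos_of_mem_Ioo ⟨by linarith, ha2⟩
  have hs : 0 < sin a := sin_pos_of_pos_of_lt_pi ha (by linarith)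
  have hsub : Ω ⊆ ⋃ k : Fin N, rotation (Circle.exp (-((2 * (k : ℕ) + 1) * a))) ⁻¹'
      tri (r * cos a) (tan a) := by
    intro z hz
    rw [hK] at hz
    obtain ⟨φ, h0, h1, hφ⟩ := exists_pol z
    have k1 : (⌊φ / (2 * a)⌋₊ : ℝ) * (2 * a) ≤ φ :=
      (le_div_iff₀ (by positivity)).1 (Nat.floor_le (by positivity))
    have k2 : φ < (⌊φ / (2 * a)⌋₊ + 1) * (2 * a) :=
      (div_lt_iff₀ (by positivity)).1 (Nat.lt_floor_add_one _)
    generalize ⌊φ / (2 * a)⌋₊ = k at k1 k2
    have hk : k < N := by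
      have : (k : ℝ) < N := by nlinarith
      exact_mod_cast this
    refine mem_iUnion.2 ⟨⟨k, hk⟩, ?_⟩
    have h2 : lf ((2 * k + 1) * a) z < r * cos a := by simpa [lf] using hz k
    rw [hφ, lf_pol, ← cos_neg, neg_sub] at h2
    rw [mem_preimage, hφ, rot_pol]
    simp only [tri, mem_ofPred_eq, pol_re, pol_im]
    set ψ := φ - (2 * k + 1) * a with hψ
    have p1 : -a ≤ ψ := by linarith
    have p2 : ψ ≤ a := by linarith
    have c1 : 0 < cos ψ := cos_pos_of_mem_Ioo ⟨by linarith, by linarith⟩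
    have s1 : 0 ≤ sin (a - ψ) := sin_nonneg_of_nonneg_of_le_pi (by linarith) (by linarith)
    have s2 : 0 ≤ sin (a + ψ) := sin_nonneg_of_nonneg_of_le_pi (by linarith) (by linarith)
    rw [sin_sub] at s1
    rw [sin_add] at s2
    have t1 : sin ψ ≤ tan a * cos ψ := by
      rw [tan_eq_sin_div_cos, div_mul_eq_mul_div, le_div_iff₀ hc]; linarith
    have t2 : -sin ψ ≤ tan a * cos ψ := by
      rw [tan_eq_sin_div_cos, div_mul_eq_mul_div, le_div_iff₀ hc]; linarith
    have n0 := norm_nonneg z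
    exact ⟨⟨by positivity, h2.le⟩, by nlinarith, by nlinarith⟩
  have ht : 0 ≤ tan a := by rw [tan_eq_sin_div_cos]; positivity
  refine (measure_mono hsub).trans ((measure_iUnion_fintype_le _ _).trans ?_)
  have hv : ∀ k : Fin N, volume (rotation (Circle.exp (-((2 * (k : ℕ) + 1) * a))) ⁻¹'
      tri (r * cos a) (tan a)) = ENNReal.ofReal (tan a * (r * cos a) ^ 2) := fun k => by
    rw [(rotation _).measurePreserving.measure_preimage
      (isClosed_tri _ _).measurableSet.nullMeasurableSet, volume_tri (by positivity) ht]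
  simp only [hv, Finset.sum_const, Finset.card_univ, Fintype.card_fin, nsmul_eq_mul]
  rw [← ENNReal.ofReal_natCast, ← ENNReal.ofReal_mul hN0.le]
  refine ENNReal.ofReal_le_ofReal (le_of_eq ?_)
  have hq : q0 a 1 = a / (sin a * cos a) := by
    simp only [q0, X2, om, tan_eq_sin_div_cos]
    field_simp
    linear_combination sin_sq_add_cos_sq a
  rw [div_pow, Rv, Real.sq_sqrt (by rw [hq]; positivity), hq, tan_eq_sin_div_cos]
  conv_rhs => rw [e]
  field_simp

end Pool.Agent.PSz
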