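import Pool.Agent.P.MP_7b7370_an.SBDefs

set_option autoImplicit false

namespace Pool.Agent.PSF

open Real Set MeasureTheory

theorem Adm.cont {V : ℝ × ℝ → ℝ} (hV : Adm V) : Continuous V := hV.c1.continuous

theorem Adm.cont_dx {V : ℝ × ℝ → ℝ} (hV : Adm V) : Continuous (dx V) :=
  (hV.c1.continuous_fderiv one_ne_zero).clm_apply continuous_const

theorem Adm.cont_dy {V : ℝ × ℝ → ℝ} (hV : Adm V) : Continuous (dy V) :=
  (hV.c1.continuous_fderiv one_ne_zero).clm_apply continuous_const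

theorem sbadm_fd {V : ℝ × ℝ → ℝ} (hV : Adm V) (p : ℝ × ℝ) : HasFDerivAt V (fderiv ℝ V p) p :=
  (hV.c1.differentiable one_ne_zero p).hasFDerivAt

theorem Adm.hasDerivAt_fst {V : ℝ × ℝ → ℝ} (hV : Adm V) (s φ : ℝ) :
    HasDerivAt (fun σ => V (σ, φ)) (dx V (s, φ)) s :=
  (sbadm_fd hV (s, φ)).comp_hasDerivAt s ((hasDerivAt_id s).prodMk (hasDerivAt_const s φ))

theorem Adm.hasDerivAt_snd {V : ℝ × ℝ → ℝ} (hV : Adm V) (s φ : ℝ) :
    HasDerivAt (fun ψ => V (s, ψ)) (dy V (s, φ)) φ :=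
  (sbadm_fd hV (s, φ)).comp_hasDerivAt φ ((hasDerivAt_const φ s).prodMk (hasDerivAt_id φ))

theorem sbadm_const {V : ℝ × ℝ → ℝ} {O : Set (ℝ × ℝ)} (hO : IsOpen O) {κ : ℝ}
    (h : ∀ p ∈ O, V p = κ) {p : ℝ × ℝ} (hp : p ∈ O) : V p = κ ∧ dx V p = 0 ∧ dy V p = 0 := by
  have h1 : V =ᶠ[nhds p] fun _ => κ := by
    filter_upwards [hO.mem_nhds hp] with q hq using h q hq
  have h2 : fderiv ℝ V p = 0 := by
    rw [h1.fderiv_eq]
    simp
  exact ⟨h p hp, by simp [dx, h2], by simp [dy, h2]⟩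

theorem Adm.supp {V : ℝ × ℝ → ℝ} (hV : Adm V) : ∃ η S κ : ℝ, 0 < η ∧ η < S ∧
    (∀ p : ℝ × ℝ, p.1 ≤ η → V p = 0 ∧ dx V p = 0 ∧ dy V p = 0) ∧
    (∀ p : ℝ × ℝ, S ≤ p.1 → V p = κ ∧ dx V p = 0 ∧ dy V p = 0) := by
  obtain ⟨η, hη, h0⟩ := hV.zero
  obtain ⟨S, κ, h1⟩ := hV.const
  refine ⟨η / 2, max (S + 1) η, κ, by linarith, lt_max_of_lt_right (by linarith),
    fun p hp => ?_, fun p hp => ?_⟩
  · exact sbadm_const (O := {q | q.1 < η}) (isOpen_lt continuous_fst continuous_const)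
      (fun q hq => h0 q (le_of_lt hq)) (show p.1 < η by linarith)
  · exact sbadm_const (O := {q | S < q.1}) (isOpen_lt continuous_const continuous_fst)
      (fun q hq => h1 q (le_of_lt hq)) (show S < p.1 by linarith [le_max_left (S + 1) η])

theorem Adm.lc {U V : ℝ × ℝ → ℝ} (hU : Adm U) (hV : Adm V) (a b : ℝ) : Adm (lc a U b V) := by
  obtain ⟨η, hη, h0⟩ := hU.zero
  obtain ⟨η', hη', h0'⟩ := hV.zero
  obtain ⟨S, κ, h1⟩ := hU.const
  obtain ⟨S', κ', h1'⟩ := hV.const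
  refine ⟨(contDiff_const.mul hU.c1).add (contDiff_const.mul hV.c1),
    ⟨min η η', lt_min hη hη', fun p hp => ?_⟩, ⟨max S S', a * κ + b * κ', fun p hp => ?_⟩⟩
  · show a * U p + b * V p = 0
    rw [h0 p (hp.trans (min_le_left _ _)), h0' p (hp.trans (min_le_right _ _))]
    ring
  · show a * U p + b * V p = _
    rw [h1 p ((le_max_left _ _).trans hp), h1' p ((le_max_right _ _).trans hp)]

theorem sbadm_lc {U V : ℝ × ℝ → ℝ} (hU : Adm U) (hV : Adm V) (a b : ℝ) (p e : ℝ × ℝ) :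
    fderiv ℝ (lc a U b V) p e = a * fderiv ℝ U p e + b * fderiv ℝ V p e := by
  have h : HasFDerivAt (lc a U b V) _ p :=
    ((sbadm_fd hU p).const_mul a).add ((sbadm_fd hV p).const_mul b)
  rw [h.fderiv]
  rfl

theorem dx_lc {U V : ℝ × ℝ → ℝ} (hU : Adm U) (hV : Adm V) (a b : ℝ) (p : ℝ × ℝ) :
    dx (lc a U b V) p = a * dx U p + b * dx V p := sbadm_lc hU hV a b p _

theorem dy_lc {U V : ℝ × ℝ → ℝ} (hU : Adm U) (hV : Adm V) (a b : ℝ) (p : ℝ × ℝ) :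
    dy (lc a U b V) p = a * dy U p + b * dy V p := sbadm_lc hU hV a b p _

theorem int_Bw {f U V : ℝ × ℝ → ℝ} (hf : IntegrableOn f Pi0) (hU : Adm U) (hV : Adm V) :
    IntegrableOn (fun p => f p * (U p * V p)) Pi0 := by
  obtain ⟨M, hM⟩ := hU.bdd
  obtain ⟨M', hM'⟩ := hV.bdd
  refine Integrable.mul_bdd (c := M * M') hf (hU.cont.mul hV.cont).aestronglyMeasurable ?_
  filter_upwards [ae_restrict_mem measurableSet_Pi0] with p hp
  rw [Real.norm_eq_abs, abs_mul]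
  exact mul_le_mul (hM p hp) (hM' p hp) (abs_nonneg _) ((abs_nonneg _).trans (hM p hp))

theorem sbadm_int {f g : ℝ × ℝ → ℝ} (hf : Continuous f) (hg : Continuous g)
    (h1 : IntegrableOn (fun p => f p ^ 2) Pi0) (h2 : IntegrableOn (fun p => g p ^ 2) Pi0) :
    IntegrableOn (fun p => f p * g p) Pi0 := by
  refine Integrable.mono' (h1.add h2) (hf.mul hg).aestronglyMeasurable
    (Filter.Eventually.of_forall fun p => ?_)
  show ‖f p * g p‖ ≤ f p ^ 2 + g p ^ 2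
  rw [Real.norm_eq_abs, abs_le]
  constructor <;> nlinarith [sq_nonneg (f p + g p), sq_nonneg (f p - g p)]

theorem int_E1 {U V : ℝ × ℝ → ℝ} (hU : Adm U) (hV : Adm V) :
    IntegrableOn (fun p => dx U p * dx V p) Pi0 :=
  sbadm_int hU.cont_dx hV.cont_dx hU.int_dx hV.int_dx

theorem int_E2 {U V : ℝ × ℝ → ℝ} (hU : Adm U) (hV : Adm V) :
    IntegrableOn (fun p => dy U p * dy V p) Pi0 :=
  sbadm_int hU.cont_dy hV.cont_dy hU.int_dy hV.int_dy

end Pool.Agent.PSF
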