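import Pool.Agent.P.MP_7b7370_an.SBDefs

set_option autoImplicit false

namespace Pool.Agent.PSF

open Real Set MeasureTheory

theorem alg_good {a t x d Y0 Y1 J qW qy qx B SW Sy : ℝ} (ha1 : 1 ≤ a) (ha2 : a ≤ 551 / 500)
    (ht0 : 0 < t) (ht : t ≤ 1 / 1000) (hx0 : 0 < x) (hd : 0 ≤ d) (h0 : 0 ≤ Y0) (h1 : 0 ≤ Y1)
    (hJ0 : 0 ≤ J) (hJ : J ≤ 21 / 200) (hqW : 0 ≤ qW) (hqx : 2 * |qx| ≤ qW + qy)
    (hqy : 459 / 1000 * Y0 ^ 2 + 179 / 250 * Y1 ^ 2 ≤ qy)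
    (hB : |B| ≤ a * x ^ 3 * d * (87 / 2000 * Y0 + 11 / 100 * Y1))
    (hSW : 129 / 5000 * x ^ 6 * d ^ 2 ≤ SW) (hSy : -(8 * (Y0 ^ 2 + Y1 ^ 2)) ≤ Sy) :
    0 ≤ a * qW + a * qy + t ^ 2 * SW + t ^ 2 * Sy + 2 * t * (B - J * qx) := by
  have hqy0 : 0 ≤ qy := le_trans (by positivity) hqy
  have htJ : t * J ≤ 105 / 1000000 := by nlinarith
  have htJ0 : 0 ≤ t * J := by positivity
  have e1 : 2 * (t * J) * qx ≤ t * J * (qW + qy) := by
    have := mul_le_mul_of_nonneg_left (le_trans (by linarith [le_abs_self qx]) hqx :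
      2 * qx ≤ qW + qy) htJ0
    linarith
  have e2 : t * J * (qW + qy) ≤ 105 / 1000000 * (qW + qy) :=
    mul_le_mul_of_nonneg_right htJ (by linarith)
  have e3 : qW ≤ a * qW := by nlinarith
  have e4 : (a - 105 / 1000000) * (459 / 1000 * Y0 ^ 2 + 179 / 250 * Y1 ^ 2) ≤
      (a - 105 / 1000000) * qy := mul_le_mul_of_nonneg_left hqy (by linarith)
  have e5 : t ^ 2 * (129 / 5000 * x ^ 6 * d ^ 2) ≤ t ^ 2 * SW :=
    mul_le_mul_of_nonneg_left hSW (by positivity)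
  have e6 : t ^ 2 * (-(8 * (Y0 ^ 2 + Y1 ^ 2))) ≤ t ^ 2 * Sy :=
    mul_le_mul_of_nonneg_left hSy (by positivity)
  have ht2 : t ^ 2 ≤ 1 / 1000000 := by nlinarith
  have e7 : t ^ 2 * (Y0 ^ 2 + Y1 ^ 2) ≤ 1 / 1000000 * (Y0 ^ 2 + Y1 ^ 2) :=
    mul_le_mul_of_nonneg_right ht2 (by positivity)
  have e8 : t * (-(a * x ^ 3 * d * (87 / 2000 * Y0 + 11 / 100 * Y1))) ≤ t * B :=
    mul_le_mul_of_nonneg_left (by linarith [neg_abs_le B]) ht0.le
  obtain ⟨z, hz⟩ : ∃ z, z = t * x ^ 3 * d := ⟨_, rfl⟩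
  have e9 : t ^ 2 * (129 / 5000 * x ^ 6 * d ^ 2) = 129 / 5000 * z ^ 2 := by rw [hz]; ring
  have e10 : t * (-(a * x ^ 3 * d * (87 / 2000 * Y0 + 11 / 100 * Y1))) =
      -(a * (z * (87 / 2000 * Y0 + 11 / 100 * Y1))) := by rw [hz]; ring
  have e11 : 0 ≤ 458 / 1000 * Y0 ^ 2 + 715 / 1000 * Y1 ^ 2 -
      2 * (z * (87 / 2000 * Y0 + 11 / 100 * Y1)) + 22 / 1000 * z ^ 2 := by
    nlinarith [sq_nonneg (Y0 - 95 / 1000 * z), sq_nonneg (Y1 - 154 / 1000 * z), sq_nonneg z,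
      sq_nonneg Y0, sq_nonneg Y1]
  have e12 := mul_nonneg (by linarith : 0 ≤ a) e11
  have e13 : a * z ^ 2 ≤ 551 / 500 * z ^ 2 := mul_le_mul_of_nonneg_right ha2 (sq_nonneg z)
  have e14 : 1 * Y0 ^ 2 ≤ a * Y0 ^ 2 := mul_le_mul_of_nonneg_right ha1 (sq_nonneg _)
  have e15 : 1 * Y1 ^ 2 ≤ a * Y1 ^ 2 := mul_le_mul_of_nonneg_right ha1 (sq_nonneg _)
  nlinarith [sq_nonneg z, sq_nonneg Y0, sq_nonneg Y1]

theorem alg_crude {a t x d Y J qW qy qx B SW Sy : ℝ} (ha1 : 1 ≤ a) (ht0 : 0 < t)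
    (ht : t ≤ x ^ 2 / 1000000) (hx0 : 0 < x) (hx1 : x ≤ 1) (hd : 0 ≤ d) (hY : 0 ≤ Y)
    (hJ0 : 0 ≤ J) (hJ : J ≤ 21 / 200) (hqW : (x ^ 2 / 10000 * d) ^ 2 ≤ qW)
    (hqx : 2 * |qx| ≤ qW + qy) (hqy : 459 / 1000 * Y ^ 2 ≤ qy) (hB : |B| ≤ 8 * d * Y)
    (hSW : -(8 * d ^ 2) ≤ SW) (hSy : -(8 * Y ^ 2) ≤ Sy) :
    0 ≤ a * qW + a * qy + t ^ 2 * SW + t ^ 2 * Sy + 2 * t * (B - J * qx) := by
  have hqy0 : 0 ≤ qy := le_trans (by positivity) hqy
  have hqW0 : 0 ≤ qW := le_trans (by positivity) hqW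
  have hx2 : x ^ 2 ≤ 1 := by nlinarith
  have ht1 : t ≤ 1 / 1000000 := by linarith
  have htJ : t * J ≤ 1 / 100 := by nlinarith
  have htJ0 : 0 ≤ t * J := by positivity
  have e1 : 2 * (t * J) * qx ≤ t * J * (qW + qy) := by
    have := mul_le_mul_of_nonneg_left (le_trans (by linarith [le_abs_self qx]) hqx :
      2 * qx ≤ qW + qy) htJ0
    linarith
  have e2 : t * J * (qW + qy) ≤ 1 / 100 * (qW + qy) :=
    mul_le_mul_of_nonneg_right htJ (by linarith)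
  have e3 : 1 * qW ≤ a * qW := mul_le_mul_of_nonneg_right ha1 hqW0
  have e4 : 1 * qy ≤ a * qy := mul_le_mul_of_nonneg_right ha1 hqy0
  have e5 : t ^ 2 * (-(8 * d ^ 2)) ≤ t ^ 2 * SW := mul_le_mul_of_nonneg_left hSW (by positivity)
  have e6 : t ^ 2 * (-(8 * Y ^ 2)) ≤ t ^ 2 * Sy := mul_le_mul_of_nonneg_left hSy (by positivity)
  have ht2 : t ^ 2 ≤ 1 / 1000000 := by nlinarith
  have e7 : t ^ 2 * Y ^ 2 ≤ 1 / 1000000 * Y ^ 2 := mul_le_mul_of_nonneg_right ht2 (by positivity)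
  have e8 : t * (-(8 * d * Y)) ≤ t * B :=
    mul_le_mul_of_nonneg_left (by linarith [neg_abs_le B]) ht0.le
  have e9 : (t * d) ^ 2 ≤ (x ^ 2 / 1000000 * d) ^ 2 :=
    pow_le_pow_left₀ (by positivity) (mul_le_mul_of_nonneg_right ht hd) 2
  have e10 : (x ^ 2 / 10000 * d) ^ 2 = 10000 * (x ^ 2 / 1000000 * d) ^ 2 := by ring
  nlinarith [sq_nonneg (Y - 20 * (t * d)), sq_nonneg (t * d), sq_nonneg Y]

theorem convexOn_of_local {g : ℝ → ℝ} (hc : ContinuousOn g (Ici 4))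
    (h : ∀ n : ℝ, 4 < n → ∃ t0 : ℝ, 0 < t0 ∧ ∀ t, 0 < t → t < t0 →
      2 * g n < g (n - t) + g (n + t)) : ConvexOn ℝ (Ici 4) g := by
  refine LinearOrder.convexOn_of_lt (convex_Ici 4) ?_
  intro x hx y hy hxy a b ha hb hab
  obtain ⟨k, hk⟩ : ∃ k, k * (y - x) = g y - g x :=
    ⟨(g y - g x) / (y - x), div_mul_cancel₀ _ (by linarith)⟩
  have hx4 : (4 : ℝ) ≤ x := hx
  have hcont : ContinuousOn (fun u => g u - k * (u - x)) (Icc x y) :=
    (hc.mono fun u hu => le_trans hx4 hu.1).sub (by fun_prop)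
  obtain ⟨z, hz, hmax⟩ := isCompact_Icc.exists_isMaxOn (nonempty_Icc.2 hxy.le) hcont
  have hm : ∀ u, x ≤ u → u ≤ y → g u - k * (u - x) ≤ g z - k * (z - x) := fun u h1 h2 =>
    hmax (show u ∈ Icc x y from ⟨h1, h2⟩)
  have hz' : g z - k * (z - x) = g x := by
    rcases hz.1.eq_or_lt with h1 | h1
    · rw [← h1]; ring
    rcases hz.2.eq_or_lt with h2 | h2
    · rw [h2]; linarith
    exfalso
    obtain ⟨t0, ht0, ht⟩ := h z (by linarith)
    have p1 : 0 < min (t0 / 2) (min (z - x) (y - z)) :=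
      lt_min (by linarith) (lt_min (by linarith) (by linarith))
    have p2 := min_le_left (t0 / 2) (min (z - x) (y - z))
    have p3 := (min_le_right (t0 / 2) (min (z - x) (y - z))).trans (min_le_left _ _)
    have p4 := (min_le_right (t0 / 2) (min (z - x) (y - z))).trans (min_le_right _ _)
    generalize min (t0 / 2) (min (z - x) (y - z)) = t at p1 p2 p3 p4
    have q1 := ht t p1 (by linarith)
    have q2 := hm (z - t) (by linarith) (by linarith)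
    have q3 := hm (z + t) (by linarith) (by linarith)
    linarith
  have ea : a = 1 - b := by linarith
  subst ea
  have q := hm ((1 - b) * x + b * y) (by nlinarith) (by nlinarith)
  have e : k * ((1 - b) * x + b * y - x) = b * (g y - g x) := by rw [← hk]; ring
  simp only [smul_eq_mul]
  linarith

theorem support_of_convex {g : ℝ → ℝ} {B : ℝ} (hc : ConvexOn ℝ (Ici 4) g)
    (hB : ∀ n, 4 ≤ n → g n ≤ B)
    (h5 : ∀ t, 0 < t → t ≤ 1 / 500 → g 5 - g (5 + t) ≤ 2 / 3 * t) {N : ℝ} (hN : 5 ≤ N) :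
    ∃ c : ℝ, 0 ≤ c ∧ c ≤ 2 / 3 ∧ ∀ n : ℝ, 4 ≤ n → g N - c * (n - N) ≤ g n := by
  have hN4 : N ∈ Ici (4 : ℝ) := show (4 : ℝ) ≤ N by linarith
  let S : Set ℝ := (fun n => (g n - g N) / (n - N)) '' Ioi N
  have hne : S.Nonempty := ⟨_, N + 1, show N < N + 1 by linarith, rfl⟩
  have hlow : ∀ s ∈ S, -(2 / 3) ≤ s := by
    rintro _ ⟨n, hn, rfl⟩
    have hn' : N < n := hn
    have p1 : 0 < min (1 / 500 : ℝ) (n - 5) := lt_min (by norm_num) (by linarith)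
    have p2 := min_le_left (1 / 500 : ℝ) (n - 5)
    have p3 := min_le_right (1 / 500 : ℝ) (n - 5)
    generalize min (1 / 500 : ℝ) (n - 5) = t at p1 p2 p3
    have q1 := hc.secant_mono (a := 5) (x := 5 + t) (y := n) (show (4 : ℝ) ≤ 5 by norm_num)
      (show (4 : ℝ) ≤ 5 + t by linarith) (show (4 : ℝ) ≤ n by linarith) (by linarith [p1])
      (ne_of_gt (by linarith)) (by linarith)
    have q2 := hc.secant_mono (a := n) (x := 5) (y := N) (show (4 : ℝ) ≤ n by linarith)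
      (show (4 : ℝ) ≤ 5 by norm_num) hN4 (ne_of_lt (by linarith)) hn'.ne hN
    have q3 : -(2 / 3) ≤ (g (5 + t) - g 5) / (5 + t - 5) := by
      rw [le_div_iff₀ (by linarith)]
      linarith [h5 t p1 p2]
    have e1 : (g 5 - g n) / (5 - n) = (g n - g 5) / (n - 5) := by
      rw [← neg_sub (g n), ← neg_sub n, neg_div_neg_eq]
    have e2 : (g N - g n) / (N - n) = (g n - g N) / (n - N) := by
      rw [← neg_sub (g n), ← neg_sub n, neg_div_neg_eq]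
    show -(2 / 3) ≤ (g n - g N) / (n - N)
    linarith
  have hbd : BddBelow S := ⟨_, hlow⟩
  have hup : ∀ n, N < n → sInf S * (n - N) ≤ g n - g N := fun n hn =>
    (le_div_iff₀ (by linarith)).1 (csInf_le hbd ⟨n, hn, rfl⟩)
  refine ⟨-sInf S, ?_, ?_, fun n hn => ?_⟩
  · by_contra h0
    have h1 : 0 < sInf S := by linarith [not_le.1 h0]
    have h2 : 0 ≤ B - g N := by linarith [hB N hN4]
    have h3 : 0 < (B - g N + 1) / sInf S := by positivity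
    have h4 := hup (N + (B - g N + 1) / sInf S) (by linarith)
    have h6 := hB (N + (B - g N + 1) / sInf S) (by linarith)
    rw [add_sub_cancel_left, mul_div_cancel₀ _ h1.ne'] at h4
    linarith
  · linarith [le_csInf hne hlow]
  · rcases lt_trichotomy n N with h1 | h1 | h1
    · have h2 : (g n - g N) / (n - N) ≤ sInf S := by
        refine le_csInf hne ?_
        rintro _ ⟨u, hu, rfl⟩
        have hu' : N < u := hu
        exact hc.secant_mono hN4 hn (show (4 : ℝ) ≤ u by linarith) h1.ne hu'.ne' (by linarith)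
      rw [div_le_iff_of_neg (by linarith)] at h2
      linarith
    · rw [h1]; simp
    · linarith [hup n h1]

end Pool.Agent.PSF
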