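import Pool.Agent.P.MP_7b7370_an.SBZ

set_option autoImplicit false

namespace Pool.Agent.PSF

open Real Set MeasureTheory

theorem sbarea_nonneg {ν : ℝ} (hν : 4 ≤ ν) (k : ℕ) : 0 ≤ Ak ν k := by
  have hk : (0 : ℝ) ≤ k := Nat.cast_nonneg k
  have h0 : 0 ≤ ν := by linarith
  unfold Ak
  positivity

theorem sbarea_step {ν c : ℝ} (hν : 0 ≤ ν) (k : ℕ)
    (h : ((k : ℝ) + 1) ^ 2 ≤ c * ((1 - 2 / ν) * (2 * k + 1 + 2 / ν)) * (1 + ν * k)) :
    Ak ν k ≤ c * bk (2 / ν) k ^ 2 - c * bk (2 / ν) (k + 1) ^ 2 := by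
  have hk : (0 : ℝ) ≤ k := Nat.cast_nonneg k
  have hL : 0 < 1 + ν * k := by positivity
  have hk1 : (0 : ℝ) < ((k : ℝ) + 1) ^ 2 := by positivity
  have e : c * bk (2 / ν) k ^ 2 - c * bk (2 / ν) (k + 1) ^ 2
      = bk (2 / ν) k ^ 2 * (c * ((1 - 2 / ν) * (2 * k + 1 + 2 / ν)) / ((k : ℝ) + 1) ^ 2) := by
    rw [bk]
    generalize 2 / ν = τ
    field_simp
    ring
  rw [e, Ak, div_eq_mul_one_div]
  refine mul_le_mul_of_nonneg_left ?_ (sq_nonneg _)
  rw [div_le_div_iff₀ hL hk1, one_mul]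
  exact h

theorem tele_le {a U : ℕ → ℝ} {S : ℝ} (hS : HasSum a S) (K : ℕ) (hU : ∀ k, 0 ≤ U k)
    (h : ∀ k, K ≤ k → a k ≤ U k - U (k + 1)) : S ≤ ∑ k ∈ Finset.range K, a k + U K := by
  have hp : ∀ N, ∑ k ∈ Finset.range (K + N), a k ≤ ∑ k ∈ Finset.range K, a k + U K - U (K + N) := by
    intro N
    induction N with
    | zero => simp
    | succ N ih =>
      rw [← add_assoc, Finset.sum_range_succ]
      have := h (K + N) (Nat.le_add_right _ _)
      linarith
  refine le_of_tendsto hS.tendsto_sum_nat ?_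
  filter_upwards [Filter.eventually_ge_atTop K] with M hM
  obtain ⟨N, rfl⟩ := Nat.exists_eq_add_of_le hM
  have := hp N
  have := hU (K + N)
  linarith

theorem le_tele {a U : ℕ → ℝ} {S : ℝ} (hS : HasSum a S) (K : ℕ)
    (hU : Filter.Tendsto U Filter.atTop (nhds 0))
    (h : ∀ k, K ≤ k → U k - U (k + 1) ≤ a k) : ∑ k ∈ Finset.range K, a k + U K ≤ S := by
  have hp : ∀ N, ∑ k ∈ Finset.range K, a k + U K ≤ ∑ k ∈ Finset.range (K + N), a k + U (K + N) := by
    intro N
    induction N with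
    | zero => simp
    | succ N ih =>
      rw [← add_assoc, Finset.sum_range_succ]
      have := h (K + N) (Nat.le_add_right _ _)
      linarith
  have hT := hS.tendsto_sum_nat.add hU
  rw [add_zero] at hT
  refine ge_of_tendsto hT ?_
  filter_upwards [Filter.eventually_ge_atTop K] with M hM
  obtain ⟨N, rfl⟩ := Nat.exists_eq_add_of_le hM
  exact hp N

theorem one_le_ar {ν : ℝ} (hν : 4 ≤ ν) : 1 ≤ ar ν := by
  have h := le_hasSum (hasSum_ar hν) 0 (fun k _ => sbarea_nonneg hν k)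
  simpa [Ak, bk] using h

theorem ar_anti {p r : ℝ} (hp : 4 ≤ p) (h : p ≤ r) : ar r ≤ ar p := by
  refine hasSum_le (fun k => ?_) (hasSum_ar (hp.trans h)) (hasSum_ar hp)
  have hk : (0 : ℝ) ≤ k := Nat.cast_nonneg k
  have hp0 : 0 < p := by linarith
  have hr0 : 0 < r := by linarith
  have h1 : 2 / r ≤ 2 / p := div_le_div_of_nonneg_left (by norm_num) hp0 h
  have h2 := bk_mono (τ := 2 / r) (by positivity) h1 k
  have h3 := bk_nonneg (τ := 2 / r) (by positivity) k
  unfold Ak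
  refine div_le_div₀ (sq_nonneg _) (pow_le_pow_left₀ h3 h2 2) (by positivity) ?_
  have := mul_le_mul_of_nonneg_right h hk
  linarith

theorem ar_le {ν : ℝ} (hν : 4 ≤ ν) : ar ν ≤ 551 / 500 := by
  refine (ar_anti le_rfl hν).trans ?_
  have h := tele_le (U := fun k => 91 / 250 * bk (2 / 4) k ^ 2) (hasSum_ar (ν := 4) le_rfl) 2
    (fun k => by positivity) (fun k hk => by
      refine sbarea_step (by norm_num) k ?_
      have hk' : (2 : ℝ) ≤ k := by exact_mod_cast hk
      nlinarith [mul_nonneg (sub_nonneg.2 hk') (sub_nonneg.2 hk')])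
  refine h.trans ?_
  simp only [Finset.sum_range_succ, Finset.range_zero, Finset.sum_empty, Ak, bk]
  norm_num

theorem ar_five : ar 5 ≤ 209 / 200 := by
  have h := tele_le (U := fun k => 2111 / 10000 * bk (2 / 5) k ^ 2)
    (hasSum_ar (ν := 5) (by norm_num)) 4
    (fun k => by positivity) (fun k hk => by
      refine sbarea_step (by norm_num) k ?_
      have hk' : (4 : ℝ) ≤ k := by exact_mod_cast hk
      nlinarith [mul_nonneg (sub_nonneg.2 hk') (sub_nonneg.2 hk')])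
  refine h.trans ?_
  simp only [Finset.sum_range_succ, Finset.range_zero, Finset.sum_empty, Ak, bk]
  norm_num

theorem J2_ar_nonneg {m n t : ℝ} (h : Par m n t) : 0 ≤ J2 n t ar := by
  have h4 := h.m4
  have ht := h.t0
  have hmn := h.mn
  have hS := hasSum_J2 (n := n) (t := t) (F := fun k ν => Ak ν k) (S := ar)
    (hasSum_ar (by linarith)) (hasSum_ar (by linarith)) (hasSum_ar (by linarith))
  refine hS.nonneg (fun k => ?_)
  have hk : (0 : ℝ) ≤ k := Nat.cast_nonneg k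
  have hL : 0 < 1 + (k : ℝ) * m := by
    have : 0 ≤ (k : ℝ) * m := mul_nonneg hk (by linarith)
    linarith
  have h1 := (UJ.mul ht (UJ.mul ht (bk_UJ h k) (bk_UJ h k)) (UJ_inv ht hmn hk hL)).p2
  have h2 : (fun ν : ℝ => Ak ν k)
      = fun ν : ℝ => bk (2 / ν) k * bk (2 / ν) k * (1 / (1 + (k : ℝ) * ν)) := by
    funext ν
    unfold Ak
    rw [mul_comm ν, sq, mul_one_div]
  rw [h2]
  exact h1

end Pool.Agent.PSF
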