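import Pool.Agent.P.MP_7b7370_an.SBArea

set_option autoImplicit false

namespace Pool.Agent.PSF

open Real Set MeasureTheory

theorem sbarea2_UJ {m n t : ℝ} (h : Par m n t) (k : ℕ) :
    0 ≤ (J1 n t fun ν => Ak ν k) ∧ (J1 n t fun ν => Ak ν k) ≤
      4 / m ^ 2 * (bk (2 / m) k * bd (2 / m) k) * (1 / (1 + k * m)) +
        bk (2 / m) k ^ 2 * (k / (1 + k * m) ^ 2) := by
  have hm : (0 : ℝ) < m := by linarith [h.m4]
  have hk : (0 : ℝ) ≤ k := Nat.cast_nonneg k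
  have hL : (0 : ℝ) < 1 + k * m := by positivity
  have hU := UJ.mul h.t0 (UJ.mul h.t0 (bk_UJ h k) (bk_UJ h k)) (UJ_inv h.t0 h.mn hk hL)
  have he : (fun ν : ℝ => Ak ν k) =
      fun ν : ℝ => bk (2 / ν) k * bk (2 / ν) k * (1 / (1 + k * ν)) := by
    funext ν
    unfold Ak
    rw [mul_comm ν (k : ℝ), sq, mul_one_div]
  rw [he]
  refine ⟨hU.p1, hU.u1.trans (le_of_eq ?_)⟩
  ring

theorem J1_Ak_le {m0 m n t : ℝ} (h0 : 4 ≤ m0) (hm : m0 ≤ m) (h : Par m n t) (k : ℕ) :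
    (J1 n t fun ν => Ak ν k) ≤ (m0 / m) ^ 2 *
      (4 / m0 ^ 2 * (bk (2 / m0) k * bd (2 / m0) k) / (1 + m0 * k) +
        k * bk (2 / m0) k ^ 2 / (1 + m0 * k) ^ 2) := by
  have hm0 : (0 : ℝ) < m0 := by linarith
  have hm1 : (0 : ℝ) < m := by linarith
  have hk : (0 : ℝ) ≤ k := Nat.cast_nonneg k
  have hL0 : (0 : ℝ) < 1 + m0 * k := by positivity
  have hL : 1 + m0 * k ≤ 1 + k * m := by nlinarith
  have hτ0 : (0 : ℝ) ≤ 2 / m := by positivity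
  have hτ : 2 / m ≤ 2 / m0 := div_le_div_of_nonneg_left (by norm_num) hm0 hm
  have hp := bk_nonneg hτ0 k
  have hq := bd_nonneg hτ0 k
  have hp0 := bk_mono hτ0 hτ k
  have hq0 := bd_mono hτ0 hτ k
  refine (sbarea2_UJ h k).2.trans ?_
  have hi : 1 / (1 + k * m) ≤ 1 / (1 + m0 * k) := one_div_le_one_div_of_le hL0 hL
  have hi2 : (k : ℝ) / (1 + k * m) ^ 2 ≤ k / (1 + m0 * k) ^ 2 :=
    div_le_div_of_nonneg_left hk (by positivity) (pow_le_pow_left₀ hL0.le hL 2)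
  have h1 : 4 / m ^ 2 * (bk (2 / m) k * bd (2 / m) k) * (1 / (1 + k * m)) ≤
      4 / m ^ 2 * (bk (2 / m0) k * bd (2 / m0) k) * (1 / (1 + m0 * k)) := by
    have hpq : bk (2 / m) k * bd (2 / m) k ≤ bk (2 / m0) k * bd (2 / m0) k :=
      mul_le_mul hp0 hq0 hq (hp.trans hp0)
    have hc : (0 : ℝ) ≤ 4 / m ^ 2 := by positivity
    exact mul_le_mul (mul_le_mul_of_nonneg_left hpq hc) hi (by positivity)
      (mul_nonneg hc (mul_nonneg (hp.trans hp0) (hq.trans hq0)))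
  have h2 : bk (2 / m) k ^ 2 * (k / (1 + k * m) ^ 2) ≤
      (m0 / m * bk (2 / m0) k) ^ 2 * (k / (1 + m0 * k) ^ 2) := by
    rcases Nat.eq_zero_or_pos k with rfl | hk1
    · simp
    · have hs := bk_scale hτ0 hτ hk1
      have hs' : bk (2 / m) k ≤ m0 / m * bk (2 / m0) k := by
        have e1 : bk (2 / m) k = m0 / 2 * (2 / m0 * bk (2 / m) k) := by field_simp
        have e2 : m0 / m * bk (2 / m0) k = m0 / 2 * (2 / m * bk (2 / m0) k) := by field_simp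
        rw [e1, e2]
        exact mul_le_mul_of_nonneg_left hs (by positivity)
      exact mul_le_mul (pow_le_pow_left₀ hp hs' 2) hi2 (by positivity) (by positivity)
  refine (add_le_add h1 h2).trans (le_of_eq ?_)
  field_simp

theorem sbarea2_step {τ c L al be : ℝ} (hτ : 0 ≤ τ) (k : ℕ)
    (h1 : c / L ≤ al * (1 - ((τ + k) / (k + 1)) ^ 2))
    (h2 : k / L ^ 2 + al * ((τ + k) / (k + 1)) / (k + 1) ≤ be * (1 - ((τ + k) / (k + 1)) ^ 2)) :
    c * (bk τ k * bd τ k) / L + k * bk τ k ^ 2 / L ^ 2 ≤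
      (al * (bk τ k * bd τ k) + be * bk τ k ^ 2) -
        (al * (bk τ (k + 1) * bd τ (k + 1)) + be * bk τ (k + 1) ^ 2) := by
  have hp := bk_nonneg hτ k
  have hq := bd_nonneg hτ k
  have e1 : bk τ (k + 1) = bk τ k * ((τ + k) / (k + 1)) := rfl
  have e2 : bd τ (k + 1) = bd τ k * ((τ + k) / (k + 1)) + bk τ k / (k + 1) := by
    show (bd τ k * (τ + k) + bk τ k) / (k + 1) = _
    ring
  rw [e1, e2]
  have a1 := mul_le_mul_of_nonneg_right h1 (mul_nonneg hp hq)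
  have a2 := mul_le_mul_of_nonneg_right h2 (sq_nonneg (bk τ k))
  generalize (τ + k) / ((k : ℝ) + 1) = r at *
  have b1 : c * (bk τ k * bd τ k) / L = c / L * (bk τ k * bd τ k) := by ring
  have b2 : k * bk τ k ^ 2 / L ^ 2 = k / L ^ 2 * bk τ k ^ 2 := by ring
  have b3 : al * (bk τ k * r * (bd τ k * r + bk τ k / (k + 1))) =
      al * r ^ 2 * (bk τ k * bd τ k) + al * r / (k + 1) * bk τ k ^ 2 := by ring
  rw [b1, b2, b3]
  nlinarith [a1, a2]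

theorem sbarea2_hasSum {m n t : ℝ} (h : Par m n t) :
    HasSum (fun k => J1 n t fun ν => Ak ν k) (J1 n t ar) := by
  have h1 : 4 ≤ n - t := h.m4.trans h.mn
  have h2 : 4 ≤ n + t := by linarith [h.t0]
  exact hasSum_J1 (F := fun k ν => Ak ν k) (hasSum_ar h2) (hasSum_ar h1)

theorem sbarea2_num4a {k : ℝ} (hk : 1 ≤ k) :
    4 / 4 ^ 2 / (1 + 4 * k) ≤ 1144 / 10000 * (1 - ((2 / 4 + k) / (k + 1)) ^ 2) := by
  have e : 1 - ((2 / 4 + k) / (k + 1)) ^ 2 = (k + 3 / 4) / (k + 1) ^ 2 := by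
    field_simp
    ring
  rw [e, ← mul_div_assoc, div_le_div_iff₀ (by positivity) (by positivity)]
  nlinarith [mul_nonneg (sub_nonneg.2 hk) (sub_nonneg.2 hk)]

theorem sbarea2_num4b {k : ℝ} (hk : 1 ≤ k) :
    k / (1 + 4 * k) ^ 2 + 1144 / 10000 * ((2 / 4 + k) / (k + 1)) / (k + 1) ≤
      19 / 100 * (1 - ((2 / 4 + k) / (k + 1)) ^ 2) := by
  have e : 19 / 100 * (1 - ((2 / 4 + k) / (k + 1)) ^ 2) -
      1144 / 10000 * ((2 / 4 + k) / (k + 1)) / (k + 1) =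
      (756 / 10000 * k + 853 / 10000) / (k + 1) ^ 2 := by
    field_simp
    ring
  have h : k / (1 + 4 * k) ^ 2 ≤ (756 / 10000 * k + 853 / 10000) / (k + 1) ^ 2 := by
    rw [div_le_div_iff₀ (by positivity) (by positivity)]
    obtain ⟨w, hw, rfl⟩ : ∃ w : ℝ, 0 ≤ w ∧ k = 1 + w := ⟨k - 1, by linarith, by ring⟩
    nlinarith [mul_nonneg hw hw, mul_nonneg (mul_nonneg hw hw) hw]
  linarith

theorem sbarea2_num5a {k : ℝ} (hk : 2 ≤ k) :
    4 / 5 ^ 2 / (1 + 5 * k) ≤ 405 / 10000 * (1 - ((2 / 5 + k) / (k + 1)) ^ 2) := by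
  have e : 1 - ((2 / 5 + k) / (k + 1)) ^ 2 = (6 / 5 * k + 21 / 25) / (k + 1) ^ 2 := by
    field_simp
    ring
  rw [e, ← mul_div_assoc, div_le_div_iff₀ (by positivity) (by positivity)]
  nlinarith [mul_nonneg (sub_nonneg.2 hk) (sub_nonneg.2 hk)]

theorem sbarea2_num5b {k : ℝ} (hk : 2 ≤ k) :
    k / (1 + 5 * k) ^ 2 + 405 / 10000 * ((2 / 5 + k) / (k + 1)) / (k + 1) ≤
      76 / 1000 * (1 - ((2 / 5 + k) / (k + 1)) ^ 2) := by
  have e : 76 / 1000 * (1 - ((2 / 5 + k) / (k + 1)) ^ 2) -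
      405 / 10000 * ((2 / 5 + k) / (k + 1)) / (k + 1) =
      (507 / 10000 * k + 4764 / 100000) / (k + 1) ^ 2 := by
    field_simp
    ring
  have h : k / (1 + 5 * k) ^ 2 ≤ (507 / 10000 * k + 4764 / 100000) / (k + 1) ^ 2 := by
    rw [div_le_div_iff₀ (by positivity) (by positivity)]
    obtain ⟨w, hw, rfl⟩ : ∃ w : ℝ, 0 ≤ w ∧ k = 2 + w := ⟨k - 2, by linarith, by ring⟩
    nlinarith [mul_nonneg hw hw, mul_nonneg (mul_nonneg hw hw) hw]
  linarith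

theorem J1_ar_le {m n t : ℝ} (h : Par m n t) :
    0 ≤ J1 n t ar ∧ J1 n t ar ≤ 21 / 200 * (4 / m) ^ 2 := by
  have hS := sbarea2_hasSum h
  refine ⟨hS.nonneg fun k => (sbarea2_UJ h k).1, ?_⟩
  have hτ : (0 : ℝ) ≤ 2 / 4 := by norm_num
  have hc : (0 : ℝ) ≤ (4 / m) ^ 2 := sq_nonneg _
  have hT := tele_le hS
    (U := fun k => (4 / m) ^ 2 *
      (1144 / 10000 * (bk (2 / 4) k * bd (2 / 4) k) + 19 / 100 * bk (2 / 4) k ^ 2)) 1
    (fun k => by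
      have hp := bk_nonneg hτ k
      have hq := bd_nonneg hτ k
      positivity)
    (fun k hk => by
      have hk' : (1 : ℝ) ≤ k := by exact_mod_cast hk
      refine (J1_Ak_le le_rfl h.m4 h k).trans ?_
      rw [← mul_sub]
      exact mul_le_mul_of_nonneg_left
        (sbarea2_step hτ k (sbarea2_num4a hk') (sbarea2_num4b hk')) hc)
  have h0 := J1_Ak_le le_rfl h.m4 h 0
  rw [Finset.sum_range_one] at hT
  have e0 : bd (2 / 4 : ℝ) 0 = 0 := rfl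
  have e1 : bk (2 / 4 : ℝ) 1 = 2 / 4 := bk_one _
  have e2 : bd (2 / 4 : ℝ) 1 = 1 := by
    simp [bd, bk]
  rw [e0] at h0
  rw [e1, e2] at hT
  simp only [mul_zero, zero_div, Nat.cast_zero, zero_mul, add_zero] at h0
  nlinarith

theorem J1_ar_five {n t : ℝ} (h : Par 5 n t) : J1 n t ar ≤ 4 / 125 := by
  have hS := sbarea2_hasSum h
  have hτ : (0 : ℝ) ≤ 2 / 5 := by norm_num
  have h45 : (4 : ℝ) ≤ 5 := by norm_num
  have hA : ∀ k : ℕ, (J1 n t fun ν => Ak ν k) ≤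
      4 / 5 ^ 2 * (bk (2 / 5) k * bd (2 / 5) k) / (1 + 5 * k) +
        k * bk (2 / 5) k ^ 2 / (1 + 5 * k) ^ 2 := fun k => by
    have := J1_Ak_le h45 le_rfl h k
    rwa [div_self (by norm_num : (5 : ℝ) ≠ 0), one_pow, one_mul] at this
  have hT := tele_le hS
    (U := fun k =>
      405 / 10000 * (bk (2 / 5) k * bd (2 / 5) k) + 76 / 1000 * bk (2 / 5) k ^ 2) 2
    (fun k => by
      have hp := bk_nonneg hτ k
      have hq := bd_nonneg hτ k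
      positivity)
    (fun k hk => by
      have hk' : (2 : ℝ) ≤ k := by exact_mod_cast hk
      exact (hA k).trans (sbarea2_step hτ k (sbarea2_num5a hk') (sbarea2_num5b hk')))
  rw [Finset.sum_range_succ, Finset.sum_range_one] at hT
  have h0 := hA 0
  have h1 := hA 1
  have e0 : bd (2 / 5 : ℝ) 0 = 0 := rfl
  have e1 : bk (2 / 5 : ℝ) 1 = 2 / 5 := bk_one _
  have e2 : bd (2 / 5 : ℝ) 1 = 1 := by
    simp [bd, bk]
  have e3 : bk (2 / 5 : ℝ) 2 = 7 / 25 := by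
    show bk (2 / 5 : ℝ) 1 * ((2 / 5 + ((1 : ℕ) : ℝ)) / (((1 : ℕ) : ℝ) + 1)) = _
    rw [e1]
    norm_num
  have e4 : bd (2 / 5 : ℝ) 2 = 9 / 10 := by
    show (bd (2 / 5 : ℝ) 1 * (2 / 5 + ((1 : ℕ) : ℝ)) + bk (2 / 5 : ℝ) 1) / (((1 : ℕ) : ℝ) + 1) = _
    rw [e1, e2]
    norm_num
  rw [e0] at h0
  rw [e1, e2] at h1
  rw [e3, e4] at hT
  norm_num at h0 h1 hT ⊢
  linarith

end Pool.Agent.PSF
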