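import Pool.Agent.P.MP_7b7370_an.SBPars

set_option autoImplicit false

namespace Pool.Agent.PSF

open Real Set MeasureTheory

lemma sbvar_pt {C S P Q L : ℝ} (hL : 0 ≤ L) (h : P ^ 2 + Q ^ 2 ≤ L ^ 2) :
    (2 * C + (C * P + S * Q)) ^ 2 ≤
      (4 + 800 / 283 * L) * C ^ 2 + (L ^ 2 + 283 / 200 * L) * (C ^ 2 + S ^ 2) := by
  have h1 : (C * P + S * Q) ^ 2 ≤ L ^ 2 * (C ^ 2 + S ^ 2) := by
    have h2 : (C * P + S * Q) ^ 2 ≤ (P ^ 2 + Q ^ 2) * (C ^ 2 + S ^ 2) := by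
      nlinarith [sq_nonneg (C * Q - S * P)]
    exact h2.trans (mul_le_mul_of_nonneg_right h (by positivity))
  generalize C * P + S * Q = E at h1 ⊢
  generalize C ^ 2 + S ^ 2 = N at h1 ⊢
  have h3 : 4 * C * E ≤ 800 / 283 * L * C ^ 2 + 283 / 200 * L * N := by
    rcases hL.eq_or_lt with h0 | h0
    · subst h0
      have h4 : E = 0 := by nlinarith [sq_nonneg E]
      rw [h4]
      simp
    · refine le_of_mul_le_mul_left ?_ h0
      nlinarith [sq_nonneg (L * C - 283 / 400 * E)]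
  nlinarith

theorem var_le {α : ℕ → ℝ} {P Q : ℝ → ℝ} {A L : ℝ} (h : Summable α) (h0 : α 0 = 0)
    (hA : ∑' k, α k ^ 2 ≤ A) (hL : 0 ≤ L) (hP : Continuous P) (hQ : Continuous Q)
    (hPQ : ∀ φ, P φ ^ 2 + Q φ ^ 2 ≤ L ^ 2) :
    ∫ φ in (0 : ℝ)..π, (2 * Cs α φ + (Cs α φ * P φ + Sn α φ * Q φ)) ^ 2 ≤
      π * (A * (2 + 283 / 100 * L + L ^ 2)) := by
  have hC := continuous_Cs h
  have hS := continuous_Sn h
  have h1 : ∫ φ in (0 : ℝ)..π, (2 * Cs α φ + (Cs α φ * P φ + Sn α φ * Q φ)) ^ 2 ≤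
      ∫ φ in (0 : ℝ)..π, ((4 + 800 / 283 * L) * Cs α φ ^ 2 +
        (L ^ 2 + 283 / 200 * L) * (Cs α φ ^ 2 + Sn α φ ^ 2)) :=
    intervalIntegral.integral_mono_on pi_pos.le (Continuous.intervalIntegrable (by fun_prop) _ _)
      (Continuous.intervalIntegrable (by fun_prop) _ _) fun φ _ => sbvar_pt hL (hPQ φ)
  rw [intervalIntegral.integral_add (Continuous.intervalIntegrable (by fun_prop) _ _)
    (Continuous.intervalIntegrable (by fun_prop) _ _), intervalIntegral.integral_const_mul,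
    intervalIntegral.integral_const_mul, parseval h, parseval_cos h h0] at h1
  have hT : 0 ≤ ∑' k, α k ^ 2 := tsum_nonneg fun k => sq_nonneg _
  generalize ∑' k, α k ^ 2 = T at h1 hA hT
  refine h1.trans ?_
  calc (4 + 800 / 283 * L) * (π / 2 * T) + (L ^ 2 + 283 / 200 * L) * (π * T)
      = π * (T * (2 + (400 / 283 + 283 / 200) * L + L ^ 2)) := by ring
    _ ≤ π * (A * (2 + 283 / 100 * L + L ^ 2)) := by
      have hA0 : 0 ≤ A := hT.trans hA
      have := pi_pos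
      gcongr
      norm_num

theorem var_sq_le {α : ℕ → ℝ} {A L : ℝ} (h : Summable α) (hp : ∀ k, 0 ≤ α k)
    (hA : ∑' k, α k ^ 2 ≤ A) (hL : ∑' k, α k ≤ L) :
    ∫ φ in (0 : ℝ)..π, (Cs α φ ^ 2 + Sn α φ ^ 2) ^ 2 ≤ π * (A * L ^ 2) := by
  have hC := continuous_Cs h
  have hS := continuous_Sn h
  have h2 : (∑' k, α k) ^ 2 ≤ L ^ 2 := pow_le_pow_left₀ (tsum_nonneg hp) hL 2
  have h1 : ∫ φ in (0 : ℝ)..π, (Cs α φ ^ 2 + Sn α φ ^ 2) ^ 2 ≤
      ∫ φ in (0 : ℝ)..π, L ^ 2 * (Cs α φ ^ 2 + Sn α φ ^ 2) :=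
    intervalIntegral.integral_mono_on pi_pos.le (Continuous.intervalIntegrable (by fun_prop) _ _)
      (Continuous.intervalIntegrable (by fun_prop) _ _) fun φ _ => by
        rw [sq]
        exact mul_le_mul_of_nonneg_right ((sq_add_sq_le h hp φ).trans h2) (by positivity)
  rw [intervalIntegral.integral_const_mul, parseval h] at h1
  refine h1.trans ?_
  calc L ^ 2 * (π * ∑' k, α k ^ 2) = π * ((∑' k, α k ^ 2) * L ^ 2) := by ring
    _ ≤ π * (A * L ^ 2) := by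
      have := pi_pos
      gcongr

theorem var_add_le {f g : ℝ → ℝ} {A B : ℝ} (hf : Continuous f) (hg : Continuous g)
    (hA : ∫ φ in (0 : ℝ)..π, f φ ^ 2 ≤ A) (hB : ∫ φ in (0 : ℝ)..π, g φ ^ 2 ≤ B) :
    ∫ φ in (0 : ℝ)..π, (f φ + g φ) ^ 2 ≤ 7 / 5 * A + 7 / 2 * B := by
  have h1 : ∫ φ in (0 : ℝ)..π, (f φ + g φ) ^ 2 ≤
      ∫ φ in (0 : ℝ)..π, (7 / 5 * f φ ^ 2 + 7 / 2 * g φ ^ 2) :=
    intervalIntegral.integral_mono_on pi_pos.le (Continuous.intervalIntegrable (by fun_prop) _ _)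
      (Continuous.intervalIntegrable (by fun_prop) _ _) fun φ _ => by
        nlinarith [sq_nonneg (2 * f φ - 5 * g φ)]
  rw [intervalIntegral.integral_add (Continuous.intervalIntegrable (by fun_prop) _ _)
    (Continuous.intervalIntegrable (by fun_prop) _ _), intervalIntegral.integral_const_mul,
    intervalIntegral.integral_const_mul] at h1
  linarith

theorem cs_of_quad {a b c X Y : ℝ} (h : ∀ s : ℝ, 0 ≤ a + 2 * b * s + c * s ^ 2) (hX : 0 ≤ X)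
    (hY : 0 ≤ Y) (ha : a ≤ X ^ 2) (hc : c ≤ Y ^ 2) : |b| ≤ X * Y := by
  have h1 : ∀ s : ℝ, 0 ≤ Y ^ 2 * (s * s) + 2 * b * s + X ^ 2 := fun s => by
    have h2 := h s
    have h3 := mul_le_mul_of_nonneg_right hc (sq_nonneg s)
    nlinarith
  have h2 := discrim_le_zero h1
  rw [discrim] at h2
  refine abs_le_of_sq_le_sq ?_ (mul_nonneg hX hY)
  nlinarith

theorem le_of_amgm {z X Y : ℝ} (hX : 0 ≤ X) (hY : 0 ≤ Y)
    (h : ∀ θ : ℝ, 0 < θ → z ≤ (θ * X ^ 2 + Y ^ 2 / θ) / 2) : z ≤ X * Y := by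
  have key : ∀ e : ℝ, 0 < e → z ≤ (X + e) * (Y + e) := fun e he => by
    have h1 : 0 < X + e := by linarith
    have h2 : 0 < Y + e := by linarith
    refine (h ((Y + e) / (X + e)) (div_pos h2 h1)).trans ?_
    have h3 : (Y + e) / (X + e) * X ^ 2 ≤ (X + e) * (Y + e) := by
      rw [div_mul_eq_mul_div, div_le_iff₀ h1]
      have h4 : X ^ 2 ≤ (X + e) ^ 2 := pow_le_pow_left₀ hX (by linarith) 2
      nlinarith [mul_le_mul_of_nonneg_left h4 h2.le]
    have h4 : Y ^ 2 / ((Y + e) / (X + e)) ≤ (X + e) * (Y + e) := by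
      rw [div_div_eq_mul_div, div_le_iff₀ h2]
      have h5 : Y ^ 2 ≤ (Y + e) ^ 2 := pow_le_pow_left₀ hY (by linarith) 2
      nlinarith [mul_le_mul_of_nonneg_left h5 h1.le]
    linarith
  have hc : Continuous fun e : ℝ => (X + e) * (Y + e) := by fun_prop
  have ht : Filter.Tendsto (fun e : ℝ => (X + e) * (Y + e)) (nhdsWithin 0 (Ioi 0))
      (nhds ((X + 0) * (Y + 0))) := (hc.tendsto 0).mono_left nhdsWithin_le_nhds
  rw [add_zero, add_zero] at ht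
  exact ge_of_tendsto ht (Filter.eventually_of_mem self_mem_nhdsWithin key)

end Pool.Agent.PSF
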