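import Pool.Agent.P.MP_7b7370_an.SBAdm
import Pool.Agent.P.MP_7b7370_an.SBVar

set_option autoImplicit false

namespace Pool.Agent.PSF

open Real Set MeasureTheory

theorem sbbil_lin {F G H : ℝ × ℝ → ℝ} (hF : IntegrableOn F Pi0) (hG : IntegrableOn G Pi0) {a b : ℝ}
    (h : ∀ p, H p = a * F p + b * G p) :
    ∫ p in Pi0, H p = a * (∫ p in Pi0, F p) + b * ∫ p in Pi0, G p := by
  rw [← integral_const_mul, ← integral_const_mul,
    ← integral_add (hF.const_mul a) (hG.const_mul b)]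
  exact integral_congr_ae (Filter.Eventually.of_forall h)

theorem Bw_comm (f U V : ℝ × ℝ → ℝ) : Bw f U V = Bw f V U := by
  simp only [Bw, mul_comm (U _)]

theorem E1_comm (U V : ℝ × ℝ → ℝ) : E1 U V = E1 V U := by
  simp only [E1, mul_comm (dx U _)]

theorem E2_comm (U V : ℝ × ℝ → ℝ) : E2 U V = E2 V U := by
  simp only [E2, mul_comm (dy U _)]

theorem Db_comm (n : ℝ) (U V : ℝ × ℝ → ℝ) : Db n U V = Db n V U := by
  rw [Db, Db, E1_comm, E2_comm]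

theorem E1_nonneg (V : ℝ × ℝ → ℝ) : 0 ≤ E1 V V := by
  exact integral_nonneg fun p => mul_self_nonneg _

theorem E2_nonneg (V : ℝ × ℝ → ℝ) : 0 ≤ E2 V V := by
  exact integral_nonneg fun p => mul_self_nonneg _

theorem Bw_lc {f U V Y : ℝ × ℝ → ℝ} (hf : IntegrableOn f Pi0) (hU : Adm U) (hV : Adm V)
    (hY : Adm Y) (a b : ℝ) : Bw f (lc a U b V) Y = a * Bw f U Y + b * Bw f V Y := by
  exact sbbil_lin (int_Bw hf hU hY) (int_Bw hf hV hY) fun p => by rw [lc]; ring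

theorem E1_lc {U V Y : ℝ × ℝ → ℝ} (hU : Adm U) (hV : Adm V) (hY : Adm Y) (a b : ℝ) :
    E1 (lc a U b V) Y = a * E1 U Y + b * E1 V Y := by
  exact sbbil_lin (int_E1 hU hY) (int_E1 hV hY) fun p => by rw [dx_lc hU hV]; ring

theorem E2_lc {U V Y : ℝ × ℝ → ℝ} (hU : Adm U) (hV : Adm V) (hY : Adm Y) (a b : ℝ) :
    E2 (lc a U b V) Y = a * E2 U Y + b * E2 V Y := by
  exact sbbil_lin (int_E2 hU hY) (int_E2 hV hY) fun p => by rw [dy_lc hU hV]; ring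

theorem Bw_sq {f U V : ℝ × ℝ → ℝ} (hf : IntegrableOn f Pi0) (hU : Adm U) (hV : Adm V) (a b : ℝ) :
    Bw f (lc a U b V) (lc a U b V) =
      a ^ 2 * Bw f U U + 2 * a * b * Bw f U V + b ^ 2 * Bw f V V := by
  rw [Bw_lc hf hU hV (hU.lc hV a b), Bw_comm f U, Bw_comm f V, Bw_lc hf hU hV hU,
    Bw_lc hf hU hV hV, Bw_comm f V U]
  ring

theorem E1_sq {U V : ℝ × ℝ → ℝ} (hU : Adm U) (hV : Adm V) (a b : ℝ) :
    E1 (lc a U b V) (lc a U b V) = a ^ 2 * E1 U U + 2 * a * b * E1 U V + b ^ 2 * E1 V V := by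
  rw [E1_lc hU hV (hU.lc hV a b), E1_comm U, E1_comm V, E1_lc hU hV hU, E1_lc hU hV hV,
    E1_comm V U]
  ring

theorem E2_sq {U V : ℝ × ℝ → ℝ} (hU : Adm U) (hV : Adm V) (a b : ℝ) :
    E2 (lc a U b V) (lc a U b V) = a ^ 2 * E2 U U + 2 * a * b * E2 U V + b ^ 2 * E2 V V := by
  rw [E2_lc hU hV (hU.lc hV a b), E2_comm U, E2_comm V, E2_lc hU hV hU, E2_lc hU hV hV,
    E2_comm V U]
  ring

theorem Db_sq {U V : ℝ × ℝ → ℝ} (hU : Adm U) (hV : Adm V) (n a b : ℝ) :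
    Db n (lc a U b V) (lc a U b V) =
      a ^ 2 * Db n U U + 2 * a * b * Db n U V + b ^ 2 * Db n V V := by
  simp only [Db]
  rw [E1_sq hU hV, E2_sq hU hV]
  ring

theorem Bw_lin {f g U V : ℝ × ℝ → ℝ} (hf : IntegrableOn f Pi0) (hg : IntegrableOn g Pi0)
    (hU : Adm U) (hV : Adm V) (a b : ℝ) :
    Bw (fun p => a * f p + b * g p) U V = a * Bw f U V + b * Bw g U V := by
  exact sbbil_lin (int_Bw hf hU hV) (int_Bw hg hU hV) fun p => by ring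

theorem Bw_w1 {n t : ℝ} (ht : 0 < t) (hn : 2 < n - t) {U V : ℝ × ℝ → ℝ} (hU : Adm U)
    (hV : Adm V) : Bw (w1 n t) U V = J1 n t fun ν => Bw (om ν) U V := by
  have e : w1 n t = fun p => 1 / (2 * t) * om (n - t) p + -(1 / (2 * t)) * om (n + t) p := by
    funext p
    simp only [w1, J1]
    ring
  rw [e, Bw_lin (integrableOn_om hn) (integrableOn_om (by linarith)) hU hV, J1]
  ring

theorem Bw_w2 {n t : ℝ} (ht : 0 < t) (hn : 2 < n - t) {U V : ℝ × ℝ → ℝ} (hU : Adm U)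
    (hV : Adm V) : Bw (w2 n t) U V = J2 n t fun ν => Bw (om ν) U V := by
  have i0 : IntegrableOn (om n) Pi0 := integrableOn_om (by linarith)
  have i1 : IntegrableOn (om (n + t)) Pi0 := integrableOn_om (by linarith)
  have i2 : IntegrableOn (om (n - t)) Pi0 := integrableOn_om hn
  have i3 : IntegrableOn (fun p => 1 * om (n + t) p + 1 * om (n - t) p) Pi0 :=
    (i1.const_mul 1).add (i2.const_mul 1)
  have e : w2 n t = fun p => 1 / (2 * t ^ 2) * (1 * om (n + t) p + 1 * om (n - t) p) +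
      -(1 / t ^ 2) * om n p := by
    funext p
    simp only [w2, J2]
    ring
  rw [e, Bw_lin i3 i0 hU hV, Bw_lin i1 i2 hU hV, J2]
  ring

theorem Dn_eq {V : ℝ × ℝ → ℝ} (hV : Adm V) (n : ℝ) : Dn n V = Db n V V := by
  rw [Db, ← one_mul (E1 V V)]
  exact sbbil_lin (int_E1 hV hV) (int_E2 hV hV) fun p => by ring

theorem Bn_eq (n : ℝ) (V : ℝ × ℝ → ℝ) : Bn n V = Bw (om n) V V := by
  simp only [Bn, Bw, sq]

theorem q_nonneg {n : ℝ} (hn : 0 < n) {V : ℝ × ℝ → ℝ} (hV : Adm V) :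
    0 ≤ Db n V V - lam n * Bw (om n) V V := by
  rw [← Dn_eq hV, ← Bn_eq]
  exact sub_nonneg.2 (lam_le hn hV)

theorem q_cs {n X Y : ℝ} (hn : 2 < n) {U V : ℝ × ℝ → ℝ} (hU : Adm U) (hV : Adm V) (hX : 0 ≤ X)
    (hY : 0 ≤ Y) (h1 : Db n U U - lam n * Bw (om n) U U ≤ X ^ 2)
    (h2 : Db n V V - lam n * Bw (om n) V V ≤ Y ^ 2) :
    |Db n U V - lam n * Bw (om n) U V| ≤ X * Y := by
  refine cs_of_quad (fun s => ?_) hX hY h1 h2
  have h := q_nonneg (n := n) (by linarith) (hU.lc hV 1 s)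
  rw [Db_sq hU hV, Bw_sq (integrableOn_om hn) hU hV] at h
  linarith

theorem M_cs {n X Y : ℝ} (hn : 2 < n) {U V : ℝ × ℝ → ℝ} (hU : Adm U) (hV : Adm V) (hX : 0 ≤ X)
    (hY : 0 ≤ Y) (h1 : Bw (om n) U U ≤ X ^ 2) (h2 : Bw (om n) V V ≤ Y ^ 2) :
    |Bw (om n) U V| ≤ X * Y := by
  refine cs_of_quad (fun s => ?_) hX hY h1 h2
  have h := Bn_nonneg (n := n) (by linarith) (lc 1 U s V)
  rw [Bn_eq, Bw_sq (integrableOn_om hn) hU hV] at h
  linarith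

theorem E2_cs {X Y : ℝ} {U V : ℝ × ℝ → ℝ} (hU : Adm U) (hV : Adm V) (hX : 0 ≤ X)
    (hY : 0 ≤ Y) (h1 : E2 U U ≤ X ^ 2) (h2 : E2 V V ≤ Y ^ 2) : |E2 U V| ≤ X * Y := by
  refine cs_of_quad (fun s => ?_) hX hY h1 h2
  have h := E2_nonneg (lc 1 U s V)
  rw [E2_sq hU hV] at h
  linarith

end Pool.Agent.PSF
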