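import Pool.Agent.P.MP_7b7370_an.SBCoef

set_option autoImplicit false

namespace Pool.Agent.PSF

open Real Set MeasureTheory

theorem sbcoefg_tau {m ν : ℝ} (hm : 4 ≤ m) (hν : m ≤ ν) :
    0 ≤ 2 / ν ∧ 2 / ν ≤ 2 / m ∧ 2 / m ≤ 1 / 2 :=
  ⟨div_nonneg (by norm_num) (by linarith),
    div_le_div_of_nonneg_left (by norm_num) (by linarith) hν,
    by rw [div_le_div_iff₀ (by linarith) (by norm_num)]; linarith⟩

theorem sbcoefg_exp {m ν s : ℝ} (hν : m ≤ ν) (hs : 0 < s) (k : ℕ) :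
    exp (-(k * ν * s)) ≤ exp (-(k * (m * s))) := by
  rw [exp_le_exp, neg_le_neg_iff, mul_assoc]
  exact mul_le_mul_of_nonneg_left (mul_le_mul_of_nonneg_right hν hs.le) (Nat.cast_nonneg k)

theorem gk_zero (ν s : ℝ) : gk ν s 0 = 1 := by
  simp [gk, bk]

theorem gk_nonneg {ν : ℝ} (hν : 0 < ν) (s : ℝ) (k : ℕ) : 0 ≤ gk ν s k := by
  exact mul_nonneg (bk_nonneg (by positivity) k) (exp_pos _).le

theorem gk_le {m ν s : ℝ} (hm : 4 ≤ m) (hν : m ≤ ν) (hs : 0 < s) {k : ℕ} (hk : 1 ≤ k) :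
    gk ν s k ≤ 2 / m * exp (-(k * (m * s))) := by
  obtain ⟨h0, h1, h2⟩ := sbcoefg_tau hm hν
  exact mul_le_mul ((bk_le h0 (by linarith) hk).trans h1) (sbcoefg_exp hν hs k) (exp_pos _).le
    (h0.trans h1)

theorem gk_le34 {m ν s : ℝ} (hm : 4 ≤ m) (hν : m ≤ ν) (hs : 0 < s) {k : ℕ} (hk : 2 ≤ k) :
    gk ν s k ≤ 3 / 4 * (2 / m) * exp (-(k * (m * s))) := by
  obtain ⟨h0, h1, h2⟩ := sbcoefg_tau hm hν
  exact mul_le_mul ((bk_le34 h0 (by linarith) hk).trans (by linarith)) (sbcoefg_exp hν hs k)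
    (exp_pos _).le (by linarith)

theorem sbcoefg_le_pow {ν s : ℝ} (hν : 4 ≤ ν) (k : ℕ) : gk ν s k ≤ exp (-(ν * s)) ^ k := by
  obtain ⟨h0, -, h2⟩ := sbcoefg_tau hν le_rfl
  have e : exp (-(ν * s)) ^ k = exp (-(k * ν * s)) := by
    rw [← exp_nat_mul]
    congr 1
    ring
  rw [e, gk]
  exact mul_le_of_le_one_left (exp_pos _).le (bk_le_one h0 (by linarith) k)

theorem sbcoefg_q {ν s : ℝ} (hν : 4 ≤ ν) (hs : 0 < s) : exp (-(ν * s)) < 1 :=
  exp_lt_one_iff.2 (neg_neg_of_pos (mul_pos (by linarith) hs))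

theorem summable_gk {ν s : ℝ} (hν : 4 ≤ ν) (hs : 0 < s) : Summable (gk ν s) := by
  exact Summable.of_nonneg_of_le (gk_nonneg (by linarith) s) (sbcoefg_le_pow hν)
    (summable_geometric_of_lt_one (exp_pos _).le (sbcoefg_q hν hs))

theorem summable_gk_sq {ν s : ℝ} (hν : 4 ≤ ν) (hs : 0 < s) :
    Summable fun k => gk ν s k ^ 2 := by
  refine Summable.of_nonneg_of_le (fun k => sq_nonneg _) (fun k => ?_) (summable_gk hν hs)
  have h0 := gk_nonneg (show 0 < ν by linarith) s k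
  have h1 : gk ν s k ≤ 1 :=
    (sbcoefg_le_pow hν k).trans (pow_le_one₀ (exp_pos _).le (sbcoefg_q hν hs).le)
  rw [sq]
  exact mul_le_of_le_one_left h0 h1

theorem one_le_om0 {ν s : ℝ} (hν : 4 ≤ ν) (hs : 0 < s) : 1 ≤ om0 ν s := by
  have h := (summable_gk_sq hν hs).le_tsum 0 fun k _ => sq_nonneg _
  rwa [gk_zero, one_pow] at h

theorem gk_UJ_zero (n t s : ℝ) : UJ n t (fun ν => gk ν s 0) 1 0 0 := by
  simp only [gk_zero]
  exact UJ_const n t zero_le_one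

theorem sbcoefg_fun (s : ℝ) (k : ℕ) :
    (fun ν => gk ν s k) = fun ν => bk (2 / ν) k * exp (-(k * s * ν)) := by
  funext ν
  rw [gk, mul_right_comm (k : ℝ) ν s]

theorem gk_UJ_one {m n t s : ℝ} (h : Par m n t) (hs : 0 < s) :
    UJ n t (fun ν => gk ν s 1) (2 / m * exp (-(m * s)))
      (2 / m ^ 2 * ((1 + m * s) * exp (-(m * s))))
      (2 / m ^ 3 * ((1 + m * s + (m * s) ^ 2 / 2) * exp (-(m * s)))) := by
  have hm0 : 0 < m := by linarith [h.m4]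
  have hm : m ≠ 0 := hm0.ne'
  have h1 := (bk_UJ_one h).mul h.t0 (UJ_exp h.t0 h.mn hs.le)
  rw [sbcoefg_fun, Nat.cast_one, one_mul]
  rw [mul_comm s m] at h1
  refine h1.mono le_rfl (le_of_eq ?_) (le_of_eq ?_)
  · field_simp
  · field_simp
    ring

theorem gk_UJ {m n t s : ℝ} (h : Par m n t) (hs : 0 < s) {k : ℕ} (hk : 2 ≤ k) :
    UJ n t (fun ν => gk ν s k) (3 / 4 * (2 / m) * exp (-(k * (m * s))))
      (2 / m ^ 2 * ((1 + 3 / 4 * (k * (m * s))) * exp (-(k * (m * s)))))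
      (2 / m ^ 3 * ((2 + k * (m * s) + (k * (m * s)) ^ 2 / 2) * exp (-(k * (m * s))))) := by
  have hm0 : 0 < m := by linarith [h.m4]
  have hm : m ≠ 0 := hm0.ne'
  obtain ⟨h0, -, h2⟩ := sbcoefg_tau h.m4 le_rfl
  have hc : 0 ≤ (k : ℝ) * s := mul_nonneg (Nat.cast_nonneg k) hs.le
  have hb : UJ n t (fun ν => bk (2 / ν) k) (3 / 4 * (2 / m)) (2 / m ^ 2) (4 / m ^ 3) :=
    (bk_UJ h k).mono (bk_le34 h0 h2 hk)
      (mul_le_of_le_one_right (by positivity) (bd_le_one h0 h2 k)) le_rfl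
  have h1 := hb.mul h.t0 (UJ_exp h.t0 h.mn hc)
  have e : (k : ℝ) * s * m = k * (m * s) := by ring
  rw [sbcoefg_fun]
  rw [e] at h1
  refine h1.mono le_rfl (le_of_eq ?_) ?_
  · field_simp
  · have hE := (exp_pos (-(k * (m * s)))).le
    generalize exp (-(k * (m * s))) = E at hE ⊢
    have e2 : 2 / m ^ 3 * ((2 + k * (m * s) + (k * (m * s)) ^ 2 / 2) * E) =
        3 / 4 * (2 / m) * ((k * s) ^ 2 / 2 * E) + 4 / m ^ 3 * E + 2 / m ^ 2 * (k * s * E) +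
          (k * s) ^ 2 * E / (4 * m) := by
      field_simp
      ring
    rw [e2]
    exact le_add_of_nonneg_right (by positivity)

theorem sbcoefg_sq {m n t s : ℝ} (h : Par m n t) (hs : 0 < s) (k : ℕ) :
    0 ≤ J1 n t (fun ν => gk ν s k ^ 2) ∧ 0 ≤ J2 n t fun ν => gk ν s k ^ 2 := by
  have key : ∀ {A B C : ℝ}, UJ n t (fun ν => gk ν s k) A B C →
      0 ≤ J1 n t (fun ν => gk ν s k ^ 2) ∧ 0 ≤ J2 n t fun ν => gk ν s k ^ 2 := fun hU => by
    have h1 := hU.mul h.t0 hU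
    simp only [← sq] at h1
    exact ⟨h1.p1, h1.p2⟩
  rcases k with _ | _ | k
  · exact key (gk_UJ_zero n t s)
  · exact key (gk_UJ_one h hs)
  · exact key (gk_UJ h hs (by omega))

theorem sbcoefg_sum {m n t s : ℝ} (h : Par m n t) (hs : 0 < s) :
    HasSum (fun k => gk n s k ^ 2) (om0 n s) ∧
      HasSum (fun k => gk (n + t) s k ^ 2) (om0 (n + t) s) ∧
      HasSum (fun k => gk (n - t) s k ^ 2) (om0 (n - t) s) := by
  have h1 := h.m4
  have h2 := h.t0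
  have h3 := h.mn
  exact ⟨(summable_gk_sq (by linarith) hs).hasSum, (summable_gk_sq (by linarith) hs).hasSum,
    (summable_gk_sq (by linarith) hs).hasSum⟩

theorem J1_om0_nonneg {m n t s : ℝ} (h : Par m n t) (hs : 0 < s) :
    0 ≤ J1 n t fun ν => om0 ν s := by
  obtain ⟨-, hp, hm⟩ := sbcoefg_sum h hs
  exact (hasSum_J1 (F := fun k ν => gk ν s k ^ 2) (S := fun ν => om0 ν s) hp hm).nonneg
    fun k => (sbcoefg_sq h hs k).1

theorem J2_om0_nonneg {m n t s : ℝ} (h : Par m n t) (hs : 0 < s) :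
    0 ≤ J2 n t fun ν => om0 ν s := by
  obtain ⟨h0, hp, hm⟩ := sbcoefg_sum h hs
  exact (hasSum_J2 (F := fun k ν => gk ν s k ^ 2) (S := fun ν => om0 ν s) h0 hp hm).nonneg
    fun k => (sbcoefg_sq h hs k).2

theorem hasSum_J1_om0 {m n t s : ℝ} (h : Par m n t) (hs : 0 < s) :
    HasSum (fun k => 2 * (Jb n t (fun ν => gk ν s k) * J1 n t fun ν => gk ν s k))
      (J1 n t fun ν => om0 ν s) := by
  obtain ⟨-, hp, hm⟩ := sbcoefg_sum h hs
  have h1 := hasSum_J1 (F := fun k ν => gk ν s k ^ 2) (S := fun ν => om0 ν s) hp hm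
  have e : (fun k => 2 * (Jb n t (fun ν => gk ν s k) * J1 n t fun ν => gk ν s k)) =
      fun k => J1 n t fun ν => gk ν s k ^ 2 := by
    funext k
    simp only [sq]
    rw [J1_mul h.t0.ne']
    ring
  rw [e]
  exact h1

end Pool.Agent.PSF
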