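import Pool.Agent.P.MP_7b7370_an.SBPars
import Pool.Agent.P.MP_7b7370_an.SBCoefG

set_option autoImplicit false

namespace Pool.Agent.PSF

open Real Set MeasureTheory

theorem sbbin_fact (a : ℝ) (k : ℕ) :
    (k.factorial : ℂ) * (bk a k : ℂ) = (ascPochhammer ℂ k).eval (a : ℂ) := by
  induction k with
  | zero => simp [bk]
  | succ k ih =>
    rw [ascPochhammer_succ_eval, ← ih, Nat.factorial_succ, bk]
    have : (k : ℂ) + 1 ≠ 0 := by exact_mod_cast Nat.succ_ne_zero k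
    push_cast
    field_simp

theorem sbbin_choose (a : ℝ) (k : ℕ) : Ring.choose ((a : ℂ) + k - 1) k = (bk a k : ℂ) := by
  rw [← Ring.multichoose_eq]
  have h := Ring.factorial_nsmul_multichoose_eq_ascPochhammer (a : ℂ) k
  rw [Polynomial.ascPochhammer_smeval_eq_eval, ← sbbin_fact, nsmul_eq_mul] at h
  exact mul_left_cancel₀ (by exact_mod_cast k.factorial_ne_zero) h

theorem sbbin_hasSum (a : ℝ) {z : ℂ} (hz : ‖z‖ < 1) :
    HasSum (fun k : ℕ => (bk a k : ℂ) * z ^ k) (1 / (1 - z) ^ (a : ℂ)) := by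
  have h := (Complex.one_div_one_sub_cpow_hasFPowerSeriesOnBall_zero (a : ℂ)).hasSum
    (y := z) (by
      rw [Metric.mem_eball, edist_zero_right, ← ofReal_norm, ENNReal.ofReal_lt_one]
      exact hz)
  simpa only [FormalMultilinearSeries.ofScalars_apply_eq, sbbin_choose, smul_eq_mul,
    zero_add] using h

theorem sbbin_key {ν s : ℝ} (hν : 0 < ν) (hs : 0 < s) (φ : ℝ) :
    Cs (gk ν s) φ ^ 2 + Sn (gk ν s) φ ^ 2
      = (1 - 2 * exp (-ν * s) * cos φ + exp (-ν * s) ^ 2) ^ (-2 / ν) := by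
  set q : ℝ := exp (-ν * s) with hq
  have q0 : 0 < q := exp_pos _
  have q1 : q < 1 := by
    rw [hq, exp_lt_one_iff]
    nlinarith [mul_pos hν hs]
  set z : ℂ := (q : ℂ) * Complex.exp (φ * Complex.I) with hz
  have nz : ‖z‖ < 1 := by
    rw [hz, norm_mul, Complex.norm_exp_ofReal_mul_I, mul_one, Complex.norm_real,
      Real.norm_of_nonneg q0.le]
    exact q1
  have ht : ∀ k : ℕ, (bk (2 / ν) k : ℂ) * z ^ k
      = (gk ν s k : ℂ) * Complex.exp (((k * φ : ℝ) : ℂ) * Complex.I) := fun k => by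
    have e : exp (-(k * ν * s)) = q ^ k := by
      rw [hq, ← exp_nat_mul]
      congr 1
      ring
    rw [hz, mul_pow, ← Complex.exp_nat_mul, gk, e]
    push_cast
    rw [mul_assoc, mul_assoc]
  have h := sbbin_hasSum (2 / ν) nz
  simp only [ht] at h
  have hr := (Complex.hasSum_re h).tsum_eq
  have hi := (Complex.hasSum_im h).tsum_eq
  simp only [Complex.re_ofReal_mul, Complex.im_ofReal_mul, Complex.exp_ofReal_mul_I_re,
    Complex.exp_ofReal_mul_I_im] at hr hi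
  have hb : ‖1 - z‖ ^ 2 = 1 - 2 * q * cos φ + q ^ 2 := by
    rw [Complex.sq_norm, Complex.normSq_apply, hz]
    simp only [Complex.sub_re, Complex.sub_im, Complex.one_re, Complex.one_im,
      Complex.re_ofReal_mul, Complex.im_ofReal_mul, Complex.exp_ofReal_mul_I_re,
      Complex.exp_ofReal_mul_I_im]
    linear_combination q ^ 2 * sin_sq_add_cos_sq φ
  unfold Cs Sn
  rw [hr, hi, ← hb, sq, sq, ← Complex.normSq_apply, ← Complex.sq_norm, norm_div, norm_one,
    Complex.norm_cpow_real, ← rpow_natCast, ← rpow_natCast ‖1 - z‖, one_div,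
    ← rpow_neg (norm_nonneg _), ← rpow_mul (norm_nonneg _), ← rpow_mul (norm_nonneg _)]
  congr 1
  ring

theorem om_eq {ν : ℝ} (hν : 4 ≤ ν) {p : ℝ × ℝ} (hp : 0 < p.1) :
    om ν p = exp (-(2 * p.1)) * (Cs (gk ν p.1) p.2 ^ 2 + Sn (gk ν p.1) p.2 ^ 2) := by
  rw [sbbin_key (by linarith) hp, om, neg_mul 2]

theorem G_sq_le {m ν s : ℝ} (hm : 4 ≤ m) (hν : m ≤ ν) (hs : 0 < s) (φ : ℝ) :
    Cs (gk ν s) φ ^ 2 + Sn (gk ν s) φ ^ 2 ≤ 1 + 1 / (m * s) := by
  have n0 : 0 < ν := by linarith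
  rw [sbbin_key n0 hs]
  set q : ℝ := exp (-ν * s) with hq
  have q0 : 0 < q := exp_pos _
  have u0 : 0 < m * s := mul_pos (by linarith) hs
  have q2 : q * (1 + m * s) ≤ 1 := by
    have e1 := add_one_le_exp (ν * s)
    have e2 : q * exp (ν * s) = 1 := by
      rw [hq, ← exp_add, neg_mul, neg_add_cancel, exp_zero]
    have e3 : m * s ≤ ν * s := mul_le_mul_of_nonneg_right hν hs.le
    nlinarith
  have q1 : 0 < 1 - q := by nlinarith [mul_pos q0 u0]
  have b1 : (1 - q) ^ 2 ≤ 1 - 2 * q * cos φ + q ^ 2 := by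
    nlinarith [mul_le_mul_of_nonneg_left (cos_le_one φ) q0.le]
  have ex : -2 / ν ≤ 0 := div_nonpos_of_nonpos_of_nonneg (by norm_num) n0.le
  refine (rpow_le_rpow_of_nonpos (pow_pos q1 2) b1 ex).trans ?_
  rw [← rpow_natCast, ← rpow_mul q1.le]
  have ex2 : (-1 : ℝ) ≤ ((2 : ℕ) : ℝ) * (-2 / ν) := by
    rw [Nat.cast_ofNat, ← mul_div_assoc, le_div_iff₀ n0]
    linarith
  refine (rpow_le_rpow_of_exponent_ge q1 (by linarith) ex2).trans ?_
  rw [rpow_neg_one, inv_eq_one_div, div_le_iff₀ q1]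
  have e : (1 + 1 / (m * s)) * (1 - q) = 1 + (1 - q * (1 + m * s)) / (m * s) := by
    field_simp
    ring
  rw [e]
  have := div_nonneg (sub_nonneg.2 q2) u0.le
  linarith

theorem tl_sum_sq_le {m ν s : ℝ} (hm : 4 ≤ m) (hν : m ≤ ν) (hs : 0 < s) :
    (∑' k, tl (gk ν s) k) ^ 2 ≤ 1 / (m * s) := by
  have h := G_sq_le hm hν hs 0
  have hsum := summable_gk (hm.trans hν) hs
  rw [Cs_tl hsum, gk_zero] at h
  have e : Cs (tl (gk ν s)) 0 = ∑' k, tl (gk ν s) k := by simp [Cs]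
  rw [e] at h
  have l0 : 0 ≤ ∑' k, tl (gk ν s) k := tsum_nonneg fun k => by
    unfold tl
    split_ifs
    · exact le_rfl
    · exact gk_nonneg (by linarith) s k
  nlinarith [sq_nonneg (Sn (gk ν s) 0)]

theorem mean_om {ν s : ℝ} (hν : 4 ≤ ν) (hs : 0 < s) :
    mean (om ν) s = π * (exp (-(2 * s)) * om0 ν s) := by
  have e : ∀ φ : ℝ, om ν (s, φ)
      = exp (-(2 * s)) * (Cs (gk ν s) φ ^ 2 + Sn (gk ν s) φ ^ 2) := fun φ =>
    om_eq hν (p := (s, φ)) hs
  unfold mean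
  simp only [e]
  rw [intervalIntegral.integral_const_mul, parseval (summable_gk hν hs), om0]
  ring

end Pool.Agent.PSF
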