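import Pool.Agent.P.MP_7b7370_an.SBJet

set_option autoImplicit false

namespace Pool.Agent.PSF

open Real Set MeasureTheory

theorem sbcoef_bk (τ : ℝ) (k : ℕ) : bk τ (k + 1) = bk τ k * ((τ + k) / (k + 1)) := rfl

theorem sbcoef_bd (τ : ℝ) (k : ℕ) : bd τ (k + 1) = (bd τ k * (τ + k) + bk τ k) / (k + 1) := rfl

theorem bk_nonneg {τ : ℝ} (h : 0 ≤ τ) (k : ℕ) : 0 ≤ bk τ k := by
  induction k with
  | zero => exact zero_le_one
  | succ k ih => rw [sbcoef_bk]; positivity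

theorem bd_nonneg {τ : ℝ} (h : 0 ≤ τ) (k : ℕ) : 0 ≤ bd τ k := by
  induction k with
  | zero => exact le_rfl
  | succ k ih =>
    have := bk_nonneg h k
    rw [sbcoef_bd]; positivity

theorem bk_one (τ : ℝ) : bk τ 1 = τ := by
  simp [bk]

theorem sbcoef_step {τ : ℝ} (h0 : 0 ≤ τ) (h1 : τ ≤ 1) (k : ℕ) : bk τ (k + 1) ≤ bk τ k := by
  rw [sbcoef_bk]
  refine mul_le_of_le_one_right (bk_nonneg h0 k) ?_
  rw [div_le_one (by positivity)]
  linarith

theorem bk_le {τ : ℝ} (h0 : 0 ≤ τ) (h1 : τ ≤ 1) {k : ℕ} (hk : 1 ≤ k) : bk τ k ≤ τ := by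
  induction k, hk using Nat.le_induction with
  | base => exact (bk_one τ).le
  | succ k _ ih => exact (sbcoef_step h0 h1 k).trans ih

theorem bk_le_one {τ : ℝ} (h0 : 0 ≤ τ) (h1 : τ ≤ 1) (k : ℕ) : bk τ k ≤ 1 := by
  induction k with
  | zero => exact le_rfl
  | succ k ih => exact (sbcoef_step h0 h1 k).trans ih

theorem bk_le34 {τ : ℝ} (h0 : 0 ≤ τ) (h1 : τ ≤ 1 / 2) {k : ℕ} (hk : 2 ≤ k) :
    bk τ k ≤ 3 / 4 * τ := by
  induction k, hk using Nat.le_induction with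
  | base =>
    rw [sbcoef_bk, bk_one]
    push_cast
    nlinarith
  | succ k _ ih => exact (sbcoef_step h0 (by linarith) k).trans ih

theorem bd_le_one {τ : ℝ} (h0 : 0 ≤ τ) (h1 : τ ≤ 1 / 2) (k : ℕ) : bd τ k ≤ 1 := by
  induction k with
  | zero => exact zero_le_one
  | succ k ih =>
    rw [sbcoef_bd, div_le_one (by positivity)]
    rcases Nat.eq_zero_or_pos k with rfl | hk
    · simp [bk, bd]
    · have a := bk_le h0 (by linarith) (k := k) hk
      have b : bd τ k * (τ + k) ≤ τ + k := mul_le_of_le_one_left (by positivity) ih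
      linarith

theorem bk_mono {τ τ' : ℝ} (h0 : 0 ≤ τ) (h : τ ≤ τ') (k : ℕ) : bk τ k ≤ bk τ' k := by
  induction k with
  | zero => exact le_rfl
  | succ k ih =>
    rw [sbcoef_bk, sbcoef_bk]
    have := bk_nonneg (h0.trans h) k
    gcongr

theorem bd_mono {τ τ' : ℝ} (h0 : 0 ≤ τ) (h : τ ≤ τ') (k : ℕ) : bd τ k ≤ bd τ' k := by
  induction k with
  | zero => exact le_rfl
  | succ k ih =>
    rw [sbcoef_bd, sbcoef_bd]
    have := bd_nonneg (h0.trans h) k
    have := bk_mono h0 h k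
    gcongr

theorem bk_scale {τ τ' : ℝ} (h0 : 0 ≤ τ) (h : τ ≤ τ') {k : ℕ} (hk : 1 ≤ k) :
    τ' * bk τ k ≤ τ * bk τ' k := by
  induction k, hk using Nat.le_induction with
  | base => rw [bk_one, bk_one, mul_comm]
  | succ k _ ih =>
    rw [sbcoef_bk, sbcoef_bk, ← mul_assoc, ← mul_assoc]
    have := mul_nonneg h0 (bk_nonneg (h0.trans h) k)
    gcongr

theorem sbcoef_sq {τ : ℝ} (h0 : 0 ≤ τ) (h1 : τ ≤ 1 / 2) (k : ℕ) :
    (3 * k + 1) * bk τ k ^ 2 ≤ 1 := by
  induction k with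
  | zero => simp [bk]
  | succ k ih =>
    refine le_trans ?_ ih
    have hk : (0 : ℝ) ≤ k := Nat.cast_nonneg k
    have a : (τ + k) ^ 2 ≤ (1 / 2 + k) ^ 2 := by gcongr
    have b : (3 * (k + 1) + 1) * (τ + k) ^ 2 ≤ (3 * k + 1) * ((k : ℝ) + 1) ^ 2 := by
      refine (mul_le_mul_of_nonneg_left a (by positivity)).trans ?_
      nlinarith
    have c : (3 * (k + 1) + 1) * ((τ + k) / (k + 1)) ^ 2 ≤ 3 * (k : ℝ) + 1 := by
      rw [div_pow, ← mul_div_assoc, div_le_iff₀ (by positivity)]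
      exact b
    rw [sbcoef_bk, mul_pow]
    push_cast
    nlinarith [mul_le_mul_of_nonneg_right c (sq_nonneg (bk τ k))]

theorem bk_sq_tendsto {τ : ℝ} (h0 : 0 ≤ τ) (h1 : τ ≤ 1 / 2) :
    Filter.Tendsto (fun k => bk τ k ^ 2) Filter.atTop (nhds 0) := by
  refine squeeze_zero (fun k => sq_nonneg _) (fun k => ?_) tendsto_one_div_add_atTop_nhds_zero_nat
  have hk : (0 : ℝ) ≤ k := Nat.cast_nonneg k
  rw [le_div_iff₀ (by positivity)]
  nlinarith [sbcoef_sq h0 h1 k, mul_nonneg hk (sq_nonneg (bk τ k))]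

theorem ell_mono {τ : ℝ} (h0 : 0 < τ) {k l : ℕ} (h : k ≤ l) : ell τ k ≤ ell τ l :=
  Finset.sum_le_sum_of_subset_of_nonneg (Finset.range_mono h) fun i _ _ => by positivity

theorem ell_nonneg {τ : ℝ} (h0 : 0 < τ) (k : ℕ) : 0 ≤ ell τ k :=
  Finset.sum_nonneg fun i _ => by positivity

theorem sbcoef_fun (k : ℕ) : (fun ν : ℝ => bk (2 / ν) (k + 1)) = fun ν =>
    bk (2 / ν) k * (2 / ((k : ℝ) + 1) * (1 / (0 + 1 * ν)) + k / ((k : ℝ) + 1) * 1) := by
  funext ν
  rw [sbcoef_bk, zero_add, one_mul]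
  ring

theorem sbcoef_fac {m n t : ℝ} (h : Par m n t) (k : ℕ) :
    UJ n t (fun ν => 2 / ((k : ℝ) + 1) * (1 / (0 + 1 * ν)) + k / ((k : ℝ) + 1) * 1)
      ((2 / m + k) / (k + 1)) (2 / m ^ 2 / (k + 1)) (2 / m ^ 3 / (k + 1)) := by
  have hm : 0 < m := by linarith [h.m4]
  refine (UJ.lin (a := 2 / ((k : ℝ) + 1)) (b := k / ((k : ℝ) + 1)) (by positivity) (by positivity)
    (UJ_inv (α := 0) (β := 1) h.t0 h.mn zero_le_one (by linarith))
    (UJ_const n t zero_le_one)).mono (le_of_eq ?_) (le_of_eq ?_) (le_of_eq ?_)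
  all_goals
    rw [zero_add, one_mul]
    ring

theorem bk_UJ {m n t : ℝ} (h : Par m n t) (k : ℕ) :
    UJ n t (fun ν => bk (2 / ν) k) (bk (2 / m) k) (2 / m ^ 2 * bd (2 / m) k) (4 / m ^ 3) := by
  have hm : 0 < m := by linarith [h.m4]
  have h0 : (0 : ℝ) ≤ 2 / m := by positivity
  have h1 : 2 / m ≤ 1 / 2 := by
    rw [div_le_iff₀ hm]
    linarith [h.m4]
  induction k with
  | zero =>
    exact (UJ_const n t zero_le_one).mono le_rfl (mul_zero _).ge (by positivity)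
  | succ k ih =>
    rw [sbcoef_fun]
    refine (ih.mul h.t0 (sbcoef_fac h k)).mono (sbcoef_bk _ k).ge (le_of_eq ?_) ?_
    · rw [sbcoef_bd]
      ring
    · have a : bk (2 / m) k + 2 * (2 / m) + 2 / m * bd (2 / m) k ≤ 2 := by
        rcases Nat.eq_zero_or_pos k with rfl | hk
        · simp only [bk, bd]
          linarith
        · have a := bk_le h0 (by linarith) (k := k) hk
          have b : 2 / m * bd (2 / m) k ≤ 2 / m := mul_le_of_le_one_right h0 (bd_le_one h0 h1 k)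
          linarith
      have e : bk (2 / m) k * (2 / m ^ 3 / (k + 1)) + 4 / m ^ 3 * ((2 / m + k) / (k + 1))
          + 2 / m ^ 2 * bd (2 / m) k * (2 / m ^ 2 / (k + 1))
          = 2 / m ^ 3 * ((bk (2 / m) k + 2 * (2 / m) + 2 / m * bd (2 / m) k + 2 * k) / (k + 1)) := by
        ring
      have b : (bk (2 / m) k + 2 * (2 / m) + 2 / m * bd (2 / m) k + 2 * k) / (k + 1) ≤ 2 := by
        rw [div_le_iff₀ (by positivity)]
        linarith
      rw [e]
      refine (mul_le_mul_of_nonneg_left b (by positivity)).trans (le_of_eq ?_)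
      ring

theorem bk_UJ_one {m n t : ℝ} (h : Par m n t) :
    UJ n t (fun ν => bk (2 / ν) 1) (2 / m) (2 / m ^ 2) (2 / m ^ 3) := by
  have e : (fun ν : ℝ => bk (2 / ν) 1) = fun ν =>
      2 / (((0 : ℕ) : ℝ) + 1) * (1 / (0 + 1 * ν)) + (0 : ℕ) / (((0 : ℕ) : ℝ) + 1) * 1 := by
    funext ν
    rw [bk_one]
    simp [div_eq_mul_inv]
  rw [e]
  exact (sbcoef_fac h 0).mono (by simp) (by simp) (by simp)

theorem sbcoef_low {m n t : ℝ} (h : Par m n t) (k : ℕ) :
    LJ n t (fun ν => 2 / ((k : ℝ) + 1) * (1 / (0 + 1 * ν)) + k / ((k : ℝ) + 1) * 1)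
      ((2 / n + k) / (k + 1)) (2 / n ^ 2 / (k + 1)) (2 / n ^ 3 / (k + 1)) := by
  have hn : 0 < n := by linarith [h.m4, h.mn, h.t0]
  have hI := LJ_inv (n := n) (α := 0) (β := 1) h.t0 zero_le_one (by linarith [h.m4, h.mn])
  have c1 : J1 n t (fun _ => (1 : ℝ)) = 0 := by simp [J1]
  have c2 : J2 n t (fun _ => (1 : ℝ)) = 0 := by
    unfold J2
    norm_num
  refine ⟨by positivity, by positivity, by positivity, le_of_eq ?_, ?_, ?_⟩
  · simp only [zero_add, one_mul]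
    ring
  · rw [J1_lin n t _ _ (fun ν => 1 / (0 + 1 * ν)) (fun _ => 1), c1, mul_zero, add_zero]
    refine le_trans (le_of_eq ?_) (mul_le_mul_of_nonneg_left hI.l1 (by positivity))
    rw [zero_add, one_mul]
    ring
  · rw [J2_lin n t _ _ (fun ν => 1 / (0 + 1 * ν)) (fun _ => 1), c2, mul_zero, add_zero]
    refine le_trans (le_of_eq ?_) (mul_le_mul_of_nonneg_left hI.l2 (by positivity))
    rw [zero_add, one_mul]
    ring

theorem bk_LJ {m n t : ℝ} (h : Par m n t) (k : ℕ) :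
    LJ n t (fun ν => bk (2 / ν) k) (bk (2 / n) k) (bk (2 / n) k * ell (2 / n) k / n)
      (bk (2 / n) k * (ell (2 / n) k ^ 2 + ell (2 / n) k) / (2 * n ^ 2)) := by
  have hn : 0 < n := by linarith [h.m4, h.mn, h.t0]
  have h0 : (0 : ℝ) < 2 / n := by positivity
  induction k with
  | zero =>
    refine ⟨zero_le_one, by simp [ell], by simp [ell], le_rfl, by simp [ell, J1, bk], ?_⟩
    simp only [ell, J2, bk]
    norm_num
  | succ k ih =>
    have hb := bk_nonneg h0.le (k + 1)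
    have hb' := bk_nonneg h0.le k
    have hl := ell_nonneg h0 (k + 1)
    have hk : (0 : ℝ) ≤ k := Nat.cast_nonneg k
    have el : ell (2 / n) (k + 1) = ell (2 / n) k + 2 / n / (2 / n + k) := Finset.sum_range_succ _ _
    obtain ⟨y, hy⟩ : ∃ y, y = 2 / n / (2 / n + k) := ⟨_, rfl⟩
    have y0 : 0 ≤ y := by rw [hy]; positivity
    have y1 : y ≤ 1 := by
      rw [hy, div_le_one (by positivity)]
      linarith
    obtain ⟨F, hF⟩ : ∃ F, F = (2 / n + k) / (k + 1) := ⟨_, rfl⟩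
    have F0 : 0 ≤ F := by rw [hF]; positivity
    have e1 : 2 / n ^ 2 / ((k : ℝ) + 1) = F * y / n := by
      rw [hF, hy]
      field_simp
    have e2 : 2 / n ^ 3 / ((k : ℝ) + 1) = F * y / n ^ 2 := by
      rw [hF, hy]
      field_simp
    rw [sbcoef_fun]
    refine (ih.mul h.t0 (sbcoef_low h k)).mono hb (by positivity) (by positivity)
      (sbcoef_bk _ k).le (le_of_eq ?_) ?_
    · rw [sbcoef_bk, el, e1, ← hy, ← hF]
      ring
    · rw [sbcoef_bk, el, e1, e2, ← hy, ← hF]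
      have a : 0 ≤ bk (2 / n) k * F * (y * (1 - y)) / (2 * n ^ 2) := by
        have : 0 ≤ 1 - y := by linarith
        positivity
      refine le_of_sub_nonneg (a.trans (le_of_eq ?_))
      ring

end Pool.Agent.PSF
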