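import Pool.Agent.P.MP_7b7370_an.FLam

/-! Definitions for the supporting line block. -/

set_option autoImplicit false

namespace Pool.Agent.PSF

open Real Set MeasureTheory

/-- coefficients of `(1 - z) ^ (-τ)` -/
noncomputable def bk (τ : ℝ) : ℕ → ℝ
  | 0 => 1
  | k + 1 => bk τ k * ((τ + k) / (k + 1))
/-- derivative of `bk` in `τ` -/
noncomputable def bd (τ : ℝ) : ℕ → ℝ
  | 0 => 0
  | k + 1 => (bd τ k * (τ + k) + bk τ k) / (k + 1)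
noncomputable def ell (τ : ℝ) (k : ℕ) : ℝ := ∑ i ∈ Finset.range k, τ / (τ + i)

/-- symmetric mean, first and second difference quotients -/
noncomputable def Jb (n t : ℝ) (f : ℝ → ℝ) : ℝ := (f (n + t) + f (n - t)) / 2
noncomputable def J1 (n t : ℝ) (f : ℝ → ℝ) : ℝ := (f (n - t) - f (n + t)) / (2 * t)
noncomputable def J2 (n t : ℝ) (f : ℝ → ℝ) : ℝ := (f (n + t) + f (n - t) - 2 * f n) / (2 * t ^ 2)

/-- upper bounds for a nonnegative, decreasing, midpoint convex triple of values -/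
structure UJ (n t : ℝ) (f : ℝ → ℝ) (A B C : ℝ) : Prop where
  p0 : 0 ≤ f n
  pp : 0 ≤ f (n + t)
  pm : 0 ≤ f (n - t)
  u0 : f n ≤ A
  up : f (n + t) ≤ A
  um : f (n - t) ≤ A
  p1 : 0 ≤ J1 n t f
  u1 : J1 n t f ≤ B
  p2 : 0 ≤ J2 n t f
  u2 : J2 n t f ≤ C
/-- lower bounds -/
structure LJ (n t : ℝ) (f : ℝ → ℝ) (A B C : ℝ) : Prop where
  a0 : 0 ≤ A
  b0 : 0 ≤ B
  c0 : 0 ≤ C
  l0 : A ≤ f n
  l1 : B ≤ J1 n t f
  l2 : C ≤ J2 n t f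
/-- admissible parameters: base point `m`, centre `n`, step `t` -/
structure Par (m n t : ℝ) : Prop where
  m4 : 4 ≤ m
  t0 : 0 < t
  t1 : t ≤ 1 / 1000
  mn : m ≤ n - t

noncomputable def gk (ν s : ℝ) (k : ℕ) : ℝ := bk (2 / ν) k * exp (-(k * ν * s))
/-- the sequence without its term of index zero -/
def tl (α : ℕ → ℝ) (k : ℕ) : ℝ := if k = 0 then 0 else α k
noncomputable def Cs (α : ℕ → ℝ) (φ : ℝ) : ℝ := ∑' k : ℕ, α k * cos (k * φ)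
noncomputable def Sn (α : ℕ → ℝ) (φ : ℝ) : ℝ := ∑' k : ℕ, α k * sin (k * φ)
noncomputable def om0 (ν s : ℝ) : ℝ := ∑' k : ℕ, gk ν s k ^ 2
noncomputable def Zf (j : ℕ) (β ν : ℝ) : ℝ := ∫ s in Ioi (0 : ℝ), s ^ j * exp (-(β * s)) * om0 ν s
/-- normalised area -/
noncomputable def ar (ν : ℝ) : ℝ := An ν / π
noncomputable def Ak (ν : ℝ) (k : ℕ) : ℝ := bk (2 / ν) k ^ 2 / (1 + ν * k)
noncomputable def Zh (ν : ℝ) : ℝ := 29 / 10 * Zf 2 3 ν + 2 / 5 * Zf 2 2 ν + 1 / 10000 * Zf 1 2 ν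
noncomputable def psi (k : ℕ) (ν : ℝ) : ℝ :=
  1 / (1 + ν * k) - 6376 / 1000 *
    (29 / 5 / (3 + 2 * ν * k) ^ 3 + 4 / 5 / (2 + 2 * ν * k) ^ 3 + 1 / 10000 / (2 + 2 * ν * k) ^ 2)

noncomputable def w1 (n t : ℝ) (p : ℝ × ℝ) : ℝ := J1 n t fun ν => om ν p
noncomputable def w2 (n t : ℝ) (p : ℝ × ℝ) : ℝ := J2 n t fun ν => om ν p

noncomputable def Bw (f U V : ℝ × ℝ → ℝ) : ℝ := ∫ p in Pi0, f p * (U p * V p)
noncomputable def E1 (U V : ℝ × ℝ → ℝ) : ℝ := ∫ p in Pi0, dx U p * dx V p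
noncomputable def E2 (U V : ℝ × ℝ → ℝ) : ℝ := ∫ p in Pi0, dy U p * dy V p
noncomputable def Db (n : ℝ) (U V : ℝ × ℝ → ℝ) : ℝ := E1 U V + n ^ 2 * E2 U V
/-- linear combination -/
def lc (a : ℝ) (U : ℝ × ℝ → ℝ) (b : ℝ) (V : ℝ × ℝ → ℝ) : ℝ × ℝ → ℝ := fun p => a * U p + b * V p
/-- angular mean -/
noncomputable def r0 (V : ℝ × ℝ → ℝ) (s : ℝ) : ℝ := (∫ φ in (0 : ℝ)..π, V (s, φ)) / π
noncomputable def rad (V : ℝ × ℝ → ℝ) : ℝ × ℝ → ℝ := fun p => r0 V p.1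
noncomputable def ang (V : ℝ × ℝ → ℝ) : ℝ × ℝ → ℝ := lc 1 V (-1) (rad V)
/-- radial function with derivative `χ` -/
noncomputable def prim (χ : ℝ → ℝ) : ℝ × ℝ → ℝ := fun p => ∫ σ in (0 : ℝ)..p.1, χ σ
noncomputable def mean (f : ℝ × ℝ → ℝ) (s : ℝ) : ℝ := ∫ φ in (0 : ℝ)..π, f (s, φ)
structure Wt (f : ℝ × ℝ → ℝ) : Prop where
  int : IntegrableOn f Pi0
  cont : ContinuousOn f {p | 0 < p.1}
def Var (f : ℝ × ℝ → ℝ) (s v : ℝ) : Prop := ∃ c : ℝ, ∫ φ in (0 : ℝ)..π, (f (s, φ) - c) ^ 2 ≤ π * v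

noncomputable def rho (ν m s : ℝ) : ℝ := ν * (1 - ν) / s ^ 2 + 2 * ν * m / s
noncomputable def hh (m s : ℝ) : ℝ := 29 / 10 * s ^ 2 * exp (-s) + 2 / 5 * s ^ 2 + s / (10000 * m)
noncomputable def hq (m s : ℝ) : ℝ := (29 / 10 * exp (-s) + 41 / 100) * s ^ 3 / (49 / 25 * m)

noncomputable def s0 (u : ℝ) : ℝ := exp (-(2 * u)) + 9 / 32 * exp (-(3 * u)) / u
noncomputable def s1 (u : ℝ) : ℝ := (1 + u) ^ 2 * exp (-(2 * u)) + 8 / 5 * exp (-(9 / 4 * u)) / u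
noncomputable def s2 (u : ℝ) : ℝ :=
  (1 + u + u ^ 2 / 2) ^ 2 * exp (-(2 * u)) + 51 / 10 * exp (-(3 / 2 * u)) / u
noncomputable def o1 (u : ℝ) : ℝ := 2 * (1 + u) * exp (-(2 * u)) + 61 / 50 * exp (-(9 / 4 * u)) / u
noncomputable def en1 (u : ℝ) : ℝ := 2 + 283 / 200 * exp (-(u / 2)) / u + 1 / 4 * exp (-u) / u ^ 2
noncomputable def en2 (u : ℝ) : ℝ := 2 + 283 / 100 * exp (-(u / 2)) / u + exp (-u) / u ^ 2
noncomputable def v0 (m s : ℝ) : ℝ := exp (-(4 * s)) * (2 / m) ^ 2 * (s0 (m * s) * en1 (m * s))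
noncomputable def v0y (m s : ℝ) : ℝ :=
  exp (-(4 * s)) * (2 / m) ^ 2 * (s0 (m * s) * (683 / 200 + 483 / 200 / (m * s)))
noncomputable def v1 (m s : ℝ) : ℝ := exp (-(4 * s)) * (2 / m ^ 2) ^ 2 * (s1 (m * s) * en2 (m * s))
noncomputable def v1y (m s : ℝ) : ℝ :=
  exp (-(4 * s)) * (2 / m ^ 2) ^ 2 * (s1 (m * s) * (483 / 100 + 683 / 100 / (m * s)))
noncomputable def v2 (m s : ℝ) : ℝ := exp (-(4 * s)) * (2 / m ^ 3) ^ 2 *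
  (7 / 5 * (s2 (m * s) * en2 (m * s)) +
    21 / 4 * (s1 (m * s) * (exp (-(m * s / 2)) / (m * s) ^ 2)))

/-- what is used of a near minimiser `W` with energy `d ^ 2` at parameter `ν` -/
structure Good (m ν : ℝ) (W : ℝ × ℝ → ℝ) (d : ℝ) : Prop where
  adm : Adm W
  d0 : 0 ≤ d
  en : Db ν W W = d ^ 2
  pt : ∀ s, 0 < s → π * r0 W s ^ 2 ≤ d ^ 2 * hh m s
  an : Db ν (ang W) (ang W) ≤ (73 / 1000 * (4 / m) ^ 2 * d) ^ 2

/-- the form `a D - γ M` at parameter `ν` -/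
noncomputable def Qf (ν γ : ℝ) (V : ℝ × ℝ → ℝ) : ℝ := ar ν * Db ν V V - γ * Bw (om ν) V V

end Pool.Agent.PSF
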