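import Pool.Agent.P.MP_7b7370_an.SBDefs

set_option autoImplicit false

namespace Pool.Agent.PSF

open Real Set MeasureTheory

theorem sbfub_prod {f : ℝ × ℝ → ℝ} (hf : IntegrableOn f Pi0) :
    Integrable f (((volume : Measure ℝ).restrict (Ioi 0)).prod
      ((volume : Measure ℝ).restrict (Ioo 0 π))) := by
  rw [Measure.prod_restrict, ← Measure.volume_eq_prod]
  exact hf

theorem sbfub_meas : (volume : Measure (ℝ × ℝ)).restrict Pi0 =
    ((volume : Measure ℝ).restrict (Ioi 0)).prod ((volume : Measure ℝ).restrict (Ioo 0 π)) := by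
  rw [Measure.prod_restrict, ← Measure.volume_eq_prod]
  rfl

theorem sbfub_mean (f : ℝ × ℝ → ℝ) :
    mean f = fun s => ∫ φ in Ioo (0 : ℝ) π, f (s, φ) := by
  funext s
  unfold mean
  rw [intervalIntegral.integral_of_le pi_pos.le, integral_Ioc_eq_integral_Ioo]

theorem integral_Pi0 {f : ℝ × ℝ → ℝ} (hf : IntegrableOn f Pi0) :
    IntegrableOn (mean f) (Ioi 0) ∧ ∫ p in Pi0, f p = ∫ s in Ioi (0 : ℝ), mean f s := by
  have h := sbfub_prod hf
  rw [sbfub_mean f]
  refine ⟨h.integral_prod_left, ?_⟩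
  rw [sbfub_meas]
  exact integral_prod f h

theorem integral_Pi0' {f : ℝ × ℝ → ℝ} (hf : IntegrableOn f Pi0) :
    IntegrableOn (fun φ => ∫ s in Ioi (0 : ℝ), f (s, φ)) (Ioo 0 π) ∧
      ∫ p in Pi0, f p = ∫ φ in Ioo (0 : ℝ) π, ∫ s in Ioi (0 : ℝ), f (s, φ) := by
  have h := sbfub_prod hf
  refine ⟨h.integral_prod_right, ?_⟩
  rw [sbfub_meas]
  exact integral_prod_symm f h

theorem sbfub_measurableSet : MeasurableSet Pi0 :=
  measurableSet_Ioi.prod measurableSet_Ioo

theorem integral_radial {f : ℝ × ℝ → ℝ} (hf : IntegrableOn f Pi0) {F : ℝ → ℝ} (hF : Continuous F)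
    {M : ℝ} (hM : ∀ s, 0 < s → |F s| ≤ M) :
    IntegrableOn (fun p : ℝ × ℝ => f p * F p.1) Pi0 ∧
      IntegrableOn (fun s => mean f s * F s) (Ioi 0) ∧
      ∫ p in Pi0, f p * F p.1 = ∫ s in Ioi (0 : ℝ), mean f s * F s := by
  have h1 : IntegrableOn (fun p : ℝ × ℝ => f p * F p.1) Pi0 := by
    refine Integrable.mul_bdd (c := M) hf ?_ ?_
    · exact (hF.comp continuous_fst).aestronglyMeasurable
    · refine (ae_restrict_iff' sbfub_measurableSet).2 (Filter.Eventually.of_forall ?_)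
      intro p hp
      rw [Real.norm_eq_abs]
      exact hM p.1 hp.1
  have h2 := integral_Pi0 h1
  have h3 : mean (fun p : ℝ × ℝ => f p * F p.1) = fun s => mean f s * F s := by
    funext s
    unfold mean
    exact intervalIntegral.integral_mul_const (F s) (fun φ => f (s, φ))
  rw [h3] at h2
  exact ⟨h1, h2.1, h2.2⟩

theorem integral_fst {F : ℝ → ℝ} (hF : IntegrableOn F (Ioi 0)) :
    IntegrableOn (fun p : ℝ × ℝ => F p.1) Pi0 ∧
      ∫ p in Pi0, F p.1 = π * ∫ s in Ioi (0 : ℝ), F s := by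
  have h1 : IntegrableOn (fun p : ℝ × ℝ => F p.1) Pi0 := by
    unfold IntegrableOn
    rw [sbfub_meas]
    have hc : Integrable (fun _ : ℝ => (1 : ℝ)) ((volume : Measure ℝ).restrict (Ioo 0 π)) :=
      integrable_const _
    have := Integrable.mul_prod hF hc
    simpa using this
  refine ⟨h1, ?_⟩
  rw [(integral_Pi0 h1).2, ← integral_const_mul]
  refine integral_congr_ae (Filter.Eventually.of_forall fun s => ?_)
  simp [mean]

theorem int_pow_exp (q : ℕ) {A : ℝ} (hA : 0 < A) :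
    IntegrableOn (fun s : ℝ => s ^ q * exp (-(A * s))) (Ioi 0) ∧
      ∫ s in Ioi (0 : ℝ), s ^ q * exp (-(A * s)) = q.factorial / A ^ (q + 1) := by
  have hq : (-1 : ℝ) < (q : ℝ) := by
    have : (0 : ℝ) ≤ q := Nat.cast_nonneg q
    linarith
  constructor
  · have h := integrableOn_rpow_mul_exp_neg_mul_rpow hq (one_pos : (0 : ℝ) < 1) hA
    refine h.congr_fun ?_ measurableSet_Ioi
    intro s _
    simp only [rpow_natCast, rpow_one, neg_mul]
  · have hq1 : (0 : ℝ) < (q : ℝ) + 1 := by linarith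
    have h := Real.integral_rpow_mul_exp_neg_mul_Ioi hq1 hA
    simp only [add_sub_cancel_right, rpow_natCast] at h
    rw [h, Real.Gamma_nat_eq_factorial]
    have h2 : ((q : ℝ) + 1) = ((q + 1 : ℕ) : ℝ) := by push_cast; ring
    rw [h2, rpow_natCast, one_div, inv_pow]
    rw [div_eq_mul_inv, mul_comm]

theorem Wt.lin {f g : ℝ × ℝ → ℝ} (hf : Wt f) (hg : Wt g) (a b : ℝ) :
    Wt fun p => a * f p + b * g p := by
  refine ⟨?_, ?_⟩
  · exact (hf.int.const_mul a).add (hg.int.const_mul b)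
  · exact (continuousOn_const.mul hf.cont).add (continuousOn_const.mul hg.cont)

theorem Wt.slice {f : ℝ × ℝ → ℝ} (hf : Wt f) {s : ℝ} (hs : 0 < s) :
    Continuous fun φ => f (s, φ) := by
  have hc : Continuous fun φ : ℝ => ((s, φ) : ℝ × ℝ) := continuous_const.prodMk continuous_id
  exact hf.cont.comp_continuous hc fun _ => hs

end Pool.Agent.PSF
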