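import Pool.Agent.P.MP_7b7370_an.SBHardy
import Pool.Agent.P.MP_7b7370_an.SBFub

set_option autoImplicit false

namespace Pool.Agent.PSF

open Real Set MeasureTheory

theorem sq_le_mul_int {y y' : ℝ → ℝ} (hy : ∀ s, HasDerivAt y (y' s) s) (hc : Continuous y')
    (hi : IntegrableOn (fun s => y' s ^ 2) (Ioi 0)) (h0 : y 0 = 0) {s : ℝ} (hs : 0 ≤ s) :
    y s ^ 2 ≤ s * ∫ σ in Ioi (0 : ℝ), y' σ ^ 2 := by
  have h1 := sq_sub_le hy hc hs
  rw [h0, sub_zero, sub_zero] at h1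
  refine h1.trans (mul_le_mul_of_nonneg_left ?_ hs)
  rw [intervalIntegral.integral_of_le hs]
  exact setIntegral_mono_set hi (Filter.Eventually.of_forall fun σ => sq_nonneg _)
    (Ioc_subset_Ioi_self.eventuallyLE)

theorem rad_quarter {y y' : ℝ → ℝ} (hy : ∀ s, HasDerivAt y (y' s) s) (hc : Continuous y')
    (hi : IntegrableOn (fun s => y' s ^ 2) (Ioi 0)) (h0 : y 0 = 0) :
    IntegrableOn (fun s => exp (-(2 * s)) * y s ^ 2) (Ioi 0) ∧
      ∫ s in Ioi (0 : ℝ), exp (-(2 * s)) * y s ^ 2 ≤ 1 / 4 * ∫ σ in Ioi (0 : ℝ), y' σ ^ 2 := by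
  have hyc : Continuous y := continuous_iff_continuousAt.2 fun s => (hy s).continuousAt
  obtain ⟨p1, p2⟩ := int_pow_exp 1 (A := 2) two_pos
  set E := ∫ σ in Ioi (0 : ℝ), y' σ ^ 2 with hE
  have hb : ∀ s ∈ Ioi (0 : ℝ), exp (-(2 * s)) * y s ^ 2 ≤ E * (s ^ 1 * exp (-(2 * s))) := by
    intro s hs
    have := mul_le_mul_of_nonneg_left (sq_le_mul_int hy hc hi h0 (le_of_lt hs))
      (exp_pos (-(2 * s))).le
    calc _ ≤ _ := this
      _ = _ := by ring
  have hg : IntegrableOn (fun s => E * (s ^ 1 * exp (-(2 * s)))) (Ioi 0) := p1.const_mul E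
  have hf : IntegrableOn (fun s => exp (-(2 * s)) * y s ^ 2) (Ioi 0) := by
    refine Integrable.mono' hg (Continuous.aestronglyMeasurable (by fun_prop)) ?_
    refine (ae_restrict_iff' measurableSet_Ioi).2 (Filter.Eventually.of_forall fun s hs => ?_)
    rw [Real.norm_eq_abs, abs_of_nonneg (by positivity)]
    exact hb s hs
  refine ⟨hf, (setIntegral_mono_on hf hg measurableSet_Ioi hb).trans (le_of_eq ?_)⟩
  rw [integral_const_mul, p2]
  norm_num [mul_comm]

theorem sbgap1_shift (f : ℝ → ℝ) (L : ℝ) :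
    ∫ s in Ioi (0 : ℝ), f (s + L) = ∫ s in Ioi L, f s := by
  have := (measurePreserving_add_right (volume : Measure ℝ) L).setIntegral_preimage_emb
    (measurableEmbedding_addRight L) f (Ioi L)
  rwa [preimage_add_const_Ioi, sub_self] at this

theorem sbgap1_shift_int {f : ℝ → ℝ} {L : ℝ} (h : IntegrableOn f (Ioi L)) :
    IntegrableOn (fun s => f (s + L)) (Ioi 0) := by
  have := ((measurePreserving_add_right (volume : Measure ℝ) L).integrableOn_comp_preimage
    (measurableEmbedding_addRight L) (f := f) (s := Ioi L)).2 h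
  rwa [preimage_add_const_Ioi, sub_self] at this

theorem sbgap1_exp_le {x : ℝ} (hx : 0 ≤ x) : exp (-x) ≤ 1 - x + x ^ 2 / 2 := by
  have h1 := quadratic_le_exp_of_nonneg hx
  have h2 : 0 < 1 - x + x ^ 2 / 2 := by nlinarith [sq_nonneg (x - 1)]
  have h3 : 1 ≤ exp x * (1 - x + x ^ 2 / 2) := by
    calc (1 : ℝ) ≤ (1 + x + x ^ 2 / 2) * (1 - x + x ^ 2 / 2) := by nlinarith [sq_nonneg (x ^ 2)]
      _ ≤ _ := mul_le_mul_of_nonneg_right h1 h2.le
  rw [exp_neg, inv_le_iff_one_le_mul₀ (exp_pos x), mul_comm]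
  exact h3

theorem sbgap1_exp32 : exp (-(3 / 2 : ℝ)) ≤ 28 / 125 := by
  have h1 := Real.sum_le_exp_of_nonneg (x := 3 / 2) (by norm_num) 7
  simp only [Finset.sum_range_succ, Finset.sum_range_zero, Nat.factorial] at h1
  norm_num at h1
  rw [exp_neg, inv_le_iff_one_le_mul₀ (exp_pos _)]
  linarith

theorem sbgap1_poly :
    ∫ s in (0 : ℝ)..3 / 4, (s - 10 / 3 * s ^ 2 + 14 / 3 * s ^ 3 - 8 / 3 * s ^ 4) ≤ 7 / 125 := by
  have hd : ∀ s : ℝ, HasDerivAt
      (fun s : ℝ => s ^ 2 / 2 - 10 / 9 * s ^ 3 + 7 / 6 * s ^ 4 - 8 / 15 * s ^ 5)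
      (s - 10 / 3 * s ^ 2 + 14 / 3 * s ^ 3 - 8 / 3 * s ^ 4) s := by
    intro s
    have h := ((((hasDerivAt_pow 2 s).div_const 2).sub ((hasDerivAt_pow 3 s).const_mul (10 / 9))).add
      ((hasDerivAt_pow 4 s).const_mul (7 / 6))).sub ((hasDerivAt_pow 5 s).const_mul (8 / 15))
    refine h.congr_deriv ?_
    push_cast
    ring
  rw [intervalIntegral.integral_eq_sub_of_hasDerivAt (fun s _ => hd s)
    (Continuous.intervalIntegrable (by fun_prop) _ _)]
  norm_num

theorem rad_gap {y y' : ℝ → ℝ} (hy : ∀ s, HasDerivAt y (y' s) s) (hc : Continuous y')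
    (hi : IntegrableOn (fun s => y' s ^ 2) (Ioi 0)) (h0 : y 0 = 0) (h1 : y (3 / 4) = 0) :
    ∫ s in Ioi (0 : ℝ), exp (-(2 * s)) * y s ^ 2 ≤ 7 / 125 * ∫ σ in Ioi (0 : ℝ), y' σ ^ 2 := by
  have hyc : Continuous y := continuous_iff_continuousAt.2 fun s => (hy s).continuousAt
  have hsub : Ioi (3 / 4 : ℝ) ⊆ Ioi 0 := Ioi_subset_Ioi (by norm_num)
  have hf := (rad_quarter hy hc hi h0).1
  have hiL := hi.mono_set hsub
  rw [← intervalIntegral.integral_interval_add_Ioi hf (hf.mono_set hsub),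
    ← intervalIntegral.integral_interval_add_Ioi hi hiL, mul_add]
  have hq : ∀ a b : ℝ, IntervalIntegrable (fun s => y' s ^ 2) volume a b := fun a b =>
    Continuous.intervalIntegrable (by fun_prop) _ _
  refine add_le_add ?_ ?_
  · set E := ∫ σ in (0 : ℝ)..3 / 4, y' σ ^ 2 with hE
    have hE0 : 0 ≤ E := intervalIntegral.integral_nonneg (by norm_num) fun s _ => sq_nonneg _
    have hb : ∀ s ∈ Icc (0 : ℝ) (3 / 4), exp (-(2 * s)) * y s ^ 2 ≤
        E * (s - 10 / 3 * s ^ 2 + 14 / 3 * s ^ 3 - 8 / 3 * s ^ 4) := by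
      intro s hs
      have a1 := sq_sub_le hy hc hs.1
      have a2 := sq_sub_le hy hc hs.2
      rw [h0, sub_zero, sub_zero] at a1
      rw [h1, zero_sub, neg_sq] at a2
      have a3 : (∫ σ in (0 : ℝ)..s, y' σ ^ 2) + ∫ σ in s..3 / 4, y' σ ^ 2 = E :=
        intervalIntegral.integral_add_adjacent_intervals (hq _ _) (hq _ _)
      have a4 : y s ^ 2 ≤ 4 / 3 * (s * (3 / 4 - s)) * E := by
        have b1 := mul_le_mul_of_nonneg_left a1 (sub_nonneg.2 hs.2)
        have b2 := mul_le_mul_of_nonneg_left a2 hs.1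
        rw [← a3]
        nlinarith
      have a5 := sbgap1_exp_le (x := 2 * s) (by linarith [hs.1])
      calc exp (-(2 * s)) * y s ^ 2
          ≤ (1 - 2 * s + (2 * s) ^ 2 / 2) * (4 / 3 * (s * (3 / 4 - s)) * E) :=
            mul_le_mul a5 a4 (sq_nonneg _) ((exp_pos _).le.trans a5)
        _ = _ := by ring
    calc ∫ s in (0 : ℝ)..3 / 4, exp (-(2 * s)) * y s ^ 2
        ≤ ∫ s in (0 : ℝ)..3 / 4, E * (s - 10 / 3 * s ^ 2 + 14 / 3 * s ^ 3 - 8 / 3 * s ^ 4) :=
          intervalIntegral.integral_mono_on (by norm_num)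
            (Continuous.intervalIntegrable (by fun_prop) _ _)
            (Continuous.intervalIntegrable (by fun_prop) _ _) hb
      _ = E * ∫ s in (0 : ℝ)..3 / 4, (s - 10 / 3 * s ^ 2 + 14 / 3 * s ^ 3 - 8 / 3 * s ^ 4) :=
          intervalIntegral.integral_const_mul _ _
      _ ≤ E * (7 / 125) := mul_le_mul_of_nonneg_left sbgap1_poly hE0
      _ = _ := mul_comm _ _
  · have hz := (rad_quarter (y := fun s => y (s + 3 / 4)) (y' := fun s => y' (s + 3 / 4))
      (fun s => (hy (s + 3 / 4)).comp_add_const s (3 / 4)) (by fun_prop)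
      (sbgap1_shift_int (f := fun s => y' s ^ 2) hiL) (by simpa using h1)).2
    rw [sbgap1_shift (fun s => y' s ^ 2)] at hz
    have hE0 : 0 ≤ ∫ σ in Ioi (3 / 4 : ℝ), y' σ ^ 2 := integral_nonneg fun s => sq_nonneg _
    have e : ∫ s in Ioi (3 / 4 : ℝ), exp (-(2 * s)) * y s ^ 2 =
        exp (-(3 / 2)) * ∫ s in Ioi (0 : ℝ), exp (-(2 * s)) * y (s + 3 / 4) ^ 2 := by
      rw [← sbgap1_shift (fun s => exp (-(2 * s)) * y s ^ 2), ← integral_const_mul]
      congr 1
      funext s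
      rw [← mul_assoc, ← exp_add]
      congr 2
      ring
    rw [e]
    calc _ ≤ exp (-(3 / 2)) * (1 / 4 * ∫ σ in Ioi (3 / 4 : ℝ), y' σ ^ 2) :=
          mul_le_mul_of_nonneg_left hz (exp_pos _).le
      _ ≤ 28 / 125 * (1 / 4 * ∫ σ in Ioi (3 / 4 : ℝ), y' σ ^ 2) :=
          mul_le_mul_of_nonneg_right sbgap1_exp32 (by positivity)
      _ = _ := by ring

theorem sbgap1_tan (s a : ℝ) : s * exp (-s) ≤ (a - 1) * exp (-s) + exp (-a) := by
  have h := mul_le_mul_of_nonneg_right (add_one_le_exp (s - a)) (exp_pos (-s)).le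
  rw [← exp_add, show s - a + -s = -a by ring] at h
  linarith

theorem sbgap1_key {s : ℝ} (hs : 0 ≤ s) :
    exp (-s) ^ 2 + s * exp (-s) / 2 ≤ exp (-s) + 7 / 200 := by
  have e1 : exp (-1) ≤ 368 / 1000 := by linarith [exp_neg_one_lt_d9]
  have e0 := exp_pos (-1)
  have e2 : exp (-2) ≤ 1355 / 10000 := by
    rw [show (-2 : ℝ) = -1 + -1 by norm_num, exp_add]
    nlinarith
  have e3 : exp (-3) ≤ 499 / 10000 := by
    rw [show (-3 : ℝ) = -2 + -1 by norm_num, exp_add]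
    nlinarith [exp_pos (-2)]
  have hE : exp (-s) ≤ 1 := exp_le_one_iff.2 (by linarith)
  have hE0 := exp_pos (-s)
  have t0 := sbgap1_tan s 0
  have t1 := sbgap1_tan s 1
  have t2 := sbgap1_tan s 2
  have t3 := sbgap1_tan s 3
  rw [neg_zero, exp_zero] at t0
  generalize exp (-s) = E at *
  rcases le_total E (1 / 2) with c1 | c1
  · rcases le_total E (1 / 5) with c2 | c2
    · rcases le_total E (9 / 100) with c3 | c3
      · nlinarith
      · nlinarith
    · nlinarith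
  · nlinarith

theorem min_int {s : ℝ} (hs : 0 < s) :
    IntegrableOn (fun σ => exp (-(2 * σ)) * min σ s ^ 2) (Ioi 0) ∧
      ∫ σ in Ioi (0 : ℝ), exp (-(2 * σ)) * min σ s ^ 2 ≤ s ^ 2 / 2 * (exp (-s) + 7 / 200) := by
  have hg : IntegrableOn (fun σ : ℝ => s ^ 2 * exp (-2 * σ)) (Ioi 0) :=
    (integrableOn_exp_mul_Ioi (a := -2) (by norm_num) 0).const_mul _
  have hf : IntegrableOn (fun σ => exp (-(2 * σ)) * min σ s ^ 2) (Ioi 0) := by
    refine Integrable.mono' hg (Continuous.aestronglyMeasurable (by fun_prop)) ?_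
    refine (ae_restrict_iff' measurableSet_Ioi).2 (Filter.Eventually.of_forall fun σ hσ => ?_)
    rw [Real.norm_eq_abs, abs_of_nonneg (by positivity), mul_comm, neg_mul]
    refine mul_le_mul_of_nonneg_right ?_ (exp_pos _).le
    exact pow_le_pow_left₀ (le_min (le_of_lt hσ) hs.le) (min_le_right _ _) 2
  refine ⟨hf, ?_⟩
  rw [← intervalIntegral.integral_interval_add_Ioi hf (hf.mono_set (Ioi_subset_Ioi hs.le))]
  have e2 : ∫ σ in Ioi s, exp (-(2 * σ)) * min σ s ^ 2 = s ^ 2 / 2 * exp (-(2 * s)) := by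
    rw [setIntegral_congr_fun (g := fun σ => s ^ 2 * exp (-2 * σ)) measurableSet_Ioi
      (fun σ hσ => by
        have hσ' : s ≤ σ := le_of_lt hσ
        show exp (-(2 * σ)) * min σ s ^ 2 = s ^ 2 * exp (-2 * σ)
        rw [min_eq_right hσ', neg_mul, mul_comm]),
      integral_const_mul, integral_exp_mul_Ioi (by norm_num), neg_mul]
    ring
  have hd : ∀ σ : ℝ, HasDerivAt
      (fun σ : ℝ => σ ^ 2 / 2 * (exp (-σ) + 7 / 200 - exp (-(2 * σ))))
      (σ * (exp (-σ) + 7 / 200 - exp (-(2 * σ))) +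
        σ ^ 2 / 2 * (-exp (-σ) + 2 * exp (-(2 * σ)))) σ := by
    intro σ
    have h1 : HasDerivAt (fun σ : ℝ => exp (-σ)) (exp (-σ) * -1) σ := (hasDerivAt_neg σ).exp
    have h2 : HasDerivAt (fun σ : ℝ => exp (-(2 * σ))) (exp (-(2 * σ)) * -(2 * 1)) σ :=
      ((hasDerivAt_id σ).const_mul 2).neg.exp
    have h := ((hasDerivAt_pow 2 σ).div_const 2).mul ((h1.add_const (7 / 200)).sub h2)
    refine h.congr_deriv ?_
    simp only [Pi.sub_apply]
    push_cast
    ring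
  have e1 : ∫ σ in (0 : ℝ)..s, exp (-(2 * σ)) * min σ s ^ 2 ≤
      s ^ 2 / 2 * (exp (-s) + 7 / 200 - exp (-(2 * s))) := by
    have h := intervalIntegral.integral_eq_sub_of_hasDerivAt (a := 0) (b := s) (fun σ _ => hd σ)
      (Continuous.intervalIntegrable (by fun_prop) _ _)
    have h' : s ^ 2 / 2 * (exp (-s) + 7 / 200 - exp (-(2 * s))) =
        s ^ 2 / 2 * (exp (-s) + 7 / 200 - exp (-(2 * s))) -
          (0 : ℝ) ^ 2 / 2 * (exp (-0) + 7 / 200 - exp (-(2 * 0))) := by ring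
    rw [h', ← h]
    refine intervalIntegral.integral_mono_on hs.le
      (Continuous.intervalIntegrable (by fun_prop) _ _)
      (Continuous.intervalIntegrable (by fun_prop) _ _) fun σ hσ => ?_
    rw [min_eq_left hσ.2]
    have k := mul_le_mul_of_nonneg_left (sbgap1_key hσ.1) hσ.1
    have e : exp (-(2 * σ)) = exp (-σ) ^ 2 := by
      rw [sq, ← exp_add]
      congr 1
      ring
    rw [e]
    nlinarith
  rw [e2]
  linarith

end Pool.Agent.PSF
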