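import Pool.Agent.P.MP_7b7370_an.SBLam
import Pool.Agent.P.MP_7b7370_an.SBGap1
import Pool.Agent.P.MP_7b7370_an.SBArea

set_option autoImplicit false

namespace Pool.Agent.PSF

open Real Set MeasureTheory

theorem M_min_le {ν s : ℝ} (hν : 4 ≤ ν) (hs : 0 < s) {Z : ℝ × ℝ → ℝ} (hZ : Adm Z)
    (h : ∀ p : ℝ × ℝ, 0 < p.1 → |Z p| ≤ min p.1 s) :
    Bw (om ν) Z Z ≤ π * (s ^ 2 / 2 * (exp (-s) + 137 / 1000)) := by
  have hio := integrableOn_om (n := ν) (by linarith)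
  have hb : ∀ σ : ℝ, 0 < σ → min σ s ^ 2 ≤ s ^ 2 := fun σ hσ =>
    pow_le_pow_left₀ (lt_min hσ hs).le (min_le_right _ _) 2
  obtain ⟨i1, i2, e1⟩ := integral_radial hio (F := fun σ => min σ s ^ 2) (by fun_prop)
    (M := s ^ 2) fun σ hσ => by
      rw [abs_of_nonneg (sq_nonneg _)]
      exact hb σ hσ
  obtain ⟨j1, k1⟩ := min_int hs
  obtain ⟨j2, k2⟩ := ar_eq hν
  obtain ⟨j3, k3⟩ := int_pow_exp 0 (A := 2) two_pos
  simp only [pow_zero, one_mul] at j3 k3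
  have h1 : Bw (om ν) Z Z ≤ ∫ p in Pi0, om ν p * min p.1 s ^ 2 := by
    refine setIntegral_mono_on (int_Bw hio hZ hZ) i1 measurableSet_Pi0 fun p hp => ?_
    refine mul_le_mul_of_nonneg_left ?_ (om_pos (by linarith) hp.1).le
    rw [← abs_mul_abs_self, sq]
    exact mul_self_le_mul_self (abs_nonneg _) (h p hp.1)
  have j4 : IntegrableOn (fun σ => s ^ 2 * (exp (-(2 * σ)) * om0 ν σ - exp (-(2 * σ)))) (Ioi 0) :=
    (j2.sub j3).const_mul _
  have h2 : ∫ σ in Ioi (0 : ℝ), mean (om ν) σ * min σ s ^ 2 ≤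
      ∫ σ in Ioi (0 : ℝ), π * (exp (-(2 * σ)) * min σ s ^ 2 +
        s ^ 2 * (exp (-(2 * σ)) * om0 ν σ - exp (-(2 * σ)))) := by
    refine setIntegral_mono_on i2 ((j1.add j4).const_mul _) measurableSet_Ioi fun σ hσ => ?_
    rw [mean_om hν hσ, mul_assoc]
    refine mul_le_mul_of_nonneg_left ?_ pi_pos.le
    have := mul_nonneg (mul_nonneg (exp_pos (-(2 * σ))).le (sub_nonneg.2 (one_le_om0 hν hσ)))
      (sub_nonneg.2 (hb σ hσ))
    linarith
  rw [integral_const_mul, integral_add j1 j4, integral_const_mul, integral_sub j2 j3, k3] at h2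
  refine (h1.trans_eq e1).trans (h2.trans (mul_le_mul_of_nonneg_left ?_ pi_pos.le))
  have h3 : (∫ σ in Ioi (0 : ℝ), exp (-(2 * σ)) * om0 ν σ) - (Nat.factorial 0 : ℝ) / 2 ^ (0 + 1) ≤
      51 / 1000 := by
    have := ar_le hν
    norm_num
    linarith
  have := mul_le_mul_of_nonneg_left h3 (sq_nonneg s)
  linarith

theorem sbel_cut {η s δ : ℝ} (hη : 0 < η) (hδ : 0 < δ) : ∃ χ : ℝ → ℝ, Continuous χ ∧
    (∀ σ, 0 ≤ χ σ ∧ χ σ ≤ 1) ∧ (∀ σ, σ ≤ η / 2 → χ σ = 0) ∧ (∀ σ, s + δ ≤ σ → χ σ = 0) ∧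
    ∀ σ, η ≤ σ → σ ≤ s → χ σ = 1 := by
  refine ⟨fun σ => max 0 (min 1 (min ((σ - η / 2) / (η / 2)) ((s + δ - σ) / δ))), by fun_prop,
    fun σ => ⟨le_max_left _ _, max_le zero_le_one (min_le_left _ _)⟩, fun σ h => ?_, fun σ h => ?_,
    fun σ h h' => ?_⟩
  · exact max_eq_left ((min_le_right _ _).trans ((min_le_left _ _).trans
      (div_nonpos_of_nonpos_of_nonneg (by linarith) (by linarith))))
  · exact max_eq_left ((min_le_right _ _).trans ((min_le_right _ _).trans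
      (div_nonpos_of_nonpos_of_nonneg (by linarith) hδ.le)))
  · have a : 1 ≤ (σ - η / 2) / (η / 2) := (one_le_div (by linarith)).2 (by linarith)
    have b : 1 ≤ (s + δ - σ) / δ := (one_le_div hδ).2 (by linarith)
    show max 0 (min 1 (min _ _)) = 1
    rw [min_eq_left (le_min a b), max_eq_right zero_le_one]

theorem sbel_Ioi {f : ℝ → ℝ} {T : ℝ} (hT : 0 ≤ T) (h : ∀ σ, T ≤ σ → f σ = 0) :
    ∫ σ in Ioi (0 : ℝ), f σ = ∫ σ in (0 : ℝ)..T, f σ := by
  rw [intervalIntegral.integral_of_le hT]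
  exact setIntegral_eq_of_subset_of_forall_sdiff_eq_zero measurableSet_Ioi Ioc_subset_Ioi_self
    fun σ hσ => h σ (not_le.1 fun k => hσ.2 ⟨hσ.1, k⟩).le

theorem sbel_one {f : ℝ → ℝ} (h : ∀ σ, |f σ| ≤ 1) {T : ℝ} (hT : 0 ≤ T) :
    |∫ σ in (0 : ℝ)..T, f σ| ≤ T := by
  have := intervalIntegral.norm_integral_le_of_norm_le_const (a := 0) (b := T) (f := f) (C := 1)
    fun σ _ => h σ
  rwa [one_mul, sub_zero, abs_of_nonneg hT] at this

theorem sbel_r0 {V : ℝ × ℝ → ℝ} {σ : ℝ} (h : ∀ φ, V (σ, φ) = 0) : r0 V σ = 0 := by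
  simp [r0, h]

theorem el_step {ν d e s δ : ℝ} (hν : 4 ≤ ν) {W : ℝ × ℝ → ℝ} (hW : Adm W) (hd : 0 ≤ d)
    (he : 0 ≤ e) (hD : Db ν W W = d ^ 2)
    (hq : Db ν W W - lam ν * Bw (om ν) W W ≤ (e * d) ^ 2) (hs : 0 < s) (hδ : 0 < δ) {C : ℝ}
    (hC : ∀ σ, |r0 (dx W) σ| ≤ C) :
    π * |r0 W s| ≤ π * (C * δ) + e * d * √(π * (s + δ)) +
      d * √(1157 / 200 * (π * ((s + δ) ^ 2 / 2 * (exp (-(s + δ)) + 137 / 1000)))) := by
  obtain ⟨η, S, κ, hη, -, h0, -⟩ := hW.supp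
  obtain ⟨χ, hχ, hb, z0, z1, z2⟩ := sbel_cut (s := s) hη hδ
  have hT : 0 < s + δ := by linarith
  have hν0 : 0 < ν := by linarith
  have hab : ∀ σ, |χ σ| ≤ 1 := fun σ => by rw [abs_of_nonneg (hb σ).1]; exact (hb σ).2
  obtain ⟨hz, hx, hy⟩ := adm_prim hχ (half_pos hη) z0 z1
  have hg := hW.cont_r0.2
  have hgc : Continuous fun σ => r0 (dx W) σ * χ σ := hg.mul hχ
  have e1 : Db ν W (prim χ) = π * (r0 W s + ∫ σ in s..s + δ, r0 (dx W) σ * χ σ) := by
    have a : E2 W (prim χ) = 0 := by simp [E2, hy]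
    have b : ∫ σ in (0 : ℝ)..s, r0 (dx W) σ * χ σ = ∫ σ in (0 : ℝ)..s, r0 (dx W) σ := by
      refine intervalIntegral.integral_congr fun σ hσ => ?_
      rw [uIcc_of_le hs.le] at hσ
      rcases le_total σ η with k | k
      · show r0 (dx W) σ * χ σ = r0 (dx W) σ
        rw [sbel_r0 fun φ => (h0 (σ, φ) k).2.1, zero_mul]
      · show r0 (dx W) σ * χ σ = r0 (dx W) σ
        rw [z2 σ k hσ.2, mul_one]
    rw [Db, a, mul_zero, add_zero, (E1_radial hW hz hx).2,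
      sbel_Ioi hT.le fun σ k => by rw [z1 σ k, mul_zero],
      ← intervalIntegral.integral_add_adjacent_intervals (hgc.intervalIntegrable 0 s)
        (hgc.intervalIntegrable s (s + δ)), b,
      intervalIntegral.integral_eq_sub_of_hasDerivAt (fun σ _ => hW.hasDerivAt_r0 σ)
        (hg.intervalIntegrable 0 s), sbel_r0 (σ := 0) fun φ => (h0 (0, φ) hη.le).1, sub_zero]
  have e2 : |∫ σ in s..s + δ, r0 (dx W) σ * χ σ| ≤ C * δ := by
    have := intervalIntegral.norm_integral_le_of_norm_le_const (a := s) (b := s + δ)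
      (f := fun σ => r0 (dx W) σ * χ σ) (C := C) fun σ _ => by
        rw [Real.norm_eq_abs, abs_mul]
        exact (mul_le_of_le_one_right (abs_nonneg _) (hab σ)).trans (hC σ)
    rwa [add_sub_cancel_left, abs_of_pos hδ] at this
  have hl := lam_nonneg hν0
  have hB : ∀ V, 0 ≤ Bw (om ν) V V := fun V => Bn_eq ν V ▸ Bn_nonneg hν0 V
  have e3 : Db ν (prim χ) (prim χ) ≤ π * (s + δ) := by
    rw [(Db_prim hχ (half_pos hη) z0 z1 ν).2,
      sbel_Ioi hT.le fun σ k => by rw [z1 σ k, zero_pow two_ne_zero]]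
    refine mul_le_mul_of_nonneg_left ((le_abs_self _).trans (sbel_one (fun σ => ?_) hT.le))
      pi_pos.le
    rw [abs_pow]
    exact pow_le_one₀ (abs_nonneg _) (hab σ)
  have e4 := q_cs (by linarith : 2 < ν) hW hz (mul_nonneg he hd) (sqrt_nonneg (π * (s + δ))) hq
    (by rw [sq_sqrt (by positivity)]; linarith [mul_nonneg hl (hB (prim χ))])
  have e5 := M_min_le hν hT hz fun p hp => by
    refine le_min (sbel_one hab hp.le) ?_
    rcases le_total p.1 (s + δ) with k | k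
    · exact (sbel_one hab hp.le).trans k
    · rw [prim, ← sbel_Ioi hp.le fun σ k' => z1 σ (k.trans k'), sbel_Ioi hT.le z1]
      exact sbel_one hab hT.le
  have e6 := M_cs (by linarith : 2 < ν) hW hz (sqrt_nonneg _) (sqrt_nonneg _)
    (sq_sqrt (hB W)).ge (sq_sqrt (hB (prim χ))).ge
  have e7 : √(lam ν * Bw (om ν) W W) ≤ d :=
    sqrt_le_iff.2 ⟨hd, by linarith [q_nonneg hν0 hW]⟩
  have e8 := sqrt_le_sqrt (mul_le_mul (lam_le_bar hν) e5 (hB _) (by norm_num))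
  have e9 := mul_le_mul e7 e8 (sqrt_nonneg _) hd
  rw [sqrt_mul hl, sqrt_mul hl, mul_mul_mul_comm, mul_self_sqrt hl] at e9
  have e10 := (mul_le_mul_of_nonneg_left e6 hl).trans e9
  have e11 := mul_le_mul_of_nonneg_left e2 pi_pos.le
  rw [← abs_of_nonneg hl, ← abs_mul, abs_le] at e10
  rw [← abs_of_pos pi_pos, ← abs_mul, abs_of_pos pi_pos, abs_le] at e11
  rw [abs_le] at e4
  have : |π * r0 W s| = π * |r0 W s| := by rw [abs_mul, abs_of_pos pi_pos]
  rw [← this, abs_le]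
  constructor <;> linarith [e4.1, e4.2, e10.1, e10.2, e11.1, e11.2]

theorem el_bound {m ν d s : ℝ} (hm : 4 ≤ m) (hν : m ≤ ν) {W : ℝ × ℝ → ℝ} (hW : Adm W)
    (hd : 0 ≤ d) (hD : Db ν W W = d ^ 2)
    (hq : Db ν W W - lam ν * Bw (om ν) W W ≤ ((4 / m) ^ 2 / 10000 * d) ^ 2) (hs : 0 < s) :
    π * r0 W s ^ 2 ≤ d ^ 2 * hh m s := by
  obtain ⟨η, S, κ, -, hS, h0, h1⟩ := hW.supp
  obtain ⟨C, hC⟩ := (isCompact_Icc (a := η) (b := S)).exists_bound_of_continuousOn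
    hW.cont_r0.2.continuousOn
  have hC0 : 0 ≤ C := (norm_nonneg _).trans (hC η ⟨le_rfl, hS.le⟩)
  have hC' : ∀ σ, |r0 (dx W) σ| ≤ C := fun σ => by
    rcases le_total σ η with k | k
    · rwa [sbel_r0 fun φ => (h0 (σ, φ) k).2.1, abs_zero]
    rcases le_total S σ with k' | k'
    · rwa [sbel_r0 fun φ => (h1 (σ, φ) k').2.1, abs_zero]
    exact hC σ ⟨k, k'⟩
  set e : ℝ := (4 / m) ^ 2 / 10000 with he
  have hc : Continuous fun δ : ℝ => π * (C * δ) + e * d * √(π * (s + δ)) +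
      d * √(1157 / 200 * (π * ((s + δ) ^ 2 / 2 * (exp (-(s + δ)) + 137 / 1000)))) := by fun_prop
  have key := ge_of_tendsto ((hc.tendsto 0).mono_left (nhdsWithin_le_nhds (s := Ioi 0)))
    (eventually_nhdsWithin_of_forall fun δ hδ =>
      el_step (hm.trans hν) hW hd (by positivity) hD hq hs hδ hC')
  simp only [mul_zero, add_zero, zero_add] at key
  have k2 := pow_le_pow_left₀ (by positivity) key 2
  have a1 := sq_sqrt (show 0 ≤ π * s by positivity)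
  have a2 := sq_sqrt (show 0 ≤ 1157 / 200 * (π * (s ^ 2 / 2 * (exp (-s) + 137 / 1000))) by
    positivity)
  generalize √(π * s) = Y at k2 a1
  generalize √(1157 / 200 * (π * (s ^ 2 / 2 * (exp (-s) + 137 / 1000)))) = X at k2 a2
  have k3 : (e * d * Y + d * X) ^ 2 ≤ d ^ 2 * (501 * e ^ 2 * Y ^ 2 + 501 / 500 * X ^ 2) := by
    nlinarith [sq_nonneg (500 * (e * d * Y) - d * X)]
  have hm0 : 0 < m := by linarith
  have k4 : 501 * e ^ 2 ≤ 1 / (10000 * m) := by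
    have h3 : (4 : ℝ) ^ 3 ≤ m ^ 3 := pow_le_pow_left₀ (by norm_num) hm 3
    rw [he, show 501 * ((4 / m) ^ 2 / 10000) ^ 2 = 501 * 256 / 10000 / m ^ 3 * (1 / (10000 * m)) by
      field_simp; ring]
    refine mul_le_of_le_one_left (by positivity) ((div_le_one (by positivity)).2 ?_)
    linarith
  have k5 : 501 * e ^ 2 * s + 501 / 500 * (1157 / 200 * (s ^ 2 / 2 * (exp (-s) + 137 / 1000))) ≤
      hh m s := by
    have b1 := mul_le_mul_of_nonneg_right k4 hs.le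
    have b2 : 0 ≤ s ^ 2 * exp (-s) := by positivity
    have b3 : 1 / (10000 * m) * s = s / (10000 * m) := by ring
    unfold hh
    nlinarith [sq_nonneg s]
  rw [mul_pow, sq_abs] at k2
  rw [a1, a2] at k3
  have k6 := mul_le_mul_of_nonneg_left (mul_le_mul_of_nonneg_left k5 (sq_nonneg d)) pi_pos.le
  refine le_of_mul_le_mul_left ?_ pi_pos
  nlinarith

end Pool.Agent.PSF
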