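import Pool.Agent.P.MP_7b7370_an.SBPack
import Pool.Agent.P.MP_7b7370_an.SBArea2

set_option autoImplicit false

namespace Pool.Agent.PSF

open Real Set MeasureTheory

theorem sbfo_D (n : ℝ) (V : ℝ × ℝ → ℝ) : 0 ≤ Db n V V :=
  add_nonneg (E1_nonneg V) (mul_nonneg (sq_nonneg n) (E2_nonneg V))

theorem sbfo_x {m : ℝ} (hm : 4 ≤ m) (k : ℕ) : 0 < (4 / m) ^ k ∧ (4 / m) ^ k ≤ 1 :=
  ⟨pow_pos (div_pos four_pos (by linarith)) k,
    pow_le_one₀ (div_pos four_pos (by linarith)).le ((div_le_one (by linarith)).2 hm)⟩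

theorem sbfo_par {m p r : ℝ} (hm : 4 ≤ m) (hp : m ≤ p) (hpr : p < r) (h : r - p ≤ 1 / 500) :
    Par m ((p + r) / 2) ((r - p) / 2) :=
  ⟨hm, by linarith, by linarith, by linarith⟩

theorem sbfo_J1 {p r : ℝ} (hpr : p < r) (f : ℝ → ℝ) :
    f p - f r = (r - p) * J1 ((p + r) / 2) ((r - p) / 2) f := by
  have h : r - p ≠ 0 := by linarith [sub_pos.2 hpr] |> ne_of_gt
  rw [J1, show (p + r) / 2 - (r - p) / 2 = p by ring, show (p + r) / 2 + (r - p) / 2 = r by ring]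
  field_simp

theorem sbfo_fin {a b c K : ℝ} (hc0 : 0 ≤ c) (hc1 : c ≤ 1) (hb : b ≤ 1157 / 200)
    (hK : 1157 / 200 * c ≤ K) (h : ∀ ζ, 0 < ζ → a ≤ (b + ζ) * (1 + c)) : a - b ≤ K := by
  refine le_of_forall_pos_le_add fun ε hε => ?_
  have h1 := h (ε / 2) (by linarith)
  nlinarith [mul_le_mul_of_nonneg_right hb hc0, mul_le_mul_of_nonneg_left hc1 hε.le]

theorem exists_good {m ν : ℝ} (hm : 4 ≤ m) (hν : m ≤ ν) {ζ : ℝ} (hζ : 0 < ζ) :
    ∃ (W : ℝ × ℝ → ℝ) (d : ℝ), Good m ν W d ∧ 0 < Bw (om ν) W W ∧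
      d ^ 2 ≤ (lam ν + ζ) * Bw (om ν) W W := by
  have hx := (sbfo_x hm 4).1
  obtain ⟨ε, h0, h1, h2⟩ : ∃ ε : ℝ, 0 < ε ∧ ε ≤ ζ ∧ ε ≤ (4 / m) ^ 4 / 100000000 :=
    ⟨min _ _, lt_min hζ (by positivity), min_le_left _ _, min_le_right _ _⟩
  obtain ⟨V, hV, hlt⟩ := exists_lt_of_lam_lt (n := ν) (τ := lam ν + ε) (by linarith) (by linarith)
  rw [Dn_eq hV, Bn_eq] at hlt
  have hD := sbfo_D ν V
  have hl := lam_nonneg (n := ν) (by linarith)
  have hM : 0 < Bw (om ν) V V := pos_of_mul_pos_right (hD.trans_lt hlt) (by linarith)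
  have hMD := M_le_D (ν := ν) (n := ν) (by linarith) (by linarith) hV
  have hs := sq_sqrt hD
  refine ⟨V, √(Db ν V V), good_of_near hm hν hV (sqrt_nonneg _) hs.symm ?_, hM, ?_⟩
  · have h3 : ((4 / m) ^ 2 / 10000 * √(Db ν V V)) ^ 2 = (4 / m) ^ 4 / 100000000 * Db ν V V := by
      rw [mul_pow, hs]; ring
    rw [h3]
    have h4 : ε * Bw (om ν) V V ≤ (4 / m) ^ 4 / 100000000 * Db ν V V :=
      mul_le_mul h2 (by linarith) hM.le (by positivity)
    linarith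
  · rw [hs]
    nlinarith [mul_le_mul_of_nonneg_right h1 hM.le]

theorem lam_up {m p r : ℝ} (hm : 4 ≤ m) (hp : m ≤ p) (hpr : p < r) (h : r - p ≤ 1 / 500) :
    lam p - lam r ≤ (r - p) * (21 / 500 * (4 / m) ^ 5) := by
  obtain ⟨x0, x1⟩ := sbfo_x hm 5
  have hδ : 0 < r - p := sub_pos.2 hpr
  have hy0 : 0 ≤ (r - p) * (4 / m) ^ 5 := by positivity
  have hy1 : (r - p) * (4 / m) ^ 5 ≤ 1 := mul_le_one₀ (by linarith) x0.le x1
  refine sbfo_fin (c := 1157 / 200 / 800 * ((r - p) * (4 / m) ^ 5)) (by positivity) (by linarith)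
    (lam_le_bar (by linarith)) (by linarith) fun ζ hζ => ?_
  obtain ⟨W, d, hW, hM, hd⟩ := exists_good hm (hp.trans hpr.le) hζ
  have hP := sbfo_par hm hp hpr h
  have h1 := (w1_diag hP (hp.trans hpr.le) hW).1
  rw [Bw_w1 hP.t0 (by linarith) hW.adm hW.adm] at h1
  have h2 := sbfo_J1 hpr fun ν => Bw (om ν) W W
  have h3 := mul_le_mul_of_nonneg_left h1 hδ.le
  rw [← h2] at h3
  have h4 := q_nonneg (n := p) (by linarith) hW.adm
  have h5 : Db p W W ≤ d ^ 2 := by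
    rw [← hW.en, Db, Db]
    have := mul_le_mul_of_nonneg_right (show p ^ 2 ≤ r ^ 2 by nlinarith) (E2_nonneg W)
    linarith
  have hl0 := lam_nonneg (n := p) (by linarith)
  have hl1 := lam_le_bar (ν := p) (by linarith)
  have h6 := mul_le_mul_of_nonneg_left h3 hl0
  have h7 := mul_le_mul_of_nonneg_right hl1 (mul_nonneg hy0 (sq_nonneg d))
  have h8 : lam p * Bw (om r) W W ≤
      d ^ 2 * (1 + 1157 / 200 / 800 * ((r - p) * (4 / m) ^ 5)) := by nlinarith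
  refine le_of_mul_le_mul_right (h8.trans ?_) hM
  have h9 := mul_le_mul_of_nonneg_right hd
    (show 0 ≤ 1 + 1157 / 200 / 800 * ((r - p) * (4 / m) ^ 5) by positivity)
  linarith

theorem lam_down {p r : ℝ} (hp : 4 ≤ p) (hpr : p < r) (h : r - p ≤ 1 / 500) :
    lam r - lam p ≤ (r - p) * (119 / 1000 * (4 / p) ^ 4) := by
  obtain ⟨x0, x1⟩ := sbfo_x hp 4
  have hδ : 0 < r - p := sub_pos.2 hpr
  have hy0 : 0 ≤ (r - p) * (4 / p) ^ 4 := by positivity
  have hy1 : (r - p) * (4 / p) ^ 4 ≤ 1 := mul_le_one₀ (by linarith) x0.le x1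
  refine sbfo_fin (c := 41 / 2000 * ((r - p) * (4 / p) ^ 4)) (by positivity) (by linarith)
    (lam_le_bar hp) (by linarith) fun ζ hζ => ?_
  obtain ⟨W, d, hW, hM, hd⟩ := exists_good hp le_rfl hζ
  have hP := sbfo_par hp le_rfl hpr h
  have h1 := (w1_diag hP le_rfl hW).2
  rw [Bw_w1 hP.t0 (by linarith) hW.adm hW.adm] at h1
  have h2 := sbfo_J1 hpr fun ν => Bw (om ν) W W
  have h3 := mul_le_mul_of_nonneg_left h1 hδ.le
  rw [← h2] at h3
  have h4 := q_nonneg (n := r) (by linarith) hW.adm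
  have hE := E2_nonneg W
  have h5 : p ^ 2 * E2 W W ≤ 5329 / 1000000 * ((4 / p) ^ 4 * d ^ 2) := by
    have := hW.an
    rw [Db, ← E2_ang hW.adm hW.adm] at this
    nlinarith [E1_nonneg (ang W)]
  have h5' : r ^ 2 - p ^ 2 ≤ 501 / 1000 * (r - p) * p ^ 2 := by
    have : r + p ≤ 501 / 1000 * p ^ 2 := by nlinarith
    nlinarith [mul_le_mul_of_nonneg_left this hδ.le]
  have h6' : Db r W W ≤ d ^ 2 + 501 / 1000 * (5329 / 1000000) *
      ((r - p) * (4 / p) ^ 4 * d ^ 2) := by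
    have e := hW.en
    rw [Db] at e ⊢
    have a1 := mul_le_mul_of_nonneg_right h5' hE
    have a2 := mul_le_mul_of_nonneg_left h5 hδ.le
    nlinarith
  have hl0 := lam_nonneg (n := r) (by linarith)
  have hl1 := lam_le_bar (ν := r) (by linarith)
  have h6 := mul_le_mul_of_nonneg_left h3 hl0
  have hz := mul_nonneg hy0 (sq_nonneg d)
  have h7 := mul_le_mul_of_nonneg_right hl1 hz
  have h8 : lam r * Bw (om p) W W ≤ d ^ 2 * (1 + 41 / 2000 * ((r - p) * (4 / p) ^ 4)) := by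
    nlinarith
  refine le_of_mul_le_mul_right (h8.trans ?_) hM
  have h9 := mul_le_mul_of_nonneg_right hd
    (show 0 ≤ 1 + 41 / 2000 * ((r - p) * (4 / p) ^ 4) by positivity)
  linarith

theorem ar_diff {p r : ℝ} (hp : 4 ≤ p) (hpr : p < r) (h : r - p ≤ 1 / 500) :
    0 ≤ ar p - ar r ∧ ar p - ar r ≤ (r - p) * (21 / 200 * (4 / p) ^ 2) := by
  have h1 := J1_ar_le (sbfo_par hp le_rfl hpr h)
  have hδ : 0 ≤ r - p := sub_nonneg.2 hpr.le
  rw [sbfo_J1 hpr ar]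
  exact ⟨mul_nonneg hδ h1.1, mul_le_mul_of_nonneg_left h1.2 hδ⟩

theorem gn_eq (n : ℝ) : gn n = π * (ar n * lam n) := by
  rw [gn, ar, ← mul_assoc, mul_div_cancel₀ _ pi_ne_zero]

theorem sbfo_cont {f : ℝ → ℝ}
    (h : ∀ p r, 4 ≤ p → p < r → r - p ≤ 1 / 500 → |f p - f r| ≤ r - p) :
    ContinuousOn f (Ici 4) := by
  refine Metric.continuousOn_iff.2 fun b hb ε hε =>
    ⟨min ε (1 / 500), lt_min hε (by norm_num), fun a ha hab => ?_⟩
  rw [lt_min_iff, Real.dist_eq, abs_lt, abs_lt] at hab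
  rw [Real.dist_eq]
  rcases lt_trichotomy a b with hl | rfl | hl
  · exact (h a b ha hl (by linarith [hab.2.1])).trans_lt (by linarith [hab.1.1])
  · simpa using hε
  · rw [abs_sub_comm]
    exact (h b a hb hl (by linarith [hab.2.2])).trans_lt (by linarith [hab.1.2])

theorem continuousOn_gn : ContinuousOn gn (Ici 4) := by
  have h1 : ContinuousOn ar (Ici 4) := sbfo_cont fun p r hp hpr h => by
    obtain ⟨a1, a2⟩ := ar_diff hp hpr h
    have := mul_le_mul_of_nonneg_left (sbfo_x hp 2).2 (sub_nonneg.2 hpr.le)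
    rw [abs_le]
    constructor <;> nlinarith
  have h2 : ContinuousOn lam (Ici 4) := sbfo_cont fun p r hp hpr h => by
    have a1 := lam_up hp le_rfl hpr h
    have a2 := lam_down hp hpr h
    have b1 := mul_le_mul_of_nonneg_left (sbfo_x hp 5).2 (sub_nonneg.2 hpr.le)
    have b2 := mul_le_mul_of_nonneg_left (sbfo_x hp 4).2 (sub_nonneg.2 hpr.le)
    rw [abs_le]
    constructor <;> nlinarith
  exact (continuousOn_const.mul (h1.mul h2)).congr fun n _ => gn_eq n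

theorem gn_five_step {t : ℝ} (h0 : 0 < t) (h1 : t ≤ 1 / 500) :
    gn 5 - gn (5 + t) ≤ 2 / 3 * t := by
  have hpr : (5 : ℝ) < 5 + t := by linarith
  have ht : 5 + t - 5 = t := by ring
  have a1 := J1_ar_five (sbfo_par (m := 5) (by norm_num) le_rfl hpr (by linarith))
  have a2 := sbfo_J1 hpr ar
  have a3 := lam_up (m := 5) (by norm_num) le_rfl hpr (by linarith)
  have a4 := mul_le_mul_of_nonneg_left a1 h0.le
  rw [ht] at a2 a3 a4
  rw [← a2] at a4
  have b0 := lam_nonneg (n := 5 + t) (by linarith)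
  have b1 := lam_le_bar (ν := 5 + t) (by linarith)
  have b2 := one_le_ar (ν := 5) (by norm_num)
  have c1 := mul_le_mul a4 b1 b0 (by positivity)
  have c2 := (mul_le_mul_of_nonneg_left a3 (zero_le_one.trans b2)).trans
    (mul_le_mul_of_nonneg_right ar_five (by positivity))
  have c3 : ar 5 * lam 5 - ar (5 + t) * lam (5 + t) ≤ 1 / 5 * t := by nlinarith
  have c4 := mul_le_mul_of_nonneg_left c3 pi_pos.le
  have c5 := mul_le_mul_of_nonneg_right pi_lt_d2.le h0.le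
  rw [gn_eq, gn_eq]
  nlinarith

end Pool.Agent.PSF
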