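import Pool.Agent.P.MP_7b7370_an.SBHW

set_option autoImplicit false

namespace Pool.Agent.PSF

open Real Set MeasureTheory

theorem sbform_gen {α : Type} [MeasurableSpace α] {μ : Measure α} {F A B : α → ℝ} {c X Y : ℝ}
    (hA : Integrable A μ) (hB : Integrable B μ) (hc : 0 ≤ c) (hX0 : 0 ≤ X) (hY0 : 0 ≤ Y)
    (hX : ∫ x, A x ∂μ ≤ X ^ 2) (hY : ∫ x, B x ∂μ ≤ Y ^ 2)
    (h : ∀ t : ℝ, 0 < t → ∀ᵐ x ∂μ, |F x| ≤ c * ((t * A x + B x / t) / 2)) :
    |∫ x, F x ∂μ| ≤ c * (X * Y) := by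
  have key : ∀ t : ℝ, 0 < t → |∫ x, F x ∂μ| ≤ c * ((t * X ^ 2 + Y ^ 2 / t) / 2) := by
    intro t ht
    have hi : Integrable (fun x => c * ((t * A x + B x / t) / 2)) μ :=
      (((hA.const_mul t).add (hB.div_const t)).div_const 2).const_mul c
    have h1 := norm_integral_le_of_norm_le (f := F) hi (h t ht)
    rw [Real.norm_eq_abs, integral_const_mul, integral_div,
      integral_add (hA.const_mul t) (hB.div_const t), integral_const_mul, integral_div] at h1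
    refine h1.trans (mul_le_mul_of_nonneg_left ?_ hc)
    have h2 := mul_le_mul_of_nonneg_left hX ht.le
    have h3 := div_le_div_of_nonneg_right hY ht.le
    linarith
  rcases hc.eq_or_lt with h0 | h0
  · have := key 1 one_pos
    rw [← h0] at this ⊢
    simpa using this
  · rw [mul_comm, ← div_le_iff₀ h0]
    refine le_of_amgm hX0 hY0 fun t ht => ?_
    rw [div_le_iff₀ h0, mul_comm]
    exact key t ht

theorem sbform_am (a b : ℝ) {t : ℝ} (ht : 0 < t) : |a * b| ≤ (t * a ^ 2 + b ^ 2 / t) / 2 := by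
  have h1 : 0 ≤ (t * |a| - |b|) ^ 2 / t := by positivity
  have h2 : (t * |a| - |b|) ^ 2 / t = t * |a| ^ 2 + |b| ^ 2 / t - 2 * (|a| * |b|) := by
    field_simp
    ring
  rw [h2, sq_abs, sq_abs] at h1
  rw [abs_mul]
  linarith

theorem sbform_pt {f w c a b t : ℝ} (ht : 0 < t) (hf : |f| ≤ c * w) :
    |f * (a * b)| ≤ c * ((t * (w * a ^ 2) + w * b ^ 2 / t) / 2) := by
  rw [abs_mul]
  refine (mul_le_mul hf (sbform_am a b ht) (abs_nonneg _) ((abs_nonneg _).trans hf)).trans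
    (le_of_eq ?_)
  ring

theorem sbform_slice {g a : ℝ → ℝ} {r ρ v k t : ℝ} (hg : Continuous g) (ha : Continuous a)
    (h0 : ∫ φ in (0 : ℝ)..π, a φ = 0) (hρ : 0 < ρ) (ht : 0 < t)
    (hv : ∃ c : ℝ, ∫ φ in (0 : ℝ)..π, (g φ - c) ^ 2 ≤ π * v) (hle : π * r ^ 2 * v ≤ k * ρ) :
    |∫ φ in (0 : ℝ)..π, g φ * (r * a φ)| ≤
      1 * ((t * (∫ φ in (0 : ℝ)..π, ρ * a φ ^ 2) + k / t) / 2) := by
  obtain ⟨c, hc⟩ := hv
  have htρ : 0 < t * ρ := mul_pos ht hρ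
  have c1 : Continuous fun φ => a φ * (r * (g φ - c)) := by fun_prop
  have c2 : Continuous fun φ => c * r * a φ := by fun_prop
  have c3 : Continuous fun φ => t * (ρ * a φ ^ 2) / 2 := by fun_prop
  have c4 : Continuous fun φ => r ^ 2 / (t * ρ) / 2 * (g φ - c) ^ 2 := by fun_prop
  have e1 : ∫ φ in (0 : ℝ)..π, g φ * (r * a φ) = ∫ φ in (0 : ℝ)..π, a φ * (r * (g φ - c)) := by
    have e : (fun φ => g φ * (r * a φ)) = fun φ => a φ * (r * (g φ - c)) + c * r * a φ := by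
      funext φ; ring
    rw [e, intervalIntegral.integral_add (c1.intervalIntegrable _ _) (c2.intervalIntegrable _ _),
      intervalIntegral.integral_const_mul, h0]
    ring
  have e2 : |∫ φ in (0 : ℝ)..π, a φ * (r * (g φ - c))| ≤ ∫ φ in (0 : ℝ)..π,
      (t * (ρ * a φ ^ 2) / 2 + r ^ 2 / (t * ρ) / 2 * (g φ - c) ^ 2) := by
    refine (intervalIntegral.abs_integral_le_integral_abs pi_pos.le).trans ?_
    refine intervalIntegral.integral_mono_on pi_pos.le (c1.abs.intervalIntegrable _ _)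
      ((c3.add c4).intervalIntegrable _ _) fun φ _ => ?_
    refine (sbform_am _ _ htρ).trans (le_of_eq ?_)
    ring
  rw [intervalIntegral.integral_add (c3.intervalIntegrable _ _) (c4.intervalIntegrable _ _),
    intervalIntegral.integral_const_mul, intervalIntegral.integral_div,
    intervalIntegral.integral_const_mul] at e2
  have e3 : r ^ 2 / (t * ρ) / 2 * ∫ φ in (0 : ℝ)..π, (g φ - c) ^ 2 ≤ k / t / 2 := by
    refine (mul_le_mul_of_nonneg_left hc (by positivity)).trans ?_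
    have e4 : r ^ 2 / (t * ρ) / 2 * (π * v) = π * r ^ 2 * v / (t * ρ) / 2 := by ring
    have e5 : k / t / 2 = k * ρ / (t * ρ) / 2 := by field_simp
    rw [e4, e5]
    exact div_le_div_of_nonneg_right (div_le_div_of_nonneg_right hle htρ.le) (by norm_num)
  rw [e1]
  linarith

theorem rn_bound {f U V : ℝ × ℝ → ℝ} {ν m n K Y : ℝ} {v κ : ℝ → ℝ} (hf : Wt f) (hU : Adm U)
    (hV : Adm V) (hm : 0 ≤ m) (hn : m ≤ n) (hρ : ∀ s, 0 < s → 0 < rho ν m s)
    (hv : ∀ s, 0 < s → Var f s (v s)) (hκ : IntegrableOn κ (Ioi 0))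
    (hle : ∀ s, 0 < s → π * r0 U s ^ 2 * v s ≤ κ s * rho ν m s) (hK0 : 0 ≤ K)
    (hK : ∫ s in Ioi (0 : ℝ), κ s ≤ K ^ 2) (hY0 : 0 ≤ Y) (hY : Db n (ang V) (ang V) ≤ Y ^ 2) :
    |Bw f (rad U) (ang V)| ≤ K * Y := by
  obtain ⟨_, e1⟩ := integral_Pi0 (int_Bw hf.int hU.rad hV.ang)
  obtain ⟨i2, e2⟩ := integral_Pi0 (int_rho hV ν m)
  have h1 := (hardy_wirt hV ν hm hn).trans hY
  rw [e2] at h1
  unfold Bw
  rw [e1]
  refine (sbform_gen (c := 1) i2 hκ zero_le_one hY0 hK0 h1 hK fun t ht => ?_).trans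
    (le_of_eq (by ring))
  filter_upwards [ae_restrict_mem measurableSet_Ioi] with s hs
  exact sbform_slice (g := fun φ => f (s, φ)) (a := fun φ => ang V (s, φ)) (r := r0 U s)
    (hf.slice hs) (hV.ang.cont.comp (by fun_prop)) (mean_ang hV s).1 (hρ s hs) ht (hv s hs)
    (hle s hs)

theorem nn_bound {f U V : ℝ × ℝ → ℝ} {ν m n n' θ X Y : ℝ} (hf : Wt f) (hU : Adm U) (hV : Adm V)
    (hm : 0 ≤ m) (hn : m ≤ n) (hn' : m ≤ n') (hρ : ∀ s, 0 < s → 0 < rho ν m s) (hθ : 0 ≤ θ)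
    (hs : ∀ p : ℝ × ℝ, 0 < p.1 → |f p| ≤ θ * rho ν m p.1) (hX0 : 0 ≤ X) (hY0 : 0 ≤ Y)
    (hX : Db n (ang U) (ang U) ≤ X ^ 2) (hY : Db n' (ang V) (ang V) ≤ Y ^ 2) :
    |Bw f (ang U) (ang V)| ≤ θ * (X * Y) := by
  unfold Bw
  refine sbform_gen (int_rho hU ν m) (int_rho hV ν m) hθ hX0 hY0
    ((hardy_wirt hU ν hm hn).trans hX) ((hardy_wirt hV ν hm hn').trans hY) fun t ht => ?_
  filter_upwards [ae_restrict_mem measurableSet_Pi0] with p hp
  exact sbform_pt ht (hs p hp.1)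

theorem crude_bound {f U V : ℝ × ℝ → ℝ} {X Y : ℝ} (hf : Wt f) (hU : Adm U) (hV : Adm V)
    (hs : ∀ p : ℝ × ℝ, 0 < p.1 → |f p| ≤ 1 / 4 / p.1 ^ 2) (hX0 : 0 ≤ X) (hY0 : 0 ≤ Y)
    (hX : E1 U U ≤ X ^ 2) (hY : E1 V V ≤ Y ^ 2) : |Bw f U V| ≤ X * Y := by
  unfold Bw
  obtain ⟨i1, b1⟩ := hardy_crude hU
  obtain ⟨i2, b2⟩ := hardy_crude hV
  refine (sbform_gen (c := 1 / 4) (X := 2 * X) (Y := 2 * Y) i1 i2 (by norm_num) (by linarith)
    (by linarith) (by nlinarith) (by nlinarith) fun t ht => ?_).trans (le_of_eq (by ring))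
  filter_upwards [ae_restrict_mem measurableSet_Pi0] with p hp
  refine (sbform_pt (w := 1 / p.1 ^ 2) (c := 1 / 4) ht ((hs p hp.1).trans (le_of_eq ?_))).trans
    (le_of_eq ?_)
  · ring
  · ring

end Pool.Agent.PSF
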