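import Pool.Agent.P.MP_7b7370_an.SBPsi
import Pool.Agent.P.MP_7b7370_an.SBArea

set_option autoImplicit false

namespace Pool.Agent.PSF

open Real Set MeasureTheory

theorem gain_term {m n t c0 c1 c2 l y : ℝ} {k : ℕ} (h : Par m n t)
    (hψ : LJ n t (psi k) (c0 / (1 + n * k)) (c1 * k / (1 + n * k) ^ 2)
      (c2 * k ^ 2 / (1 + n * k) ^ 3))
    (h0 : 0 ≤ c0) (h1 : 0 ≤ c1) (h2 : 0 ≤ c2) (hl0 : 0 ≤ l) (hl : l ≤ ell (2 / n) k) (hy0 : 0 ≤ y)
    (hy : y ≤ n * k / (1 + n * k)) :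
    Ak n k * ((2 * l ^ 2 + l) * c0 + 2 * l * y * c1 + y ^ 2 * c2) / n ^ 2 ≤
      J2 n t fun ν => bk (2 / ν) k ^ 2 * psi k ν := by
  have hb := bk_LJ h k
  have hm := (LJ.mul h.t0 (LJ.mul h.t0 hb hb) hψ).l2
  have hn : 0 < n := by linarith [h.m4, h.mn, h.t0]
  have hk : (0 : ℝ) ≤ k := Nat.cast_nonneg k
  have hL : 0 < 1 + n * k := by positivity
  have hf : (fun ν => bk (2 / ν) k ^ 2 * psi k ν) =
      fun ν => bk (2 / ν) k * bk (2 / ν) k * psi k ν := by
    funext ν; rw [sq]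
  rw [hf]
  refine le_trans ?_ hm
  set L := ell (2 / n) k
  set Y := n * k / (1 + n * k) with hY
  have hL0 : 0 ≤ L := hl0.trans hl
  have hA : 0 ≤ Ak n k := div_nonneg (sq_nonneg _) hL.le
  have h3 : (2 * l ^ 2 + l) * c0 + 2 * l * y * c1 + y ^ 2 * c2 ≤
      (2 * L ^ 2 + L) * c0 + 2 * L * Y * c1 + Y ^ 2 * c2 := by
    gcongr
  refine (div_le_div_of_nonneg_right (mul_le_mul_of_nonneg_left h3 hA) (sq_nonneg n)).trans
    (le_of_eq ?_)
  rw [hY, Ak]
  field_simp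
  ring

theorem Ak_tele {n : ℝ} (hn : 4 ≤ n) (k : ℕ) :
    bk (2 / n) k ^ 2 / (2 * (n - 2)) - bk (2 / n) (k + 1) ^ 2 / (2 * (n - 2)) ≤ Ak n k := by
  have hk : (0 : ℝ) ≤ k := Nat.cast_nonneg k
  have hn0 : 0 < n := by linarith
  have hn2 : 0 < n - 2 := by linarith
  have hL : 0 < 1 + n * k := by positivity
  have h1 : bk (2 / n) k ^ 2 / (2 * (n - 2)) - bk (2 / n) (k + 1) ^ 2 / (2 * (n - 2)) =
      bk (2 / n) k ^ 2 * ((n * (2 * k + 1) + 2) / (2 * n ^ 2 * (k + 1) ^ 2)) := by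
    rw [bk]
    field_simp
    ring
  rw [h1, Ak, div_eq_mul_one_div (bk (2 / n) k ^ 2)]
  refine mul_le_mul_of_nonneg_left ?_ (sq_nonneg _)
  rw [div_le_div_iff₀ (by positivity) hL]
  have h2 : 0 ≤ n * k * (n - 4) := by
    have : 0 ≤ n - 4 := by linarith
    positivity
  have h3 : 0 ≤ n * (n - 4) := mul_nonneg hn0.le (by linarith)
  have h4 : 0 ≤ n * k := by positivity
  nlinarith

theorem sbgain_Ak {n : ℝ} (hn : 4 ≤ n) (k : ℕ) :
    bk (2 / n) k ^ 2 * (4 / n / (1 + 4 * k)) ≤ Ak n k := by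
  have hk : (0 : ℝ) ≤ k := Nat.cast_nonneg k
  have hn0 : 0 < n := by linarith
  rw [Ak, div_eq_mul_one_div (bk (2 / n) k ^ 2)]
  refine mul_le_mul_of_nonneg_left ?_ (sq_nonneg _)
  rw [div_div, div_le_div_iff₀ (by positivity) (by positivity)]
  nlinarith

theorem sbgain_tan {x : ℝ} (hx : 0 ≤ x) (j : ℕ) :
    (77 / 100) ^ j * (1 + j * (100 / 77 * x - 1)) ≤ x ^ j := by
  have h1 := one_add_mul_le_pow (a := 100 / 77 * x - 1) (by linarith) j
  have h2 : x = 77 / 100 * (1 + (100 / 77 * x - 1)) := by ring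
  calc _ ≤ (77 / 100) ^ j * (1 + (100 / 77 * x - 1)) ^ j :=
        mul_le_mul_of_nonneg_left h1 (by positivity)
    _ = x ^ j := by rw [← mul_pow, ← h2]

theorem sbgain_poly {x : ℝ} (h0 : 0 ≤ x) (h1 : x ≤ 1) :
    68 / 125 * x ≤
      1 / 4 * (1 / 5) *
        (3 * (167 / 200) + 2 * (4 / 5) * (68 / 125) + (4 / 5) ^ 2 * (157 / 1000)) +
      ((x / 2 + 1) / 4) ^ 2 * (1 / 9) *
        ((2 * (1 + x / 3) ^ 2 + (1 + x / 3)) * (943 / 1000) +
        2 * (1 + x / 3) * (8 / 9) * (419 / 500) + (8 / 9) ^ 2 * (69 / 100)) +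
      ((x / 2 + 1) * (x / 2 + 2) / 12) ^ 2 * (1 / 13) *
        ((2 * (1 + 8 * x / 15) ^ 2 + (1 + 8 * x / 15)) * (97 / 100) +
        2 * (1 + 8 * x / 15) * (12 / 13) * (917 / 1000) + (12 / 13) ^ 2 * (21 / 25)) +
      ((x / 2 + 1) * (x / 2 + 2) * (x / 2 + 3) / 48) ^ 2 * (1 / 17) *
        ((2 * (1 + 71 * x / 105) ^ 2 + (1 + 71 * x / 105)) * (49 / 50) +
        2 * (1 + 71 * x / 105) * (16 / 17) * (19 / 20) + (16 / 17) ^ 2 * (9 / 10)) +
      ((x / 2 + 1) * (x / 2 + 2) * (x / 2 + 3) * (x / 2 + 4) / 240) ^ 2 * (x / 4) *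
        ((2 * (1 + 248 * x / 315) ^ 2 + (1 + 248 * x / 315)) * (247 / 250) +
        2 * (1 + 248 * x / 315) * (20 / 21) * (483 / 500) + (20 / 21) ^ 2 * (187 / 200)) := by
  have t2 := sbgain_tan h0 2
  have t3 := sbgain_tan h0 3
  have t4 := sbgain_tan h0 4
  have t5 := sbgain_tan h0 5
  have t6 := sbgain_tan h0 6
  have t7 := pow_nonneg h0 7
  have t8 := pow_nonneg h0 8
  have t9 := pow_nonneg h0 9
  have t10 := pow_nonneg h0 10
  have t11 := pow_nonneg h0 11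
  push_cast at t2 t3 t4 t5 t6
  linarith

theorem gain_num {n : ℝ} (hn : 4 ≤ n) :
    17 / 500 * (4 / n) ^ 6 ≤
      (Ak n 1 * (3 * (167 / 200) + 2 * (4 / 5) * (68 / 125) + (4 / 5) ^ 2 * (157 / 1000)) +
      Ak n 2 * ((2 * (1 + 4 / (3 * n)) ^ 2 + (1 + 4 / (3 * n))) * (943 / 1000) +
        2 * (1 + 4 / (3 * n)) * (8 / 9) * (419 / 500) + (8 / 9) ^ 2 * (69 / 100)) +
      Ak n 3 * ((2 * (1 + 32 / (15 * n)) ^ 2 + (1 + 32 / (15 * n))) * (97 / 100) +
        2 * (1 + 32 / (15 * n)) * (12 / 13) * (917 / 1000) + (12 / 13) ^ 2 * (21 / 25)) +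
      Ak n 4 * ((2 * (1 + 284 / (105 * n)) ^ 2 + (1 + 284 / (105 * n))) * (49 / 50) +
        2 * (1 + 284 / (105 * n)) * (16 / 17) * (19 / 20) + (16 / 17) ^ 2 * (9 / 10)) +
      bk (2 / n) 5 ^ 2 / (2 * (n - 2)) *
        ((2 * (1 + 992 / (315 * n)) ^ 2 + (1 + 992 / (315 * n))) * (247 / 250) +
        2 * (1 + 992 / (315 * n)) * (20 / 21) * (483 / 500) + (20 / 21) ^ 2 * (187 / 200))) /
        n ^ 2 := by
  have hn0 : 0 < n := by linarith
  have hn2 : 0 < n - 2 := by linarith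
  have a1 := sbgain_Ak hn 1
  have a2 := sbgain_Ak hn 2
  have a3 := sbgain_Ak hn 3
  have a4 := sbgain_Ak hn 4
  have a5 : bk (2 / n) 5 ^ 2 * ((4 / n) ^ 2 / 4) ≤ bk (2 / n) 5 ^ 2 / (2 * (n - 2)) := by
    rw [div_eq_mul_one_div (bk (2 / n) 5 ^ 2)]
    refine mul_le_mul_of_nonneg_left ?_ (sq_nonneg _)
    rw [div_pow, div_div, div_le_div_iff₀ (by positivity) (by positivity)]
    nlinarith [sq_nonneg (n - 4)]
  have hx0 : 0 < 4 / n := by positivity
  have hx1 : 4 / n ≤ 1 := (div_le_one hn0).2 hn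
  have e0 : 2 / n = 4 / n / 2 := by ring
  have e2 : 4 / (3 * n) = 4 / n / 3 := by field_simp
  have e3 : 32 / (15 * n) = 8 * (4 / n) / 15 := by field_simp; ring
  have e4 : 284 / (105 * n) = 71 * (4 / n) / 105 := by field_simp; ring
  have e5 : 992 / (315 * n) = 248 * (4 / n) / 315 := by field_simp; ring
  have e6 : ∀ z : ℝ, z / n ^ 2 = z * ((4 / n) ^ 2 / 16) := fun z => by field_simp; ring
  rw [e6, e2, e3, e4, e5]
  generalize bk (2 / n) 5 ^ 2 / (2 * (n - 2)) = A5 at a5 ⊢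
  generalize Ak n 1 = A1 at a1 ⊢
  generalize Ak n 2 = A2 at a2 ⊢
  generalize Ak n 3 = A3 at a3 ⊢
  generalize Ak n 4 = A4 at a4 ⊢
  rw [e0] at a1 a2 a3 a4 a5
  generalize 4 / n = x at *
  have b1 : x ^ 3 * (1 / 4 * (1 / 5)) ≤ A1 := by
    refine le_trans (le_of_eq ?_) a1
    simp only [bk]; push_cast; ring
  have b2 : x ^ 3 * (((x / 2 + 1) / 4) ^ 2 * (1 / 9)) ≤ A2 := by
    refine le_trans (le_of_eq ?_) a2
    simp only [bk]; push_cast; ring
  have b3 : x ^ 3 * (((x / 2 + 1) * (x / 2 + 2) / 12) ^ 2 * (1 / 13)) ≤ A3 := by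
    refine le_trans (le_of_eq ?_) a3
    simp only [bk]; push_cast; ring
  have b4 : x ^ 3 * (((x / 2 + 1) * (x / 2 + 2) * (x / 2 + 3) / 48) ^ 2 * (1 / 17)) ≤ A4 := by
    refine le_trans (le_of_eq ?_) a4
    simp only [bk]; push_cast; ring
  have b5 : x ^ 3 * (((x / 2 + 1) * (x / 2 + 2) * (x / 2 + 3) * (x / 2 + 4) / 240) ^ 2 * (x / 4)) ≤
      A5 := by
    refine le_trans (le_of_eq ?_) a5
    simp only [bk]; push_cast; ring
  have hp := mul_le_mul_of_nonneg_left (sbgain_poly hx0.le hx1) (pow_nonneg hx0.le 3)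
  have e7 : 17 / 500 * x ^ 6 = x ^ 3 * (68 / 125 * x) * (x ^ 2 / 16) := by ring
  rw [e7]
  refine mul_le_mul_of_nonneg_right (hp.trans ?_) (by positivity)
  simp only [mul_add (x ^ 3), ← mul_assoc (x ^ 3) _ (_ + _ + _)]
  gcongr

theorem sbgain_ell {n : ℝ} (hn : 4 ≤ n) (i : ℕ) :
    ell (2 / n) i + 4 / ((2 * i + 1) * n) ≤ ell (2 / n) (i + 1) := by
  have hi : (0 : ℝ) ≤ i := Nat.cast_nonneg i
  have hn0 : 0 < n := by linarith
  have e : 2 / n / (2 / n + i) = 2 / (2 + i * n) := by field_simp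
  unfold ell
  rw [Finset.sum_range_succ, e]
  refine add_le_add le_rfl ?_
  rw [div_le_div_iff₀ (by positivity) (by positivity)]
  nlinarith

theorem sbgain_y {n : ℝ} (hn : 4 ≤ n) {K k : ℕ} (h : K ≤ k) :
    4 * (K : ℝ) / (1 + 4 * K) ≤ n * k / (1 + n * k) := by
  have hK : (0 : ℝ) ≤ K := Nat.cast_nonneg K
  have hk : (K : ℝ) ≤ k := by exact_mod_cast h
  have h1 : 4 * (K : ℝ) ≤ n * k := by nlinarith
  rw [div_le_div_iff₀ (by positivity) (by linarith)]
  nlinarith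

theorem gain {n t : ℝ} (h : Par (n - t) n t) :
    17 / 500 * (4 / n) ^ 6 ≤ J2 n t ar - 6376 / 1000 * J2 n t Zh := by
  have hm : 4 ≤ n - t := h.m4
  have hn : 4 ≤ n := by linarith [h.t0]
  have hp : 4 ≤ n + t := by linarith [h.t0]
  have hn0 : 0 < n := by linarith
  have hτ : 0 < 2 / n := by positivity
  have hS := hasSum_J2 (n := n) (t := t) (F := fun k ν => bk (2 / ν) k ^ 2 * psi k ν)
    (S := fun ν => ar ν - 6376 / 1000 * Zh ν) (hasSum_psi hn) (hasSum_psi hp) (hasSum_psi hm)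
  have eS : J2 n t (fun ν => ar ν - 6376 / 1000 * Zh ν) =
      J2 n t ar - 6376 / 1000 * J2 n t Zh := by
    unfold J2; ring
  rw [eS] at hS
  have l1 : 1 ≤ ell (2 / n) 1 := by
    rw [ell, Finset.sum_range_one, Nat.cast_zero, add_zero, div_self hτ.ne']
  have l2 : 1 + 4 / (3 * n) ≤ ell (2 / n) 2 := by
    have := sbgain_ell hn 1
    norm_num at this
    linarith
  have l3 : 1 + 32 / (15 * n) ≤ ell (2 / n) 3 := by
    have := sbgain_ell hn 2
    norm_num at this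
    have e : 32 / (15 * n) = 4 / (3 * n) + 4 / (5 * n) := by field_simp; ring
    linarith
  have l4 : 1 + 284 / (105 * n) ≤ ell (2 / n) 4 := by
    have := sbgain_ell hn 3
    norm_num at this
    have e : 284 / (105 * n) = 32 / (15 * n) + 4 / (7 * n) := by field_simp; ring
    linarith
  have l5 : 1 + 992 / (315 * n) ≤ ell (2 / n) 5 := by
    have := sbgain_ell hn 4
    norm_num at this
    have e : 992 / (315 * n) = 284 / (105 * n) + 4 / (9 * n) := by field_simp; ring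
    linarith
  have g1 := gain_term (k := 1) (l := 1) (y := 4 / 5) h
    (psi_LJ (K := 1) (c0 := 167 / 200) (c1 := 68 / 125) (c2 := 157 / 1000) h le_rfl le_rfl
      (by norm_num) (by norm_num) (by norm_num) (by norm_num) (by norm_num) (by norm_num))
    (by norm_num) (by norm_num) (by norm_num) (by norm_num) l1 (by norm_num)
    (le_trans (by norm_num) (sbgain_y (K := 1) hn le_rfl))
  have g2 := gain_term (k := 2) (y := 8 / 9) h
    (psi_LJ (K := 2) (c0 := 943 / 1000) (c1 := 419 / 500) (c2 := 69 / 100) h (by norm_num) le_rfl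
      (by norm_num) (by norm_num) (by norm_num) (by norm_num) (by norm_num) (by norm_num))
    (by norm_num) (by norm_num) (by norm_num) (by positivity) l2 (by norm_num)
    (le_trans (by norm_num) (sbgain_y (K := 2) hn le_rfl))
  have g3 := gain_term (k := 3) (y := 12 / 13) h
    (psi_LJ (K := 3) (c0 := 97 / 100) (c1 := 917 / 1000) (c2 := 21 / 25) h (by norm_num) le_rfl
      (by norm_num) (by norm_num) (by norm_num) (by norm_num) (by norm_num) (by norm_num))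
    (by norm_num) (by norm_num) (by norm_num) (by positivity) l3 (by norm_num)
    (le_trans (by norm_num) (sbgain_y (K := 3) hn le_rfl))
  have g4 := gain_term (k := 4) (y := 16 / 17) h
    (psi_LJ (K := 4) (c0 := 49 / 50) (c1 := 19 / 20) (c2 := 9 / 10) h (by norm_num) le_rfl
      (by norm_num) (by norm_num) (by norm_num) (by norm_num) (by norm_num) (by norm_num))
    (by norm_num) (by norm_num) (by norm_num) (by positivity) l4 (by norm_num)
    (le_trans (by norm_num) (sbgain_y (K := 4) hn le_rfl))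
  have g5 : ∀ k, 5 ≤ k → _ := fun k hk => gain_term (k := k) (y := 20 / 21) h
    (psi_LJ (K := 5) (c0 := 247 / 250) (c1 := 483 / 500) (c2 := 187 / 200) h (by norm_num) hk
      (by norm_num) (by norm_num) (by norm_num) (by norm_num) (by norm_num) (by norm_num))
    (by norm_num) (by norm_num) (by norm_num) (by positivity) (l5.trans (ell_mono hτ hk))
    (by norm_num) (le_trans (by norm_num) (sbgain_y (K := 5) hn hk))
  have g0 : J2 n t (fun ν => bk (2 / ν) 0 ^ 2 * psi 0 ν) = 0 := by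
    simp only [J2, bk, psi, Nat.cast_zero, mul_zero]
    ring
  have hnum := gain_num hn
  set Λ := (2 * (1 + 992 / (315 * n)) ^ 2 + (1 + 992 / (315 * n))) * (247 / 250) +
    2 * (1 + 992 / (315 * n)) * (20 / 21) * (483 / 500) + (20 / 21) ^ 2 * (187 / 200) with hΛ
  have hΛ0 : 0 ≤ Λ := by positivity
  have hU : Filter.Tendsto (fun k => bk (2 / n) k ^ 2 / (2 * (n - 2)) * Λ / n ^ 2) Filter.atTop
      (nhds 0) := by
    have h2 : 2 / n ≤ 1 / 2 := by
      rw [div_le_div_iff₀ hn0 (by norm_num)]; linarith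
    have := (((bk_sq_tendsto hτ.le h2).div_const (2 * (n - 2))).mul_const Λ).div_const (n ^ 2)
    simpa using this
  have key := le_tele hS 5 hU fun k hk => by
    refine le_trans ?_ (g5 k hk)
    rw [← sub_div, ← sub_mul]
    exact div_le_div_of_nonneg_right (mul_le_mul_of_nonneg_right (Ak_tele hn k) hΛ0) (sq_nonneg n)
  simp only [Finset.sum_range_succ, Finset.range_zero, Finset.sum_empty] at key
  simp only [add_div] at hnum
  norm_num only at g1 hnum
  linarith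

end Pool.Agent.PSF
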