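import Pool.Agent.P.MP_7b7370_an.SBFub

set_option autoImplicit false

namespace Pool.Agent.PSF

open Real Set MeasureTheory

noncomputable def sbnum_trm (m s : ℝ) (x : ℚ × ℕ × ℕ × ℕ) : ℝ :=
  (x.1 : ℝ) * ((m * s) ^ x.2.1 * (exp (-(m * s / 4)) ^ x.2.2.1 * exp (-s) ^ x.2.2.2))

def sbnum_val (x : ℚ × ℕ × ℕ × ℕ) : ℚ :=
  x.1 * (4 ^ x.2.1 * x.2.1.factorial / (x.2.2.1 + x.2.2.2) ^ (x.2.1 + 1))

theorem sbnum_pow {X : ℝ} (hX : 1 ≤ X) {q D b e : ℕ} (hD : 0 < D)
    (h : q * b ≤ e * b + (e + 1) * D) :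
    X ^ q * ((D : ℝ) + b) ^ (q + 1) ≤ X ^ e * (D * X + b) ^ (q + 1) := by
  have hD' : (0 : ℝ) < D := by exact_mod_cast hD
  have hb : (0 : ℝ) ≤ b := Nat.cast_nonneg b
  have hS : (0 : ℝ) < D + b := by linarith
  have hX0 : 0 < X := by linarith
  set θ : ℝ := D / (D + b) with hθ
  have hθ0 : 0 ≤ θ := by positivity
  have hθ1 : θ ≤ 1 := by rw [hθ, div_le_one hS]; linarith
  have h1 : X ^ θ ≤ 1 + θ * (X - 1) := by
    have := rpow_one_add_le_one_add_mul_self (s := X - 1) (by linarith) hθ0 hθ1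
    simpa using this
  have h2 : (D + b) * X ^ θ ≤ D * X + b := by
    have e1 : ((D : ℝ) + b) * (1 + θ * (X - 1)) = D * X + b := by
      rw [hθ]; field_simp; ring
    rw [← e1]
    exact mul_le_mul_of_nonneg_left h1 hS.le
  have h3 : (q : ℝ) ≤ e + θ * (q + 1) := by
    have h' : (q : ℝ) * b ≤ e * b + (e + 1) * D := by exact_mod_cast h
    have e2 : (e : ℝ) + θ * (q + 1) = (e * (D + b) + D * (q + 1)) / (D + b) := by
      rw [hθ]; field_simp
    rw [e2, le_div_iff₀ hS]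
    nlinarith
  have h4 : X ^ q ≤ X ^ e * (X ^ θ) ^ (q + 1) := by
    rw [← rpow_natCast X q, ← rpow_natCast X e, ← rpow_natCast (X ^ θ) (q + 1),
      ← rpow_mul hX0.le, ← rpow_add hX0]
    refine rpow_le_rpow_of_exponent_le hX ?_
    push_cast
    exact h3
  calc X ^ q * ((D : ℝ) + b) ^ (q + 1)
      ≤ X ^ e * (X ^ θ) ^ (q + 1) * ((D : ℝ) + b) ^ (q + 1) :=
        mul_le_mul_of_nonneg_right h4 (by positivity)
    _ = X ^ e * ((D + b) * X ^ θ) ^ (q + 1) := by rw [mul_pow]; ring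
    _ ≤ X ^ e * (D * X + b) ^ (q + 1) :=
        mul_le_mul_of_nonneg_left (pow_le_pow_left₀ (by positivity) h2 _) (by positivity)

theorem sbnum_one {m : ℝ} (hm : 4 ≤ m) (e : ℕ) (x : ℚ × ℕ × ℕ × ℕ) (hc : 0 ≤ x.1)
    (hD : 0 < x.2.2.1) (h : x.2.1 * x.2.2.2 ≤ e * x.2.2.2 + (e + 1) * x.2.2.1) :
    IntegrableOn (fun s => sbnum_trm m s x) (Ioi 0) ∧
      ∫ s in Ioi (0 : ℝ), sbnum_trm m s x ≤ (m / 4) ^ e * (sbnum_val x : ℝ) := by
  obtain ⟨c, q, D, b⟩ := x
  simp only at hc hD h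
  have hD' : (0 : ℝ) < D := by exact_mod_cast hD
  have hb : (0 : ℝ) ≤ b := Nat.cast_nonneg b
  have hc' : (0 : ℝ) ≤ c := by exact_mod_cast hc
  have hm0 : 0 < m := by linarith
  have hA : (0 : ℝ) < D * (m / 4) + b := by positivity
  have e1 : (fun s => sbnum_trm m s (c, q, D, b)) =
      fun s => (c : ℝ) * m ^ q * (s ^ q * exp (-((D * (m / 4) + b) * s))) := by
    funext s
    simp only [sbnum_trm]
    rw [← exp_nat_mul, ← exp_nat_mul, ← exp_add, mul_pow]
    have : (D : ℝ) * -(m * s / 4) + b * -s = -((D * (m / 4) + b) * s) := by ring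
    rw [this]; ring
  obtain ⟨i1, i2⟩ := int_pow_exp q hA
  rw [e1]
  refine ⟨i1.const_mul _, ?_⟩
  rw [integral_const_mul, i2]
  have hp := sbnum_pow (X := m / 4) (by linarith) hD h
  have hS : (0 : ℝ) < D + b := by linarith
  have e2 : (sbnum_val (c, q, D, b) : ℝ) =
      c * (4 ^ q * q.factorial / ((D : ℝ) + b) ^ (q + 1)) := by
    simp only [sbnum_val]; push_cast; ring
  rw [e2]
  have e3 : m ^ q = 4 ^ q * (m / 4) ^ q := by rw [← mul_pow]; congr 1; ring
  have h5 : (m / 4) ^ q / (D * (m / 4) + b) ^ (q + 1) ≤ (m / 4) ^ e / ((D : ℝ) + b) ^ (q + 1) := by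
    rw [div_le_div_iff₀ (by positivity) (by positivity)]
    exact hp
  calc (c : ℝ) * m ^ q * (q.factorial / (D * (m / 4) + b) ^ (q + 1))
      = c * 4 ^ q * q.factorial * ((m / 4) ^ q / (D * (m / 4) + b) ^ (q + 1)) := by
        rw [e3]; ring
    _ ≤ c * 4 ^ q * q.factorial * ((m / 4) ^ e / ((D : ℝ) + b) ^ (q + 1)) :=
        mul_le_mul_of_nonneg_left h5 (by positivity)
    _ = _ := by ring

theorem sbnum_list {m : ℝ} (hm : 4 ≤ m) (e : ℕ) (L : List (ℚ × ℕ × ℕ × ℕ))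
    (h : ∀ x ∈ L, 0 ≤ x.1 ∧ 0 < x.2.2.1 ∧ x.2.1 * x.2.2.2 ≤ e * x.2.2.2 + (e + 1) * x.2.2.1) :
    IntegrableOn (fun s => (L.map (sbnum_trm m s)).sum) (Ioi 0) ∧
      ∫ s in Ioi (0 : ℝ), (L.map (sbnum_trm m s)).sum ≤
        (m / 4) ^ e * (((L.map sbnum_val).sum : ℚ) : ℝ) := by
  induction L with
  | nil => simp
  | cons x L ih =>
    obtain ⟨i1, i2⟩ := ih fun y hy => h y (List.mem_cons_of_mem _ hy)
    obtain ⟨h1, h2, h3⟩ := h x List.mem_cons_self
    obtain ⟨j1, j2⟩ := sbnum_one hm e x h1 h2 h3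
    simp only [List.map_cons, List.sum_cons]
    refine ⟨j1.add i1, ?_⟩
    rw [integral_add j1 i1]
    push_cast at i2 ⊢
    linarith

theorem sbnum_fin {m a R : ℝ} (hm : 4 ≤ m) (ha : 0 ≤ a) (e : ℕ) (L : List (ℚ × ℕ × ℕ × ℕ))
    (h : ∀ x ∈ L, 0 ≤ x.1 ∧ 0 < x.2.2.1 ∧ x.2.1 * x.2.2.2 ≤ e * x.2.2.2 + (e + 1) * x.2.2.1)
    {v : ℚ} (hv : (L.map sbnum_val).sum ≤ v) {f : ℝ → ℝ}
    (hf : ∀ s, 0 < s → f s = a * (L.map (sbnum_trm m s)).sum)
    (hR : a * ((m / 4) ^ e * (v : ℝ)) ≤ R) :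
    IntegrableOn f (Ioi 0) ∧ ∫ s in Ioi (0 : ℝ), f s ≤ R := by
  obtain ⟨i1, i2⟩ := sbnum_list hm e L h
  have hm0 : 0 < m := by linarith
  have he : EqOn (fun s => a * (L.map (sbnum_trm m s)).sum) f (Ioi 0) :=
    fun s hs => (hf s hs).symm
  have i3 : IntegrableOn (fun s => a * (L.map (sbnum_trm m s)).sum) (Ioi 0) := i1.const_mul a
  refine ⟨i3.congr_fun he measurableSet_Ioi, ?_⟩
  rw [← setIntegral_congr_fun measurableSet_Ioi he, integral_const_mul]
  refine le_trans (mul_le_mul_of_nonneg_left (i2.trans ?_) ha) hR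
  have hv' : (((L.map sbnum_val).sum : ℚ) : ℝ) ≤ v := by exact_mod_cast hv
  exact mul_le_mul_of_nonneg_left hv' (by positivity)

theorem sbnum_exp (u s : ℝ) :
    exp (-(2 * u)) = exp (-(u / 4)) ^ 8 ∧ exp (-(3 * u)) = exp (-(u / 4)) ^ 12 ∧
    exp (-(9 / 4 * u)) = exp (-(u / 4)) ^ 9 ∧ exp (-(3 / 2 * u)) = exp (-(u / 4)) ^ 6 ∧
    exp (-(u / 2)) = exp (-(u / 4)) ^ 2 ∧ exp (-u) = exp (-(u / 4)) ^ 4 ∧
    exp (-(4 * s)) = exp (-s) ^ 4 ∧ exp (-(2 * s)) = exp (-s) ^ 2 := by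
  refine ⟨?_, ?_, ?_, ?_, ?_, ?_, ?_, ?_⟩ <;>
    (rw [← exp_nat_mul]; congr 1; push_cast; ring)

theorem sbnum_scale {m c v : ℝ} (hm : 4 ≤ m) (hv : 0 ≤ v) (j k : ℕ) (h : v ≤ c) :
    v * (4 / m) ^ (j + k) ≤ c * (4 / m) ^ j := by
  have hm0 : 0 < m := by linarith
  have h0 : 0 ≤ 4 / m := by positivity
  have h1 : 4 / m ≤ 1 := by rw [div_le_one hm0]; exact hm
  exact mul_le_mul h (pow_le_pow_of_le_one h0 h1 (Nat.le_add_right j k)) (by positivity)
    (hv.trans h)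

theorem num_k0 {m : ℝ} (hm : 4 ≤ m) :
    IntegrableOn (fun s => hq m s * v0 m s) (Ioi 0) ∧
    ∫ s in Ioi (0 : ℝ), hq m s * v0 m s ≤
      (49 / 5000 * (4 / m) ^ 2) ^ 2 := by
  have hm0 : 0 < m := by linarith
  refine sbnum_fin (a := 100 / 49 / m ^ 6) hm (by positivity) 2
    [(369 / 12800, 0, 16, 4), (261 / 1280, 0, 16, 5), (41 / 400, 1, 12, 4), (29 / 40, 1, 12, 5), (104427 / 640000, 1, 14, 4), (73863 / 64000, 1, 14, 5), (11603 / 20000, 2, 10, 4), (8207 / 2000, 2, 10, 5), (369 / 1600, 2, 12, 4), (261 / 160, 2, 12, 5), (41 / 50, 3, 8, 4), (29 / 5, 3, 8, 5)]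
    (by decide +kernel) (v := 37771 / 200000) (by decide +kernel) (fun s hs => ?_) ?_
  · obtain ⟨e1, e2, e3, e4, e5, e6, e7, e8⟩ := sbnum_exp (m * s) s
    simp only [hq, v0, s0, en1, sbnum_trm, List.map_cons, List.map_nil, List.sum_cons, List.sum_nil]
    simp only [e1, e2, e3, e4, e5, e6, e7, e8]
    generalize exp (-(m * s / 4)) = E
    generalize exp (-s) = F
    push_cast
    field_simp
    ring
  · have h := sbnum_scale (c := 2401 / 25000000)
      (v := 37771 / 401408000) hm (by norm_num) 4 0 (by norm_num)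
    refine le_trans (le_of_eq ?_) (h.trans (le_of_eq ?_))
    · push_cast
      field_simp
      ring
    · ring

theorem num_k1 {m : ℝ} (hm : 4 ≤ m) :
    IntegrableOn (fun s => hq m s * v1 m s) (Ioi 0) ∧
    ∫ s in Ioi (0 : ℝ), hq m s * v1 m s ≤
      (71 / 10000 * (4 / m) ^ 3) ^ 2 := by
  have hm0 : 0 < m := by linarith
  refine sbnum_fin (a := 100 / 49 / m ^ 8) hm (by positivity) 2
    [(82 / 125, 0, 13, 4), (116 / 25, 0, 13, 5), (11603 / 6250, 1, 11, 4), (8207 / 625, 1, 11, 5), (41 / 100, 1, 12, 4), (29 / 10, 1, 12, 5), (164 / 125, 2, 9, 4), (232 / 25, 2, 9, 5), (11603 / 10000, 2, 10, 4), (8207 / 1000, 2, 10, 5), (41 / 50, 2, 12, 4), (29 / 5, 2, 12, 5), (41 / 50, 3, 8, 4), (29 / 5, 3, 8, 5), (11603 / 5000, 3, 10, 4), (8207 / 500, 3, 10, 5), (41 / 100, 3, 12, 4), (29 / 10, 3, 12, 5), (41 / 25, 4, 8, 4), (58 / 5, 4, 8, 5), (11603 / 10000, 4, 10, 4), (8207 / 1000, 4, 10, 5), (41 / 50, 5, 8, 4), (29 / 5, 5, 8,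 5)]
    (by decide +kernel) (v := 79703 / 50000) (by decide +kernel) (fun s hs => ?_) ?_
  · obtain ⟨e1, e2, e3, e4, e5, e6, e7, e8⟩ := sbnum_exp (m * s) s
    simp only [hq, v1, s1, en2, sbnum_trm, List.map_cons, List.map_nil, List.sum_cons, List.sum_nil]
    simp only [e1, e2, e3, e4, e5, e6, e7, e8]
    generalize exp (-(m * s / 4)) = E
    generalize exp (-s) = F
    push_cast
    field_simp
    ring
  · have h := sbnum_scale (c := 5041 / 100000000)
      (v := 79703 / 1605632000) hm (by norm_num) 6 0 (by norm_num)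
    refine le_trans (le_of_eq ?_) (h.trans (le_of_eq ?_))
    · push_cast
      field_simp
      ring
    · ring

theorem num_k2 {m : ℝ} (hm : 4 ≤ m) :
    IntegrableOn (fun s => 331 / 100 * s ^ 3 / (49 / 25 * m) * v2 m s) (Ioi 0) ∧
    ∫ s in Ioi (0 : ℝ), 331 / 100 * s ^ 3 / (49 / 25 * m) * v2 m s ≤
      (3 / 625 * (4 / m) ^ 4) ^ 2 := by
  have hm0 : 0 < m := by linarith
  refine sbnum_fin (a := 100 / 49 / m ^ 10) hm (by positivity) 2
    [(118167 / 5000, 0, 10, 4), (6951 / 250, 0, 11, 4), (33441261 / 500000, 1, 8, 4), (6951 / 400, 1, 10, 4), (2317 / 500, 1, 12, 4), (118167 / 2500, 2, 6, 4), (2393461 / 50000, 2, 10, 4), (2317 / 250, 2, 12, 4), (2317 / 250, 3, 8, 4), (2180297 / 50000, 3, 10, 4), (2317 / 250, 3, 12, 4), (2317 / 125, 4, 8, 4), (655711 / 25000, 4, 10, 4), (2317 / 500, 4, 12, 4), (2317 / 125, 5, 8, 4), (655711 / 50000, 5, 10, 4), (2317 / 2000, 5, 12, 4), (2317 / 250, 6, 8, 4), (655711 / 200000, 6,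 10, 4), (2317 / 1000, 7, 8, 4)]
    (by decide +kernel) (v := 117009 / 10000) (by decide +kernel) (fun s hs => ?_) ?_
  · obtain ⟨e1, e2, e3, e4, e5, e6, e7, e8⟩ := sbnum_exp (m * s) s
    simp only [v2, s1, s2, en2, sbnum_trm, List.map_cons, List.map_nil, List.sum_cons, List.sum_nil]
    simp only [e1, e2, e3, e4, e5, e6, e7, e8]
    generalize exp (-(m * s / 4)) = E
    generalize exp (-s) = F
    push_cast
    field_simp
    ring
  · have h := sbnum_scale (c := 9 / 390625)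
      (v := 117009 / 5138022400) hm (by norm_num) 8 0 (by norm_num)
    refine le_trans (le_of_eq ?_) (h.trans (le_of_eq ?_))
    · push_cast
      field_simp
      ring
    · ring

theorem num_k0y {m : ℝ} (hm : 4 ≤ m) :
    IntegrableOn (fun s => s ^ 2 / (2 * m) * v0y m s) (Ioi 0) ∧
    ∫ s in Ioi (0 : ℝ), s ^ 2 / (2 * m) * v0y m s ≤
      (12 / 625) ^ 2 := by
  have hm0 : 0 < m := by linarith
  refine sbnum_fin (a := 2 / 1 / m ^ 5) hm (by positivity) 2
    [(4347 / 6400, 0, 12, 4), (483 / 200, 1, 8, 4), (6147 / 6400, 1, 12, 4), (683 / 200, 2, 8, 4)]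
    (by decide +kernel) (v := 187783 / 1000000) (by decide +kernel) (fun s hs => ?_) ?_
  · obtain ⟨e1, e2, e3, e4, e5, e6, e7, e8⟩ := sbnum_exp (m * s) s
    simp only [v0y, s0, sbnum_trm, List.map_cons, List.map_nil, List.sum_cons, List.sum_nil]
    simp only [e1, e2, e3, e4, e5, e6, e7, e8]
    generalize exp (-(m * s / 4)) = E
    generalize exp (-s) = F
    push_cast
    field_simp
    ring
  · have h := sbnum_scale (c := 144 / 390625)
      (v := 187783 / 512000000) hm (by norm_num) 0 3 (by norm_num)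
    refine le_trans (le_of_eq ?_) (h.trans (le_of_eq ?_))
    · push_cast
      field_simp
      ring
    · ring

theorem num_k1y {m : ℝ} (hm : 4 ≤ m) :
    IntegrableOn (fun s => s ^ 2 / (2 * m) * v1y m s) (Ioi 0) ∧
    ∫ s in Ioi (0 : ℝ), s ^ 2 / (2 * m) * v1y m s ≤
      (39 / 2500 * (4 / m)) ^ 2 := by
  have hm0 : 0 < m := by linarith
  refine sbnum_fin (a := 2 / 1 / m ^ 7) hm (by positivity) 2
    [(1366 / 125, 0, 9, 4), (683 / 100, 1, 8, 4), (966 / 125, 1, 9, 4), (1849 / 100, 2, 8, 4), (1649 / 100, 3, 8, 4), (483 / 100, 4, 8, 4)]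
    (by decide +kernel) (v := 198029 / 100000) (by decide +kernel) (fun s hs => ?_) ?_
  · obtain ⟨e1, e2, e3, e4, e5, e6, e7, e8⟩ := sbnum_exp (m * s) s
    simp only [v1y, s1, sbnum_trm, List.map_cons, List.map_nil, List.sum_cons, List.sum_nil]
    simp only [e1, e2, e3, e4, e5, e6, e7, e8]
    generalize exp (-(m * s / 4)) = E
    generalize exp (-s) = F
    push_cast
    field_simp
    ring
  · have h := sbnum_scale (c := 1521 / 6250000)
      (v := 198029 / 819200000) hm (by norm_num) 2 3 (by norm_num)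
    refine le_trans (le_of_eq ?_) (h.trans (le_of_eq ?_))
    · push_cast
      field_simp
      ring
    · ring

theorem num_b0 {m : ℝ} (hm : 4 ≤ m) :
    IntegrableOn (fun s => s * exp (-(2 * s)) * ((2 / m) ^ 2 * s0 (m * s))) (Ioi 0) ∧
    ∫ s in Ioi (0 : ℝ), s * exp (-(2 * s)) * ((2 / m) ^ 2 * s0 (m * s)) ≤
      19 / 5000 := by
  have hm0 : 0 < m := by linarith
  refine sbnum_fin (a := 4 / 1 / m ^ 3) hm (by positivity) 2
    [(9 / 32, 0, 12, 2), (1 / 1, 1, 8, 2)]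
    (by decide +kernel) (v := 600893 / 10000000) (by decide +kernel) (fun s hs => ?_) ?_
  · obtain ⟨e1, e2, e3, e4, e5, e6, e7, e8⟩ := sbnum_exp (m * s) s
    simp only [s0, sbnum_trm, List.map_cons, List.map_nil, List.sum_cons, List.sum_nil]
    simp only [e1, e2, e3, e4, e5, e6, e7, e8]
    generalize exp (-(m * s / 4)) = E
    generalize exp (-s) = F
    push_cast
    field_simp
    ring
  · have h := sbnum_scale (c := 19 / 5000)
      (v := 600893 / 160000000) hm (by norm_num) 0 1 (by norm_num)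
    refine le_trans (le_of_eq ?_) (h.trans (le_of_eq ?_))
    · push_cast
      field_simp
      ring
    · ring

theorem num_b1y {m : ℝ} (hm : 4 ≤ m) :
    IntegrableOn (fun s => s * exp (-(2 * s)) * (2 / m * (2 / m ^ 2) * o1 (m * s))) (Ioi 0) ∧
    ∫ s in Ioi (0 : ℝ), s * exp (-(2 * s)) * (2 / m * (2 / m ^ 2) * o1 (m * s)) ≤
      1 / 250 * (4 / m) ^ 3 := by
  have hm0 : 0 < m := by linarith
  refine sbnum_fin (a := 4 / 1 / m ^ 4) hm (by positivity) 1
    [(61 / 50, 0, 9, 2), (2 / 1, 1, 8, 2), (2 / 1, 2, 8, 2)]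
    (by decide +kernel) (v := 25491 / 100000) (by decide +kernel) (fun s hs => ?_) ?_
  · obtain ⟨e1, e2, e3, e4, e5, e6, e7, e8⟩ := sbnum_exp (m * s) s
    simp only [o1, sbnum_trm, List.map_cons, List.map_nil, List.sum_cons, List.sum_nil]
    simp only [e1, e2, e3, e4, e5, e6, e7, e8]
    generalize exp (-(m * s / 4)) = E
    generalize exp (-s) = F
    push_cast
    field_simp
    ring
  · have h := sbnum_scale (c := 1 / 250)
      (v := 25491 / 6400000) hm (by norm_num) 3 0 (by norm_num)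
    refine le_trans (le_of_eq ?_) (h.trans (le_of_eq ?_))
    · push_cast
      field_simp
      ring
    · ring

theorem num_b1 {m : ℝ} (hm : 4 ≤ m) :
    IntegrableOn (fun s => hh m s * exp (-(2 * s)) * (2 / m * (2 / m ^ 2) * o1 (m * s))) (Ioi 0) ∧
    ∫ s in Ioi (0 : ℝ), hh m s * exp (-(2 * s)) * (2 / m * (2 / m ^ 2) * o1 (m * s)) ≤
      91 / 50000 * (4 / m) ^ 4 := by
  have hm0 : 0 < m := by linarith
  refine sbnum_fin (a := 4 / 1 / m ^ 5) hm (by positivity) 1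
    [(61 / 500000, 0, 9, 2), (1 / 5000, 1, 8, 2), (61 / 125, 1, 9, 2), (1769 / 500, 1, 9, 3), (4001 / 5000, 2, 8, 2), (29 / 5, 2, 8, 3), (4 / 5, 3, 8, 2), (29 / 5, 3, 8, 3)]
    (by decide +kernel) (v := 462321 / 1000000) (by decide +kernel) (fun s hs => ?_) ?_
  · obtain ⟨e1, e2, e3, e4, e5, e6, e7, e8⟩ := sbnum_exp (m * s) s
    simp only [hh, o1, sbnum_trm, List.map_cons, List.map_nil, List.sum_cons, List.sum_nil]
    simp only [e1, e2, e3, e4, e5, e6, e7, e8]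
    generalize exp (-(m * s / 4)) = E
    generalize exp (-s) = F
    push_cast
    field_simp
    ring
  · have h := sbnum_scale (c := 91 / 50000)
      (v := 462321 / 256000000) hm (by norm_num) 4 0 (by norm_num)
    refine le_trans (le_of_eq ?_) (h.trans (le_of_eq ?_))
    · push_cast
      field_simp
      ring
    · ring

theorem hh_le {m s : ℝ} (hm : 4 ≤ m) (hs : 0 < s) : hh m s ≤ hq m s * rho (49 / 50) m s := by
  have hm0 : 0 < m := by linarith
  have he := exp_pos (-s)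
  have e1 : hq m s * rho (49 / 50) m s = (29 / 10 * exp (-s) + 41 / 100) * s ^ 2 +
      (29 / 10 * exp (-s) + 41 / 100) * (s / (100 * m)) := by
    simp only [hq, rho]; field_simp; ring
  have e2 : s / (10000 * m) = 1 / 100 * (s / (100 * m)) := by field_simp; ring
  have h3 : 0 < s / (100 * m) := by positivity
  rw [e1, hh, e2]
  nlinarith [mul_pos he h3, sq_nonneg s]

end Pool.Agent.PSF
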