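import Pool.Agent.P.MP_7b7370_an.SBRad

set_option autoImplicit false

namespace Pool.Agent.PSF

open Real Set MeasureTheory

theorem sborth_r0 {g : ℝ × ℝ → ℝ} {χ : ℝ → ℝ} (h : ∀ p, g p = χ p.1) (s : ℝ) :
    r0 g s = χ s := by
  simp only [r0, h, intervalIntegral.integral_const, sub_zero, smul_eq_mul]
  field_simp

theorem E1_radial {V Z : ℝ × ℝ → ℝ} (hV : Adm V) (hZ : Adm Z) {χ : ℝ → ℝ}
    (h : ∀ p, dx Z p = χ p.1) :
    IntegrableOn (fun s => r0 (dx V) s * χ s) (Ioi 0) ∧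
      E1 V Z = π * ∫ s in Ioi (0 : ℝ), r0 (dx V) s * χ s := by
  obtain ⟨h1, h2⟩ := integral_Pi0 (int_E1 hV hZ)
  have e : mean (fun p => dx V p * dx Z p) = fun s => π * (r0 (dx V) s * χ s) := by
    funext s
    simp only [mean, h, r0]
    rw [intervalIntegral.integral_mul_const]
    field_simp
  rw [e] at h1 h2
  refine ⟨?_, ?_⟩
  · have h3 := h1.const_mul π⁻¹
    refine h3.congr (Filter.Eventually.of_forall fun s => ?_)
    field_simp
  · rw [E1, h2, integral_const_mul]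

theorem E1_rad {V : ℝ × ℝ → ℝ} (hV : Adm V) :
    IntegrableOn (fun s => r0 (dx V) s ^ 2) (Ioi 0) ∧
      E1 (rad V) (rad V) = π * ∫ s in Ioi (0 : ℝ), r0 (dx V) s ^ 2 := by
  obtain ⟨h1, h2⟩ := E1_radial hV.rad hV.rad (χ := r0 (dx V)) (dx_rad hV)
  have e : (fun s => r0 (dx (rad V)) s * r0 (dx V) s) = fun s => r0 (dx V) s ^ 2 := by
    funext s
    rw [sborth_r0 (dx_rad hV), sq]
  rw [e] at h1 h2
  exact ⟨h1, h2⟩

theorem sborth_E1 {U V : ℝ × ℝ → ℝ} (hU : Adm U) (hV : Adm V) : E1 (rad U) (ang V) = 0 := by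
  rw [E1_comm, (E1_radial hV.ang hU.rad (dx_rad hU)).2]
  have e : ∀ s, r0 (dx (ang V)) s = 0 := fun s => by
    have := (mean_ang hV s).2
    simp only [mean] at this
    simp only [r0, this, zero_div]
  simp [e]

theorem sborth_E2 {U : ℝ × ℝ → ℝ} (hU : Adm U) (Y : ℝ × ℝ → ℝ) : E2 (rad U) Y = 0 := by
  simp [E2, dy_rad hU]

theorem Db_ang {U V : ℝ × ℝ → ℝ} (hU : Adm U) (hV : Adm V) (n : ℝ) :
    Db n U (ang V) = Db n (ang U) (ang V) := by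
  have h1 := E1_lc hU.rad hU.ang hV.ang 1 1
  have h2 := E2_lc hU.rad hU.ang hV.ang 1 1
  rw [lc_rad_ang] at h1 h2
  rw [sborth_E1 hU hV] at h1
  rw [sborth_E2 hU] at h2
  simp only [Db]
  rw [h1, h2]
  ring

theorem E2_ang {U V : ℝ × ℝ → ℝ} (hU : Adm U) (hV : Adm V) : E2 U V = E2 (ang U) (ang V) := by
  have h1 := E2_lc hU.rad hU.ang hV 1 1
  have h2 := E2_lc hV.rad hV.ang hU.ang 1 1
  rw [lc_rad_ang] at h1 h2
  rw [sborth_E2 hU] at h1
  rw [sborth_E2 hV] at h2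
  rw [h1, E2_comm (ang U) V, h2, E2_comm (ang V) (ang U)]
  ring

theorem Db_split {V : ℝ × ℝ → ℝ} (hV : Adm V) (n : ℝ) :
    Db n V V = E1 (rad V) (rad V) + Db n (ang V) (ang V) := by
  have h1 := E1_sq hV.rad hV.ang 1 1
  rw [lc_rad_ang, sborth_E1 hV hV] at h1
  simp only [Db]
  rw [h1, E2_ang hV hV]
  ring

theorem Bw_split {f U V : ℝ × ℝ → ℝ} (hf : IntegrableOn f Pi0) (hU : Adm U) (hV : Adm V) :
    Bw f U V = Bw f (rad U) (rad V) + Bw f (rad U) (ang V) + Bw f (rad V) (ang U) +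
      Bw f (ang U) (ang V) := by
  have h1 := Bw_lc hf hU.rad hU.ang hV 1 1
  have h2 := Bw_lc hf hV.rad hV.ang hU.rad 1 1
  have h3 := Bw_lc hf hV.rad hV.ang hU.ang 1 1
  rw [lc_rad_ang] at h1 h2 h3
  rw [h1, Bw_comm f (rad U) V, Bw_comm f (ang U) V, h2, h3, Bw_comm f (rad V) (rad U),
    Bw_comm f (ang V) (rad U), Bw_comm f (ang V) (ang U)]
  ring

theorem Bw_rad {f U V : ℝ × ℝ → ℝ} (hf : IntegrableOn f Pi0) (hU : Adm U) (hV : Adm V) :
    IntegrableOn (fun s => mean f s * (r0 U s * r0 V s)) (Ioi 0) ∧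
      Bw f (rad U) (rad V) = ∫ s in Ioi (0 : ℝ), mean f s * (r0 U s * r0 V s) := by
  obtain ⟨M, hM⟩ := r0_bdd hU
  obtain ⟨N, hN⟩ := r0_bdd hV
  have hb : ∀ s, 0 < s → |r0 U s * r0 V s| ≤ M * N := fun s _ => by
    rw [abs_mul]
    exact mul_le_mul (hM s) (hN s) (abs_nonneg _) ((abs_nonneg _).trans (hM s))
  obtain ⟨-, h2, h3⟩ := integral_radial hf (F := fun s => r0 U s * r0 V s)
    (hU.cont_r0.1.mul hV.cont_r0.1) hb
  exact ⟨h2, h3⟩

theorem rr_cs {f U V : ℝ × ℝ → ℝ} {X Y : ℝ} (hf : IntegrableOn f Pi0) (hU : Adm U) (hV : Adm V)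
    (hm : ∀ s, 0 < s → 0 ≤ mean f s) (hX : 0 ≤ X) (hY : 0 ≤ Y)
    (h1 : Bw f (rad U) (rad U) ≤ X ^ 2) (h2 : Bw f (rad V) (rad V) ≤ Y ^ 2) :
    |Bw f (rad U) (rad V)| ≤ X * Y := by
  refine cs_of_quad (fun t => ?_)
    hX hY h1 h2
  have e := Bw_sq hf hU.rad hV.rad 1 t
  have e2 : lc 1 (rad U) t (rad V) = rad (lc 1 U t V) := by
    funext p
    simp only [rad]
    rw [r0_lc hU.cont hV.cont]
    rfl
  have hW := hU.lc hV 1 t
  have h3 : 0 ≤ Bw f (rad (lc 1 U t V)) (rad (lc 1 U t V)) := by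
    rw [(Bw_rad hf hW hW).2]
    exact setIntegral_nonneg measurableSet_Ioi fun s hs =>
      mul_nonneg (hm s hs) (mul_self_nonneg _)
  rw [e2] at e
  rw [e] at h3
  nlinarith

theorem adm_prim {χ : ℝ → ℝ} {η S : ℝ} (hχ : Continuous χ) (hη : 0 < η)
    (h0 : ∀ s, s ≤ η → χ s = 0) (h1 : ∀ s, S ≤ s → χ s = 0) :
    Adm (prim χ) ∧ (∀ p, dx (prim χ) p = χ p.1) ∧ ∀ p, dy (prim χ) p = 0 := by
  have hd : ∀ s, HasDerivAt (fun x => ∫ σ in (0 : ℝ)..x, χ σ) (χ s) s := fun s =>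
    (hχ.integral_hasStrictDerivAt 0 s).hasDerivAt
  have hc : ContDiff ℝ 1 fun x => ∫ σ in (0 : ℝ)..x, χ σ := by
    rw [contDiff_one_iff_deriv]
    refine ⟨fun s => (hd s).differentiableAt, ?_⟩
    have : deriv (fun x => ∫ σ in (0 : ℝ)..x, χ σ) = χ := funext fun s => (hd s).deriv
    rw [this]
    exact hχ
  have hf : ∀ p : ℝ × ℝ, HasFDerivAt (prim χ)
      ((ContinuousLinearMap.toSpanSingleton ℝ (χ p.1)).comp (ContinuousLinearMap.fst ℝ ℝ ℝ)) p :=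
    fun p => (hd p.1).hasFDerivAt.comp p hasFDerivAt_fst
  refine ⟨⟨hc.comp contDiff_fst, ⟨η, hη, fun p hp => ?_⟩,
    ⟨S, ∫ σ in (0 : ℝ)..S, χ σ, fun p hp => ?_⟩⟩, fun p => ?_, fun p => ?_⟩
  · simp only [prim]
    rw [intervalIntegral.integral_congr (g := fun _ => (0 : ℝ)), intervalIntegral.integral_zero]
    intro σ hσ
    refine h0 σ ?_
    rcases le_total 0 p.1 with h | h
    · rw [uIcc_of_le h] at hσ
      exact hσ.2.trans hp
    · rw [uIcc_of_ge h] at hσ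
      exact hσ.2.trans hη.le
  · simp only [prim]
    rw [← intervalIntegral.integral_add_adjacent_intervals (b := S)
      (hχ.intervalIntegrable _ _) (hχ.intervalIntegrable _ _),
      intervalIntegral.integral_congr (a := S) (g := fun _ => (0 : ℝ)),
      intervalIntegral.integral_zero, add_zero]
    intro σ hσ
    rw [uIcc_of_le hp] at hσ
    exact h1 σ hσ.1
  · simp [dx, (hf p).fderiv]
  · simp [dy, (hf p).fderiv]

theorem Db_prim {χ : ℝ → ℝ} {η S : ℝ} (hχ : Continuous χ) (hη : 0 < η)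
    (h0 : ∀ s, s ≤ η → χ s = 0) (h1 : ∀ s, S ≤ s → χ s = 0) (n : ℝ) :
    IntegrableOn (fun s => χ s ^ 2) (Ioi 0) ∧
      Db n (prim χ) (prim χ) = π * ∫ s in Ioi (0 : ℝ), χ s ^ 2 := by
  obtain ⟨hA, hx, hy⟩ := adm_prim hχ hη h0 h1
  obtain ⟨h2, h3⟩ := E1_radial hA hA hx
  have e : (fun s => r0 (dx (prim χ)) s * χ s) = fun s => χ s ^ 2 := by
    funext s
    rw [sborth_r0 hx, sq]
  rw [e] at h2 h3
  refine ⟨h2, ?_⟩
  have h4 : E2 (prim χ) (prim χ) = 0 := by simp [E2, hy]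
  rw [Db, h3, h4, mul_zero, add_zero]

end Pool.Agent.PSF
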