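import Pool.Agent.P.MP_7b7370_an.SBDefs

set_option autoImplicit false

namespace Pool.Agent.PSF

open Real Set MeasureTheory

theorem geo_le {a : ℝ} (ha : 0 < a) (j : ℕ) :
    Summable (fun k : ℕ => exp (-((k + j) * a))) ∧
      ∑' k : ℕ, exp (-((k + j) * a)) ≤ exp (-((j - 1 / 2) * a)) / a := by
  have hq : exp (-a) < 1 := exp_lt_one_iff.2 (by linarith)
  have hq0 := (exp_pos (-a)).le
  have e : (fun k : ℕ => exp (-((k + j) * a))) = fun k : ℕ => exp (-(j * a)) * exp (-a) ^ k := by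
    funext k
    rw [← exp_nat_mul, ← exp_add]
    exact congrArg exp (by ring)
  rw [e]
  refine ⟨(summable_geometric_of_lt_one hq0 hq).mul_left _, ?_⟩
  rw [tsum_mul_left, tsum_geometric_of_lt_one hq0 hq, ← div_eq_mul_inv,
    div_le_div_iff₀ (by linarith) ha]
  have h1 : a / 2 ≤ sinh (a / 2) := self_le_sinh_iff.2 (by linarith)
  rw [sinh_eq] at h1
  have h2 : exp (-((j - 1 / 2) * a)) = exp (-(j * a)) * exp (a / 2) := by
    rw [← exp_add]
    exact congrArg exp (by ring)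
  have h3 : exp (a / 2) * exp (-a) = exp (-(a / 2)) := by
    rw [← exp_add]
    exact congrArg exp (by ring)
  rw [h2, mul_assoc]
  refine mul_le_mul_of_nonneg_left ?_ (exp_pos _).le
  rw [mul_sub, h3]
  linarith

theorem sbsum_gen {a C : ℝ} {f : ℕ → ℝ} (ha : 0 < a) (hC : 0 ≤ C) (hp : ∀ k, 0 ≤ f k) (j : ℕ)
    (h : ∀ k : ℕ, j ≤ k → f k ≤ C * exp (-(k * a))) :
    Summable f ∧ ∑' k, f k ≤ ∑ k ∈ Finset.range j, f k + C * (exp (-((j - 1 / 2) * a)) / a) := by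
  obtain ⟨g1, g2⟩ := geo_le ha j
  have h1 : ∀ k : ℕ, f (k + j) ≤ C * exp (-((k + j) * a)) := fun k => by
    have := h (k + j) (by omega)
    rwa [Nat.cast_add] at this
  have h2 : Summable fun k => f (k + j) :=
    Summable.of_nonneg_of_le (fun k => hp _) h1 (g1.mul_left C)
  have h3 : Summable f := (summable_nat_add_iff j).1 h2
  refine ⟨h3, ?_⟩
  rw [← h3.sum_add_tsum_nat_add j]
  have h4 := h2.tsum_le_tsum h1 (g1.mul_left C)
  rw [tsum_mul_left] at h4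
  have := mul_le_mul_of_nonneg_left g2 hC
  linarith

theorem sbsum_one {a C : ℝ} {f : ℕ → ℝ} (ha : 0 < a) (hC : 0 ≤ C) (hp : ∀ k, 0 ≤ f k)
    (h0 : f 0 = 0) (h : ∀ k : ℕ, 1 ≤ k → f k ≤ C * exp (-(k * a))) :
    Summable f ∧ ∑' k, f k ≤ C * (exp (-(a / 2)) / a) := by
  obtain ⟨g1, g2⟩ := sbsum_gen ha hC hp 1 h
  refine ⟨g1, g2.trans (le_of_eq ?_)⟩
  rw [Finset.sum_range_one, h0, zero_add, show -((((1 : ℕ) : ℝ) - 1 / 2) * a) = -(a / 2) by
    push_cast; ring]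

theorem sbsum_two {a b C : ℝ} {f : ℕ → ℝ} (ha : 0 < a) (hC : 0 ≤ C) (hp : ∀ k, 0 ≤ f k)
    (h0 : f 0 = 0) (h1 : f 1 ≤ b) (h : ∀ k : ℕ, 2 ≤ k → f k ≤ C * exp (-(k * a))) :
    ∑' k, f k ≤ b + C * (exp (-(3 / 2 * a)) / a) := by
  obtain ⟨-, g2⟩ := sbsum_gen ha hC hp 2 h
  rw [Finset.sum_range_succ, Finset.sum_range_one, h0, zero_add,
    show -((((2 : ℕ) : ℝ) - 1 / 2) * a) = -(3 / 2 * a) by push_cast; ring] at g2
  linarith

theorem sbsum_exp (x y z : ℝ) (h : x + y = z) : exp x * exp y = exp z := by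
  rw [← exp_add, h]

theorem sbsum_a {z : ℝ} (hz : 0 ≤ z) : (1 + z) * exp (-z) ≤ 61 / 50 * exp (-(z / 2)) := by
  have h1 : 1 + z ≤ 61 / 50 * exp (z / 2) := by
    have a1 := add_one_le_exp (z / 2 - 1 / 2)
    have a2 : (1648 / 1000 : ℝ) ≤ exp (1 / 2) := by
      have := sum_le_exp_of_nonneg (show (0 : ℝ) ≤ 1 / 2 by norm_num) 5
      simp only [Finset.sum_range_succ, Finset.sum_range_zero, Nat.factorial] at this
      norm_num at this ⊢
      linarith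
    rw [← sbsum_exp (1 / 2) (z / 2 - 1 / 2) (z / 2) (by ring)]
    have := mul_le_mul a2 a1 (by linarith) (exp_pos _).le
    linarith
  have h2 := mul_le_mul_of_nonneg_right h1 (exp_pos (-z)).le
  rwa [mul_assoc, sbsum_exp (z / 2) (-z) (-(z / 2)) (by ring)] at h2

theorem sbsum_b {z : ℝ} (hz : 0 ≤ z) :
    ((1 + 3 / 4 * z) * exp (-z)) ^ 2 ≤ 12 / 5 * exp (-(3 / 2 * z)) := by
  have h1 : 194 / 300 * (1 + 3 / 4 * z) ≤ exp (z / 4) := by
    have a1 := add_one_le_exp (z / 4 - 2 / 3)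
    have a2 : (194 / 100 : ℝ) ≤ exp (2 / 3) := by
      have := sum_le_exp_of_nonneg (show (0 : ℝ) ≤ 2 / 3 by norm_num) 5
      simp only [Finset.sum_range_succ, Finset.sum_range_zero, Nat.factorial] at this
      norm_num at this ⊢
      linarith
    rw [← sbsum_exp (2 / 3) (z / 4 - 2 / 3) (z / 4) (by ring)]
    have := mul_le_mul a2 a1 (by linarith) (exp_pos _).le
    linarith
  have h2 := mul_self_le_mul_self (by positivity) h1
  rw [sbsum_exp (z / 4) (z / 4) (z / 2) (by ring)] at h2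
  have h3 : (1 + 3 / 4 * z) ^ 2 ≤ 12 / 5 * exp (z / 2) := by nlinarith [sq_nonneg (1 + 3 / 4 * z)]
  have h4 := mul_le_mul_of_nonneg_right h3 (exp_pos (-(2 * z))).le
  rw [mul_assoc, sbsum_exp (z / 2) (-(2 * z)) (-(3 / 2 * z)) (by ring)] at h4
  rwa [mul_pow, pow_two (exp (-z)), sbsum_exp (-z) (-z) (-(2 * z)) (by ring)]

theorem sbsum_c {z : ℝ} (hz : 0 ≤ z) :
    (2 + z + z ^ 2 / 2) * exp (-z) ≤ 9 / 4 * exp (-(z / 2)) := by
  have h1 : 2 + z + z ^ 2 / 2 ≤ 9 / 4 * exp (z / 2) := by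
    have := sum_le_exp_of_nonneg (show (0 : ℝ) ≤ z / 2 by linarith) 6
    simp only [Finset.sum_range_succ, Finset.sum_range_zero, Nat.factorial] at this
    norm_num at this
    nlinarith [mul_nonneg hz (sq_nonneg (z - 2)), sq_nonneg (z ^ 2 - 4), sq_nonneg (z - 2),
      mul_nonneg hz (sq_nonneg (z ^ 2 - 4)), sq_nonneg (z * (z - 2)),
      mul_nonneg hz (sq_nonneg (z * (z - 2)))]
  have h2 := mul_le_mul_of_nonneg_right h1 (exp_pos (-z)).le
  rwa [mul_assoc, sbsum_exp (z / 2) (-z) (-(z / 2)) (by ring)] at h2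

theorem sbsum_sq (z : ℝ) : exp (-z) ^ 2 = exp (-(2 * z)) := by
  rw [pow_two, sbsum_exp (-z) (-z) (-(2 * z)) (by ring)]

theorem sum_s0 {u T : ℝ} {α : ℕ → ℝ} (hu : 0 < u) (hT : 0 ≤ T) (h0 : α 0 = 0)
    (hp : ∀ k, 0 ≤ α k) (h1 : α 1 ≤ T * exp (-u))
    (h2 : ∀ k : ℕ, 2 ≤ k → α k ≤ 3 / 4 * T * exp (-(k * u))) :
    Summable α ∧ ∑' k, α k ≤ T * (exp (-(u / 2)) / u) ∧ ∑' k, α k ^ 2 ≤ T ^ 2 * s0 u := by
  obtain ⟨g1, g2⟩ := sbsum_one hu hT hp h0 fun k hk => by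
    rcases Nat.eq_or_lt_of_le hk with rfl | hk
    · simpa using h1
    · have := mul_nonneg hT (exp_pos (-(k * u))).le
      linarith [h2 k hk]
  refine ⟨g1, g2, ?_⟩
  have h3 := sbsum_two (a := 2 * u) (b := T ^ 2 * exp (-(2 * u))) (C := 9 / 16 * T ^ 2)
    (f := fun k => α k ^ 2) (by linarith) (by positivity) (fun k => sq_nonneg _) (by simp [h0])
    (by
      have := pow_le_pow_left₀ (hp 1) h1 2
      rwa [mul_pow, sbsum_sq] at this) fun k hk => by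
      have := pow_le_pow_left₀ (hp k) (h2 k hk) 2
      rw [mul_pow, sbsum_sq, show 2 * (k * u) = k * (2 * u) by ring] at this
      linarith
  refine h3.trans (le_of_eq ?_)
  rw [s0, show 3 / 2 * (2 * u) = 3 * u by ring]
  field_simp
  ring

theorem sum_s1 {u T : ℝ} {α : ℕ → ℝ} (hu : 0 < u) (hT : 0 ≤ T) (h0 : α 0 = 0)
    (hp : ∀ k, 0 ≤ α k) (h1 : α 1 ≤ T * ((1 + u) * exp (-u)))
    (h2 : ∀ k : ℕ, 2 ≤ k → α k ≤ T * ((1 + 3 / 4 * (k * u)) * exp (-(k * u)))) :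
    Summable α ∧ ∑' k, α k ≤ T * (61 / 25 * exp (-(u / 4)) / u) ∧
      ∑' k, α k ^ 2 ≤ T ^ 2 * s1 u := by
  obtain ⟨g1, g2⟩ := sbsum_one (a := u / 2) (C := 61 / 50 * T) (by linarith) (by positivity) hp h0
    fun k hk => by
    have hz : (0 : ℝ) ≤ k * u := by positivity
    have h3 := mul_le_mul_of_nonneg_left (sbsum_a hz) hT
    rw [show k * (u / 2) = k * u / 2 by ring]
    rcases Nat.eq_or_lt_of_le hk with rfl | hk
    · simp only [Nat.cast_one, one_mul] at h3 ⊢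
      linarith
    · have := mul_nonneg hT (mul_nonneg hz (exp_pos (-(k * u))).le)
      linarith [h2 k hk]
  refine ⟨g1, g2.trans (le_of_eq ?_), ?_⟩
  · rw [show u / 2 / 2 = u / 4 by ring]
    field_simp
    ring
  have h3 := sbsum_two (a := 3 / 2 * u) (b := T ^ 2 * ((1 + u) ^ 2 * exp (-(2 * u))))
    (C := 12 / 5 * T ^ 2) (f := fun k => α k ^ 2) (by linarith) (by positivity)
    (fun k => sq_nonneg _) (by simp [h0])
    (by
      have := pow_le_pow_left₀ (hp 1) h1 2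
      rwa [mul_pow, mul_pow, sbsum_sq] at this) fun k hk => by
      have h4 := pow_le_pow_left₀ (hp k) (h2 k hk) 2
      have h5 := mul_le_mul_of_nonneg_left (sbsum_b (z := k * u) (by positivity)) (sq_nonneg T)
      rw [mul_pow] at h4
      rw [show k * (3 / 2 * u) = 3 / 2 * (k * u) by ring]
      linarith
  refine h3.trans (le_of_eq ?_)
  rw [s1, show 3 / 2 * (3 / 2 * u) = 9 / 4 * u by ring]
  field_simp
  ring

theorem sum_s2 {u T : ℝ} {α : ℕ → ℝ} (hu : 0 < u) (hT : 0 ≤ T) (h0 : α 0 = 0)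
    (hp : ∀ k, 0 ≤ α k) (h1 : α 1 ≤ T * ((1 + u + u ^ 2 / 2) * exp (-u)))
    (h2 : ∀ k : ℕ, 2 ≤ k → α k ≤ T * ((2 + k * u + (k * u) ^ 2 / 2) * exp (-(k * u)))) :
    Summable α ∧ ∑' k, α k ≤ T * (9 / 2 / u) ∧ ∑' k, α k ^ 2 ≤ T ^ 2 * s2 u := by
  obtain ⟨g1, g2⟩ := sbsum_one (a := u / 2) (C := 9 / 4 * T) (by linarith) (by positivity) hp h0
    fun k hk => by
    have hz : (0 : ℝ) ≤ k * u := by positivity
    have h3 := mul_le_mul_of_nonneg_left (sbsum_c hz) hT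
    rw [show k * (u / 2) = k * u / 2 by ring]
    rcases Nat.eq_or_lt_of_le hk with rfl | hk
    · simp only [Nat.cast_one, one_mul] at h3 ⊢
      have := mul_nonneg hT (exp_pos (-u)).le
      linarith
    · linarith [h2 k hk]
  refine ⟨g1, g2.trans ?_, ?_⟩
  · have h3 : exp (-(u / 2 / 2)) ≤ 1 := exp_le_one_iff.2 (by linarith)
    have h4 : exp (-(u / 2 / 2)) / (u / 2) ≤ 1 / (u / 2) :=
      div_le_div_of_nonneg_right h3 (by linarith)
    refine (mul_le_mul_of_nonneg_left h4 (by positivity)).trans (le_of_eq ?_)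
    field_simp
    ring
  have h3 := sbsum_two (a := u) (b := T ^ 2 * ((1 + u + u ^ 2 / 2) ^ 2 * exp (-(2 * u))))
    (C := 51 / 10 * T ^ 2) (f := fun k => α k ^ 2) hu (by positivity)
    (fun k => sq_nonneg _) (by simp [h0])
    (by
      have := pow_le_pow_left₀ (hp 1) h1 2
      rwa [mul_pow, mul_pow, sbsum_sq] at this) fun k hk => by
      have hz : (0 : ℝ) ≤ k * u := by positivity
      have h4 := pow_le_pow_left₀ (hp k)
        ((h2 k hk).trans (mul_le_mul_of_nonneg_left (sbsum_c hz) hT)) 2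
      rw [mul_pow, mul_pow, sbsum_sq, show 2 * (k * u / 2) = k * u by ring] at h4
      have := mul_nonneg (sq_nonneg T) (exp_pos (-(k * u))).le
      linarith
  refine h3.trans (le_of_eq ?_)
  rw [s2]
  ring

theorem sum_o1 {u T T' : ℝ} {α β : ℕ → ℝ} (hu : 0 < u) (hT : 0 ≤ T) (hT' : 0 ≤ T') (h0 : β 0 = 0)
    (hp : ∀ k, 0 ≤ α k) (hq : ∀ k, 0 ≤ β k) (h1 : α 1 ≤ T * exp (-u))
    (h2 : ∀ k : ℕ, 2 ≤ k → α k ≤ 3 / 4 * T * exp (-(k * u)))
    (h3 : β 1 ≤ T' * ((1 + u) * exp (-u)))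
    (h4 : ∀ k : ℕ, 2 ≤ k → β k ≤ T' * ((1 + 3 / 4 * (k * u)) * exp (-(k * u)))) :
    ∑' k, 2 * (α k * β k) ≤ T * T' * o1 u := by
  have h5 := sbsum_two (a := 3 / 2 * u) (b := T * T' * (2 * (1 + u) * exp (-(2 * u))))
    (C := 183 / 100 * (T * T')) (f := fun k => 2 * (α k * β k)) (by linarith) (by positivity)
    (fun k => mul_nonneg (by norm_num) (mul_nonneg (hp k) (hq k))) (by simp [h0])
    (by
      have := mul_le_mul h1 h3 (hq 1) (by positivity)
      rw [← sbsum_sq]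
      linarith) fun k hk => by
      have hz : (0 : ℝ) ≤ k * u := by positivity
      have h6 : β k ≤ T' * (61 / 50 * exp (-(k * u / 2))) := by
        have a1 := mul_le_mul_of_nonneg_left (sbsum_a hz) hT'
        have := mul_nonneg hT' (mul_nonneg hz (exp_pos (-(k * u))).le)
        linarith [h4 k hk]
      have h7 := mul_le_mul (h2 k hk) h6 (hq k) (by positivity)
      rw [← sbsum_exp (-(k * u)) (-(k * u / 2)) (-(k * (3 / 2 * u))) (by ring)]
      linarith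
  refine h5.trans (le_of_eq ?_)
  rw [o1, show 3 / 2 * (3 / 2 * u) = 9 / 4 * u by ring]
  field_simp
  ring

end Pool.Agent.PSF
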