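import Pool.Agent.P.MP_7b7370_an.SBBin
import Pool.Agent.P.MP_7b7370_an.SBVar
import Pool.Agent.P.MP_7b7370_an.SBSum

set_option autoImplicit false

namespace Pool.Agent.PSF

open Real Set MeasureTheory

theorem wt_om {ν : ℝ} (hν : 4 ≤ ν) : Wt (om ν) := by
  exact ⟨integrableOn_om (by linarith), continuousOn_om (by linarith)⟩

theorem wt_w1 {m n t : ℝ} (h : Par m n t) : Wt (w1 n t) := by
  have h4 := h.m4
  have ht := h.t0
  have hn := h.mn
  have a := wt_om (ν := n - t) (by linarith)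
  have b := wt_om (ν := n + t) (by linarith)
  exact ⟨(a.int.sub b.int).div_const (2 * t), (a.cont.sub b.cont).div_const (2 * t)⟩

theorem wt_w2 {m n t : ℝ} (h : Par m n t) : Wt (w2 n t) := by
  have h4 := h.m4
  have ht := h.t0
  have hn := h.mn
  have a := wt_om (ν := n - t) (by linarith)
  have b := wt_om (ν := n + t) (by linarith)
  have c := wt_om (ν := n) (by linarith)
  exact ⟨((b.int.add a.int).sub (c.int.const_mul 2)).div_const (2 * t ^ 2),
    ((b.cont.add a.cont).sub (continuousOn_const.mul c.cont)).div_const (2 * t ^ 2)⟩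

lemma sbwt0_slice {ν s : ℝ} (hν : 4 ≤ ν) (hs : 0 < s) : Continuous fun φ : ℝ => om ν (s, φ) :=
  (wt_om hν).cont.comp_continuous (f := fun φ : ℝ => (s, φ)) (by fun_prop) fun _ => hs

theorem mean_w1 {m n t s : ℝ} (h : Par m n t) (hs : 0 < s) :
    mean (w1 n t) s = π * (exp (-(2 * s)) * J1 n t fun ν => om0 ν s) := by
  have h4 := h.m4
  have ht := h.t0
  have hn := h.mn
  have a : 4 ≤ n - t := by linarith
  have b : 4 ≤ n + t := by linarith
  have ha := mean_om a hs
  have hb := mean_om b hs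
  unfold mean at ha hb
  unfold mean w1 J1
  rw [intervalIntegral.integral_div, intervalIntegral.integral_sub
    ((sbwt0_slice a hs).intervalIntegrable _ _) ((sbwt0_slice b hs).intervalIntegrable _ _), ha, hb]
  ring

theorem mean_w2 {m n t s : ℝ} (h : Par m n t) (hs : 0 < s) :
    mean (w2 n t) s = π * (exp (-(2 * s)) * J2 n t fun ν => om0 ν s) := by
  have h4 := h.m4
  have ht := h.t0
  have hn := h.mn
  have a : 4 ≤ n - t := by linarith
  have b : 4 ≤ n + t := by linarith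
  have c : 4 ≤ n := by linarith
  have ha := mean_om a hs
  have hb := mean_om b hs
  have hc := mean_om c hs
  have ia := (sbwt0_slice a hs).intervalIntegrable (μ := volume) 0 π
  have ib := (sbwt0_slice b hs).intervalIntegrable (μ := volume) 0 π
  have ic := (sbwt0_slice c hs).intervalIntegrable (μ := volume) 0 π
  unfold mean at ha hb hc
  unfold mean w2 J2
  rw [intervalIntegral.integral_div, intervalIntegral.integral_sub (ib.add ia) (ic.const_mul 2),
    intervalIntegral.integral_add ib ia, intervalIntegral.integral_const_mul, ha, hb, hc]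
  ring

lemma sbwt0_tl_nonneg {ν : ℝ} (hν : 0 < ν) (s : ℝ) (k : ℕ) : 0 ≤ tl (gk ν s) k := by
  unfold tl
  split_ifs
  · exact le_rfl
  · exact gk_nonneg hν s k

lemma sbwt0_s0 {m ν s : ℝ} (hm : 4 ≤ m) (hν : m ≤ ν) (hs : 0 < s) :
    Summable (tl (gk ν s)) ∧
      ∑' k, tl (gk ν s) k ≤ 2 / m * (exp (-(m * s / 2)) / (m * s)) ∧
      ∑' k, tl (gk ν s) k ^ 2 ≤ (2 / m) ^ 2 * s0 (m * s) := by
  have hm0 : 0 < m := by linarith
  refine sum_s0 (mul_pos hm0 hs) (by positivity) (by simp [tl])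
    (sbwt0_tl_nonneg (by linarith) s) ?_ fun k hk => ?_
  · have := gk_le hm hν hs (k := 1) le_rfl
    simpa [tl] using this
  · have := gk_le34 hm hν hs hk
    rwa [tl, if_neg (by omega)]

theorem om0_le {m ν s : ℝ} (hm : 4 ≤ m) (hν : m ≤ ν) (hs : 0 < s) :
    om0 ν s ≤ 1 + (2 / m) ^ 2 * s0 (m * s) := by
  have h4 : 4 ≤ ν := hm.trans hν
  have h1 := summable_gk_sq h4 hs
  have h2 : Summable fun k => tl (gk ν s) k ^ 2 := by
    refine Summable.of_nonneg_of_le (fun k => sq_nonneg _) (fun k => ?_) h1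
    unfold tl
    split_ifs
    · simpa using sq_nonneg (gk ν s k)
    · exact le_rfl
  have h3 := (sbwt0_s0 hm hν hs).2.2
  rw [h2.tsum_eq_zero_add] at h3
  rw [om0, h1.tsum_eq_zero_add, gk_zero]
  simp only [tl, if_true, Nat.succ_ne_zero, if_false] at h3
  linarith

theorem J1_om0_le {m n t s : ℝ} (h : Par m n t) (hs : 0 < s) :
    (J1 n t fun ν => om0 ν s) ≤ 2 / m * (2 / m ^ 2) * o1 (m * s) := by
  have h4 := h.m4
  have hm0 : 0 < m := by linarith
  rw [← (hasSum_J1_om0 h hs).tsum_eq]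
  have key : ∀ k : ℕ, 0 ≤ Jb n t (fun ν => gk ν s k) ∧ 0 ≤ J1 n t fun ν => gk ν s k := by
    intro k
    rcases k with _ | _ | k
    · exact ⟨(gk_UJ_zero n t s).Jb_nonneg, (gk_UJ_zero n t s).p1⟩
    · exact ⟨(gk_UJ_one h hs).Jb_nonneg, (gk_UJ_one h hs).p1⟩
    · exact ⟨(gk_UJ h hs (by omega)).Jb_nonneg, (gk_UJ h hs (by omega)).p1⟩
  exact sum_o1 (α := fun k => Jb n t fun ν => gk ν s k) (β := fun k => J1 n t fun ν => gk ν s k)
    (mul_pos hm0 hs) (by positivity) (by positivity)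
    (le_antisymm (gk_UJ_zero n t s).u1 (gk_UJ_zero n t s).p1) (fun k => (key k).1)
    (fun k => (key k).2) (gk_UJ_one h hs).Jb_le (fun k hk => (gk_UJ h hs hk).Jb_le)
    (gk_UJ_one h hs).u1 fun k hk => (gk_UJ h hs hk).u1

lemma sbwt0_exp_half : (1648 / 1000 : ℝ) ≤ exp (1 / 2) := by
  have := Real.sum_le_exp_of_nonneg (x := 1 / 2) (by norm_num) 5
  refine le_trans ?_ this
  simp only [Finset.sum_range_succ, Finset.sum_range_zero, Nat.factorial]
  norm_num

theorem sup_om {m ν : ℝ} (hm : 4 ≤ m) (hν : m ≤ ν) {p : ℝ × ℝ} (hp : 0 < p.1) :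
    |om ν p| ≤ 19 / 500 * rho 1 m p.1 := by
  have h4 : 4 ≤ ν := hm.trans hν
  have hm0 : 0 < m := by linarith
  rw [abs_of_pos (om_pos (by linarith) hp), om_eq h4 hp]
  have h1 := G_sq_le hm hν hp p.2
  generalize p.1 = s at hp h1 ⊢
  refine (mul_le_mul_of_nonneg_left h1 (exp_pos _).le).trans ?_
  have h2 : exp (1 / 2) * (2 * s + 1 / 2) ≤ exp (2 * s) := by
    have := add_one_le_exp (2 * s - 1 / 2)
    calc exp (1 / 2) * (2 * s + 1 / 2) ≤ exp (1 / 2) * exp (2 * s - 1 / 2) :=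
          mul_le_mul_of_nonneg_left (by linarith) (exp_pos _).le
      _ = exp (2 * s) := by rw [← exp_add]; congr 1; ring
  have h3 : 1648 / 1000 * (2 * s + 1 / 2) ≤ exp (2 * s) :=
    (mul_le_mul_of_nonneg_right sbwt0_exp_half (by linarith)).trans h2
  have h5 : m * s + 1 ≤ 19 / 250 * m ^ 2 * exp (2 * s) := by
    have a : m * s + 1 ≤ m / 2 * (2 * s + 1 / 2) := by linarith
    have b : m / 2 ≤ 19 / 250 * m ^ 2 * (1648 / 1000) := by nlinarith
    calc m * s + 1 ≤ m / 2 * (2 * s + 1 / 2) := a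
      _ ≤ 19 / 250 * m ^ 2 * (1648 / 1000) * (2 * s + 1 / 2) :=
          mul_le_mul_of_nonneg_right b (by linarith)
      _ = 19 / 250 * m ^ 2 * (1648 / 1000 * (2 * s + 1 / 2)) := by ring
      _ ≤ _ := mul_le_mul_of_nonneg_left h3 (by positivity)
  have e1 : exp (-(2 * s)) * (1 + 1 / (m * s)) = (m * s + 1) / (exp (2 * s) * (m * s)) := by
    rw [exp_neg]
    field_simp
  have e2 : 19 / 500 * rho 1 m s =
      19 / 250 * m ^ 2 * exp (2 * s) / (exp (2 * s) * (m * s)) := by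
    unfold rho
    field_simp
    ring
  rw [e1, e2]
  exact div_le_div_of_nonneg_right h5 (by positivity)

lemma sbwt0_var {m ν s L : ℝ} (hm : 4 ≤ m) (hν : m ≤ ν) (hs : 0 < s)
    (hL : ∑' k, tl (gk ν s) k ≤ L) :
    ∫ φ in (0 : ℝ)..π, (om ν (s, φ) - exp (-(2 * s))) ^ 2 ≤
      π * (exp (-(4 * s)) * (2 / m) ^ 2 * (s0 (m * s) * (2 + 283 / 100 * L + L ^ 2))) := by
  have h4 : 4 ≤ ν := hm.trans hν
  obtain ⟨h1, -, h3⟩ := sbwt0_s0 hm hν hs
  have hp := sbwt0_tl_nonneg (show 0 < ν by linarith) s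
  have h0 : 0 ≤ ∑' k, tl (gk ν s) k := tsum_nonneg hp
  have h5 := var_le h1 (by simp [tl]) h3 (h0.trans hL) (continuous_Cs h1) (continuous_Sn h1)
    fun φ => (sq_add_sq_le h1 hp φ).trans (pow_le_pow_left₀ h0 hL 2)
  have e : ∀ φ : ℝ, (om ν (s, φ) - exp (-(2 * s))) ^ 2 = exp (-(4 * s)) *
      (2 * Cs (tl (gk ν s)) φ + (Cs (tl (gk ν s)) φ * Cs (tl (gk ν s)) φ +
        Sn (tl (gk ν s)) φ * Sn (tl (gk ν s)) φ)) ^ 2 := by
    intro φ
    have e4 : exp (-(4 * s)) = exp (-(2 * s)) ^ 2 := by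
      rw [sq, ← exp_add]; congr 1; ring
    rw [om_eq h4 (p := (s, φ)) hs, e4]
    simp only
    rw [Cs_tl (summable_gk h4 hs), Sn_tl (summable_gk h4 hs), gk_zero]
    ring
  simp only [e]
  rw [intervalIntegral.integral_const_mul]
  refine (mul_le_mul_of_nonneg_left h5 (exp_pos _).le).trans_eq ?_
  ring

theorem var_om {m ν s : ℝ} (hm : 4 ≤ m) (hν : m ≤ ν) (hs : 0 < s) :
    Var (om ν) s (v0 m s) ∧ Var (om ν) s (v0y m s) := by
  have hm0 : 0 < m := by linarith
  have hu : 0 < m * s := mul_pos hm0 hs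
  constructor
  · refine ⟨exp (-(2 * s)), ?_⟩
    have h2 := (sbwt0_s0 hm hν hs).2.1
    have h3 : 2 / m ≤ 1 / 2 := by
      rw [div_le_div_iff₀ hm0 two_pos]
      linarith
    have h4 := sbwt0_var hm hν hs
      (h2.trans (mul_le_mul_of_nonneg_right h3 (by positivity)))
    refine h4.trans_eq ?_
    have e4 : exp (-(m * s)) = exp (-(m * s / 2)) ^ 2 := by
      rw [sq, ← exp_add]; congr 1; ring
    unfold v0 en1
    rw [e4]
    ring
  · refine ⟨exp (-(2 * s)), ?_⟩
    refine (sbwt0_var hm hν hs le_rfl).trans ?_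
    have h2 := tl_sum_sq_le hm hν hs
    generalize ∑' k, tl (gk ν s) k = L at h2
    have h3 : 0 ≤ s0 (m * s) := by
      unfold s0
      positivity
    have h5 : 2 + 283 / 100 * L + L ^ 2 ≤ 683 / 200 + 483 / 200 / (m * s) := by
      have : 483 / 200 / (m * s) = 483 / 200 * (1 / (m * s)) := by ring
      rw [this]
      nlinarith [sq_nonneg (L - 1)]
    unfold v0y
    exact mul_le_mul_of_nonneg_left (mul_le_mul_of_nonneg_left
      (mul_le_mul_of_nonneg_left h5 h3) (by positivity)) pi_pos.le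

end Pool.Agent.PSF
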