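import Pool.Agent.P.MP_7b7370_an.SBForm
import Pool.Agent.P.MP_7b7370_an.SBNum
import Pool.Agent.P.MP_7b7370_an.SBGap1
import Pool.Agent.P.MP_7b7370_an.SBOrth
import Pool.Agent.P.MP_7b7370_an.SBWt0

set_option autoImplicit false

namespace Pool.Agent.PSF

open Real Set MeasureTheory

theorem sbgap_r0_zero {V : ℝ × ℝ → ℝ} (hV : Adm V) : r0 V 0 = 0 := by
  obtain ⟨η, hη, h⟩ := hV.zero
  have e : (fun φ : ℝ => V (0, φ)) = fun _ => 0 := funext fun φ => h (0, φ) hη.le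
  unfold r0
  rw [e]
  simp

theorem sbgap_s0_nonneg {u : ℝ} (hu : 0 < u) : 0 ≤ s0 u := by
  unfold s0
  positivity

theorem sbgap_v0y_nonneg {m s : ℝ} (hm : 0 < m) (hs : 0 < s) : 0 ≤ v0y m s := by
  have h := sbgap_s0_nonneg (mul_pos hm hs)
  unfold v0y
  positivity

theorem sbgap_rho_one {m s : ℝ} : rho 1 m s = 2 * m / s := by
  unfold rho
  ring

theorem sbgap_Db_nonneg (n : ℝ) (V : ℝ × ℝ → ℝ) : 0 ≤ Db n V V := by
  have h1 := E1_nonneg V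
  have h2 := E2_nonneg V
  unfold Db
  positivity

theorem r0_sq_le {V : ℝ × ℝ → ℝ} (hV : Adm V) {Y s : ℝ} (hY : E1 (rad V) (rad V) ≤ Y ^ 2)
    (hs : 0 < s) : π * r0 V s ^ 2 ≤ Y ^ 2 * s := by
  have h1 := E1_rad hV
  have h2 := sq_le_mul_int hV.hasDerivAt_r0 hV.cont_r0.2 h1.1 (sbgap_r0_zero hV) hs.le
  rw [h1.2] at hY
  calc π * r0 V s ^ 2 ≤ π * (s * ∫ σ in Ioi (0 : ℝ), r0 (dx V) σ ^ 2) :=
        mul_le_mul_of_nonneg_left h2 pi_pos.le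
    _ = (π * ∫ σ in Ioi (0 : ℝ), r0 (dx V) σ ^ 2) * s := by ring
    _ ≤ Y ^ 2 * s := mul_le_mul_of_nonneg_right hY hs.le

theorem M_rr_le {ν μ Y : ℝ} (hν : 4 ≤ ν) {V : ℝ × ℝ → ℝ} (hV : Adm V)
    (hY : E1 (rad V) (rad V) ≤ Y ^ 2)
    (h : π * ∫ s in Ioi (0 : ℝ), exp (-(2 * s)) * r0 V s ^ 2 ≤ μ * Y ^ 2) :
    Bw (om ν) (rad V) (rad V) ≤ (μ + 19 / 5000) * Y ^ 2 := by
  have hB := Bw_rad (integrableOn_om (n := ν) (by linarith)) hV hV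
  have hq := (rad_quarter hV.hasDerivAt_r0 hV.cont_r0.2 (E1_rad hV).1 (sbgap_r0_zero hV)).1
  have hn := num_b0 (m := 4) le_rfl
  have hi1 : IntegrableOn (fun s => π * (exp (-(2 * s)) * r0 V s ^ 2)) (Ioi (0 : ℝ)) :=
    hq.const_mul π
  have hi2 : IntegrableOn
      (fun s => Y ^ 2 * (s * exp (-(2 * s)) * ((2 / 4) ^ 2 * s0 (4 * s)))) (Ioi (0 : ℝ)) :=
    hn.1.const_mul (Y ^ 2)
  have hle : ∫ s in Ioi (0 : ℝ), mean (om ν) s * (r0 V s * r0 V s) ≤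
      ∫ s in Ioi (0 : ℝ), (π * (exp (-(2 * s)) * r0 V s ^ 2) +
        Y ^ 2 * (s * exp (-(2 * s)) * ((2 / 4) ^ 2 * s0 (4 * s)))) := by
    refine setIntegral_mono_on hB.1 (hi1.add hi2) measurableSet_Ioi fun s hs => ?_
    have hs' : 0 < s := hs
    rw [mean_om hν hs']
    have a1 := om0_le (m := 4) le_rfl hν hs'
    have a2 := r0_sq_le hV hY hs'
    have a3 : 0 ≤ (2 / 4 : ℝ) ^ 2 * s0 (4 * s) :=
      mul_nonneg (by positivity) (sbgap_s0_nonneg (by positivity))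
    have a4 : 0 < exp (-(2 * s)) := exp_pos _
    have a5 : 0 ≤ π * r0 V s ^ 2 := by positivity
    generalize (2 / 4 : ℝ) ^ 2 * s0 (4 * s) = w at a1 a3 ⊢
    calc π * (exp (-(2 * s)) * om0 ν s) * (r0 V s * r0 V s)
        = exp (-(2 * s)) * (om0 ν s * (π * r0 V s ^ 2)) := by ring
      _ ≤ exp (-(2 * s)) * ((1 + w) * (π * r0 V s ^ 2)) :=
          mul_le_mul_of_nonneg_left (mul_le_mul_of_nonneg_right a1 a5) a4.le
      _ = π * (exp (-(2 * s)) * r0 V s ^ 2) + exp (-(2 * s)) * w * (π * r0 V s ^ 2) := by ring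
      _ ≤ π * (exp (-(2 * s)) * r0 V s ^ 2) + exp (-(2 * s)) * w * (Y ^ 2 * s) :=
          add_le_add le_rfl (mul_le_mul_of_nonneg_left a2 (mul_nonneg a4.le a3))
      _ = π * (exp (-(2 * s)) * r0 V s ^ 2) + Y ^ 2 * (s * exp (-(2 * s)) * w) := by ring
  rw [integral_add hi1 hi2, integral_const_mul, integral_const_mul] at hle
  have a6 := mul_le_mul_of_nonneg_left hn.2 (sq_nonneg Y)
  rw [hB.2]
  linarith

theorem M_rn_le {m ν n X Y : ℝ} (hm : 4 ≤ m) (hν : m ≤ ν) (hn : m ≤ n) {U V : ℝ × ℝ → ℝ}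
    (hU : Adm U) (hV : Adm V) (hX0 : 0 ≤ X) (hY0 : 0 ≤ Y) (hX : E1 (rad U) (rad U) ≤ X ^ 2)
    (hY : Db n (ang V) (ang V) ≤ Y ^ 2) : |Bw (om ν) (rad U) (ang V)| ≤ 12 / 625 * X * Y := by
  have hm0 : 0 < m := by linarith
  have hk := num_k0y hm
  refine rn_bound (ν := 1) (m := m) (n := n) (v := v0y m)
    (κ := fun s => X ^ 2 * (s ^ 2 / (2 * m) * v0y m s)) (wt_om (le_trans hm hν)) hU hV hm0.le hn
    (fun s hs => by rw [sbgap_rho_one]; positivity) (fun s hs => (var_om hm hν hs).2)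
    (hk.1.const_mul (X ^ 2)) (fun s hs => ?_) (by positivity) ?_ hY0 hY
  · have a1 := r0_sq_le hU hX hs
    have a2 := sbgap_v0y_nonneg hm0 hs
    rw [sbgap_rho_one]
    calc π * r0 U s ^ 2 * v0y m s ≤ X ^ 2 * s * v0y m s := mul_le_mul_of_nonneg_right a1 a2
      _ = X ^ 2 * (s ^ 2 / (2 * m) * v0y m s) * (2 * m / s) := by field_simp
  · rw [integral_const_mul]
    have a1 := mul_le_mul_of_nonneg_left hk.2 (sq_nonneg X)
    calc X ^ 2 * ∫ s in Ioi (0 : ℝ), s ^ 2 / (2 * m) * v0y m s ≤ X ^ 2 * (12 / 625) ^ 2 := a1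
      _ = (12 / 625 * X) ^ 2 := by ring

theorem M_nn_le {m ν n Y : ℝ} (hm : 4 ≤ m) (hν : m ≤ ν) (hn : m ≤ n) {V : ℝ × ℝ → ℝ}
    (hV : Adm V) (hY0 : 0 ≤ Y) (hY : Db n (ang V) (ang V) ≤ Y ^ 2) :
    |Bw (om ν) (ang V) (ang V)| ≤ 19 / 500 * Y ^ 2 := by
  have hm0 : 0 < m := by linarith
  have h := nn_bound (ν := 1) (m := m) (n := n) (n' := n) (θ := 19 / 500)
    (wt_om (le_trans hm hν)) hV hV hm0.le hn hn
    (fun s hs => by rw [sbgap_rho_one]; positivity) (by norm_num)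
    (fun p hp => sup_om hm hν hp) hY0 hY0 hY hY
  rw [sq]
  exact h

theorem M_le_gap {ν : ℝ} (hν : 4 ≤ ν) {y : ℝ × ℝ → ℝ} (hy : Adm y) (h0 : r0 y (3 / 4) = 0) :
    Bw (om ν) y y ≤ 187 / 2000 * E1 (rad y) (rad y) + 49 / 1000 * Db ν (ang y) (ang y) := by
  have hE := E1_nonneg (rad y)
  have hD := sbgap_Db_nonneg ν (ang y)
  have hX := Real.sq_sqrt hE
  have hY := Real.sq_sqrt hD
  have hX0 := Real.sqrt_nonneg (E1 (rad y) (rad y))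
  have hY0 := Real.sqrt_nonneg (Db ν (ang y) (ang y))
  generalize √(E1 (rad y) (rad y)) = X at hX hX0
  generalize √(Db ν (ang y) (ang y)) = Y at hY hY0
  have h1 := E1_rad hy
  have h2 := rad_gap hy.hasDerivAt_r0 hy.cont_r0.2 h1.1 (sbgap_r0_zero hy) h0
  have h3 : π * ∫ s in Ioi (0 : ℝ), exp (-(2 * s)) * r0 y s ^ 2 ≤ 7 / 125 * X ^ 2 := by
    rw [hX, h1.2]
    have := mul_le_mul_of_nonneg_left h2 pi_pos.le
    linarith
  have a1 := M_rr_le hν hy hX.ge h3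
  have a2 := (abs_le.1 (M_rn_le (m := 4) le_rfl hν hν hy hy hX0 hY0 hX.ge hY.ge)).2
  have a3 := (abs_le.1 (M_nn_le (m := 4) le_rfl hν hν hy hY0 hY.ge)).2
  rw [Bw_split (integrableOn_om (n := ν) (by linarith)) hy hy, ← hX, ← hY]
  nlinarith [sq_nonneg (7 * X - 4 * Y), sq_nonneg X, sq_nonneg Y]

theorem M_le_D {ν n : ℝ} (hν : 4 ≤ ν) (hn : 4 ≤ n) {V : ℝ × ℝ → ℝ} (hV : Adm V) :
    Bw (om ν) V V ≤ 137 / 500 * Db n V V := by
  have hE := E1_nonneg (rad V)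
  have hD := sbgap_Db_nonneg n (ang V)
  have hX := Real.sq_sqrt hE
  have hY := Real.sq_sqrt hD
  have hX0 := Real.sqrt_nonneg (E1 (rad V) (rad V))
  have hY0 := Real.sqrt_nonneg (Db n (ang V) (ang V))
  generalize √(E1 (rad V) (rad V)) = X at hX hX0
  generalize √(Db n (ang V) (ang V)) = Y at hY hY0
  have h1 := E1_rad hV
  have h2 := (rad_quarter hV.hasDerivAt_r0 hV.cont_r0.2 h1.1 (sbgap_r0_zero hV)).2
  have h3 : π * ∫ s in Ioi (0 : ℝ), exp (-(2 * s)) * r0 V s ^ 2 ≤ 1 / 4 * X ^ 2 := by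
    rw [hX, h1.2]
    have := mul_le_mul_of_nonneg_left h2 pi_pos.le
    linarith
  have a1 := M_rr_le hν hV hX.ge h3
  have a2 := (abs_le.1 (M_rn_le (m := 4) le_rfl hν hn hV hV hX0 hY0 hX.ge hY.ge)).2
  have a3 := (abs_le.1 (M_nn_le (m := 4) le_rfl hν hn hV hY0 hY.ge)).2
  rw [Bw_split (integrableOn_om (n := ν) (by linarith)) hV hV, Db_split hV n, ← hX, ← hY]
  nlinarith [sq_nonneg (X - Y), sq_nonneg X, sq_nonneg Y]

end Pool.Agent.PSF
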