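import Pool.Agent.P.MP_7b7370_an.SBBil
import Pool.Agent.P.MP_7b7370_an.SBFub

set_option autoImplicit false

namespace Pool.Agent.PSF

open Real Set MeasureTheory

theorem sbrad_slice {V : ℝ × ℝ → ℝ} (hV : Continuous V) (s : ℝ) :
    Continuous fun φ : ℝ => V (s, φ) := hV.comp (Continuous.prodMk_right s)

theorem sbrad_cont {V : ℝ × ℝ → ℝ} (hV : Continuous V) : Continuous (r0 V) := by
  have h : Continuous fun s : ℝ => ∫ φ in (0 : ℝ)..π, V (s, φ) :=
    intervalIntegral.continuous_parametric_intervalIntegral_of_continuous'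
      (f := fun s φ => V (s, φ)) hV 0 π
  exact h.div_const π

theorem sbrad_const {V : ℝ × ℝ → ℝ} {s κ : ℝ} (h : ∀ φ, V (s, φ) = κ) : r0 V s = κ := by
  have hp := pi_pos.ne'
  simp only [r0, h, intervalIntegral.integral_const, sub_zero, smul_eq_mul]
  field_simp

theorem Adm.hasDerivAt_r0 {V : ℝ × ℝ → ℝ} (hV : Adm V) (s : ℝ) :
    HasDerivAt (r0 V) (r0 (dx V) s) s := by
  obtain ⟨C, hC⟩ := ((isCompact_closedBall s 1).prod
    (isCompact_uIcc (a := (0 : ℝ)) (b := π))).exists_bound_of_continuousOn hV.cont_dx.continuousOn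
  have h := intervalIntegral.hasDerivAt_integral_of_dominated_loc_of_deriv_le (μ := volume)
    (a := 0) (b := π) (F := fun σ φ => V (σ, φ)) (F' := fun σ φ => dx V (σ, φ)) (x₀ := s)
    (bound := fun _ => C) (Metric.closedBall_mem_nhds s one_pos)
    (Filter.Eventually.of_forall fun σ => (sbrad_slice hV.cont σ).aestronglyMeasurable)
    ((sbrad_slice hV.cont s).intervalIntegrable _ _)
    (sbrad_slice hV.cont_dx s).aestronglyMeasurable
    (Filter.Eventually.of_forall fun φ hφ σ hσ => hC (σ, φ) ⟨hσ, uIoc_subset_uIcc hφ⟩)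
    intervalIntegrable_const
    (Filter.Eventually.of_forall fun φ _ σ _ => hV.hasDerivAt_fst σ φ)
  exact h.2.div_const π

theorem Adm.cont_r0 {V : ℝ × ℝ → ℝ} (hV : Adm V) : Continuous (r0 V) ∧ Continuous (r0 (dx V)) :=
  ⟨sbrad_cont hV.cont, sbrad_cont hV.cont_dx⟩

theorem Adm.rad {V : ℝ × ℝ → ℝ} (hV : Adm V) : Adm (rad V) := by
  have h1 : ContDiff ℝ 1 (r0 V) := by
    rw [contDiff_one_iff_deriv]
    refine ⟨fun s => (hV.hasDerivAt_r0 s).differentiableAt, ?_⟩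
    have e : deriv (r0 V) = r0 (dx V) := funext fun s => (hV.hasDerivAt_r0 s).deriv
    rw [e]
    exact hV.cont_r0.2
  refine ⟨h1.comp contDiff_fst, ?_, ?_⟩
  · obtain ⟨η, h0, h⟩ := hV.zero
    exact ⟨η, h0, fun p hp => sbrad_const fun φ => h (p.1, φ) hp⟩
  · obtain ⟨S, κ, h⟩ := hV.const
    exact ⟨S, κ, fun p hp => sbrad_const fun φ => h (p.1, φ) hp⟩

theorem Adm.ang {V : ℝ × ℝ → ℝ} (hV : Adm V) : Adm (ang V) := hV.lc hV.rad 1 (-1)

theorem dx_rad {V : ℝ × ℝ → ℝ} (hV : Adm V) (p : ℝ × ℝ) : dx (rad V) p = r0 (dx V) p.1 :=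
  (hV.rad.hasDerivAt_fst p.1 p.2).unique (hV.hasDerivAt_r0 p.1)

theorem dy_rad {V : ℝ × ℝ → ℝ} (hV : Adm V) (p : ℝ × ℝ) : dy (rad V) p = 0 :=
  (hV.rad.hasDerivAt_snd p.1 p.2).unique (hasDerivAt_const p.2 (r0 V p.1))

theorem r0_lc {U V : ℝ × ℝ → ℝ} (hU : Continuous U) (hV : Continuous V) (a b s : ℝ) :
    r0 (lc a U b V) s = a * r0 U s + b * r0 V s := by
  have h1 : IntervalIntegrable (fun φ : ℝ => a * U (s, φ)) volume 0 π :=
    ((sbrad_slice hU s).const_mul a).intervalIntegrable _ _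
  have h2 : IntervalIntegrable (fun φ : ℝ => b * V (s, φ)) volume 0 π :=
    ((sbrad_slice hV s).const_mul b).intervalIntegrable _ _
  simp only [r0, lc]
  rw [intervalIntegral.integral_add h1 h2, intervalIntegral.integral_const_mul,
    intervalIntegral.integral_const_mul]
  ring

theorem lc_rad_ang (V : ℝ × ℝ → ℝ) : lc 1 (rad V) 1 (ang V) = V := by
  funext p
  simp only [lc, ang]
  ring

theorem sbrad_mean {V : ℝ × ℝ → ℝ} {s : ℝ} (h : r0 V s = 0) : mean V s = 0 := by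
  have h1 : mean V s / π = 0 := h
  exact (div_eq_zero_iff.1 h1).resolve_right pi_pos.ne'

theorem mean_ang {V : ℝ × ℝ → ℝ} (hV : Adm V) (s : ℝ) :
    mean (ang V) s = 0 ∧ mean (dx (ang V)) s = 0 := by
  constructor
  · refine sbrad_mean ?_
    rw [ang, r0_lc hV.cont hV.rad.cont, sbrad_const (V := rad V) (κ := r0 V s) fun _ => rfl]
    ring
  · refine sbrad_mean ?_
    have e : dx (ang V) = lc 1 (dx V) (-1) (dx (rad V)) := funext fun p => dx_lc hV hV.rad 1 (-1) p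
    rw [e, r0_lc hV.cont_dx hV.rad.cont_dx,
      sbrad_const (V := dx (rad V)) (κ := r0 (dx V) s) fun φ => dx_rad hV (s, φ)]
    ring

theorem ang_zero {V : ℝ × ℝ → ℝ} (hV : Adm V) :
    ∃ S : ℝ, ∀ p : ℝ × ℝ, S ≤ p.1 → ang V p = 0 := by
  obtain ⟨S, κ, h⟩ := hV.const
  refine ⟨S, fun p hp => ?_⟩
  have e : r0 V p.1 = κ := sbrad_const fun φ => h (p.1, φ) hp
  simp only [ang, lc, rad, e, h p hp]
  ring

theorem r0_bdd {V : ℝ × ℝ → ℝ} (hV : Adm V) : ∃ M : ℝ, ∀ s, |r0 V s| ≤ M := by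
  obtain ⟨η, h0, h1⟩ := hV.zero
  obtain ⟨S, κ, h2⟩ := hV.const
  obtain ⟨C, hC⟩ := (isCompact_Icc (a := η) (b := S)).exists_bound_of_continuousOn
    hV.cont_r0.1.continuousOn
  refine ⟨max C |κ|, fun s => ?_⟩
  rcases le_total s η with a | a
  · rw [sbrad_const (κ := 0) fun φ => h1 (s, φ) a, abs_zero]
    exact le_max_of_le_right (abs_nonneg κ)
  · rcases le_total s S with b | b
    · exact le_max_of_le_left (hC s ⟨a, b⟩)
    · rw [sbrad_const (κ := κ) fun φ => h2 (s, φ) b]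
      exact le_max_right _ _

end Pool.Agent.PSF
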