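import Pool.Agent.P.MP_7b7370_an.SBHardy
import Pool.Agent.P.MP_7b7370_an.SBRad

set_option autoImplicit false

namespace Pool.Agent.PSF

open Real Set MeasureTheory

lemma sbhw_cont {W : ℝ × ℝ → ℝ} (hW : Continuous W) {η : ℝ} (hη : 0 < η)
    (h0 : ∀ p : ℝ × ℝ, p.1 ≤ η → W p = 0) {g : ℝ → ℝ} (hg : ∀ s, 0 < s → ContinuousAt g s) :
    Continuous fun p : ℝ × ℝ => g p.1 * W p := by
  rw [continuous_iff_continuousAt]
  intro p
  rcases lt_or_ge 0 p.1 with h | h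
  · exact (ContinuousAt.comp (f := Prod.fst) (hg _ h) continuousAt_fst).mul hW.continuousAt
  · have h1 : (fun q : ℝ × ℝ => g q.1 * W q) =ᶠ[nhds p] fun _ => 0 := by
      have h2 : {q : ℝ × ℝ | q.1 < η} ∈ nhds p :=
        (isOpen_lt continuous_fst continuous_const).mem_nhds (lt_of_le_of_lt h hη)
      filter_upwards [h2] with q hq
      rw [h0 q (le_of_lt hq), mul_zero]
    exact continuousAt_const.congr h1.symm

lemma sbhw_Ioi {F : ℝ → ℝ} {η S : ℝ} (hη : 0 < η) (hS : η ≤ S) (h0 : ∀ s, s ≤ η → F s = 0)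
    (h1 : ∀ s, S ≤ s → F s = 0) : ∫ s in Ioi (0 : ℝ), F s = ∫ s in η..S, F s := by
  rw [intervalIntegral.integral_of_le hS]
  refine setIntegral_eq_of_subset_of_forall_sdiff_eq_zero measurableSet_Ioi
    (fun x hx => lt_trans hη hx.1) fun x hx => ?_
  rcases le_or_gt x η with h | h
  · exact h0 x h
  · refine h1 x ?_
    by_contra hc
    exact hx.2 ⟨h, (not_le.1 hc).le⟩

lemma sbhw_supp {V : ℝ × ℝ → ℝ} (hV : Adm V) : ∃ η S : ℝ, 0 < η ∧ η < S ∧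
    (∀ p : ℝ × ℝ, p.1 ≤ η → ang V p = 0 ∧ dx (ang V) p = 0) ∧
    (∀ p : ℝ × ℝ, S ≤ p.1 → ang V p = 0 ∧ dx (ang V) p = 0) := by
  obtain ⟨η, S, κ, hη, hS, h0, h1⟩ := hV.ang.supp
  obtain ⟨S', h2⟩ := ang_zero hV
  refine ⟨η, max S S', hη, lt_of_lt_of_le hS (le_max_left _ _),
    fun p hp => ⟨(h0 p hp).1, (h0 p hp).2.1⟩, fun p hp => ⟨h2 p ((le_max_right _ _).trans hp),
      (h1 p ((le_max_left _ _).trans hp)).2.1⟩⟩

lemma sbhw_rho (ν m : ℝ) {s : ℝ} (hs : 0 < s) : ContinuousAt (rho ν m) s := by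
  have h : s ≠ 0 := hs.ne'
  have h2 : s ^ 2 ≠ 0 := pow_ne_zero 2 h
  unfold rho
  exact (continuousAt_const.div (continuousAt_id.pow 2) h2).add
    (continuousAt_const.div continuousAt_id h)

lemma sbhw_int {V : ℝ × ℝ → ℝ} (hV : Adm V) {g : ℝ → ℝ} (hg : ∀ s, 0 < s → ContinuousAt g s) :
    IntegrableOn (fun p : ℝ × ℝ => g p.1 * ang V p ^ 2) Pi0 := by
  obtain ⟨η, S, hη, -, h0, h1⟩ := sbhw_supp hV
  refine flam_int (sbhw_cont (hV.ang.cont.pow 2) hη (fun p hp => ?_) hg) (S := S) fun p hp => ?_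
  · simp [(h0 p hp).1]
  · simp [(h1 p hp.le).1]

theorem int_rho {V : ℝ × ℝ → ℝ} (hV : Adm V) (ν m : ℝ) :
    IntegrableOn (fun p : ℝ × ℝ => rho ν m p.1 * ang V p ^ 2) Pi0 :=
  sbhw_int hV fun _ hs => sbhw_rho ν m hs

lemma sbhw_E1 (V : ℝ × ℝ → ℝ) : E1 V V = ∫ p in Pi0, dx V p ^ 2 := by
  simp only [E1, sq]

lemma sbhw_E2 (V : ℝ × ℝ → ℝ) : E2 V V = ∫ p in Pi0, dy V p ^ 2 := by
  simp only [E2, sq]

lemma sbhw_hardy {V : ℝ × ℝ → ℝ} (hV : Adm V) (ν m : ℝ) :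
    ∫ p in Pi0, (rho ν m p.1 - m ^ 2) * ang V p ^ 2 ≤ E1 (ang V) (ang V) := by
  obtain ⟨η, S, hη, hS, h0, h1⟩ := sbhw_supp hV
  have hA := hV.ang
  have i1 : IntegrableOn (fun p : ℝ × ℝ => (rho ν m p.1 - m ^ 2) * ang V p ^ 2) Pi0 :=
    sbhw_int hV (g := fun s => rho ν m s - m ^ 2) fun s hs =>
      (sbhw_rho ν m hs).sub continuousAt_const
  obtain ⟨j1, e1⟩ := integral_Pi0' i1
  obtain ⟨j2, e2⟩ := integral_Pi0' hA.int_dx
  rw [sbhw_E1, e1, e2]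
  refine setIntegral_mono_on j1 j2 measurableSet_Ioo fun φ _ => ?_
  have h := hardy1 (y := fun σ => ang V (σ, φ)) (y' := fun σ => dx (ang V) (σ, φ))
    (fun s => hA.hasDerivAt_fst s φ) (hA.cont_dx.comp (Continuous.prodMk_left φ)) ν m hη hS.le
    (h0 (η, φ) le_rfl).1
  have z : ang V (S, φ) = 0 := (h1 (S, φ) le_rfl).1
  rw [sbhw_Ioi (F := fun s => (rho ν m s - m ^ 2) * ang V (s, φ) ^ 2) hη hS.le
      (fun s hs => by simp [(h0 (s, φ) hs).1]) (fun s hs => by simp [(h1 (s, φ) hs).1]),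
    sbhw_Ioi (F := fun s => dx (ang V) (s, φ) ^ 2) hη hS.le
      (fun s hs => by simp [(h0 (s, φ) hs).2]) (fun s hs => by simp [(h1 (s, φ) hs).2])]
  simp only [z] at h
  simp only [rho]
  linarith

lemma sbhw_wirt {V : ℝ × ℝ → ℝ} (hV : Adm V) :
    ∫ p in Pi0, 1 * ang V p ^ 2 ≤ E2 (ang V) (ang V) := by
  have hA := hV.ang
  have i1 : IntegrableOn (fun p : ℝ × ℝ => 1 * ang V p ^ 2) Pi0 :=
    sbhw_int hV (g := fun _ => 1) fun s _ => continuousAt_const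
  obtain ⟨j1, e1⟩ := integral_Pi0 i1
  obtain ⟨j2, e2⟩ := integral_Pi0 hA.int_dy
  rw [sbhw_E2, e1, e2]
  refine setIntegral_mono_on j1 j2 measurableSet_Ioi fun s _ => ?_
  have h := wirt (f := fun ψ => ang V (s, ψ)) (f' := fun ψ => dy (ang V) (s, ψ))
    (fun φ => hA.hasDerivAt_snd s φ) (hA.cont_dy.comp (Continuous.prodMk_right s))
    (mean_ang hV s).1
  simp only [mean, one_mul]
  exact h

theorem hardy_wirt {V : ℝ × ℝ → ℝ} (hV : Adm V) (ν : ℝ) {m n : ℝ} (hm : 0 ≤ m) (hn : m ≤ n) :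
    ∫ p in Pi0, rho ν m p.1 * ang V p ^ 2 ≤ Db n (ang V) (ang V) := by
  have i1 : IntegrableOn (fun p : ℝ × ℝ => (rho ν m p.1 - m ^ 2) * ang V p ^ 2) Pi0 :=
    sbhw_int hV (g := fun s => rho ν m s - m ^ 2) fun s hs =>
      (sbhw_rho ν m hs).sub continuousAt_const
  have i2 : IntegrableOn (fun p : ℝ × ℝ => 1 * ang V p ^ 2) Pi0 :=
    sbhw_int hV (g := fun _ => 1) fun s _ => continuousAt_const
  have e : ∫ p in Pi0, rho ν m p.1 * ang V p ^ 2 =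
      (∫ p in Pi0, (rho ν m p.1 - m ^ 2) * ang V p ^ 2) +
        m ^ 2 * ∫ p in Pi0, 1 * ang V p ^ 2 := by
    rw [← integral_const_mul, ← integral_add i1 (i2.const_mul _)]
    refine integral_congr_ae (Filter.Eventually.of_forall fun p => ?_)
    ring
  have h1 := sbhw_hardy hV ν m
  have h2 := sbhw_wirt hV
  have h3 := E2_nonneg (ang V)
  have h4 : m ^ 2 ≤ n ^ 2 := pow_le_pow_left₀ hm hn 2
  have h5 := mul_le_mul_of_nonneg_left h2 (sq_nonneg m)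
  have h6 := mul_le_mul_of_nonneg_right h4 h3
  rw [e, Db]
  linarith

lemma sbhw_inv {c : ℝ} (hc : 0 < c) :
    IntegrableOn (fun s : ℝ => 1 / s ^ 2) (Ioi c) ∧ ∫ s in Ioi c, 1 / s ^ 2 = 1 / c := by
  have e : EqOn (fun s : ℝ => s ^ (-2 : ℝ)) (fun s : ℝ => 1 / s ^ 2) (Ioi c) := by
    intro s hs
    have h : 0 < s := hc.trans hs
    simp only
    rw [rpow_neg h.le, one_div, rpow_two]
  refine ⟨(integrableOn_Ioi_rpow_of_lt (a := -2) (by norm_num) hc).congr_fun e measurableSet_Ioi,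
    ?_⟩
  rw [← setIntegral_congr_fun measurableSet_Ioi e, integral_Ioi_rpow_of_lt (by norm_num) hc]
  have h : (-2 : ℝ) + 1 = -1 := by norm_num
  rw [h, rpow_neg_one]
  ring

theorem hardy_crude {V : ℝ × ℝ → ℝ} (hV : Adm V) :
    IntegrableOn (fun p : ℝ × ℝ => V p ^ 2 / p.1 ^ 2) Pi0 ∧
      ∫ p in Pi0, V p ^ 2 / p.1 ^ 2 ≤ 4 * E1 V V := by
  obtain ⟨η, S, κ, hη, hS, h0, h1⟩ := hV.supp
  obtain ⟨M, hM⟩ := hV.bdd
  have hS0 : 0 < S := hη.trans hS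
  have hc : Continuous fun p : ℝ × ℝ => V p ^ 2 / p.1 ^ 2 := by
    have h := sbhw_cont (hV.cont.pow 2) hη (fun p hp => by simp [(h0 p hp).1])
      (g := fun s => 1 / s ^ 2) fun s hs =>
        continuousAt_const.div (continuousAt_id.pow 2) (pow_ne_zero 2 hs.ne')
    refine h.congr fun p => ?_
    simp only [Pi.pow_apply]
    ring
  have i1 : IntegrableOn (fun p : ℝ × ℝ => V p ^ 2 / p.1 ^ 2) Pi0 := by
    have b1 : IntegrableOn ((Ioi η).indicator fun s : ℝ => M ^ 2 * (1 / s ^ 2)) (Ioi 0) :=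
      ((integrable_indicator_iff measurableSet_Ioi).2
        ((sbhw_inv hη).1.const_mul (M ^ 2))).integrableOn
    refine Integrable.mono' (integral_fst b1).1 hc.aestronglyMeasurable ?_
    filter_upwards [ae_restrict_mem measurableSet_Pi0] with p hp
    rw [norm_of_nonneg (by positivity)]
    rcases le_or_gt p.1 η with h | h
    · have hn : p.1 ∉ Ioi η := fun hh => absurd h (not_le.2 hh)
      rw [indicator_of_notMem hn, (h0 p h).1]
      simp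
    · rw [indicator_of_mem (mem_Ioi.2 h), mul_one_div]
      refine div_le_div_of_nonneg_right ?_ (sq_nonneg _)
      rw [← sq_abs (V p)]
      exact pow_le_pow_left₀ (abs_nonneg _) (hM p hp) 2
  refine ⟨i1, ?_⟩
  obtain ⟨j1, e1⟩ := integral_Pi0' i1
  obtain ⟨j2, e2⟩ := integral_Pi0' hV.int_dx
  rw [sbhw_E1, e1, e2, ← integral_const_mul]
  refine setIntegral_mono_on j1 (j2.const_mul 4) measurableSet_Ioo fun φ _ => ?_
  have h := hardy1 (y := fun σ => V (σ, φ)) (y' := fun σ => dx V (σ, φ))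
    (fun s => hV.hasDerivAt_fst s φ) (hV.cont_dx.comp (Continuous.prodMk_left φ)) (1 / 2) 0 hη
    hS.le (h0 (η, φ) le_rfl).1
  have z : V (S, φ) = κ := (h1 (S, φ) le_rfl).1
  have hc1 : Continuous fun s : ℝ => V (s, φ) ^ 2 / s ^ 2 := hc.comp (Continuous.prodMk_left φ)
  have e3 : EqOn (fun s : ℝ => κ ^ 2 * (1 / s ^ 2)) (fun s : ℝ => V (s, φ) ^ 2 / s ^ 2) (Ioi S) := by
    intro s hs
    simp only
    rw [(h1 (s, φ) (le_of_lt hs)).1]
    ring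
  have i3 : IntegrableOn (fun s : ℝ => V (s, φ) ^ 2 / s ^ 2) (Ioi S) :=
    IntegrableOn.congr_fun ((sbhw_inv hS0).1.const_mul (κ ^ 2)) e3 measurableSet_Ioi
  have e4 : ∫ s in Ioi S, V (s, φ) ^ 2 / s ^ 2 = κ ^ 2 * (1 / S) := by
    rw [← setIntegral_congr_fun measurableSet_Ioi e3, integral_const_mul, (sbhw_inv hS0).2]
  have e5 : ∫ s in Ioi (0 : ℝ), V (s, φ) ^ 2 / s ^ 2 = ∫ s in Ioi η, V (s, φ) ^ 2 / s ^ 2 := by
    refine setIntegral_eq_of_subset_of_forall_sdiff_eq_zero measurableSet_Ioi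
      (Ioi_subset_Ioi hη.le) fun x hx => ?_
    have hx2 : x ≤ η := not_lt.1 hx.2
    simp [(h0 (x, φ) hx2).1]
  have e6 := intervalIntegral.integral_interval_add_Ioi' (hc1.intervalIntegrable η S) i3
  have e7 : ∫ s in η..S, (1 / 2 * (1 - 1 / 2) / s ^ 2 + 2 * (1 / 2) * 0 / s - 0 ^ 2) * V (s, φ) ^ 2 =
      1 / 4 * ∫ s in η..S, V (s, φ) ^ 2 / s ^ 2 := by
    rw [← intervalIntegral.integral_const_mul]
    refine intervalIntegral.integral_congr fun s _ => ?_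
    ring
  have e8 := sbhw_Ioi (F := fun s => dx V (s, φ) ^ 2) hη hS.le
    (fun s hs => by simp [(h0 (s, φ) hs).2.1]) (fun s hs => by simp [(h1 (s, φ) hs).2.1])
  have e9 : (1 / 2 / S - 0) * κ ^ 2 = 1 / 2 * (κ ^ 2 * (1 / S)) := by ring
  have e10 : 0 ≤ κ ^ 2 * (1 / S) := by positivity
  simp only [z] at h
  rw [e7, e9] at h
  simp only
  rw [e5, ← e6, e4, e8]
  linarith

end Pool.Agent.PSF
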