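import Pool.Agent.P.MP_7b7370_an.SBDefs

set_option autoImplicit false

namespace Pool.Agent.PSF

open Real Set MeasureTheory

theorem sbhardy_cont {y y' : ℝ → ℝ} (hy : ∀ s, HasDerivAt y (y' s) s) : Continuous y :=
  continuous_iff_continuousAt.2 fun s => (hy s).continuousAt

theorem sbhardy_ric {y y' F F' : ℝ → ℝ} (hy : ∀ s, HasDerivAt y (y' s) s) (hc : Continuous y')
    {a b : ℝ} (hab : a ≤ b) (hF : ∀ s ∈ Icc a b, HasDerivAt F (F' s) s)
    (hF' : ContinuousOn F' (Icc a b)) :
    (F b * y b ^ 2 - F a * y a ^ 2) + ∫ s in a..b, (-(F' s + F s ^ 2)) * y s ^ 2 ≤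
      ∫ s in a..b, y' s ^ 2 := by
  have hyc : Continuous y := sbhardy_cont hy
  have hFc : ContinuousOn F (Icc a b) := fun s hs => (hF s hs).continuousAt.continuousWithinAt
  have hu : uIcc a b = Icc a b := uIcc_of_le hab
  have hG : ContinuousOn (fun s => F' s * y s ^ 2 + F s * (2 * y s * y' s)) (Icc a b) :=
    (hF'.mul (hyc.pow 2).continuousOn).add
      (hFc.mul ((continuous_const.mul hyc).mul hc).continuousOn)
  have hH : ContinuousOn (fun s => (-(F' s + F s ^ 2)) * y s ^ 2) (Icc a b) :=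
    ((hF'.add (hFc.pow 2)).neg).mul (hyc.pow 2).continuousOn
  have hGi : IntervalIntegrable (fun s => F' s * y s ^ 2 + F s * (2 * y s * y' s)) volume a b :=
    (hu ▸ hG).intervalIntegrable
  have hHi : IntervalIntegrable (fun s => (-(F' s + F s ^ 2)) * y s ^ 2) volume a b :=
    (hu ▸ hH).intervalIntegrable
  have hftc : ∫ s in a..b, (F' s * y s ^ 2 + F s * (2 * y s * y' s)) =
      F b * y b ^ 2 - F a * y a ^ 2 := by
    refine intervalIntegral.integral_eq_sub_of_hasDerivAt (f := fun s => F s * y s ^ 2) ?_ hGi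
    intro s hs
    rw [hu] at hs
    have h2 : HasDerivAt (fun s => y s ^ 2) (2 * y s * y' s) s := by
      have h := (hy s).mul (hy s)
      have e : (fun s => y s ^ 2) = y * y := by
        funext r
        simp [sq]
      rw [e]
      exact h.congr_deriv (by ring)
    exact (hF s hs).mul h2
  rw [← hftc, ← intervalIntegral.integral_add hGi hHi]
  refine intervalIntegral.integral_mono_on hab (hGi.add hHi)
    ((hc.pow 2).intervalIntegrable a b) ?_
  intro s _
  nlinarith [sq_nonneg (y' s - F s * y s)]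

theorem sq_sub_le {y y' : ℝ → ℝ} (hy : ∀ s, HasDerivAt y (y' s) s) (hc : Continuous y')
    {a b : ℝ} (hab : a ≤ b) : (y b - y a) ^ 2 ≤ (b - a) * ∫ s in a..b, y' s ^ 2 := by
  rcases hab.eq_or_lt with h | h
  · subst h
    simp
  have hd : 0 < b - a := sub_pos.2 h
  have hftc : ∫ s in a..b, y' s = y b - y a :=
    intervalIntegral.integral_eq_sub_of_hasDerivAt (fun s _ => hy s) (hc.intervalIntegrable a b)
  have key : ∀ c : ℝ, 2 * c * (y b - y a) - c ^ 2 * (b - a) ≤ ∫ s in a..b, y' s ^ 2 := by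
    intro c
    have h1 : ∫ s in a..b, (2 * c * y' s - c ^ 2) = 2 * c * (y b - y a) - c ^ 2 * (b - a) := by
      have k1 : Continuous fun s => 2 * c * y' s := continuous_const.mul hc
      rw [intervalIntegral.integral_sub (k1.intervalIntegrable a b)
        (continuous_const.intervalIntegrable a b), intervalIntegral.integral_const_mul, hftc,
        intervalIntegral.integral_const, smul_eq_mul]
      ring
    rw [← h1]
    refine intervalIntegral.integral_mono_on hab
      (((continuous_const.mul hc).sub continuous_const).intervalIntegrable a b)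
      ((hc.pow 2).intervalIntegrable a b) ?_
    intro s _
    nlinarith [sq_nonneg (y' s - c)]
  have h2 := key ((y b - y a) / (b - a))
  have h3 : 2 * ((y b - y a) / (b - a)) * (y b - y a) - ((y b - y a) / (b - a)) ^ 2 * (b - a) =
      (y b - y a) ^ 2 / (b - a) := by
    field_simp
    ring
  rw [h3, div_le_iff₀ hd] at h2
  linarith [mul_comm (b - a) (∫ s in a..b, y' s ^ 2)]

theorem hardy1 {y y' : ℝ → ℝ} (hy : ∀ s, HasDerivAt y (y' s) s) (hc : Continuous y')
    {η S : ℝ} (ν b : ℝ) (hη : 0 < η) (hS : η ≤ S) (h0 : y η = 0) :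
    (ν / S - b) * y S ^ 2 +
        ∫ s in η..S, (ν * (1 - ν) / s ^ 2 + 2 * ν * b / s - b ^ 2) * y s ^ 2 ≤
      ∫ s in η..S, y' s ^ 2 := by
  have hF : ∀ s ∈ Icc η S, HasDerivAt (fun s : ℝ => ν / s - b) (-ν / s ^ 2) s := by
    intro s hs
    have hs0 : s ≠ 0 := (lt_of_lt_of_le hη hs.1).ne'
    have h1 := ((hasDerivAt_inv hs0).const_mul ν).sub_const b
    have e : (fun s : ℝ => ν / s - b) = fun s : ℝ => ν * s⁻¹ - b := by
      funext r
      rw [div_eq_mul_inv]
    rw [e]
    exact h1.congr_deriv (by field_simp)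
  have hF' : ContinuousOn (fun s : ℝ => -ν / s ^ 2) (Icc η S) :=
    continuousOn_const.div (continuousOn_id.pow 2)
      fun s hs => pow_ne_zero 2 (lt_of_lt_of_le hη hs.1).ne'
  have h := sbhardy_ric hy hc hS hF hF'
  have e2 : ∫ s in η..S, (ν * (1 - ν) / s ^ 2 + 2 * ν * b / s - b ^ 2) * y s ^ 2 =
      ∫ s in η..S, (-(-ν / s ^ 2 + (ν / s - b) ^ 2)) * y s ^ 2 := by
    refine intervalIntegral.integral_congr ?_
    intro s hs
    rw [uIcc_of_le hS] at hs
    have hs0 : s ≠ 0 := (lt_of_lt_of_le hη hs.1).ne'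
    have : ν * (1 - ν) / s ^ 2 + 2 * ν * b / s - b ^ 2 = -(-ν / s ^ 2 + (ν / s - b) ^ 2) := by
      field_simp
      ring
    simp only [this]
  rw [e2]
  rw [h0] at h
  simpa using h

theorem sbhardy_k {f f' : ℝ → ℝ} (hf : ∀ s, HasDerivAt f (f' s) s) (hc : Continuous f')
    (h0 : f (π / 2) = 0) {k : ℝ} (hk0 : 0 ≤ k) (hk1 : k < 1) :
    k ^ 2 * ∫ φ in (0 : ℝ)..π / 2, f φ ^ 2 ≤ ∫ φ in (0 : ℝ)..π / 2, f' φ ^ 2 := by
  have hp : 0 < π / 2 := by positivity
  have hcos : ∀ s ∈ Icc (0 : ℝ) (π / 2), cos (k * s) ≠ 0 := by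
    intro s hs
    refine (cos_pos_of_mem_Ioo ⟨?_, ?_⟩).ne'
    · have : 0 ≤ k * s := mul_nonneg hk0 hs.1
      linarith
    · have : k * s ≤ k * (π / 2) := mul_le_mul_of_nonneg_left hs.2 hk0
      nlinarith
  have hF : ∀ s ∈ Icc (0 : ℝ) (π / 2),
      HasDerivAt (fun s : ℝ => -k * tan (k * s)) (-k * (1 / cos (k * s) ^ 2 * k)) s := by
    intro s hs
    have h1 : HasDerivAt (fun s : ℝ => k * s) k s := by
      simpa using (hasDerivAt_id s).const_mul k
    exact ((hasDerivAt_tan (hcos s hs)).comp s h1).const_mul (-k)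
  have hF' : ContinuousOn (fun s : ℝ => -k * (1 / cos (k * s) ^ 2 * k)) (Icc (0 : ℝ) (π / 2)) := by
    refine continuousOn_const.mul (ContinuousOn.mul (continuousOn_const.div ?_ ?_)
      continuousOn_const)
    · exact ((continuous_cos.comp (continuous_const.mul continuous_id)).pow 2).continuousOn
    · exact fun s hs => pow_ne_zero 2 (hcos s hs)
  have h := sbhardy_ric hf hc hp.le hF hF'
  have e2 : ∫ s in (0 : ℝ)..π / 2,
      (-(-k * (1 / cos (k * s) ^ 2 * k) + (-k * tan (k * s)) ^ 2)) * f s ^ 2 =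
      ∫ s in (0 : ℝ)..π / 2, k ^ 2 * f s ^ 2 := by
    refine intervalIntegral.integral_congr ?_
    intro s hs
    rw [uIcc_of_le hp.le] at hs
    have hc0 := hcos s hs
    have : -(-k * (1 / cos (k * s) ^ 2 * k) + (-k * tan (k * s)) ^ 2) = k ^ 2 := by
      rw [tan_eq_sin_div_cos]
      field_simp
      linear_combination (-k ^ 2) * sin_sq_add_cos_sq (k * s)
    simp only [this]
  rw [e2, intervalIntegral.integral_const_mul, h0] at h
  simpa using h

theorem wirt_half {f f' : ℝ → ℝ} (hf : ∀ s, HasDerivAt f (f' s) s) (hc : Continuous f')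
    (h0 : f (π / 2) = 0) : ∫ φ in (0 : ℝ)..π / 2, f φ ^ 2 ≤ ∫ φ in (0 : ℝ)..π / 2, f' φ ^ 2 := by
  set A := ∫ φ in (0 : ℝ)..π / 2, f φ ^ 2 with hA
  set B := ∫ φ in (0 : ℝ)..π / 2, f' φ ^ 2 with hB
  have hcl : IsClosed {k : ℝ | k ^ 2 * A ≤ B} :=
    isClosed_le ((continuous_id.pow 2).mul continuous_const) continuous_const
  have hsub : Ico (0 : ℝ) 1 ⊆ {k : ℝ | k ^ 2 * A ≤ B} :=
    fun k hk => sbhardy_k hf hc h0 hk.1 hk.2
  have h1 : (1 : ℝ) ∈ closure (Ico (0 : ℝ) 1) := by
    rw [closure_Ico zero_ne_one]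
    exact ⟨zero_le_one, le_rfl⟩
  have h2 := closure_minimal hsub hcl h1
  simpa using h2

theorem wirt {f f' : ℝ → ℝ} (hf : ∀ s, HasDerivAt f (f' s) s) (hc : Continuous f')
    (h0 : ∫ φ in (0 : ℝ)..π, f φ = 0) :
    ∫ φ in (0 : ℝ)..π, f φ ^ 2 ≤ ∫ φ in (0 : ℝ)..π, f' φ ^ 2 := by
  have hfc : Continuous f := sbhardy_cont hf
  set c := f (π / 2) with hcdef
  have h1 := wirt_half (f := fun s => f s - c) (f' := f') (fun s => (hf s).sub_const c) hc
    (by simp [hcdef])
  have hr : ∀ s, HasDerivAt (fun s => f (π - s) - c) (-f' (π - s)) s := by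
    intro s
    have h := ((hf (π - s)).comp s ((hasDerivAt_id s).const_sub π)).sub_const c
    exact h.congr_deriv (by ring)
  have h2 := wirt_half (f := fun s => f (π - s) - c) (f' := fun s => -f' (π - s)) hr
    ((hc.comp (continuous_const.sub continuous_id)).neg)
    (by
      have : π - π / 2 = π / 2 := by ring
      simp [this, hcdef])
  have e1 : ∫ φ in (0 : ℝ)..π / 2, (f (π - φ) - c) ^ 2 = ∫ φ in π / 2..π, (f φ - c) ^ 2 := by
    have h := intervalIntegral.integral_comp_sub_left (fun φ => (f φ - c) ^ 2)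
      (a := 0) (b := π / 2) π
    have : π - π / 2 = π / 2 := by ring
    rw [this, sub_zero] at h
    exact h
  have e2 : ∫ φ in (0 : ℝ)..π / 2, (-f' (π - φ)) ^ 2 = ∫ φ in π / 2..π, f' φ ^ 2 := by
    have h := intervalIntegral.integral_comp_sub_left (fun φ => f' φ ^ 2)
      (a := 0) (b := π / 2) π
    have : π - π / 2 = π / 2 := by ring
    rw [this, sub_zero] at h
    rw [← h]
    simp only [neg_sq]
  rw [e1, e2] at h2
  have hg : Continuous fun φ => (f φ - c) ^ 2 := (hfc.sub continuous_const).pow 2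
  have a1 := intervalIntegral.integral_add_adjacent_intervals
    (hg.intervalIntegrable (μ := volume) 0 (π / 2)) (hg.intervalIntegrable (π / 2) π)
  have hg2 : Continuous fun φ => f' φ ^ 2 := hc.pow 2
  have a2 := intervalIntegral.integral_add_adjacent_intervals
    (hg2.intervalIntegrable (μ := volume) 0 (π / 2)) (hg2.intervalIntegrable (π / 2) π)
  have e3 : ∫ φ in (0 : ℝ)..π, (f φ - c) ^ 2 =
      (∫ φ in (0 : ℝ)..π, f φ ^ 2) - 2 * c * (∫ φ in (0 : ℝ)..π, f φ) + c ^ 2 * π := by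
    have e : (fun φ => (f φ - c) ^ 2) = fun φ => (f φ ^ 2 - 2 * c * f φ) + c ^ 2 := by
      funext φ
      ring
    have k1 : Continuous fun φ => f φ ^ 2 := hfc.pow 2
    have k2 : Continuous fun φ => 2 * c * f φ := continuous_const.mul hfc
    have k3 : Continuous fun φ => f φ ^ 2 - 2 * c * f φ := k1.sub k2
    rw [e, intervalIntegral.integral_add (k3.intervalIntegrable 0 π)
      (continuous_const.intervalIntegrable 0 π),
      intervalIntegral.integral_sub (k1.intervalIntegrable 0 π) (k2.intervalIntegrable 0 π),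
      intervalIntegral.integral_const_mul, intervalIntegral.integral_const, smul_eq_mul]
    ring
  rw [h0] at e3
  have hp : 0 ≤ c ^ 2 * π := mul_nonneg (sq_nonneg c) pi_pos.le
  linarith

end Pool.Agent.PSF
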