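import Pool.Agent.P.MP_7b7370_an.SBDefs

set_option autoImplicit false

namespace Pool.Agent.PSF

open Real Set MeasureTheory

theorem J1_mul {n t : ℝ} (ht : t ≠ 0) (f g : ℝ → ℝ) :
    J1 n t (fun ν => f ν * g ν) = J1 n t f * Jb n t g + Jb n t f * J1 n t g := by
  unfold J1 Jb
  field_simp
  ring

theorem J2_mul {n t : ℝ} (ht : t ≠ 0) (f g : ℝ → ℝ) :
    J2 n t (fun ν => f ν * g ν) = f n * J2 n t g + J2 n t f * Jb n t g + J1 n t f * J1 n t g := by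
  unfold J1 J2 Jb
  field_simp
  ring

theorem Jb_eq {n t : ℝ} (ht : t ≠ 0) (f : ℝ → ℝ) : Jb n t f = f n + t ^ 2 * J2 n t f := by
  unfold J2 Jb
  field_simp
  ring

theorem J1_lin (n t a b : ℝ) (f g : ℝ → ℝ) :
    J1 n t (fun ν => a * f ν + b * g ν) = a * J1 n t f + b * J1 n t g := by
  unfold J1
  ring

theorem J2_lin (n t a b : ℝ) (f g : ℝ → ℝ) :
    J2 n t (fun ν => a * f ν + b * g ν) = a * J2 n t f + b * J2 n t g := by
  unfold J2
  ring

theorem UJ.Jb_nonneg {n t A B C : ℝ} {f : ℝ → ℝ} (h : UJ n t f A B C) : 0 ≤ Jb n t f := by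
  unfold Jb
  linarith [h.pp, h.pm]

theorem UJ.Jb_le {n t A B C : ℝ} {f : ℝ → ℝ} (h : UJ n t f A B C) : Jb n t f ≤ A := by
  unfold Jb
  linarith [h.up, h.um]

theorem UJ.mono {n t A B C A' B' C' : ℝ} {f : ℝ → ℝ} (h : UJ n t f A B C) (hA : A ≤ A')
    (hB : B ≤ B') (hC : C ≤ C') : UJ n t f A' B' C' := by
  exact ⟨h.p0, h.pp, h.pm, h.u0.trans hA, h.up.trans hA, h.um.trans hA, h.p1, h.u1.trans hB, h.p2,
    h.u2.trans hC⟩

theorem UJ.mul {n t A B C A' B' C' : ℝ} {f g : ℝ → ℝ} (ht : 0 < t) (hf : UJ n t f A B C)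
    (hg : UJ n t g A' B' C') :
    UJ n t (fun ν => f ν * g ν) (A * A') (B * A' + A * B') (A * C' + C * A' + B * B') := by
  have hA := hf.p0.trans hf.u0
  have hB := hf.p1.trans hf.u1
  have hC := hf.p2.trans hf.u2
  refine ⟨mul_nonneg hf.p0 hg.p0, mul_nonneg hf.pp hg.pp, mul_nonneg hf.pm hg.pm,
    mul_le_mul hf.u0 hg.u0 hg.p0 hA, mul_le_mul hf.up hg.up hg.pp hA,
    mul_le_mul hf.um hg.um hg.pm hA, ?_, ?_, ?_, ?_⟩
  · rw [J1_mul ht.ne']
    exact add_nonneg (mul_nonneg hf.p1 hg.Jb_nonneg) (mul_nonneg hf.Jb_nonneg hg.p1)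
  · rw [J1_mul ht.ne']
    exact add_le_add (mul_le_mul hf.u1 hg.Jb_le hg.Jb_nonneg hB)
      (mul_le_mul hf.Jb_le hg.u1 hg.p1 hA)
  · rw [J2_mul ht.ne']
    exact add_nonneg (add_nonneg (mul_nonneg hf.p0 hg.p2) (mul_nonneg hf.p2 hg.Jb_nonneg))
      (mul_nonneg hf.p1 hg.p1)
  · rw [J2_mul ht.ne']
    exact add_le_add (add_le_add (mul_le_mul hf.u0 hg.u2 hg.p2 hA)
      (mul_le_mul hf.u2 hg.Jb_le hg.Jb_nonneg hC)) (mul_le_mul hf.u1 hg.u1 hg.p1 hB)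

theorem UJ.lin {n t A B C A' B' C' a b : ℝ} {f g : ℝ → ℝ} (ha : 0 ≤ a) (hb : 0 ≤ b)
    (hf : UJ n t f A B C) (hg : UJ n t g A' B' C') :
    UJ n t (fun ν => a * f ν + b * g ν) (a * A + b * A') (a * B + b * B') (a * C + b * C') := by
  have P : ∀ {x y : ℝ}, 0 ≤ x → 0 ≤ y → 0 ≤ a * x + b * y := fun hx hy =>
    add_nonneg (mul_nonneg ha hx) (mul_nonneg hb hy)
  have U : ∀ {x y X Y : ℝ}, x ≤ X → y ≤ Y → a * x + b * y ≤ a * X + b * Y := fun hx hy =>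
    add_le_add (mul_le_mul_of_nonneg_left hx ha) (mul_le_mul_of_nonneg_left hy hb)
  refine ⟨P hf.p0 hg.p0, P hf.pp hg.pp, P hf.pm hg.pm, U hf.u0 hg.u0, U hf.up hg.up,
    U hf.um hg.um, ?_, ?_, ?_, ?_⟩
  · rw [J1_lin]
    exact P hf.p1 hg.p1
  · rw [J1_lin]
    exact U hf.u1 hg.u1
  · rw [J2_lin]
    exact P hf.p2 hg.p2
  · rw [J2_lin]
    exact U hf.u2 hg.u2

theorem UJ_const (n t : ℝ) {c : ℝ} (hc : 0 ≤ c) : UJ n t (fun _ => c) c 0 0 := by
  have h1 : J1 n t (fun _ => c) = 0 := by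
    unfold J1
    ring
  have h2 : J2 n t (fun _ => c) = 0 := by
    unfold J2
    ring
  exact ⟨hc, hc, hc, le_rfl, le_rfl, le_rfl, h1.ge, h1.le, h2.ge, h2.le⟩

theorem sbjet_J1 {n t α β : ℝ} (ht : 0 < t) (ha : 0 < α + β * (n - t))
    (hc : 0 < α + β * (n + t)) : J1 n t (fun ν => 1 / (α + β * ν)) =
      β / ((α + β * (n + t)) * (α + β * (n - t))) := by
  unfold J1
  field_simp
  ring

theorem sbjet_J2 {n t α β : ℝ} (ht : 0 < t) (ha : 0 < α + β * (n - t)) (hb : 0 < α + β * n)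
    (hc : 0 < α + β * (n + t)) : J2 n t (fun ν => 1 / (α + β * ν)) =
      β ^ 2 / ((α + β * n) * ((α + β * (n + t)) * (α + β * (n - t)))) := by
  unfold J2
  field_simp
  ring

theorem UJ_inv {m n t α β : ℝ} (ht : 0 < t) (hm : m ≤ n - t) (hβ : 0 ≤ β) (hL : 0 < α + β * m) :
    UJ n t (fun ν => 1 / (α + β * ν)) (1 / (α + β * m)) (β / (α + β * m) ^ 2)
      (β ^ 2 / (α + β * m) ^ 3) := by
  have ha : α + β * m ≤ α + β * (n - t) := by nlinarith
  have hb : α + β * m ≤ α + β * n := by nlinarith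
  have hc : α + β * m ≤ α + β * (n + t) := by nlinarith
  have ha0 := hL.trans_le ha
  have hb0 := hL.trans_le hb
  have hc0 := hL.trans_le hc
  refine ⟨(one_div_pos.2 hb0).le, (one_div_pos.2 hc0).le, (one_div_pos.2 ha0).le,
    one_div_le_one_div_of_le hL hb, one_div_le_one_div_of_le hL hc,
    one_div_le_one_div_of_le hL ha, ?_, ?_, ?_, ?_⟩
  · rw [sbjet_J1 ht ha0 hc0]
    positivity
  · rw [sbjet_J1 ht ha0 hc0, sq]
    exact div_le_div_of_nonneg_left hβ (by positivity) (mul_le_mul hc ha hL.le hc0.le)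
  · rw [sbjet_J2 ht ha0 hb0 hc0]
    positivity
  · rw [sbjet_J2 ht ha0 hb0 hc0, pow_succ' _ 2, sq (α + β * m)]
    exact div_le_div_of_nonneg_left (sq_nonneg β) (by positivity)
      (mul_le_mul hb (mul_le_mul hc ha hL.le hc0.le) (by positivity) hb0.le)

theorem UJ_inv2 {m n t α β : ℝ} (ht : 0 < t) (hm : m ≤ n - t) (hβ : 0 ≤ β) (hL : 0 < α + β * m) :
    UJ n t (fun ν => 1 / (α + β * ν) ^ 2) (1 / (α + β * m) ^ 2) (2 * β / (α + β * m) ^ 3)
      (3 * β ^ 2 / (α + β * m) ^ 4) := by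
  have h := (UJ_inv ht hm hβ hL).mul ht (UJ_inv ht hm hβ hL)
  have e : (fun ν : ℝ => 1 / (α + β * ν) * (1 / (α + β * ν))) = fun ν => 1 / (α + β * ν) ^ 2 :=
    funext fun ν => by rw [div_mul_div_comm, one_mul, sq]
  rw [e] at h
  refine h.mono (le_of_eq ?_) (le_of_eq ?_) (le_of_eq ?_)
  all_goals
    field_simp
    try ring

theorem UJ_inv3 {m n t α β : ℝ} (ht : 0 < t) (hm : m ≤ n - t) (hβ : 0 ≤ β) (hL : 0 < α + β * m) :
    UJ n t (fun ν => 1 / (α + β * ν) ^ 3) (1 / (α + β * m) ^ 3) (3 * β / (α + β * m) ^ 4)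
      (6 * β ^ 2 / (α + β * m) ^ 5) := by
  have h := (UJ_inv2 ht hm hβ hL).mul ht (UJ_inv ht hm hβ hL)
  have e : (fun ν : ℝ => 1 / (α + β * ν) ^ 2 * (1 / (α + β * ν))) =
      fun ν => 1 / (α + β * ν) ^ 3 :=
    funext fun ν => by rw [div_mul_div_comm, one_mul, pow_succ _ 2]
  rw [e] at h
  refine h.mono (le_of_eq ?_) (le_of_eq ?_) (le_of_eq ?_)
  all_goals
    field_simp
    try ring

theorem UJ_exp {m n t c : ℝ} (ht : 0 < t) (hm : m ≤ n - t) (hc : 0 ≤ c) :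
    UJ n t (fun ν => exp (-(c * ν))) (exp (-(c * m))) (c * exp (-(c * m)))
      (c ^ 2 / 2 * exp (-(c * m))) := by
  have hle : ∀ ν, m ≤ ν → exp (-(c * ν)) ≤ exp (-(c * m)) := fun ν h =>
    exp_le_exp.2 (neg_le_neg (mul_le_mul_of_nonneg_left h hc))
  have hE := hle _ hm
  have hE0 := exp_pos (-(c * (n - t)))
  have e0 : exp (-(c * n)) = exp (-(c * (n - t))) * exp (-(c * t)) := by
    rw [← exp_add]
    ring_nf
  have e1 : exp (-(c * (n + t))) = exp (-(c * (n - t))) * exp (-(c * t)) ^ 2 := by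
    rw [sq, ← exp_add, ← exp_add]
    ring_nf
  have hq0 := exp_pos (-(c * t))
  have hq1 : exp (-(c * t)) ≤ 1 := exp_le_one_iff.2 (neg_nonpos.2 (mul_nonneg hc ht.le))
  have hq2 : 1 - exp (-(c * t)) ≤ c * t := by linarith [add_one_le_exp (-(c * t))]
  have h1 : J1 n t (fun ν => exp (-(c * ν))) =
      exp (-(c * (n - t))) * ((1 - exp (-(c * t))) / t * ((1 + exp (-(c * t))) / 2)) := by
    simp only [J1]
    rw [e1]
    generalize exp (-(c * (n - t))) = E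
    generalize exp (-(c * t)) = q
    field_simp
    ring
  have h2 : J2 n t (fun ν => exp (-(c * ν))) =
      exp (-(c * (n - t))) * (((1 - exp (-(c * t))) / t) ^ 2 / 2) := by
    simp only [J2]
    rw [e1, e0]
    generalize exp (-(c * (n - t))) = E
    generalize exp (-(c * t)) = q
    field_simp
    ring
  have hr0 : 0 ≤ (1 - exp (-(c * t))) / t := div_nonneg (sub_nonneg.2 hq1) ht.le
  have hr1 : (1 - exp (-(c * t))) / t ≤ c := (div_le_iff₀ ht).2 hq2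
  refine ⟨(exp_pos _).le, (exp_pos _).le, (exp_pos _).le, hle _ (by linarith),
    hle _ (by linarith), hE, ?_, ?_, ?_, ?_⟩
  · rw [h1]
    positivity
  · rw [h1, mul_comm c (exp _)]
    refine mul_le_mul hE ?_ (by positivity) (exp_pos _).le
    exact (mul_le_of_le_one_right hr0 (by linarith)).trans hr1
  · rw [h2]
    positivity
  · rw [h2, mul_comm (c ^ 2 / 2)]
    refine mul_le_mul hE ?_ (by positivity) (exp_pos _).le
    exact div_le_div_of_nonneg_right (pow_le_pow_left₀ hr0 hr1 2) zero_le_two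

theorem LJ.le_Jb {n t A B C : ℝ} {f : ℝ → ℝ} (ht : 0 < t) (h : LJ n t f A B C) :
    A ≤ Jb n t f := by
  rw [Jb_eq ht.ne']
  have := mul_nonneg (sq_nonneg t) (h.c0.trans h.l2)
  linarith [h.l0]

theorem LJ.mono {n t A B C A' B' C' : ℝ} {f : ℝ → ℝ} (h : LJ n t f A B C) (hA0 : 0 ≤ A')
    (hB0 : 0 ≤ B') (hC0 : 0 ≤ C') (hA : A' ≤ A) (hB : B' ≤ B) (hC : C' ≤ C) :
    LJ n t f A' B' C' := by
  exact ⟨hA0, hB0, hC0, hA.trans h.l0, hB.trans h.l1, hC.trans h.l2⟩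

theorem LJ.mul {n t A B C A' B' C' : ℝ} {f g : ℝ → ℝ} (ht : 0 < t) (hf : LJ n t f A B C)
    (hg : LJ n t g A' B' C') :
    LJ n t (fun ν => f ν * g ν) (A * A') (B * A' + A * B') (A * C' + C * A' + B * B') := by
  have h0 := hf.a0.trans hf.l0
  have h1 := hf.b0.trans hf.l1
  have h2 := hf.c0.trans hf.l2
  have hb := hf.a0.trans (hf.le_Jb ht)
  refine ⟨mul_nonneg hf.a0 hg.a0, add_nonneg (mul_nonneg hf.b0 hg.a0) (mul_nonneg hf.a0 hg.b0),
    add_nonneg (add_nonneg (mul_nonneg hf.a0 hg.c0) (mul_nonneg hf.c0 hg.a0))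
      (mul_nonneg hf.b0 hg.b0), mul_le_mul hf.l0 hg.l0 hg.a0 h0, ?_, ?_⟩
  · rw [J1_mul ht.ne']
    exact add_le_add (mul_le_mul hf.l1 (hg.le_Jb ht) hg.a0 h1)
      (mul_le_mul (hf.le_Jb ht) hg.l1 hg.b0 hb)
  · rw [J2_mul ht.ne']
    exact add_le_add (add_le_add (mul_le_mul hf.l0 hg.l2 hg.c0 h0)
      (mul_le_mul hf.l2 (hg.le_Jb ht) hg.a0 h2)) (mul_le_mul hf.l1 hg.l1 hg.b0 h1)

theorem LJ_inv {n t α β : ℝ} (ht : 0 < t) (hβ : 0 ≤ β) (hL : 0 < α + β * (n - t)) :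
    LJ n t (fun ν => 1 / (α + β * ν)) (1 / (α + β * n)) (β / (α + β * n) ^ 2)
      (β ^ 2 / (α + β * n) ^ 3) := by
  have hbt := mul_nonneg hβ ht.le
  have hb0 : 0 < α + β * n := by nlinarith
  have hc0 : 0 < α + β * (n + t) := by nlinarith
  have h : (α + β * (n + t)) * (α + β * (n - t)) ≤ (α + β * n) ^ 2 := by
    nlinarith [sq_nonneg (β * t)]
  refine ⟨by positivity, by positivity, by positivity, le_rfl, ?_, ?_⟩
  · rw [sbjet_J1 ht hL hc0]
    exact div_le_div_of_nonneg_left hβ (by positivity) h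
  · rw [sbjet_J2 ht hL hb0 hc0, pow_succ' _ 2]
    exact div_le_div_of_nonneg_left (sq_nonneg β) (by positivity)
      (mul_le_mul_of_nonneg_left h hb0.le)

theorem hasSum_Jb {n t : ℝ} {F : ℕ → ℝ → ℝ} {S : ℝ → ℝ}
    (hp : HasSum (fun k => F k (n + t)) (S (n + t)))
    (hm : HasSum (fun k => F k (n - t)) (S (n - t))) :
    HasSum (fun k => Jb n t (F k)) (Jb n t S) := by
  exact (hp.add hm).div_const 2

theorem hasSum_J1 {n t : ℝ} {F : ℕ → ℝ → ℝ} {S : ℝ → ℝ}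
    (hp : HasSum (fun k => F k (n + t)) (S (n + t)))
    (hm : HasSum (fun k => F k (n - t)) (S (n - t))) :
    HasSum (fun k => J1 n t (F k)) (J1 n t S) := by
  exact (hm.sub hp).div_const (2 * t)

theorem hasSum_J2 {n t : ℝ} {F : ℕ → ℝ → ℝ} {S : ℝ → ℝ} (h0 : HasSum (fun k => F k n) (S n))
    (hp : HasSum (fun k => F k (n + t)) (S (n + t)))
    (hm : HasSum (fun k => F k (n - t)) (S (n - t))) :
    HasSum (fun k => J2 n t (F k)) (J2 n t S) := by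
  exact ((hp.add hm).sub (h0.mul_left 2)).div_const (2 * t ^ 2)

end Pool.Agent.PSF
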