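import Pool.Agent.P.MP_7b7370_an.SBOrth
import Pool.Agent.P.MP_7b7370_an.SBBin

set_option autoImplicit false

namespace Pool.Agent.PSF

open Real Set MeasureTheory

theorem radial_lb {ν : ℝ} (hν : 4 ≤ ν) {F : ℝ → ℝ} (hF : Continuous F) {M : ℝ}
    (hM : ∀ s, 0 < s → |F s| ≤ M) :
    π * ∫ s in Ioi (0 : ℝ), exp (-(2 * s)) * F s ^ 2 ≤
      ∫ p in Pi0, om ν p * (F p.1 * F p.1) := by
  have h2 : ∀ s, 0 < s → |F s * F s| ≤ M * M := fun s hs => by
    rw [abs_mul]
    exact mul_self_le_mul_self (abs_nonneg _) (hM s hs)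
  obtain ⟨-, i2, i3⟩ := integral_radial (integrableOn_om (n := ν) (by linarith)) (hF.mul hF) h2
  have i4 : IntegrableOn (fun s => exp (-(2 * s)) * F s ^ 2) (Ioi 0) := by
    refine Integrable.mul_bdd (c := M * M) ?_ (hF.pow 2).aestronglyMeasurable ?_
    · simpa [IntegrableOn] using (int_pow_exp 0 two_pos).1
    · filter_upwards [ae_restrict_mem measurableSet_Ioi] with s hs
      rw [sq]
      exact h2 s hs
  refine le_of_le_of_eq ?_ i3.symm
  rw [← integral_const_mul]
  refine setIntegral_mono_on (i4.const_mul π) i2 measurableSet_Ioi fun s hs => ?_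
  rw [mean_om hν hs]
  have h3 : 0 ≤ π * (exp (-(2 * s)) * F s ^ 2) := by positivity
  have h4 := mul_le_mul_of_nonneg_left (one_le_om0 hν hs) h3
  simp only [Pi.mul_apply]
  nlinarith

/-- integrable on the half line with a given integral -/
def SblamI (f : ℝ → ℝ) (c : ℝ) : Prop := IntegrableOn f (Ioi 0) ∧ ∫ s in Ioi (0 : ℝ), f s = c

theorem sblam_add {f g : ℝ → ℝ} {c d : ℝ} (hf : SblamI f c) (hg : SblamI g d) (a : ℝ) :
    SblamI (fun s => f s + a * g s) (c + a * d) :=
  ⟨hf.1.add (hg.1.const_mul a), by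
    rw [integral_add hf.1 (hg.1.const_mul a), integral_const_mul, hf.2, hg.2]⟩

theorem sblam_pow (k : ℕ) : SblamI (fun s => exp (-(2 * s)) ^ (k + 1)) (1 / (2 * (k + 1))) := by
  have h := int_pow_exp 0 (A := 2 * ((k : ℝ) + 1)) (by positivity)
  have e : (fun s : ℝ => exp (-(2 * s)) ^ (k + 1)) =
      fun s => s ^ 0 * exp (-(2 * ((k : ℝ) + 1) * s)) := by
    funext s
    rw [← exp_nat_mul, pow_zero, one_mul]
    congr 1
    push_cast
    ring
  rw [SblamI, e]
  exact ⟨h.1, by rw [h.2]; simp⟩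

theorem sblam_zero : SblamI (fun _ => 0) 0 := ⟨integrableOn_zero, by simp⟩

noncomputable def sblamV (s : ℝ) : ℝ := 1 - 7 / 5 * exp (-(2 * s)) + 2 / 5 * exp (-(2 * s)) ^ 2
noncomputable def sblamD (s : ℝ) : ℝ := 14 / 5 * exp (-(2 * s)) - 8 / 5 * exp (-(2 * s)) ^ 2
noncomputable def sblamC (A s : ℝ) : ℝ :=
  min (max 0 (min 1 (4 * A * s - 1))) (max 0 (min 1 (A + 1 - s)))

theorem sblam_exp (a s : ℝ) : HasDerivAt (fun s => exp (-(a * s))) (-a * exp (-(a * s))) s := by
  have h := (((hasDerivAt_id s).const_mul a).neg).exp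
  simpa [mul_comm] using h

theorem sblam_deriv (s : ℝ) : HasDerivAt sblamV (sblamD s) s := by
  have h := (((sblam_exp 2 s).const_mul (7 / 5)).const_sub 1).add
    (((sblam_exp 2 s).pow 2).const_mul (2 / 5))
  refine HasDerivAt.congr_deriv h ?_
  simp only [sblamD]
  push_cast
  ring

theorem sblam_E {s : ℝ} (hs : 0 ≤ s) : 0 < exp (-(2 * s)) ∧ exp (-(2 * s)) ≤ 1 :=
  ⟨exp_pos _, exp_le_one_iff.2 (by linarith)⟩

theorem sblam_D {s : ℝ} (hs : 0 ≤ s) : 0 ≤ sblamD s ∧ sblamD s ≤ 14 / 5 * exp (-(2 * s)) := by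
  obtain ⟨h1, h2⟩ := sblam_E hs
  unfold sblamD
  constructor <;> nlinarith

theorem sblam_C (A s : ℝ) : 0 ≤ sblamC A s ∧ sblamC A s ≤ 1 :=
  ⟨le_min (le_max_left _ _) (le_max_left _ _),
    (min_le_left _ _).trans (max_le zero_le_one (min_le_left _ _))⟩

theorem sblam_loss {A s : ℝ} (hA : 0 < A) (hs : 0 ≤ s) : sblamD s - sblamD s * sblamC A s ≤
    14 / 5 * (2 * exp (-(A * s)) + exp (-(1 * s)) / A) := by
  obtain ⟨d0, d1⟩ := sblam_D hs
  obtain ⟨c0, c1⟩ := sblam_C A s
  have e1 := exp_pos (-(A * s))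
  have e2 : 0 < exp (-(1 * s)) / A := by positivity
  have p := mul_nonneg d0 c0
  rcases le_total (2 * (A * s)) 1 with h | h
  · have := add_one_le_exp (-(A * s))
    have := (sblam_E hs).2
    linarith
  rcases le_total s A with h' | h'
  · have : sblamC A s = 1 := by
      unfold sblamC
      rw [min_eq_left (show (1 : ℝ) ≤ 4 * A * s - 1 by linarith),
        min_eq_left (show (1 : ℝ) ≤ A + 1 - s by linarith)]
      simp
    rw [this]
    linarith
  · have e3 : exp (-(2 * s)) ≤ exp (-(1 * s)) / A := by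
      rw [le_div_iff₀ hA]
      calc exp (-(2 * s)) * A ≤ exp (-(2 * s)) * exp s :=
            mul_le_mul_of_nonneg_left (by linarith [add_one_le_exp s]) (exp_pos _).le
        _ = exp (-(1 * s)) := by
            rw [← exp_add]
            congr 1
            ring
    linarith

theorem sblam_z {A s : ℝ} (hA : 0 < A) (hs : 0 ≤ s) :
    0 ≤ ∫ σ in (0 : ℝ)..s, sblamD σ * sblamC A σ ∧
    ∫ σ in (0 : ℝ)..s, sblamD σ * sblamC A σ ≤ sblamV s ∧
    sblamV s - 9 / A ≤ ∫ σ in (0 : ℝ)..s, sblamD σ * sblamC A σ := by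
  have cD : Continuous sblamD := by unfold sblamD; fun_prop
  have cC : Continuous (sblamC A) := by unfold sblamC; fun_prop
  have hV : ∫ σ in (0 : ℝ)..s, sblamD σ = sblamV s := by
    rw [intervalIntegral.integral_eq_sub_of_hasDerivAt (fun σ _ => sblam_deriv σ)
      (cD.intervalIntegrable _ _)]
    simp only [sblamV, mul_zero, neg_zero, exp_zero]
    ring
  have iχ := (cD.mul cC).intervalIntegrable (μ := volume) 0 s
  refine ⟨intervalIntegral.integral_nonneg hs fun σ hσ =>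
    mul_nonneg (sblam_D hσ.1).1 (sblam_C A σ).1, ?_, ?_⟩
  · rw [← hV]
    exact intervalIntegral.integral_mono_on hs iχ (cD.intervalIntegrable _ _) fun σ hσ =>
      mul_le_of_le_one_right (sblam_D hσ.1).1 (sblam_C A σ).2
  · have hG : ∀ σ, HasDerivAt (fun σ => -(14 / 5 * (2 * exp (-(A * σ)) + exp (-(1 * σ))) / A))
        (14 / 5 * (2 * exp (-(A * σ)) + exp (-(1 * σ)) / A)) σ := fun σ => by
      have h := (((((sblam_exp A σ).const_mul 2).add (sblam_exp 1 σ)).const_mul
        (14 / 5)).div_const A).neg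
      refine HasDerivAt.congr_deriv h ?_
      field_simp
      ring
    have cg : Continuous fun σ => 14 / 5 * (2 * exp (-(A * σ)) + exp (-(1 * σ)) / A) := by fun_prop
    have h1 := intervalIntegral.integral_eq_sub_of_hasDerivAt (a := 0) (b := s) (fun σ _ => hG σ)
      (cg.intervalIntegrable _ _)
    have h2 := intervalIntegral.integral_mono_on hs ((cD.intervalIntegrable _ _).sub iχ)
      (cg.intervalIntegrable _ _) fun σ hσ => sblam_loss hA hσ.1
    have h3 := intervalIntegral.integral_sub (cD.intervalIntegrable (μ := volume) 0 s) iχ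
    simp only [Pi.mul_apply] at h2 h3
    rw [h3, h1, hV] at h2
    simp only [mul_zero, neg_zero, exp_zero] at h2
    have h4 : 0 ≤ 14 / 5 * (2 * exp (-(A * s)) + exp (-(1 * s))) / A := by positivity
    have h5 : 14 / 5 * (2 * 1 + 1) / A ≤ 9 / A := by gcongr; norm_num
    linarith

theorem sblam_i1 : SblamI (fun s => sblamD s ^ 2) (59 / 75) := by
  have h := sblam_add (sblam_add (sblam_add sblam_zero (sblam_pow 1) (196 / 25)) (sblam_pow 2)
    (-224 / 25)) (sblam_pow 3) (64 / 25)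
  have e : (fun s => sblamD s ^ 2) = fun s => 0 + 196 / 25 * exp (-(2 * s)) ^ (1 + 1) +
      -224 / 25 * exp (-(2 * s)) ^ (2 + 1) + 64 / 25 * exp (-(2 * s)) ^ (3 + 1) := by
    funext s
    unfold sblamD
    ring
  rw [e]
  exact ⟨h.1, h.2.trans (by norm_num)⟩

theorem sblam_i2 (ε : ℝ) :
    SblamI (fun s => exp (-(2 * s)) * (sblamV s ^ 2 - 2 * ε)) (17 / 125 - ε) := by
  have h := sblam_add (sblam_add (sblam_add (sblam_add (sblam_add sblam_zero (sblam_pow 0)
    (1 - 2 * ε)) (sblam_pow 1) (-14 / 5)) (sblam_pow 2) (69 / 25)) (sblam_pow 3) (-28 / 25))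
    (sblam_pow 4) (4 / 25)
  have e : (fun s => exp (-(2 * s)) * (sblamV s ^ 2 - 2 * ε)) = fun s =>
      0 + (1 - 2 * ε) * exp (-(2 * s)) ^ (0 + 1) + -14 / 5 * exp (-(2 * s)) ^ (1 + 1) +
      69 / 25 * exp (-(2 * s)) ^ (2 + 1) + -28 / 25 * exp (-(2 * s)) ^ (3 + 1) +
      4 / 25 * exp (-(2 * s)) ^ (4 + 1) := by
    funext s
    unfold sblamV
    ring
  rw [e]
  exact ⟨h.1, h.2.trans (by push_cast; ring)⟩

theorem lam_le_bar {ν : ℝ} (hν : 4 ≤ ν) : lam ν ≤ 1157 / 200 := by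
  obtain ⟨A, hA1⟩ : ∃ A : ℝ, A = 1000000 := ⟨_, rfl⟩
  have hA : 0 < A := by rw [hA1]; norm_num
  have cD : Continuous sblamD := by unfold sblamD; fun_prop
  have cC : Continuous (sblamC A) := by unfold sblamC; fun_prop
  have cχ : Continuous fun σ => sblamD σ * sblamC A σ := cD.mul cC
  have h0 : ∀ s, s ≤ 1 / (4 * A) → sblamD s * sblamC A s = 0 := fun s hs => by
    have h : 4 * A * s - 1 ≤ 0 := by
      rw [le_div_iff₀ (by positivity)] at hs
      linarith
    rw [show sblamC A s = 0 from le_antisymm ((min_le_left _ _).trans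
      (max_le le_rfl ((min_le_right _ _).trans h))) (sblam_C A s).1, mul_zero]
  have h1 : ∀ s, A + 1 ≤ s → sblamD s * sblamC A s = 0 := fun s hs => by
    have h : A + 1 - s ≤ 0 := by linarith
    rw [show sblamC A s = 0 from le_antisymm ((min_le_right _ _).trans
      (max_le le_rfl ((min_le_right _ _).trans h))) (sblam_C A s).1, mul_zero]
  have hη : 0 < 1 / (4 * A) := by positivity
  have hz := (adm_prim cχ hη h0 h1).1
  obtain ⟨iD, eD⟩ := Db_prim cχ hη h0 h1 ν
  have hq := q_nonneg (n := ν) (by linarith) hz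
  have cF : Continuous fun s => ∫ σ in (0 : ℝ)..s, sblamD σ * sblamC A σ :=
    intervalIntegral.continuous_primitive (fun a b => cχ.intervalIntegrable a b) 0
  have hV1 : ∀ s, 0 ≤ s → sblamV s ≤ 1 := fun s hs => by
    obtain ⟨e1, e2⟩ := sblam_E hs
    unfold sblamV
    nlinarith
  have hM : ∀ s, 0 < s → |∫ σ in (0 : ℝ)..s, sblamD σ * sblamC A σ| ≤ 1 := fun s hs => by
    obtain ⟨z0, z1, -⟩ := sblam_z hA hs.le
    rw [abs_of_nonneg z0]
    exact z1.trans (hV1 s hs.le)
  have hB : _ ≤ Bw (om ν) (prim fun σ => sblamD σ * sblamC A σ)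
      (prim fun σ => sblamD σ * sblamC A σ) := radial_lb hν cF hM
  have b1 : ∫ s in Ioi (0 : ℝ), (sblamD s * sblamC A s) ^ 2 ≤ 59 / 75 := by
    rw [← sblam_i1.2]
    refine setIntegral_mono_on iD sblam_i1.1 measurableSet_Ioi fun s hs => ?_
    exact pow_le_pow_left₀ (mul_nonneg (sblam_D hs.le).1 (sblam_C A s).1)
      (mul_le_of_le_one_right (sblam_D hs.le).1 (sblam_C A s).2) 2
  have b2 : 17 / 125 - 9 / A ≤ ∫ s in Ioi (0 : ℝ),
      exp (-(2 * s)) * (∫ σ in (0 : ℝ)..s, sblamD σ * sblamC A σ) ^ 2 := by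
    rw [← (sblam_i2 (9 / A)).2]
    refine setIntegral_mono_on (sblam_i2 _).1 ?_ measurableSet_Ioi fun s hs => ?_
    · refine Integrable.mul_bdd (c := 1) ?_ (cF.pow 2).aestronglyMeasurable ?_
      · simpa [IntegrableOn] using (int_pow_exp 0 two_pos).1
      · filter_upwards [ae_restrict_mem measurableSet_Ioi] with s hs
        rw [norm_pow]
        exact pow_le_one₀ (norm_nonneg _) (hM s hs)
    · obtain ⟨z0, z1, z2⟩ := sblam_z hA (le_of_lt hs)
      have z3 := hV1 s (le_of_lt hs)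
      refine mul_le_mul_of_nonneg_left ?_ (exp_pos _).le
      nlinarith
  have hl := lam_nonneg (n := ν) (by linarith)
  have k1 := mul_le_mul_of_nonneg_left ((mul_le_mul_of_nonneg_left b2 pi_pos.le).trans hB) hl
  have k2 := mul_le_mul_of_nonneg_left b1 pi_pos.le
  have k3 : π * (lam ν * (17 / 125 - 9 / A)) ≤ π * (59 / 75) := by linarith
  have k4 := le_of_mul_le_mul_left k3 pi_pos
  rw [hA1] at k4
  linarith

end Pool.Agent.PSF
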