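import Pool.Agent.P.MP_7b7370_an.SBMI1
import Pool.Agent.P.MP_7b7370_an.SBAlg

set_option autoImplicit false

namespace Pool.Agent.PSF

open Real Set MeasureTheory

theorem main_ineq {n t c γ : ℝ} (h : Par (n - t) n t) (ht : t ≤ (4 / (n - t)) ^ 2 / 1000000)
    (hc : |c| ≤ 131 / 200 * (4 / (n - t)) ^ 2)
    (hr : |c - J1 n t ar * lam n| ≤ 33 / 250 * (4 / (n - t)) ^ 4) (hγ0 : 0 ≤ γ)
    (hγ : γ ≤ (4 / (n - t)) ^ 6 / 10000) {W y : ℝ × ℝ → ℝ} (hW : Adm W) (hy : Adm y)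
    (hz : r0 y (3 / 4) = 0) :
    0 ≤ Qf (n + t) (ar n * lam n - c * t + γ * t ^ 2) (lc 1 W 1 y) +
      Qf (n - t) (ar n * lam n + c * t + γ * t ^ 2) (lc 1 W (-1) y) := by
  have hm := h.m4
  have ht0 := h.t0
  have hn : 4 ≤ n := by linarith
  have hx0 : 0 < 4 / (n - t) := by positivity
  have hx1 : 4 / (n - t) ≤ 1 := (div_le_one (by linarith)).2 hm
  have hp : ∀ k : ℕ, (4 / (n - t)) ^ k ≤ 1 := fun k => pow_le_one₀ hx0.le hx1
  have hD : ∀ V, 0 ≤ Db n V V := fun V =>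
    add_nonneg (E1_nonneg V) (mul_nonneg (sq_nonneg n) (E2_nonneg V))
  have hc' : |c| ≤ 131 / 200 := by linarith [hp 2]
  have hγ' : γ ≤ 1 / 10000 := by linarith [hp 6]
  obtain ⟨hJ0, hJ⟩ := J1_ar_le h
  have hJ' : J1 n t ar ≤ 21 / 200 := by linarith [hp 2]
  have ed := (sq_sqrt (hD W)).symm
  have eY := (sq_sqrt (hD y)).symm
  have e0 := (sq_sqrt (E1_nonneg (rad y))).symm
  have e1 := (sq_sqrt (hD (ang y))).symm
  have hs := Db_split hy n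
  have hg := qf_gap hn hy hz
  have hSy := Sf_crude h hc' hγ0 hγ' hy (sqrt_nonneg _) eY
  rw [T_eq h hW hy]
  refine mul_nonneg zero_le_two ?_
  rcases le_total (qf n W W) (((4 / (n - t)) ^ 2 / 10000 * √(Db n W W)) ^ 2) with hq | hq
  · have hG := good_of_near hm (by linarith) hW (sqrt_nonneg _) ed hq
    exact alg_good (one_le_ar hn) (ar_le hn) ht0 h.t1 hx0 (sqrt_nonneg _) (sqrt_nonneg _)
      (sqrt_nonneg _) hJ0 hJ' (q_nonneg (by linarith) hW) (qf_cross hn hW hy)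
      (by rw [← e0, ← e1]; exact hg)
      (Bf_good h ht hc' hr hγ0 hγ' hG hy hz (sqrt_nonneg _) (sqrt_nonneg _) e0 e1)
      (Sf_good h hc hγ0 hγ hG) (by rw [← e0, ← e1, ← hs]; rwa [← eY] at hSy)
  · exact alg_crude (one_le_ar hn) ht0 ht hx0 hx1 (sqrt_nonneg _) (sqrt_nonneg _) hJ0 hJ' hq
      (qf_cross hn hW hy) (by rw [← eY]; linarith [hD (ang y)])
      (Bf_crude h hc' (by linarith [hp 4]) hγ0 hγ' hW hy (sqrt_nonneg _) (sqrt_nonneg _) ed eY)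
      (Sf_crude h hc' hγ0 hγ' hW (sqrt_nonneg _) ed) hSy

theorem exists_Qf_neg {ν γ : ℝ} (hν : 4 ≤ ν) (h : ar ν * lam ν < γ) :
    ∃ V, Adm V ∧ Qf ν γ V < 0 := by
  have ha : 0 < ar ν := zero_lt_one.trans_le (one_le_ar hν)
  obtain ⟨V, hV, h1⟩ := exists_lt_of_lam_lt (n := ν) (τ := γ / ar ν) (by linarith)
    ((lt_div_iff₀' ha).2 h)
  refine ⟨V, hV, ?_⟩
  rw [div_mul_eq_mul_div, lt_div_iff₀' ha, Dn_eq hV, Bn_eq] at h1
  exact sub_neg.2 h1

theorem Qf_smul {ν : ℝ} (hν : 4 ≤ ν) (γ a : ℝ) {U V : ℝ × ℝ → ℝ} (hU : Adm U) (hV : Adm V) :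
    Qf ν γ (lc a U 0 V) = a ^ 2 * Qf ν γ U := by
  rw [Qf, Qf, Db_sq hU hV, Bw_sq (integrableOn_om (by linarith)) hU hV]
  ring

theorem loc_conv {n t : ℝ} (h : Par (n - t) n t) (ht : t ≤ (4 / (n - t)) ^ 2 / 1000000) :
    2 * gn n < gn (n - t) + gn (n + t) := by
  by_contra hn
  have hm := h.m4
  have ht0 := h.t0
  have hg : ar (n - t) * lam (n - t) + ar (n + t) * lam (n + t) ≤ 2 * (ar n * lam n) := by
    rw [not_lt, gn_eq, gn_eq, gn_eq] at hn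
    exact le_of_mul_le_mul_left (by linarith) pi_pos
  obtain ⟨h1, h2⟩ := c_bounds h hg
  obtain ⟨c, hc⟩ : ∃ c, c = (ar (n - t) * lam (n - t) - ar (n + t) * lam (n + t)) / (2 * t) :=
    ⟨_, rfl⟩
  rw [← hc] at h1 h2
  have hct : c * t = (ar (n - t) * lam (n - t) - ar (n + t) * lam (n + t)) / 2 := by
    rw [hc]
    field_simp
  have hx0 : 0 < 4 / (n - t) := by positivity
  have hγ : 0 < (4 / (n - t)) ^ 6 / 10000 * t ^ 2 := by positivity
  obtain ⟨U, hU, hU0⟩ := exists_Qf_neg (ν := n + t)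
    (γ := ar n * lam n - c * t + (4 / (n - t)) ^ 6 / 10000 * t ^ 2) (by linarith) (by linarith)
  obtain ⟨V, hV, hV0⟩ := exists_Qf_neg (ν := n - t)
    (γ := ar n * lam n + c * t + (4 / (n - t)) ^ 6 / 10000 * t ^ 2) hm (by linarith)
  obtain ⟨a, b, hab, h0⟩ : ∃ a b : ℝ, 0 < a ^ 2 + b ^ 2 ∧
      a / 2 * r0 U (3 / 4) + -b / 2 * r0 V (3 / 4) = 0 := by
    by_cases e : r0 U (3 / 4) = 0
    · exact ⟨1, 0, by norm_num, by rw [e]; ring⟩
    · exact ⟨r0 V (3 / 4), r0 U (3 / 4), by positivity, by ring⟩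
  have h3 := main_ineq h ht h2 h1 (by positivity) le_rfl (hU.lc hV (a / 2) (b / 2))
    (hU.lc hV (a / 2) (-b / 2)) ((r0_lc hU.cont hV.cont _ _ _).trans h0)
  have e1 : lc 1 (lc (a / 2) U (b / 2) V) 1 (lc (a / 2) U (-b / 2) V) = lc a U 0 V :=
    funext fun p => by simp only [lc]; ring
  have e2 : lc 1 (lc (a / 2) U (b / 2) V) (-1) (lc (a / 2) U (-b / 2) V) = lc b V 0 U :=
    funext fun p => by simp only [lc]; ring
  rw [e1, e2, Qf_smul (by linarith) _ a hU hV, Qf_smul hm _ b hV hU] at h3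
  have h4 := mul_nonpos_of_nonneg_of_nonpos (sq_nonneg a) hU0.le
  have h5 := mul_nonpos_of_nonneg_of_nonpos (sq_nonneg b) hV0.le
  rcases (sq_nonneg a).eq_or_lt with e | e
  · have := mul_neg_of_pos_of_neg (show 0 < b ^ 2 by linarith) hV0
    linarith
  · have := mul_neg_of_pos_of_neg e hU0
    linarith

end Pool.Agent.PSF
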