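import Pool.Agent.P.MP_7b7370_an.SBPack2
import Pool.Agent.P.MP_7b7370_an.SBFO
import Pool.Agent.P.MP_7b7370_an.SBGain

set_option autoImplicit false

namespace Pool.Agent.PSF

open Real Set MeasureTheory

/-- second order part of the mean of the two forms -/
noncomputable def Sf (n t c γ : ℝ) (V : ℝ × ℝ → ℝ) : ℝ :=
  J2 n t ar * Db n V V + (Jb n t ar - 2 * n * J1 n t ar) * E2 V V -
    ar n * lam n * Bw (w2 n t) V V - c * Bw (w1 n t) V V -
    γ * (Bw (om n) V V + t ^ 2 * Bw (w2 n t) V V)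

/-- first order part of the difference of the two forms, without its `q` term -/
noncomputable def Bf (n t c γ : ℝ) (W y : ℝ × ℝ → ℝ) : ℝ :=
  (c - J1 n t ar * lam n) * Bw (om n) W y + (2 * n * Jb n t ar - t ^ 2 * J1 n t ar) * E2 W y +
    (ar n * lam n + γ * t ^ 2) * Bw (w1 n t) W y + c * t ^ 2 * Bw (w2 n t) W y

noncomputable def qf (n : ℝ) (U V : ℝ × ℝ → ℝ) : ℝ := Db n U V - lam n * Bw (om n) U V

theorem T_eq {m n t c γ : ℝ} (h : Par m n t) {W y : ℝ × ℝ → ℝ} (hW : Adm W) (hy : Adm y) :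
    Qf (n + t) (ar n * lam n - c * t + γ * t ^ 2) (lc 1 W 1 y) +
      Qf (n - t) (ar n * lam n + c * t + γ * t ^ 2) (lc 1 W (-1) y) =
    2 * (ar n * qf n W W + ar n * qf n y y + t ^ 2 * Sf n t c γ W + t ^ 2 * Sf n t c γ y +
      2 * t * (Bf n t c γ W y - J1 n t ar * qf n W y)) := by
  have h4 := h.m4
  have ht := h.t0
  have hm := h.mn
  have hn : 2 < n - t := by linarith
  have ip := integrableOn_om (n := n + t) (by linarith)
  have im := integrableOn_om (n := n - t) hn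
  unfold Qf Sf Bf qf
  rw [Db_sq hW hy, Db_sq hW hy, Bw_sq ip hW hy, Bw_sq im hW hy, Bw_w1 ht hn hW hW,
    Bw_w1 ht hn hy hy, Bw_w1 ht hn hW hy, Bw_w2 ht hn hW hW, Bw_w2 ht hn hy hy, Bw_w2 ht hn hW hy]
  unfold Db Jb J1 J2
  have ht' := ht.ne'
  field_simp
  ring

theorem qf_cross {n : ℝ} (hn : 4 ≤ n) {W y : ℝ × ℝ → ℝ} (hW : Adm W) (hy : Adm y) :
    2 * |qf n W y| ≤ qf n W W + qf n y y := by
  have i0 := integrableOn_om (n := n) (by linarith)
  have h1 := q_nonneg (n := n) (by linarith) (hW.lc hy 1 1)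
  have h2 := q_nonneg (n := n) (by linarith) (hW.lc hy 1 (-1))
  rw [Db_sq hW hy, Bw_sq i0 hW hy] at h1 h2
  unfold qf
  rcases abs_cases (Db n W y - lam n * Bw (om n) W y) with h | h <;> rw [h.1] <;> nlinarith

theorem qf_gap {n : ℝ} (hn : 4 ≤ n) {y : ℝ × ℝ → ℝ} (hy : Adm y) (h0 : r0 y (3 / 4) = 0) :
    459 / 1000 * E1 (rad y) (rad y) + 179 / 250 * Db n (ang y) (ang y) ≤ qf n y y := by
  have h1 := M_le_gap hn hy h0
  have h2 := lam_le_bar hn
  have h3 := lam_nonneg (n := n) (by linarith)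
  have h4 := E1_nonneg (rad y)
  have h5 : 0 ≤ Db n (ang y) (ang y) :=
    add_nonneg (E1_nonneg _) (mul_nonneg (sq_nonneg n) (E2_nonneg _))
  have h6 := mul_le_mul_of_nonneg_left h1 h3
  have h7 := mul_le_mul_of_nonneg_right h2 (show 0 ≤ 187 / 2000 * E1 (rad y) (rad y) +
    49 / 1000 * Db n (ang y) (ang y) by positivity)
  unfold qf
  rw [Db_split hy]
  linarith

theorem E2_coef {n t : ℝ} (h : Par (n - t) n t) :
    0 ≤ Jb n t ar - 2 * n * J1 n t ar ∧ 0 ≤ 2 * n * Jb n t ar - t ^ 2 * J1 n t ar ∧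
      2 * n * Jb n t ar - t ^ 2 * J1 n t ar ≤ 2 * n * (1001 / 1000 * ar n) := by
  have h4 := h.m4
  have ht := h.t0
  have ht1 := h.t1
  obtain ⟨j0, j1⟩ := J1_ar_le h
  have a0 := one_le_ar (ν := n) (by linarith)
  have ap := one_le_ar (ν := n + t) (by linarith)
  have am := one_le_ar (ν := n - t) h4
  have b1 := ar_anti (p := n) (r := n + t) (by linarith) (by linarith)
  have b2 := (ar_diff (p := n - t) (r := n) h4 (by linarith) (by linarith)).2
  have hx0 : 0 ≤ 4 / (n - t) := by positivity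
  have hx1 : 4 / (n - t) ≤ 1 := (div_le_one (by linarith)).2 h4
  have hx2 : (4 / (n - t)) ^ 2 ≤ 1 := pow_le_one₀ hx0 hx1
  have hx3 : n * (4 / (n - t)) ^ 2 ≤ 4001 / 1000 := by
    have e : (n - t) * (4 / (n - t)) = 4 := by field_simp
    have : n * (4 / (n - t)) ^ 2 = 4 * (4 / (n - t)) + t * (4 / (n - t)) ^ 2 := by
      linear_combination (4 / (n - t)) * e
    rw [this]
    nlinarith
  have hb : 1 ≤ Jb n t ar := by unfold Jb; linarith
  have hb' : Jb n t ar ≤ 1001 / 1000 * ar n := by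
    unfold Jb
    have : (n - (n - t)) * (21 / 200 * (4 / (n - t)) ^ 2) ≤ 1 / 1000 := by nlinarith
    linarith
  have hn : 0 ≤ n := by linarith
  have c1 := mul_le_mul_of_nonneg_left j1 hn
  have c2 := mul_le_mul_of_nonneg_left hb hn
  have c3 := mul_le_mul_of_nonneg_left hb' hn
  have c4 : t ^ 2 * J1 n t ar ≤ 1 := mul_le_one₀ (pow_le_one₀ ht.le (by linarith)) j0 (by linarith)
  have c5 : 0 ≤ t ^ 2 * J1 n t ar := by positivity
  exact ⟨by linarith, by linarith, by linarith⟩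

theorem c_bounds {n t : ℝ} (h : Par (n - t) n t)
    (hg : ar (n - t) * lam (n - t) + ar (n + t) * lam (n + t) ≤ 2 * (ar n * lam n)) :
    |(ar (n - t) * lam (n - t) - ar (n + t) * lam (n + t)) / (2 * t) - J1 n t ar * lam n| ≤
        33 / 250 * (4 / (n - t)) ^ 4 ∧
      |(ar (n - t) * lam (n - t) - ar (n + t) * lam (n + t)) / (2 * t)| ≤
        131 / 200 * (4 / (n - t)) ^ 2 := by
  have h4 := h.m4
  have ht := h.t0
  have ht1 := h.t1
  obtain ⟨j0, j1⟩ := J1_ar_le h
  have j2 := J2_ar_nonneg h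
  have ap := one_le_ar (ν := n + t) (by linarith)
  have am := one_le_ar (ν := n - t) h4
  have bp := ar_le (ν := n + t) (by linarith)
  have bm := ar_le (ν := n - t) h4
  have l0 := lam_nonneg (n := n) (by linarith)
  have l1 := lam_le_bar (ν := n) (by linarith)
  have lu := lam_up (m := n - t) (p := n) (r := n + t) h4 (by linarith) (by linarith) (by linarith)
  have ld := lam_down (p := n - t) (r := n) h4 (by linarith) (by linarith)
  rw [add_sub_cancel_left] at lu
  rw [sub_sub_cancel] at ld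
  have hx0 : 0 ≤ 4 / (n - t) := by positivity
  have hx1 : 4 / (n - t) ≤ 1 := (div_le_one (by linarith)).2 h4
  generalize 4 / (n - t) = x at *
  have x5 : x ^ 5 ≤ x ^ 4 := pow_le_pow_of_le_one hx0 hx1 (by norm_num)
  have x4 : x ^ 4 ≤ x ^ 2 := pow_le_pow_of_le_one hx0 hx1 (by norm_num)
  have x40 : 0 ≤ x ^ 4 := by positivity
  have x50 : 0 ≤ x ^ 5 := by positivity
  have e1 : ar n - ar (n + t) = t * J1 n t ar - t ^ 2 * J2 n t ar := by
    unfold J1 J2
    field_simp
    ring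
  have e2 : ar (n - t) - ar n = t * J1 n t ar + t ^ 2 * J2 n t ar := by
    unfold J1 J2
    field_simp
    ring
  have p1 : 0 ≤ t ^ 2 * J2 n t ar * lam n := by positivity
  have u1 : ar (n + t) * (lam n - lam (n + t)) ≤ 551 / 500 * (t * (21 / 500 * x ^ 5)) :=
    (mul_le_mul_of_nonneg_left lu (by linarith)).trans
      (mul_le_mul_of_nonneg_right bp (by positivity))
  have u2 : ar (n - t) * (lam n - lam (n - t)) ≤ 551 / 500 * (t * (119 / 1000 * x ^ 4)) :=
    (mul_le_mul_of_nonneg_left ld (by linarith)).trans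
      (mul_le_mul_of_nonneg_right bm (by positivity))
  have g1 : ar n * lam n - ar (n + t) * lam (n + t) =
      (t * J1 n t ar - t ^ 2 * J2 n t ar) * lam n + ar (n + t) * (lam n - lam (n + t)) := by
    rw [← e1]; ring
  have g2 : ar (n - t) * lam (n - t) - ar n * lam n =
      (t * J1 n t ar + t ^ 2 * J2 n t ar) * lam n - ar (n - t) * (lam n - lam (n - t)) := by
    rw [← e2]; ring
  have cu : (ar (n - t) * lam (n - t) - ar (n + t) * lam (n + t)) / (2 * t) ≤
      J1 n t ar * lam n + 551 / 500 * (21 / 500 * x ^ 5) := by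
    rw [div_le_iff₀ (by positivity)]
    linarith
  have cl : J1 n t ar * lam n - 551 / 500 * (119 / 1000 * x ^ 4) ≤
      (ar (n - t) * lam (n - t) - ar (n + t) * lam (n + t)) / (2 * t) := by
    rw [le_div_iff₀ (by positivity)]
    linarith
  have q0 : 0 ≤ J1 n t ar * lam n := mul_nonneg j0 l0
  have q1 : J1 n t ar * lam n ≤ 21 / 200 * x ^ 2 * (1157 / 200) :=
    mul_le_mul j1 l1 l0 (by positivity)
  exact ⟨abs_le.2 ⟨by linarith, by linarith⟩, abs_le.2 ⟨by linarith, by linarith⟩⟩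

end Pool.Agent.PSF
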