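import Pool.Agent.P.MP_7b7370_an.SBMI0

set_option autoImplicit false

namespace Pool.Agent.PSF

open Real Set MeasureTheory

theorem sbmi1_mul {a b A B : ℝ} (ha : |a| ≤ A) (hb : |b| ≤ B) : |a * b| ≤ A * B := by
  rw [abs_mul]
  exact mul_le_mul ha hb (abs_nonneg _) ((abs_nonneg _).trans ha)

theorem sbmi1_A {n : ℝ} (hn : 4 ≤ n) : 0 ≤ ar n * lam n ∧ ar n * lam n ≤ 6376 / 1000 := by
  have h1 := one_le_ar hn
  have h2 := lam_nonneg (n := n) (by linarith)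
  refine ⟨by positivity, (mul_le_mul (ar_le hn) (lam_le_bar hn) h2 (by norm_num)).trans ?_⟩
  norm_num

theorem sbmi1_t {t : ℝ} (h0 : 0 < t) (h1 : t ≤ 1 / 1000) : |t ^ 2| ≤ 1 / 1000000 := by
  rw [abs_of_nonneg (sq_nonneg t)]
  exact (pow_le_pow_left₀ h0.le h1 2).trans (by norm_num)

theorem sbmi1_M {n Y : ℝ} (hn : 4 ≤ n) {V : ℝ × ℝ → ℝ} (hV : Adm V) (hY : Db n V V = Y ^ 2) :
    |Bw (om n) V V| ≤ 137 / 500 * Y ^ 2 := by
  have h := Bn_nonneg (n := n) (by linarith) V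
  rw [Bn_eq] at h
  rw [abs_of_nonneg h, ← hY]
  exact M_le_D hn hn hV

theorem sbmi1_rest {m n t Y : ℝ} (h : Par m n t) {V : ℝ × ℝ → ℝ} (hV : Adm V) (hY0 : 0 ≤ Y)
    (hY : Db n V V = Y ^ 2) :
    |Bw (om n) V V + t ^ 2 * Bw (w2 n t) V V| ≤ 11 / 40 * Y ^ 2 := by
  have hn : 4 ≤ n := by linarith [h.m4, h.mn, h.t0]
  have h1 := sbmi1_M hn hV hY
  have h2 := sbmi1_mul (sbmi1_t h.t0 h.t1) (w_crude h hV hV hY0 hY0 hY.le hY.le).2
  have h3 := abs_add_le (Bw (om n) V V) (t ^ 2 * Bw (w2 n t) V V)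
  have h4 := sq_nonneg Y
  rw [← sq] at h2
  linarith

theorem sbmi1_E2 {n Y : ℝ} (hn : 0 < n) {V : ℝ × ℝ → ℝ} (hY : Db n V V ≤ Y ^ 2) :
    E2 V V ≤ (Y / n) ^ 2 := by
  have h1 := E1_nonneg V
  rw [div_pow, le_div_iff₀ (by positivity)]
  unfold Db at hY
  linarith

theorem sbmi1_x {m : ℝ} (hm : 4 ≤ m) : 0 < 4 / m ∧ 4 / m ≤ 1 :=
  ⟨by positivity, (div_le_one (by linarith)).2 hm⟩

theorem sbmi1_four {a b c e A B C E : ℝ} (h1 : |a| ≤ A) (h2 : |b| ≤ B) (h3 : |c| ≤ C)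
    (h4 : |e| ≤ E) : |a + b + c + e| ≤ A + B + C + E := by
  have := abs_le.1 h1
  have := abs_le.1 h2
  have := abs_le.1 h3
  have := abs_le.1 h4
  rw [abs_le]
  constructor <;> linarith

theorem sbmi1_six {n t : ℝ} (h : Par (n - t) n t) :
    1997 / 2000 * (4 / (n - t)) ^ 6 ≤ (4 / n) ^ 6 := by
  have h1 := h.m4
  have h2 := h.t0
  have h3 := h.t1
  have h4 : 4000 / 4001 * (4 / (n - t)) ≤ 4 / n := by
    rw [← mul_div_assoc, div_le_div_iff₀ (by linarith) (by linarith)]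
    linarith
  have h5 := pow_le_pow_left₀ (by have := (sbmi1_x h1).1; positivity) h4 6
  rw [mul_pow] at h5
  refine le_trans (mul_le_mul_of_nonneg_right (by norm_num) ?_) h5
  positivity

theorem sbmi1_fin {a x d Y0 Y1 : ℝ} (ha : 1 ≤ a) (hx0 : 0 < x) (hx1 : x ≤ 1) (hd : 0 ≤ d)
    (h0 : 0 ≤ Y0) (h1 : 0 ≤ Y1) :
    33 / 250 * x ^ 4 * (1047 / 2000 * d * (1529 / 5000 * Y0 + 1107 / 5000 * Y1)) +
      1001 / 500 * (73 / 4000) * (a * x ^ 3 * d * Y1) +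
      (2893 / 500 * a) * (x ^ 3 * d * (77 / 20000 * Y0 + 501 / 50000 * Y1)) +
      (131 / 200 * (x ^ 4 / 1000000)) * (d * (Y0 + Y1)) ≤
      a * x ^ 3 * d * (87 / 2000 * Y0 + 11 / 100 * Y1) := by
  have e : x ^ 4 ≤ a * x ^ 3 :=
    (pow_le_pow_of_le_one hx0.le hx1 (by norm_num)).trans
      (le_mul_of_one_le_left (by positivity) ha)
  have e0 := mul_le_mul_of_nonneg_right e (mul_nonneg hd h0)
  have e1 := mul_le_mul_of_nonneg_right e (mul_nonneg hd h1)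
  have p0 : 0 ≤ a * x ^ 3 * (d * Y0) := by positivity
  have p1 : 0 ≤ a * x ^ 3 * (d * Y1) := by positivity
  linarith

theorem Sf_crude {n t c γ Y : ℝ} (h : Par (n - t) n t) (hc : |c| ≤ 131 / 200) (hγ0 : 0 ≤ γ)
    (hγ : γ ≤ 1 / 10000) {V : ℝ × ℝ → ℝ} (hV : Adm V) (hY0 : 0 ≤ Y) (hY : Db n V V = Y ^ 2) :
    -(8 * Y ^ 2) ≤ Sf n t c γ V := by
  have hn : 4 ≤ n := by linarith [h.m4, h.t0]
  obtain ⟨a0, a1⟩ := sbmi1_A hn
  obtain ⟨b1, b2⟩ := w_crude h hV hV hY0 hY0 hY.le hY.le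
  rw [← sq] at b1 b2
  have h1 : 0 ≤ J2 n t ar * Db n V V := by
    rw [hY]
    exact mul_nonneg (J2_ar_nonneg h) (sq_nonneg Y)
  have h2 := mul_nonneg (E2_coef h).1 (E2_nonneg V)
  have h3 := (abs_le.1 (sbmi1_mul ((abs_of_nonneg a0).trans_le a1) b2)).2
  have h4 := (abs_le.1 (sbmi1_mul hc b1)).2
  have h5 := (abs_le.1 (sbmi1_mul ((abs_of_nonneg hγ0).trans_le hγ) (sbmi1_rest h hV hY0 hY))).2
  have h6 := sq_nonneg Y
  unfold Sf
  linarith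

theorem Sf_good {n t c γ d : ℝ} (h : Par (n - t) n t) (hc : |c| ≤ 131 / 200 * (4 / (n - t)) ^ 2)
    (hγ0 : 0 ≤ γ) (hγ : γ ≤ (4 / (n - t)) ^ 6 / 10000) {W : ℝ × ℝ → ℝ}
    (hW : Good (n - t) n W d) : 129 / 5000 * (4 / (n - t)) ^ 6 * d ^ 2 ≤ Sf n t c γ W := by
  have hn : 4 ≤ n := by linarith [h.m4, h.t0]
  have hν : n - t ≤ n := by linarith [h.t0]
  obtain ⟨a0, a1⟩ := sbmi1_A hn
  obtain ⟨x0, x1⟩ := sbmi1_x h.m4
  have g := gain h
  have g6 := sbmi1_six h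
  have z0 := J2_Zh_nonneg h
  have b2 := w2_diag h hν hW
  obtain ⟨b0, b1⟩ := w1_diag h hν hW
  have h2 := mul_nonneg (E2_coef h).1 (E2_nonneg W)
  have h5 := (abs_le.1 (sbmi1_mul ((abs_of_nonneg hγ0).trans_le hγ)
    (sbmi1_rest h hW.adm hW.d0 hW.en))).2
  unfold Sf
  rw [hW.en]
  generalize 4 / (n - t) = x at *
  have d0 := sq_nonneg d
  generalize d ^ 2 = D at *
  have e : x ^ 5 * D ≤ x ^ 4 * D :=
    mul_le_mul_of_nonneg_right (pow_le_pow_of_le_one x0.le x1 (by norm_num)) d0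
  have p4 : 0 ≤ x ^ 4 * D := by positivity
  have p6 : 0 ≤ x ^ 6 * D := by positivity
  have b3 : |Bw (w1 n t) W W| ≤ 307 / 100000 * x ^ 4 * D := abs_le.2 ⟨by linarith, b1⟩
  have h4 := (abs_le.1 (sbmi1_mul hc b3)).2
  have h3 : ar n * lam n * Bw (w2 n t) W W ≤
      6376 / 1000 * ((J2 n t Zh + 95 / 100000 * x ^ 6) * D) :=
    (mul_le_mul_of_nonneg_left b2 a0).trans (mul_le_mul_of_nonneg_right a1 (by positivity))
  have h1 : (17 / 500 * (1997 / 2000 * x ^ 6) + 6376 / 1000 * J2 n t Zh) * D ≤ J2 n t ar * D :=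
    mul_le_mul_of_nonneg_right (by linarith) d0
  linarith

theorem Bf_crude {n t c γ d Y : ℝ} (h : Par (n - t) n t) (hc : |c| ≤ 131 / 200)
    (hr : |c - J1 n t ar * lam n| ≤ 33 / 250) (hγ0 : 0 ≤ γ) (hγ : γ ≤ 1 / 10000)
    {W y : ℝ × ℝ → ℝ} (hW : Adm W) (hy : Adm y) (hd0 : 0 ≤ d) (hY0 : 0 ≤ Y)
    (hd : Db n W W = d ^ 2) (hY : Db n y y = Y ^ 2) : |Bf n t c γ W y| ≤ 8 * d * Y := by
  have hn : 4 ≤ n := by linarith [h.m4, h.t0]
  have hn0 : 0 < n := by linarith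
  obtain ⟨a0, a1⟩ := sbmi1_A hn
  obtain ⟨b1, b2⟩ := w_crude h hW hy hd0 hY0 hd.le hY.le
  have m1 : |Bw (om n) W y| ≤ d * Y := by
    refine M_cs (by linarith) hW hy hd0 hY0 ?_ ?_
    · linarith [(abs_le.1 (sbmi1_M hn hW hd)).2, sq_nonneg d]
    · linarith [(abs_le.1 (sbmi1_M hn hy hY)).2, sq_nonneg Y]
  have e2 := E2_cs hW hy (by positivity) (by positivity) (sbmi1_E2 hn0 hd.le) (sbmi1_E2 hn0 hY.le)
  obtain ⟨-, c0, c1⟩ := E2_coef h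
  have p : 0 ≤ d * Y := mul_nonneg hd0 hY0
  have t2 := sbmi1_t h.t0 h.t1
  have g2 := sbmi1_mul ((abs_of_nonneg hγ0).trans_le hγ) t2
  have c3 : |ar n * lam n + γ * t ^ 2| ≤ 6377 / 1000 := by
    have := abs_le.1 g2
    rw [abs_le]
    constructor <;> linarith
  have h2 : |(2 * n * Jb n t ar - t ^ 2 * J1 n t ar) * E2 W y| ≤ 3 / 5 * (d * Y) := by
    refine (sbmi1_mul ((abs_of_nonneg c0).trans_le c1) e2).trans ?_
    rw [show 2 * n * (1001 / 1000 * ar n) * (d / n * (Y / n)) =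
      1001 / 500 * ar n / n * (d * Y) by field_simp; ring]
    refine mul_le_mul_of_nonneg_right ?_ p
    rw [div_le_iff₀ hn0]
    linarith [ar_le hn]
  refine (sbmi1_four (sbmi1_mul hr m1) h2 (sbmi1_mul c3 b1)
    (sbmi1_mul (sbmi1_mul hc t2) b2)).trans ?_
  linarith

theorem Bf_good {n t c γ d Y0 Y1 : ℝ} (h : Par (n - t) n t)
    (ht : t ≤ (4 / (n - t)) ^ 2 / 1000000) (hc : |c| ≤ 131 / 200)
    (hr : |c - J1 n t ar * lam n| ≤ 33 / 250 * (4 / (n - t)) ^ 4) (hγ0 : 0 ≤ γ)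
    (hγ : γ ≤ 1 / 10000) {W y : ℝ × ℝ → ℝ} (hW : Good (n - t) n W d) (hy : Adm y)
    (hz : r0 y (3 / 4) = 0) (h0 : 0 ≤ Y0) (h1 : 0 ≤ Y1) (hY0 : E1 (rad y) (rad y) = Y0 ^ 2)
    (hY1 : Db n (ang y) (ang y) = Y1 ^ 2) :
    |Bf n t c γ W y| ≤
      ar n * (4 / (n - t)) ^ 3 * d * (87 / 2000 * Y0 + 11 / 100 * Y1) := by
  have hn : 4 ≤ n := by linarith [h.m4, h.t0]
  have hn0 : 0 < n := by linarith
  have hν : n - t ≤ n := by linarith [h.t0]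
  have a1 := one_le_ar hn
  have d0 := hW.d0
  obtain ⟨x0, x1⟩ := sbmi1_x h.m4
  have p01 := mul_nonneg h0 h1
  have m1 : |Bw (om n) W y| ≤ 1047 / 2000 * d * (1529 / 5000 * Y0 + 1107 / 5000 * Y1) := by
    refine M_cs (by linarith) hW.adm hy (by positivity) (by positivity) ?_ ?_
    · linarith [(abs_le.1 (sbmi1_M hn hW.adm hW.en)).2, sq_nonneg d]
    · have := M_le_gap hn hy hz
      rw [hY0, hY1] at this
      linarith [sq_nonneg Y0, sq_nonneg Y1]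
  have e2 := E2_cs hW.adm.ang hy.ang (by positivity) (by positivity) (sbmi1_E2 hn0 hW.an)
    (sbmi1_E2 hn0 hY1.le)
  rw [← E2_ang hW.adm hy] at e2
  obtain ⟨-, c0, c1⟩ := E2_coef h
  have b1 := w1_cross h hν hW hy h0 h1 hY0.le hY1.le
  have b2 := (w_crude h hW.adm hy d0 (add_nonneg h0 h1) hW.en.le (by
    rw [Db_split hy, hY0, hY1]
    linarith)).2
  have g2 := sbmi1_mul ((abs_of_nonneg hγ0).trans_le hγ) (sbmi1_t h.t0 h.t1)
  have l0 := lam_nonneg hn0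
  have c3 : |ar n * lam n + γ * t ^ 2| ≤ 2893 / 500 * ar n := by
    have := abs_le.1 g2
    have u := mul_le_mul_of_nonneg_left (lam_le_bar hn) (by linarith : 0 ≤ ar n)
    have v : 0 ≤ ar n * lam n := by positivity
    rw [abs_le]
    constructor <;> linarith
  have xn : 1 / n ≤ 4 / (n - t) / 4 := by
    rw [div_right_comm, div_self (by norm_num : (4 : ℝ) ≠ 0)]
    exact one_div_le_one_div_of_le (by linarith [h.m4]) hν
  generalize 4 / (n - t) = x at *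
  have t2 : |t ^ 2| ≤ x ^ 4 / 1000000 := by
    rw [abs_of_nonneg (sq_nonneg t)]
    refine (pow_le_pow_left₀ h.t0.le ht 2).trans ?_
    have : 0 ≤ x ^ 4 := by positivity
    linarith
  have h2 : |(2 * n * Jb n t ar - t ^ 2 * J1 n t ar) * E2 W y| ≤
      1001 / 500 * (73 / 4000) * (ar n * x ^ 3 * d * Y1) := by
    refine (sbmi1_mul ((abs_of_nonneg c0).trans_le c1) e2).trans ?_
    rw [show 2 * n * (1001 / 1000 * ar n) * (73 / 1000 * x ^ 2 * d / n * (Y1 / n)) =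
      1001 / 500 * (73 / 1000) * (ar n * x ^ 2 * d * Y1) * (1 / n) by field_simp; ring]
    refine (mul_le_mul_of_nonneg_left xn (by positivity)).trans (le_of_eq ?_)
    ring
  exact (sbmi1_four (sbmi1_mul hr m1) h2 (sbmi1_mul c3 b1)
    (sbmi1_mul (sbmi1_mul hc t2) b2)).trans (sbmi1_fin a1 x0 x1 d0 h0 h1)

end Pool.Agent.PSF
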