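import Pool.Agent.P.MP_7b7370_an.SBMI

set_option autoImplicit false

namespace Pool.Agent.PSF

open Real Set MeasureTheory

theorem support4 : Support4 := by
  have hb : ∀ n : ℝ, 4 ≤ n → gn n ≤ π * (551 / 500 * (1157 / 200)) := by
    intro n hn
    rw [gn_eq]
    refine mul_le_mul_of_nonneg_left ?_ pi_pos.le
    exact mul_le_mul (ar_le hn) (lam_le_bar hn) (lam_nonneg (by linarith)) (by norm_num)
  have hconv : ConvexOn ℝ (Ici 4) gn := by
    refine convexOn_of_local continuousOn_gn fun n hn => ?_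
    have hn0 : (0 : ℝ) < n := by linarith
    have hx : (0 : ℝ) < (4 / n) ^ 2 / 1000000 := by positivity
    refine ⟨min (min (n - 4) (1 / 1000)) ((4 / n) ^ 2 / 1000000),
      lt_min (lt_min (by linarith) (by norm_num)) hx, fun t ht0 ht => ?_⟩
    have h1 : t < n - 4 := lt_of_lt_of_le ht ((min_le_left _ _).trans (min_le_left _ _))
    have h2 : t < 1 / 1000 := lt_of_lt_of_le ht ((min_le_left _ _).trans (min_le_right _ _))
    have h3 : t < (4 / n) ^ 2 / 1000000 := lt_of_lt_of_le ht (min_le_right _ _)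
    refine loc_conv ⟨by linarith, ht0, h2.le, le_rfl⟩ (h3.le.trans ?_)
    have h4 : 4 / n ≤ 4 / (n - t) :=
      div_le_div_of_nonneg_left (by norm_num) (by linarith) (by linarith)
    have h5 : (4 / n) ^ 2 ≤ (4 / (n - t)) ^ 2 := pow_le_pow_left₀ (by positivity) h4 2
    linarith
  refine ⟨?_, fun N hN => ?_⟩
  · rw [gn_eq]
    have h1 : ar 5 * lam 5 ≤ 209 / 200 * (1157 / 200) :=
      mul_le_mul ar_five (lam_le_bar (by norm_num)) (lam_nonneg (by norm_num)) (by norm_num)
    have h2 : 0 ≤ ar 5 * lam 5 :=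
      mul_nonneg (by linarith [one_le_ar (ν := 5) (by norm_num)]) (lam_nonneg (by norm_num))
    nlinarith [pi_lt_d4, pi_pos]
  · exact support_of_convex hconv hb (fun t h0 h1 => gn_five_step h0 h1) (by exact_mod_cast hN)

end Pool.Agent.PSF
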