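import Pool.Agent.P.MP_7b7370_an.SBGap
import Pool.Agent.P.MP_7b7370_an.SBEL

set_option autoImplicit false

namespace Pool.Agent.PSF

open Real Set MeasureTheory

theorem good_rn {m ν n d K Y : ℝ} {f W V : ℝ × ℝ → ℝ} {v : ℝ → ℝ} (hm : 4 ≤ m) (hn : m ≤ n)
    (hf : Wt f) (hW : Adm W) (hV : Adm V) (hd : 0 ≤ d)
    (hpt : ∀ s, 0 < s → π * r0 W s ^ 2 ≤ d ^ 2 * hh m s) (hv : ∀ s, 0 < s → Var f s (v s))
    (hv0 : ∀ s, 0 < s → 0 ≤ v s) {H : ℝ → ℝ} (hH : ∀ s, 0 < s → hq m s ≤ H s)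
    (hi : IntegrableOn (fun s => H s * v s) (Ioi 0)) (hK0 : 0 ≤ K)
    (hK : ∫ s in Ioi (0 : ℝ), H s * v s ≤ K ^ 2) (hY0 : 0 ≤ Y)
    (hY : Db n (ang V) (ang V) ≤ Y ^ 2) : |Bw f (rad W) (ang V)| ≤ K * d * Y := by
  have hm0 : 0 < m := by linarith
  have hρ : ∀ s, 0 < s → 0 < rho (49 / 50) m s := by
    intro s hs
    unfold rho
    have h1 : (0 : ℝ) < 49 / 50 * (1 - 49 / 50) := by norm_num
    positivity
  have hle : ∀ s, 0 < s → π * r0 W s ^ 2 * v s ≤ d ^ 2 * (H s * v s) * rho (49 / 50) m s := by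
    intro s hs
    have h1 : hh m s ≤ H s * rho (49 / 50) m s :=
      (hh_le hm hs).trans (mul_le_mul_of_nonneg_right (hH s hs) (hρ s hs).le)
    have h2 : π * r0 W s ^ 2 ≤ d ^ 2 * (H s * rho (49 / 50) m s) :=
      (hpt s hs).trans (mul_le_mul_of_nonneg_left h1 (sq_nonneg d))
    have h3 := mul_le_mul_of_nonneg_right h2 (hv0 s hs)
    calc π * r0 W s ^ 2 * v s ≤ d ^ 2 * (H s * rho (49 / 50) m s) * v s := h3
      _ = d ^ 2 * (H s * v s) * rho (49 / 50) m s := by ring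
  have hK' : ∫ s in Ioi (0 : ℝ), d ^ 2 * (H s * v s) ≤ (K * d) ^ 2 := by
    rw [integral_const_mul]
    calc d ^ 2 * ∫ s in Ioi (0 : ℝ), H s * v s ≤ d ^ 2 * K ^ 2 :=
          mul_le_mul_of_nonneg_left hK (sq_nonneg d)
      _ = (K * d) ^ 2 := by ring
  exact rn_bound (ν := 49 / 50) (κ := fun s => d ^ 2 * (H s * v s)) (K := K * d) hf hW hV hm0.le hn
    hρ hv (hi.const_mul _) hle (mul_nonneg hK0 hd) hK' hY0 hY

theorem v_nonneg {m s : ℝ} (hm : 0 < m) (hs : 0 < s) :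
    0 ≤ v0 m s ∧ 0 ≤ v1 m s ∧ 0 ≤ v2 m s ∧ 0 ≤ v1y m s := by
  refine ⟨?_, ?_, ?_, ?_⟩
  · unfold v0 s0 en1
    positivity
  · unfold v1 s1 en2
    positivity
  · unfold v2 s1 s2 en2
    positivity
  · unfold v1y s1
    positivity

theorem sbnm_alg {x X L q a b : ℝ} (hx : 0 ≤ x) (hX : 0 ≤ X) (hL0 : 0 ≤ L) (hL : L ≤ 1157 / 200)
    (hq : |q| ≤ X / 10000 * x) (ha : |a| ≤ 49 / 5000 * X * x) (hb : |b| ≤ 19 / 500 * x ^ 2)
    (he : x ^ 2 = q + L * (a + b)) : x ^ 2 ≤ (73 / 1000 * X) ^ 2 := by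
  have h1 : q ≤ X / 10000 * x := (le_abs_self q).trans hq
  have h2 : a + b ≤ 49 / 5000 * X * x + 19 / 500 * x ^ 2 :=
    add_le_add ((le_abs_self a).trans ha) ((le_abs_self b).trans hb)
  have h3 : 0 ≤ 49 / 5000 * X * x + 19 / 500 * x ^ 2 := by positivity
  have h4 : L * (a + b) ≤ 1157 / 200 * (49 / 5000 * X * x + 19 / 500 * x ^ 2) :=
    (mul_le_mul_of_nonneg_left h2 hL0).trans (mul_le_mul_of_nonneg_right hL h3)
  have h5 : x ≤ 73 / 1000 * X := by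
    by_contra hc
    have hc' : 73 / 1000 * X < x := not_le.mp hc
    have hx0 : 0 < x := lt_of_le_of_lt (by positivity) hc'
    have h6 : 73 / 1000 * X * x < x * x := mul_lt_mul_of_pos_right hc' hx0
    have h7 : 0 ≤ X * x := mul_nonneg hX hx
    nlinarith
  exact pow_le_pow_left₀ hx h5 2

theorem good_of_near {m ν d : ℝ} (hm : 4 ≤ m) (hν : m ≤ ν) {W : ℝ × ℝ → ℝ} (hW : Adm W)
    (hd : 0 ≤ d) (hD : Db ν W W = d ^ 2)
    (hq : Db ν W W - lam ν * Bw (om ν) W W ≤ ((4 / m) ^ 2 / 10000 * d) ^ 2) : Good m ν W d := by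
  have hm0 : 0 < m := by linarith
  have hν4 : 4 ≤ ν := hm.trans hν
  have hpt : ∀ s, 0 < s → π * r0 W s ^ 2 ≤ d ^ 2 * hh m s :=
    fun s hs => el_bound hm hν hW hd hD hq hs
  refine ⟨hW, hd, hD, hpt, ?_⟩
  have hD0 : 0 ≤ Db ν (ang W) (ang W) := by
    unfold Db
    exact add_nonneg (E1_nonneg _) (mul_nonneg (sq_nonneg ν) (E2_nonneg _))
  obtain ⟨x, hx0, hx⟩ : ∃ x : ℝ, 0 ≤ x ∧ Db ν (ang W) (ang W) = x ^ 2 :=
    ⟨√(Db ν (ang W) (ang W)), sqrt_nonneg _, (sq_sqrt hD0).symm⟩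
  have hL0 : 0 ≤ lam ν := lam_nonneg (by linarith)
  have hB0 : 0 ≤ Bw (om ν) (ang W) (ang W) := by
    rw [← Bn_eq]
    exact Bn_nonneg (by linarith) _
  have hq2 : Db ν (ang W) (ang W) - lam ν * Bw (om ν) (ang W) (ang W) ≤ x ^ 2 := by
    have := mul_nonneg hL0 hB0
    linarith
  have hX0 : 0 ≤ (4 / m) ^ 2 / 10000 * d := by positivity
  have h1 := q_cs (n := ν) (by linarith) hW hW.ang hX0 hx0 hq hq2
  have hwt : Wt (om ν) := wt_om hν4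
  have h2 : Bw (om ν) W (ang W) =
      Bw (om ν) (rad W) (ang W) + Bw (om ν) (ang W) (ang W) := by
    have h := Bw_lc hwt.int hW.rad hW.ang hW.ang 1 1
    rw [lc_rad_ang, one_mul, one_mul] at h
    exact h
  have hK0 : (0 : ℝ) ≤ 49 / 5000 * (4 / m) ^ 2 := by positivity
  have h3 := good_rn (ν := ν) (H := Pool.Agent.PSF.hq m) (v := v0 m) hm hν hwt hW hW hd hpt
    (fun s hs => (var_om hm hν hs).1) (fun s hs => (v_nonneg hm0 hs).1) (fun s _ => le_rfl)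
    (num_k0 hm).1 hK0 (num_k0 hm).2 hx0 hx.le
  have h4 := M_nn_le hm hν hν hW hx0 hx.le
  have h5 := Db_ang hW hW ν
  have hX : 0 ≤ (4 / m) ^ 2 * d := by positivity
  have h6 := sbnm_alg (x := x) (X := (4 / m) ^ 2 * d) (L := lam ν)
    (q := Db ν W (ang W) - lam ν * Bw (om ν) W (ang W)) (a := Bw (om ν) (rad W) (ang W))
    (b := Bw (om ν) (ang W) (ang W)) hx0 hX hL0 (lam_le_bar hν4)
    (h1.trans (le_of_eq (by ring))) (h3.trans (le_of_eq (by ring))) h4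
    (by rw [h5, hx, h2]; ring)
  rw [hx]
  exact h6.trans (le_of_eq (by ring))

end Pool.Agent.PSF
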