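import Pool.Agent.P.MP_7b7370_an.SBWt1

set_option autoImplicit false

namespace Pool.Agent.PSF

open Real Set MeasureTheory

theorem sbwt2_sm {m n t s : ℝ} (h : Par m n t) (hs : 0 < s) :
    Summable (gk n s) ∧ Summable (gk (n + t) s) ∧ Summable (gk (n - t) s) := by
  have h1 := h.m4
  have h2 := h.t0
  have h3 := h.mn
  exact ⟨summable_gk (by linarith) hs, summable_gk (by linarith) hs, summable_gk (by linarith) hs⟩

theorem sbwt2_gen {m n t s : ℝ} (h : Par m n t) (hs : 0 < s) (c : ℕ → ℝ) (S : ℝ → ℝ)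
    (hS : ∀ ν, Summable (gk ν s) → HasSum (fun k => gk ν s k * c k) (S ν)) :
    ∑' k, (J2 n t fun ν => gk ν s k) * c k = J2 n t S ∧
      ∑' k, (J1 n t fun ν => gk ν s k) * c k = J1 n t S ∧
      ∑' k, (gk n s k + Jb n t fun ν => gk ν s k) * c k = S n + Jb n t S := by
  obtain ⟨a0, a1, a2⟩ := sbwt2_sm h hs
  refine ⟨?_, ?_, ?_⟩
  · rw [← (hasSum_J2 (F := fun k ν => gk ν s k * c k) (hS _ a0) (hS _ a1) (hS _ a2)).tsum_eq]
    refine tsum_congr fun k => ?_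
    unfold J2
    ring
  · rw [← (hasSum_J1 (F := fun k ν => gk ν s k * c k) (hS _ a1) (hS _ a2)).tsum_eq]
    refine tsum_congr fun k => ?_
    unfold J1
    ring
  · rw [← ((hS _ a0).add (hasSum_Jb (F := fun k ν => gk ν s k * c k) (hS _ a1) (hS _ a2))).tsum_eq]
    refine tsum_congr fun k => ?_
    unfold Jb
    ring

theorem sbwt2_C {m n t s : ℝ} (h : Par m n t) (hs : 0 < s) (φ : ℝ) :
    Cs (fun k => J2 n t fun ν => gk ν s k) φ = J2 n t (fun ν => Cs (gk ν s) φ) ∧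
      Cs (fun k => J1 n t fun ν => gk ν s k) φ = J1 n t (fun ν => Cs (gk ν s) φ) ∧
      Cs (fun k => gk n s k + Jb n t fun ν => gk ν s k) φ =
        Cs (gk n s) φ + Jb n t fun ν => Cs (gk ν s) φ :=
  sbwt2_gen h hs (fun k => cos (k * φ)) (fun ν => Cs (gk ν s) φ) fun _ a => hasSum_Cs a φ

theorem sbwt2_S {m n t s : ℝ} (h : Par m n t) (hs : 0 < s) (φ : ℝ) :
    Sn (fun k => J2 n t fun ν => gk ν s k) φ = J2 n t (fun ν => Sn (gk ν s) φ) ∧
      Sn (fun k => J1 n t fun ν => gk ν s k) φ = J1 n t (fun ν => Sn (gk ν s) φ) ∧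
      Sn (fun k => gk n s k + Jb n t fun ν => gk ν s k) φ =
        Sn (gk n s) φ + Jb n t fun ν => Sn (gk ν s) φ :=
  sbwt2_gen h hs (fun k => sin (k * φ)) (fun ν => Sn (gk ν s) φ) fun _ a => hasSum_Sn a φ

theorem w2_eq {m n t : ℝ} (h : Par m n t) {p : ℝ × ℝ} (hp : 0 < p.1) :
    w2 n t p = exp (-(2 * p.1)) *
      ((Cs (fun k => J2 n t fun ν => gk ν p.1 k) p.2 *
          (Cs (gk n p.1) p.2 + Jb n t fun ν => Cs (gk ν p.1) p.2) +
        Sn (fun k => J2 n t fun ν => gk ν p.1 k) p.2 *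
          (Sn (gk n p.1) p.2 + Jb n t fun ν => Sn (gk ν p.1) p.2)) +
        (Cs (fun k => J1 n t fun ν => gk ν p.1 k) p.2 ^ 2 +
          Sn (fun k => J1 n t fun ν => gk ν p.1 k) p.2 ^ 2)) := by
  have h1 := h.m4
  have h2 := h.t0
  have h3 := h.mn
  rw [(sbwt2_C h hp p.2).1, (sbwt2_C h hp p.2).2.1, (sbwt2_S h hp p.2).1, (sbwt2_S h hp p.2).2.1]
  unfold w2 J2 J1 Jb
  simp only
  rw [om_eq (ν := n) (by linarith) hp, om_eq (ν := n + t) (by linarith) hp,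
    om_eq (ν := n - t) (by linarith) hp]
  field_simp
  ring

theorem sbwt2_uj {m n t s : ℝ} (h : Par m n t) (hs : 0 < s) (k : ℕ) :
    ∃ A B C, UJ n t (fun ν => gk ν s k) A B C := by
  rcases k with _ | _ | k
  · exact ⟨_, _, _, gk_UJ_zero n t s⟩
  · exact ⟨_, _, _, gk_UJ_one h hs⟩
  · exact ⟨_, _, _, gk_UJ h hs (by omega)⟩

theorem sbwt2_z1 (n t s : ℝ) : (J1 n t fun ν => gk ν s 0) = 0 :=
  le_antisymm (gk_UJ_zero n t s).u1 (gk_UJ_zero n t s).p1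

theorem sbwt2_z2 (n t s : ℝ) : (J2 n t fun ν => gk ν s 0) = 0 :=
  le_antisymm (gk_UJ_zero n t s).u2 (gk_UJ_zero n t s).p2

theorem sbwt2_p1 {m n t s : ℝ} (h : Par m n t) (hs : 0 < s) (k : ℕ) :
    0 ≤ J1 n t fun ν => gk ν s k := by
  obtain ⟨A, B, C, u⟩ := sbwt2_uj h hs k
  exact u.p1

theorem sbwt2_p2 {m n t s : ℝ} (h : Par m n t) (hs : 0 < s) (k : ℕ) :
    0 ≤ J2 n t fun ν => gk ν s k := by
  obtain ⟨A, B, C, u⟩ := sbwt2_uj h hs k
  exact u.p2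

theorem sbwt2_a1 {m n t s : ℝ} (h : Par m n t) (hs : 0 < s) :
    Summable (fun k => J1 n t fun ν => gk ν s k) ∧
      ∑' k, (J1 n t fun ν => gk ν s k) ≤ 2 / m ^ 2 * (61 / 25 * exp (-(m * s / 4)) / (m * s)) ∧
      ∑' k, (J1 n t fun ν => gk ν s k) ^ 2 ≤ (2 / m ^ 2) ^ 2 * s1 (m * s) := by
  have hm : 0 < m := by linarith [h.m4]
  exact sum_s1 (by positivity) (by positivity) (sbwt2_z1 n t s) (sbwt2_p1 h hs)
    (gk_UJ_one h hs).u1 fun k hk => (gk_UJ h hs hk).u1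

theorem sbwt2_a2 {m n t s : ℝ} (h : Par m n t) (hs : 0 < s) :
    Summable (fun k => J2 n t fun ν => gk ν s k) ∧
      ∑' k, (J2 n t fun ν => gk ν s k) ≤ 2 / m ^ 3 * (9 / 2 / (m * s)) ∧
      ∑' k, (J2 n t fun ν => gk ν s k) ^ 2 ≤ (2 / m ^ 3) ^ 2 * s2 (m * s) := by
  have hm : 0 < m := by linarith [h.m4]
  exact sum_s2 (by positivity) (by positivity) (sbwt2_z2 n t s) (sbwt2_p2 h hs)
    (gk_UJ_one h hs).u2 fun k hk => (gk_UJ h hs hk).u2

theorem sbwt2_cs {a b c d X Y : ℝ} (hX : 0 ≤ X) (hY : 0 ≤ Y) (h1 : a ^ 2 + b ^ 2 ≤ X ^ 2)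
    (h2 : c ^ 2 + d ^ 2 ≤ Y ^ 2) : |a * c + b * d| ≤ X * Y := by
  refine abs_le_of_sq_le_sq' ?_ (mul_nonneg hX hY) |> abs_le.2
  have h3 := mul_le_mul h1 h2 (by positivity) (by positivity)
  nlinarith [sq_nonneg (a * d - b * c)]

theorem sup_w2 {m n t : ℝ} (h : Par m n t) {p : ℝ × ℝ} (hp : 0 < p.1) :
    |w2 n t p| ≤ exp (-(2 * p.1)) * (9 / 200 * (4 / m) ^ 4 * rho (3 / 5) m p.1) := by
  have h4 := h.m4
  have hm : 0 < m := by linarith
  have hu : 0 < m * p.1 := by positivity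
  obtain ⟨a1, b1, -⟩ := sbwt2_a1 h hp
  obtain ⟨a2, b2, -⟩ := sbwt2_a2 h hp
  rw [w2_eq h hp, abs_mul, abs_of_pos (exp_pos _)]
  refine mul_le_mul_of_nonneg_left ?_ (exp_pos _).le
  have c2 := (sq_add_sq_le a2 (sbwt2_p2 h hp) p.2).trans
    (pow_le_pow_left₀ (tsum_nonneg (sbwt2_p2 h hp)) b2 2)
  have b1' : ∑' k, (J1 n t fun ν => gk ν p.1 k) ≤ 2 / m ^ 2 * (61 / 25 / (m * p.1)) := by
    refine b1.trans (mul_le_mul_of_nonneg_left (div_le_div_of_nonneg_right ?_ hu.le)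
      (by positivity))
    have := exp_le_one_iff.2 (show -(m * p.1 / 4) ≤ 0 by linarith)
    linarith
  have c1 := (sq_add_sq_le a1 (sbwt2_p1 h hp) p.2).trans
    (pow_le_pow_left₀ (tsum_nonneg (sbwt2_p1 h hp)) b1' 2)
  have g1 := G_sq_le h4 (show m ≤ n by linarith [h.mn, h.t0]) hp p.2
  have g2 := Jb_G_sq_le h hp p.2
  have g3 : 1 + 1 / (m * p.1) ≤ (5 / 4 + 1 / (4 * (m * p.1))) ^ 2 := by
    have e : 1 / (4 * (m * p.1)) = 1 / (m * p.1) / 4 := by field_simp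
    rw [e]
    nlinarith [sq_nonneg (3 / 4 - 1 / (m * p.1) / 4)]
  have g4 : (Cs (gk n p.1) p.2 + Jb n t fun ν => Cs (gk ν p.1) p.2) ^ 2 +
      (Sn (gk n p.1) p.2 + Jb n t fun ν => Sn (gk ν p.1) p.2) ^ 2 ≤
        (2 * (5 / 4 + 1 / (4 * (m * p.1)))) ^ 2 := by
    nlinarith [sq_nonneg (Cs (gk n p.1) p.2 - Jb n t fun ν => Cs (gk ν p.1) p.2),
      sq_nonneg (Sn (gk n p.1) p.2 - Jb n t fun ν => Sn (gk ν p.1) p.2)]
  have k := sbwt2_cs (by positivity) (by positivity) c2 g4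
  refine (abs_add_le _ _).trans ((add_le_add k ((abs_of_nonneg (by positivity)).trans_le c1)).trans
    ?_)
  have e : 9 / 200 * (4 / m) ^ 4 * rho (3 / 5) m p.1 -
      (2 / m ^ 3 * (9 / 2 / (m * p.1)) * (2 * (5 / 4 + 1 / (4 * (m * p.1)))) +
        (2 / m ^ 2 * (61 / 25 / (m * p.1))) ^ 2) =
      ((27648 / 10000 + 13824 / 1000 * (m * p.1)) * m ^ 2 - (45 / 2 * (m * p.1) + 9 / 2) * m -
        238144 / 10000) / (m ^ 4 * (m * p.1) ^ 2) := by
    unfold rho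
    field_simp
    ring
  rw [← sub_nonneg, e]
  refine div_nonneg ?_ (by positivity)
  nlinarith [mul_nonneg (mul_nonneg hu.le hm.le) (sub_nonneg.2 h4), mul_nonneg hu.le hm.le,
    mul_nonneg hm.le (sub_nonneg.2 h4)]

theorem var_w2 {m n t s : ℝ} (h : Par m n t) (hs : 0 < s) : Var (w2 n t) s (v2 m s) := by
  have h4 := h.m4
  have hm : 0 < m := by linarith
  have hu : 0 < m * s := by positivity
  obtain ⟨a1, b1, c1⟩ := sbwt2_a1 h hs
  obtain ⟨a2, -, c2⟩ := sbwt2_a2 h hs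
  obtain ⟨d0, d1, d2⟩ := sbwt2_sm h hs
  set δ : ℕ → ℝ := fun k => gk n s k + Jb n t fun ν => gk ν s k with hδ
  have sδ : Summable δ :=
    d0.add (hasSum_Jb (F := fun k ν => gk ν s k) (S := fun ν => ∑' k, gk ν s k) d1.hasSum
      d2.hasSum).summable
  have δ0 : δ 0 = 2 := by
    simp only [hδ, Jb, gk_zero]
    norm_num
  have pδ : ∀ k, 0 ≤ tl δ k := fun k => by
    obtain ⟨A, B, C, u⟩ := sbwt2_uj h hs k
    unfold tl
    split_ifs
    · exact le_rfl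
    · exact add_nonneg u.p0 u.Jb_nonneg
  obtain ⟨a0, b0, -⟩ := sum_s0 (u := m * s) (T := 4 / m) (α := tl δ) hu (by positivity)
    (if_pos rfl) pδ (by
      have u := gk_UJ_one h hs
      have e : 4 / m * exp (-(m * s)) = 2 / m * exp (-(m * s)) + 2 / m * exp (-(m * s)) := by ring
      rw [e]
      exact add_le_add u.u0 u.Jb_le) fun k hk => by
      have u := gk_UJ h hs hk
      have e : 3 / 4 * (4 / m) * exp (-(k * (m * s))) = 3 / 4 * (2 / m) * exp (-(k * (m * s))) +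
        3 / 4 * (2 / m) * exp (-(k * (m * s))) := by ring
      rw [e, tl, if_neg (by omega)]
      exact add_le_add u.u0 u.Jb_le
  have b0' : ∑' k, tl δ k ≤ exp (-(m * s / 2)) / (m * s) :=
    b0.trans (mul_le_of_le_one_left (by positivity) ((div_le_one hm).2 h4))
  have k1 := var_le a2 (sbwt2_z2 n t s) c2 (L := exp (-(m * s / 2)) / (m * s)) (by positivity)
    (continuous_Cs a0) (continuous_Sn a0) fun φ =>
      (sq_add_sq_le a0 pδ φ).trans (pow_le_pow_left₀ (tsum_nonneg pδ) b0' 2)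
  have k2 := var_sq_le a1 (sbwt2_p1 h hs) c1 b1
  have q1 := continuous_Cs a0
  have q2 := continuous_Sn a0
  have q3 := continuous_Cs a1
  have q4 := continuous_Sn a1
  have q5 := continuous_Cs a2
  have q6 := continuous_Sn a2
  have k3 := var_add_le (by fun_prop) (by fun_prop) k1 k2
  refine ⟨0, ?_⟩
  have e : ∀ φ, (w2 n t (s, φ) - 0) ^ 2 = exp (-(4 * s)) *
      ((2 * Cs (fun k => J2 n t fun ν => gk ν s k) φ +
        (Cs (fun k => J2 n t fun ν => gk ν s k) φ * Cs (tl δ) φ +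
          Sn (fun k => J2 n t fun ν => gk ν s k) φ * Sn (tl δ) φ)) +
        (Cs (fun k => J1 n t fun ν => gk ν s k) φ ^ 2 +
          Sn (fun k => J1 n t fun ν => gk ν s k) φ ^ 2)) ^ 2 := fun φ => by
    have e1 : exp (-(4 * s)) = exp (-(2 * s)) ^ 2 := by
      rw [sq, ← exp_add]
      congr 1
      ring
    rw [w2_eq h (p := (s, φ)) hs]
    simp only
    rw [← (sbwt2_C h hs φ).2.2, ← (sbwt2_S h hs φ).2.2, ← hδ, Cs_tl sδ, Sn_tl sδ, δ0, e1]
    ring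
  simp only [e]
  rw [intervalIntegral.integral_const_mul]
  refine (mul_le_mul_of_nonneg_left k3 (exp_pos _).le).trans ?_
  have e2 : (exp (-(m * s / 2)) / (m * s)) ^ 2 = exp (-(m * s)) / (m * s) ^ 2 := by
    rw [div_pow, sq (exp _), ← exp_add]
    congr 2
    ring
  have e3 : exp (-(m * s / 4)) ^ 2 = exp (-(m * s / 2)) := by
    rw [sq, ← exp_add]
    congr 1
    ring
  have p1 : 0 ≤ s1 (m * s) := by
    unfold s1
    positivity
  have k4 : 7 / 2 * ((2 / m ^ 2) ^ 2 * (2 / m ^ 2 * (61 / 25 * exp (-(m * s / 4)) / (m * s))) ^ 2) ≤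
      (2 / m ^ 3) ^ 2 * (21 / 4 * (exp (-(m * s / 2)) / (m * s) ^ 2)) := by
    have e4 : 7 / 2 * ((2 / m ^ 2) ^ 2 *
        (2 / m ^ 2 * (61 / 25 * exp (-(m * s / 4)) / (m * s))) ^ 2) =
        (2 / m ^ 3) ^ 2 * (14 * (61 / 25) ^ 2 / m ^ 2 * (exp (-(m * s / 2)) / (m * s) ^ 2)) := by
      rw [← e3]
      field_simp
      ring
    rw [e4]
    refine mul_le_mul_of_nonneg_left (mul_le_mul_of_nonneg_right ?_ (by positivity))
      (by positivity)
    rw [div_le_iff₀ (by positivity)]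
    nlinarith
  have k5 := mul_le_mul_of_nonneg_left k4 (mul_nonneg (mul_nonneg (exp_pos (-(4 * s))).le
    pi_pos.le) p1)
  rw [e2]
  unfold v2 en2
  have e5 : 283 / 100 * exp (-(m * s / 2)) / (m * s) = 283 / 100 * (exp (-(m * s / 2)) / (m * s)) :=
    mul_div_assoc _ _ _
  rw [e5]
  linarith

end Pool.Agent.PSF
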