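import Pool.Agent.P.MP_7b7370_an.SBFub
import Pool.Agent.P.MP_7b7370_an.SBBin

set_option autoImplicit false

namespace Pool.Agent.PSF

open Real Set MeasureTheory

theorem ar_eq {ν : ℝ} (hν : 4 ≤ ν) :
    IntegrableOn (fun s => exp (-(2 * s)) * om0 ν s) (Ioi 0) ∧
      ar ν = 2 * ∫ s in Ioi (0 : ℝ), exp (-(2 * s)) * om0 ν s := by
  obtain ⟨h1, h2⟩ := integral_Pi0 (integrableOn_om (n := ν) (by linarith))
  have he : EqOn (mean (om ν)) (fun s => π * (exp (-(2 * s)) * om0 ν s)) (Ioi 0) :=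
    fun s hs => mean_om hν hs
  have h3 : IntegrableOn (fun s => π * (exp (-(2 * s)) * om0 ν s)) (Ioi 0) :=
    h1.congr_fun he measurableSet_Ioi
  refine ⟨?_, ?_⟩
  · have h4 : IntegrableOn (fun s => π⁻¹ * (π * (exp (-(2 * s)) * om0 ν s))) (Ioi 0) :=
      h3.const_mul _
    refine h4.congr_fun (fun s _ => ?_) measurableSet_Ioi
    simp only
    rw [← mul_assoc, inv_mul_cancel₀ pi_ne_zero, one_mul]
  · unfold ar An
    rw [h2, setIntegral_congr_fun measurableSet_Ioi he, integral_const_mul]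
    field_simp

theorem sbz_om0_le {ν s : ℝ} (hν : 4 ≤ ν) (hs : 1 ≤ s) : om0 ν s ≤ 2 := by
  have hs0 : 0 < s := by linarith
  have hg := summable_gk hν hs0
  have h1 := parseval hg
  have h2 : ∫ φ in (0 : ℝ)..π, (Cs (gk ν s) φ ^ 2 + Sn (gk ν s) φ ^ 2)
      ≤ ∫ _φ in (0 : ℝ)..π, (2 : ℝ) := by
    refine intervalIntegral.integral_mono_on pi_pos.le ?_ ?_ fun φ _ => ?_
    · exact (((continuous_Cs hg).pow 2).add ((continuous_Sn hg).pow 2)).intervalIntegrable _ _
    · exact continuous_const.intervalIntegrable _ _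
    · have h3 := G_sq_le (le_refl (4 : ℝ)) hν hs0 φ
      have h4 : 1 / (4 * s) ≤ 1 := by
        rw [div_le_one (by positivity)]
        linarith
      linarith
  rw [h1, intervalIntegral.integral_const, sub_zero, smul_eq_mul] at h2
  exact le_of_mul_le_mul_left h2 pi_pos

theorem integrableOn_Zf {ν β : ℝ} (hν : 4 ≤ ν) (hβ : 0 < β) (j : ℕ) :
    IntegrableOn (fun s : ℝ => s ^ j * exp (-(β * s)) * om0 ν s) (Ioi 0) := by
  have h1 := (ar_eq hν).1
  have h2 := (int_pow_exp j hβ).1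
  have h3 : IntegrableOn (fun s : ℝ => exp 2 * (exp (-(2 * s)) * om0 ν s)
      + 2 * (s ^ j * exp (-(β * s)))) (Ioi 0) := (h1.const_mul _).add (h2.const_mul _)
  have hm : AEStronglyMeasurable (fun s : ℝ => s ^ j * exp (-(β * s)) * om0 ν s)
      (volume.restrict (Ioi 0)) := by
    have hc : Continuous fun s : ℝ => s ^ j * exp (-(β * s)) * exp (2 * s) := by fun_prop
    have h4 := hc.aestronglyMeasurable.mul h1.aestronglyMeasurable
    refine h4.congr (Filter.Eventually.of_forall fun s => ?_)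
    simp only [Pi.mul_apply]
    have e : exp (2 * s) * exp (-(2 * s)) = 1 := by rw [← exp_add, add_neg_cancel, exp_zero]
    calc s ^ j * exp (-(β * s)) * exp (2 * s) * (exp (-(2 * s)) * om0 ν s)
        = s ^ j * exp (-(β * s)) * (exp (2 * s) * exp (-(2 * s))) * om0 ν s := by ring
      _ = _ := by rw [e, mul_one]
  refine Integrable.mono' h3 hm ?_
  filter_upwards [ae_restrict_mem measurableSet_Ioi] with s hs
  have hs0 : 0 < s := hs
  have ho := one_le_om0 hν hs0
  have hp : 0 ≤ s ^ j * exp (-(β * s)) := by positivity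
  rw [Real.norm_eq_abs, abs_of_nonneg (mul_nonneg hp (by linarith))]
  rcases le_total s 1 with h | h
  · have a1 : s ^ j ≤ 1 := pow_le_one₀ hs0.le h
    have a2 : exp (-(β * s)) ≤ 1 := exp_le_one_iff.2 (by nlinarith [mul_pos hβ hs0])
    have a3 : s ^ j * exp (-(β * s)) ≤ 1 := mul_le_one₀ a1 (exp_pos _).le a2
    have a4 : 1 ≤ exp 2 * exp (-(2 * s)) := by
      rw [← exp_add]
      exact one_le_exp (by linarith)
    have a5 : s ^ j * exp (-(β * s)) * om0 ν s ≤ exp 2 * exp (-(2 * s)) * om0 ν s :=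
      mul_le_mul_of_nonneg_right (a3.trans a4) (by linarith)
    nlinarith
  · have a1 := sbz_om0_le hν h
    have a2 : 0 ≤ exp 2 * (exp (-(2 * s)) * om0 ν s) :=
      mul_nonneg (exp_pos _).le (mul_nonneg (exp_pos _).le (by linarith))
    nlinarith [mul_le_mul_of_nonneg_left a1 hp]

theorem hasSum_Zf {ν β : ℝ} (hν : 4 ≤ ν) (hβ : 0 < β) (j : ℕ) :
    HasSum (fun k : ℕ => bk (2 / ν) k ^ 2 * (j.factorial / (β + 2 * ν * k) ^ (j + 1)))
      (Zf j β ν) := by
  have hA : ∀ k : ℕ, 0 < β + 2 * ν * k := fun k => by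
    have : (0 : ℝ) ≤ k := Nat.cast_nonneg k
    have : 0 ≤ 2 * ν * k := by positivity
    linarith
  have hF : ∀ (k : ℕ) (s : ℝ), bk (2 / ν) k ^ 2 * (s ^ j * exp (-((β + 2 * ν * k) * s)))
      = s ^ j * exp (-(β * s)) * gk ν s k ^ 2 := by
    intro k s
    have e : exp (-((β + 2 * ν * k) * s)) = exp (-(β * s)) * exp (-(k * ν * s)) ^ 2 := by
      rw [← exp_nat_mul, ← exp_add]
      congr 1
      push_cast
      ring
    rw [e]
    unfold gk
    ring
  have hS : ∀ s : ℝ, 0 < s → HasSum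
      (fun k : ℕ => bk (2 / ν) k ^ 2 * (s ^ j * exp (-((β + 2 * ν * k) * s))))
      (s ^ j * exp (-(β * s)) * om0 ν s) := by
    intro s hs
    simp only [hF]
    exact (summable_gk_sq hν hs).hasSum.mul_left _
  have key := hasSum_integral_of_dominated_convergence (μ := volume.restrict (Ioi (0 : ℝ)))
    (F := fun (k : ℕ) (s : ℝ) => bk (2 / ν) k ^ 2 * (s ^ j * exp (-((β + 2 * ν * k) * s))))
    (f := fun s : ℝ => s ^ j * exp (-(β * s)) * om0 ν s)
    (fun (k : ℕ) (s : ℝ) => bk (2 / ν) k ^ 2 * (s ^ j * exp (-((β + 2 * ν * k) * s))))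
    (fun k => ((int_pow_exp j (hA k)).1.const_mul _).aestronglyMeasurable)
    (fun k => by
      filter_upwards [ae_restrict_mem measurableSet_Ioi] with s hs
      have hs0 : 0 < s := hs
      rw [Real.norm_eq_abs, abs_of_nonneg (by positivity)])
    (by
      filter_upwards [ae_restrict_mem measurableSet_Ioi] with s hs
      exact (hS s hs).summable)
    ((integrableOn_Zf hν hβ j).congr (by
      filter_upwards [ae_restrict_mem measurableSet_Ioi] with s hs
      exact (hS s hs).tsum_eq.symm))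
    (by
      filter_upwards [ae_restrict_mem measurableSet_Ioi] with s hs
      exact hS s hs)
  have e2 : (fun k : ℕ => bk (2 / ν) k ^ 2 * (j.factorial / (β + 2 * ν * k) ^ (j + 1)))
      = fun k : ℕ => ∫ s in Ioi (0 : ℝ),
        bk (2 / ν) k ^ 2 * (s ^ j * exp (-((β + 2 * ν * k) * s))) := by
    funext k
    rw [integral_const_mul, (int_pow_exp j (hA k)).2]
  rw [e2]
  exact key

theorem hasSum_ar {ν : ℝ} (hν : 4 ≤ ν) : HasSum (Ak ν) (ar ν) := by
  have h := (hasSum_Zf hν (β := 2) two_pos 0).mul_left 2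
  have e1 : ar ν = 2 * Zf 0 2 ν := by
    rw [(ar_eq hν).2]
    unfold Zf
    simp only [pow_zero, one_mul]
  have e2 : Ak ν = fun k : ℕ => 2 * (bk (2 / ν) k ^ 2 *
      ((Nat.factorial 0 : ℕ) / (2 + 2 * ν * k) ^ (0 + 1))) := by
    funext k
    have : (0 : ℝ) ≤ k := Nat.cast_nonneg k
    have h1 : 0 < 1 + ν * k := by positivity
    have h2 : 0 < 2 + 2 * ν * k := by positivity
    unfold Ak
    simp only [Nat.factorial_zero, Nat.cast_one, zero_add, pow_one]
    field_simp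
  rw [e1, e2]
  exact h

theorem hasSum_psi {ν : ℝ} (hν : 4 ≤ ν) :
    HasSum (fun k : ℕ => bk (2 / ν) k ^ 2 * psi k ν) (ar ν - 6376 / 1000 * Zh ν) := by
  have h0 := hasSum_ar hν
  have h1 := (hasSum_Zf hν (β := 3) three_pos 2).mul_left (29 / 10)
  have h2 := (hasSum_Zf hν (β := 2) two_pos 2).mul_left (2 / 5)
  have h3 := (hasSum_Zf hν (β := 2) two_pos 1).mul_left (1 / 10000)
  have h := h0.sub (((h1.add h2).add h3).mul_left (6376 / 1000))
  have e : (fun k : ℕ => bk (2 / ν) k ^ 2 * psi k ν) = fun k : ℕ => Ak ν k - 6376 / 1000 *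
      (29 / 10 * (bk (2 / ν) k ^ 2 * ((Nat.factorial 2 : ℕ) / (3 + 2 * ν * k) ^ (2 + 1))) +
        2 / 5 * (bk (2 / ν) k ^ 2 * ((Nat.factorial 2 : ℕ) / (2 + 2 * ν * k) ^ (2 + 1))) +
        1 / 10000 * (bk (2 / ν) k ^ 2 * ((Nat.factorial 1 : ℕ) / (2 + 2 * ν * k) ^ (1 + 1)))) := by
    funext k
    unfold psi Ak
    simp only [Nat.factorial_two, Nat.factorial_one, Nat.cast_one, Nat.cast_ofNat]
    ring
  rw [e]
  exact h

end Pool.Agent.PSF
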