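import Pool.Agent.P.MP_7b7370_an.SBNM
import Pool.Agent.P.MP_7b7370_an.SBWt2
import Pool.Agent.P.MP_7b7370_an.SBZ

set_option autoImplicit false

namespace Pool.Agent.PSF

open Real Set MeasureTheory

lemma sbpack_mean {m n t s : ℝ} (h : Par m n t) (hs : 0 < s) : 0 ≤ mean (w1 n t) s := by
  rw [mean_w1 h hs]
  exact mul_nonneg pi_pos.le (mul_nonneg (exp_pos _).le (J1_om0_nonneg h hs))

lemma sbpack_rr {m n t c K : ℝ} {U : ℝ × ℝ → ℝ} {b : ℝ → ℝ} (h : Par m n t) (hU : Adm U)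
    (hc : 0 ≤ c) (hb : ∀ s, 0 < s → π * r0 U s ^ 2 ≤ c * b s)
    (hi : IntegrableOn (fun s => b s * exp (-(2 * s)) * (2 / m * (2 / m ^ 2) * o1 (m * s))) (Ioi 0))
    (hK : ∫ s in Ioi (0 : ℝ), b s * exp (-(2 * s)) * (2 / m * (2 / m ^ 2) * o1 (m * s)) ≤ K) :
    Bw (w1 n t) (rad U) (rad U) ≤ K * c := by
  obtain ⟨h1, h2⟩ := Bw_rad (wt_w1 h).int hU hU
  rw [h2, mul_comm K c]
  refine le_trans ?_ (mul_le_mul_of_nonneg_left hK hc)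
  rw [← integral_const_mul]
  refine setIntegral_mono_on h1 (hi.const_mul c) measurableSet_Ioi fun s hs => ?_
  have h3 := hb s hs
  have h4 := J1_om0_nonneg h hs
  have h5 := J1_om0_le h hs
  have h6 : 0 ≤ π * r0 U s ^ 2 := mul_nonneg pi_pos.le (sq_nonneg _)
  have h7 := mul_le_mul h3 (mul_le_mul_of_nonneg_left h5 (exp_pos (-(2 * s))).le)
    (mul_nonneg (exp_pos _).le h4) (h6.trans h3)
  rw [mean_w1 h hs]
  linarith

lemma sbpack_x {m : ℝ} (hm : 4 ≤ m) : 0 < 4 / m ∧ 4 / m ≤ 1 :=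
  ⟨div_pos (by norm_num) (by linarith), (div_le_one (by linarith)).2 hm⟩

lemma sbpack_nn {m n t ν ν' X Y : ℝ} {U V : ℝ × ℝ → ℝ} (h : Par m n t) (hU : Adm U) (hV : Adm V)
    (hν : m ≤ ν) (hν' : m ≤ ν') (hX0 : 0 ≤ X) (hY0 : 0 ≤ Y)
    (hX : Db ν (ang U) (ang U) ≤ X ^ 2) (hY : Db ν' (ang V) (ang V) ≤ Y ^ 2) :
    |Bw (w1 n t) (ang U) (ang V)| ≤ 1 / 25 * (4 / m) ^ 4 * (X * Y) := by
  have hm : 0 < m := by linarith [h.m4]
  refine nn_bound (ν := 3 / 5) (wt_w1 h) hU hV hm.le hν hν' (fun s hs => ?_) (by positivity)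
    (fun p hp => (crude_of_sup h.m4 hp (by norm_num) (by norm_num) (sup_w1 h hp)).2) hX0 hY0 hX hY
  unfold rho
  positivity

lemma sbpack_rn {m ν ν' n t d Y : ℝ} {W V : ℝ × ℝ → ℝ} (h : Par m n t) (hW : Good m ν W d)
    (hV : Adm V) (hν' : m ≤ ν') (hY0 : 0 ≤ Y) (hY : Db ν' (ang V) (ang V) ≤ Y ^ 2) :
    |Bw (w1 n t) (rad W) (ang V)| ≤ 71 / 10000 * (4 / m) ^ 3 * d * Y := by
  have hm : 0 < m := by linarith [h.m4]
  exact good_rn (ν := ν) h.m4 hν' (wt_w1 h) hW.adm hV hW.d0 hW.pt (fun s hs => (var_w1 h hs).1)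
    (fun s hs => (v_nonneg hm hs).2.1) (fun s _ => le_rfl) (num_k1 h.m4).1 (by positivity)
    (num_k1 h.m4).2 hY0 hY

theorem w1_rr {m ν n t d : ℝ} {W : ℝ × ℝ → ℝ} (h : Par m n t) (hW : Good m ν W d) :
    0 ≤ Bw (w1 n t) (rad W) (rad W) ∧
      Bw (w1 n t) (rad W) (rad W) ≤ 91 / 50000 * (4 / m) ^ 4 * d ^ 2 := by
  refine ⟨?_, sbpack_rr h hW.adm (sq_nonneg d) hW.pt (num_b1 h.m4).1 (num_b1 h.m4).2⟩
  rw [(Bw_rad (wt_w1 h).int hW.adm hW.adm).2]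
  exact setIntegral_nonneg measurableSet_Ioi fun s hs =>
    mul_nonneg (sbpack_mean h hs) (mul_self_nonneg _)

theorem w1_rr_y {m n t Y : ℝ} {y : ℝ × ℝ → ℝ} (h : Par m n t) (hy : Adm y)
    (hY : E1 (rad y) (rad y) ≤ Y ^ 2) :
    Bw (w1 n t) (rad y) (rad y) ≤ 1 / 250 * (4 / m) ^ 3 * Y ^ 2 :=
  sbpack_rr (b := fun s => s) h hy (sq_nonneg Y) (fun _ hs => r0_sq_le hy hY hs)
    (num_b1y h.m4).1 (num_b1y h.m4).2

theorem w1_diag {m ν n t d : ℝ} {W : ℝ × ℝ → ℝ} (h : Par m n t) (hν : m ≤ ν)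
    (hW : Good m ν W d) :
    -(1 / 800 * (4 / m) ^ 5 * d ^ 2) ≤ Bw (w1 n t) W W ∧
      Bw (w1 n t) W W ≤ 307 / 100000 * (4 / m) ^ 4 * d ^ 2 := by
  obtain ⟨x0, x1⟩ := sbpack_x h.m4
  have hd := hW.d0
  have hY : 0 ≤ 73 / 1000 * (4 / m) ^ 2 * d := by positivity
  obtain ⟨a1, a2⟩ := w1_rr h hW
  obtain ⟨b1, b2⟩ := abs_le.1 (sbpack_rn h hW hW.adm hν hY hW.an)
  obtain ⟨c1, c2⟩ := abs_le.1 (sbpack_nn h hW.adm hW.adm hν hν hY hY hW.an hW.an)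
  rw [Bw_split (wt_w1 h).int hW.adm hW.adm]
  generalize 4 / m = x at *
  have e1 : x ^ 8 * d ^ 2 ≤ x ^ 5 * d ^ 2 :=
    mul_le_mul_of_nonneg_right (pow_le_pow_of_le_one x0.le x1 (by norm_num)) (sq_nonneg d)
  have e2 : x ^ 5 * d ^ 2 ≤ x ^ 4 * d ^ 2 :=
    mul_le_mul_of_nonneg_right (pow_le_pow_of_le_one x0.le x1 (by norm_num)) (sq_nonneg d)
  have e3 : 0 ≤ x ^ 5 * d ^ 2 := by positivity
  constructor <;> linarith

theorem w1_cross {m ν n t d Y0 Y1 : ℝ} {W y : ℝ × ℝ → ℝ} (h : Par m n t) (hν : m ≤ ν)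
    (hW : Good m ν W d) (hy : Adm y) (h0 : 0 ≤ Y0) (h1 : 0 ≤ Y1)
    (hY0 : E1 (rad y) (rad y) ≤ Y0 ^ 2) (hY1 : Db ν (ang y) (ang y) ≤ Y1 ^ 2) :
    |Bw (w1 n t) W y| ≤ (4 / m) ^ 3 * d * (77 / 20000 * Y0 + 501 / 50000 * Y1) := by
  obtain ⟨x0, x1⟩ := sbpack_x h.m4
  have hm : 0 < m := by linarith [h.m4]
  have hd := hW.d0
  have hY : 0 ≤ 73 / 1000 * (4 / m) ^ 2 * d := by positivity
  have a : |Bw (w1 n t) (rad W) (rad y)| ≤
      4267 / 100000 * (4 / m) ^ 2 * d * (253 / 4000 * (4 / m) * Y0) := by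
    refine rr_cs (wt_w1 h).int hW.adm hy (fun s hs => sbpack_mean h hs) (by positivity)
      (by positivity) ((w1_rr h hW).2.trans ?_) ((w1_rr_y h hy hY0).trans ?_)
    · have e : 0 ≤ (4 / m) ^ 4 * d ^ 2 := by positivity
      linarith
    · have e1 : (4 / m) ^ 3 * Y0 ^ 2 ≤ (4 / m) ^ 2 * Y0 ^ 2 :=
        mul_le_mul_of_nonneg_right (pow_le_pow_of_le_one x0.le x1 (by norm_num)) (sq_nonneg Y0)
      have e2 : 0 ≤ (4 / m) ^ 2 * Y0 ^ 2 := by positivity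
      linarith
  have b := sbpack_rn h hW hy hν h1 hY1
  have c : |Bw (w1 n t) (rad y) (ang W)| ≤
      39 / 2500 * (4 / m) * Y0 * (73 / 1000 * (4 / m) ^ 2 * d) := by
    refine rn_bound (ν := 1) (κ := fun s => Y0 ^ 2 * (s ^ 2 / (2 * m) * v1y m s)) (wt_w1 h) hy
      hW.adm hm.le hν (fun s hs => ?_) (fun s hs => (var_w1 h hs).2)
      ((num_k1y h.m4).1.const_mul _) (fun s hs => ?_) (by positivity) ?_ hY hW.an
    · unfold rho
      positivity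
    · have e : Y0 ^ 2 * (s ^ 2 / (2 * m) * v1y m s) * rho 1 m s = Y0 ^ 2 * s * v1y m s := by
        unfold rho
        field_simp
        ring
      rw [e]
      exact mul_le_mul_of_nonneg_right (r0_sq_le hy hY0 hs) (v_nonneg hm hs).2.2.2
    · rw [integral_const_mul]
      have e := mul_le_mul_of_nonneg_left (num_k1y h.m4).2 (sq_nonneg Y0)
      linarith
  have e := sbpack_nn h hW.adm hy hν hν hY h1 hW.an hY1
  rw [Bw_split (wt_w1 h).int hW.adm hy]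
  generalize 4 / m = x at *
  have e1 : x ^ 6 * (d * Y1) ≤ x ^ 3 * (d * Y1) :=
    mul_le_mul_of_nonneg_right (pow_le_pow_of_le_one x0.le x1 (by norm_num)) (mul_nonneg hd h1)
  have e2 : 0 ≤ x ^ 3 * (d * Y0) := by positivity
  rw [abs_le] at a b c e ⊢
  constructor <;> linarith [a.1, a.2, b.1, b.2, c.1, c.2, e.1, e.2]

end Pool.Agent.PSF
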