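import Pool.Agent.P.MP_7b7370_an.SBPack

set_option autoImplicit false

namespace Pool.Agent.PSF

open Real Set MeasureTheory

noncomputable def sbpack2_G (ν s : ℝ) : ℝ :=
  29 / 10 * (s ^ 2 * exp (-(3 * s)) * om0 ν s) + 2 / 5 * (s ^ 2 * exp (-(2 * s)) * om0 ν s) +
    1 / 10000 * (s ^ 1 * exp (-(2 * s)) * om0 ν s)

theorem sbpack2_G_int {ν : ℝ} (hν : 4 ≤ ν) :
    IntegrableOn (sbpack2_G ν) (Ioi 0) ∧ ∫ s in Ioi (0 : ℝ), sbpack2_G ν s = Zh ν := by
  have h1 := (integrableOn_Zf hν (β := 3) (by norm_num) 2).const_mul (29 / 10)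
  have h2 := (integrableOn_Zf hν (β := 2) (by norm_num) 2).const_mul (2 / 5)
  have h3 := (integrableOn_Zf hν (β := 2) (by norm_num) 1).const_mul (1 / 10000)
  have h12 : Integrable (fun s : ℝ => 29 / 10 * (s ^ 2 * exp (-(3 * s)) * om0 ν s) +
      2 / 5 * (s ^ 2 * exp (-(2 * s)) * om0 ν s)) (volume.restrict (Ioi 0)) := h1.add h2
  refine ⟨h12.add h3, ?_⟩
  unfold sbpack2_G Zh Zf
  rw [integral_add h12 h3, integral_add h1 h2, integral_const_mul, integral_const_mul,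
    integral_const_mul]

theorem sbpack2_J2 {m n t : ℝ} (h : Par m n t) :
    IntegrableOn (fun s => J2 n t fun ν => sbpack2_G ν s) (Ioi 0) ∧
      ∫ s in Ioi (0 : ℝ), (J2 n t fun ν => sbpack2_G ν s) = J2 n t Zh := by
  have hm := h.m4
  have ht := h.t0
  have hmn := h.mn
  obtain ⟨ip, ep⟩ := sbpack2_G_int (ν := n + t) (by linarith)
  obtain ⟨im, em⟩ := sbpack2_G_int (ν := n - t) (by linarith)
  obtain ⟨i0, e0⟩ := sbpack2_G_int (ν := n) (by linarith)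
  have i0' : Integrable (fun s => 2 * sbpack2_G n s) (volume.restrict (Ioi 0)) := i0.const_mul 2
  have ipm : Integrable (fun s => sbpack2_G (n + t) s + sbpack2_G (n - t) s)
      (volume.restrict (Ioi 0)) := ip.add im
  have iall : Integrable (fun s => sbpack2_G (n + t) s + sbpack2_G (n - t) s - 2 * sbpack2_G n s)
      (volume.restrict (Ioi 0)) := ipm.sub i0'
  unfold J2
  refine ⟨iall.div_const _, ?_⟩
  rw [integral_div, integral_sub ipm i0', integral_add ip im, integral_const_mul, ep, em, e0]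

theorem sbpack2_J2_eq (n t s : ℝ) :
    (J2 n t fun ν => sbpack2_G ν s) =
      (29 / 10 * s ^ 2 * exp (-s) + 2 / 5 * s ^ 2 + s / 10000) *
        (exp (-(2 * s)) * J2 n t fun ν => om0 ν s) := by
  have e3 : exp (-(3 * s)) = exp (-s) * exp (-(2 * s)) := by
    rw [← exp_add]; congr 1; ring
  unfold J2 sbpack2_G
  rw [e3]
  ring

theorem sbpack2_rho_pos {m s : ℝ} (hm : 4 ≤ m) (hs : 0 < s) : 0 < rho (3 / 5) m s := by
  unfold rho
  have : 0 < m := by linarith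
  positivity

theorem w2_rr {m ν n t d : ℝ} {W : ℝ × ℝ → ℝ} (h : Par m n t) (hW : Good m ν W d) :
    Bw (w2 n t) (rad W) (rad W) ≤ J2 n t Zh * d ^ 2 := by
  have hm := h.m4
  have hm0 : 0 < m := by linarith
  obtain ⟨i1, e1⟩ := Bw_rad (wt_w2 h).int hW.adm hW.adm
  obtain ⟨i2, e2⟩ := sbpack2_J2 h
  rw [e1, ← e2, ← integral_mul_const]
  refine setIntegral_mono_on i1 (i2.mul_const _) measurableSet_Ioi ?_
  intro s hs
  have hs0 : 0 < s := hs
  rw [mean_w2 h hs0, sbpack2_J2_eq]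
  have hJ : 0 ≤ exp (-(2 * s)) * J2 n t fun ν => om0 ν s :=
    mul_nonneg (exp_pos _).le (J2_om0_nonneg h hs0)
  have hp := hW.pt s hs0
  have hh1 : hh m s ≤ 29 / 10 * s ^ 2 * exp (-s) + 2 / 5 * s ^ 2 + s / 10000 := by
    unfold hh
    have : s / (10000 * m) ≤ s / 10000 :=
      div_le_div_of_nonneg_left hs0.le (by norm_num) (by linarith)
    linarith
  have hp2 : π * r0 W s ^ 2 ≤
      d ^ 2 * (29 / 10 * s ^ 2 * exp (-s) + 2 / 5 * s ^ 2 + s / 10000) :=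
    hp.trans (mul_le_mul_of_nonneg_left hh1 (sq_nonneg d))
  have := mul_le_mul_of_nonneg_left hp2 hJ
  calc π * (exp (-(2 * s)) * J2 n t fun ν => om0 ν s) * (r0 W s * r0 W s)
      = (exp (-(2 * s)) * J2 n t fun ν => om0 ν s) * (π * r0 W s ^ 2) := by ring
    _ ≤ _ := this
    _ = _ := by ring

theorem J2_Zh_nonneg {m n t : ℝ} (h : Par m n t) : 0 ≤ J2 n t Zh := by
  obtain ⟨_, e2⟩ := sbpack2_J2 h
  rw [← e2]
  refine setIntegral_nonneg measurableSet_Ioi ?_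
  intro s hs
  have hs0 : 0 < s := hs
  rw [sbpack2_J2_eq]
  exact mul_nonneg (by positivity) (mul_nonneg (exp_pos _).le (J2_om0_nonneg h hs0))

theorem w2_diag {m ν n t d : ℝ} {W : ℝ × ℝ → ℝ} (h : Par m n t) (hν : m ≤ ν)
    (hW : Good m ν W d) :
    Bw (w2 n t) W W ≤ (J2 n t Zh + 95 / 100000 * (4 / m) ^ 6) * d ^ 2 := by
  have hm := h.m4
  have hm0 : 0 < m := by linarith
  have hd := hW.d0
  have hx0 : 0 < 4 / m := by positivity
  have hx1 : 4 / m ≤ 1 := (div_le_one hm0).2 hm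
  have hrr := w2_rr h hW
  obtain ⟨ik, ek⟩ := num_k2 hm
  have hY0 : 0 ≤ 73 / 1000 * (4 / m) ^ 2 * d := by positivity
  have hrn := good_rn (f := w2 n t) (W := W) (V := W) (ν := ν) (n := ν) (v := v2 m)
    (H := fun s => 331 / 100 * s ^ 3 / (49 / 25 * m)) (K := 3 / 625 * (4 / m) ^ 4) hm hν (wt_w2 h)
    hW.adm hW.adm hd hW.pt (fun s hs => var_w2 h hs) (fun s hs => (v_nonneg hm0 hs).2.2.1)
    (fun s hs => by
      unfold hq
      have he : exp (-s) ≤ 1 := exp_le_one_iff.2 (by linarith)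
      have h3 : 0 ≤ s ^ 3 := by positivity
      refine div_le_div_of_nonneg_right ?_ (by positivity)
      exact mul_le_mul_of_nonneg_right (by linarith) h3)
    ik (by positivity) ek hY0 hW.an
  have hnn := nn_bound (f := w2 n t) (U := W) (V := W) (ν := 3 / 5) (m := m) (n := ν) (n' := ν)
    (θ := 9 / 200 * (4 / m) ^ 4) (wt_w2 h) hW.adm hW.adm hm0.le hν hν
    (fun s hs => sbpack2_rho_pos hm hs) (by positivity)
    (fun p hp => (crude_of_sup hm hp (by norm_num) (by norm_num) (sup_w2 h hp)).2)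
    hY0 hY0 hW.an hW.an
  rw [Bw_split (wt_w2 h).int hW.adm hW.adm]
  have a1 := (abs_le.1 hrn).2
  have a2 := (abs_le.1 hnn).2
  have hx2 : (4 / m) ^ 2 ≤ 1 := pow_le_one₀ hx0.le hx1
  have hP : 0 ≤ (4 / m) ^ 6 * d ^ 2 := by positivity
  have hQ : (4 / m) ^ 6 * d ^ 2 * (4 / m) ^ 2 ≤ (4 / m) ^ 6 * d ^ 2 :=
    mul_le_of_le_one_right hP hx2
  have b1 : 3 / 625 * (4 / m) ^ 4 * d * (73 / 1000 * (4 / m) ^ 2 * d) =
      219 / 625000 * ((4 / m) ^ 6 * d ^ 2) := by ring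
  have b2 : 9 / 200 * (4 / m) ^ 4 *
      (73 / 1000 * (4 / m) ^ 2 * d * (73 / 1000 * (4 / m) ^ 2 * d)) =
      47961 / 200000000 * ((4 / m) ^ 6 * d ^ 2 * (4 / m) ^ 2) := by ring
  have b3 : (J2 n t Zh + 95 / 100000 * (4 / m) ^ 6) * d ^ 2 =
      J2 n t Zh * d ^ 2 + 95 / 100000 * ((4 / m) ^ 6 * d ^ 2) := by ring
  rw [b1] at a1
  rw [b2] at a2
  rw [b3]
  linarith

theorem w_crude {m n t X Y : ℝ} {U V : ℝ × ℝ → ℝ} (h : Par m n t) (hU : Adm U) (hV : Adm V)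
    (hX0 : 0 ≤ X) (hY0 : 0 ≤ Y) (hX : Db n U U ≤ X ^ 2) (hY : Db n V V ≤ Y ^ 2) :
    |Bw (w1 n t) U V| ≤ X * Y ∧ |Bw (w2 n t) U V| ≤ X * Y := by
  have hm := h.m4
  have eU : E1 U U ≤ X ^ 2 := by
    have := mul_nonneg (sq_nonneg n) (E2_nonneg U)
    unfold Db at hX
    linarith
  have eV : E1 V V ≤ Y ^ 2 := by
    have := mul_nonneg (sq_nonneg n) (E2_nonneg V)
    unfold Db at hY
    linarith
  exact ⟨crude_bound (wt_w1 h) hU hV
      (fun p hp => (crude_of_sup hm hp (by norm_num) (by norm_num) (sup_w1 h hp)).1)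
      hX0 hY0 eU eV,
    crude_bound (wt_w2 h) hU hV
      (fun p hp => (crude_of_sup hm hp (by norm_num) (by norm_num) (sup_w2 h hp)).1)
      hX0 hY0 eU eV⟩

end Pool.Agent.PSF
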