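import Pool.Agent.P.MP_7b7370_an.SBDefs

set_option autoImplicit false

namespace Pool.Agent.PSF

open Real Set MeasureTheory

theorem sbpars_bd_cos (a x : ℝ) : ‖a * cos x‖ ≤ |a| := by
  rw [Real.norm_eq_abs, abs_mul]
  exact mul_le_of_le_one_right (abs_nonneg a) (abs_cos_le_one x)

theorem sbpars_bd_sin (a x : ℝ) : ‖a * sin x‖ ≤ |a| := by
  rw [Real.norm_eq_abs, abs_mul]
  exact mul_le_of_le_one_right (abs_nonneg a) (abs_sin_le_one x)

theorem sbpars_norm_cos {α : ℕ → ℝ} (h : Summable α) (φ : ℝ) :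
    Summable fun k : ℕ => ‖α k * cos (k * φ)‖ :=
  Summable.of_nonneg_of_le (fun _ => norm_nonneg _) (fun k => sbpars_bd_cos (α k) _) h.abs

theorem sbpars_norm_sin {α : ℕ → ℝ} (h : Summable α) (φ : ℝ) :
    Summable fun k : ℕ => ‖α k * sin (k * φ)‖ :=
  Summable.of_nonneg_of_le (fun _ => norm_nonneg _) (fun k => sbpars_bd_sin (α k) _) h.abs

theorem continuous_Cs {α : ℕ → ℝ} (h : Summable α) : Continuous (Cs α) := by
  unfold Cs
  refine continuous_tsum (u := fun k => |α k|) (fun k => ?_) h.abs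
    (fun k φ => sbpars_bd_cos (α k) _)
  fun_prop

theorem continuous_Sn {α : ℕ → ℝ} (h : Summable α) : Continuous (Sn α) := by
  unfold Sn
  refine continuous_tsum (u := fun k => |α k|) (fun k => ?_) h.abs
    (fun k φ => sbpars_bd_sin (α k) _)
  fun_prop

theorem hasSum_Cs {α : ℕ → ℝ} (h : Summable α) (φ : ℝ) :
    HasSum (fun k : ℕ => α k * cos (k * φ)) (Cs α φ) :=
  (sbpars_norm_cos h φ).of_norm.hasSum

theorem hasSum_Sn {α : ℕ → ℝ} (h : Summable α) (φ : ℝ) :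
    HasSum (fun k : ℕ => α k * sin (k * φ)) (Sn α φ) :=
  (sbpars_norm_sin h φ).of_norm.hasSum

theorem summable_tl {α : ℕ → ℝ} (h : Summable α) : Summable (tl α) := by
  refine Summable.of_norm_bounded (g := fun k => |α k|) h.abs (fun k => ?_)
  unfold tl
  split_ifs
  · simp
  · exact le_of_eq (Real.norm_eq_abs _)

theorem Cs_tl {α : ℕ → ℝ} (h : Summable α) (φ : ℝ) : Cs α φ = α 0 + Cs (tl α) φ := by
  have h1 := hasSum_Cs (summable_tl h) φ
  have h2 : HasSum (fun k : ℕ => if k = 0 then α 0 else 0) (α 0) := hasSum_ite_eq 0 (α 0)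
  have h3 := h2.add h1
  have h4 : (fun k : ℕ => (if k = 0 then α 0 else 0) + tl α k * cos (k * φ)) =
      fun k : ℕ => α k * cos (k * φ) := by
    funext k
    unfold tl
    by_cases hk : k = 0
    · subst hk
      simp
    · simp [hk]
  rw [h4] at h3
  exact (hasSum_Cs h φ).unique h3

theorem Sn_tl {α : ℕ → ℝ} (h : Summable α) (φ : ℝ) : Sn α φ = Sn (tl α) φ := by
  have h1 := hasSum_Sn (summable_tl h) φ
  have h4 : (fun k : ℕ => tl α k * sin (k * φ)) = fun k : ℕ => α k * sin (k * φ) := by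
    funext k
    unfold tl
    by_cases hk : k = 0
    · subst hk
      simp
    · simp [hk]
  rw [h4] at h1
  exact (hasSum_Sn h φ).unique h1

theorem sbpars_mul {f g : ℕ → ℝ} {a b : ℝ} (hf : HasSum f a) (hg : HasSum g b) :
    HasSum (fun p : ℕ × ℕ => f p.1 * g p.2) (a * b) :=
  hf.mul hg (summable_mul_of_summable_norm hf.summable.norm hg.summable.norm)

theorem sbpars_plus {α : ℕ → ℝ} (h : Summable α) (φ : ℝ) :
    HasSum (fun p : ℕ × ℕ => α p.1 * α p.2 * cos (((p.1 : ℝ) - p.2) * φ))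
      (Cs α φ ^ 2 + Sn α φ ^ 2) := by
  have h1 := sbpars_mul (hasSum_Cs h φ) (hasSum_Cs h φ)
  have h2 := sbpars_mul (hasSum_Sn h φ) (hasSum_Sn h φ)
  have h3 := h1.add h2
  have h4 : (fun p : ℕ × ℕ => α p.1 * cos (p.1 * φ) * (α p.2 * cos (p.2 * φ)) +
      α p.1 * sin (p.1 * φ) * (α p.2 * sin (p.2 * φ))) =
      fun p : ℕ × ℕ => α p.1 * α p.2 * cos (((p.1 : ℝ) - p.2) * φ) := by
    funext p
    rw [sub_mul, cos_sub]
    ring
  rw [h4] at h3
  rw [sq, sq]
  exact h3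

theorem sbpars_minus {α : ℕ → ℝ} (h : Summable α) (φ : ℝ) :
    HasSum (fun p : ℕ × ℕ => α p.1 * α p.2 * cos (((p.1 : ℝ) + p.2) * φ))
      (Cs α φ ^ 2 - Sn α φ ^ 2) := by
  have h1 := sbpars_mul (hasSum_Cs h φ) (hasSum_Cs h φ)
  have h2 := sbpars_mul (hasSum_Sn h φ) (hasSum_Sn h φ)
  have h3 := h1.sub h2
  have h4 : (fun p : ℕ × ℕ => α p.1 * cos (p.1 * φ) * (α p.2 * cos (p.2 * φ)) -
      α p.1 * sin (p.1 * φ) * (α p.2 * sin (p.2 * φ))) =
      fun p : ℕ × ℕ => α p.1 * α p.2 * cos (((p.1 : ℝ) + p.2) * φ) := by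
    funext p
    rw [add_mul, cos_add]
    ring
  rw [h4] at h3
  rw [sq, sq]
  exact h3

theorem sbpars_abs_sum {α : ℕ → ℝ} (h : Summable α) :
    Summable fun p : ℕ × ℕ => |α p.1 * α p.2| := by
  have h1 := Summable.mul_of_nonneg h.abs h.abs (fun k => abs_nonneg (α k))
    (fun k => abs_nonneg (α k))
  refine h1.congr (fun p => ?_)
  rw [abs_mul]

theorem sq_add_sq_le {α : ℕ → ℝ} (h : Summable α) (hp : ∀ k, 0 ≤ α k) (φ : ℝ) :
    Cs α φ ^ 2 + Sn α φ ^ 2 ≤ (∑' k, α k) ^ 2 := by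
  have h1 := h.hasSum.mul h.hasSum (Summable.mul_of_nonneg h h hp hp)
  rw [sq (∑' k, α k)]
  refine hasSum_le (fun p => ?_) (sbpars_plus h φ) h1
  exact mul_le_of_le_one_right (mul_nonneg (hp _) (hp _)) (cos_le_one _)

theorem sbpars_termwise {α : ℕ → ℝ} (h : Summable α) (l : ℕ × ℕ → ℝ) (f : ℝ → ℝ)
    (hf : ∀ φ, HasSum (fun p : ℕ × ℕ => α p.1 * α p.2 * cos (l p * φ)) (f φ)) :
    HasSum (fun p : ℕ × ℕ => α p.1 * α p.2 * ∫ φ in (0 : ℝ)..π, cos (l p * φ))
      (∫ φ in (0 : ℝ)..π, f φ) := by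
  have h1 := intervalIntegral.hasSum_integral_of_dominated_convergence (μ := volume)
    (a := (0 : ℝ)) (b := π) (f := f)
    (F := fun (p : ℕ × ℕ) (φ : ℝ) => α p.1 * α p.2 * cos (l p * φ))
    (fun p _ => |α p.1 * α p.2|)
    (fun p => (by fun_prop : Continuous fun φ : ℝ =>
      α p.1 * α p.2 * cos (l p * φ)).aestronglyMeasurable)
    (fun p => Filter.Eventually.of_forall fun φ _ => sbpars_bd_cos _ _)
    (Filter.Eventually.of_forall fun _ _ => sbpars_abs_sum h)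
    intervalIntegrable_const
    (Filter.Eventually.of_forall fun φ _ => hf φ)
  simp only [intervalIntegral.integral_const_mul] at h1
  exact h1

theorem sbpars_int_cos (l : ℤ) (hl : l ≠ 0) : ∫ φ in (0 : ℝ)..π, cos ((l : ℝ) * φ) = 0 := by
  have hl' : (l : ℝ) ≠ 0 := Int.cast_ne_zero.2 hl
  rw [intervalIntegral.integral_comp_mul_left (fun x => cos x) hl', integral_cos,
    Real.sin_int_mul_pi]
  simp

theorem parseval {α : ℕ → ℝ} (h : Summable α) :
    ∫ φ in (0 : ℝ)..π, (Cs α φ ^ 2 + Sn α φ ^ 2) = π * ∑' k, α k ^ 2 := by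
  have h1 := sbpars_termwise h (fun p => (p.1 : ℝ) - p.2) (fun φ => Cs α φ ^ 2 + Sn α φ ^ 2)
    (sbpars_plus h)
  have h2 : ∀ j : ℕ, HasSum (fun k : ℕ =>
      α j * α k * ∫ φ in (0 : ℝ)..π, cos (((j : ℝ) - k) * φ)) (π * α j ^ 2) := by
    intro j
    have h3 : (fun k : ℕ => α j * α k * ∫ φ in (0 : ℝ)..π, cos (((j : ℝ) - k) * φ)) =
        fun k : ℕ => if k = j then π * α j ^ 2 else 0 := by
      funext k
      by_cases hk : k = j
      · subst hk
        simp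
        ring
      · have h5 : ((j : ℤ) - k) ≠ 0 := by
          intro h6
          apply hk
          omega
        have h7 := sbpars_int_cos _ h5
        push_cast at h7
        rw [h7, if_neg hk, mul_zero]
    rw [h3]
    exact hasSum_ite_eq j _
  have h4 := h1.prod_fiberwise h2
  rw [← h4.tsum_eq, tsum_mul_left]

theorem sbpars_diff {α : ℕ → ℝ} (h : Summable α) (h0 : α 0 = 0) :
    ∫ φ in (0 : ℝ)..π, (Cs α φ ^ 2 - Sn α φ ^ 2) = 0 := by
  have h1 := sbpars_termwise h (fun p => (p.1 : ℝ) + p.2) (fun φ => Cs α φ ^ 2 - Sn α φ ^ 2)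
    (sbpars_minus h)
  have h3 : (fun p : ℕ × ℕ =>
      α p.1 * α p.2 * ∫ φ in (0 : ℝ)..π, cos (((p.1 : ℝ) + p.2) * φ)) = fun _ => 0 := by
    funext p
    by_cases hk : p.1 = 0
    · rw [hk, h0]
      simp
    · have h5 : ((p.1 : ℤ) + p.2) ≠ 0 := by omega
      have h7 := sbpars_int_cos _ h5
      push_cast at h7
      rw [h7, mul_zero]
  rw [h3] at h1
  exact h1.unique hasSum_zero

theorem parseval_cos {α : ℕ → ℝ} (h : Summable α) (h0 : α 0 = 0) :
    ∫ φ in (0 : ℝ)..π, Cs α φ ^ 2 = π / 2 * ∑' k, α k ^ 2 := by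
  have hc := continuous_Cs h
  have hs := continuous_Sn h
  have h1 := parseval h
  have h2 := sbpars_diff h h0
  have i1 : IntervalIntegrable (fun φ => Cs α φ ^ 2) volume 0 π :=
    (hc.pow 2).intervalIntegrable _ _
  have i2 : IntervalIntegrable (fun φ => Sn α φ ^ 2) volume 0 π :=
    (hs.pow 2).intervalIntegrable _ _
  rw [intervalIntegral.integral_add i1 i2] at h1
  rw [intervalIntegral.integral_sub i1 i2] at h2
  linarith

end Pool.Agent.PSF
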