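import Pool.Agent.P.MP_7b7370_an.SBJet

set_option autoImplicit false

namespace Pool.Agent.PSF

open Real Set MeasureTheory

theorem sbpsi_comb {X0 X1 X2 X3 Y0 Y1 Y2 Y3 c : ℝ} (h0 : Y0 ≤ X0) (h1 : X1 ≤ Y1) (h2 : X2 ≤ Y2)
    (h3 : X3 ≤ Y3) (e : 6376 / 1000 * (29 / 5 * Y1 + 4 / 5 * Y2 + 1 / 10000 * Y3) ≤ (1 - c) * Y0) :
    c * Y0 ≤ X0 - 6376 / 1000 * (29 / 5 * X1 + 4 / 5 * X2 + 1 / 10000 * X3) := by
  linarith

theorem sbpsi_pow {z0 z : ℝ} (h5 : 5 ≤ z0) (hz : z0 ≤ z) (a j : ℕ) :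
    z ^ a / (2 * z) ^ (a + j) ≤ z0 ^ a / (2 * z0) ^ (a + j) := by
  have h0 : 0 < z0 := by linarith
  have h1 : 0 < z := by linarith
  have e : ∀ x : ℝ, 0 < x → x ^ a / (2 * x) ^ (a + j) = 1 / (2 ^ (a + j) * x ^ j) := by
    intro x hx
    rw [mul_pow, pow_add x]
    field_simp
  rw [e z h1, e z0 h0]
  gcongr

theorem sbpsi_A {z0 z : ℝ} (h5 : 5 ≤ z0) (hz : z0 ≤ z) :
    z / (2 * z + 1) ^ 2 ≤ z0 / (2 * z0 + 1) ^ 2 := by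
  have h0 : 0 < z0 := by linarith
  have h1 : 0 < z := by linarith
  rw [div_le_div_iff₀ (by positivity) (by positivity)]
  have h2 : 0 ≤ 4 * (z * z0) - 1 := by nlinarith
  nlinarith [mul_nonneg (sub_nonneg.2 hz) h2]

theorem sbpsi_B {z0 z : ℝ} (h5 : 5 ≤ z0) (hz : z0 ≤ z) :
    z ^ 2 / (2 * z + 1) ^ 3 ≤ z0 ^ 2 / (2 * z0 + 1) ^ 3 := by
  have h0 : 0 < z0 := by linarith
  have h1 : 0 < z := by linarith
  rw [div_le_div_iff₀ (by positivity) (by positivity)]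
  have h2 : z ≤ z * z0 := by nlinarith
  have h3 : z0 ≤ z * z0 := by nlinarith
  have h4 : 0 ≤ 8 * (z * z0) ^ 2 - 6 * (z * z0) - (z + z0) := by nlinarith
  nlinarith [mul_nonneg (sub_nonneg.2 hz) h4]

theorem sbpsi_13 {z0 z : ℝ} (h5 : 5 ≤ z0) (hz : z0 ≤ z) :
    z / (2 * z + 1) ^ 3 ≤ z0 / (2 * z0 + 1) ^ 3 := by
  have h0 : 0 < z0 := by linarith
  rw [pow_succ, pow_succ (2 * z0 + 1), ← div_div, ← div_div]
  exact div_le_div₀ (by positivity) (sbpsi_A h5 hz) (by positivity) (by linarith)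

theorem sbpsi_24 {z0 z : ℝ} (h5 : 5 ≤ z0) (hz : z0 ≤ z) :
    z ^ 2 / (2 * z + 1) ^ 4 ≤ z0 ^ 2 / (2 * z0 + 1) ^ 4 := by
  have h1 : 0 < z := by linarith
  have h := pow_le_pow_left₀ (by positivity) (sbpsi_A h5 hz) 2
  rwa [div_pow, div_pow, ← pow_mul, ← pow_mul] at h

theorem sbpsi_35 {z0 z : ℝ} (h5 : 5 ≤ z0) (hz : z0 ≤ z) :
    z ^ 3 / (2 * z + 1) ^ 5 ≤ z0 ^ 3 / (2 * z0 + 1) ^ 5 := by
  have h0 : 0 < z0 := by linarith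
  have h1 : 0 < z := by linarith
  have h := mul_le_mul (sbpsi_A h5 hz) (sbpsi_B h5 hz) (by positivity) (by positivity)
  rwa [div_mul_div_comm, div_mul_div_comm, ← pow_add, ← pow_add, ← pow_succ', ← pow_succ'] at h

theorem psi_LJ_of {m n t c0 c1 c2 : ℝ} {k : ℕ} (h : Par m n t) (h0 : 0 ≤ c0) (h1 : 0 ≤ c1)
    (h2 : 0 ≤ c2)
    (e0 : 6376 / 1000 * (29 / 5 / (3 + 2 * n * k) ^ 3 + 4 / 5 / (2 + 2 * n * k) ^ 3 +
      1 / 10000 / (2 + 2 * n * k) ^ 2) ≤ (1 - c0) / (1 + n * k))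
    (e1 : 6376 / 1000 * (29 / 5 * 6 / (3 + 2 * m * k) ^ 4 + 4 / 5 * 6 / (2 + 2 * m * k) ^ 4 +
      1 / 10000 * 4 / (2 + 2 * m * k) ^ 3) ≤ (1 - c1) / (1 + n * k) ^ 2)
    (e2 : 6376 / 1000 * (29 / 5 * 24 / (3 + 2 * m * k) ^ 5 + 4 / 5 * 24 / (2 + 2 * m * k) ^ 5 +
      1 / 10000 * 12 / (2 + 2 * m * k) ^ 4) ≤ (1 - c2) / (1 + n * k) ^ 3) :
    LJ n t (psi k) (c0 / (1 + n * k)) (c1 * k / (1 + n * k) ^ 2)
      (c2 * k ^ 2 / (1 + n * k) ^ 3) := by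
  have hk : (0 : ℝ) ≤ k := k.cast_nonneg
  have hm := h.m4
  have ht := h.t0
  have hmn := h.mn
  have hn : 0 ≤ n := by linarith
  have hm0 : 0 ≤ m := by linarith
  have hnt : 0 ≤ n - t := by linarith
  have L := LJ_inv (n := n) (α := 1) ht hk (by positivity)
  have U1 := UJ_inv3 (α := 3) (β := 2 * k) ht hmn (by positivity) (by positivity)
  have U2 := UJ_inv3 (α := 2) (β := 2 * k) ht hmn (by positivity) (by positivity)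
  have U3 := UJ_inv2 (α := 2) (β := 2 * k) ht hmn (by positivity) (by positivity)
  refine ⟨by positivity, by positivity, by positivity, ?_, ?_, ?_⟩
  · unfold psi
    rw [sub_div] at e0
    linarith
  · have h3 := sbpsi_comb (c := c1) L.l1 U1.u1 U2.u1 U3.u1
      (le_of_eq_of_le (by ring) ((mul_le_mul_of_nonneg_left e1 hk).trans_eq (by ring)))
    refine le_of_eq_of_le (by ring) (h3.trans_eq ?_)
    unfold J1 psi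
    ring
  · have h3 := sbpsi_comb (c := c2) L.l2 U1.u2 U2.u2 U3.u2
      (le_of_eq_of_le (by ring)
        ((mul_le_mul_of_nonneg_left e2 (sq_nonneg (k : ℝ))).trans_eq (by ring)))
    refine le_of_eq_of_le (by ring) (h3.trans_eq ?_)
    unfold J2 psi
    ring

theorem psi_num {z0 z y c0 c1 c2 : ℝ} (h5 : 5 ≤ z0) (hz : z0 ≤ z) (hy0 : z ≤ y)
    (hy : y ≤ 4001 / 4000 * z)
    (e0 : 6376 / 1000 * (29 / 5 / (2 * z0 + 1) ^ 3 + 4 / 5 / (2 * z0) ^ 3 +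
      1 / 10000 / (2 * z0) ^ 2) * z0 ≤ 1 - c0)
    (e1 : 6376 / 1000 * (29 / 5 * 6 / (2 * z0 + 1) ^ 4 + 4 / 5 * 6 / (2 * z0) ^ 4 +
      1 / 10000 * 4 / (2 * z0) ^ 3) * (4001 / 4000 * z0) ^ 2 ≤ 1 - c1)
    (e2 : 6376 / 1000 * (29 / 5 * 24 / (2 * z0 + 1) ^ 5 + 4 / 5 * 24 / (2 * z0) ^ 5 +
      1 / 10000 * 12 / (2 * z0) ^ 4) * (4001 / 4000 * z0) ^ 3 ≤ 1 - c2) :
    6376 / 1000 * (29 / 5 / (2 * y + 1) ^ 3 + 4 / 5 / (2 * y) ^ 3 +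
      1 / 10000 / (2 * y) ^ 2) ≤ (1 - c0) / y ∧
    6376 / 1000 * (29 / 5 * 6 / (2 * z + 1) ^ 4 + 4 / 5 * 6 / (2 * z) ^ 4 +
      1 / 10000 * 4 / (2 * z) ^ 3) ≤ (1 - c1) / y ^ 2 ∧
    6376 / 1000 * (29 / 5 * 24 / (2 * z + 1) ^ 5 + 4 / 5 * 24 / (2 * z) ^ 5 +
      1 / 10000 * 12 / (2 * z) ^ 4) ≤ (1 - c2) / y ^ 3 := by
  have h0 : 0 < z0 := by linarith
  have h1 : 0 < z := by linarith
  have h2 : 0 < y := by linarith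
  have hy1 := hz.trans hy0
  refine ⟨?_, ?_, ?_⟩
  · rw [le_div_iff₀ h2]
    refine le_trans ?_ e0
    have a1 := sbpsi_13 h5 hy1
    have a2 := sbpsi_pow h5 hy1 1 2
    have a3 := sbpsi_pow h5 hy1 1 1
    calc _ = 6376 / 1000 * (29 / 5 * (y / (2 * y + 1) ^ 3) + 4 / 5 * (y ^ 1 / (2 * y) ^ (1 + 2)) +
          1 / 10000 * (y ^ 1 / (2 * y) ^ (1 + 1))) := by ring
      _ ≤ 6376 / 1000 * (29 / 5 * (z0 / (2 * z0 + 1) ^ 3) + 4 / 5 * (z0 ^ 1 / (2 * z0) ^ (1 + 2)) +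
          1 / 10000 * (z0 ^ 1 / (2 * z0) ^ (1 + 1))) := by linarith
      _ = _ := by ring
  · rw [le_div_iff₀ (by positivity)]
    refine le_trans ?_ e1
    refine (mul_le_mul_of_nonneg_left (pow_le_pow_left₀ h2.le hy 2) (by positivity)).trans ?_
    have a1 := sbpsi_24 h5 hz
    have a2 := sbpsi_pow h5 hz 2 2
    have a3 := sbpsi_pow h5 hz 2 1
    calc _ = 6376 / 1000 * (4001 / 4000) ^ 2 * (29 / 5 * 6 * (z ^ 2 / (2 * z + 1) ^ 4) +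
          4 / 5 * 6 * (z ^ 2 / (2 * z) ^ (2 + 2)) +
          1 / 10000 * 4 * (z ^ 2 / (2 * z) ^ (2 + 1))) := by ring
      _ ≤ 6376 / 1000 * (4001 / 4000) ^ 2 * (29 / 5 * 6 * (z0 ^ 2 / (2 * z0 + 1) ^ 4) +
          4 / 5 * 6 * (z0 ^ 2 / (2 * z0) ^ (2 + 2)) +
          1 / 10000 * 4 * (z0 ^ 2 / (2 * z0) ^ (2 + 1))) := by linarith
      _ = _ := by ring
  · rw [le_div_iff₀ (by positivity)]
    refine le_trans ?_ e2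
    refine (mul_le_mul_of_nonneg_left (pow_le_pow_left₀ h2.le hy 3) (by positivity)).trans ?_
    have a1 := sbpsi_35 h5 hz
    have a2 := sbpsi_pow h5 hz 3 2
    have a3 := sbpsi_pow h5 hz 3 1
    calc _ = 6376 / 1000 * (4001 / 4000) ^ 3 * (29 / 5 * 24 * (z ^ 3 / (2 * z + 1) ^ 5) +
          4 / 5 * 24 * (z ^ 3 / (2 * z) ^ (3 + 2)) +
          1 / 10000 * 12 * (z ^ 3 / (2 * z) ^ (3 + 1))) := by ring
      _ ≤ 6376 / 1000 * (4001 / 4000) ^ 3 * (29 / 5 * 24 * (z0 ^ 3 / (2 * z0 + 1) ^ 5) +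
          4 / 5 * 24 * (z0 ^ 3 / (2 * z0) ^ (3 + 2)) +
          1 / 10000 * 12 * (z0 ^ 3 / (2 * z0) ^ (3 + 1))) := by linarith
      _ = _ := by ring

theorem psi_LJ {n t c0 c1 c2 : ℝ} {K k : ℕ} (h : Par (n - t) n t) (hK : 1 ≤ K) (hk : K ≤ k)
    (h0 : 0 ≤ c0) (h1 : 0 ≤ c1) (h2 : 0 ≤ c2)
    (e0 : 6376 / 1000 * (29 / 5 / (2 * (1 + 4 * K) + 1) ^ 3 + 4 / 5 / (2 * (1 + 4 * K)) ^ 3 +
      1 / 10000 / (2 * (1 + 4 * K)) ^ 2) * (1 + 4 * K : ℝ) ≤ 1 - c0)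
    (e1 : 6376 / 1000 * (29 / 5 * 6 / (2 * (1 + 4 * K) + 1) ^ 4 + 4 / 5 * 6 / (2 * (1 + 4 * K)) ^ 4 +
      1 / 10000 * 4 / (2 * (1 + 4 * K)) ^ 3) * (4001 / 4000 * (1 + 4 * K : ℝ)) ^ 2 ≤ 1 - c1)
    (e2 : 6376 / 1000 * (29 / 5 * 24 / (2 * (1 + 4 * K) + 1) ^ 5 +
      4 / 5 * 24 / (2 * (1 + 4 * K)) ^ 5 + 1 / 10000 * 12 / (2 * (1 + 4 * K)) ^ 4) *
      (4001 / 4000 * (1 + 4 * K : ℝ)) ^ 3 ≤ 1 - c2) :
    LJ n t (psi k) (c0 / (1 + n * k)) (c1 * k / (1 + n * k) ^ 2)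
      (c2 * k ^ 2 / (1 + n * k) ^ 3) := by
  have hK' : (1 : ℝ) ≤ K := by exact_mod_cast hK
  have hk' : (K : ℝ) ≤ k := by exact_mod_cast hk
  have hm := h.m4
  have ht := h.t0
  have ht1 := h.t1
  have hk0 : (0 : ℝ) ≤ k := k.cast_nonneg
  have b1 := mul_le_mul_of_nonneg_right hm hk0
  have b2 := mul_le_mul_of_nonneg_right ht1 hk0
  have b3 := mul_nonneg ht.le hk0
  obtain ⟨a0, a1, a2⟩ := psi_num (z0 := 1 + 4 * K) (z := 1 + (n - t) * k) (y := 1 + n * k)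
    (by linarith) (by linarith) (by linarith) (by linarith) e0 e1 e2
  exact psi_LJ_of h h0 h1 h2 (le_of_eq_of_le (by ring) a0) (le_of_eq_of_le (by ring) a1)
    (le_of_eq_of_le (by ring) a2)

end Pool.Agent.PSF
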