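import Pool.Agent.P.MP_7b7370_an.SBWt0

set_option autoImplicit false

namespace Pool.Agent.PSF

open Real Set MeasureTheory

theorem sbwt1_par {m n t : ℝ} (h : Par m n t) :
    m ≤ n + t ∧ m ≤ n - t ∧ 4 ≤ n + t ∧ 4 ≤ n - t := by
  have := h.m4
  have := h.t0
  have := h.mn
  refine ⟨?_, ?_, ?_, ?_⟩ <;> linarith

theorem sbwt1_J1 {m n t s : ℝ} (h : Par m n t) (hs : 0 < s) (φ : ℝ) :
    (Cs (fun k => J1 n t fun ν => gk ν s k) φ = J1 n t fun ν => Cs (gk ν s) φ) ∧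
      Sn (fun k => J1 n t fun ν => gk ν s k) φ = J1 n t fun ν => Sn (gk ν s) φ := by
  obtain ⟨-, -, h1, h2⟩ := sbwt1_par h
  have e : ∀ (k : ℕ) (c : ℝ), (J1 n t fun ν => gk ν s k) * c = J1 n t fun ν => gk ν s k * c := by
    intro k c
    unfold J1
    ring
  constructor
  · rw [Cs, funext fun k => e k _]
    exact (hasSum_J1 (F := fun k ν => gk ν s k * cos (k * φ)) (S := fun ν => Cs (gk ν s) φ)
      (hasSum_Cs (summable_gk h1 hs) φ) (hasSum_Cs (summable_gk h2 hs) φ)).tsum_eq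
  · rw [Sn, funext fun k => e k _]
    exact (hasSum_J1 (F := fun k ν => gk ν s k * sin (k * φ)) (S := fun ν => Sn (gk ν s) φ)
      (hasSum_Sn (summable_gk h1 hs) φ) (hasSum_Sn (summable_gk h2 hs) φ)).tsum_eq

theorem sbwt1_al {m n t s : ℝ} (h : Par m n t) (hs : 0 < s) :
    (J1 n t fun ν => gk ν s 0) = 0 ∧ (∀ k, 0 ≤ J1 n t fun ν => gk ν s k) ∧
      Summable (fun k => J1 n t fun ν => gk ν s k) ∧
      ∑' k, (J1 n t fun ν => gk ν s k) ≤ 2 / m ^ 2 * (61 / 25 * exp (-(m * s / 4)) / (m * s)) ∧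
      ∑' k, (J1 n t fun ν => gk ν s k) ^ 2 ≤ (2 / m ^ 2) ^ 2 * s1 (m * s) := by
  have hm : 0 < m := by linarith [h.m4]
  have h0 : (J1 n t fun ν => gk ν s 0) = 0 :=
    le_antisymm (gk_UJ_zero n t s).u1 (gk_UJ_zero n t s).p1
  have hp : ∀ k, 0 ≤ J1 n t fun ν => gk ν s k := by
    intro k
    rcases k with _ | _ | k
    · exact h0.ge
    · exact (gk_UJ_one h hs).p1
    · exact (gk_UJ h hs (by omega)).p1
  exact ⟨h0, hp, sum_s1 (α := fun k => J1 n t fun ν => gk ν s k) (mul_pos hm hs) (by positivity)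
    h0 hp (gk_UJ_one h hs).u1 fun k hk => (gk_UJ h hs hk).u1⟩

theorem w1_eq {m n t : ℝ} (h : Par m n t) {p : ℝ × ℝ} (hp : 0 < p.1) :
    w1 n t p = exp (-(2 * p.1)) *
      (2 * (Cs (fun k => J1 n t fun ν => gk ν p.1 k) p.2 * Jb n t fun ν => Cs (gk ν p.1) p.2) +
        2 * (Sn (fun k => J1 n t fun ν => gk ν p.1 k) p.2 * Jb n t fun ν => Sn (gk ν p.1) p.2)) := by
  obtain ⟨-, -, h1, h2⟩ := sbwt1_par h
  rw [(sbwt1_J1 h hp p.2).1, (sbwt1_J1 h hp p.2).2]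
  simp only [w1, J1, Jb, om_eq h1 hp, om_eq h2 hp]
  ring

theorem Jb_G_sq_le {m n t s : ℝ} (h : Par m n t) (hs : 0 < s) (φ : ℝ) :
    (Jb n t fun ν => Cs (gk ν s) φ) ^ 2 + (Jb n t fun ν => Sn (gk ν s) φ) ^ 2 ≤
      (5 / 4 + 1 / (4 * (m * s))) ^ 2 := by
  obtain ⟨h1, h2, -, -⟩ := sbwt1_par h
  have a1 := G_sq_le h.m4 h1 hs φ
  have a2 := G_sq_le h.m4 h2 hs φ
  have e : 1 / (4 * (m * s)) = 1 / (m * s) / 4 := by rw [div_div, mul_comm]
  rw [e]
  simp only [Jb]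
  generalize 1 / (m * s) = y at *
  nlinarith [sq_nonneg (Cs (gk (n + t) s) φ - Cs (gk (n - t) s) φ),
    sq_nonneg (Sn (gk (n + t) s) φ - Sn (gk (n - t) s) φ), sq_nonneg (y - 3)]

theorem sup_w1 {m n t : ℝ} (h : Par m n t) {p : ℝ × ℝ} (hp : 0 < p.1) :
    |w1 n t p| ≤ exp (-(2 * p.1)) * (1 / 25 * (4 / m) ^ 4 * rho (3 / 5) m p.1) := by
  have hm : 0 < m := by linarith [h.m4]
  obtain ⟨-, a1, a2, a3, -⟩ := sbwt1_al h hp
  have b1 := sq_add_sq_le a2 a1 p.2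
  have b2 := Jb_G_sq_le h hp p.2
  have a4 : ∑' k, (J1 n t fun ν => gk ν p.1 k) ≤ 2 / m ^ 2 * (61 / 25 / (m * p.1)) := by
    refine a3.trans ?_
    have : exp (-(m * p.1 / 4)) ≤ 1 := exp_le_one_iff.2 (by
      have := mul_pos hm hp
      linarith)
    gcongr
    linarith
  have b3 := b1.trans (pow_le_pow_left₀ (tsum_nonneg a1) a4 2)
  rw [w1_eq h hp, abs_mul, abs_of_pos (exp_pos _)]
  refine mul_le_mul_of_nonneg_left (le_trans (abs_le_of_sq_le_sq
    (b := 2 * (2 / m ^ 2 * (61 / 25 / (m * p.1)) * (5 / 4 + 1 / (4 * (m * p.1))))) ?_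
    (by positivity)) ?_) (exp_pos _).le
  · have b4 := mul_le_mul b3 b2 (by positivity) (by positivity)
    generalize Cs (fun k => J1 n t fun ν => gk ν p.1 k) p.2 = a at *
    generalize Sn (fun k => J1 n t fun ν => gk ν p.1 k) p.2 = b at *
    generalize (Jb n t fun ν => Cs (gk ν p.1) p.2) = c at *
    generalize (Jb n t fun ν => Sn (gk ν p.1) p.2) = d at *
    generalize 2 / m ^ 2 * (61 / 25 / (m * p.1)) = L at *
    generalize 5 / 4 + 1 / (4 * (m * p.1)) = R at *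
    nlinarith [sq_nonneg (a * d - b * c)]
  · have e : 1 / 25 * (4 / m) ^ 4 * rho (3 / 5) m p.1 -
        2 * (2 / m ^ 2 * (61 / 25 / (m * p.1)) * (5 / 4 + 1 / (4 * (m * p.1)))) =
        (11 / 125 / (m * p.1) + 11 / 625 / (m * p.1) ^ 2) / m ^ 2 := by
      unfold rho
      field_simp
      ring
    rw [← sub_nonneg, e]
    positivity

theorem sbwt1_var {m n t s L : ℝ} (h : Par m n t) (hs : 0 < s) (hL : 0 ≤ L)
    (hl : ∀ ν, m ≤ ν → (∑' k, tl (gk ν s) k) ^ 2 ≤ (L / 2) ^ 2) :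
    ∫ φ in (0 : ℝ)..π, (w1 n t (s, φ) - 0) ^ 2 ≤
      π * (exp (-(4 * s)) * (2 / m ^ 2) ^ 2 * (s1 (m * s) * (2 + 283 / 100 * L + L ^ 2))) := by
  obtain ⟨h1, h2, h3, h4⟩ := sbwt1_par h
  obtain ⟨a0, -, a2, -, a4⟩ := sbwt1_al h hs
  have g1 := summable_gk h3 hs
  have g2 := summable_gk h4 hs
  have hb : ∀ ν, m ≤ ν → ∀ φ,
      Cs (tl (gk ν s)) φ ^ 2 + Sn (tl (gk ν s)) φ ^ 2 ≤ (L / 2) ^ 2 := by
    intro ν hν φ
    have h5 : 4 ≤ ν := h.m4.trans hν
    refine (sq_add_sq_le (summable_tl (summable_gk h5 hs)) (fun k => ?_) φ).trans (hl ν hν)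
    unfold tl
    split_ifs
    · exact le_rfl
    · exact gk_nonneg (by linarith) s k
  have key := var_le (P := fun φ => Cs (tl (gk (n + t) s)) φ + Cs (tl (gk (n - t) s)) φ)
    (Q := fun φ => Sn (tl (gk (n + t) s)) φ + Sn (tl (gk (n - t) s)) φ) a2 a0 a4 hL
    ((continuous_Cs (summable_tl g1)).add (continuous_Cs (summable_tl g2)))
    ((continuous_Sn (summable_tl g1)).add (continuous_Sn (summable_tl g2))) fun φ => by
      nlinarith [hb _ h1 φ, hb _ h2 φ,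
        sq_nonneg (Cs (tl (gk (n + t) s)) φ - Cs (tl (gk (n - t) s)) φ),
        sq_nonneg (Sn (tl (gk (n + t) s)) φ - Sn (tl (gk (n - t) s)) φ)]
  have e : ∀ φ, (w1 n t (s, φ) - 0) ^ 2 = exp (-(4 * s)) *
      (2 * Cs (fun k => J1 n t fun ν => gk ν s k) φ + (Cs (fun k => J1 n t fun ν => gk ν s k) φ *
        (Cs (tl (gk (n + t) s)) φ + Cs (tl (gk (n - t) s)) φ) +
        Sn (fun k => J1 n t fun ν => gk ν s k) φ *
          (Sn (tl (gk (n + t) s)) φ + Sn (tl (gk (n - t) s)) φ))) ^ 2 := by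
    intro φ
    rw [w1_eq h (p := (s, φ)) hs, show -(4 * s) = -(2 * s) + -(2 * s) by ring, exp_add]
    simp only [Jb]
    rw [Cs_tl g1, Cs_tl g2, Sn_tl g1, Sn_tl g2, gk_zero, gk_zero]
    ring
  simp only [e]
  rw [intervalIntegral.integral_const_mul]
  refine (mul_le_mul_of_nonneg_left key (exp_pos _).le).trans_eq ?_
  ring

theorem var_w1 {m n t s : ℝ} (h : Par m n t) (hs : 0 < s) :
    Var (w1 n t) s (v1 m s) ∧ Var (w1 n t) s (v1y m s) := by
  have hm4 := h.m4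
  have hm : 0 < m := by linarith
  have hu := mul_pos hm hs
  constructor
  · refine ⟨0, (sbwt1_var h hs (L := exp (-(m * s / 2)) / (m * s)) (by positivity)
      fun ν hν => ?_).trans_eq ?_⟩
    · have hp : ∀ k, 0 ≤ tl (gk ν s) k := by
        intro k
        unfold tl
        split_ifs
        · exact le_rfl
        · exact gk_nonneg (by linarith) s k
      have h1 := (sum_s0 (α := tl (gk ν s)) (T := 2 / m) hu (by positivity) rfl hp
        (by simpa [tl] using gk_le hm4 hν hs le_rfl) fun k hk => by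
          rw [tl, if_neg (by omega)]
          exact gk_le34 hm4 hν hs hk).2.1
      refine pow_le_pow_left₀ (tsum_nonneg hp) (h1.trans ?_) 2
      have h2 : 2 / m ≤ 1 / 2 := by
        rw [div_le_div_iff₀ hm (by norm_num)]
        linarith
      exact (mul_le_mul_of_nonneg_right h2 (by positivity)).trans_eq (by ring)
    · rw [v1, en2, div_pow (exp _), ← exp_nat_mul]
      push_cast
      rw [show 2 * -(m * s / 2) = -(m * s) by ring, mul_div_assoc (283 / 100 : ℝ)]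
  · have hy : √(1 / (m * s)) ^ 2 = 1 / (m * s) := sq_sqrt (by positivity)
    refine ⟨0, (sbwt1_var h hs (L := 2 * √(1 / (m * s))) (by positivity)
      fun ν hν => (tl_sum_sq_le hm4 hν hs).trans_eq (by rw [mul_div_cancel_left₀ _ two_ne_zero, hy])).trans ?_⟩
    have h1 : 0 ≤ s1 (m * s) := by
      unfold s1
      positivity
    rw [v1y, div_eq_mul_one_div (683 / 100 : ℝ) (m * s)]
    gcongr π * (_ * (_ * ?_))
    nlinarith [sq_nonneg (√(1 / (m * s)) - 1)]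

theorem crude_of_sup {m c z s : ℝ} (hm : 4 ≤ m) (hs : 0 < s) (hc0 : 0 ≤ c) (hc : c ≤ 1 / 20)
    (hz : z ≤ exp (-(2 * s)) * (c * (4 / m) ^ 4 * rho (3 / 5) m s)) :
    z ≤ 1 / 4 / s ^ 2 ∧ z ≤ c * (4 / m) ^ 4 * rho (3 / 5) m s := by
  have hm0 : 0 < m := by linarith
  have e1 : exp (-(2 * s)) ≤ 1 := exp_le_one_iff.2 (by linarith)
  have e2 : s * exp (-(2 * s)) ≤ 1 / 2 := by
    rw [exp_neg, ← div_eq_mul_inv, div_le_iff₀ (exp_pos _)]
    linarith [add_one_le_exp (2 * s)]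
  have x1 : 4 / m ≤ 1 := (div_le_one hm0).2 hm
  have x0 : 0 ≤ 4 / m := by positivity
  have hr : rho (3 / 5) m s = (6 / 25 + 6 / 5 * m * s) / s ^ 2 := by
    unfold rho
    field_simp
    ring
  constructor
  · refine hz.trans ?_
    have e : exp (-(2 * s)) * (c * (4 / m) ^ 4 * rho (3 / 5) m s) =
        c * (6 / 25 * (exp (-(2 * s)) * (4 / m) ^ 4) +
          24 / 5 * (s * exp (-(2 * s)) * (4 / m) ^ 3)) / s ^ 2 := by
      rw [hr]
      field_simp
      ring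
    have b1 : exp (-(2 * s)) * (4 / m) ^ 4 ≤ 1 :=
      mul_le_one₀ e1 (by positivity) (pow_le_one₀ x0 x1)
    have b2 : s * exp (-(2 * s)) * (4 / m) ^ 3 ≤ 1 / 2 :=
      (mul_le_of_le_one_right (by positivity) (pow_le_one₀ x0 x1)).trans e2
    rw [e]
    refine div_le_div_of_nonneg_right ?_ (by positivity)
    refine (mul_le_mul hc (show _ ≤ (6 / 25 + 12 / 5 : ℝ) by linarith) (by positivity)
      (by norm_num)).trans (by norm_num)
  · refine hz.trans (mul_le_of_le_one_left ?_ e1)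
    rw [hr]
    positivity

end Pool.Agent.PSF
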