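import Pool.Agent.P.MP_7b7370_an.Inner

set_option autoImplicit false

namespace Pool.Agent.PSz

open Real Set MeasureTheory intervalIntegral

namespace ZestAux

lemma inv_cube {r s : ℝ} (hr : |r - 1| ≤ 1 / 100) (hs : |s - 1| ≤ 1 / 100) :
    |1 / r ^ 3 - 1 / s ^ 3| ≤ 4 * |r - s| := by
  obtain ⟨r1, r2⟩ := abs_le.1 hr
  obtain ⟨s1, s2⟩ := abs_le.1 hs
  have hr0 : 0 < r := by linarith
  have hs0 : 0 < s := by linarith
  have e : 1 / r ^ 3 - 1 / s ^ 3 = (s - r) * ((s ^ 2 + s * r + r ^ 2) / (r * s) ^ 3) := by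
    field_simp; ring
  have h1 : 0.98 ≤ r * s := by nlinarith
  have h2 : 0.94 ≤ (r * s) ^ 3 := by
    calc (0.94 : ℝ) ≤ 0.98 ^ 3 := by norm_num
      _ ≤ (r * s) ^ 3 := by gcongr
  have h3 : (s ^ 2 + s * r + r ^ 2) / (r * s) ^ 3 ≤ 4 := by
    rw [div_le_iff₀ (by positivity)]; nlinarith
  rw [e, abs_mul, abs_sub_comm, abs_of_nonneg (by positivity : 0 ≤ (s ^ 2 + s * r + r ^ 2) / (r * s) ^ 3)]
  nlinarith [abs_nonneg (r - s)]

lemma inv_cube_le {r : ℝ} (hr : |r - 1| ≤ 1 / 100) : |1 / r ^ 3| ≤ 2 := by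
  have h := inv_cube hr (s := 1) (by norm_num)
  have h2 := abs_sub_abs_le_abs_sub (1 / r ^ 3) (1 / 1 ^ 3)
  norm_num at h h2 ⊢
  linarith

lemma cube_sub {r : ℝ} (hr : |r - 1| ≤ 1 / 100) : |r ^ 3 - 1| ≤ 4 * |r - 1| := by
  obtain ⟨r1, r2⟩ := abs_le.1 hr
  have e : r ^ 3 - 1 = (r - 1) * (r ^ 2 + r + 1) := by ring
  have h0 : 0 ≤ r ^ 2 + r + 1 := by nlinarith
  have h1 : r ^ 2 + r + 1 ≤ 4 := by nlinarith
  rw [e, abs_mul, abs_of_nonneg h0]
  nlinarith [abs_nonneg (r - 1)]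

lemma sqrt_sub {p q : ℝ} (hp : 1 / 2 ≤ p) (hq : 1 / 2 ≤ q) : |√p - √q| ≤ |p - q| := by
  have h1 : 1 / 2 ≤ √p := by apply le_sqrt_of_sq_le; linarith
  have h2 : 1 / 2 ≤ √q := by apply le_sqrt_of_sq_le; linarith
  have e : p - q = (√p - √q) * (√p + √q) := by
    have := sq_sqrt (show 0 ≤ p by linarith)
    have := sq_sqrt (show 0 ≤ q by linarith)
    nlinarith
  rw [e, abs_mul, abs_of_nonneg (show 0 ≤ √p + √q by linarith)]
  nlinarith [abs_nonneg (√p - √q)]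

lemma sqrt_sub_one {p δ : ℝ} (hδ : δ ≤ 1 / 2) (hp : |p - 1| ≤ δ) : |√p - 1| ≤ δ := by
  have := sqrt_sub (p := p) (q := 1) (by linarith [(abs_le.1 hp).1]) (by norm_num)
  rw [sqrt_one] at this
  linarith

lemma abs_gam_le {t : ℝ} (ht : 5.7 ≤ t) (ht' : t ≤ 5.8) : |gam t| ≤ 17 := by
  have := abs_le.1 (abs_F1_le (t := t) (q := 1) (by linarith) (by linarith) (by norm_num))
  unfold gam
  rw [abs_le]; constructor <;> linarith [this.1, this.2]

noncomputable def gg (t r : ℝ) : ℝ := F0 t (r ^ 2) - gam t * r ^ 3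

lemma hasDerivAt_gg (t r : ℝ) :
    HasDerivAt (gg t) (2 * r * (F1 t (r ^ 2) - F1 t 1 * r)) r := by
  have h1 := (hasDerivAt_F0 t (r ^ 2)).comp r (hasDerivAt_pow 2 r)
  have h2 := (hasDerivAt_pow 3 r).const_mul (gam t)
  refine (h1.sub h2).congr_deriv ?_
  unfold gam; push_cast; ring

lemma gg_lip {t δ r s : ℝ} (ht : 5.7 ≤ t) (ht' : t ≤ 5.8) (hδ : δ ≤ 1 / 100)
    (hr : |r - 1| ≤ δ) (hs : |s - 1| ≤ δ) : |gg t r - gg t s| ≤ 200 * δ * |r - s| := by
  obtain ⟨r1, r2⟩ := abs_le.1 hr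
  obtain ⟨s1, s2⟩ := abs_le.1 hs
  refine abs_sub_le_of_deriv (a := 1 - δ) (b := 1 + δ) (hasDerivAt_gg t) (fun z hz => ?_)
    ⟨by linarith, by linarith⟩ ⟨by linarith, by linarith⟩
  obtain ⟨z1, z2⟩ := hz
  have hδ0 : 0 ≤ δ := by linarith
  have hz2 : |z ^ 2 - 1| ≤ 2.01 * δ := by rw [abs_le]; constructor <;> nlinarith
  have hz2' := abs_le.1 hz2
  have h1 := abs_sub_le_of_deriv (a := 0) (b := 1.3) (C := 25) (x := 1) (y := z ^ 2)
    (hasDerivAt_F1 t)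
    (fun z hz => abs_F2_le (by linarith) (by linarith) (abs_le.2 ⟨by linarith [hz.1], hz.2⟩))
    ⟨by norm_num, by norm_num⟩ ⟨by positivity, by linarith⟩
  have h2 := abs_F1_le (t := t) (q := 1) (by linarith) (by linarith) (by norm_num)
  have h3 : |F1 t 1 * (1 - z)| ≤ 25 * δ := by
    rw [abs_mul]
    exact mul_le_mul h2 (abs_le.2 ⟨by linarith, by linarith⟩) (abs_nonneg _) (by norm_num)
  have h4 : |F1 t (z ^ 2) - F1 t 1 * z| ≤ 76 * δ := by
    have e : F1 t (z ^ 2) - F1 t 1 * z = (F1 t (z ^ 2) - F1 t 1) + F1 t 1 * (1 - z) := by ring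
    rw [e]
    refine (abs_add_le _ _).trans ?_
    linarith
  rw [abs_mul, abs_of_nonneg (show 0 ≤ 2 * z by linarith)]
  nlinarith [abs_nonneg (F1 t (z ^ 2) - F1 t 1 * z)]

lemma cont_inv {a : ℝ} (h0 : 0 < a) (h1 : a ≤ 1 / 1000) :
    Continuous fun y => 1 / √(q0 a y) ^ 3 :=
  continuous_const.div (by fun_prop) fun y => (pow_pos (sqrt_pos.2 (q0_pos h0 h1 y)) 3).ne'

lemma int_inv {a : ℝ} (h0 : 0 < a) (h1 : a ≤ 1 / 1000) :
    |(∫ y in (-1 : ℝ)..1, 1 / √(q0 a y) ^ 3) - 2| ≤ 9 * a ^ 2 := by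
  have e : (∫ y in (-1 : ℝ)..1, 1 / √(q0 a y) ^ 3) - 2
      = ∫ y in (-1 : ℝ)..1, (1 / √(q0 a y) ^ 3 - 1) := by
    rw [integral_sub ((cont_inv h0 h1).intervalIntegrable _ _) (by simp)]
    norm_num
  rw [e]
  have ha2 : a ^ 2 ≤ 1 / 1000000 := by nlinarith
  have := norm_integral_le_of_norm_le_const (a := (-1 : ℝ)) (b := 1) (C := 4.5 * a ^ 2)
    (f := fun y => 1 / √(q0 a y) ^ 3 - 1) fun y hy => by
      rw [uIoc_of_le (by norm_num)] at hy
      have hq := abs_q0_sub_one h0 h1 (abs_le.2 ⟨hy.1.le, hy.2⟩)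
      have hs := sqrt_sub_one (by linarith) hq
      have := inv_cube (hs.trans (by linarith)) (s := 1) (by norm_num)
      rw [Real.norm_eq_abs]
      simp only [one_pow, div_one] at this
      nlinarith [sq_nonneg a]
  rw [Real.norm_eq_abs] at this
  norm_num at this ⊢
  linarith

lemma sq_int_le {f : ℝ → ℝ} {B : ℝ} (hB : 0 ≤ B) (h : ∀ y, |y| ≤ 1 → f y ^ 2 ≤ B) :
    (∫ y in (-1 : ℝ)..1, f y) ^ 2 ≤ 4 * B := by
  have := norm_integral_le_of_norm_le_const (a := (-1 : ℝ)) (b := 1) (C := √B) (f := f)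
    fun y hy => by
      rw [uIoc_of_le (by norm_num)] at hy
      exact abs_le_sqrt (h y (abs_le.2 ⟨hy.1.le, hy.2⟩))
  rw [Real.norm_eq_abs] at this
  have h2 : |(1 : ℝ) - -1| = 2 := by norm_num
  rw [h2] at this
  have h3 := sq_sqrt hB
  have h4 := pow_le_pow_left₀ (abs_nonneg _) this 2
  rw [sq_abs] at h4
  nlinarith

end ZestAux

open ZestAux

/-- paper 15.1 -/
theorem kap_bound {a t : ℝ} (h0 : 0 < a) (h1 : a ≤ 1 / 1000) (ht : 5.7 ≤ t) (ht' : t ≤ 5.8) :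
    |kap a t + gam t| ≤ 100 * a ^ 2 := by
  have hI := int_inv h0 h1
  have hg := abs_gam_le ht ht'
  unfold kap
  set I := ∫ y in (-1 : ℝ)..1, 1 / √(q0 a y) ^ 3
  have ha2 : a ^ 2 ≤ 1 / 1000000 := by nlinarith
  have hI2 : 1.9 ≤ I := by linarith [(abs_le.1 hI).1]
  have e : -2 * gam t / I + gam t = gam t * (I - 2) / I := by field_simp; ring
  rw [e, abs_div, abs_mul, abs_of_pos (show 0 < I by linarith), div_le_iff₀ (by linarith)]
  have := mul_le_mul hg hI (abs_nonneg _) (by norm_num)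
  nlinarith [sq_nonneg a]

namespace ZestAux

lemma int_ref {a t : ℝ} (h0 : 0 < a) (h1 : a ≤ 1 / 1000) (u v : ℝ) :
    ∫ y in (-1 : ℝ)..1, (-kap a t * (1 / √(q0 a y) ^ 3) - gam t) * (u + y * v) = 0 := by
  have hc := cont_inv h0 h1
  have hI := int_inv h0 h1
  have ha2 : a ^ 2 ≤ 1 / 1000000 := by nlinarith
  have hI2 : (∫ y in (-1 : ℝ)..1, 1 / √(q0 a y) ^ 3) ≠ 0 := by
    have := (abs_le.1 hI).1
    intro h; rw [h] at this; linarith
  have e1 : ∫ y in (-1 : ℝ)..1, (-kap a t * (1 / √(q0 a y) ^ 3) - gam t) = 0 := by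
    have hc2 : Continuous fun y => -kap a t * (1 / √(q0 a y) ^ 3) := continuous_const.mul hc
    rw [integral_sub (hc2.intervalIntegrable _ _) (by simp), intervalIntegral.integral_const_mul]
    unfold kap
    simp only [intervalIntegral.integral_const, smul_eq_mul]
    field_simp; ring
  have e2 : ∫ y in (-1 : ℝ)..1, (-kap a t * (1 / √(q0 a y) ^ 3) - gam t) * y = 0 := by
    have := integral_comp_neg (a := (-1 : ℝ)) (b := 1)
      (fun y => (-kap a t * (1 / √(q0 a y) ^ 3) - gam t) * y)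
    have e : ∀ y, q0 a (-y) = q0 a y := fun y => by simp [q0]
    simp only [e, mul_neg, intervalIntegral.integral_neg, neg_neg] at this
    linarith
  have hρ : Continuous fun y => -kap a t * (1 / √(q0 a y) ^ 3) - gam t :=
    (continuous_const.mul hc).sub continuous_const
  have e3 : (fun y => (-kap a t * (1 / √(q0 a y) ^ 3) - gam t) * (u + y * v)) = fun y =>
      (-kap a t * (1 / √(q0 a y) ^ 3) - gam t) * u
        + (-kap a t * (1 / √(q0 a y) ^ 3) - gam t) * y * v := by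
    funext y; ring
  have c1 : Continuous fun y => (-kap a t * (1 / √(q0 a y) ^ 3) - gam t) * u :=
    hρ.mul continuous_const
  have c2 : Continuous fun y => (-kap a t * (1 / √(q0 a y) ^ 3) - gam t) * y * v :=
    (hρ.mul continuous_id).mul continuous_const
  rw [e3, integral_add (c1.intervalIntegrable _ _) (c2.intervalIntegrable _ _),
    intervalIntegral.integral_mul_const, intervalIntegral.integral_mul_const, e1, e2]
  simp

lemma F0_q0 {a t y : ℝ} (h0 : 0 < a) (h1 : a ≤ 1 / 1000) (ht : 5.7 ≤ t) (ht' : t ≤ 5.8)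
    (hF : |F0 t 1| ≤ 300 * a ^ 2) (hy : |y| ≤ 1) : |F0 t (q0 a y)| ≤ 326 * a ^ 2 := by
  have hq := abs_q0_sub_one h0 h1 hy
  have ha2 : a ^ 2 ≤ 1 / 1000000 := by nlinarith
  have := abs_F0_near ht ht' (q := q0 a y) (by linarith)
  nlinarith [sq_nonneg a]

/-- the pointwise remainder -/
lemma rem_le {a t b p y : ℝ} (h0 : 0 < a) (h1 : a ≤ 1 / 1000) (ht : 5.7 ≤ t) (ht' : t ≤ 5.8)
    (hF : |F0 t 1| ≤ 300 * a ^ 2) (hy : |y| ≤ 1) (hp : |p - 1| ≤ a) :
    |(F0 t p - b * F0 t (q0 a y) - gam t * √p ^ 3 - kap a t) * (1 / √p ^ 3)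
      - (-kap a t * (1 / √(q0 a y) ^ 3) - gam t)|
      ≤ 800 * a * |p - q0 a y| + 652 * a ^ 2 * |b - 1| := by
  have hq := abs_q0_sub_one h0 h1 hy
  have hq' : |q0 a y - 1| ≤ a := by nlinarith
  have hF0 := F0_q0 h0 h1 ht ht' hF hy
  have hk := kap_bound h0 h1 ht ht'
  have hg := abs_gam_le ht ht'
  set q := q0 a y
  have hp2 : 1 / 2 ≤ p := by linarith [(abs_le.1 hp).1]
  have hq2 : 1 / 2 ≤ q := by linarith [(abs_le.1 hq').1]
  have hR := sqrt_sub_one (by linarith) hp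
  have hS := sqrt_sub_one (by linarith) hq'
  have hRS := sqrt_sub hp2 hq2
  have eR : √p ^ 2 = p := sq_sqrt (by linarith)
  have eS : √q ^ 2 = q := sq_sqrt (by linarith)
  have hS0 : 0 < √q := sqrt_pos.2 (by linarith)
  have hl := gg_lip ht ht' (by linarith) hR hS
  unfold gg at hl
  rw [eR, eS] at hl
  have hi := inv_cube (hR.trans (by linarith)) (hS.trans (by linarith))
  have hi2 := inv_cube_le (hR.trans (by linarith))
  have hc := cube_sub (hS.trans (by linarith))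
  set R := √p
  set S := √q
  have e : (F0 t p - b * F0 t q - gam t * R ^ 3 - kap a t) * (1 / R ^ 3)
      - (-kap a t * (1 / S ^ 3) - gam t)
      = (F0 t p - gam t * R ^ 3 - (F0 t q - gam t * S ^ 3)) * (1 / R ^ 3)
        - (b - 1) * F0 t q * (1 / R ^ 3)
        - ((kap a t + gam t) + gam t * (S ^ 3 - 1)) * (1 / R ^ 3 - 1 / S ^ 3) := by
    have : gam t * S ^ 3 * (1 / S ^ 3) = gam t := by field_simp
    linear_combination -this
  have hΔ := abs_nonneg (p - q)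
  have hb := abs_nonneg (b - 1)
  have b1 : |(F0 t p - gam t * R ^ 3 - (F0 t q - gam t * S ^ 3)) * (1 / R ^ 3)|
      ≤ 200 * a * |p - q| * 2 := by
    rw [abs_mul]
    refine mul_le_mul (hl.trans ?_) hi2 (abs_nonneg _) (by positivity)
    gcongr
  have b2 : |(b - 1) * F0 t q * (1 / R ^ 3)| ≤ |b - 1| * (326 * a ^ 2) * 2 := by
    rw [abs_mul, abs_mul]
    gcongr
  have b3 : |(kap a t + gam t) + gam t * (S ^ 3 - 1)| ≤ 100 * a := by
    refine (abs_add_le _ _).trans ?_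
    have : |gam t * (S ^ 3 - 1)| ≤ 17 * (4 * a) := by
      rw [abs_mul]
      exact mul_le_mul hg (by linarith) (abs_nonneg _) (by norm_num)
    nlinarith
  have b4 : |((kap a t + gam t) + gam t * (S ^ 3 - 1)) * (1 / R ^ 3 - 1 / S ^ 3)|
      ≤ 100 * a * (4 * |p - q|) := by
    rw [abs_mul]
    exact mul_le_mul b3 (by linarith) (abs_nonneg _) (by positivity)
  rw [e]
  refine (abs_sub _ _).trans ?_
  have := abs_sub ((F0 t p - gam t * R ^ 3 - (F0 t q - gam t * S ^ 3)) * (1 / R ^ 3))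
    ((b - 1) * F0 t q * (1 / R ^ 3))
  linarith

lemma moment {a t θa θb : ℝ} {M D : ℂ} {η R c : ℝ → ℝ} (h0 : 0 < a) (h1 : a ≤ 1 / 1000)
    (ht : 5.7 ≤ t) (ht' : t ≤ 5.8) (hF : |F0 t 1| ≤ 300 * a ^ 2) (hT : Tri θa θb M D η R)
    {b B u v : ℝ} (hB : 0 ≤ B) (hq : ∀ y, |y| ≤ 1 → |qq M D y - 1| ≤ a)
    (hΔ : ∀ y, |y| ≤ 1 → a ^ 2 * (qq M D y - q0 a y) ^ 2 ≤ B) (hb : a ^ 4 * (b - 1) ^ 2 ≤ B)
    (hc : ∀ θ ∈ Icc θa θb, R θ * c θ = u + η θ * v)
    (huv : ∀ y, (u + y * v) ^ 2 ≤ qq M D y) :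
    (∫ θ in θa..θb, (F0 t (R θ ^ 2) - b * F0 t (q0 a (η θ)) - gam t * R θ ^ 3 - kap a t)
      * c θ) ^ 2 ≤ 10 ^ 8 * det M D ^ 2 * B := by
  have hqp := qq_pos hT.ar
  have hsp : ∀ y, 0 < √(qq M D y) := fun y => sqrt_pos.2 (hqp y)
  set Z : ℝ → ℝ := fun y =>
    F0 t (qq M D y) - b * F0 t (q0 a y) - gam t * √(qq M D y) ^ 3 - kap a t with hZ
  have cZ : Continuous Z := by rw [hZ]; fun_prop
  have cG : Continuous fun y => Z y * ((u + y * v) / √(qq M D y)) :=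
    cZ.mul ((by fun_prop : Continuous fun y : ℝ => u + y * v).div (by fun_prop)
      fun y => (hsp y).ne')
  have e1 : ∫ θ in θa..θb, (F0 t (R θ ^ 2) - b * F0 t (q0 a (η θ)) - gam t * R θ ^ 3 - kap a t)
      * c θ = ∫ θ in θa..θb, Z (η θ) * ((u + η θ * v) / √(qq M D (η θ))) := by
    refine integral_congr fun θ hθ => ?_
    rw [uIcc_of_le hT.lt.le] at hθ
    have hs := hT.sq hθ
    have hR : √(qq M D (η θ)) = R θ := by rw [← hs, sqrt_sq (hT.Rpos θ).le]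
    simp only [hZ, hR, ← hc θ hθ, hs]
    have := (hT.Rpos θ).ne'
    congr 1; field_simp
  have cI : Continuous fun y => 1 / √(qq M D y) ^ 3 :=
    continuous_const.div (by fun_prop) fun y => (pow_pos (hsp y) 3).ne'
  have hρ : Continuous fun y => -kap a t * (1 / √(q0 a y) ^ 3) - gam t :=
    (continuous_const.mul (cont_inv h0 h1)).sub continuous_const
  have cl : Continuous fun y : ℝ => u + y * v := by fun_prop
  have e2 : ∫ y in (-1 : ℝ)..1, Z y * ((u + y * v) / √(qq M D y)) / qq M D y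
      = ∫ y in (-1 : ℝ)..1, (Z y * (1 / √(qq M D y) ^ 3)
        - (-kap a t * (1 / √(q0 a y) ^ 3) - gam t)) * (u + y * v) := by
    simp only [sub_mul (Z _ * _)]
    have c1 : Continuous fun y => Z y * (1 / √(qq M D y) ^ 3) * (u + y * v) := (cZ.mul cI).mul cl
    have c2 : Continuous fun y => (-kap a t * (1 / √(q0 a y) ^ 3) - gam t) * (u + y * v) :=
      hρ.mul cl
    rw [integral_sub (c1.intervalIntegrable _ _) (c2.intervalIntegrable _ _), int_ref h0 h1,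
      sub_zero]
    congr 1; funext y
    have e : √(qq M D y) ^ 3 = √(qq M D y) * qq M D y := by
      have := sq_sqrt (hqp y).le
      rw [pow_succ, this, mul_comm]
    have := (hsp y).ne'
    have := (hqp y).ne'
    rw [e]; field_simp
  rw [e1, hT.chg1 cG, e2, mul_pow]
  have := sq_int_le (B := 10 ^ 7 * B) (by positivity) (f := fun y => (Z y * (1 / √(qq M D y) ^ 3)
        - (-kap a t * (1 / √(q0 a y) ^ 3) - gam t)) * (u + y * v)) fun y hy => by
    have hr := rem_le (b := b) h0 h1 ht ht' hF hy (hq y hy)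
    have h2 := pow_le_pow_left₀ (abs_nonneg _) hr 2
    rw [sq_abs] at h2
    have h3 : (800 * a * |qq M D y - q0 a y| + 652 * a ^ 2 * |b - 1|) ^ 2 ≤ 3 * 10 ^ 6 * B := by
      have i1 := hΔ y hy
      rw [← sq_abs (qq M D y - q0 a y)] at i1
      rw [← sq_abs (b - 1)] at hb
      nlinarith [sq_nonneg (800 * a * |qq M D y - q0 a y| - 652 * a ^ 2 * |b - 1|)]
    have h4 : (u + y * v) ^ 2 ≤ 2 := by linarith [huv y, (abs_le.1 (hq y hy)).2]
    rw [mul_pow]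
    refine (mul_le_mul (h2.trans h3) h4 (sq_nonneg _) (by positivity)).trans ?_
    nlinarith
  nlinarith [sq_nonneg (det M D), mul_nonneg (sq_nonneg (det M D)) hB,
    mul_le_mul_of_nonneg_left this (sq_nonneg (det M D))]

end ZestAux

/-- paper 15.2 -/
theorem z_normal {K Pm : ℝ} (hK : 1 ≤ K) (hPm : 1 ≤ Pm) : ∃ C a0 : ℝ, 1 ≤ C ∧ 0 < a0 ∧
    ∀ a t : ℝ, 0 < a → a ≤ a0 → 5.7 ≤ t → t ≤ 5.8 → |F0 t 1| ≤ 300 * a ^ 2 →
    ∀ θa θb M D η R, Tri θa θb M D η R → Nrm a K Pm M D →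
    ∫ θ in θa..θb, (F0 t (R θ ^ 2) - bb a D * F0 t (q0 a (η θ))) ^ 2 ≤ C * g0 a M D ∧
    (∫ θ in θa..θb, (F0 t (R θ ^ 2) - bb a D * F0 t (q0 a (η θ)) - gam t * R θ ^ 3 - kap a t)
      * cos θ) ^ 2 ≤ C * a ^ 2 * g0 a M D ∧
    (∫ θ in θa..θb, (F0 t (R θ ^ 2) - bb a D * F0 t (q0 a (η θ)) - gam t * R θ ^ 3 - kap a t)
      * sin θ) ^ 2 ≤ C * a ^ 2 * g0 a M D := by
  obtain ⟨C, a1, hC, ha1, H⟩ := nrm_sizes hK hPm
  refine ⟨10 ^ 8 * C ^ 3, min a1 (1 / K ^ 2), ?_, lt_min ha1 (by positivity), ?_⟩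
  · have := one_le_pow₀ (n := 3) hC
    nlinarith
  intro a t h0 ha ht ht' hF θa θb M D η R hT hN
  obtain ⟨h1, -, hΔ, -, -, -, hb, -, -, -, hdet, hqq, -⟩ := H a M D h0 (ha.trans (min_le_left _ _)) hN
  have hK0 : 0 < K := by linarith
  have hsa : K * √a ≤ 1 := by
    have : √a ≤ 1 / K := by
      apply sqrt_le_iff.2 ⟨by positivity, ?_⟩
      rw [div_pow, one_pow]; exact ha.trans (min_le_right _ _)
    rwa [le_div_iff₀' hK0] at this
  have hq : ∀ y, |y| ≤ 1 → |qq M D y - 1| ≤ a := fun y hy =>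
    (hN.small y hy).trans (by nlinarith)
  have hTh : 0 ≤ Th a M D := integral_nonneg (by norm_num) fun y _ => sq_nonneg _
  have hg1 : a * Th a M D ≤ g0 a M D := by
    unfold g0; linarith [mul_nonneg (pow_nonneg h0.le 4) (sq_nonneg (PP a M D - 1))]
  have hg0 : 0 ≤ g0 a M D := (mul_nonneg h0.le hTh).trans hg1
  have hC0 : 0 < C := by linarith
  have hΔ1 : ∀ y, |y| ≤ 1 → a * (qq M D y - q0 a y) ^ 2 ≤ C * g0 a M D := fun y hy => by
    calc a * (qq M D y - q0 a y) ^ 2 ≤ a * (C * Th a M D) := by gcongr; exact hΔ y hy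
      _ = C * (a * Th a M D) := by ring
      _ ≤ C * g0 a M D := by gcongr
  have hΔ2 : ∀ y, |y| ≤ 1 → a ^ 2 * (qq M D y - q0 a y) ^ 2 ≤ C * g0 a M D := fun y hy => by
    refine le_trans ?_ (hΔ1 y hy)
    gcongr; nlinarith
  have hfin : 10 ^ 8 * det M D ^ 2 * (C * g0 a M D) ≤ 10 ^ 8 * C ^ 3 * a ^ 2 * g0 a M D := by
    have := hT.ar
    calc 10 ^ 8 * det M D ^ 2 * (C * g0 a M D) ≤ 10 ^ 8 * (C * a) ^ 2 * (C * g0 a M D) := by gcongr
      _ = _ := by ring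
  refine ⟨?_, (moment h0 h1 ht ht' hF hT (u := M.re) (v := D.re) (by positivity) hq hΔ2 hb
    (fun θ hθ => ?_) fun y => ?_).trans hfin, (moment h0 h1 ht ht' hF hT (u := M.im) (v := D.im)
      (by positivity) hq hΔ2 hb (fun θ hθ => ?_) fun y => ?_).trans hfin⟩
  · have hqp := qq_pos hT.ar
    have cg : Continuous fun y => (F0 t (qq M D y) - bb a D * F0 t (q0 a y)) ^ 2 := by fun_prop
    have e1 : ∫ θ in θa..θb, (F0 t (R θ ^ 2) - bb a D * F0 t (q0 a (η θ))) ^ 2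
        = ∫ θ in θa..θb, (F0 t (qq M D (η θ)) - bb a D * F0 t (q0 a (η θ))) ^ 2 := by
      refine integral_congr fun θ hθ => ?_
      rw [uIcc_of_le hT.lt.le] at hθ
      simp only [hT.sq hθ]
    rw [e1, hT.chg1 cg]
    have hle : ∫ y in (-1 : ℝ)..1, (F0 t (qq M D y) - bb a D * F0 t (q0 a y)) ^ 2 / qq M D y
        ≤ ∫ _y in (-1 : ℝ)..1, 10 ^ 4 * (C * g0 a M D) / a := by
      refine integral_mono_on (by norm_num)
        ((cg.div (by fun_prop) fun y => (hqp y).ne').intervalIntegrable _ _) (by simp)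
        fun y hy => ?_
      have hy' : |y| ≤ 1 := abs_le.2 hy
      have hF0 := F0_q0 h0 h1 ht ht' hF hy'
      have hq0 := abs_le.1 (abs_q0_sub_one h0 h1 hy')
      have hq1 := abs_le.1 (hq y hy')
      have ha2 : a ^ 2 ≤ 1 / 1000000 := by nlinarith
      have hl := abs_sub_le_of_deriv (a := 0) (b := 1.3) (C := 25) (x := q0 a y) (y := qq M D y)
        (hasDerivAt_F0 t)
        (fun z hz => abs_F1_le (by linarith) (by linarith) (abs_le.2 ⟨by linarith [hz.1], hz.2⟩))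
        ⟨by linarith, by linarith⟩ ⟨by linarith, by linarith⟩
      have l2 := pow_le_pow_left₀ (abs_nonneg _) hl 2
      have f2 := pow_le_pow_left₀ (abs_nonneg _) hF0 2
      rw [sq_abs, mul_pow, sq_abs] at l2
      rw [sq_abs] at f2
      have i1 := hΔ1 y hy'
      have i2 : a * ((bb a D - 1) * F0 t (q0 a y)) ^ 2 ≤ 107 * (C * g0 a M D) := by
        calc a * ((bb a D - 1) * F0 t (q0 a y)) ^ 2
            = a * F0 t (q0 a y) ^ 2 * (bb a D - 1) ^ 2 := by ring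
          _ ≤ 1 / 1000 * (326 * a ^ 2) ^ 2 * (bb a D - 1) ^ 2 := by gcongr
          _ = 106.276 * (a ^ 4 * (bb a D - 1) ^ 2) := by ring
          _ ≤ 107 * (C * g0 a M D) := by gcongr; norm_num
      have i3 : a * (F0 t (qq M D y) - F0 t (q0 a y)) ^ 2 ≤ 625 * (C * g0 a M D) := by
        nlinarith
      have i4 : (F0 t (qq M D y) - bb a D * F0 t (q0 a y)) ^ 2 ≤
          2 * (F0 t (qq M D y) - F0 t (q0 a y)) ^ 2 + 2 * ((bb a D - 1) * F0 t (q0 a y)) ^ 2 := by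
        nlinarith [sq_nonneg ((F0 t (qq M D y) - F0 t (q0 a y)) + (bb a D - 1) * F0 t (q0 a y))]
      have i5 : a * (F0 t (qq M D y) - bb a D * F0 t (q0 a y)) ^ 2 ≤ 1464 * (C * g0 a M D) := by
        nlinarith
      rw [div_le_div_iff₀ (hqp y) h0]
      have i6 := (hqq y hy').1
      have i7 : 0 ≤ C * g0 a M D := by positivity
      nlinarith
    simp only [intervalIntegral.integral_const, smul_eq_mul] at hle
    have hA := hT.ar
    calc _ ≤ det M D * ((1 - -1) * (10 ^ 4 * (C * g0 a M D) / a)) := by gcongr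
      _ ≤ C * a * ((1 - -1) * (10 ^ 4 * (C * g0 a M D) / a)) := by gcongr
      _ = 2 * 10 ^ 4 * C ^ 2 * g0 a M D := by field_simp; ring
      _ ≤ 10 ^ 8 * C ^ 3 * g0 a M D := by
        gcongr
        · norm_num
        · norm_num
  · have := congrArg Complex.re (hT.pt θ hθ)
    simpa using this
  · rw [qq_eq, Complex.normSq_apply]
    simp only [Complex.add_re, Complex.smul_re, smul_eq_mul]
    nlinarith [mul_self_nonneg (M + y • D).im]
  · have := congrArg Complex.im (hT.pt θ hθ)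
    simpa using this
  · rw [qq_eq, Complex.normSq_apply]
    simp only [Complex.add_im, Complex.smul_im, smul_eq_mul]
    nlinarith [mul_self_nonneg (M + y • D).re]

/-- paper 15.3: pointwise bounds for the other sectors -/
theorem z_abn : ∃ C : ℝ, 1 ≤ C ∧ ∀ a t R : ℝ, 0 < a → a ≤ 1 / 1000 → 5.7 ≤ t → t ≤ 5.8 →
    |F0 t 1| ≤ 300 * a ^ 2 → |R - 1| ≤ 1 / 100 →
    F0 t (R ^ 2) ^ 2 ≤ C * ((R ^ 2 - 1) ^ 2 + a ^ 4) ∧
    |F0 t (R ^ 2) - gam t * R ^ 3 - kap a t| ≤ C * ((R ^ 2 - 1) ^ 2 + a ^ 2) := by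
  refine ⟨200000, by norm_num, fun a t R h0 h1 ht ht' hF hR => ⟨?_, ?_⟩⟩
  · obtain ⟨r1, r2⟩ := abs_le.1 hR
    have h2 := abs_F0_near ht ht' (q := R ^ 2) (abs_le.2 ⟨by nlinarith, by nlinarith⟩)
    have h3 : |F0 t (R ^ 2)| ≤ 300 * a ^ 2 + 25 * |R ^ 2 - 1| := by linarith
    have h4 := pow_le_pow_left₀ (abs_nonneg _) h3 2
    rw [sq_abs] at h4
    rw [← sq_abs (R ^ 2 - 1)]
    nlinarith [sq_nonneg (300 * a ^ 2 - 25 * |R ^ 2 - 1|), sq_nonneg |R ^ 2 - 1|, pow_pos h0 4]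
  · obtain ⟨r1, r2⟩ := abs_le.1 hR
    have hl := gg_lip ht ht' hR (r := R) (s := 1) le_rfl (by simp)
    have hk := kap_bound h0 h1 ht ht'
    have e : F0 t (R ^ 2) - gam t * R ^ 3 - kap a t
        = (gg t R - gg t 1) + F0 t 1 - (kap a t + gam t) := by
      unfold gg; simp only [one_pow]; ring
    have h2 : |R - 1| * |R - 1| ≤ (R ^ 2 - 1) ^ 2 := by
      rw [abs_mul_abs_self]
      have : (R ^ 2 - 1) ^ 2 = (R - 1) * (R - 1) * (R + 1) ^ 2 := by ring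
      rw [this]
      exact le_mul_of_one_le_right (mul_self_nonneg _) (by nlinarith)
    rw [e]
    refine (abs_sub _ _).trans ?_
    have := abs_add_le (gg t R - gg t 1) (F0 t 1)
    nlinarith [sq_nonneg (R ^ 2 - 1), sq_nonneg a]

end Pool.Agent.PSz
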