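import Pool.Agent.P.MP_7b7370_an.Normal
import Pool.Agent.P.MP_7b7370_an.Zest

/-! Abnormal sectors. -/

set_option autoImplicit false

namespace Pool.Agent.PSz.Sec

open Real Set MeasureTheory intervalIntegral Pool.Agent.PSz

noncomputable def Var (ε A B θa θb : ℝ) : ℝ := ∫ θ in θa..θb, (Rp ε A B θ ^ 2 - 1) ^ 2

lemma c_grad {w : ℂ → ℝ} (hw : ContDiff ℝ 1 w) : Cont fun r θ => ‖fderiv ℝ w (pol r θ)‖ ^ 2 :=
  ((hw.continuous_fderiv one_ne_zero).comp (Continuous.pol continuous_fst continuous_snd)).norm.pow 2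

lemma c_val {w : ℂ → ℝ} (hw : ContDiff ℝ 1 w) : Cont fun r θ => w (pol r θ) ^ 2 :=
  (hw.continuous.comp (Continuous.pol continuous_fst continuous_snd)).pow 2

lemma PD_split {θa θb : ℝ} {r0 r1 r2 : ℝ → ℝ} {w : ℂ → ℝ} (hw : ContDiff ℝ 1 w)
    (h0 : Continuous r0) (h1 : Continuous r1) (h2 : Continuous r2) :
    PD θa θb r0 r1 w + PD θa θb r1 r2 w = PD θa θb r0 r2 w := PI_split (c_grad hw) h0 h1 h2

lemma PD_nonneg {θa θb : ℝ} {r0 r1 : ℝ → ℝ} {w : ℂ → ℝ} (hw : ContDiff ℝ 1 w)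
    (h0 : Continuous r0) (h1 : Continuous r1) (hab : θa ≤ θb)
    (hr : ∀ θ ∈ Ioo θa θb, 0 ≤ r0 θ ∧ r0 θ ≤ r1 θ) : 0 ≤ PD θa θb r0 r1 w :=
  PI_nonneg (c_grad hw) h0 h1 hab hr fun _ _ _ _ => sq_nonneg _

lemma abs_int_le {f g : ℝ → ℝ} {θa θb : ℝ} (hab : θa ≤ θb) (hf : Continuous f) (hg : Continuous g)
    (h : ∀ θ ∈ Ioo θa θb, |f θ| ≤ g θ) : |∫ θ in θa..θb, f θ| ≤ ∫ θ in θa..θb, g θ :=
  (abs_integral_le_integral_abs hab).trans (integral_mono_on_of_le_Ioo hab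
    (hf.abs.intervalIntegrable _ _) (hg.intervalIntegrable _ _) h)

section
variable {ε A B θa θb : ℝ} (hε : 0 < ε) (hε1 : ε ≤ 1 / 10 ^ 5) (hab : θa ≤ θb)
  (hell : θa < θb → ∀ θ ∈ Icc θa θb, 0 < ell A B θ ∧ ell A B θ ≤ 1 / (1 - ε))
include hε hε1 hab hell

omit hab in
lemma Rp_near {θ : ℝ} (hθ : θ ∈ Ioo θa θb) : 1 - ε ≤ Rp ε A B θ ∧ Rp ε A B θ ≤ 1 + ε :=
  ⟨le_Rp hε (by linarith) (hell (hθ.1.trans hθ.2) θ (Ioo_subset_Icc_self hθ)).2, Rp_le hε A B θ⟩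

omit hab in
lemma Rp_sq_near {θ : ℝ} (hθ : θ ∈ Ioo θa θb) : |Rp ε A B θ ^ 2 - 1| ≤ 2.1 * ε := by
  obtain ⟨h1, h2⟩ := Rp_near hε hε1 hell hθ
  rw [abs_le]; constructor <;> nlinarith

omit hε hε1 hell in
lemma Var_nonneg : 0 ≤ Var ε A B θa θb := integral_nonneg hab fun _ _ => sq_nonneg _

lemma Var_le : Var ε A B θa θb ≤ 5 * ε ^ 2 * (θb - θa) := by
  have cR := continuous_Rp hε A B
  have := integral_mono_on_of_le_Ioo (μ := volume) hab (f := fun θ => (Rp ε A B θ ^ 2 - 1) ^ 2)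
    (g := fun _ => 5 * ε ^ 2) (Continuous.intervalIntegrable (by fun_prop) _ _) (by simp)
    fun θ hθ => by
      have := abs_le.1 (Rp_sq_near hε hε1 hell hθ)
      nlinarith [sq_le_sq' this.1 this.2]
  rw [intervalIntegral.integral_const, smul_eq_mul] at this
  unfold Var; linarith

omit hε1 hell in
lemma dev_sq : ((∫ θ in θa..θb, Rp ε A B θ ^ 2 / 2) - (θb - θa) / 2) ^ 2
    ≤ (θb - θa) * Var ε A B θa θb / 4 := by
  have cR := continuous_Rp hε A B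
  have := cs_interval hab (f := fun _ => 1) (g := fun θ => Rp ε A B θ ^ 2 - 1) continuous_const
    (by fun_prop)
  simp only [one_mul, one_pow] at this
  rw [intervalIntegral.integral_sub (Continuous.intervalIntegrable (by fun_prop) _ _) (by simp),
    intervalIntegral.integral_const, smul_eq_mul, mul_one] at this
  rw [intervalIntegral.integral_div]
  unfold Var; linarith

lemma ft_int {t : ℝ} (ht : 5.7 ≤ t) (ht' : t ≤ 5.8) (hF : |F0 t 1| ≤ 1 / 1000) :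
    0.1 * Var ε A B θa θb ≤ ∫ θ in θa..θb, ft t (Rp ε A B θ ^ 2) := by
  have cR := continuous_Rp hε A B
  unfold Var
  rw [← intervalIntegral.integral_const_mul]
  exact integral_mono_on_of_le_Ioo hab (Continuous.intervalIntegrable (by fun_prop) _ _)
    (Continuous.intervalIntegrable (by fun_prop) _ _) fun θ hθ =>
      (ft_bounds ht ht' hF ((Rp_sq_near hε hε1 hell hθ).trans (by linarith))).1

omit hε hε1 hell in
lemma int_var (hε : 0 < ε) (c k : ℝ) : ∫ θ in θa..θb, c * ((Rp ε A B θ ^ 2 - 1) ^ 2 + k)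
    = c * (Var ε A B θa θb + k * (θb - θa)) := by
  have cR := continuous_Rp hε A B
  rw [intervalIntegral.integral_const_mul, intervalIntegral.integral_add
    (Continuous.intervalIntegrable (by fun_prop) _ _) (by simp), intervalIntegral.integral_const,
    smul_eq_mul]
  unfold Var; ring

lemma bad_le {t : ℝ} (ht : 5.7 ≤ t) (ht' : t ≤ 5.8) {u : ℂ → ℝ} (hu : ContDiff ℝ 1 u)
    (h0 : θa < θb → ∀ θ ∈ Icc θa θb, u (pol (1 / ell A B θ) θ) = 0) :
    (∫ θ in θa..θb, 2 * Rp ε A B θ ^ 2 * F1 t (Rp ε A B θ ^ 2) * u (pol (Rp ε A B θ) θ)) ^ 2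
      ≤ 900 / ε ^ 2 * Var ε A B θa θb * ∫ θ in θa..θb, u (pol (1 + ε) θ) ^ 2 := by
  have cR := continuous_Rp hε A B
  have cu := hu.continuous
  have k1 := abs_int_le hab
    (f := fun θ => 2 * Rp ε A B θ ^ 2 * F1 t (Rp ε A B θ ^ 2) * u (pol (Rp ε A B θ) θ))
    (g := fun θ => 30 / ε * (|Rp ε A B θ ^ 2 - 1| * |u (pol (1 + ε) θ)|)) (by fun_prop)
    (by fun_prop) fun θ hθ => by
      rcases le_total (ell A B θ) (1 / (1 + ε)) with k | k
      · have e : Rp ε A B θ = 1 + ε := by unfold Rp; rw [max_eq_right k, one_div_one_div]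
        rw [e, abs_mul, abs_mul, ← mul_assoc]
        refine mul_le_mul_of_nonneg_right ?_ (abs_nonneg _)
        have a1 := abs_F1_le (t := t) (q := (1 + ε) ^ 2) (by linarith) (by linarith)
          (by rw [abs_of_nonneg (sq_nonneg _)]; nlinarith)
        have a2 : |2 * (1 + ε) ^ 2| ≤ 2.1 := by rw [abs_of_nonneg (by positivity)]; nlinarith
        have a3 : 60 ≤ 30 / ε * |(1 + ε) ^ 2 - 1| := by
          rw [abs_of_nonneg (by nlinarith), div_mul_eq_mul_div, le_div_iff₀ hε]; nlinarith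
        linarith [mul_le_mul a2 a1 (abs_nonneg _) (by norm_num)]
      · have e : Rp ε A B θ = 1 / ell A B θ := by unfold Rp; rw [max_eq_left k]
        rw [e, h0 (hθ.1.trans hθ.2) θ (Ioo_subset_Icc_self hθ), mul_zero, abs_zero]
        positivity
  rw [intervalIntegral.integral_const_mul] at k1
  have k2 := cs_interval hab (f := fun θ => |Rp ε A B θ ^ 2 - 1|)
    (g := fun θ => |u (pol (1 + ε) θ)|) (by fun_prop) (by fun_prop)
  simp only [sq_abs] at k2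
  have k3 := pow_le_pow_left₀ (abs_nonneg _) k1 2
  rw [sq_abs, mul_pow, div_pow] at k3
  refine k3.trans ?_
  rw [mul_assoc, show (30 : ℝ) ^ 2 = 900 by norm_num]
  exact mul_le_mul_of_nonneg_left k2 (by positivity)

lemma abn_out {e C0 C a t ς Φ sJ sD cA Cz Ci : ℝ} {h : P2 → ℝ} (r : Ref a t ς h)
    (h2 : θb - θa ≤ 2 * π) (he : 0 < e) (he1 : e ≤ 1 / 100) (hcA : 0 < cA) (hCz : 1 ≤ Cz)
    (hC0 : 900 * Cz ^ 2 ≤ C0 * cA) (hCi : 1 ≤ Ci) (hC : 4 * Ci ≤ C)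
    (hz : ∀ R : ℝ, |R - 1| ≤ 1 / 100 → F0 t (R ^ 2) ^ 2 ≤ Cz * ((R ^ 2 - 1) ^ 2 + a ^ 4) ∧
      |F0 t (R ^ 2) - gam t * R ^ 3 - kap a t| ≤ Cz * ((R ^ 2 - 1) ^ 2 + a ^ 2))
    (hi : ∃ H Hr Ht, Piece θa θb (Nd a h 0) (Nd a h 0) (h 0) H Hr Ht ∧
      Err θa θb ((1 - ε) ^ 2) (fun _ => 0) H Hr Ht ≤ Ci * a ^ 5 * (θb - θa) ∧
      PI θa θb (fun _ => 0) (fun _ => (1 - ε) ^ 2) (fun r θ => H r θ ^ 2)
        ≤ Ci * a ^ 5 * (θb - θa))
    (hm : ∀ u : ℂ → ℝ, ContDiff ℝ 1 u →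
      (θa < θb → ∀ θ ∈ Icc θa θb, u (pol (1 / ell A B θ) θ) = 0) → ∀ c : ℝ,
      c ^ 2 * (Φ + sJ * ((∫ θ in θa..θb, Rp ε A B θ ^ 2 / 2) / a - 1)
        + sD * (((∫ θ in θa..θb, Rp ε A B θ ^ 2 / 2) - (θb - θa) / 2) / a)
        + cA * (a ^ 4 + a ^ 3 * (θb - θa) + Var ε A B θa θb))
      ≤ 0.02 * PD θa θb (fun _ => 0) (Rp ε A B) (fun z => c * phi t z - u z)
        + c ^ 2 * (0.1 * Var ε A B θa θb)) :
    SecOut e C0 C ε a t ς Φ sJ sD (kap a t) h θa θb A B True (fun _ => 0)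
      (cA * (a ^ 4 + a ^ 3 * (θb - θa) + Var ε A B θa θb)) := by
  have h0 := r.a_pos
  have h1 := r.a_le
  have cR := continuous_Rp hε A B
  have V0 := Var_nonneg (ε := ε) (A := A) (B := B) hab
  have V1 := Var_le hε hε1 hab hell
  have α0 : 0 ≤ θb - θa := by linarith
  have p3 : 0 ≤ a ^ 3 * (θb - θa) := by positivity
  have p4 : 0 < a ^ 4 := by positivity
  have C2 := one_le_pow₀ (n := 2) hCz
  have C3 : Cz ≤ Cz ^ 2 := le_self_pow₀ hCz (by norm_num)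
  have hR : ∀ θ ∈ Ioo θa θb, |Rp ε A B θ - 1| ≤ 1 / 100 := fun θ hθ => by
    obtain ⟨k1, k2⟩ := Rp_near hε hε1 hell hθ
    rw [abs_le]; constructor <;> linarith
  obtain ⟨G, hG⟩ : ∃ G, G = a ^ 4 + a ^ 3 * (θb - θa) + Var ε A B θa θb := ⟨_, rfl⟩
  have G0 : 0 ≤ G := by linarith
  have up : ∀ {x : ℝ}, x ≤ 900 * Cz ^ 2 → x * G ≤ C0 * (cA * G) := fun hx => by
    rw [← mul_assoc]; exact mul_le_mul_of_nonneg_right (hx.trans hC0) G0
  have zz : ∀ f : ℝ → ℝ, Continuous f → (∀ θ, |f θ| ≤ 1) →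
      (∫ θ in θa..θb, (F0 t (Rp ε A B θ ^ 2) - 0 - gam t * Rp ε A B θ ^ 3 - kap a t) * f θ) ^ 2
        ≤ C0 * (a ^ 2 + (a + ε ^ 2) * (θb - θa)) * (cA * G) := fun f cf hf => by
    have k1 := abs_int_le hab (f := fun θ =>
      (F0 t (Rp ε A B θ ^ 2) - 0 - gam t * Rp ε A B θ ^ 3 - kap a t) * f θ)
      (g := fun θ => Cz * ((Rp ε A B θ ^ 2 - 1) ^ 2 + a ^ 2)) (by fun_prop) (by fun_prop)
      fun θ hθ => by
        rw [abs_mul, sub_zero]
        exact (mul_le_of_le_one_right (abs_nonneg _) (hf θ)).trans (hz _ (hR θ hθ)).2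
    rw [int_var hab hε] at k1
    have k3 := pow_le_pow_left₀ (abs_nonneg _) k1 2
    rw [sq_abs] at k3
    have k4 : (Var ε A B θa θb + a ^ 2 * (θb - θa)) ^ 2
        ≤ 10 * G * (a ^ 2 + (a + ε ^ 2) * (θb - θa)) := by
      have q1 : Var ε A B θa θb * Var ε A B θa θb ≤ G * (5 * ε ^ 2 * (θb - θa)) :=
        mul_le_mul (by linarith) V1 V0 G0
      have q2 : a ^ 3 * (θb - θa) * (a * (θb - θa)) ≤ G * (a * (θb - θa)) :=
        mul_le_mul_of_nonneg_right (by linarith) (by positivity)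
      have q3 : 0 ≤ G * a ^ 2 := by positivity
      have q4 : 0 ≤ G * (a * (θb - θa)) := by positivity
      linarith [sq_nonneg (Var ε A B θa θb - a ^ 2 * (θb - θa))]
    have k5 := mul_le_mul_of_nonneg_right (up (x := 10 * Cz ^ 2) (by linarith))
      (show 0 ≤ a ^ 2 + (a + ε ^ 2) * (θb - θa) by positivity)
    linarith [mul_le_mul_of_nonneg_left k4 (sq_nonneg Cz)]
  rw [← hG] at hm ⊢
  refine ⟨contDiff_const, by positivity, fun _ => ?_, ?_, ?_, ?_, ?_,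
    zz _ continuous_cos abs_cos_le_one, zz _ continuous_sin abs_sin_le_one⟩
  · linarith [up (x := 1) (by linarith)]
  · intro ba bb _ _ hb
    obtain ⟨rfl, rfl⟩ := hb trivial
    obtain ⟨H, Hr, Ht, hp, k1, k2⟩ := hi
    have q1 : Ci * a ^ 5 * (θb - θa) ≤ Ci * a ^ 5 * 8 :=
      mul_le_mul_of_nonneg_left (by linarith [pi_lt_four]) (by positivity)
    have q2 : 4 * Ci * (2 * a ^ 5) ≤ C * (a * (cA * G + a ^ 4 * (2 - 0 - 0)) + ς ^ 2) := by
      refine mul_le_mul hC ?_ (by positivity) (by linarith)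
      have : 0 ≤ a * (cA * G) := by positivity
      linarith [sq_nonneg ς]
    refine ⟨H, Hr, Ht, hp, by linarith, k2.trans ?_⟩
    exact mul_le_mul (mul_le_mul_of_nonneg_right (by linarith) (by positivity)) (by linarith) α0
      (mul_nonneg (by linarith) (by positivity))
  · intro u hu hu0 c
    have hw : ContDiff ℝ 1 fun z => c * phi t z - u z := by fun_prop
    have k := hm u hu hu0 c
    have hs : ∀ θ ∈ Ioo θa θb, 0 ≤ (1 - ε) ^ 2 ∧ (1 - ε) ^ 2 ≤ Rp ε A B θ := fun θ hθ =>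
      ⟨sq_nonneg _, by nlinarith [(Rp_near hε hε1 hell hθ).1]⟩
    have d1 := PD_nonneg (r0 := fun _ => (1 - ε) ^ 2) hw continuous_const cR hab hs
    have d2 := PD_split (θa := θa) (θb := θb) (r0 := fun _ => 0) (r1 := fun _ => (1 - ε) ^ 2) hw
      continuous_const continuous_const cR
    have d3 : 0 ≤ PM θa θb (fun _ => 0) (Rp ε A B) fun z => c * phi t z - u z :=
      PI_nonneg (c_val hw) continuous_const cR hab (fun θ _ => ⟨le_rfl, (Rp_pos hε A B θ).le⟩)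
        fun _ _ _ _ => sq_nonneg _
    have d4 := mul_le_mul_of_nonneg_left (ft_int hε hε1 hab hell r.t_lo r.t_hi
      (NA.F_small h0 h1 r.t_lo r.t_hi r.F_one)) (sq_nonneg c)
    have d5 : 0 ≤ c ^ 2 * (C * ς) := mul_nonneg (sq_nonneg c) (mul_nonneg (by linarith) r.s_pos.le)
    simp only [mul_zero, sub_zero]
    linarith [mul_nonneg he.le d3, mul_le_mul_of_nonneg_right he1 d1]
  · have k1 := integral_mono_on_of_le_Ioo (μ := volume) hab
      (f := fun θ => (F0 t (Rp ε A B θ ^ 2) - 0) ^ 2)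
      (g := fun θ => Cz * ((Rp ε A B θ ^ 2 - 1) ^ 2 + a ^ 4))
      (Continuous.intervalIntegrable (by fun_prop) _ _)
      (Continuous.intervalIntegrable (by fun_prop) _ _) fun θ hθ => by
        rw [sub_zero]; exact (hz _ (hR θ hθ)).1
    rw [int_var hab hε] at k1
    refine k1.trans (le_trans ?_ (up (x := Cz) (by linarith)))
    refine mul_le_mul_of_nonneg_left ?_ (by linarith)
    linarith [mul_le_mul_of_nonneg_left (show a ≤ 1 by linarith) p3]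
  · intro u hu hu0
    refine (bad_le hε hε1 hab hell r.t_lo r.t_hi hu hu0).trans
      (mul_le_mul_of_nonneg_right ?_ (integral_nonneg hab fun _ _ => sq_nonneg _))
    rw [div_mul_eq_mul_div, div_mul_eq_mul_div]
    refine div_le_div_of_nonneg_right ?_ (by positivity)
    linarith [up (x := 900) (by linarith)]

end

end Pool.Agent.PSz.Sec
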