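import Pool.Agent.P.MP_7b7370_an.SecA

/-! Wide sectors and the scalar estimates for abnormal sectors. -/

set_option autoImplicit false

namespace Pool.Agent.PSz.Sec

open Real Set MeasureTheory intervalIntegral Pool.Agent.PSz

lemma int_poly (p q r : ℝ) :
    ∫ y in (-1 : ℝ)..1, (p + q * y + r * y ^ 2) * (y ^ 2 - 1 / 3) = 8 * r / 45 := by
  have hd : ∀ y : ℝ, HasDerivAt (fun y : ℝ => r / 5 * y ^ 5 + q / 4 * y ^ 4
      + (p - r / 3) / 3 * y ^ 3 - q / 6 * y ^ 2 - p / 3 * y)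
      ((p + q * y + r * y ^ 2) * (y ^ 2 - 1 / 3)) y := fun y => by
    refine ((((((hasDerivAt_pow 5 y).const_mul (r / 5)).add
      ((hasDerivAt_pow 4 y).const_mul (q / 4))).add
      ((hasDerivAt_pow 3 y).const_mul ((p - r / 3) / 3))).sub
      ((hasDerivAt_pow 2 y).const_mul (q / 6))).sub
      ((hasDerivAt_id y).const_mul (p / 3))).congr_deriv ?_
    push_cast; ring
  rw [integral_eq_sub_of_hasDerivAt (fun y _ => hd y)
    (Continuous.intervalIntegrable (by fun_prop) _ _)]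
  ring

lemma pw_big {P σ τ u v : ℝ} (hP : 1 ≤ P) (hσ : 0 < σ) (hτ : τ ^ 2 ≤ 1 / 2) :
    σ * u ^ 2 + v ^ 2 / σ ≤ 2 * P * (P * σ * u ^ 2 + (v - τ * σ * u) ^ 2 / (P * σ)) := by
  have P0 : 0 < P := by linarith
  have e : 2 * P * (P * σ * u ^ 2 + (v - τ * σ * u) ^ 2 / (P * σ))
      = 2 * P ^ 2 * (σ * u ^ 2) + 2 * (v - τ * σ * u) ^ 2 / σ := by field_simp
  have h1 : v ^ 2 / σ ≤ 2 * (v - τ * σ * u) ^ 2 / σ + 2 * τ ^ 2 * (σ * u ^ 2) := by
    rw [div_le_iff₀ hσ, add_mul, div_mul_cancel₀ _ hσ.ne']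
    nlinarith [sq_nonneg (v - 2 * (τ * σ * u))]
  have h2 : 0 ≤ σ * u ^ 2 := by positivity
  have h3 := one_le_pow₀ (n := 2) hP
  rw [e]
  linarith [mul_le_mul_of_nonneg_right hτ h2, mul_le_mul_of_nonneg_right h3 h2]

lemma big_energy {a t c : ℝ} {M D : ℂ} (h0 : 0 < a) (h1 : a ≤ 1 / 1000) (ht : 5.7 ≤ t)
    (ht' : t ≤ 5.8) (hA : 0 < det M D) (hP : 1 ≤ PP a M D)
    (hq : ∀ y, |y| ≤ 1 → |qq M D y - 1| ≤ a / 50) {W : P2 → ℝ} (hW : ContDiff ℝ 1 W)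
    (hb : ∀ y, |y| ≤ 1 → W (1, y) = c * F0 t (qq M D y)) :
    c ^ 2 * (PP a M D ^ 3 * a ^ 4 / 10 ^ 5) ≤ DG M D 0 1 W := by
  have hσ := sg_pos h0 h1
  have hσa := sg_ge h0 h1
  have P0 : 0 < PP a M D := by linarith
  have q0 := abs_le.1 (hq 0 (by simp))
  have q1 := abs_le.1 (hq 1 (by simp))
  have q2 := abs_le.1 (hq (-1) (by simp))
  simp only [qq] at q0 q1 q2
  have hX : 0.99 ≤ Complex.normSq M := by linarith [q0.1]
  have hβ : ip M D ^ 2 ≤ (a / 100) ^ 2 := sq_le_sq' (by linarith [q1.1, q2.2]) (by linarith [q1.2, q2.1])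
  have hτ : NA.tau a M D ^ 2 ≤ 1 / 2 := by
    unfold NA.tau
    rw [div_pow, div_le_iff₀ (by positivity)]
    have : a * 0.99 ≤ sg a * Complex.normSq M := mul_le_mul hσa hX (by norm_num) hσ.le
    have := pow_le_pow_left₀ (by positivity) this 2
    nlinarith [sq_nonneg a]
  have k1 : D0 a 0 1 W ≤ 2 * PP a M D * DG M D 0 1 W := by
    have c1 := NA.c_dn (PP a M D) (sg a) (NA.tau a M D) hW
    have := continuous_px hW
    have := continuous_py hW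
    rw [NA.DG_eq hσ hA, ← T_const_mul]
    exact T_mono (by unfold Cont; fun_prop) (by unfold Cont at *; fun_prop) le_rfl zero_le_one
      fun x _ η _ => pw_big hP hσ hτ
  have k2 := lower_energy h0 h1 hW
  have hD : 0.99 * (PP a M D ^ 2 * a ^ 2) ≤ Complex.normSq D := by
    have e : det M D = PP a M D * sg a * Complex.normSq M := by
      have := (NA.normSq_pos hA).ne'
      unfold PP; field_simp
    have e2 := det_sq M D
    have X0 : 0 < Complex.normSq M := by linarith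
    have : Complex.normSq M * ((PP a M D * sg a) ^ 2 * Complex.normSq M)
        ≤ Complex.normSq M * Complex.normSq D := by
      rw [e] at e2; linarith [sq_nonneg (ip M D)]
    have h3 := le_of_mul_le_mul_left this X0
    have h4 : (PP a M D * a) ^ 2 ≤ (PP a M D * sg a) ^ 2 := by gcongr
    have h5 := mul_le_mul h4 hX (by norm_num) (sq_nonneg _)
    linarith
  have e1 : ∫ η in (-1 : ℝ)..1, W (1, η) * (η ^ 2 - 1 / 3)
      = c * ∫ η in (-1 : ℝ)..1, F0 t (qq M D η) * (η ^ 2 - 1 / 3) := by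
    rw [← intervalIntegral.integral_const_mul]
    refine integral_congr fun η hη => ?_
    rw [uIcc_of_le (by norm_num)] at hη
    simp only [hb η (abs_le.2 hη)]; ring
  have k3 : |∫ η in (-1 : ℝ)..1, (F0 t (qq M D η) - F0 t 1 - F1 t 1 * (qq M D η - 1))
      * (η ^ 2 - 1 / 3)| ≤ 2 * (a ^ 2 / 200) := NA.abs_int_le fun y hy => by
    have a1 := abs_le.1 (hq y hy)
    have I : ∀ z ∈ Icc (0 : ℝ) 1.3, |z| ≤ 1.3 := fun z hz => abs_le.2 ⟨by linarith [hz.1], hz.2⟩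
    have t1 := taylor_abs (C := 25) (x := 1) (y := qq M D y) (fun z _ => hasDerivAt_F0 t z)
      (fun z _ => hasDerivAt_F1 t z) (fun z hz => abs_F2_le (by linarith) (by linarith) (I z hz))
      ⟨by norm_num, by norm_num⟩ ⟨by linarith, by linarith⟩
    have t2 := sq_le_sq' a1.1 a1.2
    have t3 : |y ^ 2 - 1 / 3| ≤ 1 := by
      have : y ^ 2 ≤ 1 := by nlinarith [abs_nonneg y, sq_abs y]
      rw [abs_le]; constructor <;> linarith [sq_nonneg y]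
    rw [abs_mul]
    exact (mul_le_of_le_one_right (abs_nonneg _) t3).trans (by linarith)
  have e2 : ∫ η in (-1 : ℝ)..1, F0 t (qq M D η) * (η ^ 2 - 1 / 3)
      = (∫ η in (-1 : ℝ)..1, (F0 t (qq M D η) - F0 t 1 - F1 t 1 * (qq M D η - 1))
        * (η ^ 2 - 1 / 3)) + 8 * (F1 t 1 * Complex.normSq D) / 45 := by
    rw [← int_poly (F0 t 1 + F1 t 1 * (Complex.normSq M - 1)) (F1 t 1 * (2 * ip M D)),
      ← intervalIntegral.integral_add (Continuous.intervalIntegrable (by fun_prop) _ _)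
        (Continuous.intervalIntegrable (by fun_prop) _ _)]
    congr 1; funext η
    generalize F0 t (qq M D η) = z
    unfold qq; ring
  have f1 := F1_le ht ht' (q := 1) (by norm_num) (by norm_num)
  have p2 : a ^ 2 ≤ PP a M D ^ 2 * a ^ 2 :=
    le_mul_of_one_le_left (sq_nonneg a) (one_le_pow₀ hP)
  have k4 : ∫ η in (-1 : ℝ)..1, F0 t (qq M D η) * (η ^ 2 - 1 / 3)
      ≤ -(0.05 * (PP a M D ^ 2 * a ^ 2)) := by
    rw [e2]
    linarith [(abs_le.1 k3).2, mul_le_mul_of_nonneg_right f1 (Complex.normSq_nonneg D),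
      sq_nonneg a]
  have k5 : (0.05 * (PP a M D ^ 2 * a ^ 2)) ^ 2
      ≤ (∫ η in (-1 : ℝ)..1, F0 t (qq M D η) * (η ^ 2 - 1 / 3)) ^ 2 := by
    rw [← neg_sq (∫ η in (-1 : ℝ)..1, _)]
    exact pow_le_pow_left₀ (by positivity) (by linarith) 2
  rw [e1, mul_pow] at k2
  have k6 := mul_le_mul_of_nonneg_left k5 (sq_nonneg c)
  have k7 : 0 ≤ PP a M D * (c ^ 2 * (PP a M D ^ 3 * a ^ 4)) := by positivity
  refine le_of_mul_le_mul_left ?_ P0
  linarith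

/-- the tangent plane on an abnormal sector -/
lemma scal_abn {a α Ar V E Φ sJ sD c1 Cr C1 cA : ℝ} (h0 : 0 < a) (h1 : a ≤ 1) (hα : 0 ≤ α)
    (hV : 0 ≤ V) (hd : (Ar - α / 2) ^ 2 ≤ α * V / 4) (hc1 : 0 < c1) (hCr : 1 ≤ Cr) (hC1 : 1 ≤ C1)
    (hE : c1 * a ^ 4 ≤ E) (hE' : E ≤ Cr * a ^ 4) (hΦ : Φ ≤ E + 11000 * a ^ 5)
    (j1 : 3 * E - C1 * a ^ 5 ≤ sJ) (j2 : sJ ≤ 5 * E + C1 * a ^ 5) (j3 : |sD| ≤ C1 * a ^ 3)
    (hA0 : 0 < cA) (hA1 : cA ≤ c1 / 8) (hA2 : cA ≤ 0.05)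
    (s1 : (11000 + C1) * a ≤ c1 / 8) (s2 : 7 * (5 * Cr + 2 * C1) ^ 2 * a ≤ cA) :
    |sJ + sD| ≤ (5 * Cr + 2 * C1) * a ^ 3 ∧
    Φ + sJ * (Ar / a - 1) + sD * ((Ar - α / 2) / a) + cA * (a ^ 4 + a ^ 3 * α + V)
      ≤ (5 * Cr + 2 * C1) * (a ^ 3 * α) + 0.06 * V ∧
    (α ≤ a → Φ + sJ * (Ar / a - 1) + sD * ((Ar - α / 2) / a) + cA * (a ^ 4 + a ^ 3 * α + V)
      ≤ 0.06 * V) := by
  have p3 : 0 < a ^ 3 := by positivity
  have p4 : 0 < a ^ 4 := by positivity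
  have p5 : 0 < a ^ 5 := by positivity
  have p6 : 0 ≤ a ^ 3 * α := by positivity
  have q1 := mul_le_mul_of_nonneg_right s1 p4.le
  have q2 : 0 < c1 * a ^ 4 := by positivity
  have q3 : 0 < C1 * a ^ 5 := by positivity
  have J0 : 0 ≤ sJ := by linarith
  have q4 : C1 * a ^ 5 ≤ C1 * a ^ 4 :=
    mul_le_mul_of_nonneg_left (pow_le_pow_of_le_one h0.le h1 (by norm_num)) (by linarith)
  have J1 : sJ ≤ (5 * Cr + C1) * a ^ 4 := by linarith
  have q5 : (5 * Cr + C1) * a ^ 4 ≤ (5 * Cr + C1) * a ^ 3 :=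
    mul_le_mul_of_nonneg_left (pow_le_pow_of_le_one h0.le h1 (by norm_num)) (by linarith)
  have j4 := abs_le.1 j3
  have q6 : 0 ≤ Cr * a ^ 3 := by positivity
  have q7 : 0 ≤ C1 * a ^ 3 := by positivity
  have S : |sJ + sD| ≤ (5 * Cr + 2 * C1) * a ^ 3 := abs_le.2 ⟨by linarith, by linarith⟩
  obtain ⟨C2, hC2⟩ : ∃ C2, C2 = 5 * Cr + 2 * C1 := ⟨_, rfl⟩
  rw [← hC2] at S s2 ⊢
  have k1 : (sJ + sD) * ((Ar - α / 2) / a) ≤ 0.01 * V + cA * (a ^ 3 * α) := by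
    have u1 : (sJ + sD) ^ 2 ≤ (C2 * a ^ 3) ^ 2 := sq_le_sq' (abs_le.1 S).1 (abs_le.1 S).2
    have u2 : ((sJ + sD) * ((Ar - α / 2) / a)) ^ 2 ≤ C2 ^ 2 * a ^ 4 * (α * V / 4) := by
      rw [mul_pow, div_pow, ← mul_div_assoc, div_le_iff₀ (by positivity)]
      calc _ ≤ (C2 * a ^ 3) ^ 2 * (α * V / 4) := mul_le_mul u1 hd (sq_nonneg _) (sq_nonneg _)
        _ = _ := by ring
    have u3 := mul_le_mul_of_nonneg_right s2 (mul_nonneg p6 hV)
    have u4 : 0 ≤ C2 ^ 2 * a * (a ^ 3 * α * V) := by positivity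
    refine (abs_le_of_sq_le_sq' (u2.trans ?_) (by positivity)).2
    linarith [sq_nonneg (0.01 * V - cA * (a ^ 3 * α))]
  have e : sJ * (Ar / a - 1) + sD * ((Ar - α / 2) / a)
      = sJ * (α / a) / 2 - sJ + (sJ + sD) * ((Ar - α / 2) / a) := by field_simp; ring
  have k2 := mul_le_mul_of_nonneg_right hA1 p4.le
  have k3 := mul_le_mul_of_nonneg_right hA2 hV
  refine ⟨S, ?_, fun hαa => ?_⟩
  · have u1 : sJ * (α / a) ≤ (5 * Cr + C1) * (a ^ 3 * α) := by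
      calc _ ≤ (5 * Cr + C1) * a ^ 4 * (α / a) := mul_le_mul_of_nonneg_right J1 (by positivity)
        _ = _ := by field_simp
    have u2 := mul_le_mul_of_nonneg_right hA2 p6
    have u3 := mul_le_mul_of_nonneg_right hC1 p6
    have u4 := mul_le_mul_of_nonneg_right hCr p6
    rw [hC2]; linarith
  · have u1 : sJ * (α / a) ≤ sJ := mul_le_of_le_one_right J0 ((div_le_one h0).2 hαa)
    have u2 : cA * (a ^ 3 * α) ≤ cA * (a ^ 3 * a) := by gcongr
    linarith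

end Pool.Agent.PSz.Sec
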