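import Pool.Agent.P.MP_7b7370_an.SecB

/-! Normal sectors. -/

set_option autoImplicit false

namespace Pool.Agent.PSz.Sec

open Real Set MeasureTheory intervalIntegral Pool.Agent.PSz

section
variable {θa θb : ℝ} {M D : ℂ} {η R R' : ℝ → ℝ} (hT : Tri θa θb M D η R)
  (hRp : ∀ θ ∈ Icc θa θb, R' θ = R θ)
include hT hRp

lemma cvD {w : ℂ → ℝ} (hw : ContDiff ℝ 1 w) :
    PD θa θb (fun _ => 0) R' w = DG M D 0 1 fun p => w (Lm M D p) := by
  rw [← hT.chgD 0 1 hw]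
  exact PI_congr_lim hT.lt.le (fun _ _ => by simp) fun θ hθ => by simp [hRp θ hθ]

lemma cvM {w : ℂ → ℝ} (hw : ContDiff ℝ 1 w) :
    PM θa θb (fun _ => 0) R' w = det M D * T 0 1 fun x y => w (Lm M D (x, x * y)) ^ 2 := by
  rw [← hT.chgF 0 1 (F := fun z => w z ^ 2) (hw.continuous.pow 2)]
  exact PI_congr_lim hT.lt.le (fun _ _ => by simp) fun θ hθ => by simp [hRp θ hθ]

lemma cv1 {g : ℝ → ℝ} (hg : Continuous g) :
    ∫ θ in θa..θb, g (R' θ ^ 2) = det M D * ∫ y in (-1 : ℝ)..1, g (qq M D y) / qq M D y := by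
  rw [← hT.chg1 (g := fun y => g (qq M D y)) (by fun_prop)]
  refine integral_congr fun θ hθ => ?_
  rw [uIcc_of_le hT.lt.le] at hθ
  simp only [hRp θ hθ, hT.sq hθ]

lemma cvA : ∫ θ in θa..θb, R' θ ^ 2 / 2 = det M D := by
  rw [cv1 hT hRp (g := fun q => q / 2) (by fun_prop)]
  have : (fun y => qq M D y / 2 / qq M D y) = fun _ => 1 / 2 := by
    funext y
    have := (qq_pos hT.ar y).ne'
    field_simp
  rw [this]; norm_num

omit hRp in
lemma cvα : θb - θa = det M D * ∫ y in (-1 : ℝ)..1, 1 / qq M D y := by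
  rw [← hT.chg1 (g := fun _ => 1) continuous_const]; simp

omit hRp in
lemma bdry_W {A B t c : ℝ} (hR : ∀ θ ∈ Icc θa θb, R θ = 1 / ell A B θ) {u : ℂ → ℝ}
    (hu0 : θa < θb → ∀ θ ∈ Icc θa θb, u (pol (1 / ell A B θ) θ) = 0) {y : ℝ} (hy : |y| ≤ 1) :
    c * phi t (Lm M D (1, y)) - u (Lm M D (1, y)) = c * F0 t (qq M D y) := by
  obtain ⟨θ, hθ, rfl⟩ := hT.surj hy
  have e : Lm M D (1, η θ) = pol (R θ) θ := by rw [hT.pt θ hθ]; simp [Lm]
  rw [e, phi_pol, hT.sq hθ, hR θ hθ, hu0 hT.lt θ hθ, sub_zero]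

end

lemma nrm_out {θa θb : ℝ} {M D : ℂ} {η R : ℝ → ℝ} (hT : Tri θa θb M D η R)
    {e C0 C ε a t ς sJ sD cg Cz Ci Cm A B : ℝ} {h : P2 → ℝ} (r : Ref a t ς h)
    (hε : 0 < ε) (hε1 : ε ≤ 1) (hR : ∀ θ ∈ Icc θa θb, R θ = 1 / ell A B θ)
    (hRp : ∀ θ ∈ Icc θa θb, Rp ε A B θ = R θ) (hlo : ∀ θ ∈ Icc θa θb, 1 - ε ≤ R θ)
    (he1 : e ≤ 1 / 100) (hcg : 0 < cg) (hcg1 : cg ≤ 1) (hCz : 0 ≤ Cz)
    (hC0 : Cz ≤ C0 * cg) (hCi : 0 ≤ Ci) (hC : Ci ≤ C * cg) (hCm : Cm ≤ C)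
    (hz : ∫ θ in θa..θb, (F0 t (R θ ^ 2) - bb a D * F0 t (q0 a (η θ))) ^ 2 ≤ Cz * g0 a M D ∧
      (∫ θ in θa..θb, (F0 t (R θ ^ 2) - bb a D * F0 t (q0 a (η θ)) - gam t * R θ ^ 3 - kap a t)
        * cos θ) ^ 2 ≤ Cz * a ^ 2 * g0 a M D ∧
      (∫ θ in θa..θb, (F0 t (R θ ^ 2) - bb a D * F0 t (q0 a (η θ)) - gam t * R θ ^ 3 - kap a t)
        * sin θ) ^ 2 ≤ Cz * a ^ 2 * g0 a M D)
    (hi : ∀ ba bb' : ℝ, (ba = 0 ∨ ba = 1) → (bb' = 0 ∨ bb' = 1) →
      ∃ H Hr Ht, Piece θa θb (Nd a h ba) (Nd a h bb') (h 0) H Hr Ht ∧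
      Err θa θb ((1 - ε) ^ 2) (fun z => bb a D * h (Li M D z)) H Hr Ht
        ≤ Ci * (a * (g0 a M D + a ^ 4 * (2 - ba - bb')) + ς ^ 2) ∧
      PI θa θb (fun _ => 0) (fun _ => (1 - ε) ^ 2) (fun r θ => H r θ ^ 2) ≤ Ci * a ^ 6)
    (hm : ∀ (W : P2 → ℝ) (c : ℝ), ContDiff ℝ 1 W →
      (∀ y, |y| ≤ 1 → W (1, y) = c * F0 t (qq M D y)) →
      c ^ 2 * (D0 a 0 1 h - t * M0 a 0 1 h + a * Fz a t + sJ * (det M D / a - 1)
        + sD * ((det M D - det M D * (∫ y in (-1 : ℝ)..1, 1 / qq M D y) / 2) / a)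
        + cg * g0 a M D - Cm * ς)
      + 0.98 * DG M D 0 (1 - ε) (fun p => W p - c * (bb a D * h p))
      + e * DG M D (1 - ε) 1 (fun p => W p - c * (bb a D * h p))
      - (t + e) * (det M D * T 0 1 fun x η => (W (x, x * η) - c * (bb a D * h (x, x * η))) ^ 2)
      ≤ DG M D 0 1 W - t * (det M D * T 0 1 fun x η => W (x, x * η) ^ 2)
      + c ^ 2 * (det M D * ∫ y in (-1 : ℝ)..1, ft t (qq M D y) / qq M D y)) :
    SecOut e C0 C ε a t ς (D0 a 0 1 h - t * M0 a 0 1 h + a * Fz a t) sJ sD (kap a t) h θa θb A B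
      False (fun z => bb a D * h (Li M D z)) (cg * g0 a M D) := by
  have h0 := r.a_pos
  have hh := r.smooth
  have hab := hT.lt.le
  have hA := hT.ar
  have G0 := NA.g0_nonneg h0 M D
  have cR := hT.cR
  have hH : ContDiff ℝ 1 fun z => bb a D * h (Li M D z) := by fun_prop
  have C00 : 0 ≤ C0 := nonneg_of_mul_nonneg_left (hCz.trans hC0) hcg
  have C1 : 0 ≤ C := nonneg_of_mul_nonneg_left (hCi.trans hC) hcg
  have eH : ∀ θ ∈ Icc θa θb, h (Li M D (pol (R θ) θ)) = F0 t (q0 a (η θ)) := fun θ hθ => by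
    have e : pol (R θ) θ = Lm M D (1, η θ) := by rw [hT.pt θ hθ]; simp [Lm]
    rw [e, Li_Lm hA.ne', r.bdry _ (hT.mem θ)]
  have up : Cz * g0 a M D ≤ C0 * (cg * g0 a M D) := by
    rw [← mul_assoc]; exact mul_le_mul_of_nonneg_right hC0 G0
  have zz : ∀ f : ℝ → ℝ, (∫ θ in θa..θb,
      (F0 t (R θ ^ 2) - bb a D * F0 t (q0 a (η θ)) - gam t * R θ ^ 3 - kap a t) * f θ) ^ 2
        ≤ Cz * a ^ 2 * g0 a M D →
      (∫ θ in θa..θb, (F0 t (Rp ε A B θ ^ 2) - bb a D * h (Li M D (pol (Rp ε A B θ) θ))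
        - gam t * Rp ε A B θ ^ 3 - kap a t) * f θ) ^ 2
        ≤ C0 * (a ^ 2 + (a + ε ^ 2) * (θb - θa)) * (cg * g0 a M D) := fun f hf => by
    have e : ∫ θ in θa..θb, (F0 t (Rp ε A B θ ^ 2) - bb a D * h (Li M D (pol (Rp ε A B θ) θ))
        - gam t * Rp ε A B θ ^ 3 - kap a t) * f θ = ∫ θ in θa..θb,
        (F0 t (R θ ^ 2) - bb a D * F0 t (q0 a (η θ)) - gam t * R θ ^ 3 - kap a t) * f θ :=
      integral_congr fun θ hθ => by
        rw [uIcc_of_le hab] at hθ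
        simp only [hRp θ hθ, eH θ hθ]
    rw [e]
    have k1 := mul_le_mul_of_nonneg_left up (sq_nonneg a)
    have k2 : 0 ≤ C0 * ((a + ε ^ 2) * (θb - θa)) * (cg * g0 a M D) := by
      have : 0 ≤ θb - θa := by linarith
      positivity
    linarith
  refine ⟨hH, by positivity, False.elim, ?_, ?_, ?_, ?_, zz _ hz.2.1, zz _ hz.2.2⟩
  · intro ba bb' ha hb _
    obtain ⟨H, Hr, Ht, hp, k1, k2⟩ := hi ba bb' ha hb
    have p : 0 ≤ a * (a ^ 4 * (2 - ba - bb')) + ς ^ 2 := by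
      have : 0 ≤ 2 - ba - bb' := by rcases ha with rfl | rfl <;> rcases hb with rfl | rfl <;> norm_num
      positivity
    have hC' : Ci ≤ C := hC.trans (mul_le_of_le_one_right C1 hcg1)
    refine ⟨H, Hr, Ht, hp, k1.trans ?_, k2.trans ?_⟩
    · linarith [mul_le_mul_of_nonneg_right hC' p,
        mul_le_mul_of_nonneg_right hC (mul_nonneg h0.le G0)]
    · have : 0 ≤ C * a ^ 5 * (θb - θa) := by
        have : 0 ≤ θb - θa := by linarith
        positivity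
      linarith [mul_le_mul_of_nonneg_right hC' (pow_pos h0 6).le]
  · intro u hu hu0 c
    have hw : ContDiff ℝ 1 fun z => c * phi t z - u z := by fun_prop
    have hy : ContDiff ℝ 1 fun z => c * phi t z - u z - c * (bb a D * h (Li M D z)) := by fun_prop
    have k := hm (fun p => c * phi t (Lm M D p) - u (Lm M D p)) c (by fun_prop)
      fun y hy => bdry_W hT hR hu0 hy
    have i1 := hT.chgD 0 (1 - ε) hy
    have i2 := hT.chgD (1 - ε) 1 hy
    have i3 := cvM hT hRp hy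
    simp only [Li_Lm hA.ne'] at i1 i2 i3
    rw [← i1, ← i2, ← i3, ← cvα hT] at k
    rw [cvD hT hRp hw, cvM hT hRp hw, cv1 hT hRp (NA.continuous_ft t), cvA hT hRp]
    generalize hY : (fun z => c * phi t z - u z - c * (bb a D * h (Li M D z))) = Y at *
    have j1 : PD θa θb (fun θ => 0 * R θ) (fun θ => (1 - ε) * R θ) Y
        = PD θa θb (fun _ => 0) (fun _ => (1 - ε) ^ 2) Y
          + PD θa θb (fun _ => (1 - ε) ^ 2) (fun θ => (1 - ε) * R θ) Y := by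
      rw [PD_split hy continuous_const continuous_const (by fun_prop)]
      simp only [zero_mul]
    have j2 : PD θa θb (fun _ => (1 - ε) ^ 2) (Rp ε A B) Y
        = PD θa θb (fun _ => (1 - ε) ^ 2) (fun θ => (1 - ε) * R θ) Y
          + PD θa θb (fun θ => (1 - ε) * R θ) (fun θ => 1 * R θ) Y := by
      rw [PD_split hy continuous_const (by fun_prop) (by fun_prop)]
      exact PI_congr_lim hab (fun _ _ => rfl) fun θ hθ => by simp [hRp θ hθ]
    have j3 := PD_nonneg (r0 := fun _ => (1 - ε) ^ 2) (r1 := fun θ => (1 - ε) * R θ) hy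
      continuous_const (by fun_prop) hab fun θ hθ => ⟨sq_nonneg _, by
        rw [sq]; exact mul_le_mul_of_nonneg_left (hlo θ (Ioo_subset_Icc_self hθ)) (by linarith)⟩
    have j4 := mul_le_mul_of_nonneg_left (mul_le_mul_of_nonneg_right hCm r.s_pos.le) (sq_nonneg c)
    rw [j1] at k
    rw [j2]
    linarith [mul_le_mul_of_nonneg_right he1 j3]
  · refine le_trans (le_of_eq (integral_congr fun θ hθ => ?_)) (hz.1.trans up)
    rw [uIcc_of_le hab] at hθ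
    simp only [hRp θ hθ, eH θ hθ]
  · intro u hu hu0
    have e : ∫ θ in θa..θb, 2 * Rp ε A B θ ^ 2 * F1 t (Rp ε A B θ ^ 2) * u (pol (Rp ε A B θ) θ)
        = ∫ θ in θa..θb, (0 : ℝ) := integral_congr fun θ hθ => by
      rw [uIcc_of_le hab] at hθ
      simp only [hRp θ hθ, hR θ hθ, hu0 hT.lt θ hθ, mul_zero]
    rw [e, intervalIntegral.integral_zero, zero_pow two_ne_zero]
    exact mul_nonneg (by positivity) (integral_nonneg hab fun _ _ => sq_nonneg _)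

end Pool.Agent.PSz.Sec
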