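import Pool.Agent.P.MP_7b7370_an.SecC

set_option autoImplicit false

namespace Pool.Agent.PSz

open Real Set MeasureTheory intervalIntegral

namespace Sec

lemma inv_sq_near {l x : ℝ} (hx : x ≤ 1 / 100) (h : |l - 1| ≤ x) : |(1 / l) ^ 2 - 1| ≤ 3 * x := by
  obtain ⟨h1, h2⟩ := abs_le.1 h
  have l0 : 0 < l := by linarith
  have x0 : 0 ≤ x := by linarith
  have p : 0 < l ^ 2 := by positivity
  rw [one_div_pow, abs_le]
  constructor
  · have k : l ^ 2 ≤ (1 + x) ^ 2 := sq_le_sq' (by linarith) (by linarith)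
    rw [le_sub_iff_add_le, le_div_iff₀ p]
    nlinarith [mul_le_mul_of_nonneg_left k (show 0 ≤ 1 - 3 * x by linarith), sq_nonneg x,
      pow_nonneg x0 3]
  · have k : (1 - x) ^ 2 ≤ l ^ 2 := sq_le_sq' (by linarith) (by linarith)
    rw [sub_le_iff_le_add, div_le_iff₀ p]
    nlinarith [mul_le_mul_of_nonneg_left k (show 0 ≤ 1 + 3 * x by linarith),
      mul_le_mul_of_nonneg_left hx x0, pow_nonneg x0 3]

lemma angle_le {θa θb a : ℝ} {M D : ℂ} {η R : ℝ → ℝ} (hT : Tri θa θb M D η R) (h0 : 0 < a)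
    (h1 : a ≤ 1 / 1000) (hq : ∀ y, |y| ≤ 1 → |qq M D y - 1| ≤ a / 50) :
    θb - θa ≤ 3 * (PP a M D * a) := by
  have hA := hT.ar
  have hσ := sg_pos h0 h1
  have k1 : |∫ y in (-1 : ℝ)..1, 1 / qq M D y| ≤ 2 * 1.01 := NA.abs_int_le fun y hy => by
    have := abs_le.1 (hq y hy)
    rw [abs_of_pos (one_div_pos.2 (by linarith)), div_le_iff₀ (by linarith)]; linarith
  have q0 := abs_le.1 (hq 0 (by simp))
  simp only [qq] at q0
  have hX : Complex.normSq M ≤ 1.01 := by linarith [q0.2]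
  have e : det M D = PP a M D * (sg a * Complex.normSq M) := by
    have := (NA.normSq_pos hA).ne'
    unfold PP; field_simp
  have k2 := mul_le_mul (sg_le h0 h1) hX (Complex.normSq_nonneg M) (by positivity)
  have hP := NA.PP_pos hσ hA
  have k3 := mul_le_mul_of_nonneg_left k2 hP.le
  have k4 := mul_le_mul_of_nonneg_left (abs_le.1 k1).2 hA.le
  rw [cvα hT]
  linarith [mul_pos hP h0]

end Sec

open Sec in
/-- paper 17: all sectors -/
theorem sector : ∃ e C0 : ℝ, 0 < e ∧ e ≤ 1 / 100 ∧ 1 ≤ C0 ∧ ∀ ε : ℝ, 0 < ε → ε ≤ 1 / 10 ^ 5 →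
    ∃ C a0 : ℝ, 1 ≤ C ∧ 0 < a0 ∧ ∀ a t ς h, Ref a t ς h → a ≤ a0 → ∃ Φ sJ sD κ : ℝ,
    2 * a * Gt t 1 ≤ Φ ∧ |sJ + sD| ≤ C0 * a ^ 3 ∧ ∀ θa θb A B : ℝ, θa ≤ θb → θb - θa ≤ 2 * π →
    (θa < θb → ∀ θ ∈ Icc θa θb, 0 < ell A B θ ∧ ell A B θ ≤ 1 / (1 - ε)) →
    ∃ abn Hb g, SecOut e C0 C ε a t ς Φ sJ sD κ h θa θb A B abn Hb g := by
  obtain ⟨c1, Cr, hc1, hCr, RS⟩ := ref_sizes
  obtain ⟨C1, hC1, sJ, sD, HJ, NC⟩ := normal_core
  obtain ⟨cc, hcc, CL⟩ := classify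
  obtain ⟨Cz, hCz, ZA⟩ := z_abn
  obtain ⟨Ci, hCi, IA⟩ := inner_abn
  obtain ⟨C2, hC2⟩ : ∃ C2, C2 = 5 * Cr + 2 * C1 := ⟨_, rfl⟩
  have C21 : 1 ≤ C2 := by linarith
  obtain ⟨K, hK, hK2⟩ : ∃ K : ℝ, 1 ≤ K ∧ 225 * C2 ≤ cc * K ^ 2 := by
    have p : 0 ≤ 225 * C2 / cc := by positivity
    refine ⟨225 * C2 / cc + 1, by linarith, ?_⟩
    rw [← div_le_iff₀' hcc]
    linarith [sq_nonneg (225 * C2 / cc)]
  have hPm : 1 ≤ 10 ^ 4 * C2 := by linarith
  obtain ⟨e, cg, he, he1, hcg, hcg1, NC1⟩ := NC K _ hK hPm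
  obtain ⟨Czn, az, hCzn, haz, ZN⟩ := z_normal hK hPm
  obtain ⟨cA, hA0, hA1, hA2⟩ : ∃ cA : ℝ, 0 < cA ∧ cA ≤ c1 / 8 ∧ cA ≤ 0.05 :=
    ⟨min (c1 / 8) 0.05, lt_min (by positivity) (by norm_num), min_le_left _ _, min_le_right _ _⟩
  have p1 : 0 ≤ 900 * Cz ^ 2 / cA := by positivity
  have p2 : 0 ≤ Czn / cg := by positivity
  refine ⟨e, 900 * Cz ^ 2 / cA + Czn / cg + C2, he, he1, by linarith, fun ε hε hε1 => ?_⟩
  have hε2 : ε ≤ 1 / 100 := by linarith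
  obtain ⟨Cm, am, hCm, ham, NC2⟩ := NC1 ε hε (by linarith)
  obtain ⟨Cn, an, hCn, han, IN⟩ := inner_normal hK hPm hε hε2
  have p3 : 0 ≤ Cn / cg := by positivity
  refine ⟨4 * Ci + Cn / cg + Cm, min (min (min am az) (min an ε)) (min (min (c1 / 8 / (11000 + C1))
    (cA / (7 * C2 ^ 2))) ((1 / (50 * K)) ^ 2)), by linarith,
    lt_min (lt_min (lt_min ham haz) (lt_min han hε))
      (lt_min (lt_min (by positivity) (by positivity)) (by positivity)), fun a t ς h r ha => ?_⟩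
  simp only [le_min_iff] at ha
  obtain ⟨⟨⟨a1, a2⟩, a3, a4⟩, ⟨a5, a6⟩, a7⟩ := ha
  have h0 := r.a_pos
  have h1 := r.a_le
  obtain ⟨hE1, hE, -⟩ := RS a t ς h r
  obtain ⟨j1, j2, j3⟩ := HJ a t ς h r
  rw [le_div_iff₀' (by positivity)] at a5 a6
  have hΦ : D0 a 0 1 h - t * M0 a 0 1 h + a * Fz a t ≤ D0 a 0 1 h + 11000 * a ^ 5 := by
    have m0 : 0 ≤ M0 a 0 1 h := mul_nonneg h0.le (NA.sqv_nonneg le_rfl zero_le_one r.smooth)
    have := mul_le_mul_of_nonneg_left (abs_le.1 (NA.Fz_le h0 h1 r.t_lo r.t_hi r.F_one)).2 h0.le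
    linarith [mul_nonneg (show 0 ≤ t by linarith [r.t_lo]) m0]
  have SA := fun (α Ar V : ℝ) (hα : 0 ≤ α) (hV : 0 ≤ V) (hd : (Ar - α / 2) ^ 2 ≤ α * V / 4) =>
    scal_abn h0 (by linarith) hα hV hd hc1 hCr hC1 hE1 hE hΦ j1 j2 j3 hA0 hA1 hA2 a5 (hC2 ▸ a6)
  rw [← hC2] at SA
  refine ⟨_, sJ a t h, sD a t h, kap a t, r.val_lo, (SA 0 0 0 le_rfl le_rfl (by norm_num)).1.trans
    (mul_le_mul_of_nonneg_right (by linarith) (by positivity)), fun θa θb A B hab h2 hell => ?_⟩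
  have V0 := Var_nonneg (ε := ε) (A := A) (B := B) hab
  obtain ⟨-, S1, S2⟩ := SA _ _ _ (sub_nonneg.2 hab) V0 (dev_sq hε hab)
  have AB := abn_out (C0 := 900 * Cz ^ 2 / cA + Czn / cg + C2) (C := 4 * Ci + Cn / cg + Cm)
    (Φ := D0 a 0 1 h - t * M0 a 0 1 h + a * Fz a t) (sJ := sJ a t h) (sD := sD a t h)
    hε hε1 hab hell r h2 he he1 hA0 hCz (by
      rw [← div_le_iff₀ hA0]; linarith) hCi (by linarith)
    (fun R hR => ZA a t R h0 h1 r.t_lo r.t_hi r.F_one hR)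
    (IA a t ς h r θa θb _ hab (sq_nonneg _) (pow_le_one₀ (by linarith) (by linarith)))
  have PD0 : ∀ u : ℂ → ℝ, ContDiff ℝ 1 u → ∀ c : ℝ,
      0 ≤ PD θa θb (fun _ => 0) (Rp ε A B) fun z => c * phi t z - u z := fun u hu c =>
    PD_nonneg (by fun_prop) continuous_const (continuous_Rp hε A B) hab
      fun θ _ => ⟨le_rfl, (Rp_pos hε A B θ).le⟩
  by_cases thin : θb - θa ≤ a
  · refine ⟨_, _, _, AB fun u hu _ c => ?_⟩
    linarith [mul_le_mul_of_nonneg_left ((S2 thin).trans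
      (show _ ≤ 0.1 * Var ε A B θa θb by linarith)) (sq_nonneg c), PD0 u hu c]
  by_cases hvar : 25 * C2 * (a ^ 3 * (θb - θa)) ≤ Var ε A B θa θb
  · refine ⟨_, _, _, AB fun u hu _ c => ?_⟩
    linarith [mul_le_mul_of_nonneg_left (S1.trans
      (show _ ≤ 0.1 * Var ε A B θa θb by linarith)) (sq_nonneg c), PD0 u hu c]
  push Not at thin hvar
  have hlt : θa < θb := by linarith
  have hs : 0 < √a := sqrt_pos.2 h0
  have hs2 : √a ^ 2 = a := sq_sqrt h0.le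
  have hKs : K * (a * √a) ≤ a / 50 := by
    have k : √a ≤ 1 / (50 * K) := sqrt_le_iff.2 ⟨by positivity, a7⟩
    rw [le_div_iff₀ (by positivity)] at k
    linarith [mul_le_mul_of_nonneg_left k h0.le]
  have hl : ∀ θ ∈ Icc θa θb, |ell A B θ - 1| ≤ K * (a * √a) / 3 := fun θ hθ => by
    have k1 := (CL ε A B θa θb hε hε2 hlt (hell hlt) θ hθ).trans hvar.le
    have k2 : cc * min |ell A B θ - 1| ε ^ 2 ≤ 25 * C2 * a ^ 3 :=
      le_of_mul_le_mul_left (a := θb - θa) (by linarith) (by linarith)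
    have k3 : min |ell A B θ - 1| ε ^ 2 ≤ (K * (a * √a) / 3) ^ 2 := by
      refine le_of_mul_le_mul_left (a := cc) ?_ hcc
      rw [div_pow, mul_pow, mul_pow, hs2]
      linarith [mul_le_mul_of_nonneg_right hK2 (pow_pos h0 3).le]
    have k4 := (abs_le_of_sq_le_sq' k3 (by positivity)).2
    rcases min_le_iff.1 k4 with k | k
    · exact k
    · linarith
  obtain ⟨M, D, η, R, hT, hR⟩ := exists_tri hlt fun θ hθ => (hell hlt θ hθ).1
  have hRp : ∀ θ ∈ Icc θa θb, Rp ε A B θ = R θ := fun θ hθ => by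
    have := (abs_le.1 (hl θ hθ)).1
    have k : 1 / (1 + ε) ≤ ell A B θ := by
      rw [div_le_iff₀ (by linarith)]
      have : 1 - ε / 2 ≤ ell A B θ := by linarith
      linarith [mul_le_mul_of_nonneg_right this (show 0 ≤ 1 + ε by linarith),
        mul_le_mul_of_nonneg_right hε2 hε.le]
    rw [hR θ hθ, Rp, max_eq_left k]
  have hlo : ∀ θ ∈ Icc θa θb, 1 - ε ≤ R θ := fun θ hθ => by
    rw [← hRp θ hθ]; exact le_Rp hε (by linarith) (hell hlt θ hθ).2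
  have hq : ∀ y, |y| ≤ 1 → |qq M D y - 1| ≤ K * (a * √a) := fun y hy => by
    obtain ⟨θ, hθ, rfl⟩ := hT.surj hy
    rw [← hT.sq hθ, hR θ hθ]
    linarith [inv_sq_near (by linarith) (hl θ hθ)]
  have hq' : ∀ y, |y| ≤ 1 → |qq M D y - 1| ≤ a / 50 := fun y hy => (hq y hy).trans hKs
  have hα := angle_le hT h0 h1 hq'
  by_cases hP : PP a M D ≤ 10 ^ 4 * C2
  · have N : Nrm a K (10 ^ 4 * C2) M D :=
      ⟨hT.ar, hq, le_of_mul_le_mul_right (a := a) (by linarith) h0, hP⟩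
    exact ⟨_, _, _, nrm_out hT r hε (by linarith) hR hRp hlo he1 hcg hcg1 (by linarith)
      (by rw [← div_le_iff₀ hcg]; linarith) (by linarith) (by rw [← div_le_iff₀ hcg]; linarith)
      (by linarith) (ZN a t h0 a2 r.t_lo r.t_hi r.F_one θa θb M D η R hT N)
      (IN a t ς h r a3 θa θb M D η R hT N _ (sq_nonneg _) fun θ hθ => by
        rw [sq]; exact mul_le_mul_of_nonneg_left (hlo θ hθ) (by linarith))
      (NC2 a t ς h r a1 M D N)⟩
  · push Not at hP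
    refine ⟨_, _, _, AB fun u hu hu0 c => ?_⟩
    have k1 := big_energy (c := c) h0 h1 r.t_lo r.t_hi hT.ar (by linarith) hq'
      (W := fun p => c * phi t (Lm M D p) - u (Lm M D p)) (by fun_prop)
      fun y hy => bdry_W hT hR hu0 hy
    rw [cvD hT hRp (by fun_prop)]
    have P0 : 0 < PP a M D := by linarith
    have k2 : C2 * (a ^ 3 * (θb - θa)) ≤ 0.02 * (PP a M D ^ 3 * a ^ 4 / 10 ^ 5) := by
      have u1 : (10 ^ 4 * C2) * (10 ^ 4 * 1) ≤ PP a M D * PP a M D :=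
        mul_le_mul hP.le (by linarith) (by norm_num) P0.le
      have u2 := mul_le_mul_of_nonneg_right u1 (show 0 ≤ PP a M D * a ^ 4 by positivity)
      have u3 := mul_le_mul_of_nonneg_left hα (show 0 ≤ C2 * a ^ 3 by positivity)
      have u4 : 0 ≤ C2 * (PP a M D * a ^ 4) := by positivity
      linarith
    linarith [mul_le_mul_of_nonneg_left (S1.trans (show _ ≤ 0.02 * (PP a M D ^ 3 * a ^ 4 / 10 ^ 5)
      + 0.1 * Var ε A B θa θb by linarith)) (sq_nonneg c)]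

end Pool.Agent.PSz
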