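import Pool.Agent.P.MP_7b7370_an.TRDefs

set_option autoImplicit false

namespace Pool.Agent.PSF

open Real Set MeasureTheory Pool.Agent.PSz

lemma tr1_slit {ξ : ℂ} (h : ξ.re < 0) : 1 - Complex.exp ξ ∈ Complex.slitPlane := by
  have h1 : ‖-Complex.exp ξ‖ < 1 := by
    rw [norm_neg, Complex.norm_exp]
    exact Real.exp_lt_one_iff.mpr h
  simpa [sub_eq_add_neg] using Complex.mem_slitPlane_of_norm_lt_one h1

lemma tr1_low {ξ : ℂ} {ε : ℝ} (h : ξ.re ≤ -ε) : 1 - exp (-ε) ≤ ‖1 - Complex.exp ξ‖ := by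
  have h1 := norm_sub_norm_le (1 : ℂ) (Complex.exp ξ)
  rw [norm_one, Complex.norm_exp] at h1
  have h2 : exp ξ.re ≤ exp (-ε) := exp_le_exp.mpr h
  linarith

lemma tr1_pos {ε : ℝ} (h : 0 < ε) : 0 < 1 - exp (-ε) := by
  have := Real.exp_lt_one_iff.mpr (show -ε < 0 by linarith)
  linarith

lemma tr1_cp {ξ : ℂ} {ε a : ℝ} (hε : 0 < ε) (h : ξ.re ≤ -ε) (ha : a ≤ 0) :
    ‖(1 - Complex.exp ξ) ^ (a : ℂ)‖ ≤ (1 - exp (-ε)) ^ a := by
  rw [Complex.norm_cpow_real]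
  exact Real.rpow_le_rpow_of_nonpos (tr1_pos hε) (tr1_low h) ha

lemma tr1_nexp {n : ℝ} (ξ : ℂ) : ‖Complex.exp (ξ / n)‖ = exp (ξ.re / n) := by
  rw [Complex.norm_exp, Complex.div_ofReal_re]

lemma tr1_norm {n : ℝ} (hn : 2 < n) {ξ : ℂ} {ε : ℝ} (hε : 0 < ε) (h : ξ.re ≤ -ε) :
    ‖dPsi n ξ‖ ≤ 1 / n * exp (ξ.re / n) * (1 - exp (-ε)) ^ (-2 / n) := by
  have hn0 : 0 < n := by linarith
  have e1 : (-2 / (n : ℂ)) = ((-2 / n : ℝ) : ℂ) := by push_cast; rfl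
  have h1 : ‖1 / (n : ℂ)‖ = 1 / n := by
    rw [norm_div, norm_one, Complex.norm_real, Real.norm_of_nonneg hn0.le]
  unfold dPsi
  rw [norm_mul, norm_mul, h1, tr1_nexp, e1]
  have h2 := tr1_cp hε h (show -2 / n ≤ 0 from div_nonpos_of_nonpos_of_nonneg (by norm_num) hn0.le)
  exact mul_le_mul_of_nonneg_left h2 (by positivity)

lemma tr1_has (n : ℝ) {ξ : ℂ} (h : ξ.re < 0) : HasDerivAt (dPsi n)
    (1 / (n : ℂ) * (Complex.exp (ξ / n) * (1 / n)) * (1 - Complex.exp ξ) ^ (-2 / (n : ℂ)) +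
      1 / (n : ℂ) * Complex.exp (ξ / n) *
        ((-2 / (n : ℂ)) * (1 - Complex.exp ξ) ^ (-2 / (n : ℂ) - 1) * (-Complex.exp ξ))) ξ := by
  have h1 : HasDerivAt (fun z : ℂ => Complex.exp (z / n)) (Complex.exp (ξ / n) * (1 / n)) ξ :=
    ((hasDerivAt_id ξ).div_const (n : ℂ)).cexp
  have h2 : HasDerivAt (fun z : ℂ => 1 - Complex.exp z) (-Complex.exp ξ) ξ :=
    (Complex.hasDerivAt_exp ξ).const_sub 1
  exact (h1.const_mul (1 / (n : ℂ))).mul (h2.cpow_const (c := -2 / (n : ℂ)) (tr1_slit h))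

lemma tr1_der (n : ℝ) {ξ : ℂ} (h : ξ.re < 0) : HasDerivAt (dPsi n) (deriv (dPsi n) ξ) ξ :=
  (tr1_has n h).differentiableAt.hasDerivAt

lemma tr1_dnorm {n : ℝ} (hn : 2 < n) {ε : ℝ} (hε : 0 < ε) :
    ∃ C : ℝ, 0 ≤ C ∧ ∀ ξ : ℂ, ξ.re ≤ -ε → ‖deriv (dPsi n) ξ‖ ≤ C * exp (ξ.re / n) := by
  have hn0 : 0 < n := by linarith
  have hm := tr1_pos hε
  refine ⟨1 / n * (1 / n) * (1 - exp (-ε)) ^ (-2 / n) +
    1 / n * (2 / n * (1 - exp (-ε)) ^ (-2 / n - 1)), by positivity, fun ξ h => ?_⟩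
  have hξ : ξ.re < 0 := by linarith
  rw [(tr1_has n hξ).deriv]
  have e1 : (-2 / (n : ℂ)) = ((-2 / n : ℝ) : ℂ) := by push_cast; rfl
  have e2 : (-2 / (n : ℂ) - 1) = ((-2 / n - 1 : ℝ) : ℂ) := by push_cast; rfl
  have h1 : ‖1 / (n : ℂ)‖ = 1 / n := by
    rw [norm_div, norm_one, Complex.norm_real, Real.norm_of_nonneg hn0.le]
  have h1' : ‖-2 / (n : ℂ)‖ = 2 / n := by
    rw [norm_div, norm_neg, Complex.norm_real, Real.norm_of_nonneg hn0.le]
    simp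
  have ha : -2 / n ≤ 0 := div_nonpos_of_nonpos_of_nonneg (by norm_num) hn0.le
  have h2 := tr1_cp hε h ha
  have h3 := tr1_cp hε h (show -2 / n - 1 ≤ 0 by linarith)
  have h4 : ‖-Complex.exp ξ‖ ≤ 1 := by
    rw [norm_neg, Complex.norm_exp]
    exact (Real.exp_lt_one_iff.mpr hξ).le
  rw [← e1] at h2
  rw [← e2] at h3
  refine (norm_add_le _ _).trans ?_
  rw [norm_mul, norm_mul, norm_mul, norm_mul, norm_mul, norm_mul, norm_mul, h1, h1', tr1_nexp]
  have hE := exp_pos (ξ.re / n)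
  have h5 : 2 / n * ‖(1 - Complex.exp ξ) ^ (-2 / (n : ℂ) - 1)‖ * ‖-Complex.exp ξ‖ ≤
      2 / n * (1 - exp (-ε)) ^ (-2 / n - 1) := by
    calc _ ≤ 2 / n * (1 - exp (-ε)) ^ (-2 / n - 1) * 1 := by gcongr
      _ = _ := mul_one _
  calc _ ≤ 1 / n * (exp (ξ.re / n) * (1 / n)) * (1 - exp (-ε)) ^ (-2 / n) +
        1 / n * exp (ξ.re / n) * (2 / n * (1 - exp (-ε)) ^ (-2 / n - 1)) := by gcongr
    _ = _ := by ring

lemma tr1_half {τ a : ℝ} (hτ : 0 < τ) (ha : a ≤ 0) :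
    (1 - exp (-τ)) ^ a ≤ (1 / 2 : ℝ) ^ a * (1 + τ ^ a) := by
  have h1 : exp (-τ) * (1 + τ) ≤ 1 := by
    have h2 := add_one_le_exp τ
    have h3 : exp (-τ) * exp τ = 1 := by rw [← exp_add]; simp
    have h4 := exp_pos (-τ)
    nlinarith
  have h4 := exp_pos (-τ)
  have hK : 0 < (1 / 2 : ℝ) ^ a := by positivity
  have hT : 0 < τ ^ a := by positivity
  rcases le_total τ 1 with h | h
  · have h5 : 1 / 2 * τ ≤ 1 - exp (-τ) := by nlinarith
    have h6 := Real.rpow_le_rpow_of_nonpos (by positivity) h5 ha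
    rw [Real.mul_rpow (by norm_num) hτ.le] at h6
    nlinarith
  · have h5 : 1 / 2 ≤ 1 - exp (-τ) := by nlinarith
    have h6 := Real.rpow_le_rpow_of_nonpos (by positivity) h5 ha
    nlinarith

lemma tr1_exp_int {n : ℝ} (hn : 2 < n) : IntegrableOn (fun τ : ℝ => exp (-τ / n)) (Ioi 0) := by
  have hn0 : 0 < n := by linarith
  have h := exp_neg_integrableOn_Ioi 0 (show 0 < 1 / n by positivity)
  refine h.congr_fun (fun τ _ => ?_) measurableSet_Ioi
  simp only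
  congr 1
  ring

lemma tr1_bd_int {n : ℝ} (hn : 2 < n) : IntegrableOn
    (fun τ : ℝ => 1 / n * (1 / 2 : ℝ) ^ (-2 / n) * (exp (-τ / n) * (1 + τ ^ (-2 / n)))) (Ioi 0) := by
  have hn0 : 0 < n := by linarith
  have hs : -1 < -2 / n := by
    rw [lt_div_iff₀ hn0]
    linarith
  have h := integrableOn_rpow_mul_exp_neg_mul_rpow hs one_pos (show 0 < 1 / n by positivity)
  refine Integrable.const_mul ?_ _
  refine IntegrableOn.congr_fun ((tr1_exp_int hn).add h) (fun τ _ => ?_) measurableSet_Ioi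
  simp only [Pi.add_apply, Real.rpow_one]
  have e : -(1 / n) * τ = -τ / n := by ring
  rw [e]
  ring

lemma tr1_bd {n : ℝ} (hn : 2 < n) {ξ : ℂ} (h : ξ.re ≤ 0) {τ : ℝ} (hτ : 0 < τ) :
    ‖dPsi n (ξ - τ)‖ ≤
      1 / n * (1 / 2 : ℝ) ^ (-2 / n) * (exp (-τ / n) * (1 + τ ^ (-2 / n))) * exp (ξ.re / n) := by
  have hn0 : 0 < n := by linarith
  have h1 : (ξ - τ).re ≤ -τ := by
    rw [Complex.sub_re, Complex.ofReal_re]
    linarith
  have ha : -2 / n ≤ 0 := div_nonpos_of_nonpos_of_nonneg (by norm_num) hn0.le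
  refine (tr1_norm hn hτ h1).trans ?_
  have e : exp ((ξ - τ).re / n) = exp (-τ / n) * exp (ξ.re / n) := by
    rw [Complex.sub_re, Complex.ofReal_re, ← exp_add]
    congr 1
    ring
  rw [e]
  have h2 := tr1_half hτ ha
  calc _ ≤ 1 / n * (exp (-τ / n) * exp (ξ.re / n)) * ((1 / 2 : ℝ) ^ (-2 / n) * (1 + τ ^ (-2 / n))) := by
        gcongr
    _ = _ := by ring

lemma tr1_bd' {n : ℝ} (hn : 2 < n) {ξ : ℂ} (h : ξ.re ≤ 0) {τ : ℝ} (hτ : 0 < τ) :
    ‖dPsi n (ξ - τ)‖ ≤ 1 / n * (1 / 2 : ℝ) ^ (-2 / n) * (exp (-τ / n) * (1 + τ ^ (-2 / n))) := by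
  have hn0 : 0 < n := by linarith
  refine (tr1_bd hn h hτ).trans ?_
  have h1 : exp (ξ.re / n) ≤ 1 := Real.exp_le_one_iff.mpr (div_nonpos_of_nonpos_of_nonneg h hn0.le)
  exact mul_le_of_le_one_right (by positivity) h1

lemma tr1_meas (n : ℝ) {ξ : ℂ} (h : ξ.re ≤ 0) :
    AEStronglyMeasurable (fun τ : ℝ => dPsi n (ξ - τ)) (volume.restrict (Ioi 0)) := by
  refine ContinuousOn.aestronglyMeasurable (fun τ hτ => ?_) measurableSet_Ioi
  have h1 : (ξ - τ).re < 0 := by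
    rw [Complex.sub_re, Complex.ofReal_re]
    have : 0 < τ := hτ
    linarith
  have h2 : ContinuousAt (fun τ : ℝ => ξ - (τ : ℂ)) τ := by fun_prop
  exact (ContinuousAt.comp (f := fun τ : ℝ => ξ - (τ : ℂ)) (tr1_der n h1).continuousAt
    h2).continuousWithinAt

lemma tr1_int {n : ℝ} (hn : 2 < n) {ξ : ℂ} (h : ξ.re ≤ 0) :
    Integrable (fun τ : ℝ => dPsi n (ξ - τ)) (volume.restrict (Ioi 0)) :=
  Integrable.mono' (tr1_bd_int hn) (tr1_meas n h)
    ((ae_restrict_mem measurableSet_Ioi).mono fun _ hτ => tr1_bd' hn h hτ)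

lemma tr1_lim {n : ℝ} (hn : 2 < n) {ξ : ℂ} (h : ξ.re < 0) :
    Filter.Tendsto (fun τ : ℝ => -dPsi n (ξ - τ)) Filter.atTop (nhds 0) := by
  have hn0 : 0 < n := by linarith
  have h0 : Filter.Tendsto (fun τ : ℝ => exp (-τ / n)) Filter.atTop (nhds 0) :=
    tendsto_exp_atBot.comp (Filter.tendsto_neg_atTop_atBot.atBot_div_const hn0)
  have h1 := h0.const_mul (1 / n * exp (ξ.re / n) * (1 - exp (- -ξ.re)) ^ (-2 / n))
  rw [mul_zero] at h1
  refine squeeze_zero_norm' ?_ h1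
  filter_upwards [Filter.eventually_ge_atTop 0] with τ hτ
  have h2 : (ξ - τ).re ≤ - -ξ.re := by
    rw [Complex.sub_re, Complex.ofReal_re]
    linarith
  rw [norm_neg]
  refine (tr1_norm hn (by linarith) h2).trans (le_of_eq ?_)
  have e : exp ((ξ - τ).re / n) = exp (-τ / n) * exp (ξ.re / n) := by
    rw [Complex.sub_re, Complex.ofReal_re, ← exp_add]
    congr 1
    ring
  rw [e]
  ring

lemma tr1_main {n : ℝ} (hn : 2 < n) {ξ : ℂ} (h : ξ.re < 0) :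
    HasDerivAt (fun z : ℂ => ∫ τ in Ioi (0 : ℝ), dPsi n (z - τ)) (dPsi n ξ) ξ := by
  have hn0 : 0 < n := by linarith
  obtain ⟨C, hC0, hC⟩ := tr1_dnorm hn (show 0 < -ξ.re / 2 by linarith)
  have hs : {z : ℂ | z.re < ξ.re / 2} ∈ nhds ξ :=
    (isOpen_lt Complex.continuous_re continuous_const).mem_nhds (by
      show ξ.re < ξ.re / 2
      linarith)
  have key := hasDerivAt_integral_of_dominated_loc_of_deriv_le
    (μ := volume.restrict (Ioi (0 : ℝ))) (F := fun (z : ℂ) (τ : ℝ) => dPsi n (z - τ))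
    (F' := fun (z : ℂ) (τ : ℝ) => deriv (dPsi n) (z - τ)) (bound := fun τ => C * exp (-τ / n)) hs
    (Filter.mem_of_superset hs fun z hz => tr1_meas n (by
      have : z.re < ξ.re / 2 := hz
      linarith))
    (tr1_int hn h.le)
    (((measurable_deriv (dPsi n)).comp (by fun_prop)).aestronglyMeasurable)
    ((ae_restrict_mem measurableSet_Ioi).mono fun τ hτ z hz => by
      have h1 : z.re < ξ.re / 2 := hz
      have h2 : 0 < τ := hτ
      have h3 : (z - τ).re = z.re - τ := by rw [Complex.sub_re, Complex.ofReal_re]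
      refine (hC _ (by rw [h3]; linarith)).trans ?_
      rw [h3]
      gcongr
      linarith)
    ((tr1_exp_int hn).const_mul C)
    ((ae_restrict_mem measurableSet_Ioi).mono fun τ hτ z hz => by
      have h1 : z.re < ξ.re / 2 := hz
      have h2 : 0 < τ := hτ
      have h3 : (z - τ).re = z.re - τ := by rw [Complex.sub_re, Complex.ofReal_re]
      exact (tr1_der n (by rw [h3]; linarith)).comp_sub_const z τ)
  have h4 := integral_Ioi_of_hasDerivAt_of_tendsto' (a := 0)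
    (f := fun τ : ℝ => -dPsi n (ξ - τ)) (f' := fun τ : ℝ => deriv (dPsi n) (ξ - τ))
    (fun τ hτ => by
      have h2 : 0 ≤ τ := hτ
      have h3 : (ξ - τ).re < 0 := by
        rw [Complex.sub_re, Complex.ofReal_re]
        linarith
      have h5 := ((tr1_der n h3).comp_const_sub ξ (τ : ℂ)).neg
      rw [neg_neg] at h5
      exact h5.comp_ofReal) key.1 (tr1_lim hn h)
  have h5 := key.2
  rw [h4] at h5
  simpa using h5

theorem exists_Psi {n : ℝ} (hn : 2 < n) : ∃ Ψ, IsPsi n Ψ := by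
  refine ⟨fun z : ℂ => ∫ τ in Ioi (0 : ℝ), dPsi n (z - τ), ?_, fun ξ h => tr1_main hn h, ?_⟩
  · refine continuousOn_of_dominated (fun ξ h => tr1_meas n h)
      (fun ξ h => (ae_restrict_mem measurableSet_Ioi).mono fun _ hτ => tr1_bd' hn h hτ)
      (tr1_bd_int hn) ((ae_restrict_mem measurableSet_Ioi).mono fun τ hτ ξ h => ?_)
    have h1 : (ξ - τ).re < 0 := by
      rw [Complex.sub_re, Complex.ofReal_re]
      have h2 : 0 < τ := hτ
      have h3 : ξ.re ≤ 0 := h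
      linarith
    have h2 : ContinuousAt (fun z : ℂ => z - (τ : ℂ)) ξ := by fun_prop
    exact (ContinuousAt.comp (f := fun z : ℂ => z - (τ : ℂ)) (tr1_der n h1).continuousAt
      h2).continuousWithinAt
  · refine ⟨∫ τ in Ioi (0 : ℝ),
      1 / n * (1 / 2 : ℝ) ^ (-2 / n) * (exp (-τ / n) * (1 + τ ^ (-2 / n))), fun ξ h => ?_⟩
    rw [← integral_mul_const]
    exact norm_integral_le_of_norm_le ((tr1_bd_int hn).mul_const _)
      ((ae_restrict_mem measurableSet_Ioi).mono fun _ hτ => tr1_bd hn h hτ)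

end Pool.Agent.PSF
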