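import Pool.Agent.P.MP_7b7370_an.TRDefs

set_option autoImplicit false

namespace Pool.Agent.PSF

open Real Set MeasureTheory Pool.Agent.PSz

variable {ξ : ℂ}

lemma tr14a_norm (h : ξ.re < 0) : ‖Complex.exp (ξ / 2)‖ < 1 := by
  rw [Complex.norm_exp, Complex.div_ofNat_re]
  exact exp_lt_one_iff.2 (by linarith)

lemma tr14a_ne {z : ℂ} (h : ‖z‖ < 1) : 1 - z ≠ 0 ∧ 1 + z ≠ 0 := by
  constructor
  · intro e
    rw [← sub_eq_zero.1 e, norm_one] at h
    exact lt_irrefl _ h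
  · intro e
    rw [← neg_eq_of_add_eq_zero_right e, norm_neg, norm_one] at h
    exact lt_irrefl _ h

lemma tr14a_lt {z w : ℂ} (h : z.re ^ 2 + z.im ^ 2 < w.re ^ 2 + w.im ^ 2) : ‖z‖ < ‖w‖ := by
  refine lt_of_pow_lt_pow_left₀ 2 (norm_nonneg _) ?_
  rw [Complex.sq_norm, Complex.sq_norm, Complex.normSq_apply, Complex.normSq_apply]
  linarith

lemma tr14a_sq (z : ℂ) : ‖z‖ ^ 2 = z.re ^ 2 + z.im ^ 2 := by
  rw [Complex.sq_norm, Complex.normSq_apply]; ring

lemma tr14a_re {z : ℂ} (h : ‖z‖ < 1) : 0 < ((1 + z) / (1 - z)).re := by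
  have h1 := Complex.normSq_pos.2 (tr14a_ne h).1
  have h2 : z.re ^ 2 + z.im ^ 2 < 1 := by
    rw [← tr14a_sq]; nlinarith [norm_nonneg z]
  rw [Complex.div_re, ← add_div]
  refine div_pos ?_ h1
  simp only [Complex.add_re, Complex.one_re, Complex.sub_re, Complex.add_im, Complex.one_im,
    Complex.sub_im]
  nlinarith

lemma tr14a_two (ξ : ℂ) : Complex.exp ξ = Complex.exp (ξ / 2) ^ 2 := by
  rw [sq, ← Complex.exp_add, add_halves]

lemma tr14a_exp (h : ξ.re < 0) :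
    Complex.exp (Lg ξ) = (1 + Complex.exp (ξ / 2)) / (1 - Complex.exp (ξ / 2)) :=
  Complex.exp_log (div_ne_zero (tr14a_ne (tr14a_norm h)).2 (tr14a_ne (tr14a_norm h)).1)

lemma tr14a_arg {z : ℂ} (h : 0 < z.im) : 0 < Complex.arg z :=
  lt_of_le_of_ne (Complex.arg_nonneg_iff.2 h.le) fun e =>
    h.ne' (Complex.arg_eq_zero_iff.1 e.symm).2

lemma tr14a_pos {w : ℂ} (h : |w.im| < π / 2) : 0 < (Complex.exp w).re := by
  rw [Complex.exp_re]
  exact mul_pos (exp_pos _) (cos_pos_of_mem_Ioo (abs_lt.1 h))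

lemma tr14a_inv {z : ℂ} (h : 0 < z.re) : z + 1 ≠ 0 ∧ ‖(z - 1) / (z + 1)‖ < 1 := by
  have h1 : ‖z - 1‖ < ‖z + 1‖ := tr14a_lt (by
    simp only [Complex.add_re, Complex.one_re, Complex.sub_re, Complex.add_im, Complex.one_im,
      Complex.sub_im]
    nlinarith)
  have h2 : 0 < ‖z + 1‖ := (norm_nonneg _).trans_lt h1
  exact ⟨norm_pos_iff.1 h2, by rw [norm_div, div_lt_one h2]; exact h1⟩

theorem Lg_der (h : ξ.re < 0) : HasDerivAt Lg (dLg ξ) ξ := by
  have h0 := tr14a_norm h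
  obtain ⟨n1, n2⟩ := tr14a_ne h0
  have h1 : HasDerivAt (fun x : ℂ => Complex.exp (x / 2)) (Complex.exp (ξ / 2) * (1 / 2)) ξ :=
    ((hasDerivAt_id ξ).div_const 2).cexp
  have h2 := ((h1.const_add 1).fun_div (h1.const_sub 1) n1).clog (Or.inl (tr14a_re h0))
  refine h2.congr_deriv ?_
  rw [dLg, tr14a_two ξ, show 1 - Complex.exp (ξ / 2) ^ 2 =
    (1 - Complex.exp (ξ / 2)) * (1 + Complex.exp (ξ / 2)) by ring]
  field_simp
  ring

theorem Lg_sinh (h : ξ.re < 0) : Complex.sinh (Lg ξ) = 2 * dLg ξ := by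
  obtain ⟨n1, n2⟩ := tr14a_ne (tr14a_norm h)
  rw [Complex.sinh, Complex.exp_neg, tr14a_exp h, dLg, tr14a_two ξ,
    show 1 - Complex.exp (ξ / 2) ^ 2 = (1 - Complex.exp (ξ / 2)) * (1 + Complex.exp (ξ / 2)) by ring]
  field_simp
  ring

theorem Lg_im (h : ξ.re < 0) : |(Lg ξ).im| < π / 2 := by
  rw [Lg, Complex.log_im]
  exact Complex.abs_arg_lt_pi_div_two_iff.2 (Or.inl (tr14a_re (tr14a_norm h)))

theorem Lg_bij : BijOn Lg Hs Qs := by
  have hπ := pi_pos
  refine ⟨?_, ?_, ?_⟩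
  · rintro ξ ⟨h, h1, h2⟩
    obtain ⟨n1, n2⟩ := tr14a_ne (tr14a_norm h)
    have a1 : 0 < (Complex.exp (ξ / 2)).re :=
      tr14a_pos (by rw [Complex.div_ofNat_im, abs_lt]; constructor <;> linarith)
    have a2 : 0 < (Complex.exp (ξ / 2)).im := by
      rw [Complex.exp_im, Complex.div_ofNat_im]
      exact mul_pos (exp_pos _) (sin_pos_of_pos_of_lt_pi (by linarith) (by linarith))
    refine ⟨?_, ?_, (abs_lt.1 (Lg_im h)).2⟩
    · rw [Lg, Complex.log_re]
      refine log_pos ?_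
      rw [norm_div, one_lt_div (norm_pos_iff.2 n1)]
      refine tr14a_lt ?_
      simp only [Complex.add_re, Complex.one_re, Complex.sub_re, Complex.add_im, Complex.one_im,
        Complex.sub_im]
      nlinarith
    · rw [Lg, Complex.log_im]
      refine tr14a_arg ?_
      rw [Complex.div_im, ← sub_div]
      refine div_pos ?_ (Complex.normSq_pos.2 n1)
      simp only [Complex.add_re, Complex.one_re, Complex.sub_re, Complex.add_im, Complex.one_im,
        Complex.sub_im]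
      nlinarith
  · rintro x ⟨h, h1, h2⟩ y ⟨g, g1, g2⟩ e
    have e1 := congrArg Complex.exp e
    rw [tr14a_exp h, tr14a_exp g, div_eq_div_iff (tr14a_ne (tr14a_norm h)).1
      (tr14a_ne (tr14a_norm g)).1] at e1
    have e2 : Complex.exp (x / 2) = Complex.exp (y / 2) := by linear_combination e1 / 2
    have e3 := Complex.exp_inj_of_neg_pi_lt_of_le_pi ?_ ?_ ?_ ?_ e2
    · linear_combination 2 * e3
    all_goals rw [Complex.div_ofNat_im]; linarith
  · rintro w ⟨h, h1, h2⟩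
    have a1 : 0 < (Complex.exp w).re := tr14a_pos (by rw [abs_lt]; constructor <;> linarith)
    have a2 : 0 < (Complex.exp w).im := by
      rw [Complex.exp_im]
      exact mul_pos (exp_pos _) (sin_pos_of_pos_of_lt_pi h1 (by linarith))
    have a3 : 1 < (Complex.exp w).re ^ 2 + (Complex.exp w).im ^ 2 := by
      rw [← tr14a_sq, Complex.norm_exp]
      have := one_lt_exp_iff.2 h
      nlinarith
    obtain ⟨n1, n2⟩ := tr14a_inv a1
    obtain ⟨z, hz⟩ : ∃ z, z = (Complex.exp w - 1) / (Complex.exp w + 1) := ⟨_, rfl⟩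
    have b1 : 0 < z.re := by
      rw [hz, Complex.div_re, ← add_div]
      refine div_pos ?_ (Complex.normSq_pos.2 n1)
      simp only [Complex.add_re, Complex.one_re, Complex.sub_re, Complex.add_im, Complex.one_im,
        Complex.sub_im]
      nlinarith
    have b2 : 0 < z.im := by
      rw [hz, Complex.div_im, ← sub_div]
      refine div_pos ?_ (Complex.normSq_pos.2 n1)
      simp only [Complex.add_re, Complex.one_re, Complex.sub_re, Complex.add_im, Complex.one_im,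
        Complex.sub_im]
      nlinarith
    have z0 : z ≠ 0 := fun e => b1.ne' (by rw [e, Complex.zero_re])
    rw [← hz] at n2
    have b3 := (abs_lt.1 (Complex.abs_arg_lt_pi_div_two_iff.2 (Or.inl b1))).2
    have b4 := tr14a_arg b2
    have b5 := log_neg (norm_pos_iff.2 z0) n2
    refine ⟨2 * Complex.log z, ⟨?_, ?_, ?_⟩, ?_⟩
    · simp only [Complex.re_ofNat, Complex.im_ofNat, Complex.mul_re, Complex.log_re]
      linarith
    · simp only [Complex.re_ofNat, Complex.im_ofNat, Complex.mul_im, Complex.log_im]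
      linarith
    · simp only [Complex.re_ofNat, Complex.im_ofNat, Complex.mul_im, Complex.log_im]
      linarith
    · have e1 : (1 + z) / (1 - z) = Complex.exp w := by
        rw [div_eq_iff (tr14a_ne n2).1, hz]
        field_simp
        ring
      rw [Lg, mul_div_cancel_left₀ _ (two_ne_zero' ℂ), Complex.exp_log z0, e1,
        Complex.log_exp (by linarith) (by linarith)]

theorem Lg_far {K : Set ℂ} (hK : IsCompact K) (hs : ∀ w ∈ K, |w.im| < π / 2) :
    ∃ η > 0, ∀ ξ : ℂ, -η ≤ ξ.re → ξ.re < 0 → Lg ξ ∉ K := by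
  have hc : ContinuousOn (fun w => 1 - ‖(Complex.exp w - 1) / (Complex.exp w + 1)‖) K :=
    continuousOn_const.sub (ContinuousOn.norm (ContinuousOn.div (by fun_prop) (by fun_prop)
      fun w hw => (tr14a_inv (tr14a_pos (hs w hw))).1))
  obtain ⟨η, h0, hη⟩ := hK.exists_forall_le' hc (a := 0) fun w hw =>
    sub_pos.2 (tr14a_inv (tr14a_pos (hs w hw))).2
  refine ⟨η, h0, fun ξ h1 h2 hw => ?_⟩
  have h3 := hη _ hw
  obtain ⟨n1, n2⟩ := tr14a_ne (tr14a_norm h2)
  have e : (Complex.exp (Lg ξ) - 1) / (Complex.exp (Lg ξ) + 1) = Complex.exp (ξ / 2) := by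
    rw [div_eq_iff (tr14a_inv (tr14a_pos (Lg_im h2))).1, tr14a_exp h2]
    field_simp
    ring
  simp only [e, Complex.norm_exp, Complex.div_ofNat_re] at h3
  linarith [add_one_le_exp (ξ.re / 2)]

theorem Lg_near {ε : ℝ} (hε : 0 < ε) : ∃ S : ℝ, 0 < S ∧ ∀ ξ : ℂ, ξ.re ≤ -S → ‖Lg ξ‖ < ε := by
  have hc : ContinuousAt (fun z : ℂ => Complex.log ((1 + z) / (1 - z))) 0 :=
    ContinuousAt.clog (ContinuousAt.div (by fun_prop) (by fun_prop) (by simp)) (by simp)
  obtain ⟨δ, h0, hδ⟩ := Metric.continuousAt_iff.1 hc ε hε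
  refine ⟨2 / δ, by positivity, fun ξ h => ?_⟩
  have h1 : dist (Complex.exp (ξ / 2)) 0 < δ := by
    rw [dist_zero_right, Complex.norm_exp, Complex.div_ofNat_re]
    have h2 : ξ.re / 2 ≤ -δ⁻¹ := by
      rw [div_eq_mul_inv 2 δ] at h
      linarith
    refine (exp_le_exp.2 h2).trans_lt ?_
    rw [exp_neg, inv_lt_comm₀ (exp_pos _) h0]
    linarith [add_one_le_exp δ⁻¹]
  simpa [Lg] using hδ h1

lemma tr14a_sinh (w : ℂ) : ‖Complex.sinh w‖ ^ 2 = sinh w.re ^ 2 + sin w.im ^ 2 := by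
  have h1 : Complex.sinh w = ((sinh w.re * cos w.im : ℝ) : ℂ) +
      ((cosh w.re * sin w.im : ℝ) : ℂ) * Complex.I := by
    conv_lhs => rw [← Complex.re_add_im w]
    rw [Complex.sinh_add, Complex.cosh_mul_I, Complex.sinh_mul_I]
    push_cast
    ring
  rw [h1, Complex.sq_norm, Complex.normSq_add_mul_I]
  linear_combination sin w.im ^ 2 * cosh_sq w.re + sinh w.re ^ 2 * cos_sq_add_sin_sq w.im

theorem Lg_weight {n : ℝ} (hn : 2 < n) {p : ℝ × ℝ} (hp : p ∈ Pi0) :
    ‖dLg (xi n p)‖ ^ 2 * Wp (1 - 2 / n) ((Lg (xi n p)).re, (Lg (xi n p)).im)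
      = (4 : ℝ) ^ (-(1 - 2 / n)) * om n p := by
  have p0 : 0 < p.1 := hp.1
  have n0 : 0 < n := by linarith
  have hre : (xi n p).re = -n * p.1 := rfl
  have him : (xi n p).im = p.2 := rfl
  have h : (xi n p).re < 0 := by rw [hre]; nlinarith
  have b1 : ‖1 - Complex.exp (xi n p)‖ ^ 2 =
      1 - 2 * exp (-n * p.1) * cos p.2 + exp (-n * p.1) ^ 2 := by
    rw [tr14a_sq]
    simp only [Complex.sub_re, Complex.one_re, Complex.sub_im, Complex.one_im, Complex.exp_re,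
      Complex.exp_im, hre, him]
    linear_combination exp (-n * p.1) ^ 2 * cos_sq_add_sin_sq p.2
  have b2 : 0 < ‖1 - Complex.exp (xi n p)‖ ^ 2 := by
    refine pow_pos (norm_pos_iff.2 (tr14a_ne ?_).1) 2
    rw [Complex.norm_exp]
    exact exp_lt_one_iff.2 h
  have b3 : ‖dLg (xi n p)‖ ^ 2 = exp (-n * p.1) / ‖1 - Complex.exp (xi n p)‖ ^ 2 := by
    rw [dLg, norm_div, div_pow, Complex.norm_exp, Complex.div_ofNat_re, hre, sq (exp _), ← exp_add,
      add_halves]
  have b4 : 0 < ‖dLg (xi n p)‖ ^ 2 := by rw [b3]; exact div_pos (exp_pos _) b2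
  have b5 : exp (-n * p.1) ^ (2 / n) = exp (-2 * p.1) := by
    rw [← exp_mul]
    congr 1
    field_simp
  have b6 : (‖dLg (xi n p)‖ ^ 2) ^ (2 / n) = om n p := by
    rw [b3, div_rpow (exp_pos _).le b2.le, b5, om, ← b1, neg_div, rpow_neg b2.le, div_eq_mul_inv]
  rw [Wp, ← tr14a_sinh, Lg_sinh h, norm_mul, mul_pow, mul_rpow (by positivity) b4.le, ← b6,
    mul_left_comm, Complex.norm_ofNat, show (2 : ℝ) ^ 2 = 4 by norm_num]
  congr 1
  rw [neg_sub, rpow_sub_one b4.ne', mul_div_cancel₀ _ b4.ne']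

end Pool.Agent.PSF
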