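import Pool.Agent.P.MP_7b7370_an.TRDefs

set_option autoImplicit false

namespace Pool.Agent.PSF

open Real Set MeasureTheory Pool.Agent.PSz

open Filter Topology in
theorem tr14b_map : ∃ K : NNReal, ∀ r : ℝ, 0 < r → ∃ T : ℂ → ℂ, ContDiff ℝ 1 T ∧
    LipschitzWith K T ∧ (∀ z, ‖z‖ < r → T z = 0) ∧ ∀ z, 2 * r ≤ ‖z‖ → T z = z := by
  let b : ContDiffBump (0 : ℂ) := ⟨1, 2, one_pos, one_lt_two⟩
  obtain ⟨S, hS⟩ : ∃ S : ℂ → ℂ, S = fun z => b z • z := ⟨_, rfl⟩
  have h1 : ContDiff ℝ 1 S := by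
    rw [hS]; exact b.contDiff.smul contDiff_id
  have h2 : HasCompactSupport S := by
    rw [hS]; exact b.hasCompactSupport.smul_right (f' := fun z => z)
  obtain ⟨M, hM⟩ := h1.lipschitzWith_of_hasCompactSupport h2 one_ne_zero
  refine ⟨1 + M, fun r hr => ⟨fun z => z - r • S (r⁻¹ • z), ?_, ?_, ?_, ?_⟩⟩
  · exact contDiff_id.sub ((h1.comp (contDiff_id.const_smul r⁻¹)).const_smul r)
  · refine LipschitzWith.id.sub (LipschitzWith.of_dist_le_mul fun x y => ?_)
    have h3 := hM.dist_le_mul (r⁻¹ • x) (r⁻¹ • y)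
    rw [dist_smul₀, Real.norm_of_nonneg (inv_pos.2 hr).le] at h3
    rw [dist_smul₀, Real.norm_of_nonneg hr.le]
    calc r * dist (S (r⁻¹ • x)) (S (r⁻¹ • y)) ≤ r * (M * (r⁻¹ * dist x y)) :=
          mul_le_mul_of_nonneg_left h3 hr.le
      _ = M * dist x y := by field_simp
  · intro z hz
    have h3 : b (r⁻¹ • z) = 1 := by
      apply b.one_of_mem_closedBall
      rw [mem_closedBall_zero_iff, norm_smul, Real.norm_of_nonneg (inv_pos.2 hr).le]
      change r⁻¹ * ‖z‖ ≤ 1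
      rw [inv_mul_le_iff₀ hr]; linarith
    simp only [hS, h3, one_smul, smul_inv_smul₀ hr.ne', sub_self]
  · intro z hz
    have h3 : b (r⁻¹ • z) = 0 := by
      apply b.zero_of_le_dist
      rw [dist_zero_right, norm_smul, Real.norm_of_nonneg (inv_pos.2 hr).le]
      change 2 ≤ r⁻¹ * ‖z‖
      rw [le_inv_mul_iff₀ hr]; linarith
    simp only [hS, h3, zero_smul, smul_zero, sub_zero]

open Filter Topology in
/-- make a test function constant near the origin -/
theorem flatten {Ω : Set ℂ} (hΩ : IsOpen Ω) (h0 : (0 : ℂ) ∈ Ω) {u : ℂ → ℝ} (hu : Tst Ω u)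
    {Z : Set ℂ} (hZ : MeasurableSet Z) {ρ : ℂ → ℝ} (hρ : IntegrableOn ρ Z) {ε : ℝ} (hε : 0 < ε) :
    ∃ u1, Tst Ω u1 ∧ (∃ r > 0, ∀ z : ℂ, ‖z‖ < r → u1 z = u 0) ∧
      ∫ z in Z, ‖fderiv ℝ u1 z‖ ^ 2 ≤ (∫ z in Z, ‖fderiv ℝ u z‖ ^ 2) + ε ∧
      (∫ z in Z, ρ z * u z ^ 2) - ε ≤ ∫ z in Z, ρ z * u1 z ^ 2 := by
  obtain ⟨R, hR, hRΩ⟩ := Metric.nhds_basis_closedBall.mem_iff.1 (hΩ.mem_nhds h0)
  obtain ⟨K, hK⟩ := tr14b_map
  obtain ⟨L, hL⟩ := hu.c1.lipschitzWith_of_hasCompactSupport hu.cs one_ne_zero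
  obtain ⟨B, hB⟩ := hu.c1.continuous.bounded_above_of_compact_support hu.cs
  obtain ⟨r, hr⟩ : ∃ r : ℕ → ℝ, r = fun n : ℕ => R / 2 * (1 / ((n : ℝ) + 1)) := ⟨_, rfl⟩
  have hr0 : ∀ n, 0 < r n := fun n => by rw [hr]; positivity
  have hr1 : ∀ n, 2 * r n ≤ R := fun n => by
    have h1 : 1 / ((n : ℝ) + 1) ≤ 1 := by
      rw [div_le_one (by positivity)]
      linarith [(Nat.cast_nonneg n : (0 : ℝ) ≤ n)]
    rw [hr]
    nlinarith
  have hr2 : Tendsto (fun n => 2 * r n) atTop (𝓝 0) := by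
    have := (tendsto_one_div_add_atTop_nhds_zero_nat (𝕜 := ℝ)).const_mul (R / 2) |>.const_mul 2
    rw [hr]
    simpa using this
  choose T hT1 hT2 hT3 hT4 using fun n => hK (r n) (hr0 n)
  have hC : IsCompact (tsupport u ∪ Metric.closedBall (0 : ℂ) R) :=
    hu.cs.isCompact.union (isCompact_closedBall _ _)
  have hsup : ∀ n, tsupport (u ∘ T n) ⊆ tsupport u ∪ Metric.closedBall (0 : ℂ) R := by
    intro n
    refine closure_minimal (fun z hz => ?_) hC.isClosed
    by_cases h : ‖z‖ ≤ R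
    · exact Or.inr (mem_closedBall_zero_iff.2 h)
    · left
      have h1 : T n z = z := hT4 n z ((hr1 n).trans (not_le.1 h).le)
      apply subset_tsupport
      simpa only [Function.mem_support, Function.comp, h1] using hz
  have hc : ∀ n, ContDiff ℝ 1 (u ∘ T n) := fun n => hu.c1.comp (hT1 n)
  have hev : ∀ᵐ z ∂(volume.restrict Z), ∀ᶠ n in atTop, u ∘ T n =ᶠ[𝓝 z] u := by
    refine ae_restrict_of_ae ((Measure.ae_ne volume (0 : ℂ)).mono fun z hz => ?_)
    filter_upwards [hr2.eventually (gt_mem_nhds (norm_pos_iff.2 hz))] with n hn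
    filter_upwards [(isOpen_lt continuous_const continuous_norm).mem_nhds hn] with w hw
    simp only [Function.comp, hT4 n w (le_of_lt hw)]
  have hA : Tendsto (fun n => ∫ z in Z, ‖fderiv ℝ (u ∘ T n) z‖ ^ 2) atTop
      (𝓝 (∫ z in Z, ‖fderiv ℝ u z‖ ^ 2)) := by
    refine tendsto_integral_of_dominated_convergence
      ((tsupport u ∪ Metric.closedBall (0 : ℂ) R).indicator fun _ => ((L * K : NNReal) : ℝ) ^ 2)
      (fun n => (((hc n).continuous_fderiv one_ne_zero).norm.pow 2).aestronglyMeasurable) ?_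
      (fun n => Eventually.of_forall fun z => ?_) (hev.mono fun z hz => ?_)
    · refine Integrable.restrict ?_
      rw [integrable_indicator_iff hC.measurableSet]
      exact integrableOn_const hC.measure_lt_top.ne
    · rw [Real.norm_of_nonneg (by positivity)]
      by_cases h : z ∈ tsupport u ∪ Metric.closedBall (0 : ℂ) R
      · rw [indicator_of_mem h]
        exact pow_le_pow_left₀ (norm_nonneg _)
          (norm_fderiv_le_of_lipschitz ℝ (hL.comp (hT2 n))) 2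
      · rw [indicator_of_notMem h, fderiv_of_notMem_tsupport ℝ fun h' => h (hsup n h')]
        simp
    · refine tendsto_const_nhds.congr' (hz.mono fun n hn => ?_)
      simp only [hn.fderiv_eq]
  have hBB : Tendsto (fun n => ∫ z in Z, ρ z * (u ∘ T n) z ^ 2) atTop
      (𝓝 (∫ z in Z, ρ z * u z ^ 2)) := by
    refine tendsto_integral_of_dominated_convergence (fun z => ‖ρ z‖ * B ^ 2)
      (fun n => hρ.1.mul ((hc n).continuous.pow 2).aestronglyMeasurable) (hρ.norm.mul_const _)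
      (fun n => Eventually.of_forall fun z => ?_) (hev.mono fun z hz => ?_)
    · rw [norm_mul, norm_pow]
      exact mul_le_mul_of_nonneg_left (pow_le_pow_left₀ (norm_nonneg _) (hB _) 2) (norm_nonneg _)
    · refine tendsto_const_nhds.congr' (hz.mono fun n hn => ?_)
      simp only [hn.eq_of_nhds]
  obtain ⟨n, hn1, hn2⟩ := ((hA.eventually (gt_mem_nhds (lt_add_of_pos_right _ hε))).and
    (hBB.eventually (lt_mem_nhds (sub_lt_self _ hε)))).exists
  refine ⟨u ∘ T n, ⟨hc n, hC.of_isClosed_subset (isClosed_tsupport _) (hsup n),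
    (hsup n).trans (union_subset hu.sub hRΩ)⟩, ⟨r n, hr0 n, fun z hz => ?_⟩, hn1.le, hn2.le⟩
  simp only [Function.comp, hT3 n z hz]

end Pool.Agent.PSF
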