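import Pool.Agent.P.MP_7b7370_an.TRDefs

set_option autoImplicit false

namespace Pool.Agent.PSF

open Real Set MeasureTheory Pool.Agent.PSz

variable {U T : Set ℂ} {Φ Φ' : ℂ → ℂ}

lemma tr4a_det (c : ℂ) : |(c • (1 : ℂ →L[ℝ] ℂ)).det| = ‖c‖ ^ 2 := by
  have hd : LinearMap.det (LinearMap.mul ℝ ℂ c) = ‖c‖ ^ 2 := by
    rw [← Complex.normSq_eq_norm_sq, ← Algebra.norm_complex_apply]; rfl
  have e : (c • (1 : ℂ →L[ℝ] ℂ)).det = LinearMap.det (LinearMap.mul ℝ ℂ c) := rfl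
  rw [e, hd, abs_of_nonneg (by positivity)]

theorem conf_integral (hU : IsOpen U) (hd : ∀ ξ ∈ U, HasDerivAt Φ (Φ' ξ) ξ) (hb : BijOn Φ U T)
    (G : ℂ → ℝ) : ∫ z in T, G z = ∫ ξ in U, ‖Φ' ξ‖ ^ 2 * G (Φ ξ) := by
  rw [← hb.image_eq, integral_image_eq_integral_abs_det_fderiv_smul volume hU.measurableSet
    (fun ξ hξ => (hd ξ hξ).complexToReal_fderiv.hasFDerivWithinAt) hb.injOn]
  simp only [tr4a_det, smul_eq_mul]

theorem conf_integrable (hU : IsOpen U) (hd : ∀ ξ ∈ U, HasDerivAt Φ (Φ' ξ) ξ) (hb : BijOn Φ U T)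
    (G : ℂ → ℝ) : IntegrableOn G T ↔ IntegrableOn (fun ξ => ‖Φ' ξ‖ ^ 2 * G (Φ ξ)) U := by
  rw [← hb.image_eq, integrableOn_image_iff_integrableOn_abs_det_fderiv_smul volume
    hU.measurableSet (fun ξ hξ => (hd ξ hξ).complexToReal_fderiv.hasFDerivWithinAt) hb.injOn]
  simp only [tr4a_det, smul_eq_mul]

theorem conf_grad {ξ : ℂ} (hd : HasDerivAt Φ (Φ' ξ) ξ) {u : ℂ → ℝ}
    (hu : DifferentiableAt ℝ u (Φ ξ)) :
    ‖fderiv ℝ (fun ξ => u (Φ ξ)) ξ‖ ^ 2 = ‖Φ' ξ‖ ^ 2 * ‖fderiv ℝ u (Φ ξ)‖ ^ 2 := by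
  have h2 : HasFDerivAt (fun ξ => u (Φ ξ)) _ ξ := hu.hasFDerivAt.comp ξ hd.complexToReal_fderiv
  rw [h2.fderiv, norm_clm_sq, norm_clm_sq, ← Complex.normSq_eq_norm_sq, Complex.normSq_apply]
  simp only [ContinuousLinearMap.comp_apply, ContinuousLinearMap.smul_apply,
    ContinuousLinearMap.one_apply, smul_eq_mul, mul_one]
  rw [clm_apply _ (Φ' ξ), clm_apply _ (Φ' ξ * Complex.I)]
  simp
  ring

/-- push a function forward -/
theorem conf_inv (hU : IsOpen U) (hd : ∀ ξ ∈ U, HasDerivAt Φ (Φ' ξ) ξ) (hne : ∀ ξ ∈ U, Φ' ξ ≠ 0)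
    (hb : BijOn Φ U T) {W : ℂ → ℝ} (hW : ContDiff ℝ 1 W) :
    ∃ u : ℂ → ℝ, ContDiffOn ℝ 1 u T ∧ ∀ ξ ∈ U, u (Φ ξ) = W ξ := by
  have : Nonempty ℂ := ⟨0⟩
  refine ⟨fun z => W (Function.invFunOn Φ U z), fun z hz => ?_,
    fun ξ hξ => congrArg W (hb.injOn.leftInvOn_invFunOn hξ)⟩
  obtain ⟨ξ, hξ, rfl⟩ := hb.surjOn hz
  have h1 : DifferentiableOn ℂ Φ U := fun x hx => (hd x hx).differentiableAt.differentiableWithinAt
  have h2 : ContDiffAt ℂ 1 Φ ξ := (h1.analyticAt (hU.mem_nhds hξ)).contDiffAt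
  have h3 := (hd ξ hξ).hasFDerivAt_equiv (hne ξ hξ)
  have h4 := h2.hasStrictFDerivAt' h3 one_ne_zero
  have h5 : Function.invFunOn Φ U =ᶠ[nhds (Φ ξ)] h2.localInverse h3 one_ne_zero := by
    filter_upwards [h4.eventually_right_inverse, h4.localInverse_tendsto (hU.mem_nhds hξ)]
      with y a1 a2
    have := hb.injOn.leftInvOn_invFunOn a2
    rwa [a1] at this
  exact (hW.contDiffAt.comp _ (((h2.to_localInverse h3 one_ne_zero).restrict_scalars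
    ℝ).congr_of_eventuallyEq h5)).contDiffWithinAt

end Pool.Agent.PSF
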