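import Pool.Agent.P.MP_7b7370_an.TRDefs

set_option autoImplicit false

namespace Pool.Agent.PSF

open Real Set MeasureTheory Pool.Agent.PSz

variable {n : ℝ}

theorem xinv_xi (hn : 0 < n) (p : ℝ × ℝ) : xinv n (xi n p) = p := by
  have := hn.ne'
  apply Prod.ext
  · simp only [xinv, xi]
    field_simp
  · rfl

/-- the stretch of the first coordinate -/
noncomputable def tr4b_L (n : ℝ) : (ℝ × ℝ) →L[ℝ] (ℝ × ℝ) :=
  ((-n) • ContinuousLinearMap.id ℝ ℝ).prodMap (ContinuousLinearMap.id ℝ ℝ)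

lemma tr4b_L_apply (n : ℝ) (p : ℝ × ℝ) : tr4b_L n p = (-n * p.1, p.2) := rfl

/-- the model coordinates as a linear map -/
noncomputable def tr4b_M (n : ℝ) : (ℝ × ℝ) →L[ℝ] ℂ :=
  (Complex.equivRealProdCLM.symm : (ℝ × ℝ) →L[ℝ] ℂ).comp (tr4b_L n)

lemma tr4b_M_eq (n : ℝ) : xi n = tr4b_M n := rfl

theorem contDiff_xi (n : ℝ) : ContDiff ℝ 1 (xi n) := by
  rw [tr4b_M_eq]
  exact (tr4b_M n).contDiff

theorem contDiff_xinv (n : ℝ) : ContDiff ℝ 1 (xinv n) :=
  (Complex.reCLM.contDiff.neg.div_const n).prodMk Complex.imCLM.contDiff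

theorem xi_mem (hn : 0 < n) (p : ℝ × ℝ) : xi n p ∈ Hs ↔ p ∈ Pi0 := by
  simp only [Hs, Pi0, xi, mem_prod, mem_Ioi, mem_Ioo, mem_ofPred_eq]
  refine and_congr_left' ⟨fun h => ?_, fun h => by nlinarith⟩
  by_contra h1
  push Not at h1
  nlinarith

lemma tr4b_det (hn : 0 < n) : |(tr4b_L n).det| = n := by
  have h1 : (tr4b_L n).det = -n := by
    have h2 : ((tr4b_L n : (ℝ × ℝ) →L[ℝ] (ℝ × ℝ)) : (ℝ × ℝ) →ₗ[ℝ] (ℝ × ℝ))
        = LinearMap.prodMap ((-n) • LinearMap.id) LinearMap.id := rfl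
    rw [ContinuousLinearMap.det, h2, LinearMap.det_prodMap, LinearMap.det_smul, LinearMap.det_id]
    simp
  rw [h1, abs_neg, abs_of_pos hn]

lemma tr4b_inj (hn : 0 < n) : InjOn (tr4b_L n) Pi0 := fun p _ q _ h => by
  have h1 : xi n p = xi n q := congrArg Complex.measurableEquivRealProd.symm h
  rw [← xinv_xi hn p, h1, xinv_xi hn]

lemma tr4b_image (hn : 0 < n) :
    Complex.measurableEquivRealProd.symm ⁻¹' Hs = tr4b_L n '' Pi0 := by
  have := hn.ne'
  ext q
  constructor
  · intro hq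
    have h1 : tr4b_L n (-q.1 / n, q.2) = q := by
      rw [tr4b_L_apply]
      apply Prod.ext
      · simp only
        field_simp
      · rfl
    refine ⟨(-q.1 / n, q.2), (xi_mem hn _).1 ?_, h1⟩
    have h2 : xi n (-q.1 / n, q.2) = Complex.measurableEquivRealProd.symm q :=
      congrArg Complex.measurableEquivRealProd.symm h1
    rw [h2]
    exact hq
  · rintro ⟨p, hp, rfl⟩
    exact (xi_mem hn p).2 hp

lemma tr4b_meas : MeasurableSet Pi0 := measurableSet_Ioi.prod measurableSet_Ioo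

theorem integral_Hs (hn : 0 < n) (G : ℂ → ℝ) :
    ∫ ξ in Hs, G ξ = n * ∫ p in Pi0, G (xi n p) := by
  rw [← Complex.volume_preserving_equiv_real_prod.symm.setIntegral_preimage_emb
    Complex.measurableEquivRealProd.symm.measurableEmbedding G Hs, tr4b_image hn,
    integral_image_eq_integral_abs_det_fderiv_smul volume tr4b_meas
      (fun x _ => (tr4b_L n).hasFDerivAt.hasFDerivWithinAt) (tr4b_inj hn), tr4b_det hn,
    ← integral_const_mul]
  rfl

theorem integrable_Hs (hn : 0 < n) (G : ℂ → ℝ) :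
    IntegrableOn G Hs ↔ IntegrableOn (fun p => G (xi n p)) Pi0 := by
  rw [← Complex.volume_preserving_equiv_real_prod.symm.integrableOn_comp_preimage
    Complex.measurableEquivRealProd.symm.measurableEmbedding, tr4b_image hn,
    integrableOn_image_iff_integrableOn_abs_det_fderiv_smul volume tr4b_meas
      (fun x _ => (tr4b_L n).hasFDerivAt.hasFDerivWithinAt) (tr4b_inj hn), tr4b_det hn]
  exact integrable_smul_iff hn.ne' (fun p => G (xi n p))

theorem grad_xi {W : ℂ → ℝ} {p : ℝ × ℝ} (hW : DifferentiableAt ℝ W (xi n p)) :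
    dx (fun p => W (xi n p)) p ^ 2 + n ^ 2 * dy (fun p => W (xi n p)) p ^ 2
      = n ^ 2 * ‖fderiv ℝ W (xi n p)‖ ^ 2 := by
  have h1 : HasFDerivAt (fun p => W (xi n p)) ((fderiv ℝ W (xi n p)).comp (tr4b_M n)) p :=
    hW.hasFDerivAt.comp p (tr4b_M n).hasFDerivAt
  have h2 : ∀ v : ℝ × ℝ, tr4b_M n v = xi n v := fun v => rfl
  rw [dx, dy, h1.fderiv, norm_clm_sq, ContinuousLinearMap.comp_apply,
    ContinuousLinearMap.comp_apply, h2, h2, clm_apply _ (xi n (1, 0)), clm_apply _ (xi n (0, 1))]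
  simp only [xi]
  ring

theorem vol_Tr {X t : ℝ} (hX : 0 < X) (ht : 0 < t) :
    (volume (Tr X t)).toReal = X ^ 2 * t / 2 := by
  let S : Set (ℝ × ℝ) := {p | p.1 < X ∧ p.2 < 0 ∧ -(t * p.1) < p.2}
  have hS : MeasurableSet S :=
    ((isOpen_lt continuous_fst continuous_const).inter
      ((isOpen_lt continuous_snd continuous_const).inter
        (isOpen_lt (by fun_prop) continuous_snd))).measurableSet
  have h1 : volume (Tr X t) = volume S :=
    Complex.volume_preserving_equiv_real_prod.measure_preimage hS.nullMeasurableSet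
  have h2 : ∀ x, volume (Prod.mk x ⁻¹' S) =
      (Ioo 0 X).indicator (fun x => ENNReal.ofReal (t * x)) x := by
    intro x
    by_cases hx : x ∈ Ioo 0 X
    · have : Prod.mk x ⁻¹' S = Ioo (-(t * x)) 0 := by
        ext y
        simp only [S, mem_preimage, mem_ofPred_eq, hx.2, true_and, mem_Ioo, and_comm]
      rw [this, indicator_of_mem hx, Real.volume_Ioo]
      congr 1; ring
    · have : Prod.mk x ⁻¹' S = ∅ := by
        ext y
        simp only [S, mem_preimage, mem_ofPred_eq, mem_empty_iff_false, iff_false]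
        rintro ⟨h3, h4, h5⟩
        refine hx ⟨?_, h3⟩
        by_contra h6
        push Not at h6
        nlinarith
      rw [this, indicator_of_notMem hx, measure_empty]
  rw [h1, Measure.volume_eq_prod, Measure.prod_apply hS]
  simp only [h2]
  rw [lintegral_indicator measurableSet_Ioo, ← ofReal_integral_eq_lintegral_ofReal
    ((Continuous.integrableOn_Icc (by fun_prop)).mono_set Ioo_subset_Icc_self)
    ((ae_restrict_iff' measurableSet_Ioo).2 (ae_of_all _ fun x hx =>
      mul_nonneg ht.le hx.1.le)),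
    ← integral_Ioc_eq_integral_Ioo, ← intervalIntegral.integral_of_le hX.le,
    intervalIntegral.integral_const_mul, integral_id, ENNReal.toReal_ofReal (by nlinarith)]
  ring

theorem bdd_Tr {X t : ℝ} (ht : 0 < t) : Bornology.IsBounded (Tr X t) := by
  refine (Metric.isBounded_closedBall (x := (0 : ℂ)) (r := |X| + t * |X|)).subset fun z hz => ?_
  obtain ⟨h1, h2, h3⟩ := hz
  have h4 : 0 < z.re := by
    by_contra h6
    push Not at h6
    nlinarith
  have h5 : z.re ≤ |X| := h1.le.trans (le_abs_self X)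
  rw [mem_closedBall_zero_iff]
  refine (Complex.norm_le_abs_re_add_abs_im z).trans (add_le_add ?_ ?_)
  · rwa [abs_of_pos h4]
  · rw [abs_of_neg h2]
    nlinarith

end Pool.Agent.PSF
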