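import Pool.Agent.P.MP_7b7370_an.TR14a
import Pool.Agent.P.MP_7b7370_an.TR14b
import Pool.Agent.P.MP_7b7370_an.TR4a
import Pool.Agent.P.MP_7b7370_an.TR4b
import Pool.Agent.P.MP_7b7370_an.FLam

set_option autoImplicit false

namespace Pool.Agent.PSF

open Real Set MeasureTheory Pool.Agent.PSz

theorem tr14c_int {n : ℝ} (hn : 0 < n) (G : ℂ → ℝ) :
    ∫ w in Qs, G w = n * ∫ p in Pi0, ‖dLg (xi n p)‖ ^ 2 * G (Lg (xi n p)) := by
  rw [conf_integral isOpen_Hs (fun ξ h => Lg_der h.1) Lg_bij G, integral_Hs hn]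

theorem tr14c_re {n : ℝ} (hn : 0 < n) {p : ℝ × ℝ} (hp : 0 < p.1) : (xi n p).re < 0 := by
  show -n * p.1 < 0
  nlinarith [mul_pos hn hp]

theorem tr14c_cd {ξ : ℂ} (h : ξ.re < 0) : ContDiffAt ℝ 1 Lg ξ := by
  have ho : IsOpen {ξ : ℂ | ξ.re < 0} := isOpen_lt Complex.continuous_re continuous_const
  have h1 : DifferentiableOn ℂ Lg {ξ : ℂ | ξ.re < 0} := fun z hz =>
    (Lg_der hz).differentiableAt.differentiableWithinAt
  exact ((h1.contDiffOn (n := 1) ho).contDiffAt (ho.mem_nhds h)).restrict_scalars ℝ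

/-- the function of the model that belongs to a function on the strip -/
noncomputable def tr14c_V (n : ℝ) (u : ℂ → ℝ) (p : ℝ × ℝ) : ℝ :=
  if 0 < p.1 then u (Lg (xi n p)) else 0

theorem tr14c_ev (n : ℝ) (u : ℂ → ℝ) {p : ℝ × ℝ} (hp : 0 < p.1) :
    tr14c_V n u =ᶠ[nhds p] fun q => u (Lg (xi n q)) := by
  filter_upwards [(isOpen_lt continuous_const continuous_fst).mem_nhds hp] with q hq
  exact if_pos hq

theorem tr14c_adm {n : ℝ} (hn : 0 < n) {u : ℂ → ℝ} (hu : Tst {w | |w.im| < π / 2} u) {r κ : ℝ}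
    (hr : 0 < r) (h : ∀ z : ℂ, ‖z‖ < r → u z = κ) : Adm (tr14c_V n u) := by
  obtain ⟨η, hη, h1⟩ := Lg_far hu.cs fun w hw => hu.sub hw
  obtain ⟨S, hS, h2⟩ := Lg_near hr
  have hz : ∀ p : ℝ × ℝ, p.1 ≤ η / n → tr14c_V n u p = 0 := by
    intro p hp
    by_cases h0 : 0 < p.1
    · rw [tr14c_V, if_pos h0]
      refine image_eq_zero_of_notMem_tsupport (h1 _ ?_ (tr14c_re hn h0))
      rw [le_div_iff₀ hn] at hp
      show -η ≤ -n * p.1
      linarith
    · exact if_neg h0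
  refine ⟨contDiff_iff_contDiffAt.2 fun p => ?_, ⟨η / n, div_pos hη hn, hz⟩, S / n, κ,
    fun p hp => ?_⟩
  · by_cases h0 : 0 < p.1
    · refine ContDiffAt.congr_of_eventuallyEq ?_ (tr14c_ev n u h0)
      exact hu.c1.contDiffAt.comp p
        ((tr14c_cd (tr14c_re hn h0)).comp p (contDiff_xi n).contDiffAt)
    · have h3 : p.1 < η / n := (not_lt.1 h0).trans_lt (div_pos hη hn)
      refine (contDiffAt_const (c := (0 : ℝ))).congr_of_eventuallyEq ?_
      filter_upwards [(isOpen_lt continuous_fst continuous_const).mem_nhds h3] with q hq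
      exact hz q (le_of_lt hq)
  · rw [tr14c_V, if_pos ((div_pos hS hn).trans_le hp)]
    refine h _ (h2 _ ?_)
    rw [div_le_iff₀ hn] at hp
    show -n * p.1 ≤ -S
    linarith

theorem tr14c_B {n : ℝ} (hn : 2 < n) (u : ℂ → ℝ) :
    ∫ w in Qs, Wp (1 - 2 / n) (w.re, w.im) * u w ^ 2
      = n * ((4 : ℝ) ^ (-(1 - 2 / n)) * Bn n (tr14c_V n u)) := by
  rw [tr14c_int (by linarith : 0 < n), Bn, ← integral_const_mul ((4 : ℝ) ^ (-(1 - 2 / n)))]
  congr 1
  refine setIntegral_congr_fun measurableSet_Pi0 fun p hp => ?_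
  have h0 : 0 < p.1 := hp.1
  simp only [tr14c_V, if_pos h0]
  rw [← mul_assoc, Lg_weight hn hp, mul_assoc]

theorem tr14c_D {n : ℝ} (hn : 0 < n) {u : ℂ → ℝ} (hu : ContDiff ℝ 1 u) :
    Dn n (tr14c_V n u) = n * ∫ w in Qs, ‖fderiv ℝ u w‖ ^ 2 := by
  rw [tr14c_int hn, ← mul_assoc, ← sq, ← integral_const_mul, Dn]
  refine setIntegral_congr_fun measurableSet_Pi0 fun p hp => ?_
  have h0 : 0 < p.1 := hp.1
  have hd : Differentiable ℝ u := hu.differentiable one_ne_zero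
  have h1 := Lg_der (tr14c_re hn h0)
  have h2 := grad_xi (n := n) (W := fun ξ => u (Lg ξ)) (p := p)
    ((hd _).comp _ (h1.differentiableAt.restrictScalars ℝ))
  rw [conf_grad (Φ := Lg) (Φ' := dLg) h1 (hd _)] at h2
  simp only [dx, dy] at h2 ⊢
  rw [(tr14c_ev n u h0).fderiv_eq]
  exact h2

theorem quarter_weight {n : ℝ} (hn : 2 < n) :
    IntegrableOn (fun w : ℂ => Wp (1 - 2 / n) (w.re, w.im)) Qs ∧
      ∫ w in Qs, Wp (1 - 2 / n) (w.re, w.im) = n * (4 : ℝ) ^ (-(1 - 2 / n)) * An n / 2 := by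
  have hn0 : 0 < n := by linarith
  constructor
  · rw [conf_integrable isOpen_Hs (fun ξ h => Lg_der h.1) Lg_bij, integrable_Hs hn0]
    refine IntegrableOn.congr_fun
      ((integrableOn_om hn).const_mul ((4 : ℝ) ^ (-(1 - 2 / n)))) (fun p hp => ?_)
      measurableSet_Pi0
    exact (Lg_weight hn hp).symm
  · rw [tr14c_int hn0, setIntegral_congr_fun measurableSet_Pi0 fun p hp => Lg_weight hn hp,
      integral_const_mul, An]
    ring

theorem quarter_lb {n : ℝ} (hn : 2 < n) {u : ℂ → ℝ} (hu : Tst {w | |w.im| < π / 2} u) :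
    lam n * ∫ w in Qs, Wp (1 - 2 / n) (w.re, w.im) * u w ^ 2
      ≤ n ^ 2 * (4 : ℝ) ^ (-(1 - 2 / n)) * ∫ w in Qs, ‖fderiv ℝ u w‖ ^ 2 := by
  have hn0 : 0 < n := by linarith
  have hl := lam_nonneg hn0
  have hq : 0 < (4 : ℝ) ^ (-(1 - 2 / n)) := by positivity
  have ho : IsOpen {w : ℂ | |w.im| < π / 2} := isOpen_lt (by fun_prop) continuous_const
  have h0 : (0 : ℂ) ∈ {w : ℂ | |w.im| < π / 2} := by
    show |(0 : ℂ).im| < π / 2
    rw [Complex.zero_im, abs_zero]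
    positivity
  have hc : 0 < n ^ 2 * (4 : ℝ) ^ (-(1 - 2 / n)) := by positivity
  refine le_of_forall_pos_le_add fun δ hδ => ?_
  have hm : 0 < lam n + n ^ 2 * (4 : ℝ) ^ (-(1 - 2 / n)) := by positivity
  obtain ⟨u1, t1, ⟨r, hr, hz⟩, a1, a2⟩ := flatten ho h0 hu isOpen_Qs.measurableSet
    (quarter_weight hn).1 (div_pos hδ hm)
  have b1 := mul_le_mul_of_nonneg_left (lam_le hn0 (tr14c_adm hn0 t1 hr hz)) (mul_pos hn0 hq).le
  rw [tr14c_D hn0 t1.c1] at b1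
  rw [tr14c_B hn u1] at a2
  have b2 := mul_le_mul_of_nonneg_left a1 hc.le
  have b3 := mul_le_mul_of_nonneg_left a2 hl
  have b4 := mul_div_cancel₀ δ hm.ne'
  linarith

end Pool.Agent.PSF
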