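import Pool.Agent.P.MP_7b7370_an.TRDefs

set_option autoImplicit false

namespace Pool.Agent.PSF

open Real Set MeasureTheory Pool.Agent.PSz

variable {n : ℝ} {ξ : ℂ}

lemma tr2_re (ξ : ℂ) : (1 - Complex.exp ξ).re = 1 - exp ξ.re * cos ξ.im := by
  simp [Complex.exp_re]

lemma tr2_im (ξ : ℂ) : (1 - Complex.exp ξ).im = -(exp ξ.re * sin ξ.im) := by
  simp [Complex.exp_im]

lemma tr2_re_pos (h : ξ.re < 0) : 0 < (1 - Complex.exp ξ).re := by
  rw [tr2_re]
  have h1 : exp ξ.re < 1 := by simpa using exp_lt_exp.2 h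
  have h2 := exp_pos ξ.re
  have h3 := cos_le_one ξ.im
  nlinarith

lemma tr2_re_pos' (h : ξ.re ≤ 0) (h0 : 0 < ξ.im) (h1 : ξ.im < π) :
    0 < (1 - Complex.exp ξ).re := by
  rw [tr2_re]
  have h2 : exp ξ.re ≤ 1 := by simpa using exp_le_exp.2 h
  have h3 := exp_pos ξ.re
  have h4 : cos ξ.im < 1 := by
    have := cos_lt_cos_of_nonneg_of_le_pi le_rfl h1.le h0
    simpa using this
  nlinarith

lemma tr2_ne {w : ℂ} (h : 0 < w.re) : w ≠ 0 := by
  intro h0; rw [h0] at h; simp at h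

/-- modulus of the derivative -/
noncomputable def tr2_R (n : ℝ) (ξ : ℂ) : ℝ :=
  1 / n * exp (ξ.re / n - 2 / n * log ‖1 - Complex.exp ξ‖)

lemma tr2_R_pos (hn : 0 < n) (ξ : ℂ) : 0 < tr2_R n ξ := by
  unfold tr2_R; positivity

lemma tr2_polar (n : ℝ) (h : 1 - Complex.exp ξ ≠ 0) :
    dPsi n ξ = (tr2_R n ξ : ℂ) * cis ((ξ.im - 2 * Complex.arg (1 - Complex.exp ξ)) / n) := by
  unfold dPsi tr2_R cis
  rw [Complex.cpow_def_of_ne_zero h, mul_assoc, ← Complex.exp_add]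
  push_cast
  rw [mul_assoc, ← Complex.exp_add]
  congr 2
  have h1 : Complex.log (1 - Complex.exp ξ) =
      (log ‖1 - Complex.exp ξ‖ : ℝ) + (Complex.arg (1 - Complex.exp ξ) : ℝ) * Complex.I := rfl
  have h2 : ξ = (ξ.re : ℂ) + (ξ.im : ℂ) * Complex.I := (Complex.re_add_im ξ).symm
  rw [h1]
  generalize (log ‖1 - Complex.exp ξ‖ : ℝ) = L
  generalize Complex.arg (1 - Complex.exp ξ) = θ
  conv_lhs => rw [h2]
  ring

lemma tr2_cis_mul (a b : ℝ) : cis a * cis b = cis (a + b) := by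
  unfold cis; rw [← Complex.exp_add]; push_cast; ring_nf

lemma tr2_polar' (n : ℝ) (h : 1 - Complex.exp ξ ≠ 0) :
    cis (-(π / n)) * dPsi n ξ =
      (tr2_R n ξ : ℂ) * cis ((ξ.im - π - 2 * Complex.arg (1 - Complex.exp ξ)) / n) := by
  rw [tr2_polar n h, mul_left_comm, tr2_cis_mul]
  congr 2
  ring

lemma tr2_arg_lo {w : ℂ} (h : 0 < w.re) : -(π / 2) < Complex.arg w :=
  (abs_lt.1 (Complex.abs_arg_lt_pi_div_two_iff.2 (Or.inl h))).1

lemma tr2_arg_hi (h0 : 0 ≤ ξ.im) (h1 : ξ.im ≤ π) (h : 0 < (1 - Complex.exp ξ).re) :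
    Complex.arg (1 - Complex.exp ξ) ≤ 0 := by
  have hs : 0 ≤ sin ξ.im := sin_nonneg_of_nonneg_of_le_pi h0 h1
  have him : (1 - Complex.exp ξ).im ≤ 0 := by
    rw [tr2_im]; have := exp_pos ξ.re; nlinarith
  rcases him.lt_or_eq with h2 | h2
  · exact (Complex.arg_neg_iff.2 h2).le
  · exact (Complex.arg_eq_zero_iff.2 ⟨h.le, h2⟩).le

theorem dPsi_norm (hn : 0 < n) {p : ℝ × ℝ} (hp : 0 < p.1) :
    ‖dPsi n (xi n p)‖ ^ 2 = om n p / n ^ 2 := by
  have hre : (xi n p).re = -n * p.1 := rfl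
  have him : (xi n p).im = p.2 := rfl
  have h : (xi n p).re < 0 := by rw [hre]; nlinarith
  have hw := tr2_ne (tr2_re_pos h)
  have hpos : 0 < ‖1 - Complex.exp (xi n p)‖ := norm_pos_iff.2 hw
  have hsq : ‖1 - Complex.exp (xi n p)‖ ^ 2 =
      1 - 2 * exp (-n * p.1) * cos p.2 + exp (-n * p.1) ^ 2 := by
    rw [← Complex.normSq_eq_norm_sq, Complex.normSq_apply, tr2_re, tr2_im, hre, him]
    have := sin_sq_add_cos_sq p.2
    linear_combination (exp (-n * p.1)) ^ 2 * this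
  rw [tr2_polar n hw, norm_mul, norm_cis, mul_one, Complex.norm_real, Real.norm_eq_abs, sq_abs]
  unfold tr2_R PSF.om
  rw [← hsq, rpow_def_of_pos (by positivity), ← exp_add, mul_pow, ← exp_nat_mul, log_pow, hre]
  have : (2 : ℕ) * (-n * p.1 / n - 2 / n * log ‖1 - Complex.exp (xi n p)‖) =
      -2 * p.1 + (2 : ℕ) * log ‖1 - Complex.exp (xi n p)‖ * (-2 / n) := by
    push_cast; field_simp; ring
  rw [this]
  field_simp

theorem dPsi_ne (hn : 0 < n) (h : ξ.re < 0) : dPsi n ξ ≠ 0 := by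
  rw [tr2_polar n (tr2_ne (tr2_re_pos h))]
  refine mul_ne_zero ?_ ?_
  · exact_mod_cast (tr2_R_pos hn ξ).ne'
  · exact Complex.exp_ne_zero _

theorem dPsi_re_pos (hn : 2 < n) (h : ξ.re < 0) (h0 : 0 ≤ ξ.im) (h1 : ξ.im ≤ π) :
    0 < (cis (-(π / n)) * dPsi n ξ).re := by
  have hw := tr2_re_pos h
  have hn0 : 0 < n := by linarith
  rw [tr2_polar' n (tr2_ne hw), Complex.re_ofReal_mul, cis_re]
  refine mul_pos (tr2_R_pos hn0 ξ) (cos_pos_of_mem_Ioo ⟨?_, ?_⟩)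
  · have := tr2_arg_hi h0 h1 hw
    rw [lt_div_iff₀ hn0]
    have := pi_pos
    nlinarith
  · have := tr2_arg_lo hw
    rw [div_lt_iff₀ hn0]
    have := pi_pos
    nlinarith

theorem dPsi_im_pos (hn : 2 < n) (h : ξ ∈ Hs) : 0 < (dPsi n ξ).im := by
  obtain ⟨h, h0, h1⟩ := h
  have hw := tr2_re_pos h
  have hn0 : 0 < n := by linarith
  rw [tr2_polar n (tr2_ne hw), Complex.im_ofReal_mul, cis_im]
  refine mul_pos (tr2_R_pos hn0 ξ) (sin_pos_of_pos_of_lt_pi ?_ ?_)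
  · have := tr2_arg_hi h0.le h1.le hw
    exact div_pos (by linarith) hn0
  · have := tr2_arg_lo hw
    rw [div_lt_iff₀ hn0]
    have := pi_pos
    nlinarith

theorem dPsi_im_zero (h : ξ.re < 0) (h0 : ξ.im = 0) : (dPsi n ξ).im = 0 := by
  have hw := tr2_re_pos h
  have ha : Complex.arg (1 - Complex.exp ξ) = 0 :=
    Complex.arg_eq_zero_iff.2 ⟨hw.le, by rw [tr2_im, h0]; simp⟩
  rw [tr2_polar n (tr2_ne hw), Complex.im_ofReal_mul, cis_im, ha, h0]
  simp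

theorem dPsi_im_pi (hn : 0 < n) (h : ξ.re < 0) (h0 : ξ.im = π) :
    (cis (-(π / n)) * dPsi n ξ).im = 0 := by
  have _ := hn
  have hw := tr2_re_pos h
  have ha : Complex.arg (1 - Complex.exp ξ) = 0 :=
    Complex.arg_eq_zero_iff.2 ⟨hw.le, by rw [tr2_im, h0]; simp⟩
  rw [tr2_polar' n (tr2_ne hw), Complex.im_ofReal_mul, cis_im, ha, h0]
  simp

theorem dPsi_side (hn : 0 < n) (h : ξ.re = 0) (h0 : 0 < ξ.im) (h1 : ξ.im < π) :
    (cis (-(π / n)) * dPsi n ξ).im = 0 := by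
  have _ := hn
  have hw := tr2_re_pos' h.le h0 h1
  have hs : 0 < sin (ξ.im / 2) := sin_pos_of_pos_of_lt_pi (by linarith) (by linarith)
  have he : 1 - Complex.exp ξ = ((2 * sin (ξ.im / 2) : ℝ) : ℂ) *
      (Complex.cos ((ξ.im - π) / 2 : ℝ) + Complex.sin ((ξ.im - π) / 2 : ℝ) * Complex.I) := by
    have hc : cos ((ξ.im - π) / 2) = sin (ξ.im / 2) := by
      rw [show (ξ.im - π) / 2 = ξ.im / 2 - π / 2 by ring, cos_sub_pi_div_two]
    have hs' : sin ((ξ.im - π) / 2) = -cos (ξ.im / 2) := by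
      rw [show (ξ.im - π) / 2 = ξ.im / 2 - π / 2 by ring, sin_sub_pi_div_two]
    have h2 : cos ξ.im = 1 - 2 * sin (ξ.im / 2) ^ 2 := by
      have := cos_two_mul (ξ.im / 2)
      rw [show 2 * (ξ.im / 2) = ξ.im by ring] at this
      have h3 := sin_sq_add_cos_sq (ξ.im / 2)
      linarith
    have h3 : sin ξ.im = 2 * sin (ξ.im / 2) * cos (ξ.im / 2) := by
      have := sin_two_mul (ξ.im / 2)
      rwa [show 2 * (ξ.im / 2) = ξ.im by ring] at this
    rw [← Complex.ofReal_cos, ← Complex.ofReal_sin, hc, hs']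
    apply Complex.ext
    · rw [tr2_re, h, exp_zero, Complex.re_ofReal_mul, h2]
      simp only [Complex.add_re, Complex.ofReal_re, Complex.mul_re, Complex.I_re, Complex.I_im,
        Complex.ofReal_im]
      ring
    · rw [tr2_im, h, exp_zero, Complex.im_ofReal_mul, h3]
      simp only [Complex.add_im, Complex.ofReal_re, Complex.mul_im, Complex.I_re, Complex.I_im,
        Complex.ofReal_im]
      ring
  have ha : Complex.arg (1 - Complex.exp ξ) = (ξ.im - π) / 2 := by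
    rw [he]
    exact Complex.arg_mul_cos_add_sin_mul_I (by positivity) ⟨by linarith, by linarith⟩
  rw [tr2_polar' n (tr2_ne hw), Complex.im_ofReal_mul, cis_im, ha]
  have : (ξ.im - π - 2 * ((ξ.im - π) / 2)) / n = 0 := by
    rw [show ξ.im - π - 2 * ((ξ.im - π) / 2) = 0 by ring, zero_div]
  rw [this, sin_zero, mul_zero]

theorem continuousOn_dPsi (n : ℝ) :
    ContinuousOn (dPsi n) {ξ | ξ.re ≤ 0 ∧ 0 < ξ.im ∧ ξ.im < π} := by
  unfold dPsi
  refine ContinuousOn.mul (by fun_prop) ?_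
  refine ContinuousOn.cpow (by fun_prop) continuousOn_const ?_
  intro ξ hξ
  exact Or.inl (tr2_re_pos' hξ.1 hξ.2.1 hξ.2.2)

end Pool.Agent.PSF
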