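import Pool.Agent.P.MP_7b7370_an.TR3a

set_option autoImplicit false

namespace Pool.Agent.PSF

open Real Set MeasureTheory Pool.Agent.PSz

theorem tr3_line {G : ℂ → ℂ} {g a d : ℂ} {x : ℝ} (L : ℂ →L[ℝ] ℝ)
    (h : HasDerivAt G g (a + x * d)) : HasDerivAt (fun y : ℝ => L (G (a + y * d))) (L (g * d)) x := by
  have h1 : HasDerivAt (fun w : ℂ => a + w * d) d (x : ℂ) := by
    simpa using ((hasDerivAt_id (x : ℂ)).mul_const d).const_add a
  have h2 : HasDerivAt (fun w : ℂ => G (a + w * d)) (g * d) (x : ℂ) := h.comp (x : ℂ) h1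
  exact L.hasFDerivAt.comp_hasDerivAt x h2.comp_ofReal

theorem tr3_hor {G g : ℂ → ℂ} (L : ℂ →L[ℝ] ℝ) (hc : ContinuousOn G {ξ | ξ.re ≤ 0})
    (hd : ∀ ξ : ℂ, ξ.re < 0 → HasDerivAt G (g ξ) ξ) (φ : ℝ)
    (hp : ∀ ξ : ℂ, ξ.re < 0 → ξ.im = φ → 0 < L (g ξ)) {ξ ζ : ℂ} (h1 : ξ.im = φ) (h2 : ζ.im = φ)
    (h3 : ξ.re < ζ.re) (h4 : ζ.re ≤ 0) : L (G ξ) < L (G ζ) := by
  have hm : StrictMonoOn (fun y : ℝ => L (G (φ * Complex.I + y * 1))) (Iic 0) := by
    refine strictMonoOn_of_deriv_pos (convex_Iic 0) ?_ fun x hx => ?_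
    · refine L.continuous.comp_continuousOn (hc.comp (by fun_prop) fun x hx => ?_)
      simpa using hx
    · rw [interior_Iic] at hx
      have e : ((φ : ℂ) * Complex.I + x * 1).re < 0 := by simpa using hx
      rw [(tr3_line L (hd _ e)).deriv, mul_one (g _)]
      exact hp _ e (by simp)
  have e1 : (φ : ℂ) * Complex.I + ξ.re * 1 = ξ := by
    apply Complex.ext <;> simp [h1]
  have e2 : (φ : ℂ) * Complex.I + ζ.re * 1 = ζ := by
    apply Complex.ext <;> simp [h2]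
  have := hm (h3.le.trans h4) h4 h3
  simpa only [e1, e2] using this

theorem tr3_ver {G g : ℂ → ℂ} (hd : ∀ ξ : ℂ, ξ.re < 0 → HasDerivAt G (g ξ) ξ)
    (hp : ∀ ξ : ℂ, ξ.re < 0 → 0 ≤ ξ.im → ξ.im ≤ π → 0 < (g ξ).re) {ξ : ℂ} (h : ξ ∈ Hs) :
    (G ξ).im < (G (ξ.re + π * Complex.I)).im := by
  have e : ∀ y : ℝ, ((ξ.re : ℂ) + y * Complex.I).re < 0 := fun y => by simpa using h.1
  have hm : StrictMonoOn (fun y : ℝ => Complex.imCLM (G (ξ.re + y * Complex.I))) (Icc 0 π) := by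
    refine strictMonoOn_of_deriv_pos (convex_Icc 0 π) (fun y _ => ?_) fun y hy => ?_
    · exact (tr3_line Complex.imCLM (hd _ (e y))).continuousAt.continuousWithinAt
    · rw [interior_Icc] at hy
      rw [(tr3_line Complex.imCLM (hd _ (e y))).deriv]
      simpa using hp _ (e y) (by simpa using hy.1.le) (by simpa using hy.2.le)
  have := hm ⟨h.2.1.le, h.2.2.le⟩ ⟨pi_pos.le, le_rfl⟩ h.2.2
  simpa using this

theorem tr3_far {n : ℝ} {Ψ : ℂ → ℂ} (hn : 2 < n) (h : IsPsi n Ψ) {ε : ℝ} (hε : 0 < ε) :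
    ∃ M : ℝ, ∀ ξ : ℂ, ξ.re ≤ M → ‖Ψ ξ‖ ≤ ε := by
  obtain ⟨C, hC⟩ := h.dec
  have h1 : Filter.Tendsto (fun x : ℝ => |C| * exp (x / n)) Filter.atBot (nhds (|C| * 0)) :=
    (tendsto_exp_atBot.comp (Filter.tendsto_id.atBot_div_const (by linarith))).const_mul _
  rw [mul_zero] at h1
  obtain ⟨M, hM⟩ := Filter.eventually_atBot.1 (h1.eventually (ge_mem_nhds hε))
  refine ⟨min M 0, fun ξ hξ => (hC ξ (hξ.trans (min_le_right _ _))).trans ?_⟩
  exact (mul_le_mul_of_nonneg_right (le_abs_self C) (exp_pos _).le).trans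
    (hM _ (hξ.trans (min_le_left _ _)))

theorem tr3_im_pos {n : ℝ} {Ψ : ℂ → ℂ} (hn : 2 < n) (h : IsPsi n Ψ) {ξ : ℂ} (hξ : ξ ∈ Hs) :
    0 < (Ψ ξ).im := by
  have key : ∀ a b : ℂ, a.im = ξ.im → b.im = ξ.im → a.re < b.re → b.re ≤ 0 →
      (Ψ a).im < (Ψ b).im := fun a b h1 h2 h3 h4 =>
    tr3_hor Complex.imCLM h.cont h.der ξ.im
      (fun ζ e1 e2 => dPsi_im_pos hn ⟨e1, e2 ▸ hξ.2.1, e2 ▸ hξ.2.2⟩) h1 h2 h3 h4
  have h0 := hξ.1
  refine lt_of_le_of_lt ?_ (key (ξ - 1) ξ (by simp) rfl (by simp) h0.le)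
  by_contra hc
  push Not at hc
  obtain ⟨M, hM⟩ := tr3_far hn h (neg_pos.2 hc)
  have h1 := key ⟨min M (ξ.re - 2), ξ.im⟩ (ξ - 1) rfl (by simp)
    ((min_le_right _ _).trans_lt (by simp)) (by simp; linarith)
  have h2 := hM ⟨min M (ξ.re - 2), ξ.im⟩ (min_le_left _ _)
  have h3 := (abs_le.1 ((Complex.abs_im_le_norm _).trans h2)).1
  linarith

theorem tr3_convex (X t : ℝ) : Convex ℝ (Tr X t) := by
  refine (convex_halfSpace_re_lt X).inter ((convex_halfSpace_im_lt 0).inter ?_)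
  have : IsLinearMap ℝ fun z : ℂ => -(t * z.re) - z.im :=
    ⟨fun a b => by simp; ring, fun c a => by simp; ring⟩
  have h1 := convex_halfSpace_lt this 0
  simp only [sub_neg] at h1
  exact h1

theorem IsPsi.bij {n : ℝ} {Ψ : ℂ → ℂ} (hn : 2 < n) (h : IsPsi n Ψ) : ∃ X : ℝ, 0 < X ∧
    BijOn (fun ξ => cis (-(π / n)) * Ψ ξ) Hs (Tr X (tan (π / n))) ∧
    ∀ η > 0, ∃ δ > 0, ∀ ξ ∈ Hs, X - δ ≤ (cis (-(π / n)) * Ψ ξ).re → -η ≤ ξ.re := by
  obtain ⟨X, hX, hside⟩ := h.side hn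
  have hn0 : 0 < n := by linarith
  have hc0 : cis (-(π / n)) ≠ 0 := norm_ne_zero_iff.1 (by rw [norm_cis]; exact one_ne_zero)
  have hcos : 0 < cos (π / n) := by
    refine cos_pos_of_mem_Ioo ⟨by linarith [div_pos pi_pos hn0, pi_pos], ?_⟩
    exact div_lt_div_of_pos_left pi_pos two_pos hn
  have hid : ∀ w : ℂ, w.im = cos (π / n) *
      ((cis (-(π / n)) * w).im + tan (π / n) * (cis (-(π / n)) * w).re) := by
    intro w
    have e : cos (π / n) * tan (π / n) = sin (π / n) := by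
      rw [tan_eq_sin_div_cos]; field_simp
    rw [mul_add, ← mul_assoc, e]
    simp only [Complex.mul_re, Complex.mul_im, cis_re, cis_im, cos_neg, sin_neg]
    linear_combination -w.im * sin_sq_add_cos_sq (π / n)
  have hcont : ContinuousOn (fun ξ => cis (-(π / n)) * Ψ ξ) {ξ | ξ.re ≤ 0} :=
    continuousOn_const.mul h.cont
  have hder : ∀ ξ : ℂ, ξ.re < 0 →
      HasDerivAt (fun ξ => cis (-(π / n)) * Ψ ξ) (cis (-(π / n)) * dPsi n ξ) ξ :=
    fun ξ e => (h.der ξ e).const_mul _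
  have hre : ∀ a b : ℂ, 0 ≤ a.im → a.im ≤ π → b.im = a.im → a.re < b.re → b.re ≤ 0 →
      (cis (-(π / n)) * Ψ a).re < (cis (-(π / n)) * Ψ b).re := fun a b h1 h2 h3 h4 h5 =>
    tr3_hor Complex.reCLM hcont hder a.im
      (fun ζ e1 e2 => dPsi_re_pos hn e1 (e2 ▸ h1) (e2 ▸ h2)) rfl h3 h4 h5
  have hlt : ∀ a : ℂ, a.re < 0 → 0 ≤ a.im → a.im ≤ π → (cis (-(π / n)) * Ψ a).re < X :=
    fun a h1 h2 h3 => (hre a ⟨0, a.im⟩ h2 h3 rfl h1 le_rfl).trans_eq (hside _ rfl h2 h3)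
  have hmaps : MapsTo (fun ξ => cis (-(π / n)) * Ψ ξ) Hs (Tr X (tan (π / n))) := by
    intro ξ hξ
    refine ⟨hlt ξ hξ.1 hξ.2.1.le hξ.2.2.le, ?_, ?_⟩
    · exact (tr3_ver hder (fun ζ => dPsi_re_pos hn) hξ).trans_eq
        (h.im_pi hn (by simpa using hξ.1.le) (by simp))
    · have h1 := tr3_im_pos hn h hξ
      rw [hid] at h1
      have h2 := (mul_pos_iff_of_pos_left hcos).1 h1
      simp only
      linarith
  refine ⟨X, hX, ⟨hmaps, fun a ha b hb e => h.inj hn ha hb (mul_left_cancel₀ hc0 e), ?_⟩, ?_⟩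
  · refine (tr3_convex X _).isPreconnected.subset_of_closure_inter_subset ?_ ?_ ?_
    · refine isOpen_iff_mem_nhds.2 ?_
      rintro _ ⟨ξ, hξ, rfl⟩
      have ho : IsOpen {ξ : ℂ | ξ.re < 0} := isOpen_lt Complex.continuous_re continuous_const
      have hdiff : DifferentiableOn ℂ (fun ξ => cis (-(π / n)) * Ψ ξ) {ξ : ℂ | ξ.re < 0} :=
        fun ζ e => (hder ζ e).differentiableAt.differentiableWithinAt
      have hs := (hdiff.analyticAt (ho.mem_nhds hξ.1)).hasStrictDerivAt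
      rw [(hder ξ hξ.1).deriv] at hs
      rw [← hs.map_nhds_eq (mul_ne_zero hc0 (dPsi_ne hn0 hξ.1))]
      exact Filter.image_mem_map (isOpen_Hs.mem_nhds hξ)
    · have hξ : (⟨-1, 1⟩ : ℂ) ∈ Hs := ⟨by norm_num, by norm_num, by
        show (1 : ℝ) < π
        linarith [pi_gt_three]⟩
      exact ⟨_, hmaps hξ, mem_image_of_mem _ hξ⟩
    · rintro z ⟨hz, hT⟩
      have hz0 : 0 < ‖z‖ := norm_pos_iff.2 fun e => by
        have := hT.2.1
        rw [e] at this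
        simp at this
      obtain ⟨M, hM⟩ := tr3_far hn h (half_pos hz0)
      have hK : IsCompact (Icc M 0 ×ℂ Icc 0 π) := isCompact_Icc.reProdIm isCompact_Icc
      have hcl : IsClosed ((fun ξ => cis (-(π / n)) * Ψ ξ) '' (Icc M 0 ×ℂ Icc 0 π) ∪
          Metric.closedBall 0 (‖z‖ / 2)) :=
        (hK.image_of_continuousOn (hcont.mono fun ξ e => e.1.2)).isClosed.union
          Metric.isClosed_closedBall
      have hsub : (fun ξ => cis (-(π / n)) * Ψ ξ) '' Hs ⊆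
          (fun ξ => cis (-(π / n)) * Ψ ξ) '' (Icc M 0 ×ℂ Icc 0 π) ∪
            Metric.closedBall 0 (‖z‖ / 2) := by
        rintro _ ⟨ξ, hξ, rfl⟩
        rcases le_total ξ.re M with e | e
        · refine Or.inr (mem_closedBall_zero_iff.2 ?_)
          rw [norm_mul, norm_cis, one_mul]
          exact hM ξ e
        · exact Or.inl ⟨ξ, ⟨⟨e, hξ.1.le⟩, hξ.2.1.le, hξ.2.2.le⟩, rfl⟩
      rcases closure_minimal hsub hcl hz with ⟨ξ, ⟨⟨-, h1⟩, h2, h3⟩, rfl⟩ | e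
      · obtain ⟨t1, t2, t3⟩ := hT
        refine ⟨ξ, ⟨lt_of_le_of_ne h1 fun e => t1.ne (hside ξ e h2 h3),
          lt_of_le_of_ne h2 fun e => ?_, lt_of_le_of_ne h3 fun e => t2.ne (h.im_pi hn h1 e)⟩, rfl⟩
        have h4 := h.im_zero hn h1 e.symm
        rw [hid] at h4
        have h5 := (mul_eq_zero.1 h4).resolve_left hcos.ne'
        simp only at t3
        linarith
      · have := mem_closedBall_zero_iff.1 e
        linarith
  · intro η hη
    have hc : ContinuousOn (fun y : ℝ => (cis (-(π / n)) * Ψ (-η + y * Complex.I)).re)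
        (Icc 0 π) := by
      refine Complex.continuous_re.comp_continuousOn (hcont.comp (by fun_prop) fun y _ => ?_)
      simpa using hη.le
    obtain ⟨y, hy, hmax⟩ := isCompact_Icc.exists_isMaxOn (nonempty_Icc.2 pi_pos.le) hc
    have h1 := hlt (-η + y * Complex.I) (by simpa using hη) (by simpa using hy.1)
      (by simpa using hy.2)
    refine ⟨X - (cis (-(π / n)) * Ψ (-η + y * Complex.I)).re, sub_pos.2 h1, fun ξ hξ e => ?_⟩
    by_contra hcon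
    push Not at hcon
    have h2 := hre ξ (-η + ξ.im * Complex.I) hξ.2.1.le hξ.2.2.le (by simp) (by simpa using hcon)
      (by simpa using hη.le)
    have h3 : (cis (-(π / n)) * Ψ (-η + ξ.im * Complex.I)).re ≤
        (cis (-(π / n)) * Ψ (-η + y * Complex.I)).re := hmax ⟨hξ.2.1.le, hξ.2.2.le⟩
    linarith

end Pool.Agent.PSF
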