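import Pool.Agent.P.MP_7b7370_an.TR2

set_option autoImplicit false

namespace Pool.Agent.PSF

open Real Set MeasureTheory Pool.Agent.PSz Filter Topology

variable {n : ℝ} {Ψ : ℂ → ℂ}

lemma tr3a_par (a b : ℂ) (t : ℝ) : HasDerivAt (fun t : ℝ => a + t * b) b t := by
  simpa using ((Complex.ofRealCLM.hasDerivAt (x := t)).mul_const b).const_add a

lemma tr3a_line (h : IsPsi n Ψ) (c a b : ℂ) {t : ℝ} (ht : (a + t * b).re < 0) :
    HasDerivAt (fun t : ℝ => (c * Ψ (a + t * b)).im) (c * (dPsi n (a + t * b) * b)).im t := by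
  have h1 : HasDerivAt (fun z : ℂ => c * Ψ (a + z * b)) (c * (dPsi n (a + t * b) * b)) (t : ℂ) := by
    have h2 : HasDerivAt (fun z : ℂ => a + z * b) b (t : ℂ) := by
      simpa using ((hasDerivAt_id (t : ℂ)).mul_const b).const_add a
    exact ((h.der _ ht).comp (t : ℂ) h2).const_mul c
  exact Complex.imCLM.hasFDerivAt.comp_hasDerivAt t h1.comp_ofReal

lemma tr3a_cont (h : IsPsi n Ψ) (c a b : ℂ) {S : Set ℝ} (hS : ∀ t ∈ S, (a + t * b).re ≤ 0) :
    ContinuousOn (fun t : ℝ => (c * Ψ (a + t * b)).im) S :=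
  Complex.continuous_im.comp_continuousOn (continuousOn_const.mul
    (h.cont.comp (f := fun t : ℝ => a + t * b) (by fun_prop) hS))

lemma tr3a_lim (hn : 2 < n) (h : IsPsi n Ψ) (c : ℂ) (φ : ℝ) :
    Tendsto (fun t : ℝ => (c * Ψ (φ * Complex.I + t * 1)).im) atBot (𝓝 0) := by
  obtain ⟨C, hC⟩ := h.dec
  have h1 : Tendsto (fun t : ℝ => ‖c‖ * (C * exp (t / n))) atBot (𝓝 (‖c‖ * (C * 0))) :=
    ((tendsto_exp_atBot.comp (tendsto_id.atBot_div_const (by linarith))).const_mul C).const_mul _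
  rw [mul_zero, mul_zero] at h1
  refine squeeze_zero_norm' ?_ h1
  filter_upwards [eventually_le_atBot (0 : ℝ)] with t ht
  have e : (φ * Complex.I + t * 1 : ℂ).re = t := by simp
  have h2 := hC (φ * Complex.I + t * 1) (by rw [e]; exact ht)
  rw [e] at h2
  refine (Complex.abs_im_le_norm _).trans ?_
  rw [norm_mul]
  exact mul_le_mul_of_nonneg_left h2 (norm_nonneg _)

lemma tr3a_nonneg (hn : 2 < n) (h : IsPsi n Ψ) (c : ℂ) (φ : ℝ)
    (hd : ∀ ξ : ℂ, ξ.re < 0 → ξ.im = φ → 0 ≤ (c * dPsi n ξ).im) {x : ℝ} (hx : x ≤ 0) :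
    0 ≤ (c * Ψ (φ * Complex.I + x * 1)).im := by
  have hm : MonotoneOn (fun t : ℝ => (c * Ψ (φ * Complex.I + t * 1)).im) (Iic 0) := by
    refine monotoneOn_of_hasDerivWithinAt_nonneg (convex_Iic 0)
      (f' := fun t => (c * (dPsi n (φ * Complex.I + t * 1) * 1)).im)
      (tr3a_cont h c _ _ fun t ht => by simpa using ht) (fun t ht => ?_) fun t ht => ?_
    · rw [interior_Iic] at ht
      exact (tr3a_line h c _ _ (by simpa using ht)).hasDerivWithinAt
    · rw [interior_Iic] at ht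
      rw [mul_one]
      exact hd _ (by simpa using ht) (by simp)
  refine le_of_tendsto (tr3a_lim hn h c φ) ?_
  filter_upwards [eventually_le_atBot x] with t ht
  exact hm (ht.trans hx) hx ht

lemma tr3a_zero (hn : 2 < n) (h : IsPsi n Ψ) (c : ℂ) {ξ : ℂ} (h0 : ξ.re ≤ 0)
    (hd : ∀ ζ : ℂ, ζ.re < 0 → ζ.im = ξ.im → (c * dPsi n ζ).im = 0) : (c * Ψ ξ).im = 0 := by
  have e : (ξ.im * Complex.I + ξ.re * 1 : ℂ) = ξ := by
    rw [mul_one, add_comm, Complex.re_add_im]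
  have h1 := tr3a_nonneg hn h c ξ.im (fun ζ a b => (hd ζ a b).ge) h0
  have h2 := tr3a_nonneg hn h (-c) ξ.im
    (fun ζ a b => by rw [neg_mul, Complex.neg_im, hd ζ a b, neg_zero]) h0
  rw [e] at h1 h2
  rw [neg_mul, Complex.neg_im] at h2
  linarith

theorem IsPsi.im_zero (hn : 2 < n) (h : IsPsi n Ψ) {ξ : ℂ} (h0 : ξ.re ≤ 0) (h1 : ξ.im = 0) :
    (Ψ ξ).im = 0 := by
  have := tr3a_zero hn h 1 h0 fun ζ a b => by
    rw [one_mul]
    exact dPsi_im_zero a (b.trans h1)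
  rwa [one_mul] at this

theorem IsPsi.im_pi (hn : 2 < n) (h : IsPsi n Ψ) {ξ : ℂ} (h0 : ξ.re ≤ 0) (h1 : ξ.im = π) :
    (cis (-(π / n)) * Ψ ξ).im = 0 :=
  tr3a_zero hn h _ h0 fun ζ a b => dPsi_im_pi (by linarith) a (b.trans h1)

lemma tr3a_Hs : Hs = Iio 0 ×ℂ Ioo 0 π := rfl

lemma tr3a_convex : Convex ℝ Hs := by
  rw [tr3a_Hs]
  exact ((convex_Iio 0).is_linear_preimage Complex.reLm.isLinear).inter
    ((convex_Ioo 0 π).is_linear_preimage Complex.imLm.isLinear)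

lemma tr3a_closure : closure Hs = Iic 0 ×ℂ Icc 0 π := by
  rw [tr3a_Hs, Complex.closure_reProdIm, closure_Iio, closure_Ioo pi_pos.ne]

lemma tr3a_bd (h : IsPsi n Ψ) (c : ℂ) {t : ℝ} (ht : t ∈ Ioo 0 π) :
    HasDerivAt (fun t : ℝ => (c * Ψ (0 + t * Complex.I)).im)
      (c * (dPsi n (0 + t * Complex.I) * Complex.I)).im t := by
  have hf : ∀ y ∈ Hs, HasFDerivAt Ψ (dPsi n y • (1 : ℂ →L[ℝ] ℂ)) y := fun y hy =>
    (h.der y hy.1).complexToReal_fderiv
  have hc : ContinuousWithinAt (dPsi n) Hs (0 + t * Complex.I) :=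
    (continuousOn_dPsi n _ ⟨by simp, by simpa using ht.1, by simpa using ht.2⟩).mono
      fun y hy => ⟨hy.1.le, hy.2⟩
  have h1 : HasFDerivWithinAt Ψ (dPsi n (0 + t * Complex.I) • (1 : ℂ →L[ℝ] ℂ)) (closure Hs)
      (0 + t * Complex.I) := by
    refine hasFDerivWithinAt_closure_of_tendsto_fderiv
      (fun y hy => (hf y hy).differentiableAt.differentiableWithinAt) tr3a_convex isOpen_Hs
      (fun y hy => ?_) ?_
    · rw [tr3a_closure] at hy
      exact (h.cont y hy.1).mono fun z hz => hz.1.le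
    · refine (hc.tendsto.smul_const (1 : ℂ →L[ℝ] ℂ)).congr' ?_
      filter_upwards [self_mem_nhdsWithin] with y hy
      exact (hf y hy).fderiv.symm
  have h2 := h1.comp_hasDerivWithinAt t (tr3a_par 0 Complex.I t).hasDerivWithinAt (s := Ioo 0 π)
    (fun s hs => by
      rw [tr3a_closure]
      exact ⟨by simp, by simpa using hs.1.le, by simpa using hs.2.le⟩)
  have h3 := (h2.hasDerivAt (isOpen_Ioo.mem_nhds ht)).const_mul c
  exact Complex.imCLM.hasFDerivAt.comp_hasDerivAt t h3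

theorem IsPsi.side (hn : 2 < n) (h : IsPsi n Ψ) : ∃ X : ℝ, 0 < X ∧
    ∀ ξ : ℂ, ξ.re = 0 → 0 ≤ ξ.im → ξ.im ≤ π → (cis (-(π / n)) * Ψ ξ).re = X := by
  have e : ∀ w : ℂ, (Complex.I * cis (-(π / n)) * w).im = (cis (-(π / n)) * w).re := fun w => by
    rw [mul_assoc, Complex.I_mul_im]
  have key : ∀ a b : ℝ, 0 ≤ a → a < b → b ≤ π →
      (cis (-(π / n)) * Ψ (0 + b * Complex.I)).re = (cis (-(π / n)) * Ψ (0 + a * Complex.I)).re := by
    intro a b ha hab hb
    obtain ⟨c, hc, hc'⟩ := exists_hasDerivAt_eq_slope _ _ hab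
      (tr3a_cont h (Complex.I * cis (-(π / n))) 0 Complex.I (S := Icc a b) fun t _ => by simp)
      fun t ht => tr3a_bd h (Complex.I * cis (-(π / n))) ⟨ha.trans_lt ht.1, ht.2.trans_le hb⟩
    have h1 := dPsi_side (n := n) (ξ := 0 + c * Complex.I) (by linarith) (by simp)
      (by simpa using ha.trans_lt hc.1) (by simpa using hc.2.trans_le hb)
    rw [e, e, e, ← mul_assoc, Complex.mul_I_re, h1, neg_zero, eq_comm,
      div_eq_zero_iff, sub_eq_zero] at hc'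
    exact hc'.resolve_right (by linarith)
  refine ⟨(cis (-(π / n)) * Ψ (0 + (0 : ℝ) * Complex.I)).re, ?_, fun ξ h0 h1 h2 => ?_⟩
  · obtain ⟨c, hc, hc'⟩ := exists_hasDerivAt_eq_slope _ _ (show (-1 : ℝ) < 0 by norm_num)
      (tr3a_cont h (Complex.I * cis (-(π / n))) ((0 : ℝ) * Complex.I) 1 (S := Icc (-1) 0)
        fun t ht => by simpa using ht.2)
      fun t ht => tr3a_line h (Complex.I * cis (-(π / n))) _ _ (by simpa using ht.2)
    have h1 := tr3a_nonneg hn h (Complex.I * cis (-(π / n))) 0 (fun ζ a b => by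
      rw [e]
      exact (dPsi_re_pos hn a b.ge (b.le.trans pi_pos.le)).le) (show (-1 : ℝ) ≤ 0 by norm_num)
    have h2 := dPsi_re_pos hn (ξ := (0 : ℝ) * Complex.I + c * 1) (by simpa using hc.2) (by simp)
      (by simpa using pi_pos.le)
    rw [e] at h1
    rw [e, e, e, mul_one (dPsi _ _)] at hc'
    have e2 : ((0 : ℝ) * Complex.I + (0 : ℝ) * 1 : ℂ) = 0 + (0 : ℝ) * Complex.I := by simp
    rw [e2] at hc'
    rw [hc'] at h2
    linarith
  · have e2 : ξ = 0 + ξ.im * Complex.I := by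
      apply Complex.ext <;> simp [h0]
    rw [e2]
    rcases h1.eq_or_lt with h3 | h3
    · rw [← h3]
    · exact key 0 _ le_rfl h3 h2

theorem IsPsi.inj (hn : 2 < n) (h : IsPsi n Ψ) : InjOn Ψ Hs := by
  intro x hx y hy hxy
  by_contra hne
  have hd : y - x ≠ 0 := sub_ne_zero.2 (Ne.symm hne)
  have hm : ∀ t ∈ Icc (0 : ℝ) 1, x + t * (y - x) ∈ Hs := fun t ht =>
    tr3a_convex.add_smul_sub_mem hx hy ht
  obtain ⟨c, hc, hc'⟩ := exists_hasDerivAt_eq_slope _ _ (zero_lt_one' ℝ)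
    (tr3a_cont h (y - x)⁻¹ x (y - x) (S := Icc 0 1) fun t ht => (hm t ht).1.le)
    fun t ht => tr3a_line h (y - x)⁻¹ x (y - x) (hm t (Ioo_subset_Icc_self ht)).1
  have h1 := dPsi_im_pos hn (hm c (Ioo_subset_Icc_self hc))
  rw [mul_comm (dPsi _ _), inv_mul_cancel_left₀ hd] at hc'
  rw [hc'] at h1
  simp [hxy] at h1

end Pool.Agent.PSF
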