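import Pool.Agent.P.MP_7b7370_an.TR4b

set_option autoImplicit false

namespace Pool.Agent.PSF

open Real Set MeasureTheory Pool.Agent.PSz

/-- the smaller triangle -/
def tr5_T (X t η : ℝ) : Set ℂ := {w | w.re < X ∧ w.im < -η ∧ η < w.im + t * w.re}

lemma tr5_open (X t η : ℝ) : IsOpen (tr5_T X t η) :=
  (isOpen_lt Complex.continuous_re continuous_const).inter
    ((isOpen_lt Complex.continuous_im continuous_const).inter
      (isOpen_lt continuous_const (g := fun w : ℂ => w.im + t * w.re) (by fun_prop)))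

lemma tr5_sub {X t η : ℝ} (hη : 0 ≤ η) : tr5_T X t η ⊆ Tr X t := by
  rintro w ⟨h1, h2, h3⟩
  exact ⟨h1, by linarith, by linarith⟩

lemma tr5_cut {X t η : ℝ} (hη : 0 < η) {u : ℂ → ℝ} (hu : ContDiffOn ℝ 1 u (Tr X t)) {δ : ℝ}
    (hδ : 0 < δ) (h0 : ∀ z ∈ Tr X t, X - δ ≤ z.re → u z = 0) :
    ∃ G : ℂ → ℝ, ContDiff ℝ 1 G ∧ (∀ w, X - δ ≤ w.re → G w = 0) ∧ EqOn G u (tr5_T X t η) := by
  have hz : ∀ w : ℂ, X - δ ≤ w.re → (Tr X t).indicator u w = 0 := by
    intro w hw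
    by_cases h : w ∈ Tr X t
    · rw [indicator_of_mem h, h0 w h hw]
    · rw [indicator_of_notMem h]
  have hre : ContDiff ℝ 1 fun w : ℂ => w.re := Complex.reCLM.contDiff
  have him : ContDiff ℝ 1 fun w : ℂ => w.im := Complex.imCLM.contDiff
  have c1 : ContDiff ℝ 1 fun w : ℂ => smoothTransition (2 / η * (-w.im) - 1) :=
    smoothTransition.contDiff.comp ((contDiff_const.mul him.neg).sub contDiff_const)
  have c2 : ContDiff ℝ 1 fun w : ℂ => smoothTransition (2 / η * (w.im + t * w.re) - 1) :=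
    smoothTransition.contDiff.comp
      ((contDiff_const.mul (him.add (contDiff_const.mul hre))).sub contDiff_const)
  have lo : ∀ a : ℝ, a < η / 2 → smoothTransition (2 / η * a - 1) = 0 := by
    intro a ha
    refine smoothTransition.zero_of_nonpos ?_
    rw [sub_nonpos, div_mul_eq_mul_div, div_le_one hη]
    linarith
  have hi : ∀ a : ℝ, η < a → smoothTransition (2 / η * a - 1) = 1 := by
    intro a ha
    refine smoothTransition.one_of_one_le ?_
    rw [le_sub_iff_add_le, div_mul_eq_mul_div, le_div_iff₀ hη]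
    linarith
  refine ⟨fun w => smoothTransition (2 / η * (-w.im) - 1) *
    smoothTransition (2 / η * (w.im + t * w.re) - 1) * (Tr X t).indicator u w, ?_, ?_, ?_⟩
  · rw [contDiff_iff_contDiffAt]
    intro w
    by_cases h1 : w ∈ Tr X t
    · have hn := (isOpen_Tr X t).mem_nhds h1
      refine (c1.mul c2).contDiffAt.mul ((hu.contDiffAt hn).congr_of_eventuallyEq ?_)
      filter_upwards [hn] with z hz using indicator_of_mem hz _
    refine (contDiffAt_const (c := (0 : ℝ))).congr_of_eventuallyEq ?_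
    by_cases h2 : -w.im < η / 2
    · have ho : IsOpen {z : ℂ | -z.im < η / 2} := isOpen_lt (by fun_prop) continuous_const
      filter_upwards [ho.mem_nhds h2] with z hz
      rw [lo _ hz, zero_mul, zero_mul]
    by_cases h3 : w.im + t * w.re < η / 2
    · have ho : IsOpen {z : ℂ | z.im + t * z.re < η / 2} :=
        isOpen_lt (by fun_prop) continuous_const
      filter_upwards [ho.mem_nhds h3] with z hz
      rw [lo _ hz, mul_zero, zero_mul]
    have h4 : X - δ < w.re := by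
      by_contra h5
      exact h1 ⟨by linarith [not_lt.1 h5], by linarith [not_lt.1 h2], by linarith [not_lt.1 h3]⟩
    have ho : IsOpen {z : ℂ | X - δ < z.re} := isOpen_lt continuous_const Complex.continuous_re
    filter_upwards [ho.mem_nhds h4] with z hz'
    rw [hz z (le_of_lt hz'), mul_zero]
  · intro w hw
    simp only [hz w hw, mul_zero]
  · intro w hw
    have h1 : η < -w.im := by linarith [hw.2.1]
    simp only [hi _ h1, hi _ hw.2.2, one_mul, indicator_of_mem (tr5_sub hη.le hw)]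

lemma tr5_pre {X t l : ℝ} (hl : 0 < l) (hα : (l : ℂ) ≠ 0) (z : ℂ) :
    Fi.sim (l : ℂ) ⟨(1 - l) * X, -((1 - l) * (t * X / 2))⟩ hα z ∈
      tr5_T X t ((1 - l) * (t * X / 2)) ↔ z ∈ Tr X t := by
  simp only [tr5_T, Tr, mem_ofPred_eq, Fi.sim_apply, Complex.add_re, Complex.add_im,
    Complex.re_ofReal_mul, Complex.im_ofReal_mul]
  refine and_congr ?_ (and_congr ?_ ?_)
  · rw [← mul_lt_mul_iff_right₀ hl (b := z.re) (c := X)]
    constructor <;> intro h <;> linarith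
  · rw [← mul_lt_mul_iff_right₀ hl (b := z.im) (c := 0)]
    constructor <;> intro h <;> linarith
  · rw [← mul_lt_mul_iff_right₀ hl (b := -(t * z.re)) (c := z.im)]
    constructor <;> intro h <;> linarith

lemma tr5_int {X t l : ℝ} (hl : 0 < l) (hα : (l : ℂ) ≠ 0) (g : ℂ → ℝ) :
    ∫ z in Tr X t, g (Fi.sim (l : ℂ) ⟨(1 - l) * X, -((1 - l) * (t * X / 2))⟩ hα z) =
      (l ^ 2)⁻¹ * ∫ w in tr5_T X t ((1 - l) * (t * X / 2)), g w := by
  have h := Fi.integral_sim (β := ⟨(1 - l) * X, -((1 - l) * (t * X / 2))⟩) hα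
    ((tr5_T X t ((1 - l) * (t * X / 2))).indicator g)
  rw [integral_indicator (tr5_open _ _ _).measurableSet, Complex.norm_real, Real.norm_eq_abs,
    sq_abs] at h
  rw [← h, ← integral_indicator (isOpen_Tr X t).measurableSet]
  congr 1
  funext z
  by_cases hz : z ∈ Tr X t
  · rw [indicator_of_mem hz, indicator_of_mem ((tr5_pre hl hα z).2 hz)]
  · rw [indicator_of_notMem hz, indicator_of_notMem fun h => hz ((tr5_pre hl hα z).1 h)]

lemma tr5_lim {X t c : ℝ} (hc : 0 < c) {g : ℂ → ℝ} (hg : IntegrableOn g (Tr X t)) :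
    Filter.Tendsto (fun n : ℕ => ∫ w in tr5_T X t (1 / ((n : ℝ) + 2) * c), g w) Filter.atTop
      (nhds (∫ w in Tr X t, g w)) := by
  have hU : ⋃ n : ℕ, tr5_T X t (1 / ((n : ℝ) + 2) * c) = Tr X t := by
    refine Subset.antisymm (iUnion_subset fun n => tr5_sub (by positivity)) ?_
    rintro w ⟨h1, h2, h3⟩
    have hm : 0 < min (-w.im) (w.im + t * w.re) := lt_min (by linarith) (by linarith)
    obtain ⟨n, hn⟩ := exists_nat_gt (c / min (-w.im) (w.im + t * w.re))
    have h4 : 1 / ((n : ℝ) + 2) * c < min (-w.im) (w.im + t * w.re) := by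
      rw [div_lt_iff₀ hm] at hn
      rw [one_div, inv_mul_lt_iff₀ (by positivity)]
      nlinarith
    rw [lt_min_iff] at h4
    exact mem_iUnion.2 ⟨n, h1, by linarith [h4.1], h4.2⟩
  have h := tendsto_setIntegral_of_monotone (μ := volume) (f := g)
    (s := fun n : ℕ => tr5_T X t (1 / ((n : ℝ) + 2) * c))
    (fun n => (tr5_open _ _ _).measurableSet) (by
      intro i j hij w hw
      have h1 : (i : ℝ) ≤ j := by exact_mod_cast hij
      have h2 : 1 / ((j : ℝ) + 2) * c ≤ 1 / ((i : ℝ) + 2) * c := by gcongr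
      exact ⟨hw.1, by linarith [hw.2.1], by linarith [hw.2.2]⟩) (by rw [hU]; exact hg)
  rwa [hU] at h

/-- shrink towards the midpoint of the side `re = X` and cut off outside the triangle -/
theorem shrink {X t τ : ℝ} (hX : 0 < X) (ht : 0 < t) (hτ : 0 ≤ τ) {u : ℂ → ℝ}
    (hu : ContDiffOn ℝ 1 u (Tr X t)) {δ : ℝ} (hδ : 0 < δ)
    (h0 : ∀ z ∈ Tr X t, X - δ ≤ z.re → u z = 0)
    (i1 : IntegrableOn (fun z => ‖fderiv ℝ u z‖ ^ 2) (Tr X t))
    (i2 : IntegrableOn (fun z => u z ^ 2) (Tr X t))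
    (hQ : ∫ z in Tr X t, ‖fderiv ℝ u z‖ ^ 2 < τ * ∫ z in Tr X t, u z ^ 2) :
    ∃ F, Tt X F ∧ ∫ z in Tr X t, ‖fderiv ℝ F z‖ ^ 2 < τ * ∫ z in Tr X t, F z ^ 2 := by
  have hc : 0 < t * X / 2 := by positivity
  obtain ⟨n, hn⟩ := (((tr5_lim hc i2).const_mul τ).eventually (lt_mem_nhds hQ)).exists
  obtain ⟨l, hl, hl1, e⟩ : ∃ l : ℝ, 0 < l ∧ l < 1 ∧ 1 / ((n : ℝ) + 2) = 1 - l := by
    have h1 : (0 : ℝ) < 1 / ((n : ℝ) + 2) := by positivity
    have h2 : 1 / ((n : ℝ) + 2) < 1 := by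
      rw [div_lt_one (by positivity)]
      have : (0 : ℝ) ≤ n := Nat.cast_nonneg n
      linarith
    exact ⟨1 - 1 / ((n : ℝ) + 2), by linarith, by linarith, by ring⟩
  rw [e] at hn
  have hη : 0 < (1 - l) * (t * X / 2) := mul_pos (by linarith) hc
  have hα : (l : ℂ) ≠ 0 := by exact_mod_cast hl.ne'
  obtain ⟨G, hG, hG0, hGu⟩ := tr5_cut hη hu hδ h0
  have hT := tr5_open X t ((1 - l) * (t * X / 2))
  refine ⟨G ∘ Fi.sim (l : ℂ) ⟨(1 - l) * X, -((1 - l) * (t * X / 2))⟩ hα,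
    ⟨hG.comp (Fi.contDiff_sim hα), δ, hδ, fun z hz => hG0 _ ?_⟩, ?_⟩
  · simp only [Fi.sim_apply, Complex.add_re, Complex.re_ofReal_mul]
    nlinarith
  have hl2 : 0 < l ^ 2 := by positivity
  have e1 : ∫ z in Tr X t,
      ‖fderiv ℝ (G ∘ Fi.sim (l : ℂ) ⟨(1 - l) * X, -((1 - l) * (t * X / 2))⟩ hα) z‖ ^ 2 =
      ∫ w in tr5_T X t ((1 - l) * (t * X / 2)), ‖fderiv ℝ u w‖ ^ 2 := by
    simp only [Fi.norm_fderiv_sim hα hG]
    rw [integral_const_mul, tr5_int hl hα (fun w => ‖fderiv ℝ G w‖ ^ 2), Complex.norm_real,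
      Real.norm_eq_abs, sq_abs, ← mul_assoc, mul_inv_cancel₀ hl2.ne', one_mul]
    refine setIntegral_congr_fun hT.measurableSet fun w hw => ?_
    have : G =ᶠ[nhds w] u := hGu.eventuallyEq_of_mem (hT.mem_nhds hw)
    simp only [this.fderiv_eq]
  have e2 : ∫ z in Tr X t,
      (G ∘ Fi.sim (l : ℂ) ⟨(1 - l) * X, -((1 - l) * (t * X / 2))⟩ hα) z ^ 2 =
      (l ^ 2)⁻¹ * ∫ w in tr5_T X t ((1 - l) * (t * X / 2)), u w ^ 2 := by
    simp only [Function.comp_apply]
    rw [tr5_int hl hα (fun w => G w ^ 2)]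
    congr 1
    refine setIntegral_congr_fun hT.measurableSet fun w hw => ?_
    simp only [hGu hw]
  rw [e1, e2]
  have h1 : ∫ w in tr5_T X t ((1 - l) * (t * X / 2)), ‖fderiv ℝ u w‖ ^ 2 ≤
      ∫ w in Tr X t, ‖fderiv ℝ u w‖ ^ 2 :=
    setIntegral_mono_set i1 (Filter.Eventually.of_forall fun w => sq_nonneg _)
      (tr5_sub hη.le).eventuallyLE
  have h2 : 0 ≤ ∫ w in tr5_T X t ((1 - l) * (t * X / 2)), u w ^ 2 :=
    integral_nonneg fun w => sq_nonneg _
  have h3 : 1 ≤ (l ^ 2)⁻¹ := (one_le_inv₀ hl2).2 (by nlinarith)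
  exact (h1.trans_lt hn).trans_le
    (mul_le_mul_of_nonneg_left (le_mul_of_one_le_left h2 h3) hτ)

end Pool.Agent.PSF
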