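import Pool.Agent.P.MP_7b7370_an.TR1
import Pool.Agent.P.MP_7b7370_an.TR3
import Pool.Agent.P.MP_7b7370_an.TR4a
import Pool.Agent.P.MP_7b7370_an.TR5
import Pool.Agent.P.MP_7b7370_an.FLam

set_option autoImplicit false

namespace Pool.Agent.PSF

open Real Set MeasureTheory Pool.Agent.PSz

lemma tr4_meas : MeasurableSet Pi0 := measurableSet_Ioi.prod measurableSet_Ioo

lemma tr4_transfer {n : ℝ} (hn : 0 < n) {T : Set ℂ} {Φ Φ' : ℂ → ℂ}
    (hd : ∀ ξ ∈ Hs, HasDerivAt Φ (Φ' ξ) ξ) (hb : BijOn Φ Hs T) (G : ℂ → ℝ) (g : ℝ × ℝ → ℝ)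
    (h : ∀ p ∈ Pi0, ‖Φ' (xi n p)‖ ^ 2 * G (Φ (xi n p)) = g p / n ^ 2) :
    ∫ z in T, G z = (∫ p in Pi0, g p) / n ∧ (IntegrableOn g Pi0 → IntegrableOn G T) := by
  constructor
  · rw [conf_integral isOpen_Hs hd hb G, integral_Hs hn, setIntegral_congr_fun tr4_meas h,
      integral_div]
    field_simp
  · intro hg
    rw [conf_integrable isOpen_Hs hd hb G, integrable_Hs hn]
    exact (integrableOn_congr_fun h tr4_meas).2 (hg.div_const _)

/-- the model describes the right triangle with angle `π / n` -/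
theorem model_tri {n : ℝ} (hn : 2 < n) : ∃ X : ℝ, 0 < X ∧ An n = n * X ^ 2 * tan (π / n) ∧
    ∀ (V : ℝ × ℝ → ℝ) (τ : ℝ), Adm V → 0 ≤ τ → Dn n V < τ * Bn n V →
      ∃ F, Tt X F ∧ ∫ z in Tr X (tan (π / n)), ‖fderiv ℝ F z‖ ^ 2
        < τ * ∫ z in Tr X (tan (π / n)), F z ^ 2 := by
  have hn0 : 0 < n := by linarith
  obtain ⟨Ψ, hΨ⟩ := exists_Psi hn
  obtain ⟨X, hX, hb, hδ⟩ := hΨ.bij hn
  have ht : 0 < tan (π / n) := by
    apply tan_pos_of_pos_of_lt_pi_div_two (by positivity)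
    exact div_lt_div_of_pos_left pi_pos (by norm_num) hn
  have hd : ∀ ξ ∈ Hs, HasDerivAt (fun ξ => cis (-(π / n)) * Ψ ξ)
      ((fun ξ => cis (-(π / n)) * dPsi n ξ) ξ) ξ :=
    fun ξ hξ => (hΨ.der ξ hξ.1).const_mul _
  have hc : cis (-(π / n)) ≠ 0 := by
    intro h
    have := norm_cis (-(π / n))
    rw [h, norm_zero] at this
    exact zero_ne_one this
  have hne : ∀ ξ ∈ Hs, (fun ξ => cis (-(π / n)) * dPsi n ξ) ξ ≠ 0 :=
    fun ξ hξ => mul_ne_zero hc (dPsi_ne hn0 hξ.1)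
  have hnorm : ∀ p ∈ Pi0, ‖cis (-(π / n)) * dPsi n (xi n p)‖ ^ 2 = om n p / n ^ 2 := by
    intro p hp
    rw [norm_mul, norm_cis, one_mul, dPsi_norm hn0 hp.1]
  refine ⟨X, hX, ?_, fun V τ hV hτ hQ => ?_⟩
  · have h := (tr4_transfer hn0 hd hb (fun _ => 1) (om n) (fun p hp => by
      rw [mul_one]; exact hnorm p hp)).1
    rw [setIntegral_const, smul_eq_mul, mul_one, Measure.real, vol_Tr hX ht,
      eq_div_iff hn0.ne'] at h
    rw [An, ← h]
    ring
  · have hW : ContDiff ℝ 1 (fun ξ => V (xinv n ξ)) := hV.c1.comp (contDiff_xinv n)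
    obtain ⟨u, hu, huW⟩ := conf_inv isOpen_Hs hd hne hb hW
    obtain ⟨η, hη, hz⟩ := hV.zero
    obtain ⟨δ, hδ0, hδ1⟩ := hδ (n * η) (by positivity)
    have h2 := tr4_transfer hn0 hd hb (fun z => u z ^ 2) (fun p => om n p * V p ^ 2)
      (fun p hp => by
        rw [hnorm p hp, huW _ ((xi_mem hn0 p).2 hp), xinv_xi hn0]
        ring)
    have h1 := tr4_transfer hn0 hd hb (fun z => ‖fderiv ℝ u z‖ ^ 2)
      (fun p => dx V p ^ 2 + n ^ 2 * dy V p ^ 2) (fun p hp => by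
        have hξ := (xi_mem hn0 p).2 hp
        have hud : DifferentiableAt ℝ u (cis (-(π / n)) * Ψ (xi n p)) :=
          (hu.contDiffAt ((isOpen_Tr _ _).mem_nhds (hb.mapsTo hξ))).differentiableAt one_ne_zero
        have e1 := conf_grad (Φ := fun ξ => cis (-(π / n)) * Ψ ξ)
          (Φ' := fun ξ => cis (-(π / n)) * dPsi n ξ) (hd _ hξ) hud
        have e2 : (fun ξ => u (cis (-(π / n)) * Ψ ξ)) =ᶠ[nhds (xi n p)] fun ξ => V (xinv n ξ) :=
          Filter.eventually_of_mem (isOpen_Hs.mem_nhds hξ) fun ξ h => huW ξ h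
        have e3 := grad_xi (n := n) (p := p) (hW.differentiable one_ne_zero (xi n p))
        have e4 : (fun p => V (xinv n (xi n p))) = V := by
          funext q; rw [xinv_xi hn0]
        rw [e4] at e3
        rw [← e1, e2.fderiv_eq, e3]
        field_simp)
    refine shrink hX ht hτ hu hδ0 (fun z hz1 hz2 => ?_)
      (h1.2 (hV.int_dx.add (hV.int_dy.const_mul _))) (h2.2 (hV.int_B hn)) ?_
    · obtain ⟨ξ, hξ, rfl⟩ := hb.surjOn hz1
      rw [huW ξ hξ]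
      apply hz
      have := hδ1 ξ hξ hz2
      change -ξ.re / n ≤ η
      rw [div_le_iff₀ hn0]
      linarith
    · rw [h1.1, h2.1, ← mul_div_assoc]
      exact div_lt_div_of_pos_right hQ hn0

end Pool.Agent.PSF
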