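import Pool.Agent.P.MP_7b7370_an.TR4b
import Pool.Agent.P.MP_7b7370_an.Upper

set_option autoImplicit false

namespace Pool.Agent.PSF

open Real Set MeasureTheory Pool.Agent.PSz

theorem tr6_iff {a : ℝ} (hc : 0 < cos a) (x y : ℝ) :
    -(tan a * x) < y ↔ 0 < y * cos a + x * sin a := by
  rw [tan_eq_sin_div_cos, div_mul_eq_mul_div, ← neg_div, div_lt_iff₀ hc]
  constructor <;> intro h <;> linarith

theorem tr6_ball {a X : ℝ} (hs : 0 < sin a) (hc : 0 < cos a) :
    Tr X (tan a) ⊆ Metric.ball 0 (X / cos a + 2) := by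
  rintro z ⟨h1, h2, h3⟩
  rw [tr6_iff hc] at h3
  have h4 : 0 < -z.im * cos a := mul_pos (by linarith) hc
  have h5 : 0 < z.re := (mul_pos_iff_of_pos_right hs).1 (by linarith)
  have h6 : z.re * sin a ≤ X * sin a := mul_le_mul_of_nonneg_right h1.le hs.le
  have h7 : z.re * cos a ≤ X * cos a := mul_le_mul_of_nonneg_right h1.le hc.le
  have h8 : (-z.im * cos a) ^ 2 ≤ (X * sin a) ^ 2 := pow_le_pow_left₀ h4.le (by linarith) 2
  have h9 : (z.re * cos a) ^ 2 ≤ (X * cos a) ^ 2 := pow_le_pow_left₀ (by positivity) h7 2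
  have e : ‖z‖ ^ 2 = z.re * z.re + z.im * z.im := by rw [Complex.sq_norm, Complex.normSq_apply]
  have e2 : (‖z‖ * cos a) ^ 2 ≤ X ^ 2 := by
    have : X ^ 2 = (X * sin a) ^ 2 + (X * cos a) ^ 2 := by
      linear_combination (-X ^ 2) * sin_sq_add_cos_sq a
    rw [mul_pow, e, this]
    linarith
  have e3 : ‖z‖ * cos a ≤ X := (abs_le_of_sq_le_sq' e2 (by linarith)).2
  rw [mem_ball_zero_iff]
  have := (le_div_iff₀ hc).2 e3
  linarith

theorem tr6_polar {a X R : ℝ} (ha : 0 < a) (ha2 : a < π / 2) (hR : 0 ≤ R)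
    (hsub : Tr X (tan a) ⊆ Metric.ball 0 R) {q : ℂ → ℝ} (hq : Continuous q)
    (h0 : ∀ z : ℂ, X ≤ z.re → q z = 0) :
    ∫ z in Tr X (tan a), q z = ∫ θ in (0 : ℝ)..a, ∫ r in (0 : ℝ)..R, q (pol r (-θ)) * r := by
  have hc : 0 < cos a := cos_pos_of_mem_Ioo ⟨by linarith, ha2⟩
  have hm : MeasurableSet (Tr X (tan a)) := (isOpen_Tr _ _).measurableSet
  have e1 : ∫ z in Tr X (tan a), q z = ∫ z in Metric.ball (0 : ℂ) R, (Tr X (tan a)).indicator q z := by
    rw [setIntegral_indicator hm, inter_eq_right.2 hsub]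
  rw [e1, Pol.integral_ball' (hq.measurable.indicator hm) hR
    ((Pol.integrableOn_ball hq 0 R).indicator hm)]
  have e2 : ∀ θ ∈ Ioo (-π) π, ∫ r in (0 : ℝ)..R, (Tr X (tan a)).indicator q (pol r θ) * r =
      (Ioo (-a) 0).indicator (fun θ => ∫ r in (0 : ℝ)..R, q (pol r θ) * r) θ := by
    intro θ hθ
    have sa : ∀ r : ℝ, r * sin θ * cos a + r * cos θ * sin a = r * sin (θ + a) := fun r => by
      rw [sin_add]
      ring
    by_cases h : θ ∈ Ioo (-a) 0
    · rw [indicator_of_mem h]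
      refine intervalIntegral.integral_congr_ae (Filter.Eventually.of_forall fun r hr => ?_)
      rw [uIoc_of_le hR] at hr
      by_cases hx : (pol r θ).re < X
      · rw [indicator_of_mem]
        refine ⟨hx, ?_, ?_⟩
        · rw [pol_im]
          exact mul_neg_of_pos_of_neg hr.1 (sin_neg_of_neg_of_neg_pi_lt h.2 hθ.1)
        · rw [tr6_iff hc, pol_re, pol_im, sa]
          exact mul_pos hr.1 (sin_pos_of_pos_of_lt_pi (by linarith [h.1])
            (by linarith [h.2, pi_pos]))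
      · rw [indicator_of_notMem (fun hh => hx hh.1), h0 _ (not_lt.1 hx)]
    · rw [indicator_of_notMem h]
      refine (intervalIntegral.integral_congr_ae (g := fun _ => 0)
        (Filter.Eventually.of_forall fun r hr => ?_)).trans (by simp)
      rw [uIoc_of_le hR] at hr
      rw [indicator_of_notMem, zero_mul]
      rintro ⟨-, h2, h3⟩
      rw [tr6_iff hc, pol_re, pol_im, sa] at h3
      rw [pol_im] at h2
      refine h ⟨?_, ?_⟩
      · by_contra h4
        have h5 := sin_nonpos_of_nonpos_of_neg_pi_le (x := θ + a) (by linarith [not_lt.1 h4])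
          (by linarith [hθ.1])
        have := mul_nonpos_of_nonneg_of_nonpos hr.1.le h5
        linarith
      · by_contra h4
        have h5 := sin_nonneg_of_nonneg_of_le_pi (not_lt.1 h4) hθ.2.le
        have := mul_nonneg hr.1.le h5
        linarith
  rw [intervalIntegral.integral_of_le (by linarith [pi_pos]), integral_Ioc_eq_integral_Ioo,
    setIntegral_congr_fun measurableSet_Ioo e2, setIntegral_indicator measurableSet_Ioo,
    inter_eq_right.2 (Ioo_subset_Ioo (by linarith [pi_pos]) pi_pos.le),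
    ← integral_Ioc_eq_integral_Ioo, ← intervalIntegral.integral_of_le (by linarith)]
  have i6 := intervalIntegral.integral_comp_neg (a := 0) (b := a)
    fun θ => ∫ r in (0 : ℝ)..R, q (pol r θ) * r
  rw [neg_zero] at i6
  exact i6.symm

/-- folding (use `Pool.Agent.PSz.Up.fold` with `s = -1`) -/
theorem fold_tri {N : ℕ} (hN : 3 ≤ N) {X τ : ℝ} (hX : 0 < X) {F : ℂ → ℝ} (hF : Tt X F)
    (hQ : ∫ z in Tr X (tan (π / N)), ‖fderiv ℝ F z‖ ^ 2
      < τ * ∫ z in Tr X (tan (π / N)), F z ^ 2) :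
    ∃ f, Tst (KN N X) f ∧ en f < τ * ma f := by
  obtain ⟨hF, δ, hδ, h0⟩ := hF
  obtain ⟨ha, ha2, hc⟩ := Up.cos_pos hN
  have hs : 0 < sin (π / N) := sin_pos_of_pos_of_lt_pi ha (by linarith [pi_pos])
  have hsub := tr6_ball (X := X) hs hc
  have c1 : Continuous fun z => ‖fderiv ℝ F z‖ ^ 2 :=
    (hF.continuous_fderiv one_ne_zero).norm.pow 2
  have c2 : Continuous fun z => F z ^ 2 := hF.continuous.pow 2
  have i1 := (Pol.integrableOn_ball c1 0 _).mono_set hsub
  have i2 := (Pol.integrableOn_ball c2 0 _).mono_set hsub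
  have e := tr6_polar ha ha2 (by positivity) hsub (Up.continuous_Qi hF τ) fun z hz => by
    have h2 : F =ᶠ[nhds z] fun _ => 0 := by
      filter_upwards [continuousAt_const.eventually_lt Complex.continuous_re.continuousAt
        (show X - δ < z.re by linarith)] with w hw
      exact h0 w hw.le
    simp [Up.Qi, h2.fderiv_eq, h2.eq_of_nhds]
  have e2 : ∫ z in Tr X (tan (π / N)), Up.Qi F τ z < 0 := by
    unfold Up.Qi
    rw [integral_sub i1 (i2.const_mul τ), integral_const_mul]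
    exact sub_neg.2 hQ
  obtain ⟨f, f1, f2, f3, f4⟩ := Up.fold hN hF (τ := τ) hδ h0 hX (.inr rfl) (by
    simp only [neg_one_mul, PI]
    exact e ▸ e2)
  exact ⟨f, ⟨f1, f2, f3⟩, f4⟩

end Pool.Agent.PSF
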