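import Pool.Agent.P.MP_7b7370_an.TRDefs

set_option autoImplicit false

namespace Pool.Agent.PSF

open Real Set MeasureTheory Pool.Agent.PSz

lemma tr7_out {Ω : Set ℂ} {f : ℂ → ℝ} (hf : Tst Ω f) (g : ℂ → ℝ) {z : ℂ} (hz : z ∉ Ω) :
    (fun w => f w ^ 2 * g w) =ᶠ[nhds z] fun _ => 0 := by
  have h1 : f =ᶠ[nhds z] 0 := notMem_tsupport_iff_eventuallyEq.1 fun h => hz (hf.sub h)
  filter_upwards [h1] with w hw
  simp [hw]

lemma tr7_c1 {Ω : Set ℂ} (hΩ : IsOpen Ω) {f : ℂ → ℝ} (hf : Tst Ω f) {g : ℂ → ℝ}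
    (hg : ContDiffOn ℝ 1 g Ω) : ContDiff ℝ 1 (fun w => f w ^ 2 * g w) := by
  refine contDiff_iff_contDiffAt.2 fun z => ?_
  by_cases hz : z ∈ Ω
  · exact (hf.c1.contDiffAt.pow 2).mul (hg.contDiffAt (hΩ.mem_nhds hz))
  · exact contDiffAt_const.congr_of_eventuallyEq (tr7_out hf g hz)

lemma tr7_der {Ω : Set ℂ} (hΩ : IsOpen Ω) {f : ℂ → ℝ} (hf : Tst Ω f) {g : ℂ → ℝ}
    (hg : ContDiffOn ℝ 1 g Ω) (e z : ℂ) :
    fderiv ℝ (fun w => f w ^ 2 * g w) z e =
      2 * f z * fderiv ℝ f z e * g z + f z ^ 2 * fderiv ℝ g z e := by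
  by_cases hz : z ∈ Ω
  · have h1 : HasFDerivAt f (fderiv ℝ f z) z :=
      (hf.c1.differentiable one_ne_zero z).hasFDerivAt
    have h2 : HasFDerivAt g (fderiv ℝ g z) z :=
      ((hg.contDiffAt (hΩ.mem_nhds hz)).differentiableAt one_ne_zero).hasFDerivAt
    have h3 : HasFDerivAt (fun w => f w ^ 2 * g w) _ z := (h1.pow 2).mul h2
    rw [h3.fderiv]
    simp
    ring
  · have h0 : f z = 0 := image_eq_zero_of_notMem_tsupport fun h => hz (hf.sub h)
    rw [(tr7_out hf g hz).fderiv_eq, h0]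
    simp

/-- one direction of the divergence theorem -/
theorem div_zero {Ω : Set ℂ} (hΩ : IsOpen Ω) {f : ℂ → ℝ} (hf : Tst Ω f) {g : ℂ → ℝ}
    (hg : ContDiffOn ℝ 1 g Ω) (e : ℂ) :
    Integrable (fun z => 2 * f z * fderiv ℝ f z e * g z + f z ^ 2 * fderiv ℝ g z e) ∧
      ∫ z, (2 * f z * fderiv ℝ f z e * g z + f z ^ 2 * fderiv ℝ g z e) = 0 := by
  have hc := tr7_c1 hΩ hf hg
  have hs : HasCompactSupport (fun w => f w ^ 2 * g w) := by
    refine hf.cs.mono fun w hw h0 => hw ?_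
    simp [h0]
  have h1 : Integrable (fun z => fderiv ℝ (fun w => f w ^ 2 * g w) z e) :=
    ((hc.continuous_fderiv one_ne_zero).clm_apply continuous_const).integrable_of_hasCompactSupport
      (hs.fderiv_apply ℝ e)
  have h2 : Integrable (fun w => f w ^ 2 * g w) :=
    hc.continuous.integrable_of_hasCompactSupport hs
  have h3 := integral_mul_fderiv_eq_neg_fderiv_mul_of_integrable (μ := (volume : Measure ℂ))
    (f := fun _ : ℂ => (1 : ℝ)) (g := fun w => f w ^ 2 * g w) (v := e) (by simp)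
    (by simpa only [one_mul] using h1) (by simpa only [one_mul] using h2)
    (fun _ _ => differentiableAt_const _) (fun x _ => hc.differentiable one_ne_zero x)
  simp only [tr7_der hΩ hf hg e] at h1 h3
  refine ⟨h1, ?_⟩
  simpa using h3

/-- Barta inequality for the field `(g1, g2)` -/
theorem barta {Ω : Set ℂ} (hΩ : IsOpen Ω) {f : ℂ → ℝ} (hf : Tst Ω f) {g1 g2 : ℂ → ℝ}
    (h1 : ContDiffOn ℝ 1 g1 Ω) (h2 : ContDiffOn ℝ 1 g2 Ω) {μ : ℝ}
    (h : ∀ z ∈ Ω, μ + (fderiv ℝ g1 z 1 + fderiv ℝ g2 z Complex.I) + (g1 z ^ 2 + g2 z ^ 2) ≤ 0) :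
    μ * ma f ≤ en f := by
  obtain ⟨a1, b1⟩ := div_zero hΩ hf h1 1
  obtain ⟨a2, b2⟩ := div_zero hΩ hf h2 Complex.I
  have i1 : Integrable (fun z => μ * f z ^ 2) := by
    refine ((hf.c1.continuous.pow 2).integrable_of_hasCompactSupport ?_).const_mul μ
    refine hf.cs.mono fun w hw h0 => hw ?_
    simp [h0]
  have i2 : Integrable (fun z => ‖fderiv ℝ f z‖ ^ 2) := by
    refine ((hf.c1.continuous_fderiv one_ne_zero).norm.pow 2).integrable_of_hasCompactSupport ?_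
    refine (hf.cs.fderiv ℝ).mono fun w hw h0 => hw ?_
    simp [h0]
  have i3 : Integrable (fun z => μ * f z ^ 2 +
      (2 * f z * fderiv ℝ f z 1 * g1 z + f z ^ 2 * fderiv ℝ g1 z 1)) := i1.add a1
  have key := integral_mono (i3.add a2) i2 fun z => by
    show μ * f z ^ 2 + (2 * f z * fderiv ℝ f z 1 * g1 z + f z ^ 2 * fderiv ℝ g1 z 1) +
      (2 * f z * fderiv ℝ f z Complex.I * g2 z + f z ^ 2 * fderiv ℝ g2 z Complex.I) ≤
      ‖fderiv ℝ f z‖ ^ 2
    by_cases hz : z ∈ Ω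
    · have h3 := mul_nonneg (sq_nonneg (f z)) (neg_nonneg.2 (h z hz))
      rw [norm_clm_sq]
      nlinarith [sq_nonneg (fderiv ℝ f z 1 - f z * g1 z),
        sq_nonneg (fderiv ℝ f z Complex.I - f z * g2 z)]
    · have h0 : f z = 0 := image_eq_zero_of_notMem_tsupport fun h => hz (hf.sub h)
      simp [h0]
  simp only [Pi.add_apply] at key
  rw [integral_add i3 a2, integral_add i1 a1, b1, b2, integral_const_mul, add_zero, add_zero] at key
  exact key

end Pool.Agent.PSF
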