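import Pool.Agent.P.MP_7b7370_an.DCDefs

/-! Definitions for the triangle map and the link between the two models. -/

set_option autoImplicit false

namespace Pool.Agent.PSF

open Real Set MeasureTheory Pool.Agent.PSz

/-- right triangle with vertices `0`, `X`, `X - i t X` -/
def Tr (X t : ℝ) : Set ℂ := {z | z.re < X ∧ z.im < 0 ∧ -(t * z.re) < z.im}
/-- regular polygon with inradius `X` -/
def KN (N : ℕ) (X : ℝ) : Set ℂ :=
  {z | ∀ k : ℤ, z.re * cos ((2 * k + 1) * (π / N)) + z.im * sin ((2 * k + 1) * (π / N)) < X}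
/-- `C¹` and zero near the side `re = X` -/
def Tt (X : ℝ) (F : ℂ → ℝ) : Prop := ContDiff ℝ 1 F ∧ ∃ δ > 0, ∀ z : ℂ, X - δ ≤ z.re → F z = 0
/-- the mixed eigenvalue of the triangle is at least `μ` -/
def PhysLB (X t μ : ℝ) : Prop :=
  ∀ F : ℂ → ℝ, Tt X F → μ * ∫ z in Tr X t, F z ^ 2 ≤ ∫ z in Tr X t, ‖fderiv ℝ F z‖ ^ 2

/-- half strip -/
def Hs : Set ℂ := {ξ | ξ.re < 0 ∧ 0 < ξ.im ∧ ξ.im < π}
/-- quarter of the doubled strip -/
def Qs : Set ℂ := {w | 0 < w.re ∧ 0 < w.im ∧ w.im < π / 2}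
/-- model coordinates -/
def xi (n : ℝ) (p : ℝ × ℝ) : ℂ := ⟨-n * p.1, p.2⟩
noncomputable def xinv (n : ℝ) (ξ : ℂ) : ℝ × ℝ := (-ξ.re / n, ξ.im)

noncomputable def dPsi (n : ℝ) (ξ : ℂ) : ℂ :=
  1 / (n : ℂ) * Complex.exp (ξ / n) * (1 - Complex.exp ξ) ^ (-2 / (n : ℂ))
structure IsPsi (n : ℝ) (Ψ : ℂ → ℂ) : Prop where
  cont : ContinuousOn Ψ {ξ | ξ.re ≤ 0}
  der : ∀ ξ : ℂ, ξ.re < 0 → HasDerivAt Ψ (dPsi n ξ) ξ
  dec : ∃ C : ℝ, ∀ ξ : ℂ, ξ.re ≤ 0 → ‖Ψ ξ‖ ≤ C * exp (ξ.re / n)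

noncomputable def Lg (ξ : ℂ) : ℂ :=
  Complex.log ((1 + Complex.exp (ξ / 2)) / (1 - Complex.exp (ξ / 2)))
noncomputable def dLg (ξ : ℂ) : ℂ := Complex.exp (ξ / 2) / (1 - Complex.exp ξ)

/-- lower bound for the eigenvalue of the triangle of height one and slope `t ≥ 1` -/
noncomputable def mlow (t : ℝ) : ℝ :=
  π ^ 2 / 12 * min (5 + 1 / t ^ 2) (3 + 7 / t ^ 2)

lemma isOpen_Tr (X t : ℝ) : IsOpen (Tr X t) :=
  (isOpen_lt Complex.continuous_re continuous_const).inter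
    ((isOpen_lt Complex.continuous_im continuous_const).inter
      (isOpen_lt (by fun_prop) Complex.continuous_im))
lemma isOpen_Hs : IsOpen Hs :=
  (isOpen_lt Complex.continuous_re continuous_const).inter
    ((isOpen_lt continuous_const Complex.continuous_im).inter
      (isOpen_lt Complex.continuous_im continuous_const))
lemma isOpen_Qs : IsOpen Qs :=
  (isOpen_lt continuous_const Complex.continuous_re).inter
    ((isOpen_lt continuous_const Complex.continuous_im).inter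
      (isOpen_lt Complex.continuous_im continuous_const))

end Pool.Agent.PSF
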