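import Pool.Agent.P.MP_7b7370_an.OneD
import Pool.Agent.P.MP_7b7370_an.Ft

set_option autoImplicit false

namespace Pool.Agent.PSz

open Real Set MeasureTheory intervalIntegral

namespace Tri0

lemma swap {F : ℝ → ℝ → ℝ} (hF : Cont F) (a b c d : ℝ) :
    ∫ x in a..b, ∫ y in c..d, F x y = ∫ y in c..d, ∫ x in a..b, F x y :=
  intervalIntegral_intervalIntegral_swap
    ((hF.continuousOn.integrableOn_compact (isCompact_uIcc.prod isCompact_uIcc)).mono_set
      (prod_mono uIoc_subset_uIcc uIoc_subset_uIcc))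

lemma cont_int {X : Type*} [TopologicalSpace X] {F : X → ℝ → ℝ}
    (hF : Continuous fun p : X × ℝ => F p.1 p.2) (a b : ℝ) :
    Continuous fun x => ∫ y in a..b, F x y :=
  continuous_parametric_intervalIntegral_of_continuous' (f := F) hF a b

/-- differentiation under the integral sign -/
lemma hasDerivAt_param {F F' : ℝ → ℝ → ℝ} (hF : Cont F) (hF' : Cont F')
    (hd : ∀ x η, HasDerivAt (fun x => F x η) (F' x η) x) (a b x : ℝ) :
    HasDerivAt (fun x => ∫ η in a..b, F x η) (∫ η in a..b, F' x η) x := by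
  have hc := cont_int hF' a b
  have e : (fun x => ∫ η in a..b, F x η) =
      fun x => (∫ η in a..b, F 0 η) + ∫ t in (0 : ℝ)..x, ∫ η in a..b, F' t η := by
    funext x
    rw [swap hF', ← intervalIntegral.integral_add ((hF.arc 0).intervalIntegrable _ _)]
    · congr 1; funext η
      rw [integral_eq_sub_of_hasDerivAt (fun t _ => hd t η) ((hF'.ray η).intervalIntegrable _ _)]
      ring
    · exact (cont_int (F := fun η t => F' t η) (Continuous.comp
        (g := fun p : ℝ × ℝ => F' p.1 p.2) (f := fun p : ℝ × ℝ => (p.2, p.1)) hF'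
        (by fun_prop)) 0 x).intervalIntegrable _ _
  rw [e]
  exact ((hc.integral_hasStrictDerivAt 0 x).hasDerivAt).const_add _

lemma hasDerivAt_x {h : P2 → ℝ} (hh : ContDiff ℝ 1 h) (x η : ℝ) :
    HasDerivAt (fun x => h (x, x * η)) (px h (x, x * η) + η * py h (x, x * η)) x := by
  simpa using hasDerivAt_curve hh (hasDerivAt_id x) ((hasDerivAt_id x).mul_const η)

lemma hasDerivAt_eta {h : P2 → ℝ} (hh : ContDiff ℝ 1 h) (x η : ℝ) :
    HasDerivAt (fun η => h (x, x * η)) (x * py h (x, x * η)) η := by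
  simpa using hasDerivAt_curve hh (hasDerivAt_const η x) ((hasDerivAt_id η).const_mul x)

lemma hasDerivAt_mu {h : P2 → ℝ} (hh : ContDiff ℝ 1 h) (x η μ : ℝ) :
    HasDerivAt (fun μ => h (μ * x, μ * x * η))
      (x * (px h (μ * x, μ * x * η) + η * py h (μ * x, μ * x * η))) μ := by
  have := (hasDerivAt_x hh (μ * x) η).comp μ ((hasDerivAt_id μ).mul_const x)
  refine this.congr_deriv ?_
  ring

lemma dil_eq {h : P2 → ℝ} (hh : ContDiff ℝ 1 h) (a b x η : ℝ) :
    h (b * x, b * x * η) - h (a * x, a * x * η) =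
      x * ∫ μ in a..b, (px h (μ * x, μ * x * η) + η * py h (μ * x, μ * x * η)) := by
  have h1 := continuous_px hh
  have h2 := continuous_py hh
  rw [← intervalIntegral.integral_const_mul, integral_eq_sub_of_hasDerivAt
    (fun μ _ => hasDerivAt_mu hh x η μ) (by apply Continuous.intervalIntegrable; fun_prop)]

lemma cont_dil {h : P2 → ℝ} (hh : ContDiff ℝ 1 h) (a b : ℝ) : Cont fun x η =>
    ∫ μ in a..b, (px h (μ * x, μ * x * η) + η * py h (μ * x, μ * x * η)) := by
  have h1 := continuous_px hh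
  have h2 := continuous_py hh
  exact cont_int (F := fun (p : ℝ × ℝ) μ =>
    px h (μ * p.1, μ * p.1 * p.2) + p.2 * py h (μ * p.1, μ * p.1 * p.2)) (by fun_prop) a b

lemma T_param {E : ℝ → ℝ → ℝ} (hE : Cont E) (a b x0 x1 : ℝ) :
    T x0 x1 (fun x η => ∫ μ in a..b, E (μ * x) η) =
      ∫ μ in a..b, T x0 x1 (fun x η => E (μ * x) η) := by
  unfold T
  have hc : Continuous fun p : (ℝ × ℝ) × ℝ => E (p.1.2 * p.2) p.1.1 * p.2 :=
    (Continuous.comp (g := fun p : ℝ × ℝ => E p.1 p.2)
      (f := fun p : (ℝ × ℝ) × ℝ => (p.1.2 * p.2, p.1.1)) hE (by fun_prop)).mul continuous_snd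
  rw [← swap (F := fun η μ => ∫ x in x0..x1, E (μ * x) η * x)
    (cont_int (F := fun (p : ℝ × ℝ) x => E (p.2 * x) p.1 * x) hc x0 x1)]
  congr 1; funext η
  simp only [← intervalIntegral.integral_mul_const]
  exact swap (F := fun x μ => E (μ * x) η * x) (Continuous.comp
    (g := fun p : (ℝ × ℝ) × ℝ => E (p.1.2 * p.2) p.1.1 * p.2)
    (f := fun p : ℝ × ℝ => ((η, p.2), p.1)) hc (by fun_prop)) x0 x1 a b

lemma sq_int_le {a b : ℝ} (hab : a ≤ b) {g : ℝ → ℝ} (hg : Continuous g) :
    (∫ r in a..b, g r) ^ 2 ≤ (b - a) * ∫ r in a..b, g r ^ 2 := by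
  simpa using cs_interval hab (f := fun _ => 1) continuous_const hg

end Tri0

open Tri0

@[fun_prop] theorem continuous_davg {h : P2 → ℝ} (hh : ContDiff ℝ 1 h) : Continuous (davg h) := by
  have h1 := continuous_px hh
  have h2 := continuous_py hh
  exact continuous_const.mul (cont_int
    (F := fun x η => px h (x, x * η) + η * py h (x, x * η)) (by fun_prop) (-1) 1)

theorem hasDerivAt_avg {h : P2 → ℝ} (hh : ContDiff ℝ 1 h) (x : ℝ) :
    HasDerivAt (avg h) (davg h x) x := by
  have h0 := hh.continuous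
  have h1 := continuous_px hh
  have h2 := continuous_py hh
  exact (hasDerivAt_param (F := fun x η => h (x, x * η))
    (F' := fun x η => px h (x, x * η) + η * py h (x, x * η)) (by unfold Cont; fun_prop)
    (by unfold Cont; fun_prop) (hasDerivAt_x hh) (-1) 1 x).const_mul (1 / 2)

@[fun_prop] theorem contDiff_avg {h : P2 → ℝ} (hh : ContDiff ℝ 1 h) : ContDiff ℝ 1 (avg h) := by
  rw [contDiff_one_iff_deriv]
  refine ⟨fun x => (hasDerivAt_avg hh x).differentiableAt, ?_⟩
  have : deriv (avg h) = davg h := funext fun x => (hasDerivAt_avg hh x).deriv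
  rw [this]
  exact continuous_davg hh

/-- paper 10.1: deviation from the average, with the weight `1 / x ^ 2` -/
theorem exists_dev {h : P2 → ℝ} (hh : ContDiff ℝ 1 h) : ∃ Γ : ℝ → ℝ → ℝ, Cont Γ ∧
    (∀ x η, h (x, x * η) - avg h x = x * Γ x η) ∧
    ∀ x1, 0 ≤ x1 → T 0 x1 (fun x η => Γ x η ^ 2) ≤ 4 * T 0 x1 fun x η => py h (x, x * η) ^ 2 := by
  have h0 := hh.continuous
  have h2 := continuous_py hh
  set K : ℝ → ℝ → ℝ := fun x η =>
    ∫ μ in (0 : ℝ)..1, (px h (μ * x, μ * x * η) + η * py h (μ * x, μ * x * η)) with hK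
  have cK : Cont K := cont_dil hh 0 1
  have eK : ∀ x η, h (x, x * η) = h (0, 0) + x * K x η := by
    intro x η
    have := dil_eq hh 0 1 x η
    simp only [one_mul, zero_mul] at this
    simp only [hK]
    linarith
  have cΓ : Cont fun x η => K x η - (1 / 2) * ∫ ζ in (-1 : ℝ)..1, K x ζ :=
    cK.sub (continuous_const.mul ((cont_int cK (-1) 1).comp continuous_fst))
  have eΓ : ∀ x η, h (x, x * η) - avg h x =
      x * (K x η - (1 / 2) * ∫ ζ in (-1 : ℝ)..1, K x ζ) := by
    intro x η
    unfold avg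
    simp only [eK x]
    have cK' := cK.arc x
    rw [intervalIntegral.integral_add _root_.intervalIntegrable_const
      (by apply Continuous.intervalIntegrable; fun_prop),
      intervalIntegral.integral_const_mul, intervalIntegral.integral_const, smul_eq_mul]
    ring
  refine ⟨_, cΓ, eΓ, fun x1 hx1 => ?_⟩
  have cP : Cont fun x η => py h (x, x * η) ^ 2 := by unfold Cont; fun_prop
  have cI : Continuous fun x => 2 * ∫ ζ in (-1 : ℝ)..1, py h (x, x * ζ) ^ 2 :=
    continuous_const.mul (cont_int cP (-1) 1)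
  refine (T_mono (Γ' := fun x _ => 2 * ∫ ζ in (-1 : ℝ)..1, py h (x, x * ζ) ^ 2) (cΓ.pow 2)
    (cI.comp continuous_fst) le_rfl hx1 fun x hx η hη => ?_).trans (le_of_eq ?_)
  · have h3 := sq_sub_avg_le (hasDerivAt_eta hh x) (by fun_prop) (Ioo_subset_Icc_self hη)
    have h4 := eΓ x η
    unfold avg at h4
    rw [h4] at h3
    simp only [mul_pow] at h3
    rw [intervalIntegral.integral_const_mul] at h3
    have h5 : 0 < x ^ 2 := pow_pos hx.1 2
    refine le_of_mul_le_mul_left ?_ h5
    linarith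
  · rw [T_radial, T_swap cP]
    simp only [mul_assoc]
    rw [intervalIntegral.integral_const_mul]
    ring

/-- paper 10.2: dilations, with the weight `1 / x ^ 2` -/
theorem exists_dil {h : P2 → ℝ} (hh : ContDiff ℝ 1 h) {l : ℝ} (hl : 1 / 2 ≤ l) (hl2 : l ≤ 2) :
    ∃ Γ : ℝ → ℝ → ℝ, Cont Γ ∧ (∀ x η, h (l * x, l * (x * η)) - h (x, x * η) = x * Γ x η) ∧
    ∀ x1 x2, 0 ≤ x1 → x1 ≤ x2 → l * x1 ≤ x2 → T 0 x1 (fun x η => Γ x η ^ 2)
      ≤ 8 * (l - 1) ^ 2 * T 0 x2 fun x η => px h (x, x * η) ^ 2 + py h (x, x * η) ^ 2 := by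
  have h1 := continuous_px hh
  have h2 := continuous_py hh
  refine ⟨_, cont_dil hh 1 l, fun x η => ?_, fun x1 x2 hx1 hx2 hx3 => ?_⟩
  · have := dil_eq hh 1 l x η
    simp only [one_mul] at this
    rw [← mul_assoc]
    exact this
  set E : ℝ → ℝ → ℝ := fun x η => px h (x, x * η) ^ 2 + py h (x, x * η) ^ 2 with hE
  have cE : Cont E := by simp only [hE]; unfold Cont; fun_prop
  have hab : min 1 l ≤ max 1 l := min_le_max
  have hd : (max 1 l - min 1 l) ^ 2 = (l - 1) ^ 2 := by
    rcases le_total 1 l with h | h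
    · rw [max_eq_right h, min_eq_left h]
    · rw [max_eq_left h, min_eq_right h]; ring
  have cI : Cont fun x η => ∫ μ in (min 1 l)..(max 1 l), E (μ * x) η :=
    cont_int (F := fun (p : ℝ × ℝ) μ => E (μ * p.1) p.2) (Continuous.comp
      (g := fun p : ℝ × ℝ => E p.1 p.2) (f := fun p : (ℝ × ℝ) × ℝ => (p.2 * p.1.1, p.1.2)) cE
      (by fun_prop)) _ _
  have step1 := T_mono (Γ := fun x η =>
      (∫ μ in (1 : ℝ)..l, (px h (μ * x, μ * x * η) + η * py h (μ * x, μ * x * η))) ^ 2)
      (Γ' := fun x η =>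
      2 * (max 1 l - min 1 l) * ∫ μ in (min 1 l)..(max 1 l), E (μ * x) η)
    ((cont_dil hh 1 l).pow 2) (continuous_const.mul cI) le_rfl hx1 fun x _ η hη => by
      have e : (∫ μ in (1 : ℝ)..l, (px h (μ * x, μ * x * η) + η * py h (μ * x, μ * x * η))) ^ 2
          = (∫ μ in (min 1 l)..(max 1 l),
            (px h (μ * x, μ * x * η) + η * py h (μ * x, μ * x * η))) ^ 2 := by
        rcases le_total 1 l with h | h
        · rw [max_eq_right h, min_eq_left h]
        · rw [max_eq_left h, min_eq_right h, integral_symm l 1, neg_sq]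
      have b1 := sq_int_le hab
        (g := fun μ => px h (μ * x, μ * x * η) + η * py h (μ * x, μ * x * η)) (by fun_prop)
      have b2 : ∫ μ in (min 1 l)..(max 1 l),
          (px h (μ * x, μ * x * η) + η * py h (μ * x, μ * x * η)) ^ 2
          ≤ ∫ μ in (min 1 l)..(max 1 l), 2 * E (μ * x) η :=
        integral_mono_on hab (by apply Continuous.intervalIntegrable; fun_prop)
          (by simp only [hE]; apply Continuous.intervalIntegrable; fun_prop) fun μ _ => by
            have : η ^ 2 ≤ 1 := by nlinarith [hη.1, hη.2]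
            simp only [hE]
            nlinarith [sq_nonneg (px h (μ * x, μ * x * η) - η * py h (μ * x, μ * x * η)),
              mul_nonneg (sub_nonneg.2 this) (sq_nonneg (py h (μ * x, μ * x * η)))]
      rw [intervalIntegral.integral_const_mul] at b2
      have b3 := mul_le_mul_of_nonneg_left b2 (sub_nonneg.2 hab)
      rw [e]
      linarith
  rw [T_const_mul, T_param cE] at step1
  have hT : 0 ≤ T 0 x2 E := T_nonneg cE le_rfl (hx1.trans hx2) fun x _ η _ => by
    simp only [hE]; positivity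
  have cT : Continuous fun μ => T 0 x1 (fun x η => E (μ * x) η) := by
    unfold T
    exact cont_int (F := fun μ η => ∫ x in (0 : ℝ)..x1, E (μ * x) η * x)
      (cont_int (F := fun (p : ℝ × ℝ) x => E (p.1 * x) p.2 * x) ((Continuous.comp
        (g := fun p : ℝ × ℝ => E p.1 p.2) (f := fun p : (ℝ × ℝ) × ℝ => (p.1.1 * p.2, p.1.2)) cE
        (by fun_prop)).mul continuous_snd) 0 x1) (-1) 1
  have step2 : ∫ μ in (min 1 l)..(max 1 l), T 0 x1 (fun x η => E (μ * x) η)
      ≤ ∫ _ in (min 1 l)..(max 1 l), 4 * T 0 x2 E :=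
    integral_mono_on hab (cT.intervalIntegrable _ _) (by simp) fun μ hμ => by
      have m1 : 1 / 2 ≤ μ := le_trans (le_min (by norm_num) hl) hμ.1
      have m2 : μ * x1 ≤ x2 := by
        refine (mul_le_mul_of_nonneg_right hμ.2 hx1).trans ?_
        rcases le_total 1 l with h | h
        · rwa [max_eq_right h]
        · rwa [max_eq_left h, one_mul]
      rw [T_scale (by linarith : μ ≠ 0), mul_zero, div_le_iff₀ (by positivity)]
      have m3 := T_le_range (x0 := 0) cE (by positivity : 0 ≤ μ * x1) m2 fun x _ η _ => by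
        simp only [hE]; positivity
      nlinarith [mul_nonneg hT (show 0 ≤ 4 * μ ^ 2 - 1 by nlinarith)]
  rw [intervalIntegral.integral_const, smul_eq_mul] at step2
  have step3 := mul_le_mul_of_nonneg_left step2
    (show 0 ≤ 2 * (max 1 l - min 1 l) by linarith)
  rw [← hd]
  refine step1.trans (step3.trans (le_of_eq ?_))
  ring

/-- paper 10.3 -/
theorem davg_le {a : ℝ} (h0 : 0 < a) (h1 : a ≤ 1 / 1000) {h : P2 → ℝ} (hh : ContDiff ℝ 1 h) :
    sg a * T 0 1 (fun x _ => davg h x ^ 2) ≤ (1 + sg a ^ 2) * D0 a 0 1 h := by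
  have c1 := continuous_px hh
  have c2 := continuous_py hh
  have c3 := continuous_davg hh
  have hs := sg_pos h0 h1
  have cQ : Cont fun x η => (px h (x, x * η) + η * py h (x, x * η)) ^ 2 := by
    unfold Cont; fun_prop
  have b1 : T 0 1 (fun x _ => davg h x ^ 2) ≤
      T 0 1 fun x η => (px h (x, x * η) + η * py h (x, x * η)) ^ 2 := by
    rw [T_radial, T_swap cQ, ← intervalIntegral.integral_const_mul]
    refine integral_mono_on zero_le_one (by apply Continuous.intervalIntegrable; fun_prop)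
      (((cont_int cQ (-1) 1).mul continuous_id).intervalIntegrable _ _) fun x hx => ?_
    have := sq_int_le (a := -1) (b := 1) (by norm_num)
      (g := fun η => px h (x, x * η) + η * py h (x, x * η)) (by fun_prop)
    rw [← mul_assoc]
    refine mul_le_mul_of_nonneg_right ?_ hx.1
    unfold davg
    nlinarith
  refine (mul_le_mul_of_nonneg_left b1 hs.le).trans ?_
  unfold D0
  rw [← T_const_mul, ← T_const_mul]
  refine T_mono (by unfold Cont; fun_prop) (by unfold Cont; fun_prop) le_rfl zero_le_one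
    fun x _ η hη => ?_
  have e : η ^ 2 ≤ 1 := by nlinarith [hη.1, hη.2]
  set u := px h (x, x * η)
  set v := py h (x, x * η)
  have key : (1 + sg a ^ 2) * (sg a * u ^ 2 + v ^ 2 / sg a) - sg a * (u + η * v) ^ 2 =
      ((sg a ^ 2 * η * u - v) ^ 2 + sg a ^ 2 * (1 - η ^ 2) * (sg a ^ 2 * u ^ 2 + v ^ 2)) / sg a := by
    field_simp
    ring
  have : 0 ≤ ((sg a ^ 2 * η * u - v) ^ 2 +
      sg a ^ 2 * (1 - η ^ 2) * (sg a ^ 2 * u ^ 2 + v ^ 2)) / sg a := by
    have := sub_nonneg.2 e
    positivity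
  linarith

/-- paper 10.4: the energy sees the curvature of the boundary data -/
theorem lower_energy {a : ℝ} (h0 : 0 < a) (h1 : a ≤ 1 / 1000) {w : P2 → ℝ} (hw : ContDiff ℝ 1 w) :
    (∫ η in (-1 : ℝ)..1, w (1, η) * (η ^ 2 - 1 / 3)) ^ 2 ≤ 100 * D0 a 0 1 w := by
  have c0 := hw.continuous
  have c1 := continuous_px hw
  have c2 := continuous_py hw
  have hs := sg_pos h0 h1
  have hs1 : sg a ≤ 1 / 2 := by linarith [sg_le h0 h1]
  set s := sg a with hsd
  set A : ℝ → ℝ := fun x => ∫ η in (-1 : ℝ)..1, w (x, x * η) * (η ^ 2 - 1 / 3) with hA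
  set A' : ℝ → ℝ := fun x =>
    ∫ η in (-1 : ℝ)..1, (px w (x, x * η) + η * py w (x, x * η)) * (η ^ 2 - 1 / 3) with hA'
  have cA : Continuous A := cont_int (F := fun x η => w (x, x * η) * (η ^ 2 - 1 / 3))
    (by fun_prop) _ _
  have cA' : Continuous A' := cont_int (F := fun x η =>
    (px w (x, x * η) + η * py w (x, x * η)) * (η ^ 2 - 1 / 3)) (by fun_prop) _ _
  have dA : ∀ x, HasDerivAt A (A' x) x := fun x =>
    hasDerivAt_param (F := fun x η => w (x, x * η) * (η ^ 2 - 1 / 3))
      (F' := fun x η => (px w (x, x * η) + η * py w (x, x * η)) * (η ^ 2 - 1 / 3))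
      (by unfold Cont; fun_prop) (by unfold Cont; fun_prop)
      (fun x η => (hasDerivAt_x hw x η).mul_const _) (-1) 1 x
  have eA : ∀ x, A x = -(x * ∫ η in (-1 : ℝ)..1, py w (x, x * η) * ((η ^ 3 - η) / 3)) := by
    intro x
    have d : ∀ η : ℝ, HasDerivAt (fun η : ℝ => (η ^ 3 - η) / 3) (η ^ 2 - 1 / 3) η := by
      intro η
      have := ((hasDerivAt_pow 3 η).sub (hasDerivAt_id η)).div_const 3
      refine this.congr_deriv ?_
      norm_num; ring
    have := integral_mul_deriv_eq_deriv_mul (a := -1) (b := 1) (fun η _ => hasDerivAt_eta hw x η)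
      (fun η _ => d η) (by apply Continuous.intervalIntegrable; fun_prop)
      (by apply Continuous.intervalIntegrable; fun_prop)
    simp only [hA]
    rw [this, ← intervalIntegral.integral_const_mul]
    simp only [mul_assoc]
    norm_num
  set G : ℝ → ℝ → ℝ := fun x η => s * px w (x, x * η) ^ 2 + py w (x, x * η) ^ 2 / s with hG
  have cG : Cont G := by simp only [hG]; unfold Cont; fun_prop
  have small : ∀ {φ : ℝ → ℝ}, Continuous φ → (∀ η ∈ Icc (-1 : ℝ) 1, φ η ^ 2 ≤ 1 / 2) →
      ∫ η in (-1 : ℝ)..1, φ η ^ 2 ≤ 1 := by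
    intro φ hφ hb
    have := integral_mono_on (μ := volume) (by norm_num : (-1 : ℝ) ≤ 1)
      ((hφ.pow 2).intervalIntegrable _ _) (_root_.intervalIntegrable_const (c := (1 / 2 : ℝ))) hb
    rw [intervalIntegral.integral_const, smul_eq_mul] at this
    norm_num at this
    exact this
  have s1 := small (φ := fun η => (η ^ 3 - η) / 3) (by fun_prop) fun η hη => by
    have e : η ^ 2 ≤ 1 := by nlinarith [hη.1, hη.2]
    have e2 : ((η ^ 3 - η) / 3) ^ 2 = η ^ 2 * (1 - η ^ 2) ^ 2 / 9 := by ring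
    have e3 : (1 - η ^ 2) ^ 2 ≤ 1 := by nlinarith [sq_nonneg η]
    rw [e2]
    nlinarith [mul_le_one₀ e (sq_nonneg (1 - η ^ 2)) e3]
  have s2 := small (φ := fun η => η ^ 2 - 1 / 3) (by fun_prop) fun η hη => by
    have e : η ^ 2 ≤ 1 := by nlinarith [hη.1, hη.2]
    nlinarith [sq_nonneg η]
  have pt : ∀ x ∈ Icc (1 - s) 1, s * (A x / s + (x - 1 + s) / s * A' x) ^ 2 ≤
      20 * ((∫ η in (-1 : ℝ)..1, G x η) * x) := by
    intro x hx
    have x0 : 1 / 2 ≤ x := by linarith [hx.1]
    set X := ∫ η in (-1 : ℝ)..1, px w (x, x * η) ^ 2 with hX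
    set Y := ∫ η in (-1 : ℝ)..1, py w (x, x * η) ^ 2 with hY
    have X0 : 0 ≤ X := integral_nonneg (by norm_num) fun η _ => sq_nonneg _
    have Y0 : 0 ≤ Y := integral_nonneg (by norm_num) fun η _ => sq_nonneg _
    have eG : ∫ η in (-1 : ℝ)..1, G x η = s * X + Y / s := by
      simp only [hG]
      rw [intervalIntegral.integral_add (by apply Continuous.intervalIntegrable; fun_prop)
        (by apply Continuous.intervalIntegrable; fun_prop), intervalIntegral.integral_const_mul,
        intervalIntegral.integral_div]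
    have b1 : A x ^ 2 ≤ Y := by
      have := cs_interval (a := -1) (b := 1) (by norm_num) (f := fun η => py w (x, x * η))
        (g := fun η => (η ^ 3 - η) / 3) (by fun_prop) (by fun_prop)
      have t1 := this.trans (mul_le_of_le_one_right Y0 s1)
      rw [eA x, neg_sq, mul_pow]
      have : x ^ 2 ≤ 1 := by nlinarith [hx.2]
      exact (mul_le_of_le_one_left (sq_nonneg _) this).trans t1
    have b2 : A' x ^ 2 ≤ 2 * X + 2 * Y := by
      have := cs_interval (a := -1) (b := 1) (by norm_num)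
        (f := fun η => px w (x, x * η) + η * py w (x, x * η))
        (g := fun η => η ^ 2 - 1 / 3) (by fun_prop) (by fun_prop)
      have t1 := this.trans (mul_le_of_le_one_right
        (integral_nonneg (by norm_num) fun η _ => sq_nonneg _) s2)
      refine t1.trans ?_
      rw [hX, hY, ← intervalIntegral.integral_const_mul, ← intervalIntegral.integral_const_mul,
        ← intervalIntegral.integral_add (by apply Continuous.intervalIntegrable; fun_prop)
        (by apply Continuous.intervalIntegrable; fun_prop)]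
      refine integral_mono_on (by norm_num) (by apply Continuous.intervalIntegrable; fun_prop)
        (by apply Continuous.intervalIntegrable; fun_prop) fun η hη => ?_
      have : η ^ 2 ≤ 1 := by nlinarith [hη.1, hη.2]
      nlinarith [sq_nonneg (px w (x, x * η) - η * py w (x, x * η)),
        mul_nonneg (sub_nonneg.2 this) (sq_nonneg (py w (x, x * η)))]
    have k0 : 0 ≤ (x - 1 + s) / s := div_nonneg (by linarith [hx.1]) hs.le
    have k1 : (x - 1 + s) / s ≤ 1 := (div_le_one hs).2 (by linarith [hx.2])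
    set k := (x - 1 + s) / s
    have b3 : (k * A' x) ^ 2 ≤ 2 * X + 2 * Y := by
      rw [mul_pow]
      exact (mul_le_of_le_one_left (sq_nonneg _) (by nlinarith)).trans b2
    have b4 : s * (A x / s) ^ 2 ≤ Y / s := by
      rw [div_pow, show s * (A x ^ 2 / s ^ 2) = A x ^ 2 / s by field_simp]
      exact div_le_div_of_nonneg_right b1 hs.le
    have b5 : s * Y ≤ Y / s := by
      rw [le_div_iff₀ hs]
      nlinarith [mul_nonneg Y0 (show 0 ≤ 1 - s * s by nlinarith)]
    have b6 : 0 ≤ s * X := mul_nonneg hs.le X0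
    have b7 : 0 ≤ Y / s := div_nonneg Y0 hs.le
    have b8 : s * (A x / s + k * A' x) ^ 2 ≤ 2 * (s * (A x / s) ^ 2) + 2 * (s * (k * A' x) ^ 2) := by
      nlinarith [mul_nonneg hs.le (sq_nonneg (A x / s - k * A' x))]
    have b9 := mul_le_mul_of_nonneg_left b3 hs.le
    rw [eG]
    nlinarith [mul_nonneg (add_nonneg b6 b7) (show 0 ≤ x - 1 / 2 by linarith)]
  have dB : ∀ x, HasDerivAt (fun x => (x - 1 + s) / s * A x)
      (A x / s + (x - 1 + s) / s * A' x) x := by
    intro x
    have := (((((hasDerivAt_id x).sub_const 1).add_const s).div_const s).mul (dA x))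
    refine this.congr_deriv ?_
    simp only [id]; ring
  have hle : 1 - s ≤ 1 := by linarith
  have e1 := integral_eq_sub_of_hasDerivAt (a := 1 - s) (b := 1) (fun x _ => dB x)
    (by apply Continuous.intervalIntegrable; fun_prop)
  have e2 : (1 - 1 + s) / s * A 1 - (1 - s - 1 + s) / s * A (1 - s) = A 1 := by
    field_simp; ring
  rw [e2] at e1
  have q1 := sq_int_le hle (g := fun x => A x / s + (x - 1 + s) / s * A' x) (by fun_prop)
  rw [e1, show 1 - (1 - s) = s by ring, ← intervalIntegral.integral_const_mul] at q1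
  have cGI := cont_int cG (-1) 1
  have q2 := integral_mono_on (μ := volume) hle (by apply Continuous.intervalIntegrable; fun_prop)
    (by apply Continuous.intervalIntegrable; fun_prop) pt
  have q3 : T (1 - s) 1 G ≤ T 0 1 G := by
    rw [← T_split (x0 := 0) (x1 := 1 - s) (x2 := 1) cG]
    have := T_nonneg (x0 := 0) (x1 := 1 - s) cG le_rfl (by linarith) fun x _ η _ => by
      simp only [hG]; positivity
    linarith
  have q4 : 0 ≤ T 0 1 G := T_nonneg cG le_rfl zero_le_one fun x _ η _ => by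
    simp only [hG]; positivity
  have q5 := q1.trans q2
  rw [intervalIntegral.integral_const_mul, ← T_swap cG] at q5
  have e3 : A 1 = ∫ η in (-1 : ℝ)..1, w (1, η) * (η ^ 2 - 1 / 3) := by simp [hA]
  rw [← e3]
  change _ ≤ 100 * T 0 1 G
  linarith

end Pool.Agent.PSz
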