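import Pool.Agent.P.MP_7b7370_an.Final

set_option autoImplicit false

namespace Pool.Agent.P.MP_7b7370_an.VariantLargeN

/-- The Polya-Szego polygonal Faber-Krahn inequality for all simple `N`-gons and all large `N`. -/
theorem result :
    ∃ N₀ : ℕ, ∀ N : ℕ, N₀ ≤ N → ∀ (v : Fin N → ℂ) (Ω : Set ℂ) (r : ℝ) (Ω₀ : Set ℂ),
      (∀ i j : Fin N, i ≠ j →
          ∀ z ∈ segment ℝ (v i) (v (finRotate N i)) ∩ segment ℝ (v j) (v (finRotate N j)),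
            (finRotate N i = j ∧ z = v j) ∨ (finRotate N j = i ∧ z = v i)) →
      IsOpen Ω → Bornology.IsBounded Ω →
      frontier Ω = ⋃ i : Fin N, segment ℝ (v i) (v (finRotate N i)) →
      0 < r → IsOpen Ω₀ → Bornology.IsBounded Ω₀ →
      frontier Ω₀ = ⋃ i : Fin N,
          segment ℝ
            ((r : ℂ) * Complex.exp (2 * (Real.pi : ℂ) * Complex.I * (((i : ℕ) : ℂ)) / (N : ℂ)))
            ((r : ℂ) * Complex.exp (2 * (Real.pi : ℂ) * Complex.I *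
                ((((finRotate N i : Fin N) : ℕ) : ℂ)) / (N : ℂ))) →
      MeasureTheory.volume Ω₀ = MeasureTheory.volume Ω →
      sInf {q : ℝ | ∃ f : ℂ → ℝ, ContDiff ℝ 1 f ∧ HasCompactSupport f ∧ tsupport f ⊆ Ω₀ ∧
          f ≠ 0 ∧ q = (∫ x, ‖fderiv ℝ f x‖ ^ 2) / (∫ x, f x ^ 2)}
        ≤ sInf {q : ℝ | ∃ f : ℂ → ℝ, ContDiff ℝ 1 f ∧ HasCompactSupport f ∧ tsupport f ⊆ Ω ∧
          f ≠ 0 ∧ q = (∫ x, ‖fderiv ℝ f x‖ ^ 2) / (∫ x, f x ^ 2)} := by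
  obtain ⟨N₀, h⟩ := Pool.Agent.PSz.main
  exact ⟨N₀, fun N hN v Ω r Ω₀ h1 h2 h3 h4 h5 h6 h7 h8 h9 =>
    h N hN v Ω r Ω₀ ⟨h1, h2, h3, h4⟩ h5 h6 h7 h8 h9⟩

end Pool.Agent.P.MP_7b7370_an.VariantLargeN
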